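import Mathlib

namespace Pool.Agent.H87.BU

open Filter Topology

abbrev F := ZMod 2
abbrev C (X : Type) := List X →₀ F

variable {X : Type}

lemma add_self (c : C X) : c + c = 0 := by
  ext l; exact CharTwo.add_self_eq_zero _

noncomputable def s (l : List X) : C X := Finsupp.single l 1

noncomputable def lin {M : Type} [AddCommGroup M] [Module F M] (G : List X → M) : C X →ₗ[F] M :=
  Finsupp.linearCombination F G

@[simp] lemma lin_s {M : Type} [AddCommGroup M] [Module F M] (G : List X → M) (l : List X) :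
    lin G (s l) = G l := by simp [lin, s]

lemma ext_s {M : Type} [AddCommGroup M] [Module F M] {S T : C X →ₗ[F] M}
    (h : ∀ l, S (s l) = T (s l)) (c : C X) : S c = T c := by
  have : S = T := Finsupp.lhom_ext' fun l => LinearMap.ext_ring (h l)
  rw [this]

noncomputable def cons (x : X) : C X →ₗ[F] C X := lin fun l => s (x :: l)
noncomputable def mp (f : X → X) : C X →ₗ[F] C X := lin fun l => s (l.map f)

@[simp] lemma cons_s (x : X) (l : List X) : cons x (s l) = s (x :: l) := lin_s _ _
@[simp] lemma mp_s (f : X → X) (l : List X) : mp f (s l) = s (l.map f) := lin_s _ _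

noncomputable def bd : List X → C X
  | [] => 0
  | x :: l => s l + cons x (bd l)

noncomputable def D : C X →ₗ[F] C X := lin bd

@[simp] lemma D_s (l : List X) : D (s l) = bd l := lin_s _ _

lemma D_cons (x : X) (c : C X) : D (cons x c) = c + cons x (D c) :=
  ext_s (S := D.comp (cons x)) (T := LinearMap.id + (cons x).comp D) (fun l => by simp [bd]) c

lemma D_bd (l : List X) : D (bd l) = 0 := by
  induction l with
  | nil => simp [bd]
  | cons x l ih => rw [bd, map_add, D_cons, ih, map_zero, add_zero, D_s, add_self]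

lemma mp_cons (f : X → X) (x : X) (c : C X) : mp f (cons x c) = cons (f x) (mp f c) :=
  ext_s (S := (mp f).comp (cons x)) (T := (cons (f x)).comp (mp f)) (fun l => by simp) c

lemma mp_mp (f g : X → X) (c : C X) : mp f (mp g c) = mp (f ∘ g) c :=
  ext_s (S := (mp f).comp (mp g)) (T := mp (f ∘ g)) (fun l => by simp) c

lemma mp_id (c : C X) : mp id c = c :=
  ext_s (S := mp id) (T := LinearMap.id) (fun l => by simp) c

lemma bd_map (f : X → X) (l : List X) : bd (l.map f) = mp f (bd l) := by
  induction l with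
  | nil => simp [bd]
  | cons x l ih => rw [List.map_cons, bd, bd, map_add, mp_cons, ih, mp_s]

lemma D_mp (f : X → X) (c : C X) : D (mp f c) = mp f (D c) :=
  ext_s (S := D.comp (mp f)) (T := (mp f).comp D) (fun l => by simp [bd_map]) c

noncomputable def pr (f g : X → X) : List X → C X
  | [] => 0
  | x :: l => s (f x :: g x :: l.map g) + cons (f x) (pr f g l)

noncomputable def P (f g : X → X) : C X →ₗ[F] C X := lin (pr f g)

lemma P_cons (f g : X → X) (x : X) (c : C X) :
    P f g (cons x c) = cons (f x) (cons (g x) (mp g c)) + cons (f x) (P f g c) :=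
  ext_s (S := (P f g).comp (cons x))
    (T := (cons (f x)).comp ((cons (g x)).comp (mp g)) + (cons (f x)).comp (P f g))
    (fun l => by simp [P, pr]) c

lemma prism (f g : X → X) (l : List X) :
    D (pr f g l) = P f g (bd l) + s (l.map g) + s (l.map f) := by
  induction l with
  | nil => simp [pr, bd, add_self]
  | cons x l ih =>
    rw [pr, map_add, D_cons, ih, D_s, bd, bd, bd, bd_map, map_add (P f g), P_cons]
    simp only [map_add, cons_s, P, lin_s, List.map_cons]
    have h := add_self (s (f x :: l.map g))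
    refine Eq.trans ?_ (add_zero _)
    rw [← h]; abel

lemma prism' (f g : X → X) (c : C X) : D (P f g c) = P f g (D c) + mp g c + mp f c :=
  ext_s (S := D.comp (P f g)) (T := (P f g).comp D + mp g + mp f)
    (fun l => by simpa [P] using prism f g l) c

/-- chains supported on tuples with a property -/
def Sp (Q : List X → Prop) : Submodule F (C X) := Finsupp.supported F F {l | Q l}

lemma s_mem {Q : List X → Prop} {l : List X} (h : Q l) : s l ∈ Sp Q :=
  Finsupp.single_mem_supported F 1 h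

lemma lin_mem {M : Type} [AddCommGroup M] [Module F M] {Q : List X → Prop} (T : C X →ₗ[F] M)
    (N : Submodule F M) (h : ∀ l, Q l → T (s l) ∈ N) {c : C X} (hc : c ∈ Sp Q) : T c ∈ N := by
  rw [Sp, Finsupp.supported_eq_span_single] at hc
  have : Submodule.span F ((fun i => Finsupp.single i (1 : F)) '' {l | Q l}) ≤ N.comap T :=
    Submodule.span_le.2 (by rintro _ ⟨l, hl, rfl⟩; exact h l hl)
  exact this hc

lemma lin_zero {M : Type} [AddCommGroup M] [Module F M] {Q : List X → Prop} (T : C X →ₗ[F] M)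
    (h : ∀ l, Q l → T (s l) = 0) {c : C X} (hc : c ∈ Sp Q) : T c = 0 :=
  (Submodule.mem_bot F).1 (lin_mem T ⊥ (fun l hl => (Submodule.mem_bot F).2 (h l hl)) hc)

lemma pr_mem (f g : X → X) (l : List X) :
    pr f g l ∈ Sp fun m => ∀ z ∈ m, ∃ x ∈ l, z = f x ∨ z = g x := by
  induction l with
  | nil => exact Submodule.zero_mem _
  | cons x l ih =>
    refine Submodule.add_mem _ (s_mem fun z hz => ?_) (lin_mem _ _ (fun m hm => ?_) ih)
    · simp only [List.mem_cons, List.mem_map] at hz
      rcases hz with rfl | rfl | ⟨y, hy, rfl⟩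
      · exact ⟨x, by simp, Or.inl rfl⟩
      · exact ⟨x, by simp, Or.inr rfl⟩
      · exact ⟨y, by simp [hy], Or.inr rfl⟩
    · rw [cons_s]
      refine s_mem fun z hz => ?_
      rcases List.mem_cons.1 hz with rfl | hz
      · exact ⟨x, by simp, Or.inl rfl⟩
      · obtain ⟨y, hy, h⟩ := hm z hz
        exact ⟨y, by simp [hy], h⟩

def b : List (X → F) → List X → F
  | [], [_] => 1
  | t :: ts, x :: y :: l => (t x + t y) * b ts (y :: l)
  | _, _ => 0

def cup (t : X → F) (a : List X → F) : List X → F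
  | [] => 0
  | x :: l => t x * a (x :: l)

lemma cup_cons (t : X → F) (a : List X → F) (x : X) (c : C X) :
    lin (cup t a) (cons x c) = t x * lin a (cons x c) :=
  ext_s (S := (lin (cup t a)).comp (cons x)) (T := t x • (lin a).comp (cons x))
    (fun l => by simp [cup]) c

lemma b_eq (t : X → F) (ts : List (X → F)) (h : ∀ l, lin (b ts) (bd l) = 0) (l : List X) :
    b (t :: ts) l = lin (cup t (b ts)) (bd l) := by
  match l with
  | [] => simp [b, bd]
  | [x] => simp [b, bd, cup]
  | x :: y :: m =>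
    have h1 := h (x :: y :: m)
    rw [bd, map_add, lin_s, CharTwo.add_eq_zero] at h1
    rw [bd, map_add, lin_s, cup_cons, ← h1, b, cup]; ring

lemma b_cocycle (ts : List (X → F)) (l : List X) : lin (b ts) (bd l) = 0 := by
  induction ts generalizing l with
  | nil =>
    match l with
    | [] => simp [bd]
    | [x] => simp [bd, b]
    | [x, y] => simp [bd, b]; rfl
    | x :: y :: z :: m =>
      have h : ∀ (u v : X) (c : C X), lin (b []) (cons u (cons v c)) = 0 := fun u v c =>
        ext_s (S := (lin (b [])).comp ((cons u).comp (cons v))) (T := 0) (fun l => by simp [b]) c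
      rw [bd, bd]
      simp [b, h]
  | cons t ts ih =>
    have : ∀ c, lin (b (t :: ts)) c = lin (cup t (b ts)) (D c) := fun c =>
      ext_s (S := lin (b (t :: ts))) (T := (lin (cup t (b ts))).comp D)
        (fun l => by simp [b_eq t ts ih]) c
    rw [this, D_bd, map_zero]

lemma b_D (t : X → F) (ts : List (X → F)) (c : C X) :
    lin (b (t :: ts)) c = lin (cup t (b ts)) (D c) :=
  ext_s (S := lin (b (t :: ts))) (T := (lin (cup t (b ts))).comp D)
    (fun l => by simp [b_eq t ts (b_cocycle ts)]) c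

lemma b_inv (ν : X → X) (ts : List (X → F)) (l : List X)
    (h : ∀ t ∈ ts, ∀ x ∈ l, t (ν x) = t x + 1) : b ts (l.map ν) = b ts l := by
  induction ts generalizing l with
  | nil => match l with
    | [] => rfl
    | [_] => rfl
    | _ :: _ :: _ => rfl
  | cons t ts ih => match l with
    | [] => rfl
    | [_] => rfl
    | x :: y :: m =>
      have := ih (y :: m)
        (fun t ht u hu => h t (List.mem_cons_of_mem _ ht) u (List.mem_cons_of_mem _ hu))
      simp only [List.map_cons] at this ⊢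
      rw [b, b, this, h t (by simp) x (by simp), h t (by simp) y (by simp)]
      congr 1
      have : (1 : F) + 1 = 0 := rfl
      linear_combination this

lemma cup_inv (ν : X → X) (t : X → F) (ts : List (X → F)) (Q : List X → Prop)
    (h : ∀ l, Q l → ∀ t' ∈ t :: ts, ∀ x ∈ l, t' (ν x) = t' x + 1) (c : C X) (hc : c ∈ Sp Q) :
    lin (cup t (b ts)) (c + mp ν c) = lin (b ts) c := by
  have := lin_mem ((lin (cup t (b ts))).comp (LinearMap.id + mp ν) - lin (b ts)) ⊥
    (fun l hl => ?_) hc
  · exact sub_eq_zero.1 ((Submodule.mem_bot F).1 this)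
  rw [Submodule.mem_bot, LinearMap.sub_apply, sub_eq_zero]
  match l with
  | [] => cases ts <;> simp [cup, b]
  | x :: m =>
    have := b_inv ν ts (x :: m) (fun t ht => h _ hl t (List.mem_cons_of_mem _ ht))
    simp only [List.map_cons] at this
    simp only [LinearMap.comp_apply, LinearMap.add_apply, LinearMap.id_apply, mp_s, map_add,
      lin_s, List.map_cons, cup, this, h _ hl t (by simp) x (by simp)]
    have h2 := CharTwo.add_self_eq_zero (t x * b ts (x :: m))
    linear_combination h2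

lemma b_zero (ts : List (X → F)) (l : List X) (h : ∃ t ∈ ts, ∀ x ∈ l, ∀ y ∈ l, t x = t y) :
    b ts l = 0 := by
  induction ts generalizing l with
  | nil => simp at h
  | cons t ts ih => match l with
    | [] => rfl
    | [_] => rfl
    | x :: y :: m =>
      obtain ⟨t', ht', h⟩ := h
      rw [b]
      rcases List.mem_cons.1 ht' with rfl | ht'
      · rw [h x (by simp) y (by simp), CharTwo.add_self_eq_zero, zero_mul]
      · rw [ih (y :: m) ⟨t', ht', fun u hu v hv =>
          h u (List.mem_cons_of_mem _ hu) v (List.mem_cons_of_mem _ hv)⟩, mul_zero]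


/-- the unit sphere of the first `k` coordinates for the sum norm -/
def S (n k : ℕ) : Set (Fin n → ℝ) := {x | ∑ i, |x i| = 1 ∧ ∀ i : Fin n, k ≤ i.val → x i = 0}

def Good (n k : ℕ) (d : ℝ) (l : List (Fin n → ℝ)) : Prop :=
  (∀ x ∈ l, x ∈ S n k) ∧ ∀ x ∈ l, ∀ y ∈ l, dist x y ≤ d

lemma neg_S {n k : ℕ} {x : Fin n → ℝ} (h : x ∈ S n k) : -x ∈ S n k :=
  ⟨by simpa using h.1, fun i hi => by simp [h.2 i hi]⟩

lemma norm_S {n k : ℕ} {x : Fin n → ℝ} (h : x ∈ S n k) : ‖x‖ ≤ 1 :=
  (pi_norm_le_iff_of_nonneg zero_le_one).2 fun i => by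
    rw [← h.1]
    exact Finset.single_le_sum (f := fun i => |x i|) (fun _ _ => abs_nonneg _) (Finset.mem_univ i)

lemma neg_mem {n k : ℕ} {d : ℝ} {c : C (Fin n → ℝ)} (h : c ∈ Sp (Good n k d)) :
    mp Neg.neg c ∈ Sp (Good n k d) := by
  refine lin_mem _ _ (fun l hl => ?_) h
  rw [mp_s]
  refine s_mem ⟨fun x hx => ?_, fun x hx y hy => ?_⟩
  · obtain ⟨x, hx', rfl⟩ := List.mem_map.1 hx; exact neg_S (hl.1 x hx')
  · obtain ⟨x, hx', rfl⟩ := List.mem_map.1 hx
    obtain ⟨y, hy', rfl⟩ := List.mem_map.1 hy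
    rw [dist_neg_neg]; exact hl.2 x hx' y hy'

noncomputable def H {n : ℕ} (k : Fin n) (t : ℝ) (x : Fin n → ℝ) : Fin n → ℝ :=
  (1 - t) • x + t • Pi.single k 1

lemma H_mem {n : ℕ} (k : Fin n) {t : ℝ} (h0 : 0 ≤ t) (h1 : t ≤ 1) {x : Fin n → ℝ}
    (hx : x ∈ S n k) : H k t x ∈ S n (k + 1) := by
  refine ⟨?_, fun i hi => ?_⟩
  · have : ∀ i, |H k t x i| = (1 - t) * |x i| + t * (Pi.single k (1 : ℝ) : Fin n → ℝ) i := by
      intro i
      by_cases h : i = k
      · subst h; simp [H, hx.2 i le_rfl, abs_of_nonneg h0]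
      · simp [H, h, abs_mul, abs_of_nonneg (sub_nonneg.2 h1)]
    simp only [this, Finset.sum_add_distrib, ← Finset.mul_sum, hx.1]
    simp
  · have : i ≠ k := fun h => by rw [h] at hi; omega
    simp [H, hx.2 i (by omega), this]

lemma H_dist {n : ℕ} (k : Fin n) {t t' : ℝ} (h0 : 0 ≤ t) (h1 : t ≤ 1) {x y : Fin n → ℝ}
    (hy : ‖y‖ ≤ 1) : dist (H k t x) (H k t' y) ≤ dist x y + 2 * |t - t'| := by
  have : H k t x - H k t' y = (1 - t) • (x - y) + (t - t') • (Pi.single k 1 - y) := by
    simp only [H]; module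
  rw [dist_eq_norm, dist_eq_norm, this]
  refine (norm_add_le _ _).trans (add_le_add ?_ ?_)
  · rw [norm_smul, Real.norm_of_nonneg (sub_nonneg.2 h1)]
    nlinarith [norm_nonneg (x - y)]
  · rw [norm_smul, Real.norm_eq_abs, mul_comm]
    refine mul_le_mul_of_nonneg_right ((norm_sub_le _ _).trans ?_) (abs_nonneg _)
    rw [Pi.norm_single, norm_one]; linarith

lemma fill {n : ℕ} (k : Fin n) (d : ℝ) (N : ℕ) (hN : 0 < N) (h : C (Fin n → ℝ))
    (hh : h ∈ Sp (Good n k d)) (hD : D (h + mp Neg.neg h) = 0) :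
    ∃ h' ∈ Sp (Good n (k + 1) (d + 2 / N)), D h' = h + mp Neg.neg h := by
  set z := h + mp Neg.neg h with hz
  have hzm : z ∈ Sp (Good n k d) := Submodule.add_mem _ hh (neg_mem hh)
  have hNp : (0 : ℝ) < N := by exact_mod_cast hN
  have key : ∀ j : ℕ, j ≤ N → ∃ h' ∈ Sp (Good n (k + 1) (d + 2 / N)),
      D h' = z + mp (H k (j / N)) z := by
    intro j
    induction j with
    | zero =>
      refine fun _ => ⟨0, Submodule.zero_mem _, ?_⟩
      have : H k (((0 : ℕ) : ℝ) / N) = id := by funext x; simp [H]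
      rw [this, mp_id, add_self, map_zero]
    | succ j ih =>
      intro hj
      obtain ⟨h', h1, h2⟩ := ih (by omega)
      refine ⟨h' + P (H k (j / N)) (H k ((j + 1 : ℕ) / N)) z, Submodule.add_mem _ h1 ?_, ?_⟩
      · refine lin_mem _ _ (fun l hl => ?_) hzm
        rw [P, lin_s]
        refine Finsupp.supported_mono (fun m hm => ?_) (pr_mem _ _ l)
        have hj' : ((j : ℝ) + 1) ≤ N := by exact_mod_cast hj
        have hm' : ∀ u ∈ m, ∃ x ∈ l, ∃ t : ℝ, (j : ℝ) / N ≤ t ∧ t ≤ (j + 1) / N ∧ u = H k t x := by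
          intro u hu
          obtain ⟨x, hx, h | h⟩ := hm u hu
          · exact ⟨x, hx, _, le_rfl, by gcongr; linarith, h⟩
          · exact ⟨x, hx, (j + 1) / N, by gcongr; linarith, le_rfl, by simpa using h⟩
        have ht : ∀ t : ℝ, (j : ℝ) / N ≤ t → t ≤ (j + 1) / N → 0 ≤ t ∧ t ≤ 1 := fun t a1 a2 =>
          ⟨le_trans (by positivity) a1, a2.trans ((div_le_one hNp).2 hj')⟩
        refine ⟨fun u hu => ?_, fun u hu v hv => ?_⟩
        · obtain ⟨x, hx, t, a1, a2, rfl⟩ := hm' u hu
          exact H_mem k (ht t a1 a2).1 (ht t a1 a2).2 (hl.1 x hx)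
        · obtain ⟨x, hx, t, a1, a2, rfl⟩ := hm' u hu
          obtain ⟨y, hy, t', a3, a4, rfl⟩ := hm' v hv
          refine (H_dist k (ht t a1 a2).1 (ht t a1 a2).2 (norm_S (hl.1 y hy))).trans ?_
          have : |t - t'| ≤ 1 / N := by
            rw [add_div] at a2 a4
            rw [abs_le]; constructor <;> linarith
          have e : (2 : ℝ) / N = 2 * (1 / N) := by ring
          linarith [hl.2 x hx y hy]
      · rw [map_add, h2, prism', hD, map_zero, zero_add]
        have := add_self (mp (H k (j / N)) z)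
        refine Eq.trans ?_ (add_zero _)
        rw [← this]; abel
  obtain ⟨h', h1, h2⟩ := key N le_rfl
  refine ⟨h', h1, ?_⟩
  have e : H k ((N : ℝ) / N) ∘ Neg.neg = H k ((N : ℝ) / N) := by
    funext x; simp [H, hNp.ne']
  rw [h2, hz, map_add, mp_mp, e, add_self, add_zero]

lemma chains (n : ℕ) (N : ℕ) (hN : 0 < N) (k : ℕ) (hk : k ≤ n) :
    ∃ h ∈ Sp (Good (n + 1) (k + 1) (k * (2 / N))), D (h + mp Neg.neg h) = 0 ∧
      ∀ ts : List ((Fin (n + 1) → ℝ) → F), ts.length = k →
        (∀ t ∈ ts, ∀ x, x ≠ 0 → t (-x) = t x + 1) → lin (b ts) h = 1 := by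
  induction k with
  | zero =>
    refine ⟨s [Pi.single 0 1], s_mem ⟨fun x hx => ?_, fun x hx y hy => ?_⟩, ?_, fun ts hts _ => ?_⟩
    · rw [List.mem_singleton.1 hx]
      refine ⟨?_, fun i hi => Pi.single_eq_of_ne (fun h => by simp [h] at hi) _⟩
      rw [Finset.sum_eq_single 0] <;> simp +contextual
    · simp [List.mem_singleton.1 hx, List.mem_singleton.1 hy]
    · simp [bd, add_self]
    · rw [List.length_eq_zero_iff.1 hts]; simp [b]
  | succ k ih =>
    obtain ⟨h, h1, h2, h3⟩ := ih (by omega)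
    obtain ⟨h', h4, h5⟩ := fill (⟨k + 1, by omega⟩ : Fin (n + 1)) _ N hN h h1 h2
    refine ⟨h', ?_, ?_, fun ts hts ht => ?_⟩
    · convert h4 using 3; push_cast; ring
    · rw [map_add, D_mp, h5, map_add, mp_mp]
      have : (Neg.neg ∘ Neg.neg : (Fin (n + 1) → ℝ) → _) = id := by funext x; simp
      rw [this, mp_id, add_comm (mp _ h), add_self]
    · match ts, hts with
      | t :: ts, hts =>
        rw [b_D, h5, cup_inv _ t ts _ (fun l hl t' ht' x hx => ht t' ht' x (by
          rintro rfl; simpa using (hl.1 _ hx).1)) h h1]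
        exact h3 ts (by simpa using hts) fun t' ht' => ht t' (List.mem_cons_of_mem _ ht')

lemma exists_sign (n : ℕ) : ∃ σ : (Fin n → ℝ) → F, ∀ x, x ≠ 0 → σ (-x) = σ x + 1 := by
  classical
  refine ⟨fun x => if WellOrderingRel x (-x) then 1 else 0, fun x hx => ?_⟩
  have hne : x ≠ -x := fun h => hx (by
    have : (2 : ℝ) • x = 0 := by rw [two_smul]; nth_rewrite 2 [h]; simp
    simpa using this)
  simp only [neg_neg]
  rcases trichotomous_of WellOrderingRel x (-x) with h | h | h
  · rw [if_pos h, if_neg (asymm h)]; rfl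
  · exact absurd h hne
  · rw [if_pos h, if_neg (asymm h)]; rfl

/-- Borsuk-Ulam theorem on the unit sphere of the sum norm -/
theorem bu (n : ℕ) (f : (Fin (n + 1) → ℝ) → (Fin n → ℝ))
    (hf : ContinuousOn f {x | ∑ i, |x i| = 1}) (hodd : ∀ x, f (-x) = -f x) :
    ∃ x, ∑ i, |x i| = 1 ∧ f x = 0 := by
  classical
  by_contra hcon
  push Not at hcon
  have hK : IsCompact {x : Fin (n + 1) → ℝ | ∑ i, |x i| = 1} :=
    Metric.isCompact_of_isClosed_isBounded (isClosed_eq (by fun_prop) continuous_const)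
      ((Metric.isBounded_closedBall (x := 0) (r := 1)).subset fun x hx => by
        simpa using norm_S (k := n + 1) ⟨hx, fun i hi => absurd i.2 (by omega)⟩)
  obtain ⟨x₀, hx₀, hmin⟩ := hK.exists_isMinOn
    ⟨Pi.single 0 1, by
      show ∑ i, |(Pi.single 0 1 : Fin (n + 1) → ℝ) i| = 1
      rw [Finset.sum_eq_single 0] <;> simp +contextual⟩ hf.norm
  have hm : 0 < ‖f x₀‖ := norm_pos_iff.2 (hcon x₀ hx₀)
  obtain ⟨δ, hδ, hu⟩ := Metric.uniformContinuousOn_iff.1 (hK.uniformContinuousOn_of_continuous hf)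
    _ hm
  obtain ⟨N, hN⟩ := exists_nat_gt (2 * n / δ)
  have hN0 : (0 : ℝ) < N := lt_of_le_of_lt (by positivity) hN
  obtain ⟨h, h1, -, h3⟩ := chains n N (by exact_mod_cast hN0) n le_rfl
  obtain ⟨σ, hσ⟩ := exists_sign (n + 1)
  let t : Fin n → (Fin (n + 1) → ℝ) → F := fun j x =>
    if 0 < f x j then 1 else if f x j < 0 then 0 else σ x
  have h4 := h3 (List.ofFn t) (by simp) (fun t' ht' x hx => by
    obtain ⟨j, rfl⟩ := (List.mem_ofFn' _ _).1 ht'
    simp only [t, hodd, Pi.neg_apply, Left.neg_pos_iff, Left.neg_neg_iff]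
    rcases lt_trichotomy (f x j) 0 with a | a | a
    · simp [a, a.le, not_lt.2 a.le]
    · simp [a, hσ x hx]
    · simp [a, a.le, not_lt.2 a.le]; rfl)
  have h5 := lin_zero (lin (b (List.ofFn t))) (fun l hl => ?_) h1
  · rw [h4] at h5; exact absurd h5 (by decide)
  rw [lin_s]
  match l with
  | [] => cases List.ofFn t <;> rfl
  | x :: m =>
    have hx := (hl.1 x (by simp)).1
    have hn : Nonempty (Fin n) := by
      by_contra hn
      rw [not_nonempty_iff] at hn
      exact hcon x hx (Subsingleton.elim _ _)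
    obtain ⟨j, hj⟩ : ∃ j, ‖f x‖ = |f x j| := by
      obtain ⟨j, -, hj⟩ := Finset.exists_max_image Finset.univ (fun j => |f x j|)
        Finset.univ_nonempty
      exact ⟨j, le_antisymm ((pi_norm_le_iff_of_nonneg (abs_nonneg _)).2 fun i =>
        hj i (Finset.mem_univ i)) (norm_le_pi_norm (f x) j)⟩
    have hy : ∀ y ∈ x :: m, t j y = t j x := by
      intro y hy
      have a1 : dist y x < δ := by
        refine (hl.2 y hy x (by simp)).trans_lt ?_
        rw [div_lt_iff₀ hδ] at hN
        rw [← mul_div_assoc, div_lt_iff₀ hN0]; linarith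
      have a2 := hu y (hl.1 y hy).1 x hx a1
      have a3 : |f y j - f x j| < |f x j| := by
        refine lt_of_le_of_lt ?_ (a2.trans_le ((hmin hx).trans hj.le))
        rw [dist_eq_norm]; exact norm_le_pi_norm (f y - f x) j
      rcases lt_trichotomy (f x j) 0 with a | a | a
      · rw [abs_of_neg a, abs_lt] at a3
        have : f y j < 0 := by linarith
        simp [t, a, this, not_lt.2 a.le, not_lt.2 this.le]
      · rw [a] at a3; simp at a3; exact absurd a3 (not_lt.2 (abs_nonneg _))
      · rw [abs_of_pos a, abs_lt] at a3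
        have : 0 < f y j := by linarith
        simp [t, a, this]
    exact b_zero _ _ ⟨t j, (List.mem_ofFn' _ _).2 ⟨j, rfl⟩, fun u hu v hv => by
      rw [hy u hu, hy v hv]⟩

end Pool.Agent.H87.BU
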