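import Mathlib

namespace Pool.Agent.H87.AGM

open Finset

noncomputable def u (r : ℕ) : ℝ := (√((r : ℝ) + 1))⁻¹

lemma u_pos (r : ℕ) : 0 < u r := by unfold u; positivity

lemma u_le (r : ℕ) : u r ≤ 1 :=
  inv_le_one_of_one_le₀ (Real.one_le_sqrt.2 (by linarith [(Nat.cast_nonneg r : (0 : ℝ) ≤ r)]))

lemma u_sq (r : ℕ) : u r * u r = 1 / ((r : ℝ) + 1) := by
  rw [u, ← mul_inv, Real.mul_self_sqrt (by positivity), one_div]

lemma sum_u (R : ℕ) : ∑ r ∈ range R, u r ≤ 2 * √R := by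
  induction R with
  | zero => simp
  | succ R ih =>
    rw [sum_range_succ]
    have h1 : 0 < √((R : ℝ) + 1) := by positivity
    have h2 := Real.mul_self_sqrt (show (0 : ℝ) ≤ R + 1 by positivity)
    have h3 := Real.mul_self_sqrt (show (0 : ℝ) ≤ R by positivity)
    have h4 : u R ≤ 2 * √((R : ℝ) + 1) - 2 * √R := by
      rw [u, inv_le_iff_one_le_mul₀ h1]
      nlinarith [sq_nonneg (√((R : ℝ) + 1) - √R)]
    push_cast
    linarith

variable {m : ℕ}

noncomputable def cf (R : ℕ) (c : Fin m × Bool) : ℝ := if (c.1 : ℕ) < R then u c.1 else 0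

lemma cf_nonneg (R : ℕ) (c : Fin m × Bool) : 0 ≤ cf R c := by
  unfold cf; split_ifs
  exacts [(u_pos _).le, le_rfl]

lemma cf_le (R : ℕ) (c : Fin m × Bool) : cf R c ≤ 1 := by
  unfold cf; split_ifs
  exacts [u_le _, zero_le_one]

lemma sum_cf (R : ℕ) : ∑ c : Fin m × Bool, cf R c ≤ 4 * √R := by
  have h1 : ∑ r : Fin m, (if (r : ℕ) < R then u r else 0) ≤ ∑ r ∈ range R, u r := by
    rw [Fin.sum_univ_eq_sum_range (fun r => if r < R then u r else 0), ← sum_filter]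
    exact sum_le_sum_of_subset_of_nonneg (fun r hr => mem_range.2 (mem_filter.1 hr).2)
      fun r _ _ => (u_pos r).le
  simp only [Fintype.sum_prod_type, cf, Fintype.sum_bool, sum_add_distrib]
  linarith [sum_u R]

noncomputable def lam (φ : Fin m × Bool → ℕ) (R : ℕ) (a : ℕ → ℝ) : ℝ := ∑ c, cf R c * a (φ c)

lemma sum_comp_le {φ : Fin m × Bool → ℕ} (hφ : Function.Injective φ) (d : ℕ → ℝ)
    (hd : ∀ i, 0 ≤ d i) (S : Finset ℕ) (hS : ∀ i ∉ S, d i = 0) :
    ∑ c, d (φ c) ≤ ∑ i ∈ S, d i := by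
  rw [← sum_image (s := univ) (f := d) fun _ _ _ _ h => hφ h,
    ← sum_filter_of_ne (p := (· ∈ S)) fun i _ h => by_contra fun h' => h (hS i h')]
  exact sum_le_sum_of_subset_of_nonneg (fun i hi => (mem_filter.1 hi).2) fun i _ _ => hd i

section
variable {x y z : ℕ → ℝ} {A B : Finset ℕ} {t M : ℝ}
  (hy : ∀ i, y i = if i ∈ B then 0 else x i) (hz : ∀ i, z i = if i ∈ A then 0 else x i)
  (hA : ∀ i ∈ A, t ≤ |x i|) (hA' : ∀ i ∉ A, |x i| ≤ t) (hc : B.card ≤ A.card) (ht : 0 ≤ t)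
  (hM : ∀ F : Finset ℕ, ∑ i ∈ F, y i ^ 2 ≤ M ^ 2)
include hy hA hc ht

lemma card_bd : ((B \ A).card : ℝ) * t ^ 2 ≤ ∑ i ∈ A \ B, y i ^ 2 := by
  have h1 : ((B \ A).card : ℝ) ≤ (A \ B).card := by exact_mod_cast card_sdiff_le_card_sdiff_iff.2 hc
  refine (mul_le_mul_of_nonneg_right h1 (sq_nonneg t)).trans ?_
  rw [← nsmul_eq_mul, ← sum_const]
  refine sum_le_sum fun i hi => ?_
  rw [hy, if_neg (mem_sdiff.1 hi).2, ← sq_abs (x i)]
  exact pow_le_pow_left₀ ht (hA i (mem_sdiff.1 hi).1) 2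

include hz hA' hM

lemma ag2 (F : Finset ℕ) : ∑ i ∈ F, z i ^ 2 ≤ M ^ 2 := by
  have h1 : ∀ i, z i ^ 2 ≤ (if i ∉ A then y i ^ 2 else 0) + if i ∈ B \ A then t ^ 2 else 0 := by
    intro i
    rw [hz, hy]
    by_cases h1 : i ∈ A <;> by_cases h2 : i ∈ B <;> simp [h1, h2]
    rw [← sq_abs (x i)]
    exact pow_le_pow_left₀ (abs_nonneg _) (hA' i h1) 2
  refine (sum_le_sum fun i _ => h1 i).trans ?_
  rw [sum_add_distrib, ← sum_filter, ← sum_filter, sum_const, nsmul_eq_mul]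
  have h2 : ((F.filter (· ∈ B \ A)).card : ℝ) ≤ (B \ A).card := by
    exact_mod_cast card_le_card fun i hi => (mem_filter.1 hi).2
  have h3 := hM (F.filter (· ∉ A) ∪ A \ B)
  have h4 : Disjoint (F.filter (· ∉ A)) (A \ B) :=
    disjoint_left.2 fun i h1 h2 => (mem_filter.1 h1).2 (mem_sdiff.1 h2).1
  rw [sum_union h4] at h3
  linarith [card_bd hy hA hc ht, mul_le_mul_of_nonneg_right h2 (sq_nonneg t)]

lemma agl {φ : Fin m × Bool → ℕ} (hφ : Function.Injective φ) (hM0 : 0 < M)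
    (hl : ∀ R, |lam φ R y| ≤ M) (R0 : ℕ) : |lam φ R0 z| ≤ 8 * M := by
  have hz' : ∀ i, |z i| ≤ t := fun i => by
    rw [hz]; split_ifs with h
    exacts [by simpa using ht, hA' i h]
  rcases ht.eq_or_lt with rfl | ht'
  · simp [lam, fun i => abs_nonpos_iff.1 (hz' i), hM0.le]
  set R := ⌊(M / t) ^ 2⌋₊ with hR
  set R1 := min R R0 with hR1
  have h1 : t * √R1 ≤ M := by
    rw [mul_comm, ← le_div_iff₀ ht']
    refine Real.sqrt_le_iff.2 ⟨by positivity, le_trans ?_ (Nat.floor_le (by positivity))⟩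
    exact_mod_cast min_le_left _ _
  have h2 : ∀ c : Fin m × Bool, |cf R0 c - cf R1 c| ≤ t / M := by
    intro c
    unfold cf
    by_cases h3 : (c.1 : ℕ) < R0
    · by_cases h4 : (c.1 : ℕ) < R
      · simp [h3, h4, hR1]; positivity
      · have h5 : (M / t) ^ 2 ≤ (c.1 : ℕ) + 1 := (Nat.lt_floor_add_one _).le.trans (by
          have : (R : ℝ) ≤ (c.1 : ℕ) := by exact_mod_cast not_lt.1 h4
          linarith)
        rw [if_pos h3, if_neg (by omega), sub_zero, abs_of_pos (u_pos _), u, ← inv_div]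
        exact inv_anti₀ (by positivity) (Real.le_sqrt_of_sq_le h5)
    · rw [if_neg h3, if_neg (by omega)]; simp; positivity
  have h3 : ∑ c, |z (φ c) - y (φ c)| ≤ 2 * M ^ 2 / t := by
    refine (sum_comp_le hφ (fun i => |z i - y i|) (fun _ => abs_nonneg _) (A \ B ∪ B \ A)
      fun i hi => ?_).trans ?_
    · rw [hz, hy]
      by_cases h1 : i ∈ A <;> by_cases h2 : i ∈ B <;> simp [h1, h2] at hi ⊢
    rw [sum_union disjoint_sdiff_sdiff, le_div_iff₀ ht', add_mul, sum_mul, sum_mul]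
    have a1 : ∑ i ∈ A \ B, |z i - y i| * t ≤ ∑ i ∈ A \ B, y i ^ 2 := sum_le_sum fun i hi => by
      have := hA i (mem_sdiff.1 hi).1
      rw [hz, hy, if_pos (mem_sdiff.1 hi).1, if_neg (mem_sdiff.1 hi).2, zero_sub, abs_neg,
        ← sq_abs (x i)]
      nlinarith [abs_nonneg (x i)]
    have a2 : ∑ i ∈ B \ A, |z i - y i| * t ≤ ∑ i ∈ B \ A, t ^ 2 := sum_le_sum fun i hi => by
      rw [hy, if_pos (mem_sdiff.1 hi).1, sub_zero]
      nlinarith [hz' i]
    rw [sum_const, nsmul_eq_mul] at a2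
    linarith [card_bd hy hA hc ht, hM (A \ B)]
  have h4 : lam φ R0 z = lam φ R1 z + (lam φ R0 y - lam φ R1 y) +
      ∑ c, (cf R0 c - cf R1 c) * (z (φ c) - y (φ c)) := by
    simp only [lam, ← sum_sub_distrib, ← sum_add_distrib]
    exact sum_congr rfl fun c _ => by ring
  have h5 : |lam φ R1 z| ≤ 4 * M := by
    refine (abs_sum_le_sum_abs _ _).trans ((sum_le_sum fun c _ => (show _ ≤ cf R1 c * t by
      rw [abs_mul, abs_of_nonneg (cf_nonneg _ _)]
      exact mul_le_mul_of_nonneg_left (hz' _) (cf_nonneg _ _))).trans ?_)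
    rw [← sum_mul]
    nlinarith [sum_cf (m := m) R1]
  have h6 : |∑ c, (cf R0 c - cf R1 c) * (z (φ c) - y (φ c))| ≤ 2 * M := by
    refine (abs_sum_le_sum_abs _ _).trans ((sum_le_sum fun c _ =>
      (show _ ≤ t / M * |z (φ c) - y (φ c)| by
        rw [abs_mul]; exact mul_le_mul_of_nonneg_right (h2 c) (abs_nonneg _))).trans ?_)
    rw [← mul_sum]
    refine (mul_le_mul_of_nonneg_left h3 (by positivity)).trans (le_of_eq ?_)
    field_simp
  rw [h4]
  have := abs_le.1 (hl R0)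
  have := abs_le.1 (hl R1)
  have := abs_le.1 h5
  have := abs_le.1 h6
  rw [abs_le]; constructor <;> linarith

end

end Pool.Agent.H87.AGM
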