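import Mathlib
import Pool.Agent.H87.AGM1

namespace Pool.Agent.H87.AGM

open Finset Filter Topology
open scoped ENNReal

variable {κ : Type} {n : κ → ℕ} {φ : ∀ k, Fin (n k) × Bool → ℕ}
  (hφ : ∀ k, Function.Injective (φ k))

abbrev Y (κ : Type) := lp (fun _ : ℕ => ℝ) 2 × lp (fun _ : κ × ℕ => ℝ) ∞

lemma lam_single {m : ℕ} {φ : Fin m × Bool → ℕ} (hφ : Function.Injective φ) (R i : ℕ) :
    |lam φ R (Pi.single i 1)| ≤ 1 := by
  refine (abs_sum_le_sum_abs _ _).trans ((sum_le_sum fun c _ =>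
    (show _ ≤ (Pi.single i 1 : ℕ → ℝ) (φ c) from ?_)).trans ?_)
  · rw [Pi.single_apply]; split_ifs
    · rw [mul_one, abs_of_nonneg (cf_nonneg _ _)]; exact cf_le _ _
    · simp
  · simpa using sum_comp_le hφ (Pi.single i 1) (fun j => by rw [Pi.single_apply]; positivity) {i}
      fun j hj => Pi.single_eq_of_ne (by simpa using hj) _

noncomputable def ey (i : ℕ) : Y κ :=
  (lp.single 2 i 1, ⟨fun p => lam (φ p.1) p.2 (Pi.single i 1),
    memℓp_infty ⟨1, by rintro _ ⟨p, rfl⟩; exact lam_single (hφ _) _ _⟩⟩)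

noncomputable def X : Submodule ℝ (Y κ) :=
  (Submodule.span ℝ (Set.range (ey hφ))).topologicalClosure

instance : CompleteSpace (X hφ) := (Submodule.isClosed_topologicalClosure _).completeSpace_coe

noncomputable def e (i : ℕ) : X hφ :=
  ⟨ey hφ i, Submodule.le_topologicalClosure _ (Submodule.subset_span ⟨i, rfl⟩)⟩

noncomputable def co (i : ℕ) : X hφ →L[ℝ] ℝ :=
  (lp.evalCLM ℝ (fun _ : ℕ => ℝ) 2 i).comp ((ContinuousLinearMap.fst ℝ _ _).comp (X hφ).subtypeL)

lemma co_e (i j : ℕ) : co hφ i (e hφ j) = if i = j then 1 else 0 := by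
  show (lp.single 2 j (1 : ℝ) : lp (fun _ : ℕ => ℝ) 2) i = _
  simp [lp.single_apply, Pi.single_apply]

lemma snd_eq (x : X hφ) (k : κ) (R : ℕ) : x.1.2 (k, R) = lam (φ k) R fun i => co hφ i x := by
  let L : Y κ →L[ℝ] ℝ := (lp.evalCLM ℝ (fun _ : κ × ℕ => ℝ) ∞ (k, R)).comp
    (ContinuousLinearMap.snd ℝ _ _) - ∑ c, cf R c • (lp.evalCLM ℝ (fun _ : ℕ => ℝ) 2 (φ k c)).comp
      (ContinuousLinearMap.fst ℝ _ _)
  have hL : ∀ y : Y κ, L y = y.2 (k, R) - lam (φ k) R y.1 := fun y => by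
    simp only [L, lam, _root_.sub_apply, _root_.sum_apply, _root_.smul_apply]; rfl
  have : X hφ ≤ L.ker := Submodule.topologicalClosure_minimal _ (Submodule.span_le.2 (by
    rintro _ ⟨i, rfl⟩
    show L _ = 0
    rw [hL, sub_eq_zero]
    rfl)) L.isClosed_ker
  exact sub_eq_zero.1 ((hL _).symm.trans (this x.2))

lemma lam_le (x : X hφ) (k : κ) (R : ℕ) : |lam (φ k) R fun i => co hφ i x| ≤ ‖x‖ := by
  rw [← snd_eq]
  exact (lp.norm_apply_le_norm (by simp) x.1.2 (k, R)).trans (norm_snd_le x.1)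

lemma sq_le (x : X hφ) (F : Finset ℕ) : ∑ i ∈ F, co hφ i x ^ 2 ≤ ‖x‖ ^ 2 := by
  have := lp.sum_rpow_le_norm_rpow (p := 2) (by simp) x.1.1 F
  simp only [ENNReal.toReal_ofNat, Real.rpow_ofNat, Real.norm_eq_abs, sq_abs] at this
  exact this.trans (pow_le_pow_left₀ (norm_nonneg _) (norm_fst_le x.1) 2)

lemma norm_le (x : X hφ) {M : ℝ} (hM : 0 ≤ M) (h1 : ∀ F : Finset ℕ, ∑ i ∈ F, co hφ i x ^ 2 ≤ M ^ 2)
    (h2 : ∀ k R, |lam (φ k) R fun i => co hφ i x| ≤ M) : ‖x‖ ≤ M := by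
  refine max_le (lp.norm_le_of_forall_sum_le (by simp) hM fun F => ?_)
    (lp.norm_le_of_forall_le hM fun p => ?_)
  · simp only [ENNReal.toReal_ofNat, Real.rpow_ofNat, Real.norm_eq_abs, sq_abs]
    exact h1 F
  · exact (congrArg abs (snd_eq hφ x p.1 p.2)).le.trans (h2 _ _)

lemma co_sum (a : ℕ → ℝ) (A : Finset ℕ) (i : ℕ) :
    co hφ i (∑ j ∈ A, a j • e hφ j) = if i ∈ A then a i else 0 := by
  simp [co_e]

lemma dense : Dense ((Submodule.span ℝ (Set.range (e hφ)) : Submodule ℝ (X hφ)) : Set (X hφ)) := by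
  intro x
  rw [closure_subtype]
  have : Subtype.val '' (Submodule.span ℝ (Set.range (e hφ)) : Set (X hφ)) =
      Submodule.span ℝ (Set.range (ey hφ)) := by
    have := Submodule.map_span (X hφ).subtype (Set.range (e hφ))
    rw [← Set.range_comp] at this
    exact congrArg SetLike.coe this
  rw [this]
  exact x.2

lemma total (x : X hφ) (h : ∀ i, co hφ i x = 0) : x = 0 :=
  norm_le_zero_iff.1 (norm_le hφ x le_rfl (by simp [h]) (by simp [h, lam]))

lemma greedy (x : X hφ) (A B : Finset ℕ) (h : ∀ i ∈ A, ∀ j ∉ A, ‖co hφ j x‖ ≤ ‖co hφ i x‖)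
    (hc : B.card ≤ A.card) :
    ‖x - ∑ i ∈ A, co hφ i x • e hφ i‖ ≤ 8 * ‖x - ∑ i ∈ B, co hφ i x • e hφ i‖ := by
  rcases A.eq_empty_or_nonempty with rfl | hA
  · rw [card_eq_zero.1 (Nat.le_zero.1 hc)]
    linarith [norm_nonneg (x - ∑ i ∈ ∅, co hφ i x • e hφ i)]
  obtain ⟨i0, hi0, h1⟩ := exists_min_image A (fun i => |co hφ i x|) hA
  have h2 : ∀ (A : Finset ℕ) i, co hφ i (x - ∑ i ∈ A, co hφ i x • e hφ i) =
      if i ∈ A then 0 else co hφ i x := fun A i => by
    rw [map_sub, co_sum]; split_ifs <;> simp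
  refine le_of_forall_pos_le_add fun ε hε => ?_
  set y := x - ∑ i ∈ B, co hφ i x • e hφ i with hy
  have h3 : ∀ F : Finset ℕ, ∑ i ∈ F, co hφ i y ^ 2 ≤ (‖y‖ + ε / 8) ^ 2 := fun F =>
    (sq_le hφ y F).trans (pow_le_pow_left₀ (norm_nonneg _) (by linarith) 2)
  refine (norm_le hφ _ (M := 8 * (‖y‖ + ε / 8)) (by positivity) (fun F => ?_) fun k R => ?_).trans
    (by linarith)
  · refine (ag2 (h2 B) (h2 A) h1 (h i0 hi0) hc (abs_nonneg _) h3 F).trans ?_
    nlinarith [sq_nonneg (‖y‖ + ε / 8)]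
  · exact agl (h2 B) (h2 A) h1 (h i0 hi0) hc (abs_nonneg _) h3 (hφ k) (by positivity)
      (fun R => (lam_le hφ y k R).trans (by linarith)) R

theorem not_schauder
    (hint : ∀ k k', k' ≠ k → (univ.filter fun c => φ k' c ∈ univ.image (φ k)).card ≤ 2)
    (π : Equiv.Perm ℕ) (hbad : ∀ K : ℝ, ∃ (N : ℕ) (k : κ) (G : Finset (Fin (n k))),
      (∀ r ∈ G, φ k (r, true) ∈ (range N).image π ∧ φ k (r, false) ∉ (range N).image π) ∧
        K < ∑ r ∈ G, 1 / ((r : ℕ) + 1 : ℝ)) :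
    ¬ ∀ x : X hφ, Tendsto (fun N : ℕ => ∑ j ∈ range N, co hφ (π j) x • e hφ (π j)) atTop (𝓝 x) := by
  intro h
  let S : ℕ → X hφ →L[ℝ] X hφ := fun N => ∑ j ∈ (range N).image π, (co hφ j).smulRight (e hφ j)
  have hS : ∀ N x, S N x = ∑ j ∈ (range N).image π, co hφ j x • e hφ j := fun N x => by simp [S]
  obtain ⟨C, hC⟩ := banach_steinhaus (g := S) fun x => by
    obtain ⟨C, hC⟩ := (h x).norm.bddAbove_range
    refine ⟨C, fun N => hC ⟨N, ?_⟩⟩
    rw [hS, sum_image fun _ _ _ _ h => π.injective h]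
  have hC0 : 0 < C + 1 := by linarith [(norm_nonneg _).trans (hC 0)]
  obtain ⟨N, k, G, hG, hK⟩ := hbad (2 * (C + 1) ^ 2 + 4 * (C + 1))
  set H := ∑ r ∈ G, 1 / ((r : ℕ) + 1 : ℝ) with hH
  let α : Fin (n k) × Bool → ℝ := fun c => if c.1 ∈ G then (if c.2 then u c.1 else -u c.1) else 0
  let v : X hφ := ∑ c, α c • e hφ (φ k c)
  have hv : ∀ c, co hφ (φ k c) v = α c := fun c => by simp [v, co_e, (hφ k).eq_iff]
  have hv0 : ∀ i ∉ univ.image (φ k), co hφ i v = 0 := fun i hi => by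
    simp only [v, map_sum, map_smul, co_e]
    exact sum_eq_zero fun c _ => by rw [if_neg fun h => hi (mem_image.2 ⟨c, mem_univ _, h.symm⟩)]; simp
  have hα : ∀ c, |α c| ≤ 1 := fun c => by
    simp only [α]; split_ifs <;> simp [abs_of_pos (u_pos _), u_le]
  have hH0 : 0 < H := lt_trans (by positivity) hK
  have h1 : ‖v‖ ≤ H / (2 * (C + 1)) + (C + 1) + 2 := by
    refine norm_le hφ v (by positivity) (fun F => ?_) fun k' R => ?_
    · have a1 : ∑ i ∈ F, co hφ i v ^ 2 ≤ ∑ i ∈ univ.image (φ k), co hφ i v ^ 2 := by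
        rw [← sum_filter_of_ne (p := (· ∈ univ.image (φ k))) fun i _ h =>
          by_contra fun h' => h (by rw [hv0 i h']; simp)]
        exact sum_le_sum_of_subset_of_nonneg (fun i hi => (mem_filter.1 hi).2)
          fun i _ _ => sq_nonneg _
      have a2 : ∑ c, α c ^ 2 = 2 * H := by
        simp only [Fintype.sum_prod_type, Fintype.sum_bool, α, sq, hH, ← u_sq]
        simp [two_mul, sum_add_distrib]
      rw [sum_image fun _ _ _ _ h => hφ k h] at a1
      simp only [hv, a2] at a1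
      have a3 : H / (2 * (C + 1)) * (C + 1) = H / 2 := by field_simp
      have a4 : 0 < H / (2 * (C + 1)) := by positivity
      nlinarith [sq_nonneg (H / (2 * (C + 1)) - (C + 1))]
    · have a4 : 0 < H / (2 * (C + 1)) := by positivity
      by_cases hk : k' = k
      · subst hk
        have : (lam (φ k') R fun i => co hφ i v) = 0 := by
          simp only [lam, hv, Fintype.sum_prod_type, Fintype.sum_bool, α, cf]
          exact sum_eq_zero fun r _ => by split_ifs <;> simp_all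
        rw [this, abs_zero]; positivity
      · have a5 : ∀ c, |cf R c * co hφ (φ k' c) v| ≤
            if φ k' c ∈ univ.image (φ k) then 1 else 0 := fun c => by
          split_ifs with h
          · obtain ⟨c', -, h⟩ := mem_image.1 h
            rw [← h, hv, abs_mul, abs_of_nonneg (cf_nonneg _ _)]
            exact mul_le_one₀ (cf_le _ _) (abs_nonneg _) (hα _)
          · simp [hv0 _ h]
        refine (abs_sum_le_sum_abs _ _).trans ((sum_le_sum fun c _ => a5 c).trans ?_)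
        rw [sum_boole]
        have : ((univ.filter fun c => φ k' c ∈ univ.image (φ k)).card : ℝ) ≤ 2 := by
          exact_mod_cast hint k k' hk
        linarith
  have h2 : (lam (φ k) (n k) fun i => co hφ i (S N v)) = H := by
    simp only [lam, hS, co_sum, hv, Fintype.sum_prod_type, Fintype.sum_bool, α, cf, hH, ← u_sq]
    rw [← sum_subset (subset_univ G) fun r _ hr => by simp [hr]]
    exact sum_congr rfl fun r hr => by simp [hr, (hG r hr).1, (hG r hr).2]
  have h3 := (le_abs_self _).trans ((lam_le hφ (S N v) k (n k)).trans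
    ((S N).le_of_opNorm_le_of_le ((hC N).trans (by linarith : C ≤ C + 1)) h1))
  have a3 : (C + 1) * (H / (2 * (C + 1))) = H / 2 := by field_simp
  rw [h2] at h3
  nlinarith

end Pool.Agent.H87.AGM
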