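import Mathlib
import Pool.Agent.H87.AGM1

namespace Pool.Agent.H87.AGM

open Finset Polynomial

abbrev Co (n : ℕ) := Fin n × Bool

section
variable {n : ℕ} {F : Type} [Field F] [Fintype F] [DecidableEq F] (col : Co n → F)
  (γ : Equiv.Perm (Co n) → F)

def pt (k : Equiv.Perm (Co n) × F × F) (c : Co n) : Co n × F :=
  (k.1 c, γ k.1 * col (k.1 c) ^ 2 + k.2.2 * col (k.1 c) + k.2.1)

lemma pt_inj (k : Equiv.Perm (Co n) × F × F) : Function.Injective (pt col γ k) :=
  fun _ _ h => k.1.injective (congrArg Prod.fst h)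

lemma pt_int (hc : Function.Injective col) (hγ : Function.Injective γ)
    {k k' : Equiv.Perm (Co n) × F × F} (h : k' ≠ k) :
    (univ.filter fun c => pt col γ k' c ∈ univ.image (pt col γ k)).card ≤ 2 := by
  set Q : F[X] := C (γ k'.1 - γ k.1) * X ^ 2 + C (k'.2.2 - k.2.2) * X + C (k'.2.1 - k.2.1) with hQ
  have hQ0 : Q ≠ 0 := fun h0 => h (by
    have a2 := congrArg (coeff · 2) h0
    have a1 := congrArg (coeff · 1) h0
    have a0 := congrArg (coeff · 0) h0
    simp only [hQ, coeff_add, coeff_C_mul, coeff_X_pow, coeff_X, coeff_C, coeff_zero] at a0 a1 a2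
    simp [sub_eq_zero] at a0 a1 a2
    exact Prod.ext (hγ a2) (Prod.ext a0 a1))
  rw [← card_image_of_injective _ (hc.comp k'.1.injective)]
  refine (card_le_degree_of_subset_roots (p := Q) fun x hx => ?_).trans natDegree_quadratic_le
  obtain ⟨c, h1, rfl⟩ := mem_image.1 hx
  obtain ⟨c', -, h2⟩ := mem_image.1 (mem_filter.1 h1).2
  have h3 := congrArg Prod.fst h2
  have h4 := congrArg Prod.snd h2
  simp only [pt] at h3 h4
  rw [mem_roots hQ0]
  simp only [hQ, IsRoot, eval_add, eval_mul, eval_C, eval_pow, eval_X, Function.comp]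
  rw [h3] at h4
  linear_combination -h4

lemma pt_count (hc : Function.Injective col) (τ : Equiv.Perm (Co n)) {c c' : Co n} (h : c ≠ c')
    (P : Co n × F → Prop) [DecidablePred P] :
    (univ.filter fun ab : F × F => P (pt col γ (τ, ab) c) ∧ ¬ P (pt col γ (τ, ab) c')).card =
      (univ.filter fun y => P (τ c, y)).card * (univ.filter fun y => ¬ P (τ c', y)).card := by
  rw [← card_product]
  have h1 : col (τ c) - col (τ c') ≠ 0 := sub_ne_zero.2 fun h' => h (τ.injective (hc h'))
  have h2 : Function.Injective fun ab : F × F =>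
      ((pt col γ (τ, ab) c).2, (pt col γ (τ, ab) c').2) := by
    intro p q hpq
    simp only [pt, Prod.mk.injEq] at hpq
    have h3 : p.2 = q.2 := mul_right_cancel₀ h1 (by linear_combination hpq.1 - hpq.2)
    exact Prod.ext (by linear_combination hpq.1 - col (τ c) * h3) h3
  refine card_bijective _ (Finite.injective_iff_bijective.1 h2) fun ab => ?_
  simp [pt]

theorem bad (hc : Function.Injective col) (h4 : 4 ≤ Fintype.card F) (g : Co n × F → ℕ)
    (hg : Function.Injective g) (π : Equiv.Perm ℕ) (hn : 0 < n) :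
    ∃ (N : ℕ) (k : Equiv.Perm (Co n) × F × F) (G : Finset (Fin n)),
      (∀ r ∈ G, g (pt col γ k (r, true)) ∈ (range N).image π ∧
        g (pt col γ k (r, false)) ∉ (range N).image π) ∧
      (∑ r ∈ range n, 1 / ((r : ℝ) + 1)) / 8 ≤ ∑ r ∈ G, 1 / ((r : ℕ) + 1 : ℝ) := by
  set p := Fintype.card F with hp
  let d : ℕ → Co n → ℕ := fun N c => (univ.filter fun y => g (c, y) ∈ (range N).image π).card
  let hv : ℕ → Finset (Co n) := fun N => univ.filter fun c => p ≤ 2 * d N c
  have hd1 : ∀ N c, d N c ≤ d (N + 1) c := fun N c => card_le_card fun y hy =>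
    mem_filter.2 ⟨mem_univ _, image_subset_image (range_subset_range.2 N.le_succ)
      (mem_filter.1 hy).2⟩
  have hd2 : ∀ N c, d (N + 1) c ≤ d N c + 1 := fun N c => by
    have : (univ.filter fun y => g (c, y) = π N).card ≤ 1 := card_le_one.2 fun y hy z hz =>
      congrArg Prod.snd (hg ((mem_filter.1 hy).2.trans (mem_filter.1 hz).2.symm))
    refine le_trans (card_le_card (t := (univ.filter fun y => g (c, y) ∈ (range N).image π) ∪
      univ.filter fun y => g (c, y) = π N) fun y hy => ?_)
      ((card_union_le _ _).trans (Nat.add_le_add_left this _))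
    have := (mem_filter.1 hy).2
    rw [range_add_one, image_insert, mem_insert] at this
    simpa [or_comm] using this
  have hcard : Fintype.card (Co n) = 2 * n := by simp [mul_comm]
  have hex : ∃ N, n ≤ (hv N).card := by
    refine ⟨univ.sup (fun q => π.symm (g q)) + 1, ?_⟩
    have : ∀ c, d (univ.sup (fun q => π.symm (g q)) + 1) c = p := fun c => by
      simp only [d]
      rw [filter_true_of_mem fun y _ => mem_image.2 ⟨π.symm (g (c, y)), mem_range.2
        (Nat.lt_succ_of_le (le_sup (f := fun q => π.symm (g q)) (mem_univ _))), by simp⟩]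
      rfl
    simp only [hv, this]
    rw [filter_true_of_mem fun _ _ => by omega, card_univ, hcard]
    omega
  have h0 : Nat.find hex ≠ 0 := fun h => by
    have := Nat.find_spec hex
    rw [h, show hv 0 = ∅ from filter_false_of_mem fun c _ => by simp [d]; omega] at this
    simp at this
    omega
  obtain ⟨N, hN⟩ := Nat.exists_eq_succ_of_ne_zero h0
  have h1 : n ≤ (hv (N + 1)).card := by have := Nat.find_spec hex; rwa [hN] at this
  have h2 : (hv N).card ≤ n := (not_le.1 (Nat.find_min hex (by omega))).le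
  obtain ⟨S, hS1, hS2, hS3⟩ := exists_subsuperset_card_eq (s := hv N) (t := hv (N + 1))
    (fun c hc => mem_filter.2 ⟨mem_univ _, (mem_filter.1 hc).2.trans
      (Nat.mul_le_mul_left 2 (hd1 N c))⟩) h2 h1
  have e : {c : Co n // c.2 = true} ≃ {c : Co n // c ∈ S} := Fintype.equivOfCardEq (by
    rw [Fintype.card_coe, hS3, Fintype.card_subtype]
    rw [show (univ.filter fun c : Co n => c.2 = true) = univ ×ˢ {true} by ext ⟨r, b⟩; simp]
    simp)
  let τ := e.extendSubtype
  let G : F × F → Finset (Fin n) := fun ab => univ.filter fun r =>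
    g (pt col γ (τ, ab) (r, true)) ∈ (range (N + 1)).image π ∧
      g (pt col γ (τ, ab) (r, false)) ∉ (range (N + 1)).image π
  have h5 : ∀ r : Fin n, (p : ℝ) ^ 2 / 8 ≤ (univ.filter fun ab => r ∈ G ab).card := by
    intro r
    have a1 := pt_count col γ hc τ (c := (r, true)) (c' := (r, false)) (by simp)
      fun q => g q ∈ (range (N + 1)).image π
    have a2 : p ≤ 2 * d (N + 1) (τ (r, true)) :=
      (mem_filter.1 (hS2 (e.extendSubtype_mem (r, true) rfl))).2
    have a3 : ¬ p ≤ 2 * d N (τ (r, false)) := fun h =>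
      e.extendSubtype_not_mem (r, false) (by simp) (hS1 (mem_filter.2 ⟨mem_univ _, h⟩))
    have a4 := card_filter_add_card_filter_not (s := (univ : Finset F))
      fun y => g (τ (r, false), y) ∈ (range (N + 1)).image π
    have a5 := hd2 N (τ (r, false))
    rw [card_univ] at a4
    have a6 : p ≤ 4 * (univ.filter fun y => g (τ (r, false), y) ∉ (range (N + 1)).image π).card := by
      simp only [d] at a3 a5; omega
    simp only [G, mem_filter, mem_univ, true_and]
    rw [a1, div_le_iff₀ (by norm_num)]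
    have := Nat.mul_le_mul a2 a6
    simp only [d] at this
    exact_mod_cast (by nlinarith : p ^ 2 ≤ _ * _ * 8)
  obtain ⟨ab, -, h6⟩ := Finset.exists_le_of_sum_le (s := (univ : Finset (F × F))) univ_nonempty
    (f := fun _ => (∑ r ∈ range n, 1 / ((r : ℝ) + 1)) / 8)
    (g := fun ab => ∑ r ∈ G ab, 1 / ((r : ℕ) + 1 : ℝ)) (by
      rw [sum_comm' (t' := univ) (s' := fun r => univ.filter fun ab => r ∈ G ab) (by simp),
        ← Fin.sum_univ_eq_sum_range (fun r => 1 / ((r : ℝ) + 1)), sum_const, card_univ,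
        Fintype.card_prod, nsmul_eq_mul, sum_div, mul_sum]
      refine sum_le_sum fun r _ => ?_
      rw [sum_const, nsmul_eq_mul]
      have := mul_le_mul_of_nonneg_right (h5 r) (show (0 : ℝ) ≤ 1 / ((r : ℕ) + 1) by positivity)
      push_cast
      linarith)
  exact ⟨N + 1, (τ, ab), G ab, fun r hr => (mem_filter.1 hr).2, h6⟩

end

theorem design : ∃ (κ : Type) (n : κ → ℕ) (φ : ∀ k, Fin (n k) × Bool → ℕ),
    (∀ k, Function.Injective (φ k)) ∧
    (∀ k k', k' ≠ k → (univ.filter fun c => φ k' c ∈ univ.image (φ k)).card ≤ 2) ∧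
    ∀ (π : Equiv.Perm ℕ) (K : ℝ), ∃ (N : ℕ) (k : κ) (G : Finset (Fin (n k))),
      (∀ r ∈ G, φ k (r, true) ∈ (range N).image π ∧ φ k (r, false) ∉ (range N).image π) ∧
        K < ∑ r ∈ G, 1 / ((r : ℕ) + 1 : ℝ) := by
  choose p hp1 hp2 using fun n : ℕ =>
    Nat.exists_infinite_primes (Fintype.card (Co n) + Fintype.card (Equiv.Perm (Co n)) + 4)
  have : ∀ n, Fact (p n).Prime := fun n => ⟨hp2 n⟩
  have col : ∀ n, Co n ↪ ZMod (p n) := fun n => (Function.Embedding.nonempty_of_card_le
    (by rw [ZMod.card]; linarith [hp1 n])).some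
  have γ : ∀ n, Equiv.Perm (Co n) ↪ ZMod (p n) := fun n => (Function.Embedding.nonempty_of_card_le
    (by rw [ZMod.card]; linarith [hp1 n])).some
  choose g hg using fun n => Countable.exists_injective_nat (Co n × ZMod (p n))
  have hg' : ∀ n, Function.Injective fun q => Nat.pair n (g n q) := fun n _ _ h =>
    hg n (Nat.pair_eq_pair.1 h).2
  refine ⟨Σ n : ℕ, Equiv.Perm (Co n) × ZMod (p n) × ZMod (p n), fun k => k.1,
    fun k c => Nat.pair k.1 (g k.1 (pt (col k.1) (γ k.1) k.2 c)),
    fun k => (hg' k.1).comp (pt_inj _ _ _), ?_, fun π K => ?_⟩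
  · rintro ⟨n, k⟩ ⟨n', k'⟩ h
    by_cases hn : n' = n
    · subst hn
      refine le_trans (card_le_card fun c hc => ?_)
        (pt_int (col n') (γ n') (col n').2 (γ n').2 (k := k) (k' := k') fun h' => h (by rw [h']))
      obtain ⟨c', -, h1⟩ := mem_image.1 (mem_filter.1 hc).2
      exact mem_filter.2 ⟨mem_univ _, mem_image.2 ⟨c', mem_univ _, hg' n' h1⟩⟩
    · rw [filter_false_of_mem fun c _ hc => by
        obtain ⟨c', -, h1⟩ := mem_image.1 hc
        exact hn (Nat.pair_eq_pair.1 h1).1.symm]
      simp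
  · obtain ⟨n, h1, h2⟩ := ((Real.tendsto_sum_range_one_div_nat_succ_atTop.eventually_gt_atTop
      (8 * K)).and (Filter.eventually_gt_atTop 0)).exists
    obtain ⟨N, k, G, h3, h4⟩ := bad (col n) (γ n) (col n).2 (by rw [ZMod.card]; linarith [hp1 n])
      _ (hg' n) π h2
    exact ⟨N, ⟨n, k⟩, G, h3, by linarith⟩

end Pool.Agent.H87.AGM
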