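import Mathlib

namespace Pool.Agent.H87.BAC

open Filter Topology

variable (A : Type) [NormedRing A] [NormedAlgebra ℂ A]

def Bil : Type := A →L[ℂ] A →L[ℂ] A

noncomputable instance : NormedAddCommGroup (Bil A) :=
  inferInstanceAs (NormedAddCommGroup (A →L[ℂ] A →L[ℂ] A))
noncomputable instance : NormedSpace ℂ (Bil A) :=
  inferInstanceAs (NormedSpace ℂ (A →L[ℂ] A →L[ℂ] A))

variable {A}

def Bil.ap (Φ : Bil A) : A →L[ℂ] A →L[ℂ] A := Φ

lemma Bil.ext' {Φ Ψ : Bil A} (h : ∀ u v, Φ.ap u v = Ψ.ap u v) : Φ = Ψ :=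
  ContinuousLinearMap.ext fun u => ContinuousLinearMap.ext fun v => h u v

lemma Bil.norm_le (Φ : Bil A) {C : ℝ} (hC : 0 ≤ C) (h : ∀ u v, ‖Φ.ap u v‖ ≤ C * ‖u‖ * ‖v‖) :
    ‖Φ‖ ≤ C := ContinuousLinearMap.opNorm_le_bound₂ Φ.ap hC h

lemma Bil.le_norm (Φ : Bil A) (u v : A) : ‖Φ.ap u v‖ ≤ ‖Φ‖ * ‖u‖ * ‖v‖ :=
  ContinuousLinearMap.le_opNorm₂ Φ.ap u v

@[simp] lemma Bil.add_ap (Φ Ψ : Bil A) (u v : A) : (Φ + Ψ).ap u v = Φ.ap u v + Ψ.ap u v := rfl
@[simp] lemma Bil.sub_ap (Φ Ψ : Bil A) (u v : A) : (Φ - Ψ).ap u v = Φ.ap u v - Ψ.ap u v := rfl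
@[simp] lemma Bil.smul_ap (t : ℂ) (Φ : Bil A) (u v : A) : (t • Φ).ap u v = t • Φ.ap u v := rfl
@[simp] lemma Bil.zero_ap (u v : A) : (0 : Bil A).ap u v = 0 := rfl

lemma Bil.sum_ap {I : Type} (s : Finset I) (Φ : I → Bil A) (u v : A) :
    (∑ i ∈ s, Φ i).ap u v = ∑ i ∈ s, (Φ i).ap u v := by
  classical
  induction s using Finset.induction_on with
  | empty => simp
  | insert i s hi ih => simp [Finset.sum_insert hi, ih]

/-- pre and post composition -/
noncomputable def Bil.tw (S P Q : A →L[ℂ] A) (Φ : Bil A) : Bil A :=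
  ((ContinuousLinearMap.compL ℂ A A A S).comp
    (((ContinuousLinearMap.compL ℂ A A A).flip Q).comp (Φ.ap.comp P)) : A →L[ℂ] A →L[ℂ] A)

@[simp] lemma Bil.tw_ap (S P Q : A →L[ℂ] A) (Φ : Bil A) (u v : A) :
    (Bil.tw S P Q Φ).ap u v = S (Φ.ap (P u) (Q v)) := rfl

noncomputable def mulB : Bil A := ContinuousLinearMap.mul ℂ A

@[simp] lemma mulB_ap (u v : A) : (mulB : Bil A).ap u v = u * v := rfl

noncomputable def Lm (a : A) : A →L[ℂ] A := ContinuousLinearMap.mul ℂ A a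
noncomputable def Rm (a : A) : A →L[ℂ] A := (ContinuousLinearMap.mul ℂ A).flip a

@[simp] lemma Lm_ap (a u : A) : Lm a u = a * u := rfl
@[simp] lemma Rm_ap (a u : A) : Rm a u = u * a := rfl

noncomputable def lft (a : A) : Bil A →L[ℂ] Bil A :=
  LinearMap.mkContinuous
    { toFun := fun Φ => Bil.tw 1 (Lm a) 1 Φ
      map_add' := fun _ _ => Bil.ext' fun _ _ => rfl
      map_smul' := fun _ _ => Bil.ext' fun _ _ => rfl } ‖a‖ (fun Φ => by
    refine Bil.norm_le _ (by positivity) fun u v => ?_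
    refine (Φ.le_norm (a * u) v).trans ?_
    have := norm_mul_le a u
    calc ‖Φ‖ * ‖a * u‖ * ‖v‖ ≤ ‖Φ‖ * (‖a‖ * ‖u‖) * ‖v‖ := by gcongr
      _ = _ := by ring)

noncomputable def rgt (a : A) : Bil A →L[ℂ] Bil A :=
  LinearMap.mkContinuous
    { toFun := fun Φ => Bil.tw 1 1 (Rm a) Φ
      map_add' := fun _ _ => Bil.ext' fun _ _ => rfl
      map_smul' := fun _ _ => Bil.ext' fun _ _ => rfl } ‖a‖ (fun Φ => by
    refine Bil.norm_le _ (by positivity) fun u v => ?_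
    refine (Φ.le_norm u (v * a)).trans ?_
    have := norm_mul_le v a
    calc ‖Φ‖ * ‖u‖ * ‖v * a‖ ≤ ‖Φ‖ * ‖u‖ * (‖v‖ * ‖a‖) := by gcongr
      _ = _ := by ring)

@[simp] lemma lft_ap (a : A) (Φ : Bil A) (u v : A) : (lft a Φ).ap u v = Φ.ap (a * u) v := rfl
@[simp] lemma rgt_ap (a : A) (Φ : Bil A) (u v : A) : (rgt a Φ).ap u v = Φ.ap u (v * a) := rfl

lemma norm_lft (a : A) : ‖lft a‖ ≤ ‖a‖ := LinearMap.mkContinuous_norm_le _ (norm_nonneg _) _
lemma norm_rgt (a : A) : ‖rgt a‖ ≤ ‖a‖ := LinearMap.mkContinuous_norm_le _ (norm_nonneg _) _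

def Nat' (T : Bil A →L[ℂ] A) : Prop :=
  ∀ (S : A →L[ℂ] A) (Φ Ψ : Bil A), (∀ u v, Ψ.ap u v = S (Φ.ap u v)) → T Ψ = S (T Φ)

variable (A) in
noncomputable def Xs : Submodule ℂ (Bil A →L[ℂ] A) where
  carrier := {T | Nat' T ∧ T mulB = 0}
  add_mem' := fun {a b} ha hb =>
    ⟨fun S Φ Ψ h => by simp [ha.1 S Φ Ψ h, hb.1 S Φ Ψ h], by simp [ha.2, hb.2]⟩
  zero_mem' := ⟨fun S Φ Ψ h => by simp, by simp⟩
  smul_mem' := fun c a ha => ⟨fun S Φ Ψ h => by simp [ha.1 S Φ Ψ h], by simp [ha.2]⟩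

lemma isClosed_Xs : IsClosed (Xs A : Set (Bil A →L[ℂ] A)) := by
  have : (Xs A : Set (Bil A →L[ℂ] A)) =
      (⋂ (S : A →L[ℂ] A) (Φ : Bil A) (Ψ : Bil A) (_ : ∀ u v, Ψ.ap u v = S (Φ.ap u v)),
        {T : Bil A →L[ℂ] A | T Ψ = S (T Φ)}) ∩ {T | T mulB = 0} := by
    ext T; simp [Xs, Nat']
  rw [this]
  refine IsClosed.inter ?_ (isClosed_eq (by fun_prop) continuous_const)
  exact isClosed_iInter fun S => isClosed_iInter fun Φ => isClosed_iInter fun Ψ =>
    isClosed_iInter fun _ => isClosed_eq (by fun_prop) (by fun_prop)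

variable (A) in
def X : Type := Xs A

noncomputable instance : NormedAddCommGroup (X A) := inferInstanceAs (NormedAddCommGroup (Xs A))
noncomputable instance : NormedSpace ℂ (X A) := inferInstanceAs (NormedSpace ℂ (Xs A))
instance [CompleteSpace A] : CompleteSpace (X A) := isClosed_Xs.completeSpace_coe

def X.val (T : X A) : Bil A →L[ℂ] A := Subtype.val T
lemma X.prop (T : X A) : Nat' T.val ∧ T.val mulB = 0 := Subtype.property T
lemma X.ext' {S T : X A} (h : ∀ Φ, S.val Φ = T.val Φ) : S = T :=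
  Subtype.ext (ContinuousLinearMap.ext h)
lemma X.norm_val (T : X A) : ‖T.val‖ = ‖T‖ := rfl
@[simp] lemma X.add_val (S T : X A) (Φ : Bil A) : (S + T).val Φ = S.val Φ + T.val Φ := rfl
@[simp] lemma X.sub_val (S T : X A) (Φ : Bil A) : (S - T).val Φ = S.val Φ - T.val Φ := rfl
@[simp] lemma X.smul_val (t : ℂ) (T : X A) (Φ : Bil A) : (t • T).val Φ = t • T.val Φ := rfl

noncomputable def X.mk (T : Bil A →L[ℂ] A) (h1 : Nat' T) (h2 : T mulB = 0) : X A :=
  (⟨T, h1, h2⟩ : Xs A)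

@[simp] lemma X.mk_val (T : Bil A →L[ℂ] A) (h1 : Nat' T) (h2 : T mulB = 0) :
    (X.mk T h1 h2).val = T := rfl

noncomputable def LX : A →L[ℂ] X A →L[ℂ] X A :=
  LinearMap.mkContinuous₂ (LinearMap.mk₂ ℂ
    (fun a T => X.mk (T.val.comp (lft a))
      (fun S Φ Ψ h => T.prop.1 S _ _ fun u v => h _ _)
      (by
        have := T.prop.1 (Lm a) mulB (lft a mulB) (fun u v => by simp [mul_assoc])
        simp [this, T.prop.2]))
    (fun a b T => X.ext' fun Φ => by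
      have : lft (a + b) Φ = lft a Φ + lft b Φ := Bil.ext' fun u v => by simp [add_mul]
      simp [this])
    (fun t a T => X.ext' fun Φ => by
      have : lft (t • a) Φ = t • lft a Φ := Bil.ext' fun u v => by simp
      simp [this])
    (fun a S T => X.ext' fun Φ => by simp)
    (fun t a T => X.ext' fun Φ => by simp)) 1
    (fun a T => by
      show ‖T.val.comp (lft a)‖ ≤ _
      refine (ContinuousLinearMap.opNorm_comp_le _ _).trans ?_
      rw [one_mul, mul_comm, X.norm_val]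
      exact mul_le_mul_of_nonneg_right (norm_lft a) (norm_nonneg _))

noncomputable def RX : A →L[ℂ] X A →L[ℂ] X A :=
  LinearMap.mkContinuous₂ (LinearMap.mk₂ ℂ
    (fun a T => X.mk (T.val.comp (rgt a))
      (fun S Φ Ψ h => T.prop.1 S _ _ fun u v => h _ _)
      (by
        have := T.prop.1 (Rm a) mulB (rgt a mulB) (fun u v => by simp [mul_assoc])
        simp [this, T.prop.2]))
    (fun a b T => X.ext' fun Φ => by
      have : rgt (a + b) Φ = rgt a Φ + rgt b Φ := Bil.ext' fun u v => by simp [mul_add]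
      simp [this])
    (fun t a T => X.ext' fun Φ => by
      have : rgt (t • a) Φ = t • rgt a Φ := Bil.ext' fun u v => by simp
      simp [this])
    (fun a S T => X.ext' fun Φ => by simp)
    (fun t a T => X.ext' fun Φ => by simp)) 1
    (fun a T => by
      show ‖T.val.comp (rgt a)‖ ≤ _
      refine (ContinuousLinearMap.opNorm_comp_le _ _).trans ?_
      rw [one_mul, mul_comm, X.norm_val]
      exact mul_le_mul_of_nonneg_right (norm_rgt a) (norm_nonneg _))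

@[simp] lemma LX_val (a : A) (T : X A) (Φ : Bil A) : (LX a T).val Φ = T.val (lft a Φ) := rfl
@[simp] lemma RX_val (a : A) (T : X A) (Φ : Bil A) : (RX a T).val Φ = T.val (rgt a Φ) := rfl

noncomputable def ev (u v : A) : Bil A →L[ℂ] A :=
  LinearMap.mkContinuous
    { toFun := fun Φ => Φ.ap u v
      map_add' := fun _ _ => rfl
      map_smul' := fun _ _ => rfl } (‖u‖ * ‖v‖) (fun Φ => by
    refine (Φ.le_norm u v).trans (le_of_eq ?_); ring)

@[simp] lemma ev_ap (u v : A) (Φ : Bil A) : ev u v Φ = Φ.ap u v := rfl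

lemma norm_ev (u v : A) : ‖ev u v‖ ≤ ‖u‖ * ‖v‖ :=
  LinearMap.mkContinuous_norm_le _ (by positivity) _

noncomputable def DX : A →L[ℂ] X A :=
  LinearMap.mkContinuous
    { toFun := fun a => X.mk (ev a 1 - ev 1 a) (fun S Φ Ψ h => by simp [h]) (by simp)
      map_add' := fun a b => X.ext' fun Φ => by simp; abel
      map_smul' := fun t a => X.ext' fun Φ => by simp [smul_sub] } (2 * ‖(1 : A)‖) (fun a => by
    show ‖ev a 1 - ev 1 a‖ ≤ _
    refine (norm_sub_le _ _).trans ?_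
    have h1 := norm_ev a 1
    have h2 := norm_ev 1 a
    linarith)

@[simp] lemma DX_val (a : A) (Φ : Bil A) : (DX a).val Φ = Φ.ap a 1 - Φ.ap 1 a := rfl

theorem diag [CompleteSpace A]
    (h : ∀ (X : Type) [NormedAddCommGroup X] [NormedSpace ℂ X] [CompleteSpace X]
          (L R : A →L[ℂ] X →L[ℂ] X),
          (∀ a b : A, L (a * b) = (L a).comp (L b)) →
          (∀ a b : A, R (a * b) = (R b).comp (R a)) →
          (∀ a b : A, (L a).comp (R b) = (R b).comp (L a)) →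
          ∀ D : A →L[ℂ] X, (∀ a b : A, D (a * b) = L a (D b) + R b (D a)) →
            ∃ C : ℝ, ∀ F : Finset A, ∀ ε : ℝ, 0 < ε → ∃ ξ : X,
              (∀ a : A, ‖L a ξ - R a ξ‖ ≤ C * ‖a‖) ∧
                ∀ a ∈ F, ‖D a - (L a ξ - R a ξ)‖ < ε) :
    ∃ C : ℝ, 0 ≤ C ∧ ∀ F : Finset A, ∀ ε : ℝ, 0 < ε → ∃ M : Bil A →L[ℂ] A,
      Nat' M ∧ M mulB = 1 ∧ (∀ a Φ, ‖M (lft a Φ) - M (rgt a Φ)‖ ≤ C * ‖a‖ * ‖Φ‖) ∧
        ∀ a ∈ F, ∀ Φ, ‖M (lft a Φ) - M (rgt a Φ)‖ ≤ ε * ‖Φ‖ := by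
  obtain ⟨C, hC⟩ := h (X A) LX RX
    (fun a b => ContinuousLinearMap.ext fun T => X.ext' fun Φ => by
      have : lft (a * b) Φ = lft b (lft a Φ) := Bil.ext' fun u v => by simp [mul_assoc]
      simp [this])
    (fun a b => ContinuousLinearMap.ext fun T => X.ext' fun Φ => by
      have : rgt (a * b) Φ = rgt a (rgt b Φ) := Bil.ext' fun u v => by simp [mul_assoc]
      simp [this])
    (fun a b => ContinuousLinearMap.ext fun T => X.ext' fun Φ => by
      have : rgt b (lft a Φ) = lft a (rgt b Φ) := Bil.ext' fun u v => by simp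
      simp [this])
    DX (fun a b => X.ext' fun Φ => by simp)
  refine ⟨‖(DX : A →L[ℂ] X A)‖ + |C|, by positivity, fun F ε hε => ?_⟩
  obtain ⟨ξ, h1, h2⟩ := hC F ε hε
  have key : ∀ a Φ, (ev 1 1 - ξ.val : Bil A →L[ℂ] A) (lft a Φ) -
      (ev 1 1 - ξ.val : Bil A →L[ℂ] A) (rgt a Φ) =
      (DX a - (LX a ξ - RX a ξ)).val Φ := by
    intro a Φ; simp; abel
  refine ⟨ev 1 1 - ξ.val, fun S Φ Ψ h => by simp [h, ξ.prop.1 S Φ Ψ h], by simp [ξ.prop.2],
    fun a Φ => ?_, fun a ha Φ => ?_⟩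
  · rw [key]
    refine (ContinuousLinearMap.le_opNorm _ _).trans ?_
    refine mul_le_mul_of_nonneg_right ?_ (norm_nonneg _)
    rw [X.norm_val]
    refine (norm_sub_le _ _).trans ?_
    have h3 := (DX : A →L[ℂ] X A).le_opNorm a
    have h4 := (h1 a).trans (mul_le_mul_of_nonneg_right (le_abs_self C) (norm_nonneg a))
    linarith
  · rw [key]
    refine (ContinuousLinearMap.le_opNorm _ _).trans ?_
    exact mul_le_mul_of_nonneg_right (h2 a ha).le (norm_nonneg _)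

end Pool.Agent.H87.BAC
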