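import Mathlib
import Pool.Agent.H87.BAC1

namespace Pool.Agent.H87.BAC

open Filter Topology

variable {A : Type} [NormedRing A] [NormedAlgebra ℂ A]

lemma coords (N : Submodule ℂ A) (hN : IsClosed (N : Set A)) [FiniteDimensional ℂ (A ⧸ N)] :
    ∃ (m : ℕ) (l : Fin m → A) (c : Fin m → A →L[ℂ] ℂ) (P : A →L[ℂ] A),
      (∀ x, P x = x - ∑ k, c k x • l k) ∧ (∀ x, P x ∈ N) ∧ (∀ x ∈ N, P x = x) ∧
      (∀ t : Fin m → ℂ, ∑ k, t k • l k ∈ N → t = 0) := by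
  let b := Module.finBasis ℂ (A ⧸ N)
  choose l hl using fun k => Submodule.Quotient.mk_surjective N (b k)
  let c : Fin _ → A →L[ℂ] ℂ := fun k =>
    ⟨(b.coord k).comp N.mkQ,
      (LinearMap.continuous_of_finiteDimensional (b.coord k)).comp continuous_quot_mk⟩
  have hc : ∀ k x, c k x = b.repr (N.mkQ x) k := fun k x => rfl
  have hq : ∀ t : Fin _ → ℂ, N.mkQ (∑ k, t k • l k) = ∑ k, t k • b k := by
    intro t; simp [hl]
  refine ⟨_, l, c, 1 - ∑ k, (c k).smulRight (l k), fun x => by simp, fun x => ?_,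
    fun x hx => ?_, fun t ht => ?_⟩
  · rw [← Submodule.Quotient.mk_eq_zero, ← Submodule.mkQ_apply]
    have : (1 - ∑ k, (c k).smulRight (l k) : A →L[ℂ] A) x = x - ∑ k, c k x • l k := by simp
    rw [this, map_sub, hq]
    simp only [hc]
    rw [b.sum_repr, sub_self]
  · have : N.mkQ x = 0 := (Submodule.Quotient.mk_eq_zero N).2 hx
    simp [hc, this]
  · have h1 : ∑ k, t k • b k = 0 := by
      rw [← hq]; exact (Submodule.Quotient.mk_eq_zero N).2 ht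
    funext k
    exact Fintype.linearIndependent_iff.1 b.linearIndependent t h1 k

def Diag (A : Type) [NormedRing A] [NormedAlgebra ℂ A] (C : ℝ) : Prop :=
  ∀ F : Finset A, ∀ ε : ℝ, 0 < ε → ∃ M : Bil A →L[ℂ] A,
      Nat' M ∧ M mulB = 1 ∧ (∀ a Φ, ‖M (lft a Φ) - M (rgt a Φ)‖ ≤ C * ‖a‖ * ‖Φ‖) ∧
        ∀ a ∈ F, ∀ Φ, ‖M (lft a Φ) - M (rgt a Φ)‖ ≤ ε * ‖Φ‖

lemma ai {C : ℝ} (hC : 0 ≤ C) (hD : Diag A C) (J : Submodule ℂ A)
    (hJ : ∀ a x : A, x ∈ J → a * x ∈ J ∧ x * a ∈ J) (hJc : IsClosed (J : Set A))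
    [FiniteDimensional ℂ (A ⧸ J)] :
    ∃ K : ℝ, 0 ≤ K ∧ ∀ F : Finset A, ∀ ε : ℝ, 0 < ε → ∃ e f : A, e ∈ J ∧ f ∈ J ∧
      (∀ a ∈ J, ‖e * a‖ ≤ K * ‖a‖ ∧ ‖a * f‖ ≤ K * ‖a‖) ∧
      ∀ a ∈ F, a ∈ J → ‖e * a - a‖ ≤ ε ∧ ‖a * f - a‖ ≤ ε := by
  obtain ⟨m, l, c, P, -, hP1, hP2, -⟩ := coords J hJc
  let Q : A →L[ℂ] A := 1 - P
  have hQ : ∀ x, Q x = x - P x := fun x => rfl
  have hQ0 : ∀ x ∈ J, Q x = 0 := fun x hx => by rw [hQ, hP2 x hx, sub_self]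
  have hQJ : ∀ x, Q x = 0 → x ∈ J := fun x hx => by
    rw [hQ, sub_eq_zero] at hx; rw [hx]; exact hP1 x
  let Φr : Bil A := Bil.tw 1 1 Q mulB
  let Φl : Bil A := Bil.tw 1 Q 1 mulB
  refine ⟨1 + C * (‖Φr‖ + ‖Φl‖), by positivity, fun F ε hε => ?_⟩
  obtain ⟨M, hM, hM1, hM2, hM3⟩ := hD F (ε / (‖Φr‖ + ‖Φl‖ + 1)) (by positivity)
  have hr : ∀ a ∈ J, M (lft a Φr) - M (rgt a Φr) = a * M Φr := by
    intro a ha
    have h1 : rgt a Φr = 0 := Bil.ext' fun u v => by simp [Φr, hQ0 _ (hJ v a ha).1]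
    rw [h1, map_zero, sub_zero]
    exact hM (Lm a) Φr _ fun u v => by simp [Φr, mul_assoc]
  have hl : ∀ a ∈ J, M (lft a Φl) - M (rgt a Φl) = -(M Φl * a) := by
    intro a ha
    have h1 : lft a Φl = 0 := Bil.ext' fun u v => by simp [Φl, hQ0 _ (hJ u a ha).2]
    rw [h1, map_zero, zero_sub]
    congr 1
    exact hM (Rm a) Φl _ fun u v => by simp [Φl, mul_assoc]
  have hmem : ∀ Φ : Bil A, (∀ u v, u * v - Φ.ap u v ∈ J) → 1 - M Φ ∈ J := by
    intro Φ h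
    apply hQJ
    rw [← hM1, ← map_sub, ← hM Q (mulB - Φ) 0 fun u v => by simp [hQ0 _ (h u v)]]
    simp
  have hn1 := norm_nonneg Φr
  have hn2 := norm_nonneg Φl
  refine ⟨1 - M Φl, 1 - M Φr, hmem _ fun u v => ?_, hmem _ fun u v => ?_, fun a ha => ⟨?_, ?_⟩,
    fun a haF ha => ⟨?_, ?_⟩⟩
  · have : u * v - Φl.ap u v = P u * v := by simp [Φl, hQ, sub_mul]
    rw [this]; exact (hJ _ _ (hP1 u)).2
  · have : u * v - Φr.ap u v = u * P v := by simp [Φr, hQ, mul_sub]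
    rw [this]; exact (hJ _ _ (hP1 v)).1
  · have h1 := hM2 a Φl
    rw [hl a ha, norm_neg] at h1
    rw [sub_mul, one_mul]
    refine (norm_sub_le _ _).trans ?_
    nlinarith [mul_nonneg (mul_nonneg hC hn1) (norm_nonneg a)]
  · have h1 := hM2 a Φr
    rw [hr a ha] at h1
    rw [mul_sub, mul_one]
    refine (norm_sub_le _ _).trans ?_
    nlinarith [mul_nonneg (mul_nonneg hC hn2) (norm_nonneg a)]
  · have h1 := hM3 a haF Φl
    rw [hl a ha] at h1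
    rw [sub_mul, one_mul, sub_sub_cancel_left]
    refine h1.trans ?_
    rw [div_mul_eq_mul_div, div_le_iff₀ (by positivity)]
    nlinarith
  · have h1 := hM3 a haF Φr
    rw [hr a ha] at h1
    rw [mul_sub, mul_one, sub_sub_cancel_left, norm_neg]
    refine h1.trans ?_
    rw [div_mul_eq_mul_div, div_le_iff₀ (by positivity)]
    nlinarith

lemma finite_detect {I : Type} {m : ℕ} (e : I → A) (l : Fin m → A)
    (h : ∀ t : Fin m → ℂ, (∃ B, ∀ i, ‖e i * ∑ k, t k • l k‖ ≤ B) → t = 0) (R : ℝ) :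
    ∃ G : Finset I, ∀ t : Fin m → ℂ, t ≠ 0 → ∃ i ∈ G, R * ‖t‖ ≤ ‖e i * ∑ k, t k • l k‖ := by
  have hc := isCompact_sphere (0 : Fin m → ℂ) 1
  obtain ⟨G, hG⟩ := hc.elim_finite_subcover
    (fun i => {t : Fin m → ℂ | R < ‖e i * ∑ k, t k • l k‖})
    (fun i => isOpen_lt continuous_const (by fun_prop)) (fun t ht => by
      by_contra hcon
      simp only [Set.mem_iUnion, Set.mem_ofPred_eq, not_exists, not_lt] at hcon
      have := h t ⟨R, hcon⟩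
      simp [this] at ht)
  refine ⟨G, fun t ht => ?_⟩
  have hpos : 0 < ‖t‖ := norm_pos_iff.2 ht
  have h1 : ((‖t‖⁻¹ : ℝ) : ℂ) • t ∈ Metric.sphere (0 : Fin m → ℂ) 1 := by
    simp [norm_smul, hpos.ne']
  obtain ⟨i, hi, h2⟩ := Set.mem_iUnion₂.1 (hG h1)
  refine ⟨i, hi, ?_⟩
  have h3 : e i * ∑ k, (((‖t‖⁻¹ : ℝ) : ℂ) • t) k • l k =
      ((‖t‖⁻¹ : ℝ) : ℂ) • (e i * ∑ k, t k • l k) := by
    rw [← mul_smul_comm, Finset.smul_sum]
    simp only [Pi.smul_apply, smul_eq_mul, smul_smul]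
  simp only [Set.mem_ofPred_eq] at h2
  rw [h3, norm_smul, Complex.norm_real, norm_inv, norm_norm, inv_mul_eq_div,
    lt_div_iff₀ hpos] at h2
  exact h2.le

/-- the main estimate -/
lemma core {C : ℝ} (hC : 0 ≤ C) (hD : Diag A C) (N : Submodule ℂ A)
    (hN : ∀ a x : A, x ∈ N → a * x ∈ N ∧ x * a ∈ N) (hNc : IsClosed (N : Set A))
    [FiniteDimensional ℂ (A ⧸ N)] {I : Type} (e f : I → A) (he : ∀ i, e i ∈ N)
    (hf : ∀ i, f i ∈ N) (K : ℝ) (hK : 0 ≤ K)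
    (hKe : ∀ i, ∀ x ∈ N, ‖e i * x‖ ≤ K * ‖x‖) (hKf : ∀ i, ∀ x ∈ N, ‖x * f i‖ ≤ K * ‖x‖)
    (hNe : ∀ x, (∃ B, ∀ i, ‖e i * x‖ ≤ B) → x ∈ N) : ∃ B, ∀ i, ‖f i‖ ≤ B := by
  classical
  by_contra hcon
  push Not at hcon
  have h1 : (1 : A) ≠ 0 := by
    intro h
    obtain ⟨i, hi⟩ := hcon 0
    have : f i = 0 := by rw [← mul_one (f i), h, mul_zero]
    simp [this] at hi
  have h1pos : 0 < ‖(1 : A)‖ := norm_pos_iff.2 h1
  obtain ⟨m, l, c, P, hP0, hP1, hP2, hl⟩ := coords N hNc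
  obtain ⟨L, hL0, hL⟩ : ∃ L : ℝ, 0 ≤ L ∧ ∀ k, ‖l k‖ ≤ L :=
    ⟨‖l‖, norm_nonneg _, fun k => norm_le_pi_norm l k⟩
  set C₁ := C * (K * ‖P‖ * L) with hC₁
  have hC₁0 : 0 ≤ C₁ := by positivity
  obtain ⟨G, hG⟩ := finite_detect e l (fun t ht => hl t (hNe _ ht)) (2 * (m + 1) * (C₁ + 3))
  obtain ⟨M, hM, hM1, hM2, hM3⟩ := hD (G.image e) (1 / (L + 1)) (by positivity)
  obtain ⟨E, hE0, hE⟩ : ∃ E : ℝ, 0 ≤ E ∧ ∀ i ∈ G, ‖e i‖ ≤ E :=
    ⟨∑ i ∈ G, ‖e i‖, Finset.sum_nonneg fun _ _ => norm_nonneg _, fun i hi =>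
      Finset.single_le_sum (f := fun i => ‖e i‖) (fun _ _ => norm_nonneg _) hi⟩
  obtain ⟨β, hβ⟩ := hcon (‖M‖ * (K * L * E) + 2 * (‖M‖ * (K * ‖P‖)))
  have t2 : 0 ≤ ‖M‖ * (K * L * E) := by positivity
  have t3 : 0 ≤ ‖M‖ * (K * ‖P‖) := by positivity
  have hfpos : 0 < ‖f β‖ := by linarith
  set ρ : ℝ := ‖f β‖⁻¹ with hρ
  have hρ0 : 0 < ρ := by positivity
  have hρ1 : ρ * ‖f β‖ = 1 := inv_mul_cancel₀ hfpos.ne'
  have s2 : ρ * (‖M‖ * (K * L * E)) ≤ 1 := by nlinarith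
  have s3 : ρ * (‖M‖ * (K * ‖P‖)) < 1 / 2 := by nlinarith
  obtain ⟨φ₀, hφ₀, hφ₀'⟩ := exists_dual_vector ℂ (f β) hfpos.ne'
  let φ : A →L[ℂ] ℂ := (ρ : ℂ) • φ₀
  have hφ : ∀ x, ‖φ x‖ ≤ ρ * ‖x‖ := fun x => by
    simp only [φ, smul_apply, smul_eq_mul, norm_mul, Complex.norm_real, Real.norm_of_nonneg hρ0.le]
    have := φ₀.le_opNorm x
    rw [hφ₀, one_mul] at this
    gcongr
  have hφf : φ (f β) = 1 := by
    simp only [φ, smul_apply, smul_eq_mul, hφ₀']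
    show (ρ : ℂ) * ((‖f β‖ : ℝ) : ℂ) = 1
    exact_mod_cast hρ1
  let Θ : Fin m → Bil A := fun k =>
    Bil.tw 1 1 ((φ.comp ((Rm (f β)).comp (Lm (l k)))).smulRight 1) mulB
  have hΘ : ∀ k u v, (Θ k).ap u v = φ (l k * v * f β) • u := fun k u v => by simp [Θ]
  have hg : ∀ x, ‖φ (x * f β)‖ ≤ ‖x‖ := fun x => by
    refine (hφ _).trans ?_
    have := norm_mul_le x (f β)
    nlinarith [norm_nonneg x]
  have hg' : ∀ x ∈ N, ‖φ (x * f β)‖ ≤ ρ * (K * ‖x‖) := fun x hx =>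
    (hφ _).trans (mul_le_mul_of_nonneg_left (hKf β x hx) hρ0.le)
  have hlv : ∀ k v, ‖l k * v‖ ≤ L * ‖v‖ := fun k v =>
    (norm_mul_le _ _).trans (mul_le_mul_of_nonneg_right (hL k) (norm_nonneg _))
  have hMb : ∀ Ψ : Bil A, ‖Ψ‖ ≤ ρ * (K * L * E) → ‖M Ψ‖ ≤ 1 := fun Ψ h => by
    have := (M.le_opNorm Ψ).trans (mul_le_mul_of_nonneg_left h (norm_nonneg _))
    nlinarith
  have hA : ∀ k, ∀ i ∈ G, ‖e i * P (M (Θ k))‖ ≤ C₁ + 1 := by
    intro k i hi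
    let Φ : Bil A := Bil.tw (Lm (e i)) P ((φ.comp (Lm (l k))).smulRight 1) mulB
    have hΦ : ∀ u v, Φ.ap u v = φ (l k * v) • (e i * P u) := fun u v => by simp [Φ]
    have a1 : ∀ v, ‖φ (l k * v)‖ ≤ ρ * (L * ‖v‖) := fun v =>
      (hφ (l k * v)).trans (mul_le_mul_of_nonneg_left (hlv k v) hρ0.le)
    have hΦn : ‖Φ‖ ≤ ρ * (K * ‖P‖ * L) := by
      refine Bil.norm_le _ (by positivity) fun u v => ?_
      rw [hΦ, norm_smul]
      have a1 := a1 v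
      have a2 := (hKe i _ (hP1 u)).trans (mul_le_mul_of_nonneg_left (P.le_opNorm u) hK)
      calc _ ≤ (ρ * (L * ‖v‖)) * (K * (‖P‖ * ‖u‖)) := by gcongr
        _ = _ := by ring
    have b1 : M (rgt (f β) Φ) = e i * P (M (Θ k)) :=
      hM ((Lm (e i)).comp P) (Θ k) _ fun u v => by simp [hΦ, hΘ, mul_assoc]
    have b2 : ‖lft (f β) Φ‖ ≤ ρ * (K * L * E) := by
      refine Bil.norm_le _ (by positivity) fun u v => ?_
      rw [lft_ap, hΦ, norm_smul, hP2 _ (hN u _ (hf β)).2, ← mul_assoc]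
      have a1 := a1 v
      have a2 : ‖e i * f β * u‖ ≤ K * E * ‖u‖ := (norm_mul_le _ _).trans
        (mul_le_mul_of_nonneg_right ((hKf β _ (he i)).trans
          (mul_le_mul_of_nonneg_left (hE i hi) hK)) (norm_nonneg _))
      calc _ ≤ (ρ * (L * ‖v‖)) * (K * E * ‖u‖) := by gcongr
        _ = _ := by ring
    have b3 := hM2 (f β) Φ
    have b4 : C * ‖f β‖ * ‖Φ‖ ≤ C₁ := by
      calc C * ‖f β‖ * ‖Φ‖ ≤ C * ‖f β‖ * (ρ * (K * ‖P‖ * L)) := by gcongr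
        _ = C₁ * (ρ * ‖f β‖) := by rw [hC₁]; ring
        _ = C₁ := by rw [hρ1, mul_one]
    have b5 := hMb _ b2
    rw [← b1]
    calc ‖M (rgt (f β) Φ)‖ = ‖M (lft (f β) Φ) - (M (lft (f β) Φ) - M (rgt (f β) Φ))‖ := by
          congr 1; abel
      _ ≤ _ := norm_sub_le _ _
      _ ≤ C₁ + 1 := by linarith
  have hB : ∀ k, ∀ i ∈ G, ‖e i * M (Θ k)‖ ≤ 2 := by
    intro k i hi
    have b1 : M (lft (e i) (Θ k)) = e i * M (Θ k) :=
      hM (Lm (e i)) (Θ k) _ fun u v => by simp [hΘ]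
    have b2 : ‖rgt (e i) (Θ k)‖ ≤ ρ * (K * L * E) := by
      refine Bil.norm_le _ (by positivity) fun u v => ?_
      rw [rgt_ap, hΘ, norm_smul]
      have a1 := hg' (l k * (v * e i)) (hN _ _ (hN _ _ (he i)).1).1
      have a2 : ‖l k * (v * e i)‖ ≤ L * (‖v‖ * E) := (hlv k _).trans
        (mul_le_mul_of_nonneg_left ((norm_mul_le _ _).trans
          (mul_le_mul_of_nonneg_left (hE i hi) (norm_nonneg _))) hL0)
      calc _ ≤ (ρ * (K * (L * (‖v‖ * E)))) * ‖u‖ := by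
            gcongr; exact a1.trans (by gcongr)
        _ = _ := by ring
    have b3 := hM3 (e i) (Finset.mem_image_of_mem e hi) (Θ k)
    have b4 : ‖Θ k‖ ≤ L := by
      refine Bil.norm_le _ hL0 fun u v => ?_
      rw [hΘ, norm_smul]
      have a1 := (hg (l k * v)).trans (hlv k v)
      calc _ ≤ (L * ‖v‖) * ‖u‖ := by gcongr
        _ = _ := by ring
    have b5 := hMb _ b2
    have b6 : 1 / (L + 1) * ‖Θ k‖ ≤ 1 := by
      rw [div_mul_eq_mul_div, div_le_one (by positivity)]; linarith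
    rw [← b1]
    calc ‖M (lft (e i) (Θ k))‖
        = ‖M (rgt (e i) (Θ k)) + (M (lft (e i) (Θ k)) - M (rgt (e i) (Θ k)))‖ := by
          congr 1; abel
      _ ≤ _ := norm_add_le _ _
      _ ≤ 2 := by linarith
  have hCk : ∀ k, ‖c k (M (Θ k))‖ ≤ 1 / (2 * (m + 1)) := by
    intro k
    let t : Fin m → ℂ := fun j => c j (M (Θ k))
    refine (norm_le_pi_norm t k).trans ?_
    by_cases ht : t = 0
    · rw [ht, norm_zero]; positivity
    obtain ⟨i, hi, h2⟩ := hG t ht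
    have h3 : e i * ∑ j, t j • l j = e i * M (Θ k) - e i * P (M (Θ k)) := by
      rw [← mul_sub, hP0]; simp [t]
    have h4 := (norm_sub_le (e i * M (Θ k)) (e i * P (M (Θ k))))
    have h5 := hA k i hi
    have h6 := hB k i hi
    rw [h3] at h2
    rw [le_div_iff₀ (by positivity)]
    have h7 : (‖t‖ * (2 * (m + 1))) * (C₁ + 3) ≤ 1 * (C₁ + 3) := by linarith
    exact le_of_mul_le_mul_right h7 (by linarith)
  let S : A →L[ℂ] A := (φ.comp (Rm (f β))).smulRight 1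
  let Ψ₀ : Bil A := Bil.tw S P 1 mulB
  let Ψ : Fin m → Bil A := fun k => Bil.tw ((c k).smulRight 1) 1 1 (Θ k)
  have hΨ : ∀ k, M (Ψ k) = c k (M (Θ k)) • 1 := fun k =>
    hM ((c k).smulRight 1) (Θ k) _ fun u v => rfl
  have hsum : M (Ψ₀ + ∑ k, Ψ k) = 1 := by
    rw [hM S mulB _ fun u v => ?_, hM1]
    · simp [S, hφf]
    · have hu : u = P u + ∑ k, c k u • l k := by rw [hP0]; abel
      rw [Bil.add_ap, Bil.sum_ap]
      conv_rhs => rw [hu]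
      simp [S, Ψ₀, Ψ, hΘ, add_mul, Finset.sum_mul, add_smul, Finset.sum_smul, smul_smul, mul_comm]
  have hΨ₀ : ‖Ψ₀‖ ≤ ρ * (K * ‖P‖) * ‖(1 : A)‖ := by
    refine Bil.norm_le _ (by positivity) fun u v => ?_
    have : Ψ₀.ap u v = φ (P u * v * f β) • 1 := by simp [Ψ₀, S]
    rw [this, norm_smul]
    have a1 := hg' (P u * v) (hN _ _ (hP1 u)).2
    have a2 : ‖P u * v‖ ≤ ‖P‖ * ‖u‖ * ‖v‖ := (norm_mul_le _ _).trans
      (mul_le_mul_of_nonneg_right (P.le_opNorm u) (norm_nonneg _))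
    calc _ ≤ (ρ * (K * (‖P‖ * ‖u‖ * ‖v‖))) * ‖(1 : A)‖ := by
          gcongr; exact a1.trans (by gcongr)
      _ = _ := by ring
  rw [map_add, map_sum] at hsum
  have f1 : ‖M Ψ₀‖ ≤ (ρ * (‖M‖ * (K * ‖P‖))) * ‖(1 : A)‖ := by
    refine (M.le_opNorm _).trans ((mul_le_mul_of_nonneg_left hΨ₀ (norm_nonneg _)).trans
      (le_of_eq (by ring)))
  have f2 : ‖∑ k, M (Ψ k)‖ ≤ 1 / 2 * ‖(1 : A)‖ := by
    refine (norm_sum_le _ _).trans ?_
    have : ∀ k ∈ (Finset.univ : Finset (Fin m)), ‖M (Ψ k)‖ ≤ 1 / (2 * (m + 1)) * ‖(1 : A)‖ :=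
      fun k _ => by rw [hΨ, norm_smul]; exact mul_le_mul_of_nonneg_right (hCk k) h1pos.le
    refine (Finset.sum_le_sum this).trans ?_
    simp only [Finset.sum_const, Finset.card_univ, Fintype.card_fin, nsmul_eq_mul]
    rw [← mul_assoc]
    refine mul_le_mul_of_nonneg_right ?_ h1pos.le
    rw [← mul_div_assoc, div_le_div_iff₀ (by positivity) (by positivity)]
    nlinarith
  have f3 := norm_add_le (M Ψ₀) (∑ k, M (Ψ k))
  rw [hsum] at f3
  nlinarith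

theorem main [CompleteSpace A] {C : ℝ} (hC : 0 ≤ C) (hD : Diag A C) (J : Submodule ℂ A)
    (hJ : ∀ a x : A, x ∈ J → a * x ∈ J ∧ x * a ∈ J) (hJc : IsClosed (J : Set A))
    [FiniteDimensional ℂ (A ⧸ J)] :
    ∃ C : ℝ, ∀ F : Finset A, (∀ x ∈ F, x ∈ J) → ∀ ε : ℝ, 0 < ε →
          ∃ e ∈ J, ‖e‖ ≤ C ∧ ∀ x ∈ F, ‖e * x - x‖ < ε ∧ ‖x * e - x‖ < ε := by
  classical
  obtain ⟨K, hK, h⟩ := ai hC hD J hJ hJc
  choose e f he hf hb hl using fun q : Finset A × ℕ => h q.1 (1 / ((q.2 : ℝ) + 1)) (by positivity)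
  have hlim : ∀ a ∈ J, ∀ ε > 0, ∃ q, ‖e q * a - a‖ < ε ∧ ‖a * f q - a‖ < ε := by
    intro a ha ε hε
    obtain ⟨n, hn⟩ := exists_nat_one_div_lt hε
    have := hl ({a}, n) a (Finset.mem_singleton_self a) ha
    exact ⟨({a}, n), this.1.trans_lt hn, this.2.trans_lt hn⟩
  have hef : ∀ x B, (∀ q, ‖e q * x‖ ≤ B) → ∀ q, ‖x * f q‖ ≤ K * B := by
    intro x B hB q
    refine le_of_forall_pos_le_add fun ε hε => ?_
    obtain ⟨p, hp, -⟩ := hlim _ (hJ x _ (hf q)).1 ε hε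
    have h1 := (hb q _ (hJ x _ (he p)).2).2
    have h2 := mul_le_mul_of_nonneg_left (hB p) hK
    rw [mul_assoc] at h1
    calc ‖x * f q‖ = ‖e p * (x * f q) - (e p * (x * f q) - x * f q)‖ := by congr 1; abel
      _ ≤ _ := norm_sub_le _ _
      _ ≤ _ := by linarith
  have hfe : ∀ x B, (∀ q, ‖x * f q‖ ≤ B) → ∀ q, ‖e q * x‖ ≤ K * B := by
    intro x B hB q
    refine le_of_forall_pos_le_add fun ε hε => ?_
    obtain ⟨p, -, hp⟩ := hlim _ (hJ x _ (he q)).2 ε hε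
    have h1 := (hb q _ (hJ x _ (hf p)).1).1
    have h2 := mul_le_mul_of_nonneg_left (hB p) hK
    rw [← mul_assoc] at h1
    calc ‖e q * x‖ = ‖e q * x * f p - (e q * x * f p - e q * x)‖ := by congr 1; abel
      _ ≤ _ := norm_sub_le _ _
      _ ≤ _ := by linarith
  let N : Submodule ℂ A :=
    { carrier := {x | ∃ B, ∀ q, ‖e q * x‖ ≤ B}
      add_mem' := fun {a b} ⟨B, hB⟩ ⟨B', hB'⟩ => ⟨B + B', fun q => by
        rw [mul_add]; exact (norm_add_le _ _).trans (add_le_add (hB q) (hB' q))⟩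
      zero_mem' := ⟨0, fun q => by simp⟩
      smul_mem' := fun t a ⟨B, hB⟩ => ⟨‖t‖ * B, fun q => by
        rw [mul_smul_comm, norm_smul]; exact mul_le_mul_of_nonneg_left (hB q) (norm_nonneg _)⟩ }
  have hJN : J ≤ N := fun x hx => ⟨K * ‖x‖, fun q => (hb q x hx).1⟩
  have hN : ∀ a x : A, x ∈ N → a * x ∈ N ∧ x * a ∈ N := by
    rintro a x ⟨B, hB⟩
    refine ⟨⟨K * (‖a‖ * (K * B)), hfe _ _ fun q => ?_⟩, ⟨B * ‖a‖, fun q => ?_⟩⟩
    · rw [mul_assoc]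
      exact (norm_mul_le _ _).trans (mul_le_mul_of_nonneg_left (hef x B hB q) (norm_nonneg _))
    · rw [← mul_assoc]
      exact (norm_mul_le _ _).trans (mul_le_mul_of_nonneg_right (hB q) (norm_nonneg _))
  have hNc : IsClosed (N : Set A) := by
    have h1 : IsClosed ((N.map J.mkQ : Submodule ℂ (A ⧸ J)) : Set (A ⧸ J)) :=
      Submodule.closed_of_finiteDimensional _
    have h2 := h1.preimage (f := J.mkQ) continuous_quot_mk
    have h3 : (N.map J.mkQ).comap J.mkQ = N := by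
      rw [Submodule.comap_map_mkQ, sup_eq_right.2 hJN]
    rw [← h3]; exact h2
  have : FiniteDimensional ℂ (A ⧸ N) :=
    Module.Finite.of_surjective (Submodule.factor hJN) (Submodule.factor_surjective hJN)
  have : CompleteSpace N := hNc.completeSpace_coe
  obtain ⟨K', hK'⟩ := banach_steinhaus (g := fun q => (Lm (e q)).comp N.subtypeL)
    (fun x => x.2)
  have hK'0 : 0 ≤ K' := (norm_nonneg _).trans (hK' (∅, 0))
  have hKe : ∀ q, ∀ x ∈ N, ‖e q * x‖ ≤ K' * ‖x‖ := fun q x hx =>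
    (((Lm (e q)).comp N.subtypeL).le_opNorm ⟨x, hx⟩).trans
      (mul_le_mul_of_nonneg_right (hK' q) (norm_nonneg _))
  obtain ⟨B, hB⟩ := core hC hD N hN hNc e f (fun q => hJN (he q)) (fun q => hJN (hf q))
    (K' + K * K') (by positivity)
    (fun q x hx => (hKe q x hx).trans (by
      have := mul_nonneg (mul_nonneg hK hK'0) (norm_nonneg x); nlinarith))
    (fun q x hx => (hef x _ (fun p => hKe p x hx) q).trans (by
      have := mul_nonneg hK'0 (norm_nonneg x); nlinarith))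
    (fun x hx => hx)
  have hB0 : 0 ≤ B := (norm_nonneg _).trans (hB (∅, 0))
  have hB' : ∀ q, ‖e q‖ ≤ K * B := fun q => by
    simpa using hfe 1 B (fun p => by simpa using hB p) q
  refine ⟨K * B + B + B * (K * B), fun F hF ε hε => ?_⟩
  obtain ⟨n, hn⟩ := exists_nat_one_div_lt (show 0 < ε / (1 + B + K * B) by positivity)
  rw [lt_div_iff₀ (by positivity)] at hn
  set q : Finset A × ℕ := (F, n)
  have hδ : (0:ℝ) < 1 / ((n : ℝ) + 1) := by positivity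
  refine ⟨e q + f q - f q * e q, J.sub_mem (J.add_mem (he q) (hf q)) (hJ _ _ (he q)).1, ?_,
    fun x hx => ?_⟩
  · refine (norm_sub_le _ _).trans (add_le_add ((norm_add_le _ _).trans
      (add_le_add (hB' q) (hB q))) ((norm_mul_le _ _).trans ?_))
    exact mul_le_mul (hB q) (hB' q) (norm_nonneg _) hB0
  · obtain ⟨h1, h2⟩ := hl q x hx (hF x hx)
    have hKB : 0 ≤ K * B := by positivity
    constructor
    · have : (e q + f q - f q * e q) * x - x = (e q * x - x) - f q * (e q * x - x) := by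
        noncomm_ring
      rw [this]
      have h3 : ‖f q * (e q * x - x)‖ ≤ B * (1 / ((n : ℝ) + 1)) :=
        (norm_mul_le _ _).trans (mul_le_mul (hB q) h1 (norm_nonneg _) hB0)
      refine (norm_sub_le _ _).trans_lt ?_
      nlinarith
    · have : x * (e q + f q - f q * e q) - x = (x * f q - x) - (x * f q - x) * e q := by
        noncomm_ring
      rw [this]
      have h3 : ‖(x * f q - x) * e q‖ ≤ (1 / ((n : ℝ) + 1)) * (K * B) :=
        (norm_mul_le _ _).trans (mul_le_mul h2 (hB' q) (norm_nonneg _) hδ.le)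
      refine (norm_sub_le _ _).trans_lt ?_
      nlinarith

end Pool.Agent.H87.BAC
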