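import Mathlib

set_option autoImplicit false

open scoped BoundedContinuousFunction
open Filter Topology

namespace Pool.Agent.H87.BLp

abbrev Γ := ℕ → Bool

lemma unc : ¬ (Set.univ : Set Γ).Countable := by
  intro h
  obtain ⟨f, hf⟩ := h.exists_eq_range Set.univ_nonempty
  have : (fun n => !(f n n)) ∈ Set.range f := by rw [← hf]; trivial
  obtain ⟨n, hn⟩ := this
  have := congrFun hn n
  simp at this

/-- initial segment of a branch -/
def seg (A : Γ) (n : ℕ) : List Bool := (List.range n).map A

lemma seg_len (A : Γ) (n : ℕ) : (seg A n).length = n := by simp [seg]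

lemma seg_eq {A B : Γ} {n : ℕ} : seg A n = seg B n ↔ ∀ i < n, A i = B i := by
  simp [seg, List.map_inj_left]

lemma seg_ne {A B : Γ} (h : A ≠ B) : ∀ᶠ n in atTop, seg A n ≠ seg B n := by
  obtain ⟨i, hi⟩ := Function.ne_iff.1 h
  filter_upwards [eventually_gt_atTop i] with n hn h2
  exact hi (seg_eq.1 h2 i hn)

/-- almost disjoint family -/
def S (A : Γ) : Set ℕ := Set.range fun n => Encodable.encode (seg A n)

lemma S_inf (A : Γ) : (S A).Infinite := by
  apply Set.infinite_range_of_injective
  intro n m h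
  have := congrArg List.length (Encodable.encode_injective h)
  simpa [seg_len] using this

lemma S_ad {A B : Γ} (h : A ≠ B) : (S A ∩ S B).Finite := by
  obtain ⟨N, hN⟩ := eventually_atTop.1 (seg_ne h)
  refine ((Set.finite_Iio N).image fun n => Encodable.encode (seg A n)).subset ?_
  rintro k ⟨⟨n, rfl⟩, ⟨m, hm⟩⟩
  have h1 := Encodable.encode_injective hm
  have h2 : m = n := by simpa [seg_len] using congrArg List.length h1
  subst h2
  refine ⟨m, ?_, rfl⟩
  by_contra h3
  exact hN m (not_lt.1 h3) h1.symm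

abbrev V := ℕ →ᵇ ℝ

noncomputable def ind (D : Set ℕ) : V :=
  BoundedContinuousFunction.ofNormedAddCommGroupDiscrete (D.indicator fun _ => (1 : ℝ)) 1
    (fun n => by
      by_cases h : n ∈ D <;> simp [h])

lemma ind_apply (D : Set ℕ) (n : ℕ) : ind D n = D.indicator (fun _ => (1 : ℝ)) n := rfl

lemma whit (g : V →L[ℝ] ℝ) (hg : ∀ n, g (ind {n}) = 0) :
    {A : Γ | g (ind (S A)) ≠ 0}.Countable := by
  classical
  have hs : Summable fun A : Γ => |g (ind (S A))| := by
    refine summable_of_sum_le (c := ‖g‖) (fun A => abs_nonneg _) fun F => ?_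
    set ε : Γ → ℝ := fun A => if 0 ≤ g (ind (S A)) then 1 else -1 with hε
    have hε1 : ∀ A, |ε A| ≤ 1 := fun A => by
      simp only [hε]; split_ifs <;> simp
    have hε2 : ∀ A, ε A * g (ind (S A)) = |g (ind (S A))| := fun A => by
      simp only [hε]; split_ifs with h
      · rw [one_mul, abs_of_nonneg h]
      · rw [abs_of_neg (not_le.1 h)]; ring
    have hZ : (⋃ A ∈ F, ⋃ B ∈ F, if A = B then (∅ : Set ℕ) else S A ∩ S B).Finite := by
      refine F.finite_toSet.biUnion fun A _ => F.finite_toSet.biUnion fun B _ => ?_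
      split_ifs with h
      · exact Set.finite_empty
      · exact S_ad h
    set a : V := ∑ A ∈ F, ε A • ind (S A) with ha
    set a' : V := a - ∑ n ∈ hZ.toFinset, a n • ind {n} with ha'
    have h1 : g a' = ∑ A ∈ F, |g (ind (S A))| := by
      simp only [ha', map_sub, map_sum, map_smul, hg, smul_zero, Finset.sum_const_zero, sub_zero]
      simp only [ha, map_sum, map_smul, smul_eq_mul, hε2]
    have h2 : ‖a'‖ ≤ 1 := by
      refine (BoundedContinuousFunction.norm_le zero_le_one).2 fun k => ?_
      have e1 : a' k = a k - ∑ n ∈ hZ.toFinset, a n * ind {n} k := by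
        simp [ha']
      have e2 : ∑ n ∈ hZ.toFinset, a n * ind {n} k = if k ∈ hZ.toFinset then a k else 0 := by
        rw [← Finset.sum_ite_eq]
        refine Finset.sum_congr rfl fun n _ => ?_
        by_cases h : k = n
        · simp [h, ind_apply]
        · simp [h, ind_apply]
      rw [e1, e2]
      split_ifs with hk
      · simp
      · rw [sub_zero]
        have e3 : a k = ∑ A ∈ F, ε A * ind (S A) k := by simp [ha]
        rw [e3, Real.norm_eq_abs]
        by_cases hex : ∃ A ∈ F, k ∈ S A
        · obtain ⟨A, hA, hkA⟩ := hex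
          rw [Finset.sum_eq_single A]
          · simpa [ind_apply, hkA] using hε1 A
          · intro B hB hBA
            have : k ∉ S B := fun hkB => hk (by
              simp only [Set.Finite.mem_toFinset, Set.mem_iUnion]
              exact ⟨B, hB, A, hA, by simp [hBA, hkA, hkB]⟩)
            simp [ind_apply, this]
          · intro h; exact absurd hA h
        · push Not at hex
          rw [Finset.sum_eq_zero]
          · simp
          · intro A hA; simp [ind_apply, hex A hA]
    calc ∑ A ∈ F, |g (ind (S A))| = g a' := h1.symm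
      _ ≤ ‖g a'‖ := le_abs_self _
      _ ≤ ‖g‖ * ‖a'‖ := g.le_opNorm _
      _ ≤ ‖g‖ * 1 := by gcongr
      _ = ‖g‖ := mul_one _
  refine hs.countable_support.mono fun A hA => ?_
  simpa using hA

noncomputable def ev (k : ℕ) : V →L[ℝ] ℝ := BoundedContinuousFunction.evalCLM ℝ k

lemma ev_apply (k : ℕ) (a : V) : ev k a = a k := rfl

/-- Phillips-Sobczyk in the form used below -/
lemma phil (T : ℕ → V →L[ℝ] ℝ) (h1 : ∀ n k, T k (ind {n}) = ind {n} k)
    (h2 : ∀ a, Tendsto (fun k => T k a) atTop (𝓝 0)) : False := by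
  have hc : (⋃ k, {A : Γ | (ev k - T k) (ind (S A)) ≠ 0}).Countable :=
    Set.countable_iUnion fun k => whit _ fun n => by simp [h1, ev_apply]
  obtain ⟨A, hA⟩ : ∃ A, A ∉ ⋃ k,
      {A : Γ | (ev k - T k) (ind (S A)) ≠ 0} := by
    by_contra h
    push Not at h
    exact unc (hc.mono fun A _ => h A)
  simp only [Set.mem_iUnion, Set.mem_ofPred_eq, not_exists, not_not] at hA
  have h3 : ∀ k, T k (ind (S A)) = ind (S A) k := fun k => by
    have := hA k
    simp only [sub_apply, ev_apply] at this
    linarith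
  have h4 := (h2 (ind (S A))).eventually (gt_mem_nhds zero_lt_one)
  obtain ⟨N, hN⟩ := eventually_atTop.1 h4
  obtain ⟨k, hk, hk2⟩ := (S_inf A).exists_gt N
  have := hN k hk2.le
  rw [h3, ind_apply] at this
  simp [hk] at this

abbrev X := lp (fun _ : Γ => ℝ) 2

lemma x_le (x : X) (B : Γ) : |x B| ≤ ‖x‖ := by
  simpa using lp.norm_apply_le_norm (by norm_num) x B

lemma x_sum (x : X) : Summable fun B => |x B| ^ 2 := by
  have := (lp.memℓp x).summable (by norm_num)
  simpa using this

open Classical in
noncomputable def e (A : Γ) : X := lp.single 2 A (1 : ℝ)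

lemma e_self (A : Γ) : e A A = 1 := by simp [e]

lemma fn_count (y : X →L[ℝ] ℝ) : {A : Γ | y (e A) ≠ 0}.Countable := by
  classical
  set z : X := (InnerProductSpace.toDual ℝ X).symm y with hz
  have h : ∀ A, y (e A) = z A := fun A => by
    rw [← InnerProductSpace.toDual_symm_apply (𝕜 := ℝ) (y := y), ← hz, e, lp.inner_single_right]
    simp
  refine (x_sum z).countable_support.mono fun A hA => ?_
  simp only [Set.mem_ofPred_eq, h] at hA
  simpa using hA

noncomputable def sp (D : Set Γ) (x : X) : ℝ := ⨆ B, D.indicator (fun B => max (x B) 0) B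

lemma sp_bdd (D : Set Γ) (x : X) :
    BddAbove (Set.range fun B => D.indicator (fun B => max (x B) 0) B) := by
  refine ⟨‖x‖, ?_⟩
  rintro _ ⟨B, rfl⟩
  by_cases h : B ∈ D
  · simp only [Set.indicator_of_mem h]
    exact max_le ((le_abs_self _).trans (x_le x B)) (norm_nonneg _)
  · simp [h]

lemma le_sp (D : Set Γ) (x : X) (B : Γ) : D.indicator (fun B => max (x B) 0) B ≤ sp D x :=
  le_ciSup (sp_bdd D x) B

lemma sp_nonneg (D : Set Γ) (x : X) : 0 ≤ sp D x :=
  le_trans (Set.indicator_nonneg (fun _ _ => le_max_right _ _) _) (le_sp D x fun _ => true)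

lemma sp_lip (D : Set Γ) (x y : X) : sp D x ≤ sp D y + ‖x - y‖ := by
  refine ciSup_le fun B => ?_
  by_cases h : B ∈ D
  · have h1 := le_sp D y B
    simp only [Set.indicator_of_mem h] at h1 ⊢
    have h2 := x_le (x - y) B
    have h3 : (x - y : X) B = x B - y B := rfl
    rw [h3] at h2
    have h4 := le_abs_self (x B - y B)
    refine max_le ?_ ?_
    · linarith [le_max_left (y B) 0]
    · linarith [le_max_right (y B) 0, norm_nonneg (x - y)]
  · simp only [Set.indicator_of_notMem h]
    linarith [sp_nonneg D y, norm_nonneg (x - y)]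

lemma sp_zero (D : Set Γ) : sp D 0 = 0 := by
  refine le_antisymm (ciSup_le fun B => ?_) (sp_nonneg _ _)
  by_cases h : B ∈ D <;> simp [h]

def cyl (l : List Bool) : Set Γ := {B | seg B l.length = l}

lemma sp_tend (A : Γ) (x : X) :
    Tendsto (fun n => sp (cyl (seg A n)) x) atTop (𝓝 (max (x A) 0)) := by
  refine Metric.tendsto_nhds.2 fun ε hε => ?_
  have h1 : ∀ᶠ B in cofinite, |x B| ^ 2 < (ε / 2) ^ 2 :=
    (x_sum x).tendsto_cofinite_zero.eventually (gt_mem_nhds (by positivity))
  have h2 : {B | ¬ |x B| ^ 2 < (ε / 2) ^ 2}.Finite := h1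
  have h3 : ∀ᶠ n in atTop, ∀ B ∈ {B | ¬ |x B| ^ 2 < (ε / 2) ^ 2}, B ≠ A → seg B n ≠ seg A n := by
    refine (eventually_all_finite h2).2 fun B _ => ?_
    by_cases h : B = A
    · exact Eventually.of_forall fun n h' => absurd h h'
    · filter_upwards [seg_ne h] with n hn _ using hn
  filter_upwards [h3] with n hn
  have hA : A ∈ cyl (seg A n) := by simp [cyl, seg_len]
  have l1 := le_sp (cyl (seg A n)) x A
  simp only [Set.indicator_of_mem hA] at l1
  have l2 : sp (cyl (seg A n)) x ≤ max (x A) 0 + ε / 2 := by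
    refine ciSup_le fun B => ?_
    by_cases h : B ∈ cyl (seg A n)
    · simp only [Set.indicator_of_mem h]
      by_cases hBA : B = A
      · rw [hBA]; linarith
      · have h5 : |x B| ^ 2 < (ε / 2) ^ 2 := by
          by_contra h6
          refine hn B h6 hBA ?_
          simpa [cyl, seg_len] using h
        have h7 : |x B| < ε / 2 := lt_of_pow_lt_pow_left₀ 2 (by positivity) h5
        refine max_le ?_ ?_
        · linarith [le_abs_self (x B), le_max_right (x A) 0]
        · linarith [le_max_right (x A) 0]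
    · simp only [Set.indicator_of_notMem h]
      linarith [le_max_right (x A) 0]
  rw [Real.dist_eq, abs_lt]
  constructor <;> linarith

noncomputable def φ (l : List Bool) (x : X) : ℝ := sp (cyl l) x - sp (cyl l) (-x)

lemma φ_zero (l : List Bool) : φ l 0 = 0 := by simp [φ, sp_zero]

lemma φ_lip (l : List Bool) (x y : X) : |φ l x - φ l y| ≤ 2 * ‖x - y‖ := by
  have h1 := sp_lip (cyl l) x y
  have h2 := sp_lip (cyl l) y x
  have h3 := sp_lip (cyl l) (-x) (-y)
  have h4 := sp_lip (cyl l) (-y) (-x)
  have e1 : ‖y - x‖ = ‖x - y‖ := norm_sub_rev _ _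
  have e2 : ‖-x - -y‖ = ‖x - y‖ := by rw [← norm_neg]; congr 1; abel
  have e3 : ‖-y - -x‖ = ‖x - y‖ := by congr 1; abel
  rw [abs_le]; unfold φ
  constructor <;> linarith

lemma φ_tend (A : Γ) (x : X) : Tendsto (fun n => x A - φ (seg A n) x) atTop (𝓝 0) := by
  have h := (tendsto_const_nhds (x := x A)).sub ((sp_tend A x).sub (sp_tend A (-x)))
  have h3 : (-x : X) A = -(x A) := rfl
  rw [h3] at h
  have : x A - (max (x A) 0 - max (-(x A)) 0) = 0 := by
    rcases le_total (x A) 0 with h1 | h1
    · rw [max_eq_right h1, max_eq_left (by linarith)]; ring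
    · rw [max_eq_left h1, max_eq_right (by linarith)]; ring
  rw [this] at h
  exact h

end Pool.Agent.H87.BLp
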