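import Mathlib

set_option autoImplicit false
set_option linter.unusedSectionVars false

namespace Pool.Agent.H87.BLp

variable {X Y E : Type} [NormedAddCommGroup X] [NormedSpace ℝ X] [NormedAddCommGroup Y]
  [NormedSpace ℝ Y] [NormedAddCommGroup E] [NormedSpace ℝ E]

/-- The rectangular increment `ΔT(u,u';v,v')`. -/
def incr (T : X × Y → E) (u u' : X) (v v' : Y) : E :=
  T (u, v) - T (u', v) - T (u, v') + T (u', v')

/-- `T` is two-Lipschitz and vanishes on both axes. -/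
def IsBLip0 (T : X × Y → E) : Prop :=
  (∃ k > (0 : ℝ), ∀ u u' v v', ‖incr T u u' v v'‖ ≤ k * ‖u - u'‖ * ‖v - v'‖) ∧
    (∀ u, T (u, 0) = 0) ∧ ∀ v, T (0, v) = 0

/-- The norm `BLip(T)`. -/
noncomputable def blip (T : X × Y → E) : ℝ :=
  sSup {r | ∃ u u' v v', u ≠ u' ∧ v ≠ v' ∧ r = ‖incr T u u' v v'‖ / (‖u - u'‖ * ‖v - v'‖)}

variable (X Y E) in
/-- `Blin(X,Y;E)` is the range of a bounded linear projection on `BLip₀(X,Y;E)`. -/
def Compl : Prop :=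
  ∃ P : (X × Y → E) → (X × Y → E),
    (∀ S T, IsBLip0 S → IsBLip0 T → P (S + T) = P S + P T) ∧
    (∀ (c : ℝ) T, IsBLip0 T → P (c • T) = c • P T) ∧
    (∃ C : ℝ, ∀ T, IsBLip0 T → blip (P T) ≤ C * blip T) ∧
    (∀ T, IsBLip0 T → IsBoundedBilinearMap ℝ (P T)) ∧
    ∀ T, IsBoundedBilinearMap ℝ T → P T = T

/-- The real Hilbert space `ℓ₂(2^ℕ)`. -/
abbrev L2 : Type := lp (fun _ : ℕ → Bool => ℝ) 2

/-- The real space `c₀`. -/
abbrev C0 : Type := ZeroAtInftyContinuousMap ℕ ℝ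

end Pool.Agent.H87.BLp
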