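import Pool.Agent.H87.BLp1
import Pool.Agent.H87.BLpDef

set_option autoImplicit false
set_option linter.unusedSectionVars false

open scoped BoundedContinuousFunction
open Filter Topology

namespace Pool.Agent.H87.BLp

section gen
variable {X Y E : Type} [NormedAddCommGroup X] [NormedSpace ℝ X] [NormedAddCommGroup Y]
  [NormedSpace ℝ Y] [NormedAddCommGroup E] [NormedSpace ℝ E]

theorem isB_zero : IsBLip0 (0 : X × Y → E) :=
  ⟨⟨1, one_pos, fun u u' v v' => by simp [incr]; positivity⟩, fun _ => rfl, fun _ => rfl⟩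

theorem isB_add {S T : X × Y → E} (hS : IsBLip0 S) (hT : IsBLip0 T) : IsBLip0 (S + T) := by
  obtain ⟨⟨k, k0, hk⟩, h1, h2⟩ := hS
  obtain ⟨⟨l, l0, hl⟩, h3, h4⟩ := hT
  refine ⟨⟨k + l, by positivity, fun u u' v v' => ?_⟩, fun u => by simp [h1, h3],
    fun v => by simp [h2, h4]⟩
  have e : incr (S + T) u u' v v' = incr S u u' v v' + incr T u u' v v' := by
    simp only [incr, Pi.add_apply]; abel
  rw [e]
  refine (norm_add_le _ _).trans ?_
  linarith [hk u u' v v', hl u u' v v']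

theorem isB_smul (c : ℝ) {T : X × Y → E} (hT : IsBLip0 T) : IsBLip0 (c • T) := by
  obtain ⟨⟨k, k0, hk⟩, h1, h2⟩ := hT
  refine ⟨⟨(|c| + 1) * k, by positivity, fun u u' v v' => ?_⟩, fun u => by simp [h1],
    fun v => by simp [h2]⟩
  have e : incr (c • T) u u' v v' = c • incr T u u' v v' := by
    simp only [incr, Pi.smul_apply, smul_add, smul_sub]
  rw [e, norm_smul, Real.norm_eq_abs]
  have h3 := hk u u' v v'
  have h4 := norm_nonneg (incr T u u' v v')
  have h5 := abs_nonneg c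
  nlinarith

variable (X Y E) in
/-- The space `BLip₀(X,Y;E)` of two-Lipschitz maps vanishing on both axes. -/
def BLip0 : Submodule ℝ (X × Y → E) where
  carrier := {T | IsBLip0 T}
  zero_mem' := isB_zero
  add_mem' := isB_add
  smul_mem' := isB_smul

/-- `T` is a bounded bilinear map. -/
def IsBlin (T : X × Y → E) : Prop := ∃ S : X →L[ℝ] Y →L[ℝ] E, ∀ u v, T (u, v) = S u v

variable (X Y E) in
/-- `Blin(X,Y;E)` is the range of a bounded linear projection on `BLip₀(X,Y;E)`. -/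
def Compl0 : Prop :=
  ∃ P : BLip0 X Y E →ₗ[ℝ] BLip0 X Y E, (∃ C : ℝ, ∀ T, blip (P T).1 ≤ C * blip T.1) ∧
    (∀ T, IsBlin (P T).1) ∧ ∀ T : BLip0 X Y E, IsBlin T.1 → P T = T

lemma bil_mem {T : X × Y → E} (h : IsBoundedBilinearMap ℝ T) : IsBLip0 T := by
  obtain ⟨C, C0, hC⟩ := h.bound
  refine ⟨⟨C, C0, fun u u' v v' => ?_⟩, fun u => ?_, fun v => ?_⟩
  · have : incr T u u' v v' = T (u - u', v - v') := by
      rw [h.map_sub_left, h.map_sub_right, h.map_sub_right]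
      unfold incr; abel
    rw [this]; exact hC _ _
  · simpa using hC u 0
  · simpa using hC 0 v

lemma bil_iff {T : X × Y → E} : IsBlin T ↔ IsBoundedBilinearMap ℝ T := by
  constructor
  · rintro ⟨S, hS⟩
    have : T = fun p => S p.1 p.2 := funext fun p => hS p.1 p.2
    rw [this]; exact S.isBoundedBilinearMap
  · intro h
    obtain ⟨C, C0, hC⟩ := h.bound
    exact ⟨LinearMap.mkContinuous₂ (LinearMap.mk₂ ℝ (fun u v => T (u, v)) h.add_left h.smul_left
      h.add_right h.smul_right) C hC, fun u v => rfl⟩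

lemma bridge (h : Compl X Y E) : Compl0 X Y E := by
  obtain ⟨P, h1, h2, ⟨C, h3⟩, h4, h5⟩ := h
  refine ⟨⟨⟨fun T => ⟨P T.1, bil_mem (h4 _ T.2)⟩, fun S T => Subtype.ext (h1 _ _ S.2 T.2)⟩,
    fun c T => Subtype.ext (h2 c _ T.2)⟩, ⟨C, fun T => h3 _ T.2⟩, fun T => bil_iff.2 (h4 _ T.2),
    fun T hT => Subtype.ext (h5 _ (bil_iff.1 hT))⟩

lemma blip_le (T : X × Y → E) {k : ℝ} (k0 : 0 ≤ k)
    (hk : ∀ u u' v v', ‖incr T u u' v v'‖ ≤ k * ‖u - u'‖ * ‖v - v'‖) : blip T ≤ k := by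
  refine Real.sSup_le ?_ k0
  rintro _ ⟨u, u', v, v', h1, h2, rfl⟩
  have h3 : 0 < ‖u - u'‖ := norm_pos_iff.2 (sub_ne_zero.2 h1)
  have h4 : 0 < ‖v - v'‖ := norm_pos_iff.2 (sub_ne_zero.2 h2)
  rw [div_le_iff₀ (by positivity), ← mul_assoc]
  exact hk _ _ _ _

lemma blip_nonneg (T : X × Y → E) : 0 ≤ blip T := by
  refine Real.sSup_nonneg ?_
  rintro _ ⟨u, u', v, v', h1, h2, rfl⟩
  positivity

lemma le_blip (T : BLip0 X Y E) (u : X) (v : Y) : ‖T.1 (u, v)‖ ≤ blip T.1 * ‖u‖ * ‖v‖ := by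
  obtain ⟨⟨k, k0, hk⟩, h1, h2⟩ := T.2
  by_cases hu : u = 0
  · simp [hu, h2]
  by_cases hv : v = 0
  · simp [hv, h1]
  have h3 : 0 < ‖u‖ := norm_pos_iff.2 hu
  have h4 : 0 < ‖v‖ := norm_pos_iff.2 hv
  have : ‖incr T.1 u 0 v 0‖ / (‖u - 0‖ * ‖v - 0‖) ≤ blip T.1 := by
    refine le_csSup ⟨k, ?_⟩ ⟨u, 0, v, 0, hu, hv, rfl⟩
    rintro _ ⟨u, u', v, v', h1, h2, rfl⟩
    have h3 : 0 < ‖u - u'‖ := norm_pos_iff.2 (sub_ne_zero.2 h1)
    have h4 : 0 < ‖v - v'‖ := norm_pos_iff.2 (sub_ne_zero.2 h2)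
    rw [div_le_iff₀ (by positivity), ← mul_assoc]
    exact hk _ _ _ _
  simp only [incr, h1, h2, sub_zero, add_zero] at this
  rw [div_le_iff₀ (by positivity), ← mul_assoc] at this
  exact this

lemma incr_mk (F : X → E) (u u' : X) (v v' : ℝ) :
    incr (fun p : X × ℝ => p.2 • F p.1) u u' v v' = (v - v') • (F u - F u') := by
  simp only [incr, smul_sub, sub_smul]; abel

lemma mk_bd (F : X → E) {K : ℝ} (hF : ∀ x y, ‖F x - F y‖ ≤ K * ‖x - y‖) (u u' : X) (v v' : ℝ) :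
    ‖incr (fun p : X × ℝ => p.2 • F p.1) u u' v v'‖ ≤ K * ‖u - u'‖ * ‖v - v'‖ := by
  rw [incr_mk, norm_smul, mul_comm]
  exact mul_le_mul_of_nonneg_right (hF _ _) (norm_nonneg _)

/-- a Lipschitz map as a two-Lipschitz map -/
def mk (F : X → E) (K : ℝ) (hF : ∀ x y, ‖F x - F y‖ ≤ K * ‖x - y‖) (h0 : F 0 = 0) :
    BLip0 X ℝ E :=
  ⟨fun p => p.2 • F p.1, ⟨|K| + 1, by positivity, mk_bd F fun x y => (hF x y).trans
    (mul_le_mul_of_nonneg_right (by linarith [le_abs_self K]) (norm_nonneg _))⟩,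
    fun u => by simp, fun v => by simp [h0]⟩

end gen

abbrev E := ZeroAtInftyContinuousMap ℕ ℝ

/-- a null sequence as an element of `c₀` -/
def toE (a : ℕ → ℝ) (h : Tendsto a atTop (𝓝 0)) : E :=
  ⟨⟨a, continuous_of_discreteTopology⟩, by rw [cocompact_eq_atTop]; exact h⟩

lemma toE_apply (a : ℕ → ℝ) (h : Tendsto a atTop (𝓝 0)) (n : ℕ) : toE a h n = a n := rfl

lemma E_le (a : E) (n : ℕ) : |a n| ≤ ‖a‖ := by
  rw [← ZeroAtInftyContinuousMap.norm_toBCF_eq_norm]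
  exact a.toBCF.norm_coe_le_norm n

lemma E_norm_le (a : E) {c : ℝ} (c0 : 0 ≤ c) (h : ∀ n, |a n| ≤ c) : ‖a‖ ≤ c := by
  rw [← ZeroAtInftyContinuousMap.norm_toBCF_eq_norm]
  exact (BoundedContinuousFunction.norm_le c0).2 h

lemma E_tend (a : E) : Tendsto (fun n => a n) atTop (𝓝 0) := by
  have := a.zero_at_infty'
  rw [cocompact_eq_atTop] at this
  exact this

noncomputable def evE (k : ℕ) : E →L[ℝ] ℝ :=
  LinearMap.mkContinuous ⟨⟨fun a => a k, fun _ _ => rfl⟩, fun _ _ => rfl⟩ 1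
    fun a => by simpa using E_le a k

lemma evE_apply (k : ℕ) (a : E) : evE k a = a k := rfl

noncomputable def u (n : ℕ) : E := toE (ind {n}) (by
  refine tendsto_const_nhds.congr' ?_
  filter_upwards [eventually_gt_atTop n] with k hk
  simp [ind_apply, hk.ne'])

lemma u_apply (n k : ℕ) : u n k = ind {n} k := rfl

noncomputable def Ψ (l : List Bool) (n : ℕ) : BLip0 X ℝ E :=
  mk (fun x => φ l x • u n) (2 * ‖u n‖) (fun x y => by
    have e1 : φ l x • u n - φ l y • u n = (φ l x - φ l y) • u n := by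
      ext k; simp; ring
    rw [e1, norm_smul, Real.norm_eq_abs]
    have := mul_le_mul_of_nonneg_right (φ_lip l x y) (norm_nonneg (u n))
    linarith) (by simp [φ_zero])

noncomputable def co (A : Γ) : X →L[ℝ] ℝ :=
  LinearMap.mkContinuous ⟨⟨fun x => x A, fun _ _ => rfl⟩, fun _ _ => rfl⟩ 1
    fun x => by simpa using x_le x A

lemma co_apply (A : Γ) (x : X) : co A x = x A := rfl

noncomputable def Θ (A : Γ) (n : ℕ) : BLip0 X ℝ E :=
  mk (fun x => co A x • u n) (‖co A‖ * ‖u n‖) (fun x y => by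
    have e1 : co A x • u n - co A y • u n = (co A x - co A y) • u n := by
      ext k; simp; ring
    rw [e1, norm_smul, ← map_sub]
    have := mul_le_mul_of_nonneg_right ((co A).le_opNorm (x - y)) (norm_nonneg (u n))
    linarith) (by simp)

lemma Θ_blin (A : Γ) (n : ℕ) : IsBlin (Θ A n).1 := by
  refine ⟨(co A).smulRight ((ContinuousLinearMap.id ℝ ℝ).smulRight (u n)), fun x v => ?_⟩
  simp only [Θ, mk, ContinuousLinearMap.smulRight_apply, smul_apply,
    ContinuousLinearMap.id_apply]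
  rw [smul_comm]

noncomputable def F (A : Γ) (a : V) (x : X) : E :=
  toE (fun n => a n * (x A - φ (seg A n) x)) (by
    refine squeeze_zero_norm (a := fun n => ‖a‖ * ‖x A - φ (seg A n) x‖) (fun n => ?_) ?_
    · rw [norm_mul]
      exact mul_le_mul_of_nonneg_right (a.norm_coe_le_norm n) (norm_nonneg _)
    · simpa using (φ_tend A x).norm.const_mul ‖a‖)

lemma F_apply (A : Γ) (a : V) (x : X) (n : ℕ) : F A a x n = a n * (x A - φ (seg A n) x) := rfl

lemma F_lip (A : Γ) (a : V) (x y : X) : ‖F A a x - F A a y‖ ≤ 3 * ‖a‖ * ‖x - y‖ := by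
  refine E_norm_le _ (by positivity) fun n => ?_
  have e1 : (F A a x - F A a y) n = a n * ((x - y : X) A - (φ (seg A n) x - φ (seg A n) y)) := by
    have h3 : (x - y : X) A = x A - y A := rfl
    rw [h3]
    simp only [ZeroAtInftyContinuousMap.coe_sub, Pi.sub_apply, F_apply]; ring
  rw [e1, abs_mul]
  have h1 : |a n| ≤ ‖a‖ := a.norm_coe_le_norm n
  have h2 : |(x - y : X) A - (φ (seg A n) x - φ (seg A n) y)| ≤ 3 * ‖x - y‖ := by
    refine (abs_sub _ _).trans ?_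
    linarith [x_le (x - y) A, φ_lip (seg A n) x y]
  calc _ ≤ ‖a‖ * (3 * ‖x - y‖) := mul_le_mul h1 h2 (abs_nonneg _) (norm_nonneg _)
    _ = _ := by ring

lemma F_zero (A : Γ) (a : V) : F A a 0 = 0 := by
  ext n; simp [F_apply, φ_zero]

noncomputable def Φ (A : Γ) : V →ₗ[ℝ] BLip0 X ℝ E where
  toFun a := mk (F A a) (3 * ‖a‖) (F_lip A a) (F_zero A a)
  map_add' a b := by
    ext p n
    simp [mk, F_apply]; ring
  map_smul' c a := by
    ext p n
    simp [mk, F_apply]; ring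

lemma Φ_blip (A : Γ) (a : V) : blip (Φ A a).1 ≤ 3 * ‖a‖ :=
  blip_le _ (by positivity) (mk_bd _ (F_lip A a))

lemma Φ_ind (A : Γ) (n : ℕ) : Φ A (ind {n}) + Ψ (seg A n) n = Θ A n := by
  ext p k
  by_cases h : k = n
  · subst h
    simp [Φ, Θ, Ψ, mk, F_apply, u_apply, co_apply, ind_apply]; ring
  · simp [Φ, Θ, Ψ, mk, F_apply, u_apply, co_apply, ind_apply, h]

theorem main0 : ¬ Compl0 X ℝ E := by
  rintro ⟨P, ⟨C, hC⟩, h1, h2⟩
  choose Sb hS using h1
  let y : List Bool × ℕ × ℕ → X →L[ℝ] ℝ := fun i =>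
    (evE i.2.2).comp ((ContinuousLinearMap.apply ℝ E (1 : ℝ)).comp (Sb (Ψ i.1 i.2.1)))
  have hc : (⋃ i, {A : Γ | y i (e A) ≠ 0}).Countable := Set.countable_iUnion fun i => fn_count _
  obtain ⟨A, hA⟩ : ∃ A, A ∉ ⋃ i, {A : Γ | y i (e A) ≠ 0} := by
    by_contra h
    push Not at h
    exact unc (hc.mono fun A _ => h A)
  simp only [Set.mem_iUnion, Set.mem_ofPred_eq, not_exists, not_not] at hA
  have h3 : ∀ l n k, (P (Ψ l n)).1 (e A, 1) k = 0 := fun l n k => by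
    rw [hS]; exact hA (l, n, k)
  let T : ℕ → V →L[ℝ] ℝ := fun k => LinearMap.mkContinuous
    ⟨⟨fun a => (P (Φ A a)).1 (e A, 1) k, fun a b => by simp⟩, fun c a => by simp⟩
    (|C| * 3 * ‖e A‖) fun a => by
      have l1 := E_le ((P (Φ A a)).1 (e A, 1)) k
      have l2 := le_blip (P (Φ A a)) (e A) 1
      have l3 := hC (Φ A a)
      have l4 := Φ_blip A a
      have l5 := blip_nonneg (Φ A a).1
      have l6 : C * blip (Φ A a).1 ≤ |C| * (3 * ‖a‖) :=
        (mul_le_mul_of_nonneg_right (le_abs_self C) l5).trans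
          (mul_le_mul_of_nonneg_left l4 (abs_nonneg _))
      have l7 := mul_le_mul_of_nonneg_right (l3.trans l6) (norm_nonneg (e A))
      simp only [norm_one, mul_one] at l2
      show |(P (Φ A a)).1 (e A, 1) k| ≤ _
      linarith
  refine phil T (fun n k => ?_) fun a => E_tend ((P (Φ A a)).1 (e A, 1))
  show (P (Φ A (ind {n}))).1 (e A, 1) k = _
  have e1 := P.map_add (Φ A (ind {n})) (Ψ (seg A n) n)
  rw [Φ_ind, h2 _ (Θ_blin A n)] at e1
  have e2 : (Θ A n).1 (e A, 1) k =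
      (P (Φ A (ind {n}))).1 (e A, 1) k + (P (Ψ (seg A n) n)).1 (e A, 1) k := by
    rw [e1]; rfl
  rw [h3, add_zero] at e2
  rw [← e2]
  simp [Θ, mk, co_apply, e_self, u_apply]

theorem main : ¬ Compl L2 ℝ C0 := fun h => main0 (bridge h)

end Pool.Agent.H87.BLp
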