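import Mathlib

namespace Pool.Agent.H87.L1K

open Filter Topology

/-- absolutely summable scalar functions on `M` -/
def L (K : Type) [RCLike K] (M : Type) : Type := lp (fun _ : M => K) 1

variable {K : Type} [RCLike K] {M : Type}

noncomputable instance : NormedAddCommGroup (L K M) :=
  inferInstanceAs (NormedAddCommGroup (lp (fun _ : M => K) 1))
noncomputable instance : NormedSpace K (L K M) :=
  inferInstanceAs (NormedSpace K (lp (fun _ : M => K) 1))
instance : CompleteSpace (L K M) := inferInstanceAs (CompleteSpace (lp (fun _ : M => K) 1))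

def L.v (f : L K M) : lp (fun _ : M => K) 1 := f
def L.ap (f : L K M) (m : M) : K := f.v m

lemma L.ext' {f g : L K M} (h : ∀ m, f.ap m = g.ap m) : f = g := lp.ext (funext h)

@[simp] lemma add_ap (f g : L K M) (m : M) : (f + g).ap m = f.ap m + g.ap m := rfl
@[simp] lemma sub_ap (f g : L K M) (m : M) : (f - g).ap m = f.ap m - g.ap m := rfl
@[simp] lemma smul_ap (t : K) (g : L K M) (m : M) : (t • g).ap m = t * g.ap m := rfl
@[simp] lemma zero_ap (m : M) : (0 : L K M).ap m = 0 := rfl

open Classical in
noncomputable def dl (K : Type) [RCLike K] {M : Type} (m : M) : L K M := lp.single 1 m (1 : K)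

open Classical in
lemma dl_ap (m n : M) : (dl K m).ap n = if n = m then 1 else 0 := by
  simp [dl, L.ap, L.v, lp.single_apply, Pi.single_apply]

open Classical in
@[simp] lemma norm_dl (m : M) : ‖dl K m‖ = 1 := by
  have : ‖(lp.single 1 m (1 : K) : lp (fun _ : M => K) 1)‖ = 1 := by
    rw [lp.norm_single (by simp)]; simp
  exact this

lemma hasSum_norm (f : L K M) : HasSum (fun m => ‖f.ap m‖) ‖f‖ := by
  have := lp.hasSum_norm (p := 1) (by simp) f.v
  simp only [ENNReal.toReal_one, Real.rpow_one] at this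
  exact this

lemma ap_le (f : L K M) (m : M) : ‖f.ap m‖ ≤ ‖f‖ :=
  le_hasSum (hasSum_norm f) m fun _ _ => norm_nonneg _

open Classical in
lemma hasSum_dl (f : L K M) : HasSum (fun m => f.ap m • dl K m) f := by
  have := lp.hasSum_single (p := 1) (by simp) f.v
  have h : (fun m => f.ap m • dl K m) = fun m => (lp.single 1 m (f.v m) : lp (fun _ : M => K) 1) := by
    funext m
    refine L.ext' fun n => ?_
    rw [smul_ap, dl_ap]
    simp only [L.ap, L.v, lp.single_apply, Pi.single_apply]
    split_ifs with h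
    · simp
    · simp
  rw [h]; exact this

section
variable {E : Type} [NormedAddCommGroup E] [NormedSpace K E]

lemma clm_ext {S T : L K M →L[K] E} (h : ∀ m, S (dl K m) = T (dl K m)) : S = T := by
  ext f
  have h1 := (hasSum_dl f).mapL S
  have h2 := (hasSum_dl f).mapL T
  simp only [map_smul, h] at h1 h2
  exact h1.unique h2

variable [CompleteSpace E]

lemma summ (u : M → E) (C : ℝ) (hu : ∀ m, ‖u m‖ ≤ C) (f : L K M) :
    Summable fun m => ‖f.ap m • u m‖ :=
  Summable.of_nonneg_of_le (fun _ => norm_nonneg _)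
    (fun m => by rw [norm_smul]; exact mul_le_mul_of_nonneg_left (hu m) (norm_nonneg _))
    ((hasSum_norm f).summable.mul_right C)

noncomputable def lift (K : Type) [RCLike K] [NormedSpace K E] (u : M → E) (C : ℝ) (hu : ∀ m, ‖u m‖ ≤ C) : L K M →L[K] E :=
  LinearMap.mkContinuous
    { toFun := fun f => ∑' m, f.ap m • u m
      map_add' := fun f g => by
        rw [← (summ u C hu f).of_norm.tsum_add (summ u C hu g).of_norm]
        simp [add_smul]
      map_smul' := fun t f => by
        rw [RingHom.id_apply, ← (summ u C hu f).of_norm.tsum_const_smul t]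
        simp [smul_smul] } C
    (fun f => by
      refine (norm_tsum_le_tsum_norm (summ u C hu f)).trans ?_
      rw [mul_comm, ← ((hasSum_norm f).mul_right C).tsum_eq]
      exact (summ u C hu f).tsum_le_tsum
        (fun m => by rw [norm_smul]; exact mul_le_mul_of_nonneg_left (hu m) (norm_nonneg _))
        ((hasSum_norm f).summable.mul_right C))

@[simp] lemma lift_dl (u : M → E) (C : ℝ) (hu : ∀ m, ‖u m‖ ≤ C) (m : M) :
    lift K u C hu (dl K m) = u m := by
  show ∑' n, (dl K m).ap n • u n = u m
  rw [tsum_eq_single m]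
  · simp [dl_ap]
  · intro n hn; simp [dl_ap, hn]

lemma norm_lift_le (u : M → E) (C : ℝ) (hC : 0 ≤ C) (hu : ∀ m, ‖u m‖ ≤ C) :
    ‖lift K u C hu‖ ≤ C := LinearMap.mkContinuous_norm_le _ hC _

lemma lift_le (u : M → E) (C : ℝ) (hu : ∀ m, ‖u m‖ ≤ C) (f : L K M) :
    ‖lift K u C hu f‖ ≤ C * ‖f‖ := by
  refine (norm_tsum_le_tsum_norm (summ u C hu f)).trans ?_
  rw [mul_comm, ← ((hasSum_norm f).mul_right C).tsum_eq]
  exact (summ u C hu f).tsum_le_tsum
    (fun m => by rw [norm_smul]; exact mul_le_mul_of_nonneg_left (hu m) (norm_nonneg _))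
    ((hasSum_norm f).summable.mul_right C)
end

noncomputable def apL (K : Type) [RCLike K] {M : Type} (m : M) : L K M →L[K] K :=
  LinearMap.mkContinuous
    { toFun := fun f => f.ap m, map_add' := fun _ _ => rfl, map_smul' := fun _ _ => rfl } 1
    (fun f => by simpa using ap_le f m)

@[simp] lemma apL_apply (m : M) (f : L K M) : apL K m f = f.ap m := rfl

lemma sum_le (f : L K M) (s : Finset M) : ∑ m ∈ s, ‖f.ap m‖ ≤ ‖f‖ :=
  sum_le_hasSum s (fun _ _ => norm_nonneg _) (hasSum_norm f)

lemma norm_le_of (f : L K M) {C : ℝ} (h : ∀ s : Finset M, ∑ m ∈ s, ‖f.ap m‖ ≤ C) : ‖f‖ ≤ C :=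
  hasSum_le_of_sum_le (hasSum_norm f) h

lemma exists_fin (f : L K M) {η : ℝ} (hη : 0 < η) : ∃ s : Finset M, ‖f‖ - η ≤ ∑ m ∈ s, ‖f.ap m‖ := by
  by_contra h
  push Not at h
  have := norm_le_of f (fun s => (h s).le)
  linarith

instance [Countable M] : TopologicalSpace.SeparableSpace (L K M) := by
  have hd : Dense (Submodule.span K (Set.range (dl K : M → L K M)) : Set (L K M)) := by
    intro f
    refine mem_closure_of_tendsto (hasSum_dl f) (Eventually.of_forall fun s => ?_)
    exact Submodule.sum_mem _ fun m _ => Submodule.smul_mem _ _ (Submodule.subset_span ⟨m, rfl⟩)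
  have h2 : TopologicalSpace.IsSeparable (Submodule.span K (Set.range (dl K : M → L K M)) : Set (L K M)) :=
    (Set.countable_range _).isSeparable.span
  have h3 := h2.closure
  rw [hd.closure_eq] at h3
  exact TopologicalSpace.isSeparable_univ_iff.1 h3

end Pool.Agent.H87.L1K
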