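import Pool.Agent.H87.BiorDef
import Pool.Agent.H87.L1K
import Pool.Agent.H94.BasicSeq

namespace Pool.Agent.H87.Bior

open Filter Topology L1K BoundedContinuousFunction

variable (K : Type) [RCLike K]

abbrev E : Type := L K ℕ × (ℚ →ᵇ K)

noncomputable def tq : ℕ ≃ ℚ := (Denumerable.eqv ℚ).symm

noncomputable def xs (n : ℕ) : E K := (dl K n, 0)

noncomputable def fs (n : ℕ) : StrongDual K (E K) :=
  (apL K n).comp (ContinuousLinearMap.fst K _ _) +
    (evalCLM K (tq n)).comp (ContinuousLinearMap.snd K _ _)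

lemma fs_apply (n : ℕ) (v : E K) : fs K n v = v.1.ap n + v.2 (tq n) := rfl

lemma norm_xs (n : ℕ) : ‖xs K n‖ = 1 := by simp [xs, Prod.norm_def]

lemma norm_fs (n : ℕ) : ‖fs K n‖ ≤ 2 := by
  refine ContinuousLinearMap.opNorm_le_bound _ (by norm_num) fun v => ?_
  rw [fs_apply]
  have h1 := ap_le v.1 n
  have h2 := v.2.norm_coe_le_norm (tq n)
  have h3 := norm_fst_le v
  have h4 := norm_snd_le v
  have := norm_add_le (v.1.ap n) (v.2 (tq n))
  linarith

lemma biorth (i j : ℕ) : fs K i (xs K j) = if i = j then 1 else 0 := by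
  rw [fs_apply]; simp [xs, dl_ap]

lemma sum_le_of {X : Type} [NormedAddCommGroup X] [NormedSpace K X] (u : ℕ → X) (C : ℝ)
    (hu : ∀ n, ‖u n‖ ≤ C) (a : ℕ → K) (m : ℕ) :
    ‖∑ i ∈ Finset.range m, a i • u i‖ ≤ C * ∑ i ∈ Finset.range m, ‖a i‖ := by
  refine (norm_sum_le _ _).trans ?_
  rw [Finset.mul_sum]
  refine Finset.sum_le_sum fun i _ => ?_
  rw [norm_smul, mul_comm]
  exact mul_le_mul_of_nonneg_right (hu i) (norm_nonneg _)

lemma basic_of {X : Type} [NormedAddCommGroup X] [NormedSpace K X] (u : ℕ → X) (C : ℝ)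
    (hu : ∀ n, ‖u n‖ ≤ C)
    (hl : ∀ (a : ℕ → K) m, ∑ i ∈ Finset.range m, ‖a i‖ ≤ ‖∑ i ∈ Finset.range m, a i • u i‖) :
    IsBasic K u := by
  have hC : 0 ≤ C := (norm_nonneg _).trans (hu 0)
  refine H94.BasicSeq.grunblum u (fun n hn => ?_) C fun a m n hmn => ?_
  · have := hl (fun i => if i = n then 1 else 0) (n + 1)
    rw [Finset.sum_eq_single n (by intro b _ hb; simp [hb]) (by simp),
      Finset.sum_eq_single n (by intro b _ hb; simp [hb]) (by simp)] at this
    simp [hn] at this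
    linarith
  · refine (sum_le_of K u C hu a m).trans (mul_le_mul_of_nonneg_left ?_ hC)
    refine le_trans ?_ (hl a n)
    exact Finset.sum_le_sum_of_subset_of_nonneg (Finset.range_mono hmn) fun _ _ _ => norm_nonneg _

lemma basic_xs : IsBasic K (xs K) := by
  refine basic_of K _ 1 (fun n => (norm_xs K n).le) fun a m => ?_
  refine le_trans ?_ (norm_fst_le _)
  refine le_trans (le_of_eq ?_) (sum_le _ (Finset.range m))
  refine Finset.sum_congr rfl fun j hj => ?_
  have : ((∑ i ∈ Finset.range m, a i • xs K i).1).ap j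
      = ((apL K j).comp (ContinuousLinearMap.fst K _ (ℚ →ᵇ K))) (∑ i ∈ Finset.range m, a i • xs K i) := rfl
  rw [this, map_sum]
  simp only [map_smul]
  rw [Finset.sum_eq_single j]
  · simp [xs, dl_ap]
  · intro b _ hb; simp [xs, dl_ap, hb.symm]
  · intro h; exact absurd hj h

lemma interp (c : ℕ → K) (hc : ∀ n, ‖c n‖ ≤ 1) (m : ℕ) :
    ∃ y : ℚ →ᵇ K, ‖y‖ ≤ 1 ∧ ∀ i < m, y (tq i) = c i := by
  let s : Set ℚ := tq '' (Set.Iio m)
  have hs : s.Finite := (Set.finite_Iio m).image _
  have : Finite s := hs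
  let g : s →ᵇ K := ofNormedAddCommGroupDiscrete (fun q => c (tq.symm q)) 1 (fun q => hc _)
  obtain ⟨y, hy, hy2⟩ := exists_norm_eq_domRestrict_eq hs.isClosed K g
  refine ⟨y, ?_, fun i hi => ?_⟩
  · rw [hy]; exact (norm_le (by norm_num)).2 fun q => hc _
  · have := congrArg (fun h : s →ᵇ K => h ⟨tq i, i, hi, rfl⟩) hy2
    simpa [g] using this

lemma basic_fs : IsBasic K (fs K) := by
  refine basic_of K _ 2 (norm_fs K) fun a m => ?_
  have hc : ∀ n, ∃ c : K, ‖c‖ ≤ 1 ∧ a n * c = (‖a n‖ : K) := by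
    intro n
    by_cases h : a n = 0
    · exact ⟨0, by simp, by simp [h]⟩
    · refine ⟨(‖a n‖ : K) / a n, ?_, by field_simp⟩
      rw [norm_div, RCLike.norm_ofReal, abs_norm, div_self (norm_ne_zero_iff.2 h)]
  choose c hc1 hc2 using hc
  obtain ⟨y, hy, hy2⟩ := interp K c hc1 m
  have h1 := (∑ i ∈ Finset.range m, a i • fs K i).le_opNorm ((0, y) : E K)
  have h2 : (∑ i ∈ Finset.range m, a i • fs K i) ((0, y) : E K)
      = ((∑ i ∈ Finset.range m, ‖a i‖ : ℝ) : K) := by
    rw [_root_.sum_apply, RCLike.ofReal_sum]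
    refine Finset.sum_congr rfl fun i hi => ?_
    rw [_root_.smul_apply, fs_apply]
    simp [hy2 i (Finset.mem_range.1 hi), hc2]
  rw [h2, RCLike.norm_ofReal, abs_of_nonneg (Finset.sum_nonneg fun _ _ => norm_nonneg _)] at h1
  refine h1.trans (mul_le_of_le_one_right (norm_nonneg _) ?_)
  simpa [Prod.norm_def] using hy

lemma total (v : E K) (h : ∀ n, fs K n v = 0) : v = 0 := by
  have h0 : Tendsto (fun n => ‖v.1.ap n‖) cofinite (𝓝 0) :=
    (hasSum_norm v.1).summable.tendsto_cofinite_zero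
  have he : ∀ n, v.2 (tq n) = - v.1.ap n := fun n => by
    have := h n; rw [fs_apply] at this; linear_combination this
  have hy : ∀ q, v.2 q = 0 := by
    intro q
    by_contra hq
    have hp : 0 < ‖v.2 q‖ / 2 := by have := norm_pos_iff.2 hq; linarith
    have h1 : {n | ¬ ‖v.1.ap n‖ < ‖v.2 q‖ / 2}.Finite := h0.eventually (gt_mem_nhds hp)
    have h2 : IsOpen {r : ℚ | ‖v.2 q‖ / 2 < ‖v.2 r‖} :=
      isOpen_lt continuous_const v.2.continuous.norm
    have h3 : {r : ℚ | ‖v.2 q‖ / 2 < ‖v.2 r‖} ∈ 𝓝 q := h2.mem_nhds (show ‖v.2 q‖ / 2 < ‖v.2 q‖ by linarith)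
    have h4 := infinite_of_mem_nhds q h3
    refine h4 ((h1.image tq).subset fun r hr => ⟨tq.symm r, ?_, by simp⟩)
    have := he (tq.symm r)
    simp only [Equiv.apply_symm_apply] at this
    simp only [Set.mem_setOf_eq, this, norm_neg] at hr ⊢
    linarith
  refine Prod.ext (L.ext' fun n => ?_) (BoundedContinuousFunction.ext hy)
  have := he n
  rw [hy] at this
  simpa using this.symm

lemma preAnn_eq : preAnn K (cspan K (fs K) : Set (StrongDual K (E K))) = {0} := by
  ext v
  refine ⟨fun hv => total K v fun n => hv _ ?_, fun hv f _ => ?_⟩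
  · exact Submodule.le_topologicalClosure _ (Submodule.subset_span ⟨n, rfl⟩)
  · rw [Set.mem_singleton_iff.1 hv, map_zero]

lemma not_equiv : ¬ Equivalent K (fs K) (restr K (xs K) (fs K)) := by
  intro h
  let a : ℕ → K := fun n => ((1 / ((n : ℝ) + 1) : ℝ) : K)
  have ha : ∀ n N, N ≤ n → ‖a n‖ ≤ 1 / ((N : ℝ) + 1) := by
    intro n N hN
    simp only [a, RCLike.norm_ofReal]
    rw [abs_of_nonneg (by positivity)]
    exact Nat.one_div_le_one_div hN
  have ha1 : ∀ n, ‖a n‖ ≤ 1 := fun n => by simpa using ha n 0 (Nat.zero_le _)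
  let P : cspan K (xs K) →L[K] L K ℕ :=
    (ContinuousLinearMap.fst K _ (ℚ →ᵇ K)).comp (cspan K (xs K)).subtypeL
  have hP : ∀ v, ‖P v‖ ≤ ‖v‖ := fun v => norm_fst_le v.1
  have hz : ∀ v ∈ cspan K (xs K), v.2 = 0 := by
    intro v hv
    have hcl : IsClosed {v : E K | v.2 = 0} := isClosed_eq continuous_snd continuous_const
    refine closure_minimal (s := (Submodule.span K (Set.range (xs K)) : Set (E K))) ?_ hcl hv
    have : Submodule.span K (Set.range (xs K)) ≤ (LinearMap.snd K (L K ℕ) (ℚ →ᵇ K)).ker := by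
      rw [Submodule.span_le]; rintro _ ⟨n, rfl⟩; simp [xs]
    exact fun v hv => this hv
  have hr : ∀ n, restr K (xs K) (fs K) n = (apL K n).comp P := by
    intro n; ext v
    show fs K n v.1 = v.1.1.ap n
    rw [fs_apply, hz v.1 v.2]; simp
  have hconv : SeriesTo K a (restr K (xs K) (fs K)) ((lift K a 1 ha1).comp P) := by
    unfold SeriesTo
    rw [tendsto_iff_norm_sub_tendsto_zero]
    refine squeeze_zero (fun _ => ContinuousLinearMap.opNorm_nonneg _) (fun N => ?_)
      tendsto_one_div_add_atTop_nhds_zero_nat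
    have hb : ∀ n, ‖(if n < N then 0 else - a n : K)‖ ≤ 1 / ((N : ℝ) + 1) := by
      intro n; split_ifs with hn
      · simp; positivity
      · rw [norm_neg]; exact ha n N (not_lt.1 hn)
    have e1 : ∑ i ∈ Finset.range N, a i • apL K i - lift K a 1 ha1 = lift K _ _ hb := by
      refine clm_ext fun m => ?_
      rw [_root_.sub_apply, _root_.sum_apply, lift_dl, lift_dl]
      simp only [_root_.smul_apply, apL_apply, dl_ap, smul_eq_mul, mul_ite, mul_one, mul_zero,
        Finset.sum_ite_eq', Finset.mem_range]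
      split_ifs <;> simp
    refine ContinuousLinearMap.opNorm_le_bound _ (by positivity) fun v => ?_
    have e2 : (∑ i ∈ Finset.range N, a i • restr K (xs K) (fs K) i - (lift K a 1 ha1).comp P) v
        = (∑ i ∈ Finset.range N, a i • apL K i - lift K a 1 ha1) (P v) := by
      simp only [hr, _root_.sub_apply, _root_.sum_apply, _root_.smul_apply,
        ContinuousLinearMap.comp_apply]
    rw [e2, e1]
    exact (lift_le _ _ _ _).trans (mul_le_mul_of_nonneg_left (hP v) (by positivity))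
  obtain ⟨g, hg⟩ := (h a).2 ⟨_, hconv⟩
  have h1 := ((ContinuousLinearMap.apply K K ((0, 1) : E K)).continuous.tendsto g).comp hg
  have h2 := h1.norm
  refine not_tendsto_nhds_of_tendsto_atTop Real.tendsto_sum_range_one_div_nat_succ_atTop _
    (h2.congr fun N => ?_)
  simp only [Function.comp, ContinuousLinearMap.apply_apply, _root_.sum_apply, _root_.smul_apply,
    fs_apply]
  have : ∑ i ∈ Finset.range N, a i • ((0 : L K ℕ).ap i + (1 : ℚ →ᵇ K) (tq i))
      = ((∑ i ∈ Finset.range N, 1 / ((i : ℝ) + 1) : ℝ) : K) := by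
    rw [RCLike.ofReal_sum]
    refine Finset.sum_congr rfl fun i _ => ?_
    simp [a]
  rw [this, RCLike.norm_ofReal, abs_of_nonneg (Finset.sum_nonneg fun _ _ => by positivity)]

end Pool.Agent.H87.Bior
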