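import Mathlib

namespace Pool.Agent.H87.Bior

open Filter Topology

variable (K : Type) [RCLike K]

section
variable {X Y : Type} [NormedAddCommGroup X] [NormedSpace K X] [NormedAddCommGroup Y]
  [NormedSpace K Y]

/-- the closed linear span `[u_n]` -/
def cspan (u : ℕ → X) : Submodule K X := (Submodule.span K (Set.range u)).topologicalClosure

/-- the series `∑ a_n u_n` converges to `y` -/
def SeriesTo (a : ℕ → K) (u : ℕ → X) (y : X) : Prop :=
  Tendsto (fun N => ∑ i ∈ Finset.range N, a i • u i) atTop (𝓝 y)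

/-- `u` is a Schauder basis of its closed linear span -/
def IsBasic (u : ℕ → X) : Prop := ∀ y ∈ cspan K u, ∃! a : ℕ → K, SeriesTo K a u y

/-- `(u_n) ∼ (v_n)` -/
def Equivalent (u : ℕ → X) (v : ℕ → Y) : Prop :=
  ∀ a : ℕ → K, (∃ y, SeriesTo K a u y) ↔ (∃ z, SeriesTo K a v z)

/-- the pre-annihilator of a set of functionals -/
def preAnn (A : Set (StrongDual K X)) : Set X := {x | ∀ f ∈ A, f x = 0}

/-- the restrictions `φ_n = f_n|[x_n]` -/
noncomputable def restr (x : ℕ → X) (f : ℕ → StrongDual K X) (n : ℕ) :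
    StrongDual K (cspan K x) := (f n).comp (cspan K x).subtypeL
end

end Pool.Agent.H87.Bior
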