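import Mathlib

namespace Pool.Agent.H87.NoGat

open Filter Topology Set Classical

abbrev Om : Type := (Cardinal.aleph 1).ord.ToType

lemma cIic (a : Om) : (Iic a).Countable := by
  rw [← Iio_insert]
  exact ((Cardinal.countable_iff_lt_aleph_one _).2 (Cardinal.mk_Iio_toType_ord_lt a)).insert a

lemma bdd (f : ℕ → Om) : ∃ b, ∀ k, f k < b := by
  by_contra! h
  have : (univ : Set Om).Countable := (countable_iUnion fun k => cIic (f k)).mono fun b _ =>
    mem_iUnion.2 (h b)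
  rw [Cardinal.countable_iff_lt_aleph_one, Cardinal.mk_univ, Cardinal.mk_ord_toType] at this
  exact this.false

instance : Nonempty Om := by simp [(Ordinal.omega_pos 1).ne']

lemma coh : ∃ e : Om → Om → ℕ, ∀ a, e a a = 0 ∧ (∀ n, {x | x ≤ a ∧ e a x ≤ n}.Finite) ∧
    ∀ b ≤ a, {x | x ≤ b ∧ e a x ≠ e b x}.Finite := by
  choose ix hix using fun a => countable_iff_exists_injOn.1 (cIic a)
  have h1 : ∀ a x, x < a → ∃ b, x ≤ b ∧ b < a ∧ ∀ b', x ≤ b' → b' < a → ix a b ≤ ix a b' :=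
    fun a x h => by
      obtain ⟨b, h1, h2⟩ := (InvImage.wf (ix a) wellFounded_lt).has_min {b | x ≤ b ∧ b < a}
        ⟨x, le_rfl, h⟩
      exact ⟨b, h1.1, h1.2, fun b' h3 h4 => not_lt.1 (h2 b' ⟨h3, h4⟩)⟩
  choose β β1 β2 β3 using h1
  let e : Om → Om → ℕ := wellFounded_lt.fix fun a r x =>
    if h : x < a then max (ix a (β a x h)) (r _ (β2 a x h) x) else 0
  have he : ∀ a x, e a x = if h : x < a then max (ix a (β a x h)) (e (β a x h) x) else 0 :=
    fun a x => by simp only [e]; rw [WellFounded.fix_eq]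
  refine ⟨e, fun a => ?_⟩
  induction a using WellFoundedLT.induction with | ind a ih => ?_
  refine ⟨by simp [he a a], fun n => ?_, ?_⟩
  all_goals have h2 : ∀ n, {b | b < a ∧ ix a b ≤ n}.Finite := fun n =>
    .of_injOn (f := ix a) (t := Iic n) (fun b h => h.2) ((hix a).mono fun b h => h.1.le) (finite_Iic n)
  · refine (((h2 n).biUnion fun b hb => (ih b hb.1).2.1 n).insert a).subset fun x hx => ?_
    refine (hx.1.eq_or_lt).imp id fun h => ?_
    have := hx.2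
    rw [he, dif_pos h, max_le_iff] at this
    exact mem_biUnion (x := β a x h) ⟨β2 a x h, this.1⟩ ⟨β1 a x h, this.2⟩
  · intro b hb
    rcases hb.eq_or_lt with rfl | hb
    · simp
    refine ((h2 (ix a b)).biUnion (t := fun c => {x | x ≤ c ∧ e c x ≤ ix a b} ∪
      ({x | x ≤ c ∧ e (max b c) x ≠ e c x} ∪ {x | x ≤ b ∧ e (max b c) x ≠ e b x})) fun c hc =>
      ((ih c hc.1).2.1 _).union (((ih _ (max_lt hb hc.1)).2.2 c (le_max_right _ _)).union
        ((ih _ (max_lt hb hc.1)).2.2 b (le_max_left _ _)))).subset fun x hx => ?_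
    have h := hx.1.trans_lt hb
    have h3 := β3 a x h b hx.1 hb
    refine mem_biUnion (x := β a x h) ⟨β2 a x h, h3⟩ ?_
    have h4 := hx.2
    rw [he, dif_pos h] at h4
    simp only [mem_union, mem_ofPred_eq, β1 a x h, hx.1, true_and]
    omega

noncomputable def ee : Om → Om → ℕ := coh.choose

noncomputable def F (n : ℕ) (a : Om) : Finset Om := ((coh.choose_spec a).2.1 n).toFinset

lemma mem_F {n : ℕ} {a x : Om} : x ∈ F n a ↔ x ≤ a ∧ ee a x ≤ n := Finite.mem_toFinset _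

lemma F_self (n : ℕ) (a : Om) : a ∈ F n a :=
  mem_F.2 ⟨le_rfl, (coh.choose_spec a).1.trans_le n.zero_le⟩

lemma F_ev {a b : Om} (h : b ≤ a) : ∀ᶠ n in atTop, ∀ x, x ∈ F n b ↔ x ∈ F n a ∧ x ≤ b := by
  filter_upwards [(eventually_all_finite ((coh.choose_spec a).2.2 b h)).2 fun x _ =>
    (eventually_ge_atTop (ee a x)).and (eventually_ge_atTop (ee b x))] with n hn x
  rw [mem_F, mem_F]
  by_cases hx : x ≤ b
  · by_cases e : ee a x = ee b x
    · simp [hx, hx.trans h, e]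
    · simp [hx, hx.trans h, hn x ⟨hx, e⟩]
  · simp [hx]

noncomputable def cd (S : Finset Om) (f : Om → ℕ) (c : Om) : Finset (ℕ × ℕ) :=
  (S.filter (· < c)).image fun x => ((S.filter (· < x)).card, f x)

lemma cd_congr {S S' : Finset Om} {f f' : Om → ℕ} {c : Om} (h : ∀ x < c, (x ∈ S ↔ x ∈ S') ∧ f x = f' x) :
    cd S f c = cd S' f' c := by
  have h1 : ∀ x ≤ c, S.filter (· < x) = S'.filter (· < x) := fun x hx => Finset.ext fun y => by
    simpa using fun hy : y < x => (h y (hy.trans_le hx)).1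
  rw [cd, cd, h1 c le_rfl]
  exact Finset.image_congr fun x hx => by
    have := (Finset.mem_filter.1 hx).2
    simp only [h1 x this.le, (h x this).2]

lemma cd_inj {S : Finset Om} {f f' : Om → ℕ} {c c' x : Om} (h : cd S f c = cd S f' c') (hx : x ∈ S)
    (hc : x < c) : x < c' ∧ f x = f' x := by
  obtain ⟨y, h1, h2⟩ := Finset.mem_image.1 (h.subset (Finset.mem_image_of_mem _
    (Finset.mem_filter.2 ⟨hx, hc⟩)))
  have h3 : ∀ x ∈ S, ∀ y, x < y → (S.filter (· < x)).card < (S.filter (· < y)).card :=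
    fun x hx y h => Finset.card_lt_card ⟨fun z hz => by
      simpa using ⟨(Finset.mem_filter.1 hz).1, (Finset.mem_filter.1 hz).2.trans h⟩, fun h' => by
        simpa using h' (Finset.mem_filter.2 ⟨hx, h⟩)⟩
  obtain ⟨h4, h5⟩ := Prod.mk.inj h2
  obtain rfl : y = x := le_antisymm (not_lt.1 fun h => (h3 x hx y h).ne' h4)
    (not_lt.1 fun h => (h3 y (Finset.mem_filter.1 h1).1 x h).ne h4)
  exact ⟨(Finset.mem_filter.1 h1).2, h5.symm⟩

structure T where
  h : Om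
  f : Om → ℕ

instance : Preorder T where
  le s t := s.h ≤ t.h ∧ ∀ x < s.h, s.f x = t.f x
  le_refl _ := ⟨le_rfl, fun _ _ => rfl⟩
  le_trans _ _ _ h h' := ⟨h.1.trans h'.1, fun x hx => (h.2 x hx).trans (h'.2 x (hx.trans_le h.1))⟩

abbrev D := ℕ × Finset (ℕ × ℕ)

def A (t : T) : Set D := {d | ∃ c ∈ F d.1 t.h, d.2 = cd (F d.1 t.h) t.f c}

lemma A_ev {t : T} {a : Om} (h : t.h ≤ a) : ∀ᶠ n in atTop, ∀ p,
    (n, p) ∈ A t ↔ ∃ c ∈ F n a, c ≤ t.h ∧ p = cd (F n a) t.f c := by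
  filter_upwards [F_ev h] with n hn p
  have : ∀ c ≤ t.h, cd (F n t.h) t.f c = cd (F n a) t.f c := fun c hc =>
    cd_congr fun x hx => by simp [hn, (hx.trans_le hc).le]
  exact ⟨fun ⟨c, h1, h2⟩ => ⟨c, ((hn c).1 h1).1, ((hn c).1 h1).2, h2.trans (this c ((hn c).1 h1).2)⟩,
    fun ⟨c, h1, h2, h3⟩ => ⟨c, (hn c).2 ⟨h1, h2⟩, h3.trans (this c h2).symm⟩⟩

lemma A_fin (t : T) (P : D → Prop) (h : ∀ᶠ n in atTop, ∀ p, (n, p) ∈ A t → P (n, p)) :
    {d | d ∈ A t ∧ ¬ P d}.Finite := by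
  obtain ⟨N, hN⟩ := eventually_atTop.1 h
  refine ((finite_Iio N).biUnion fun n _ => (F n t.h).finite_toSet.image fun c =>
    (n, cd (F n t.h) t.f c)).subset ?_
  rintro ⟨n, p⟩ ⟨⟨c, h1, h2⟩, h3⟩
  exact mem_biUnion (x := n) (not_le.1 fun h => h3 (hN n h p ⟨c, h1, h2⟩)) ⟨c, h1, Prod.ext rfl h2.symm⟩

lemma A_up {s t : T} (h : s ≤ t) : {d | d ∈ A s ∧ ¬ d ∈ A t}.Finite := by
  refine A_fin s _ ?_
  filter_upwards [A_ev h.1, A_ev (t := t) le_rfl] with n h1 h2 p hp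
  obtain ⟨c, h3, h4, h5⟩ := (h1 p).1 hp
  exact (h2 p).2 ⟨c, h3, h4.trans h.1, h5.trans (cd_congr fun x hx => ⟨.rfl, h.2 x (hx.trans_le h4)⟩)⟩

lemma A_meet (s t : T) (x : Om) (hx : x ≤ s.h) (h : s.f x ≠ t.f x) :
    {d | d ∈ A s ∧ ¬ (d ∈ A t → d ∈ A ⟨x, s.f⟩)}.Finite := by
  refine A_fin s _ ?_
  filter_upwards [A_ev (le_max_left s.h t.h), A_ev (le_max_right s.h t.h),
    A_ev (t := ⟨x, s.f⟩) (hx.trans (le_max_left s.h t.h)), F_ev (hx.trans (le_max_left s.h t.h))]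
    with n h1 h2 h3 h4 p hp hp'
  obtain ⟨c, a1, -, a3⟩ := (h1 p).1 hp
  obtain ⟨c', -, -, a4⟩ := (h2 p).1 hp'
  exact (h3 p).2 ⟨c, a1, not_lt.1 fun hc => h (cd_inj (a3.symm.trans a4)
    ((h4 x).1 (F_self n x)).1 hc).2, a3⟩

lemma A_top {s u : T} (h : s.h < u.h) (h' : s ≤ u) :
    ∀ᶠ n in atTop, (n, cd (F n u.h) u.f u.h) ∉ A s := by
  filter_upwards [A_ev h'.1, F_ev h.le] with n h1 h2 hp
  obtain ⟨c, -, a2, a3⟩ := (h1 _).1 hp
  exact (cd_inj a3 ((h2 _).1 (F_self n s.h)).1 h).1.not_ge a2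

end Pool.Agent.H87.NoGat
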