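import Mathlib
import Pool.Agent.H87.NoGat2

namespace Pool.Agent.H87.Bourg

open Filter Topology Set Classical Metric
open Pool.Agent.H87.NoGat (Om bdd)

structure T : Type where
  a : Om
  x : Om → ℕ

instance : TopologicalSpace T := ⊥
instance : DiscreteTopology T := ⟨rfl⟩

def R (s t : T) : Prop := s.a ≤ t.a ∧ ∀ c < s.a, s.x c = t.x c

lemma R.rf (s : T) : R s s := ⟨le_rfl, fun _ _ => rfl⟩

lemma R.tr {s t u : T} (h : R s t) (k : R t u) : R s u :=
  ⟨h.1.trans k.1, fun c hc => (h.2 c hc).trans (k.2 c (hc.trans_le h.1))⟩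

noncomputable def nx (a : Om) : Om := (bdd fun _ => a).choose

lemma nx_lt (a : Om) : a < nx a := (bdd fun _ => a).choose_spec 0

noncomputable def sc (s : T) (i : ℕ) : T := ⟨nx s.a, Function.update s.x s.a i⟩

lemma R_sc (s : T) (i : ℕ) : R s (sc s i) :=
  ⟨(nx_lt _).le, fun c hc => by simp [sc, Function.update_of_ne hc.ne]⟩

lemma dis {s v u w : T} {i j : ℕ} (h1 : R (sc s i) u) (h2 : R (sc s j) w) (h3 : R v u)
    (h4 : R v w) (h5 : ¬ R v s) : i = j := by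
  rcases le_or_gt v.a s.a with h | h
  · exact absurd ⟨h, fun c hc => (h3.2 c hc).trans
      (((R_sc s i).tr h1).2 c (hc.trans_le h)).symm⟩ h5
  · have a1 := h1.2 s.a (nx_lt _)
    have a2 := h2.2 s.a (nx_lt _)
    simp only [sc, Function.update_self] at a1 a2
    rw [a1, a2, ← h3.2 _ h, ← h4.2 _ h]

lemma ub (t : ℕ → T) (h : ∀ n, R (t n) (t (n + 1))) : ∃ u, ∀ n, R (t n) u := by
  have h1 : ∀ m n, m ≤ n → R (t m) (t n) := fun m n hmn => by
    induction hmn with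
    | refl => exact R.rf _
    | step _ ih => exact ih.tr (h _)
  obtain ⟨b, hb⟩ := bdd fun n => (t n).a
  refine ⟨⟨b, fun c => if h : ∃ n, c < (t n).a then (t (Nat.find h)).x c else 0⟩,
    fun n => ⟨(hb n).le, fun c hc => ?_⟩⟩
  have h2 : ∃ n, c < (t n).a := ⟨n, hc⟩
  simp only [dif_pos h2]
  exact ((h1 _ _ (Nat.find_min' h2 hc)).2 c (Nat.find_spec h2)).symm

abbrev X : Type := BoundedContinuousFunction T ℝ

noncomputable def e (t : T) : X :=
  BoundedContinuousFunction.ofNormedAddCommGroupDiscrete (fun s => if R s t then 1 else 0) 1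
    fun s => by split_ifs <;> simp

lemma e_ap (t s : T) : e t s = if R s t then 1 else 0 := rfl

lemma e_norm (t : T) : ‖e t‖ ≤ 1 :=
  (BoundedContinuousFunction.norm_le zero_le_one).2 fun s => by
    rw [e_ap]; split_ifs <;> simp

lemma small (f : X →L[ℝ] ℝ) {ε : ℝ} (hε : 0 < ε) (s : T) (j : ℕ) :
    ∃ i, j < i ∧ ∀ u, R (sc s i) u → |f (e u) - f (e s)| ≤ ε := by
  by_contra! H
  have : Nonempty T := ⟨s⟩
  choose! u h1 h2 using H
  obtain ⟨n, hn⟩ := exists_nat_gt (‖f‖ / ε)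
  set w : X := ∑ i ∈ Finset.Ioc j (j + n),
    (SignType.sign (f (e (u i)) - f (e s)) : ℝ) • (e (u i) - e s) with hw
  have h3 : ‖w‖ ≤ 1 := by
    refine (BoundedContinuousFunction.norm_le zero_le_one).2 fun v => ?_
    rw [hw, BoundedContinuousFunction.coe_sum, Finset.sum_apply]
    have h4 : ∀ i, ‖((SignType.sign (f (e (u i)) - f (e s)) : ℝ) • (e (u i) - e s)) v‖ ≤ 1 := by
      intro i
      simp only [BoundedContinuousFunction.coe_smul, BoundedContinuousFunction.coe_sub,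
        Pi.sub_apply, e_ap, smul_eq_mul, norm_mul]
      refine mul_le_one₀ ?_ (norm_nonneg _) ?_
      · cases SignType.sign (f (e (u i)) - f (e s)) <;> simp
      · split_ifs <;> simp
    have h5 : ∀ i ∈ Finset.Ioc j (j + n), ¬ (R v (u i) ∧ ¬ R v s) →
        ((SignType.sign (f (e (u i)) - f (e s)) : ℝ) • (e (u i) - e s)) v = 0 := by
      intro i hi h
      have h6 := (R_sc s i).tr (h1 i (Finset.mem_Ioc.1 hi).1)
      simp only [BoundedContinuousFunction.coe_smul, BoundedContinuousFunction.coe_sub,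
        Pi.sub_apply, e_ap, smul_eq_mul]
      by_cases h7 : R v s
      · simp [h7, h7.tr h6]
      · simp [h7, show ¬ R v (u i) from fun k => h ⟨k, h7⟩]
    by_cases h : ∃ i ∈ Finset.Ioc j (j + n), R v (u i) ∧ ¬ R v s
    · obtain ⟨i, hi, h6⟩ := h
      rw [Finset.sum_eq_single_of_mem i hi fun k hk hki => h5 k hk fun h7 => hki
        (dis (h1 k (Finset.mem_Ioc.1 hk).1) (h1 i (Finset.mem_Ioc.1 hi).1) h7.1 h6.1 h6.2)]
      exact h4 i
    · rw [Finset.sum_eq_zero fun k hk => h5 k hk fun h7 => h ⟨k, hk, h7⟩]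
      simp
  have h4 : n * ε ≤ f w := by
    rw [hw, map_sum]
    refine le_trans (by simp) (Finset.card_nsmul_le_sum _ _ ε fun i hi => ?_)
    rw [map_smul, map_sub f, smul_eq_mul, sign_mul_self]
    exact (h2 i (Finset.mem_Ioc.1 hi).1).le
  have h5 : f w ≤ ‖f‖ := (le_abs_self _).trans
    ((f.le_opNorm w).trans (mul_le_of_le_one_right (norm_nonneg _) h3))
  rw [div_lt_iff₀ hε] at hn
  linarith

def K : Set X := closure (convexHull ℝ (range e))

lemma eK (t : T) : e t ∈ K := subset_closure (subset_convexHull _ _ ⟨t, rfl⟩)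

lemma K_sub {C : Set X} (h1 : IsClosed C) (h2 : Convex ℝ C) (h3 : ∀ t, e t ∈ C) : K ⊆ C :=
  closure_minimal (convexHull_min (range_subset_iff.2 h3) h2) h1

lemma nodent (x : X) : K ⊆ closure (convexHull ℝ (K \ ball x (1 / 2))) := by
  refine K_sub isClosed_closure (convex_convexHull _ _).closure fun s => ?_
  by_contra H
  obtain ⟨f, c, h1, h2⟩ := geometric_hahn_banach_point_closed (convex_convexHull ℝ _).closure
    isClosed_closure H
  have h3 : ∀ j, ∃ i, j < i ∧ e (sc s i) ∈ ball x (1 / 2) := fun j => by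
    obtain ⟨i, h3, h4⟩ := small f (sub_pos.2 h1) s j
    refine ⟨i, h3, by_contra fun h5 => ?_⟩
    have := h2 _ (subset_closure (subset_convexHull _ _ ⟨eK (sc s i), h5⟩))
    linarith [(abs_le.1 (h4 _ (R.rf _))).2]
  obtain ⟨i, -, hi⟩ := h3 0
  obtain ⟨j, hij, hj⟩ := h3 i
  have h4 := (e (sc s i)).dist_coe_le_dist (g := e (sc s j)) (sc s i)
  have h5 : ¬ R (sc s i) (sc s j) := fun h => hij.ne
    (dis (R.rf _) (R.rf _) (R.rf _) h fun k => (nx_lt s.a).not_ge k.1)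
  rw [e_ap, e_ap, if_pos (R.rf _), if_neg h5] at h4
  have h6 := dist_triangle_right (e (sc s i)) (e (sc s j)) x
  rw [mem_ball] at hi hj
  simp only [dist_zero_right, norm_one] at h4
  linarith

def Q (g : X →L[ℝ] ℝ) (r : ℝ) (t : T) : Prop :=
  0 < r ∧ ∀ h ∈ closedBall g r, ∀ u, ¬ R t u → h (e u) ≤ h (e t)

lemma step {g : X →L[ℝ] ℝ} {r : ℝ} {t : T} (hq : Q g r t) {D : Set (X →L[ℝ] ℝ)}
    (h1 : IsOpen D) (h2 : Dense D) {δ : ℝ} (hδ : 0 < δ) :
    ∃ g' r' t', Q g' r' t' ∧ r' ≤ δ ∧ R t t' ∧ closedBall g' r' ⊆ closedBall g r ∩ D ∧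
      ∀ h ∈ closedBall g' r', ∀ u, R t' u → |h (e u) - h (e t')| ≤ δ := by
  obtain ⟨ν, hν⟩ := h2.inter_open_nonempty (ball g r) isOpen_ball ⟨g, mem_ball_self hq.1⟩
  obtain ⟨ρ0, h3, h4⟩ := nhds_basis_closedBall.mem_iff.1 ((isOpen_ball.inter h1).mem_nhds hν)
  obtain ⟨ρ, hρ, h5, h6⟩ : ∃ ρ, 0 < ρ ∧ ρ ≤ ρ0 ∧ ρ ≤ δ :=
    ⟨min ρ0 δ, lt_min h3 hδ, min_le_left _ _, min_le_right _ _⟩
  have hb : BddAbove (range fun u => ν (e u)) := ⟨‖ν‖, by
    rintro _ ⟨u, rfl⟩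
    exact (le_abs_self _).trans
      ((ν.le_opNorm _).trans (mul_le_of_le_one_right (norm_nonneg _) (e_norm u)))⟩
  have : Nonempty T := ⟨t⟩
  obtain ⟨u0, hu0⟩ := exists_lt_of_lt_ciSup
    (show (⨆ u, ν (e u)) - ρ / 8 < ⨆ u, ν (e u) by linarith)
  obtain ⟨s, hs1, hs2⟩ : ∃ s, R t s ∧ ν (e u0) ≤ ν (e s) := by
    by_cases h : R t u0
    · exact ⟨u0, h, le_rfl⟩
    · exact ⟨t, R.rf _, hq.2 ν (ball_subset_closedBall hν.1) u0 h⟩
  obtain ⟨i, -, hi⟩ := small ν (show 0 < ρ / 8 by linarith) s 0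
  set d : X →L[ℝ] ℝ := BoundedContinuousFunction.evalCLM ℝ (sc s i) with hd
  have hd1 : ‖d‖ ≤ 1 := d.opNorm_le_bound zero_le_one fun y => by
    rw [one_mul]; exact y.norm_coe_le_norm _
  have hd2 : ∀ u, d (e u) = if R (sc s i) u then 1 else 0 := fun u => rfl
  have h7 : ∀ h ∈ closedBall (ν + (ρ / 2) • d) (ρ / 8), ∀ u,
      |h (e u) - (ν (e u) + ρ / 2 * if R (sc s i) u then 1 else 0)| ≤ ρ / 8 := by
    intro h hh u
    replace hh := (mem_closedBall_iff_norm (E := X →L[ℝ] ℝ)).1 hh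
    have := ((h - (ν + (ρ / 2) • d)).le_opNorm (e u)).trans
      ((mul_le_of_le_one_right (norm_nonneg _) (e_norm u)).trans hh)
    rw [← hd2]
    simpa using this
  have h8 := abs_le.1 (hi _ (R.rf _))
  refine ⟨ν + (ρ / 2) • d, ρ / 8, sc s i, ⟨by linarith, fun h hh u hu => ?_⟩, by linarith,
    hs1.tr (R_sc _ _), fun h hh => ?_, fun h hh u hu => ?_⟩
  · have a1 := abs_le.1 (h7 h hh u)
    have a2 := abs_le.1 (h7 h hh (sc s i))
    rw [if_neg hu] at a1
    rw [if_pos (R.rf _)] at a2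
    have a3 := le_ciSup hb u
    linarith [a1.2, a2.1]
  · have : h ∈ closedBall ν ρ0 := by
      replace hh := (mem_closedBall_iff_norm (E := X →L[ℝ] ℝ)).1 hh
      refine (mem_closedBall_iff_norm (E := X →L[ℝ] ℝ)).2 ?_
      have a1 : h - ν = (h - (ν + (ρ / 2) • d)) + (ρ / 2) • d := by abel
      have a2 : ‖(ρ / 2) • d‖ ≤ ρ / 2 := by
        refine (ContinuousLinearMap.opNorm_smul_le _ _).trans ?_
        rw [Real.norm_of_nonneg (by linarith)]
        exact mul_le_of_le_one_right (by linarith) hd1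
      rw [a1]
      linarith [norm_add_le (h - (ν + (ρ / 2) • d)) ((ρ / 2) • d)]
    exact ⟨ball_subset_closedBall (h4 this).1, (h4 this).2⟩
  · have a1 := abs_le.1 (h7 h hh u)
    have a2 := abs_le.1 (h7 h hh (sc s i))
    rw [if_pos hu] at a1
    rw [if_pos (R.rf _)] at a2
    have a3 := abs_le.1 (hi u hu)
    rw [abs_le]
    constructor <;> linarith [a1.1, a1.2, a2.1, a2.2]

lemma main : ¬ IsMeagre {f : X →L[ℝ] ℝ | ∃ x ∈ K, ∀ y ∈ K, f y ≤ f x} := by
  intro H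
  obtain ⟨S, h1, h2, h3, h4⟩ := mem_residual_iff.1 H
  obtain ⟨D, hD⟩ := (h3.insert univ).exists_eq_range (insert_nonempty _ _)
  have hD1 : ∀ n, IsOpen (D n) ∧ Dense (D n) := fun n => by
    have : D n ∈ insert univ S := hD ▸ mem_range_self n
    rcases this with h | h
    · rw [h]; exact ⟨isOpen_univ, dense_univ⟩
    · exact ⟨h1 _ h, h2 _ h⟩
  obtain ⟨a0, -, ha0⟩ := (wellFounded_lt (α := Om)).has_min univ univ_nonempty
  have hs : ∀ (n : ℕ) (p : {p : (X →L[ℝ] ℝ) × ℝ × T // Q p.1 p.2.1 p.2.2}),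
      ∃ q : {p : (X →L[ℝ] ℝ) × ℝ × T // Q p.1 p.2.1 p.2.2}, q.1.2.1 ≤ 1 / ((n : ℝ) + 1) ∧
        R p.1.2.2 q.1.2.2 ∧ closedBall q.1.1 q.1.2.1 ⊆ closedBall p.1.1 p.1.2.1 ∩ D n ∧
        ∀ h ∈ closedBall q.1.1 q.1.2.1, ∀ u, R q.1.2.2 u →
          |h (e u) - h (e q.1.2.2)| ≤ 1 / ((n : ℝ) + 1) := fun n p => by
    obtain ⟨g', r', t', a1, a2⟩ := step p.2 (hD1 n).1 (hD1 n).2
      (Nat.one_div_pos_of_nat (n := n))
    exact ⟨⟨(g', r', t'), a1⟩, a2⟩
  choose F f1 f2 f3 f4 using hs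
  let p : ℕ → {p : (X →L[ℝ] ℝ) × ℝ × T // Q p.1 p.2.1 p.2.2} := fun n => Nat.rec
    ⟨(0, 1, ⟨a0, 0⟩), one_pos, fun _ _ u hu => absurd
      ⟨not_lt.1 (ha0 _ (mem_univ _)), fun c hc => absurd hc (ha0 _ (mem_univ _))⟩ hu⟩ F n
  have hp : ∀ n, p (n + 1) = F n (p n) := fun n => rfl
  set B : ℕ → Set (X →L[ℝ] ℝ) := fun n => closedBall (p (n + 1)).1.1 (p (n + 1)).1.2.1 with hB
  have hB1 : Antitone B := antitone_nat_of_succ_le fun n => (f3 (n + 1) _).trans inter_subset_left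
  have ht : Tendsto (fun n : ℕ => 1 / ((n : ℝ) + 1)) atTop (𝓝 0) :=
    tendsto_one_div_add_atTop_nhds_zero_nat
  obtain ⟨μ, hμ⟩ := Metric.nonempty_iInter_of_nonempty_biInter (s := B)
    (fun n => isClosed_closedBall) (fun n => isBounded_closedBall)
    (fun N => ⟨(p (N + 1)).1.1, mem_iInter₂.2 fun n hn =>
      hB1 hn (mem_closedBall_self (p (N + 1)).2.1.le)⟩)
    (squeeze_zero (fun n => diam_nonneg)
      (fun n => (diam_closedBall (p (n + 1)).2.1.le).trans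
        (mul_le_mul_of_nonneg_left (f1 n (p n)) zero_le_two))
      (by simpa using ht.const_mul 2))
  rw [mem_iInter] at hμ
  obtain ⟨t, ht1⟩ := ub (fun n => (p (n + 1)).1.2.2) fun n => f2 (n + 1) _
  refine h4 (mem_sInter.2 fun A hA => ?_) ⟨e t, eK t, K_sub (C := {y | μ y ≤ μ (e t)})
    (isClosed_le μ.continuous continuous_const) (convex_halfSpace_le μ.isLinear _) fun u => ?_⟩
  · obtain ⟨n, rfl⟩ : A ∈ range D := hD ▸ mem_insert_of_mem _ hA
    exact (f3 n _ (hμ n)).2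
  · have : Tendsto (fun n : ℕ => μ (e t) + 2 * (1 / ((n : ℝ) + 1))) atTop (𝓝 (μ (e t))) := by
      simpa using (ht.const_mul 2).const_add (μ (e t))
    refine ge_of_tendsto' this fun n => ?_
    have a1 := (abs_le.1 (f4 n _ μ (hμ n) t (ht1 n))).1
    have a0 : (0 : ℝ) < 1 / ((n : ℝ) + 1) := Nat.one_div_pos_of_nat
    by_cases h : R (p (n + 1)).1.2.2 u
    · have a2 := (abs_le.1 (f4 n _ μ (hμ n) u h)).2
      linarith
    · have a2 := (p (n + 1)).2.2 μ (hμ n) u h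
      rw [hp] at a2
      linarith

end Pool.Agent.H87.Bourg
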