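import Mathlib

namespace Pool.Agent.H87.C0I

open Filter Topology Set

abbrev c0 (I : Type) [TopologicalSpace I] := ZeroAtInftyContinuousMap I ℝ

variable {I : Type} [TopologicalSpace I]

lemma apply_le (x : c0 I) (n : I) : |x n| ≤ ‖x‖ := x.toBCF.norm_coe_le_norm n

lemma norm_le (x : c0 I) {C : ℝ} (hC : 0 ≤ C) (h : ∀ n, |x n| ≤ C) : ‖x‖ ≤ C :=
  (BoundedContinuousFunction.norm_le (f := x.toBCF) hC).mpr h

noncomputable def ev (n : I) : c0 I →L[ℝ] ℝ :=
  LinearMap.mkContinuous
    { toFun := fun x => x n, map_add' := fun _ _ => rfl, map_smul' := fun _ _ => rfl } 1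
    (fun x => by rw [one_mul]; exact apply_le x n)

@[simp] lemma ev_apply (n : I) (x : c0 I) : ev n x = x n := rfl

lemma sum_apply {ι : Type} (s : Finset ι) (x : ι → c0 I) (n : I) :
    (∑ i ∈ s, x i) n = ∑ i ∈ s, x i n := by
  rw [← ev_apply, map_sum]; rfl

variable [DiscreteTopology I]

lemma tendsto_zero (x : c0 I) : Tendsto x cofinite (𝓝 0) := by
  have := x.zero_at_infty'
  rwa [cocompact_eq_cofinite] at this

def mk (f : I → ℝ) (h : Tendsto f cofinite (𝓝 0)) : c0 I :=
  ⟨⟨f, continuous_of_discreteTopology⟩, by rwa [cocompact_eq_cofinite]⟩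

@[simp] lemma mk_apply (f : I → ℝ) (h : Tendsto f cofinite (𝓝 0)) (n : I) : mk f h n = f n := rfl

variable [DecidableEq I]

/-- unit vector -/
def e (i : I) : c0 I := mk (fun n => if n = i then 1 else 0)
  ((tendsto_cofinite_pure_iff.mpr ((Set.finite_singleton i).subset fun n hn => by
    by_contra h
    exact hn (if_neg h))).mono_right (pure_le_nhds 0))

lemma e_apply (i n : I) : e i n = if n = i then 1 else 0 := rfl

lemma sum_e_apply (s : Finset I) (c : I → ℝ) (n : I) :
    (∑ i ∈ s, c i • e i) n = if n ∈ s then c n else 0 := by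
  rw [sum_apply]
  simp [e_apply]

lemma hasSum_e (x : c0 I) : HasSum (fun i => x i • e i) x := by
  rw [HasSum, SummationFilter.unconditional_filter, Metric.tendsto_nhds]
  intro ε hε
  have h1 : {i | ¬ |x i| < ε / 2}.Finite := by
    have := (tendsto_zero x).abs
    rw [abs_zero] at this
    exact this.eventually (gt_mem_nhds (half_pos hε))
  filter_upwards [eventually_ge_atTop h1.toFinset] with s hs
  rw [dist_eq_norm]
  refine lt_of_le_of_lt (norm_le _ (half_pos hε).le fun n => ?_) (half_lt_self hε)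
  rw [ZeroAtInftyContinuousMap.sub_apply, sum_e_apply]
  split_ifs with h
  · simp; positivity
  · rw [zero_sub, abs_neg]
    by_contra hc
    exact h (hs (h1.mem_toFinset.2 fun h' => hc h'.le))

lemma hasSum_dual (f : c0 I →L[ℝ] ℝ) (x : c0 I) : HasSum (fun i => x i * f (e i)) (f x) := by
  simpa using (hasSum_e x).mapL f

lemma sum_abs_le (f : c0 I →L[ℝ] ℝ) (s : Finset I) : ∑ i ∈ s, |f (e i)| ≤ ‖f‖ := by
  have h := f.le_opNorm (∑ i ∈ s, (SignType.sign (f (e i)) : ℝ) • e i)
  rw [map_sum] at h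
  simp only [map_smul, smul_eq_mul, sign_mul_self] at h
  refine (le_abs_self _).trans (h.trans (mul_le_of_le_one_right (norm_nonneg _) ?_))
  refine norm_le _ zero_le_one fun n => ?_
  rw [sum_e_apply]
  split_ifs
  · rcases lt_trichotomy (f (e n)) 0 with h | h | h <;> simp [h]
  · simp

lemma summable_abs (f : c0 I →L[ℝ] ℝ) : Summable fun i => |f (e i)| :=
  summable_of_sum_le (fun _ => abs_nonneg _) (sum_abs_le f)

end Pool.Agent.H87.C0I
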