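import Mathlib

namespace Pool.Agent.H87.CKE

open Filter Topology

theorem smooth_of_unique {X : Type} [NormedAddCommGroup X] [NormedSpace ℝ X] (x : X) (hx : x ≠ 0)
    (hu : ∀ f g : StrongDual ℝ X, ‖f‖ ≤ 1 → ‖g‖ ≤ 1 → f x = ‖x‖ → g x = ‖x‖ → f = g) :
    ∃ f : X →L[ℝ] ℝ, ∀ v : X, HasLineDerivAt ℝ (fun y : X => ‖y‖) (f v) x v := by
  obtain ⟨f₀, hf₀, hf₀x⟩ := exists_dual_vector ℝ x (norm_ne_zero_iff.2 hx)
  simp only [RCLike.ofReal_real_eq_id, id] at hf₀x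
  refine ⟨f₀, fun v => ?_⟩
  have key : ∀ ε > 0, ∃ η > 0, ∀ f : StrongDual ℝ X, ‖f‖ ≤ 1 → ‖x‖ - η ≤ f x →
      |f v - f₀ v| < ε := by
    intro ε hε
    by_contra hcon
    push Not at hcon
    let C : ℕ → Set (WeakDual ℝ X) := fun n =>
      {f | ‖x‖ - 1 / ((n : ℝ) + 1) ≤ f x ∧ ε ≤ |f v - f₀ v|} ∩
        WeakDual.toStrongDual ⁻¹' Metric.closedBall 0 1
    have hK := WeakDual.isCompact_closedBall (𝕜 := ℝ) (E := X) 0 1
    have hcl : ∀ n : ℕ, IsClosed {f : WeakDual ℝ X | ‖x‖ - 1 / ((n : ℝ) + 1) ≤ f x ∧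
        ε ≤ |f v - f₀ v|} := fun n =>
      (isClosed_le continuous_const (WeakDual.eval_continuous x)).inter
        (isClosed_le continuous_const ((WeakDual.eval_continuous v).sub continuous_const).abs)
    obtain ⟨f, hf⟩ := IsCompact.nonempty_iInter_of_sequence_nonempty_isCompact_isClosed C
      (fun n f hf => ⟨⟨le_trans (by
          have : 1 / (((n + 1 : ℕ) : ℝ) + 1) ≤ 1 / ((n : ℝ) + 1) := by
            apply one_div_le_one_div_of_le (by positivity); push_cast; linarith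
          linarith) hf.1.1, hf.1.2⟩, hf.2⟩)
      (fun n => by
        obtain ⟨f, h1, h2, h3⟩ := hcon (1 / ((n : ℝ) + 1)) (by positivity)
        exact ⟨StrongDual.toWeakDual f, ⟨h2, h3⟩, by simpa using h1⟩)
      (hK.inter_left (hcl 0)) (fun n => (hcl n).inter (WeakDual.isClosed_closedBall 0 1))
    rw [Set.mem_iInter] at hf
    have h1 : ‖WeakDual.toStrongDual f‖ ≤ 1 := by simpa using (hf 0).2
    have h2 : ‖x‖ ≤ f x := by
      refine le_of_forall_pos_le_add fun δ hδ => ?_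
      obtain ⟨n, hn⟩ := exists_nat_one_div_lt hδ
      linarith [(hf n).1.1]
    have h3 : f x ≤ ‖x‖ := by
      have := (WeakDual.toStrongDual f).le_opNorm x
      have h4 := mul_le_mul_of_nonneg_right h1 (norm_nonneg x)
      exact (le_abs_self _).trans (this.trans (by linarith))
    have h4 := hu _ f₀ h1 hf₀.le (le_antisymm h3 h2) hf₀x
    have h5 := (hf 0).1.2
    have h6 : f v = f₀ v := by rw [← h4]; rfl
    rw [h6, sub_self, abs_zero] at h5
    linarith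
  rw [HasLineDerivAt, hasDerivAt_iff_isLittleO_nhds_zero, Asymptotics.isLittleO_iff]
  intro ε hε
  obtain ⟨η, hη, h⟩ := key ε hε
  have hc : Continuous fun t : ℝ => 2 * ‖t • v‖ := by fun_prop
  have h0 : ∀ᶠ t : ℝ in 𝓝 0, 2 * ‖t • v‖ < η :=
    hc.continuousAt.eventually (gt_mem_nhds (by simpa using hη))
  filter_upwards [h0] with t ht
  simp only [zero_add, zero_smul, add_zero, smul_eq_mul, Real.norm_eq_abs]
  obtain ⟨g, hg, hgx⟩ := exists_dual_vector'' ℝ (x + t • v)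
  simp only [RCLike.ofReal_real_eq_id, id] at hgx
  have hle : ∀ f : StrongDual ℝ X, ‖f‖ ≤ 1 → ∀ y, f y ≤ ‖y‖ := fun f hf y =>
    (le_abs_self _).trans ((f.le_opNorm y).trans (by nlinarith [norm_nonneg y]))
  have a1 := hle g hg x
  have a2 := hle g hg (t • v)
  have a3 := hle f₀ hf₀.le (x + t • v)
  have a4 : ‖x‖ ≤ ‖x + t • v‖ + ‖t • v‖ := by
    calc ‖x‖ = ‖(x + t • v) - t • v‖ := by simp
      _ ≤ _ := norm_sub_le _ _
  rw [map_add] at hgx a3
  have a5 := h g hg (by linarith)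
  rw [map_smul, smul_eq_mul] at hgx a3
  have a6 : t * (g v - f₀ v) ≤ ε * |t| := by
    refine (le_abs_self _).trans ?_
    rw [abs_mul, mul_comm]
    exact mul_le_mul_of_nonneg_right a5.le (abs_nonneg _)
  rw [abs_le]
  have : 0 ≤ ε * |t| := by positivity
  constructor <;> nlinarith

section
variable {Z : Type} [NormedAddCommGroup Z] [NormedSpace ℝ Z]

def Du (Z : Type) [NormedAddCommGroup Z] [NormedSpace ℝ Z] : Type := StrongDual ℝ Z

noncomputable instance : NormedAddCommGroup (Du Z) :=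
  inferInstanceAs (NormedAddCommGroup (StrongDual ℝ Z))
noncomputable instance : NormedSpace ℝ (Du Z) :=
  inferInstanceAs (NormedSpace ℝ (StrongDual ℝ Z))
instance : CompleteSpace (Du Z) := inferInstanceAs (CompleteSpace (StrongDual ℝ Z))

def Du.ap (x : Du Z) : Z →L[ℝ] ℝ := x
def Du.mk (x : Z →L[ℝ] ℝ) : Du Z := x

@[simp] lemma Du.mk_ap (x : Z →L[ℝ] ℝ) : (Du.mk x).ap = x := rfl
@[simp] lemma Du.add_ap (x y : Du Z) (z : Z) : (x + y).ap z = x.ap z + y.ap z := rfl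
@[simp] lemma Du.sub_ap (x y : Du Z) (z : Z) : (x - y).ap z = x.ap z - y.ap z := rfl
@[simp] lemma Du.smul_ap (t : ℝ) (y : Du Z) (z : Z) : (t • y).ap z = t * y.ap z := rfl
lemma Du.norm_ap (x : Du Z) : ‖x.ap‖ = ‖x‖ := rfl
lemma Du.le (x : Du Z) (z : Z) : ‖x.ap z‖ ≤ ‖x‖ * ‖z‖ := x.ap.le_opNorm z
lemma Du.ext' {x y : Du Z} (h : ∀ z, x.ap z = y.ap z) : x = y := ContinuousLinearMap.ext h

noncomputable def Jz : Z →L[ℝ] (Du Z →L[ℝ] ℝ) := NormedSpace.inclusionInDoubleDual ℝ Z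

@[simp] lemma Jz_ap (z : Z) (x : Du Z) : Jz z x = x.ap z := rfl
lemma norm_Jz (z : Z) : ‖(Jz z : Du Z →L[ℝ] ℝ)‖ = ‖z‖ :=
  (NormedSpace.inclusionInDoubleDualLi ℝ (E := Z)).norm_map z

def Refl (Z : Type) [NormedAddCommGroup Z] [NormedSpace ℝ Z] : Prop :=
  ∀ F : Du Z →L[ℝ] ℝ, ∃ z : Z, ∀ x, F x = x.ap z

lemma Refl.norm (h : Refl Z) (F : Du Z →L[ℝ] ℝ) :
    ∃ z : Z, ‖z‖ = ‖F‖ ∧ ∀ x, F x = x.ap z := by
  obtain ⟨z, hz⟩ := h F
  refine ⟨z, ?_, hz⟩
  have : F = Jz z := ContinuousLinearMap.ext fun x => hz x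
  rw [this, norm_Jz]

lemma Refl.dual (h : Refl Z) :
    Function.Surjective (NormedSpace.inclusionInDoubleDual ℝ (Du Z)) := by
  intro Φ
  refine ⟨Du.mk (ContinuousLinearMap.comp Φ Jz), ContinuousLinearMap.ext fun F => ?_⟩
  obtain ⟨z, hz⟩ := h F
  have : F = Jz z := ContinuousLinearMap.ext fun x => hz x
  show F _ = Φ F
  rw [hz]
  conv_rhs => rw [this]
  rfl

lemma Refl.smooth (h : Refl Z)
    (hs : ∀ z w : Z, ‖z‖ ≤ 1 → ‖w‖ ≤ 1 → 2 ≤ ‖z + w‖ → z = w) (x : Du Z) (hx : x ≠ 0) :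
    ∃ f : Du Z →L[ℝ] ℝ, ∀ v, HasLineDerivAt ℝ (fun y => ‖y‖) (f v) x v := by
  refine smooth_of_unique x hx fun f g hf hg hfx hgx => ?_
  obtain ⟨z, hz, hz'⟩ := h.norm f
  obtain ⟨w, hw, hw'⟩ := h.norm g
  have hpos : 0 < ‖x‖ := norm_pos_iff.2 hx
  have : z = w := by
    refine hs z w (hz ▸ hf) (hw ▸ hg) ?_
    have h1 := (le_abs_self _).trans (x.le (z + w))
    rw [map_add, ← hz', ← hw', hfx, hgx] at h1
    nlinarith
  ext y; rw [hz', hw', this]

noncomputable def Eu (u : Z) : Subspace ℝ (Du Z) := (Jz u : Du Z →L[ℝ] ℝ).ker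

lemma mem_Eu (u : Z) (x : Du Z) : x ∈ Eu u ↔ x.ap u = 0 := Iff.rfl

lemma isClosed_Eu (u : Z) : IsClosed (Eu u : Set (Du Z)) := (Jz u : Du Z →L[ℝ] ℝ).isClosed_ker

lemma ext_one (h : Refl Z) (u : Z) (π : Du Z) (hπ : π.ap u = 1) (r : ℝ) (hr : 0 ≤ r)
    (K : Type) [TopologicalSpace K] [CompactSpace K] [T2Space K]
    (hloc : ∀ z : K → Z, (∀ k, ‖z k‖ ≤ 1) →
      (∀ x : Du Z, x.ap u = 0 → Continuous fun k => x.ap (z k)) →
      ∀ k₀, ∃ t : ℝ, ∀ᶠ k in 𝓝 k₀, ‖z k + (t - π.ap (z k)) • u‖ ≤ r)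
    (T : Eu u →L[ℝ] C(K, ℝ)) (hT : ‖T‖ ≤ 1) :
    ∃ S : Du Z →L[ℝ] C(K, ℝ), (∀ e : Eu u, S e = T e) ∧ ‖S‖ ≤ r := by
  have h1 : ∀ k : K, ∃ z : Z, ‖z‖ ≤ 1 ∧ ∀ e : Eu u, e.1.ap z = T e k := by
    intro k
    obtain ⟨g, hg1, hg2⟩ := exists_extension_norm_eq (Eu u)
      ((ContinuousMap.evalCLM ℝ k).comp T)
    obtain ⟨z, hz, hz'⟩ := h.norm g
    refine ⟨z, ?_, fun e => by rw [← hz', hg1]; rfl⟩
    rw [hz, hg2]
    refine ContinuousLinearMap.opNorm_le_bound _ zero_le_one fun e => ?_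
    exact ((T e).norm_coe_le_norm k).trans ((T.le_opNorm e).trans
      (mul_le_mul_of_nonneg_right hT (norm_nonneg _)))
  choose z hz hz' using h1
  obtain ⟨g, hg⟩ := exists_continuous_forall_mem_convex_of_local_const
    (t := fun k => {t : ℝ | ‖z k + (t - π.ap (z k)) • u‖ ≤ r}) (fun k => by
      intro a ha b hb s t hs ht hst
      simp only [Set.mem_ofPred_eq] at ha hb ⊢
      have : z k + (s • a + t • b - π.ap (z k)) • u =
          s • (z k + (a - π.ap (z k)) • u) + t • (z k + (b - π.ap (z k)) • u) := by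
        have e : t = 1 - s := by linarith
        subst e
        simp only [smul_eq_mul]
        module
      rw [this]
      refine (norm_add_le _ _).trans ?_
      rw [norm_smul, norm_smul, Real.norm_of_nonneg hs, Real.norm_of_nonneg ht]
      have a1 := mul_le_mul_of_nonneg_left ha hs
      have a2 := mul_le_mul_of_nonneg_left hb ht
      have a3 : s * r + t * r = r := by rw [← add_mul, hst, one_mul]
      linarith)
    (hloc z hz fun x hx => by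
      have : (fun k => x.ap (z k)) = T ⟨x, hx⟩ := funext fun k => hz' k ⟨x, hx⟩
      rw [this]; exact (T ⟨x, hx⟩).continuous)
  let J : Du Z →L[ℝ] ℝ := Jz u
  let P : Du Z →L[ℝ] Eu u :=
    (ContinuousLinearMap.id ℝ (Du Z) - J.smulRight π).codRestrict (Eu u) fun x => by
    rw [mem_Eu]
    show x.ap u - x.ap u * π.ap u = 0
    rw [hπ]; ring
  refine ⟨T.comp P + J.smulRight g, fun e => ?_, ?_⟩
  · have h0 : J e = 0 := e.2
    have : P e = e := Subtype.ext (by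
      show e.1 - J e.1 • π = e.1
      rw [h0]; simp)
    simp [this, h0]
  · refine ContinuousLinearMap.opNorm_le_bound _ hr fun x => ?_
    refine (ContinuousMap.norm_le _ (by positivity)).2 fun k => ?_
    have : (T.comp P + J.smulRight g) x k = x.ap (z k + (g k - π.ap (z k)) • u) := by
      show T (P x) k + x.ap u * g k = _
      rw [← hz', map_add, map_smul]
      show x.ap (z k) - x.ap u * π.ap (z k) + x.ap u * g k = _
      simp only [smul_eq_mul]; ring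
    rw [this, mul_comm]
    exact (x.le _).trans (mul_le_mul_of_nonneg_left (hg k) (norm_nonneg _))

lemma ext_scale {E X Y : Type} [NormedAddCommGroup X] [NormedSpace ℝ X] [NormedAddCommGroup Y]
    [NormedSpace ℝ Y] [NormedAddCommGroup E] [NormedSpace ℝ E] (i : E → X) (r : ℝ)
    (h : ∀ T : E →L[ℝ] Y, ‖T‖ ≤ 1 → ∃ S : X →L[ℝ] Y, (∀ e : E, S (i e) = T e) ∧ ‖S‖ ≤ r)
    (T : E →L[ℝ] Y) : ∃ S : X →L[ℝ] Y, (∀ e : E, S (i e) = T e) ∧ ‖S‖ ≤ r * ‖T‖ := by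
  by_cases hT : T = 0
  · exact ⟨0, by simp [hT], by simp [hT]⟩
  have hpos : 0 < ‖T‖ := norm_pos_iff.2 hT
  obtain ⟨S, h1, h2⟩ := h (‖T‖⁻¹ • T) (by rw [norm_smul]; simp [hpos.ne'])
  refine ⟨‖T‖ • S, fun e => by simp [h1, smul_smul, hpos.ne'], ?_⟩
  rw [norm_smul, norm_norm, mul_comm]
  exact mul_le_mul_of_nonneg_right h2 hpos.le

lemma no_ext (h : Refl Z) (u : Z) (π : Du Z) (hπ : π.ap u = 1) (w : ℕ → Z)
    (hw : ∀ n, ‖w n‖ ≤ 1) (hw0 : ∀ x : Du Z, x.ap u = 0 →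
      Tendsto (fun n => x.ap (w n)) atTop (𝓝 0))
    (hmin : ∀ n (t : ℝ), ‖w n + t • u‖ ≤ 1 → t = 0)
    (hdiv : ∀ a : ℝ, ¬ Tendsto (fun n => π.ap (w n)) atTop (𝓝 a)) :
    ∃ T : Eu u →L[ℝ] C(OnePoint ℕ, ℝ),
      ¬ ∃ S : Du Z →L[ℝ] C(OnePoint ℕ, ℝ), (∀ e : Eu u, S e = T e) ∧ ‖S‖ ≤ ‖T‖ := by
  let w' : OnePoint ℕ → Z := fun k => k.elim 0 w
  have hw' : ∀ k, ‖w' k‖ ≤ 1 := fun k => by
    induction k using OnePoint.rec with
    | infty => simp [w']
    | coe n => exact hw n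
  let T₀ : Eu u →ₗ[ℝ] C(OnePoint ℕ, ℝ) :=
    { toFun := fun e => ⟨fun k => e.1.ap (w' k), (OnePoint.continuous_iff_from_nat _).2 (by
        simpa [w'] using hw0 e.1 e.2)⟩
      map_add' := fun _ _ => rfl
      map_smul' := fun _ _ => rfl }
  have hT₀ : ∀ e, ‖T₀ e‖ ≤ 1 * ‖e‖ := fun e => by
    refine (ContinuousMap.norm_le _ (by positivity)).2 fun k => ?_
    rw [mul_comm]
    exact (e.1.le _).trans (mul_le_mul_of_nonneg_left (hw' k) (norm_nonneg _))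
  let T : Eu u →L[ℝ] C(OnePoint ℕ, ℝ) := LinearMap.mkContinuous T₀ 1 hT₀
  have hT : ‖T‖ ≤ 1 := LinearMap.mkContinuous_norm_le _ zero_le_one _
  refine ⟨T, ?_⟩
  rintro ⟨S, hS, hS1⟩
  refine hdiv (S π OnePoint.infty) ?_
  have h1 := (OnePoint.continuous_iff_from_nat _).1 (S π).continuous
  refine h1.congr fun n => ?_
  obtain ⟨z, hz, hz'⟩ := h.norm ((ContinuousMap.evalCLM ℝ (n : OnePoint ℕ)).comp S)
  have hz1 : ‖z‖ ≤ 1 := by
    rw [hz]
    refine ContinuousLinearMap.opNorm_le_bound _ zero_le_one fun e => ?_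
    exact ((S e).norm_coe_le_norm n).trans ((S.le_opNorm e).trans
      (mul_le_mul_of_nonneg_right (hS1.trans hT) (norm_nonneg _)))
  have h2 : z = w n + (π.ap z - π.ap (w n)) • u := by
    refine (NormedSpace.eq_iff_forall_dual_eq ℝ).2 fun x => ?_
    have hm : Du.mk x - x u • π ∈ Eu u := by
      rw [mem_Eu]; simp [hπ]
    have h3 : (Du.mk x - x u • π).ap z = (Du.mk x - x u • π).ap (w n) := by
      rw [← hz']
      show S (⟨_, hm⟩ : Eu u) n = _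
      rw [hS]; rfl
    simp only [Du.sub_ap, Du.smul_ap, Du.mk_ap] at h3
    rw [map_add, map_smul, smul_eq_mul]; linarith
  have h3 := hmin n _ (h2 ▸ hz1)
  show ((ContinuousMap.evalCLM ℝ (n : OnePoint ℕ)).comp S) π = _
  rw [hz']; linarith

end

end Pool.Agent.H87.CKE
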