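import Mathlib
import Pool.Agent.H87.CKE1

namespace Pool.Agent.H87.CKE

open Filter Topology

noncomputable abbrev H := lp (fun _ : ℕ => ℝ) 2

noncomputable def e (j : ℕ) : H := lp.single 2 j 1

lemma norm_e (j : ℕ) : ‖e j‖ = 1 := by simp [e, lp.norm_single]

lemma e_apply (i j : ℕ) : e i j = if j = i then 1 else 0 := by
  simp [e, lp.single_apply, Pi.single_apply]

lemma inner_e (j : ℕ) (y : H) : inner ℝ (e j) y = y j := by
  simp [e, lp.inner_single_left]

lemma coord_le (y : H) (j : ℕ) : |y j| ≤ ‖y‖ := lp.norm_apply_le_norm (by simp) y j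

def c (j : ℕ) : ℝ := if Even j then 1 else 0

lemma c_le (j : ℕ) : |c j| ≤ 1 := by unfold c; split_ifs <;> simp

noncomputable def P (k : ℕ) (y : H) : H := ∑ j ∈ Finset.range k, y j • e j
noncomputable def l (k : ℕ) (y : H) : ℝ := ∑ j ∈ Finset.range k, c j * y j
noncomputable def mu (k : ℕ) : ℝ := (1 / 2) ^ k / ((k : ℝ) + 1)

lemma mu_pos (k : ℕ) : 0 < mu k := by unfold mu; positivity

lemma P_add (k : ℕ) (y y' : H) : P k (y + y') = P k y + P k y' := by
  simp [P, add_smul, Finset.sum_add_distrib]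
lemma P_smul (k : ℕ) (t : ℝ) (y : H) : P k (t • y) = t • P k y := by
  simp [P, Finset.smul_sum, smul_smul]
lemma l_add (k : ℕ) (y y' : H) : l k (y + y') = l k y + l k y' := by
  simp [l, mul_add, Finset.sum_add_distrib]
lemma l_smul (k : ℕ) (t : ℝ) (y : H) : l k (t • y) = t * l k y := by
  simp [l, Finset.mul_sum, mul_left_comm]

lemma norm_P (k : ℕ) (y : H) : ‖P k y‖ ≤ k * ‖y‖ := by
  refine (norm_sum_le _ _).trans ?_
  refine (Finset.sum_le_sum (g := fun _ => ‖y‖) fun j _ => ?_).trans (by simp)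
  rw [norm_smul, norm_e, mul_one]; exact coord_le y j

lemma abs_l (k : ℕ) (y : H) : |l k y| ≤ k * ‖y‖ := by
  refine (Finset.abs_sum_le_sum_abs _ _).trans ?_
  refine (Finset.sum_le_sum (g := fun _ => ‖y‖) fun j _ => ?_).trans (by simp)
  rw [abs_mul]
  have := mul_le_mul (c_le j) (coord_le y j) (abs_nonneg _) zero_le_one
  linarith

lemma P_tendsto (y : H) : Tendsto (fun k => P k y) atTop (𝓝 y) := by
  have := (lp.hasSum_single (by simp) y).tendsto_sum_nat
  refine this.congr fun k => Finset.sum_congr rfl fun j _ => ?_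
  rw [e, ← lp.single_smul]; simp

noncomputable def A : ℕ → H × ℝ → H × ℝ
  | 0 => fun z => (z.1, 0)
  | k + 1 => fun z => mu k • (z.1 - P k z.1, z.2 - l k z.1)

lemma A_add (k : ℕ) (z w : H × ℝ) : A k (z + w) = A k z + A k w := by
  cases k with
  | zero => simp [A]
  | succ k =>
    simp only [A, ← smul_add, Prod.fst_add, Prod.snd_add, P_add, l_add, Prod.mk_add_mk]
    congr 2 <;> abel

lemma A_smul (k : ℕ) (t : ℝ) (z : H × ℝ) : A k (t • z) = t • A k z := by
  cases k with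
  | zero => simp [A]
  | succ k =>
    simp only [A, Prod.smul_fst, Prod.smul_snd, P_smul, l_smul, smul_eq_mul]
    rw [smul_comm t]
    congr 1
    simp [smul_sub, mul_sub]

lemma norm_A0 (z : H × ℝ) : ‖A 0 z‖ = ‖z.1‖ := by simp [A]

lemma norm_A (k : ℕ) (z : H × ℝ) :
    ‖A (k + 1) z‖ = mu k * max ‖z.1 - P k z.1‖ |z.2 - l k z.1| := by
  simp only [A]
  rw [norm_smul, Real.norm_of_nonneg (mu_pos k).le, Prod.norm_def]; rfl

lemma norm_A_le (k : ℕ) (z : H × ℝ) : ‖A (k + 1) z‖ ≤ (1 / 2) ^ k * (‖z.1‖ + |z.2|) := by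
  rw [norm_A, mu, div_mul_eq_mul_div, mul_div_assoc]
  refine mul_le_mul_of_nonneg_left ?_ (by positivity)
  rw [div_le_iff₀ (by positivity)]
  have h1 := norm_P k z.1
  have h2 := abs_l k z.1
  have h3 := norm_sub_le z.1 (P k z.1)
  have h4 := abs_sub z.2 (l k z.1)
  have h5 : 0 ≤ (k : ℝ) * |z.2| := by positivity
  refine max_le ?_ ?_ <;> nlinarith [norm_nonneg z.1, abs_nonneg z.2]

lemma sq_A_le (k : ℕ) (z : H × ℝ) :
    ‖A (k + 1) z‖ ^ 2 ≤ (1 / 4) ^ k * (‖z.1‖ + |z.2|) ^ 2 := by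
  have := pow_le_pow_left₀ (norm_nonneg _) (norm_A_le k z) 2
  refine this.trans (le_of_eq ?_)
  rw [mul_pow, ← pow_mul, mul_comm k 2, pow_mul]; norm_num

lemma summable_geo (C : ℝ) : Summable fun k : ℕ => (1 / 4 : ℝ) ^ k * C :=
  (summable_geometric_of_lt_one (by norm_num) (by norm_num)).mul_right C

lemma summable_A (z : H × ℝ) : Summable fun k => ‖A k z‖ ^ 2 := by
  rw [← summable_nat_add_iff 1]
  exact Summable.of_nonneg_of_le (fun _ => sq_nonneg _) (fun k => sq_A_le k z) (summable_geo _)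

noncomputable def Phi : (H × ℝ) →ₗ[ℝ] lp (fun _ : ℕ => H × ℝ) 2 where
  toFun z := ⟨fun k => A k z, memℓp_gen (by simpa using summable_A z)⟩
  map_add' z w := lp.ext (funext fun k => A_add k z w)
  map_smul' t z := lp.ext (funext fun k => A_smul k t z)

lemma Phi_inj : Function.Injective Phi := by
  refine (injective_iff_map_eq_zero _).2 fun z hz => ?_
  have h : ∀ k, A k z = 0 := fun k => congrArg (fun f : lp (fun _ : ℕ => H × ℝ) 2 => f k) hz
  have h1 := h 1
  simpa [A, mu, P, l] using h1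

def Z : Type := H × ℝ

noncomputable instance : AddCommGroup Z := inferInstanceAs (AddCommGroup (H × ℝ))
noncomputable instance : Module ℝ Z := inferInstanceAs (Module ℝ (H × ℝ))

noncomputable def PhiZ : Z →ₗ[ℝ] lp (fun _ : ℕ => H × ℝ) 2 := Phi

noncomputable instance : NormedAddCommGroup Z := NormedAddCommGroup.induced Z _ PhiZ Phi_inj
noncomputable instance : NormedSpace ℝ Z := NormedSpace.induced ℝ Z _ PhiZ

def mk (y : H) (t : ℝ) : Z := (y, t)
def Z.v (z : Z) : H × ℝ := z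

@[simp] lemma mk_v (y : H) (t : ℝ) : (mk y t).v = (y, t) := rfl
@[simp] lemma v_add (z w : Z) : (z + w).v = z.v + w.v := rfl
@[simp] lemma v_smul (t : ℝ) (w : Z) : (t • w).v = t • w.v := rfl
lemma Z.ext' {z w : Z} (h : z.v = w.v) : z = w := h

lemma hasSum_Z (z : Z) : HasSum (fun k => ‖A k z.v‖ ^ 2) (‖z‖ ^ 2) := by
  have := lp.hasSum_norm (p := 2) (by simp) (PhiZ z)
  simp only [ENNReal.toReal_ofNat, Real.rpow_ofNat] at this
  exact this

lemma A_le (z : Z) (k : ℕ) : ‖A k z.v‖ ≤ ‖z‖ :=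
  lp.norm_apply_le_norm (p := 2) (by simp) (PhiZ z) k

lemma fst_le (z : Z) : ‖z.v.1‖ ≤ ‖z‖ := by simpa [norm_A0] using A_le z 0

lemma snd_le (z : Z) : |z.v.2| ≤ ‖z‖ := by
  have := A_le z 1
  rw [norm_A] at this
  simp [mu, P, l] at this
  exact this.2

lemma sq_le (z : Z) (K : ℕ) : ‖z‖ ^ 2 ≤ ∑ k ∈ Finset.range (K + 1), ‖A k z.v‖ ^ 2 +
    (1 / 4) ^ K * (2 * (‖z.v.1‖ + |z.v.2|) ^ 2) := by
  rw [← (hasSum_Z z).tsum_eq, ← (hasSum_Z z).summable.sum_add_tsum_nat_add (K + 1)]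
  refine add_le_add le_rfl ?_
  have h1 : ∑' k : ℕ, ‖A (k + (K + 1)) z.v‖ ^ 2 ≤
      ∑' k : ℕ, (1 / 4 : ℝ) ^ k * ((1 / 4) ^ K * (‖z.v.1‖ + |z.v.2|) ^ 2) := by
    refine Summable.tsum_le_tsum (fun k => ?_)
      ((summable_nat_add_iff (K + 1)).2 (summable_A z.v)) (summable_geo _)
    have := sq_A_le (k + K) z.v
    rwa [pow_add, mul_assoc] at this
  refine h1.trans ?_
  rw [tsum_mul_right, tsum_geometric_of_lt_one (by norm_num) (by norm_num)]
  have : (0:ℝ) ≤ (1 / 4) ^ K * (‖z.v.1‖ + |z.v.2|) ^ 2 := by positivity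
  nlinarith

lemma norm_le (z : Z) : ‖z‖ ≤ 2 * (‖z.v.1‖ + |z.v.2|) := by
  have := sq_le z 0
  simp only [zero_add, Finset.range_one, Finset.sum_singleton, norm_A0, pow_zero, one_mul] at this
  refine abs_le_of_sq_le_sq' ?_ (by positivity) |>.2
  nlinarith [norm_nonneg z.v.1, abs_nonneg z.v.2]

noncomputable def u : Z := mk 0 1

noncomputable def pi : Du Z := Du.mk (LinearMap.mkContinuous
  { toFun := fun z : Z => z.v.2, map_add' := fun _ _ => rfl, map_smul' := fun _ _ => rfl } 1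
  (fun z => by simpa using snd_le z))

@[simp] lemma pi_ap (z : Z) : pi.ap z = z.v.2 := rfl

noncomputable def fstZ : Z →L[ℝ] H := LinearMap.mkContinuous
  { toFun := fun z : Z => z.v.1, map_add' := fun _ _ => rfl, map_smul' := fun _ _ => rfl } 1
  (fun z => by simpa using fst_le z)

noncomputable def inlZ : H →L[ℝ] Z := LinearMap.mkContinuous
  { toFun := fun y => mk y 0
    map_add' := fun _ _ => Z.ext' (by simp)
    map_smul' := fun _ _ => Z.ext' (by simp) } 2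
  (fun y => by simpa using norm_le (mk y 0))

noncomputable def xh : H →L[ℝ] Du Z := LinearMap.mkContinuous
  { toFun := fun h => Du.mk ((innerSL ℝ h).comp fstZ)
    map_add' := fun _ _ => Du.ext' fun z => by simp
    map_smul' := fun _ _ => Du.ext' fun z => by simp } 1
  (fun h => by
    refine ContinuousLinearMap.opNorm_le_bound ((innerSL ℝ h).comp fstZ) (by positivity)
      fun z => ?_
    rw [one_mul]
    exact (norm_inner_le_norm h z.v.1).trans
      (mul_le_mul_of_nonneg_left (fst_le z) (norm_nonneg _)))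

@[simp] lemma xh_ap (h : H) (z : Z) : (xh h).ap z = inner ℝ h z.v.1 := rfl

lemma decomp (x : Du Z) : ∃ h : H, ∀ z : Z, x.ap z = inner ℝ h z.v.1 + x.ap u * z.v.2 := by
  refine ⟨(InnerProductSpace.toDual ℝ H).symm (x.ap.comp inlZ), fun z => ?_⟩
  rw [InnerProductSpace.toDual_symm_apply]
  have : z = inlZ z.v.1 + z.v.2 • u := Z.ext' (Prod.ext
    (by show z.v.1 = z.v.1 + z.v.2 • (0 : H); simp)
    (by show z.v.2 = 0 + z.v.2 • (1 : ℝ); simp))
  conv_lhs => rw [this]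
  rw [map_add, map_smul, smul_eq_mul, mul_comm]; rfl

lemma refl_Z : Refl Z := by
  intro F
  refine ⟨mk ((InnerProductSpace.toDual ℝ H).symm (F.comp xh)) (F pi), fun x => ?_⟩
  obtain ⟨h, hh⟩ := decomp x
  have : x = xh h + x.ap u • pi := Du.ext' fun z => by simp [hh z]
  rw [hh, mk_v, real_inner_comm, InnerProductSpace.toDual_symm_apply]
  conv_lhs => rw [this]
  rw [map_add, map_smul]; rfl

lemma strict (z w : Z) (hz : ‖z‖ ≤ 1) (hw : ‖w‖ ≤ 1) (h : 2 ≤ ‖z + w‖) : z = w := by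
  have hs := (((hasSum_Z z).mul_left 2).add ((hasSum_Z w).mul_left 2)).sub (hasSum_Z (z + w))
  have hnn : ∀ k, 0 ≤ 2 * ‖A k z.v‖ ^ 2 + 2 * ‖A k w.v‖ ^ 2 - ‖A k (z + w).v‖ ^ 2 := by
    intro k
    have h1 : ‖A k (z + w).v‖ ≤ ‖A k z.v‖ + ‖A k w.v‖ := by
      rw [v_add, A_add]; exact norm_add_le _ _
    have h2 := pow_le_pow_left₀ (norm_nonneg _) h1 2
    nlinarith [sq_nonneg (‖A k z.v‖ - ‖A k w.v‖)]
  have hle : 2 * ‖z‖ ^ 2 + 2 * ‖w‖ ^ 2 - ‖z + w‖ ^ 2 ≤ 0 := by
    nlinarith [norm_nonneg z, norm_nonneg w]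
  have h0 : ∀ k, 2 * ‖A k z.v‖ ^ 2 + 2 * ‖A k w.v‖ ^ 2 - ‖A k (z + w).v‖ ^ 2 = 0 := fun k =>
    le_antisymm ((le_hasSum hs k fun j _ => hnn j).trans hle) (hnn k)
  have hy : z.v.1 = w.v.1 := by
    have := h0 0
    simp only [norm_A0, v_add, Prod.fst_add] at this
    have h1 := parallelogram_law_with_norm ℝ z.v.1 w.v.1
    have h2 : ‖z.v.1 - w.v.1‖ * ‖z.v.1 - w.v.1‖ = 0 := by nlinarith
    exact sub_eq_zero.1 (norm_eq_zero.1 (mul_self_eq_zero.1 h2))
  have ht : z.v.2 = w.v.2 := by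
    by_contra hne
    have hpos : 0 < |z.v.2 - w.v.2| / 4 := by
      have := abs_pos.2 (sub_ne_zero.2 hne); positivity
    have hlim : Tendsto (fun k => ‖z.v.1 - P k z.v.1‖) atTop (𝓝 0) := by
      have := ((P_tendsto z.v.1).const_sub z.v.1).norm
      simpa using this
    obtain ⟨k, hk⟩ := (hlim.eventually (gt_mem_nhds hpos)).exists
    have h1 := h0 (k + 1)
    have h2 : (z + w).v.1 - P k (z + w).v.1 = (2 : ℝ) • (z.v.1 - P k z.v.1) := by
      rw [v_add, Prod.fst_add, ← hy, P_add, two_smul]; abel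
    have h3 : (z + w).v.2 - l k (z + w).v.1 = (z.v.2 - l k z.v.1) + (w.v.2 - l k z.v.1) := by
      rw [v_add, Prod.fst_add, Prod.snd_add, ← hy, l_add]; ring
    rw [norm_A, norm_A, norm_A, h2, h3, ← hy, norm_smul] at h1
    have h4 : z.v.2 - w.v.2 = (z.v.2 - l k z.v.1) - (w.v.2 - l k z.v.1) := by ring
    rw [h4] at hk
    set r := ‖z.v.1 - P k z.v.1‖
    set p := z.v.2 - l k z.v.1
    set q := w.v.2 - l k z.v.1
    have hr : 0 ≤ r := norm_nonneg _
    have hm := mu_pos k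
    simp only [Real.norm_ofNat] at h1
    have h5 : 2 * (max r |p|) ^ 2 + 2 * (max r |q|) ^ 2 - (max (2 * r) |p + q|) ^ 2 = 0 := by
      have : mu k ^ 2 * (2 * (max r |p|) ^ 2 + 2 * (max r |q|) ^ 2 -
          (max (2 * r) |p + q|) ^ 2) = 0 := by rw [← h1]; ring
      exact (mul_eq_zero.1 this).resolve_left (by positivity)
    have a1 : p ^ 2 ≤ (max r |p|) ^ 2 := by
      rw [← sq_abs p]; exact pow_le_pow_left₀ (abs_nonneg _) (le_max_right _ _) 2
    have a2 : q ^ 2 ≤ (max r |q|) ^ 2 := by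
      rw [← sq_abs q]; exact pow_le_pow_left₀ (abs_nonneg _) (le_max_right _ _) 2
    have a3 : (4 * r) ^ 2 < (p - q) ^ 2 := by
      rw [← sq_abs (p - q)]; exact pow_lt_pow_left₀ (by linarith) (by positivity) two_ne_zero
    rcases le_total (2 * r) |p + q| with h6 | h6
    · rw [max_eq_right h6, sq_abs] at h5; nlinarith
    · rw [max_eq_left h6] at h5; nlinarith [sq_nonneg (p + q)]
  exact Z.ext' (Prod.ext hy ht)

end Pool.Agent.H87.CKE
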