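import Mathlib
import Pool.Agent.H87.CKE2

namespace Pool.Agent.H87.CKE

open Filter Topology

/-- model for the truncated squared norm -/
noncomputable def G (y : H) (K : ℕ) (d t : ℝ) : ℝ :=
  (‖y‖ ^ 2 + d) + ∑ k ∈ Finset.range K,
    mu k ^ 2 * max (‖y - P k y‖ ^ 2 + d) ((t - l k y) ^ 2)

noncomputable def NK (K : ℕ) (z : H × ℝ) : ℝ := ∑ k ∈ Finset.range (K + 1), ‖A k z‖ ^ 2

lemma NK_eq (K : ℕ) (z : H × ℝ) : NK K z = ‖z.1‖ ^ 2 + ∑ k ∈ Finset.range K,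
    mu k ^ 2 * max (‖z.1 - P k z.1‖ ^ 2) ((z.2 - l k z.1) ^ 2) := by
  rw [NK, Finset.sum_range_succ', norm_A0, add_comm]
  congr 1
  refine Finset.sum_congr rfl fun k _ => ?_
  rw [norm_A, mul_pow, ← sq_abs (z.2 - l k z.1)]
  congr 1
  rcases le_total ‖z.1 - P k z.1‖ |z.2 - l k z.1| with h | h
  · rw [max_eq_right h, max_eq_right (pow_le_pow_left₀ (norm_nonneg _) h 2)]
  · rw [max_eq_left h, max_eq_left (pow_le_pow_left₀ (abs_nonneg _) h 2)]

lemma NK_le (K : ℕ) (z : Z) : NK K z.v ≤ ‖z‖ ^ 2 :=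
  sum_le_hasSum _ (fun _ _ => sq_nonneg _) (hasSum_Z z)

lemma G_mono (y : H) (K : ℕ) {d d' : ℝ} (h : d ≤ d') (t : ℝ) : G y K d t ≤ G y K d' t := by
  unfold G
  gcongr

lemma G_cont (y : H) (K : ℕ) : Continuous fun p : ℝ × ℝ => G y K p.1 p.2 := by
  unfold G; fun_prop

lemma lim_NK {I : Type} (F : Filter I) (y : I → H) (y₀ : H) (t : I → ℝ) (d t₀ : ℝ) (K : ℕ)
    (hw : ∀ h : H, Tendsto (fun i => inner ℝ h (y i)) F (𝓝 (inner ℝ h y₀)))
    (hd : Tendsto (fun i => ‖y i - y₀‖ ^ 2) F (𝓝 d)) (ht : Tendsto t F (𝓝 t₀)) :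
    Tendsto (fun i => NK K (y i, t i)) F (𝓝 (G y₀ K d t₀)) := by
  have hc : ∀ j, Tendsto (fun i => y i j) F (𝓝 (y₀ j)) := fun j => by
    simpa [inner_e] using hw (e j)
  have hP : ∀ k, Tendsto (fun i => P k (y i)) F (𝓝 (P k y₀)) := fun k =>
    tendsto_finsetSum _ fun j _ => (hc j).smul_const _
  have hl : ∀ k, Tendsto (fun i => l k (y i)) F (𝓝 (l k y₀)) := fun k =>
    tendsto_finsetSum _ fun j _ => (hc j).const_mul _
  have h0 : ∀ h : H, Tendsto (fun i => inner ℝ h (y i - y₀)) F (𝓝 0) := fun h => by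
    have := (hw h).sub_const (inner ℝ h y₀)
    simpa [inner_sub_right] using this
  have hgen : ∀ (p : I → H) (p₀ : H), Tendsto p F (𝓝 p₀) →
      Tendsto (fun i => ‖y i - p i‖ ^ 2) F (𝓝 (‖y₀ - p₀‖ ^ 2 + d)) := by
    intro p p₀ hp
    have h1 : Tendsto (fun i => inner ℝ (p₀ - p i) (y i - y₀)) F (𝓝 0) := by
      have hb : Tendsto (fun i => ‖p₀ - p i‖ * √(‖y i - y₀‖ ^ 2)) F (𝓝 (‖p₀ - p₀‖ * √d)) :=
        ((hp.const_sub p₀).norm).mul (hd.sqrt)
      simp only [sub_self, norm_zero, zero_mul] at hb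
      refine squeeze_zero_norm (fun i => ?_) hb
      rw [Real.sqrt_sq (norm_nonneg _)]
      exact norm_inner_le_norm _ _
    have h2 := (((((hp.const_sub y₀).norm).pow 2).add
      (((h0 (y₀ - p₀)).add h1).const_mul 2)).add hd)
    simp only [add_zero, mul_zero] at h2
    refine h2.congr fun i => ?_
    have : y i - p i = (y₀ - p i) + (y i - y₀) := by abel
    rw [this, norm_add_sq_real, ← inner_add_left, sub_add_sub_cancel]
  simp only [NK_eq, G]
  refine Tendsto.add ?_ (tendsto_finsetSum _ fun k _ => ?_)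
  · simpa using hgen (fun _ => 0) 0 tendsto_const_nhds
  · exact ((hgen _ _ (hP k)).max ((ht.sub (hl k)).pow 2)).const_mul _

lemma loc (ε : ℝ) (hε : 0 < ε) (K : Type) [TopologicalSpace K] (z : K → Z) (hz : ∀ k, ‖z k‖ ≤ 1)
    (hc : ∀ x : Du Z, x.ap u = 0 → Continuous fun k => x.ap (z k)) (k₀ : K) :
    ∃ t : ℝ, ∀ᶠ k in 𝓝 k₀, ‖z k + (t - pi.ap (z k)) • u‖ ≤ 1 + ε := by
  obtain ⟨N, hN⟩ := exists_pow_lt_of_lt_one (show 0 < ε / 8 by positivity)
    (show (1 / 4 : ℝ) < 1 by norm_num)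
  set y₀ := (z k₀).v.1 with hy₀
  have hw : ∀ h : H, Tendsto (fun i => inner ℝ h (z i).v.1) (𝓝 k₀) (𝓝 (inner ℝ h y₀)) :=
    fun h => (hc (xh h) (by simp [u])).tendsto k₀
  have hsq : ∀ k, ‖z k‖ ^ 2 ≤ 1 := fun k => by nlinarith [hz k, norm_nonneg (z k)]
  let B : Set (ℝ × ℝ) := Set.Icc 0 4 ×ˢ Set.Icc (-1) 1
  have hB : IsCompact B := isCompact_Icc.prod isCompact_Icc
  have hD : IsCompact (B ∩ {p | G y₀ N p.1 p.2 ≤ 1}) :=
    hB.inter_right (isClosed_le (G_cont y₀ N) continuous_const)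
  have hmem : ∀ k, (‖(z k).v.1 - y₀‖ ^ 2, (z k).v.2) ∈ B := fun k => by
    refine ⟨⟨sq_nonneg _, ?_⟩, abs_le.1 ((snd_le _).trans (hz k))⟩
    have h1 := (norm_sub_le (z k).v.1 y₀)
    have h2 := (fst_le _).trans (hz k)
    have h3 := (fst_le _).trans (hz k₀)
    show ‖(z k).v.1 - y₀‖ ^ 2 ≤ 4
    nlinarith [norm_nonneg ((z k).v.1 - y₀)]
  have hult : ∀ V : Ultrafilter K, (V : Filter K) ≤ 𝓝 k₀ →
      ∃ p ∈ B ∩ {p | G y₀ N p.1 p.2 ≤ 1},
        Tendsto (fun k => ‖(z k).v.1 - y₀‖ ^ 2) V (𝓝 p.1) := by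
    intro V hV
    obtain ⟨p, hp, hp'⟩ := hB.ultrafilter_le_nhds
      (V.map fun k => (‖(z k).v.1 - y₀‖ ^ 2, (z k).v.2))
      (by rw [le_principal_iff]; exact mem_map.2 (Eventually.of_forall hmem))
    have h1 : Tendsto (fun k => (‖(z k).v.1 - y₀‖ ^ 2, (z k).v.2)) V (𝓝 p) := hp'
    refine ⟨p, ⟨hp, ?_⟩, (continuous_fst.tendsto p).comp h1⟩
    have h2 := lim_NK (V : Filter K) (fun k => (z k).v.1) y₀ (fun k => (z k).v.2) p.1 p.2 N
      (fun h => (hw h).mono_left hV) ((continuous_fst.tendsto p).comp h1)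
      ((continuous_snd.tendsto p).comp h1)
    exact le_of_tendsto h2 (Eventually.of_forall fun k => (NK_le N (z k)).trans (hsq k))
  obtain ⟨q, hq, hmax⟩ := hD.exists_isMaxOn (f := Prod.fst)
    (by obtain ⟨p, hp, -⟩ := hult (pure k₀) (pure_le_nhds k₀); exact ⟨p, hp⟩)
    continuous_fst.continuousOn
  refine ⟨q.2, ?_⟩
  have hev : ∀ᶠ k in 𝓝 k₀, NK N ((z k).v.1, q.2) < 1 + ε := by
    refine Filter.mem_iff_ultrafilter.2 fun V hV => ?_
    obtain ⟨p, hp, hp'⟩ := hult V hV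
    have h2 := lim_NK (V : Filter K) (fun k => (z k).v.1) y₀ (fun _ => q.2) p.1 q.2 N
      (fun h => (hw h).mono_left hV) hp' tendsto_const_nhds
    have h3 : G y₀ N p.1 q.2 < 1 + ε :=
      ((G_mono y₀ N (hmax hp) q.2).trans hq.2).trans_lt (by linarith)
    exact h2.eventually (gt_mem_nhds h3)
  filter_upwards [hev] with k hk
  have h1 : (z k + (q.2 - pi.ap (z k)) • u).v = ((z k).v.1, q.2) := by
    ext1 <;> simp [u]
  have h2 := sq_le (z k + (q.2 - pi.ap (z k)) • u) N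
  rw [h1] at h2
  have h3 : ‖(z k).v.1‖ + |q.2| ≤ 2 := by
    have := (fst_le _).trans (hz k)
    have := abs_le.2 hq.1.2
    linarith
  have h4 : (‖(z k).v.1‖ + |q.2|) ^ 2 ≤ 2 ^ 2 := pow_le_pow_left₀ (by positivity) h3 2
  have h5 : (1 / 4 : ℝ) ^ N * (2 * (‖(z k).v.1‖ + |q.2|) ^ 2) ≤ ε / 8 * (2 * 2 ^ 2) := by gcongr
  refine abs_le_of_sq_le_sq' ?_ (by positivity) |>.2
  unfold NK at hk
  nlinarith

lemma P_e (k n : ℕ) : P k (e n) = if n < k then e n else 0 := by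
  simp only [P, e_apply, ite_smul, one_smul, zero_smul]
  rw [Finset.sum_ite_eq']; simp

lemma l_e (k n : ℕ) : l k (e n) = if n < k then c n else 0 := by
  simp only [l, e_apply, mul_ite, mul_one, mul_zero]
  rw [Finset.sum_ite_eq']; simp

lemma min_e (n : ℕ) (t : ℝ) (h : ‖mk (e n) (c n + t)‖ ≤ ‖mk (e n) (c n)‖) : t = 0 := by
  by_contra ht
  have := hasSum_lt (i := n + 2) (fun k => ?_) ?_ (hasSum_Z (mk (e n) (c n)))
    (hasSum_Z (mk (e n) (c n + t)))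
  · have h2 := pow_le_pow_left₀ (norm_nonneg _) h 2
    linarith
  · refine pow_le_pow_left₀ (norm_nonneg _) ?_ 2
    cases k with
    | zero => simp [norm_A0]
    | succ k =>
      rw [norm_A, norm_A]
      refine mul_le_mul_of_nonneg_left ?_ (mu_pos k).le
      simp only [mk_v, P_e, l_e]
      split_ifs
      · simp
      · simp only [sub_zero, norm_e]
        exact max_le (le_max_left _ _) ((c_le n).trans (le_max_left _ _))
  · refine pow_lt_pow_left₀ ?_ (norm_nonneg _) two_ne_zero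
    rw [norm_A, norm_A]
    refine mul_lt_mul_of_pos_left ?_ (mu_pos _)
    simp [P_e, l_e, ht]

lemma e_weak (h : H) : Tendsto (fun n => inner ℝ h (e n)) atTop (𝓝 0) := by
  have h1 := (lp.hasSum_single (by simp) h).summable.tendsto_atTop_zero
  rw [tendsto_zero_iff_norm_tendsto_zero] at h1 ⊢
  refine h1.congr fun n => ?_
  rw [real_inner_comm, inner_e, lp.norm_single (by simp)]

theorem main : Function.Surjective (NormedSpace.inclusionInDoubleDual ℝ (Du Z)) ∧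
    (∀ x : Du Z, x ≠ 0 → ∃ f : Du Z →L[ℝ] ℝ,
          ∀ v : Du Z, HasLineDerivAt ℝ (fun y : Du Z => ‖y‖) (f v) x v) ∧
    (∀ ε : ℝ, 0 < ε →
          ∀ (K : Type) [TopologicalSpace K] [CompactSpace K] [T2Space K]
            (T : Eu u →L[ℝ] C(K, ℝ)),
            ∃ S : Du Z →L[ℝ] C(K, ℝ), (∀ e : Eu u, S e = T e) ∧ ‖S‖ ≤ (1 + ε) * ‖T‖) ∧
    ∃ T : Eu u →L[ℝ] C(OnePoint ℕ, ℝ),
      ¬ ∃ S : Du Z →L[ℝ] C(OnePoint ℕ, ℝ), (∀ e : Eu u, S e = T e) ∧ ‖S‖ ≤ ‖T‖ := by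
  have hπ : pi.ap u = 1 := rfl
  refine ⟨refl_Z.dual, refl_Z.smooth strict, fun ε hε K _ _ _ T => ?_, ?_⟩
  · exact ext_scale (fun e : Eu u => (e : Du Z)) (1 + ε)
      (fun T hT => ext_one refl_Z u pi hπ (1 + ε) (by linarith) K (loc ε hε K) T hT) T
  have h1 : ∀ n, 1 ≤ ‖mk (e n) (c n)‖ := fun n => by
    simpa [norm_e] using fst_le (mk (e n) (c n))
  have h4 : ∀ n, ‖mk (e n) (c n)‖ ≤ 4 := fun n => by
    have := norm_le (mk (e n) (c n))
    simp only [mk_v, norm_e] at this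
    linarith [c_le n]
  have hpos : ∀ n, 0 < ‖mk (e n) (c n)‖ := fun n => by linarith [h1 n]
  refine no_ext refl_Z u pi hπ (fun n => ‖mk (e n) (c n)‖⁻¹ • mk (e n) (c n))
    (fun n => by rw [norm_smul]; simp [(hpos n).ne']) (fun x hx => ?_) (fun n t ht => ?_)
    (fun a ha => ?_)
  · obtain ⟨h, hh⟩ := decomp x
    refine squeeze_zero_norm (fun n => ?_) (tendsto_zero_iff_norm_tendsto_zero.1 (e_weak h))
    rw [map_smul, hh, hx, zero_mul, add_zero, norm_smul, mk_v, norm_inv, norm_norm]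
    exact mul_le_of_le_one_left (norm_nonneg _) (inv_le_one_of_one_le₀ (h1 n))
  · have h2 : ‖mk (e n) (c n)‖⁻¹ • mk (e n) (c n) + t • u =
        ‖mk (e n) (c n)‖⁻¹ • mk (e n) (c n + ‖mk (e n) (c n)‖ * t) := Z.ext' (by
      have := (hpos n).ne'
      ext1
      · simp [u]
      · simp [u]; field_simp)
    rw [h2, norm_smul, norm_inv, norm_norm, inv_mul_le_iff₀ (hpos n), mul_one] at ht
    exact (mul_eq_zero.1 (min_e n _ ht)).resolve_left (hpos n).ne'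
  · have e1 : Tendsto (fun n : ℕ => 2 * n) atTop atTop :=
      tendsto_id.const_mul_atTop' (by norm_num)
    have e2 : Tendsto (fun n : ℕ => 2 * n + 1) atTop atTop := tendsto_add_atTop_nat 1 |>.comp e1
    have a1 : (1 / 4 : ℝ) ≤ a := by
      refine ge_of_tendsto (ha.comp e1) (Eventually.of_forall fun n => ?_)
      have : c (2 * n) = 1 := by simp [c]
      simp only [Function.comp, map_smul, pi_ap, mk_v, smul_eq_mul]
      rw [one_div]
      have := inv_anti₀ (hpos (2 * n)) (h4 (2 * n))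
      simp_all
    have a2 : a ≤ 0 := by
      refine le_of_tendsto (ha.comp e2) (Eventually.of_forall fun n => ?_)
      have : c (2 * n + 1) = 0 := by simp [c]
      simp [this]
    linarith

end Pool.Agent.H87.CKE
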