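import Mathlib

set_option autoImplicit false

open Filter Topology Set Metric

namespace Pool.Agent.H87.CcsD

section defs
variable (𝕜 : Type) [RCLike 𝕜] {X : Type*} [NormedAddCommGroup X] [NormedSpace 𝕜 X]
  [NormedSpace ℝ X]

variable {𝕜} in
/-- The slice `S(f,α)` of the closed unit ball. -/
def slice (f : X →L[𝕜] 𝕜) (α : ℝ) : Set X := {y | ‖y‖ ≤ 1 ∧ 1 - α < RCLike.re (f y)}

variable {𝕜} in
/-- The convex combination `∑ lᵢ S(fᵢ,αᵢ)` of slices. -/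
def ccs {n : ℕ} (f : Fin n → X →L[𝕜] 𝕜) (α l : Fin n → ℝ) : Set X :=
  {z | ∃ y : Fin n → X, (∀ i, y i ∈ slice (f i) (α i)) ∧ z = ∑ i, l i • y i}

/-- The diametral condition of a ccs `Δ`-point. -/
def CcsDelta (x : X) : Prop :=
  ∀ (n : ℕ) (f : Fin n → X →L[𝕜] 𝕜) (α l : Fin n → ℝ), (∀ i, ‖f i‖ = 1 ∧ 0 < α i ∧ 0 < l i) →
    ∑ i, l i = 1 → x ∈ ccs f α l → sSup ((fun y => ‖x - y‖) '' ccs f α l) = 2

/-- The diametral condition of a super `Δ`-point. -/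
def SuperDelta (x : X) : Prop :=
  ∀ W : Set (WeakSpace 𝕜 X), IsOpen W → toWeakSpace 𝕜 X x ∈ W →
    sSup ((fun y => ‖x - y‖) '' {y | ‖y‖ ≤ 1 ∧ toWeakSpace 𝕜 X y ∈ W}) = 2

end defs

variable {𝕜 : Type} [RCLike 𝕜] {X : Type*} [NormedAddCommGroup X] [NormedSpace 𝕜 X]
  [NormedSpace ℝ X] [IsScalarTower ℝ 𝕜 X]

lemma ex_slice {x : X} (hx : ‖x‖ = 1) (f : X →L[ℝ] ℝ) {β : ℝ} (hβ : 0 < β) :
    ∃ (F : X →L[𝕜] 𝕜) (α : ℝ), ‖F‖ = 1 ∧ 0 < α ∧ x ∈ slice F α ∧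
      ∀ y ∈ slice F α, f x - β < f y := by
  by_cases h : f = 0
  · obtain ⟨g, g1, g2⟩ := exists_dual_vector 𝕜 x (by rw [hx]; exact one_ne_zero)
    refine ⟨g, 1, g1, one_pos, ⟨hx.le, ?_⟩, fun y _ => by simp [h, hβ]⟩
    rw [g2, hx]; simp
  have hp : 0 < ‖f‖ := norm_pos_iff.2 h
  have h1 : f x ≤ ‖f‖ := by
    simpa [hx] using (le_abs_self _).trans (f.le_opNorm x)
  have e : ∀ y, RCLike.re ((StrongDual.extendRCLike (‖f‖⁻¹ • f) : X →L[𝕜] 𝕜) y) = ‖f‖⁻¹ * f y :=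
    fun y => by rw [StrongDual.re_extendRCLike_apply]; rfl
  refine ⟨StrongDual.extendRCLike (‖f‖⁻¹ • f), 1 - ‖f‖⁻¹ * (f x - β), ?_, ?_, ⟨hx.le, ?_⟩, ?_⟩
  · rw [StrongDual.norm_extendRCLike, norm_smul, norm_inv, norm_norm, inv_mul_cancel₀ hp.ne']
  · rw [sub_pos, inv_mul_lt_iff₀ hp]; linarith
  · rw [e, sub_sub_cancel]
    exact mul_lt_mul_of_pos_left (by linarith) (inv_pos.2 hp)
  · intro y hy
    have := hy.2
    rw [e, sub_sub_cancel] at this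
    exact lt_of_mul_lt_mul_left this (inv_pos.2 hp).le

lemma core {x : X} (hx : ‖x‖ = 1) (h : CcsDelta 𝕜 x) {E : Type*} [NormedAddCommGroup E]
    [NormedSpace ℝ E] [FiniteDimensional ℝ E] (T : X →L[ℝ] E) {δ ε : ℝ} (hδ : 0 < δ) (hε : 0 < ε) :
    ∃ z, ‖z‖ ≤ 1 ∧ ‖T (z - x)‖ < δ ∧ 2 - ε < ‖x - z‖ := by
  have : ProperSpace (E →L[ℝ] ℝ) := FiniteDimensional.proper ℝ _
  set η := δ / (4 * (‖T‖ + 1)) with hη
  have η0 : 0 < η := by positivity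
  obtain ⟨t, ht, hc⟩ := Metric.totallyBounded_iff.1
    (isCompact_closedBall (0 : E →L[ℝ] ℝ) 1).totallyBounded η η0
  obtain ⟨n, φ, -, rfl⟩ := ht.fin_param
  have n0 : 0 < n := by
    obtain ⟨_, ⟨i, -⟩, -⟩ := mem_iUnion₂.1 (hc (mem_closedBall_self zero_le_one))
    exact i.pos
  have n1 : (0 : ℝ) < n := by exact_mod_cast n0
  choose F α F1 α0 hxs hF using fun i => ex_slice (𝕜 := 𝕜) hx ((φ i).comp T) (half_pos hδ)
  have hs : ∑ _i : Fin n, (n : ℝ)⁻¹ = 1 := by simp [n1.ne']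
  have hm : x ∈ ccs F α fun _ => (n : ℝ)⁻¹ :=
    ⟨fun _ => x, hxs, by rw [← Finset.sum_smul, hs, one_smul]⟩
  have h2 := h n F α (fun _ => (n : ℝ)⁻¹) (fun i => ⟨F1 i, α0 i, inv_pos.2 n1⟩) hs hm
  obtain ⟨_, ⟨_, ⟨y, hy, rfl⟩, rfl⟩, h3⟩ := exists_lt_of_lt_csSup (s := (fun y => ‖x - y‖) ''
    ccs F α fun _ => (n : ℝ)⁻¹) ⟨_, x, hm, rfl⟩ (show 2 - (n : ℝ)⁻¹ * ε < _ by
      rw [h2]; linarith [mul_pos (inv_pos.2 n1) hε])
  obtain ⟨g, g1, g2⟩ := exists_dual_vector'' ℝ (x - ∑ i, (n : ℝ)⁻¹ • y i)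
  have g3 : ∀ w, g w ≤ ‖w‖ := fun w =>
    (le_abs_self _).trans ((g.le_opNorm w).trans (mul_le_of_le_one_left (norm_nonneg _) g1))
  have g4 : ∀ i, g (x - y i) ≤ 2 := fun i =>
    (g3 _).trans ((norm_sub_le _ _).trans (by linarith [(hy i).1]))
  have g5 : ∑ i, (n : ℝ)⁻¹ * (2 - g (x - y i)) < (n : ℝ)⁻¹ * ε := by
    have e1 : x - ∑ i, (n : ℝ)⁻¹ • y i = ∑ i, (n : ℝ)⁻¹ • (x - y i) := by
      simp only [smul_sub, Finset.sum_sub_distrib]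
      rw [← Finset.sum_smul, hs, one_smul]
    have e2 : g (x - ∑ i, (n : ℝ)⁻¹ • y i) = ∑ i, (n : ℝ)⁻¹ * g (x - y i) := by
      rw [e1, map_sum]; simp only [map_smul, smul_eq_mul]
    simp only [mul_sub, Finset.sum_sub_distrib]
    rw [← Finset.sum_mul, hs, ← e2, g2]
    simp only [RCLike.ofReal_real_eq_id, id] at *
    linarith
  have g6 : ∀ i, 2 - ε < g (x - y i) := fun i => by
    have := (Finset.single_le_sum (f := fun i => (n : ℝ)⁻¹ * (2 - g (x - y i)))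
      (fun i _ => mul_nonneg (inv_pos.2 n1).le (sub_nonneg.2 (g4 i))) (Finset.mem_univ i)).trans_lt g5
    linarith [lt_of_mul_lt_mul_left this (inv_pos.2 n1).le]
  by_contra H
  push Not at H
  let A : Set X := closedBall 0 1 ∩ {z | g z < g x - (2 - ε)}
  have hA : Convex ℝ A := (convex_closedBall 0 1).inter (convex_halfSpace_lt g.toLinearMap.isLinear _)
  have yA : ∀ i, y i ∈ A := fun i => ⟨mem_closedBall_zero_iff.2 (hy i).1, by
    have := g6 i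
    rw [map_sub] at this
    simp only [mem_ofPred_eq]; linarith⟩
  obtain ⟨ψ, u, p1, p2⟩ := geometric_hahn_banach_open (convex_ball (T x) δ) isOpen_ball
    (hA.linear_image T.toLinearMap) (by
      rw [Set.disjoint_left]
      rintro _ h4 ⟨z, ⟨z1, z2⟩, rfl⟩
      rw [mem_ball, dist_eq_norm] at h4
      have a1 := H z (mem_closedBall_zero_iff.1 z1) (by rw [map_sub]; exact h4)
      have a2 := g3 (x - z)
      rw [map_sub] at a2
      simp only [mem_ofPred_eq] at z2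
      linarith)
  have p3 : ∀ i, u ≤ ψ (T (y i)) := fun i => p2 _ ⟨_, yA i, rfl⟩
  have p4 := p1 _ (mem_ball_self hδ)
  have hp : 0 < ‖ψ‖ := norm_pos_iff.2 fun h0 => by
    have := p3 ⟨0, n0⟩
    rw [h0] at this p4
    simp only [zero_apply] at this p4
    linarith
  have p5 : ‖ψ‖ * δ ≤ u - ψ (T x) := by
    by_contra a
    obtain ⟨w, w1, w2⟩ := ψ.exists_lt_apply_of_lt_opNorm (r := (u - ψ (T x)) / δ)
      (by rw [div_lt_iff₀ hδ]; linarith)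
    have k : ∀ w : E, ‖w‖ < 1 → ψ w < (u - ψ (T x)) / δ := fun w w1 => by
      have := p1 (T x + δ • w) (by
        rw [mem_ball, dist_eq_norm, add_sub_cancel_left, norm_smul, Real.norm_of_nonneg hδ.le]
        exact mul_lt_of_lt_one_right hδ w1)
      rw [map_add, map_smul, smul_eq_mul] at this
      rw [lt_div_iff₀ hδ]; linarith
    have k1 := k w w1
    have k2 := k (-w) (by rwa [norm_neg])
    rw [map_neg] at k2
    rw [Real.norm_eq_abs, lt_abs] at w2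
    rcases w2 with w2 | w2 <;> linarith
  obtain ⟨_, ⟨i, rfl⟩, hi⟩ := mem_iUnion₂.1 (hc (show (-‖ψ‖⁻¹) • ψ ∈ closedBall 0 1 by
    rw [mem_closedBall_zero_iff, norm_smul, norm_neg, norm_inv, norm_norm, inv_mul_cancel₀ hp.ne']))
  rw [mem_ball, dist_eq_norm] at hi
  have q1 := hF i _ (hy i)
  simp only [ContinuousLinearMap.comp_apply] at q1
  have q2 : ‖T (y i - x)‖ ≤ 2 * (‖T‖ + 1) := by
    have a1 := T.le_opNorm (y i - x)
    have a2 : ‖y i - x‖ ≤ 2 := (norm_sub_le _ _).trans (by linarith [(hy i).1])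
    nlinarith [norm_nonneg T, norm_nonneg (y i - x)]
  have q3 := ((-‖ψ‖⁻¹) • ψ - φ i).le_of_opNorm_le_of_le hi.le q2
  have q4 : η * (2 * (‖T‖ + 1)) = δ / 2 := by rw [hη]; field_simp; ring
  rw [q4, Real.norm_eq_abs, abs_le] at q3
  have q5 := q3.1
  simp only [sub_apply, smul_apply, map_sub, smul_eq_mul] at q5
  have q6 : δ ≤ ‖ψ‖⁻¹ * (ψ (T (y i)) - ψ (T x)) := by
    rw [le_inv_mul_iff₀ hp]; linarith [p3 i]
  linarith

theorem main {x : X} (hx : ‖x‖ = 1) (h : CcsDelta 𝕜 x) : SuperDelta 𝕜 x := by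
  intro W hW hxW
  obtain ⟨F, r, hr, hF⟩ : ∃ (F : Finset (X →L[𝕜] 𝕜)) (ε : ℝ), 0 < ε ∧
      ∀ y : X, (∀ i ∈ F, ‖i y - i x‖ < ε) → toWeakSpace 𝕜 X y ∈ W := by
    obtain ⟨O, hO, rfl⟩ := isOpen_induced_iff.1 hW
    obtain ⟨F, u, hu1, hu2⟩ := isOpen_pi_iff.1 hO _ hxW
    have h1 : ∀ i ∈ F, ∀ᶠ r in 𝓝[>] (0:ℝ), Metric.ball (i x) r ⊆ u i := by
      intro i hi
      obtain ⟨r, hr, h⟩ := Metric.isOpen_iff.1 (hu1 i hi).1 _ (hu1 i hi).2
      filter_upwards [Ioo_mem_nhdsGT hr] with t ht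
      exact (Metric.ball_subset_ball ht.2.le).trans h
    obtain ⟨r, hr1, hr2⟩ := (((eventually_all_finset F).2 h1).and self_mem_nhdsWithin).exists
    refine ⟨F, r, hr2, fun y hy => hu2 fun i hi => hr1 i hi ?_⟩
    exact (by simpa [dist_eq_norm] using hy i hi : i y ∈ Metric.ball (i x) r)
  have hb : ∀ a ∈ (fun y => ‖x - y‖) '' {y | ‖y‖ ≤ 1 ∧ toWeakSpace 𝕜 X y ∈ W}, a ≤ 2 := by
    rintro _ ⟨y, hy, rfl⟩
    exact (norm_sub_le _ _).trans (by linarith [hy.1])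
  refine le_antisymm (Real.sSup_le hb zero_le_two) (le_of_forall_pos_le_add fun ε hε => ?_)
  obtain ⟨z, z1, z2, z3⟩ := core hx h
    ((ContinuousLinearMap.pi fun i : F => (i.1 : X →L[𝕜] 𝕜)).restrictScalars ℝ) hr hε
  have := le_csSup ⟨2, hb⟩ ⟨z, ⟨z1, hF z fun i hi => by
    rw [← map_sub]
    exact (norm_le_pi_norm _ (⟨i, hi⟩ : F)).trans_lt z2⟩, rfl⟩
  linarith

end Pool.Agent.H87.CcsD
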