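import Mathlib

namespace Pool.Agent.H87.Comb

/-- the combinatorial norm of a finitely supported vector -/
noncomputable def nF (𝓕 : Set (Finset ℕ)) (x : ℕ →₀ ℝ) : ℝ :=
  sSup ((fun F : Finset ℕ => ∑ i ∈ F, |x i|) '' 𝓕)

/-- the `ℓ¹` norm of a finitely supported vector -/
noncomputable def l1 (x : ℕ →₀ ℝ) : ℝ := ∑ i ∈ x.support, |x i|

open Classical in
/-- restriction of a vector to a set of coordinates -/
noncomputable def proj (A : Set ℕ) (x : ℕ →₀ ℝ) : ℕ →₀ ℝ := x.filter (fun i => i ∈ A)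

/-- the closure of a hereditary family in the Cantor set -/
def clo (𝓕 : Set (Finset ℕ)) : Set (Set ℕ) := {A | ∀ F : Finset ℕ, (F : Set ℕ) ⊆ A → F ∈ 𝓕}

/-- `𝓕`-supported normalized block basic sequence -/
def IsBlock (𝓕 : Set (Finset ℕ)) (x : ℕ → ℕ →₀ ℝ) : Prop :=
  (∀ n, ∀ i ∈ (x n).support, ∀ j ∈ (x (n + 1)).support, i < j) ∧
    (∀ n, nF 𝓕 (x n) = 1) ∧ ∀ n, (x n).support ∈ 𝓕

def NotC0 (𝓕 : Set (Finset ℕ)) : Prop :=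
  ∀ x, IsBlock 𝓕 x → ⨆ A ∈ clo 𝓕, ∑' n, ENNReal.ofReal (nF 𝓕 (proj A (x n))) = ⊤

def PropSigma (𝓕 : Set (Finset ℕ)) : Prop :=
  ∀ x, IsBlock 𝓕 x → ∃ A ∈ clo 𝓕, ∑' n, ENNReal.ofReal (l1 (proj A (x n))) = ⊤

end Pool.Agent.H87.Comb
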