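import Mathlib
import Pool.Agent.H87.CombDef

namespace Pool.Agent.H87.Comb

open Finset Filter Topology

variable {𝓕 : Set (Finset ℕ)}

lemma sum_le_l1 (x : ℕ →₀ ℝ) (F : Finset ℕ) : ∑ i ∈ F, |x i| ≤ l1 x := by
  rw [← sum_filter_of_ne (p := fun i => i ∈ x.support) fun i _ h => by simpa using h]
  exact sum_le_sum_of_subset_of_nonneg (fun i hi => (mem_filter.1 hi).2) fun _ _ _ => abs_nonneg _

lemma nF_eq {x : ℕ →₀ ℝ} (h : x.support ∈ 𝓕) : nF 𝓕 x = l1 x :=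
  IsGreatest.csSup_eq ⟨⟨_, h, rfl⟩, by rintro _ ⟨F, -, rfl⟩; exact sum_le_l1 x F⟩

lemma l1_eq (x : ℕ →₀ ℝ) {G : Finset ℕ} (h : x.support ⊆ G) : l1 x = ∑ i ∈ G, |x i| :=
  sum_subset h fun i _ hi => by simpa using hi

open Classical in
lemma proj_apply (A : Set ℕ) (x : ℕ →₀ ℝ) (i : ℕ) : proj A x i = if i ∈ A then x i else 0 :=
  Finsupp.filter_apply _ _ _

lemma proj_supp (A : Set ℕ) (x : ℕ →₀ ℝ) {i : ℕ} (h : i ∈ (proj A x).support) :
    i ∈ A ∧ i ∈ x.support := by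
  rw [Finsupp.mem_support_iff, proj_apply] at h
  by_cases h2 : i ∈ A
  · exact ⟨h2, by simpa [h2] using h⟩
  · simp [h2] at h

lemma l1_proj (A : Set ℕ) (x : ℕ →₀ ℝ) {G : Finset ℕ} (h1 : (G : Set ℕ) ⊆ A)
    (h2 : ∀ i ∈ A, i ∈ x.support → i ∈ G) : l1 (proj A x) = ∑ i ∈ G, |x i| := by
  rw [l1_eq _ fun i hi => h2 i (proj_supp A x hi).1 (proj_supp A x hi).2]
  exact sum_congr rfl fun i hi => by rw [proj_apply, if_pos (h1 hi)]

variable (hh : ∀ F ∈ 𝓕, ∀ G ⊆ F, G ∈ 𝓕)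
include hh

lemma unb (h : NotC0 𝓕) {x : ℕ → ℕ →₀ ℝ} (hx : IsBlock 𝓕 x) (C : ℝ) :
    ∃ G ∈ 𝓕, ∃ K, C < ∑ n ∈ range K, ∑ i ∈ G, |x n i| := by
  classical
  by_contra hc
  push Not at hc
  refine absurd (h x hx) (ne_top_of_le_ne_top (ENNReal.ofReal_ne_top (r := C))
    (iSup₂_le fun A hA => ENNReal.tsum_le_of_sum_range_le fun K => ?_))
  set G := ((range K).biUnion fun n => (x n).support).filter (· ∈ A) with hG
  have G1 : (G : Set ℕ) ⊆ A := fun i hi => (mem_filter.1 hi).2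
  have e : ∀ n ∈ range K, nF 𝓕 (proj A (x n)) = ∑ i ∈ G, |x n i| := fun n hn => by
    rw [nF_eq (hh _ (hx.2.2 n) _ fun i hi => (proj_supp A _ hi).2)]
    exact l1_proj A _ G1 fun i h1 h2 => mem_filter.2 ⟨mem_biUnion.2 ⟨n, hn, h2⟩, h1⟩
  rw [sum_congr rfl fun n hn => by rw [e n hn],
    ← ENNReal.ofReal_sum_of_nonneg fun n _ => sum_nonneg fun _ _ => abs_nonneg _]
  exact ENNReal.ofReal_le_ofReal (hc G (hA G G1) K)

omit hh in
lemma IsBlock.l1 {x : ℕ → ℕ →₀ ℝ} (hx : IsBlock 𝓕 x) (n : ℕ) : l1 (x n) = 1 := by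
  rw [← nF_eq (hx.2.2 n), hx.2.1]

omit hh in
lemma IsBlock.lt {x : ℕ → ℕ →₀ ℝ} (hx : IsBlock 𝓕 x) {n m : ℕ} (h : n < m) :
    ∀ i ∈ (x n).support, ∀ j ∈ (x m).support, i < j := by
  induction m, h using Nat.le_induction with
  | base => exact hx.1 n
  | succ m _ ih =>
    intro i hi j hj
    obtain ⟨k, hk⟩ : (x m).support.Nonempty := by
      rw [nonempty_iff_ne_empty]
      intro h0
      have := hx.l1 m
      simp [Comb.l1, h0] at this
    exact (ih i hi k hk).trans (hx.1 m k hk j hj)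

lemma tails (h : NotC0 𝓕) {x : ℕ → ℕ →₀ ℝ} (hx : IsBlock 𝓕 x) (c : ℕ → ℝ) (hc : ∀ n, 0 ≤ c n)
    {M : ℝ} (hM : ∀ F ∈ 𝓕, ∀ m, ∑ n ∈ range m, c n * ∑ i ∈ F, |x n i| ≤ M) {ε : ℝ} (hε : 0 < ε) :
    ∃ a, ∀ F ∈ 𝓕, ∀ b, ∑ n ∈ Ico a b, c n * ∑ i ∈ F, |x n i| ≤ ε := by
  classical
  by_contra hcon
  push Not at hcon
  choose F hF b hb using hcon
  let a : ℕ → ℕ := fun k => b^[k] 0
  have a1 : ∀ k, a (k + 1) = b (a k) := fun k => Function.iterate_succ_apply' _ _ _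
  have a2 : ∀ k, a k ≤ a (k + 1) := fun k => by
    by_contra h2
    have := hb (a k)
    rw [← a1, Ico_eq_empty_of_le (not_le.1 h2).le, sum_empty] at this
    linarith
  set σ : ℕ → ℝ := fun k => ∑ n ∈ Ico (a k) (a (k + 1)), c n * ∑ i ∈ F (a k), |x n i| with hσ
  have σ1 : ∀ k, ε < σ k := fun k => by simp only [hσ]; rw [a1]; exact hb _
  set y : ℕ → ℕ → ℝ := fun k i => ∑ n ∈ Ico (a k) (a (k + 1)), c n * |x n i| with hy
  have y0 : ∀ k i, 0 ≤ y k i := fun k i => sum_nonneg fun n _ => mul_nonneg (hc n) (abs_nonneg _)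
  have y1 : ∀ k (G : Finset ℕ), ∑ i ∈ G, y k i =
      ∑ n ∈ Ico (a k) (a (k + 1)), c n * ∑ i ∈ G, |x n i| := fun k G => by
    simp only [hy, mul_sum]; exact sum_comm
  let z : ℕ → ℕ →₀ ℝ := fun k => Finsupp.onFinset (F (a k))
    (fun i => if i ∈ F (a k) then y k i / σ k else 0) fun i hi => by
      by_contra h2; exact hi (if_neg h2)
  have z1 : ∀ k i, z k i = if i ∈ F (a k) then y k i / σ k else 0 := fun _ _ => rfl
  have z2 : ∀ k, (z k).support ⊆ F (a k) := fun k => Finsupp.support_onFinset_subset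
  have z3 : ∀ k, ∀ i ∈ (z k).support, ∃ n ∈ Ico (a k) (a (k + 1)), i ∈ (x n).support := by
    intro k i hi
    by_contra h2
    push Not at h2
    refine Finsupp.mem_support_iff.1 hi ?_
    have : y k i = 0 := sum_eq_zero fun n hn => by simp [Finsupp.notMem_support_iff.1 (h2 n hn)]
    simp [z1, this]
  have z4 : ∀ k i, |z k i| ≤ y k i / ε := fun k i => by
    rw [z1]; split_ifs
    · rw [abs_of_nonneg (div_nonneg (y0 k i) (hε.trans (σ1 k)).le)]
      exact div_le_div_of_nonneg_left (y0 k i) hε (σ1 k).le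
    · simpa using div_nonneg (y0 k i) hε.le
  have hz : IsBlock 𝓕 z := by
    refine ⟨fun k i hi j hj => ?_, fun k => ?_, fun k => hh _ (hF _) _ (z2 k)⟩
    · obtain ⟨n, h1, h2⟩ := z3 k i hi
      obtain ⟨m, h3, h4⟩ := z3 (k + 1) j hj
      exact hx.lt ((mem_Ico.1 h1).2.trans_le (mem_Ico.1 h3).1) i h2 j h4
    · rw [nF_eq (hh _ (hF _) _ (z2 k)), l1_eq _ (z2 k),
        sum_congr rfl (g := fun i => y k i / σ k) fun i hi => by
          rw [z1, if_pos hi, abs_of_nonneg (div_nonneg (y0 k i) (hε.trans (σ1 k)).le)],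
        ← sum_div, y1]
      exact div_self (hε.trans (σ1 k)).ne'
  obtain ⟨G, hG, K, hK⟩ := unb hh h hz (M / ε)
  have e : ∀ K, ∑ k ∈ range K, ∑ i ∈ G, y k i = ∑ n ∈ range (a K), c n * ∑ i ∈ G, |x n i| := by
    intro K
    induction K with
    | zero => simp [a]
    | succ K ih => rw [sum_range_succ, ih, y1, sum_range_add_sum_Ico _ (a2 K)]
  have h1 : ∑ k ∈ range K, ∑ i ∈ G, |z k i| ≤ (∑ k ∈ range K, ∑ i ∈ G, y k i) / ε := by
    rw [sum_div]
    exact sum_le_sum fun k _ => by rw [sum_div]; exact sum_le_sum fun i _ => z4 k i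
  rw [e] at h1
  exact absurd (hK.trans_le (h1.trans (div_le_div_of_nonneg_right (hM G hG _) hε.le))) (lt_irrefl _)

theorem main (hne : ∅ ∈ 𝓕) (h : NotC0 𝓕) : PropSigma 𝓕 := by
  classical
  intro x hx
  set μ : Finset ℕ → ℕ → ℝ := fun F n => ∑ i ∈ F, |x n i| with hμ
  have μ0 : ∀ F n, 0 ≤ μ F n := fun F n => sum_nonneg fun _ _ => abs_nonneg _
  have μ1 : ∀ F n, μ F n ≤ 1 := fun F n => (sum_le_l1 _ F).trans (hx.l1 n).le
  have step : ∀ (g : Finset ℕ → ℝ) (s : ℝ) (a : ℕ) (τ δ : ℝ), 0 < τ → 0 < δ →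
      (∀ F, 0 ≤ g F) → (∀ F ∈ 𝓕, g F ≤ s) → ∃ b, a < b ∧
      (∃ F ∈ 𝓕, s + δ < g F + τ * ∑ n ∈ Ico a b, μ F n) ∧
      ∀ F ∈ 𝓕, g F + τ * ∑ n ∈ Ico a b, μ F n ≤ s + δ + τ := by
    intro g s a τ δ hτ hδ g0 hg
    have ex : ∃ b, ∃ F ∈ 𝓕, s + δ < g F + τ * ∑ n ∈ Ico a b, μ F n := by
      obtain ⟨G, hG, K, hK⟩ := unb hh h hx ((s + δ) / τ + a)
      refine ⟨a + K, G, hG, ?_⟩
      have h1 : ∑ n ∈ range K, μ G n ≤ ∑ n ∈ range (a + K), μ G n :=
        sum_le_sum_of_subset_of_nonneg (range_subset_range.2 (by omega)) fun _ _ _ => μ0 _ _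
      rw [← sum_range_add_sum_Ico _ (Nat.le_add_right a K)] at h1
      have h2 := sum_le_card_nsmul (range a) (μ G) 1 fun n _ => μ1 G n
      simp only [card_range, nsmul_eq_mul, mul_one] at h2
      have h3 : (s + δ) / τ < ∑ n ∈ Ico a (a + K), μ G n := by
        have : (s + δ) / τ + a < ∑ n ∈ range K, μ G n := hK
        linarith
      rw [div_lt_iff₀' hτ] at h3
      linarith [g0 G]
    have h1 := Nat.find_spec ex
    have h2 : a < Nat.find ex := by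
      by_contra h3
      obtain ⟨F, hF, h4⟩ := h1
      rw [Ico_eq_empty_of_le (not_lt.1 h3), sum_empty] at h4
      linarith [hg F hF]
    refine ⟨_, h2, h1, fun F hF => ?_⟩
    obtain ⟨b, hb⟩ : ∃ b, Nat.find ex = b + 1 := ⟨Nat.find ex - 1, by omega⟩
    have h3 := Nat.find_min ex (show b < Nat.find ex by omega)
    push Not at h3
    rw [hb, sum_Ico_succ_top (by omega), mul_add]
    nlinarith [h3 F hF, μ1 F b]
  choose! B hB using step
  let st : ℕ → ℕ × (Finset ℕ → ℝ) := fun k => Nat.rec (0, fun _ => 0) (fun k p =>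
    (B p.2 (sSup (p.2 '' 𝓕)) p.1 ((1 / 4) ^ k) ((1 / 2) ^ k), fun F => p.2 F + (1 / 4) ^ k *
      ∑ n ∈ Ico p.1 (B p.2 (sSup (p.2 '' 𝓕)) p.1 ((1 / 4) ^ k) ((1 / 2) ^ k)), μ F n)) k
  set a : ℕ → ℕ := fun k => (st k).1 with ha
  set g : ℕ → Finset ℕ → ℝ := fun k => (st k).2 with hg
  set s : ℕ → ℝ := fun k => sSup (g k '' 𝓕) with hs
  have a1 : ∀ k, a (k + 1) = B (g k) (s k) (a k) ((1 / 4) ^ k) ((1 / 2) ^ k) := fun _ => rfl
  have g1 : ∀ k F, g (k + 1) F = g k F + (1 / 4) ^ k * ∑ n ∈ Ico (a k) (a (k + 1)), μ F n :=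
    fun _ _ => rfl
  have g0 : ∀ k F, 0 ≤ g k F := fun k F => by
    induction k with
    | zero => exact le_rfl
    | succ k ih => rw [g1]; have := sum_nonneg fun n (_ : n ∈ Ico (a k) (a (k + 1))) => μ0 F n
                   positivity
  have inv : ∀ k, (∀ F ∈ 𝓕, g k F ≤ s k) ∧ s k ≤ 4 - 4 * (1 / 2) ^ k := by
    intro k
    induction k with
    | zero => exact ⟨fun F hF => le_csSup ⟨0, by rintro _ ⟨G, -, rfl⟩; exact le_rfl⟩ ⟨F, hF, rfl⟩,
        csSup_le ⟨_, ∅, hne, rfl⟩ (by rintro _ ⟨G, -, rfl⟩; simp [hg, st])⟩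
    | succ k ih =>
      have h1 := (hB (g k) (s k) (a k) _ _ (by positivity : (0 : ℝ) < (1 / 4) ^ k)
        (by positivity : (0 : ℝ) < (1 / 2) ^ k) (g0 k) ih.1).2.2
      have h2 : ∀ y ∈ g (k + 1) '' 𝓕, y ≤ s k + (1 / 2) ^ k + (1 / 4) ^ k := by
        rintro _ ⟨G, hG, rfl⟩; exact h1 G hG
      refine ⟨fun F hF => le_csSup ⟨_, h2⟩ ⟨F, hF, rfl⟩,
        (csSup_le (s := g (k + 1) '' 𝓕) ⟨_, ∅, hne, rfl⟩ h2).trans ?_⟩
      have : (1 / 4 : ℝ) ^ k ≤ (1 / 2) ^ k := pow_le_pow_left₀ (by norm_num) (by norm_num) _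
      rw [pow_succ]; linarith [ih.2]
  have HB := fun k => hB (g k) (s k) (a k) _ _ (by positivity : (0 : ℝ) < (1 / 4) ^ k)
    (by positivity : (0 : ℝ) < (1 / 2) ^ k) (g0 k) (inv k).1
  have amono : StrictMono a := strictMono_nat_of_lt_succ fun k => (HB k).1
  have s1 : ∀ k, s k + (1 / 2) ^ k ≤ s (k + 1) := fun k => by
    obtain ⟨F, hF, h1⟩ := (HB k).2.1
    exact h1.le.trans ((inv (k + 1)).1 F hF)
  have smono : Monotone s := monotone_nat_of_le_succ fun k => by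
    linarith [s1 k, (by positivity : (0 : ℝ) < (1 / 2) ^ k)]
  have exk : ∀ n, ∃ k, n < a (k + 1) := fun n => ⟨n, (Nat.lt_succ_self n).trans_le (amono.id_le _)⟩
  set c : ℕ → ℝ := fun n => (1 / 4) ^ Nat.find (exk n) with hc
  have c0 : ∀ n, 0 ≤ c n := fun n => by positivity
  have c1 : ∀ k, ∀ n ∈ Ico (a k) (a (k + 1)), c n = (1 / 4) ^ k := fun k n hn => by
    simp only [hc]
    congr 1
    rw [Nat.find_eq_iff]
    exact ⟨(mem_Ico.1 hn).2, fun j hj => not_lt.2 ((amono.monotone hj).trans (mem_Ico.1 hn).1)⟩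
  have c2 : ∀ k n, a k ≤ n → c n ≤ (1 / 4) ^ k := fun k n hn =>
    pow_le_pow_of_le_one (by norm_num) (by norm_num) ((Nat.le_find_iff _ _).2 fun j hj =>
      not_lt.2 ((amono.monotone hj).trans hn))
  have g2 : ∀ k F, g k F = ∑ n ∈ range (a k), c n * μ F n := fun k F => by
    induction k with
    | zero => simp [ha, hg, st]
    | succ k ih =>
      rw [g1, ih, ← sum_range_add_sum_Ico _ (amono.monotone (Nat.le_succ k)), mul_sum]
      congr 1
      exact sum_congr rfl fun n hn => by rw [c1 k n hn]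
  have mono : ∀ F {m m'}, m ≤ m' → ∑ n ∈ range m, c n * μ F n ≤ ∑ n ∈ range m', c n * μ F n :=
    fun F m m' hm => sum_le_sum_of_subset_of_nonneg (range_subset_range.2 hm)
      fun n _ _ => mul_nonneg (c0 n) (μ0 F n)
  have tl := fun ε (hε : 0 < ε) => tails hh h hx c c0 (M := 4) (fun F hF m => by
    refine (mono F (amono.id_le m)).trans ?_
    rw [← g2]
    linarith [(inv m).1 F hF, (inv m).2, (by positivity : (0 : ℝ) < (1 / 2) ^ m)]) hε
  choose F hF hF2 using fun k => (HB k).2.1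
  set A : Set ℕ := {i | ∀ᶠ k in hyperfilter ℕ, i ∈ F k} with hA
  have agree : ∀ S : Finset ℕ, ∀ᶠ k in hyperfilter ℕ, ∀ i ∈ S, (i ∈ F k ↔ i ∈ A) :=
    fun S => (eventually_all_finset S).2 fun i _ => by
      by_cases hi : i ∈ A
      · exact Filter.Eventually.mono hi fun k hk => iff_of_true hk hi
      · exact (Ultrafilter.eventually_not.2 hi).mono fun k hk => iff_of_false hk hi
  have hA1 : A ∈ clo 𝓕 := fun G hG => by
    obtain ⟨k, hk⟩ := (agree G).exists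
    exact hh _ (hF k) _ fun i hi => (hk i hi).2 (hG hi)
  refine ⟨A, hA1, ENNReal.eq_top_of_forall_nnreal_le fun r => ?_⟩
  obtain ⟨k, hk⟩ := pow_unbounded_of_one_lt (2 * (r : ℝ)) (one_lt_two (α := ℝ))
  obtain ⟨m, hm⟩ := tl ((1 / 2) ^ k / 2) (by positivity)
  set m' := max m (a k)
  obtain ⟨j, hj1, hj2⟩ := ((agree ((range m').biUnion fun n => (x n).support)).and
    (Nat.hyperfilter_le_atTop (eventually_ge_atTop (max m' k)))).exists
  have e1 : ∀ n ∈ range m', l1 (proj A (x n)) = μ (F j) n := fun n hn => by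
    rw [l1_proj A _ (G := (x n).support.filter (· ∈ A)) (fun i hi => (mem_filter.1 hi).2)
      fun i h1 h2 => mem_filter.2 ⟨h2, h1⟩]
    simp only [hμ]
    rw [← sum_filter_of_ne (s := F j) (p := fun i => i ∈ (x n).support) fun i _ h => by simpa using h]
    refine sum_congr ?_ fun _ _ => rfl
    ext i
    simp only [mem_filter]
    exact ⟨fun h => ⟨(hj1 i (mem_biUnion.2 ⟨n, hn, h.1⟩)).2 h.2, h.1⟩,
      fun h => ⟨h.2, (hj1 i (mem_biUnion.2 ⟨n, hn, h.2⟩)).1 h.1⟩⟩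
  have h1 : s k + (1 / 2) ^ k ≤ g (j + 1) (F j) := by
    have := hF2 j
    rw [← a1, ← g1] at this
    rcases (le_of_max_le_right hj2).eq_or_lt with rfl | h2
    · exact this.le
    · linarith [smono (Nat.succ_le_of_lt h2), (by positivity : (0 : ℝ) < (1 / 2) ^ j), s1 k]
  have h2 : m' ≤ a (j + 1) := (le_of_max_le_left hj2).trans ((Nat.le_succ j).trans (amono.id_le _))
  rw [g2 (j + 1) (F j), ← sum_range_add_sum_Ico _ h2,
    ← sum_range_add_sum_Ico _ (le_max_right m (a k)), ← g2 k (F j)] at h1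
  have h3 : ∑ n ∈ Ico m' (a (j + 1)), c n * μ (F j) n ≤ (1 / 2) ^ k / 2 :=
    le_trans (sum_le_sum_of_subset_of_nonneg (Ico_subset_Ico_left (le_max_left _ _))
      fun n _ _ => mul_nonneg (c0 n) (μ0 _ n)) (hm (F j) (hF j) _)
  have h4 : ∑ n ∈ Ico (a k) m', c n * μ (F j) n ≤ (1 / 4) ^ k * ∑ n ∈ range m', μ (F j) n := by
    rw [mul_sum]
    refine le_trans (sum_le_sum fun n hn =>
      mul_le_mul_of_nonneg_right (c2 k n (mem_Ico.1 hn).1) (μ0 _ n))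
      (sum_le_sum_of_subset_of_nonneg (fun n hn => mem_range.2 (mem_Ico.1 hn).2)
        fun n _ _ => mul_nonneg (by positivity) (μ0 _ n))
  have h5 := (inv k).1 (F j) (hF j)
  have h6 : (r : ℝ) ≤ ∑ n ∈ range m', μ (F j) n := by
    have h7 : (1 / 4 : ℝ) ^ k * 2 ^ k = (1 / 2) ^ k := by rw [← mul_pow]; norm_num
    have h8 : (0 : ℝ) < (1 / 4) ^ k := by positivity
    refine le_of_mul_le_mul_left ?_ h8
    nlinarith
  refine le_trans ?_ (ENNReal.sum_le_tsum (range m'))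
  rw [sum_congr rfl fun n hn => by rw [e1 n hn],
    ← ENNReal.ofReal_sum_of_nonneg fun n _ => μ0 _ n, ← ENNReal.ofReal_coe_nnreal]
  exact ENNReal.ofReal_le_ofReal h6

end Pool.Agent.H87.Comb
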