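import Mathlib

/-! A simultaneous James type theorem for sigma-compact families. -/

namespace Pool.Agent.H87.Compan

open Filter Topology Set Metric

variable {Y : Type*} [NormedAddCommGroup Y] [NormedSpace ℝ Y]

def C (e : ℕ → Y) (A : Set ℕ) : Set Y := closure (convexHull ℝ (e '' A))

noncomputable abbrev U : Ultrafilter ℕ := hyperfilter ℕ

variable {e : ℕ → Y} {L : ℝ}

lemma C_conv (A : Set ℕ) : Convex ℝ (C e A) := (convex_convexHull _ _).closure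

lemma C_mem {A : Set ℕ} {j : ℕ} (h : j ∈ A) : e j ∈ C e A :=
  subset_closure (subset_convexHull _ _ ⟨j, h, rfl⟩)

lemma C_sub {A : Set ℕ} {D : Set Y} (h1 : IsClosed D) (h2 : Convex ℝ D) (h3 : ∀ j ∈ A, e j ∈ D) :
    C e A ⊆ D :=
  closure_minimal (convexHull_min (by rintro _ ⟨j, hj, rfl⟩; exact h3 j hj) h2) h1

lemma C_mono {A B : Set ℕ} (h : A ⊆ B) : C e A ⊆ C e B :=
  C_sub isClosed_closure (C_conv _) fun _ hj => C_mem (h hj)

lemma C_norm (he : ∀ j, ‖e j‖ ≤ 1) {A : Set ℕ} {u : Y} (h : u ∈ C e A) : ‖u‖ ≤ 1 :=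
  mem_closedBall_zero_iff.1 (C_sub isClosed_closedBall (convex_closedBall _ _)
    (fun j _ => mem_closedBall_zero_iff.2 (he j)) h)

lemma C_ne {A : Set ℕ} (h : A ∈ U) : (C e A).Nonempty :=
  let ⟨_, hj⟩ := Ultrafilter.nonempty_of_mem h
  ⟨_, C_mem hj⟩

lemma Ici_U (n : ℕ) : Ici n ∈ U :=
  mem_hyperfilter_of_finite_compl (by simpa using finite_Iio n)

lemma ulim (he : ∀ j, ‖e j‖ ≤ 1) (Φ : Y →L[ℝ] ℝ) {κ : ℝ} (hκ : 0 < κ) :
    ∃ l, ∃ A ∈ U, ∀ u ∈ C e A, l - κ ≤ Φ u ∧ Φ u ≤ l + κ := by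
  obtain ⟨l, -, hl⟩ := (isCompact_closedBall (0 : ℝ) ‖Φ‖).ultrafilter_le_nhds
    (U.map fun j => Φ (e j)) (by
      rw [le_principal_iff, Ultrafilter.coe_map, mem_map]
      exact univ_mem' fun j => mem_closedBall_zero_iff.2
        ((Φ.le_opNorm _).trans (mul_le_of_le_one_right (norm_nonneg _) (he j))))
  refine ⟨l, _, hl (Icc_mem_nhds (a := l - κ) (b := l + κ) (by linarith) (by linarith)), ?_⟩
  exact C_sub (D := Φ ⁻¹' Icc (l - κ) (l + κ)) (isClosed_Icc.preimage Φ.continuous)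
    ((convex_Icc _ _).linear_preimage (Φ : Y →ₗ[ℝ] ℝ)) fun j hj => hj

def Good (e : ℕ → Y) (L : ℝ) (φ : Y → ℝ) : Prop :=
  ConvexOn ℝ univ φ ∧ (∀ h k, φ h ≤ φ k + L * ‖h - k‖) ∧
    ∀ A ∈ U, ∀ η > 0, ∃ h ∈ C e A, φ h < η

lemma lipc {φ : Y → ℝ} (hL : 0 ≤ L) (h : ∀ h k, φ h ≤ φ k + L * ‖h - k‖) : Continuous φ :=
  (LipschitzWith.of_le_add_mul' L fun x y => by
    rw [dist_eq_norm]; exact h x y).continuous

lemma Good.max (he : ∀ j, ‖e j‖ ≤ 1) (hL : 0 < L) {φ ψ : Y → ℝ} (h1 : Good e L φ)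
    (h2 : Good e L ψ) : Good e L fun h => max (φ h) (ψ h) := by
  refine ⟨h1.1.sup h2.1, fun h k => max_le ((h1.2.1 h k).trans (by gcongr; exact le_max_left _ _))
    ((h2.2.1 h k).trans (by gcongr; exact le_max_right _ _)), fun A hA η hη => ?_⟩
  by_contra! H
  have c1 : Convex ℝ {a | φ a < η} := by simpa using h1.1.convex_lt η
  have c2 : Convex ℝ {a | ψ a < η} := by simpa using h2.1.convex_lt η
  obtain ⟨Φ, c, h3, h4⟩ := geometric_hahn_banach_open (s := {a | φ a < η} ×ˢ {a | ψ a < η})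
    (t := (LinearMap.id.prod LinearMap.id : Y →ₗ[ℝ] Y × Y) '' C e A) (c1.prod c2)
    ((isOpen_lt (lipc hL.le h1.2.1) continuous_const).prod
      (isOpen_lt (lipc hL.le h2.2.1) continuous_const))
    ((C_conv A).linear_image _) (disjoint_left.2 (by
      rintro _ ⟨a1, a2⟩ ⟨h, hh, rfl⟩
      exact (max_lt a1 a2).not_ge (H h hh)))
  obtain ⟨a0, -, ha0⟩ := h1.2.2 A hA η hη
  obtain ⟨b0, -, hb0⟩ := h2.2.2 A hA η hη
  obtain ⟨k, hk⟩ := C_ne (e := e) hA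
  have h5 : 0 < Φ ((k, k) - (a0, b0)) := by
    rw [map_sub]
    linarith [h3 (a0, b0) ⟨ha0, hb0⟩, show c ≤ Φ (k, k) from h4 _ ⟨k, hk, rfl⟩]
  obtain ⟨z, hz1, hz2⟩ : ∃ z : Y × Y, 0 < Φ z ∧ L * ‖z‖ ≤ η / 2 := by
    set w := (k, k) - (a0, b0)
    have : 0 < L * (‖w‖ + 1) := by positivity
    refine ⟨(η / 2 / (L * (‖w‖ + 1))) • w, by rw [map_smul, smul_eq_mul]; positivity, ?_⟩
    rw [norm_smul, Real.norm_of_nonneg (by positivity), ← mul_assoc, mul_right_comm, mul_comm,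
      div_mul_eq_mul_div, div_le_iff₀ this]
    gcongr
    linarith
  obtain ⟨l1, A1, hA1, h6⟩ := ulim he (Φ.comp (.inl ℝ Y Y)) (show 0 < Φ z / 4 by linarith)
  obtain ⟨l2, A2, hA2, h7⟩ := ulim he (Φ.comp (.inr ℝ Y Y)) (show 0 < Φ z / 4 by linarith)
  obtain ⟨a, ha1, ha2⟩ := h1.2.2 A1 hA1 _ (half_pos hη)
  obtain ⟨b, hb1, hb2⟩ := h2.2.2 A2 hA2 _ (half_pos hη)
  obtain ⟨j, ⟨j1, j2⟩, j3⟩ := Ultrafilter.nonempty_of_mem (inter_mem (inter_mem hA hA1) hA2)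
  have h8 := h3 ((a, b) + z) ⟨by
    have := h1.2.1 (a + z.1) a
    rw [add_sub_cancel_left] at this
    have h9 := mul_le_mul_of_nonneg_left (norm_fst_le z) hL.le
    show φ (a + z.1) < η
    linarith, by
    have := h2.2.1 (b + z.2) b
    rw [add_sub_cancel_left] at this
    have h9 := mul_le_mul_of_nonneg_left (norm_snd_le z) hL.le
    show ψ (b + z.2) < η
    linarith⟩
  have h9 : ∀ u v : Y, Φ (u, v) = Φ (u, 0) + Φ (0, v) := fun u v => by rw [← map_add]; simp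
  have a1 : l1 - Φ z / 4 ≤ Φ (a, 0) := (h6 a ha1).1
  have a2 : l2 - Φ z / 4 ≤ Φ (0, b) := (h7 b hb1).1
  have a3 : Φ (e j, 0) ≤ l1 + Φ z / 4 := (h6 _ (C_mem j2)).2
  have a4 : Φ (0, e j) ≤ l2 + Φ z / 4 := (h7 _ (C_mem j3)).2
  have a5 : c ≤ Φ (e j, e j) := h4 _ ⟨_, C_mem j1, rfl⟩
  rw [map_add, h9] at h8
  rw [h9] at a5
  linarith

variable {S : Y → ℝ}

lemma simul (he : ∀ j, ‖e j‖ ≤ 1) (hL : 0 < L) (s1 : ConvexOn ℝ univ S)
    (s2 : ∀ F G, S F ≤ S G + L * ‖F - G‖) {K : Set Y} (hK : IsCompact K) {μ ε : ℝ} (hμ : 0 < μ)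
    (hε : 0 < ε) : ∃ φ, Good e (L * μ) φ ∧ ∃ A ∈ U, ∀ F ∈ K, ∀ h, ∀ u ∈ C e A,
      S (F + μ • h) ≤ S (F + μ • u) + φ h + ε := by
  refine hK.induction_on (p := fun K => ∃ φ, Good e (L * μ) φ ∧ ∃ A ∈ U, ∀ F ∈ K, ∀ h,
    ∀ u ∈ C e A, S (F + μ • h) ≤ S (F + μ • u) + φ h + ε) ?_ ?_ ?_ ?_
  · exact ⟨fun _ => 0, ⟨convexOn_const _ convex_univ, fun h k => by positivity, fun A hA η hη =>
      let ⟨k, hk⟩ := C_ne (e := e) hA; ⟨k, hk, hη⟩⟩, univ, univ_mem, fun F hF => hF.elim⟩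
  · rintro s t hst ⟨φ, h1, A, hA, h2⟩
    exact ⟨φ, h1, A, hA, fun F hF => h2 F (hst hF)⟩
  · rintro s t ⟨φ, h1, A, hA, h2⟩ ⟨ψ, h3, B, hB, h4⟩
    refine ⟨_, h1.max he (by positivity) h3, A ∩ B, inter_mem hA hB, ?_⟩
    rintro F (hF | hF) h u hu
    · linarith [h2 F hF h u (C_mono inter_subset_left hu), le_max_left (φ h) (ψ h)]
    · linarith [h4 F hF h u (C_mono inter_subset_right hu), le_max_right (φ h) (ψ h)]
  intro F0 _
  have h0 : ∀ h k, S (F0 + μ • h) ≤ S (F0 + μ • k) + L * μ * ‖h - k‖ := fun h k => by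
    have := s2 (F0 + μ • h) (F0 + μ • k)
    rwa [add_sub_add_left_eq_sub, ← smul_sub, norm_smul, Real.norm_of_nonneg hμ.le,
      ← mul_assoc] at this
  set M : Set ℝ := {m | ∃ A ∈ U, ∀ u ∈ C e A, m ≤ S (F0 + μ • u)} with hM
  have hμL : 0 < L * μ := by positivity
  have m1 : M.Nonempty := ⟨S (F0 + μ • (0 : Y)) - L * μ, univ, univ_mem, fun u hu => by
    have := h0 0 u
    rw [zero_sub, norm_neg] at this
    nlinarith [C_norm he hu]⟩
  have m2 : BddAbove M := ⟨S (F0 + μ • (0 : Y)) + L * μ, by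
    rintro m ⟨A, hA, h⟩
    obtain ⟨u, hu⟩ := C_ne (e := e) hA
    have := h0 u 0
    rw [sub_zero] at this
    nlinarith [C_norm he hu, h u hu]⟩
  obtain ⟨m, ⟨A, hA, h1⟩, h2⟩ := exists_lt_of_lt_csSup m1
    (show sSup M - ε / 2 < sSup M by linarith)
  refine ⟨ball F0 (ε / 4 / L), mem_nhdsWithin_of_mem_nhds (ball_mem_nhds _ (by positivity)),
    fun h => S (F0 + μ • h) - sSup M, ⟨⟨convex_univ, fun x _ y _ a b ha hb hab => ?_⟩,
      fun h k => by linarith [h0 h k], fun B hB η hη => ?_⟩, A, hA, fun F hF h u hu => ?_⟩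
  · have := s1.2 (mem_univ (F0 + μ • x)) (mem_univ (F0 + μ • y)) ha hb hab
    have h3 : a • (F0 + μ • x) + b • (F0 + μ • y) = F0 + μ • (a • x + b • y) := by
      obtain rfl : b = 1 - a := by linarith
      module
    rw [h3] at this
    obtain rfl : b = 1 - a := by linarith
    simp only [smul_eq_mul] at this ⊢
    linarith
  · by_contra! H
    have := le_csSup m2 (show η + sSup M ∈ M from ⟨B, hB, fun u hu => by linarith [H u hu]⟩)
    linarith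
  · rw [mem_ball, dist_eq_norm, lt_div_iff₀' hL] at hF
    have a1 := s2 (F + μ • h) (F0 + μ • h)
    have a2 := s2 (F0 + μ • u) (F + μ • u)
    rw [add_sub_add_right_eq_sub] at a1 a2
    rw [norm_sub_rev] at a2
    linarith [h1 u hu]

lemma gapK (hL : 0 < L) (s2 : ∀ F G, S F ≤ S G + L * ‖F - G‖) {μ : ℝ}
    (gap : ∀ F, ∃ γ > 0, ∃ n, ∀ u ∈ C e (Ici n), S F + γ ≤ S (F + μ • u))
    {K : Set Y} (hK : IsCompact K) :
    ∃ γ > 0, ∃ n, ∀ F ∈ K, ∀ u ∈ C e (Ici n), S F + γ ≤ S (F + μ • u) := by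
  refine hK.induction_on (p := fun K => ∃ γ > 0, ∃ n, ∀ F ∈ K, ∀ u ∈ C e (Ici n),
    S F + γ ≤ S (F + μ • u)) ⟨1, one_pos, 0, fun F hF => hF.elim⟩ ?_ ?_ ?_
  · rintro s t hst ⟨γ, h1, n, h2⟩
    exact ⟨γ, h1, n, fun F hF => h2 F (hst hF)⟩
  · rintro s t ⟨γ, h1, n, h2⟩ ⟨γ', h3, n', h4⟩
    refine ⟨min γ γ', lt_min h1 h3, max n n', ?_⟩
    rintro F (hF | hF) u hu
    · linarith [h2 F hF u (C_mono (Ici_subset_Ici.2 (le_max_left _ _)) hu), min_le_left γ γ']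
    · linarith [h4 F hF u (C_mono (Ici_subset_Ici.2 (le_max_right _ _)) hu), min_le_right γ γ']
  intro F0 _
  obtain ⟨γ, h1, n, h2⟩ := gap F0
  refine ⟨ball F0 (γ / 4 / L), mem_nhdsWithin_of_mem_nhds (ball_mem_nhds _ (by positivity)),
    γ / 2, half_pos h1, n, fun F hF u hu => ?_⟩
  rw [mem_ball, dist_eq_norm, lt_div_iff₀' hL] at hF
  have a1 := s2 F F0
  have a2 := s2 (F0 + μ • u) (F + μ • u)
  rw [add_sub_add_right_eq_sub, norm_sub_rev] at a2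
  linarith [h2 u hu]

theorem james [CompleteSpace Y] (he : ∀ j, ‖e j‖ ≤ 1) (hL : 0 < L) (s1 : ConvexOn ℝ univ S)
    (s2 : ∀ F G, S F ≤ S G + L * ‖F - G‖)
    (gap : ∀ μ > (0 : ℝ), ∀ F, ∃ γ > 0, ∃ n, ∀ u ∈ C e (Ici n), S F + γ ≤ S (F + μ • u))
    {K : ℕ → Set Y} (hK : ∀ n, IsCompact (K n)) (hm : Monotone K) {θ : ℝ} (hθ : 0 < θ) :
    ∃ h : Y, ‖h‖ ≤ θ ∧ ∀ m, ∀ F ∈ K m, ∀ ξ : Y →L[ℝ] ℝ, (∀ G, ξ G ≤ S G) →
      Tendsto (fun j => ξ (e j)) atTop (𝓝 0) → ξ (F + h) < S (F + h) := by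
  set μ : ℕ → ℝ := fun k => θ / 2 ^ k with hμ
  have μ0 : ∀ k, 0 < μ k := fun k => by positivity
  have μ1 : ∀ k, μ (k + 1) = μ k / 2 := fun k => by simp only [hμ]; ring
  have st : ∀ (k : ℕ) (s : {s : Y × Set ℕ × ℝ // s.2.1 ∈ U ∧ 0 < s.2.2}),
      ∃ t : {s : Y × Set ℕ × ℝ // s.2.1 ∈ U ∧ 0 < s.2.2}, ∃ h ∈ C e t.1.2.1,
        t.1.2.1 ⊆ s.1.2.1 ∩ Ici k ∧ t.1.1 = s.1.1 + (μ k / 2) • h ∧ t.1.2.2 ≤ s.1.2.2 / 2 ∧
        ∀ F ∈ K k, ∀ u ∈ C e t.1.2.1,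
          S (F + s.1.1) + 4 * (μ k * t.1.2.2) ≤ S (F + s.1.1 + μ k • u) ∧
          S (F + s.1.1 + μ k • h) ≤ S (F + s.1.1 + μ k • u) + μ k * t.1.2.2 := by
    rintro k ⟨⟨v, A, E⟩, hA, hE⟩
    have hK' : IsCompact ((· + v) '' K k) := (hK k).image (continuous_add_const v)
    obtain ⟨γ, h1, n, h2⟩ := gapK hL s2 (gap _ (μ0 k)) hK'
    have := μ0 k
    obtain ⟨E', e1, e2, e3⟩ : ∃ E' > 0, E' ≤ E / 2 ∧ E' ≤ γ / (4 * μ k) :=
      ⟨min _ _, lt_min (half_pos hE) (by positivity), min_le_left _ _, min_le_right _ _⟩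
    obtain ⟨φ, h3, B, hB, h4⟩ := simul he hL s1 s2 hK' this
      (show 0 < μ k * E' / 2 by positivity)
    have hA' : A ∩ Ici k ∩ (B ∩ Ici n) ∈ U :=
      inter_mem (inter_mem hA (Ici_U k)) (inter_mem hB (Ici_U n))
    obtain ⟨h, h5, h6⟩ := h3.2.2 _ hA' _ (show 0 < μ k * E' / 2 by positivity)
    refine ⟨⟨(v + (μ k / 2) • h, _, E'), hA', e1⟩, h, h5, inter_subset_left, rfl, e2,
      fun F hF u hu => ⟨?_, ?_⟩⟩
    · rw [le_div_iff₀ (by positivity)] at e3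
      have := h2 _ ⟨F, hF, rfl⟩ u (C_mono (fun _ h => h.2.2) hu)
      simp only at this ⊢
      linarith
    · have := h4 _ ⟨F, hF, rfl⟩ h u (C_mono (fun _ h => h.2.1) hu)
      simp only at this ⊢
      linarith
  choose T hh t1 t2 t3 t4 t5 using st
  let s : ℕ → {s : Y × Set ℕ × ℝ // s.2.1 ∈ U ∧ 0 < s.2.2} := fun n =>
    Nat.rec ⟨(0, univ, 1), univ_mem, one_pos⟩ T n
  have hs : ∀ n, s (n + 1) = T n (s n) := fun n => rfl
  set Z : ℕ → Set Y := fun k => {g | (μ k)⁻¹ • (g - (s k).1.1) ∈ C e (s (k + 1)).1.2.1} with hZ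
  have z0 : ∀ k g, (μ k)⁻¹ • (g - (s k).1.1) =
      (1 / 2 : ℝ) • hh k (s k) + (1 / 2 : ℝ) • (μ (k + 1))⁻¹ • (g - (s (k + 1)).1.1) := by
    intro k g
    have := (μ0 k).ne'
    rw [hs, t3, μ1]
    match_scalars <;> field_simp
    ring
  have z1 : Antitone Z := antitone_nat_of_succ_le fun k g hg => by
    show _ ∈ C e _
    rw [z0]
    exact C_conv _ (t1 k (s k)) (C_mono ((t2 (k + 1) _).trans inter_subset_left) hg)
      (by norm_num) (by norm_num) (by norm_num)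
  have z2 : ∀ k, Z k ⊆ closedBall (s k).1.1 (μ k) := fun k g hg => by
    have := C_norm he hg
    rw [norm_smul, norm_inv, Real.norm_of_nonneg (μ0 k).le, inv_mul_le_iff₀ (μ0 k), mul_one] at this
    exact mem_closedBall_iff_norm.2 this
  have μt : Tendsto μ atTop (𝓝 0) :=
    tendsto_const_nhds.div_atTop (tendsto_pow_atTop_atTop_of_one_lt one_lt_two)
  obtain ⟨g, hg⟩ := Metric.nonempty_iInter_of_nonempty_biInter (s := Z)
    (fun k => isClosed_closure.preimage (by fun_prop))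
    (fun k => isBounded_closedBall.subset (z2 k))
    (fun N => ⟨(s N).1.1 + μ N • hh N (s N), mem_iInter₂.2 fun n hn => z1 hn (by
      show _ ∈ C e _
      rw [add_sub_cancel_left, smul_smul, inv_mul_cancel₀ (μ0 N).ne', one_smul]
      exact t1 N _)⟩)
    (squeeze_zero (fun n => diam_nonneg)
      (fun n => (diam_mono (z2 n) isBounded_closedBall).trans (diam_closedBall (μ0 n).le))
      (by simpa using μt.const_mul 2))
  rw [mem_iInter] at hg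
  refine ⟨g, by simpa [hμ, s] using z2 0 (hg 0), fun m F hF ξ x1 x2 => ?_⟩
  by_contra! H
  set u : ℕ → Y := fun k => (μ k)⁻¹ • (g - (s k).1.1) with hu
  have u1 : ∀ k, F + (s k).1.1 + μ k • u k = F + g := fun k => by
    simp only [hu]
    rw [smul_smul, mul_inv_cancel₀ (μ0 k).ne', one_smul]; abel
  have u2 : ∀ k, ξ (F + g) = ξ (F + (s k).1.1) + μ k * ξ (u k) := fun k => by
    rw [← u1 k, map_add, map_smul, smul_eq_mul]
  have u3 : ∀ k, m ≤ k → 2 * (s (m + 1)).1.2.2 + 2 * (s (k + 1)).1.2.2 ≤ ξ (u k) := by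
    intro k hk
    induction hk with
    | refl =>
      have a1 := (t5 m (s m) F hF _ (hg m)).1
      have a2 := x1 (F + (s m).1.1)
      rw [← hs] at a1
      change _ ≤ S (_ + _ • u m) at a1
      rw [u1] at a1
      refine le_of_mul_le_mul_left ?_ (μ0 m)
      linarith [u2 m]
    | @step k hk ih =>
      have a1 := (t5 k (s k) F (hm hk hF) _ (hg k)).2
      have a2 := x1 (F + (s k).1.1 + μ k • hh k (s k))
      rw [← hs] at a1
      change _ ≤ S (_ + _ • u k) + _ at a1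
      rw [u1] at a1
      rw [map_add, map_smul, smul_eq_mul] at a2
      have a3 : ξ (hh k (s k)) ≤ ξ (u k) + (s (k + 1)).1.2.2 :=
        le_of_mul_le_mul_left (by linarith [u2 k]) (μ0 k)
      have a4 : ξ (u k) = 1 / 2 * ξ (hh k (s k)) + 1 / 2 * ξ (u (k + 1)) := by
        simp only [hu]
        rw [z0 k g, map_add, map_smul, map_smul, smul_eq_mul, smul_eq_mul]
      have a5 := t4 (k + 1) (s (k + 1))
      rw [← hs] at a5
      show _ + 2 * (s (k + 1 + 1)).1.2.2 ≤ ξ (u (k + 1))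
      linarith
  obtain ⟨N, hN⟩ := eventually_atTop.1 (x2.eventually (gt_mem_nhds (s (m + 1)).2.2))
  have a1 := u3 (max m N) (le_max_left _ _)
  have a2 : ξ (u (max m N)) ≤ (s (m + 1)).1.2.2 :=
    C_sub (D := {y | ξ y ≤ (s (m + 1)).1.2.2}) (isClosed_le ξ.continuous continuous_const)
      (convex_halfSpace_le ξ.isLinear _)
      (fun j hj => (hN j ((le_max_right _ _).trans (t2 _ _ hj).2)).le) (hg (max m N))
  linarith [(s (m + 1)).2.2, (s (max m N + 1)).2.2]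

end Pool.Agent.H87.Compan
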