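import Mathlib
import Pool.Agent.H87.Compan1
import Pool.Agent.H87.C0I

/-! Flat norms on `c₀` have a companion norm. -/

namespace Pool.Agent.H87.Compan

open Filter Topology Set Metric
open Pool.Agent.H87.C0I

section gen

variable {X : Type} [NormedAddCommGroup X] [NormedSpace ℝ X] {p : Seminorm ℝ X}

noncomputable def S (p : Seminorm ℝ X) (F : X →L[ℝ] ℝ) : ℝ := ⨆ x : {x // p x ≤ 1}, F x

instance : Nonempty {x // p x ≤ 1} := ⟨⟨0, by simp⟩⟩

lemma ap_le (hp : ∀ x, ‖x‖ ≤ 2 * p x) (F : X →L[ℝ] ℝ) {x : X} (hx : p x ≤ 1) :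
    F x ≤ 2 * ‖F‖ :=
  (le_abs_self _).trans ((F.le_opNorm x).trans (by nlinarith [hp x, norm_nonneg F]))

lemma le_S (hp : ∀ x, ‖x‖ ≤ 2 * p x) (F : X →L[ℝ] ℝ) {x : X} (hx : p x ≤ 1) : F x ≤ S p F :=
  le_ciSup (f := fun x : {x // p x ≤ 1} => F x)
    ⟨2 * ‖F‖, by rintro _ ⟨y, rfl⟩; exact ap_le hp F y.2⟩ ⟨x, hx⟩

lemma S_le {F : X →L[ℝ] ℝ} {t : ℝ} (h : ∀ x, p x ≤ 1 → F x ≤ t) : S p F ≤ t :=
  ciSup_le fun x => h x x.2

lemma lt_S {F : X →L[ℝ] ℝ} {t : ℝ} (h : t < S p F) : ∃ x, p x ≤ 1 ∧ t < F x := by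
  by_contra! H
  exact h.not_ge (S_le H)

lemma S_lip (hp : ∀ x, ‖x‖ ≤ 2 * p x) (F G : X →L[ℝ] ℝ) : S p F ≤ S p G + 2 * ‖F - G‖ :=
  S_le fun x hx => by
    have := ap_le hp (F - G) hx
    rw [sub_apply] at this
    linarith [le_S hp G hx]

lemma S_conv (hp : ∀ x, ‖x‖ ≤ 2 * p x) : ConvexOn ℝ univ (S p) :=
  ⟨convex_univ, fun F _ G _ a b ha hb _ => S_le fun x hx => by
    simp only [add_apply, smul_apply, smul_eq_mul]
    gcongr
    exacts [le_S hp F hx, le_S hp G hx]⟩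

lemma S_hom (hp : ∀ x, ‖x‖ ≤ 2 * p x) (F : X →L[ℝ] ℝ) {x : X} {l : ℝ} (hl : 0 < l)
    (hx : p x ≤ l) : F x ≤ l * S p F := by
  have := le_S hp F (x := l⁻¹ • x) (by
    rw [map_smul_eq_mul, norm_inv, Real.norm_of_nonneg hl.le]
    exact inv_mul_le_one_of_le₀ hx hl.le)
  rwa [map_smul, smul_eq_mul, inv_mul_le_iff₀ hl] at this

lemma noatt (hp : ∀ x, ‖x‖ ≤ 2 * p x) {e : ℕ → X →L[ℝ] ℝ} (he : ∀ j, ‖e j‖ ≤ 1)
    (he2 : ∀ x, Tendsto (fun j => e j x) atTop (𝓝 0))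
    (gap : ∀ μ > (0 : ℝ), ∀ F, ∃ γ > 0, ∃ n, ∀ u ∈ C e (Ici n), S p F + γ ≤ S p (F + μ • u))
    (s : Finset (X →L[ℝ] ℝ)) (g : X →L[ℝ] ℝ) {θ : ℝ} (hθ : 0 < θ) :
    ∃ h : X →L[ℝ] ℝ, ‖h‖ ≤ θ ∧ ∀ G ∈ Submodule.span ℝ (s : Set (X →L[ℝ] ℝ)), ∀ x, p x ≤ 1 →
      ∃ z, p z ≤ 1 ∧ (g + h + G) x < (g + h + G) z := by
  set V := Submodule.span ℝ (s : Set (X →L[ℝ] ℝ))
  have : ProperSpace V := FiniteDimensional.proper ℝ V
  obtain ⟨h, h1, h2⟩ := james he two_pos (S_conv hp) (S_lip hp) gap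
    (K := fun m => (fun v : V => g + v) '' closedBall 0 m)
    (fun m => (isCompact_closedBall _ _).image (by fun_prop))
    (fun a b hab => image_mono (closedBall_subset_closedBall (Nat.cast_le.2 hab))) hθ
  refine ⟨h, h1, fun G hG x hx => ?_⟩
  obtain ⟨m, hm⟩ := exists_nat_ge (dist (⟨G, hG⟩ : V) 0)
  have := h2 m _ ⟨⟨G, hG⟩, hm, rfl⟩ (ContinuousLinearMap.apply ℝ ℝ x)
    (fun G => le_S hp G hx) (he2 x)
  rw [add_right_comm g h G]
  exact lt_S this

lemma exf (hp : ∀ x, ‖x‖ ≤ 2 * p x) {e : ℕ → X →L[ℝ] ℝ} (he : ∀ j, ‖e j‖ ≤ 1)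
    (he2 : ∀ x, Tendsto (fun j => e j x) atTop (𝓝 0))
    (gap : ∀ μ > (0 : ℝ), ∀ F, ∃ γ > 0, ∃ n, ∀ u ∈ C e (Ici n), S p F + γ ≤ S p (F + μ • u)) :
    ∃ f : ℕ → X →L[ℝ] ℝ, (∀ n, ‖f n - e n‖ ≤ 1 / ((n : ℝ) + 1) / 2) ∧
      ∀ (N : ℕ) (a : Fin N → ℝ) (x : X), p x ≤ 1 →
        (∀ z, p z ≤ 1 → (∑ i, a i • f i) z ≤ (∑ i, a i • f i) x) → ∑ i, a i • f i = 0 := by
  classical
  choose H h1 h2 using fun s (n : ℕ) => noatt hp he he2 gap s (e n)
    (half_pos (Nat.one_div_pos_of_nat (n := n)))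
  let s : ℕ → Finset (X →L[ℝ] ℝ) := fun n => Nat.rec ∅ (fun n s => insert (e n + H s n) s) n
  have hs : ∀ n, s (n + 1) = insert (e n + H (s n) n) (s n) := fun n => rfl
  have h3 : Monotone s := monotone_nat_of_le_succ fun n => Finset.subset_insert _ _
  have h4 : ∀ n, ∀ G ∈ Submodule.span ℝ (SetLike.coe (s n)), ∀ x, p x ≤ 1 →
      (∀ z, p z ≤ 1 → G z ≤ G x) → G = 0 := by
    intro n
    induction n with
    | zero => intro G hG _ _ _; simpa [s] using hG
    | succ n ih =>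
      intro G hG x hx h
      rw [hs, Finset.coe_insert, Submodule.mem_span_insert] at hG
      obtain ⟨a, G', hG', rfl⟩ := hG
      have h5 : a ≠ 0 → a • (e n + H (s n) n) + G' = a • (e n + H (s n) n + a⁻¹ • G') :=
        fun ha => by rw [smul_add a _ (a⁻¹ • G'), smul_smul, mul_inv_cancel₀ ha, one_smul]
      rcases lt_trichotomy a 0 with ha | rfl | ha
      · obtain ⟨z, z1, z2⟩ := h2 (s n) n _ (Submodule.smul_mem _ a⁻¹ hG') (-x) (by simpa using hx)
        have := h (-z) (by simpa using z1)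
        rw [h5 ha.ne, smul_apply, smul_apply, map_neg,
          smul_eq_mul, smul_eq_mul] at this
        rw [map_neg] at z2
        nlinarith
      · rw [zero_smul, zero_add] at h ⊢
        exact ih G' hG' x hx h
      · obtain ⟨z, z1, z2⟩ := h2 (s n) n _ (Submodule.smul_mem _ a⁻¹ hG') x hx
        have := h z z1
        rw [h5 ha.ne', smul_apply, smul_apply,
          smul_eq_mul, smul_eq_mul] at this
        nlinarith
  refine ⟨fun n => e n + H (s n) n, fun n => by simpa using h1 (s n) n, fun N a x hx h =>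
    h4 N _ (Submodule.sum_mem _ fun i _ => Submodule.smul_mem _ _ (Submodule.subset_span
      (h3 (Nat.succ_le_of_lt i.2) (Finset.mem_insert_self _ _)))) x hx h⟩

end gen

abbrev X : Type := c0 ℕ

def Flat (p : Seminorm ℝ X) : Prop :=
  ∀ ε > 0, ∃ c > 0, ∀ x, p x ≤ 1 → ∃ b y : X, x = b + y ∧ ‖y‖ ≤ c ∧
    ∀ y', ‖y'‖ ≤ c → p (b + y') ≤ 1 + ε * c

variable {p : Seminorm ℝ X}

lemma tz (x : X) : Tendsto x atTop (𝓝 0) := Nat.cofinite_eq_atTop ▸ tendsto_zero x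

lemma ev_norm (j : ℕ) : ‖(ev j : X →L[ℝ] ℝ)‖ ≤ 1 :=
  ContinuousLinearMap.opNorm_le_bound _ zero_le_one fun x => by
    rw [one_mul]; exact apply_le x j

lemma flat_gap (hp : ∀ x, ‖x‖ ≤ 2 * p x) (hf : Flat p) (μ : ℝ) (hμ : μ > 0) (F : X →L[ℝ] ℝ) :
    ∃ γ > 0, ∃ n, ∀ u ∈ C (ev : ℕ → X →L[ℝ] ℝ) (Ici n), S p F + γ ≤ S p (F + μ • u) := by
  have hF := norm_nonneg F
  set W := 2 * (‖F‖ + μ) with hW
  have W0 : 0 < W := by positivity
  obtain ⟨c, hc, h1⟩ := hf (μ / (16 * W)) (by positivity)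
  obtain ⟨x, hx, h2⟩ := lt_S (show S p F - μ * c / 32 < S p F by linarith [mul_pos hμ hc])
  obtain ⟨b, y, rfl, h3, h4⟩ := h1 x hx
  obtain ⟨ρ, r0, r1, r2⟩ : ∃ ρ > 0, ρ ≤ c / 8 ∧ ρ ≤ μ * c / 32 / (‖F‖ + 1) :=
    ⟨min _ _, lt_min (by positivity) (by positivity), min_le_left _ _, min_le_right _ _⟩
  rw [le_div_iff₀ (by positivity)] at r2
  obtain ⟨n, hn⟩ := eventually_atTop.1
    (((tz b).eventually (Icc_mem_nhds (neg_lt_zero.2 r0) r0)).and
      ((tz y).eventually (Icc_mem_nhds (neg_lt_zero.2 r0) r0)))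
  have h5 : ∀ G : X →L[ℝ] ℝ, ‖G‖ ≤ ‖F‖ + μ → ∀ y', ‖y'‖ ≤ c →
      G (b + y') ≤ S p G + μ * c / 16 := fun G hG y' hy' => by
    have a1 := S_hom hp G (by positivity) (h4 y' hy')
    have a2 : S p G ≤ W := S_le fun x hx => (ap_le hp G hx).trans (by linarith)
    have a3 : μ / (16 * W) * c * W = μ * c / 16 := by field_simp
    have a4 := mul_le_mul_of_nonneg_left a2 (show 0 ≤ μ / (16 * W) * c by positivity)
    linarith
  refine ⟨μ * c / 2, by positivity, n, closure_minimal (t := {u | _ ≤ S p (F + μ • u)})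
    (fun u hu => ?_) (isClosed_le continuous_const
      ((lipc zero_le_two (S_lip hp)).comp (by fun_prop)))⟩
  have u1 : ‖u‖ ≤ 1 := C_norm ev_norm (subset_closure hu)
  obtain ⟨n', h6⟩ : ∃ n', ∀ (z : X) t, (∀ j ∈ Finset.Ico n n', t ≤ z j) → t ≤ u z := by
    refine convexHull_min (t := {u : X →L[ℝ] ℝ | ∃ n', ∀ (z : X) t,
      (∀ j ∈ Finset.Ico n n', t ≤ z j) → t ≤ u z}) ?_ ?_ hu
    · rintro _ ⟨j, hj, rfl⟩
      exact ⟨j + 1, fun z t h => h j (Finset.mem_Ico.2 ⟨hj, j.lt_succ_self⟩)⟩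
    · rintro u ⟨k, hk⟩ v ⟨l, hl⟩ a b ha hb hab
      refine ⟨max k l, fun z t h => ?_⟩
      have a1 := hk z t fun j hj => h j (Finset.Ico_subset_Ico_right (le_max_left _ _) hj)
      have a2 := hl z t fun j hj => h j (Finset.Ico_subset_Ico_right (le_max_right _ _) hj)
      simp only [add_apply, smul_apply, smul_eq_mul]
      obtain rfl : b = 1 - a := by linarith
      nlinarith
  set Y : ℝ → X := fun σ => y + ∑ j ∈ Finset.Ico n n', (σ - y j) • e j with hY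
  have y1 : ∀ σ j, Y σ j = if j ∈ Finset.Ico n n' then σ else y j := fun σ j => by
    simp only [hY]
    rw [ZeroAtInftyContinuousMap.add_apply, sum_e_apply]
    split_ifs <;> simp
  have y2 : ∀ σ, |σ| ≤ c → ‖Y σ‖ ≤ c := fun σ h => norm_le _ hc.le fun j => by
    rw [y1]
    split_ifs
    exacts [h, (apply_le y j).trans h3]
  have y3 : ‖(b + y) + (b + y) - (b + Y c) - (b + Y (-c))‖ ≤ 2 * ρ :=
    norm_le _ (by positivity) fun j => by
      simp only [ZeroAtInftyContinuousMap.sub_apply, ZeroAtInftyContinuousMap.add_apply, y1]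
      split_ifs with h
      · have := (hn j (Finset.mem_Ico.1 h).1).2
        rw [abs_le]
        constructor <;> linarith [this.1, this.2]
      · rw [abs_le]
        constructor <;> linarith
  have a1 := (le_abs_self _).trans ((F.le_opNorm _).trans (mul_le_mul_of_nonneg_left y3 hF))
  rw [map_sub, map_sub, map_add F (b + y)] at a1
  have a2 := h5 F (by linarith) _ (y2 (-c) (by rw [abs_neg, abs_of_pos hc]))
  have a3 := h5 (F + μ • u) ((ContinuousLinearMap.opNorm_add_le _ _).trans (by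
    have := ContinuousLinearMap.opNorm_smul_le μ u
    rw [Real.norm_of_nonneg hμ.le] at this
    nlinarith)) _ (y2 c (abs_of_pos hc).le)
  have a4 := h6 (b + Y c) (7 * c / 8) fun j hj => by
    rw [ZeroAtInftyContinuousMap.add_apply, y1, if_pos hj]
    linarith [(hn j (Finset.mem_Ico.1 hj).1).1.1]
  rw [add_apply, smul_apply, smul_eq_mul] at a3
  have a5 := mul_le_mul_of_nonneg_left a4 hμ.le
  rw [mem_ofPred_eq]
  nlinarith [mul_pos hμ hc]

theorem compan (hp : ∀ x, ‖x‖ ≤ 2 * p x) (hf : Flat p) : ∃ q : Seminorm ℝ X,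
    (∃ a b : ℝ, 0 < a ∧ 0 < b ∧ ∀ x : X, a * ‖x‖ ≤ q x ∧ q x ≤ b * ‖x‖) ∧
    ∀ x : X, 1 < p x → ∀ y : X, p y ≤ 1 → ∃ z : X, p z ≤ 1 ∧ q (x - z) < q (x - y) := by
  obtain ⟨f, f1, f2⟩ := exf hp ev_norm tz (flat_gap hp hf)
  have f3 : ∀ n (x : X), |f n x - x n| ≤ 1 / ((n : ℝ) + 1) / 2 * ‖x‖ := fun n x =>
    ((f n - ev n).le_opNorm x).trans (mul_le_mul_of_nonneg_right (f1 n) (norm_nonneg _))
  have f4 : ∀ n (x : X), |f n x - x n| ≤ ‖x‖ / 2 := fun n x => (f3 n x).trans (by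
    have : 1 / ((n : ℝ) + 1) ≤ 1 := by
      rw [div_le_one (by positivity)]; linarith [Nat.cast_nonneg (α := ℝ) n]
    nlinarith [norm_nonneg x])
  have f5 : ∀ x : X, Tendsto (fun n => f n x) atTop (𝓝 0) := fun x => by
    have : Tendsto (fun n => f n x - x n) atTop (𝓝 0) := squeeze_zero_norm (f3 · x) (by
      simpa using (tendsto_one_div_add_atTop_nhds_zero_nat.div_const (2 : ℝ)).mul_const ‖x‖)
    simpa using this.add (tz x)
  let T : X →ₗ[ℝ] X :=
    { toFun := fun x => mk (fun n => f n x) (Nat.cofinite_eq_atTop ▸ f5 x)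
      map_add' := fun x y => by ext n; simp
      map_smul' := fun a x => by ext n; simp }
  let q : Seminorm ℝ X := (normSeminorm ℝ X).comp T
  have q1 : ∀ x n, |f n x| ≤ q x := fun x n => apply_le (T x) n
  have q2 : ∀ x t, 0 ≤ t → (∀ n, |f n x| ≤ t) → q x ≤ t := fun x t h1 h2 => norm_le (T x) h1 h2
  have q3 : ∀ x, 1 / 2 * ‖x‖ ≤ q x ∧ q x ≤ 2 * ‖x‖ := fun x => by
    constructor
    · have : ‖x‖ ≤ q x + ‖x‖ / 2 := norm_le x (by positivity) fun n => by
        have a1 := abs_le.1 (q1 x n)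
        have a2 := abs_le.1 (f4 n x)
        rw [abs_le]
        constructor <;> linarith [a1.1, a1.2, a2.1, a2.2]
      linarith
    · refine q2 x _ (by positivity) fun n => ?_
      have a1 := abs_le.1 (apply_le x n)
      have a2 := abs_le.1 (f4 n x)
      rw [abs_le]
      constructor <;> linarith [a1.1, a1.2, a2.1, a2.2, norm_nonneg x]
  refine ⟨q, ⟨1 / 2, 2, by norm_num, two_pos, q3⟩, fun x hx y hy => ?_⟩
  by_contra! H
  have d0 : 0 < q (x - y) := by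
    have : 0 < ‖x - y‖ := norm_pos_iff.2 (sub_ne_zero.2 (by rintro rfl; linarith))
    linarith [(q3 (x - y)).1]
  have qc : Continuous q := lipc (L := 2) zero_le_two fun h k => by
    linarith [(q3 (h - k)).2, (le_abs_self _).trans (abs_sub_map_le_sub q h k)]
  obtain ⟨Φ, c, h1, h2⟩ := geometric_hahn_banach_open (s := q.ball x (q (x - y)))
    (t := p.closedBall 0 1) (q.convex_ball _ _) (by
      have : q.ball x (q (x - y)) = {z | q (z - x) < q (x - y)} := rfl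
      rw [this]
      exact isOpen_lt (qc.comp (by fun_prop)) continuous_const) (p.convex_closedBall _ _)
    (disjoint_left.2 fun z h1 h2 => by
      rw [Seminorm.mem_ball, map_sub_rev] at h1
      exact h1.not_ge (H z (by simpa using h2)))
  have h3 : Φ x < c := h1 x (by simpa using d0)
  have h4 : ∀ w, q w ≤ q (x - y) → Φ x - Φ w ≤ c := fun w hw => by
    by_contra! h
    have a1 : 0 < -Φ w := by linarith
    have a2 : (c - Φ x) / -Φ w < 1 := by rw [div_lt_one a1]; linarith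
    have a3 : 0 < (c - Φ x) / -Φ w := div_pos (by linarith) a1
    have := h1 (x - ((c - Φ x) / -Φ w) • w) (by
      rw [Seminorm.mem_ball, sub_sub_cancel_left, map_neg_eq_map, map_smul_eq_mul,
        Real.norm_of_nonneg a3.le]
      nlinarith [apply_nonneg q w])
    rw [map_sub, map_smul, smul_eq_mul] at this
    have a4 : (c - Φ x) / -Φ w * Φ w = -(c - Φ x) := by
      have := a1.ne'
      rw [div_mul_eq_mul_div, div_eq_iff this]; ring
    linarith
  have h5 : ∀ z, p z ≤ 1 → c ≤ Φ z := fun z hz => h2 z (by simpa using hz)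
  have h6 : Φ y ≤ c := by simpa using h4 _ le_rfl
  obtain ⟨N, hN⟩ := eventually_atTop.1 ((f5 (x - y)).eventually
    (Icc_mem_nhds (neg_lt_zero.2 (half_pos d0)) (half_pos d0)))
  have h7 : ∀ z, (∀ i : Fin N, f i z = 0) → 0 ≤ Φ z := fun z hz => by
    have z0 := apply_nonneg q z
    set τ := q (x - y) / 2 / (q z + 1) with hτ
    have t0 : 0 < τ := by positivity
    have t1 : τ * (q z + 1) = q (x - y) / 2 := by rw [hτ]; field_simp
    have := h4 (x - y + τ • z) (q2 _ _ d0.le fun n => by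
      rw [map_add, map_smul, smul_eq_mul]
      rcases lt_or_ge n N with h | h
      · rw [hz ⟨n, h⟩, mul_zero, add_zero]
        exact q1 _ n
      · have a1 := hN n h
        have a2 := abs_le.1 (q1 z n)
        rw [abs_le]
        constructor <;> nlinarith [a1.1, a1.2, a2.1, a2.2])
    rw [map_add, map_sub, map_smul, smul_eq_mul] at this
    exact le_of_mul_le_mul_left (by linarith [h5 y hy]) t0
  obtain ⟨a, ha⟩ := (Submodule.mem_span_range_iff_exists_fun ℝ).1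
    (mem_span_of_iInf_ker_le_ker (L := fun i : Fin N => (f i : X →ₗ[ℝ] ℝ))
      (K := ((-Φ : X →L[ℝ] ℝ) : X →ₗ[ℝ] ℝ)) fun z hz => by
        simp only [Submodule.mem_iInf, LinearMap.mem_ker] at hz ⊢
        have a1 := h7 z hz
        have a2 := h7 (-z) fun i => by rw [map_neg, show f i z = 0 from hz i, neg_zero]
        rw [map_neg] at a2
        show -Φ z = 0
        linarith)
  have h8 : ∀ z, (∑ i, a i • f i) z = -Φ z := fun z => by
    simpa using LinearMap.congr_fun ha z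
  have h9 := f2 N a y hy fun z hz => by rw [h8, h8]; linarith [h5 z hz]
  have a1 := h8 x
  have a2 := h8 y
  rw [h9] at a1 a2
  simp only [zero_apply] at a1 a2
  linarith [h5 y hy]

end Pool.Agent.H87.Compan
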