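import Mathlib
import Pool.Agent.H87.Compan2

/-! A Baire category construction of flat norms. -/

namespace Pool.Agent.H87.Compan

open Filter Topology Set Metric

variable {E : Type} [NormedAddCommGroup E] [NormedSpace ℝ E]

def Eqv (p : Seminorm ℝ E) : Prop := ∃ a b : ℝ, 0 < a ∧ 0 < b ∧ ∀ x, a * ‖x‖ ≤ p x ∧ p x ≤ b * ‖x‖

def Z (p : Seminorm ℝ E) (ρ : ℝ) : Set (Seminorm ℝ E) := {r | ∀ x, |p x - r x| ≤ ρ * ‖x‖}

def FlatAt (ε : ℝ) (p : Seminorm ℝ E) : Prop :=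
  ∃ c > 0, ∀ x, p x ≤ 1 → ∃ b y : E, x = b + y ∧ ‖y‖ ≤ c ∧
    ∀ y', ‖y'‖ ≤ c → p (b + y') ≤ 1 + ε * c

lemma d_le {p r : Seminorm ℝ E} {t : ℝ} (ht : 0 ≤ t) (h : r ∈ Z p t) :
    (⨆ x : closedBall (0 : E) 1, |p (x : E) - r (x : E)|) ≤ t :=
  Real.iSup_le (fun x => (h x).trans
    (mul_le_of_le_one_right ht (mem_closedBall_zero_iff.1 x.2))) ht

lemma le_d {p r : Seminorm ℝ E} (hp : Eqv p) (hr : Eqv r) {t : ℝ}
    (h : (⨆ x : closedBall (0 : E) 1, |p (x : E) - r (x : E)|) < t) : r ∈ Z p t := by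
  obtain ⟨_, b, -, hb, h1⟩ := hp
  obtain ⟨_, b', -, hb', h2⟩ := hr
  replace h1 := fun x => (h1 x).2
  replace h2 := fun x => (h2 x).2
  intro x
  rcases eq_or_ne x 0 with rfl | hx
  · simp
  have h0 := norm_pos_iff.2 hx
  have := (le_ciSup (f := fun x : closedBall (0 : E) 1 => |p (x : E) - r (x : E)|) ⟨b + b', by
    rintro _ ⟨y, rfl⟩
    have a1 := mem_closedBall_zero_iff.1 y.2
    have a2 := apply_nonneg p (y : E)
    have a3 := apply_nonneg r (y : E)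
    refine abs_le.2 ?_
    constructor <;> nlinarith [h1 y, h2 y]⟩
    ⟨‖x‖⁻¹ • x, mem_closedBall_zero_iff.2 (by
      rw [norm_smul, norm_inv, norm_norm, inv_mul_cancel₀ h0.ne'])⟩).trans h.le
  simp only [map_smul_eq_mul, norm_inv, norm_norm] at this
  rwa [← mul_sub, abs_mul, abs_of_pos (inv_pos.2 h0), inv_mul_le_iff₀ h0, mul_comm] at this

lemma bb (q : Seminorm ℝ E) {c : ℝ} (x : E) :
    BddBelow (range fun y => max (q (x - y)) (‖y‖ / c)) :=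
  ⟨0, by rintro _ ⟨y, rfl⟩; exact le_max_of_le_left (apply_nonneg _ _)⟩

noncomputable def fat (q : Seminorm ℝ E) {c : ℝ} (hc : 0 < c) : Seminorm ℝ E :=
  Seminorm.ofSMulLE (fun x => ⨅ y, max (q (x - y)) (‖y‖ / c))
    (le_antisymm (ciInf_le_of_le (bb q 0) 0 (by simp))
      (le_ciInf fun y => le_max_of_le_left (apply_nonneg _ _)))
    (fun x x' => le_ciInf_add_ciInf fun y y' => ciInf_le_of_le (bb q _) (y + y') (max_le
      (by rw [add_sub_add_comm]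
          exact (map_add_le_add _ _ _).trans (add_le_add (le_max_left _ _) (le_max_left _ _)))
      (((div_le_div_of_nonneg_right (norm_add_le _ _) hc.le).trans_eq (add_div _ _ _)).trans
        (add_le_add (le_max_right _ _) (le_max_right _ _)))))
    (fun r x => by
      rw [Real.mul_iInf_of_nonneg (norm_nonneg r)]
      refine le_ciInf fun y => ciInf_le_of_le (bb q _) (r • y) ?_
      rw [← smul_sub, map_smul_eq_mul, norm_smul, mul_div_assoc,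
        mul_max_of_nonneg _ _ (norm_nonneg r)])

lemma fat_le (q : Seminorm ℝ E) {c : ℝ} (hc : 0 < c) (b y : E) :
    fat q hc (b + y) ≤ max (q b) (‖y‖ / c) :=
  ciInf_le_of_le (bb q _) y (by rw [add_sub_cancel_right])

lemma fat_lt (q : Seminorm ℝ E) {c : ℝ} (hc : 0 < c) {x : E} {l : ℝ} (h : fat q hc x < l) :
    ∃ y, q (x - y) < l ∧ ‖y‖ < l * c := by
  obtain ⟨y, hy⟩ := exists_lt_of_ciInf_lt h
  exact ⟨y, (max_lt_iff.1 hy).1, (div_lt_iff₀ hc).1 (max_lt_iff.1 hy).2⟩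

def Inv (p : Seminorm ℝ E) (ρ : ℝ) : Prop :=
  0 < ρ ∧ ∀ r ∈ Z p ρ, ∀ x, ‖x‖ ≤ 2 * r x ∧ r x ≤ 2 * ‖x‖

lemma Z_self (p : Seminorm ℝ E) {ρ : ℝ} (h : 0 < ρ) : p ∈ Z p ρ := fun x => by
  simp only [sub_self, abs_zero]; positivity

lemma Inv.eqv {p r : Seminorm ℝ E} {ρ : ℝ} (h : Inv p ρ) (hr : r ∈ Z p ρ) : Eqv r :=
  ⟨1 / 2, 2, by norm_num, two_pos, fun x => ⟨by linarith [(h.2 r hr x).1], (h.2 r hr x).2⟩⟩

lemma gstep {F : Set (Seminorm ℝ E)} (hF : ∀ p, Eqv p → ∀ ε : ℝ, 0 < ε → ∃ q, Eqv q ∧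
      ∃ δ : ℝ, 0 < δ ∧ ∀ r, Eqv r → (⨆ x : closedBall (0 : E) 1, |q (x : E) - r (x : E)|) < δ →
        ((⨆ x : closedBall (0 : E) 1, |p (x : E) - r (x : E)|) < ε ∧ r ∉ F))
    {p : Seminorm ℝ E} {ρ : ℝ} (h : Inv p ρ) {ε : ℝ} (hε : 0 < ε) :
    ∃ p' ρ', Inv p' ρ' ∧ ρ' ≤ ε ∧ Z p' ρ' ⊆ Z p ρ ∧ ∀ r ∈ Z p' ρ', r ∉ F ∧ FlatAt ε r := by
  have hp := h.eqv (Z_self p h.1)
  obtain ⟨q, hq, δ, hδ, h1⟩ := hF p hp ρ h.1
  have h2 := h.2 q (le_d hp hq (h1 q hq ((d_le (half_pos hδ).le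
    (Z_self q (half_pos hδ))).trans_lt (half_lt_self hδ))).1)
  obtain ⟨c, c0, c1, c2⟩ : ∃ c > 0, c ≤ δ / 16 ∧ c ≤ 1 / 32 :=
    ⟨min _ _, lt_min (by positivity) (by positivity), min_le_left _ _, min_le_right _ _⟩
  obtain ⟨τ, t0, t1, t2, t3⟩ : ∃ τ > 0, τ ≤ c ∧ τ ≤ ε * c / 9 ∧ τ ≤ ε :=
    ⟨min _ (min _ _), lt_min c0 (lt_min (by positivity) hε), min_le_left _ _,
      (min_le_right _ _).trans (min_le_left _ _), (min_le_right _ _).trans (min_le_right _ _)⟩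
  have h3 : ∀ x, fat q c0 x ≤ q x := fun x => by simpa using fat_le q c0 x 0
  have h4 : ∀ x, q x ≤ fat q c0 x + 4 * c * ‖x‖ := fun x => by
    have : q x ≤ (1 + 2 * c) * fat q c0 x := by
      rw [← div_le_iff₀' (by positivity)]
      refine le_of_forall_gt_imp_ge_of_dense fun l hl => ?_
      obtain ⟨y, y1, y2⟩ := fat_lt q c0 hl
      have := map_add_le_add q (x - y) y
      rw [sub_add_cancel] at this
      rw [div_le_iff₀' (by positivity)]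
      linarith [(h2 y).2]
    nlinarith [h3 x, (h2 x).2]
  have h5 : ∀ r ∈ Z (fat q c0) τ, r ∈ Z q (5 * c) := fun r hr x => by
    have a1 := abs_le.1 (hr x)
    have a2 := mul_le_mul_of_nonneg_right t1 (norm_nonneg x)
    have a3 := mul_nonneg c0.le (norm_nonneg x)
    rw [abs_le]
    constructor <;> linarith [a1.1, a1.2, h3 x, h4 x]
  have h6 : ∀ r ∈ Z (fat q c0) τ, r ∈ Z p ρ ∧ r ∉ F := fun r hr => by
    have hr' : Eqv r := ⟨1 / 4, 3, by norm_num, by norm_num, fun x => by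
      have a1 := abs_le.1 (h5 r hr x)
      have a2 := mul_le_mul_of_nonneg_right c2 (norm_nonneg x)
      constructor <;> linarith [a1.1, a1.2, (h2 x).1, (h2 x).2, norm_nonneg x]⟩
    have := h1 r hr' ((d_le (by positivity) (h5 r hr)).trans_lt (by linarith))
    exact ⟨le_d hp hr' this.1, this.2⟩
  refine ⟨fat q c0, τ, ⟨t0, fun r hr => h.2 r (h6 r hr).1⟩, t3, fun r hr => (h6 r hr).1,
    fun r hr => ⟨(h6 r hr).2, (1 + 3 * τ) * c, by positivity, fun x hx => ?_⟩⟩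
  have a1 : ‖x‖ ≤ 2 := by linarith [(h.2 r (h6 r hr).1 x).1]
  obtain ⟨y, y1, y2⟩ := fat_lt q c0 (x := x) (l := 1 + 3 * τ) (by
    nlinarith [(abs_le.1 (hr x)).2])
  refine ⟨x - y, y, (sub_add_cancel _ _).symm, y2.le, fun y' hy' => ?_⟩
  have a2 := (fat_le q c0 (x - y) y').trans (max_le y1.le ((div_le_iff₀ c0).2 hy'))
  have a3 : (1 + 3 * τ) * c ≤ 1 := by nlinarith
  have a4 : ‖x - y + y'‖ ≤ 6 := by
    linarith [norm_add_le (x - y) y', norm_sub_le x y]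
  have a5 := (abs_le.1 (hr (x - y + y'))).1
  have a6 := mul_le_mul_of_nonneg_left a4 t0.le
  have a7 : ε * c ≤ ε * ((1 + 3 * τ) * c) := by gcongr; nlinarith [mul_pos t0 c0]
  linarith

theorem game {F : ℕ → Set (Seminorm ℝ E)} (hF : ∀ n, ∀ p, Eqv p → ∀ ε : ℝ, 0 < ε → ∃ q, Eqv q ∧
      ∃ δ : ℝ, 0 < δ ∧ ∀ r, Eqv r → (⨆ x : closedBall (0 : E) 1, |q (x : E) - r (x : E)|) < δ →
        ((⨆ x : closedBall (0 : E) 1, |p (x : E) - r (x : E)|) < ε ∧ r ∉ F n)) :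
    ∃ p : Seminorm ℝ E, Eqv p ∧ (∀ x, ‖x‖ ≤ 2 * p x) ∧ (∀ n, p ∉ F n) ∧
      ∀ ε > 0, FlatAt ε p := by
  have hs : ∀ (n : ℕ) (s : {s : Seminorm ℝ E × ℝ // Inv s.1 s.2}),
      ∃ t : {s : Seminorm ℝ E × ℝ // Inv s.1 s.2}, t.1.2 ≤ 1 / ((n : ℝ) + 1) ∧
        Z t.1.1 t.1.2 ⊆ Z s.1.1 s.1.2 ∧
        ∀ r ∈ Z t.1.1 t.1.2, r ∉ F n ∧ FlatAt (1 / ((n : ℝ) + 1)) r := fun n s => by
    obtain ⟨p', ρ', a1, a2⟩ := gstep (hF n) s.2 (Nat.one_div_pos_of_nat (n := n))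
    exact ⟨⟨(p', ρ'), a1⟩, a2⟩
  choose T t1 t2 t3 using hs
  let s : ℕ → {s : Seminorm ℝ E × ℝ // Inv s.1 s.2} := fun n => Nat.rec
    ⟨(normSeminorm ℝ E, 1 / 2), by norm_num, fun r hr x => by
      have := abs_le.1 (hr x)
      rw [coe_normSeminorm] at this
      constructor <;> linarith [this.1, this.2, norm_nonneg x]⟩ T n
  have h1 : Antitone fun n => Z (s (n + 1)).1.1 (s (n + 1)).1.2 :=
    antitone_nat_of_succ_le fun n => t2 (n + 1) _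
  have h2 : ∀ n m, n ≤ m → ∀ x, |(s (n + 1)).1.1 x - (s (m + 1)).1.1 x| ≤ (s (n + 1)).1.2 * ‖x‖ :=
    fun n m h => h1 h (Z_self _ (s (m + 1)).2.1)
  have h3 : ∀ x, ∃ l, Tendsto (fun n => (s (n + 1)).1.1 x) atTop (𝓝 l) := fun x =>
    cauchySeq_tendsto_of_complete (cauchySeq_of_le_tendsto_0'
      (fun n : ℕ => 1 / ((n : ℝ) + 1) * ‖x‖) (fun n m h => (h2 n m h x).trans
        (mul_le_mul_of_nonneg_right (t1 n _) (norm_nonneg _)))
      (by simpa using tendsto_one_div_add_atTop_nhds_zero_nat.mul_const ‖x‖))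
  choose l hl using h3
  let p : Seminorm ℝ E := Seminorm.of l
    (fun x y => le_of_tendsto_of_tendsto' (hl _) ((hl x).add (hl y)) fun n => map_add_le_add _ _ _)
    (fun a x => tendsto_nhds_unique (hl _)
      (by simpa only [map_smul_eq_mul] using (hl x).const_mul ‖a‖))
  have h4 : ∀ n, p ∈ Z (s (n + 1)).1.1 (s (n + 1)).1.2 := fun n x =>
    le_of_tendsto ((hl x).const_sub _).abs (eventually_atTop.2 ⟨n, fun m h => h2 n m h x⟩)
  refine ⟨p, (s 1).2.eqv (h4 0), fun x => ((s 1).2.2 p (h4 0) x).1,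
    fun n => (t3 n _ p (h4 n)).1, fun ε hε => ?_⟩
  obtain ⟨n, hn⟩ := exists_nat_one_div_lt hε
  obtain ⟨c, c0, h⟩ := (t3 n _ p (h4 n)).2
  refine ⟨c, c0, fun x hx => ?_⟩
  obtain ⟨b, y, a1, a2, a3⟩ := h x hx
  exact ⟨b, y, a1, a2, fun y' hy' => (a3 y' hy').trans (by gcongr)⟩

instance : Nontrivial X := ⟨C0I.e 0, 0, fun h => by
  have := congrArg (fun x : X => x 0) h
  simp [C0I.e_apply] at this⟩

end Pool.Agent.H87.Compan
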