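import Mathlib

namespace Pool.Agent.H87.D2G

/-- The rational vector space with a countable Hamel basis. -/
abbrev V : Type := ℕ →₀ ℚ

/-- Pseudonorms on `V`. -/
def IsPseudonorm (μ : V → ℝ) : Prop :=
  (∀ v, 0 ≤ μ v) ∧ (∀ u v, μ (u + v) ≤ μ u + μ v) ∧ ∀ (q : ℚ) (v : V), μ (q • v) = |(q : ℝ)| * μ v

/-- `X` is a copy of the completion of `V / N_μ`: there is an additive map `V → X` with dense
range carrying `μ` to the norm. -/
def Codes (μ : V → ℝ) (X : Type) [NormedAddCommGroup X] : Prop :=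
  ∃ T : V →+ X, DenseRange T ∧ ∀ v, ‖T v‖ = μ v

/-- The pseudonorms whose Banach space is infinite dimensional. -/
def PInf : Set (V → ℝ) :=
  {μ | IsPseudonorm μ ∧ ∃ (X : Type) (_ : NormedAddCommGroup X) (_ : NormedSpace ℝ X)
    (_ : CompleteSpace X), Codes μ X ∧ ¬ FiniteDimensional ℝ X}

/-- Every nonempty relatively weakly open subset of the unit ball has diameter two. -/
def D2P (X : Type) [NormedAddCommGroup X] [NormedSpace ℝ X] : Prop :=
  ∀ U : Set (WeakSpace ℝ X), IsOpen U →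
    {y : X | ‖y‖ ≤ 1 ∧ toWeakSpace ℝ X y ∈ U}.Nonempty →
      Metric.diam {y : X | ‖y‖ ≤ 1 ∧ toWeakSpace ℝ X y ∈ U} = 2

/-- The diametral diameter two property. -/
def DD2P (X : Type) [NormedAddCommGroup X] [NormedSpace ℝ X] : Prop :=
  ∀ U : Set (WeakSpace ℝ X), IsOpen U → ∀ x : X, ‖x‖ ≤ 1 → toWeakSpace ℝ X x ∈ U →
    ∀ ε : ℝ, 0 < ε → ∃ y : X, ‖y‖ ≤ 1 ∧ toWeakSpace ℝ X y ∈ U ∧ 1 + ‖x‖ - ε ≤ ‖x - y‖

/-- The class of the D2P in `PInf`. -/
def classD2P : Set PInf :=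
  {μ | ∃ (X : Type) (_ : NormedAddCommGroup X) (_ : NormedSpace ℝ X) (_ : CompleteSpace X),
    Codes μ.1 X ∧ D2P X}

/-- The class of the DD2P in `PInf`. -/
def classDD2P : Set PInf :=
  {μ | ∃ (X : Type) (_ : NormedAddCommGroup X) (_ : NormedSpace ℝ X) (_ : CompleteSpace X),
    Codes μ.1 X ∧ DD2P X}

end Pool.Agent.H87.D2G
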