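import Mathlib
import Pool.Agent.H87.D2GDef

namespace Pool.Agent.H87.D2G

open Filter Topology Set

/-- gauge -/
def G (t a b c : ℝ) : ℝ := (1 - t) * (a - 2) + t * (b - 1 - c)

def R (t : ℝ) (n : ℕ) (d : ℝ) (x : V) (μ : V → ℝ) (φ : Fin n → V → ℝ) : Prop :=
  (∀ i u v, φ i (u + v) = φ i u + φ i v) ∧ (∀ i v, |φ i v| ≤ μ v) ∧ μ x ≤ 1 - d ∧
    ∀ y z, 1 ≤ μ y ∨ 1 ≤ μ z ∨ (∃ i, d ≤ |φ i (y - x)|) ∨ (∃ i, d ≤ |φ i (z - x)|) ∨
      G t (μ (y - z)) (μ (x - y)) (μ x) ≤ -d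

lemma closed_R (t : ℝ) (n : ℕ) (d : ℝ) (x : V) :
    IsClosed {p : (V → ℝ) × (Fin n → V → ℝ) | R t n d x p.1 p.2} := by
  simp only [R, G, ofPred_and, ofPred_forall, ofPred_or, ofPred_exists]
  refine (isClosed_iInter fun i => isClosed_iInter fun u => isClosed_iInter fun v =>
    isClosed_eq (by fun_prop) (by fun_prop)).inter ((isClosed_iInter fun i =>
      isClosed_iInter fun v => isClosed_le (by fun_prop) (by fun_prop)).inter
      ((isClosed_le (by fun_prop) (by fun_prop)).inter (isClosed_iInter fun y =>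
        isClosed_iInter fun z => ?_)))
  refine (isClosed_le (by fun_prop) (by fun_prop)).union ((isClosed_le (by fun_prop)
    (by fun_prop)).union ((isClosed_iUnion_of_finite fun i => isClosed_le (by fun_prop)
      (by fun_prop)).union ((isClosed_iUnion_of_finite fun i => isClosed_le (by fun_prop)
      (by fun_prop)).union (isClosed_le (by fun_prop) (by fun_prop)))))

lemma closed_Z (t : ℝ) (n : ℕ) (d : ℝ) (x : V) : IsClosed {μ : V → ℝ | ∃ φ, R t n d x μ φ} := by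
  let K := Fin n → V → Icc (-1 : ℝ) 1
  let F : (V → ℝ) × K → (V → ℝ) × (Fin n → V → ℝ) := fun p => (p.1, fun i v => p.1 v * (p.2 i v).1)
  have hF : Continuous F := by
    refine continuous_fst.prodMk (continuous_pi fun i => continuous_pi fun v => ?_)
    exact ((continuous_apply v).comp continuous_fst).mul (continuous_subtype_val.comp
      ((continuous_apply v).comp ((continuous_apply i).comp continuous_snd)))
  have h := isClosedMap_fst_of_compactSpace _ ((closed_R t n d x).preimage hF)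
  convert h using 1
  ext μ
  constructor
  · rintro ⟨φ, hφ⟩
    have h1 : ∀ i v, ∃ s : Icc (-1 : ℝ) 1, μ v * s.1 = φ i v := by
      intro i v
      have h2 := hφ.2.1 i v
      rcases ((abs_nonneg _).trans h2).eq_or_lt with h3 | h3
      · refine ⟨⟨0, by norm_num⟩, ?_⟩
        rw [← h3, abs_nonpos_iff] at h2
        simp [h2]
      · refine ⟨⟨φ i v / μ v, ?_⟩, by field_simp⟩
        have := abs_le.1 h2
        exact ⟨by rw [le_div_iff₀ h3]; linarith, by rw [div_le_one h3]; linarith⟩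
    choose s hs using h1
    refine ⟨(μ, s), ?_, rfl⟩
    have : (fun i v => μ v * (s i v).1) = φ := by funext i v; exact hs i v
    show R t n d x μ (fun i v => μ v * (s i v).1)
    rwa [this]
  · rintro ⟨p, hp, rfl⟩
    exact ⟨_, hp⟩

variable {X : Type} [NormedAddCommGroup X] [NormedSpace ℝ X]

def Q (t : ℝ) (X : Type) [NormedAddCommGroup X] [NormedSpace ℝ X] : Prop :=
  ∀ U : Set (WeakSpace ℝ X), IsOpen U → ∀ x : X, ‖x‖ ≤ 1 → toWeakSpace ℝ X x ∈ U →
    ∀ ε : ℝ, 0 < ε → ∃ y z : X, (‖y‖ ≤ 1 ∧ toWeakSpace ℝ X y ∈ U) ∧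
      (‖z‖ ≤ 1 ∧ toWeakSpace ℝ X z ∈ U) ∧ -ε < G t ‖y - z‖ ‖x - y‖ ‖x‖

lemma nbhd {U : Set (WeakSpace ℝ X)} (hU : IsOpen U) {x : X} (hx : toWeakSpace ℝ X x ∈ U) :
    ∃ (n : ℕ) (f : Fin n → X →L[ℝ] ℝ) (δ : ℝ), 0 < δ ∧ (∀ i y, |f i y| ≤ ‖y‖) ∧
      ∀ y : X, (∀ i, |f i (y - x)| < δ) → toWeakSpace ℝ X y ∈ U := by
  obtain ⟨F, ε, hε, hF⟩ : ∃ (F : Finset (X →L[ℝ] ℝ)) (ε : ℝ), 0 < ε ∧
      ∀ y : X, (∀ i ∈ F, |i y - i x| < ε) → toWeakSpace ℝ X y ∈ U := by
    obtain ⟨O, hO, rfl⟩ := isOpen_induced_iff.1 hU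
    obtain ⟨F, u, hu1, hu2⟩ := isOpen_pi_iff.1 hO _ hx
    have h1 : ∀ i ∈ F, ∀ᶠ r in 𝓝[>] (0:ℝ), Metric.ball (i x) r ⊆ u i := by
      intro i hi
      obtain ⟨r, hr, h⟩ := Metric.isOpen_iff.1 (hu1 i hi).1 _ (hu1 i hi).2
      filter_upwards [Ioo_mem_nhdsGT hr] with t ht
      exact (Metric.ball_subset_ball ht.2.le).trans h
    obtain ⟨r, hr1, hr2⟩ := (((eventually_all_finset F).2 h1).and self_mem_nhdsWithin).exists
    refine ⟨F, r, hr2, fun y hy => hu2 fun i hi => hr1 i hi ?_⟩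
    exact (by simpa [Real.dist_eq] using hy i hi : i y ∈ Metric.ball (i x) r)
  set M := 1 + ∑ i ∈ F, ‖i‖ with hM
  have hM0 : 0 < M := by positivity
  refine ⟨F.card, fun i => M⁻¹ • (F.equivFin.symm i).1, ε / M, by positivity, fun i y => ?_,
    fun y hy => hF y fun g hg => ?_⟩
  · rw [_root_.smul_apply, smul_eq_mul, abs_mul, abs_of_pos (inv_pos.2 hM0), inv_mul_le_iff₀ hM0]
    refine ((F.equivFin.symm i).1.le_opNorm y).trans
      (mul_le_mul_of_nonneg_right ?_ (norm_nonneg _))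
    have := Finset.single_le_sum (f := fun i : X →L[ℝ] ℝ => ‖i‖) (fun _ _ => norm_nonneg _)
      (F.equivFin.symm i).2
    linarith
  · have := hy (F.equivFin ⟨g, hg⟩)
    beta_reduce at this
    rw [Equiv.symm_apply_apply, _root_.smul_apply, smul_eq_mul, abs_mul,
      abs_of_pos (inv_pos.2 hM0), div_eq_inv_mul, map_sub] at this
    exact lt_of_mul_lt_mul_left this (inv_pos.2 hM0).le

lemma ext_fun (T : V →+ X) (hT : DenseRange T) (φ : V → ℝ) (h1 : ∀ u v, φ (u + v) = φ u + φ v)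
    (h2 : ∀ v, |φ v| ≤ ‖T v‖) : ∃ f : X →L[ℝ] ℝ, ∀ v, f (T v) = φ v := by
  have h3 : ∀ u v, |φ u - φ v| ≤ ‖T u - T v‖ := fun u v => by
    have := h1 (u - v) v
    rw [sub_add_cancel] at this
    rw [← map_sub, show φ u - φ v = φ (u - v) by linarith]
    exact h2 _
  have h4 : LipschitzOnWith 1 (fun x => φ (Function.invFun T x)) (range T) := by
    refine LipschitzOnWith.of_dist_le_mul fun a ha b hb => ?_
    have := h3 (Function.invFun T a) (Function.invFun T b)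
    rw [Function.invFun_eq ha, Function.invFun_eq hb] at this
    simpa [Real.dist_eq, dist_eq_norm] using this
  obtain ⟨g, hg, hg2⟩ := h4.extend_real
  have h5 : ∀ v, g (T v) = φ v := fun v => by
    rw [← hg2 (mem_range_self v)]
    have := h3 (Function.invFun T (T v)) v
    rw [Function.invFun_eq (f := T) (mem_range_self v), sub_self, norm_zero, abs_nonpos_iff] at this
    show φ _ = _
    linarith
  have hc := hg.continuous
  have h6 : ∀ a b, g (a + b) = g a + g b := fun a b =>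
    hT.induction_on₂ (p := fun a b => g (a + b) = g a + g b)
      (isClosed_eq (by fun_prop) (by fun_prop))
      (fun u v => by rw [← map_add, h5, h5, h5, h1]) a b
  exact ⟨(AddMonoidHom.mk' g h6).toRealLinearMap hc, h5⟩

lemma approx (T : V →+ X) (hT : DenseRange T) {O : Set X} (hO : IsOpen O) {x : X} (hx : ‖x‖ ≤ 1)
    (hxO : x ∈ O) : ∃ v, ‖T v‖ < 1 ∧ T v ∈ O := by
  have hcl : x ∈ closure (Metric.ball (0 : X) 1) := by
    rw [closure_ball _ one_ne_zero]; simpa using hx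
  obtain ⟨v, h1, h2⟩ := hT.exists_mem_open (hO.inter Metric.isOpen_ball)
    (mem_closure_iff.1 hcl _ hO hxO)
  exact ⟨v, by simpa using h2, h1⟩

theorem not_Q_iff {t : ℝ} (ht0 : 0 ≤ t) (ht1 : t ≤ 1) {μ : V → ℝ} (h : Codes μ X) :
    ¬ Q t X ↔ ∃ (n k : ℕ) (x : V), ∃ φ, R t n (1 / ((k : ℝ) + 1)) x μ φ := by
  obtain ⟨T, hT, hμ⟩ := h
  constructor
  · intro hQ
    simp only [Q, not_forall, not_exists, not_and, not_lt] at hQ
    obtain ⟨U, hU, x0, hx0, hxU, ε, hε, hQ⟩ := hQ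
    obtain ⟨n, f, δ, hδ, hf, hfU⟩ := nbhd hU hxU
    obtain ⟨x, hx1, hx2⟩ := approx T hT (Metric.isOpen_ball (x := x0) (ε := min (δ / 2) (ε / 4)))
      hx0 (Metric.mem_ball_self (by positivity))
    rw [mem_ball_iff_norm, lt_min_iff] at hx2
    obtain ⟨k, hk⟩ := exists_nat_one_div_lt (show 0 < min (1 - ‖T x‖) (min (δ / 2) (ε / 2)) from
      lt_min (by linarith) (by positivity))
    rw [lt_min_iff, lt_min_iff] at hk
    refine ⟨n, k, x, fun i v => f i (T v), fun i u v => by simp, fun i v => hμ v ▸ hf i _,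
      by rw [← hμ]; linarith [hk.1], fun y z => ?_⟩
    by_contra hc
    simp only [not_or, not_le, not_exists, ← hμ] at hc
    obtain ⟨c1, c2, c3, c4, c5⟩ := hc
    have hw : ∀ w, (∀ i, |f i (T (w - x))| < 1 / ((k : ℝ) + 1)) → toWeakSpace ℝ X (T w) ∈ U := by
      refine fun w hw => hfU _ fun i => ?_
      have e : f i (T w - x0) = f i (T (w - x)) + f i (T x - x0) := by
        rw [← map_add, map_sub T]; congr 1; abel
      rw [e]
      linarith [abs_add_le (f i (T (w - x))) (f i (T x - x0)), hw i, hf i (T x - x0), hk.2.1]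
    have := hQ (T y) (T z) ⟨c1.le, hw y c3⟩ ⟨c2.le, hw z c4⟩
    rw [map_sub, map_sub] at c5
    have a1 := norm_sub_le_norm_sub_add_norm_sub (T x) x0 (T y)
    have a2 := norm_sub_norm_le x0 (T x)
    rw [norm_sub_rev x0] at a2
    unfold G at this c5
    have a3 : t * (‖T x - T y‖ - 1 - ‖T x‖) ≤ t * (‖x0 - T y‖ - 1 - ‖x0‖ + ε / 2) :=
      mul_le_mul_of_nonneg_left (by linarith) ht0
    nlinarith [hk.2.2]
  · rintro ⟨n, k, x, φ, h1, h2, h3, h4⟩ hQ
    set d := 1 / ((k : ℝ) + 1) with hd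
    have hd0 : 0 < d := by positivity
    choose f hf using fun i => ext_fun T hT (φ i) (h1 i) (fun v => (hμ v).symm ▸ h2 i v)
    have hev : ∀ g : X →L[ℝ] ℝ, Continuous fun y : WeakSpace ℝ X => g ((toWeakSpace ℝ X).symm y) :=
      fun g => WeakBilin.eval_continuous (topDualPairing ℝ X).flip g
    obtain ⟨y, z, hy, hz, h5⟩ := hQ
      (⋂ i, {y | |f i ((toWeakSpace ℝ X).symm y) - f i (T x)| < d})
      (isOpen_iInter_of_finite fun i => isOpen_lt ((hev _).sub continuous_const).abs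
        continuous_const) (T x) (by rw [hμ]; linarith) (by simp [hd0]) d hd0
    have hO : IsOpen (⋂ i, {y : X | |f i y - f i (T x)| < d}) :=
      isOpen_iInter_of_finite fun i => isOpen_lt (by fun_prop) continuous_const
    obtain ⟨y', a1, a2, a3⟩ := approx T hT (hO.inter (isOpen_lt (f := fun _ => -d)
      (g := fun y => G t ‖y - z‖ ‖T x - y‖ ‖T x‖) continuous_const (by unfold G; fun_prop)))
      hy.1 ⟨by simpa using hy.2, h5⟩
    obtain ⟨z', b1, b2, b3⟩ := approx T hT (hO.inter (isOpen_lt (f := fun _ => -d)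
      (g := fun z => G t ‖T y' - z‖ ‖T x - T y'‖ ‖T x‖) continuous_const (by unfold G; fun_prop)))
      hz.1 ⟨by simpa using hz.2, a3⟩
    rw [mem_iInter] at a2 b2
    rcases h4 y' z' with c | c | ⟨i, c⟩ | ⟨i, c⟩ | c
    · rw [← hμ] at c; linarith
    · rw [← hμ] at c; linarith
    · rw [← hf, map_sub, map_sub] at c; exact absurd (a2 i) (not_lt.2 c)
    · rw [← hf, map_sub, map_sub] at c; exact absurd (b2 i) (not_lt.2 c)
    · rw [← hμ, ← hμ, ← hμ, map_sub, map_sub] at c; exact absurd b3 (not_lt.2 c)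

theorem gdelta {t : ℝ} (ht0 : 0 ≤ t) (ht1 : t ≤ 1) :
    IsGδ {μ : PInf | ∃ (X : Type) (_ : NormedAddCommGroup X) (_ : NormedSpace ℝ X)
      (_ : CompleteSpace X), Codes μ.1 X ∧ Q t X} := by
  have h : IsGδ (⋂ p : ℕ × ℕ × V, {μ : V → ℝ | ∃ φ, R t p.1 (1 / ((p.2.1 : ℝ) + 1)) p.2.2 μ φ}ᶜ) :=
    IsGδ.iInter_of_isOpen fun p => (closed_Z _ _ _ _).isOpen_compl
  convert h.preimage (continuous_subtype_val (p := fun μ => μ ∈ PInf)) using 1
  ext μ
  simp only [mem_ofPred_eq, mem_preimage, mem_iInter, mem_compl_iff]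
  constructor
  · rintro ⟨X, _, _, _, h1, h2⟩ ⟨n, k, x⟩ h3
    exact (not_Q_iff ht0 ht1 h1).2 ⟨n, k, x, h3⟩ h2
  · intro h1
    obtain ⟨X, _, _, _, h2, -⟩ := μ.2.2
    refine ⟨X, inferInstance, inferInstance, inferInstance, h2, by_contra fun h3 => ?_⟩
    obtain ⟨n, k, x, h4⟩ := (not_Q_iff ht0 ht1 h2).1 h3
    exact h1 ⟨n, k, x⟩ h4

lemma D2P_iff : D2P X ↔ Q 0 X := by
  constructor
  · intro h U hU x hx hxU ε hε
    by_contra hc
    simp only [not_exists, not_and, not_lt, G] at hc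
    have h1 := h U hU ⟨x, hx, hxU⟩
    have h2 : Metric.diam {y : X | ‖y‖ ≤ 1 ∧ toWeakSpace ℝ X y ∈ U} ≤ 2 - ε :=
      Metric.diam_le_of_forall_dist_le_of_nonempty ⟨x, And.intro hx hxU⟩ fun y hy z hz => by
        have := hc y z hy hz
        rw [dist_eq_norm]; linarith
    linarith
  · rintro h U hU ⟨x, hx, hxU⟩
    refine le_antisymm (Metric.diam_le_of_forall_dist_le zero_le_two fun y hy z hz => ?_)
      (le_of_forall_pos_le_add fun ε hε => ?_)
    · rw [dist_eq_norm]; linarith [norm_sub_le y z, hy.1, hz.1]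
    · obtain ⟨y, z, hy, hz, h1⟩ := h U hU x hx hxU ε hε
      have h2 := Metric.dist_le_diam_of_mem (s := {y : X | ‖y‖ ≤ 1 ∧ toWeakSpace ℝ X y ∈ U})
        ((Metric.isBounded_closedBall (x := (0 : X)) (r := 1)).subset
          fun w hw => by simpa using hw.1) hy hz
      rw [dist_eq_norm] at h2
      unfold G at h1
      linarith

lemma DD2P_iff : DD2P X ↔ Q 1 X := by
  constructor
  · intro h U hU x hx hxU ε hε
    obtain ⟨y, h1, h2, h3⟩ := h U hU x hx hxU (ε / 2) (by positivity)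
    exact ⟨y, y, ⟨h1, h2⟩, ⟨h1, h2⟩, by unfold G; linarith⟩
  · intro h U hU x hx hxU ε hε
    obtain ⟨y, z, hy, -, h1⟩ := h U hU x hx hxU ε hε
    exact ⟨y, hy.1, hy.2, by unfold G at h1; linarith⟩

end Pool.Agent.H87.D2G
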