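import Mathlib

namespace Pool.Agent.H87.DLD

open Filter Topology Set

variable {E : Type*} [NormedAddCommGroup E] [NormedSpace ℝ E]

lemma ap_le (φ : E →L[ℝ] ℝ) (hφ : ‖φ‖ ≤ 1) {x : E} (hx : ‖x‖ ≤ 1) : |φ x| ≤ 1 :=
  (φ.le_opNorm x).trans (mul_le_one₀ hφ (norm_nonneg _) hx)

lemma step {x y : E} (hx : ‖x‖ = 1) (hy : ‖y‖ ≤ 1) {s e : ℝ} (hs : 0 < s) (he : 0 < e)
    (he1 : e < 1) (h : 2 - e < ‖x - y‖) :
    ∃ x' : E, ‖x'‖ = 1 ∧ ‖x' - x‖ ≤ 2 * s ∧ ∀ φ : E →L[ℝ] ℝ, ‖φ‖ ≤ 1 → 1 - e < φ x' →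
      1 - 2 * e * (1 + s) < φ x ∧ s * φ y < -s + 2 * e * (1 + s) := by
  obtain ⟨ψ, h1, h2⟩ := exists_dual_vector'' ℝ (x - y)
  have h2' : ψ x - ψ y = ‖x - y‖ := by rw [← map_sub]; exact h2
  have a1 := abs_le.1 (ap_le ψ h1 hx.le)
  have a2 := abs_le.1 (ap_le ψ h1 hy)
  set z := x - s • y with hz
  have a3 : (1 + s) * (1 - e) ≤ ‖z‖ := by
    have := (le_abs_self _).trans
      ((ψ.le_opNorm z).trans (mul_le_of_le_one_left (norm_nonneg _) h1))
    rw [hz, map_sub, map_smul, smul_eq_mul] at this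
    nlinarith
  have a4 : 0 < ‖z‖ := lt_of_lt_of_le (mul_pos (by linarith) (by linarith)) a3
  have a5 : ‖z - x‖ ≤ s := by
    rw [hz, sub_sub_cancel_left, norm_neg, norm_smul, Real.norm_of_nonneg hs.le]
    exact mul_le_of_le_one_right hs.le hy
  refine ⟨‖z‖⁻¹ • z, by rw [norm_smul, norm_inv, norm_norm, inv_mul_cancel₀ a4.ne'], ?_,
    fun φ hφ h3 => ?_⟩
  · have b1 : ‖‖z‖⁻¹ • z - z‖ = |1 - ‖z‖| := by
      have : ‖z‖⁻¹ • z - z = (‖z‖⁻¹ * (1 - ‖z‖)) • z := by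
        rw [mul_sub, mul_one, inv_mul_cancel₀ a4.ne', sub_smul, one_smul]
      rw [this, norm_smul, Real.norm_eq_abs, abs_mul, abs_of_pos (inv_pos.2 a4)]
      field_simp
    have b2 := abs_norm_sub_norm_le x z
    rw [hx, norm_sub_rev x z] at b2
    linarith [norm_sub_le_norm_sub_add_norm_sub (‖z‖⁻¹ • z) z x]
  · rw [map_smul, smul_eq_mul, lt_inv_mul_iff₀ a4, hz, map_sub, map_smul, smul_eq_mul] at h3
    have b1 := abs_le.1 (ap_le φ hφ hx.le)
    have b2 := abs_le.1 (ap_le φ hφ hy)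
    have b3 : (1 + s) * (1 - 2 * e) ≤ ‖x - s • y‖ * (1 - e) := by
      nlinarith [mul_le_mul_of_nonneg_right a3 (by linarith : 0 ≤ 1 - e),
        mul_nonneg (by linarith : 0 ≤ 1 + s) (sq_nonneg e)]
    constructor <;> nlinarith

theorem main {ι : Type*} [Fintype ι] (g : ι → E →ₗ[ℝ] ℝ) (M : ι → ℝ)
    (hg : ∀ i y, |g i y| ≤ M i * ‖y‖)
    (H : ∀ (c : ι → ℝ) (x : E), ‖x‖ = 1 → ∀ ε > 0, ∃ y, ‖y‖ ≤ 1 ∧
      ∑ i, c i * g i (y - x) < 1 ∧ 2 - ε < ‖x - y‖)
    {δ : ℝ} (hδ : 0 < δ) (x0 : E) (hx0 : ‖x0‖ = 1) {ε : ℝ} (hε : 0 < ε) :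
    ∃ y, ‖y‖ ≤ 1 ∧ (∀ i, |g i (y - x0)| < δ) ∧ 2 - ε < ‖x0 - y‖ := by
  have hM : ∀ i, 0 ≤ M i := fun i => by
    have := (abs_nonneg _).trans (hg i x0); rwa [hx0, mul_one] at this
  set G := ∑ i, M i ^ 2 with hG
  have hG0 : 0 ≤ G := Finset.sum_nonneg fun _ _ => sq_nonneg _
  obtain ⟨n, hn⟩ := exists_nat_gt ((2 + 12 * G) / δ ^ 2)
  have hn0 : (0 : ℝ) < n := lt_of_le_of_lt (by positivity) hn
  set s := min (1 / (n : ℝ) ^ 2) (ε / (8 * n)) with hs
  have hs0 : 0 < s := lt_min (by positivity) (by positivity)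
  have hs1 : (n : ℝ) ^ 2 * s ≤ 1 := by
    have := min_le_left (1 / (n : ℝ) ^ 2) (ε / (8 * n))
    rwa [← hs, le_div_iff₀ (by positivity), mul_comm] at this
  have hs2 : s * (8 * n) ≤ ε := by
    have := min_le_right (1 / (n : ℝ) ^ 2) (ε / (8 * n))
    rwa [← hs, le_div_iff₀ (by positivity)] at this
  have key : ∀ j : ℕ, j ≤ n → ∃ (x Y : E) (γ : ℝ), 0 < γ ∧ ‖x‖ = 1 ∧ ‖Y‖ ≤ j ∧
      ‖x - x0‖ ≤ 2 * j * s ∧
      (∀ φ : E →L[ℝ] ℝ, ‖φ‖ ≤ 1 → 1 - γ < φ x → φ Y ≤ j * (-1 + ε / 2)) ∧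
      ∑ i, g i (Y - (j : ℝ) • x0) ^ 2 ≤ j * (2 + 12 * G) := by
    intro j
    induction j with
    | zero => exact fun _ => ⟨x0, 0, 1, one_pos, hx0, by simp, by simp, by simp, by simp⟩
    | succ j ih =>
      intro hj
      obtain ⟨x, Y, γ, hγ, hx, hY, hxx, hφ, hv⟩ := ih (by omega)
      have hjn : (j : ℝ) ≤ n := by exact_mod_cast (by omega : j ≤ n)
      have hj0 : (0 : ℝ) ≤ j := Nat.cast_nonneg _
      set e := min (1 / 2) (min γ (s * (ε / 2)) / (2 * (1 + s))) with he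
      have he0 : 0 < e := lt_min (by norm_num) (by positivity)
      have he1 : e < 1 := (min_le_left _ _).trans_lt (by norm_num)
      have he2 : e * (2 * (1 + s)) ≤ min γ (s * (ε / 2)) := by
        have := min_le_right (1 / 2) (min γ (s * (ε / 2)) / (2 * (1 + s)))
        rwa [← he, le_div_iff₀ (by positivity)] at this
      obtain ⟨y, hy, hc, hf⟩ := H (fun i => g i (Y - (j : ℝ) • x0)) x hx e he0
      obtain ⟨x', h1, h2, h3⟩ := step hx hy hs0 he0 he1 hf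
      refine ⟨x', Y + y, e, he0, h1, ?_, ?_, fun φ b1 b2 => ?_, ?_⟩
      · push_cast; linarith [norm_add_le Y y]
      · push_cast; linarith [norm_sub_le_norm_sub_add_norm_sub x' x x0]
      · obtain ⟨b3, b4⟩ := h3 φ b1 b2
        have b5 := hφ φ b1 (by linarith [he2.trans (min_le_left _ _)])
        have b6 : φ y ≤ -1 + ε / 2 := by
          refine le_of_mul_le_mul_left ?_ hs0
          linarith [he2.trans (min_le_right _ _)]
        rw [map_add]; push_cast; linarith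
      · have e1 : ∀ i, g i (Y + y - ((j + 1 : ℕ) : ℝ) • x0) ^ 2 ≤ g i (Y - (j : ℝ) • x0) ^ 2 +
            2 * (g i (Y - (j : ℝ) • x0) * g i (y - x)) + 12 * M i ^ 2 := by
          intro i
          have c1 : Y + y - ((j + 1 : ℕ) : ℝ) • x0 = (Y - (j : ℝ) • x0) + (y - x0) := by
            push_cast; module
          have c2 : g i (y - x0) = g i (y - x) + g i (x - x0) := by
            rw [← map_add]; congr 1; abel
          have c3 : |g i (y - x0)| ≤ M i * 2 := (hg i _).trans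
            (mul_le_mul_of_nonneg_left (by linarith [norm_sub_le y x0]) (hM i))
          have c4 : |g i (Y - (j : ℝ) • x0)| ≤ M i * (2 * n) := (hg i _).trans
            (mul_le_mul_of_nonneg_left (by
              have := norm_sub_le Y ((j : ℝ) • x0)
              rw [norm_smul, hx0, Real.norm_of_nonneg hj0] at this
              linarith) (hM i))
          have c5 : |g i (x - x0)| ≤ M i * (2 * n * s) := (hg i _).trans
            (mul_le_mul_of_nonneg_left (by nlinarith) (hM i))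
          have c6 : g i (Y - (j : ℝ) • x0) * g i (x - x0) ≤ 4 * M i ^ 2 := by
            refine (le_abs_self _).trans ?_
            rw [abs_mul]
            refine (mul_le_mul c4 c5 (abs_nonneg _) (mul_nonneg (hM i) (by positivity))).trans ?_
            nlinarith [mul_le_mul_of_nonneg_left hs1 (sq_nonneg (M i))]
          have c7 : g i (y - x0) ^ 2 ≤ 4 * M i ^ 2 := by
            rw [← sq_abs]; nlinarith [abs_nonneg (g i (y - x0)), hM i]
          have c8 : g i (Y - (j : ℝ) • x0) * g i (y - x0) = g i (Y - (j : ℝ) • x0) * g i (y - x)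
              + g i (Y - (j : ℝ) • x0) * g i (x - x0) := by rw [c2]; ring
          rw [c1, map_add, add_sq, mul_assoc, c8]
          linarith
        refine (Finset.sum_le_sum fun i _ => e1 i).trans ?_
        rw [Finset.sum_add_distrib, Finset.sum_add_distrib, ← Finset.mul_sum, ← Finset.mul_sum]
        push_cast
        linarith
  obtain ⟨x, Y, γ, hγ, hx, hY, hxx, hφ, hv⟩ := key n le_rfl
  refine ⟨(n : ℝ)⁻¹ • Y, ?_, fun i => ?_, ?_⟩
  · rw [norm_smul, Real.norm_of_nonneg (inv_pos.2 hn0).le, inv_mul_le_iff₀ hn0, mul_one]; exact hY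
  · have a1 : g i (Y - (n : ℝ) • x0) = n * g i ((n : ℝ)⁻¹ • Y - x0) := by
      rw [← smul_eq_mul, ← map_smul, smul_sub, smul_inv_smul₀ hn0.ne']
    have a2 := (Finset.single_le_sum (f := fun i => g i (Y - (n : ℝ) • x0) ^ 2)
      (fun _ _ => sq_nonneg _) (Finset.mem_univ i)).trans hv
    rw [div_lt_iff₀ (by positivity)] at hn
    rw [a1] at a2
    refine abs_lt_of_sq_lt_sq ?_ hδ.le
    have : (n : ℝ) * (n * g i ((n : ℝ)⁻¹ • Y - x0) ^ 2) < n * (n * δ ^ 2) := by nlinarith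
    exact lt_of_mul_lt_mul_left (lt_of_mul_lt_mul_left this hn0.le) hn0.le
  · obtain ⟨φ, h1, h2⟩ := exists_dual_vector'' ℝ x
    have h3 : φ x = 1 := by rw [← hx]; exact h2
    have a1 := hφ φ h1 (by linarith)
    have hb : ∀ w, φ w ≤ ‖w‖ := fun w => (le_abs_self _).trans
      ((φ.le_opNorm w).trans (mul_le_of_le_one_left (norm_nonneg _) h1))
    have a2 := hb (x - x0)
    have a3 := hb (x0 - (n : ℝ)⁻¹ • Y)
    rw [map_sub] at a2 a3
    rw [map_smul, smul_eq_mul] at a3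
    have a4 : (n : ℝ)⁻¹ * φ Y ≤ -1 + ε / 2 := by rw [inv_mul_le_iff₀ hn0]; exact a1
    linarith

end Pool.Agent.H87.DLD
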