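import Mathlib
import Pool.Agent.H87.DLD1

namespace Pool.Agent.H87.DLD

open Filter Topology Set

variable {E F : Type*} [NormedAddCommGroup E] [NormedSpace ℝ E] [NormedAddCommGroup F]
  [NormedSpace ℝ F]

def P (b : E →ₗ[ℝ] F →ₗ[ℝ] ℝ) : Prop :=
  ∀ (f : F) (x : E), ‖x‖ = 1 → ∀ α > 0, ∀ ε > 0,
    ∃ y : E, ‖y‖ ≤ 1 ∧ b x f - α < b y f ∧ 2 - ε < ‖x - y‖

def D (b : E →ₗ[ℝ] F →ₗ[ℝ] ℝ) : Prop :=
  ∀ U : Set (WeakBilin b), IsOpen U → ∀ x : E, ‖x‖ = 1 → (show WeakBilin b from x) ∈ U →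
    ∀ ε : ℝ, 0 < ε → ∃ y : E, ‖y‖ ≤ 1 ∧ (show WeakBilin b from y) ∈ U ∧ 2 - ε < ‖x - y‖

lemma P_of_D (b : E →ₗ[ℝ] F →ₗ[ℝ] ℝ) (h : D b) : P b := fun f x hx α hα ε hε =>
  h {y | b x f - α < b y f} (isOpen_lt continuous_const (WeakBilin.eval_continuous b f)) x hx
    (show b x f - α < b x f by linarith) ε hε

lemma D_of_P (b : E →ₗ[ℝ] F →ₗ[ℝ] ℝ) (hb : ∀ x f, |b x f| ≤ ‖x‖ * ‖f‖) (h : P b) : D b := by
  intro V hV x hx hxV ε hε
  obtain ⟨S, δ, hδ, hS⟩ : ∃ (S : Finset F) (δ : ℝ), 0 < δ ∧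
      ∀ y : E, (∀ i ∈ S, |b y i - b x i| < δ) → (show WeakBilin b from y) ∈ V := by
    obtain ⟨O, hO, rfl⟩ := isOpen_induced_iff.1 hV
    obtain ⟨S, u, hu1, hu2⟩ := isOpen_pi_iff.1 hO _ hxV
    have h1 : ∀ i ∈ S, ∀ᶠ r in 𝓝[>] (0:ℝ), Metric.ball (b x i) r ⊆ u i := by
      intro i hi
      obtain ⟨r, hr, h⟩ := Metric.isOpen_iff.1 (hu1 i hi).1 _ (hu1 i hi).2
      filter_upwards [Ioo_mem_nhdsGT hr] with t ht
      exact (Metric.ball_subset_ball ht.2.le).trans h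
    obtain ⟨r, hr1, hr2⟩ := (((eventually_all_finset S).2 h1).and self_mem_nhdsWithin).exists
    refine ⟨S, r, hr2, fun y hy => hu2 fun i hi => hr1 i hi ?_⟩
    exact (by simpa [Real.dist_eq] using hy i hi : b y i ∈ Metric.ball (b x i) r)
  obtain ⟨y, h1, h2, h3⟩ := main (fun i : S => b.flip i.1) (fun i => ‖i.1‖)
    (fun i y => by rw [mul_comm]; exact hb y i.1) (fun c z hz e he => by
      obtain ⟨y, h1, h2, h3⟩ := h (-∑ i, c i • i.1) z hz 1 one_pos e he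
      refine ⟨y, h1, ?_, h3⟩
      have h4 : b (y - z) (-∑ i, c i • i.1) = -∑ i, c i * b.flip i.1 (y - z) := by
        simp only [map_neg, map_sum, map_smul, smul_eq_mul, LinearMap.flip_apply]
      rw [map_sub, LinearMap.sub_apply] at h4
      linarith) hδ x hx hε
  refine ⟨y, h1, hS y fun i hi => ?_, h3⟩
  simpa using h2 ⟨i, hi⟩

lemma P_flip (b : E →ₗ[ℝ] F →ₗ[ℝ] ℝ) (hb : ∀ x f, |b x f| ≤ ‖x‖ * ‖f‖)
    (hE : ∀ x : E, ∀ η > 0, ∃ f : F, ‖f‖ ≤ 1 ∧ ‖x‖ - η < b x f)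
    (hF : ∀ f : F, ∀ η > 0, ∃ x : E, ‖x‖ ≤ 1 ∧ ‖f‖ - η < b x f) (h : P b) : P b.flip := by
  intro x f hf α hα ε hε
  simp only [LinearMap.flip_apply]
  have hb1 : ∀ z g, ‖g‖ ≤ 1 → |b z g| ≤ ‖z‖ := fun z g hg =>
    (hb z g).trans (mul_le_of_le_one_right (norm_nonneg _) hg)
  set m := min (1 / 4) (ε / 8) with hm
  have hm0 : 0 < m := lt_min (by norm_num) (by positivity)
  have hm1 : m ≤ 1 / 4 := min_le_left _ _
  have hm2 : m ≤ ε / 8 := min_le_right _ _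
  set τ := m / (‖x‖ + 1) with hτ
  have hτ0 : 0 < τ := by positivity
  have hτ1 : τ * ‖x‖ ≤ m := by
    have : τ * (‖x‖ + 1) = m := by rw [hτ]; field_simp
    linarith
  have ht0 : 0 ≤ τ * ‖x‖ := by positivity
  set κ := min m (τ * α / 4) with hκ
  have hκ0 : 0 < κ := lt_min hm0 (by positivity)
  have hκ1 : κ ≤ m := min_le_left _ _
  have hκ2 : κ ≤ τ * α / 4 := min_le_right _ _
  obtain ⟨x0, h1, h2⟩ := hF f κ hκ0
  rw [hf] at h2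
  set w := x0 + τ • x with hw
  have hbw : ∀ g, b w g = b x0 g + τ * b x g := fun g => by simp [hw]
  have a1 : ‖w‖ ≤ 1 + τ * ‖x‖ := by
    have := norm_add_le x0 (τ • x)
    rw [norm_smul, Real.norm_of_nonneg hτ0.le] at this
    linarith
  have a2 := abs_le.1 (hb1 x f hf.le)
  have a3 : 1 - κ - τ * ‖x‖ ≤ b w f := by rw [hbw]; nlinarith
  have a4 : b w f ≤ ‖w‖ := (le_abs_self _).trans (hb1 w f hf.le)
  have a5 : 0 < ‖w‖ := by linarith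
  set u := ‖w‖⁻¹ • w with hu
  have hu1 : ‖u‖ = 1 := by rw [hu, norm_smul, norm_inv, norm_norm, inv_mul_cancel₀ a5.ne']
  have hbu : ∀ g, b w g = ‖w‖ * b u g := fun g => by
    rw [hu, map_smul, LinearMap.smul_apply, smul_eq_mul, mul_inv_cancel_left₀ a5.ne']
  obtain ⟨y, hy, c1, c2⟩ := h f u hu1 κ hκ0 κ hκ0
  obtain ⟨g, hg, c3⟩ := hE (u - y) κ hκ0
  rw [map_sub, LinearMap.sub_apply] at c3
  have c4 := abs_le.1 (hb1 u g hg)
  have c5 := abs_le.1 (hb1 y g hg)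
  have c6 := abs_le.1 (hb1 x0 g hg)
  refine ⟨g, hg, ?_, ?_⟩
  · have d1 : ‖w‖ * (1 - 2 * κ) ≤ b w g := by
      rw [hbu]; exact mul_le_mul_of_nonneg_left (by linarith) a5.le
    rw [hbw] at d1 a4
    refine lt_of_mul_lt_mul_left ?_ hτ0.le
    nlinarith
  · have d1 : 1 - κ - 2 * (τ * ‖x‖) ≤ b u f := by
      refine le_of_mul_le_mul_left ?_ a5
      rw [← hbu]
      nlinarith [mul_le_mul_of_nonneg_right a1 (by linarith : 0 ≤ 1 - κ - 2 * (τ * ‖x‖))]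
    have d2 := (le_abs_self _).trans ((hb y (f - g)).trans
      (mul_le_of_le_one_left (norm_nonneg _) hy))
    rw [map_sub] at d2
    linarith

theorem D_iff (b : E →ₗ[ℝ] F →ₗ[ℝ] ℝ) (hb : ∀ x f, |b x f| ≤ ‖x‖ * ‖f‖)
    (hE : ∀ x : E, ∀ η > 0, ∃ f : F, ‖f‖ ≤ 1 ∧ ‖x‖ - η < b x f)
    (hF : ∀ f : F, ∀ η > 0, ∃ x : E, ‖x‖ ≤ 1 ∧ ‖f‖ - η < b x f) : D b ↔ D b.flip := by
  have hb' : ∀ f x, |b.flip f x| ≤ ‖f‖ * ‖x‖ := fun f x => by rw [mul_comm]; exact hb x f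
  exact ⟨fun h => D_of_P _ hb' (P_flip b hb hE hF (P_of_D b h)),
    fun h => D_of_P _ hb (P_flip b.flip hb' hF hE (P_of_D _ h))⟩

theorem dual (X : Type*) [NormedAddCommGroup X] [NormedSpace ℝ X] :
    D (topDualPairing ℝ X) ↔ D (topDualPairing ℝ X).flip := by
  refine D_iff _ (fun f x => f.le_opNorm x) (fun f η hη => ?_) (fun x η hη => ?_)
  · obtain ⟨x, h1, h2⟩ := f.exists_lt_apply_of_lt_opNorm (show ‖f‖ - η < ‖f‖ by linarith)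
    rw [Real.norm_eq_abs] at h2
    rcases le_total 0 (f x) with h | h
    · exact ⟨x, h1.le, by rwa [abs_of_nonneg h] at h2⟩
    · refine ⟨-x, by rw [norm_neg]; exact h1.le, ?_⟩
      rw [abs_of_nonpos h, ← map_neg] at h2
      exact h2
  · obtain ⟨f, h1, h2⟩ := exists_dual_vector'' ℝ x
    refine ⟨f, h1, ?_⟩
    have : f x = ‖x‖ := h2
    show _ < f x
    linarith

end Pool.Agent.H87.DLD
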