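import Mathlib

/-! Smoothing a supremum of seminorms with the help of a Talagrand type operator. -/

namespace Pool.Agent.H87.TalF

open Filter Topology Set Metric Asymptotics

section basic

variable {E : Type*} [AddCommGroup E] [Module ℝ E]

lemma sq_tri {a b c d u v : ℝ} (hu : 0 ≤ u)
    (hv : 0 ≤ v) (h1 : u ≤ a + c) (h2 : v ≤ b + d) :
    √(u ^ 2 + v ^ 2) ≤ √(a ^ 2 + b ^ 2) + √(c ^ 2 + d ^ 2) := by
  have e1 := Real.sq_sqrt (show 0 ≤ a ^ 2 + b ^ 2 by positivity)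
  have e2 := Real.sq_sqrt (show 0 ≤ c ^ 2 + d ^ 2 by positivity)
  have e3 : a * c + b * d ≤ √(a ^ 2 + b ^ 2) * √(c ^ 2 + d ^ 2) := by
    rw [← Real.sqrt_mul (by positivity)]
    exact Real.le_sqrt_of_sq_le (by nlinarith [sq_nonneg (a * d - b * c)])
  refine Real.sqrt_le_iff.2 ⟨by positivity, ?_⟩
  nlinarith [pow_le_pow_left₀ hu h1 2, pow_le_pow_left₀ hv h2 2]

noncomputable def hyp (p q : Seminorm ℝ E) : Seminorm ℝ E :=
  Seminorm.of (fun x => √(p x ^ 2 + q x ^ 2))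
    (fun x y => sq_tri
      (apply_nonneg _ _) (apply_nonneg _ _) (map_add_le_add _ _ _) (map_add_le_add _ _ _))
    (fun a x => by
      rw [map_smul_eq_mul, map_smul_eq_mul, mul_pow, mul_pow, ← mul_add,
        Real.sqrt_mul (sq_nonneg _), Real.sqrt_sq (norm_nonneg _)])

lemma hyp_sq (p q : Seminorm ℝ E) (x : E) : hyp p q x ^ 2 = p x ^ 2 + q x ^ 2 :=
  Real.sq_sqrt (by positivity)

noncomputable def ssup {L : Type*} (m : L → Seminorm ℝ E)
    (hb : ∀ x, BddAbove (range fun t => m t x)) : Seminorm ℝ E :=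
  Seminorm.of (fun x => ⨆ t, m t x)
    (fun x y => Real.iSup_le (fun t => (map_add_le_add _ _ _).trans
      (add_le_add (le_ciSup (hb x) t) (le_ciSup (hb y) t)))
      (add_nonneg (Real.iSup_nonneg fun _ => apply_nonneg _ _)
        (Real.iSup_nonneg fun _ => apply_nonneg _ _)))
    (fun a x => by
      simp only [map_smul_eq_mul]
      rw [Real.mul_iSup_of_nonneg (norm_nonneg a)])

variable {F : Type*} [AddCommGroup F] [Module ℝ F]

lemma bbl (N : Seminorm ℝ (E × F)) (x : E) : BddBelow (range fun y => N (x, y)) :=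
  ⟨0, by rintro _ ⟨y, rfl⟩; exact apply_nonneg _ _⟩

noncomputable def sinf (N : Seminorm ℝ (E × F)) : Seminorm ℝ E :=
  Seminorm.ofSMulLE (fun x => ⨅ y, N (x, y))
    (le_antisymm (ciInf_le_of_le (bbl N 0) 0 (map_zero N).le) (le_ciInf fun _ => apply_nonneg _ _))
    (fun x x' => le_ciInf_add_ciInf fun y y' => ciInf_le_of_le (bbl N _) (y + y')
      (map_add_le_add N (x, y) (x', y')))
    (fun r x => by
      rw [Real.mul_iInf_of_nonneg (norm_nonneg r)]
      exact le_ciInf fun y => ciInf_le_of_le (bbl N _) (r • y) (map_smul_eq_mul N r (x, y)).le)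

lemma mid_sq (p : Seminorm ℝ E) (u v : E) :
    2 * p ((1 / 2 : ℝ) • (u + v)) ^ 2 ≤ p u ^ 2 + p v ^ 2 := by
  have h1 : p ((1 / 2 : ℝ) • (u + v)) ≤ (p u + p v) / 2 := by
    rw [map_smul_eq_mul, Real.norm_of_nonneg (by norm_num)]
    linarith [map_add_le_add p u v]
  nlinarith [pow_le_pow_left₀ (apply_nonneg _ _) h1 2, sq_nonneg (p u - p v)]

end basic

lemma exists_min {H : Type*} [NormedAddCommGroup H] [InnerProductSpace ℝ H] [CompleteSpace H]
    {g : H → ℝ} (h0 : ∀ y, 0 ≤ g y) (hc : Continuous g)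
    (hm : ∀ y y', 2 * g ((1 / 2 : ℝ) • (y + y')) ≤ g y + g y') :
    ∃ y, ∀ y', g y + ‖y‖ ^ 2 ≤ g y' + ‖y'‖ ^ 2 := by
  have hb : BddBelow (range fun y => g y + ‖y‖ ^ 2) :=
    ⟨0, by rintro _ ⟨y, rfl⟩; exact add_nonneg (h0 y) (sq_nonneg _)⟩
  set I := ⨅ y, g y + ‖y‖ ^ 2
  have h1 : ∀ n : ℕ, ∃ y, g y + ‖y‖ ^ 2 < I + 1 / ((n : ℝ) + 1) := fun n =>
    exists_lt_of_ciInf_lt (lt_add_of_pos_right _ Nat.one_div_pos_of_nat)
  choose u hu using h1
  have ht := tendsto_one_div_add_atTop_nhds_zero_nat (𝕜 := ℝ)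
  obtain ⟨y, hy⟩ := cauchySeq_tendsto_of_complete (u := u) (cauchySeq_of_le_tendsto_0
    (fun N : ℕ => √(4 * (1 / ((N : ℝ) + 1)))) (fun n m N h1 h2 => by
      refine Real.le_sqrt_of_sq_le ?_
      have a1 : I ≤ _ := ciInf_le hb ((1 / 2 : ℝ) • (u n + u m))
      have a2 := parallelogram_law_with_norm ℝ (u n) (u m)
      have a3 := Nat.one_div_le_one_div (α := ℝ) h1
      have a4 := Nat.one_div_le_one_div (α := ℝ) h2
      rw [norm_smul, Real.norm_of_nonneg (by norm_num)] at a1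
      rw [dist_eq_norm]
      nlinarith [hu n, hu m, hm (u n) (u m)])
    (by simpa using (ht.const_mul 4).sqrt))
  refine ⟨y, fun y' => le_trans ?_ (ciInf_le hb y')⟩
  exact le_of_tendsto_of_tendsto' (((hc.tendsto y).comp hy).add (hy.norm.pow 2))
    (by simpa using ht.const_add I) fun n => (hu n).le

variable {X : Type*} [NormedAddCommGroup X] [NormedSpace ℝ X]

lemma maj {f : X → ℝ} {x : X} {l : X →L[ℝ] ℝ} {r : X → ℝ}
    (h1 : ∀ h, 2 * f x ≤ f (x + h) + f (x + -h)) (h2 : r =o[𝓝 0] fun h => h)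
    (h3 : ∀ᶠ h in 𝓝 0, f (x + h) ≤ f x + l h + r h) : HasFDerivAt f l x := by
  have hn : Tendsto (fun h : X => -h) (𝓝 0) (𝓝 0) := by
    simpa using (continuous_neg (G := X)).tendsto 0
  rw [hasFDerivAt_iff_isLittleO_nhds_zero]
  refine IsBigO.trans_isLittleO (IsBigO.of_bound' ?_)
    (h2.norm_left.add (h2.comp_tendsto hn).norm_left.of_neg_right)
  filter_upwards [h3, hn.eventually h3] with h a1 a2
  rw [map_neg] at a2
  refine le_trans ?_ (le_abs_self _)
  simp only [Real.norm_eq_abs, Function.comp]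
  rw [abs_le]
  constructor <;> linarith [h1 h, le_abs_self (r h), le_abs_self (r (-h)), abs_nonneg (r h),
    abs_nonneg (r (-h))]

lemma sq_o {G : Type*} [NormedAddCommGroup G] [NormedSpace ℝ G] (k : X →L[ℝ] G) :
    (fun h => ‖k h‖ ^ 2) =o[𝓝 0] fun h => h :=
  ((k.isBigO_id _).norm_left.norm_right.pow 2).trans_isLittleO
    (isLittleO_norm_pow_id one_lt_two)

theorem smoothing {L : Type} (n : L → Seminorm ℝ X) (τ : L → X →L[ℝ] ℝ) (S : X → ℝ) (K : ℝ)
    (s0 : ∀ x, 0 ≤ S x) (s1 : ∀ t x, n t x ≤ S x) (s2 : ∀ t x, |τ t x| ≤ 2 * S x)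
    (s3 : ∀ x, S x ≤ K * ‖x‖) (hd : ∀ t x, DifferentiableAt ℝ (fun z => n t z ^ 2) x)
    (hc : ∀ x, ∀ ε > 0, {t | ε ≤ |τ t x|}.Finite)
    (ha : ∀ x, S x ≠ 0 → ∃ t, n t x = S x ∧ τ t x ≠ 0) :
    ∃ p : Seminorm ℝ X, (∀ x, S x ≤ p x ∧ p x ≤ 3 * S x) ∧
      ∀ x, S x ≠ 0 → DifferentiableAt ℝ (fun z => p z) x := by
  classical
  let H := lp (fun _ : L => ℝ) 2
  let ev : L → H →ₗ[ℝ] ℝ := fun t => ⟨⟨fun y => y t, fun _ _ => rfl⟩, fun _ _ => rfl⟩
  let c : L → X × H →ₗ[ℝ] ℝ := fun t =>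
    (τ t : X →ₗ[ℝ] ℝ).comp (LinearMap.fst ℝ X H) - (ev t).comp (LinearMap.snd ℝ X H)
  let m : L → Seminorm ℝ (X × H) := fun t =>
    hyp ((n t).comp (LinearMap.fst ℝ X H)) ((normSeminorm ℝ ℝ).comp (c t))
  have m1 : ∀ t x (y : H), m t (x, y) ^ 2 = n t x ^ 2 + (τ t x - y t) ^ 2 := fun t x y =>
    (hyp_sq _ _ _).trans (congrArg _ (sq_abs _))
  have m2 : ∀ t x (y : H), m t (x, y) ≤ 3 * S x + ‖y‖ := fun t x y => by
    have a1 : |y t| ≤ ‖y‖ := lp.norm_apply_le_norm two_ne_zero y t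
    have a2 : |τ t x - y t| ≤ 2 * S x + ‖y‖ := (abs_sub _ _).trans (add_le_add (s2 t x) a1)
    refine le_of_sq_le_sq ?_ (by linarith [s0 x, norm_nonneg y]) |>.trans le_rfl
    rw [m1, ← sq_abs (τ t x - y t)]
    nlinarith [pow_le_pow_left₀ (abs_nonneg _) a2 2, pow_le_pow_left₀ (apply_nonneg _ _) (s1 t x) 2,
      s0 x, norm_nonneg y]
  have mb : ∀ z, BddAbove (range fun t => m t z) := fun z =>
    ⟨_, by rintro _ ⟨t, rfl⟩; exact m2 t z.1 z.2⟩
  let M := ssup m mb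
  have M1 : ∀ t z, m t z ≤ M z := fun t z => le_ciSup (mb z) t
  have M2 : ∀ z b, 0 ≤ b → (∀ t, m t z ≤ b) → M z ≤ b := fun z b h1 h2 => Real.iSup_le h2 h1
  have M3 : ∀ z b, 0 ≤ b → (∀ t, m t z ^ 2 ≤ b) → M z ^ 2 ≤ b := fun z b h1 h2 =>
    (Real.le_sqrt (apply_nonneg _ _) h1).1
      (M2 z _ (Real.sqrt_nonneg _) fun t => Real.le_sqrt_of_sq_le (h2 t))
  have M4 : ∀ x (y : H), M (x, y) ≤ 3 * S x + ‖y‖ := fun x y =>
    M2 _ _ (by linarith [s0 x, norm_nonneg y]) fun t => m2 t x y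
  have M5 : ∀ x (y : H), S x ≤ M (x, y) := fun x y => by
    by_cases h : S x = 0
    · rw [h]; exact apply_nonneg _ _
    obtain ⟨t, h1, -⟩ := ha x h
    refine le_trans (le_of_sq_le_sq ?_ (apply_nonneg _ _)) (M1 t _)
    rw [m1, h1]
    nlinarith [sq_nonneg (τ t x - y t)]
  let N := hyp M ((normSeminorm ℝ H).comp (LinearMap.snd ℝ X H))
  have N1 : ∀ x (y : H), N (x, y) ^ 2 = M (x, y) ^ 2 + ‖y‖ ^ 2 := fun x y => hyp_sq _ _ _
  have p1 : ∀ x (y : H), sinf N x ≤ N (x, y) := fun x y => ciInf_le (bbl N x) y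
  have p2 : ∀ x, S x ≤ sinf N x := fun x => le_ciInf fun y =>
    (M5 x y).trans (le_of_sq_le_sq (by rw [N1]; nlinarith [sq_nonneg ‖y‖]) (apply_nonneg _ _))
  refine ⟨sinf N, fun x => ⟨p2 x, (p1 x 0).trans (le_of_sq_le_sq ?_ (by linarith [s0 x]))⟩,
    fun x hx => ?_⟩
  · have := M4 x 0
    rw [N1]
    simp only [norm_zero, add_zero] at this ⊢
    nlinarith [pow_le_pow_left₀ (apply_nonneg _ _) this 2]
  obtain ⟨y, hy⟩ := exists_min (g := fun y : H => M (x, y) ^ 2) (fun _ => sq_nonneg _)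
    ((LipschitzWith.of_le_add fun y y' => by
      have a1 := map_add_le_add M (x, y') (0, y - y')
      have a2 := M4 0 (y - y')
      have a3 := s3 0
      simp only [Prod.mk_add_mk, add_zero, add_sub_cancel, norm_zero, mul_zero] at a1 a3
      rw [dist_eq_norm]
      linarith).continuous.pow 2) fun y y' => by
      have := mid_sq M (x, y) (x, y')
      have a1 : (1 / 2 : ℝ) • ((x, y) + (x, y')) = (x, (1 / 2 : ℝ) • (y + y')) :=
        Prod.ext (by simp only [Prod.mk_add_mk, Prod.smul_mk]; module) rfl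
      rwa [a1] at this
  have p3 : sinf N x ^ 2 = M (x, y) ^ 2 + ‖y‖ ^ 2 := by
    rw [← N1]
    congr 1
    exact le_antisymm (p1 x y) (le_ciInf fun y' =>
      le_of_sq_le_sq (by rw [N1, N1]; exact hy y') (apply_nonneg _ _))
  have h1 : S x < M (x, y) := by
    by_contra! h
    have h0 := le_antisymm h (M5 x y)
    obtain ⟨t, t1, t2⟩ := ha x hx
    have a1 : y t = τ t x := by
      have := pow_le_pow_left₀ (apply_nonneg _ _) ((M1 t _).trans h) 2
      rw [m1, t1] at this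
      nlinarith [sq_nonneg (τ t x - y t)]
    have a2 := hy (y - lp.single 2 t (τ t x / 2))
    have a3 : M (x, y - lp.single 2 t (τ t x / 2)) ^ 2 ≤ S x ^ 2 + (τ t x / 2) ^ 2 :=
      M3 _ _ (by positivity) fun t' => by
        rcases eq_or_ne t' t with rfl | ht
        · rw [m1, t1, lp.coeFn_sub, Pi.sub_apply, lp.single_apply_self, a1]
          exact le_of_eq (by ring)
        · have := pow_le_pow_left₀ (apply_nonneg _ _) ((M1 t' _).trans h) 2
          rw [m1] at this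
          rw [m1, lp.coeFn_sub, Pi.sub_apply, lp.single_apply_ne _ _ _ ht, sub_zero]
          nlinarith [sq_nonneg (τ t x / 2)]
    rw [norm_sub_sq_real, lp.inner_single_right, lp.norm_single (by norm_num), h0, a1] at a2
    simp only [RCLike.inner_apply, conj_trivial, Real.norm_eq_abs, sq_abs] at a2
    nlinarith [sq_pos_of_ne_zero t2]
  obtain ⟨θ, θ0, θ1⟩ : ∃ θ > 0, S x ^ 2 + θ ^ 2 < M (x, y) ^ 2 := by
    have : 0 < (M (x, y) ^ 2 - S x ^ 2) / 2 := by nlinarith [s0 x]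
    exact ⟨_, Real.sqrt_pos.2 this, by rw [Real.sq_sqrt this.le]; linarith⟩
  have hA : {t | θ ≤ |τ t x - y t|}.Finite := by
    have a1 := ((lp.memℓp y).summable (by norm_num)).tendsto_cofinite_zero.eventually
      (gt_mem_nhds (show 0 < (θ / 2) ^ 2 by positivity))
    refine ((hc x _ (half_pos θ0)).union a1).subset fun t ht => ?_
    by_contra! h
    simp only [mem_union, mem_ofPred_eq, mem_compl_iff, not_or, not_le, not_not,
      ENNReal.toReal_ofNat, Real.rpow_ofNat, Real.norm_eq_abs] at h ht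
    linarith [abs_sub (τ t x) (y t), lt_of_pow_lt_pow_left₀ 2 (half_pos θ0).le h.2]
  choose D hD using fun t => hd t x
  let κ : L → X →L[ℝ] ℝ := fun t => τ t + (2 * (τ t x - y t))⁻¹ • D t
  let k : X →L[ℝ] H := ∑ t ∈ hA.toFinset, (κ t).smulRight (lp.single 2 t 1)
  have k1 : ∀ h, ∀ t ∈ hA.toFinset, k h t = κ t h := fun h t ht => by
    show ev t (k h) = _
    simp only [k, FunLike.coe_sum, Finset.sum_apply, map_sum,
      ContinuousLinearMap.smulRight_apply, map_smul]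
    rw [Finset.sum_eq_single_of_mem t ht fun s _ hs => by
      rw [show ev t (lp.single 2 s 1) = 0 from
        lp.single_apply_ne (E := fun _ : L => ℝ) 2 s 1 hs.symm, smul_zero],
      show ev t (lp.single 2 t 1) = 1 from lp.single_apply_self (E := fun _ : L => ℝ) 2 t 1,
      smul_eq_mul, mul_one]
  let e : L → X → ℝ := fun t h => m t (x + h, y + k h) ^ 2 - m t (x, y) ^ 2
  have e1 : ∀ t ∈ hA.toFinset, e t =o[𝓝 0] fun h => h := fun t ht => by
    have a0 : τ t x - y t ≠ 0 := abs_pos.1 (θ0.trans_le (hA.mem_toFinset.1 ht))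
    refine ((hasFDerivAt_iff_isLittleO_nhds_zero.1 (hD t)).add
      (sq_o ((2 * (τ t x - y t))⁻¹ • D t))).congr_left fun h => ?_
    have a1 : (y + k h) t = y t + κ t h := by rw [← k1 h t ht]; rfl
    simp only [e, m1, a1, κ, add_apply, smul_apply,
      smul_eq_mul, Real.norm_eq_abs, sq_abs, map_add (τ t)]
    field_simp
    ring
  have h2 : HasFDerivAt (fun z => sinf N z ^ 2) ((2 : ℝ) • (innerSL ℝ y).comp k) x := by
    refine maj (r := fun h => ∑ t ∈ hA.toFinset, ‖e t h‖ + ‖k h‖ ^ 2) (fun h => ?_)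
      ((IsLittleO.fun_sum fun t ht => (e1 t ht).norm_left).add (sq_o k)) ?_
    · have := mid_sq (sinf N) (x + h) (x + -h)
      rwa [show (1 / 2 : ℝ) • (x + h + (x + -h)) = x by module] at this
    have a1 : √(S x ^ 2 + θ ^ 2) < M (x, y) := Real.sqrt_lt' ((s0 x).trans_lt h1) |>.2 θ1
    have a2 : Continuous fun h : X => 3 * (K * ‖h‖) + ‖k h‖ := by fun_prop
    filter_upwards [(a2.tendsto' 0 0 (by simp)).eventually (gt_mem_nhds (sub_pos.2 a1))] with h hh
    have a3 := pow_le_pow_left₀ (apply_nonneg _ _) (p1 (x + h) (y + k h)) 2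
    have a5 : 0 ≤ ∑ t ∈ hA.toFinset, ‖e t h‖ := Finset.sum_nonneg fun _ _ => norm_nonneg _
    have a4 : M (x + h, y + k h) ^ 2 ≤ M (x, y) ^ 2 + ∑ t ∈ hA.toFinset, ‖e t h‖ :=
      M3 _ _ (by positivity) fun t => by
        by_cases ht : t ∈ hA.toFinset
        · have b1 := Finset.single_le_sum (f := fun t => ‖e t h‖) (fun _ _ => norm_nonneg _) ht
          have b2 : m t (x + h, y + k h) ^ 2 - m t (x, y) ^ 2 ≤ ‖e t h‖ := le_abs_self _
          linarith [pow_le_pow_left₀ (apply_nonneg _ _) (M1 t (x, y)) 2]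
        · have b1 : |τ t x - y t| ≤ θ := (not_le.1 (mt hA.mem_toFinset.2 ht)).le
          have b2 : m t (x, y) ≤ √(S x ^ 2 + θ ^ 2) := Real.le_sqrt_of_sq_le (by
            rw [m1, ← sq_abs (τ t x - y t)]
            gcongr
            exact s1 t x)
          have b3 : m t (x + h, y + k h) ≤ M (x, y) := by
            have := map_add_le_add (m t) (x, y) (h, k h)
            rw [Prod.mk_add_mk] at this
            linarith [m2 t h (k h), s3 h]
          linarith [pow_le_pow_left₀ (apply_nonneg _ _) b3 2]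
    rw [N1, norm_add_sq_real] at a3
    simp only [smul_apply, ContinuousLinearMap.comp_apply, innerSL_apply_apply, smul_eq_mul]
    linarith
  have h3 : sinf N x ^ 2 ≠ 0 := pow_ne_zero 2 (((s0 x).lt_of_ne' hx).trans_le (p2 x)).ne'
  simpa only [Real.sqrt_sq (apply_nonneg _ _)] using h2.differentiableAt.sqrt h3

end Pool.Agent.H87.TalF
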