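import Mathlib
import Pool.Agent.H87.TalF1

/-! Smooth renorming of a space with separable dual. -/

namespace Pool.Agent.H87.TalF

open Filter Topology Set Metric Asymptotics TopologicalSpace

variable {G : Type*} [NormedAddCommGroup G] [NormedSpace ℝ G]

lemma lsc_comp {W : Type*} [NormedAddCommGroup W] [NormedSpace ℝ W] (ι : W →L[ℝ] G) :
    LowerSemicontinuous fun μ : WeakDual ℝ G => ‖(WeakDual.toStrongDual μ).comp ι‖ ^ 2 := by
  refine lowerSemicontinuous_iff_isClosed_preimage.2 fun y => ?_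
  rcases lt_or_ge y 0 with h | h
  · convert isClosed_empty
    exact eq_empty_of_forall_notMem fun μ hμ => (h.trans_le (sq_nonneg _)).not_ge hμ
  · convert isClosed_iInter fun w : W => isClosed_le
      (WeakDual.eval_continuous (𝕜 := ℝ) (ι w)).norm (continuous_const (y := √y * ‖w‖))
    ext μ
    rw [mem_preimage, mem_Iic, ← Real.le_sqrt (norm_nonneg _) h,
      ContinuousLinearMap.opNorm_le_iff (Real.sqrt_nonneg _), mem_iInter]
    rfl

lemma nsm (c : ℝ) (u : G →L[ℝ] ℝ) : ‖c • u‖ = |c| * ‖u‖ := norm_smul c u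

def H (f : ℕ → G →L[ℝ] ℝ) (j : ℕ) : Submodule ℝ G :=
  ⨅ i : Fin j, LinearMap.ker (f i : G →ₗ[ℝ] ℝ)

noncomputable def a (f : ℕ → G →L[ℝ] ℝ) (j : ℕ) (μ : G →L[ℝ] ℝ) : ℝ := ‖μ.comp (H f j).subtypeL‖

variable {f : ℕ → G →L[ℝ] ℝ} {z : ℕ → G}

lemma a_le (j : ℕ) (μ : G →L[ℝ] ℝ) : a f j μ ≤ ‖μ‖ :=
  ContinuousLinearMap.opNorm_le_bound _ (norm_nonneg _) fun w => μ.le_opNorm w

lemma a_add (j : ℕ) (μ ν : G →L[ℝ] ℝ) : a f j (μ + ν) ≤ a f j μ + a f j ν := by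
  unfold a; rw [ContinuousLinearMap.add_comp]; exact ContinuousLinearMap.opNorm_add_le _ _

lemma a_nn (j : ℕ) (μ : G →L[ℝ] ℝ) : 0 ≤ a f j μ := ContinuousLinearMap.opNorm_nonneg _

lemma a_smul (j : ℕ) (c : ℝ) (μ : G →L[ℝ] ℝ) : a f j (c • μ) = |c| * a f j μ := by
  unfold a; rw [ContinuousLinearMap.smul_comp]
  exact nsm (G := H f j) c _

lemma a_dec (j : ℕ) (μ : G →L[ℝ] ℝ) :
    ∃ e ∈ Submodule.span ℝ (range fun i : Fin j => f i), ‖μ - e‖ = a f j μ := by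
  obtain ⟨s, h1, h2⟩ := exists_extension_norm_eq (H f j) (μ.comp (H f j).subtypeL)
  obtain ⟨c, hc⟩ := (Submodule.mem_span_range_iff_exists_fun ℝ).1
    (mem_span_of_iInf_ker_le_ker (L := fun i : Fin j => (f i : G →ₗ[ℝ] ℝ))
      (K := ((μ - s : G →L[ℝ] ℝ) : G →ₗ[ℝ] ℝ)) fun w hw => sub_eq_zero.2 (h1 ⟨w, hw⟩).symm)
  refine ⟨μ - s, (Submodule.mem_span_range_iff_exists_fun ℝ).2 ⟨c, ?_⟩, by
    rw [sub_sub_cancel, h2]; rfl⟩
  ext w
  simpa using LinearMap.congr_fun hc w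

lemma lur (hf : DenseRange f) (hz : ∀ i, ‖z i‖ ≤ 1)
    (hn : ∀ (ν : G →L[ℝ] ℝ) c, (∀ i, |ν (z i)| ≤ c) → ‖ν‖ ≤ 2 * c) {ι : Type*} {l : Filter ι}
    {μ0 : G →L[ℝ] ℝ} {μ : ι → G →L[ℝ] ℝ} (h0 : ∀ k, ‖μ k‖ ≤ 1)
    (h1 : ∀ j, Tendsto (fun k => a f j (μ k)) l (𝓝 (a f j μ0)))
    (h2 : ∀ i, Tendsto (fun k => μ k (z i)) l (𝓝 (μ0 (z i)))) : Tendsto μ l (𝓝 μ0) := by
  refine (tendsto_iff_ultrafilter _ _ _).2 fun g hg => Metric.tendsto_nhds.2 fun ε hε => ?_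
  obtain ⟨i, hi⟩ := hf.exists_dist_lt μ0 (show 0 < ε / 4 by linarith)
  have h3 : a f (i + 1) μ0 < ε / 4 := by
    refine lt_of_le_of_lt (ContinuousLinearMap.opNorm_le_bound _ dist_nonneg fun w => ?_) hi
    have : f i w = 0 := (Submodule.mem_iInf _).1 w.2 (Fin.last i)
    have h4 := (μ0 - f i).le_opNorm w
    rw [sub_apply, this, sub_zero] at h4
    rw [dist_eq_norm]
    exact h4
  have h4 := ((h1 (i + 1)).mono_left hg).eventually (gt_mem_nhds h3)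
  choose e e1 e2 using fun k => a_dec (f := f) (i + 1) (μ k)
  set V := Submodule.span ℝ (range fun j : Fin (i + 1) => f j)
  have : FiniteDimensional ℝ V := FiniteDimensional.span_of_finite ℝ (finite_range _)
  have : ProperSpace V := FiniteDimensional.proper ℝ V
  obtain ⟨v, -, hv⟩ := (isCompact_closedBall (0 : V) 2).ultrafilter_le_nhds
    (g.map fun k => ⟨e k, e1 k⟩) (by
      rw [le_principal_iff, Ultrafilter.coe_map, mem_map]
      refine univ_mem' fun k => ?_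
      show dist (e k) 0 ≤ 2
      rw [dist_zero_right]
      linarith [norm_sub_norm_le (e k) (μ k), norm_sub_rev (e k) (μ k), e2 k, h0 k,
        a_le (f := f) (i + 1) (μ k)])
  have h5 : Tendsto e g (𝓝 v.1) := (continuous_subtype_val.tendsto v).comp hv
  have h6 : ‖μ0 - v.1‖ ≤ 2 * (ε / 4) := hn _ _ fun j => by
    refine le_of_tendsto (((h2 j).mono_left hg).sub
      (((ContinuousLinearMap.apply ℝ ℝ (z j)).continuous.tendsto _).comp h5)).abs ?_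
    filter_upwards [h4] with k hk
    exact ((μ k - e k).le_opNorm _).trans
      ((mul_le_of_le_one_right (norm_nonneg _) (hz j)).trans ((e2 k).trans_lt hk).le)
  filter_upwards [h4, Metric.tendsto_nhds.1 h5 _ (show 0 < ε / 4 by linarith)] with k a1 a2
  have := dist_triangle4 (μ k) (e k) v.1 μ0
  rw [dist_eq_norm (μ k) (e k), e2, dist_comm v.1 μ0, dist_eq_norm μ0] at this
  linarith

noncomputable def T (f : ℕ → G →L[ℝ] ℝ) (z : ℕ → G) (μ : G →L[ℝ] ℝ) (j : ℕ) : ℝ :=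
  (1 / 2) ^ j * (a f j μ ^ 2 + μ (z j) ^ 2)

noncomputable def Q (f : ℕ → G →L[ℝ] ℝ) (z : ℕ → G) (μ : G →L[ℝ] ℝ) : ℝ :=
  ‖μ‖ ^ 2 + ∑' j, T f z μ j

lemma T_nn (μ : G →L[ℝ] ℝ) (j : ℕ) : 0 ≤ T f z μ j := by unfold T; positivity

lemma T_le (hz : ∀ i, ‖z i‖ ≤ 1) (μ : G →L[ℝ] ℝ) (j : ℕ) :
    T f z μ j ≤ 2 * ‖μ‖ ^ 2 * (1 / 2) ^ j := by
  have a1 := pow_le_pow_left₀ (a_nn _ _) (a_le (f := f) j μ) 2
  have a2 := pow_le_pow_left₀ (norm_nonneg _)
    ((μ.le_opNorm (z j)).trans (mul_le_of_le_one_right (norm_nonneg _) (hz j))) 2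
  rw [Real.norm_eq_abs, sq_abs] at a2
  rw [mul_comm]
  exact mul_le_mul_of_nonneg_left (by linarith) (by positivity)

lemma T_sum (hz : ∀ i, ‖z i‖ ≤ 1) (μ : G →L[ℝ] ℝ) : Summable (T f z μ) :=
  .of_nonneg_of_le (T_nn μ) (T_le hz μ) (summable_geometric_two.mul_left _)

lemma Q_le (hz : ∀ i, ‖z i‖ ≤ 1) (μ : G →L[ℝ] ℝ) : Q f z μ ≤ 5 * ‖μ‖ ^ 2 := by
  have := (T_sum (f := f) hz μ).tsum_le_tsum (T_le hz μ) (summable_geometric_two.mul_left _)
  rw [tsum_mul_left, tsum_geometric_two] at this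
  unfold Q
  linarith

lemma le_Q (μ : G →L[ℝ] ℝ) : ‖μ‖ ^ 2 ≤ Q f z μ := le_add_of_nonneg_right (tsum_nonneg (T_nn μ))

lemma Q_smul (c : ℝ) (μ : G →L[ℝ] ℝ) : Q f z (c • μ) = c ^ 2 * Q f z μ := by
  unfold Q T
  rw [mul_add, ← tsum_mul_left, norm_smul, mul_pow, Real.norm_eq_abs, sq_abs]
  congr 2
  ext j
  rw [a_smul, smul_apply, smul_eq_mul, mul_pow, sq_abs]
  ring

lemma Q_def (hz : ∀ i, ‖z i‖ ≤ 1) (μ ν : G →L[ℝ] ℝ) (j : ℕ) :
    (1 / 2) ^ j * ((a f j μ - a f j ν) ^ 2 + (μ (z j) - ν (z j)) ^ 2) ≤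
      2 * Q f z μ + 2 * Q f z ν - Q f z (μ + ν) := by
  have h1 : ∀ j, (1 / 2) ^ j * ((a f j μ - a f j ν) ^ 2 + (μ (z j) - ν (z j)) ^ 2) ≤
      2 * T f z μ j + 2 * T f z ν j - T f z (μ + ν) j := fun j => by
    have := pow_le_pow_left₀ (a_nn _ _) (a_add (f := f) j μ ν) 2
    unfold T
    rw [add_apply]
    nlinarith [pow_pos (show (0 : ℝ) < 1 / 2 by norm_num) j]
  have h2 := le_hasSum ((((T_sum (f := f) hz μ).hasSum.mul_left 2).add
    ((T_sum (f := f) hz ν).hasSum.mul_left 2)).sub (T_sum (f := f) hz (μ + ν)).hasSum) j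
    fun i _ => le_trans (by positivity) (h1 i)
  have h3 := pow_le_pow_left₀ (norm_nonneg _) (norm_add_le μ ν) 2
  unfold Q
  nlinarith [h1 j, sq_nonneg (‖μ‖ - ‖ν‖)]

lemma Q_att (hz : ∀ i, ‖z i‖ ≤ 1) (x : G) :
    ∃ μ, Q f z μ ≤ 1 ∧ ∀ ν, Q f z ν ≤ 1 → ν x ≤ μ x := by
  have h1 : IsClosed {μ : WeakDual ℝ G | Q f z (WeakDual.toStrongDual μ) ≤ 1} := by
    have : ∀ N, LowerSemicontinuous fun μ : WeakDual ℝ G =>
        ‖(WeakDual.toStrongDual μ).comp (.id ℝ G)‖ ^ 2 +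
          ∑ j ∈ Finset.range N, T f z (WeakDual.toStrongDual μ) j := fun N =>
      (lsc_comp _).add (lowerSemicontinuous_sum fun j _ =>
        (continuous_const_mul _).comp_lowerSemicontinuous ((lsc_comp _).add
          ((WeakDual.eval_continuous (z j)).pow 2).lowerSemicontinuous)
          (monotone_id.const_mul (by positivity)))
    convert isClosed_iInter fun N => (this N).isClosed_preimage 1
    ext μ
    simp only [mem_ofPred_eq, mem_iInter, mem_preimage, mem_Iic, ContinuousLinearMap.comp_id, Q]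
    refine ⟨fun h N => le_trans ?_ h, fun h => ?_⟩
    · gcongr
      exact (T_sum hz _).sum_le_tsum _ fun j _ => T_nn _ j
    · linarith [Real.tsum_le_of_sum_range_le (T_nn (f := f) (z := z) (WeakDual.toStrongDual μ))
        fun N => le_sub_iff_add_le'.2 (h N)]
  obtain ⟨μ, h2, h3⟩ := ((WeakDual.isCompact_closedBall (0 : G →L[ℝ] ℝ) 1).of_isClosed_subset h1
    fun μ hμ => mem_closedBall_zero_iff.2 ((sq_le_one_iff₀ (norm_nonneg _)).1
      ((le_Q _).trans hμ))).exists_isMaxOn ⟨0, by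
        simpa using (Q_le (f := f) hz 0).trans (show _ ≤ (1 : ℝ) by simp)⟩
      (WeakDual.eval_continuous x).continuousOn
  exact ⟨_, h2, fun ν hν => h3 (a := StrongDual.toWeakDual ν) hν⟩

theorem kadec [SeparableSpace (G →L[ℝ] ℝ)] : ∃ n : Seminorm ℝ G,
    (∀ x, ‖x‖ ≤ 3 * n x ∧ n x ≤ ‖x‖) ∧ ∀ x, DifferentiableAt ℝ (fun y => n y ^ 2) x := by
  obtain ⟨f, hf⟩ := exists_dense_seq (G →L[ℝ] ℝ)
  have h1 : ∀ i, ∃ w, ‖w‖ ≤ 1 ∧ ‖f i‖ / 2 ≤ |f i w| := fun i => by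
    rcases (norm_nonneg (f i)).eq_or_lt with h | h
    · exact ⟨0, by simp, by simp [← h]⟩
    · obtain ⟨w, h1, h2⟩ := (f i).exists_lt_apply_of_lt_opNorm (half_lt_self h)
      exact ⟨w, h1.le, h2.le⟩
  choose z hz z2 using h1
  have hn : ∀ (ν : G →L[ℝ] ℝ) c, (∀ i, |ν (z i)| ≤ c) → ‖ν‖ ≤ 2 * c := fun ν c h =>
    le_of_forall_pos_le_add fun ε hε => by
      obtain ⟨i, hi⟩ := hf.exists_dist_lt ν (show 0 < ε / 3 by linarith)
      rw [dist_eq_norm] at hi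
      have a1 : |ν (z i) - f i (z i)| ≤ ‖ν - f i‖ := ((ν - f i).le_opNorm _).trans
        (mul_le_of_le_one_right (norm_nonneg _) (hz i))
      linarith [norm_sub_norm_le ν (f i), abs_sub_abs_le_abs_sub (f i (z i)) (ν (z i)),
        abs_sub_comm (f i (z i)) (ν (z i)), h i, z2 i]
  have q1 : ∀ μ, Q f z μ ≤ 1 → ‖μ‖ ≤ 1 := fun μ h =>
    (sq_le_one_iff₀ (norm_nonneg _)).1 ((le_Q _).trans h)
  have q2 : ∀ (μ : {μ // Q f z μ ≤ 1}) x, |μ.1 x| ≤ ‖x‖ := fun μ x =>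
    (μ.1.le_opNorm x).trans (mul_le_of_le_one_left (norm_nonneg _) (q1 _ μ.2))
  have hb : ∀ x, BddAbove (range fun μ : {μ // Q f z μ ≤ 1} =>
      (normSeminorm ℝ ℝ).comp (μ.1 : G →ₗ[ℝ] ℝ) x) := fun x =>
    ⟨‖x‖, by rintro _ ⟨μ, rfl⟩; exact q2 μ x⟩
  set n := ssup _ hb
  have n1 : ∀ μ x, Q f z μ ≤ 1 → |μ x| ≤ n x := fun μ x h => le_ciSup (hb x) ⟨μ, h⟩
  have n2 : ∀ x, n x ≤ ‖x‖ := fun x => Real.iSup_le (q2 · x) (norm_nonneg _)
  have n3 : ∀ x, ‖x‖ ≤ 3 * n x := fun x => by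
    obtain ⟨g, g1, g2⟩ := exists_dual_vector'' ℝ x
    have := n1 ((1 / 3 : ℝ) • g) x (by
      rw [Q_smul]
      nlinarith [Q_le (f := f) hz g, pow_le_one₀ (n := 2) (norm_nonneg _) g1])
    rw [smul_apply, show g x = ‖x‖ from g2, smul_eq_mul] at this
    linarith [le_abs_self (1 / 3 * ‖x‖)]
  have n4 : ∀ x, ∃ μ, Q f z μ ≤ 1 ∧ μ x = n x := fun x => by
    obtain ⟨μ, h1, h2⟩ := Q_att (f := f) hz x
    have h3 : ∀ ν : {μ // Q f z μ ≤ 1}, |ν.1 x| ≤ μ x := fun ν => abs_le.2 ⟨by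
      have := h2 ((-1 : ℝ) • ν.1) (by rw [Q_smul]; simpa using ν.2)
      rw [smul_apply, smul_eq_mul] at this
      linarith, h2 _ ν.2⟩
    exact ⟨μ, h1, le_antisymm ((le_abs_self _).trans (n1 μ x h1))
      (Real.iSup_le h3 ((abs_nonneg _).trans (h3 ⟨μ, h1⟩)))⟩
  have n5 : ∀ μ x, μ x ^ 2 ≤ Q f z μ * n x ^ 2 := fun μ x => by
    rcases ((sq_nonneg _).trans (le_Q (f := f) (z := z) μ)).eq_or_lt with h | h
    · have : μ = 0 := norm_eq_zero.1 (pow_eq_zero_iff two_ne_zero |>.1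
        (le_antisymm ((le_Q μ).trans h.ge) (sq_nonneg _)))
      simp [this]
      exact mul_nonneg ((sq_nonneg _).trans (le_Q _)) (sq_nonneg _)
    · have a1 := n1 ((√(Q f z μ))⁻¹ • μ) x (by
        rw [Q_smul, inv_pow, Real.sq_sqrt h.le, inv_mul_cancel₀ h.ne'])
      have a2 := pow_le_pow_left₀ (abs_nonneg _) a1 2
      rwa [sq_abs, smul_apply, smul_eq_mul, mul_pow, inv_pow, Real.sq_sqrt h.le,
        inv_mul_le_iff₀ h] at a2
  refine ⟨n, fun x => ⟨n3 x, n2 x⟩, fun x => ?_⟩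
  rcases eq_or_ne x 0 with rfl | hx
  · refine (maj (l := 0) (fun h => ?_) (sq_o (.id ℝ G)) (Eventually.of_forall fun h => ?_)
      ).differentiableAt
    · simp only [map_zero]; norm_num
    · simpa using pow_le_pow_left₀ (apply_nonneg _ _) (n2 h) 2
  have x0 : 0 < n x := by linarith [n3 x, norm_pos_iff.2 hx]
  choose ν ν1 ν2 using n4
  have nc : Continuous n := (LipschitzWith.of_le_add fun u v => by
    have := map_add_le_add n v (u - v)
    rw [add_sub_cancel] at this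
    rw [dist_eq_norm]
    linarith [n2 (u - v)]).continuous
  have h2 : Tendsto (fun h => ν (x + h) x) (𝓝 0) (𝓝 (n x)) := by
    have a1 : Tendsto (fun h => n (x + h)) (𝓝 0) (𝓝 (n x)) :=
      (nc.comp (continuous_const_add x)).tendsto' _ _ (by simp)
    have a2 : Tendsto (fun h => ν (x + h) h) (𝓝 0) (𝓝 0) :=
      squeeze_zero_norm (fun h => q2 ⟨_, ν1 (x + h)⟩ h) tendsto_norm_zero
    simpa only [← ν2 (x + _), map_add, add_sub_cancel_right, sub_zero] using a1.sub a2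
  have h3 : Tendsto (fun h => 4 - (ν (x + h) x + n x) ^ 2 / n x ^ 2) (𝓝 0) (𝓝 0) := by
    convert (((h2.add_const (n x)).pow 2).div_const (n x ^ 2)).const_sub 4
    field_simp
    ring
  have h4 : ∀ j, Tendsto (fun h => (a f j (ν (x + h)) - a f j (ν x)) ^ 2 +
      (ν (x + h) (z j) - ν x (z j)) ^ 2) (𝓝 0) (𝓝 0) := fun j => by
    refine squeeze_zero (fun h => by positivity) (fun h => ?_)
      (by simpa using h3.div_const ((1 / 2 : ℝ) ^ j))
    have a1 := Q_def (f := f) hz (ν (x + h)) (ν x) j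
    have a2 := n5 (ν (x + h) + ν x) x
    rw [add_apply, ν2 x, ← div_le_iff₀ (by positivity)] at a2
    have a3 : (0 : ℝ) < (2 ^ j)⁻¹ := by positivity
    rw [one_div, inv_pow] at a1
    refine le_of_mul_le_mul_left ?_ a3
    rw [← mul_assoc, mul_right_comm, inv_mul_cancel₀ (by positivity), one_mul]
    linarith [ν1 (x + h), ν1 x]
  have h5 : ∀ {u : G → ℝ} {c : ℝ}, Tendsto (fun h => (u h - c) ^ 2) (𝓝 0) (𝓝 0) →
      Tendsto u (𝓝 0) (𝓝 c) := fun h => tendsto_iff_norm_sub_tendsto_zero.2 (by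
    simpa only [Real.sqrt_sq_eq_abs, Real.sqrt_zero, Real.norm_eq_abs] using h.sqrt)
  have h6 := lur hf hz hn (fun h => q1 _ (ν1 (x + h)))
    (fun j => h5 (squeeze_zero (fun _ => sq_nonneg _)
      (fun _ => le_add_of_nonneg_right (sq_nonneg _)) (h4 j)))
    (fun j => h5 (squeeze_zero (fun _ => sq_nonneg _)
      (fun _ => le_add_of_nonneg_left (sq_nonneg _)) (h4 j)))
  refine (maj (f := n) (l := ν x) (r := fun h => ‖ν (x + h) - ν x‖ * ‖h‖) (fun h => ?_) ?_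
    (Eventually.of_forall fun h => ?_)).differentiableAt.pow 2
  · have := map_add_le_add n (x + h) (x + -h)
    rwa [show x + h + (x + -h) = (2 : ℝ) • x by module, map_smul_eq_mul, Real.norm_two] at this
  · exact ((((isLittleO_one_iff ℝ).2 (tendsto_iff_norm_sub_tendsto_zero.1 h6)).mul_isBigO
      (isBigO_refl (fun h : G => ‖h‖) _)).congr_right fun _ => one_mul _).of_norm_right
  · have a1 := (le_abs_self _).trans ((ν (x + h) - ν x).le_opNorm h)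
    rw [sub_apply] at a1
    rw [← ν2 (x + h), map_add]
    linarith [(le_abs_self _).trans (n1 _ x (ν1 (x + h)))]

lemma total [SeparableSpace (G →L[ℝ] ℝ)] : ∃ φ : ℕ → G →L[ℝ] ℝ,
    (∀ j x, |φ j x| ≤ ‖x‖) ∧ ∀ x ≠ 0, ∃ j, φ j x ≠ 0 := by
  obtain ⟨f, hf⟩ := exists_dense_seq (G →L[ℝ] ℝ)
  refine ⟨fun j => (‖f j‖ + 1)⁻¹ • f j, fun j x => ?_, fun x hx => ?_⟩
  · rw [smul_apply, smul_eq_mul, abs_mul, abs_of_pos (by positivity),
      inv_mul_le_iff₀ (by positivity)]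
    exact ((f j).le_opNorm x).trans (by gcongr; linarith)
  · obtain ⟨g, -, g2⟩ := exists_dual_vector'' ℝ x
    obtain ⟨j, hj⟩ := hf.exists_mem_open (isOpen_ne_fun
      (ContinuousLinearMap.apply ℝ ℝ x).continuous (continuous_const (y := 0)))
      ⟨g, g2.trans_ne (norm_ne_zero_iff.2 hx)⟩
    exact ⟨j, mul_ne_zero (by positivity) hj⟩

end Pool.Agent.H87.TalF
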