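import Mathlib
import Pool.Agent.H87.TalF2

/-! Smoothing a supremum of seminorms with small error. -/

namespace Pool.Agent.H87.DenF

open Filter Topology Set Metric Asymptotics
open Pool.Agent.H87.TalF

variable {X : Type*} [NormedAddCommGroup X] [NormedSpace ℝ X]

lemma sup_le {E L : Type*} [AddCommGroup E] [Module ℝ E] (m : L → Seminorm ℝ E) (z : E) {b : ℝ}
    (h0 : 0 ≤ b) (h : ∀ t, m t z ≤ b) : (⨆ t, m t) z ≤ b := by
  by_cases hb : BddAbove (range m)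
  · rw [Seminorm.iSup_apply hb]; exact Real.iSup_le h h0
  · have : (⨆ t, m t) = ⊥ := dif_neg (mt Seminorm.bddAbove_iff.2 hb)
    rw [this]; exact h0

lemma le_sup {E L : Type*} [AddCommGroup E] [Module ℝ E] (m : L → Seminorm ℝ E) (B : E → ℝ)
    (h : ∀ t z, m t z ≤ B z) (t : L) (z : E) : m t z ≤ (⨆ t, m t) z :=
  le_ciSup (f := m) (Seminorm.bddAbove_range_iff.2 fun z =>
    ⟨B z, by rintro _ ⟨t, rfl⟩; exact h t z⟩) t z

abbrev HH (L : Type) : Type := lp (fun _ : L => ℝ) 2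

variable {L : Type}

def evl (t : L) : HH L →ₗ[ℝ] ℝ := ⟨⟨fun y => y t, fun _ _ => rfl⟩, fun _ _ => rfl⟩

noncomputable def mm (n : L → Seminorm ℝ X) (τ : L → X →L[ℝ] ℝ) (t : L) :
    Seminorm ℝ (X × HH L) :=
  hyp ((n t).comp (LinearMap.fst ℝ X (HH L))) ((normSeminorm ℝ ℝ).comp
    ((τ t : X →ₗ[ℝ] ℝ).comp (LinearMap.fst ℝ X (HH L)) - (evl t).comp (LinearMap.snd ℝ X (HH L))))

noncomputable def NN (n : L → Seminorm ℝ X) (τ : L → X →L[ℝ] ℝ) : Seminorm ℝ (X × HH L) :=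
  hyp (⨆ t, mm n τ t) ((normSeminorm ℝ (HH L)).comp (LinearMap.snd ℝ X (HH L)))

noncomputable def Sm (n : L → Seminorm ℝ X) (τ : L → X →L[ℝ] ℝ) : Seminorm ℝ X := sinf (NN n τ)

variable {n n' : L → Seminorm ℝ X} {τ τ' : L → X →L[ℝ] ℝ} {K : ℝ}

lemma m1 (t : L) (x : X) (y : HH L) : mm n τ t (x, y) ^ 2 = n t x ^ 2 + (τ t x - y t) ^ 2 :=
  (hyp_sq _ _ _).trans (congrArg _ (sq_abs _))

lemma m2 (t : L) (x : X) (y : HH L) : mm n τ t (x, y) ≤ n t x + |τ t x| + ‖y‖ := by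
  have a1 : |y t| ≤ ‖y‖ := lp.norm_apply_le_norm two_ne_zero y t
  have a2 : |τ t x - y t| ≤ |τ t x| + ‖y‖ := (abs_sub _ _).trans (add_le_add le_rfl a1)
  refine le_of_sq_le_sq ?_ (by positivity) |>.trans le_rfl
  rw [m1, ← sq_abs (τ t x - y t)]
  nlinarith [pow_le_pow_left₀ (abs_nonneg _) a2 2, apply_nonneg (n t) x, norm_nonneg y,
    abs_nonneg (τ t x)]

lemma m3 (t : L) (x : X) (y : HH L) : n t x ≤ mm n τ t (x, y) :=
  le_of_sq_le_sq (by rw [m1]; nlinarith [sq_nonneg (τ t x - y t)]) (apply_nonneg _ _)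

lemma N1 (x : X) (y : HH L) : NN n τ (x, y) ^ 2 = (⨆ t, mm n τ t) (x, y) ^ 2 + ‖y‖ ^ 2 :=
  hyp_sq _ _ _

lemma p1 (x : X) (y : HH L) : Sm n τ x ≤ NN n τ (x, y) := ciInf_le (bbl (NN n τ) x) y

lemma M1 (hb : ∀ t x, n t x + |τ t x| ≤ K * ‖x‖) (t : L) (z : X × HH L) :
    mm n τ t z ≤ (⨆ t, mm n τ t) z :=
  le_sup _ (fun z => K * ‖z.1‖ + ‖z.2‖)
    (fun t z => (m2 t z.1 z.2).trans (add_le_add (hb t z.1) le_rfl)) t z

lemma Sm_le {x : X} {B : ℝ} (h0 : 0 ≤ B) (h : ∀ t, n t x + |τ t x| ≤ B) : Sm n τ x ≤ B := by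
  refine (p1 x 0).trans (le_of_sq_le_sq ?_ h0)
  have := sup_le (mm n τ) (x, 0) h0 fun t => (m2 t x 0).trans (by simpa using h t)
  rw [N1]
  simpa using pow_le_pow_left₀ (apply_nonneg _ _) this 2

lemma le_Sm (hb : ∀ t x, n t x + |τ t x| ≤ K * ‖x‖) (t : L) (x : X) : n t x ≤ Sm n τ x :=
  le_ciInf fun y => ((m3 t x y).trans (M1 hb t _)).trans
    (le_of_sq_le_sq (by rw [N1]; nlinarith [sq_nonneg ‖y‖]) (apply_nonneg _ _))

lemma Sm_cmp (hb : ∀ t x, n' t x + |τ' t x| ≤ K * ‖x‖) {x : X}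
    (h : ∀ t, (n t x ≤ n' t x ∧ τ t x = τ' t x) ∨ (τ t x = 0 ∧ ∃ s, n t x ≤ n' s x)) :
    Sm n τ x ≤ Sm n' τ' x := by
  classical
  refine le_ciInf fun y' => ?_
  have h1 : ∀ t, ‖if n t x ≤ n' t x ∧ τ t x = τ' t x then y' t else 0‖ ≤ ‖y' t‖ := fun t => by
    split_ifs <;> simp
  let y : HH L := ⟨fun t => if n t x ≤ n' t x ∧ τ t x = τ' t x then y' t else 0,
    (lp.memℓp y').mono' h1⟩
  have h2 : ‖y‖ ≤ ‖y'‖ := lp.norm_mono two_ne_zero h1
  refine (p1 x y).trans (le_of_sq_le_sq ?_ (apply_nonneg _ _))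
  rw [N1, N1]
  gcongr
  refine sup_le _ _ (apply_nonneg _ _) fun t => ?_
  have h3 : y t = if n t x ≤ n' t x ∧ τ t x = τ' t x then y' t else 0 := rfl
  by_cases h4 : n t x ≤ n' t x ∧ τ t x = τ' t x
  · refine le_trans (le_of_sq_le_sq ?_ (apply_nonneg _ _)) (M1 hb t _)
    rw [m1, m1, h3, if_pos h4, h4.2]
    gcongr
    exact h4.1
  · obtain ⟨h5, s, h6⟩ := (h t).resolve_left h4
    refine le_trans (le_of_sq_le_sq ?_ (apply_nonneg _ _)) ((m3 s x y').trans (M1 hb s _))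
    rw [m1, h3, if_neg h4, h5]
    simpa using pow_le_pow_left₀ (apply_nonneg _ _) h6 2

lemma diff0 {p : Seminorm ℝ X} {C : ℝ} (h : ∀ x, p x ≤ C * ‖x‖) :
    DifferentiableAt ℝ (fun z => p z ^ 2) 0 := by
  refine (maj (l := 0) (fun h => ?_) (sq_o (C • .id ℝ X)) (Eventually.of_forall fun k => ?_)
      ).differentiableAt
  · simp only [map_zero]; norm_num
  · have := pow_le_pow_left₀ (apply_nonneg _ _) ((h k).trans
      (mul_le_mul_of_nonneg_right (le_abs_self C) (norm_nonneg _))) 2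
    simpa [norm_smul] using this

theorem Sm_diff (hK : 0 ≤ K) (hb : ∀ t x, n t x + |τ t x| ≤ K * ‖x‖)
    (hd : ∀ t x, DifferentiableAt ℝ (fun z => n t z ^ 2) x)
    (hc : ∀ x, ∀ ε > 0, {t | ε ≤ |τ t x|}.Finite)
    (ha : ∀ x ≠ 0, ∃ t, (∀ s, n s x ≤ n t x) ∧ τ t x ≠ 0) (x : X) :
    DifferentiableAt ℝ (fun z => Sm n τ z ^ 2) x := by
  classical
  rcases eq_or_ne x 0 with rfl | hx
  · exact diff0 fun x => Sm_le (by positivity) fun t => hb t x
  obtain ⟨t, s1, t2⟩ := ha x hx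
  set S := n t x with hS
  have s0 : 0 ≤ S := apply_nonneg _ _
  set M := ⨆ t, mm n τ t with hM
  have M3 : ∀ z b, 0 ≤ b → (∀ t, mm n τ t z ^ 2 ≤ b) → M z ^ 2 ≤ b := fun z b h1 h2 =>
    (Real.le_sqrt (apply_nonneg _ _) h1).1
      (sup_le _ z (Real.sqrt_nonneg _) fun t => Real.le_sqrt_of_sq_le (h2 t))
  have m4 : ∀ t x (y : HH L), mm n τ t (x, y) ≤ K * ‖x‖ + ‖y‖ := fun t x y =>
    (m2 t x y).trans (add_le_add (hb t x) le_rfl)
  have M4 : ∀ x (y : HH L), M (x, y) ≤ K * ‖x‖ + ‖y‖ := fun x y =>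
    sup_le _ _ (by positivity) fun t => m4 t x y
  have M5 : ∀ y : HH L, S ≤ M (x, y) := fun y => (m3 t x y).trans (M1 hb t _)
  obtain ⟨y, hy⟩ := exists_min (g := fun y : HH L => M (x, y) ^ 2) (fun _ => sq_nonneg _)
    ((LipschitzWith.of_le_add fun y y' => by
      have a1 := map_add_le_add M (x, y') (0, y - y')
      have a2 := M4 0 (y - y')
      simp only [Prod.mk_add_mk, add_zero, add_sub_cancel, norm_zero, mul_zero] at a1 a2
      rw [dist_eq_norm]
      linarith).continuous.pow 2) fun y y' => by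
      have := mid_sq M (x, y) (x, y')
      have a1 : (1 / 2 : ℝ) • ((x, y) + (x, y')) = (x, (1 / 2 : ℝ) • (y + y')) :=
        Prod.ext (by simp only [Prod.mk_add_mk, Prod.smul_mk]; module) rfl
      rwa [a1] at this
  have p3 : Sm n τ x ^ 2 = M (x, y) ^ 2 + ‖y‖ ^ 2 := by
    rw [← N1]
    congr 1
    exact le_antisymm (p1 x y) (le_ciInf fun y' =>
      le_of_sq_le_sq (by rw [N1, N1]; exact hy y') (apply_nonneg _ _))
  have h1 : S < M (x, y) := by
    by_contra! h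
    have h0 := le_antisymm h (M5 y)
    have a1 : y t = τ t x := by
      have := pow_le_pow_left₀ (apply_nonneg _ _) ((M1 hb t _).trans h) 2
      rw [m1] at this
      nlinarith [sq_nonneg (τ t x - y t)]
    have a2 := hy (y - lp.single 2 t (τ t x / 2))
    have a3 : M (x, y - lp.single 2 t (τ t x / 2)) ^ 2 ≤ S ^ 2 + (τ t x / 2) ^ 2 :=
      M3 _ _ (by positivity) fun t' => by
        rcases eq_or_ne t' t with rfl | ht
        · rw [m1, lp.coeFn_sub, Pi.sub_apply, lp.single_apply_self, a1]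
          exact le_of_eq (by ring)
        · have := pow_le_pow_left₀ (apply_nonneg _ _) ((M1 hb t' _).trans h) 2
          rw [m1] at this
          rw [m1, lp.coeFn_sub, Pi.sub_apply, lp.single_apply_ne _ _ _ ht, sub_zero]
          nlinarith [sq_nonneg (τ t x / 2)]
    rw [norm_sub_sq_real, lp.inner_single_right, lp.norm_single (by norm_num), h0, a1] at a2
    simp only [RCLike.inner_apply, conj_trivial, Real.norm_eq_abs, sq_abs] at a2
    nlinarith [sq_pos_of_ne_zero t2]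
  obtain ⟨θ, θ0, θ1⟩ : ∃ θ > 0, S ^ 2 + θ ^ 2 < M (x, y) ^ 2 := by
    have : 0 < (M (x, y) ^ 2 - S ^ 2) / 2 := by nlinarith
    exact ⟨_, Real.sqrt_pos.2 this, by rw [Real.sq_sqrt this.le]; linarith⟩
  have hA : {t | θ ≤ |τ t x - y t|}.Finite := by
    have a1 := ((lp.memℓp y).summable (by norm_num)).tendsto_cofinite_zero.eventually
      (gt_mem_nhds (show 0 < (θ / 2) ^ 2 by positivity))
    refine ((hc x _ (half_pos θ0)).union a1).subset fun t ht => ?_
    by_contra! h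
    simp only [mem_union, mem_ofPred_eq, mem_compl_iff, not_or, not_le, not_not,
      ENNReal.toReal_ofNat, Real.rpow_ofNat, Real.norm_eq_abs] at h ht
    linarith [abs_sub (τ t x) (y t), lt_of_pow_lt_pow_left₀ 2 (half_pos θ0).le h.2]
  choose D hD using fun t => hd t x
  let κ : L → X →L[ℝ] ℝ := fun t => τ t + (2 * (τ t x - y t))⁻¹ • D t
  let k : X →L[ℝ] HH L := ∑ t ∈ hA.toFinset, (κ t).smulRight (lp.single 2 t 1)
  have k1 : ∀ h, ∀ t ∈ hA.toFinset, k h t = κ t h := fun h t ht => by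
    show evl t (k h) = _
    simp only [k, FunLike.coe_sum, Finset.sum_apply, map_sum,
      ContinuousLinearMap.smulRight_apply, map_smul]
    rw [Finset.sum_eq_single_of_mem t ht fun s _ hs => by
      rw [show evl t (lp.single 2 s 1) = 0 from
        lp.single_apply_ne (E := fun _ : L => ℝ) 2 s 1 hs.symm, smul_zero],
      show evl t (lp.single 2 t 1) = 1 from lp.single_apply_self (E := fun _ : L => ℝ) 2 t 1,
      smul_eq_mul, mul_one]
  let e : L → X → ℝ := fun t h => mm n τ t (x + h, y + k h) ^ 2 - mm n τ t (x, y) ^ 2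
  have e1 : ∀ t ∈ hA.toFinset, e t =o[𝓝 0] fun h => h := fun t ht => by
    have a0 : τ t x - y t ≠ 0 := abs_pos.1 (θ0.trans_le (hA.mem_toFinset.1 ht))
    refine ((hasFDerivAt_iff_isLittleO_nhds_zero.1 (hD t)).add
      (sq_o ((2 * (τ t x - y t))⁻¹ • D t))).congr_left fun h => ?_
    have a1 : (y + k h) t = y t + κ t h := by rw [← k1 h t ht]; rfl
    simp only [e, m1, a1, κ, add_apply, smul_apply,
      smul_eq_mul, Real.norm_eq_abs, sq_abs, map_add (τ t)]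
    field_simp
    ring
  refine HasFDerivAt.differentiableAt (f' := (2 : ℝ) • (innerSL ℝ y).comp k) ?_
  refine maj (r := fun h => ∑ t ∈ hA.toFinset, ‖e t h‖ + ‖k h‖ ^ 2) (fun h => ?_)
    ((IsLittleO.fun_sum fun t ht => (e1 t ht).norm_left).add (sq_o k)) ?_
  · have := mid_sq (Sm n τ) (x + h) (x + -h)
    rwa [show (1 / 2 : ℝ) • (x + h + (x + -h)) = x by module] at this
  have a1 : √(S ^ 2 + θ ^ 2) < M (x, y) := Real.sqrt_lt' (s0.trans_lt h1) |>.2 θ1
  have a2 : Continuous fun h : X => K * ‖h‖ + ‖k h‖ := by fun_prop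
  filter_upwards [(a2.tendsto' 0 0 (by simp)).eventually (gt_mem_nhds (sub_pos.2 a1))] with h hh
  have a3 := pow_le_pow_left₀ (apply_nonneg _ _) (p1 (n := n) (τ := τ) (x + h) (y + k h)) 2
  have a5 : 0 ≤ ∑ t ∈ hA.toFinset, ‖e t h‖ := Finset.sum_nonneg fun _ _ => norm_nonneg _
  have a4 : M (x + h, y + k h) ^ 2 ≤ M (x, y) ^ 2 + ∑ t ∈ hA.toFinset, ‖e t h‖ :=
    M3 _ _ (by positivity) fun t => by
      by_cases ht : t ∈ hA.toFinset
      · have b1 := Finset.single_le_sum (f := fun t => ‖e t h‖) (fun _ _ => norm_nonneg _) ht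
        have b2 : mm n τ t (x + h, y + k h) ^ 2 - mm n τ t (x, y) ^ 2 ≤ ‖e t h‖ := le_abs_self _
        linarith [pow_le_pow_left₀ (apply_nonneg _ _) (M1 hb t (x, y)) 2]
      · have b1 : |τ t x - y t| ≤ θ := (not_le.1 (mt hA.mem_toFinset.2 ht)).le
        have b2 : mm n τ t (x, y) ≤ √(S ^ 2 + θ ^ 2) := Real.le_sqrt_of_sq_le (by
          rw [m1, ← sq_abs (τ t x - y t)]
          gcongr
          exact s1 t)
        have b3 : mm n τ t (x + h, y + k h) ≤ M (x, y) := by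
          have := map_add_le_add (mm n τ t) (x, y) (h, k h)
          rw [Prod.mk_add_mk] at this
          linarith [m4 t h (k h)]
        linarith [pow_le_pow_left₀ (apply_nonneg _ _) b3 2]
  rw [N1, norm_add_sq_real] at a3
  simp only [smul_apply, ContinuousLinearMap.comp_apply, innerSL_apply_apply, smul_eq_mul]
  linarith

end Pool.Agent.H87.DenF
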