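import Mathlib
import Pool.Agent.H87.DenF1

/-! Smooth approximation of seminorms with separable dual. -/

namespace Pool.Agent.H87.DenF

open Filter Topology Set Metric Asymptotics TopologicalSpace
open Pool.Agent.H87.TalF

variable {G : Type*} [NormedAddCommGroup G] [NormedSpace ℝ G]
variable {f : ℕ → G →L[ℝ] ℝ} {z : ℕ → G} {s : ℝ}

noncomputable def R (s : ℝ) (f : ℕ → G →L[ℝ] ℝ) (z : ℕ → G) (μ : G →L[ℝ] ℝ) : ℝ :=
  ‖μ‖ ^ 2 + s * ∑' j, T f z μ j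

lemma R_eq (μ : G →L[ℝ] ℝ) : R s f z μ = (1 - s) * ‖μ‖ ^ 2 + s * Q f z μ := by
  unfold R Q; ring

lemma R_le (s0 : 0 ≤ s) (hz : ∀ i, ‖z i‖ ≤ 1) (μ : G →L[ℝ] ℝ) :
    R s f z μ ≤ (1 + 4 * s) * ‖μ‖ ^ 2 := by
  rw [R_eq]; nlinarith [Q_le (f := f) hz μ]

lemma le_R (s0 : 0 ≤ s) (μ : G →L[ℝ] ℝ) : ‖μ‖ ^ 2 ≤ R s f z μ := by
  rw [R_eq]; nlinarith [le_Q (f := f) (z := z) μ]

lemma R_smul (c : ℝ) (μ : G →L[ℝ] ℝ) : R s f z (c • μ) = c ^ 2 * R s f z μ := by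
  rw [R_eq, R_eq, Q_smul, nsm, mul_pow, sq_abs]; ring

lemma R_def (s0 : 0 ≤ s) (s1 : s ≤ 1) (hz : ∀ i, ‖z i‖ ≤ 1) (μ ν : G →L[ℝ] ℝ) (j : ℕ) :
    s * (1 / 2) ^ j * ((a f j μ - a f j ν) ^ 2 + (μ (z j) - ν (z j)) ^ 2) ≤
      2 * R s f z μ + 2 * R s f z ν - R s f z (μ + ν) := by
  have h1 := mul_le_mul_of_nonneg_left (Q_def (f := f) hz μ ν j) s0
  have h3 := pow_le_pow_left₀ (norm_nonneg _) (norm_add_le μ ν) 2
  have h4 : 0 ≤ (1 - s) * (2 * ‖μ‖ ^ 2 + 2 * ‖ν‖ ^ 2 - ‖μ + ν‖ ^ 2) :=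
    mul_nonneg (by linarith) (by nlinarith [sq_nonneg (‖μ‖ - ‖ν‖)])
  rw [R_eq, R_eq, R_eq]
  nlinarith

lemma pos_of_mul_pos_left' {b : ℝ} (h : 0 < (1 + 2 * s) * b) (s0 : 0 < s) : 0 < b :=
  (mul_pos_iff_of_pos_left (by positivity)).1 h

lemma R_att (s0 : 0 ≤ s) (hz : ∀ i, ‖z i‖ ≤ 1) (x : G) :
    ∃ μ, R s f z μ ≤ 1 ∧ ∀ ν, R s f z ν ≤ 1 → ν x ≤ μ x := by
  have h1 : IsClosed {μ : WeakDual ℝ G | R s f z (WeakDual.toStrongDual μ) ≤ 1} := by
    have : ∀ N, LowerSemicontinuous fun μ : WeakDual ℝ G =>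
        ‖(WeakDual.toStrongDual μ).comp (.id ℝ G)‖ ^ 2 +
          s * ∑ j ∈ Finset.range N, T f z (WeakDual.toStrongDual μ) j := fun N =>
      (lsc_comp _).add ((continuous_const_mul s).comp_lowerSemicontinuous
        (lowerSemicontinuous_sum fun j _ =>
        (continuous_const_mul _).comp_lowerSemicontinuous ((lsc_comp _).add
          ((WeakDual.eval_continuous (z j)).pow 2).lowerSemicontinuous)
          (monotone_id.const_mul (by positivity))) (monotone_id.const_mul s0))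
    convert isClosed_iInter fun N => (this N).isClosed_preimage 1
    ext μ
    simp only [mem_ofPred_eq, mem_iInter, mem_preimage, mem_Iic, ContinuousLinearMap.comp_id, R]
    refine ⟨fun h N => le_trans ?_ h, fun h => ?_⟩
    · gcongr
      exact (T_sum hz _).sum_le_tsum _ fun j _ => T_nn _ j
    · exact le_of_tendsto' (((T_sum hz _).hasSum.tendsto_sum_nat.const_mul s).const_add _) h
  obtain ⟨μ, h2, h3⟩ := ((WeakDual.isCompact_closedBall (0 : G →L[ℝ] ℝ) 1).of_isClosed_subset h1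
    fun μ hμ => mem_closedBall_zero_iff.2 ((sq_le_one_iff₀ (norm_nonneg _)).1
      ((le_R s0 _).trans hμ))).exists_isMaxOn ⟨0, by
        simpa using (R_le (f := f) s0 hz 0).trans (show _ ≤ (1 : ℝ) by simp)⟩
      (WeakDual.eval_continuous x).continuousOn
  exact ⟨_, h2, fun ν hν => h3 (a := StrongDual.toWeakDual ν) hν⟩

theorem kadec' [SeparableSpace (G →L[ℝ] ℝ)] (s0 : 0 < s) (s1 : s ≤ 1) : ∃ n : Seminorm ℝ G,
    (∀ x, ‖x‖ ≤ (1 + 2 * s) * n x ∧ n x ≤ ‖x‖) ∧ ∀ x, DifferentiableAt ℝ (fun y => n y ^ 2) x := by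
  obtain ⟨f, hf⟩ := exists_dense_seq (G →L[ℝ] ℝ)
  have h1 : ∀ i, ∃ w, ‖w‖ ≤ 1 ∧ ‖f i‖ / 2 ≤ |f i w| := fun i => by
    rcases (norm_nonneg (f i)).eq_or_lt with h | h
    · exact ⟨0, by simp, by simp [← h]⟩
    · obtain ⟨w, h1, h2⟩ := (f i).exists_lt_apply_of_lt_opNorm (half_lt_self h)
      exact ⟨w, h1.le, h2.le⟩
  choose z hz z2 using h1
  have hn : ∀ (ν : G →L[ℝ] ℝ) c, (∀ i, |ν (z i)| ≤ c) → ‖ν‖ ≤ 2 * c := fun ν c h =>
    le_of_forall_pos_le_add fun ε hε => by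
      obtain ⟨i, hi⟩ := hf.exists_dist_lt ν (show 0 < ε / 3 by linarith)
      rw [dist_eq_norm] at hi
      have a1 : |ν (z i) - f i (z i)| ≤ ‖ν - f i‖ := ((ν - f i).le_opNorm _).trans
        (mul_le_of_le_one_right (norm_nonneg _) (hz i))
      linarith [norm_sub_norm_le ν (f i), abs_sub_abs_le_abs_sub (f i (z i)) (ν (z i)),
        abs_sub_comm (f i (z i)) (ν (z i)), h i, z2 i]
  have q1 : ∀ μ, R s f z μ ≤ 1 → ‖μ‖ ≤ 1 := fun μ h =>
    (sq_le_one_iff₀ (norm_nonneg _)).1 ((le_R s0.le _).trans h)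
  have q2 : ∀ (μ : {μ // R s f z μ ≤ 1}) x, |μ.1 x| ≤ ‖x‖ := fun μ x =>
    (μ.1.le_opNorm x).trans (mul_le_of_le_one_left (norm_nonneg _) (q1 _ μ.2))
  have hb : ∀ x, BddAbove (range fun μ : {μ // R s f z μ ≤ 1} =>
      (normSeminorm ℝ ℝ).comp (μ.1 : G →ₗ[ℝ] ℝ) x) := fun x =>
    ⟨‖x‖, by rintro _ ⟨μ, rfl⟩; exact q2 μ x⟩
  set n := ssup _ hb
  have n1 : ∀ μ x, R s f z μ ≤ 1 → |μ x| ≤ n x := fun μ x h => le_ciSup (hb x) ⟨μ, h⟩
  have n2 : ∀ x, n x ≤ ‖x‖ := fun x => Real.iSup_le (q2 · x) (norm_nonneg _)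
  have n3 : ∀ x, ‖x‖ ≤ (1 + 2 * s) * n x := fun x => by
    obtain ⟨g, g1, g2⟩ := exists_dual_vector'' ℝ x
    have := n1 ((1 + 2 * s)⁻¹ • g) x (by
      rw [R_smul, inv_pow, inv_mul_le_iff₀ (by positivity)]
      nlinarith [R_le (f := f) s0.le hz g, pow_le_one₀ (n := 2) (norm_nonneg _) g1])
    rw [smul_apply, show g x = ‖x‖ from g2, smul_eq_mul] at this
    exact (inv_mul_le_iff₀ (by positivity)).1 ((le_abs_self _).trans this)
  have n4 : ∀ x, ∃ μ, R s f z μ ≤ 1 ∧ μ x = n x := fun x => by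
    obtain ⟨μ, h1, h2⟩ := R_att (f := f) s0.le hz x
    have h3 : ∀ ν : {μ // R s f z μ ≤ 1}, |ν.1 x| ≤ μ x := fun ν => abs_le.2 ⟨by
      have := h2 ((-1 : ℝ) • ν.1) (by rw [R_smul]; simpa using ν.2)
      rw [smul_apply, smul_eq_mul] at this
      linarith, h2 _ ν.2⟩
    exact ⟨μ, h1, le_antisymm ((le_abs_self _).trans (n1 μ x h1))
      (Real.iSup_le h3 ((abs_nonneg _).trans (h3 ⟨μ, h1⟩)))⟩
  have n5 : ∀ μ x, μ x ^ 2 ≤ R s f z μ * n x ^ 2 := fun μ x => by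
    rcases ((sq_nonneg _).trans (le_R (f := f) (z := z) s0.le μ)).eq_or_lt with h | h
    · have : μ = 0 := norm_eq_zero.1 (pow_eq_zero_iff two_ne_zero |>.1
        (le_antisymm ((le_R s0.le μ).trans h.ge) (sq_nonneg _)))
      simp [this]
      exact mul_nonneg ((sq_nonneg _).trans (le_R s0.le _)) (sq_nonneg _)
    · have a1 := n1 ((√(R s f z μ))⁻¹ • μ) x (by
        rw [R_smul, inv_pow, Real.sq_sqrt h.le, inv_mul_cancel₀ h.ne'])
      have a2 := pow_le_pow_left₀ (abs_nonneg _) a1 2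
      rwa [sq_abs, smul_apply, smul_eq_mul, mul_pow, inv_pow, Real.sq_sqrt h.le,
        inv_mul_le_iff₀ h] at a2
  refine ⟨n, fun x => ⟨n3 x, n2 x⟩, fun x => ?_⟩
  rcases eq_or_ne x 0 with rfl | hx
  · refine (maj (l := 0) (fun h => ?_) (sq_o (.id ℝ G)) (Eventually.of_forall fun h => ?_)
      ).differentiableAt
    · simp only [map_zero]; norm_num
    · simpa using pow_le_pow_left₀ (apply_nonneg _ _) (n2 h) 2
  have x0 : 0 < n x := pos_of_mul_pos_left' ((norm_pos_iff.2 hx).trans_le (n3 x)) s0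
  choose ν ν1 ν2 using n4
  have nc : Continuous n := (LipschitzWith.of_le_add fun u v => by
    have := map_add_le_add n v (u - v)
    rw [add_sub_cancel] at this
    rw [dist_eq_norm]
    linarith [n2 (u - v)]).continuous
  have h2 : Tendsto (fun h => ν (x + h) x) (𝓝 0) (𝓝 (n x)) := by
    have a1 : Tendsto (fun h => n (x + h)) (𝓝 0) (𝓝 (n x)) :=
      (nc.comp (continuous_const_add x)).tendsto' _ _ (by simp)
    have a2 : Tendsto (fun h => ν (x + h) h) (𝓝 0) (𝓝 0) :=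
      squeeze_zero_norm (fun h => q2 ⟨_, ν1 (x + h)⟩ h) tendsto_norm_zero
    simpa only [← ν2 (x + _), map_add, add_sub_cancel_right, sub_zero] using a1.sub a2
  have h3 : Tendsto (fun h => 4 - (ν (x + h) x + n x) ^ 2 / n x ^ 2) (𝓝 0) (𝓝 0) := by
    convert (((h2.add_const (n x)).pow 2).div_const (n x ^ 2)).const_sub 4
    field_simp
    ring
  have h4 : ∀ j, Tendsto (fun h => (a f j (ν (x + h)) - a f j (ν x)) ^ 2 +
      (ν (x + h) (z j) - ν x (z j)) ^ 2) (𝓝 0) (𝓝 0) := fun j => by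
    refine squeeze_zero (fun h => by positivity) (fun h => ?_)
      (by simpa only [zero_div] using h3.div_const (s * (1 / 2 : ℝ) ^ j))
    have a1 := R_def (f := f) s0.le s1 hz (ν (x + h)) (ν x) j
    have a2 := n5 (ν (x + h) + ν x) x
    rw [add_apply, ν2 x, ← div_le_iff₀ (by positivity)] at a2
    rw [le_div_iff₀' (by positivity)]
    linarith [ν1 (x + h), ν1 x]
  have h5 : ∀ {u : G → ℝ} {c : ℝ}, Tendsto (fun h => (u h - c) ^ 2) (𝓝 0) (𝓝 0) →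
      Tendsto u (𝓝 0) (𝓝 c) := fun h => tendsto_iff_norm_sub_tendsto_zero.2 (by
    simpa only [Real.sqrt_sq_eq_abs, Real.sqrt_zero, Real.norm_eq_abs] using h.sqrt)
  have h6 := lur hf hz hn (fun h => q1 _ (ν1 (x + h)))
    (fun j => h5 (squeeze_zero (fun _ => sq_nonneg _)
      (fun _ => le_add_of_nonneg_right (sq_nonneg _)) (h4 j)))
    (fun j => h5 (squeeze_zero (fun _ => sq_nonneg _)
      (fun _ => le_add_of_nonneg_left (sq_nonneg _)) (h4 j)))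
  refine (maj (f := n) (l := ν x) (r := fun h => ‖ν (x + h) - ν x‖ * ‖h‖) (fun h => ?_) ?_
    (Eventually.of_forall fun h => ?_)).differentiableAt.pow 2
  · have := map_add_le_add n (x + h) (x + -h)
    rwa [show x + h + (x + -h) = (2 : ℝ) • x by module, map_smul_eq_mul, Real.norm_two] at this
  · exact ((((isLittleO_one_iff ℝ).2 (tendsto_iff_norm_sub_tendsto_zero.1 h6)).mul_isBigO
      (isBigO_refl (fun h : G => ‖h‖) _)).congr_right fun _ => one_mul _).of_norm_right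
  · have a1 := (le_abs_self _).trans ((ν (x + h) - ν x).le_opNorm h)
    rw [sub_apply] at a1
    rw [← ν2 (x + h), map_add]
    linarith [(le_abs_self _).trans (n1 _ x (ν1 (x + h)))]

lemma hb (p : Seminorm ℝ G) {K : ℝ} (hK : ∀ z, p z ≤ K * ‖z‖) (x : G) :
    ∃ μ : G →L[ℝ] ℝ, (∀ z, |μ z| ≤ p z) ∧ μ x = p x := by
  rcases eq_or_ne x 0 with rfl | hx
  · exact ⟨0, fun z => by simp, by simp⟩
  obtain ⟨g, h1, h2⟩ := Module.Dual.exists_extension_of_le_seminorm_real (p := p) (ℝ ∙ x)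
    (LinearPMap.mkSpanSingleton x (p x) hx).toFun (by
      rintro ⟨y, hy⟩
      obtain ⟨c, rfl⟩ := Submodule.mem_span_singleton.1 hy
      refine (LinearPMap.mkSpanSingleton'_apply x (p x) _ c hy).trans_le ?_
      rw [map_smul_eq_mul]
      exact mul_le_mul_of_nonneg_right (le_abs_self c) (apply_nonneg _ _))
  exact ⟨g.mkContinuous K fun z => (h2 z).trans (hK z), h2,
    (h1 ⟨x, Submodule.mem_span_singleton_self x⟩).trans
      (LinearPMap.mkSpanSingleton_apply _ _ _ _)⟩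

lemma sepW {W : Type*} [NormedAddCommGroup W] [NormedSpace ℝ W] (J : G →L[ℝ] W) {C : ℝ}
    (hC : 0 ≤ C) (hs : IsSeparable {μ : G →L[ℝ] ℝ | ∀ z, J z = 0 → μ z = 0})
    (ho : ∀ w, ∃ z, J z = w ∧ ‖z‖ ≤ C * ‖w‖) : SeparableSpace (W →L[ℝ] ℝ) := by
  let T := (ContinuousLinearMap.compL ℝ G W ℝ).flip J
  have h2 : AntilipschitzWith ⟨C, hC⟩ T := T.antilipschitz_of_bound fun ν => by
    refine ContinuousLinearMap.opNorm_le_bound _ (mul_nonneg hC (norm_nonneg _)) fun w => ?_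
    obtain ⟨x, rfl, h2⟩ := ho w
    show ‖T ν x‖ ≤ C * ‖T ν‖ * ‖J x‖
    rw [mul_right_comm, mul_comm]
    exact ((T ν).le_opNorm x).trans (mul_le_mul_of_nonneg_left h2 (norm_nonneg _))
  exact isSeparable_univ_iff.1
    (((h2.isInducing T.continuous).isSeparable_preimage hs).mono fun ν _ z hz => by
      show ν (J z) = 0
      rw [hz, map_zero])

theorem approx (p : Seminorm ℝ G) {K C : ℝ} (hK : ∀ z, p z ≤ K * ‖z‖) (hC : 0 ≤ C)
    (hs : IsSeparable {μ : G →L[ℝ] ℝ | ∀ z, p z = 0 → μ z = 0})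
    (ho : ∀ z, ∃ z', p (z - z') = 0 ∧ ‖z'‖ ≤ C * p z) (s0 : 0 < s) (s1 : s ≤ 1) :
    ∃ n : Seminorm ℝ G, (∀ x, p x ≤ n x ∧ n x ≤ (1 + 2 * s) * p x) ∧
      ∀ x, DifferentiableAt ℝ (fun y => n y ^ 2) x := by
  let I := {μ : G →L[ℝ] ℝ // ∀ z, |μ z| ≤ p z}
  let J0 : G →ₗ[ℝ] lp (fun _ : I => ℝ) ⊤ :=
    { toFun := fun z => ⟨fun μ => μ.1 z, memℓp_infty ⟨p z, by rintro _ ⟨μ, rfl⟩; exact μ.2 z⟩⟩
      map_add' := fun z w => lp.ext (funext fun μ => map_add μ.1 z w)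
      map_smul' := fun c w => lp.ext (funext fun μ => map_smul μ.1 c w) }
  have j1 : ∀ z, ‖J0 z‖ = p z := fun z => le_antisymm
    (lp.norm_le_of_forall_le (apply_nonneg _ _) fun μ => μ.2 z) (by
      obtain ⟨μ, h1, h2⟩ := hb p hK z
      exact (h2.ge.trans (le_abs_self _)).trans
        (lp.norm_apply_le_norm ENNReal.top_ne_zero (J0 z) ⟨μ, h1⟩))
  let J : G →L[ℝ] LinearMap.range J0 :=
    J0.rangeRestrict.mkContinuous K fun z => (j1 z).trans_le (hK z)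
  have j2 : ∀ z, ‖J z‖ = p z := j1
  have := sepW J hC (hs.mono fun μ hμ z hz => hμ z (norm_eq_zero.1 ((j2 z).trans hz))) fun w => by
    obtain ⟨x, rfl⟩ := J0.surjective_rangeRestrict w
    obtain ⟨x', h1, h2⟩ := ho x
    refine ⟨x', ?_, h2.trans_eq (congrArg _ (j2 x).symm)⟩
    show J x' = J x
    rw [eq_comm, ← sub_eq_zero, ← map_sub, ← norm_eq_zero, j2, h1]
  obtain ⟨n, n1, n2⟩ := kadec' (G := LinearMap.range J0) s0 s1
  have h3 : ∀ x, n (((1 + 2 * s) • J) x) = (1 + 2 * s) * n (J x) := fun x =>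
    (map_smul_eq_mul n _ _).trans (by rw [Real.norm_of_nonneg (by positivity)]; rfl)
  refine ⟨n.comp (((1 + 2 * s) • J : G →L[ℝ] _) : G →ₗ[ℝ] _), fun x => ⟨?_, ?_⟩,
    fun x => (n2 _).comp x ((1 + 2 * s) • J).differentiableAt⟩
  · exact ((j2 x).ge.trans (n1 _).1).trans_eq (h3 x).symm
  · exact (h3 x).trans_le (mul_le_mul_of_nonneg_left ((n1 _).2.trans_eq (j2 x)) (by positivity))

end Pool.Agent.H87.DenF
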