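import Mathlib
import Pool.Agent.H87.TalF2
import Pool.Agent.H87.NoGat2

/-! The space `C₀[0, ω₁)` and its dual. -/

namespace Pool.Agent.H87.TalF

open Filter Topology Set Metric Classical
open scoped BoundedContinuousFunction
open Pool.Agent.H87.NoGat (Om bdd cIic)

noncomputable instance : TopologicalSpace Om := Preorder.topology Om
instance : OrderTopology Om := ⟨rfl⟩
instance : NoMaxOrder Om := ⟨fun a => let ⟨b, h⟩ := bdd fun _ => a; ⟨b, h 0⟩⟩

lemma clop (b : Om) : IsClopen (Iic b) := ⟨isClosed_Iic, Order.Iio_succ b ▸ isOpen_Iio⟩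

def X0 : Submodule ℝ (Om →ᵇ ℝ) where
  carrier := {x | ∃ b, ∀ ξ, b < ξ → x ξ = 0}
  add_mem' := by
    rintro x y ⟨a, ha⟩ ⟨b, hb⟩
    exact ⟨max a b, fun ξ h => by simp [ha ξ (max_lt_iff.1 h).1, hb ξ (max_lt_iff.1 h).2]⟩
  zero_mem' := ⟨Classical.arbitrary _, fun _ _ => rfl⟩
  smul_mem' := by
    rintro c x ⟨a, ha⟩
    exact ⟨a, fun ξ h => by simp [ha ξ h]⟩

def X : Type := X0

noncomputable instance : NormedAddCommGroup X := inferInstanceAs (NormedAddCommGroup X0)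
noncomputable instance : NormedSpace ℝ X := inferInstanceAs (NormedSpace ℝ X0)

lemma X0_closed : IsClosed (X0 : Set (Om →ᵇ ℝ)) := IsSeqClosed.isClosed fun u x hu hx => by
  choose b hb using hu
  obtain ⟨c, hc⟩ := bdd b
  exact ⟨c, fun ξ h => tendsto_nhds_unique (((continuous_eval_const ξ).tendsto x).comp hx)
    (tendsto_const_nhds.congr fun n => (hb n ξ ((hc n).trans h)).symm)⟩

instance : CompleteSpace X := X0_closed.completeSpace_coe

lemma ap_le (x : X) (ξ : Om) : |x.1 ξ| ≤ ‖x‖ := x.1.norm_coe_le_norm ξ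

lemma nrm_le (x : X) {C : ℝ} (hC : 0 ≤ C) (h : ∀ ξ, |x.1 ξ| ≤ C) : ‖x‖ ≤ C :=
  (BoundedContinuousFunction.norm_le (f := x.1) hC).2 h

lemma ext' {x y : X} (h : ∀ ξ, x.1 ξ = y.1 ξ) : x = y := Subtype.ext (DFunLike.ext _ _ h)

noncomputable def mk (f : Om → ℝ) (h1 : Continuous f) (C : ℝ) (h2 : ∀ ξ, |f ξ| ≤ C)
    (h3 : ∃ b, ∀ ξ, b < ξ → f ξ = 0) : X := ⟨.ofNormedAddCommGroup f h1 C h2, h3⟩

noncomputable def δ (ξ : Om) : X →L[ℝ] ℝ :=
  LinearMap.mkContinuous ⟨⟨fun x => x.1 ξ, fun _ _ => rfl⟩, fun _ _ => rfl⟩ 1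
    fun x => by rw [one_mul]; exact ap_le x ξ

@[simp] lemma δ_ap (ξ : Om) (x : X) : δ ξ x = x.1 ξ := rfl

lemma δ_norm (ξ : Om) : ‖δ ξ‖ ≤ 1 :=
  ContinuousLinearMap.opNorm_le_bound _ zero_le_one fun x => by rw [one_mul]; exact ap_le x ξ

noncomputable def u (b : Om) : X :=
  mk ((Iic b).indicator fun _ => 1) ((clop b).continuous_indicator continuous_const) 1
    (fun ξ => by by_cases h : ξ ∈ Iic b <;> simp [h]) ⟨b, fun ξ h => by simp [h]⟩

lemma u_ap (b ξ : Om) : (u b).1 ξ = if ξ ≤ b then 1 else 0 := by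
  show (Iic b).indicator (fun _ => (1 : ℝ)) ξ = _
  by_cases h : ξ ≤ b <;> simp [h]

lemma u_norm (b : Om) : ‖u b‖ ≤ 1 := nrm_le _ zero_le_one fun ξ => by
  rw [u_ap]; split_ifs <;> simp

noncomputable def P (b : Om) : X →L[ℝ] X :=
  LinearMap.mkContinuous
    { toFun := fun x : X => (⟨(u b).1 * x.1, b, fun ξ h => by simp [u_ap, h]⟩ : X)
      map_add' := fun x y => Subtype.ext (mul_add _ _ _)
      map_smul' := fun c x => Subtype.ext (mul_smul_comm _ _ _) } 1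
    fun x => (norm_mul_le (u b).1 x.1).trans (mul_le_mul_of_nonneg_right (u_norm b) (norm_nonneg _))

lemma P_ap (b : Om) (x : X) (ξ : Om) : (P b x).1 ξ = if ξ ≤ b then x.1 ξ else 0 := by
  show (u b).1 ξ * x.1 ξ = _
  rw [u_ap]; split_ifs <;> simp

lemma near (x : X) {ε : ℝ} (hε : 0 < ε) {l b : Om} (h : l < b) :
    ∃ l', l ≤ l' ∧ l' < b ∧ ∀ ξ, l' < ξ → ξ ≤ b → |x.1 ξ - x.1 b| < ε := by
  obtain ⟨l', h1, h2⟩ := exists_Ioc_subset_of_mem_nhds'
    (x.1.continuous.continuousAt.eventually (ball_mem_nhds (x.1 b) hε)) h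
  exact ⟨l', h1.1, h1.2, fun ξ a1 a2 => h2 ⟨a1, a2⟩⟩

lemma mono_max {F : Om → ℝ} (h1 : Monotone F) (h2 : BddAbove (range F)) : ∃ b, ∀ c, F c ≤ F b := by
  have h3 : ∀ n : ℕ, ∃ l, (⨆ c, F c) - 1 / ((n : ℝ) + 1) < F l := fun n =>
    exists_lt_of_lt_ciSup (sub_lt_self _ Nat.one_div_pos_of_nat)
  choose l hl using h3
  obtain ⟨b, hb⟩ := bdd l
  refine ⟨b, fun c => (le_ciSup h2 c).trans (le_of_tendsto'
    (by simpa using tendsto_one_div_add_atTop_nhds_zero_nat.const_sub (⨆ c, F c))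
    fun n => ?_)⟩
  simpa using (hl n).le.trans (h1 (hb n).le)

lemma nle {G : Type*} [NormedAddCommGroup G] [NormedSpace ℝ G] {A : G →L[ℝ] ℝ} {C : ℝ}
    (h : ∀ x, ‖x‖ ≤ 1 → A x ≤ C) : ‖A‖ ≤ C := by
  by_contra! H
  obtain ⟨x, h1, h2⟩ := A.exists_lt_apply_of_lt_opNorm H
  refine h2.not_ge (abs_le.2 ⟨?_, h x h1.le⟩)
  have := h (-x) (by simpa using h1.le)
  rw [map_neg] at this
  linarith

lemma interp (σ : Om → ℝ) (hσ : ∀ ξ, |σ ξ| ≤ 1) (s : Finset Om) :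
    ∃ x : X, ‖x‖ ≤ 1 ∧ ∀ ξ ∈ s, x.1 ξ = σ ξ := by
  induction s using Finset.induction_on_max with
  | empty => exact ⟨0, by simp, by simp⟩
  | insert a s h ih =>
    obtain ⟨x, h1, h2⟩ := ih
    rcases s.eq_empty_or_nonempty with rfl | hs
    · refine ⟨σ a • u a, nrm_le _ zero_le_one fun ξ => ?_, fun ξ hξ => ?_⟩
      swap
      · show σ a * (u a).1 ξ = _
        simp [Finset.mem_singleton.1 hξ, u_ap]
      show |σ a * (u a).1 ξ| ≤ 1
      rw [u_ap]; split_ifs <;> simp [hσ]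
    have h3 := h _ (s.max'_mem hs)
    have h4 : ∀ ξ, (P (s.max' hs) x + σ a • (u a - u (s.max' hs))).1 ξ =
        if ξ ≤ s.max' hs then x.1 ξ else if ξ ≤ a then σ a else 0 := fun ξ => by
      show (P _ x).1 ξ + σ a * ((u a).1 ξ - (u _).1 ξ) = _
      rw [P_ap, u_ap, u_ap]
      by_cases h5 : ξ ≤ s.max' hs
      · simp [h5, h5.trans h3.le]
      · simp [h5]
    refine ⟨_, nrm_le _ zero_le_one fun ξ => ?_, fun ξ hξ => (h4 ξ).trans ?_⟩
    · rw [h4]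
      split_ifs
      exacts [(ap_le x ξ).trans h1, hσ a, by simp]
    · rcases Finset.mem_insert.1 hξ with rfl | hξ
      · rw [if_neg h3.not_ge, if_pos le_rfl]
      · rw [if_pos (s.le_max' _ hξ), h2 ξ hξ]

abbrev L1 : Type := lp (fun _ : Om => ℝ) 1

lemma L1_sum (m : L1) : HasSum (fun ξ => |m ξ|) ‖m‖ := by
  simpa using lp.hasSum_norm (by simp) m

lemma sm {m : Om → ℝ} (h : Summable fun ξ => |m ξ|) : Summable fun ξ => m ξ • δ ξ :=
  .of_norm_bounded h fun ξ => (nsm (G := X) _ _).trans_le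
    (mul_le_of_le_one_right (abs_nonneg _) (δ_norm ξ))

lemma sm_ap {m : Om → ℝ} (h : Summable fun ξ => |m ξ|) (x : X) :
    HasSum (fun ξ => m ξ * x.1 ξ) ((∑' ξ, m ξ • δ ξ) x) :=
  (sm h).hasSum.mapL (ContinuousLinearMap.apply ℝ ℝ x)

lemma sm_norm {m : Om → ℝ} (h : Summable fun ξ => |m ξ|) : ‖∑' ξ, m ξ • δ ξ‖ ≤ ∑' ξ, |m ξ| :=
  nle fun x hx => hasSum_le (fun ξ => (le_abs_self _).trans ((abs_mul _ _).trans_le
    (mul_le_of_le_one_right (abs_nonneg _) ((ap_le x ξ).trans hx)))) (sm_ap h x) h.hasSum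

noncomputable def Φ : L1 →L[ℝ] (X →L[ℝ] ℝ) :=
  LinearMap.mkContinuous
    { toFun := fun m => ∑' ξ, m ξ • δ ξ
      map_add' := fun m n => by
        rw [← (sm (L1_sum m).summable).tsum_add (sm (L1_sum n).summable)]
        exact tsum_congr fun ξ => add_smul _ _ _
      map_smul' := fun c m => by
        rw [RingHom.id_apply, ← (sm (L1_sum m).summable).tsum_const_smul]
        exact tsum_congr fun ξ => mul_smul _ _ _ } 1
    fun m => by
      rw [one_mul, ← (L1_sum m).tsum_eq]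
      exact sm_norm (L1_sum m).summable

lemma Φ_ge (m : L1) : ‖m‖ ≤ ‖Φ m‖ := by
  have : ‖m‖ ≤ (‖Φ m‖ + ‖m‖) / 2 := hasSum_le_of_sum_le (L1_sum m) fun s => by
    obtain ⟨x, h1, h2⟩ := interp (fun ξ => SignType.sign (m ξ))
      (fun ξ => by cases SignType.sign (m ξ) <;> simp) s
    have h3 := hasSum_le (fun ξ => ?_) (((hasSum_sum_of_ne_finset_zero (s := s)
      (f := fun ξ => if ξ ∈ s then |m ξ| else 0) fun ξ h => if_neg h).mul_left 2).sub (L1_sum m))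
      (sm_ap (L1_sum m).summable x)
    · rw [Finset.sum_ite_mem, Finset.inter_self] at h3
      have h4 : Φ m x ≤ ‖Φ m‖ := (le_abs_self _).trans
        (((Φ m).le_opNorm x).trans (mul_le_of_le_one_right (norm_nonneg _) h1))
      have h5 : (∑' ξ, m ξ • δ ξ) x = Φ m x := rfl
      linarith
    · split_ifs with h
      · rw [h2 ξ h, self_mul_sign]; linarith
      · have := (abs_mul _ _).trans_le
          (mul_le_of_le_one_right (abs_nonneg (m ξ)) ((ap_le x ξ).trans h1))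
        linarith [neg_abs_le (m ξ * x.1 ξ)]
  linarith

lemma N_add (μ : X →L[ℝ] ℝ) {l l' : Om} (h : l ≤ l') :
    ‖μ.comp (P l)‖ + ‖μ.comp (P l') - μ.comp (P l)‖ ≤ ‖μ.comp (P l')‖ := by
  refine le_sub_iff_add_le.1 (nle fun x hx => le_sub_iff_add_le.2
    (le_sub_iff_add_le'.1 (nle fun y hy => le_sub_iff_add_le'.2 ?_)))
  have h1 : P l' (P l x + (y - P l y)) = P l x + (P l' y - P l y) := ext' fun ξ => by
    show _ = (P l x).1 ξ + ((P l' y).1 ξ - (P l y).1 ξ)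
    rw [P_ap]
    show (if _ then (P l x).1 ξ + (y.1 ξ - (P l y).1 ξ) else _) = _
    simp only [P_ap]
    by_cases h5 : ξ ≤ l
    · simp [h5, h5.trans h]
    · simp [h5]
  have h2 : ‖P l x + (y - P l y)‖ ≤ 1 := nrm_le _ zero_le_one fun ξ => by
    show |(P l x).1 ξ + (y.1 ξ - (P l y).1 ξ)| ≤ 1
    simp only [P_ap]
    split_ifs
    · simpa using (ap_le x ξ).trans hx
    · simpa using (ap_le y ξ).trans hy
  have h3 := (le_abs_self _).trans (((μ.comp (P l')).le_opNorm _).trans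
    (mul_le_of_le_one_right (ContinuousLinearMap.opNorm_nonneg _) h2))
  rw [ContinuousLinearMap.comp_apply, h1, map_add, map_sub] at h3
  exact h3

lemma N_le (μ : X →L[ℝ] ℝ) (l : Om) : ‖μ.comp (P l)‖ ≤ ‖μ‖ :=
  nle fun x hx => (le_abs_self _).trans ((μ.le_opNorm _).trans
    (mul_le_of_le_one_right (ContinuousLinearMap.opNorm_nonneg _) (nrm_le (P l x) zero_le_one fun ξ => by
      rw [P_ap]; split_ifs; exacts [(ap_le x ξ).trans hx, by simp])))

lemma surj (μ : X →L[ℝ] ℝ) : μ ∈ LinearMap.range (Φ : L1 →ₗ[ℝ] (X →L[ℝ] ℝ)) := by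
  set E := LinearMap.range (Φ : L1 →ₗ[ℝ] (X →L[ℝ] ℝ))
  have e1 : IsClosed (E : Set (X →L[ℝ] ℝ)) :=
    (Φ.antilipschitz_of_bound (K := 1) fun m => by simpa using Φ_ge m).isClosed_range
      Φ.uniformContinuous
  have e2 : ∀ ξ, δ ξ ∈ E := fun ξ => ⟨lp.single 1 ξ 1, (tsum_eq_single ξ fun η h => by
    rw [lp.single_apply_ne (E := fun _ : Om => ℝ) 1 ξ 1 h, zero_smul]).trans (by
    rw [lp.single_apply_self (E := fun _ : Om => ℝ) 1 ξ 1, one_smul])⟩
  have e3 : ∀ b, μ.comp (P b) ∈ E := fun b => by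
    induction b using WellFoundedLT.induction with | ind b ih => ?_
    by_cases hb : ∃ l, l < b
    swap
    · have : μ.comp (P b) = μ (u b) • δ b := ContinuousLinearMap.ext fun x => by
        rw [ContinuousLinearMap.comp_apply, show P b x = x.1 b • u b from ext' fun ξ => by
          show _ = x.1 b * (u b).1 ξ
          rw [P_ap, u_ap]
          split_ifs with h
          · rw [h.eq_of_not_lt fun k => hb ⟨ξ, k⟩, mul_one]
          · simp]
        simp [mul_comm]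
      exact this ▸ E.smul_mem _ (e2 b)
    refine e1.closure_subset (Metric.mem_closure_iff.2 fun ε hε => ?_)
    have : Nonempty (Iio b) := let ⟨l, h⟩ := hb; ⟨⟨l, h⟩⟩
    obtain ⟨⟨l, hl⟩, h1⟩ := exists_lt_of_lt_ciSup
      (sub_lt_self (⨆ l : Iio b, ‖μ.comp (P l)‖) (show 0 < ε / 4 by linarith))
    refine ⟨μ.comp (P l) + μ (u b - u l) • δ b, E.add_mem (ih l hl) (E.smul_mem _ (e2 b)),
      (dist_eq_norm (E := X →L[ℝ] ℝ) _ _).trans_lt
        (lt_of_le_of_lt (nle fun x hx => ?_) (show 3 * ε / 4 < ε by linarith))⟩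
    have m0 := norm_nonneg μ
    obtain ⟨l', h2, h3, h4⟩ := near x (show 0 < ε / 4 / (‖μ‖ + 1) by positivity) hl
    set w : X := P b x - P l x - x.1 b • (u b - u l) with hw
    have w1 : ∀ ξ, w.1 ξ = if l < ξ ∧ ξ ≤ b then x.1 ξ - x.1 b else 0 := fun ξ => by
      show (P b x).1 ξ - (P l x).1 ξ - x.1 b * ((u b).1 ξ - (u l).1 ξ) = _
      simp only [P_ap, u_ap]
      rcases le_or_gt ξ l with h | h
      · simp [h, h.trans hl.le]
      · by_cases h5 : ξ ≤ b <;> simp [h, h.not_ge, h5]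
    have w2 : ‖w‖ ≤ 2 := nrm_le _ zero_le_two fun ξ => by
      rw [w1]
      split_ifs
      · linarith [abs_sub (x.1 ξ) (x.1 b), ap_le x ξ, ap_le x b]
      · simp
    have w3 : ‖w - (P l' w - P l w)‖ ≤ ε / 4 / (‖μ‖ + 1) := nrm_le _ (by positivity) fun ξ => by
      show |w.1 ξ - ((P l' w).1 ξ - (P l w).1 ξ)| ≤ _
      simp only [P_ap, w1]
      rcases le_or_gt ξ l with h | h
      · simp [h.not_gt]; positivity
      · rcases le_or_gt ξ l' with h5 | h5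
        · simp [h.not_ge, h5]; positivity
        · by_cases h6 : ξ ≤ b
          · simpa [h, h.not_ge, h5.not_ge, h6] using (h4 ξ h5 h6).le
          · simp [h6]; positivity
    have w4 := (le_abs_self _).trans ((μ.le_opNorm _).trans (mul_le_mul_of_nonneg_left w3 m0))
    have w5 := (le_abs_self _).trans (((μ.comp (P l') - μ.comp (P l)).le_opNorm _).trans
      (mul_le_mul_of_nonneg_left w2 (ContinuousLinearMap.opNorm_nonneg _)))
    have w6 := le_ciSup (f := fun l : Iio b => ‖μ.comp (P l)‖)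
      ⟨_, by rintro _ ⟨l, rfl⟩; exact N_le μ l⟩ ⟨l', h3⟩
    have w7 : ‖μ‖ * (ε / 4 / (‖μ‖ + 1)) ≤ ε / 4 := by
      rw [← mul_div_assoc, div_le_iff₀ (by positivity)]; nlinarith
    have w8 : μ w = μ (P b x) - μ (P l x) - x.1 b * μ (u b - u l) := by
      rw [hw, map_sub, map_sub, map_smul, smul_eq_mul]
    rw [map_sub μ w, map_sub μ (P l' w)] at w4
    simp only [sub_apply, add_apply, smul_apply, ContinuousLinearMap.comp_apply, δ_ap,
      smul_eq_mul] at w5 w6 h1 ⊢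
    linarith [N_add μ h2]
  obtain ⟨b, hb⟩ := mono_max (F := fun l => ‖μ.comp (P l)‖)
    (fun l l' h => (le_add_of_nonneg_right (ContinuousLinearMap.opNorm_nonneg _)).trans (N_add μ h))
    ⟨_, by rintro _ ⟨l, rfl⟩; exact N_le μ l⟩
  convert e3 b
  refine ContinuousLinearMap.ext fun x => ?_
  obtain ⟨c, hc⟩ := x.2
  have h1 := (μ.comp (P (max b c)) - μ.comp (P b)).le_opNorm x
  have h2 : P (max b c) x = x := ext' fun ξ => by
    rw [P_ap]
    split_ifs with h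
    exacts [rfl, (hc ξ ((le_max_right _ _).trans_lt (not_le.1 h))).symm]
  rw [sub_apply, ContinuousLinearMap.comp_apply, h2] at h1
  have h3 : ‖μ.comp (P (max b c)) - μ.comp (P b)‖ ≤ 0 := by
    linarith [N_add μ (le_max_left b c), hb (max b c)]
  exact sub_eq_zero.1 (norm_le_zero_iff.1 (h1.trans
    (mul_nonpos_of_nonpos_of_nonneg h3 (norm_nonneg _))))

theorem rep (μ : X →L[ℝ] ℝ) : ∃ m : Om → ℝ, Summable (fun ξ => |m ξ|) ∧ ∑' ξ, |m ξ| ≤ ‖μ‖ ∧
    ∀ x : X, HasSum (fun ξ => m ξ * x.1 ξ) (μ x) := by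
  obtain ⟨m, rfl⟩ := surj μ
  exact ⟨m, (L1_sum m).summable, (L1_sum m).tsum_eq.trans_le (Φ_ge m), sm_ap (L1_sum m).summable⟩

lemma lub {s : Set Om} (h : BddAbove s) : ∃ a, IsLUB s a :=
  let ⟨a, h1, h2⟩ := wellFounded_lt.has_min _ h
  ⟨a, h1, fun b hb => not_lt.1 (h2 b hb)⟩

theorem noLUR (N : Seminorm ℝ X) {c : ℝ} (hc : 0 < c) (hN : ∀ x, c * ‖x‖ ≤ N x) :
    ∃ f g : X →L[ℝ] ℝ, f ≠ g ∧ 2 * (sSup ((fun x : X => f x) '' {x : X | N x ≤ 1})) ^ 2
      + 2 * (sSup ((fun x : X => g x) '' {x : X | N x ≤ 1})) ^ 2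
      - (sSup ((fun x : X => (f + g) x) '' {x : X | N x ≤ 1})) ^ 2 = 0 := by
  set S : (X →L[ℝ] ℝ) → ℝ := fun f => sSup ((fun x : X => f x) '' {x : X | N x ≤ 1}) with hS
  have s0 : ∀ x, N x ≤ 1 → ‖x‖ ≤ 1 / c := fun x h => by
    rw [le_div_iff₀' hc]; exact (hN x).trans h
  have s1 : ∀ f x, N x ≤ 1 → f x ≤ S f := fun f x h => le_csSup ⟨‖f‖ * (1 / c), by
    rintro _ ⟨y, hy, rfl⟩
    exact (le_abs_self _).trans ((f.le_opNorm y).trans
      (mul_le_mul_of_nonneg_left (s0 y hy) (ContinuousLinearMap.opNorm_nonneg _)))⟩ ⟨x, h, rfl⟩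
  have s2 : ∀ f t, (∀ x, N x ≤ 1 → f x ≤ t) → S f ≤ t := fun f t h =>
    csSup_le ⟨_, 0, by simp, rfl⟩ (by rintro _ ⟨y, hy, rfl⟩; exact h y hy)
  have s3 : ∀ f, 0 ≤ S f := fun f => by simpa using s1 f 0 (by simp)
  set A : Om → Set ℝ := fun γ => {s | ∃ a b, γ ≤ a ∧ γ ≤ b ∧ s = S (δ a + δ b)}
  have a1 : ∀ γ, BddBelow (A γ) := fun γ => ⟨0, by rintro _ ⟨a, b, -, -, rfl⟩; exact s3 _⟩
  have a2 : ∀ γ, (A γ).Nonempty := fun γ => ⟨_, γ, γ, le_rfl, le_rfl, rfl⟩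
  obtain ⟨b0, hb⟩ := mono_max (F := fun γ => sInf (A γ))
    (fun γ γ' h => csInf_le_csInf (a1 γ) (a2 γ') (by
      rintro _ ⟨a, b, h1, h2, rfl⟩
      exact ⟨a, b, h.trans h1, h.trans h2, rfl⟩))
    ⟨2 * (1 / c), by
      rintro _ ⟨γ, rfl⟩
      refine (csInf_le (a1 γ) ⟨γ, γ, le_rfl, le_rfl, rfl⟩).trans (s2 _ _ fun x hx => ?_)
      rw [add_apply, δ_ap]
      linarith [le_abs_self (x.1 γ), ap_le x γ, s0 x hx]⟩
  have h1 : ∀ (n : ℕ) γ, ∃ p : Om × Om, γ ≤ p.1 ∧ γ ≤ p.2 ∧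
      S (δ p.1 + δ p.2) < sInf (A b0) + 1 / ((n : ℝ) + 1) := fun n γ => by
    obtain ⟨_, ⟨a, b, h1, h2, rfl⟩, h3⟩ := exists_lt_of_csInf_lt (a2 γ)
      ((hb γ).trans_lt (lt_add_of_pos_right _ (Nat.one_div_pos_of_nat (n := n))))
    exact ⟨(a, b), h1, h2, h3⟩
  choose p p1 p2 p3 using h1
  have h2 : ∀ γ, ∃ α, γ ≤ α ∧ 2 * S (δ α) ≤ sInf (A b0) := fun γ => by
    let g : ℕ → Om := fun n => Nat.rec γ (fun n g => max (p n g).1 (p n g).2) n
    have g1 : Monotone g := monotone_nat_of_le_succ fun n => le_max_of_le_left (p1 n _)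
    obtain ⟨α, hα⟩ := lub (s := range g) (let ⟨b, h⟩ := bdd g; ⟨b, by
      rintro _ ⟨n, rfl⟩; exact (h n).le⟩)
    have g2 := tendsto_atTop_isLUB g1 hα
    have g3 := g2.comp (tendsto_add_atTop_nat 1)
    refine ⟨α, hα.1 ⟨0, rfl⟩, (le_div_iff₀' two_pos).1 (s2 _ _ fun x hx => ?_)⟩
    have g4 := (x.1.continuous.tendsto α).comp (tendsto_of_tendsto_of_tendsto_of_le_of_le
      (f := fun n => (p n (g n)).1) g2 g3 (fun n => p1 n _) fun n => le_max_left _ _)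
    have g5 := (x.1.continuous.tendsto α).comp (tendsto_of_tendsto_of_tendsto_of_le_of_le
      (f := fun n => (p n (g n)).2) g2 g3 (fun n => p2 n _) fun n => le_max_right _ _)
    have g6 := le_of_tendsto_of_tendsto' (g4.add g5)
      (tendsto_one_div_add_atTop_nhds_zero_nat.const_add (sInf (A b0)))
      fun n => (s1 (δ _ + δ _) x hx).trans (p3 n (g n)).le
    rw [δ_ap]
    linarith
  obtain ⟨α, α1, α2⟩ := h2 b0
  obtain ⟨α', h3⟩ := exists_gt α
  obtain ⟨β, β1, β2⟩ := h2 α'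
  refine ⟨δ α, δ β, fun h => ?_, ?_⟩
  · simpa [u_ap, (h3.trans_le β1).not_ge] using DFunLike.congr_fun h (u α)
  have h4 : sInf (A b0) ≤ S (δ α + δ β) :=
    csInf_le (a1 _) ⟨α, β, α1, (α1.trans h3.le).trans β1, rfl⟩
  have h5 : S (δ α + δ β) ≤ S (δ α) + S (δ β) :=
    s2 _ _ fun x hx => add_le_add (s1 _ x hx) (s1 _ x hx)
  show 2 * S (δ α) ^ 2 + 2 * S (δ β) ^ 2 - S (δ α + δ β) ^ 2 = 0
  rw [show S (δ α + δ β) = 2 * S (δ α) by linarith, show S (δ β) = S (δ α) by linarith]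
  ring

end Pool.Agent.H87.TalF
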