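import Mathlib
import Pool.Agent.H87.TalF3

/-! Structure of the quotients of `C₀[0, ω₁)`. -/

namespace Pool.Agent.H87.TalF

open Filter Topology Set Metric Classical TopologicalSpace
open Pool.Agent.H87.NoGat (Om bdd cIic)

section gen

variable {E : Type} [NormedAddCommGroup E] [NormedSpace ℝ E]

noncomputable def q (Y : Submodule ℝ E) : Seminorm ℝ E := (normSeminorm ℝ (E ⧸ Y)).comp Y.mkQ

lemma q_eq (Y : Submodule ℝ E) (x : E) : q Y x = infDist x Y :=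
  QuotientAddGroup.norm_mk (S := Y.toAddSubgroup) x

lemma q_le {Y : Submodule ℝ E} (x : E) {y : E} (hy : y ∈ Y) : q Y x ≤ ‖x - y‖ := by
  rw [q_eq, ← dist_eq_norm]; exact infDist_le_dist_of_mem hy

lemma q_mono {Y Y' : Submodule ℝ E} (h : Y ≤ Y') (x : E) : q Y' x ≤ q Y x := by
  rw [q_eq, q_eq]; exact infDist_le_infDist_of_subset h ⟨0, Y.zero_mem⟩

lemma q_hb (Y : Submodule ℝ E) (x : E) :
    ∃ μ : E →L[ℝ] ℝ, (∀ z, |μ z| ≤ q Y z) ∧ μ x = q Y x := by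
  obtain ⟨g, g1, g2⟩ := exists_dual_vector'' ℝ (Y.mkQ x)
  exact ⟨g.comp Y.mkQL, fun z => (g.le_opNorm _).trans
    (mul_le_of_le_one_left (norm_nonneg _) g1), g2⟩

lemma le_q {Y : Submodule ℝ E} {μ : E →L[ℝ] ℝ} (h : ∀ y ∈ Y, μ y = 0) (x : E) :
    |μ x| ≤ ‖μ‖ * q Y x := by
  rcases (norm_nonneg μ).eq_or_lt with h0 | h0
  · simp [norm_eq_zero.1 h0.symm]
  rw [← div_le_iff₀' h0, q_eq, le_infDist ⟨0, Y.zero_mem⟩]
  intro y hy
  rw [div_le_iff₀' h0, dist_eq_norm]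
  simpa [h y hy] using μ.le_opNorm (x - y)

lemma q_van {Y : Submodule ℝ E} {μ : E →L[ℝ] ℝ} (h : ∀ z, |μ z| ≤ q Y z) {y : E} (hy : y ∈ Y) :
    μ y = 0 := abs_nonpos_iff.1 ((h y).trans (by simpa using q_le y hy))

lemma fiber (Y : Submodule ℝ E) (hY : IsClosed (Y : Set E))
    (hs : IsSeparable {μ : E →L[ℝ] ℝ | ∀ y ∈ Y, μ y = 0}) :
    ∃ (n : Seminorm ℝ E) (φ : ℕ → E →L[ℝ] ℝ), (∀ x, q Y x ≤ 3 * n x ∧ n x ≤ q Y x) ∧
      (∀ x, DifferentiableAt ℝ (fun z => n z ^ 2) x) ∧ (∀ j x, |φ j x| ≤ q Y x) ∧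
      ∀ x, q Y x ≠ 0 → ∃ j, φ j x ≠ 0 := by
  have h1 : ∀ (ν : (E ⧸ Y) →L[ℝ] ℝ), ∀ y ∈ Y, ν.comp Y.mkQL y = 0 := fun ν y hy => by
    rw [ContinuousLinearMap.comp_apply, Submodule.mkQL_apply, Submodule.mkQ_apply,
      (Submodule.Quotient.mk_eq_zero Y).2 hy, map_zero]
  let T := (ContinuousLinearMap.compL ℝ E (E ⧸ Y) ℝ).flip Y.mkQL
  have h2 : AntilipschitzWith 1 T := T.antilipschitz_of_bound fun ν => by
    rw [NNReal.coe_one, one_mul]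
    refine ContinuousLinearMap.opNorm_le_bound _ (norm_nonneg _) fun z => ?_
    obtain ⟨x, rfl⟩ := Y.mkQ_surjective z
    exact le_q (h1 ν) x
  have : SeparableSpace ((E ⧸ Y) →L[ℝ] ℝ) := isSeparable_univ_iff.1
    (((h2.isInducing T.continuous).isSeparable_preimage hs).mono fun ν _ => h1 ν)
  obtain ⟨n, n1, n2⟩ := kadec (G := E ⧸ Y)
  obtain ⟨φ, φ1, φ2⟩ := total (G := E ⧸ Y)
  exact ⟨n.comp Y.mkQ, fun j => (φ j).comp Y.mkQL, fun x => n1 _,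
    fun x => (n2 (Y.mkQL x)).comp x Y.mkQL.differentiableAt, fun j x => φ1 j _,
    fun x hx => φ2 _ (norm_ne_zero_iff.1 hx)⟩

end gen

def van (A : Set Om) : Submodule ℝ X where
  carrier := {x | ∀ ξ ∈ A, δ ξ x = 0}
  add_mem' := fun hx hy ξ h => by rw [map_add, hx ξ h, hy ξ h, add_zero]
  zero_mem' := fun _ _ => rfl
  smul_mem' := fun c x hx ξ h => by rw [map_smul, hx ξ h, smul_zero]

noncomputable def YY (Y : Submodule ℝ X) (a b : Om) : Submodule ℝ X := (Y ⊔ van (Icc a b)).topologicalClosure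

variable {Y : Submodule ℝ X}

lemma le_YY (a b : Om) : Y ≤ YY Y a b := le_sup_left.trans (Submodule.le_topologicalClosure _)

lemma van_YY (a b : Om) : van (Icc a b) ≤ YY Y a b :=
  le_sup_right.trans (Submodule.le_topologicalClosure _)

lemma YY_van {a b : Om} {μ : X →L[ℝ] ℝ} (h1 : ∀ y ∈ Y, μ y = 0)
    (h2 : ∀ y ∈ van (Icc a b), μ y = 0) : ∀ y ∈ YY Y a b, μ y = 0 :=
  Submodule.topologicalClosure_minimal (t := LinearMap.ker (μ : X →ₗ[ℝ] ℝ)) _ (sup_le h1 h2)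
    μ.isClosed_ker

lemma q_clamp {a b : Om} (z : X) {c : ℝ} (hc : 0 ≤ c) (h : ∀ ξ ∈ Icc a b, |z.1 ξ| ≤ c) :
    q (YY Y a b) z ≤ c := by
  have h1 : ∀ ξ, |max (-c) (min c (z.1 ξ))| ≤ c := fun ξ =>
    abs_le.2 ⟨le_max_left _ _, max_le (by linarith) (min_le_left _ _)⟩
  set w := mk (fun ξ => max (-c) (min c (z.1 ξ))) (by fun_prop) c h1
    (let ⟨b, hb⟩ := z.2; ⟨b, fun ξ h => by simp [hb ξ h, hc]⟩)
  refine (q_le z (van_YY a b (show z - w ∈ _ from fun ξ hξ => ?_))).trans ?_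
  · have := abs_le.1 (h ξ hξ)
    show z.1 ξ - max (-c) (min c (z.1 ξ)) = 0
    rw [min_eq_right this.2, max_eq_right this.1, sub_self]
  · rw [sub_sub_cancel]; exact nrm_le _ hc h1

lemma ind_sum {m : Om → ℝ} (h : Summable fun ξ => |m ξ|) (A : Set Om) :
    Summable fun ξ => |A.indicator m ξ| :=
  .of_nonneg_of_le (fun _ => abs_nonneg _) (fun ξ => norm_indicator_le_norm_self m ξ) h

lemma sepYY (a b : Om) : IsSeparable {μ : X →L[ℝ] ℝ | ∀ y ∈ YY Y a b, μ y = 0} := by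
  refine (((cIic b).image δ).isSeparable.span (R := ℝ)).closure.mono fun μ hμ => ?_
  obtain ⟨m, m1, -, m3⟩ := rep μ
  have h1 : μ = ∑' ξ, (Iic b).indicator m ξ • δ ξ := ContinuousLinearMap.ext fun x => by
    have h2 := hμ (x - P b x) (van_YY a b fun ξ hξ => by
      rw [map_sub, δ_ap, δ_ap, P_ap, if_pos hξ.2, sub_self])
    rw [map_sub, sub_eq_zero] at h2
    rw [h2]
    refine (m3 (P b x)).unique ?_
    convert sm_ap (ind_sum m1 (Iic b)) x using 2 with ξ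
    rw [P_ap]
    by_cases h : ξ ≤ b <;> simp [h]
  rw [h1]
  refine mem_closure_of_tendsto (sm (ind_sum m1 (Iic b))).hasSum (Eventually.of_forall fun F =>
    Submodule.sum_mem _ fun ξ _ => ?_)
  by_cases h : ξ ∈ Iic b
  · exact Submodule.smul_mem _ _ (Submodule.subset_span ⟨ξ, h, rfl⟩)
  · simp [h]

lemma norming (Y : Submodule ℝ X) : ∃ g : Om → Om, ∀ b, ∀ σ ∈ Submodule.span ℝ (δ '' Iic b),
    ∀ c, (∀ y ∈ Y, ‖y‖ ≤ 1 → (∀ ξ, g b < ξ → y.1 ξ = 0) → σ y ≤ c) →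
      ∀ y ∈ Y, ‖y‖ ≤ 1 → σ y ≤ c := by
  suffices H : ∀ b, ∃ β, ∀ σ ∈ Submodule.span ℝ (δ '' Iic b),
      ∀ c, (∀ y ∈ Y, ‖y‖ ≤ 1 → (∀ ξ, β < ξ → y.1 ξ = 0) → σ y ≤ c) →
        ∀ y ∈ Y, ‖y‖ ≤ 1 → σ y ≤ c by
    choose g hg using H
    exact ⟨g, hg⟩
  intro b
  obtain ⟨D, D1, D2⟩ := ((cIic b).image δ).isSeparable.span (R := ℝ)
  have h1 : ∀ p : D × ℚ, ∃ γ, (∃ y ∈ Y, ‖y‖ ≤ 1 ∧ p.2 < p.1.1 y) →
      ∃ y ∈ Y, ‖y‖ ≤ 1 ∧ p.2 < p.1.1 y ∧ ∀ ξ, γ < ξ → y.1 ξ = 0 := fun p => by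
    by_cases h : ∃ y ∈ Y, ‖y‖ ≤ 1 ∧ p.2 < p.1.1 y
    · obtain ⟨y, y1, y2, y3⟩ := h
      obtain ⟨γ, hγ⟩ := y.2
      exact ⟨γ, fun _ => ⟨y, y1, y2, y3, hγ⟩⟩
    · exact ⟨b, fun k => absurd k h⟩
  choose γ hγ using h1
  have := D1.to_subtype
  obtain ⟨f, hf⟩ := ((countable_range γ).insert b).exists_eq_range (insert_nonempty _ _)
  obtain ⟨β, hβ⟩ := bdd f
  refine ⟨β, fun σ hσ c h y y1 y2 => ?_⟩
  by_contra! H
  obtain ⟨σ', s1, s2⟩ := Metric.mem_closure_iff.1 (D2 hσ) _ (show 0 < (σ y - c) / 3 by linarith)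
  have s3 : ∀ z : X, ‖z‖ ≤ 1 → |σ z - σ' z| ≤ (σ y - c) / 3 := fun z hz =>
    ((σ - σ').le_opNorm z).trans ((mul_le_of_le_one_right (norm_nonneg _) hz).trans
      ((dist_eq_norm (E := X →L[ℝ] ℝ) _ _).ge.trans s2.le))
  obtain ⟨r, r1, r2⟩ := exists_rat_btwn
    (show c + (σ y - c) / 3 < c + 2 * ((σ y - c) / 3) by linarith)
  obtain ⟨z, z1, z2, z3, z4⟩ := hγ (⟨σ', s1⟩, r) ⟨y, y1, y2, by
    linarith [(abs_le.1 (s3 y y2)).2]⟩
  obtain ⟨n, hn⟩ : γ (⟨σ', s1⟩, r) ∈ range f := hf ▸ mem_insert_of_mem _ ⟨_, rfl⟩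
  linarith [h z z1 z2 fun ξ hξ => z4 ξ (hn ▸ (hβ n).trans hξ), (abs_le.1 (s3 z z2)).1]

theorem club (Y : Submodule ℝ X) : ∃ (C : Set Om) (nx : Om → Om),
    (∀ α, α < nx α ∧ ∀ β ∈ C, α < β → nx α ≤ β) ∧
    (∀ b, (∀ l < b, ∃ α ∈ C, l < α ∧ α ≤ b) → b ∈ C) ∧
    ∀ x D, 0 ≤ D → (∀ α ∈ C, q (YY Y α (nx α)) x ≤ D) → q Y x ≤ D := by
  obtain ⟨g, hg⟩ := norming Y
  set C : Set Om := {α | ∀ β < α, g β < α}
  have c1 : ∀ b, (∀ l < b, ∃ α ∈ C, l < α ∧ α ≤ b) → b ∈ C := fun b h β hβ =>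
    let ⟨_, a1, a2, a3⟩ := h β hβ; (a1 β a2).trans_le a3
  have c2 : ∀ a, ∃ α, α ∈ C ∧ a < α := fun a => by
    have h1 : ∀ b, ∃ c, b < c ∧ ∀ β ≤ b, g β < c := fun b => by
      obtain ⟨f, hf⟩ := (((cIic b).image g).insert b).exists_eq_range (insert_nonempty _ _)
      obtain ⟨c, hc⟩ := bdd f
      have : ∀ z ∈ insert b (g '' Iic b), z < c := hf ▸ by rintro _ ⟨n, rfl⟩; exact hc n
      exact ⟨c, this _ (mem_insert _ _), fun β h => this _ (mem_insert_of_mem _ ⟨β, h, rfl⟩)⟩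
    choose h h1 h2 using h1
    obtain ⟨α, hα⟩ := lub (s := range fun n => h^[n] a) (let ⟨b, hb⟩ := bdd fun n => h^[n] a
      ⟨b, by rintro _ ⟨n, rfl⟩; exact (hb n).le⟩)
    refine ⟨α, fun β hβ => ?_, (h1 a).trans_le (hα.1 ⟨1, rfl⟩)⟩
    obtain ⟨_, ⟨n, rfl⟩, hn⟩ := (lt_isLUB_iff hα).1 hβ
    exact (h2 _ β hn.le).trans_le (hα.1 ⟨n + 1, Function.iterate_succ_apply' _ _ _⟩)
  have c3 : ∀ a, ∃ α ∈ {α | α ∈ C ∧ a < α}, ∀ β ∈ {α | α ∈ C ∧ a < α}, ¬ β < α := fun a =>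
    wellFounded_lt.has_min _ (c2 a)
  choose nx n1 n2 using c3
  refine ⟨C, nx, fun α => ⟨(n1 α).2, fun β h1 h2 => not_lt.1 (n2 α β ⟨h1, h2⟩)⟩, c1,
    fun x D hD h => ?_⟩
  obtain ⟨μ, μ1, μ2⟩ := q_hb Y x
  have μ3 : ‖μ‖ ≤ 1 := nle fun z hz => (le_abs_self _).trans ((μ1 z).trans
    ((q_le z Y.zero_mem).trans (by simpa using hz)))
  obtain ⟨m, m1, m2, m3⟩ := rep μ
  set R : Set Om → X →L[ℝ] ℝ := fun A => ∑' ξ, A.indicator m ξ • δ ξ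
  have r1 : ∀ A z, HasSum (fun ξ => A.indicator m ξ * z.1 ξ) (R A z) := fun A =>
    sm_ap (ind_sum m1 A)
  have r2 : ∀ α ∈ C, ∀ y ∈ Y, R (Iio α) y = 0 := fun α hα => by
    have h1 : ∀ y ∈ Y, ‖y‖ ≤ 1 → R (Iio α) y ≤ 0 := fun y y1 y2 =>
      le_of_forall_pos_le_add fun ε hε => by
        obtain ⟨F, hF⟩ := (Metric.tendsto_nhds.1 (sm (ind_sum m1 (Iio α))).hasSum _
          (half_pos hε)).exists
        set σ := ∑ ξ ∈ F, (Iio α).indicator m ξ • δ ξ with hσ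
        have s3 : ∀ z : X, ‖z‖ ≤ 1 → |σ z - R (Iio α) z| ≤ ε / 2 := fun z hz =>
          ((σ - R (Iio α)).le_opNorm z).trans ((mul_le_of_le_one_right (norm_nonneg _) hz).trans
            ((dist_eq_norm (E := X →L[ℝ] ℝ) _ _).ge.trans hF.le))
        suffices σ y ≤ ε / 2 by linarith [(abs_le.1 (s3 y y2)).1]
        rcases (F.filter (· < α)).eq_empty_or_nonempty with h0 | h0
        · rw [hσ, Finset.sum_eq_zero fun ξ hξ => by
            rw [indicator_of_notMem (s := Iio α) (Finset.filter_eq_empty_iff.1 h0 hξ), zero_smul]]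
          exact (half_pos hε).le
        refine hg (Finset.max' _ h0) σ (Submodule.sum_mem _ fun ξ hξ => ?_) _
          (fun z z1 z2 z3 => ?_) y y1 y2
        · by_cases h : ξ ∈ Iio α
          · exact Submodule.smul_mem _ _ (Submodule.subset_span
              ⟨ξ, Finset.le_max' _ _ (Finset.mem_filter.2 ⟨hξ, h⟩), rfl⟩)
          · simp [h]
        · have h2 := hα _ (Finset.mem_filter.1 (Finset.max'_mem _ h0)).2
          have h3 : R (Iio α) z = μ z := (r1 _ z).unique (by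
            convert m3 z using 2 with ξ
            by_cases h : ξ ∈ Iio α
            · rw [indicator_of_mem h]
            · rw [z3 ξ (h2.trans_le (not_lt.1 h)), mul_zero, mul_zero])
          linarith [(abs_le.1 (s3 z z2)).2, q_van μ1 z1]
    have h2 : ∀ y ∈ Y, R (Iio α) y ≤ 0 := fun y hy => by
      have h3 : 0 < (‖y‖ + 1)⁻¹ := by positivity
      have := h1 _ (Y.smul_mem (‖y‖ + 1)⁻¹ hy) (by
        rw [norm_smul, Real.norm_of_nonneg h3.le, inv_mul_le_iff₀ (by positivity)]; linarith)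
      rw [map_smul, smul_eq_mul] at this
      exact nonpos_of_mul_nonpos_right this h3 |> fun k => k
    exact fun y hy => le_antisymm (h2 y hy) (by simpa using h2 _ (Y.neg_mem hy))
  have p1 : ∀ ξ, ∃ α ∈ C, ξ ∈ Ico α (nx α) := fun ξ => by
    obtain ⟨α, hα⟩ := lub (s := C ∩ Iic ξ) ⟨ξ, fun _ h => h.2⟩
    have a1 : α ≤ ξ := hα.2 fun _ h => h.2
    refine ⟨α, c1 α fun l hl => ?_, a1, lt_of_not_ge fun h => (n1 α).2.not_ge (hα.1 ⟨(n1 α).1, h⟩)⟩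
    obtain ⟨β, b1, b2⟩ := (lt_isLUB_iff hα).1 hl
    exact ⟨β, b1.1, b2, hα.1 b1⟩
  choose pr p1 p2 using p1
  have p3 : ∀ α ∈ C, pr ⁻¹' {α} = Ico α (nx α) := fun α hα => Set.ext fun ξ =>
    ⟨fun h => h ▸ p2 ξ, fun h => le_antisymm
      (not_lt.1 fun k => n2 α _ ⟨p1 ξ, k⟩ ((p2 ξ).1.trans_lt h.2))
      (not_lt.1 fun k => n2 _ α ⟨hα, k⟩ (h.1.trans_lt (p2 ξ).2))⟩
  have h1 := hasSum_le (fun α => ?_) ((m3 x).tsum_fiberwise pr)
    ((m1.hasSum.tsum_fiberwise pr).mul_right D)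
  · rw [← μ2]
    exact h1.trans (mul_le_of_le_one_left hD (m2.trans μ3))
  by_cases hα : α ∈ C
  swap
  · have : pr ⁻¹' {α} = ∅ := eq_empty_of_forall_notMem fun ξ h => hα (h ▸ p1 ξ)
    rw [this]
    simp
  rw [p3 α hα, tsum_subtype _ fun ξ => m ξ * x.1 ξ, tsum_subtype _ fun ξ => |m ξ|]
  have a1 : ∑' ξ, (Ico α (nx α)).indicator (fun ξ => m ξ * x.1 ξ) ξ = R (Ico α (nx α)) x := by
    rw [← (r1 _ x).tsum_eq]
    exact tsum_congr fun ξ => indicator_mul_left _ _ _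
  have a2 : ‖R (Ico α (nx α))‖ ≤ ∑' ξ, (Ico α (nx α)).indicator (fun ξ => |m ξ|) ξ :=
    (sm_norm (ind_sum m1 _)).trans_eq (tsum_congr fun ξ => by
      by_cases h : ξ ∈ Ico α (nx α) <;> simp [h])
  rw [a1]
  refine (le_abs_self _).trans ((le_q (YY_van (a := α) (b := nx α) (fun y hy => ?_)
    fun y hy => ?_) x).trans (mul_le_mul a2 (h α hα) (apply_nonneg _ _)
      ((norm_nonneg _).trans a2)))
  · have := (r1 (Iio (nx α)) y).sub (r1 (Iio α) y)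
    rw [r2 _ (n1 α).1 y hy, r2 α hα y hy, sub_zero] at this
    refine (r1 _ y).unique ?_
    rw [show (fun ξ => (Ico α (nx α)).indicator m ξ * y.1 ξ) = fun ξ =>
      (Iio (nx α)).indicator m ξ * y.1 ξ - (Iio α).indicator m ξ * y.1 ξ from funext fun ξ => ?_]
    · exact this
    rcases lt_or_ge ξ α with h | h
    · simp [h, h.not_ge, h.trans (n1 α).2]
    · by_cases h2 : ξ < nx α <;> simp [h, h.not_gt, h2]
  · refine (r1 _ y).unique ?_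
    convert hasSum_zero with ξ
    by_cases h : ξ ∈ Ico α (nx α)
    · rw [show y.1 ξ = 0 from hy ξ (Ico_subset_Icc_self h), mul_zero]
    · simp [h]

end Pool.Agent.H87.TalF
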