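import Mathlib
import Pool.Agent.H87.TalF4

/-! Every quotient of `C₀[0, ω₁)` has an equivalent smooth norm. -/

namespace Pool.Agent.H87.TalF

open Filter Topology Set Metric Classical TopologicalSpace
open Pool.Agent.H87.NoGat (Om bdd cIic)

lemma fin2 {A D : Set Om} (hAD : A ⊆ D) (c : Om) (hc : ∀ α ∈ A, α ≤ c)
    (h : ∀ b l0, l0 < b → ∃ l < b, ∀ α ∈ A, l < α → ∀ β ∈ D, α < β → β < b → False) :
    A.Finite := by
  suffices ∀ b, (A ∩ Iic b).Finite from (this c).subset fun α h => ⟨h, hc α h⟩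
  intro b
  induction b using WellFoundedLT.induction with | ind b ih => ?_
  by_cases hb : ∃ l < b, ∀ α ∈ A, l < α → b ≤ α
  · obtain ⟨l, h1, h2⟩ := hb
    exact ((ih l h1).insert b).subset fun α hα => (le_or_gt α l).elim
      (fun k => Or.inr ⟨hα.1, k⟩) fun k => Or.inl (le_antisymm hα.2 (h2 α hα.1 k))
  push Not at hb
  refine (finite_singleton b).subset fun l0 h0 => h0.2.eq_or_lt.resolve_right fun h1 => ?_
  obtain ⟨l, h2, h3⟩ := h b l0 h1
  obtain ⟨α, a1, a2, a3⟩ := hb l h2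
  obtain ⟨β, b1, b2, b3⟩ := hb α a3
  exact h3 α a1 a2 β (hAD b1) b2 b3

lemma oscn (z : X) {η : ℝ} (hη : 0 < η) {l0 b : Om} (h : l0 < b) :
    ∃ l < b, ∀ α, l < α → ∀ ξ, α ≤ ξ → ξ ≤ b → |z.1 ξ - z.1 α| ≤ η := by
  obtain ⟨l, -, h1, h2⟩ := near z (half_pos hη) h
  exact ⟨l, h1, fun α a1 ξ a2 a3 => by
    linarith [abs_sub_le (z.1 ξ) (z.1 b) (z.1 α), h2 ξ (a1.trans_le a2) a3, h2 α a1 (a2.trans a3),
      abs_sub_comm (z.1 b) (z.1 α)]⟩

theorem quot (Y : Submodule ℝ X) (hY : IsClosed (Y : Set X)) : ∃ p : Seminorm ℝ X,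
    (∃ c C : ℝ, 0 < c ∧ ∀ x, c * infDist x (Y : Set X) ≤ p x ∧ p x ≤ C * infDist x (Y : Set X)) ∧
      ∀ x, x ∉ Y → DifferentiableAt ℝ (fun z => p z) x := by
  obtain ⟨C, nx, c1, c2, c3⟩ := club Y
  set d : Om → Seminorm ℝ X := fun α => q (YY Y α (nx α)) with hd
  set U : Om → X := fun α => u (nx α) with hU
  set w : Om → ℝ := fun α => d α (U α) with hw
  have d1 : ∀ α x, d α x ≤ q Y x := fun α => q_mono (le_YY _ _)
  have d2 : ∀ x, q Y x ≤ ‖x‖ := fun x => by simpa using q_le x Y.zero_mem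
  have w0 : ∀ α, 0 ≤ w α := fun α => apply_nonneg _ _
  have w1 : ∀ α, w α ≤ 1 := fun α => (d1 _ _).trans ((d2 _).trans (u_norm _))
  have hμ : ∀ α, ∃ μ : X →L[ℝ] ℝ, (∀ z, |μ z| ≤ d α z) ∧ μ (U α) = w α ∧
      ((∀ y ∈ Y, y.1 α = 0) → μ = δ α ∧ w α = 1) := fun α => by
    by_cases h : ∀ y ∈ Y, y.1 α = 0
    · have h1 : ∀ z, |δ α z| ≤ d α z := fun z => (le_q (YY_van (a := α) (b := nx α) h
        fun y hy => hy α ⟨le_rfl, (c1 α).1.le⟩) z).trans
          (mul_le_of_le_one_left (apply_nonneg _ _) (δ_norm α))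
      have h2 : δ α (U α) = 1 := (u_ap _ _).trans (if_pos (c1 α).1.le)
      have h3 : w α = 1 := le_antisymm (w1 α) (by simpa [h2] using h1 (U α))
      exact ⟨δ α, h1, h2.trans h3.symm, fun _ => ⟨rfl, h3⟩⟩
    · obtain ⟨μ, h1, h2⟩ := q_hb (YY Y α (nx α)) (U α)
      exact ⟨μ, h1, h2, fun k => absurd k h⟩
  choose μ μ1 μ2 μ3 using hμ
  have hl : ∀ α, ∃ k : ℕ, 0 < w α → (1 / 2 : ℝ) ^ (k + 1) < w α ∧ w α ≤ (1 / 2) ^ k := fun α => by
    by_cases h : 0 < w α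
    · obtain ⟨k, hk⟩ := exists_nat_pow_near_of_lt_one h (w1 α) one_half_pos one_half_lt_one
      exact ⟨k, fun _ => hk⟩
    · exact ⟨0, fun k => absurd k h⟩
  choose lev hlev using hl
  set W : Om → ℝ := fun α => (1 / 2) ^ lev α with hW
  have W0 : ∀ α, 0 < W α := fun α => by positivity
  have W1 : ∀ α, W α ≤ 1 := fun α => pow_le_one₀ (by norm_num) (by norm_num)
  have W2 : ∀ α, 0 < w α → w α ≤ W α ∧ W α ≤ 2 * w α := fun α h =>
    ⟨(hlev α h).2, by have := (hlev α h).1; rw [pow_succ] at this; simp only [hW]; linarith⟩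
  set y : Om → X →L[ℝ] ℝ := fun α => (w α)⁻¹ • μ α with hy
  have y1 : ∀ α z, |y α z| * w α ≤ d α z := fun α z => by
    rcases (w0 α).eq_or_lt with h | h
    · rw [← h, mul_zero]; exact apply_nonneg _ _
    · rw [hy, smul_apply, smul_eq_mul, abs_mul, abs_of_pos (inv_pos.2 h), mul_right_comm,
        inv_mul_cancel₀ h.ne', one_mul]
      exact μ1 α z
  have y3 : ∀ α z, 0 < w α → W α * |y α z| ≤ 2 * d α z := fun α z h => by
    nlinarith [y1 α z, (W2 α h).2, abs_nonneg (y α z)]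
  set osc : X → Om → ℝ → Prop := fun x α η => ∀ ξ ∈ Icc α (nx α), |x.1 ξ - x.1 α| ≤ η with hosc
  have o1 : ∀ x α η, 0 ≤ η → osc x α η → d α (x - x.1 α • U α) ≤ η := fun x α η h0 h =>
    q_clamp _ h0 fun ξ hξ => by
      show |x.1 ξ - x.1 α * (u (nx α)).1 ξ| ≤ η
      rw [u_ap, if_pos hξ.2, mul_one]
      exact h ξ hξ
  have o2 : ∀ x α η, 0 ≤ η → osc x α η → |y α x - x.1 α| * w α ≤ η := fun x α η h0 h => by
    rcases (w0 α).eq_or_lt with h1 | h1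
    · rw [← h1, mul_zero]; exact h0
    · have := (y1 α _).trans (o1 x α η h0 h)
      rwa [map_sub, map_smul, show y α (U α) = 1 by
        rw [hy, smul_apply, μ2, smul_eq_mul, inv_mul_cancel₀ h1.ne'], smul_eq_mul, mul_one] at this
  have o3 : ∀ x α η, 0 ≤ η → osc x α η → 0 < w α → W α * |y α x - x.1 α| ≤ 2 * η :=
    fun x α η h0 h h1 => by nlinarith [o2 x α η h0 h, (W2 α h1).2, abs_nonneg (y α x - x.1 α)]
  have o4 : ∀ (x : X), ∃ c, ∀ α, c < α → x.1 α = 0 ∧ osc x α 0 := fun x =>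
    let ⟨c, hc⟩ := x.2
    ⟨c, fun α h => ⟨hc α h, fun ξ hξ => by simp [hc α h, hc ξ (h.trans_le hξ.1)]⟩⟩
  have o5 : ∀ (x : X), ∃ c, ∀ α, c < α → 0 < w α → y α x = 0 := fun x =>
    let ⟨c, hc⟩ := o4 x
    ⟨c, fun α h h1 => by
      have := o2 x α 0 le_rfl (hc α h).2
      rw [(hc α h).1, sub_zero] at this
      exact abs_nonpos_iff.1 (nonpos_of_mul_nonpos_left this h1)⟩
  have hB : ∀ x, ∀ η > 0, {α | α ∈ C ∧ ¬ osc x α η}.Finite := fun x η hη => by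
    obtain ⟨c, hc⟩ := o4 x
    refine fin2 (D := C) (fun _ h => h.1) c (fun α h => not_lt.1 fun k =>
      h.2 fun ξ hξ => ((hc α k).2 ξ hξ).trans hη.le) fun b l0 h => ?_
    obtain ⟨l, l1, l2⟩ := oscn x hη h
    exact ⟨l, l1, fun α a1 a2 β b1 b2 b3 => a1.2 fun ξ hξ =>
      l2 α a2 ξ hξ.1 ((hξ.2.trans ((c1 α).2 β b1 b2)).trans b3.le)⟩
  set r : Om → X →L[ℝ] X := fun α => .id ℝ X - (y α).smulRight (U α) with hr
  have r0 : ∀ α x (c : ℝ), d α (x - c • U α) ≤ d α x + |c| * w α := fun α x c =>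
    (map_sub_le_add _ _ _).trans_eq (by rw [map_smul_eq_mul]; rfl)
  have r1 : ∀ α x, d α (r α x) ≤ 2 * d α x := fun α x => by
    linarith [r0 α x (y α x), y1 α x, show r α x = x - y α x • U α from rfl,
      show d α (r α x) = d α (x - y α x • U α) from rfl]
  have r2 : ∀ x α η, 0 ≤ η → osc x α η → d α (r α x) ≤ 2 * η := fun x α η h0 h => by
    rw [show r α x = x - x.1 α • U α - (y α x - x.1 α) • U α by
      show x - y α x • U α = _; module]
    linarith [r0 α (x - x.1 α • U α) (y α x - x.1 α), o1 x α η h0 h, o2 x α η h0 h]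
  have r3 : ∀ α x, d α x ≤ d α (r α x) + |y α x| * w α := fun α x => by
    have := r0 α (r α x) (-y α x)
    rwa [abs_neg, show r α x - -y α x • U α = x by show x - y α x • U α - _ = _; module] at this
  choose n φ n1 n2 φ1 φ2 using fun α => fiber (YY Y α (nx α))
    (Submodule.isClosed_topologicalClosure _) (sepYY α (nx α))
  have hN : ∀ α, ∃ N : X →L[ℝ] ℝ, (N = 0 ∧ ∀ β ∈ C, 0 < w β → lev β = lev α → ¬ α < β) ∨
      ∃ β ∈ C, 0 < w β ∧ lev β = lev α ∧ α < β ∧ N = y β ∧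
        ∀ β' ∈ C, 0 < w β' → lev β' = lev α → α < β' → β ≤ β' := fun α => by
    by_cases h : {β | β ∈ C ∧ 0 < w β ∧ lev β = lev α ∧ α < β}.Nonempty
    · obtain ⟨β, b1, b2⟩ := wellFounded_lt.has_min _ h
      exact ⟨y β, Or.inr ⟨β, b1.1, b1.2.1, b1.2.2.1, b1.2.2.2, rfl,
        fun β' a1 a2 a3 a4 => not_lt.1 (b2 β' ⟨a1, a2, a3, a4⟩)⟩⟩
    · exact ⟨0, Or.inl ⟨rfl, fun β a1 a2 a3 a4 => h ⟨β, a1, a2, a3, a4⟩⟩⟩
  choose N hN using hN
  let L := (C × ℕ) ⊕ {α // α ∈ C ∧ 0 < w α}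
  let nn : L → Seminorm ℝ X := Sum.elim (fun t => (n t.1).comp (r t.1 : X →ₗ[ℝ] X))
    fun α => (normSeminorm ℝ ℝ).comp ((W α • y α : X →L[ℝ] ℝ) : X →ₗ[ℝ] ℝ)
  let τ : L → X →L[ℝ] ℝ := Sum.elim (fun t => (1 / 2 : ℝ) ^ (t.2 + 1) • (φ t.1 t.2).comp (r t.1))
    fun α => W α • (y α - N α)
  have e1 : ∀ t x, nn (.inl t) x = n t.1 (r t.1 x) := fun _ _ => rfl
  have e2 : ∀ α x, nn (.inr α) x = W α * |y α x| := fun α x =>
    (abs_mul _ _).trans (by rw [abs_of_pos (W0 α)]; rfl)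
  have e3 : ∀ t x, |τ (.inl t) x| = (1 / 2) ^ (t.2 + 1) * |φ t.1 t.2 (r t.1 x)| := fun t x =>
    (abs_mul _ _).trans (by rw [abs_of_pos (by positivity)]; rfl)
  have e4 : ∀ α x, |τ (.inr α) x| = W α * |y α x - N α x| := fun α x =>
    (abs_mul _ _).trans (by rw [abs_of_pos (W0 α)]; rfl)
  have s1 : ∀ t x, nn t x ≤ 2 * q Y x := by
    rintro (t | α) x
    · linarith [e1 t x, (n1 t.1 (r t.1 x)).2, r1 t.1 x, d1 t.1 x]
    · linarith [e2 α x, y3 α x α.2.2, d1 α x]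
  set S : X → ℝ := fun x => ⨆ t, nn t x with hS
  have s2 : ∀ t x, nn t x ≤ S x := fun t x =>
    le_ciSup (f := fun t => nn t x) ⟨_, by rintro _ ⟨t, rfl⟩; exact s1 t x⟩ t
  have s0 : ∀ x, 0 ≤ S x := fun x => Real.iSup_nonneg fun t => apply_nonneg _ _
  have s3 : ∀ x, S x ≤ 2 * q Y x := fun x => Real.iSup_le (s1 · x) (by positivity)
  have s4 : ∀ x, q Y x ≤ 4 * S x := fun x => c3 x _ (by linarith [s0 x]) fun α hα => by
    have a1 := s2 (.inl (⟨α, hα⟩, 0)) x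
    have a2 : |y α x| * w α ≤ S x := by
      rcases (w0 α).eq_or_lt with h | h
      · rw [← h, mul_zero]; exact s0 x
      · have := s2 (.inr ⟨α, hα, h⟩) x
        rw [e2] at this
        nlinarith [(W2 α h).1, abs_nonneg (y α x)]
    rw [e1] at a1
    linarith [r3 α x, (n1 α (r α x)).1]
  have k1 : ∀ {K ε : ℝ}, 0 < ε → ∃ J : ℕ, ∀ j, ε ≤ (1 / 2) ^ j * K → j < J := fun {K ε} hε => by
    obtain ⟨J, hJ⟩ := eventually_atTop.1 (((tendsto_pow_atTop_nhds_zero_of_lt_one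
      one_half_pos.le one_half_lt_one).mul_const K).eventually (gt_mem_nhds (by simpa using hε)))
    exact ⟨J, fun j h => not_le.1 fun k => (hJ j k).not_ge h⟩
  have k2 : ∀ x, ∀ c > 0, (∃ α ∈ C, 0 < w α ∧ c ≤ W α * |y α x|) →
      ∃ m, (m ∈ C ∧ 0 < w m ∧ c ≤ W m * |y m x|) ∧
        ∀ α ∈ C, 0 < w α → c ≤ W α * |y α x| → α ≤ m := fun x c hc ⟨α0, h0⟩ => by
    obtain ⟨b, hb⟩ := lub (s := {α | α ∈ C ∧ 0 < w α ∧ c ≤ W α * |y α x|})
      (let ⟨b, hb⟩ := o5 x; ⟨b, fun α h => not_lt.1 fun k => by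
        have := h.2.2
        rw [hb α k h.2.1, abs_zero, mul_zero] at this
        exact hc.not_ge this⟩)
    refine ⟨b, by_contra fun H => H ?_, fun α a1 a2 a3 => hb.1 ⟨a1, a2, a3⟩⟩
    have h1 : ∀ l < b, ∃ α, (α ∈ C ∧ 0 < w α ∧ c ≤ W α * |y α x|) ∧ l < α ∧ α < b := fun l hl =>
      let ⟨α, a1, a2⟩ := (lt_isLUB_iff hb).1 hl
      ⟨α, a1, a2, (hb.1 a1).lt_of_ne fun k => H (k ▸ a1)⟩
    have h2 : b ∈ C := c2 b fun l hl => let ⟨α, a1, a2, a3⟩ := h1 l hl; ⟨α, a1.1, a2, a3.le⟩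
    have h3 : α0 < b := (hb.1 h0).lt_of_ne fun k => H (k ▸ h0)
    have h4 : ∀ (z : X), ∀ η > 0, ∃ α, 0 < w α ∧ c ≤ W α * (|x.1 b| + η) + 2 * η ∧
        W α * |y α z - z.1 α| ≤ 2 * η ∧ |z.1 b - z.1 α| ≤ η := fun z η hη => by
      obtain ⟨l, l1, l2⟩ := oscn x hη h3
      obtain ⟨l', l3, l4⟩ := oscn z hη h3
      obtain ⟨α, a1, a2, a3⟩ := h1 _ (max_lt l1 l3)
      have a4 := (c1 α).2 b h2 a3
      have a5 := o3 x α η hη.le (fun ξ hξ => l2 α (max_lt_iff.1 a2).1 ξ hξ.1 (hξ.2.trans a4)) a1.2.1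
      refine ⟨α, a1.2.1, ?_,
        o3 z α η hη.le (fun ξ hξ => l4 α (max_lt_iff.1 a2).2 ξ hξ.1 (hξ.2.trans a4)) a1.2.1,
        l4 α (max_lt_iff.1 a2).2 b a3.le le_rfl⟩
      have a6 : |y α x| ≤ |y α x - x.1 α| + (|x.1 b| + η) := by
        linarith [abs_sub_abs_le_abs_sub (y α x) (x.1 α), abs_sub_abs_le_abs_sub (x.1 α) (x.1 b),
          abs_sub_comm (x.1 α) (x.1 b), l2 α (max_lt_iff.1 a2).1 b a3.le le_rfl]
      nlinarith [a1.2.2, W0 α]
    have h5 : ∀ z ∈ Y, z.1 b = 0 := fun z hz => by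
      have t1 : Tendsto (fun η : ℝ => 3 * η * (|x.1 b| + η) + 2 * η * |z.1 b|) (𝓝[>] 0) (𝓝 0) :=
        (Continuous.tendsto' (by fun_prop) _ _ (by simp)).mono_left nhdsWithin_le_nhds
      refine abs_nonpos_iff.1 (nonpos_of_mul_nonpos_right (ge_of_tendsto t1 ?_) hc)
      filter_upwards [self_mem_nhdsWithin] with η hη
      obtain ⟨α, a1, a2, a3, a4⟩ := h4 z η hη
      rw [hy, smul_apply, q_van (μ1 α) (le_YY _ _ hz), smul_zero, zero_sub, abs_neg] at a3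
      have a5 : W α * |z.1 b| ≤ 3 * η := by
        nlinarith [abs_sub_abs_le_abs_sub (z.1 b) (z.1 α), W0 α, W1 α, mem_Ioi.1 hη]
      have a6 : 0 ≤ |x.1 b| + η := add_nonneg (abs_nonneg _) (le_of_lt hη)
      nlinarith [abs_nonneg (z.1 b)]
    obtain ⟨h6, h7⟩ := μ3 b h5
    have h8 : 0 < w b := h7 ▸ one_pos
    refine ⟨h2, h8, ?_⟩
    rw [le_antisymm (W1 b) (h7 ▸ (W2 b h8).1), hy, smul_apply, h6, h7, inv_one, one_smul, one_mul]
    refine le_of_forall_pos_le_add fun η hη => ?_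
    obtain ⟨α, -, a2, -⟩ := h4 x (η / 3) (by linarith)
    have := mul_le_of_le_one_left (show 0 ≤ |x.1 b| + η / 3 by positivity) (W1 α)
    rw [δ_ap]
    linarith
  refine (smoothing nn τ S 2 s0 s2 ?_ (fun x => by linarith [s3 x, d2 x]) ?_ ?_ ?_).imp
    fun p ⟨p1, p2⟩ => ⟨⟨1 / 4, 6, by norm_num, fun x => by
      rw [← q_eq]
      constructor <;> linarith [(p1 x).1, (p1 x).2, s3 x, s4 x]⟩, fun x hx => p2 x fun h => by
      have := (hY.notMem_iff_infDist_pos ⟨0, Y.zero_mem⟩).1 hx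
      rw [← q_eq] at this
      linarith [s4 x]⟩
  · rintro (t | α) x
    · have a1 := s2 (.inl t) x
      have a2 : (1 / 2 : ℝ) ^ (t.2 + 1) ≤ 1 / 2 :=
        pow_le_of_le_one (by norm_num) (by norm_num) (Nat.succ_ne_zero _)
      rw [e1] at a1
      rw [e3]
      nlinarith [φ1 t.1 t.2 (r t.1 x), (n1 t.1 (r t.1 x)).1, abs_nonneg (φ t.1 t.2 (r t.1 x)), s0 x]
    · have a1 := s2 (.inr α) x
      have a2 : W α * |N α x| ≤ S x := by
        rcases hN α with ⟨h, -⟩ | ⟨β, b1, b2, b3, -, h, -⟩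
        · simpa [h] using s0 x
        · have := s2 (.inr ⟨β, b1, b2⟩) x
          rw [e2] at this
          simpa only [h, hW, b3] using this
      rw [e2] at a1
      rw [e4]
      nlinarith [abs_sub (y α x) (N α x), W0 α]
  · rintro (t | α) x
    · exact (n2 t.1 (r t.1 x)).comp x (r t.1).differentiableAt
    · have : (fun z => nn (.inr α) z ^ 2) = fun z => (W α • y α) z ^ 2 :=
        funext fun z => sq_abs _
      rw [this]
      exact (W α • y α).differentiableAt.pow 2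
  · intro x ε hε
    rw [← finite_preimage_inl_and_inr]
    have hη : 0 < ε / 8 := by linarith
    constructor
    · obtain ⟨J, hJ⟩ := k1 (K := 2 * ‖x‖) hε
      refine (((hB x _ hη).preimage Subtype.val_injective.injOn).prod (finite_Iio J)).subset
        fun t ht => ?_
      have a1 : ε ≤ _ := ht
      have a2 : (1 / 2 : ℝ) ^ (t.2 + 1) ≤ 1 := pow_le_one₀ (by norm_num) (by norm_num)
      rw [e3] at a1
      refine ⟨⟨t.1.2, fun h => ?_⟩, (Nat.lt_succ_self _).trans (hJ _ (a1.trans ?_))⟩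
      · nlinarith [r2 x t.1 _ hη.le h, φ1 t.1 t.2 (r t.1 x), abs_nonneg (φ t.1 t.2 (r t.1 x))]
      · gcongr
        linarith [φ1 t.1 t.2 (r t.1 x), r1 t.1 x, d1 t.1 x, d2 x]
    obtain ⟨K, hK⟩ := ((hB x _ hη).image fun β => |y β x|).bddAbove
    obtain ⟨J, hJ⟩ := k1 (K := 2 * ‖x‖ + |K|) (half_pos hε)
    have a0 : ∀ α, 0 < w α → osc x α (ε / 8) → W α * |y α x| ≤ W α * ‖x‖ + ε / 4 :=
      fun α h1 h2 => by
        nlinarith [o3 x α _ hη.le h2 h1, abs_sub_abs_le_abs_sub (y α x) (x.1 α), ap_le x α, W0 α]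
    have a1 : ∀ k, {α | (α ∈ C ∧ 0 < w α ∧ lev α = k) ∧ ε ≤ W α * |y α x - N α x|}.Finite := by
      intro k
      obtain ⟨c, hc⟩ := o5 x
      refine fin2 (D := {α | α ∈ C ∧ 0 < w α ∧ lev α = k}) (fun _ h => h.1) c
        (fun α h => not_lt.1 fun hα => ?_) fun b l0 h => ?_
      · have := h.2
        rcases hN α with ⟨h1, -⟩ | ⟨β, -, b2, -, b4, h1, -⟩
        · simp [h1, hc α hα h.1.2.1, hε.not_ge] at this
        · simp [h1, hc α hα h.1.2.1, hc β (hα.trans b4) b2, hε.not_ge] at this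
      obtain ⟨l, l1, l2⟩ := oscn x hη h
      obtain ⟨l', l3, l4⟩ := exists_max_image _ id
        (((hB x _ hη).inter_of_left (Iio b)).insert l) (insert_nonempty _ _)
      have l5 : l ≤ l' := l4 l (mem_insert _ _)
      refine ⟨l', l3.elim (fun k => k ▸ l1) fun k => k.2, fun α a1 a2 β' b1 b2 b3 => ?_⟩
      have a3 : ∀ γ ∈ C, l' < γ → γ < b → osc x γ (ε / 8) := fun γ g0 g1 g2 => by_contra
        fun k => g1.not_ge (l4 γ (mem_insert_of_mem _ ⟨⟨g0, k⟩, g2⟩))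
      rcases hN α with ⟨-, h1⟩ | ⟨β, b4, b5, b6, b7, h1, h2⟩
      · exact h1 β' b1.1 b1.2.1 (b1.2.2.trans a1.1.2.2.symm) b2
      have b8 := (h2 β' b1.1 b1.2.1 (b1.2.2.trans a1.1.2.2.symm) b2).trans_lt b3
      have a4 := o3 x α _ hη.le (a3 α a1.1.1 a2 (b2.trans b3)) a1.1.2.1
      have a5 := o3 x β _ hη.le (a3 β b4 (a2.trans b7) b8) b5
      have a6 := l2 α (l5.trans_lt a2) β b7.le b8.le
      have a7 := a1.2
      rw [show W β = W α by simp only [hW, b6]] at a5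
      rw [h1] at a7
      have a8 : |y α x - y β x| ≤ |y α x - x.1 α| + |y β x - x.1 β| + |x.1 β - x.1 α| := by
        linarith [abs_sub_le (y α x) (x.1 α) (y β x), abs_sub_le (x.1 α) (x.1 β) (y β x),
          abs_sub_comm (x.1 α) (x.1 β), abs_sub_comm (x.1 β) (y β x)]
      nlinarith [W0 α, W1 α, abs_nonneg (x.1 β - x.1 α)]
    refine (((hB x _ hη).union ((finite_Iio J).biUnion fun k _ => a1 k)).preimage
      Subtype.val_injective.injOn).subset fun α hα => ?_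
    have a2 : ε ≤ _ := hα
    rw [e4] at a2
    by_cases h : osc x α (ε / 8)
    swap
    · exact Or.inl ⟨α.2.1, h⟩
    refine Or.inr (mem_biUnion (x := lev α) (hJ _ ?_) ⟨⟨α.2.1, α.2.2, rfl⟩, a2⟩)
    have a3 : W α * |N α x| ≤ W α * (‖x‖ + |K|) + ε / 4 := by
      rcases hN α with ⟨h1, -⟩ | ⟨β, b1, b2, b3, -, h1, -⟩
      · have := W0 α
        rw [h1, zero_apply, abs_zero, mul_zero]; positivity
      rw [h1, show W α = W β by simp only [hW, b3]]
      by_cases h2 : osc x β (ε / 8)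
      · nlinarith [a0 β b2 h2, abs_nonneg K, W0 β]
      · nlinarith [hK ⟨β, ⟨b1, h2⟩, rfl⟩, le_abs_self K, norm_nonneg x, W0 β]
    show ε / 2 ≤ W α * _
    nlinarith [a0 α α.2.2 h, abs_sub (y α x) (N α x), W0 α]
  · intro x hx
    have x0 := (s0 x).lt_of_ne' hx
    by_cases h : ∃ α ∈ C, n α (r α x) = S x
    · obtain ⟨α, a1, a2⟩ := h
      obtain ⟨j, hj⟩ := φ2 α (r α x) ((x0.trans_eq a2.symm).trans_le (n1 α (r α x)).2).ne'
      exact ⟨.inl (⟨α, a1⟩, j), a2, mul_ne_zero (by positivity) hj⟩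
    push Not at h
    have h1 : ∀ c < S x, ∃ α ∈ C, 0 < w α ∧ c ≤ W α * |y α x| := fun c0 hc0 => by
      have a1 := (hB x _ (show 0 < S x / 8 by linarith)).eventually_all
        (l := 𝓝[<] S x) (p := fun α c => n α (r α x) < c) |>.2 fun α hα => Ioo_mem_nhdsLT
          ((s2 (.inl (⟨α, hα.1⟩, 0)) x).lt_of_ne (h α hα.1)) |> mem_of_superset <| fun _ h => h.1
      obtain ⟨c, a2, a3, a4⟩ := (a1.and ((show ∀ᶠ c in 𝓝[<] S x, c ∈ Ioo c0 (S x) from
        Ioo_mem_nhdsLT hc0).and (show ∀ᶠ c in 𝓝[<] S x, c ∈ Ioo (S x / 2) (S x) from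
        Ioo_mem_nhdsLT (half_lt_self x0)))).exists
      have : Nonempty L := by
        by_contra! k
        exact hx (Real.iSup_of_isEmpty _)
      obtain ⟨t | α, ht⟩ := exists_lt_of_lt_ciSup a3.2
      · exfalso
        rw [e1] at ht
        by_cases k : osc x t.1 (S x / 8)
        · linarith [r2 x t.1 _ (by linarith) k, (n1 t.1 (r t.1 x)).2, a4.1]
        · exact ht.not_gt (a2 t.1 ⟨t.1.2, k⟩)
      · exact ⟨α, α.2.1, α.2.2, a3.1.le.trans (e2 α x ▸ ht.le)⟩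
    have h2 : ∀ k : ℕ, 0 < S x - S x * (1 / 2) ^ (k + 1) ∧ 0 < S x * (1 / 2) ^ (k + 1) := fun k =>
      ⟨sub_pos.2 (mul_lt_of_lt_one_right x0
        (pow_lt_one₀ (by norm_num) (by norm_num) (Nat.succ_ne_zero _))), by positivity⟩
    choose m m1 m2 using fun k => k2 x _ (h2 k).1 (h1 _ (sub_lt_self _ (h2 k).2))
    obtain ⟨_, ⟨k, rfl⟩, hk⟩ := wellFounded_lt.has_min _ (range_nonempty m)
    have h3 : S x ≤ W (m k) * |y (m k) x| := by
      refine le_of_tendsto (x := atTop) (f := fun j : ℕ => S x - S x * (1 / 2) ^ (j + 1))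
        (by simpa using ((((tendsto_pow_atTop_nhds_zero_of_lt_one one_half_pos.le
          one_half_lt_one).comp (tendsto_add_atTop_nat 1)).const_mul (S x)).const_sub (S x)))
        (eventually_atTop.2 ⟨k, fun j hj => ?_⟩)
      have : m j = m k := le_antisymm (m2 k _ (m1 j).1 (m1 j).2.1 (le_trans (by
        gcongr ?_ - _ * ?_
        exact pow_le_pow_of_le_one (by norm_num) (by norm_num) (by omega)) (m1 j).2.2))
        (not_lt.1 (hk _ ⟨j, rfl⟩))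
      exact this ▸ (m1 j).2.2
    refine ⟨.inr ⟨m k, (m1 k).1, (m1 k).2.1⟩, le_antisymm (s2 _ x) (by rw [e2]; exact h3),
      mul_ne_zero (W0 _).ne' (sub_ne_zero.2 fun h4 => ?_)⟩
    replace h4 : y (m k) x = N (m k) x := h4
    rcases hN (m k) with ⟨h5, -⟩ | ⟨β, b1, b2, b3, b4, h5, -⟩
    · rw [h4, h5, zero_apply, abs_zero, mul_zero] at h3
      exact x0.not_ge h3
    · refine b4.not_ge (m2 k β b1 b2 ((sub_le_self _ (h2 k).2.le).trans ?_))
      rw [h4, h5] at h3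
      simpa only [hW, b3] using h3

end Pool.Agent.H87.TalF
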