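import Mathlib
import Pool.Agent.H87.DenF2
import Pool.Agent.H87.TalF5

/-! Nested smoothing along increasing tuples of a club. -/

namespace Pool.Agent.H87.DenF

open Filter Topology Set Metric Classical TopologicalSpace Function
open Pool.Agent.H87.TalF
open Pool.Agent.H87.NoGat (Om bdd cIic)

abbrev WO : Type := WithTop Om

noncomputable def ev (b : WO) : X →L[ℝ] ℝ := WithTop.recTopCoe 0 δ b

@[simp] lemma ev_top (x : X) : ev ⊤ x = 0 := rfl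

@[simp] lemma ev_coe (b : Om) (x : X) : ev b x = x.1 b := rfl

lemma ev_le (b : WO) (x : X) : |ev b x| ≤ ‖x‖ := by
  induction b using WithTop.recTopCoe with
  | top => simp
  | coe b => exact ap_le x b

structure Club (C : Set Om) (nx : Om → Om) : Prop where
  c1 : ∀ α, nx α ∈ C
  c2 : ∀ α, α < nx α
  c3 : ∀ α, ∀ β ∈ C, α < β → nx α ≤ β
  c4 : ∀ b, (∃ a, a < b) → (∀ l < b, ∃ α ∈ C, l < α ∧ α ≤ b) → b ∈ C
  c5 : ∀ c ∈ C, ∃ a, a < c

lemma fin_act {C : Set Om} {nx : Om → Om} (h3 : ∀ α, ∀ β ∈ C, α < β → nx α ≤ β) (x : X) {η : ℝ}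
    (hη : 0 < η) : {α | α ∈ C ∧ ¬ ∀ ξ ∈ Icc α (nx α), |x.1 ξ - x.1 α| ≤ η}.Finite := by
  obtain ⟨c, hc⟩ := x.2
  refine fin2 (D := C) (fun _ h => h.1) c (fun α h => not_lt.1 fun k => h.2 fun ξ hξ => by
    rw [hc α k, hc ξ (k.trans_le hξ.1)]; simpa using hη.le) fun b l0 h => ?_
  obtain ⟨l, l1, l2⟩ := oscn x hη h
  exact ⟨l, l1, fun α a1 a2 β b1 b2 b3 => a1.2 fun ξ hξ =>
    l2 α a2 ξ hξ.1 ((hξ.2.trans (h3 α β b1 b2)).trans b3.le)⟩

lemma fin_jp {C : Set Om} {nx : Om → Om} (h2 : ∀ α, α < nx α)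
    (h3 : ∀ α, ∀ β ∈ C, α < β → nx α ≤ β) (x : X) {η : ℝ}
    (hη : 0 < η) : {α | α ∈ C ∧ η ≤ |x.1 α - x.1 (nx α)|}.Finite :=
  (fin_act h3 x (half_pos hη)).subset fun α h => ⟨h.1, fun k => by
    linarith [k _ ⟨(h2 α).le, le_rfl⟩, h.2, abs_sub_comm (x.1 α) (x.1 (nx α))]⟩

lemma fin_j (x : X) {η : ℝ} (hη : 0 < η) : {α | η ≤ |x.1 α - x.1 (Order.succ α)|}.Finite :=
  (fin_jp (C := univ) Order.lt_succ (fun _ _ _ h => Order.succ_le_of_lt h) x hη).subset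
    fun _ h => ⟨trivial, h⟩

lemma jmp (x : X) {a b : Om} (hab : a ≤ b) (h : x.1 b ≠ x.1 a) :
    ∃ ξ, a ≤ ξ ∧ ξ < b ∧ x.1 ξ - x.1 (Order.succ ξ) ≠ 0 := by
  obtain ⟨m, hm⟩ := lub (s := {ζ | ζ ≤ b ∧ x.1 ζ = x.1 a}) ⟨b, fun _ h => h.1⟩
  have h1 := hm.mem_of_isClosed ⟨a, hab, rfl⟩
    (isClosed_Iic.inter (isClosed_eq x.1.continuous continuous_const))
  have h2 : m < b := h1.1.lt_of_ne fun k => h (k ▸ h1.2)
  exact ⟨m, hm.1 ⟨hab, rfl⟩, h2, fun k => (Order.lt_succ m).not_ge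
    (hm.1 ⟨Order.succ_le_of_lt h2, (sub_eq_zero.1 k).symm.trans h1.2⟩)⟩

lemma jmp0 {x : X} (hx : x ≠ 0) : ∃ ξ, x.1 ξ - x.1 (Order.succ ξ) ≠ 0 := by
  obtain ⟨a, ha⟩ : ∃ a, x.1 a ≠ 0 := by
    by_contra! h
    exact hx (ext' h)
  obtain ⟨c, hc⟩ := x.2
  obtain ⟨b, hb⟩ := exists_gt (max a c)
  obtain ⟨ξ, -, -, h⟩ := jmp x (max_lt_iff.1 hb).1.le (by rw [hc b (max_lt_iff.1 hb).2]; exact ha.symm)
  exact ⟨ξ, h⟩

lemma nearW (x : X) {η : ℝ} (hη : 0 < η) {b : WO} {a0 : Om} (h : ↑a0 < b) :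
    ∃ a : Om, a0 ≤ a ∧ ↑a < b ∧ ∀ ξ : Om, a < ξ → ↑ξ ≤ b → |x.1 ξ - ev b x| ≤ η := by
  induction b using WithTop.recTopCoe with
  | top =>
    obtain ⟨c, hc⟩ := x.2
    exact ⟨max a0 c, le_max_left _ _, WithTop.coe_lt_top _, fun ξ h _ => by
      simpa [hc ξ (max_lt_iff.1 h).2] using hη.le⟩
  | coe b =>
    obtain ⟨l, h1, h2, h3⟩ := near x hη (WithTop.coe_lt_coe.1 h)
    exact ⟨l, h1, WithTop.coe_lt_coe.2 h2, fun ξ a1 a2 => (h3 ξ a1 (WithTop.coe_le_coe.1 a2)).le⟩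

lemma flat (x : X) {η : ℝ} (hη : 0 < η) {b : WO} {a0 : Om} (h : ↑a0 < b) :
    ∃ a : Om, ↑a < b ∧ ∃ x' : X, ‖x - x'‖ ≤ η ∧ ∀ ξ : Om, a < ξ → ↑ξ ≤ b → x'.1 ξ = ev b x' := by
  induction b using WithTop.recTopCoe with
  | top =>
    obtain ⟨c, hc⟩ := x.2
    exact ⟨c, WithTop.coe_lt_top _, x, by simpa using hη.le, fun ξ h _ => hc ξ h⟩
  | coe b =>
    obtain ⟨a, -, h2, h3⟩ := near x hη (WithTop.coe_lt_coe.1 h)
    have h4 : ∀ ξ, (P a x + x.1 b • (u b - u a) + (x - P b x)).1 ξ =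
        if a < ξ ∧ ξ ≤ b then x.1 b else x.1 ξ := fun ξ => by
      show (P a x).1 ξ + x.1 b * ((u b).1 ξ - (u a).1 ξ) + (x.1 ξ - (P b x).1 ξ) = _
      simp only [P_ap, u_ap]
      rcases le_or_gt ξ a with h | h
      · simp [h, h.trans h2.le, h.not_gt]
      · by_cases h5 : ξ ≤ b <;> simp [h, h.not_ge, h5]
    refine ⟨a, WithTop.coe_lt_coe.2 h2, _, nrm_le _ hη.le fun ξ => ?_, fun ξ a1 a2 => by
      rw [ev_coe, h4, h4, if_pos ⟨a1, WithTop.coe_le_coe.1 a2⟩, if_pos ⟨h2, le_rfl⟩]⟩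
    show |x.1 ξ - (P a x + x.1 b • (u b - u a) + (x - P b x)).1 ξ| ≤ η
    rw [h4]
    split_ifs with k
    · exact (h3 ξ k.1 k.2).le
    · simpa using hη.le

lemma lastmax {D : Set WO} {f : WO → ℝ} (h0 : D.Nonempty) (h1 : BddAbove (f '' D))
    (h2 : ∀ c Z b, Z ⊆ D → Z.Nonempty → (∀ β ∈ Z, c ≤ f β) → IsLUB Z b → b ∈ D ∧ c ≤ f b) :
    ∃ m ∈ D, (∀ β ∈ D, f β ≤ f m) ∧ ∀ β ∈ D, m < β → f β < f m := by
  set S := sSup (f '' D)
  have h3 : ∀ k : ℕ, ∃ m, (m ∈ D ∧ S - 1 / ((k : ℝ) + 1) ≤ f m) ∧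
      ∀ β ∈ D, S - 1 / ((k : ℝ) + 1) ≤ f β → β ≤ m := fun k => by
    obtain ⟨m, a1, a2⟩ := wellFounded_lt.has_min
      (upperBounds {β | β ∈ D ∧ S - 1 / ((k : ℝ) + 1) ≤ f β}) ⟨⊤, fun _ _ => le_top⟩
    obtain ⟨_, ⟨β, b1, rfl⟩, b2⟩ := exists_lt_of_lt_csSup (h0.image f)
      (sub_lt_self S (Nat.one_div_pos_of_nat (n := k)))
    exact ⟨m, h2 _ {β | β ∈ D ∧ S - 1 / ((k : ℝ) + 1) ≤ f β} m (fun _ h => h.1)
      ⟨β, b1, b2.le⟩ (fun _ h => h.2)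
      ⟨a1, fun b hb => not_lt.1 (a2 b hb)⟩, fun β c1 c2 => a1 ⟨c1, c2⟩⟩
  choose m m1 m2 using h3
  obtain ⟨_, ⟨k, rfl⟩, hk⟩ := wellFounded_lt.has_min _ (range_nonempty m)
  have h4 : S ≤ f (m k) := by
    refine le_of_tendsto (x := atTop) (f := fun j : ℕ => S - 1 / ((j : ℝ) + 1))
      (by simpa using tendsto_one_div_add_atTop_nhds_zero_nat.const_sub S)
      (eventually_atTop.2 ⟨k, fun j hj => ?_⟩)
    have : m j = m k := le_antisymm (m2 k _ (m1 j).1 (le_trans (by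
      linarith [Nat.one_div_le_one_div (α := ℝ) hj]) (m1 j).2)) (not_lt.1 (hk _ ⟨j, rfl⟩))
    exact this ▸ (m1 j).2
  refine ⟨m k, (m1 k).1, fun β h => (le_csSup h1 ⟨β, h, rfl⟩).trans h4, fun β b1 b2 => ?_⟩
  linarith [not_le.1 (mt (m2 k β b1) b2.not_ge), Nat.one_div_pos_of_nat (α := ℝ) (n := k)]

def cc (C : Set Om) (b : WO) : Prop := ∀ β : Om, b = β → β ∈ C

lemma cc_top (C : Set Om) : cc C ⊤ := fun _ h => absurd h WithTop.top_ne_coe

lemma cc_coe {C : Set Om} {b : Om} : cc C b ↔ b ∈ C :=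
  ⟨fun h => h b rfl, fun h _ k => WithTop.coe_eq_coe.1 k ▸ h⟩

def pt : Om ⊕ Om → WO := Sum.elim (↑) fun _ => ⊤

lemma pt_surj (b : WO) : ∃ t, pt t = b := by
  induction b using WithTop.recTopCoe with
  | top => exact ⟨.inr (Classical.arbitrary _), rfl⟩
  | coe b => exact ⟨.inl b, rfl⟩

def ok (C : Set Om) (γ : WO) (t : Om ⊕ Om) : Prop := cc C (pt t) ∧ γ ≤ pt t

noncomputable def jp (nx : Om → Om) : Om ⊕ Om → X →L[ℝ] ℝ :=
  Sum.elim (fun β => δ β - δ (nx β)) fun ξ => δ ξ - δ (Order.succ ξ)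

lemma jp_le (nx : Om → Om) (t : Om ⊕ Om) (x : X) : |jp nx t x| ≤ 2 * ‖x‖ := by
  rcases t with t | t
  all_goals exact (abs_sub _ _).trans ((add_le_add (ap_le x _) (ap_le x _)).trans_eq (two_mul _).symm)

noncomputable def W (C : Set Om) (nx : Om → Om) (d : ℝ) (A : (ℕ → WO) → Seminorm ℝ X) :
    ℕ → WO → (ℕ → WO) → Seminorm ℝ X
  | 0, _, c => A c
  | i + 1, γ, c => Sm (fun t => if ok C γ t then W C nx d A i (pt t) (update c i (pt t)) else 0)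
      fun t => if ok C γ t then d • jp nx t else 0

def adm (C : Set Om) : ℕ → WO → (ℕ → WO) → Prop
  | 0, _, _ => True
  | i + 1, γ, c => cc C (c i) ∧ γ ≤ c i ∧ adm C i (c i) c

variable {C : Set Om} {nx : Om → Om} {d K : ℝ} {A : (ℕ → WO) → Seminorm ℝ X}

lemma ch_le (hd : 0 ≤ d) {i : ℕ} {γ : WO} {c : ℕ → WO} {x : X} {B : ℝ} (hB : 0 ≤ B)
    (t : Om ⊕ Om) (h : ok C γ t → W C nx d A i (pt t) (update c i (pt t)) x ≤ B) :
    (if ok C γ t then W C nx d A i (pt t) (update c i (pt t)) else 0) x +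
      |(if ok C γ t then d • jp nx t else 0) x| ≤ B + 2 * d * ‖x‖ := by
  split_ifs with k
  · rw [smul_apply, smul_eq_mul, abs_mul, abs_of_nonneg hd]
    nlinarith [h k, jp_le nx t x]
  · simp only [zero_apply, abs_zero, add_zero]; positivity

lemma W_le (hd : 0 ≤ d) {x : X} {B : ℝ} (hB : 0 ≤ B) (i : ℕ) : ∀ γ c,
    (∀ c', (∀ s, i ≤ s → c' s = c s) → adm C i γ c' → A c' x ≤ B) →
      W C nx d A i γ c x ≤ B + i * (2 * d * ‖x‖) := by
  induction i with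
  | zero => exact fun γ c h => (h c (fun _ _ => rfl) trivial).trans (by simp)
  | succ i ih =>
    refine fun γ c h => Sm_le (by positivity) fun t => (ch_le hd (by positivity) t fun k =>
      ih _ _ fun c' h1 h2 => h c' (fun s hs => ?_) ?_).trans_eq (by push_cast; ring)
    · rw [h1 s (by omega), update_of_ne (by omega)]
    · have : c' i = pt t := by rw [h1 i le_rfl, update_self]
      exact ⟨this ▸ k.1, this ▸ k.2, this ▸ h2⟩

lemma W_bd (hd : 0 ≤ d) (hK : 0 ≤ K) (hA : ∀ c x, A c x ≤ K * ‖x‖) (i : ℕ) (γ : WO) (c : ℕ → WO)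
    (x : X) : W C nx d A i γ c x ≤ (K + i * (2 * d)) * ‖x‖ :=
  (W_le hd (by positivity) i γ c fun c' _ _ => hA c' x).trans_eq (by ring)

lemma ch_bd (hd : 0 ≤ d) (hK : 0 ≤ K) (hA : ∀ c x, A c x ≤ K * ‖x‖) (i : ℕ) (γ : WO) (c : ℕ → WO)
    (t : Om ⊕ Om) (x : X) :
    (if ok C γ t then W C nx d A i (pt t) (update c i (pt t)) else 0) x +
      |(if ok C γ t then d • jp nx t else 0) x| ≤ (K + i * (2 * d) + 2 * d) * ‖x‖ :=
  (ch_le hd (by positivity) t fun _ => W_bd hd hK hA i _ _ x).trans_eq (by ring)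

lemma le_W (hd : 0 ≤ d) (hK : 0 ≤ K) (hA : ∀ c x, A c x ≤ K * ‖x‖) (x : X) (c' : ℕ → WO) (i : ℕ) :
    ∀ γ c, (∀ s, i ≤ s → c' s = c s) → adm C i γ c' → A c' x ≤ W C nx d A i γ c x := by
  induction i with
  | zero => exact fun γ c h _ => by rw [show c' = c from funext fun s => h s s.zero_le]; rfl
  | succ i ih =>
    intro γ c h1 h2
    obtain ⟨t, ht⟩ := pt_surj (c' i)
    refine le_trans ?_ (le_Sm (ch_bd hd hK hA i γ c) t x)
    rw [if_pos ⟨ht ▸ h2.1, ht ▸ h2.2.1⟩, ht]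
    refine ih _ _ (fun s hs => ?_) h2.2.2
    rcases hs.eq_or_lt with rfl | hs
    · rw [update_self]
    · rw [update_of_ne hs.ne', h1 s hs]

lemma upd {x : X} {c c' : ℕ → WO} (h : ∀ s, ev (c s) x = ev (c' s) x) (i : ℕ) {b b' : WO}
    (hb : ev b x = ev b' x) (s : ℕ) : ev (update c i b s) x = ev (update c' i b' s) x := by
  rcases eq_or_ne s i with rfl | k
  · rwa [update_self, update_self]
  · rw [update_of_ne k, update_of_ne k, h]

lemma W_cmp (hC : Club C nx) (hd : 0 ≤ d) (hK : 0 ≤ K) (hA : ∀ c x, A c x ≤ K * ‖x‖)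
    (hE : ∀ c c' x, (∀ s, ev (c s) x = ev (c' s) x) → A c x ≤ A c' x) (x : X) (i : ℕ) :
    ∀ γ γ' c c', γ ≤ γ' → cc C γ' → (∀ β ∈ C, γ ≤ ↑β → ↑β ≤ γ' → x.1 β = ev γ' x) →
      (∀ s, ev (c s) x = ev (c' s) x) → W C nx d A i γ c x ≤ W C nx d A i γ' c' x := by
  induction i with
  | zero => exact fun γ γ' c c' _ _ _ h => hE c c' x h
  | succ i ih =>
    refine fun γ γ' c c' h1 h2 h3 h4 => Sm_cmp (ch_bd hd hK hA i γ' c') fun t => ?_
    by_cases k : ok C γ t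
    swap
    · exact Or.inr ⟨by rw [if_neg k]; rfl, t, by rw [if_neg k]; exact apply_nonneg _ _⟩
    rcases le_or_gt γ' (pt t) with h | h
    · have k' : ok C γ' t := ⟨k.1, h⟩
      refine Or.inl ⟨?_, by rw [if_pos k, if_pos k']⟩
      rw [if_pos k, if_pos k']
      exact ih _ _ _ _ le_rfl k.1 (fun β _ a1 a2 => by rw [le_antisymm a1 a2, ev_coe])
        (upd h4 i rfl)
    rcases t with β | ξ
    swap
    · exact absurd h not_top_lt
    have b1 : β ∈ C := cc_coe.1 k.1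
    have b2 := h3 β b1 k.2 h.le
    have b3 : ↑(nx β) ≤ γ' := by
      induction γ' using WithTop.recTopCoe with
      | top => exact le_top
      | coe g => exact WithTop.coe_le_coe.2 (hC.c3 β g (cc_coe.1 h2) (WithTop.coe_lt_coe.1 h))
    obtain ⟨s, hs⟩ := pt_surj γ'
    refine Or.inr ⟨?_, s, ?_⟩
    · rw [if_pos k]
      show d * (x.1 β - x.1 (nx β)) = 0
      rw [b2, h3 _ (hC.c1 β) (k.2.trans (WithTop.coe_le_coe.2 (hC.c2 β).le)) b3, sub_self, mul_zero]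
    · rw [if_pos k, if_pos ⟨hs ▸ h2, hs.ge⟩, hs]
      exact ih _ _ _ _ h.le h2 (fun β' a0 a1 a2 => h3 β' a0 (k.2.trans a1) a2) (upd h4 i b2)

theorem W_diff (hC : Club C nx) (hd : 0 < d) (hK : 0 ≤ K) (hA : ∀ c x, A c x ≤ K * ‖x‖)
    (hE : ∀ c c' x, (∀ s, ev (c s) x = ev (c' s) x) → A c x ≤ A c' x)
    (hD : ∀ c x, DifferentiableAt ℝ (fun z => A c z ^ 2) x) (i : ℕ) :
    ∀ γ c x, DifferentiableAt ℝ (fun z => W C nx d A i γ c z ^ 2) x := by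
  induction i with
  | zero => exact fun _ => hD
  | succ i ih =>
    refine fun γ c => Sm_diff (by positivity) (ch_bd hd.le hK hA i γ c) (fun t x => ?_)
      (fun x ε hε => ?_) fun x hx => ?_
    · split_ifs
      · exact ih _ _ _
      · simp
    · have h1 : ∀ t, ε ≤ |(if ok C γ t then d • jp nx t else 0) x| →
          ok C γ t ∧ ε / d ≤ |jp nx t x| := fun t h => by
        split_ifs at h with k
        · rw [smul_apply, smul_eq_mul, abs_mul, abs_of_pos hd] at h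
          exact ⟨k, (div_le_iff₀' hd).2 h⟩
        · simp [hε.not_ge] at h
      rw [← finite_preimage_inl_and_inr]
      exact ⟨(fin_jp hC.c2 hC.c3 x (div_pos hε hd)).subset fun β h =>
        ⟨cc_coe.1 (h1 _ h).1.1, (h1 _ h).2⟩, (fin_j x (div_pos hε hd)).subset fun β h => (h1 _ h).2⟩
    set F : WO → Seminorm ℝ X := fun b => W C nx d A i b (update c i b) with hF
    set K' := K + i * (2 * d)
    have K0 : 0 ≤ K' := by positivity
    have f1 : ∀ b z, F b z ≤ K' * ‖z‖ := fun b => W_bd hd.le hK hA i _ _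
    have f2 : ∀ z (β : Om) b, ↑β ≤ b → β ∈ C → cc C b →
        (∀ β' ∈ C, β ≤ β' → ↑β' ≤ b → z.1 β' = ev b z) → F β z ≤ F b z := fun z β b a1 a2 a3 a4 =>
      W_cmp hC hd.le hK hA hE z i _ _ _ _ a1 a3
        (fun β' b1 b2 b3 => a4 β' b1 (WithTop.coe_le_coe.1 b2) b3)
        (upd (fun _ => rfl) i (a4 β a2 le_rfl a1))
    obtain ⟨m, ⟨a1, a2⟩, a3, a4⟩ := lastmax (D := {b | cc C b ∧ γ ≤ b}) (f := fun b => F b x)
      ⟨⊤, cc_top C, le_top⟩ ⟨_, by rintro _ ⟨b, -, rfl⟩; exact f1 b x⟩ fun e Z b z1 ⟨β0, z2⟩ z3 z4 => by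
      by_cases hb : b ∈ Z
      · exact ⟨z1 hb, z3 b hb⟩
      have b1 : ∀ a < b, ∃ β : Om, ↑β ∈ Z ∧ a < β ∧ β < b := fun a ha => by
        obtain ⟨β, b1, b2⟩ := (lt_isLUB_iff z4).1 ha
        have b3 : β < b := (z4.1 b1).lt_of_ne fun k => hb (k ▸ b1)
        lift β to Om using b3.ne_top
        exact ⟨β, b1, b2, b3⟩
      have b2 : β0 < b := (z4.1 z2).lt_of_ne fun k => hb (k ▸ z2)
      lift β0 to Om using b2.ne_top
      have b3 : cc C b := by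
        rintro g rfl
        refine hC.c4 g ⟨β0, WithTop.coe_lt_coe.1 b2⟩ fun l hl => ?_
        obtain ⟨β, c1, c2, c3⟩ := b1 l (WithTop.coe_lt_coe.2 hl)
        exact ⟨β, cc_coe.1 (z1 c1).1, WithTop.coe_lt_coe.1 c2, (WithTop.coe_lt_coe.1 c3).le⟩
      refine ⟨⟨b3, (z1 z2).2.trans b2.le⟩, le_of_forall_pos_le_add fun η hη => ?_⟩
      obtain ⟨a, c1, x', c2, c3⟩ := flat x (show 0 < η / 2 / (K' + 1) by positivity) b2
      obtain ⟨β, c4, c5, c6⟩ := b1 a c1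
      have c7 := f2 x' β b c6.le (cc_coe.1 (z1 c4).1) b3
        fun β' _ d1 d2 => c3 β' ((WithTop.coe_lt_coe.1 c5).trans_le d1) d2
      have c8 : K' * ‖x - x'‖ ≤ η / 2 := (mul_le_mul_of_nonneg_left c2 K0).trans (by
        rw [← mul_div_assoc, div_le_iff₀ (by positivity)]; nlinarith)
      have c9 := map_add_le_add (F β) x' (x - x')
      have c10 := map_sub_le_add (F b) x (x - x')
      rw [add_sub_cancel] at c9
      rw [sub_sub_cancel] at c10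
      linarith [z3 _ c4, f1 β (x - x'), f1 b (x - x')]
    have a5 : ∀ t, pt t = m → jp nx t x ≠ 0 → ∃ t, (∀ s,
        (if ok C γ s then W C nx d A i (pt s) (update c i (pt s)) else 0) x ≤
        (if ok C γ t then W C nx d A i (pt t) (update c i (pt t)) else 0) x) ∧
        (if ok C γ t then d • jp nx t else 0) x ≠ 0 := fun t t1 t2 => by
      have k : ok C γ t := ⟨t1 ▸ a1, t1 ▸ a2⟩
      refine ⟨t, fun s => ?_, by rw [if_pos k]; exact mul_ne_zero hd.ne' t2⟩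
      rw [if_pos k, t1]
      split_ifs with k'
      · exact a3 _ k'
      · exact apply_nonneg _ _
    induction m using WithTop.recTopCoe with
    | top => exact let ⟨ξ, h⟩ := jmp0 hx; a5 (.inr ξ) rfl h
    | coe m =>
      have b1 := WithTop.coe_lt_coe.2 (hC.c2 m)
      refine a5 (.inl m) rfl fun h => (a4 _ ⟨cc_coe.2 (hC.c1 m), a2.trans b1.le⟩ b1).not_ge
        (f2 x m _ b1.le (cc_coe.1 a1) (cc_coe.2 (hC.c1 m)) fun β b2 b3 b4 => ?_)
      rcases b3.eq_or_lt with rfl | b3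
      · exact sub_eq_zero.1 h
      · rw [le_antisymm (WithTop.coe_le_coe.1 b4) (hC.c3 m β b2 b3), ev_coe]

end Pool.Agent.H87.DenF
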