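import Mathlib
import Pool.Agent.H87.DenF3

/-! Finitely supported functionals and the reflecting club. -/

namespace Pool.Agent.H87.DenF

open Filter Topology Set Metric Classical TopologicalSpace Function
open Pool.Agent.H87.TalF
open Pool.Agent.H87.NoGat (Om bdd cIic)

abbrev LL : Type := List (Om × ℚ)

noncomputable def fn (l : LL) : X →L[ℝ] ℝ := (l.map fun e => (e.2 : ℝ) • δ e.1).sum

def ms (l : LL) : ℚ := (l.map Prod.snd).sum

def av (l : LL) : ℝ := (l.map fun e => |(e.2 : ℝ)|).sum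

lemma fn_cons (e : Om × ℚ) (l : LL) (x : X) : fn (e :: l) x = e.2 * x.1 e.1 + fn l x := rfl

lemma av_cons (e : Om × ℚ) (l : LL) : av (e :: l) = |(e.2 : ℝ)| + av l := rfl

lemma ms_cons (e : Om × ℚ) (l : LL) : (ms (e :: l) : ℝ) = e.2 + ms l := Rat.cast_add _ _

lemma fn_app (l l' : LL) : fn (l ++ l') = fn l + fn l' := by simp [fn]

lemma av_nn (l : LL) : 0 ≤ av l := List.sum_nonneg (by
  simp only [List.mem_map]; rintro _ ⟨_, -, rfl⟩; exact abs_nonneg _)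

lemma est {l : LL} {x : X} {a η : ℝ} (h : ∀ e ∈ l, |x.1 e.1 - a| ≤ η) :
    |fn l x - ms l * a| ≤ av l * η := by
  induction l with
  | nil => simp [fn, ms, av]
  | cons e l ih =>
    have h1 := ih fun e he => h e (List.mem_cons_of_mem _ he)
    have h2 := mul_le_mul_of_nonneg_left (h e List.mem_cons_self) (abs_nonneg (e.2 : ℝ))
    rw [fn_cons, av_cons, ms_cons, show e.2 * x.1 e.1 + fn l x - (e.2 + ms l) * a =
      e.2 * (x.1 e.1 - a) + (fn l x - ms l * a) by ring]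
    refine (abs_add_le _ _).trans ?_
    rw [abs_mul]
    linarith

lemma fn_le (l : LL) (x : X) : |fn l x| ≤ av l * ‖x‖ := by
  simpa using est (l := l) (x := x) (a := 0) fun e _ => by simpa using ap_le x e.1

lemma ms_le (l : LL) : |(ms l : ℝ)| ≤ av l := by
  induction l with
  | nil => simp [ms, av]
  | cons e l ih => rw [av_cons, ms_cons]; linarith [abs_add_le (e.2 : ℝ) (ms l)]

lemma split (p : Om × ℚ → Bool) (l : LL) :
    fn l = fn (l.filter p) + fn (l.filter fun e => !p e) := by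
  rw [← fn_app]
  exact ((List.filter_append_perm p l).map _).sum_eq.symm

lemma av_filter (p : Om × ℚ → Bool) (l : LL) : av (l.filter p) ≤ av l :=
  (List.filter_sublist.map _).sum_le_sum (by
    simp only [List.mem_map]; rintro _ ⟨_, -, rfl⟩; exact abs_nonneg _)

lemma bnd (l : LL) (a : Om) : ∃ b, a ≤ b ∧ (∀ e ∈ l, e.1 ≤ b) ∧ (b = a ∨ ∃ e ∈ l, e.1 = b) := by
  induction l with
  | nil => exact ⟨a, le_rfl, by simp, Or.inl rfl⟩
  | cons e l ih =>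
    obtain ⟨b, h1, h2, h3⟩ := ih
    rcases le_total e.1 b with h | h
    · exact ⟨b, h1, List.forall_mem_cons.2 ⟨h, h2⟩,
        h3.imp_right fun ⟨e, k, k'⟩ => ⟨e, List.mem_cons_of_mem _ k, k'⟩⟩
    · exact ⟨e.1, h1.trans h, List.forall_mem_cons.2 ⟨le_rfl, fun e he => (h2 e he).trans h⟩,
        Or.inr ⟨e, List.mem_cons_self, rfl⟩⟩

lemma cub {s : Set Om} (hs : s.Countable) (b : Om) : ∃ c, b < c ∧ ∀ z ∈ s, z < c := by
  obtain ⟨f, hf⟩ := (hs.insert b).exists_eq_range (insert_nonempty _ _)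
  obtain ⟨c, hc⟩ := bdd f
  have : ∀ z ∈ insert b s, z < c := hf ▸ by rintro _ ⟨n, rfl⟩; exact hc n
  exact ⟨c, this _ (mem_insert _ _), fun β h => this _ (mem_insert_of_mem _ h)⟩

lemma cLL (b : Om) : {l : LL | ∀ e ∈ l, e.1 ≤ b}.Countable := by
  have : Countable {e : Om × ℚ // e.1 ≤ b} :=
    (((cIic b).prod (countable_univ (α := ℚ))).mono
      (s₁ := {e : Om × ℚ | e.1 ≤ b}) fun e h => mk_mem_prod h (mem_univ e.2)).to_subtype
  refine (countable_range (List.map (Subtype.val : {e : Om × ℚ // e.1 ≤ b} → _))).mono fun l h => ?_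
  lift l to List {e : Om × ℚ // e.1 ≤ b} using h
  exact ⟨l, rfl⟩

lemma mkclub (g : Om → Om) : ∃ C nx, Club C nx ∧ ∀ c ∈ C, ∀ b < c, g b < c := by
  set C : Set Om := {α | (∃ a, a < α) ∧ ∀ β < α, g β < α}
  have c2 : ∀ a, ∃ α, α ∈ C ∧ a < α := fun a => by
    choose h h1 h2 using fun b => cub ((cIic b).image g) b
    obtain ⟨α, hα⟩ := lub (s := range fun n => h^[n] a) (let ⟨b, hb⟩ := bdd fun n => h^[n] a
      ⟨b, by rintro _ ⟨n, rfl⟩; exact (hb n).le⟩)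
    have h3 := (h1 a).trans_le (hα.1 ⟨1, rfl⟩)
    refine ⟨α, ⟨⟨a, h3⟩, fun β hβ => ?_⟩, h3⟩
    obtain ⟨_, ⟨n, rfl⟩, hn⟩ := (lt_isLUB_iff hα).1 hβ
    exact (h2 _ _ ⟨β, hn.le, rfl⟩).trans_le (hα.1 ⟨n + 1, Function.iterate_succ_apply' _ _ _⟩)
  have c3 : ∀ a, ∃ α ∈ {α | α ∈ C ∧ a < α}, ∀ β ∈ {α | α ∈ C ∧ a < α}, ¬ β < α := fun a =>
    wellFounded_lt.has_min _ (c2 a)
  choose nx n1 n2 using c3
  exact ⟨C, nx, ⟨fun α => (n1 α).1, fun α => (n1 α).2, fun α β h1 h2 => not_lt.1 (n2 α β ⟨h1, h2⟩),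
    fun b h0 h => ⟨h0, fun β hβ => let ⟨_, a1, a2, a3⟩ := h β hβ; (a1.2 β a2).trans_le a3⟩,
    fun _ h => h.1⟩, fun _ h => h.2⟩

def E (σ : X → ℝ) (R : ℝ) : List ℚ → (X →L[ℝ] ℝ) → Prop
  | [], f => ∀ x, |f x| ≤ σ x
  | M :: Ms, f => ∀ γ, ∃ l : LL, (∀ e ∈ l, γ ≤ e.1) ∧ ms l = M ∧ av l ≤ R ∧ E σ R Ms (f + fn l)

lemma E_bd {σ : X → ℝ} {R : ℝ} {Ms : List ℚ} : ∀ f, E σ R Ms f → ∀ M ∈ Ms, |(M : ℝ)| ≤ R := by
  induction Ms with
  | nil => simp
  | cons M Ms ih =>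
    intro f h
    obtain ⟨l, -, rfl, h2, h3⟩ := h (Classical.arbitrary _)
    exact List.forall_mem_cons.2 ⟨(ms_le l).trans h2, ih _ h3⟩

noncomputable def vX (c : ℕ → WO) (x : X) : List ℚ → ℝ
  | [] => 0
  | M :: Ms => M * ev (c Ms.length) x + vX c x Ms

lemma vX_congr {c c' : ℕ → WO} (x : X) {Ms : List ℚ} (h : ∀ s < Ms.length, c s = c' s) :
    vX c x Ms = vX c' x Ms := by
  induction Ms with
  | nil => rfl
  | cons M Ms ih =>
    show _ + _ = _ + _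
    rw [ih fun s hs => h s (hs.trans (Nat.lt_succ_self _)), h _ (Nat.lt_succ_self _)]

lemma adm_congr {C : Set Om} {c c' : ℕ → WO} {i : ℕ} (h : ∀ s < i, c s = c' s) :
    ∀ γ γ', γ' ≤ γ → adm C i γ c → adm C i γ' c' := by
  induction i with
  | zero => exact fun _ _ _ _ => trivial
  | succ i ih =>
    have := h i (Nat.lt_succ_self _)
    exact fun γ γ' k ⟨h1, h2, h3⟩ => ⟨this ▸ h1, this ▸ k.trans h2,
      ih (fun s hs => h s (hs.trans (Nat.lt_succ_self _))) _ _ this.ge h3⟩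

theorem refl_club (σ : ℕ → X → ℝ) {R : ℝ} : ∃ C nx, Club C nx ∧
    (∀ n x c Ms l γ, (∀ e ∈ l, ↑e.1 < γ) → adm C Ms.length γ c → E (σ n) R Ms (fn l) →
      |fn l x + vX c x Ms| ≤ σ n x) ∧
    ∀ c ∈ C, ∀ n Ms (l l' : LL), (∀ e ∈ l, e.1 < c) → (∀ e ∈ l', c ≤ e.1) → av l' ≤ R →
      E (σ n) R Ms (fn l + fn l') → E (σ n) R (ms l' :: Ms) (fn l) := by
  have h1 : ∀ (b : Om) (q : ℕ × ℚ × List ℚ × LL), ∃ G : Om,
      (E (σ q.1) R (q.2.1 :: q.2.2.1) (fn q.2.2.2) → ∃ l : LL, (∀ e ∈ l, b < e.1 ∧ e.1 ≤ G) ∧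
        ms l = q.2.1 ∧ av l ≤ R ∧ E (σ q.1) R q.2.2.1 (fn q.2.2.2 + fn l)) ∧
      ((∃ l : LL, (∀ e ∈ l, G ≤ e.1) ∧ ms l = q.2.1 ∧ av l ≤ R ∧
        E (σ q.1) R q.2.2.1 (fn q.2.2.2 + fn l)) → E (σ q.1) R (q.2.1 :: q.2.2.1) (fn q.2.2.2)) := by
    intro b q
    by_cases h : E (σ q.1) R (q.2.1 :: q.2.2.1) (fn q.2.2.2)
    · obtain ⟨l, l1, l2⟩ := h (Order.succ b)
      obtain ⟨G, -, g1, -⟩ := bnd l b
      exact ⟨G, fun _ => ⟨l, fun e he => ⟨(Order.lt_succ b).trans_le (l1 e he), g1 e he⟩, l2⟩,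
        fun _ => h⟩
    · obtain ⟨G, hG⟩ := not_forall.1 h
      exact ⟨G, fun k => absurd k h, fun k => absurd k hG⟩
  choose G g1 g2 using h1
  choose g _ g3 using fun b => cub (((countable_univ (α := ℕ)).prod ((countable_univ (α := ℚ)).prod
    ((countable_univ (α := List ℚ)).prod (cLL b)))).image (G b)) b
  obtain ⟨C, nx, hC, h2⟩ := mkclub g
  have h3 : ∀ (l : LL) (a : Om) (c : WO), cc C c → ↑a < c → (∀ e ∈ l, ↑e.1 < c) → ∃ b, a ≤ b ∧
      ∀ n M Ms, ↑(G b (n, M, Ms, l)) < c := fun l a c hc k1 k2 => by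
    obtain ⟨b, b1, b2, b3⟩ := bnd l a
    refine ⟨b, b1, fun n M Ms => ?_⟩
    induction c using WithTop.recTopCoe with
    | top => exact WithTop.coe_lt_top _
    | coe c =>
      refine WithTop.coe_lt_coe.2 ((g3 b _ ⟨(n, M, Ms, l), ⟨trivial, trivial, trivial, b2⟩, rfl⟩).trans
        (h2 c (cc_coe.1 hc) b (WithTop.coe_lt_coe.1 ?_)))
      rcases b3 with rfl | ⟨e, e1, rfl⟩
      exacts [k1, k2 e e1]
  refine ⟨C, nx, hC, fun n x c Ms => ?_, fun c hc n Ms l l' k1 k2 k3 k4 => ?_⟩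
  swap
  · obtain ⟨a, ha⟩ := hC.c5 c hc
    obtain ⟨b, -, hb⟩ := h3 l a c (cc_coe.2 hc) (WithTop.coe_lt_coe.2 ha)
      fun e he => WithTop.coe_lt_coe.2 (k1 e he)
    exact g2 b (n, ms l', Ms, l) ⟨l', fun e he =>
      (WithTop.coe_lt_coe.1 (hb _ _ _)).le.trans (k2 e he), rfl, k3, k4⟩
  induction Ms with
  | nil => exact fun l γ _ _ h => by simpa [vX] using h x
  | cons M Ms ih =>
    intro l γ k1 ⟨k2, k3, k4⟩ k5
    refine le_of_forall_pos_le_add fun η hη => ?_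
    obtain ⟨a0, ha⟩ : ∃ a : Om, ↑a < c Ms.length := by
      generalize c Ms.length = b at k2
      induction b using WithTop.recTopCoe with
      | top => exact ⟨Classical.arbitrary _, WithTop.coe_lt_top _⟩
      | coe b => exact (hC.c5 b (cc_coe.1 k2)).imp fun _ => WithTop.coe_lt_coe.2
    obtain ⟨a, -, a1, a2⟩ := nearW x (show 0 < η / (|R| + 1) by positivity) ha
    obtain ⟨b, b1, b2⟩ := h3 l a _ k2 a1 fun e he => (k1 e he).trans_le k3
    obtain ⟨l', l1, l2, l3, l4⟩ := g1 b (n, M, Ms, l) k5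
    have l5 : ∀ e ∈ l', ↑e.1 < c Ms.length := fun e he =>
      (WithTop.coe_le_coe.2 (l1 e he).2).trans_lt (b2 _ _ _)
    have c1 := ih (l ++ l') _ (List.forall_mem_append.2 ⟨fun e he => (k1 e he).trans_le k3, l5⟩) k4
      (fn_app l l' ▸ l4)
    have c2 := est fun e he => a2 e.1 (b1.trans_lt (l1 e he).1) (l5 e he).le
    have c3 : av l' * (η / (|R| + 1)) ≤ η := by
      rw [← mul_div_assoc, div_le_iff₀ (by positivity)]
      nlinarith [le_abs_self R]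
    rw [fn_app, add_apply] at c1
    rw [l2] at c2
    show |fn l x + (M * ev (c Ms.length) x + vX c x Ms)| ≤ _
    rw [abs_le] at c1 c2 ⊢
    constructor <;> linarith [c1.1, c1.2, c2.1, c2.2]

noncomputable def vL (r : ℕ) : List ℚ → (Fin r → ℝ) →L[ℝ] ℝ
  | [] => 0
  | M :: Ms => (M : ℝ) • (if h : Ms.length < r then ContinuousLinearMap.proj (⟨_, h⟩ : Fin r) else 0)
      + vL r Ms

lemma vL_eq {r : ℕ} (c : ℕ → WO) (x : X) {Ms : List ℚ} (h : Ms.length ≤ r) :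
    vL r Ms (fun s => ev (c s) x) = vX c x Ms := by
  induction Ms with
  | nil => rfl
  | cons M Ms ih =>
    rw [vL, vX, add_apply, ih (Nat.le_of_succ_le h), dif_pos (show Ms.length < r from h)]
    rfl

lemma vL_le {r : ℕ} {R : ℝ} (v : Fin r → ℝ) {Ms : List ℚ} (h : ∀ M ∈ Ms, |(M : ℝ)| ≤ R) :
    |vL r Ms v| ≤ Ms.length * R * ‖v‖ := by
  induction Ms with
  | nil => simp [vL]
  | cons M Ms ih =>
    have h1 := ih fun e he => h e (List.mem_cons_of_mem _ he)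
    have h2 := h M List.mem_cons_self
    rw [vL, add_apply, smul_apply, smul_eq_mul, List.length_cons]
    refine (abs_add_le _ _).trans ?_
    have h3 : |(if h : Ms.length < r then ContinuousLinearMap.proj (⟨_, h⟩ : Fin r) else 0 :
        (Fin r → ℝ) →L[ℝ] ℝ) v| ≤ ‖v‖ := by
      split_ifs
      · exact norm_le_pi_norm v _
      · simp
    rw [abs_mul]
    push_cast
    nlinarith [mul_le_mul h2 h3 (abs_nonneg _) ((abs_nonneg _).trans h2)]

lemma sepP (b : Om) : IsSeparable {μ : X →L[ℝ] ℝ | ∀ x, μ (x - P b x) = 0} := by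
  refine (((cIic b).image δ).isSeparable.span (R := ℝ)).closure.mono fun μ hμ => ?_
  obtain ⟨m, m1, -, m3⟩ := rep μ
  have h1 : μ = ∑' ξ, (Iic b).indicator m ξ • δ ξ := ContinuousLinearMap.ext fun x => by
    have h2 := hμ x
    rw [map_sub, sub_eq_zero] at h2
    rw [h2]
    refine (m3 (P b x)).unique ?_
    convert sm_ap (ind_sum m1 (Iic b)) x using 2 with ξ
    rw [P_ap]
    by_cases h : ξ ≤ b <;> simp [h]
  rw [h1]
  refine mem_closure_of_tendsto (sm (ind_sum m1 (Iic b))).hasSum (Eventually.of_forall fun F =>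
    Submodule.sum_mem _ fun ξ _ => ?_)
  by_cases h : ξ ∈ Iic b
  · exact Submodule.smul_mem _ _ (Submodule.subset_span ⟨ξ, h, rfl⟩)
  · simp [h]

theorem bottom (γ : Om) (r : ℕ) {R e : ℝ} (hR : 0 ≤ R) (he : 0 < e) (Φ : Set (LL × List ℚ))
    (hΦ : ∀ q ∈ Φ, (∀ e ∈ q.1, e.1 < γ) ∧ av q.1 ≤ R ∧ q.2.length = r ∧ ∀ M ∈ q.2, |(M : ℝ)| ≤ R) :
    ∃ A : (ℕ → WO) → Seminorm ℝ X, (∀ c x, A c x ≤ (R + r * R + e) * ‖x‖) ∧
      (∀ c c' x, (∀ s, ev (c s) x = ev (c' s) x) → A c x ≤ A c' x) ∧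
      (∀ c x, DifferentiableAt ℝ (fun z => A c z ^ 2) x) ∧
      (∀ c x, ∀ q ∈ Φ, |fn q.1 x + vX c x q.2| ≤ A c x) ∧
      ∀ c x B, 0 ≤ B → (∀ q ∈ Φ, |fn q.1 x + vX c x q.2| ≤ B) → A c x ≤ B + e * ‖x‖ := by
  let φ : Φ → Seminorm ℝ (X × (Fin r → ℝ)) := fun q => (normSeminorm ℝ ℝ).comp
    (((fn q.1.1).coprod (vL r q.1.2) : _ →L[ℝ] ℝ) : _ →ₗ[ℝ] ℝ)
  have f0 : ∀ q z, φ q z = |fn q.1.1 z.1 + vL r q.1.2 z.2| := fun _ _ => rfl
  have f1 : ∀ q z, φ q z ≤ (R + r * R) * ‖z‖ := fun q z => by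
    obtain ⟨-, a1, a2, a3⟩ := hΦ _ q.2
    have a4 := vL_le z.2 a3
    rw [a2] at a4
    rw [f0]
    nlinarith [abs_add_le (fn q.1.1 z.1) (vL r q.1.2 z.2), fn_le q.1.1 z.1, norm_fst_le z,
      norm_snd_le z, norm_nonneg z.1, mul_nonneg (Nat.cast_nonneg (α := ℝ) r) hR]
  let PP : X × (Fin r → ℝ) →L[ℝ] X × (Fin r → ℝ) := (P γ).prodMap (.id ℝ _)
  have q1 : ∀ z, ‖PP z‖ ≤ ‖z‖ := fun z => max_le_max (nrm_le (P γ z.1) (norm_nonneg _) fun ξ => by
    rw [P_ap]; split_ifs; exacts [ap_le _ _, by simp]) le_rfl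
  let p := (⨆ q, φ q) + (normSeminorm ℝ _).comp ((e / 2) • PP).toLinearMap
  have p0 : ∀ z, p z = (⨆ q, φ q) z + e / 2 * ‖PP z‖ := fun z => by
    show _ + ‖(e / 2) • PP z‖ = _
    rw [norm_smul, Real.norm_of_nonneg (half_pos he).le]
  have p2 : ∀ z, p z ≤ (R + r * R + e) * ‖z‖ := fun z => by
    rw [p0]
    nlinarith [sup_le φ z (by positivity) fun q => f1 q z, q1 z, norm_nonneg z]
  have p3 : ∀ z, p (z - PP z) = 0 := fun z => by
    have a1 : PP (z - PP z) = 0 := Prod.ext (ext' fun ξ => by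
      show (P γ (z.1 - P γ z.1)).1 ξ = 0
      rw [P_ap]
      split_ifs with h
      · show z.1.1 ξ - (P γ z.1).1 ξ = 0
        rw [P_ap, if_pos h, sub_self]
      · rfl) (sub_self _)
    rw [p0, a1, norm_zero, mul_zero, add_zero]
    refine le_antisymm (sup_le φ _ le_rfl fun q => ?_) (apply_nonneg _ _)
    have a2 := est (l := q.1.1) (x := z.1 - P γ z.1) (a := 0) (η := 0) fun e he => by
      show |z.1.1 e.1 - (P γ z.1).1 e.1 - 0| ≤ 0
      simp [P_ap, ((hΦ _ q.2).1 e he).le]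
    rw [f0, show (z - PP z).2 = 0 from sub_self _, show (z - PP z).1 = z.1 - P γ z.1 from rfl]
    simpa only [map_zero, mul_zero, sub_zero, add_zero] using a2
  have K0 : 0 < R + r * R + e := by positivity
  obtain ⟨n, n1, n2⟩ := approx p p2 (C := 2 / e) (s := e / 4 / (R + r * R + e)) (by positivity)
    ((((sepP γ).prod (isSeparable_univ_iff.2 (inferInstance :
      SeparableSpace ((Fin r → ℝ) →L[ℝ] ℝ)))).image (f := fun w =>
      w.1.comp (.fst ℝ X (Fin r → ℝ)) + w.2.comp (.snd ℝ X (Fin r → ℝ))) (by fun_prop)).mono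
      fun μ hμ => ⟨(μ.comp (.inl ℝ _ _), μ.comp (.inr ℝ _ _)), ⟨fun x => by
        have := hμ _ (p3 (x, 0))
        rwa [show (x, 0) - PP (x, 0) = (x - P γ x, 0) from Prod.ext rfl (sub_self _)] at this,
        trivial⟩, ContinuousLinearMap.ext fun z => by
        show μ (z.1, 0) + μ (0, z.2) = μ z
        rw [← map_add]; simp⟩)
    (fun z => ⟨PP z, p3 z, by
      rw [p0, div_mul_eq_mul_div, le_div_iff₀ he]
      nlinarith [apply_nonneg (⨆ q, φ q) z]⟩) (by positivity)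
    (by rw [div_le_one K0]; nlinarith [mul_nonneg (Nat.cast_nonneg (α := ℝ) r) hR])
  let V : (ℕ → WO) → X →L[ℝ] X × (Fin r → ℝ) := fun c =>
    (ContinuousLinearMap.id ℝ X).prod (ContinuousLinearMap.pi fun s => ev (c s))
  have v0 : ∀ c x, V c x = (x, fun s : Fin r => ev (c s) x) := fun _ _ => rfl
  have v1 : ∀ c x, ‖V c x‖ ≤ ‖x‖ := fun c x => max_le le_rfl
    ((pi_norm_le_iff_of_nonneg (norm_nonneg _)).2 fun s => ev_le _ _)
  have v2 : ∀ c x (q : Φ), φ q (V c x) = |fn q.1.1 x + vX c x q.1.2| := fun c x q => by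
    rw [f0, v0, vL_eq c x (hΦ _ q.2).2.2.1.le]
  have v3 : ∀ c x B, 0 ≤ B → (∀ q ∈ Φ, |fn q.1 x + vX c x q.2| ≤ B) → n (V c x) ≤ B + e * ‖x‖ :=
    fun c x B hB h => by
      have a1 := sup_le φ (V c x) hB fun q => (v2 c x q).trans_le (h _ q.2)
      have a2 : 2 * (e / 4 / (R + r * R + e)) * p (V c x) ≤ e / 2 * ‖V c x‖ :=
        (mul_le_mul_of_nonneg_left (p2 _) (by positivity)).trans_eq (by field_simp; ring)
      nlinarith [(n1 (V c x)).2, p0 (V c x), q1 (V c x), v1 c x]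
  refine ⟨fun c => n.comp (V c).toLinearMap, fun c x => ?_, fun c c' x h => ?_,
    fun c x => (n2 _).comp x (V c).differentiableAt, fun c x q hq => ?_, v3⟩
  · exact (v3 c x _ (by positivity) fun q hq => (v2 c x ⟨q, hq⟩).ge.trans ((f1 _ _).trans
      (mul_le_mul_of_nonneg_left (v1 c x) (by positivity)))).trans_eq (by ring)
  · show n (V c x) ≤ n (V c' x)
    simp only [v0, h, le_refl]
  · have a1 := le_sup φ _ f1 ⟨q, hq⟩ (V c x)
    have a2 : 0 ≤ e / 2 * ‖PP (V c x)‖ := by positivity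
    show _ ≤ n (V c x)
    linarith [(n1 (V c x)).1, p0 (V c x), v2 c x ⟨q, hq⟩]

end Pool.Agent.H87.DenF
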