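import Mathlib
import Pool.Agent.H87.DenF4

/-! Approximating a functional by one with few atoms. -/

namespace Pool.Agent.H87.DenF

open Filter Topology Set Metric Classical TopologicalSpace Function
open Pool.Agent.H87.TalF
open Pool.Agent.H87.NoGat (Om bdd cIic)

lemma dense_u (x : X) : x ∈ (Submodule.span ℝ (range u)).topologicalClosure := by
  set S := (Submodule.span ℝ (range u)).topologicalClosure
  have h0 : ∀ b, u b ∈ S := fun b =>
    Submodule.le_topologicalClosure _ (Submodule.subset_span ⟨b, rfl⟩)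
  have h1 : ∀ b, P b x ∈ S := fun b => by
    induction b using WellFoundedLT.induction with | ind b ih => ?_
    by_cases hb : ∃ l, l < b
    swap
    · rw [show P b x = x.1 b • u b from ext' fun ξ => by
        show _ = x.1 b * (u b).1 ξ
        rw [P_ap, u_ap]
        split_ifs with h
        · rw [h.eq_of_not_lt fun k => hb ⟨ξ, k⟩, mul_one]
        · simp]
      exact S.smul_mem _ (h0 b)
    obtain ⟨l, hl⟩ := hb
    refine (Submodule.isClosed_topologicalClosure _).closure_subset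
      (Metric.mem_closure_iff.2 fun ε hε => ?_)
    obtain ⟨a, -, h2, h3⟩ := near x (half_pos hε) hl
    refine ⟨P a x + x.1 b • (u b - u a), S.add_mem (ih a h2) (S.smul_mem _ (S.sub_mem (h0 b) (h0 a))),
      (dist_eq_norm _ _).trans_lt (lt_of_le_of_lt (nrm_le _ (half_pos hε).le fun ξ => ?_)
        (half_lt_self hε))⟩
    show |(P b x).1 ξ - ((P a x).1 ξ + x.1 b * ((u b).1 ξ - (u a).1 ξ))| ≤ _
    simp only [P_ap, u_ap]
    rcases le_or_gt ξ a with h | h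
    · simpa [h, h.trans h2.le] using (half_pos hε).le
    · by_cases h5 : ξ ≤ b
      · simpa [h.not_ge, h5] using (h3 ξ h h5).le
      · simpa [h.not_ge, h5] using (half_pos hε).le
  obtain ⟨c, hc⟩ := x.2
  convert h1 c
  refine ext' fun ξ => ?_
  rw [P_ap]
  split_ifs with h
  exacts [rfl, hc ξ (not_le.1 h)]

lemma small (x : X) {η : ℝ} (hη : 0 < η) : ∀ᶠ n : ℕ in atTop, ∀ ν : X →L[ℝ] ℝ, ‖ν‖ ≤ 1 →
    (∀ b, |ν (u b)| ≤ 1 / ((n : ℝ) + 1)) → |ν x| ≤ η := by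
  obtain ⟨s, s1, s2⟩ := Metric.mem_closure_iff.1 (dense_u x) _ (half_pos hη)
  obtain ⟨C, hC⟩ : ∃ C : ℝ, ∀ (ν : X →L[ℝ] ℝ) θ, (∀ b, |ν (u b)| ≤ θ) → |ν s| ≤ C * θ := by
    clear s2
    induction s1 using Submodule.span_induction with
    | mem _ h => obtain ⟨b, rfl⟩ := h; exact ⟨1, fun ν θ h => by simpa using h b⟩
    | zero => exact ⟨0, by simp⟩
    | add a b _ _ h1 h2 =>
      obtain ⟨C, h1⟩ := h1
      obtain ⟨D, h2⟩ := h2
      exact ⟨C + D, fun ν θ h => by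
        rw [map_add]; linarith [abs_add_le (ν a) (ν b), h1 ν θ h, h2 ν θ h]⟩
    | smul c a _ h1 =>
      obtain ⟨C, h1⟩ := h1
      exact ⟨|c| * C, fun ν θ h => by
        rw [map_smul, smul_eq_mul, abs_mul, mul_assoc]
        exact mul_le_mul_of_nonneg_left (h1 ν θ h) (abs_nonneg _)⟩
  filter_upwards [(tendsto_one_div_add_atTop_nhds_zero_nat.const_mul C).eventually
    (gt_mem_nhds (by simpa using half_pos hη : C * 0 < η / 2))] with n hn ν h1 h2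
  have a1 : |ν (x - s)| ≤ ‖x - s‖ :=
    (ν.le_opNorm _).trans (mul_le_of_le_one_left (norm_nonneg _) h1)
  rw [map_sub] at a1
  rw [dist_eq_norm] at s2
  linarith [hC ν _ h2, abs_sub_abs_le_abs_sub (ν x) (ν s)]

lemma push (A A0 : Finset Om) (m : Om → ℝ) (x : X) {η K : ℝ} (hη : 0 < η)
    (hK : ∑ ξ ∈ A, |m ξ| ≤ K) : ∃ φ : Om → Om,
    (A.image φ).card ≤ A0.card + 3 * (⌊K / η⌋₊ + 1) ∧ (∀ ξ ∈ A0, φ ξ = ξ) ∧
      (∀ ξ ∈ A, m ξ * x.1 ξ ≤ m ξ * x.1 (φ ξ)) ∧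
      ∀ b, ∑ ξ ∈ A, |m ξ * ((u b).1 (φ ξ) - (u b).1 ξ)| ≤ η := by
  set Φ : Om → ℝ := fun b => ∑ ξ ∈ A with ξ ≤ b, |m ξ| with hΦ
  have f1 : Monotone Φ := fun a b h => Finset.sum_le_sum_of_subset_of_nonneg
    (Finset.monotone_filter_right _ fun _ _ k => k.trans h) fun _ _ _ => abs_nonneg _
  have f2 : ∀ b, Φ b ≤ K := fun b => (Finset.sum_le_sum_of_subset_of_nonneg
    (Finset.filter_subset _ _) fun _ _ _ => abs_nonneg _).trans hK
  have f3 : ∀ b, 0 ≤ Φ b := fun b => Finset.sum_nonneg fun _ _ => abs_nonneg _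
  set κ : Om → ℕ := fun b => ⌊Φ b / η⌋₊ with hκ
  have k1 : Monotone κ := fun a b h => Nat.floor_mono (div_le_div_of_nonneg_right (f1 h) hη.le)
  have h1 : ∀ (g : Om → ℝ) (s : ℕ), ∃ a, ∀ ξ ∈ A, κ ξ = s → κ a = s ∧ g ξ ≤ g a := fun g s => by
    rcases (A.filter (κ · = s)).eq_empty_or_nonempty with h | h
    · exact ⟨Classical.arbitrary _, fun ξ a1 a2 => absurd a2 (Finset.filter_eq_empty_iff.1 h a1)⟩
    · obtain ⟨a, a1, a2⟩ := Finset.exists_max_image _ g h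
      exact ⟨a, fun ξ b1 b2 => ⟨(Finset.mem_filter.1 a1).2, a2 ξ (Finset.mem_filter.2 ⟨b1, b2⟩)⟩⟩
  have h2 : ∀ s : ℕ, ∃ a, ∀ ξ ∈ A, κ ξ = s → κ a = s ∧ a ≤ ξ := fun s => by
    rcases (A.filter (κ · = s)).eq_empty_or_nonempty with h | h
    · exact ⟨Classical.arbitrary _, fun ξ a1 a2 => absurd a2 (Finset.filter_eq_empty_iff.1 h a1)⟩
    · exact ⟨_, fun ξ b1 b2 => ⟨(Finset.mem_filter.1 (Finset.min'_mem _ h)).2,
        Finset.min'_le _ ξ (Finset.mem_filter.2 ⟨b1, b2⟩)⟩⟩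
  choose mx x1 using h1 x.1
  choose mi x2 using h1 fun ξ => -x.1 ξ
  choose mn x3 using h2
  set φ : Om → Om := fun ξ => if ξ ∈ A0 ∨ ξ = mn (κ ξ) then ξ
    else if 0 ≤ m ξ then mx (κ ξ) else mi (κ ξ) with hφ
  have p1 : ∀ ξ ∈ A, κ (φ ξ) = κ ξ := fun ξ h => by
    simp only [hφ]
    split_ifs
    exacts [rfl, (x1 _ ξ h rfl).1, (x2 _ ξ h rfl).1]
  refine ⟨φ, ?_, fun ξ h => if_pos (Or.inl h), fun ξ h => ?_, fun b => ?_⟩
  · set T := Finset.range (⌊K / η⌋₊ + 1)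
    have a1 : A.image φ ⊆ A0 ∪ (T.image mn ∪ (T.image mx ∪ T.image mi)) := fun ζ hζ => by
      obtain ⟨ξ, -, rfl⟩ := Finset.mem_image.1 hζ
      have a2 : κ ξ ∈ T := Finset.mem_range_succ_iff.2
        (Nat.floor_mono (div_le_div_of_nonneg_right (f2 ξ) hη.le))
      simp only [hφ, Finset.mem_union, Finset.mem_image]
      split_ifs with k1 k2
      · exact k1.imp_right fun k => Or.inl ⟨_, a2, k.symm⟩
      · exact Or.inr (Or.inr (Or.inl ⟨_, a2, rfl⟩))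
      · exact Or.inr (Or.inr (Or.inr ⟨_, a2, rfl⟩))
    have a3 : T.card = ⌊K / η⌋₊ + 1 := Finset.card_range _
    linarith [Finset.card_le_card a1, Finset.card_union_le A0 (T.image mn ∪ (T.image mx ∪ T.image mi)),
      Finset.card_union_le (T.image mn) (T.image mx ∪ T.image mi),
      Finset.card_union_le (T.image mx) (T.image mi), Finset.card_image_le (s := T) (f := mn),
      Finset.card_image_le (s := T) (f := mx), Finset.card_image_le (s := T) (f := mi)]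
  · simp only [hφ]
    split_ifs with k1 k2
    · rfl
    · exact mul_le_mul_of_nonneg_left (x1 _ ξ h rfl).2 k2
    · exact mul_le_mul_of_nonpos_left (neg_le_neg_iff.1 (x2 _ ξ h rfl).2) (not_le.1 k2).le
  set D := A.filter fun ξ => κ ξ = κ b ∧ mn (κ b) < ξ
  have a1 : ∑ ξ ∈ A, |m ξ * ((u b).1 (φ ξ) - (u b).1 ξ)| ≤ ∑ ξ ∈ D, |m ξ| := by
    rw [Finset.sum_filter]
    refine Finset.sum_le_sum fun ξ h => ?_
    by_cases k : (φ ξ ≤ b ↔ ξ ≤ b)
    · rw [u_ap, u_ap, if_congr k rfl rfl, sub_self, mul_zero, abs_zero]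
      split_ifs <;> simp
    have b1 : κ ξ = κ b := by
      rcases le_or_gt ξ b with h1 | h1
      · exact le_antisymm (k1 h1) ((k1 (not_le.1 fun h2 => k (iff_of_true h2 h1)).le).trans_eq
          (p1 ξ h))
      · exact le_antisymm ((p1 ξ h).ge.trans (k1 (by_contra fun h2 => k (iff_of_false h2 h1.not_ge))))
          (k1 h1.le)
    rw [if_pos ⟨b1, (x3 _ ξ h b1).2.lt_of_ne fun h2 => k (by
      rw [show φ ξ = ξ from if_pos (Or.inr (b1 ▸ h2.symm))])⟩, abs_mul]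
    refine mul_le_of_le_one_right (abs_nonneg _) ?_
    rw [u_ap, u_ap]
    split_ifs <;> simp
  refine a1.trans ?_
  rcases D.eq_empty_or_nonempty with h | h
  · rw [h]; exact hη.le
  obtain ⟨t1, t2, t3⟩ := Finset.mem_filter.1 (D.max'_mem h)
  have a2 : Φ (mn (κ b)) + ∑ ξ ∈ D, |m ξ| ≤ Φ (D.max' h) := by
    rw [← Finset.sum_union (Finset.disjoint_left.2 fun ξ b1 b2 =>
      (Finset.mem_filter.1 b2).2.2.not_ge (Finset.mem_filter.1 b1).2)]
    refine Finset.sum_le_sum_of_subset_of_nonneg (Finset.union_subset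
      (Finset.monotone_filter_right _ fun _ _ k => k.trans t3.le) fun ξ hξ =>
      Finset.mem_filter.2 ⟨(Finset.mem_filter.1 hξ).1, D.le_max' ξ hξ⟩) fun _ _ _ => abs_nonneg _
  have a3 : (κ (mn (κ b)) : ℝ) ≤ _ := Nat.floor_le (div_nonneg (f3 _) hη.le)
  have a4 : _ < (κ (D.max' h) : ℝ) + 1 := Nat.lt_floor_add_one _
  rw [(x3 _ _ t1 t2).1, le_div_iff₀ hη] at a3
  rw [t2, div_lt_iff₀ hη] at a4
  linarith

lemma rat (B : Finset Om) (M : Om → ℝ) : ∀ e > 0, ∃ l : LL, l.length = B.card ∧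
    av l ≤ ∑ ζ ∈ B, |M ζ| + e ∧ ∀ z : X, |fn l z - ∑ ζ ∈ B, M ζ * z.1 ζ| ≤ e * ‖z‖ := by
  induction B using Finset.induction_on with
  | empty => exact fun e he => ⟨[], rfl, by simpa [av] using he.le, fun z => by
      simp only [fn, List.map_nil, List.sum_nil, zero_apply, Finset.sum_empty, sub_self, abs_zero]
      positivity⟩
  | insert a B ha ih =>
    intro e he
    obtain ⟨l, l1, l2, l3⟩ := ih _ (half_pos he)
    obtain ⟨q, hq⟩ := exists_rat_near (M a) (half_pos he)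
    refine ⟨(a, q) :: l, by rw [List.length_cons, l1, Finset.card_insert_of_notMem ha], ?_,
      fun z => ?_⟩
    · rw [av_cons, Finset.sum_insert ha]
      linarith [abs_sub_abs_le_abs_sub (q : ℝ) (M a), abs_sub_comm (q : ℝ) (M a)]
    · rw [fn_cons, Finset.sum_insert ha, show (q : ℝ) * z.1 a + fn l z -
        (M a * z.1 a + ∑ ζ ∈ B, M ζ * z.1 ζ) = fn l z - ∑ ζ ∈ B, M ζ * z.1 ζ - (M a - q) * z.1 a by
        ring]
      refine (abs_sub _ _).trans ?_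
      rw [abs_mul]
      linarith [l3 z, mul_le_mul hq.le (ap_le z a) (abs_nonneg _) (half_pos he).le]

noncomputable def kk (K : ℝ) (n : ℕ) : ℕ := n + 3 * (⌊K / (1 / ((n : ℝ) + 1) / 2)⌋₊ + 1)

theorem lower (μ : X →L[ℝ] ℝ) {K ε : ℝ} (hK : ‖μ‖ ≤ K) (hε : 0 < ε) (x : X) {e : ℕ → ℝ}
    (he : ∀ n, 0 < e n) : ∃ n, ∃ l : LL, l.length ≤ kk K n ∧ av l ≤ K + 1 ∧ ‖fn l - μ‖ ≤ ε ∧
      (∀ b, |(fn l - μ) (u b)| ≤ 1 / ((n : ℝ) + 1)) ∧ μ x - e n * ‖x‖ ≤ fn l x := by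
  obtain ⟨m, m1, m2, m3⟩ := rep μ
  obtain ⟨A0, h0⟩ := summable_iff_vanishing_norm.1 m1 _ (show 0 < ε / 4 by linarith)
  set n := A0.card
  have hη : 0 < 1 / ((n : ℝ) + 1) / 2 := by positivity
  obtain ⟨e', e0, e1, e2, e3, e4⟩ : ∃ e' > 0, e' ≤ ε / 4 ∧ e' ≤ 1 / ((n : ℝ) + 1) / 4 ∧
      e' ≤ e n / 2 ∧ e' ≤ 1 := ⟨min (min (ε / 4) (1 / ((n : ℝ) + 1) / 4)) (min (e n / 2) 1),
    by have := he n; positivity, (min_le_left _ _).trans (min_le_left _ _),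
    (min_le_left _ _).trans (min_le_right _ _), (min_le_right _ _).trans (min_le_left _ _),
    (min_le_right _ _).trans (min_le_right _ _)⟩
  obtain ⟨A, hA⟩ := (Metric.tendsto_nhds.1 (sm m1).hasSum _ e0).exists
  have a1 : ∀ z : X, |∑ ξ ∈ A, m ξ * z.1 ξ - μ z| ≤ e' * ‖z‖ := fun z => by
    have := ((∑ ξ ∈ A, m ξ • δ ξ - ∑' ξ, m ξ • δ ξ).le_opNorm z).trans (mul_le_mul_of_nonneg_right
      ((dist_eq_norm (E := X →L[ℝ] ℝ) _ _).ge.trans hA.le) (norm_nonneg _))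
    rw [sub_apply, (sm_ap m1 z).unique (m3 z)] at this
    simpa using this
  have a2 : ∑ ξ ∈ A, |m ξ| ≤ K := (m1.sum_le_tsum A fun _ _ => abs_nonneg _).trans (m2.trans hK)
  obtain ⟨φ, p1, p2, p3, p4⟩ := push A A0 m x hη a2
  obtain ⟨l, l1, l2, l3⟩ := rat (A.image φ) (fun ζ => ∑ ξ ∈ A with φ ξ = ζ, m ξ) e' e0
  have a3 : ∀ z : X, ∑ ζ ∈ A.image φ, (∑ ξ ∈ A with φ ξ = ζ, m ξ) * z.1 ζ =
      ∑ ξ ∈ A, m ξ * z.1 (φ ξ) := fun z => by
    rw [← Finset.sum_fiberwise_of_maps_to (s := A) (g := φ) fun ξ h => Finset.mem_image_of_mem φ h]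
    exact Finset.sum_congr rfl fun ζ _ => (Finset.sum_mul _ _ _).trans
      (Finset.sum_congr rfl fun ξ h => by rw [(Finset.mem_filter.1 h).2])
  have a4 : ∑ ζ ∈ A.image φ, |∑ ξ ∈ A with φ ξ = ζ, m ξ| ≤ ∑ ξ ∈ A, |m ξ| := by
    rw [← Finset.sum_fiberwise_of_maps_to (s := A) (g := φ) fun ξ h => Finset.mem_image_of_mem φ h]
    exact Finset.sum_le_sum fun ζ _ => Finset.abs_sum_le_sum_abs _ _
  have a5 : ∀ z : X, |fn l z - μ z| ≤ 2 * (e' * ‖z‖) + ∑ ξ ∈ A, |m ξ * (z.1 (φ ξ) - z.1 ξ)| :=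
    fun z => by
      have b1 := Finset.abs_sum_le_sum_abs (fun ξ => m ξ * (z.1 (φ ξ) - z.1 ξ)) A
      have b2 := l3 z
      have b3 : ∑ ξ ∈ A, m ξ * (z.1 (φ ξ) - z.1 ξ) =
          ∑ ξ ∈ A, m ξ * z.1 (φ ξ) - ∑ ξ ∈ A, m ξ * z.1 ξ := by
        simp only [mul_sub, Finset.sum_sub_distrib]
      rw [a3] at b2
      rw [b3] at b1
      linarith [a1 z, abs_sub_le (fn l z) (∑ ξ ∈ A, m ξ * z.1 (φ ξ)) (μ z),
        abs_sub_le (∑ ξ ∈ A, m ξ * z.1 (φ ξ)) (∑ ξ ∈ A, m ξ * z.1 ξ) (μ z)]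
  refine ⟨n, l, l1.trans_le p1, by linarith, nle fun z hz => ?_, fun b => ?_, ?_⟩
  · have b1 : ∑ ξ ∈ A, |m ξ * (z.1 (φ ξ) - z.1 ξ)| ≤ 2 * ∑ ξ ∈ A \ A0, |m ξ| := by
      rw [Finset.mul_sum, ← Finset.sum_subset (Finset.sdiff_subset (t := A0)) fun ξ h1 h2 => by
        rw [p2 ξ (by simpa [h1] using h2), sub_self, mul_zero, abs_zero]]
      refine Finset.sum_le_sum fun ξ _ => ?_
      rw [abs_mul, mul_comm]
      exact mul_le_mul_of_nonneg_right (by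
        linarith [abs_sub (z.1 (φ ξ)) (z.1 ξ), ap_le z ξ, ap_le z (φ ξ)]) (abs_nonneg _)
    have b2 := (le_abs_self _).trans_lt (h0 (A \ A0) Finset.sdiff_disjoint)
    rw [sub_apply]
    linarith [a5 z, le_abs_self (fn l z - μ z), mul_le_of_le_one_right e0.le hz]
  · rw [sub_apply]
    linarith [a5 (u b), p4 b, mul_le_of_le_one_right e0.le (u_norm b)]
  · have b2 := l3 x
    rw [a3] at b2
    linarith [Finset.sum_le_sum p3, (abs_le.1 b2).1, (abs_le.1 (a1 x)).1,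
      mul_le_mul_of_nonneg_right e3 (norm_nonneg x)]

end Pool.Agent.H87.DenF
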