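import Mathlib
import Pool.Agent.H87.DenF5

/-! Every equivalent norm on `C₀[0, ω₁)` is a uniform limit of smooth norms. -/

namespace Pool.Agent.H87.DenF

open Filter Topology Set Metric Classical TopologicalSpace Function
open Pool.Agent.H87.TalF
open Pool.Agent.H87.NoGat (Om bdd cIic)

variable {C : Set Om} {nx : Om → Om}

theorem level (hC : Club C nx) (γ : Om) (r : ℕ) {R e : ℝ} (hR : 0 ≤ R) (he : 0 < e)
    (Φ : Set (LL × List ℚ))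
    (hΦ : ∀ q ∈ Φ, (∀ e ∈ q.1, e.1 < γ) ∧ av q.1 ≤ R ∧ q.2.length = r ∧ ∀ M ∈ q.2, |(M : ℝ)| ≤ R) :
    ∃ w : Seminorm ℝ X, (∀ x, DifferentiableAt ℝ (fun z => w z ^ 2) x) ∧
      (∀ x c, adm C r γ c → ∀ q ∈ Φ, |fn q.1 x + vX c x q.2| ≤ w x) ∧
      ∀ x B, 0 ≤ B → (∀ c, adm C r γ c → ∀ q ∈ Φ, |fn q.1 x + vX c x q.2| ≤ B) →
        w x ≤ B + e * ‖x‖ := by
  obtain ⟨A, a1, a2, a3, a4, a5⟩ := bottom γ r hR (half_pos he) Φ hΦ
  have hd : 0 < e / 4 / (r + 1) := by positivity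
  have hK : 0 ≤ R + r * R + e / 2 := by positivity
  refine ⟨W C nx (e / 4 / (r + 1)) A r γ fun _ => ⊤, W_diff hC hd hK a1 a2 a3 _ _ _,
    fun x c h q hq => ?_, fun x B hB h => ?_⟩
  · have h1 : ∀ s < r, c s = if s < r then c s else ⊤ := fun s hs => (if_pos hs).symm
    rw [vX_congr x (by rw [(hΦ q hq).2.2.1]; exact h1)]
    exact (a4 _ x q hq).trans (le_W hd.le hK a1 x _ r _ _ (fun s hs => if_neg hs.not_gt)
      (adm_congr h1 _ _ le_rfl h))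
  · refine (W_le hd.le (B := B + e / 2 * ‖x‖) (by positivity) r _ _
      fun c _ k => a5 c x B hB (h c k)).trans ?_
    have : (r : ℝ) * (2 * (e / 4 / (r + 1))) ≤ e / 2 := by
      rw [← mul_div_assoc, ← mul_div_assoc, div_le_iff₀ (by positivity)]; nlinarith
    nlinarith [norm_nonneg x]

lemma nx_eq (hC : Club C nx) {β ξ : Om} (h1 : β ≤ ξ) (h2 : ξ < nx β) : nx β = nx ξ :=
  le_antisymm (hC.c3 _ _ (hC.c1 ξ) (h1.trans_lt (hC.c2 ξ))) (hC.c3 _ _ (hC.c1 β) h2)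

lemma pr (hC : Club C nx) {c ξ : Om} (h1 : c ∈ C) (h2 : c ≤ ξ) : ∃ β ∈ C, β ≤ ξ ∧ nx β = nx ξ := by
  obtain ⟨α, hα⟩ := lub (s := C ∩ Iic ξ) ⟨ξ, fun _ h => h.2⟩
  have a1 : α ≤ ξ := hα.2 fun _ h => h.2
  refine ⟨α, hC.c4 α ((hC.c5 c h1).imp fun _ h => h.trans_le (hα.1 ⟨h1, h2⟩)) fun l hl => ?_, a1,
    nx_eq hC a1 (lt_of_not_ge fun h => (hC.c2 α).not_ge (hα.1 ⟨hC.c1 α, h⟩))⟩
  obtain ⟨β, b1, b2⟩ := (lt_isLUB_iff hα).1 hl
  exact ⟨β, b1.1, b2, hα.1 b1⟩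

lemma gam (hC : Club C nx) {c : Om} (h1 : c ∈ C) (h2 : ∀ β ∈ C, c ≤ β) (l : LL) :
    ∃ γ ξ, (γ = c ∨ γ = nx ξ) ∧ (∀ e ∈ l, e.1 < γ) ∧ (γ = c ∨ ∃ e ∈ l, nx e.1 = γ) ∧
      ∀ β ∈ C, (∀ e ∈ l, e.1 < β) → γ ≤ β := by
  obtain ⟨a, ha⟩ := hC.c5 c h1
  obtain ⟨b, -, b1, rfl | ⟨e, b2, rfl⟩⟩ := bnd l a
  · exact ⟨c, c, Or.inl rfl, fun e he => (b1 e he).trans_lt ha, Or.inl rfl, fun β h _ => h2 β h⟩
  · exact ⟨_, e.1, Or.inr rfl, fun e' he => (b1 e' he).trans_lt (hC.c2 _), Or.inr ⟨e, b2, rfl⟩,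
      fun β h k => hC.c3 _ β h (k e b2)⟩

theorem dens (ρ : Seminorm ℝ X) {c K ε : ℝ} (hc : 0 < c) (hcK : c ≤ K) (h1 : ∀ x, c * ‖x‖ ≤ ρ x)
    (h2 : ∀ x, ρ x ≤ K * ‖x‖) (hε : 0 < ε) (hε1 : ε ≤ 1) : ∃ p : Seminorm ℝ X,
    (∀ x, ρ x ≤ p x ∧ p x ≤ ρ x + ε * (3 * K + 4) * ‖x‖) ∧
      ∀ x, DifferentiableAt ℝ (fun z => p z ^ 2) x := by
  have hK := hc.trans_le hcK
  obtain ⟨ω, o0, o1, o2, o3⟩ : ∃ ω : ℕ → X → ℝ, (∀ n x, 0 ≤ ω n x) ∧ (∀ (n : ℕ) x (ν : X →L[ℝ] ℝ),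
      ‖ν‖ ≤ ε → (∀ b, |ν (u b)| ≤ 1 / ((n : ℝ) + 1)) → |ν x| ≤ ω n x) ∧ (∀ n x, ω n x ≤ ε * ‖x‖) ∧
      ∀ x, ∀ η > 0, ∀ᶠ n in atTop, ω n x ≤ η := by
    have a1 : ∀ (ν : X →L[ℝ] ℝ) x, ‖ν‖ ≤ ε → |ν x| ≤ ε * ‖x‖ := fun ν x h =>
      (ν.le_opNorm x).trans (mul_le_mul_of_nonneg_right h (norm_nonneg _))
    refine ⟨fun n x => ⨆ ν : {ν : X →L[ℝ] ℝ // ‖ν‖ ≤ ε ∧ ∀ b, |ν (u b)| ≤ 1 / ((n : ℝ) + 1)},
      |ν.1 x|, fun n x => Real.iSup_nonneg fun _ => abs_nonneg _, fun n x ν a2 a3 =>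
      le_ciSup_of_le ⟨_, by rintro _ ⟨ν, rfl⟩; exact a1 ν.1 x ν.2.1⟩ ⟨ν, a2, a3⟩ le_rfl,
      fun n x => Real.iSup_le (fun ν => a1 ν.1 x ν.2.1) (by positivity), fun x η hη => ?_⟩
    filter_upwards [small x hη] with n hn
    exact Real.iSup_le (fun ν => hn ν.1 (ν.2.1.trans hε1) ν.2.2) hη.le
  obtain ⟨C, nx, hC, LT, RF⟩ := refl_club (fun n x => ρ x + ω n x) (R := K + 1)
  obtain ⟨c0, c1, c2⟩ := wellFounded_lt.has_min C ⟨_, hC.c1 (Classical.arbitrary _)⟩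
  replace c2 := fun β h => not_lt.1 (c2 β h)
  set k := kk K with hk
  obtain ⟨g, g0, g1, g3⟩ : ∃ g : ℕ → ℝ, (∀ n, 0 < g n) ∧
      (∀ n, g n * ((k n : ℝ) + 1) = ε / ((n : ℝ) + 1)) ∧ ∀ n, g n ≤ ε / ((n : ℝ) + 1) :=
    ⟨fun n => ε / ((n : ℝ) + 1) / ((k n : ℝ) + 1), fun n => by positivity,
      fun n => div_mul_cancel₀ _ (by positivity), fun n =>
      div_le_self (by positivity) (by linarith [Nat.cast_nonneg (α := ℝ) (k n)])⟩
  have g2 : ∀ n : ℕ, ε / ((n : ℝ) + 1) ≤ ε := fun n =>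
    div_le_self hε.le (by linarith [Nat.cast_nonneg (α := ℝ) n])
  set Cf : ℕ → ℕ → Om → Set (LL × List ℚ) := fun n j γ => {q | (∀ e ∈ q.1, e.1 < γ) ∧
    av q.1 ≤ K + 1 ∧ q.2.length = k n - j ∧ q.1.length ≤ j ∧
    E (fun x => ρ x + ω n x) (K + 1) q.2 (fn q.1) ∧ (γ = c0 ∨ ∃ e ∈ q.1, nx e.1 = γ)} with hCf
  choose w w1 w2 w3 using fun n j γ => level hC γ (k n - j) (R := K + 1) (e := g n * c / 16)
    (by positivity) (by have := g0 n; positivity) (Cf n j γ)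
    fun q hq => ⟨hq.1, hq.2.1, hq.2.2.1, E_bd _ hq.2.2.2.2.1⟩
  have w4 : ∀ n j γ x, w n j γ x ≤ ρ x + ω n x + g n * c / 16 * ‖x‖ := fun n j γ x =>
    w3 n j γ x _ (add_nonneg (apply_nonneg _ _) (o0 _ _)) fun cs h q hq =>
      LT n x cs q.2 q.1 γ (fun e he => WithTop.coe_lt_coe.2 (hq.1 e he)) (hq.2.2.1 ▸ h) hq.2.2.2.2.1
  obtain ⟨a, ha⟩ : ∃ a : ℕ → ℕ → ℝ, ∀ n j, a n j = 1 + g n * ((k n : ℝ) + 1 - j) :=
    ⟨_, fun _ _ => rfl⟩
  have a1 : ∀ n j, j ≤ k n → 1 + g n ≤ a n j ∧ a n j ≤ 1 + ε / ((n : ℝ) + 1) := fun n j h => by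
    have : (j : ℝ) ≤ k n := Nat.cast_le.2 h
    simp only [ha]
    constructor <;> nlinarith [g0 n, g1 n, Nat.cast_nonneg (α := ℝ) j]
  let L := {t : ℕ × ℕ × Om × Om // t.2.1 ≤ k t.1 ∧ (t.2.2.1 = c0 ∨ t.2.2.1 = nx t.2.2.2)}
  let nn : L → Seminorm ℝ X := fun t => (w t.1.1 t.1.2.1 t.1.2.2.1).comp
    (a t.1.1 t.1.2.1 • ContinuousLinearMap.id ℝ X).toLinearMap
  let τ : L → X →L[ℝ] ℝ := fun t => (ε / ((t.1.1 : ℝ) + 1)) • jp nx (.inr t.1.2.2.2)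
  have e1 : ∀ n j γ ξ h x, nn ⟨(n, j, γ, ξ), h⟩ x = a n j * w n j γ x := fun n j γ ξ h x =>
    (map_smul_eq_mul (w n j γ) (a n j) x).trans (by
      rw [Real.norm_of_nonneg (show 0 ≤ a n j by linarith [(a1 n j h.1).1, g0 n])])
  have e2 : ∀ n j γ ξ h x, |τ ⟨(n, j, γ, ξ), h⟩ x| =
      ε / ((n : ℝ) + 1) * |x.1 ξ - x.1 (Order.succ ξ)| := fun n j γ ξ h x =>
    (abs_mul _ _).trans (by rw [abs_of_pos (by positivity)]; rfl)
  have e3 : ∀ n j γ ξ h x, nn ⟨(n, j, γ, ξ), h⟩ x ≤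
      ρ x + ω n x + ε / ((n : ℝ) + 1) * ((3 * K + 1) * ‖x‖) := fun n j γ ξ h x => by
    have b1 := (a1 n j h.1).2
    have b2 : g n * c / 16 * ‖x‖ ≤ ε / ((n : ℝ) + 1) * (K * ‖x‖) := by
      rw [← mul_assoc]
      exact mul_le_mul_of_nonneg_right (by nlinarith [g3 n, g0 n]) (norm_nonneg _)
    have b3 : 0 < ε / ((n : ℝ) + 1) := by positivity
    have b4 : w n j γ x ≤ (2 * K + 1) * ‖x‖ := by
      nlinarith [w4 n j γ x, h2 x, o2 n x, g2 n, norm_nonneg x, mul_nonneg hK.le (norm_nonneg x)]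
    rw [e1]
    nlinarith [w4 n j γ x, mul_le_mul_of_nonneg_right b1 (apply_nonneg (w n j γ) x),
      mul_le_mul_of_nonneg_left b4 b3.le]
  have e4 : ∀ t x, nn t x + |τ t x| ≤ ρ x + ε * (3 * K + 4) * ‖x‖ := by
    rintro ⟨⟨n, j, γ, ξ⟩, h⟩ x
    have b1 := mul_le_mul (g2 n) (jp_le nx (.inr ξ) x) (abs_nonneg _) hε.le
    have b2 := mul_le_mul_of_nonneg_right (g2 n) (show 0 ≤ (3 * K + 1) * ‖x‖ by positivity)
    rw [e2]
    replace b1 : ε / ((n : ℝ) + 1) * |x.1 ξ - x.1 (Order.succ ξ)| ≤ _ := b1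
    linarith [e3 n j γ ξ h x, o2 n x]
  have e5 : ∀ t x, nn t x + |τ t x| ≤ (K + ε * (3 * K + 4)) * ‖x‖ := fun t x => by
    linarith [e4 t x, h2 x]
  have e6 : ∀ x, ∃ t n, ρ x + g n * c / 2 * ‖x‖ ≤ nn t x := fun x => by
    obtain ⟨μ, m1, m2⟩ := hb ρ h2 x
    obtain ⟨n, l, l1, l2, l3, l4, l5⟩ := lower μ (μ.opNorm_le_bound hK.le fun z => (m1 z).trans (h2 z))
      hε x (e := fun n => g n * c / 16) fun n => by have := g0 n; positivity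
    obtain ⟨γ, ξ, b1, b2, b3, -⟩ := gam hC c1 c2 l
    have b4 := w2 n (k n) γ x (fun _ => ⊤) (by rw [Nat.sub_self]; trivial) (l, [])
      ⟨b2, l2, (Nat.sub_self _).symm, l1, fun z => by
        have := o1 n z _ l3 l4
        rw [sub_apply] at this
        linarith [m1 z, abs_sub_abs_le_abs_sub (fn l z) (μ z)], b3⟩
    refine ⟨⟨(n, k n, γ, ξ), le_rfl, b1⟩, n, ?_⟩
    have b5 : ρ x - g n * c / 16 * ‖x‖ ≤ w n (k n) γ x := by
      have := (le_abs_self _).trans b4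
      simp only [vX, add_zero] at this
      linarith
    have b6 : 0 ≤ g n * c * ‖x‖ := by have := g0 n; positivity
    rw [e1]
    nlinarith [mul_le_mul_of_nonneg_right (a1 n _ le_rfl).1 (apply_nonneg (w n (k n) γ) x),
      mul_le_mul_of_nonneg_left b5 (g0 n).le, mul_le_mul_of_nonneg_left (h1 x) (g0 n).le,
      mul_le_of_le_one_left b6 (((g3 n).trans (g2 n)).trans hε1)]
  refine ⟨Sm nn τ, fun x => ⟨?_, Sm_le (by positivity) fun t => e4 t x⟩,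
    Sm_diff (by positivity) e5 (fun t x => (w1 _ _ _ _).comp x
      (a t.1.1 t.1.2.1 • ContinuousLinearMap.id ℝ X).differentiableAt) (fun x η hη => ?_)
    fun x hx => ?_⟩
  · obtain ⟨t, n, h⟩ := e6 x
    have := g0 n
    exact ((le_add_of_nonneg_right (by positivity)).trans h).trans (le_Sm e5 t x)
  · obtain ⟨N, hN⟩ := exists_nat_gt (ε * (2 * ‖x‖) / η)
    refine (((finite_Iio N).biUnion fun n _ => (finite_singleton n).prod ((finite_Iic (k n)).prod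
      ((((fin_j x hη).image nx).insert c0).prod (fin_j x hη)))).preimage
      Subtype.val_injective.injOn).subset ?_
    rintro ⟨⟨n, j, γ, ξ⟩, h⟩ ht
    replace ht : η ≤ _ := ht
    rw [e2] at ht
    have b1 : η ≤ |x.1 ξ - x.1 (Order.succ ξ)| :=
      ht.trans (mul_le_of_le_one_left (abs_nonneg _) ((g2 n).trans hε1))
    refine mem_biUnion (x := n) ?_ ⟨rfl, h.1, h.2.imp_right fun k => ⟨ξ, b1, k.symm⟩, b1⟩
    have b2 := ht.trans (mul_le_mul_of_nonneg_left (jp_le nx (.inr ξ) x) (by positivity))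
    rw [div_mul_eq_mul_div, le_div_iff₀ (by positivity), ← le_div_iff₀' hη] at b2
    exact Nat.cast_lt (α := ℝ).1 (by linarith)
  have x0 := norm_pos_iff.2 hx
  set S := ⨆ t, nn t x with hS
  have s1 : ∀ t, nn t x ≤ S := fun t => le_ciSup (f := fun t => nn t x) ⟨_, by
    rintro _ ⟨t, rfl⟩; exact (le_add_of_nonneg_right (abs_nonneg _)).trans (e5 t x)⟩ t
  have s2 : ρ x < S := by
    obtain ⟨t, n, h⟩ := e6 x
    have := g0 n
    exact ((lt_add_of_pos_right _ (by positivity)).trans_le h).trans_le (s1 t)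
  obtain ⟨N, hN⟩ := eventually_atTop.1 ((o3 x _ (show 0 < (S - ρ x) / 4 by linarith)).and
    ((tendsto_one_div_add_atTop_nhds_zero_nat.mul_const (ε * ((3 * K + 1) * ‖x‖))).eventually
      (gt_mem_nhds (show 0 * _ < (S - ρ x) / 4 by linarith))))
  have θ0 : ∀ n, 0 < g n * c / 16 * ‖x‖ / (K + 1) := fun n => by have := g0 n; positivity
  set Gd : ℕ → Set Om := fun n => insert c0 (nx '' {α | α ∈ C ∧ ¬ ∀ ξ ∈ Icc α (nx α),
    |x.1 ξ - x.1 α| ≤ g n * c / 16 * ‖x‖ / (K + 1)}) with hGd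
  have s3 : ∀ n j γ, j ≤ k n → γ ∉ Gd n → a n j * w n j γ x ≤ S - g n * c / 12 * ‖x‖ := by
    intro n j γ hj hγ
    have b0 : γ ≠ c0 := fun h => hγ (Or.inl h)
    have b1 := a1 n j hj
    have b2 : 0 < a n j + g n := by linarith [g0 n]
    have b3 : c * ‖x‖ ≤ S := (h1 x).trans s2.le
    have b4 : 0 ≤ g n * c * ‖x‖ := by have := g0 n; positivity
    have b5 : 0 ≤ S / (a n j + g n) := div_nonneg ((apply_nonneg ρ x).trans s2.le) b2.le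
    suffices w n j γ x ≤ S / (a n j + g n) + g n * c / 16 * ‖x‖ + g n * c / 16 * ‖x‖ by
      have b6 : (a n j + g n) * (S / (a n j + g n)) = S := mul_div_cancel₀ _ b2.ne'
      have b7 : a n j ≤ 2 := by linarith [g2 n]
      have b8 : S ≤ 3 * (S / (a n j + g n)) := by nlinarith [g3 n, g2 n]
      nlinarith [mul_le_mul_of_nonneg_left this (show 0 ≤ a n j by linarith [g0 n]),
        mul_le_mul_of_nonneg_right b7 b4, mul_le_mul_of_nonneg_left (b3.trans b8) (g0 n).le]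
    refine w3 n j γ x _ (by linarith) ?_
    rintro cs h ⟨l, Ms⟩ ⟨q1, q2, q3, q4, q5, q6⟩
    obtain ⟨e0, q7, rfl⟩ := q6.resolve_left b0
    obtain ⟨β, d1, d2, d3⟩ := pr hC c1 (not_lt.1 fun k =>
      b0 (le_antisymm (hC.c3 _ _ c1 k) (c2 _ (hC.c1 e0.1))))
    have d4 : ∀ ξ ∈ Icc β (nx β), |x.1 ξ - x.1 β| ≤ g n * c / 16 * ‖x‖ / (K + 1) :=
      by_contra fun k => hγ (Or.inr ⟨β, ⟨d1, k⟩, d3⟩)
    set lo := l.filter fun e => decide (e.1 < β) with hlo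
    set gp := l.filter fun e => !decide (e.1 < β) with hgp
    have d5 : fn l = fn lo + fn gp := split _ l
    have d6 : ∀ e ∈ lo, e.1 < β := fun e he => of_decide_eq_true (List.mem_filter.1 he).2
    have d7 : ∀ e ∈ gp, β ≤ e.1 := fun e he => by simpa using (List.mem_filter.1 he).2
    have d8 : lo.length < l.length :=
      List.length_filter_lt_length_iff_exists.2 ⟨e0, q7, by simpa using d2⟩
    have d9 : av gp ≤ K + 1 := (av_filter _ l).trans q2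
    obtain ⟨γ', ξ', f1, f2, f3, f4⟩ := gam hC c1 c2 lo
    obtain ⟨j, rfl⟩ : ∃ i, j = i + 1 := ⟨j - 1, by dsimp only at q4; omega⟩
    have f5 : k n - j = Ms.length + 1 := by dsimp only at q3; omega
    have f6 : ∀ s < Ms.length, cs s = update cs Ms.length β s := fun s hs =>
      (update_of_ne hs.ne _ _).symm
    have f7 := w2 n j γ' x (update cs Ms.length β) (by
      rw [f5]
      refine ⟨?_, ?_, ?_⟩ <;> rw [update_self]
      · exact cc_coe.2 d1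
      · exact WithTop.coe_le_coe.2 (f4 β d1 d6)
      · exact adm_congr f6 _ _ (WithTop.coe_le_coe.2 (d2.trans (hC.c2 _).le)) (q3 ▸ h))
      (lo, ms gp :: Ms) ⟨f2, (av_filter _ l).trans q2, f5.symm, by dsimp only at q4 ⊢; omega,
        RF β d1 n Ms lo gp d6 d7 d9 (d5 ▸ q5), f3⟩
    have f8 := s1 ⟨(n, j, γ', ξ'), (Nat.le_succ j).trans hj, f1⟩
    have f9 := (est fun e he => d4 e.1 ⟨d7 e he, (d3 ▸ q1 e (List.mem_filter.1 he).1).le⟩).trans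
      (mul_le_mul_of_nonneg_right d9 (θ0 n).le)
    rw [e1, show a n j = a n (j + 1) + g n by simp only [ha]; push_cast; ring,
      ← le_div_iff₀' b2] at f8
    rw [mul_div_cancel₀ _ (by positivity)] at f9
    simp only [vX, update_self, ev_coe, ← vX_congr x f6] at f7
    show |fn l x + vX cs x Ms| ≤ _
    rw [d5, add_apply]
    rw [abs_le] at f7 f9 ⊢
    constructor <;> linarith [f7.1, f7.2, f9.1, f9.2]
  obtain ⟨r, r1, r2⟩ := exists_max_image _ id (((finite_Iio N).biUnion fun n _ =>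
    (((finite_Iic (k n)).prod (((fin_act hC.c3 x (θ0 n)).image nx).insert c0)).image
      fun p => a n p.1 * w n p.1 p.2 x).insert (S - g n * c / 12 * ‖x‖)).insert ((ρ x + S) / 2))
    (insert_nonempty _ _)
  have r3 : ∀ t, nn t x ≤ r := by
    rintro ⟨⟨n, j, γ, ξ⟩, h⟩
    rcases lt_or_ge n N with hn | hn
    · rw [e1]
      by_cases k : γ ∈ Gd n
      · exact r2 _ (Or.inr (mem_biUnion hn (Or.inr ⟨(j, γ), ⟨h.1, k⟩, rfl⟩)))
      · exact (s3 n j γ h.1 k).trans (r2 _ (Or.inr (mem_biUnion hn (Or.inl rfl))))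
    · refine le_trans ?_ (r2 _ (Or.inl rfl))
      have := (hN n hn).2
      rw [one_div, ← mul_assoc, ← div_eq_inv_mul] at this
      linarith [e3 n j γ ξ h x, (hN n hn).1, show id ((ρ x + S) / 2) = (ρ x + S) / 2 from rfl]
  have r4 : S ≤ r := let ⟨t, _⟩ := e6 x; Real.iSup_le r3 ((apply_nonneg _ _).trans (r3 t))
  rcases r1 with rfl | r1
  · linarith
  obtain ⟨n, -, rfl | ⟨⟨j, γ⟩, ⟨hj, hγ⟩, rfl⟩⟩ := mem_iUnion₂.1 r1
  · have := g0 n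
    linarith [show 0 < g n * c / 12 * ‖x‖ by positivity]
  obtain ⟨ξ, b1, b2⟩ : ∃ ξ, (γ = c0 ∨ γ = nx ξ) ∧ x.1 ξ - x.1 (Order.succ ξ) ≠ 0 := by
    rcases hγ with h | ⟨β, ⟨-, h⟩, rfl⟩
    · exact (jmp0 hx).imp fun _ k => ⟨Or.inl h, k⟩
    · push Not at h
      obtain ⟨ζ, b1, b2⟩ := h
      obtain ⟨ξ, b3, b4, b5⟩ := jmp x b1.1 (sub_ne_zero.1 (abs_pos.1 ((θ0 n).trans b2)))
      exact ⟨ξ, Or.inr (nx_eq hC b3 (b4.trans_le b1.2)), b5⟩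
  exact ⟨⟨(n, j, γ, ξ), hj, b1⟩, fun s => (r3 s).trans_eq (e1 _ _ _ _ _ _).symm,
    mul_ne_zero (by positivity) b2⟩

end Pool.Agent.H87.DenF
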