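import Mathlib
import Pool.Agent.H87.DenF6

/-! Consequences of the approximation theorem. -/

namespace Pool.Agent.H87.DenF

open Filter Topology Set Metric Classical TopologicalSpace Function
open Pool.Agent.H87.TalF
open Pool.Agent.H87.NoGat (Om bdd cIic)

theorem dens' (ρ : Seminorm ℝ X) {c K ε : ℝ} (hc : 0 < c) (h1 : ∀ x, c * ‖x‖ ≤ ρ x)
    (h2 : ∀ x, ρ x ≤ K * ‖x‖) (hε : 0 < ε) : ∃ p : Seminorm ℝ X,
    (∀ x, ρ x ≤ p x ∧ p x ≤ ρ x + ε * ‖x‖) ∧ ∀ x ≠ 0, DifferentiableAt ℝ (fun z => p z) x := by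
  have h0 : 0 < 3 * max c K + 4 := by linarith [le_max_left c K]
  obtain ⟨p, p1, p2⟩ := dens ρ hc (le_max_left c K) h1 (fun x => (h2 x).trans
    (mul_le_mul_of_nonneg_right (le_max_right _ _) (norm_nonneg _)))
    (lt_min one_pos (div_pos hε h0)) (min_le_left _ _)
  refine ⟨p, fun x => ⟨(p1 x).1, (p1 x).2.trans ?_⟩, fun x hx => ?_⟩
  · gcongr
    exact (le_div_iff₀ h0).1 (min_le_right _ _)
  · have h3 : p x ^ 2 ≠ 0 := pow_ne_zero 2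
      (((mul_pos hc (norm_pos_iff.2 hx)).trans_le (h1 x)).trans_le (p1 x).1).ne'
    simpa only [Real.sqrt_sq (apply_nonneg _ _)] using (p2 x).sqrt h3

theorem main1 : ¬ (∀ (X : Type) [NormedAddCommGroup X] [NormedSpace ℝ X] [CompleteSpace X],
      (∀ p : Seminorm ℝ X, (∃ C : ℝ, 0 < C ∧ ∀ x : X, ‖x‖ ≤ C * p x ∧ p x ≤ C * ‖x‖) →
        ∀ ε : ℝ, 0 < ε → ∃ q : Seminorm ℝ X,
          (∃ C : ℝ, 0 < C ∧ ∀ x : X, ‖x‖ ≤ C * q x ∧ q x ≤ C * ‖x‖) ∧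
          (∀ x : X, x ≠ 0 → DifferentiableAt ℝ (fun y : X => q y) x) ∧
          ∀ x : X, ‖x‖ ≤ 1 → |p x - q x| ≤ ε) →
      ∃ p : Seminorm ℝ X, (∃ C : ℝ, 0 < C ∧ ∀ x : X, ‖x‖ ≤ C * p x ∧ p x ≤ C * ‖x‖) ∧
        ∃ N : (X →L[ℝ] ℝ) → ℝ,
          (∀ f : X →L[ℝ] ℝ, N f = ⨆ x : {x : X // p x ≤ 1}, f x.1) ∧
          ∀ (f : X →L[ℝ] ℝ) (g : ℕ → (X →L[ℝ] ℝ)),
            Tendsto (fun n : ℕ => 2 * N f ^ 2 + 2 * N (g n) ^ 2 - N (f + g n) ^ 2) atTop (𝓝 0) →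
            Tendsto (fun n : ℕ => ‖g n - f‖) atTop (𝓝 0)) := by
  intro h
  obtain ⟨p, ⟨C, C0, hC⟩, N, N1, N2⟩ := h X fun p ⟨C, C0, hC⟩ ε hε => by
    obtain ⟨q, q1, q2⟩ := dens' p (inv_pos.2 C0) (fun x => (inv_mul_le_iff₀ C0).2 (hC x).1)
      (fun x => (hC x).2) hε
    refine ⟨q, ⟨C + ε, by positivity, fun x => ⟨?_, ?_⟩⟩, q2, fun x hx => ?_⟩
    · nlinarith [(hC x).1, (q1 x).1, apply_nonneg q x]
    · linarith [(hC x).2, (q1 x).2]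
    · rw [abs_le]
      constructor <;> nlinarith [(q1 x).1, (q1 x).2]
  obtain ⟨f, g, h1, h2⟩ := noLUR p (inv_pos.2 C0) fun x => (inv_mul_le_iff₀ C0).2 (hC x).1
  have h3 : ∀ f : X →L[ℝ] ℝ, N f = sSup ((fun x : X => f x) '' {x : X | p x ≤ 1}) := fun f => by
    rw [N1, image_eq_range]; rfl
  have h4 := N2 f (fun _ => g) (by rw [h3, h3, h3, h2]; exact tendsto_const_nhds)
  exact h1 (sub_eq_zero.1 (norm_eq_zero.1 (tendsto_const_nhds_iff.1 h4))).symm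

end Pool.Agent.H87.DenF
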