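import Mathlib
import Pool.Agent.H87.DenF7

/-! Transfer to `C[0, ω₁]`. -/

namespace Pool.Agent.H87.DenF

open Filter Topology Set Metric Classical TopologicalSpace Function
open Pool.Agent.H87.TalF
open Pool.Agent.H87.NoGat (Om bdd cIic)

section gen

variable {Y : Type*} [NormedAddCommGroup Y] [NormedSpace ℝ Y]

lemma subg (q : Seminorm ℝ Y) {y : Y} {D : Y →L[ℝ] ℝ} (h : HasFDerivAt (fun z => q z) D y) (k : Y) :
    D k ≤ q (y + k) - q y := by
  refine le_of_tendsto ((h.hasLineDerivAt k).tendsto_slope_zero_right) ?_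
  filter_upwards [Ioo_mem_nhdsGT one_pos] with t ht
  have h1 := map_add_le_add q ((1 - t) • y) (t • (y + k))
  rw [show (1 - t) • y + t • (y + k) = y + t • k by module, map_smul_eq_mul, map_smul_eq_mul,
    Real.norm_of_nonneg ht.1.le, Real.norm_of_nonneg (sub_pos.2 ht.2).le] at h1
  rw [smul_eq_mul, inv_mul_le_iff₀ ht.1]
  linarith

lemma c1 (q : Seminorm ℝ Y) (h : ∀ x ≠ 0, DifferentiableAt ℝ (fun z => q z) x) :
    ContDiffOn ℝ 1 (fun z => q z) {x | x ≠ 0} := by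
  refine (contDiffOn_succ_iff_fderiv_of_isOpen (n := 0) isOpen_ne).2
    ⟨fun x hx => (h x hx).differentiableWithinAt, by simp, contDiffOn_zero.2 fun x hx => ?_⟩
  refine Metric.continuousWithinAt_iff.2 fun ε hε => ?_
  set D := fderiv ℝ (fun z => q z) x
  obtain ⟨r, r0, hr⟩ := Metric.eventually_nhds_iff.1
    ((hasFDerivAt_iff_isLittleO_nhds_zero.1 (h x hx).hasFDerivAt).def (show 0 < ε / 4 by linarith))
  refine ⟨r / 3, by linarith, fun y hy hxy => ?_⟩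
  rw [dist_eq_norm] at hxy
  refine (dist_eq_norm (E := Y →L[ℝ] ℝ) _ _).trans_lt (lt_of_le_of_lt (nle fun k hk => ?_)
    (show 3 * (ε / 4) < ε by linarith))
  have a0 : ‖(r / 3) • k‖ ≤ r / 3 := by
    rw [norm_smul, Real.norm_of_nonneg (by linarith)]
    exact mul_le_of_le_one_right (by linarith) hk
  have a1 := subg q (h y hy).hasFDerivAt ((r / 3) • k)
  have a2 : ‖y - x + (r / 3) • k‖ ≤ 2 * (r / 3) := by linarith [norm_add_le (y - x) ((r / 3) • k)]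
  have a3 := (le_abs_self _).trans (hr (y := y - x + (r / 3) • k) (by rw [dist_zero_right]; linarith))
  have a4 := (neg_le_abs _).trans (hr (y := y - x) (by rw [dist_zero_right]; linarith))
  rw [← add_assoc, add_sub_cancel, map_add D, map_smul D, smul_eq_mul] at a3
  rw [add_sub_cancel] at a4
  rw [map_smul, smul_eq_mul] at a1
  rw [sub_apply]
  refine le_of_mul_le_mul_left ?_ (show 0 < r / 3 by linarith)
  nlinarith

theorem sub_dens (i : Y →L[ℝ] X) (i1 : ∀ y, ‖y‖ ≤ 2 * ‖i y‖) (i2 : ∀ y, ‖i y‖ ≤ 2 * ‖y‖)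
    (p : Seminorm ℝ Y) {c C ε : ℝ} (hc : 0 < c) (hC : 0 < C) (h1 : ∀ x, c * ‖x‖ ≤ p x)
    (h2 : ∀ x, p x ≤ C * ‖x‖) (hε : 0 < ε) : ∃ q : Seminorm ℝ Y,
    (∀ x, p x ≤ q x ∧ q x ≤ p x + ε * ‖x‖) ∧ ContDiffOn ℝ 1 (fun z => q z) {x | x ≠ 0} := by
  let N : Seminorm ℝ (X × Y) := (normSeminorm ℝ X).comp ((2 * C) • (LinearMap.fst ℝ X Y -
    i.toLinearMap.comp (LinearMap.snd ℝ X Y))) + p.comp (LinearMap.snd ℝ X Y)
  have n1 : ∀ x y, N (x, y) = 2 * C * ‖x - i y‖ + p y := fun x y => by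
    show ‖(2 * C) • (x - i y)‖ + p y = _
    rw [norm_smul, Real.norm_of_nonneg (by positivity)]
  have n2 : ∀ x y, sinf N x ≤ 2 * C * ‖x - i y‖ + p y := fun x y =>
    (ciInf_le (bbl N x) y).trans_eq (n1 x y)
  have n3 : ∀ y, sinf N (i y) = p y := fun y => le_antisymm (by simpa using n2 (i y) y)
    (le_ciInf fun z => by
      have := map_add_le_add p (y - z) z
      rw [sub_add_cancel] at this
      rw [n1, ← map_sub]
      nlinarith [h2 (y - z), i1 (y - z)])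
  obtain ⟨q, q1, q2⟩ := dens' (sinf N) (c := min (2 * C) (c / 2)) (K := 2 * C) (by positivity)
    (fun x => le_ciInf fun z => by
      have a1 := norm_add_le (x - i z) (i z)
      rw [sub_add_cancel] at a1
      rw [n1]
      have a2 : 0 < min (2 * C) (c / 2) := by positivity
      nlinarith [mul_le_mul_of_nonneg_right (min_le_left (2 * C) (c / 2)) (norm_nonneg (x - i z)),
        mul_le_mul_of_nonneg_right (min_le_right (2 * C) (c / 2)) (norm_nonneg (i z)), h1 z, i2 z])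
    (fun x => by simpa using n2 x 0) (half_pos hε)
  refine ⟨q.comp i.toLinearMap, fun y => ⟨(n3 y).ge.trans (q1 _).1, (q1 (i y)).2.trans ?_⟩,
    c1 _ fun y hy => (q2 _ fun h => hy ?_).comp y i.differentiableAt⟩
  · rw [n3]; nlinarith [i2 y]
  · have := i1 y
    rw [show i y = 0 from h] at this
    simpa using this

end gen

lemma contOm {g : Om → ℝ} (h : ∀ b l0, l0 < b → ∀ ε > 0, ∃ l < b, ∀ ξ, l < ξ → ξ ≤ b →
    |g ξ - g b| < ε) : Continuous g := by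
  refine continuous_iff_continuousAt.2 fun b => Metric.tendsto_nhds.2 fun ε hε => ?_
  by_cases hb : ∃ l, l < b
  · obtain ⟨l0, h0⟩ := hb
    obtain ⟨l, h1, h2⟩ := h b l0 h0 ε hε
    filter_upwards [(clop b).2.mem_nhds (mem_Iic.2 le_rfl), Ioi_mem_nhds h1] with ξ a1 a2
    exact h2 ξ a2 a1
  · filter_upwards [(clop b).2.mem_nhds (mem_Iic.2 le_rfl)] with ξ a1
    rw [(mem_Iic.1 a1).eq_of_not_lt fun k => hb ⟨ξ, k⟩, dist_self]
    exact hε

noncomputable abbrev Ω : Ordinal.{0} := (Cardinal.aleph.{0} 1).ord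

abbrev YC := BoundedContinuousFunction (Set.Iic Ω) ℝ

lemma Ω1 : 1 < Ω := by
  rw [Cardinal.lt_ord]; simp

lemma Ω2 {a : Ordinal} (h : a < Ω) : 1 + a < Ω :=
  Ordinal.isPrincipal_add_ord (Cardinal.aleph0_le_aleph 1) Ω1 h

noncomputable def oo (ξ : Om) : Ordinal := (Ordinal.ToType.mk.symm ξ).1

lemma oo_lt (ξ : Om) : oo ξ < Ω := (Ordinal.ToType.mk.symm ξ).2

lemma oo_mono : StrictMono oo := fun _ _ h => Ordinal.ToType.mk.symm.strictMono h

lemma oo_surj {a : Ordinal} (h : a < Ω) : ∃ ξ, oo ξ = a :=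
  ⟨Ordinal.ToType.mk ⟨a, h⟩, congrArg Subtype.val (OrderIso.symm_apply_apply _ _)⟩

noncomputable def FF (f : YC) (a : Ordinal) : ℝ := f ⟨min a Ω, mem_Iic.2 (min_le_right _ _)⟩

lemma FF_cont (f : YC) : Continuous (FF f) :=
  f.continuous.comp ((continuous_id.min continuous_const).subtype_mk _)

lemma FF_le (f : YC) (a : Ordinal) : |FF f a| ≤ ‖f‖ := f.norm_coe_le_norm _

lemma FF_near (f : YC) {a : Ordinal} (h : a ≠ 0) {ε : ℝ} (hε : 0 < ε) :
    ∃ l < a, ∀ b, l < b → b ≤ a → |FF f b - FF f a| < ε := by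
  obtain ⟨l, h1, h2⟩ := exists_Ioc_subset_of_mem_nhds
    ((FF_cont f).continuousAt.eventually (ball_mem_nhds (FF f a) hε)) ⟨0, pos_iff_ne_zero.2 h⟩
  exact ⟨l, h1, fun b a1 a2 => h2 ⟨a1, a2⟩⟩

noncomputable def gg (f : YC) (ξ : Om) : ℝ :=
  if oo ξ = 0 then FF f Ω else FF f (oo ξ - 1) - FF f Ω

lemma gg_of (f : YC) {l ξ : Om} (h : l < ξ) : gg f ξ = FF f (oo ξ - 1) - FF f Ω :=
  if_neg (zero_le.trans_lt (oo_mono h)).ne'

lemma gg_le (f : YC) (ξ : Om) : |gg f ξ| ≤ 2 * ‖f‖ := by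
  unfold gg
  split_ifs
  · linarith [FF_le f Ω, norm_nonneg f]
  · linarith [FF_le f Ω, FF_le f (oo ξ - 1), abs_sub (FF f (oo ξ - 1)) (FF f Ω)]

noncomputable def ii0 (f : YC) : X := mk (gg f) (contOm fun b l0 h0 ε hε => by
    have h1 : ∀ ξ ≤ b, oo ξ - 1 ≤ oo b - 1 := fun ξ h =>
      Ordinal.sub_le.2 ((oo_mono.monotone h).trans (Ordinal.le_add_sub _ _))
    by_cases h : oo b - 1 = 0
    · refine ⟨l0, h0, fun ξ a1 a2 => ?_⟩
      rw [gg_of f a1, gg_of f h0, h, le_antisymm ((h1 ξ a2).trans h.le) zero_le, sub_self, abs_zero]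
      exact hε
    · obtain ⟨l, a1, a2⟩ := FF_near f h hε
      obtain ⟨l', a3⟩ := oo_surj ((Ordinal.lt_sub.1 a1).trans (oo_lt b))
      refine ⟨l', oo_mono.lt_iff_lt.1 (a3 ▸ Ordinal.lt_sub.1 a1), fun ξ b1 b2 => ?_⟩
      rw [gg_of f b1, gg_of f h0, sub_sub_sub_cancel_right]
      exact a2 _ (Ordinal.lt_sub.2 (a3 ▸ oo_mono b1)) (h1 ξ b2)) _ (gg_le f) (by
    choose l l1 l2 using fun n : ℕ => FF_near f (zero_lt_one.trans Ω1).ne'
      (Nat.one_div_pos_of_nat (n := n))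
    choose m hm using fun n => oo_surj (Ω2 (l1 n))
    obtain ⟨b, hb⟩ := bdd m
    refine ⟨b, fun ξ h => (gg_of f h).trans (abs_nonpos_iff.1 (ge_of_tendsto'
      tendsto_one_div_add_atTop_nhds_zero_nat fun n => (l2 n _ (Ordinal.lt_sub.2 ?_) ?_).le))⟩
    · exact hm n ▸ oo_mono ((hb n).trans h)
    · exact (Ordinal.sub_le_self _ _).trans (oo_lt ξ).le)

lemma ii_le (f : YC) : ‖ii0 f‖ ≤ 2 * ‖f‖ := nrm_le _ (by positivity) (gg_le f)

noncomputable def ii : YC →L[ℝ] X := LinearMap.mkContinuous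
  { toFun := ii0
    map_add' := fun f g => ext' fun ξ => by
      show gg (f + g) ξ = gg f ξ + gg g ξ
      unfold gg FF
      split_ifs <;> simp only [BoundedContinuousFunction.add_apply]
      ring
    map_smul' := fun c f => ext' fun ξ => by
      show gg (c • f) ξ = c * gg f ξ
      unfold gg FF
      split_ifs <;> simp only [BoundedContinuousFunction.smul_apply, smul_eq_mul]
      ring } 2 ii_le

lemma le_ii (f : YC) : ‖f‖ ≤ 2 * ‖ii f‖ := by
  have h1 : ∀ ξ, |gg f ξ| ≤ ‖ii f‖ := ap_le (ii f)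
  obtain ⟨z, hz⟩ := oo_surj (zero_lt_one.trans Ω1)
  have h2 := h1 z
  rw [gg, if_pos hz] at h2
  refine (BoundedContinuousFunction.norm_le (by positivity)).2 fun a => ?_
  have h3 : f a = FF f a := congrArg f (Subtype.ext (min_eq_left a.2).symm)
  rw [h3, Real.norm_eq_abs]
  rcases (mem_Iic.1 a.2).eq_or_lt with h | h
  · rw [h]; linarith [norm_nonneg (ii f)]
  · obtain ⟨ξ, hξ⟩ := oo_surj (Ω2 h)
    have h4 := h1 ξ
    rw [gg, if_neg (by rw [hξ]; simp), hξ, Ordinal.add_sub_cancel] at h4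
    linarith [abs_sub_abs_le_abs_sub (FF f a) (FF f Ω)]

theorem main2 : ∀ p : Seminorm ℝ (BoundedContinuousFunction (Set.Iic (Cardinal.aleph.{0} 1).ord) ℝ),
      (∃ c : ℝ, 0 < c ∧ ∀ x, c * ‖x‖ ≤ p x) →
      (∃ C : ℝ, 0 < C ∧ ∀ x, p x ≤ C * ‖x‖) →
      ∀ ε : ℝ, 0 < ε →
        ∃ q : Seminorm ℝ (BoundedContinuousFunction (Set.Iic (Cardinal.aleph.{0} 1).ord) ℝ),
          (∃ c : ℝ, 0 < c ∧ ∀ x, c * ‖x‖ ≤ q x) ∧
          (∃ C : ℝ, 0 < C ∧ ∀ x, q x ≤ C * ‖x‖) ∧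
          ContDiffOn ℝ 1 (fun x => q x) {x | x ≠ 0} ∧
          ∀ x, ‖x‖ ≤ 1 → |p x - q x| < ε := by
  rintro p ⟨c, hc, h1⟩ ⟨C, hC, h2⟩ ε hε
  obtain ⟨q, q1, q2⟩ := sub_dens ii le_ii ii_le p hc hC h1 h2 (half_pos hε)
  refine ⟨q, ⟨c, hc, fun x => (h1 x).trans (q1 x).1⟩, ⟨C + ε / 2, by positivity, fun x => by
    linarith [(q1 x).2, h2 x]⟩, q2, fun x hx => ?_⟩
  rw [abs_lt]
  constructor <;> nlinarith [(q1 x).1, (q1 x).2]

end Pool.Agent.H87.DenF
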