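import Pool.Agent.H87.RnpL1

namespace Pool.Agent.H87.DualIdx

open Filter Topology Set Pool.Agent.H87.L1R BoundedContinuousFunction

abbrev I := ℕ × ℕ
abbrev G0 := Option (I ⊕ (ℕ × Bool))
abbrev G := G0 × Fin 3
abbrev W := L G
abbrev Z := I →ᵇ ℝ

instance : Nonempty (Metric.closedBall (0 : ℂ) 1) := ⟨⟨0, by simp⟩⟩

noncomputable def u : ℕ → ℂ
  | 0 => 1
  | 1 => -Complex.I
  | j + 2 => (TopologicalSpace.denseSeq (Metric.closedBall (0 : ℂ) 1) j : ℂ)

lemma u_le : ∀ j : ℕ, ‖u j‖ ≤ 1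
  | 0 => by simp [u]
  | 1 => by simp [u]
  | j + 2 =>
    mem_closedBall_zero_iff.1 (TopologicalSpace.denseSeq (Metric.closedBall (0 : ℂ) 1) j).2

lemma re_le (j : ℕ) (y : ℂ) : |(u j * y).re| ≤ ‖y‖ :=
  (Complex.abs_re_le_norm _).trans (by
    rw [norm_mul]; exact mul_le_of_le_one_left (norm_nonneg _) (u_le j))

lemma norm_le_of_u (y : ℂ) (M : ℝ) (h : ∀ j, (u j * y).re ≤ M) : ‖y‖ ≤ M := by
  have hall : ∀ z : Metric.closedBall (0 : ℂ) 1, ((z : ℂ) * y).re ≤ M := fun z =>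
    (TopologicalSpace.denseRange_denseSeq _).induction_on z
      (isClosed_le (by fun_prop) continuous_const) fun j => h (j + 2)
  by_cases hy : y = 0
  · simpa [hy] using h 0
  have hn : (‖y‖ : ℂ) ≠ 0 := by simpa using hy
  have := hall ⟨(starRingEnd ℂ) y / ‖y‖, by
    rw [mem_closedBall_zero_iff, norm_div, Complex.norm_conj, Complex.norm_real, norm_norm,
      div_self (by simpa using hy)]⟩
  have e : (starRingEnd ℂ) y / ‖y‖ * y = (‖y‖ : ℝ) := by
    field_simp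
    rw [Complex.conj_mul']
  simpa [e] using this

def cb (b : Bool) : ℂ := if b then Complex.I else 1

lemma norm_cb (b : Bool) : ‖cb b‖ = 1 := by cases b <;> simp [cb]

noncomputable def af : G0 → I → ℝ
  | none, _ => 0
  | some (Sum.inl i), j => if j = i then 1 else 0
  | some (Sum.inr p), j => if p.1 ≤ j.1 then (u j.2 * cb p.2).re else 0

lemma af_le (g : G0) (j : I) : ‖af g j‖ ≤ 1 := by
  rcases g with _ | i | p
  · simp [af]
  · simp only [af]; split_ifs <;> simp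
  · simp only [af]; split_ifs
    · exact (re_le _ _).trans (norm_cb _).le
    · simp

noncomputable def a (g : G0) : Z := ofNormedAddCommGroupDiscrete (af g) 1 (af_le g)

lemma a_le (g : G0) : ‖a g‖ ≤ 1 := (norm_le zero_le_one).2 (af_le g)

noncomputable def B : W →L[ℝ] Z :=
  lift (fun γ : G => (100 : ℝ) • a γ.1) 100 fun γ => by
    rw [norm_smul]; have := a_le γ.1; simp only [Real.norm_ofNat]; linarith

lemma B_dl (γ : G) (j : I) : B (dl γ) j = 100 * af γ.1 j := by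
  rw [B, lift_dl]; rfl

lemma B_dl_eq (g : G0) (l l' : Fin 3) : B (dl (g, l)) = B (dl (g, l')) := by
  ext j; rw [B_dl, B_dl]

lemma B_none (l : Fin 3) : B (dl (none, l)) = 0 := by
  ext j; rw [B_dl]; simp [af]

/-- states of the max norm give values bounded by `v` -/
def St (T : W →L[ℝ] W) (v : ℝ) : Prop :=
  ∀ (w : W) (φ : W →L[ℝ] ℝ), ‖w‖ ≤ 1 → ‖B w‖ ≤ 1 → (∀ w', |φ w'| ≤ max ‖w'‖ ‖B w'‖) → φ w = 1 →
    |φ (T w)| ≤ v

noncomputable def ev (i : I) : W →L[ℝ] ℝ := (evalCLM ℝ i).comp B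

lemma ev_apply (i : I) (w : W) : ev i w = B w i := rfl

lemma ev_le (i : I) (w : W) : |B w i| ≤ ‖B w‖ := norm_coe_le_norm (B w) i

variable {T : W →L[ℝ] W} {v : ℝ}

lemma supb (h : St T v) (w : W) (h1 : ‖w‖ ≤ 1) (h2 : ‖B w‖ ≤ 1) (i : I) :
    |B (T w) i| ≤ 2 * v := by
  set c := B w i / 2 with hc
  have hc1 : |c| ≤ 1 / 2 := by
    rw [hc, abs_div, abs_two]; have := (ev_le i w).trans h2; linarith
  have key : ∀ ε : ℝ, |ε| = 1 →
      |B (T ((1 / 2 : ℝ) • w + ((ε - c) / 100) • dl (some (Sum.inl i), 0))) i| ≤ v := by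
    intro ε hε
    have hε2 : ε * ε = 1 := by rw [← abs_mul_abs_self, hε, one_mul]
    have hB : ∀ j, B ((1 / 2 : ℝ) • w + ((ε - c) / 100) • dl (some (Sum.inl i), 0)) j =
        if j = i then ε else B w j / 2 := by
      intro j
      simp only [map_add, map_smul, BoundedContinuousFunction.add_apply,
        BoundedContinuousFunction.smul_apply, B_dl, af, smul_eq_mul]
      split_ifs with hj
      · rw [hj, hc]; ring
      · ring
    have := h ((1 / 2 : ℝ) • w + ((ε - c) / 100) • dl (some (Sum.inl i), 0)) (ε • ev i) ?_ ?_ ?_ ?_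
    · rwa [_root_.smul_apply, smul_eq_mul, abs_mul, hε, one_mul] at this
    · refine (norm_add_le _ _).trans ?_
      rw [norm_smul, norm_smul, norm_dl, Real.norm_eq_abs, Real.norm_eq_abs, abs_div (ε - c)]
      have := abs_sub ε c
      rw [abs_of_pos (by norm_num : (0 : ℝ) < 1 / 2), abs_of_pos (by norm_num : (0 : ℝ) < 100)]
      linarith
    · refine (norm_le zero_le_one).2 fun j => ?_
      rw [hB, Real.norm_eq_abs]
      split_ifs
      · exact hε.le
      · rw [abs_div, abs_two]; have := (ev_le j w).trans h2; linarith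
    · intro w'
      rw [_root_.smul_apply, smul_eq_mul, abs_mul, hε, one_mul]
      exact (ev_le i w').trans (le_max_right _ _)
    · rw [_root_.smul_apply, smul_eq_mul, ev_apply, hB, if_pos rfl, hε2]
  have k1 := abs_le.1 (key 1 abs_one)
  have k2 := abs_le.1 (key (-1) (by simp))
  simp only [map_add, map_smul, BoundedContinuousFunction.add_apply,
    BoundedContinuousFunction.smul_apply, smul_eq_mul] at k1 k2
  obtain ⟨c1, c2⟩ := abs_le.1 hc1
  rw [abs_le]
  constructor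
  · nlinarith [mul_nonneg (by linarith : 0 ≤ 1 + c) (sub_nonneg.2 k1.1),
      mul_nonneg (by linarith : 0 ≤ 1 - c) (sub_nonneg.2 k2.1)]
  · nlinarith [mul_nonneg (by linarith : 0 ≤ 1 + c) (sub_nonneg.2 k1.2),
      mul_nonneg (by linarith : 0 ≤ 1 - c) (sub_nonneg.2 k2.2)]

noncomputable def ph (s : G → ℝ) (hs : ∀ γ, ‖s γ‖ ≤ 1) : W →L[ℝ] ℝ := lift s 1 hs

@[simp] lemma ph_dl (s : G → ℝ) (hs : ∀ γ, ‖s γ‖ ≤ 1) (γ : G) : ph s hs (dl γ) = s γ :=
  lift_dl _ _ _ _

lemma ph_le (s : G → ℝ) (hs : ∀ γ, ‖s γ‖ ≤ 1) (w : W) : |ph s hs w| ≤ ‖w‖ := by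
  have := L1R.lift_le s 1 hs w
  rwa [one_mul] at this

lemma clm_le (ψ : W →L[ℝ] ℝ) (C : ℝ) (h : ∀ γ, |ψ (dl γ)| ≤ C) (w : W) : |ψ w| ≤ C * ‖w‖ := by
  have : ψ = lift (fun γ => ψ (dl γ)) C h := clm_ext fun γ => by rw [lift_dl]
  have h2 := L1R.lift_le (fun γ => ψ (dl γ)) C h w
  rwa [← this] at h2

lemma l1st (h : St T v) (w : W) {r : ℝ} (hr : 0 < r) (h1 : ‖w‖ ≤ r) (h2 : ‖B w‖ ≤ r)
    (s : G → ℝ) (hs : ∀ γ, ‖s γ‖ ≤ 1) (h3 : ph s hs w = r) : |ph s hs (T w)| ≤ v * r := by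
  have := h (r⁻¹ • w) (ph s hs) ?_ ?_ (fun w' => (ph_le s hs w').trans (le_max_left _ _)) ?_
  · rw [map_smul, map_smul, smul_eq_mul, abs_mul, abs_of_pos (inv_pos.2 hr),
      inv_mul_le_iff₀ hr] at this
    linarith
  · rw [norm_smul, Real.norm_eq_abs, abs_of_pos (inv_pos.2 hr), inv_mul_le_iff₀ hr]; linarith
  · rw [map_smul, norm_smul, Real.norm_eq_abs, abs_of_pos (inv_pos.2 hr), inv_mul_le_iff₀ hr]
    linarith
  · rw [map_smul, h3, smul_eq_mul, inv_mul_cancel₀ hr.ne']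

lemma two (h : St T v) (w : W) {r : ℝ} (hr : 0 < r) (h1 : ‖w‖ ≤ r) (h2 : ‖B w‖ ≤ r)
    (σ : G → ℝ) (hσ : ∀ γ, ‖σ γ‖ ≤ 1) (s : G → ℝ) (hs : ∀ γ, ‖s γ‖ ≤ 1)
    (hd : ∀ γ, σ γ = 0 ∨ s γ = 0) (h3 : ph σ hσ w = r) (h4 : ph s hs w = 0) :
    |ph σ hσ (T w)| + |ph s hs (T w)| ≤ v * r := by
  have key : ∀ ε : ℝ, |ε| = 1 → |ph σ hσ (T w) + ε * ph s hs (T w)| ≤ v * r := by
    intro ε hε
    have hb : ∀ γ, ‖σ γ + ε * s γ‖ ≤ 1 := fun γ => by
      rcases hd γ with h0 | h0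
      · rw [h0, zero_add, norm_mul, Real.norm_eq_abs ε, hε, one_mul]; exact hs γ
      · rw [h0, mul_zero, add_zero]; exact hσ γ
    have e : ph _ hb = ph σ hσ + ε • ph s hs := clm_ext fun γ => by
      rw [_root_.add_apply, _root_.smul_apply, ph_dl, ph_dl, ph_dl, smul_eq_mul]
    have := l1st h w hr h1 h2 _ hb (by
      rw [e, _root_.add_apply, _root_.smul_apply, h3, h4, smul_zero, add_zero])
    rwa [e, _root_.add_apply, _root_.smul_apply, smul_eq_mul] at this
  have k1 := abs_le.1 (key 1 abs_one)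
  have k2 := abs_le.1 (key (-1) (by simp))
  rcases abs_cases (ph σ hσ (T w)) with h5 | h5 <;> rcases abs_cases (ph s hs (T w)) with h6 | h6 <;>
    linarith [k1.1, k1.2, k2.1, k2.2, h5.1, h6.1]

open Classical in
lemma ind_le (γ δ : G) : ‖(if δ = γ then (1 : ℝ) else 0)‖ ≤ 1 := by split_ifs <;> simp

open Classical in
lemma ph_ind (γ : G) : ph (fun δ => if δ = γ then (1 : ℝ) else 0) (ind_le γ) = apL γ :=
  clm_ext fun δ => by
    rw [ph_dl, apL_apply, dl_ap]
    simp only [eq_comm]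
    congr

lemma tw1 (h : St T v) (g : G0) {l l' : Fin 3} (hne : l' ≠ l) (s : G → ℝ) (hs : ∀ γ, ‖s γ‖ ≤ 1)
    (h1 : s (g, l) = 0) (h2 : s (g, l') = 0) :
    |(T (dl (g, l') - dl (g, l))).ap (g, l') - (T (dl (g, l') - dl (g, l))).ap (g, l)| +
      |ph s hs (T (dl (g, l') - dl (g, l)))| ≤ v * 2 := by
  classical
  have hne' : ((g, l') : G) ≠ (g, l) := fun e => hne (congrArg Prod.snd e)
  have hb : ∀ δ : G, ‖(if δ = (g, l') then (1 : ℝ) else 0) - (if δ = (g, l) then 1 else 0)‖ ≤ 1 := by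
    intro δ; split_ifs <;> simp
  have e : ph _ hb = apL (g, l') - apL (g, l) := clm_ext fun δ => by
    rw [ph_dl, _root_.sub_apply, apL_apply, apL_apply, dl_ap, dl_ap]
    simp only [eq_comm]
  have := two h (dl (g, l') - dl (g, l)) (r := 2) two_pos
    ((norm_sub_le _ _).trans (by rw [norm_dl, norm_dl]; norm_num))
    (by rw [map_sub, B_dl_eq g l' l, sub_self, norm_zero]; norm_num) _ hb s hs
    (fun δ => by
      by_cases e1 : δ = (g, l')
      · right; rw [e1, h2]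
      by_cases e2 : δ = (g, l)
      · right; rw [e2, h1]
      · left; rw [if_neg e1, if_neg e2, sub_self])
    (by rw [map_sub, ph_dl, ph_dl, if_pos rfl, if_neg hne', if_neg hne'.symm, if_pos rfl]; norm_num)
    (by rw [map_sub, ph_dl, ph_dl, h1, h2, sub_self])
  rwa [e] at this

lemma tw2 (h : St T v) (g : G0) {l l' l'' : Fin 3} (hne : l' ≠ l) (h1 : l ≠ l'') (h2 : l' ≠ l'') :
    |(T (dl (g, l'))).ap (g, l') - (T (dl (g, l))).ap (g, l') -
      ((T (dl (g, l'))).ap (g, l) - (T (dl (g, l))).ap (g, l))| ≤ v * 2 ∧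
    |(T (dl (g, l'))).ap (g, l'') - (T (dl (g, l))).ap (g, l'')| ≤ v * 2 := by
  classical
  have := tw1 h g hne _ (ind_le (g, l''))
    (if_neg fun e => h1 (congrArg Prod.snd e)) (if_neg fun e => h2 (congrArg Prod.snd e))
  rw [ph_ind, apL_apply, map_sub, sub_ap, sub_ap, sub_ap] at this
  constructor
  · exact le_trans (le_add_of_nonneg_right (abs_nonneg _)) this
  · exact le_trans (le_add_of_nonneg_left (abs_nonneg _)) this

lemma tw3 (h : St T v) (g : G0) {l l' : Fin 3} (hne : l' ≠ l) :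
    |(T (dl (g, l') - dl (g, l))).ap (g, l')| ≤ 7 * v := by
  obtain ⟨c, h1, h2⟩ : ∃ c : Fin 3, l ≠ c ∧ l' ≠ c := by revert l l'; decide
  obtain ⟨a1, a2⟩ := tw2 h g hne h1 h2
  obtain ⟨b1, b2⟩ := tw2 h g h2 h1.symm hne
  obtain ⟨c1, c2⟩ := tw2 h g h1 h2.symm hne.symm
  rw [map_sub, sub_ap]
  rw [abs_le] at *
  constructor <;>
    linarith [a1.1, a1.2, a2.1, a2.2, b1.1, b1.2, b2.1, b2.2, c1.1, c1.2, c2.1, c2.2]

open Classical in
noncomputable def V (l : Fin 3) : W →L[ℝ] W :=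
  lift (fun γ : G => if γ.1 = none then 0 else dl (γ.1, l)) 1 fun γ => by split_ifs <;> simp

open Classical in
lemma V_dl (l : Fin 3) (γ : G) : V l (dl γ) = if γ.1 = none then 0 else dl (γ.1, l) :=
  lift_dl _ _ _ _

lemma ph_split (s : G → ℝ) (hs : ∀ γ, ‖s γ‖ ≤ 1) (γ : G) :
    ∃ (s' : G → ℝ) (hs' : ∀ γ, ‖s' γ‖ ≤ 1), s' γ = 0 ∧ (∀ δ, s δ = 0 → s' δ = 0) ∧
      ∀ y, |ph s hs y| ≤ |y.ap γ| + |ph s' hs' y| := by
  classical
  have hb : ∀ δ, ‖(if δ = γ then 0 else s δ)‖ ≤ 1 := fun δ => by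
    split_ifs
    · simp
    · exact hs δ
  refine ⟨_, hb, if_pos rfl, fun δ hδ => by simp [hδ], fun y => ?_⟩
  have e : ph s hs = s γ • apL γ + ph _ hb := clm_ext fun δ => by
    rw [_root_.add_apply, _root_.smul_apply, ph_dl, ph_dl, apL_apply, dl_ap]
    by_cases e : δ = γ
    · simp [e]
    · simp [e, Ne.symm e]
  rw [e, _root_.add_apply, _root_.smul_apply, apL_apply, smul_eq_mul]
  refine (abs_add_le _ _).trans (add_le_add ?_ le_rfl)
  rw [abs_mul]
  exact mul_le_of_le_one_left (abs_nonneg _) (hs γ)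

lemma diffb (h : St T v) (hv : 0 ≤ v) (l : Fin 3) (s : G → ℝ) (hs : ∀ γ, ‖s γ‖ ≤ 1)
    (h0 : ∀ g, s (g, l) = 0) (γ : G) : |ph s hs (T (dl γ - V l (dl γ)))| ≤ 9 * v := by
  classical
  obtain ⟨s', hs', e1, e2, e3⟩ := ph_split s hs γ
  obtain ⟨g, l'⟩ := γ
  rw [V_dl]
  refine (e3 _).trans ?_
  split_ifs with hg
  · obtain rfl : g = none := hg
    have := two h (dl (none, l')) one_pos (by simp) (by rw [B_none]; simp) _ (ind_le (none, l'))
      s' hs' (fun δ => by
        by_cases e : δ = (none, l')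
        · right; rw [e, e1]
        · left; exact if_neg e) (by rw [ph_dl, if_pos rfl]) (by rw [ph_dl, e1])
    rw [ph_ind, apL_apply] at this
    rw [sub_zero]; linarith
  by_cases hl : l' = l
  · subst hl
    simp only [sub_self, map_zero, zero_ap, abs_zero]; linarith
  · have a1 := tw3 h g hl
    have a2 := tw1 h g hl s' hs' (e2 _ (h0 g)) e1
    have := abs_nonneg ((T (dl (g, l') - dl (g, l))).ap (g, l') - (T (dl (g, l') - dl (g, l))).ap (g, l))
    dsimp only
    linarith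

lemma sgn_le (y : W) (γ : G) : ‖Real.sign (y.ap γ)‖ ≤ 1 := by
  rcases Real.sign_apply_eq (y.ap γ) with h | h | h <;> simp [h]

lemma ph_sgn (y : W) : ph (fun γ => Real.sign (y.ap γ)) (sgn_le y) y = ‖y‖ := by
  have h1 := (hasSum_dl y).mapL (ph (fun γ => Real.sign (y.ap γ)) (sgn_le y))
  refine h1.unique ?_
  convert hasSum_norm y using 2 with γ
  rw [map_smul, ph_dl, smul_eq_mul, Real.norm_eq_abs]
  rcases lt_trichotomy (y.ap γ) 0 with h | h | h
  · rw [Real.sign_of_neg h, abs_of_neg h]; ring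
  · simp [h]
  · rw [Real.sign_of_pos h, abs_of_pos h]; ring

lemma offb (h : St T v) (hv : 0 ≤ v) (l : Fin 3) (s : G → ℝ) (hs : ∀ γ, ‖s γ‖ ≤ 1)
    (h0 : ∀ g, s (g, l) = 0) (w : W) (h1 : ‖w‖ ≤ 1) (h2 : ‖B w‖ ≤ 1) :
    |ph s hs (T w)| ≤ 10 * v := by
  classical
  have d1 : |ph s hs (T (w - V l w))| ≤ 9 * v := by
    have := clm_le ((ph s hs).comp (T.comp (ContinuousLinearMap.id ℝ W - V l))) (9 * v)
      (fun γ => diffb h hv l s hs h0 γ) w
    exact this.trans (mul_le_of_le_one_right (by linarith) h1)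
  have hV : ‖V l w‖ ≤ 1 := (L1R.lift_le _ _ _ w).trans (by linarith)
  have hBV : B (V l w) = B w := by
    have : B.comp (V l) = B := clm_ext fun γ => by
      rw [ContinuousLinearMap.comp_apply, V_dl]
      obtain ⟨g, l'⟩ := γ
      split_ifs with hg
      · obtain rfl : g = none := hg
        rw [map_zero, B_none]
      · exact B_dl_eq _ _ _
    exact congrArg (fun A : W →L[ℝ] Z => A w) this
  have hz : ∀ δ : G, δ.1 = none ∨ δ.2 ≠ l → (V l w).ap δ = 0 := by
    intro δ hδ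
    have : (apL δ).comp (V l) = 0 := clm_ext fun γ => by
      rw [ContinuousLinearMap.comp_apply, V_dl, _root_.zero_apply]
      split_ifs with hg
      · rfl
      · rw [apL_apply, dl_ap, if_neg]
        rintro rfl
        exact hδ.elim hg fun e => e rfl
    exact congrArg (fun A : W →L[ℝ] ℝ => A w) this
  have hsV : ph s hs (V l w) = 0 := by
    have : (ph s hs).comp (V l) = 0 := clm_ext fun γ => by
      rw [ContinuousLinearMap.comp_apply, V_dl, _root_.zero_apply]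
      split_ifs with hg
      · exact map_zero _
      · rw [ph_dl, h0]
    exact congrArg (fun A : W →L[ℝ] ℝ => A w) this
  have key : ∀ ε : ℝ, |ε| = 1 →
      |ph s hs (T (V l w + (ε * (1 - ‖V l w‖)) • dl (none, l)))| ≤ v := by
    intro ε hε
    have hε2 : ε * ε = 1 := by rw [← abs_mul_abs_self, hε, one_mul]
    have hb : ∀ δ : G, ‖Real.sign ((V l w).ap δ) + ε * (if δ = (none, l) then 1 else 0)‖ ≤ 1 := by
      intro δ
      split_ifs with e
      · rw [hz δ (Or.inl (by rw [e])), Real.sign_zero, zero_add, mul_one]; exact hε.le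
      · rw [mul_zero, add_zero]; exact sgn_le _ _
    have e : ph _ hb = ph _ (sgn_le (V l w)) + ε • apL (none, l) := clm_ext fun δ => by
      rw [_root_.add_apply, _root_.smul_apply, ph_dl, ph_dl, apL_apply, dl_ap, smul_eq_mul]
      simp only [eq_comm]
    have := two h (V l w + (ε * (1 - ‖V l w‖)) • dl (none, l)) one_pos
      ((norm_add_le _ _).trans (by
        rw [norm_smul, norm_dl, Real.norm_eq_abs, abs_mul, hε, abs_of_nonneg (by linarith)]
        linarith))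
      (by rw [map_add, map_smul, B_none, smul_zero, add_zero, hBV]; exact h2) _ hb s hs
      (fun δ => by
        by_cases e1 : δ.2 = l
        · right; rw [← h0 δ.1, ← e1]
        · left
          rw [hz δ (Or.inr e1), Real.sign_zero, if_neg (fun e => e1 (by rw [e])), mul_zero, add_zero])
      (by
        rw [map_add, map_smul, ph_dl, if_pos rfl, hz (none, l) (Or.inl rfl), Real.sign_zero, e,
          _root_.add_apply, _root_.smul_apply, ph_sgn, apL_apply, hz (none, l) (Or.inl rfl)]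
        simp only [smul_eq_mul]
        linear_combination (1 - ‖V l w‖) * hε2)
      (by rw [map_add, map_smul, hsV, ph_dl, h0, smul_zero, add_zero])
    linarith [abs_nonneg (ph _ hb (T (V l w + (ε * (1 - ‖V l w‖)) • dl (none, l))))]
  have k1 := abs_le.1 (key 1 abs_one)
  have k2 := abs_le.1 (key (-1) (by simp))
  simp only [map_add, map_smul, map_sub, smul_eq_mul] at k1 k2 d1
  rw [abs_le] at d1 ⊢
  constructor <;> linarith [k1.1, k1.2, k2.1, k2.2, d1.1, d1.2]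

lemma l1b (h : St T v) (hv : 0 ≤ v) (w : W) (h1 : ‖w‖ ≤ 1) (h2 : ‖B w‖ ≤ 1) :
    ‖T w‖ ≤ 20 * v := by
  have b0 : ∀ γ : G, ‖(if γ.2 = 0 then 0 else Real.sign ((T w).ap γ))‖ ≤ 1 := fun γ => by
    split_ifs
    · simp
    · exact sgn_le _ _
  have b1 : ∀ γ : G, ‖(if γ.2 = 0 then Real.sign ((T w).ap γ) else 0)‖ ≤ 1 := fun γ => by
    split_ifs
    · exact sgn_le _ _
    · simp
  have e : ph _ (sgn_le (T w)) = ph _ b0 + ph _ b1 := clm_ext fun γ => by
    rw [_root_.add_apply, ph_dl, ph_dl, ph_dl]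
    split_ifs <;> simp
  have a0 := offb h hv 0 _ b0 (fun g => if_pos rfl) w h1 h2
  have a1 := offb h hv 1 _ b1 (fun g => if_neg (by simp)) w h1 h2
  rw [← ph_sgn (T w), e, _root_.add_apply]
  linarith [le_abs_self (ph _ b0 (T w)), le_abs_self (ph _ b1 (T w))]

end Pool.Agent.H87.DualIdx
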