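import Pool.Agent.H87.DualIdx1

namespace Pool.Agent.H87.DualIdx

open Filter Topology Set Pool.Agent.H87.L1R BoundedContinuousFunction

set_option maxSynthPendingDepth 3

def X : Type := ↥(LinearMap.graph (B : W →ₗ[ℝ] Z))

noncomputable instance : NormedAddCommGroup X :=
  inferInstanceAs (NormedAddCommGroup ↥(LinearMap.graph (B : W →ₗ[ℝ] Z)))
noncomputable instance : NormedSpace ℝ X :=
  inferInstanceAs (NormedSpace ℝ ↥(LinearMap.graph (B : W →ₗ[ℝ] Z)))

instance : CompleteSpace X := by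
  have : IsClosed (LinearMap.graph (B : W →ₗ[ℝ] Z) : Set (W × Z)) :=
    isClosed_eq continuous_snd (B.continuous.comp continuous_fst)
  exact this.completeSpace_coe

def X.v (x : X) : W × Z := x.1

noncomputable def ι : W →L[ℝ] X :=
  LinearMap.mkContinuous
    { toFun := fun w => (⟨(w, B w), rfl⟩ : ↥(LinearMap.graph (B : W →ₗ[ℝ] Z)))
      map_add' := fun w w' => Subtype.ext (Prod.ext rfl (map_add B w w'))
      map_smul' := fun t w => Subtype.ext (Prod.ext rfl (map_smul B t w)) } (1 + ‖B‖)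
    fun w => by
      show max ‖w‖ ‖B w‖ ≤ _
      have := B.le_opNorm w
      have := norm_nonneg w
      have := mul_nonneg (norm_nonneg B) (norm_nonneg w)
      exact max_le (by linarith) (by linarith)

noncomputable def π : X →L[ℝ] W :=
  LinearMap.mkContinuous
    { toFun := fun x => x.v.1, map_add' := fun _ _ => rfl, map_smul' := fun _ _ => rfl } 1
    fun x => by rw [one_mul]; exact le_max_left _ _

lemma norm_ι (w : W) : ‖ι w‖ = max ‖w‖ ‖B w‖ := rfl
@[simp] lemma π_ι (w : W) : π (ι w) = w := rfl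
@[simp] lemma ι_π (x : X) : ι (π x) = x := Subtype.ext (Prod.ext rfl x.2.symm)
lemma norm_X (x : X) : ‖x‖ = max ‖π x‖ ‖B (π x)‖ := by rw [← norm_ι, ι_π]
lemma ι_le {w : W} {c : ℝ} (h1 : ‖w‖ ≤ c) (h2 : ‖B w‖ ≤ c) : ‖ι w‖ ≤ c := max_le h1 h2
lemma π_le (x : X) : ‖π x‖ ≤ ‖x‖ := by rw [norm_X]; exact le_max_left _ _
lemma Bπ_le (x : X) : ‖B (π x)‖ ≤ ‖x‖ := by rw [norm_X]; exact le_max_right _ _

theorem rnpX (f : ℝ → X) (K : NNReal) (hf : LipschitzWith K f) :
    ∀ᵐ t ∂(MeasureTheory.volume : MeasureTheory.Measure ℝ), DifferentiableAt ℝ f t := by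
  filter_upwards [rnp (fun t => π (f t)) (‖π‖₊ * K) (by exact π.lipschitz.comp hf)] with t ht
  have : f = fun t => ι (π (f t)) := funext fun t => (ι_π _).symm
  rw [this]
  exact ι.differentiableAt.comp t ht

theorem lower (T : X →L[ℝ] X) (hT : ‖T‖ = 1) :
    ∃ (x : X) (f : X →L[ℝ] ℝ), ‖x‖ = 1 ∧ ‖f‖ = 1 ∧ f x = 1 ∧ 1 / 25 ≤ ‖f (T x)‖ := by
  by_contra hc
  push Not at hc
  have h : St (π.comp (T.comp ι)) (1 / 25) := by
    intro w φ h1 h2 h3 h4
    have a1 : ‖ι w‖ ≤ 1 := max_le h1 h2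
    have a2 : ‖φ.comp π‖ ≤ 1 := ContinuousLinearMap.opNorm_le_bound _ zero_le_one fun x => by
      rw [one_mul, norm_X]; exact h3 _
    have a3 : φ.comp π (ι w) = 1 := h4
    have a4 := (φ.comp π).le_opNorm (ι w)
    rw [a3, norm_one] at a4
    have := norm_nonneg (ι w)
    have := norm_nonneg (φ.comp π)
    exact (hc (ι w) (φ.comp π) (by nlinarith) (by nlinarith) a3).le
  have : ‖T‖ ≤ 4 / 5 := by
    refine ContinuousLinearMap.opNorm_le_of_unit_norm (by norm_num) fun x hx => ?_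
    have b1 := l1b h (by norm_num) (π x) (hx ▸ π_le x) (hx ▸ Bπ_le x)
    have b2 := supb h (π x) (hx ▸ π_le x) (hx ▸ Bπ_le x)
    simp only [ContinuousLinearMap.comp_apply, ι_π] at b1 b2
    rw [norm_X]
    exact max_le (by linarith) ((norm_le (by norm_num)).2 fun i => (b2 i).trans (by norm_num))
  linarith

def cq : G0 → ℂ
  | some (Sum.inr p) => cb p.2
  | _ => 0

lemma cq_le (g : G0) : ‖cq g‖ ≤ 1 := by
  rcases g with _ | i | p
  · simp [cq]
  · simp [cq]
  · exact (norm_cb _).le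

noncomputable def q : W →L[ℝ] ℂ :=
  lift (fun γ : G => (100 : ℝ) • cq γ.1) 100 fun γ => by
    rw [norm_smul]; have := cq_le γ.1; simp only [Real.norm_ofNat]; linarith

lemma q_dl (γ : G) : q (dl γ) = (100 : ℝ) • cq γ.1 := lift_dl _ _ _ _

lemma approx (w : W) {ε : ℝ} (hε : 0 < ε) :
    ∀ᶠ k in atTop, ∀ j, |B w (k, j) - (u j * q w).re| ≤ ε := by
  set ψ : ℕ → ℕ → W →L[ℝ] ℝ := fun k j =>
    ev (k, j) - Complex.reCLM.comp ((ContinuousLinearMap.mul ℝ ℂ (u j)).comp q) with hψ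
  have e : ∀ k j w, ψ k j w = B w (k, j) - (u j * q w).re := fun _ _ _ => rfl
  have e2 : ∀ k j γ, ψ k j (dl γ) = 100 * (af γ.1 (k, j) - (u j * cq γ.1).re) := fun k j γ => by
    rw [e, B_dl, q_dl, mul_smul_comm, Complex.smul_re, smul_eq_mul]; ring
  have h1 : ∀ k j γ, |ψ k j (dl γ)| ≤ 200 := fun k j γ => by
    rw [e2, abs_mul, abs_of_pos (by norm_num : (0 : ℝ) < 100)]
    have := abs_sub (af γ.1 (k, j)) (u j * cq γ.1).re
    have a1 : |af γ.1 (k, j)| ≤ 1 := af_le _ _
    have a2 := (re_le j (cq γ.1)).trans (cq_le _)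
    linarith
  have h2 : ∀ γ, ∀ᶠ k in atTop, ∀ j, ψ k j (dl γ) = 0 := by
    rintro ⟨_ | i | p, l⟩
    · exact Eventually.of_forall fun k j => by simp [e2, af, cq]
    · filter_upwards [eventually_gt_atTop i.1] with k hk j
      have : (k, j) ≠ i := fun e => by simp [← e] at hk
      simp [e2, af, cq, this]
    · filter_upwards [eventually_ge_atTop p.1] with k hk j
      simp [e2, af, cq, hk]
  obtain ⟨s, hs⟩ := (Metric.tendsto_nhds.1 (hasSum_dl w) (ε / 200) (by linarith)).exists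
  filter_upwards [(eventually_all_finset s).2 fun γ _ => h2 γ] with k hk j
  have h3 : ψ k j (∑ γ ∈ s, w.ap γ • dl γ) = 0 := by
    rw [map_sum]
    exact Finset.sum_eq_zero fun γ hγ => by rw [map_smul, hk γ hγ, smul_zero]
  have h4 := clm_le (ψ k j) 200 (h1 k j) (w - ∑ γ ∈ s, w.ap γ • dl γ)
  rw [map_sub, h3, sub_zero, e] at h4
  rw [dist_comm, dist_eq_norm] at hs
  linarith

lemma q_le (w : W) : ‖q w‖ ≤ ‖B w‖ := by
  refine le_of_forall_pos_le_add fun ε hε => ?_
  obtain ⟨k, hk⟩ := (approx w hε).exists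
  refine norm_le_of_u _ _ fun j => ?_
  have := abs_le.1 (hk j)
  have := abs_le.1 (ev_le (k, j) w)
  linarith

noncomputable def tb (n : ℕ) (b : Bool) : W := (1 / 100 : ℝ) • dl (some (Sum.inr (n, b)), 0)
noncomputable def tl (n : ℕ) (y : ℂ) : W := y.re • tb n false + y.im • tb n true

lemma norm_tb (n : ℕ) (b : Bool) : ‖tb n b‖ = 1 / 100 := by
  rw [tb, norm_smul, norm_dl]; norm_num

lemma B_tb (n : ℕ) (b : Bool) (i : I) :
    B (tb n b) i = if n ≤ i.1 then (u i.2 * cb b).re else 0 := by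
  rw [tb, map_smul, BoundedContinuousFunction.smul_apply, B_dl, smul_eq_mul, af]
  ring

lemma tb_le (n : ℕ) (b : Bool) : ‖ι (tb n b)‖ ≤ 1 :=
  ι_le (by rw [norm_tb]; norm_num) ((norm_le zero_le_one).2 fun i => by
    rw [B_tb]; split_ifs
    · exact (re_le _ _).trans (norm_cb _).le
    · simp)

lemma B_tl (n : ℕ) (y : ℂ) (i : I) : B (tl n y) i = if n ≤ i.1 then (u i.2 * y).re else 0 := by
  simp only [tl, map_add, map_smul, BoundedContinuousFunction.add_apply,
    BoundedContinuousFunction.smul_apply, B_tb, smul_eq_mul]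
  split_ifs
  · simp [cb]; ring
  · simp

lemma q_tl (n : ℕ) (y : ℂ) : q (tl n y) = y := by
  simp only [tl, tb, map_add, map_smul, q_dl, cq, cb, smul_smul]
  apply Complex.ext <;> simp

lemma tl_le (n : ℕ) (y : ℂ) : ‖tl n y‖ ≤ ‖y‖ / 50 := by
  refine (norm_add_le _ _).trans ?_
  rw [norm_smul, norm_smul, norm_tb, norm_tb, Real.norm_eq_abs, Real.norm_eq_abs]
  have := Complex.abs_re_le_norm y
  have := Complex.abs_im_le_norm y
  linarith

lemma ulim {E : Type} [NormedAddCommGroup E] [NormedSpace ℝ E] (U : Ultrafilter ℕ)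
    (α : ℕ → E →L[ℝ] ℝ) (h : ∀ k, ‖α k‖ ≤ 1) :
    ∃ y : E →L[ℝ] ℝ, ∀ w, Tendsto (fun k => α k w) U (𝓝 (y w)) := by
  obtain ⟨y, -, h1⟩ := (WeakDual.isCompact_closedBall (𝕜 := ℝ) (E := E) 0 1).ultrafilter_le_nhds
    (U.map fun k => StrongDual.toWeakDual (α k)) (by
      rw [Ultrafilter.coe_map, le_principal_iff, mem_map]
      exact Eventually.of_forall fun k => mem_closedBall_zero_iff.2 (h k))
  exact ⟨WeakDual.toStrongDual y, fun w => ((WeakDual.eval_continuous w).tendsto y).comp h1⟩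

lemma exists_S : ∃ S : (X →L[ℝ] ℝ) →L[ℝ] (X →L[ℝ] ℝ), ∀ f x,
    Tendsto (fun n => f (ι (tl n (Complex.I * q (π x))))) (hyperfilter ℕ) (𝓝 (S f x)) := by
  have h : ∀ b, ∃ F : (X →L[ℝ] ℝ) →L[ℝ] ℝ, ∀ f : X →L[ℝ] ℝ,
      Tendsto (fun n => f (ι (tb n b))) (hyperfilter ℕ) (𝓝 (F f)) := fun b =>
    ulim (hyperfilter ℕ) (fun n => NormedSpace.inclusionInDoubleDual ℝ X (ι (tb n b)))
      fun n => (NormedSpace.double_dual_bound ℝ X _).trans (tb_le n b)
  choose F hF using h
  set r : X →L[ℝ] ℂ := (ContinuousLinearMap.mul ℝ ℂ Complex.I).comp (q.comp π) with hr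
  refine ⟨(F false).smulRight (Complex.reCLM.comp r) + (F true).smulRight (Complex.imCLM.comp r),
    fun f x => ?_⟩
  have := ((hF false f).mul_const (r x).re).add ((hF true f).mul_const (r x).im)
  convert this using 2 with n
  · simp only [tl, map_add, map_smul, smul_eq_mul]
    exact congrArg₂ (· + ·) (mul_comm _ _) (mul_comm _ _)
  · rfl

lemma rot {S : (X →L[ℝ] ℝ) →L[ℝ] (X →L[ℝ] ℝ)} (hS : ∀ f x,
    Tendsto (fun n => f (ι (tl n (Complex.I * q (π x))))) (hyperfilter ℕ) (𝓝 (S f x)))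
    (f : X →L[ℝ] ℝ) (t : ℝ) (ht : |t| = 1 / 25) : ‖f + t • S f‖ ≤ (1 + 1 / 1250) * ‖f‖ := by
  refine ContinuousLinearMap.opNorm_le_of_unit_norm (by positivity) fun x hx => ?_
  have hq : ‖q (π x)‖ ≤ 1 := (q_le _).trans (hx ▸ Bπ_le x)
  have h1 : Tendsto (fun n => ‖f (ι (π x + t • tl n (Complex.I * q (π x))))‖) (hyperfilter ℕ)
      (𝓝 ‖(f + t • S f) x‖) := by
    have := (((hS f x).const_mul t).const_add (f x)).norm
    simpa only [map_add, map_smul, ι_π, smul_eq_mul, _root_.add_apply, _root_.smul_apply] using this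
  have h2 : ∀ ε > 0, ‖(f + t • S f) x‖ ≤ ‖f‖ * (1 + 1 / 1250 + ε) := by
    intro ε hε
    refine le_of_tendsto h1 (Nat.hyperfilter_le_atTop ?_)
    obtain ⟨n0, hn0⟩ := eventually_atTop.1 (approx (π x) hε)
    filter_upwards [eventually_ge_atTop n0] with n hn
    refine (f.le_opNorm _).trans (mul_le_mul_of_nonneg_left (ι_le ?_ ?_) (norm_nonneg _))
    · refine (norm_add_le _ _).trans ?_
      have a1 := tl_le n (Complex.I * q (π x))
      rw [norm_mul, Complex.norm_I, one_mul] at a1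
      have a2 : ‖π x‖ ≤ 1 := hx ▸ π_le x
      rw [norm_smul, Real.norm_eq_abs, ht]
      linarith
    · refine (norm_le (by positivity)).2 fun i => ?_
      rw [map_add, map_smul, BoundedContinuousFunction.add_apply,
        BoundedContinuousFunction.smul_apply, B_tl, smul_eq_mul, Real.norm_eq_abs]
      split_ifs with hi
      · have a1 := hn0 i.1 (hn.trans hi) i.2
        have a2 := re_le i.2 ((1 + t * Complex.I) * q (π x))
        have a3 : ‖1 + t * Complex.I‖ ≤ 1 + 1 / 1250 := by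
          have : t ^ 2 = (1 / 25) ^ 2 := by rw [← sq_abs, ht]
          rw [Complex.norm_eq_sqrt_sq_add_sq, Real.sqrt_le_iff]
          simp only [Complex.add_re, Complex.one_re, Complex.mul_re, Complex.ofReal_re,
            Complex.I_re, Complex.ofReal_im, Complex.I_im, Complex.add_im, Complex.one_im,
            Complex.mul_im]
          constructor
          · norm_num
          · nlinarith
        have a4 : ‖(1 + t * Complex.I) * q (π x)‖ ≤ 1 + 1 / 1250 := by
          rw [norm_mul]; exact (mul_le_of_le_one_right (norm_nonneg _) hq).trans a3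
        have e : B (π x) i + t * (u i.2 * (Complex.I * q (π x))).re =
            (B (π x) (i.1, i.2) - (u i.2 * q (π x)).re) +
              (u i.2 * ((1 + t * Complex.I) * q (π x))).re := by
          simp; ring
        rw [e]
        exact (abs_add_le _ _).trans (by linarith)
      · have := (ev_le i (π x)).trans (Bπ_le x)
        rw [mul_zero, add_zero]; linarith
  refine le_of_forall_pos_le_add fun ε hε => ?_
  have := h2 (ε / (‖f‖ + 1)) (by positivity)
  have a1 : ‖f‖ * (ε / (‖f‖ + 1)) ≤ ε := by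
    rw [← mul_div_assoc, div_le_iff₀ (by positivity)]; nlinarith
  linarith

theorem upper : ∃ S : (X →L[ℝ] ℝ) →L[ℝ] (X →L[ℝ] ℝ), ‖S‖ = 1 ∧
    ∀ (f : X →L[ℝ] ℝ) (F : (X →L[ℝ] ℝ) →L[ℝ] ℝ), ‖f‖ = 1 → ‖F‖ = 1 → F f = 1 →
      ‖F (S f)‖ ≤ 1 / 50 := by
  obtain ⟨S, hS⟩ := exists_S
  have h1 : 1 ≤ ‖S‖ := by
    set f0 : X →L[ℝ] ℝ := Complex.reCLM.comp (q.comp π) with hf0
    have a1 : ‖f0‖ ≤ 1 := ContinuousLinearMap.opNorm_le_bound _ zero_le_one fun x => by
      rw [one_mul]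
      exact (Complex.abs_re_le_norm _).trans ((q_le _).trans (Bπ_le x))
    have a2 : ‖ι (tl 0 (-Complex.I))‖ ≤ 1 :=
      ι_le ((tl_le _ _).trans (by simp; norm_num)) ((norm_le zero_le_one).2 fun i => by
        rw [B_tl, if_pos (Nat.zero_le _)]
        exact (re_le _ _).trans (by simp))
    have a3 : S f0 (ι (tl 0 (-Complex.I))) = 1 := by
      refine tendsto_nhds_unique (hS _ _) ?_
      simp [hf0, q_tl]
    have a4 := (S f0).le_opNorm (ι (tl 0 (-Complex.I)))
    have a5 := S.le_opNorm f0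
    rw [a3, norm_one] at a4
    have := norm_nonneg S
    have := norm_nonneg (S f0)
    nlinarith
  refine ⟨‖S‖⁻¹ • S, by rw [norm_smul, norm_inv, norm_norm, inv_mul_cancel₀ (by linarith)],
    fun f F hf hF h => ?_⟩
  have key : ∀ t : ℝ, |t| = 1 / 25 → 1 + t * F (S f) ≤ 1 + 1 / 1250 := fun t ht => by
    have a1 := rot hS f t ht
    have a2 := F.le_opNorm (f + t • S f)
    rw [map_add, map_smul, h, hF, smul_eq_mul, Real.norm_eq_abs] at a2
    rw [hf] at a1
    linarith [le_abs_self (1 + t * F (S f))]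
  have k1 := key (1 / 25) (abs_of_pos (by norm_num))
  have k2 := key (-(1 / 25)) (by rw [abs_neg]; exact abs_of_pos (by norm_num))
  have k3 : |F (S f)| ≤ 1 / 50 := abs_le.2 ⟨by linarith, by linarith⟩
  rw [_root_.smul_apply, map_smul, norm_smul, norm_inv, norm_norm, Real.norm_eq_abs]
  exact (mul_le_of_le_one_left (abs_nonneg _) (inv_le_one_of_one_le₀ h1)).trans k3

end Pool.Agent.H87.DualIdx
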