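import Pool.Agent.H87.DualIdx2

namespace Pool.Agent.H87.DualIdx

open Filter Topology Set Pool.Agent.H87.L1R BoundedContinuousFunction

set_option maxSynthPendingDepth 3

section
variable {E : Type} [NormedAddCommGroup E] [NormedSpace ℝ E]

/-- a point of the ball lying near all of some thin slices -/
def Expo (k : E) : Prop := ‖k‖ ≤ 1 ∧ ∀ ε > 0, ∃ f : E →L[ℝ] ℝ, ∃ α > 0,
  ∀ x, ‖x‖ ≤ 1 → ‖f‖ - α < f x → ‖x - k‖ ≤ ε

lemma near {F : Type} [NormedAddCommGroup F] [NormedSpace ℝ F] (φ : F →L[ℝ] ℝ) {η : ℝ}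
    (hη : 0 < η) : ∃ z, ‖z‖ ≤ 1 ∧ ‖φ‖ - η < φ z := by
  obtain ⟨z, h1, h2⟩ := φ.exists_lt_apply_of_lt_opNorm (r := ‖φ‖ - η) (by linarith)
  rcases abs_cases (φ z) with h | h
  · exact ⟨z, h1.le, by rwa [Real.norm_eq_abs, h.1] at h2⟩
  · exact ⟨-z, by simpa using h1.le, by rwa [map_neg, ← h.1]⟩

theorem upred [CompleteSpace E]
    (hP : ∀ M : Submodule ℝ E, IsClosed (M : Set E) → (∀ k, Expo k → k ∈ M) → ∀ x, x ∈ M)
    (F : Type) [NormedAddCommGroup F] [NormedSpace ℝ F] [CompleteSpace F]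
    (Φ : (F →L[ℝ] ℝ) ≃ₗᵢ[ℝ] (E →L[ℝ] ℝ)) : Nonempty (F ≃ₗᵢ[ℝ] E) := by
  set J := NormedSpace.inclusionInDoubleDualLi ℝ (E := E) with hJ
  set Ψ : ((F →L[ℝ] ℝ) →L[ℝ] ℝ) →L[ℝ] ((E →L[ℝ] ℝ) →L[ℝ] ℝ) :=
    (ContinuousLinearMap.compL ℝ _ _ ℝ).flip Φ.symm.toLinearIsometry.toContinuousLinearMap with hΨ
  set j : F →ₗᵢ[ℝ] ((E →L[ℝ] ℝ) →L[ℝ] ℝ) :=
    { toLinearMap := (Ψ.comp (NormedSpace.inclusionInDoubleDual ℝ F)).toLinearMap
      norm_map' := fun z => by
        have := ContinuousLinearMap.opNorm_comp_linearIsometryEquiv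
          (NormedSpace.inclusionInDoubleDual ℝ F z) Φ.symm
        exact this.trans ((NormedSpace.inclusionInDoubleDualLi ℝ (E := F)).norm_map z) } with hj
  have ej : ∀ z h, j z h = Φ.symm h z := fun _ _ => rfl
  have eJ : ∀ x h, J x h = h x := fun _ _ => rfl
  have hcl : IsClosed (range j) := j.isometry.isClosedEmbedding.isClosed_range
  have hall := hP ((LinearMap.range j.toLinearMap).comap J.toLinearMap)
    (hcl.preimage J.continuous) (by
      rintro k ⟨hk1, hk⟩
      show J k ∈ range j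
      rw [← hcl.closure_eq, Metric.mem_closure_iff]
      intro ε hε
      obtain ⟨f, α, hα, hf⟩ := hk (ε / 3) (by linarith)
      obtain ⟨z, hz1, hz2⟩ := near (Φ.symm f) (η := α / 2 * (ε / 3)) (by positivity)
      rw [Φ.symm.norm_map] at hz2
      have key : ∀ h : E →L[ℝ] ℝ, ‖h‖ ≤ 1 → j z h - h k ≤ 2 * (ε / 3) := by
        intro h hh
        have hb : ∀ x, |h x| ≤ ‖x‖ := fun x =>
          (h.le_opNorm x).trans (mul_le_of_le_one_left (norm_nonneg _) hh)
        have a1 : ‖f + (α / 2) • h‖ ≤ ‖f‖ + α / 2 * h k + α / 2 * (ε / 3) := by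
          refine le_of_forall_pos_le_add fun η hη => ?_
          obtain ⟨x, hx1, hx2⟩ := near (f + (α / 2) • h) hη
          rw [_root_.add_apply, _root_.smul_apply, smul_eq_mul] at hx2
          have b1 : f x ≤ ‖f‖ := (le_abs_self _).trans
            ((f.le_opNorm x).trans (mul_le_of_le_one_right (norm_nonneg _) hx1))
          by_cases hx : ‖f‖ - α < f x
          · have b2 := (abs_le.1 ((hb (x - k)).trans (hf x hx1 hx))).2
            rw [map_sub] at b2
            nlinarith
          · have b2 := (abs_le.1 ((hb x).trans hx1)).2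
            have b3 := (abs_le.1 ((hb k).trans hk1)).1
            nlinarith
        have a2 : Φ.symm (f + (α / 2) • h) z ≤ ‖f + (α / 2) • h‖ := by
          rw [← Φ.symm.norm_map]
          exact (le_abs_self _).trans (((Φ.symm _).le_opNorm z).trans
            (mul_le_of_le_one_right (norm_nonneg _) hz1))
        rw [map_add, map_smul, _root_.add_apply, _root_.smul_apply, smul_eq_mul] at a2
        rw [ej]
        nlinarith
      refine ⟨j z, ⟨z, rfl⟩, lt_of_le_of_lt ?_ (by linarith : 2 * (ε / 3) < ε)⟩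
      rw [dist_comm, dist_eq_norm]
      refine ContinuousLinearMap.opNorm_le_of_unit_norm (by linarith) fun h hh => ?_
      have k1 := key h hh.le
      have k2 := key (-h) (by rw [norm_neg]; exact hh.le)
      rw [map_neg, _root_.neg_apply] at k2
      rw [_root_.sub_apply, eJ, Real.norm_eq_abs, abs_le]
      constructor <;> linarith)
  choose g hg using fun x => (show ∃ z, j z = J x from hall x)
  set U : E →ₗᵢ[ℝ] F :=
    { toFun := g
      map_add' := fun x y => j.injective (by rw [map_add, hg, hg, hg, map_add])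
      map_smul' := fun t x => j.injective (by rw [map_smul, hg, hg, map_smul]; rfl)
      norm_map' := fun x => by
        show ‖g x‖ = ‖x‖
        rw [← j.norm_map, hg, J.norm_map] } with hU
  have hsurj : Function.Surjective U := by
    intro z
    by_contra hz
    have hc : IsClosed (range U) := U.isometry.isClosedEmbedding.isClosed_range
    obtain ⟨ψ, c, h1, h2⟩ := geometric_hahn_banach_closed_point
      (LinearMap.range U.toLinearMap).convex hc hz
    have h0 : ∀ x, ψ (U x) = 0 := fun x => by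
      by_contra hne
      have := h1 (U (((|c| + 1) / ψ (U x)) • x)) ⟨_, rfl⟩
      rw [map_smul, map_smul, smul_eq_mul, div_mul_cancel₀ _ hne] at this
      linarith [le_abs_self c]
    have h3 : Φ ψ = 0 := by
      ext x
      have := ej (g x) (Φ ψ)
      rw [hg, eJ, Φ.symm_apply_apply] at this
      rw [this]; exact h0 x
    have h4 : ψ = 0 := Φ.injective (by rw [h3, map_zero])
    have := h1 0 (Submodule.zero_mem _)
    rw [h4] at this h2
    exact lt_asymm this h2
  exact ⟨(LinearIsometryEquiv.ofSurjective U hsurj).symm⟩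

end

lemma B_le (w : W) : ‖B w‖ ≤ 100 * ‖w‖ := L1R.lift_le _ _ _ w

lemma expo (l : Fin 3) (γ : G) (hγ : γ.1 ≠ none) (i : I) (hi : af γ.1 i = 1) (ε : ℝ)
    (hε : |ε| = 1) : Expo (ι ((99 / 100 : ℝ) • dl (none, l) + (ε / 100) • dl γ)) := by
  classical
  have hε2 : ε * ε = 1 := by rw [← abs_mul_abs_self, hε, one_mul]
  have hne : γ ≠ (none, l) := fun e => hγ (by rw [e])
  set k : W := (99 / 100 : ℝ) • dl (none, l) + (ε / 100) • dl γ with hk
  have hBk : B k = (ε / 100) • B (dl γ) := by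
    rw [hk, map_add, map_smul, map_smul, B_none, smul_zero, zero_add]
  have hk1 : ‖ι k‖ ≤ 1 := by
    refine ι_le ((norm_add_le _ _).trans ?_) ?_
    · rw [norm_smul, norm_smul, norm_dl, norm_dl, Real.norm_eq_abs, Real.norm_eq_abs, abs_div ε, hε]
      norm_num
    · have := B_le (dl γ)
      rw [norm_dl] at this
      rw [hBk, norm_smul, Real.norm_eq_abs, abs_div ε, hε, abs_of_pos (by norm_num)]
      linarith
  refine ⟨hk1, fun η hη => ?_⟩
  set f : X →L[ℝ] ℝ := (apL (none, l) + ε • apL γ + ε • ev i).comp π with hf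
  have ef : ∀ x, f x = (π x).ap (none, l) + ε * (π x).ap γ + ε * B (π x) i := fun _ => rfl
  have hf2 : 2 ≤ ‖f‖ := by
    have a1 : f (ι k) = 2 := by
      rw [ef, π_ι, hBk, BoundedContinuousFunction.smul_apply, B_dl, hi]
      simp only [hk, add_ap, smul_ap, dl_ap, if_pos, if_neg hne, if_neg hne.symm, smul_eq_mul]
      linear_combination (101 / 100) * hε2
    have a2 := f.le_opNorm (ι k)
    rw [a1, Real.norm_ofNat] at a2
    nlinarith [norm_nonneg f]
  refine ⟨f, η / 600, by linarith, fun x hx h => ?_⟩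
  set w := π x with hw
  set r := w - w.ap (none, l) • dl (none, l) - w.ap γ • dl γ with hr
  have r1 : r.ap (none, l) = 0 := by simp [hr, dl_ap, hne.symm]
  have r2 : r.ap γ = 0 := by simp [hr, dl_ap, hne]
  have hb : ∀ δ : G, ‖Real.sign (r.ap δ) + (if δ = (none, l) then 1 else 0) +
      ε * (if δ = γ then 1 else 0)‖ ≤ 1 := by
    intro δ
    by_cases e1 : δ = (none, l)
    · simp [e1, r1, hne.symm]
    by_cases e2 : δ = γ
    · simp [e2, r2, hne, hε]
    · simpa [e1, e2] using sgn_le r δ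
  have e : ph _ hb = ph _ (sgn_le r) + apL (none, l) + ε • apL γ := clm_ext fun δ => by
    rw [_root_.add_apply, _root_.add_apply, _root_.smul_apply, ph_dl, ph_dl, apL_apply, apL_apply,
      dl_ap, dl_ap, smul_eq_mul]
    simp only [eq_comm]
    congr
  have a1 : ph _ (sgn_le r) w = ‖r‖ := by
    have e3 : w = r + w.ap (none, l) • dl (none, l) + w.ap γ • dl γ := by rw [hr]; abel
    have e4 := congrArg (ph _ (sgn_le r)) e3
    rw [map_add, map_add, map_smul, map_smul, ph_dl, ph_dl, r1, r2, ph_sgn] at e4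
    simpa using e4
  have a2 := (abs_le.1 ((ph_le _ hb w).trans ((π_le x).trans hx))).2
  rw [e, _root_.add_apply, _root_.add_apply, _root_.smul_apply, a1, apL_apply, apL_apply,
    smul_eq_mul] at a2
  have a3 : |ε * B w i| ≤ 1 := by
    rw [abs_mul, hε, one_mul]; exact (ev_le i w).trans ((Bπ_le x).trans hx)
  have a4 : B r i = B w i - 100 * w.ap γ := by
    rw [hr, map_sub, map_sub, map_smul, map_smul, B_none, smul_zero, sub_zero,
      BoundedContinuousFunction.sub_apply, BoundedContinuousFunction.smul_apply, B_dl, hi]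
    simp [mul_comm]
  have a5 : |ε * B r i| ≤ 100 * ‖r‖ := by
    rw [abs_mul, hε, one_mul]; exact (ev_le i r).trans (B_le r)
  rw [a4, abs_le] at a5
  rw [ef] at h
  rw [abs_le] at a3
  have a6 := norm_nonneg r
  have b1 : |ε * w.ap γ - 1 / 100| ≤ 2 * (η / 600) := abs_le.2 ⟨by linarith, by linarith⟩
  have b2 : |w.ap (none, l) - 99 / 100| ≤ 3 * (η / 600) := by
    rw [abs_le] at b1 ⊢; constructor <;> linarith
  have b3 : ‖w - k‖ ≤ η / 100 := by
    have e2 : w - k = r + (w.ap (none, l) - 99 / 100) • dl (none, l) +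
        (ε * (ε * w.ap γ - 1 / 100)) • dl γ := by
      rw [hr, hk, mul_sub, ← mul_assoc, hε2]
      module
    rw [e2]
    refine (norm_add₃_le).trans ?_
    rw [norm_smul, norm_smul, norm_dl, norm_dl, Real.norm_eq_abs, Real.norm_eq_abs, abs_mul, hε]
    linarith
  rw [← ι_π x, ← map_sub]
  exact ι_le (b3.trans (by linarith)) ((B_le _).trans (by linarith))

theorem upredX (F : Type) [NormedAddCommGroup F] [NormedSpace ℝ F] [CompleteSpace F]
    (Φ : (F →L[ℝ] ℝ) ≃ₗᵢ[ℝ] (X →L[ℝ] ℝ)) : Nonempty (F ≃ₗᵢ[ℝ] X) := by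
  refine upred (fun M hM h x => ?_) F Φ
  have key : ∀ (l : Fin 3) (γ : G), γ.1 ≠ none → ι (dl (none, l)) ∈ M ∧ ι (dl γ) ∈ M := by
    intro l γ hγ
    obtain ⟨i, hi⟩ : ∃ i, af γ.1 i = 1 := by
      obtain ⟨_ | i | ⟨n, b⟩, l'⟩ := γ
      · exact absurd rfl hγ
      · exact ⟨i, by simp [af]⟩
      · cases b
        · exact ⟨(n, 0), by simp [af, u, cb]⟩
        · exact ⟨(n, 1), by simp [af, u, cb]⟩
    have h1 := h _ (expo l γ hγ i hi 1 abs_one)
    have h2 := h _ (expo l γ hγ i hi (-1) (by simp))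
    rw [map_add, map_smul, map_smul] at h1 h2
    constructor
    · convert M.smul_mem (50 / 99 : ℝ) (M.add_mem h1 h2) using 1
      module
    · convert M.smul_mem (50 : ℝ) (M.sub_mem h1 h2) using 1
      module
  have hd : ∀ γ : G, ι (dl γ) ∈ M := by
    rintro ⟨_ | g, l⟩
    · exact (key l (some (Sum.inl (0, 0)), 0) (by simp)).1
    · exact (key l (some g, l) (by simp)).2
  have := (hasSum_dl (π x)).mapL ι
  rw [ι_π] at this
  exact hM.mem_of_tendsto this (Eventually.of_forall fun s =>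
    M.sum_mem fun γ _ => by rw [map_smul]; exact M.smul_mem _ (hd γ))

end Pool.Agent.H87.DualIdx
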