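import Pool.Agent.H87.DualIdx3

namespace Pool.Agent.H87.DualIdx

open Set

set_option maxSynthPendingDepth 3

section
variable {E : Type} [NormedAddCommGroup E] [NormedSpace ℝ E]

lemma st_le (T : E →L[ℝ] E) (x : E) (f : E →L[ℝ] ℝ) (hx : ‖x‖ = 1) (hf : ‖f‖ = 1) :
    ‖f (T x)‖ ≤ ‖T‖ := by
  have h1 := f.le_opNorm (T x)
  have h2 := T.le_opNorm x
  rw [hf, one_mul] at h1
  rw [hx, mul_one] at h2
  exact h1.trans h2

def RS (T : E →L[ℝ] E) : Set ℝ :=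
  {r : ℝ | ∃ (x : E) (f : E →L[ℝ] ℝ), ‖x‖ = 1 ∧ ‖f‖ = 1 ∧ f x = 1 ∧ r = ‖f (T x)‖}

lemma RS_bdd (T : E →L[ℝ] E) : BddAbove (RS T) :=
  ⟨‖T‖, by rintro _ ⟨x, f, hx, hf, -, rfl⟩; exact st_le T x f hx hf⟩

lemma RS_nonneg (T : E →L[ℝ] E) : 0 ≤ sSup (RS T) :=
  Real.sSup_nonneg (by rintro _ ⟨x, f, -, -, -, rfl⟩; exact norm_nonneg _)

lemma lowerE (e : E ≃ₗᵢ[ℝ] X) (T : E →L[ℝ] E) (hT : ‖T‖ = 1) : 1 / 25 ≤ sSup (RS T) := by
  obtain ⟨x, f, h1, h2, h3, h4⟩ := lower (e.toLinearIsometry.toContinuousLinearMap.comp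
    (T.comp e.symm.toLinearIsometry.toContinuousLinearMap)) (by
      rw [LinearIsometry.norm_toContinuousLinearMap_comp]
      exact (ContinuousLinearMap.opNorm_comp_linearIsometryEquiv T e.symm).trans hT)
  refine h4.trans (le_csSup (RS_bdd T) ⟨e.symm x, f.comp e.toLinearIsometry.toContinuousLinearMap,
    by rw [e.symm.norm_map, h1], (ContinuousLinearMap.opNorm_comp_linearIsometryEquiv f e).trans h2,
    ?_, rfl⟩)
  simpa using h3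

lemma idE (e : E ≃ₗᵢ[ℝ] X) : ‖ContinuousLinearMap.id ℝ E‖ = 1 := by
  have : Nontrivial X := ⟨⟨ι (L1R.dl (none, 0)), 0, fun h => by
    have := congrArg (fun x => ‖π x‖) h
    simp at this⟩⟩
  have := e.toEquiv.nontrivial
  exact ContinuousLinearMap.norm_id

end

lemma upperS : ∃ S : (X →L[ℝ] ℝ) →L[ℝ] (X →L[ℝ] ℝ), ‖S‖ = 1 ∧ sSup (RS S) ≤ 1 / 50 := by
  obtain ⟨S, h1, h2⟩ := upper
  exact ⟨S, h1, Real.sSup_le (by rintro _ ⟨f, F, a, b, c, rfl⟩; exact h2 f F a b c) (by norm_num)⟩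

end Pool.Agent.H87.DualIdx
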