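import Pool.Agent.H87.BLp2
import Pool.Agent.H87.CcsD

set_option autoImplicit false

open Filter Topology Set

namespace Pool.Agent.H87.ExD

open BLp (E toE evE E_le E_norm_le E_tend)

abbrev X0 := ℝ × E × E × E

noncomputable def u (n : ℕ) : E := toE (fun k => if k = n then 1 else 0) (by
  refine tendsto_const_nhds.congr' ?_
  filter_upwards [eventually_gt_atTop n] with k hk
  simp [hk.ne'])

noncomputable def s (n : ℕ) : E := toE (fun k => if k ≤ n then 1 else 0) (by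
  refine tendsto_const_nhds.congr' ?_
  filter_upwards [eventually_gt_atTop n] with k hk
  simp [hk])

lemma u_ap (n k : ℕ) : u n k = if k = n then 1 else 0 := rfl

lemma s_ap (n k : ℕ) : s n k = if k ≤ n then 1 else 0 := rfl

lemma u_le (n : ℕ) : ‖u n‖ ≤ 1 := E_norm_le _ zero_le_one fun k => by
  rw [u_ap]; split_ifs <;> simp

lemma s_le (n : ℕ) : ‖s n‖ ≤ 1 := E_norm_le _ zero_le_one fun k => by
  rw [s_ap]; split_ifs <;> simp

noncomputable def x : X0 := (1, 0, 0, 0)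

noncomputable def a (n : ℕ) : X0 := (1, s n, u n, 0)

noncomputable def b (n : ℕ) : X0 := (1, -s n, 0, u n)

lemma x_le : ‖x‖ ≤ 1 := by simp [x]

lemma a_le (n : ℕ) : ‖a n‖ ≤ 1 := by simp [a, s_le, u_le]

lemma b_le (n : ℕ) : ‖b n‖ ≤ 1 := by simp [b, s_le, u_le]

def Ok (r : ℝ) (φ : X0 →L[ℝ] ℝ) : Prop :=
  (∀ y, |φ y| ≤ 10 * r * ‖y‖) ∧ |φ x| ≤ r ∧ (∀ n, |φ (a n)| ≤ r) ∧ (∀ n, |φ (b n)| ≤ r) ∧
    ∀ n m, |φ (a n) + φ (b m) - 2 * φ x| ≤ 2 * r

lemma Ok.smul {r : ℝ} {φ : X0 →L[ℝ] ℝ} (h : Ok r φ) (c : ℝ) : Ok (|c| * r) (c • φ) := by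
  obtain ⟨h1, h2, h3, h4, h5⟩ := h
  have k : ∀ p q : ℝ, |p| ≤ q → |c * p| ≤ |c| * q := fun p q h => by
    rw [abs_mul]; exact mul_le_mul_of_nonneg_left h (abs_nonneg c)
  refine ⟨fun y => ?_, k _ _ h2, fun n => k _ _ (h3 n), fun n => k _ _ (h4 n), fun n m => ?_⟩
  · have := k _ _ (h1 y)
    simp only [smul_apply, smul_eq_mul]; linarith
  · have := k _ _ (h5 n m)
    simp only [smul_apply, smul_eq_mul]
    have e : c * φ (a n) + c * φ (b m) - 2 * (c * φ x) = c * (φ (a n) + φ (b m) - 2 * φ x) := by ring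
    rw [e]; linarith

abbrev Φ := {φ : X0 →L[ℝ] ℝ // Ok 1 φ}

instance : Nonempty Φ := ⟨⟨0, by simp [Ok]⟩⟩

noncomputable def N (y : X0) : ℝ := ⨆ φ : Φ, φ.1 y

lemma le_N {φ : X0 →L[ℝ] ℝ} (h : Ok 1 φ) (y : X0) : φ y ≤ N y :=
  le_ciSup (f := fun φ : Φ => φ.1 y) ⟨10 * 1 * ‖y‖, by
    rintro _ ⟨φ, rfl⟩; exact (le_abs_self _).trans (φ.2.1 y)⟩ ⟨φ, h⟩

lemma N_le {y : X0} {c : ℝ} (h : ∀ φ, Ok 1 φ → φ y ≤ c) : N y ≤ c := ciSup_le fun φ => h φ.1 φ.2

lemma le_N' {r : ℝ} (hr : 0 < r) {φ : X0 →L[ℝ] ℝ} (h : Ok r φ) (y : X0) : φ y ≤ r * N y := by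
  have h1 := h.smul r⁻¹
  rw [abs_of_pos (inv_pos.2 hr), inv_mul_cancel₀ hr.ne'] at h1
  have := le_N h1 y
  simp only [smul_apply, smul_eq_mul] at this
  rwa [inv_mul_le_iff₀ hr] at this

lemma N_nonneg (y : X0) : 0 ≤ N y := by simpa using le_N (φ := 0) (by simp [Ok]) y

lemma N_smul (c : ℝ) (y : X0) : N (c • y) ≤ |c| * N y := N_le fun φ h => by
  by_cases hc : c = 0
  · simp [hc]
  · have := le_N' (by rw [mul_one]; exact abs_pos.2 hc) (h.smul c) y
    simpa using this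

lemma N_up (y : X0) : N y ≤ 10 * ‖y‖ :=
  N_le fun φ h => by simpa using (le_abs_self _).trans (h.1 y)

lemma N_low (y : X0) : ‖y‖ ≤ 2 * N y := by
  obtain ⟨g, g1, g2⟩ := exists_dual_vector'' ℝ y
  have k : ∀ w, |g w| ≤ ‖w‖ := fun w =>
    (g.le_opNorm w).trans (mul_le_of_le_one_left (norm_nonneg _) g1)
  have : Ok 2 g := ⟨fun w => by linarith [k w, norm_nonneg w], by linarith [k x, x_le],
    fun n => by linarith [k (a n), a_le n], fun n => by linarith [k (b n), b_le n], fun n m => by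
      have h1 := abs_le.1 ((k x).trans x_le)
      have h2 := abs_le.1 ((k _).trans (a_le n))
      have h3 := abs_le.1 ((k _).trans (b_le m))
      rw [abs_le]; constructor <;> linarith⟩
  have h := le_N' two_pos this y
  rw [g2] at h
  exact h

lemma N_zero : N 0 = 0 := le_antisymm (by simpa using N_up 0) (N_nonneg _)

lemma N_add (y z : X0) : N (y + z) ≤ N y + N z := N_le fun φ h => by
  rw [map_add]; exact add_le_add (le_N h y) (le_N h z)

lemma N_neg' (y : X0) : N (-y) ≤ N y := by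
  have := N_smul (-1) y
  have e : (-1 : ℝ) • y = -y := by ext <;> simp
  rwa [e, abs_neg, abs_one, one_mul] at this

lemma N_neg (y : X0) : N (-y) = N y := le_antisymm (N_neg' y) (by
  have := N_neg' (-y)
  rwa [neg_neg] at this)

def Z : Type := X0

noncomputable instance : AddCommGroup Z := inferInstanceAs (AddCommGroup X0)

noncomputable instance : Module ℝ Z := inferInstanceAs (Module ℝ X0)

noncomputable instance : NormedAddCommGroup Z := AddGroupNorm.toNormedAddCommGroup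
  { toFun := fun y => N y
    map_zero' := N_zero
    add_le' := N_add
    neg' := N_neg
    eq_zero_of_map_eq_zero' := fun (y : X0) (e : N y = 0) => norm_le_zero_iff.1 (by
      simpa only [e, mul_zero] using N_low y) }

noncomputable instance : NormedSpace ℝ Z := ⟨fun c (y : X0) => N_smul c y⟩

noncomputable def eZ : X0 ≃L[ℝ] Z :=
  LinearEquiv.toContinuousLinearEquivOfBounds (LinearEquiv.refl ℝ X0) 10 2 N_up N_low

lemma eZ_norm (y : X0) : ‖eZ y‖ = N y := rfl

instance : CompleteSpace Z := (completeSpace_congr (e := eZ.toEquiv) eZ.isUniformEmbedding).1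
  inferInstance

noncomputable def g : X0 →L[ℝ] ℝ := ContinuousLinearMap.fst ℝ _ _

noncomputable def cs (k : ℕ) : X0 →L[ℝ] ℝ :=
  (evE k).comp ((ContinuousLinearMap.fst ℝ _ _).comp (ContinuousLinearMap.snd ℝ _ _))

noncomputable def cu (k : ℕ) : X0 →L[ℝ] ℝ := (evE k).comp ((ContinuousLinearMap.fst ℝ _ _).comp
  ((ContinuousLinearMap.snd ℝ _ _).comp (ContinuousLinearMap.snd ℝ _ _)))

noncomputable def cv (k : ℕ) : X0 →L[ℝ] ℝ := (evE k).comp ((ContinuousLinearMap.snd ℝ _ _).comp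
  ((ContinuousLinearMap.snd ℝ _ _).comp (ContinuousLinearMap.snd ℝ _ _)))

lemma g_ap (y : X0) : g y = y.1 := rfl
lemma cs_ap (k : ℕ) (y : X0) : cs k y = y.2.1 k := rfl
lemma cu_ap (k : ℕ) (y : X0) : cu k y = y.2.2.1 k := rfl
lemma cv_ap (k : ℕ) (y : X0) : cv k y = y.2.2.2 k := rfl

lemma g_le (y : X0) : |g y| ≤ ‖y‖ := norm_fst_le y
lemma cs_le (k : ℕ) (y : X0) : |cs k y| ≤ ‖y‖ :=
  (E_le _ k).trans ((norm_fst_le y.2).trans (norm_snd_le y))
lemma cu_le (k : ℕ) (y : X0) : |cu k y| ≤ ‖y‖ :=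
  (E_le _ k).trans ((norm_fst_le y.2.2).trans ((norm_snd_le y.2).trans (norm_snd_le y)))
lemma cv_le (k : ℕ) (y : X0) : |cv k y| ≤ ‖y‖ :=
  (E_le _ k).trans ((norm_snd_le y.2.2).trans ((norm_snd_le y.2).trans (norm_snd_le y)))

lemma ok1 (k : ℕ) {p q t : ℝ} (hp : 0 ≤ p) (hq : 0 ≤ q) (h2 : p + q ≤ 2) (ht : |t| ≤ 1) :
    Ok 1 (g - p • cu k - q • cv k + t • (cs k - cs (k + 1) - cu k + cv k)) := by
  have ht' := abs_le.1 ht
  refine ⟨fun y => ?_, ?_, fun n => ?_, fun n => ?_, fun n m => ?_⟩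
  · simp only [add_apply, sub_apply, smul_apply, smul_eq_mul]
    have a1 := abs_le.1 (g_le y)
    have a2 := abs_le.1 (cs_le k y)
    have a3 := abs_le.1 (cs_le (k + 1) y)
    have a4 := abs_le.1 (cu_le k y)
    have a5 := abs_le.1 (cv_le k y)
    have a6 : |t * (cs k y - cs (k + 1) y - cu k y + cv k y)| ≤ 1 * (4 * ‖y‖) := by
      rw [abs_mul]
      refine mul_le_mul ht ?_ (abs_nonneg _) zero_le_one
      rw [abs_le]; constructor <;> linarith
    have a7 := abs_le.1 a6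
    have a8 := norm_nonneg y
    rw [abs_le]; constructor <;> nlinarith
  · simp [g_ap, cs_ap, cu_ap, cv_ap, x]
  · simp only [add_apply, sub_apply, smul_apply, smul_eq_mul, g_ap, cs_ap, cu_ap, cv_ap, a, s_ap, u_ap]
    rw [abs_le]
    split_ifs <;> first | omega | (simp; try (first | linarith | (constructor <;> linarith)))
  · simp only [add_apply, sub_apply, smul_apply, smul_eq_mul, g_ap, cs_ap, cu_ap, cv_ap, b, u_ap,
      ZeroAtInftyContinuousMap.coe_neg, Pi.neg_apply, s_ap]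
    rw [abs_le]
    split_ifs <;> first | omega | (simp; try (first | linarith | (constructor <;> linarith)))
  · simp only [add_apply, sub_apply, smul_apply, smul_eq_mul, g_ap, cs_ap, cu_ap, cv_ap, a, b, x, u_ap,
      ZeroAtInftyContinuousMap.coe_neg, Pi.neg_apply, s_ap]
    rw [abs_le]
    split_ifs <;> first | omega | (simp; try (first | linarith | (constructor <;> linarith)))

end Pool.Agent.H87.ExD
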