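import Pool.Agent.H87.ExD1

set_option autoImplicit false

open Filter Topology Set

namespace Pool.Agent.H87.ExD

open BLp (E toE evE E_le E_norm_le E_tend)

/-- The diametral condition of a `Δ`-point. -/
def Delta {X : Type*} [NormedAddCommGroup X] [NormedSpace ℝ X] (x : X) : Prop :=
  ∀ (f : X →L[ℝ] ℝ) (α : ℝ), ‖f‖ = 1 → 0 < α → x ∈ CcsD.slice f α →
    sSup ((fun y => ‖x - y‖) '' CcsD.slice f α) = 2

lemma Nx : N x ≤ 1 := N_le fun _ h => (le_abs_self _).trans h.2.1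

lemma Na (n : ℕ) : N (a n) ≤ 1 := N_le fun _ h => (le_abs_self _).trans (h.2.2.1 n)

lemma Nb (n : ℕ) : N (b n) ≤ 1 := N_le fun _ h => (le_abs_self _).trans (h.2.2.2.1 n)

lemma g_N (y : X0) : g y ≤ N y := by
  simpa using le_N (ok1 0 (p := 0) (q := 0) (t := 0) le_rfl le_rfl (by norm_num) (by simp)) y

lemma x_norm : ‖eZ x‖ = 1 := le_antisymm Nx (g_N x)

lemma far_a (n : ℕ) : 2 ≤ N (x - a n) := by
  have := le_N (ok1 n (p := 2) (q := 0) (t := 0) zero_le_two le_rfl (by norm_num) (by simp)) (x - a n)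
  simpa [g_ap, cu_ap, x, a, u_ap] using this

lemma far_b (n : ℕ) : 2 ≤ N (x - b n) := by
  have := le_N (ok1 n (p := 0) (q := 2) (t := 0) le_rfl zero_le_two (by norm_num) (by simp)) (x - b n)
  simpa [g_ap, cv_ap, x, b, u_ap] using this

lemma wnull (h : E →L[ℝ] ℝ) {η : ℝ} (hη : 0 < η) : ∃ n, -η < h (u n) := by
  by_contra hc
  push Not at hc
  obtain ⟨K, hK⟩ := exists_nat_gt (‖h‖ / η)
  have a1 : ‖∑ k ∈ Finset.range K, u k‖ ≤ 1 := by
    refine E_norm_le _ zero_le_one fun w => ?_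
    change |evE w _| ≤ 1
    rw [map_sum]
    simp only [BLp.evE_apply, u_ap, Finset.sum_ite_eq]
    split_ifs <;> simp
  have a2 : h (∑ k ∈ Finset.range K, u k) ≤ K * -η := by
    rw [map_sum]
    have := Finset.sum_le_sum (s := Finset.range K) fun k _ => hc k
    simpa using this
  have a3 := (neg_le_abs _).trans (h.le_of_opNorm_le_of_le le_rfl a1)
  rw [div_lt_iff₀ hη] at hK
  linarith

lemma delta : Delta (eZ x) := by
  intro f α _ _ hx
  have hb : ∀ r ∈ (fun y => ‖eZ x - y‖) '' CcsD.slice f α, r ≤ 2 := by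
    rintro _ ⟨y, hy, rfl⟩
    exact (norm_sub_le _ _).trans (by linarith [hy.1, x_norm])
  refine le_antisymm (Real.sSup_le hb zero_le_two) ?_
  set h : X0 →L[ℝ] ℝ := f.comp eZ.toContinuousLinearMap with hh
  have h1 : 1 - α < h x := hx.2
  let j : E →L[ℝ] X0 := (ContinuousLinearMap.inr ℝ _ _).comp ((ContinuousLinearMap.inr ℝ _ _).comp
    ((ContinuousLinearMap.id ℝ E).prod (ContinuousLinearMap.id ℝ E)))
  obtain ⟨n, hn⟩ := wnull (h.comp j) (sub_pos.2 h1)
  have e : a n + b n = x + x + j (u n) := by simp [a, b, x, j]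
  have e2 : h (a n) + h (b n) = h x + h x + h (j (u n)) := by rw [← map_add, e, map_add, map_add]
  change -(h x - (1 - α)) < h (j (u n)) at hn
  rcases le_total (h (a n)) (h (b n)) with k | k
  · refine (far_b n).trans (le_csSup ⟨2, hb⟩ ⟨eZ (b n), ⟨Nb n, ?_⟩, rfl⟩)
    change 1 - α < h (b n)
    linarith
  · refine (far_a n).trans (le_csSup ⟨2, hb⟩ ⟨eZ (a n), ⟨Na n, ?_⟩, rfl⟩)
    change 1 - α < h (a n)
    linarith

lemma ext0 {z : X0} (h1 : N (x + z) ≤ 1) (h2 : N (x - z) ≤ 1) : z = 0 := by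
  have k : ∀ φ, Ok 1 φ → φ x = 1 → φ z = 0 := fun φ h e => by
    have a1 := (le_N h _).trans h1
    have a2 := (le_N h _).trans h2
    rw [map_add] at a1
    rw [map_sub] at a2
    linarith
  have k' : ∀ (n : ℕ) (p q t : ℝ), 0 ≤ p → 0 ≤ q → p + q ≤ 2 → |t| ≤ 1 →
      z.1 - p * z.2.2.1 n - q * z.2.2.2 n +
        t * (z.2.1 n - z.2.1 (n + 1) - z.2.2.1 n + z.2.2.2 n) = 0 := fun n p q t a1 a2 a3 a4 =>
    k _ (ok1 n a1 a2 a3 a4) (by simp [g_ap, cs_ap, cu_ap, cv_ap, x])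
  have c1 : z.1 = 0 := by simpa using k' 0 0 0 0 le_rfl le_rfl (by norm_num) (by simp)
  have c2 : ∀ n, z.2.2.1 n = 0 := fun n => by
    simpa [c1] using k' n 1 0 0 zero_le_one le_rfl (by norm_num) (by simp)
  have c3 : ∀ n, z.2.2.2 n = 0 := fun n => by
    simpa [c1] using k' n 0 1 0 le_rfl zero_le_one (by norm_num) (by simp)
  have c4 : ∀ n, z.2.1 (n + 1) = z.2.1 n := fun n => by
    have := k' n 0 0 1 le_rfl le_rfl (by norm_num) (by simp)
    rw [c1, c2, c3] at this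
    linarith
  have c5 : ∀ n, z.2.1 n = z.2.1 0 := fun n => by
    induction n with
    | zero => rfl
    | succ n ih => rw [c4, ih]
  have c6 : z.2.1 0 = 0 := by
    have := E_tend z.2.1
    simp only [c5] at this
    exact tendsto_nhds_unique tendsto_const_nhds this
  refine Prod.ext c1 (Prod.ext ?_ (Prod.ext ?_ ?_))
  · ext n; rw [c5, c6]; rfl
  · ext n; exact c2 n
  · ext n; exact c3 n

lemma extreme : eZ x ∈ (Metric.closedBall (0 : Z) 1).extremePoints ℝ := by
  have hc := convex_closedBall (0 : Z) 1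
  refine ⟨mem_closedBall_zero_iff.2 x_norm.le, fun y hy w hw hx => ?_⟩
  obtain ⟨p, q, hp, hq, hpq, e⟩ := hx
  have hz : ∀ c : ℝ, |c| ≤ min p q → ‖eZ x + c • (y - w)‖ ≤ 1 := fun c hc2 => by
    have a1 := abs_le.1 (hc2.trans (min_le_left _ _))
    have a2 := abs_le.1 (hc2.trans (min_le_right _ _))
    have := hc hy hw (show 0 ≤ p + c by linarith) (show 0 ≤ q - c by linarith) (by linarith)
    rw [mem_closedBall_zero_iff] at this
    have e2 : eZ x + c • (y - w) = (p + c) • y + (q - c) • w := by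
      rw [← e, add_smul, sub_smul, smul_sub]; abel
    rw [e2]; exact this
  have m0 : 0 < min p q := lt_min hp hq
  have := ext0 (z := eZ.symm (min p q • (y - w))) (hz _ (abs_of_pos m0).le) (by
    have := hz (-min p q) (by rw [abs_neg, abs_of_pos m0])
    rw [neg_smul, ← sub_eq_add_neg] at this
    exact this)
  rw [EmbeddingLike.map_eq_zero_iff, smul_eq_zero, sub_eq_zero] at this
  obtain rfl := this.resolve_left m0.ne'
  rw [← e, ← add_smul, hpq, one_smul]

lemma near {y : X0} (hy : N y ≤ 1) (h1 : 9 / 10 < g y) (h2 : |cs 0 y| < 1 / 10) :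
    N (x - y) ≤ 3 / 2 := N_le fun φ h => by
  obtain ⟨k1, k2, k3, k4, k5⟩ := h
  have hb : BddBelow (range fun n => φ (a n)) := ⟨-1, by
    rintro _ ⟨n, rfl⟩; exact (abs_le.1 (k3 n)).1⟩
  set A := ⨅ n, φ (a n) with hA
  have A1 : ∀ n, A ≤ φ (a n) := fun n => ciInf_le hb n
  have A2 : ∀ m, 2 * φ x - 2 - φ (b m) ≤ A := fun m => le_ciInf fun n => by
    linarith [(abs_le.1 (k5 n m)).1]
  have A3 : -1 ≤ A := le_ciInf fun n => (abs_le.1 (k3 n)).1
  have A4 : A ≤ 1 := (A1 0).trans (abs_le.1 (k3 0)).2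
  have x1 := abs_le.1 k2
  set q := 1 - φ x + A with hq
  have q1 : |q| ≤ 3 := by rw [abs_le]; constructor <;> linarith
  have q2 := abs_le.1 q1
  have qq : ∀ y c, |cs 0 y| ≤ c → |q * cs 0 y| ≤ 3 * c := fun y c hc => by
    rw [abs_mul]; exact mul_le_mul q1 hc (abs_nonneg _) (by norm_num)
  have ok : Ok (3 - φ x) (-φ + q • cs 0 + (2 : ℝ) • g) := by
    refine ⟨fun y => ?_, ?_, fun n => ?_, fun n => ?_, fun n m => ?_⟩
    · simp only [add_apply, neg_apply, smul_apply, smul_eq_mul]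
      have a1 := abs_le.1 (k1 y)
      have a2 := abs_le.1 (qq y _ (cs_le 0 y))
      have a3 := abs_le.1 (g_le y)
      have a4 := mul_nonneg (show 0 ≤ 1 - φ x by linarith) (norm_nonneg y)
      have a5 := norm_nonneg y
      rw [abs_le]; constructor <;> linarith
    · have e : (-φ + q • cs 0 + (2 : ℝ) • g) x = -φ x + 2 := by simp [cs_ap, g_ap, x]
      rw [e, abs_le]; constructor <;> linarith
    · have e : (-φ + q • cs 0 + (2 : ℝ) • g) (a n) = -φ (a n) + q + 2 := by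
        simp [cs_ap, g_ap, a, s_ap]
      have := abs_le.1 (k3 n)
      rw [e, abs_le]; constructor <;> linarith [A1 n]
    · have e : (-φ + q • cs 0 + (2 : ℝ) • g) (b n) = -φ (b n) - q + 2 := by
        simp [cs_ap, g_ap, b, s_ap]; ring
      have := abs_le.1 (k4 n)
      rw [e, abs_le]; constructor <;> linarith [A2 n]
    · have e1 : (-φ + q • cs 0 + (2 : ℝ) • g) x = -φ x + 2 := by simp [cs_ap, g_ap, x]
      have e2 : (-φ + q • cs 0 + (2 : ℝ) • g) (a n) = -φ (a n) + q + 2 := by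
        simp [cs_ap, g_ap, a, s_ap]
      have e3 : (-φ + q • cs 0 + (2 : ℝ) • g) (b m) = -φ (b m) - q + 2 := by
        simp [cs_ap, g_ap, b, s_ap]; ring
      have := abs_le.1 (k5 n m)
      rw [e1, e2, e3, abs_le]; constructor <;> linarith
  have a1 := le_N' (by linarith) ok y
  have a2 := mul_le_mul_of_nonneg_left hy (show 0 ≤ 3 - φ x by linarith)
  have a3 := abs_le.1 (qq y _ h2.le)
  simp only [add_apply, neg_apply, smul_apply, smul_eq_mul] at a1
  rw [map_sub]
  linarith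

lemma notSuper : ¬ CcsD.SuperDelta ℝ (eZ x) := by
  intro h
  have hev : ∀ f : Z →L[ℝ] ℝ, Continuous fun x : WeakSpace ℝ Z => f ((toWeakSpace ℝ Z).symm x) :=
    fun f => WeakBilin.eval_continuous (topDualPairing ℝ Z).flip f
  have := h ({w | 9 / 10 < g.comp eZ.symm.toContinuousLinearMap ((toWeakSpace ℝ Z).symm w)} ∩
      {w | |(cs 0).comp eZ.symm.toContinuousLinearMap ((toWeakSpace ℝ Z).symm w)| < 1 / 10})
    ((isOpen_lt continuous_const (hev _)).inter (isOpen_lt (hev _).abs continuous_const))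
    ⟨show (9 : ℝ) / 10 < 1 by norm_num, show |(0 : ℝ)| < 1 / 10 by norm_num⟩
  refine absurd (this.symm.trans_le (Real.sSup_le (a := 3 / 2) ?_ (by norm_num))) (by norm_num)
  rintro _ ⟨y, ⟨h1, h2, h3⟩, rfl⟩
  exact near (y := eZ.symm y) h1 h2 h3

end Pool.Agent.H87.ExD
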