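import Mathlib

namespace Pool.Agent.H87.Gap

open Cardinal

variable {𝕜 E : Type} [RCLike 𝕜] [NormedAddCommGroup E] [NormedSpace 𝕜 E]

/-- The opening (gap) of two linear subspaces. -/
noncomputable def opening (G₁ G₂ : Submodule 𝕜 E) : ℝ :=
  max (sSup ((fun x => Metric.infDist x (G₂ : Set E)) '' {x | x ∈ G₁ ∧ ‖x‖ = 1}))
    (sSup ((fun y => Metric.infDist y (G₁ : Set E)) '' {y | y ∈ G₂ ∧ ‖y‖ = 1}))

/-- The density character: least cardinality of a dense subset. -/
noncomputable def dens (X : Type) [TopologicalSpace X] : Cardinal :=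
  sInf {c : Cardinal | ∃ D : Set X, Dense D ∧ Cardinal.mk D = c}

open Classical in
/-- Linear dimension for finite-dimensional subspaces, density character otherwise. -/
noncomputable def dim (G : Submodule 𝕜 E) : Cardinal :=
  if FiniteDimensional 𝕜 G then (Module.finrank 𝕜 G : Cardinal) else dens G

end Pool.Agent.H87.Gap
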