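import Mathlib
import Pool.Agent.H87.BU
import Pool.Agent.H87.GapDef

namespace Pool.Agent.H87.Gap

open Filter Topology Cardinal

section real
variable {E : Type} [NormedAddCommGroup E] [NormedSpace ℝ E]

theorem kkm (G₁ G₂ : Submodule ℝ E) [FiniteDimensional ℝ G₁] [FiniteDimensional ℝ G₂]
    (hlt : Module.finrank ℝ G₁ < Module.finrank ℝ G₂)
    (h : ∀ y ∈ G₂, y ≠ 0 → ∃ g ∈ G₁, ‖y - g‖ < ‖y‖) : False := by
  set n := Module.finrank ℝ G₁
  let b := Module.finBasis ℝ G₂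
  let v : Fin (n + 1) → E := fun i => b (Fin.castLE hlt i)
  have hv : LinearIndependent ℝ v :=
    (b.linearIndependent.comp _ (Fin.castLE_injective hlt)).map' G₂.subtype G₂.ker_subtype
  let T : (Fin (n + 1) → ℝ) → E := fun x => ∑ i, x i • v i
  have hT : Continuous T := by fun_prop
  have hTneg : ∀ x, T (-x) = -T x := fun x => by simp [T]
  obtain ⟨g, hg⟩ := exists_continuous_forall_mem_convex_of_local_const
    (t := fun x : Fin (n + 1) → ℝ => {g : G₁ | 1 / 2 < ∑ i, |x i| → ‖T x - g‖ < ‖T x‖})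
    (fun x => by
      by_cases hx : 1 / 2 < ∑ i, |x i|
      · have : {g : G₁ | 1 / 2 < ∑ i, |x i| → ‖T x - g‖ < ‖T x‖} =
            G₁.subtype ⁻¹' Metric.ball (T x) ‖T x‖ := by
          ext g; simp only [Set.mem_ofPred_eq, hx, forall_const, Set.mem_preimage,
            Submodule.subtype_apply, Metric.mem_ball, dist_eq_norm, norm_sub_rev]
        rw [this]; exact (convex_ball _ _).linear_preimage _
      · simp only [hx, IsEmpty.forall_iff]; exact convex_univ)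
    (fun x => by
      by_cases hx : x = 0
      · refine ⟨0, ?_⟩
        have hc : Continuous fun x : Fin (n + 1) → ℝ => ∑ i, |x i| := by fun_prop
        have : ∀ᶠ y in 𝓝 x, ∑ i, |y i| < 1 / 2 :=
          hc.continuousAt.eventually (gt_mem_nhds (by simp [hx]))
        filter_upwards [this] with y hy h'
        exact absurd h' (not_lt.2 hy.le)
      · obtain ⟨g, hg, hg'⟩ := h (T x) (G₂.sum_mem fun i _ => G₂.smul_mem _ (b _).2)
          (fun h0 => hx (funext (Fintype.linearIndependent_iff.1 hv x h0)))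
        refine ⟨⟨g, hg⟩, ?_⟩
        have : IsOpen {y | ‖T y - g‖ < ‖T y‖} := isOpen_lt (by fun_prop) (by fun_prop)
        filter_upwards [this.mem_nhds hg'] with y hy _
        exact hy)
  let e := (Module.finBasis ℝ G₁).equivFunL
  obtain ⟨x, hx, hx0⟩ := BU.bu n (fun x => e (g x - g (-x))) (by fun_prop)
    (fun x => by rw [← map_neg, neg_neg, neg_sub])
  have h1 : g x = g (-x) := sub_eq_zero.1 (e.map_eq_zero_iff.1 hx0)
  have h2 := hg x (by rw [hx]; norm_num)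
  have h3 := hg (-x) (by simp only [Pi.neg_apply, abs_neg]; rw [hx]; norm_num)
  rw [hTneg, ← h1, norm_neg] at h3
  have h4 : ‖(2 : ℝ) • T x‖ ≤ ‖T x - g x‖ + ‖-T x - g x‖ := by
    refine le_trans (le_of_eq ?_) (norm_sub_le _ _)
    congr 1; rw [two_smul]; abel
  rw [norm_smul, Real.norm_ofNat] at h4
  linarith

theorem core (G₁ G₂ M : Submodule ℝ E) (hM : M ≤ G₂)
    (h12 : ∀ x ∈ G₁, ∃ y ∈ G₂, ‖x - y‖ ≤ 0.51 * ‖x‖)
    (h21 : ∀ y ∈ G₂, ∃ x ∈ G₁, ‖y - x‖ ≤ 0.51 * ‖y‖)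
    (hap : ∀ g ∈ G₁, ‖g‖ ≤ 2 → ∀ y ∈ G₂, ∃ m ∈ M, ‖m - g‖ ≤ ‖y - g‖ + 0.001) :
    (G₂ : Set E) ⊆ closure M := by
  intro y₀ hy₀
  by_contra hn
  let N := M.topologicalClosure
  have hN : IsClosed (N : Set E) := M.isClosed_topologicalClosure
  have hq : (Submodule.Quotient.mk y₀ : E ⧸ N) ≠ 0 := fun h =>
    hn ((Submodule.Quotient.mk_eq_zero N).1 h)
  obtain ⟨ψ, hψ, hψ'⟩ := exists_dual_vector ℝ _ (norm_ne_zero_iff.2 hq)
  let f : E →ₗ[ℝ] ℝ := ψ.toLinearMap.comp N.mkQ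
  have hf : ∀ x, |f x| ≤ ‖x‖ := fun x => by
    have := ψ.le_opNorm (Submodule.Quotient.mk x)
    rw [hψ, one_mul] at this
    exact this.trans (Submodule.Quotient.norm_mk_le N x)
  have hfM : ∀ m ∈ M, f m = 0 := fun m hm => by
    have : N.mkQ m = 0 := (Submodule.Quotient.mk_eq_zero N).2 (M.le_topologicalClosure hm)
    simp [f, this]
  set δ := ‖(Submodule.Quotient.mk y₀ : E ⧸ N)‖ with hδ
  have hδ0 : 0 < δ := norm_pos_iff.2 hq
  have hfy : f y₀ = δ := hψ'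
  obtain ⟨m₀, hm₀, hm₀'⟩ : ∃ m ∈ M, ‖y₀ - m‖ < 1.001 * δ := by
    have h1 : δ = Metric.infDist y₀ (M : Set E) := by
      rw [← Metric.infDist_closure]
      exact QuotientAddGroup.norm_mk (S := N.toAddSubgroup) y₀
    have h2 : Metric.infDist y₀ (M : Set E) < 1.001 * δ := by rw [← h1]; linarith
    obtain ⟨m, hm, h3⟩ := (Metric.infDist_lt_iff ⟨0, M.zero_mem⟩).1 h2
    exact ⟨m, hm, by rwa [dist_eq_norm] at h3⟩
  obtain ⟨y, hy, hy1, hy2⟩ : ∃ y ∈ G₂, ‖y‖ ≤ 1 ∧ 0.999 ≤ f y := by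
    refine ⟨(1.001 * δ)⁻¹ • (y₀ - m₀), G₂.smul_mem _ (G₂.sub_mem hy₀ (hM hm₀)), ?_, ?_⟩
    · rw [norm_smul, Real.norm_of_nonneg (by positivity), inv_mul_le_iff₀ (by positivity)]
      linarith
    · rw [map_smul, map_sub, hfy, hfM _ hm₀, sub_zero, smul_eq_mul,
        le_inv_mul_iff₀ (by positivity)]
      nlinarith
  have hβ : ∀ g ∈ G₁, |f g| ≤ 0.511 * ‖g‖ := by
    intro g hg
    by_cases h0 : g = 0
    · simp [h0]
    have hp : 0 < ‖g‖ := norm_pos_iff.2 h0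
    have hg1 : ‖‖g‖⁻¹ • g‖ = 1 := by rw [norm_smul]; simp [hp.ne']
    obtain ⟨z, hz, h1⟩ := h12 _ (G₁.smul_mem ‖g‖⁻¹ hg)
    obtain ⟨m, hm, h2⟩ := hap _ (G₁.smul_mem ‖g‖⁻¹ hg) (by rw [hg1]; norm_num) z hz
    have h3 := hf (m - ‖g‖⁻¹ • g)
    rw [map_sub, hfM m hm, zero_sub, abs_neg, map_smul, smul_eq_mul, abs_mul,
      abs_of_pos (inv_pos.2 hp)] at h3
    rw [norm_sub_rev z] at h2
    rw [hg1] at h1
    have h4 : ‖g‖⁻¹ * |f g| ≤ 0.511 := by linarith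
    rwa [inv_mul_le_iff₀ hp, mul_comm] at h4
  obtain ⟨φ, hφ1, hφ2⟩ := exists_extension_norm_eq G₁
    (LinearMap.mkContinuous (f.comp G₁.subtype) 0.511 fun g => hβ g g.2)
  have hφ : ∀ x, |φ x| ≤ 0.511 * ‖x‖ := fun x => (φ.le_opNorm x).trans
    (mul_le_mul_of_nonneg_right (hφ2.trans_le
      (LinearMap.mkContinuous_norm_le _ (by norm_num) _)) (norm_nonneg _))
  have step : ∀ (z : E) (r : ℝ), z ∈ G₂ → ‖z‖ ≤ r → r ≤ 1.1 → 0.999 ≤ f z →
      0.999 - 0.51 * r - 0.511 * (0.51 * r) ≤ φ z ∧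
      ∃ m ∈ M, ‖z - m‖ ≤ 1.02 * r + 0.001 ∧
        0.999 - 0.51 * r - 0.511 * (0.51 * r + 0.001) ≤ φ m := by
    intro z r hz hr hr' hfz
    obtain ⟨g, hg, h1⟩ := h21 z hz
    have h2 : ‖g‖ ≤ ‖z‖ + ‖z - g‖ := by
      calc ‖g‖ = ‖z - (z - g)‖ := by simp
        _ ≤ _ := norm_sub_le _ _
    obtain ⟨m, hm, h3⟩ := hap g hg (by linarith) z hz
    have h4 := (le_abs_self _).trans (hf (z - g))
    have h5 : φ g = f g := hφ1 ⟨g, hg⟩
    have h6 := (neg_le_abs _).trans (hφ (z - g))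
    have h7 := (neg_le_abs _).trans (hφ (m - g))
    rw [map_sub] at h4 h6 h7
    refine ⟨by linarith, m, hm, ?_, by linarith⟩
    calc ‖z - m‖ = ‖(z - g) - (m - g)‖ := by congr 1; abel
      _ ≤ _ := norm_sub_le _ _
      _ ≤ _ := by linarith
  obtain ⟨-, m₁, hm₁, a1, a2⟩ := step y 1 hy hy1 (by norm_num) hy2
  obtain ⟨-, m₂, hm₂, b1, b2⟩ := step (y - m₁) 1.021 (G₂.sub_mem hy (hM hm₁)) (by linarith)
    (by norm_num) (by rw [map_sub, hfM _ hm₁]; linarith)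
  obtain ⟨c1, -⟩ := step (y - m₁ - m₂) 1.043 (G₂.sub_mem (G₂.sub_mem hy (hM hm₁)) (hM hm₂))
    (by linarith) (by norm_num) (by rw [map_sub, map_sub, hfM _ hm₁, hfM _ hm₂]; linarith)
  have := (le_abs_self _).trans (hφ y)
  rw [map_sub, map_sub] at c1
  linarith

theorem core' (G₁ G₂ : Submodule ℝ E)
    (h12 : ∀ x ∈ G₁, ∃ y ∈ G₂, ‖x - y‖ ≤ 0.51 * ‖x‖)
    (h21 : ∀ y ∈ G₂, ∃ x ∈ G₁, ‖y - x‖ ≤ 0.51 * ‖y‖) {D : Type} (d : D → E)
    (hd : ∀ g ∈ G₁, ‖g‖ ≤ 2 → ∃ i, ‖g - d i‖ < 0.0003) :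
    ∃ h : D → E, (∀ i, h i ∈ G₂) ∧ (G₂ : Set E) ⊆ closure (Submodule.span ℝ (Set.range h)) := by
  have : ∀ i, ∃ y ∈ (G₂ : Set E), dist (d i) y < Metric.infDist (d i) (G₂ : Set E) + 0.0003 :=
    fun i => (Metric.infDist_lt_iff ⟨0, G₂.zero_mem⟩).1 (by linarith)
  choose h hh hh' using this
  refine ⟨h, hh, core G₁ G₂ _ (Submodule.span_le.2 (by rintro _ ⟨i, rfl⟩; exact hh i)) h12 h21
    fun g hg hg2 y hy => ?_⟩
  obtain ⟨i, hi⟩ := hd g hg hg2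
  refine ⟨h i, Submodule.subset_span ⟨i, rfl⟩, ?_⟩
  have h1 := hh' i
  have h2 := Metric.infDist_le_dist_of_mem (x := d i) hy
  have h3 := dist_triangle (d i) g y
  have h4 := dist_triangle (h i) (d i) g
  rw [← dist_eq_norm] at hi
  rw [← dist_eq_norm, ← dist_eq_norm, dist_comm y g]
  rw [dist_comm] at hi h1
  linarith

lemma rat_dense {D : Type} (h : D → E) (G : Submodule ℝ E) (hG : ∀ i, h i ∈ G) :
    ∃ A : Set E, A ⊆ G ∧ #A ≤ max #D ℵ₀ ∧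
      (Submodule.span ℝ (Set.range h) : Set E) ⊆ closure A := by
  classical
  let L : (D →₀ ℚ) → E := fun c => c.sum fun i q => (q : ℝ) • h i
  have hadd : ∀ a b, L (a + b) = L a + L b := fun a b =>
    Finsupp.sum_add_index' (by simp) (by simp [add_smul])
  have hsm : ∀ (q : ℚ) a, L (q • a) = (q : ℝ) • L a := fun q a => by
    simp only [L]
    rw [Finsupp.sum_smul_index' (by simp), Finsupp.smul_sum]
    simp [smul_smul]
  refine ⟨Set.range L, ?_, ?_, fun x hx => ?_⟩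
  · rintro _ ⟨c, rfl⟩
    exact G.sum_mem fun i _ => G.smul_mem _ (hG i)
  · refine mk_range_le.trans ?_
    rcases isEmpty_or_nonempty D with hD | hD
    · exact (mk_le_aleph0).trans (le_max_right _ _)
    · rw [mk_finsupp_of_infinite']; simp
  · induction hx using Submodule.span_induction with
    | mem x hx =>
      obtain ⟨i, rfl⟩ := hx
      exact subset_closure ⟨Finsupp.single i 1, by simp [L]⟩
    | zero => exact subset_closure ⟨0, by simp [L]⟩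
    | add x y _ _ hx hy =>
      exact map_mem_closure₂ (f := fun x y : E => x + y) continuous_add hx hy (by
        rintro _ ⟨a, rfl⟩ _ ⟨b, rfl⟩; exact ⟨a + b, hadd a b⟩)
    | smul r x _ hx =>
      exact map_mem_closure₂ (f := fun (r : ℝ) (y : E) => r • y) continuous_smul
        (Rat.denseRange_cast r) hx (by
        rintro _ ⟨q, rfl⟩ _ ⟨b, rfl⟩; exact ⟨q • b, hsm q b⟩)
end real

variable {𝕜 E : Type} [RCLike 𝕜] [NormedAddCommGroup E] [NormedSpace 𝕜 E]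

lemma near (G₁ G₂ : Submodule 𝕜 E) {α : ℝ}
    (h : sSup ((fun x => Metric.infDist x (G₂ : Set E)) '' {x | x ∈ G₁ ∧ ‖x‖ = 1}) < α) :
    ∀ x ∈ G₁, ∃ y ∈ G₂, ‖x - y‖ ≤ α * ‖x‖ := by
  intro x hx
  by_cases h0 : x = 0
  · exact ⟨0, G₂.zero_mem, by simp [h0]⟩
  have hp : 0 < ‖x‖ := norm_pos_iff.2 h0
  have hk : ((‖x‖ : ℝ) : 𝕜) ≠ 0 := RCLike.ofReal_ne_zero.2 hp.ne'
  have h1 : ‖((‖x‖ : ℝ) : 𝕜)⁻¹ • x‖ = 1 := by rw [norm_smul]; simp [hp.ne']
  have h2 := (le_csSup (s := (fun x => Metric.infDist x (G₂ : Set E)) '' {x | x ∈ G₁ ∧ ‖x‖ = 1})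
    ⟨1, by
      rintro _ ⟨z, hz, rfl⟩
      simpa [hz.2] using Metric.infDist_le_dist_of_mem (x := z) G₂.zero_mem⟩
    ⟨_, ⟨G₁.smul_mem _ hx, h1⟩, rfl⟩).trans_lt h
  obtain ⟨y, hy, h3⟩ := (Metric.infDist_lt_iff ⟨0, G₂.zero_mem⟩).1 h2
  refine ⟨((‖x‖ : ℝ) : 𝕜) • y, G₂.smul_mem _ hy, ?_⟩
  have : x - ((‖x‖ : ℝ) : 𝕜) • y = ((‖x‖ : ℝ) : 𝕜) • (((‖x‖ : ℝ) : 𝕜)⁻¹ • x - y) := by
    rw [smul_sub, smul_smul, mul_inv_cancel₀ hk, one_smul]
  rw [this, norm_smul, RCLike.norm_ofReal, abs_norm, mul_comm, ← dist_eq_norm]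
  exact mul_le_mul_of_nonneg_right h3.le hp.le

lemma dens_spec (X : Type) [TopologicalSpace X] : ∃ D : Set X, Dense D ∧ #D = dens X :=
  csInf_mem (s := {c : Cardinal | ∃ D : Set X, Dense D ∧ Cardinal.mk D = c})
    ⟨_, Set.univ, dense_univ, rfl⟩

lemma aleph0_le_dens (G : Submodule 𝕜 E) (h : ¬ FiniteDimensional 𝕜 G) : ℵ₀ ≤ dens G := by
  obtain ⟨D, hD, h1⟩ := dens_spec G
  rw [← h1]
  by_contra hlt
  have hfin : D.Finite := lt_aleph0_iff_set_finite.1 (not_le.1 hlt)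
  have : D = Set.univ := by rw [← hfin.isClosed.closure_eq, hD.closure_eq]
  rw [this, Set.finite_univ_iff] at hfin
  exact h Module.Finite.of_finite

theorem not_lt' (G₁ G₂ : Submodule 𝕜 E)
    (h12 : ∀ x ∈ G₁, ∃ y ∈ G₂, ‖x - y‖ ≤ 0.51 * ‖x‖)
    (h21 : ∀ y ∈ G₂, ∃ x ∈ G₁, ‖y - x‖ ≤ 0.51 * ‖y‖) : ¬ dim G₁ < dim G₂ := by
  let : NormedSpace ℝ E := .restrictScalars ℝ 𝕜 E
  have : IsScalarTower ℝ 𝕜 E := .restrictScalars ℝ 𝕜 E
  intro hlt
  have hfin : ∀ G : Submodule 𝕜 E, FiniteDimensional 𝕜 G →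
      FiniteDimensional ℝ (G.restrictScalars ℝ) := fun G hG =>
    show Module.Finite ℝ G from Module.Finite.trans 𝕜 G
  by_cases f1 : FiniteDimensional 𝕜 G₁ <;> by_cases f2 : FiniteDimensional 𝕜 G₂ <;>
    simp only [dim, f1, f2, if_true, if_false] at hlt
  · have := hfin G₁ f1
    have := hfin G₂ f2
    refine kkm (G₁.restrictScalars ℝ) (G₂.restrictScalars ℝ) ?_ fun y hy h0 => ?_
    · show Module.finrank ℝ G₁ < Module.finrank ℝ G₂
      rw [← Module.finrank_mul_finrank ℝ 𝕜 G₁, ← Module.finrank_mul_finrank ℝ 𝕜 G₂]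
      exact Nat.mul_lt_mul_of_pos_left (by exact_mod_cast hlt) Module.finrank_pos
    · obtain ⟨x, hx, h⟩ := h21 y hy
      exact ⟨x, hx, h.trans_lt (by nlinarith [norm_pos_iff.2 h0])⟩
  · have : ProperSpace G₁ := FiniteDimensional.proper 𝕜 G₁
    obtain ⟨t, ht, ht'⟩ := Metric.totallyBounded_iff.1
      (isCompact_closedBall (0 : G₁) 2).totallyBounded 0.0003 (by norm_num)
    obtain ⟨h, h1, h2⟩ := core' (G₁.restrictScalars ℝ) (G₂.restrictScalars ℝ) h12 h21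
      (D := t) (fun i => (i.1 : E)) (fun g hg hg2 => by
        obtain ⟨i, hi, h3⟩ := Set.mem_iUnion₂.1 (ht' (show (⟨g, hg⟩ : G₁) ∈ Metric.closedBall 0 2 by
          simpa using hg2))
        exact ⟨⟨i, hi⟩, by rw [← dist_eq_norm]; exact h3⟩)
    have := ht.to_subtype
    have h3 : FiniteDimensional ℝ (Submodule.span ℝ (Set.range h)) :=
      FiniteDimensional.span_of_finite ℝ (Set.finite_range h)
    rw [(Submodule.closed_of_finiteDimensional _).closure_eq] at h2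
    have h4 : FiniteDimensional ℝ (G₂.restrictScalars ℝ) := Submodule.finiteDimensional_of_le h2
    have h5 : Module.Finite ℝ G₂ := h4
    exact f2 (Module.Finite.of_restrictScalars_finite ℝ 𝕜 G₂)
  · exact absurd ((aleph0_le_dens G₁ f1).trans_lt hlt) (not_lt.2 natCast_lt_aleph0.le)
  · obtain ⟨D, hD, hD'⟩ := dens_spec G₁
    obtain ⟨h, h1, h2⟩ := core' (G₁.restrictScalars ℝ) (G₂.restrictScalars ℝ) h12 h21
      (D := D) (fun i => (i.1 : E)) (fun g hg _ => by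
        obtain ⟨i, hi, h3⟩ := hD.exists_dist_lt ⟨g, hg⟩ (show (0:ℝ) < 0.0003 by norm_num)
        exact ⟨⟨i, hi⟩, by rw [← dist_eq_norm]; exact h3⟩)
    obtain ⟨A, hA1, hA2, hA3⟩ := rat_dense h _ h1
    have h3 : (G₂ : Set E) ⊆ closure A := h2.trans (closure_minimal hA3 isClosed_closure)
    have h4 : dens G₂ ≤ #A := by
      refine le_trans (csInf_le' ⟨Subtype.val ⁻¹' A, ?_, rfl⟩)
        (mk_preimage_of_injective _ _ Subtype.val_injective)
      refine Subtype.dense_iff.2 ?_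
      exact h3.trans (closure_mono fun x hx => ⟨⟨x, hA1 hx⟩, hx, rfl⟩)
    rw [hD', max_eq_left (aleph0_le_dens G₁ f1)] at hA2
    exact absurd hlt (not_lt.2 (h4.trans hA2))

theorem main (G₁ G₂ : Submodule 𝕜 E) (h : opening G₁ G₂ < 0.51) : dim G₁ = dim G₂ := by
  have h12 := near G₁ G₂ ((le_max_left _ _).trans_lt h)
  have h21 := near G₂ G₁ ((le_max_right _ _).trans_lt h)
  exact le_antisymm (not_lt.1 (not_lt' G₂ G₁ h21 h12)) (not_lt.1 (not_lt' G₁ G₂ h12 h21))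

end Pool.Agent.H87.Gap
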