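import Mathlib

/-! Maximal filters with a convex basis, and the asymptotic norm along such a filter. -/

set_option autoImplicit false

namespace Pool.Agent.H87.GatA

open Filter Topology Set

theorem exists_filter {V : Type*} [AddCommGroup V] [Module ℝ V] (C : ℕ → Set V)
    (hc : ∀ n, Convex ℝ (C n)) (hne : ∀ n, (C n).Nonempty) (ha : Antitone C) :
    ∃ F : Filter V, F.NeBot ∧ (∀ n, C n ∈ F) ∧ (∀ s ∈ F, ∃ t ∈ F, t ⊆ s ∧ Convex ℝ t) ∧
      ∀ B, Convex ℝ B → (∃ᶠ u in F, u ∈ B) → B ∈ F := by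
  let S : Set (Filter V) :=
    {F | F.NeBot ∧ (∀ n, C n ∈ F) ∧ ∀ s ∈ F, ∃ t ∈ F, t ⊆ s ∧ Convex ℝ t}
  have hd : Directed (· ≥ ·) fun n => 𝓟 (C n) :=
    Antitone.directed_ge fun _ _ h => principal_mono.2 (ha h)
  have h0 : (⨅ n, 𝓟 (C n)) ∈ S := by
    refine ⟨iInf_neBot_of_directed' hd fun n => principal_neBot_iff.2 (hne n),
      fun n => mem_iInf_of_mem n (mem_principal_self _), fun s hs => ?_⟩
    obtain ⟨n, hn⟩ := (mem_iInf_of_directed hd s).1 hs
    exact ⟨C n, mem_iInf_of_mem n (mem_principal_self _), hn, hc n⟩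
  obtain ⟨F, -, hF⟩ := zorn_le_nonempty₀ {F : (Filter V)ᵒᵈ | OrderDual.ofDual F ∈ S}
    (fun c hcS hch y hy => by
    have : Nonempty c := ⟨⟨y, hy⟩⟩
    let f : c → Filter V := fun G => OrderDual.ofDual G.1
    have hdir : Directed (· ≥ ·) f := fun a b => by
      rcases hch.total a.2 b.2 with h | h
      · exact ⟨b, h, le_rfl⟩
      · exact ⟨a, le_rfl, h⟩
    have hS : iInf f ∈ S := by
      refine ⟨iInf_neBot_of_directed' hdir fun G => (hcS G.2).1,
        fun n => mem_iInf_of_mem ⟨y, hy⟩ ((hcS hy).2.1 n), fun s hs => ?_⟩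
      obtain ⟨G, hG⟩ := (mem_iInf_of_directed hdir s).1 hs
      obtain ⟨t, h1, h2, h3⟩ := (hcS G.2).2.2 s hG
      exact ⟨t, mem_iInf_of_mem G h1, h2, h3⟩
    exact ⟨OrderDual.toDual (iInf f), hS, fun z hz => iInf_le f ⟨z, hz⟩⟩)
    (OrderDual.toDual (⨅ n, 𝓟 (C n))) h0
  let F' : Filter V := OrderDual.ofDual F
  have hF1 : F' ∈ S := hF.1
  refine ⟨F', hF1.1, hF1.2.1, hF1.2.2, fun B hB hfr => ?_⟩
  have hG : (F' ⊓ 𝓟 B) ∈ S := by
    refine ⟨frequently_iff_neBot.1 hfr, fun n => mem_inf_of_left (hF1.2.1 n), fun s hs => ?_⟩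
    obtain ⟨t, h1, h2, h3⟩ := hF1.2.2 _ (mem_inf_principal.1 hs)
    exact ⟨t ∩ B, inter_mem_inf h1 (mem_principal_self _), fun x hx => h2 hx.1 hx.2, h3.inter hB⟩
  have h1 : F' ≤ F' ⊓ 𝓟 B :=
    hF.2 (y := OrderDual.toDual (F' ⊓ 𝓟 B)) hG (inf_le_left : F' ⊓ 𝓟 B ≤ F')
  exact le_principal_iff.1 (h1.trans inf_le_right)

variable {X : Type*} [NormedAddCommGroup X] [NormedSpace ℝ X]

theorem exists_lim (F : Filter X) [F.NeBot] (h1 : ∀ᶠ u in F, ‖u‖ ≤ 1)
    (hmax : ∀ B, Convex ℝ B → (∃ᶠ u in F, u ∈ B) → B ∈ F) (z : X) (T : ℝ) :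
    ∃ L, Tendsto (fun u => ‖z + T • u‖) F (𝓝 L) := by
  have hb : ∀ᶠ u in F, ‖z + T • u‖ ≤ ‖z‖ + ‖T‖ := h1.mono fun u hu => by
    refine (norm_add_le _ _).trans ?_
    rw [norm_smul]
    linarith [mul_le_of_le_one_right (norm_nonneg T) hu]
  have hbd : IsBoundedUnder (· ≥ ·) F fun u => ‖z + T • u‖ :=
    isBoundedUnder_of ⟨0, fun u => norm_nonneg _⟩
  have hcb : IsCoboundedUnder (· ≥ ·) F fun u => ‖z + T • u‖ :=
    IsBoundedUnder.isCoboundedUnder_ge ⟨_, hb⟩
  refine ⟨liminf (fun u => ‖z + T • u‖) F, tendsto_order.2 ⟨fun a ha => ?_, fun a ha => ?_⟩⟩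
  · exact eventually_lt_of_lt_liminf ha hbd
  · refine hmax {u | ‖z + T • u‖ < a} ?_ (frequently_lt_of_liminf_lt hcb ha)
    intro u hu v hv p q hp hq hpq
    have := convex_ball (0 : X) a (mem_ball_zero_iff.2 hu) (mem_ball_zero_iff.2 hv) hp hq hpq
    rw [mem_ball_zero_iff] at this
    have e : z + T • (p • u + q • v) = p • (z + T • u) + q • (z + T • v) := by
      have : z = (p + q) • z := by rw [hpq, one_smul]
      conv_lhs => rw [this]
      module
    show ‖z + T • (p • u + q • v)‖ < a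
    rwa [e]

theorem second (φ : ℝ → ℝ) (hφ : ∀ s t, φ s ≤ φ t + |s - t|) {η ρ : ℝ} (hη : 0 < η)
    (hρ : 0 < ρ) : ∃ s r, |s| ≤ ρ ∧ 0 < r ∧ φ (s + r) + φ (s - r) - 2 * φ s ≤ η * r := by
  obtain ⟨M, hM⟩ := exists_nat_gt (2 / η)
  by_contra hn
  push Not at hn
  let r : ℝ := ρ / (M + 1)
  have hr : 0 < r := by positivity
  have hrM : (M + 1) * r = ρ := by simp only [r]; field_simp
  have key : ∀ i : ℕ, i ≤ M → φ r - φ 0 + i * (η * r) ≤ φ ((i + 1) * r) - φ (i * r) := by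
    intro i
    induction i with
    | zero => intro _; simp
    | succ i ih =>
      intro hi
      have h1 := ih (by omega)
      have hi' : (i : ℝ) + 1 ≤ M := by exact_mod_cast hi
      have h2 := hn ((i + 1) * r) r (by
        rw [abs_of_nonneg (by positivity)]; nlinarith) hr
      have e1 : ((i : ℝ) + 1) * r + r = (((i + 1 : ℕ) : ℝ) + 1) * r := by push_cast; ring
      have e2 : ((i : ℝ) + 1) * r - r = i * r := by ring
      rw [e1, e2] at h2
      push_cast at h2 ⊢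
      linarith
  have h1 := key M le_rfl
  have h2 := hφ ((M + 1) * r) (M * r)
  have h3 := hφ 0 r
  have e1 : |((M : ℝ) + 1) * r - M * r| = r := by
    rw [show ((M : ℝ) + 1) * r - M * r = r by ring, abs_of_pos hr]
  rw [e1] at h2
  rw [zero_sub, abs_neg, abs_of_pos hr] at h3
  rw [div_lt_iff₀ hη] at hM
  nlinarith

section
variable {F : Filter X} [F.NeBot] {Γ : X → ℝ → ℝ}
  (hΓ : ∀ z T, Tendsto (fun u => ‖z + T • u‖) F (𝓝 (Γ z T)))
include hΓ

theorem lip (z z' : X) (T : ℝ) : Γ z T ≤ Γ z' T + ‖z - z'‖ :=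
  le_of_tendsto_of_tendsto' (hΓ z T) ((hΓ z' T).add_const _) fun u => by
    have := norm_add_le (z' + T • u) (z - z')
    rwa [show z' + T • u + (z - z') = z + T • u by abel] at this

theorem cvx (z : X) {T l : ℝ} (hT : 0 < T) (hl : 0 < l) :
    (T + l) * Γ z T ≤ T * Γ z (T + l) + l * ‖z‖ :=
  le_of_tendsto_of_tendsto' ((hΓ z T).const_mul _) (((hΓ z (T + l)).const_mul _).add_const _)
    fun u => by
      have e : (T + l) • (z + T • u) = T • (z + (T + l) • u) + l • z := by module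
      have h1 := norm_add_le (T • (z + (T + l) • u)) (l • z)
      rw [← e, norm_smul, norm_smul, norm_smul, Real.norm_of_nonneg hT.le,
        Real.norm_of_nonneg hl.le, Real.norm_of_nonneg (add_pos hT hl).le] at h1
      exact h1

theorem key (hcv : ∀ s ∈ F, ∃ t ∈ F, t ⊆ s ∧ Convex ℝ t) (z : X) {T l ε : ℝ} (hT : 0 < T)
    (hl : 0 < l) (hε : 0 < ε) : ∀ᶠ u in F, Γ z (T + l) - ε ≤ Γ (z + T • u) l := by
  have h1 : ∀ᶠ w in F, Γ z (T + l) - ε ≤ ‖z + (T + l) • w‖ :=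
    (hΓ z (T + l)).eventually_const_le (by linarith)
  obtain ⟨A, hA, hA1, hA2⟩ := hcv _ h1
  filter_upwards [hA] with u hu
  refine ge_of_tendsto (hΓ _ _) ?_
  filter_upwards [hA] with u' hu'
  have hTl : 0 < T + l := by positivity
  have h2 := hA1 (hA2 hu hu' (a := T / (T + l)) (b := l / (T + l)) (by positivity)
    (by positivity) (by field_simp))
  have e : z + (T + l) • ((T / (T + l)) • u + (l / (T + l)) • u') = z + T • u + l • u' := by
    rw [smul_add, smul_smul, smul_smul, mul_div_cancel₀ _ hTl.ne', mul_div_cancel₀ _ hTl.ne',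
      add_assoc]
  rw [← e]
  exact h2

theorem step (hcv : ∀ s ∈ F, ∃ t ∈ F, t ⊆ s ∧ Convex ℝ t) (z v : X) (hv : ‖v‖ ≤ 1)
    {l θ η : ℝ} (hl : 0 < l) (hη : 0 < η) (hz : θ * l ≤ Γ z l - ‖z‖) {A : Set X} (hA : A ∈ F) :
    ∃ (s r l' : ℝ) (u : X), |s| ≤ η * l ∧ 0 < r ∧ 0 < l' ∧ l' ≤ η * r ∧ l' ≤ l / 2 ∧ u ∈ A ∧
      ‖z + s • v + l • u + r • v‖ + ‖z + s • v + l • u - r • v‖ - 2 * ‖z + s • v + l • u‖
        ≤ 5 * (η * r) ∧
      (θ - 2 * η) * l ≤ ‖z + s • v + l • u‖ - ‖z‖ ∧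
      (θ - 4 * η) * l' ≤ Γ (z + s • v + l • u) l' - ‖z + s • v + l • u‖ := by
  obtain ⟨s, r, hs, hr, h2⟩ := second (fun s => Γ (z + s • v) l) (fun s t => by
    refine (lip hΓ _ (z + t • v) l).trans (add_le_add_right ?_ _)
    rw [add_sub_add_left_eq_sub, ← sub_smul, norm_smul, Real.norm_eq_abs]
    exact mul_le_of_le_one_right (abs_nonneg _) hv) hη (mul_pos hη hl)
  let l' := min (η * r) (l / 2)
  have hl' : 0 < l' := lt_min (by positivity) (by positivity)
  have hsv : ‖s • v‖ ≤ η * l := by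
    rw [norm_smul, Real.norm_eq_abs]
    exact (mul_le_of_le_one_right (abs_nonneg _) hv).trans hs
  have a1 : Γ z l ≤ Γ (z + s • v) l + η * l := by
    refine (lip hΓ _ (z + s • v) l).trans (add_le_add_right ?_ _)
    rwa [sub_add_cancel_left, norm_neg]
  have a2 : ‖z + s • v‖ ≤ ‖z‖ + η * l := (norm_add_le _ _).trans (add_le_add_right hsv _)
  have a3 := cvx hΓ (z + s • v) hl hl'
  have a4 : (θ - 2 * η) * l' ≤ Γ (z + s • v) (l + l') - Γ (z + s • v) l := by
    have b1 : (θ - 2 * η) * l ≤ Γ (z + s • v) l - ‖z + s • v‖ := by linarith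
    have b2 := mul_le_mul_of_nonneg_left b1 hl'.le
    refine le_of_mul_le_mul_left ?_ hl
    linarith
  have e1 := key hΓ hcv (z + s • v) hl hl' (mul_pos hη hl')
  have e2 := (hΓ (z + s • v) l).eventually_le_const (u := Γ (z + s • v) l + η * l')
    (by linarith [mul_pos hη hl'])
  have e3 := (hΓ (z + s • v) l).eventually_const_le
    (u := Γ (z + s • v) l - min (η * l) (η * r))
    (by linarith [lt_min (mul_pos hη hl) (mul_pos hη hr)])
  have e4 := (hΓ (z + (s + r) • v) l).eventually_le_const (u := Γ (z + (s + r) • v) l + η * r)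
    (by linarith [mul_pos hη hr])
  have e5 := (hΓ (z + (s - r) • v) l).eventually_le_const (u := Γ (z + (s - r) • v) l + η * r)
    (by linarith [mul_pos hη hr])
  obtain ⟨u, u1, u2, u3, u4, u5, u6⟩ := (e1.and (e2.and (e3.and (e4.and (e5.and hA))))).exists
  refine ⟨s, r, l', u, hs, hr, hl', min_le_left _ _, min_le_right _ _, u6, ?_, ?_, ?_⟩
  · have f1 : z + s • v + l • u + r • v = z + (s + r) • v + l • u := by module
    have f2 : z + s • v + l • u - r • v = z + (s - r) • v + l • u := by module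
    rw [f1, f2]
    linarith [min_le_right (η * l) (η * r)]
  · linarith [min_le_left (η * l) (η * r)]
  · linarith

end

end Pool.Agent.H87.GatA
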