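import Pool.Agent.H87.GatA

/-! A point of Gateaux smoothness whose support functional avoids a given separable set. -/

set_option autoImplicit false

namespace Pool.Agent.H87.GatB

open Filter Topology Set GatA

theorem exists_rec {α : Type*} (P : ℕ → α → Prop) (R : ℕ → α → α → Prop) (a0 : α) (h0 : P 0 a0)
    (h : ∀ n a, P n a → ∃ b, P (n + 1) b ∧ R n a b) :
    ∃ f : ℕ → α, f 0 = a0 ∧ ∀ n, P n (f n) ∧ R n (f n) (f (n + 1)) := by
  choose g hg1 hg2 using h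
  let s : ∀ n, {a // P n a} := fun n => Nat.rec ⟨a0, h0⟩ (fun n a => ⟨g n a.1 a.2, hg1 n a.1 a.2⟩) n
  exact ⟨fun n => (s n).1, rfl, fun n => ⟨(s n).2, hg2 n (s n).1 (s n).2⟩⟩

variable {X : Type*} [NormedAddCommGroup X] [NormedSpace ℝ X]

theorem exists_dirs [TopologicalSpace.SeparableSpace X] : ∃ v : ℕ → X, (∀ n, ‖v n‖ ≤ 1) ∧
    ∀ h : X, ‖h‖ ≤ 1 → ∀ ε > 0, ∀ N, ∃ n ≥ N, ‖v n - h‖ < ε := by
  have := UniformSpace.secondCountable_of_separable X
  have : Nonempty (Metric.closedBall (0 : X) 1) := ⟨⟨0, by simp⟩⟩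
  let w := TopologicalSpace.denseSeq (Metric.closedBall (0 : X) 1)
  refine ⟨fun n => (w n.unpair.1).1, fun n => mem_closedBall_zero_iff.1 (w _).2,
    fun h hh ε hε N => ?_⟩
  obtain ⟨k, hk⟩ := (TopologicalSpace.denseRange_denseSeq
    (Metric.closedBall (0 : X) 1)).exists_dist_lt ⟨h, mem_closedBall_zero_iff.2 hh⟩ hε
  refine ⟨Nat.pair k N, Nat.right_le_pair _ _, ?_⟩
  simp only [Nat.unpair_pair]
  rw [← dist_eq_norm, dist_comm]
  exact hk

theorem exists_point [CompleteSpace X] [TopologicalSpace.SeparableSpace X]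
    (d : ℕ → X →L[ℝ] ℝ) (a : X →L[ℝ] ℝ) {δ : ℝ} (hδ : 0 < δ) (ha : ‖a‖ ≤ 1)
    (hC : ∀ n, ∃ u : X, ‖u‖ ≤ 1 ∧ δ ≤ a u ∧ ∀ i < n, d i u = 0) :
    ∃ z : X, z ≠ 0 ∧ (∀ h : X, ‖h‖ ≤ 1 → ∀ ε > 0, ∃ r > 0,
      ‖z + r • h‖ + ‖z - r • h‖ - 2 * ‖z‖ ≤ ε * r) ∧
      ∀ y : X →L[ℝ] ℝ, ‖y‖ ≤ 1 → y z = ‖z‖ → y ∉ closure (range d) := by
  have hle : ∀ (y : X →L[ℝ] ℝ) (u : X), y u ≤ ‖y‖ * ‖u‖ := fun y u =>
    (le_abs_self _).trans (y.le_opNorm u)
  have hle1 : ∀ (y : X →L[ℝ] ℝ), ‖y‖ ≤ 1 → ∀ u : X, y u ≤ ‖u‖ := fun y hy u =>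
    (hle y u).trans (mul_le_of_le_one_left (norm_nonneg _) hy)
  let C : ℕ → Set X := fun n => {u | ‖u‖ ≤ 1 ∧ δ ≤ a u ∧ ∀ i < n, d i u = 0}
  obtain ⟨F, hF, hCF, hcv, hmax⟩ := exists_filter C (fun n => by
    intro u hu w hw p q hp hq hpq
    refine ⟨?_, ?_, fun i hi => ?_⟩
    · exact mem_closedBall_zero_iff.1 (convex_closedBall (0 : X) 1
        (mem_closedBall_zero_iff.2 hu.1) (mem_closedBall_zero_iff.2 hw.1) hp hq hpq)
    · rw [map_add, map_smul, map_smul, smul_eq_mul, smul_eq_mul]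
      have h1 := mul_le_mul_of_nonneg_left hu.2.1 hp
      have h2 := mul_le_mul_of_nonneg_left hw.2.1 hq
      have : δ = (p + q) * δ := by rw [hpq, one_mul]
      linarith
    · rw [map_add, map_smul, map_smul, hu.2.2 i hi, hw.2.2 i hi]; simp) hC
    (fun n m h u hu => ⟨hu.1, hu.2.1, fun i hi => hu.2.2 i (hi.trans_le h)⟩)
  choose Γ hΓ using exists_lim F (mem_of_superset (hCF 0) fun u hu => hu.1) hmax
  obtain ⟨v, hv1, hv2⟩ := exists_dirs (X := X)
  have hδ1 : δ ≤ 1 := by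
    obtain ⟨u, h1, h2, -⟩ := hC 0
    linarith [hle1 a ha u]
  let η : ℕ → ℝ := fun n => δ / 16 * (1 / 2) ^ n
  have η0 : ∀ n, 0 < η n := fun n => by positivity
  have ηs : ∀ n, η (n + 1) = η n / 2 := fun n => by simp only [η]; ring
  have η1 : ∀ n, η n ≤ 1 := fun n => by
    have : ((1 : ℝ) / 2) ^ n ≤ 1 := pow_le_one₀ (by norm_num) (by norm_num)
    simp only [η]; nlinarith
  have ηt : Tendsto η atTop (𝓝 0) := by
    have := (tendsto_pow_atTop_nhds_zero_of_lt_one (r := (1 / 2 : ℝ)) (by norm_num)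
      (by norm_num)).const_mul (δ / 16)
    rwa [mul_zero] at this
  obtain ⟨p, p0, hp⟩ := exists_rec
    (fun n (p : X × ℝ) => 0 < p.2 ∧ (δ / 2 + 8 * η n) * p.2 ≤ Γ p.1 p.2 - ‖p.1‖)
    (fun n p q => ∃ (s r : ℝ) (u : X), |s| ≤ η n * p.2 ∧ 0 < r ∧ q.2 ≤ η n * r ∧ q.2 ≤ p.2 / 2 ∧
      u ∈ C n ∧ q.1 = p.1 + s • v n + p.2 • u ∧
      ‖q.1 + r • v n‖ + ‖q.1 - r • v n‖ - 2 * ‖q.1‖ ≤ 5 * (η n * r) ∧
      δ / 2 * p.2 ≤ ‖q.1‖ - ‖p.1‖) (0, 1)
    ⟨one_pos, by
      have : δ ≤ Γ 0 1 := ge_of_tendsto (hΓ 0 1) (mem_of_superset (hCF 0) fun u hu => by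
        show δ ≤ ‖0 + (1 : ℝ) • u‖
        rw [zero_add, one_smul]; exact hu.2.1.trans (hle1 a ha u))
      simp only [η, norm_zero]; linarith⟩
    (fun n p hp => by
      obtain ⟨s, r, l', u, h1, h2, h3, h4, h5, h6, h7, h8, h9⟩ :=
        step hΓ hcv p.1 (v n) (hv1 n) hp.1 (η0 n) hp.2 (hCF n)
      refine ⟨(p.1 + s • v n + p.2 • u, l'), ⟨h3, ?_⟩, s, r, u, h1, h2, h4, h5, h6, rfl, h7, ?_⟩
      · rw [ηs]; convert h9 using 2; ring
      · have := mul_pos (η0 n) hp.1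
        linarith)
  choose s r u hs hr h1 h2 hu hz h3 h4 using fun n => (hp n).2
  have l0 : ∀ n, 0 < (p n).2 := fun n => (hp n).1.1
  have hsv : ∀ n, ‖s n • v n‖ ≤ η n * (p n).2 := fun n => by
    rw [norm_smul, Real.norm_eq_abs]
    exact (mul_le_of_le_one_right (abs_nonneg _) (hv1 n)).trans (hs n)
  have d1 : ∀ n, ‖(p (n + 1)).1 - (p n).1‖ ≤ 2 * (p n).2 := fun n => by
    rw [hz, add_assoc, add_sub_cancel_left]
    refine (norm_add_le _ _).trans ?_
    have a1 := hsv n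
    have a2 := mul_le_of_le_one_left (l0 n).le (η1 n)
    have a3 : ‖(p n).2 • u n‖ ≤ (p n).2 := by
      rw [norm_smul, Real.norm_of_nonneg (l0 n).le]
      exact mul_le_of_le_one_right (l0 n).le (hu n).1
    linarith
  have l1 : ∀ n, (p n).2 ≤ 1 / 2 ^ n := fun n => by
    induction n with
    | zero => rw [p0]; norm_num
    | succ n ih => rw [pow_succ, ← div_div]; linarith [h2 n]
  obtain ⟨z, hzt⟩ := cauchySeq_tendsto_of_complete (cauchySeq_of_le_geometric_two (C := 4)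
    (f := fun n => (p n).1) fun n => by
      rw [dist_comm, dist_eq_norm]
      have := l1 n
      have e : (4 : ℝ) / 2 / 2 ^ n = 2 * (1 / 2 ^ n) := by ring
      rw [e]; linarith [d1 n])
  have d2 : ∀ n k, ‖(p (k + n)).1 - (p n).1‖ + 4 * (p (k + n)).2 ≤ 4 * (p n).2 := fun n k => by
    induction k with
    | zero => simp
    | succ k ih =>
      have := norm_sub_le_norm_sub_add_norm_sub (p (k + n + 1)).1 (p (k + n)).1 (p n).1
      rw [show k + 1 + n = k + n + 1 by omega]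
      linarith [d1 (k + n), h2 (k + n)]
  have d3 : ∀ n, ‖z - (p n).1‖ ≤ 4 * (p n).2 := fun n =>
    le_of_tendsto' ((((tendsto_add_atTop_iff_nat n).2 hzt).sub_const _).norm) fun k => by
      linarith [d2 n k, l0 (k + n)]
  have key : ∀ y : X →L[ℝ] ℝ, ‖y‖ ≤ 1 → y z = ‖z‖ → ∀ N,
      (∀ n ≥ N, y ((p (n + 1)).1 - (p n).1) ≤ δ / 4 * (p n).2) → False := by
    intro y hy hyz N hN
    have m1 : ∀ k, δ / 4 * (p N).2 ≤ ‖(p (k + (N + 1))).1‖ - y (p (k + (N + 1))).1 := fun k => by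
      induction k with
      | zero =>
        have := hN N le_rfl
        rw [map_sub] at this
        rw [zero_add]
        linarith [h4 N, hle1 y hy (p N).1]
      | succ k ih =>
        have := hN (k + (N + 1)) (by omega)
        rw [map_sub] at this
        rw [show k + 1 + (N + 1) = k + (N + 1) + 1 by omega]
        have a1 := mul_pos hδ (l0 (k + (N + 1)))
        linarith [h4 (k + (N + 1))]
    have ht := (tendsto_add_atTop_iff_nat (N + 1)).2 hzt
    have := ge_of_tendsto' (ht.norm.sub ((y.continuous.tendsto z).comp ht)) m1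
    have a1 := mul_pos hδ (l0 N)
    linarith
  refine ⟨z, fun h0 => key 0 (by simp) (by simp [h0]) 0 fun n _ => ?_, fun h hh ε hε => ?_,
    fun y hy hyz hcl => ?_⟩
  · have := mul_pos hδ (l0 n)
    rw [_root_.zero_apply]; linarith
  · obtain ⟨N, hN⟩ := eventually_atTop.1 (ηt.eventually_le_const (u := ε / 23) (by positivity))
    obtain ⟨n, hn, hn'⟩ := hv2 h hh (ε / 23) (by positivity) N
    refine ⟨r n, hr n, ?_⟩
    have a1 : ‖r n • (v n - h)‖ ≤ r n * (ε / 23) := by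
      rw [norm_smul, Real.norm_of_nonneg (hr n).le]
      exact mul_le_mul_of_nonneg_left hn'.le (hr n).le
    have a2 : ‖z + r n • h‖ ≤ ‖(p (n + 1)).1 + r n • v n‖ + ‖z - (p (n + 1)).1‖
        + ‖r n • (v n - h)‖ := by
      refine le_trans (le_of_eq ?_) ((norm_sub_le _ _).trans
        (add_le_add_left (norm_add_le _ _) _))
      congr 1; module
    have a3 : ‖z - r n • h‖ ≤ ‖(p (n + 1)).1 - r n • v n‖ + ‖z - (p (n + 1)).1‖
        + ‖r n • (v n - h)‖ := by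
      refine le_trans (le_of_eq ?_) ((norm_add_le _ _).trans
        (add_le_add_left (norm_add_le _ _) _))
      congr 1; module
    have a4 : ‖(p (n + 1)).1‖ ≤ ‖z‖ + ‖z - (p (n + 1)).1‖ := by
      refine le_trans (le_of_eq ?_) (norm_sub_le _ _)
      congr 1; abel
    have a5 := mul_le_mul_of_nonneg_right (hN n hn) (hr n).le
    linarith [d3 (n + 1), h1 n, h3 n]
  · obtain ⟨_, ⟨i, rfl⟩, hi⟩ := Metric.mem_closure_iff.1 hcl (δ / 8) (by positivity)
    obtain ⟨N, hN⟩ := eventually_atTop.1 (ηt.eventually_le_const (u := δ / 8) (by positivity))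
    refine key y hy hyz (max N (i + 1)) fun n hn => ?_
    rw [hz, add_assoc, add_sub_cancel_left, map_add, map_smul y (p n).2, smul_eq_mul]
    have a1 := (hle1 y hy _).trans (hsv n)
    have a2 := mul_le_mul_of_nonneg_right (hN n (le_of_max_le_left hn)) (l0 n).le
    have a3 : y (u n) ≤ δ / 8 := by
      have b1 := hle (y - d i) (u n)
      rw [_root_.sub_apply, (hu n).2.2 i (le_of_max_le_right hn), sub_zero] at b1
      rw [dist_eq_norm] at hi
      have b2 := mul_le_of_le_one_right (norm_nonneg (y - d i)) (hu n).1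
      linarith
    have a4 := mul_le_mul_of_nonneg_left a3 (l0 n).le
    linarith

/-- symmetric second differences of the norm at `z` are small at some scales -/
def Sm (z : X) : Prop :=
  ∀ h : X, ∀ ε > 0, ∃ r > (0 : ℝ), ‖z + r • h‖ + ‖z - r • h‖ - 2 * ‖z‖ ≤ ε * r

theorem sm_of (z : X) (H : ∀ h : X, ‖h‖ ≤ 1 → ∀ ε > 0, ∃ r > (0 : ℝ),
    ‖z + r • h‖ + ‖z - r • h‖ - 2 * ‖z‖ ≤ ε * r) {c : ℝ} (hc : 0 < c) : Sm (c • z) := by
  intro h ε hε
  have hM : 0 < ‖h‖ + 1 := by positivity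
  obtain ⟨r, hr, h1⟩ := H ((‖h‖ + 1)⁻¹ • h) (by
    rw [norm_smul, norm_inv, Real.norm_of_nonneg hM.le, inv_mul_le_iff₀ hM]; linarith)
    (ε / (‖h‖ + 1)) (by positivity)
  refine ⟨c * (r * (‖h‖ + 1)⁻¹), by positivity, ?_⟩
  rw [smul_smul] at h1
  rw [mul_smul, ← smul_add, ← smul_sub, norm_smul, norm_smul, norm_smul,
    Real.norm_of_nonneg hc.le]
  have h2 := mul_le_mul_of_nonneg_left h1 hc.le
  have e : c * (ε / (‖h‖ + 1) * r) = ε * (c * (r * (‖h‖ + 1)⁻¹)) := by ring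
  linarith

theorem Sm.deriv {z : X} (H : Sm z) (f : X →L[ℝ] ℝ) (hf : ‖f‖ ≤ 1) (hz : f z = ‖z‖) (v : X) :
    HasLineDerivAt ℝ (fun y : X => ‖y‖) (f v) z v := by
  have hle : ∀ u : X, f u ≤ ‖u‖ := fun u =>
    (le_abs_self _).trans ((f.le_opNorm u).trans (mul_le_of_le_one_left (norm_nonneg _) hf))
  have g0 : ∀ (w : X) (t : ℝ), 0 ≤ ‖z + t • w‖ - ‖z‖ - t * f w := fun w t => by
    have := hle (z + t • w)
    rw [map_add, map_smul, hz, smul_eq_mul] at this
    linarith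
  have g1 : ∀ (w : X) (t r ε : ℝ), 0 ≤ t → t ≤ r → 0 < r →
      ‖z + r • w‖ + ‖z - r • w‖ - 2 * ‖z‖ ≤ ε * r → ‖z + t • w‖ - ‖z‖ - t * f w ≤ ε * t := by
    intro w t r ε ht htr hr h
    have a1 := g0 w (-r)
    rw [neg_smul, ← sub_eq_add_neg] at a1
    have e : r • (z + t • w) = (r - t) • z + t • (z + r • w) := by module
    have a2 := norm_add_le ((r - t) • z) (t • (z + r • w))
    rw [← e, norm_smul, norm_smul, norm_smul, Real.norm_of_nonneg hr.le, Real.norm_of_nonneg ht,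
      Real.norm_of_nonneg (sub_nonneg.2 htr)] at a2
    have a3 : ‖z + r • w‖ - ‖z‖ - r * f w ≤ ε * r := by linarith
    have a4 := mul_le_mul_of_nonneg_left a3 ht
    refine le_of_mul_le_mul_left ?_ hr
    linarith
  unfold HasLineDerivAt
  rw [hasDerivAt_iff_isLittleO_nhds_zero, Asymptotics.isLittleO_iff]
  intro ε hε
  obtain ⟨r, hr, h⟩ := H v ε hε
  filter_upwards [Icc_mem_nhds (show -r < 0 by linarith) hr] with t ht
  rw [zero_add, zero_smul, add_zero, smul_eq_mul, Real.norm_of_nonneg (g0 v t), Real.norm_eq_abs]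
  rcases le_total 0 t with h0 | h0
  · rw [abs_of_nonneg h0]; exact g1 v t r ε h0 ht.2 hr h
  · have := g1 (-v) (-t) r ε (by linarith) (by linarith [ht.1]) hr (by
      rw [smul_neg, ← sub_eq_add_neg, sub_neg_eq_add]; linarith)
    rw [smul_neg, neg_smul, neg_neg, map_neg] at this
    rw [abs_of_nonpos h0]; linarith

theorem main [CompleteSpace X] [TopologicalSpace.SeparableSpace X]
    (hns : ¬ TopologicalSpace.SeparableSpace (X →L[ℝ] ℝ)) (d : ℕ → X →L[ℝ] ℝ) :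
    ∃ x : X, ‖x‖ = 1 ∧ Sm x ∧ ∀ y : X →L[ℝ] ℝ, ‖y‖ ≤ 1 → y x = 1 → y ∉ closure (range d) := by
  obtain ⟨b, hb⟩ : ∃ b, b ∉ closure (Submodule.span ℝ (range d) : Set (X →L[ℝ] ℝ)) := by
    by_contra hn
    push Not at hn
    exact hns (TopologicalSpace.isSeparable_univ_iff.1
      ((countable_range d).isSeparable.span.closure.mono fun b _ => hn b))
  rw [Metric.mem_closure_iff] at hb
  push Not at hb
  obtain ⟨ε, hε, hb⟩ := hb
  have hb0 : 0 < ‖b‖ := by
    have := hb 0 (Submodule.zero_mem _)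
    rw [dist_zero_right] at this
    linarith
  have hC : ∀ n, ∃ u : X, ‖u‖ ≤ 1 ∧ ε / 2 ≤ b u ∧ ∀ i < n, d i u = 0 := by
    intro n
    by_contra hn
    push Not at hn
    let ev : Fin n → X →ₗ[ℝ] ℝ := fun i => (d i).toLinearMap
    let N : Submodule ℝ X := ⨅ i, (ev i).ker
    obtain ⟨G, hG1, hG2⟩ := exists_extension_norm_eq N (b.comp N.subtypeL)
    have h1 : ‖G‖ ≤ ε / 2 := by
      rw [hG2]
      refine ContinuousLinearMap.opNorm_le_of_unit_norm (by positivity) fun u hu => ?_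
      have k : ∀ w : N, ‖w‖ = 1 → b w < ε / 2 := fun w hw => by
        by_contra hlt
        obtain ⟨i, hi, hi'⟩ := hn w hw.le (not_lt.1 hlt)
        exact hi' ((Submodule.mem_iInf _).1 w.2 ⟨i, hi⟩)
      have k1 := k u hu
      have k2 := k (-u) (by rw [norm_neg, hu])
      rw [Submodule.coe_neg, map_neg] at k2
      show |b u| ≤ ε / 2
      rw [abs_le]; constructor <;> linarith
    have h2 := mem_span_of_iInf_ker_le_ker (L := ev) (K := b.toLinearMap - G.toLinearMap)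
      fun f hf => by
        have := hG1 ⟨f, hf⟩
        show b f - G f = 0
        rw [sub_eq_zero]; exact this.symm
    obtain ⟨c, hc⟩ := (Submodule.mem_span_range_iff_exists_fun ℝ).1 h2
    have h3 := hb (∑ i : Fin n, c i • d i) (Submodule.sum_mem _ fun i _ =>
      Submodule.smul_mem _ _ (Submodule.subset_span ⟨i, rfl⟩))
    have e : b - ∑ i : Fin n, c i • d i = G := ContinuousLinearMap.ext fun u => by
      have := LinearMap.congr_fun hc u
      simp only [LinearMap.coe_sum, Finset.sum_apply, LinearMap.smul_apply] at this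
      rw [_root_.sub_apply, _root_.sum_apply]
      have e2 : ∑ i : Fin n, (c i • d i) u = b u - G u := this
      linarith
    rw [dist_eq_norm, e] at h3
    linarith
  obtain ⟨z, hz0, hz1, hz2⟩ := exists_point d (‖b‖⁻¹ • b) (δ := ‖b‖⁻¹ * (ε / 2)) (by positivity)
    (by rw [norm_smul, norm_inv, norm_norm, inv_mul_cancel₀ hb0.ne']) fun n => by
      obtain ⟨u, h1, h2, h3⟩ := hC n
      exact ⟨u, h1, mul_le_mul_of_nonneg_left h2 (by positivity), h3⟩
  have hz : 0 < ‖z‖ := norm_pos_iff.2 hz0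
  refine ⟨‖z‖⁻¹ • z, by rw [norm_smul, norm_inv, norm_norm, inv_mul_cancel₀ hz.ne'],
    sm_of z hz1 (by positivity), fun y hy h => hz2 y hy ?_⟩
  rw [map_smul, smul_eq_mul, inv_mul_eq_one₀ hz.ne'] at h
  exact h.symm

/-- The support functionals at smooth points form a nonseparable set. -/
theorem nonsep [CompleteSpace X] [TopologicalSpace.SeparableSpace X]
    (hns : ¬ TopologicalSpace.SeparableSpace (X →L[ℝ] ℝ)) :
    ¬ TopologicalSpace.IsSeparable
      {f : X →L[ℝ] ℝ | ∃ x : X, ‖x‖ = 1 ∧ Sm x ∧ ‖f‖ = 1 ∧ f x = 1} := by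
  rintro ⟨c, hc, hD⟩
  obtain ⟨d, hd⟩ := (hc.insert 0).exists_eq_range (insert_nonempty _ _)
  obtain ⟨x, h1, h2, h3⟩ := main hns d
  obtain ⟨f, hf1, hf2⟩ := exists_dual_vector ℝ x (by rw [h1]; exact one_ne_zero)
  have hf3 : f x = 1 := by rw [hf2, h1]; rfl
  refine h3 f hf1.le hf3 ?_
  rw [← hd]
  exact closure_mono (subset_insert _ _) (hD ⟨x, h1, h2, hf1, hf3⟩)

end Pool.Agent.H87.GatB
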