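import Pool.Agent.H87.GatB

/-! Cantor cliques for open relations, and separated support functionals. -/

set_option autoImplicit false

namespace Pool.Agent.H87.GatC

open Filter Topology Set GatB

theorem sep_family {Y : Type*} [PseudoMetricSpace Y] (D : Set Y)
    (h : ¬ TopologicalSpace.IsSeparable D) :
    ∃ ε > 0, ∃ A ⊆ D, ¬ A.Countable ∧ A.Pairwise fun a b => ε ≤ dist a b := by
  by_contra hn
  push Not at hn
  have key : ∀ ε > (0 : ℝ), ∃ A : Set Y, A.Countable ∧ ∀ x ∈ D, ∃ a ∈ A, dist x a < ε := by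
    intro ε hε
    obtain ⟨A, hA⟩ := zorn_subset {A | A ⊆ D ∧ A.Pairwise fun a b => ε ≤ dist a b}
      (fun c hc hch => ⟨⋃₀ c, ⟨sUnion_subset fun t ht => (hc ht).1,
        (pairwise_sUnion hch.directedOn).2 fun t ht => (hc ht).2⟩,
        fun s hs => subset_sUnion_of_mem hs⟩)
    refine ⟨A, by_contra fun h0 => hn ε hε A hA.1.1 h0 hA.1.2, fun x hx => ?_⟩
    by_contra hx'
    push Not at hx'
    have h1 : insert x A ⊆ A := hA.2 (y := insert x A) ⟨insert_subset hx hA.1.1,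
      hA.1.2.insert fun b hb _ => ⟨hx' b hb, by rw [dist_comm]; exact hx' b hb⟩⟩
      (subset_insert _ _)
    have := hx' x (h1 (mem_insert _ _))
    rw [dist_self] at this
    linarith
  choose A hA1 hA2 using fun n : ℕ => key (1 / (n + 1)) Nat.one_div_pos_of_nat
  refine h ⟨⋃ n, A n, countable_iUnion hA1, fun x hx => Metric.mem_closure_iff.2 fun ε hε => ?_⟩
  obtain ⟨n, hn⟩ := exists_nat_one_div_lt hε
  obtain ⟨a, h1, h2⟩ := hA2 n x hx
  exact ⟨a, mem_iUnion.2 ⟨n, h1⟩, h2.trans hn⟩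

theorem two_points {Y : Type*} [MetricSpace Y] [SecondCountableTopology Y] (B : Set Y)
    (hB : ¬ B.Countable) : ∃ a ∈ B, ∃ b ∈ B, a ≠ b ∧
      (∀ r > 0, ¬ (Metric.ball a r ∩ B).Countable) ∧ ∀ r > 0, ¬ (Metric.ball b r ∩ B).Countable := by
  let B0 := {x | ∃ r > 0, (Metric.ball x r ∩ B).Countable}
  have h0 : (B0 ∩ B).Countable := by
    choose! r hr1 hr2 using fun x (hx : x ∈ B0) => hx
    obtain ⟨t, ht1, ht2, ht3⟩ := TopologicalSpace.countable_cover_nhdsWithin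
      (s := B0) (f := fun x => Metric.ball x (r x)) fun x hx =>
        mem_nhdsWithin_of_mem_nhds (Metric.ball_mem_nhds x (hr1 x hx))
    refine (ht2.biUnion fun x hx => hr2 x (ht1 hx)).mono fun y hy => ?_
    obtain ⟨x, hx, hy'⟩ := mem_iUnion₂.1 (ht3 hy.1)
    exact mem_iUnion₂.2 ⟨x, hx, hy', hy.2⟩
  have h1 : (B \ B0).Nontrivial := by
    by_contra hn
    rw [not_nontrivial_iff] at hn
    refine hB ((h0.union hn.countable).mono fun x hx => ?_)
    by_cases h : x ∈ B0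
    · exact Or.inl ⟨h, hx⟩
    · exact Or.inr ⟨hx, h⟩
  obtain ⟨a, ha, b, hb, hab⟩ := h1
  exact ⟨a, ha.1, b, hb.1, hab, fun r hr h => ha.2 ⟨r, hr, h⟩, fun r hr h => hb.2 ⟨r, hr, h⟩⟩

open CantorScheme in
theorem clique {Y : Type*} [MetricSpace Y] [CompleteSpace Y] [SecondCountableTopology Y]
    (S A : Set Y) (hS : IsClosed S) (hAS : A ⊆ S) (hA : ¬ A.Countable) (R : Y → Y → Prop)
    (hR : ∀ a ∈ A, ∀ b ∈ A, a ≠ b → ∃ r > 0, ∀ x ∈ Metric.ball a r, ∀ y ∈ Metric.ball b r,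
      R x y ∧ R y x) :
    ∃ f : (ℕ → Bool) → Y, (∀ s, f s ∈ S) ∧ Continuous f ∧ ∀ s t, s ≠ t → R (f s) (f t) := by
  have split : ∀ (E : Set Y) (n : ℕ), IsClosed E ∧ ¬ (E ∩ A).Countable →
      ∃ C : Bool → Set Y, (∀ i, (IsClosed (C i) ∧ ¬ (C i ∩ A).Countable) ∧ C i ⊆ E ∧
        ∀ x ∈ C i, ∀ y ∈ C i, dist x y ≤ 1 / (n + 1)) ∧
        ∀ x ∈ C false, ∀ y ∈ C true, R x y ∧ R y x := by
    intro E n hE
    obtain ⟨a, ha, b, hb, hab, h1, h2⟩ := two_points _ hE.2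
    obtain ⟨r, hr, h3⟩ := hR a ha.2 b hb.2 hab
    let ρ := min (r / 2) (1 / (n + 1) / 2)
    have hρ : 0 < ρ := lt_min (by positivity) (by positivity)
    have hρ1 : ρ < r := (min_le_left _ _).trans_lt (by linarith)
    have k : ∀ c, (∀ r > 0, ¬ (Metric.ball c r ∩ (E ∩ A)).Countable) →
        (IsClosed (Metric.closedBall c ρ ∩ E) ∧ ¬ ((Metric.closedBall c ρ ∩ E) ∩ A).Countable) ∧
        Metric.closedBall c ρ ∩ E ⊆ E ∧ ∀ x ∈ Metric.closedBall c ρ ∩ E,
          ∀ y ∈ Metric.closedBall c ρ ∩ E, dist x y ≤ 1 / (n + 1) := fun c hc =>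
      ⟨⟨Metric.isClosed_closedBall.inter hE.1, fun h => hc ρ hρ (h.mono fun x hx =>
        mem_inter (mem_inter (Metric.ball_subset_closedBall hx.1) hx.2.1) hx.2.2)⟩, inter_subset_right,
        fun x hx y hy => by
          have e1 : dist x c ≤ ρ := hx.1
          have e2 : dist y c ≤ ρ := hy.1
          linarith [dist_triangle_right x y c, min_le_right (r / 2) (1 / (n + 1) / 2)]⟩
    refine ⟨fun i => Bool.rec (Metric.closedBall a ρ ∩ E) (Metric.closedBall b ρ ∩ E) i,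
      fun i => ?_, fun x hx y hy => h3 x (Metric.closedBall_subset_ball hρ1 hx.1) y
        (Metric.closedBall_subset_ball hρ1 hy.1)⟩
    cases i
    · exact k a h1
    · exact k b h2
  choose C hC1 hC2 using split
  let DP : List Bool → {E : Set Y // IsClosed E ∧ ¬ (E ∩ A).Countable} := fun l =>
    List.rec ⟨S, hS, by rwa [inter_eq_right.2 hAS]⟩
      (fun i l E => ⟨C E.1 l.length E.2 i, (hC1 _ _ _ i).1⟩) l
  let D : List Bool → Set Y := fun l => (DP l).1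
  have hD : ∀ i l, D (i :: l) = C (D l) l.length (DP l).2 i := fun _ _ => rfl
  have hanti : ClosureAntitone D :=
    Antitone.closureAntitone (fun l i => (hC1 _ _ _ i).2.1) fun l => (DP l).2.1
  have hdiam : VanishingDiam D := by
    intro x
    rw [← tendsto_add_atTop_iff_nat 1]
    have h0 : Tendsto (fun n : ℕ => ENNReal.ofReal (1 / (n + 1))) atTop (𝓝 0) := by
      have := ENNReal.tendsto_ofReal (tendsto_one_div_add_atTop_nhds_zero_nat (𝕜 := ℝ))
      rwa [ENNReal.ofReal_zero] at this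
    refine tendsto_of_tendsto_of_tendsto_of_le_of_le tendsto_const_nhds h0
      (fun _ => zero_le) fun n => ?_
    refine Metric.ediam_le_of_forall_dist_le fun y hy z hz => ?_
    have := (hC1 _ _ _ _).2.2 y hy z hz
    rwa [PiNat.res_length] at this
  have hdom : ∀ x : ℕ → Bool, x ∈ (inducedMap D).1 := fun x => by
    rw [hanti.map_of_vanishingDiam hdiam fun l => ?_]
    · exact mem_univ _
    · by_contra hn
      rw [not_nonempty_iff_eq_empty] at hn
      apply (DP l).2.2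
      rw [show (DP l).1 = ∅ from hn, empty_inter]
      exact countable_empty
  refine ⟨fun x => (inducedMap D).2 ⟨x, hdom x⟩, fun x => map_mem ⟨_, hdom x⟩ 0,
    hdiam.map_continuous.comp (by fun_prop), fun s t hst => ?_⟩
  have h1 := map_mem ⟨s, hdom s⟩ (PiNat.firstDiff s t + 1)
  have h2 := map_mem ⟨t, hdom t⟩ (PiNat.firstDiff s t + 1)
  have h3 : PiNat.res t (PiNat.firstDiff s t) = PiNat.res s (PiNat.firstDiff s t) :=
    PiNat.res_eq_res.2 fun m hm => (PiNat.apply_eq_of_lt_firstDiff hm).symm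
  have h4 := PiNat.apply_firstDiff_ne hst
  rw [PiNat.res_succ] at h1 h2
  simp only at h1 h2
  rw [h3] at h2
  rw [hD] at h1 h2
  cases hs : s (PiNat.firstDiff s t) <;> cases ht : t (PiNat.firstDiff s t) <;>
    rw [hs] at h1 h4 <;> rw [ht] at h2 h4
  · exact absurd rfl h4
  · exact (hC2 _ _ _ _ h1 _ h2).1
  · exact (hC2 _ _ _ _ h2 _ h1).2
  · exact absurd rfl h4

variable {X : Type*} [NormedAddCommGroup X] [NormedSpace ℝ X]

theorem usc {a : X} (H : Sm a) (ha : ‖a‖ = 1) (f0 : X →L[ℝ] ℝ) (h0 : ‖f0‖ = 1) (h1 : f0 a = 1)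
    (h : X) {η : ℝ} (hη : 0 < η) : ∃ ρ > 0, ∀ x ∈ Metric.ball a ρ, ∀ f : X →L[ℝ] ℝ,
      ‖f‖ = 1 → f x = 1 → f h ≤ f0 h + η := by
  have hle : ∀ f : X →L[ℝ] ℝ, ‖f‖ = 1 → ∀ u : X, f u ≤ ‖u‖ := fun f hf u =>
    (le_abs_self _).trans ((f.le_opNorm u).trans (by rw [hf, one_mul]))
  obtain ⟨r, hr, h2⟩ := H h (η / 2) (by positivity)
  refine ⟨η / 2 * r, by positivity, fun x hx f hf hfx => ?_⟩
  have a1 := hle f hf (a + r • h)
  have a2 := hle f0 h0 (a - r • h)
  have a3 := hle f hf (x - a)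
  rw [mem_ball_iff_norm] at hx
  rw [map_add, map_smul, smul_eq_mul] at a1
  rw [map_sub, map_smul, smul_eq_mul] at a2
  rw [map_sub] at a3
  refine le_of_mul_le_mul_left ?_ hr
  linarith

theorem main [CompleteSpace X] [TopologicalSpace.SeparableSpace X]
    (hns : ¬ TopologicalSpace.SeparableSpace (X →L[ℝ] ℝ)) :
    ∃ K : Set X, K ⊆ Metric.sphere (0 : X) 1 ∧ Nonempty (K ≃ₜ (ℕ → Bool)) ∧
        ∃ ε : ℝ, 0 < ε ∧
          ∀ x ∈ K, ∀ y ∈ K, x ≠ y →
            ∀ f g : X →L[ℝ] ℝ, ‖f‖ = 1 → f x = 1 → ‖g‖ = 1 → g y = 1 →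
              ε ≤ ‖f - g‖ := by
  have := UniformSpace.secondCountable_of_separable X
  obtain ⟨ε, hε, A, hAD, hA, hsep⟩ := sep_family _ (nonsep hns)
  choose! p hp1 hp2 hp3 hp4 using fun f (hf : f ∈ A) => hAD hf
  have inj : InjOn p A := fun f hf g hg h => ContinuousLinearMap.ext fun v =>
    ((hp2 f hf).deriv f (hp3 f hf).le ((hp4 f hf).trans (hp1 f hf).symm) v).unique
      ((hp2 f hf).deriv g (hp3 g hg).le (by rw [h, hp4 g hg, hp1 g hg]) v)
  obtain ⟨F, hF1, hF2, hF3⟩ := clique (Metric.sphere (0 : X) 1) (p '' A) Metric.isClosed_sphere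
    (by rintro _ ⟨f, hf, rfl⟩; exact mem_sphere_zero_iff_norm.2 (hp1 f hf))
    (fun h => hA ((countable_of_injective_of_countable_image inj h)))
    (fun x y => ∀ f g : X →L[ℝ] ℝ, ‖f‖ = 1 → f x = 1 → ‖g‖ = 1 → g y = 1 → ε / 4 ≤ ‖f - g‖) (by
      rintro _ ⟨f0, hf0, rfl⟩ _ ⟨g0, hg0, rfl⟩ hne
      have h1 : ε ≤ dist f0 g0 := hsep hf0 hg0 fun h => hne (by rw [h])
      rw [dist_eq_norm] at h1
      obtain ⟨h, hh1, hh2⟩ : ∃ h : X, ‖h‖ ≤ 1 ∧ 3 * ε / 4 ≤ f0 h - g0 h := by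
        obtain ⟨u, hu1, hu2⟩ := (f0 - g0).exists_lt_apply_of_lt_opNorm
          (r := 3 * ε / 4) (by linarith)
        rw [Real.norm_eq_abs, _root_.sub_apply, lt_abs] at hu2
        rcases hu2 with hu | hu
        · exact ⟨u, hu1.le, hu.le⟩
        · exact ⟨-u, by rw [norm_neg]; exact hu1.le, by rw [map_neg, map_neg]; linarith⟩
      obtain ⟨r1, hr1, k1⟩ := usc (hp2 f0 hf0) (hp1 f0 hf0) f0 (hp3 f0 hf0) (hp4 f0 hf0) (-h)
        (η := ε / 4) (by positivity)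
      obtain ⟨r2, hr2, k2⟩ := usc (hp2 g0 hg0) (hp1 g0 hg0) g0 (hp3 g0 hg0) (hp4 g0 hg0) h
        (η := ε / 4) (by positivity)
      refine ⟨min r1 r2, lt_min hr1 hr2, fun x hx y hy => ?_⟩
      have k : ∀ f g : X →L[ℝ] ℝ, ‖f‖ = 1 → f x = 1 → ‖g‖ = 1 → g y = 1 → ε / 4 ≤ ‖f - g‖ := by
        intro f g a1 a2 a3 a4
        have b1 := k1 x (Metric.ball_subset_ball (min_le_left _ _) hx) f a1 a2
        have b2 := k2 y (Metric.ball_subset_ball (min_le_right _ _) hy) g a3 a4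
        rw [map_neg, map_neg] at b1
        have b3 := (le_abs_self _).trans (((f - g).le_opNorm h).trans
          (mul_le_of_le_one_right (norm_nonneg _) hh1))
        rw [_root_.sub_apply] at b3
        linarith
      exact ⟨k, fun f g a1 a2 a3 a4 => by rw [norm_sub_rev]; exact k g f a3 a4 a1 a2⟩)
  have hinj : Function.Injective F := fun s t h => by
    by_contra hst
    have h1 := mem_sphere_zero_iff_norm.1 (hF1 s)
    obtain ⟨f, hf1, hf2⟩ := exists_dual_vector ℝ (F s) (by rw [h1]; exact one_ne_zero)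
    have hf3 : f (F s) = 1 := by rw [hf2, h1]; rfl
    have := hF3 s t hst f f hf1 hf3 hf1 (h ▸ hf3)
    rw [sub_self, norm_zero] at this
    linarith
  refine ⟨range F, range_subset_iff.2 hF1,
    ⟨(hF2.isClosedEmbedding hinj).isEmbedding.toHomeomorph.symm⟩, ε / 4, by positivity, ?_⟩
  rintro _ ⟨s, rfl⟩ _ ⟨t, rfl⟩ h
  exact hF3 s t fun e => h (by rw [e])

end Pool.Agent.H87.GatC
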