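import Mathlib

namespace Pool.Agent.H87.Ienv

open Filter Topology Set

lemma planar {d r p1 p2 q1 q2 : ℝ} (hr0 : 0 ≤ r) (hr1 : r ≤ 1) (hp : d ≤ p2) (hq : d ≤ q1)
    (h1 : r * p1 + (1 - r) * p2 < d) (h2 : r * q1 + (1 - r) * q2 < d)
    (h : ∀ τ ∈ Icc (0 : ℝ) 1, d ≤ (1 - τ) * p1 + τ * q1 ∨ d ≤ (1 - τ) * p2 + τ * q2) : False := by
  obtain ⟨τ, ⟨h0, h1'⟩, ha, hb⟩ := isPreconnected_closed_iff.1 (isPreconnected_Icc (a := (0 : ℝ)) (b := 1))
    {τ | d ≤ (1 - τ) * p1 + τ * q1} {τ | d ≤ (1 - τ) * p2 + τ * q2}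
    (isClosed_le continuous_const (by fun_prop)) (isClosed_le continuous_const (by fun_prop))
    h ⟨1, by simp, by simpa using hq⟩ ⟨0, by simp, by simpa using hp⟩
  have ha' : d ≤ (1 - τ) * p1 + τ * q1 := ha
  have hb' : d ≤ (1 - τ) * p2 + τ * q2 := hb
  have e1 := mul_le_mul_of_nonneg_left ha' hr0
  have e2 := mul_le_mul_of_nonneg_left hb' (sub_nonneg.2 hr1)
  set m := max (r * p1 + (1 - r) * p2) (r * q1 + (1 - r) * q2)
  have hm : m < d := max_lt h1 h2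
  have e3 := mul_le_mul_of_nonneg_left (le_max_left (r * p1 + (1 - r) * p2) (r * q1 + (1 - r) * q2))
    (sub_nonneg.2 h1')
  have e4 := mul_le_mul_of_nonneg_left (le_max_right (r * p1 + (1 - r) * p2) (r * q1 + (1 - r) * q2)) h0
  nlinarith

def Adm (F : Filter ℕ) : Prop := F.NeBot ∧ F.IsCountablyGenerated ∧ F ≤ atTop

lemma exists_min (a : Filter ℕ → ℝ) (ha0 : ∀ F, 0 ≤ a F) (hm : ∀ F G, F ≤ G → a F ≤ a G) :
    ∃ F, Adm F ∧ ∀ G, Adm G → G ≤ F → a F ≤ a G := by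
  have step : ∀ (k : ℕ) (F : {F // Adm F}), ∃ G : {F // Adm F}, G.1 ≤ F.1 ∧
      ∀ H, Adm H → H ≤ F.1 → a G.1 ≤ a H + 1 / ((k : ℝ) + 1) := by
    intro k F
    have hb : BddBelow (a '' {H | Adm H ∧ H ≤ F.1}) := ⟨0, by rintro _ ⟨H, -, rfl⟩; exact ha0 H⟩
    have hne : (a '' {H | Adm H ∧ H ≤ F.1}).Nonempty := ⟨_, F.1, ⟨F.2, le_rfl⟩, rfl⟩
    obtain ⟨_, ⟨G, hG, rfl⟩, hlt⟩ := Real.lt_sInf_add_pos hne
      (show 0 < 1 / ((k : ℝ) + 1) by positivity)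
    refine ⟨⟨G, hG.1⟩, hG.2, fun H hH hle => ?_⟩
    have := csInf_le hb ⟨H, ⟨hH, hle⟩, rfl⟩
    linarith
  choose g hg1 hg2 using step
  let F : ℕ → {F // Adm F} := fun n =>
    Nat.rec ⟨atTop, inferInstance, inferInstance, le_rfl⟩ (fun k Fk => g k Fk) n
  have hF : ∀ k, F (k + 1) = g k (F k) := fun k => rfl
  have hanti : Antitone fun k => (F k).1 := antitone_nat_of_succ_le fun k => by
    rw [hF]; exact hg1 _ _
  have := fun k => (F k).2.2.1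
  refine ⟨⨅ k, (F k).1, ⟨?_, inferInstance, (iInf_le _ 0).trans (F 0).2.2.2⟩, fun G hG hle => ?_⟩
  · exact iInf_neBot_of_directed (fun i j => ⟨max i j, hanti (le_max_left _ _), hanti (le_max_right _ _)⟩)
      fun k => (F k).2.1
  · refine ge_of_tendsto' (f := fun k : ℕ => a G + 1 / ((k : ℝ) + 1)) (x := atTop) ?_ fun k => ?_
    · simpa using tendsto_one_div_add_atTop_nhds_zero_nat.const_add (a G)
    · exact (hm _ _ (iInf_le _ (k + 1))).trans (hg2 k (F k) G hG (hle.trans (iInf_le _ k)))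

lemma Adm.inf {F : Filter ℕ} (hF : Adm F) {p : ℕ → Prop} (h : ∃ᶠ n in F, p n) :
    Adm (F ⊓ 𝓟 {n | p n}) := by
  have := hF.2.1
  exact ⟨frequently_iff_neBot.1 h, inferInstance, inf_le_left.trans hF.2.2⟩

lemma ulim (U : Ultrafilter ℕ) (f : ℕ → ℝ) (C : ℝ) (h : ∀ n, |f n| ≤ C) :
    ∃ l, Tendsto f U (𝓝 l) := by
  obtain ⟨l, -, hl⟩ := (isCompact_Icc (a := -C) (b := C)).ultrafilter_le_nhds (U.map f)
    (by simp only [Ultrafilter.coe_map, le_principal_iff, mem_map]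
        exact Eventually.of_forall fun n => abs_le.1 (h n))
  exact ⟨l, hl⟩

theorem comb {V : Type} [AddCommGroup V] [Module ℝ V] (A B : Set V) (hc : Convex ℝ (A ∪ B))
    (s t : V → ℕ → ℝ) (d : ℝ)
    (hs : ∀ ξ ζ (τ : ℝ) n, s ((1 - τ) • ξ + τ • ζ) n = (1 - τ) * s ξ n + τ * s ζ n)
    (ht : ∀ ξ ζ (τ : ℝ) n, t ((1 - τ) • ξ + τ • ζ) n = (1 - τ) * t ξ n + τ * t ζ n)
    (hb : ∀ ξ, ∃ C, 0 < C ∧ ∀ n, |s ξ n| ≤ C ∧ |t ξ n| ≤ C)
    (hA : ∀ ξ ∈ A, ∀ᶠ n in atTop, d ≤ s ξ n) (hB : ∀ ξ ∈ B, ∀ᶠ n in atTop, d ≤ t ξ n) :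
    ∃ r ∈ Icc (0 : ℝ) 1, ∃ u : ℕ → ℕ, ∀ ξ ∈ A ∪ B, ∀ ε > 0,
      ∀ᶠ n in atTop, d - ε ≤ r * s ξ (u n) + (1 - r) * t ξ (u n) := by
  let Good : Filter ℕ → Set ℝ := fun F => {r | r ∈ Icc (0 : ℝ) 1 ∧ ∀ ξ ∈ A, ∀ ε > 0,
    ∀ᶠ n in F ⊓ atTop, d - ε ≤ r * s ξ n + (1 - r) * t ξ n}
  have h1 : ∀ F, (1 : ℝ) ∈ Good F := fun F => ⟨by simp, fun ξ hξ ε hε =>
    ((hA ξ hξ).filter_mono inf_le_right).mono fun n hn => by linarith⟩
  have hbd : ∀ F, BddBelow (Good F) := fun F => ⟨0, fun r hr => hr.1.1⟩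
  obtain ⟨F, hF, hmin⟩ := exists_min (fun F => sInf (Good F))
    (fun F => le_csInf ⟨1, h1 F⟩ fun r hr => hr.1.1)
    (fun F G hFG => csInf_le_csInf (hbd F) ⟨1, h1 G⟩ fun r hr =>
      ⟨hr.1, fun ξ hξ ε hε => (hr.2 ξ hξ ε hε).filter_mono (inf_le_inf_right _ hFG)⟩)
  set r := sInf (Good F) with hr
  have hr0 : 0 ≤ r := le_csInf ⟨1, h1 F⟩ fun r hr => hr.1.1
  have hr1 : r ≤ 1 := csInf_le (hbd F) (h1 F)
  have pert : ∀ ξ (C r r' ε : ℝ) n, |s ξ n| ≤ C ∧ |t ξ n| ≤ C → |r - r'| * C ≤ ε / 4 →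
      |(r * s ξ n + (1 - r) * t ξ n) - (r' * s ξ n + (1 - r') * t ξ n)| ≤ ε / 2 := by
    intro ξ C r r' ε n h h'
    have : (r * s ξ n + (1 - r) * t ξ n) - (r' * s ξ n + (1 - r') * t ξ n)
      = (r - r') * (s ξ n - t ξ n) := by ring
    rw [this, abs_mul]
    have h3 : |s ξ n - t ξ n| ≤ 2 * C := (abs_sub _ _).trans (by linarith [h.1, h.2])
    have := mul_le_mul_of_nonneg_left h3 (abs_nonneg (r - r'))
    linarith
  have key : ∀ ξ ∈ A ∪ B, ∀ ε > 0, ∀ᶠ n in F, d - ε ≤ r * s ξ n + (1 - r) * t ξ n := by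
    rintro ξ (hξ | hξ) ε hε
    · obtain ⟨C, hC, hC'⟩ := hb ξ
      obtain ⟨r', hr', hlt⟩ := Real.lt_sInf_add_pos ⟨1, h1 F⟩ (show 0 < ε / 4 / C by positivity)
      have hle : r ≤ r' := csInf_le (hbd F) hr'
      have h2 := hr'.2 ξ hξ (ε / 2) (by positivity)
      rw [inf_eq_left.2 hF.2.2] at h2
      refine h2.mono fun n hn => ?_
      have := pert ξ C r' r ε n (hC' n) (by
        rw [abs_of_nonneg (by linarith), ← le_div_iff₀ hC]; linarith)
      linarith [(abs_le.1 this).2]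
    · by_contra hn
      rw [not_eventually] at hn
      obtain ⟨C, hC, hC'⟩ := hb ξ
      have hrpos : 0 < r := by
        rcases hr0.lt_or_eq with h | h
        · exact h
        · exfalso
          obtain ⟨n, hn1, hn2⟩ := (hn.and_eventually ((hB ξ hξ).filter_mono hF.2.2)).exists
          rw [← h] at hn1
          apply hn1; linarith
      set r' := max 0 (r - ε / 4 / C) with hr'
      have hr'0 : 0 ≤ r' := le_max_left _ _
      have hr'r : r' < r := max_lt hrpos (by have : 0 < ε / 4 / C := by positivity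
                                             linarith)
      have hG := hF.inf hn
      have hng : r' ∉ Good (F ⊓ 𝓟 {n | ¬ d - ε ≤ r * s ξ n + (1 - r) * t ξ n}) := fun hg =>
        absurd ((hmin _ hG inf_le_left).trans (csInf_le (hbd _) hg)) (not_le.2 hr'r)
      have : ∃ ζ ∈ A, ∃ ε' > 0, ∃ᶠ n in (F ⊓ 𝓟 {n | ¬ d - ε ≤ r * s ξ n + (1 - r) * t ξ n}),
          ¬ d - ε' ≤ r' * s ζ n + (1 - r') * t ζ n := by
        by_contra hcon
        apply hng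
        refine ⟨⟨hr'0, by linarith⟩, fun ζ hζ ε' hε' => ?_⟩
        by_contra h3
        rw [inf_eq_left.2 hG.2.2, not_eventually] at h3
        exact hcon ⟨ζ, hζ, ε', hε', h3⟩
      obtain ⟨ζ, hζ, ε', hε', hfr⟩ := this
      have hH := hG.inf hfr
      have := hH.1
      let U := Ultrafilter.of ((F ⊓ 𝓟 {n | ¬ d - ε ≤ r * s ξ n + (1 - r) * t ξ n}) ⊓
        𝓟 {n | ¬ d - ε' ≤ r' * s ζ n + (1 - r') * t ζ n})
      have hU := Ultrafilter.of_le ((F ⊓ 𝓟 {n | ¬ d - ε ≤ r * s ξ n + (1 - r) * t ξ n}) ⊓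
        𝓟 {n | ¬ d - ε' ≤ r' * s ζ n + (1 - r') * t ζ n})
      have hUt : (U : Filter ℕ) ≤ atTop := hU.trans hH.2.2
      obtain ⟨D, -, hD⟩ := hb ζ
      obtain ⟨p1, hp1⟩ := ulim U _ C fun n => (hC' n).1
      obtain ⟨p2, hp2⟩ := ulim U _ C fun n => (hC' n).2
      obtain ⟨q1, hq1⟩ := ulim U _ D fun n => (hD n).1
      obtain ⟨q2, hq2⟩ := ulim U _ D fun n => (hD n).2
      refine planar (d := d) (r := r') (p1 := p1) (p2 := p2) (q1 := q1) (q2 := q2) hr'0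
        (by linarith) (ge_of_tendsto hp2 ((hB ξ hξ).filter_mono hUt))
        (ge_of_tendsto hq1 ((hA ζ hζ).filter_mono hUt)) ?_ ?_ fun τ hτ => ?_
      · have e : ∀ᶠ n in (U : Filter ℕ), ¬ d - ε ≤ r * s ξ n + (1 - r) * t ξ n :=
          le_principal_iff.1 (hU.trans (inf_le_left.trans inf_le_right))
        have : r' * p1 + (1 - r') * p2 ≤ d - ε / 2 := by
          refine le_of_tendsto ((hp1.const_mul r').add (hp2.const_mul (1 - r'))) (e.mono fun n hn => ?_)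
          have := pert ξ C r r' ε n (hC' n) (by
            rw [abs_of_nonneg (by linarith), ← le_div_iff₀ hC]
            linarith [le_max_right 0 (r - ε / 4 / C)])
          linarith [(abs_le.1 this).1, not_le.1 hn]
        linarith
      · have e : ∀ᶠ n in (U : Filter ℕ), ¬ d - ε' ≤ r' * s ζ n + (1 - r') * t ζ n :=
          le_principal_iff.1 (hU.trans inf_le_right)
        have : r' * q1 + (1 - r') * q2 ≤ d - ε' :=
          le_of_tendsto ((hq1.const_mul r').add (hq2.const_mul (1 - r')))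
            (e.mono fun n hn => (not_le.1 hn).le)
        linarith
      · rcases hc (Or.inr hξ) (Or.inl hζ) (sub_nonneg.2 hτ.2) hτ.1 (by ring) with h | h
        · left
          refine ge_of_tendsto ((hp1.const_mul (1 - τ)).add (hq1.const_mul τ))
            (((hA _ h).filter_mono hUt).mono fun n hn => ?_)
          rwa [hs] at hn
        · right
          refine ge_of_tendsto ((hp2.const_mul (1 - τ)).add (hq2.const_mul τ))
            (((hB _ h).filter_mono hUt).mono fun n hn => ?_)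
          rwa [ht] at hn
  have := hF.1
  have := hF.2.1
  obtain ⟨u, hu⟩ := F.exists_seq_tendsto
  exact ⟨r, ⟨hr0, hr1⟩, u, fun ξ hξ ε hε => hu.eventually (key ξ hξ ε hε)⟩

end Pool.Agent.H87.Ienv
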