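import Pool.Agent.H87.IenvDef
import Pool.Agent.H87.Ienv1

namespace Pool.Agent.H87.Ienv

open Filter Topology Set RCLike

section
variable {W : Type} [AddCommGroup W] [Module ℝ W] [TopologicalSpace W] [IsTopologicalAddGroup W]
  [ContinuousSMul ℝ W]

lemma cvx_closure {s : Set W} (h : Convex ℝ s) : Convex ℝ (closure s) := h.closure

lemma compact_hull_union {s t : Set W} (hs : IsCompact s) (ht : IsCompact t) (hs' : Convex ℝ s)
    (ht' : Convex ℝ t) : IsCompact (convexHull ℝ (s ∪ t)) := by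
  rcases s.eq_empty_or_nonempty with rfl | hs0
  · rwa [empty_union, ht'.convexHull_eq]
  rcases t.eq_empty_or_nonempty with rfl | ht0
  · rwa [union_empty, hs'.convexHull_eq]
  rw [hs'.convexHull_union ht' hs0 ht0]
  have : convexJoin ℝ s t = (fun p : ℝ × W × W => (1 - p.1) • p.2.1 + p.1 • p.2.2) ''
      (Icc 0 1 ×ˢ s ×ˢ t) := by
    ext z
    simp only [mem_convexJoin, segment_eq_image, mem_image, mem_prod, Prod.exists]
    constructor
    · rintro ⟨a, ha, b, hb, τ, hτ, rfl⟩; exact ⟨τ, a, b, ⟨hτ, ha, hb⟩, rfl⟩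
    · rintro ⟨τ, a, b, ⟨hτ, ha, hb⟩, rfl⟩; exact ⟨a, ha, b, hb, τ, hτ, rfl⟩
  rw [this]
  exact (isCompact_Icc.prod (hs.prod ht)).image (by fun_prop)

lemma compact_hull_fin (D : ℕ → Set W) (h : ∀ k, IsCompact (D k)) (h' : ∀ k, Convex ℝ (D k))
    (n : ℕ) : IsCompact (convexHull ℝ (⋃ k < n, D k)) := by
  induction n with
  | zero => simp
  | succ n ih =>
    rw [biUnion_lt_succ, ← convexHull_convexHull_union_left]
    exact compact_hull_union ih (h n) (convex_convexHull _ _) (h' n)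

lemma exists_hull (D : ℕ → Set W) (h : ∀ k, IsCompact (D k)) (h' : ∀ k, Convex ℝ (D k))
    (n : ℕ) : ∃ Q : Set W, IsCompact Q ∧ Convex ℝ Q ∧ (∀ k < n, D k ⊆ Q) ∧
      ∀ P, Convex ℝ P → (∀ k, D k ⊆ P) → Q ⊆ P :=
  ⟨_, compact_hull_fin D h h' n, convex_convexHull _ _,
    fun k hk => (subset_biUnion_of_mem (u := D) (show k ∈ Iio n from hk)).trans
      (subset_convexHull _ _),
    fun P hP hD => convexHull_min (iUnion₂_subset fun k _ => hD k) hP⟩
end

variable {K : Type} [RCLike K] {X : Type} [NormedAddCommGroup X] [NormedSpace K X]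

instance : LocallyConvexSpace ℝ (WeakDual K X) :=
  WeakBilin.locallyConvexSpace (B := topDualPairing K X)

instance : IsScalarTower ℝ K (WeakDual K X) :=
  inferInstanceAs (IsScalarTower ℝ K (StrongDual K X))

lemma dual_eval (f : StrongDual K (WeakDual K X)) : ∃ y : X, ∀ ξ, f ξ = ξ y := by
  obtain ⟨y, hy⟩ := LinearMap.dualEmbedding_surjective (topDualPairing K X) f
  exact ⟨y, fun ξ => by rw [← hy]; rfl⟩

lemma sep0 (S T : Set (WeakDual K X)) (hS : IsClosed S) (hc : Convex ℝ S) (hT : IsCompact T)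
    (hc' : Convex ℝ T) (h : Disjoint T S) :
    ∃ (y : X) (u v : ℝ), (∀ a ∈ T, re (a y) < u) ∧ u < v ∧ ∀ b ∈ S, v < re (b y) := by
  have h1 := RCLike.geometric_hahn_banach_compact_closed (𝕜 := K) (E := WeakDual K X) (s := T)
    (t := S)
  obtain ⟨f, u, v, h2, h3, h4⟩ := h1 hc' hT hc hS h
  obtain ⟨y, hy⟩ := dual_eval f
  exact ⟨y, u, v, fun a ha => hy a ▸ h2 a ha, h3, fun a ha => hy a ▸ h4 a ha⟩

lemma sep (S : Set (WeakDual K X)) (hS : IsClosed S) (hc : Convex ℝ S) (η : StrongDual K X)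
    {d : ℝ} (hd : 0 < d) (h : ∀ ξ ∈ S, d < ‖WeakDual.toStrongDual ξ - η‖) :
    ∃ x : X, ‖x‖ ≤ 1 ∧ ∀ ξ ∈ S, d ≤ re (ξ x) - re (η x) := by
  have hK := WeakDual.isCompact_closedBall (𝕜 := K) (E := X) η d
  have hKc : Convex ℝ (WeakDual.toStrongDual ⁻¹' Metric.closedBall η d : Set (WeakDual K X)) :=
    convex_closedBall η d
  obtain ⟨y, u, v, h1, huv, h2⟩ := sep0 _ _ hS hc hK hKc
    (Set.disjoint_left.2 fun ξ h1 h2 => by
      have := h ξ h2
      rw [mem_preimage, mem_closedBall_iff_norm] at h1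
      linarith)
  obtain ⟨g, hg1, hg2⟩ := exists_dual_vector'' K y
  have h3 := h1 (StrongDual.toWeakDual (η + (d : K) • g)) (by
    rw [mem_preimage, mem_closedBall_iff_norm]
    show ‖η + (d : K) • g - η‖ ≤ d
    rw [add_sub_cancel_left, norm_smul, RCLike.norm_ofReal, abs_of_pos hd]
    exact mul_le_of_le_one_right hd.le hg1)
  have h4 : re (η y) + d * ‖y‖ < u := by
    have e : (η + (d : K) • g) y = η y + ((d * ‖y‖ : ℝ) : K) := by
      rw [_root_.add_apply, _root_.smul_apply, hg2]; simp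
    have h3' : re ((η + (d : K) • g) y) < u := h3
    rwa [e, map_add, ofReal_re] at h3'
  have h5 : ∀ ξ ∈ S, d * ‖y‖ < re (ξ y) - re (η y) := fun ξ hξ => by
    have : v < re (ξ y) := h2 ξ hξ
    linarith
  by_cases hy : y = 0
  · refine ⟨0, by simp, fun ξ hξ => ?_⟩
    have := h5 ξ hξ
    simp [hy] at this
  · have hp : 0 < ‖y‖ := norm_pos_iff.2 hy
    refine ⟨((‖y‖⁻¹ : ℝ) : K) • y, ?_, fun ξ hξ => ?_⟩
    · rw [norm_smul, RCLike.norm_ofReal, abs_of_pos (inv_pos.2 hp), inv_mul_cancel₀ hp.ne']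
    · rw [map_smul ξ, map_smul η, smul_eq_mul, smul_eq_mul, re_ofReal_mul, re_ofReal_mul, ← mul_sub,
        ← div_eq_inv_mul, le_div_iff₀ hp]
      exact (h5 ξ hξ).le

lemma toSeq {A : Set (StrongDual K X)} {η : StrongDual K X} (h : η ∉ Ienv A) :
    ∃ d > 0, ∃ x : ℕ → X, (∀ n, ‖x n‖ ≤ 1) ∧
      ∀ ξ ∈ A, ∀ᶠ n in atTop, d ≤ re (ξ (x n)) - re (η (x n)) := by
  simp only [Ienv, mem_iInter, not_forall] at h
  obtain ⟨An, hA, h⟩ := h
  rw [Metric.mem_closure_iff] at h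
  push Not at h
  obtain ⟨ε, hε, h⟩ := h
  let C : ℕ → Set (WeakDual K X) := fun i => closure (StrongDual.toWeakDual '' convexHull ℝ (An i))
  have hC : ∀ i, Convex ℝ (C i) := fun i => by
    have h0 : Convex ℝ (StrongDual.toWeakDual '' convexHull ℝ (An i) : Set (WeakDual K X)) := by
      rintro _ ⟨a, ha, rfl⟩ _ ⟨b, hb, rfl⟩ s t hs ht hst
      exact ⟨_, convex_convexHull ℝ _ ha hb hs ht hst, rfl⟩
    have h1 := cvx_closure (W := WeakDual K X) (s := StrongDual.toWeakDual '' convexHull ℝ (An i))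
    exact h1 h0
  let D : ℕ → Set (WeakDual K X) := fun k =>
    C k.unpair.1 ∩ WeakDual.toStrongDual ⁻¹' Metric.closedBall 0 (k.unpair.2 : ℝ)
  have hD : ∀ k, IsCompact (D k) := fun k =>
    (WeakDual.isCompact_closedBall (𝕜 := K) (E := X) 0 _).inter_left isClosed_closure
  have hD' : ∀ k, Convex ℝ (D k) := fun k =>
    (hC _).inter (convex_closedBall (0 : StrongDual K X) _)
  have hfin := exists_hull (W := WeakDual K X) D hD hD'
  choose Q hQ1 hQ2 hQ3 hQ4 using hfin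
  have hP : Convex ℝ (WeakDual.toStrongDual ⁻¹'
      convexHull ℝ (⋃ n, wclosure (convexHull ℝ (An n))) : Set (WeakDual K X)) :=
    convex_convexHull ℝ (⋃ n, wclosure (convexHull ℝ (An n)))
  have hsub : ∀ n, Q n ⊆ WeakDual.toStrongDual ⁻¹'
      convexHull ℝ (⋃ n, wclosure (convexHull ℝ (An n))) := fun n =>
    hQ4 n _ hP fun k ξ hk =>
      subset_convexHull ℝ (⋃ n, wclosure (convexHull ℝ (An n))) (mem_iUnion.2 ⟨k.unpair.1, hk.1⟩)
  have hx := fun n => sep (Q n) (hQ1 n).isClosed (hQ2 n) η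
    (half_pos hε) fun ξ hξ => by
      have := h (WeakDual.toStrongDual ξ) (hsub n hξ)
      rw [dist_comm, dist_eq_norm] at this
      linarith
  choose x hx1 hx2 using hx
  refine ⟨ε / 2, half_pos hε, x, hx1, fun ξ hξ => ?_⟩
  rw [hA, mem_iUnion] at hξ
  obtain ⟨i, hi⟩ := hξ
  obtain ⟨m, hm⟩ := exists_nat_ge ‖ξ‖
  filter_upwards [eventually_gt_atTop (Nat.pair i m)] with n hn
  refine hx2 n (StrongDual.toWeakDual ξ) (hQ3 n (Nat.pair i m) hn ⟨?_, ?_⟩)
  · rw [Nat.unpair_pair]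
    exact subset_closure ⟨ξ, subset_convexHull ℝ _ hi, rfl⟩
  · rw [Nat.unpair_pair]
    simpa using hm

lemma re_comb (ξ ζ : StrongDual K X) (a b : ℝ) (x : X) :
    re ((a • ξ + b • ζ) x) = a * re (ξ x) + b * re (ζ x) := by
  rw [_root_.add_apply, _root_.smul_apply, _root_.smul_apply, map_add, smul_re, smul_re]

lemma ofSeq {A : Set (StrongDual K X)} {η : StrongDual K X} {d : ℝ} (hd : 0 < d) (x : ℕ → X)
    (hx : ∀ n, ‖x n‖ ≤ 1) (h : ∀ ξ ∈ A, ∀ᶠ n in atTop, d ≤ re (ξ (x n)) - re (η (x n))) :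
    η ∉ Ienv A := by
  let H : ℕ → Set (StrongDual K X) := fun n => {ξ | ∀ k ≥ n, d ≤ re (ξ (x k)) - re (η (x k))}
  have hH : ∀ n, Convex ℝ (H n) := by
    intro n a ha b hb s t hs ht hst k hk
    rw [re_comb]
    have h1 := mul_le_mul_of_nonneg_left (ha k hk) hs
    have h2 := mul_le_mul_of_nonneg_left (hb k hk) ht
    have : s = 1 - t := by linarith
    subst this
    nlinarith
  have hw : ∀ n, wclosure (convexHull ℝ (A ∩ H n)) ⊆ H n := by
    intro n ξ hξ k hk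
    have hcl : IsClosed {ζ : WeakDual K X | d ≤ re (ζ (x k)) - re (η (x k))} :=
      isClosed_le continuous_const
        ((continuous_re.comp (WeakDual.eval_continuous _)).sub continuous_const)
    refine closure_minimal ?_ hcl hξ
    rintro _ ⟨ζ, hζ, rfl⟩
    exact convexHull_min inter_subset_right (hH n) hζ k hk
  have hU : Convex ℝ (⋃ n, H n) :=
    Directed.convex_iUnion (fun i j => ⟨max i j, fun ξ hξ k hk => hξ k (le_of_max_le_left hk),
      fun ξ hξ k hk => hξ k (le_of_max_le_right hk)⟩) (fun n => hH n)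
  intro hη
  simp only [Ienv, mem_iInter] at hη
  have h1 := hη (fun n => A ∩ H n) (by
    ext ξ
    simp only [mem_iUnion, mem_inter_iff]
    exact ⟨fun hξ => (eventually_atTop.1 (h ξ hξ)).imp fun n hn => ⟨hξ, hn⟩,
      fun ⟨_, h, _⟩ => h⟩)
  obtain ⟨ξ, hξ, hlt⟩ := Metric.mem_closure_iff.1 h1 d hd
  obtain ⟨n, hn⟩ := mem_iUnion.1 (convexHull_min (iUnion_mono hw) hU hξ)
  have h2 := hn n le_rfl
  rw [← map_sub, ← _root_.sub_apply] at h2
  have h3 := (re_le_norm _).trans ((ξ - η).le_opNorm (x n))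
  rw [dist_comm, dist_eq_norm] at hlt
  have := mul_le_of_le_one_right (norm_nonneg (ξ - η)) (hx n)
  linarith

lemma mono {A B : Set (StrongDual K X)} (h : A ⊆ B) : Ienv A ⊆ Ienv B := by
  intro η hη
  by_contra hn
  obtain ⟨d, hd, x, hx, h'⟩ := toSeq hn
  exact ofSeq hd x hx (fun ξ hξ => h' ξ (h hξ)) hη

theorem main {A B : Set (StrongDual K X)} (hc : Convex ℝ (A ∪ B)) :
    Ienv (A ∪ B) = Ienv A ∪ Ienv B := by
  refine Subset.antisymm (fun η hη => ?_)
    (union_subset (mono subset_union_left) (mono subset_union_right))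
  by_contra hn
  rw [mem_union, not_or] at hn
  obtain ⟨d1, hd1, x, hx, hA⟩ := toSeq hn.1
  obtain ⟨d2, hd2, y, hy, hB⟩ := toSeq hn.2
  have hb : ∀ (ξ : StrongDual K X) (z : X), ‖z‖ ≤ 1 → |re (ξ z) - re (η z)| ≤ ‖ξ - η‖ + 1 := by
    intro ξ z hz
    rw [← map_sub, ← _root_.sub_apply]
    have h3 := (abs_re_le_norm _).trans ((ξ - η).le_opNorm z)
    have := mul_le_of_le_one_right (norm_nonneg (ξ - η)) hz
    linarith
  obtain ⟨r, hr, u, hu⟩ := comb A B hc (fun ξ n => re (ξ (x n)) - re (η (x n)))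
    (fun ξ n => re (ξ (y n)) - re (η (y n))) (min d1 d2)
    (fun ξ ζ τ n => by rw [re_comb]; ring) (fun ξ ζ τ n => by rw [re_comb]; ring)
    (fun ξ => ⟨‖ξ - η‖ + 1, by positivity, fun n => ⟨hb _ _ (hx n), hb _ _ (hy n)⟩⟩)
    (fun ξ hξ => (hA ξ hξ).mono fun n hn => (min_le_left _ _).trans hn)
    (fun ξ hξ => (hB ξ hξ).mono fun n hn => (min_le_right _ _).trans hn)
  have hd : 0 < min d1 d2 := lt_min hd1 hd2
  refine ofSeq (half_pos hd) (fun n => (r : K) • x (u n) + ((1 - r : ℝ) : K) • y (u n))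
    (fun n => ?_) (fun ξ hξ => (hu ξ hξ _ (half_pos hd)).mono fun n hn => ?_) hη
  · refine (norm_add_le _ _).trans ?_
    rw [norm_smul, norm_smul, RCLike.norm_ofReal, RCLike.norm_ofReal, abs_of_nonneg hr.1,
      abs_of_nonneg (sub_nonneg.2 hr.2)]
    have h1 := mul_le_of_le_one_right hr.1 (hx (u n))
    have h2 := mul_le_of_le_one_right (sub_nonneg.2 hr.2) (hy (u n))
    linarith
  · simp only [map_add, map_smul, smul_eq_mul, re_ofReal_mul]
    linarith

end Pool.Agent.H87.Ienv
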