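import Pool.Agent.H87.GatB
import Pool.Agent.H87.Ienv2

/-! Simons' inequality for the support functionals at points of Gateaux smoothness, and
(I)-generation of the dual ball by its weak-star exposed points. -/

set_option autoImplicit false

namespace Pool.Agent.H87.GatD

open Filter Topology Set GatA GatB

variable {X : Type} [NormedAddCommGroup X] [NormedSpace ℝ X]

theorem simons0 [CompleteSpace X] [TopologicalSpace.SeparableSpace X] (C : ℕ → Set X)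
    (hc : ∀ n, Convex ℝ (C n)) (hne : ∀ n, (C n).Nonempty) (ha : Antitone C)
    (hC1 : ∀ u ∈ C 0, ‖u‖ ≤ 1) {β δ : ℝ} (hδ : 0 < δ) (hδ1 : δ ≤ 1) (hβ : ∀ u ∈ C 0, β ≤ ‖u‖) :
    ∃ z : X, Sm z ∧ ∀ y : X →L[ℝ] ℝ, ‖y‖ ≤ 1 → y z = ‖z‖ → ∀ N, ∃ u ∈ C N, β - δ < y u := by
  have hle1 : ∀ (y : X →L[ℝ] ℝ), ‖y‖ ≤ 1 → ∀ u : X, y u ≤ ‖u‖ := fun y hy u =>
    (le_abs_self _).trans ((y.le_opNorm u).trans (mul_le_of_le_one_left (norm_nonneg _) hy))
  obtain ⟨F, hF, hCF, hcv, hmax⟩ := exists_filter C hc hne ha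
  choose Γ hΓ using exists_lim F (mem_of_superset (hCF 0) hC1) hmax
  obtain ⟨v, hv1, hv2⟩ := exists_dirs (X := X)
  let η : ℕ → ℝ := fun n => δ / 16 * (1 / 2) ^ n
  have η0 : ∀ n, 0 < η n := fun n => by positivity
  have ηs : ∀ n, η (n + 1) = η n / 2 := fun n => by simp only [η]; ring
  have η1 : ∀ n, η n ≤ 1 := fun n => by
    have : ((1 : ℝ) / 2) ^ n ≤ 1 := pow_le_one₀ (by norm_num) (by norm_num)
    simp only [η]; nlinarith
  have ηt : Tendsto η atTop (𝓝 0) := by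
    have := (tendsto_pow_atTop_nhds_zero_of_lt_one (r := (1 / 2 : ℝ)) (by norm_num)
      (by norm_num)).const_mul (δ / 16)
    rwa [mul_zero] at this
  obtain ⟨p, p0, hp⟩ := exists_rec
    (fun n (p : X × ℝ) => 0 < p.2 ∧ (β - δ / 2 + 8 * η n) * p.2 ≤ Γ p.1 p.2 - ‖p.1‖)
    (fun n p q => ∃ (s r : ℝ) (u : X), |s| ≤ η n * p.2 ∧ 0 < r ∧ q.2 ≤ η n * r ∧ q.2 ≤ p.2 / 2 ∧
      u ∈ C n ∧ q.1 = p.1 + s • v n + p.2 • u ∧
      ‖q.1 + r • v n‖ + ‖q.1 - r • v n‖ - 2 * ‖q.1‖ ≤ 5 * (η n * r) ∧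
      (β - δ / 2) * p.2 ≤ ‖q.1‖ - ‖p.1‖) (0, 1)
    ⟨one_pos, by
      have : β ≤ Γ 0 1 := ge_of_tendsto (hΓ 0 1) (mem_of_superset (hCF 0) fun u hu => by
        show β ≤ ‖0 + (1 : ℝ) • u‖
        rw [zero_add, one_smul]; exact hβ u hu)
      simp only [η, norm_zero]; linarith⟩
    (fun n p hp => by
      obtain ⟨s, r, l', u, h1, h2, h3, h4, h5, h6, h7, h8, h9⟩ :=
        step hΓ hcv p.1 (v n) (hv1 n) hp.1 (η0 n) hp.2 (hCF n)
      refine ⟨(p.1 + s • v n + p.2 • u, l'), ⟨h3, ?_⟩, s, r, u, h1, h2, h4, h5, h6, rfl, h7, ?_⟩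
      · rw [ηs]; convert h9 using 2; ring
      · have := mul_pos (η0 n) hp.1
        linarith)
  choose s r u hs hr h1 h2 hu hz h3 h4 using fun n => (hp n).2
  have l0 : ∀ n, 0 < (p n).2 := fun n => (hp n).1.1
  have hsv : ∀ n, ‖s n • v n‖ ≤ η n * (p n).2 := fun n => by
    rw [norm_smul, Real.norm_eq_abs]
    exact (mul_le_of_le_one_right (abs_nonneg _) (hv1 n)).trans (hs n)
  have d1 : ∀ n, ‖(p (n + 1)).1 - (p n).1‖ ≤ 2 * (p n).2 := fun n => by
    rw [hz, add_assoc, add_sub_cancel_left]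
    refine (norm_add_le _ _).trans ?_
    have a1 := hsv n
    have a2 := mul_le_of_le_one_left (l0 n).le (η1 n)
    have a3 : ‖(p n).2 • u n‖ ≤ (p n).2 := by
      rw [norm_smul, Real.norm_of_nonneg (l0 n).le]
      exact mul_le_of_le_one_right (l0 n).le (hC1 _ (ha (Nat.zero_le n) (hu n)))
    linarith
  have l1 : ∀ n, (p n).2 ≤ 1 / 2 ^ n := fun n => by
    induction n with
    | zero => rw [p0]; norm_num
    | succ n ih => rw [pow_succ, ← div_div]; linarith [h2 n]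
  obtain ⟨z, hzt⟩ := cauchySeq_tendsto_of_complete (cauchySeq_of_le_geometric_two (C := 4)
    (f := fun n => (p n).1) fun n => by
      rw [dist_comm, dist_eq_norm]
      have := l1 n
      have e : (4 : ℝ) / 2 / 2 ^ n = 2 * (1 / 2 ^ n) := by ring
      rw [e]; linarith [d1 n])
  have d2 : ∀ n k, ‖(p (k + n)).1 - (p n).1‖ + 4 * (p (k + n)).2 ≤ 4 * (p n).2 := fun n k => by
    induction k with
    | zero => simp
    | succ k ih =>
      have := norm_sub_le_norm_sub_add_norm_sub (p (k + n + 1)).1 (p (k + n)).1 (p n).1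
      rw [show k + 1 + n = k + n + 1 by omega]
      linarith [d1 (k + n), h2 (k + n)]
  have d3 : ∀ n, ‖z - (p n).1‖ ≤ 4 * (p n).2 := fun n =>
    le_of_tendsto' ((((tendsto_add_atTop_iff_nat n).2 hzt).sub_const _).norm) fun k => by
      linarith [d2 n k, l0 (k + n)]
  have η2 : ∀ n, η n ≤ δ / 16 := fun n => by
    have : ((1 : ℝ) / 2) ^ n ≤ 1 := pow_le_one₀ (by norm_num) (by norm_num)
    simp only [η]; nlinarith
  refine ⟨z, ?_, fun y hy hyz N => ?_⟩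
  · rw [← one_smul ℝ z]
    refine sm_of z (fun h hh ε hε => ?_) one_pos
    obtain ⟨N, hN⟩ := eventually_atTop.1 (ηt.eventually_le_const (u := ε / 23) (by positivity))
    obtain ⟨n, hn, hn'⟩ := hv2 h hh (ε / 23) (by positivity) N
    refine ⟨r n, hr n, ?_⟩
    have a1 : ‖r n • (v n - h)‖ ≤ r n * (ε / 23) := by
      rw [norm_smul, Real.norm_of_nonneg (hr n).le]
      exact mul_le_mul_of_nonneg_left hn'.le (hr n).le
    have a2 : ‖z + r n • h‖ ≤ ‖(p (n + 1)).1 + r n • v n‖ + ‖z - (p (n + 1)).1‖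
        + ‖r n • (v n - h)‖ := by
      refine le_trans (le_of_eq ?_) ((norm_sub_le _ _).trans
        (add_le_add_left (norm_add_le _ _) _))
      congr 1; module
    have a3 : ‖z - r n • h‖ ≤ ‖(p (n + 1)).1 - r n • v n‖ + ‖z - (p (n + 1)).1‖
        + ‖r n • (v n - h)‖ := by
      refine le_trans (le_of_eq ?_) ((norm_add_le _ _).trans
        (add_le_add_left (norm_add_le _ _) _))
      congr 1; module
    have a4 : ‖(p (n + 1)).1‖ ≤ ‖z‖ + ‖z - (p (n + 1)).1‖ := by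
      refine le_trans (le_of_eq ?_) (norm_sub_le _ _)
      congr 1; abel
    have a5 := mul_le_mul_of_nonneg_right (hN n hn) (hr n).le
    linarith [d3 (n + 1), h1 n, h3 n]
  · by_contra hn
    push Not at hn
    have hN : ∀ n ≥ N, y ((p (n + 1)).1 - (p n).1) ≤ (β - δ + δ / 16) * (p n).2 := by
      intro n hn'
      rw [hz, add_assoc, add_sub_cancel_left, map_add, map_smul y (p n).2, smul_eq_mul]
      have a1 := (hle1 y hy _).trans (hsv n)
      have a2 := mul_le_mul_of_nonneg_right (η2 n) (l0 n).le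
      have a4 := mul_le_mul_of_nonneg_left (hn _ (ha hn' (hu n))) (l0 n).le
      linarith
    have m1 : ∀ k, δ / 4 * (p N).2 ≤ ‖(p (k + (N + 1))).1‖ - y (p (k + (N + 1))).1 := fun k => by
      induction k with
      | zero =>
        have := hN N le_rfl
        rw [map_sub] at this
        rw [zero_add]
        have a1 := mul_pos hδ (l0 N)
        linarith [h4 N, hle1 y hy (p N).1]
      | succ k ih =>
        have := hN (k + (N + 1)) (by omega)
        rw [map_sub] at this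
        rw [show k + 1 + (N + 1) = k + (N + 1) + 1 by omega]
        have a1 := mul_pos hδ (l0 (k + (N + 1)))
        linarith [h4 (k + (N + 1))]
    have ht := (tendsto_add_atTop_iff_nat (N + 1)).2 hzt
    have := ge_of_tendsto' (ht.norm.sub ((y.continuous.tendsto z).comp ht)) m1
    have a1 := mul_pos hδ (l0 N)
    linarith

theorem simons [CompleteSpace X] [TopologicalSpace.SeparableSpace X] (C : ℕ → Set X)
    (hc : ∀ n, Convex ℝ (C n)) (hne : ∀ n, (C n).Nonempty) (ha : Antitone C)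
    (hC1 : ∀ u ∈ C 0, ‖u‖ ≤ 1) (a : X →L[ℝ] ℝ) (ha1 : ‖a‖ ≤ 1) {δ : ℝ} (hδ : 0 < δ) :
    ∃ z : X, Sm z ∧ ∀ y : X →L[ℝ] ℝ, ‖y‖ ≤ 1 → y z = ‖z‖ → ∀ N, ∃ u ∈ C N, a u - δ < y u := by
  have hab : ∀ u, |a u| ≤ ‖u‖ := fun u =>
    (a.le_opNorm u).trans (mul_le_of_le_one_left (norm_nonneg _) ha1)
  have hab1 : ∀ n, ∀ u ∈ C n, |a u| ≤ 1 := fun n u hu =>
    (hab u).trans (hC1 u (ha (Nat.zero_le n) hu))
  let s : ℕ → ℝ := fun n => sSup (a '' C n)
  have hs : ∀ n, ∀ u ∈ C n, a u ≤ s n := fun n u hu =>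
    le_csSup ⟨1, by rintro _ ⟨w, hw, rfl⟩; exact (abs_le.1 (hab1 n w hw)).2⟩ ⟨u, hu, rfl⟩
  have hb : BddBelow (range s) := ⟨-1, by
    rintro _ ⟨n, rfl⟩
    obtain ⟨u, hu⟩ := hne n
    exact (abs_le.1 (hab1 n u hu)).1.trans (hs n u hu)⟩
  let e := min δ 1
  have he : 0 < e := lt_min hδ one_pos
  obtain ⟨N0, hN0⟩ := exists_lt_of_ciInf_lt (show ⨅ n, s n < (⨅ n, s n) + e / 4 by linarith)
  obtain ⟨z, h1, h2⟩ := simons0 (fun n => C n ∩ {u | (⨅ n, s n) - e / 4 ≤ a u})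
    (fun n => (hc n).inter (convex_halfSpace_ge (a : X →ₗ[ℝ] ℝ).isLinear _))
    (fun n => by
      obtain ⟨_, ⟨u, hu, rfl⟩, h⟩ := exists_lt_of_lt_csSup ((hne n).image a)
        (show (⨅ n, s n) - e / 4 < s n by linarith [ciInf_le hb n])
      exact ⟨u, hu, h.le⟩)
    (fun n m h => inter_subset_inter_left _ (ha h)) (fun u hu => hC1 u hu.1)
    (β := (⨅ n, s n) - e / 4) (δ := e / 2) (by positivity) (by linarith [min_le_right δ 1])
    (fun u hu => le_trans hu.2 ((le_abs_self _).trans (hab u)))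
  refine ⟨z, h1, fun y hy hyz N => ?_⟩
  obtain ⟨u, hu, h3⟩ := h2 y hy hyz (max N N0)
  refine ⟨u, ha (le_max_left _ _) hu.1, ?_⟩
  have := hs N0 u (ha (le_max_right _ _) hu.1)
  linarith [min_le_left δ 1]

/-- weak-star exposed points of the dual ball -/
def Ex (X : Type) [NormedAddCommGroup X] [NormedSpace ℝ X] : Set (X →L[ℝ] ℝ) :=
  {φ | ‖φ‖ ≤ 1 ∧ ∃ x : X, ∀ ψ : X →L[ℝ] ℝ, ‖ψ‖ ≤ 1 → ψ ≠ φ → ψ x < φ x}

theorem igen [CompleteSpace X] [TopologicalSpace.SeparableSpace X]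
    (D : ℕ → Set (WeakDual ℝ X)) (hD1 : ∀ n, IsClosed (D n)) (hD2 : ∀ n, Convex ℝ (D n))
    (hE : ∀ φ ∈ Ex X, ∃ n, StrongDual.toWeakDual φ ∈ D n) (P : Set (X →L[ℝ] ℝ))
    (hP : Convex ℝ P) (hDP : ∀ n, ∀ φ ∈ D n, WeakDual.toStrongDual φ ∈ P) :
    Metric.closedBall (0 : X →L[ℝ] ℝ) 1 ⊆ closure P := by
  intro ξ hξ
  by_contra h
  rw [Metric.mem_closure_iff] at h
  push Not at h
  obtain ⟨ε, hε, h⟩ := h
  let D' : ℕ → Set (WeakDual ℝ X) := fun k =>
    D k ∩ WeakDual.toStrongDual ⁻¹' Metric.closedBall 0 1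
  have hD : ∀ k, IsCompact (D' k) := fun k =>
    (WeakDual.isCompact_closedBall (𝕜 := ℝ) (E := X) 0 _).inter_left (hD1 k)
  have hD' : ∀ k, Convex ℝ (D' k) := fun k =>
    (hD2 _).inter (convex_closedBall (0 : StrongDual ℝ X) _)
  have hfin := Ienv.exists_hull (W := WeakDual ℝ X) D' hD hD'
  choose Q hQ1 hQ2 hQ3 hQ4 using hfin
  have hP' : Convex ℝ (WeakDual.toStrongDual ⁻¹' P : Set (WeakDual ℝ X)) := hP
  have hsub : ∀ n, Q n ⊆ WeakDual.toStrongDual ⁻¹' P := fun n =>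
    hQ4 n _ hP' fun k φ hk => hDP k φ hk.1
  have hx := fun n => Ienv.sep (K := ℝ) (Q n) (hQ1 n).isClosed (hQ2 n) ξ
    (half_pos hε) fun φ hφ => by
      have := h (WeakDual.toStrongDual φ) (hsub n hφ)
      rw [dist_comm, dist_eq_norm] at this
      linarith
  obtain ⟨z, hz1, hz2⟩ := simons
    (fun n => {u : X | ‖u‖ ≤ 1 ∧ ∀ k < n, ∀ φ ∈ D' k, φ u ≤ ξ u - ε / 2})
    (fun n u hu w hw p q hp hq hpq => ⟨mem_closedBall_zero_iff.1 (convex_closedBall (0 : X) 1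
        (mem_closedBall_zero_iff.2 hu.1) (mem_closedBall_zero_iff.2 hw.1) hp hq hpq),
      fun k hk φ hφ => by
        rw [map_add, map_smul, map_smul, map_add, map_smul, map_smul]
        simp only [smul_eq_mul]
        have h1 := mul_le_mul_of_nonneg_left (hu.2 k hk φ hφ) hp
        have h2 := mul_le_mul_of_nonneg_left (hw.2 k hk φ hφ) hq
        have : ε = (p + q) * ε := by rw [hpq, one_mul]
        linarith⟩)
    (fun n => by
      obtain ⟨x, h1, h2⟩ := hx n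
      refine ⟨-x, by rwa [norm_neg], fun k hk φ hφ => ?_⟩
      have h3 : ε / 2 ≤ φ x - ξ x := h2 φ (hQ3 n k hk hφ)
      rw [map_neg, map_neg]; linarith)
    (fun n m h u hu => ⟨hu.1, fun k hk => hu.2 k (hk.trans_le h)⟩) (fun u hu => hu.1)
    ξ (mem_closedBall_zero_iff.1 hξ) (half_pos hε)
  obtain ⟨y, hy1, hy2⟩ := exists_dual_vector'' ℝ z
  have hy3 : y z = ‖z‖ := hy2
  obtain ⟨n, hn⟩ := hE y ⟨hy1, z, fun ψ hψ hne => by
    refine lt_of_le_of_ne ?_ fun h => hne (ContinuousLinearMap.ext fun v =>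
      (hz1.deriv ψ hψ (h.trans hy3) v).unique (hz1.deriv y hy1 hy3 v))
    rw [hy3]
    exact (le_abs_self _).trans ((ψ.le_opNorm z).trans
      (mul_le_of_le_one_left (norm_nonneg _) hψ))⟩
  obtain ⟨u, hu, hu'⟩ := hz2 y hy1 hy3 (n + 1)
  have : y u ≤ ξ u - ε / 2 :=
    hu.2 n (Nat.lt_succ_self n) _ ⟨hn, mem_closedBall_zero_iff.2 hy1⟩
  linarith

/-- the weak-star closure of the convex hull, described by finite sets of vectors -/
def wc (B : Set (X →L[ℝ] ℝ)) : Set (X →L[ℝ] ℝ) :=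
  {φ | ∀ F : Finset X, ∀ ε : ℝ, 0 < ε → ∃ ψ ∈ convexHull ℝ B, ∀ x ∈ F, |φ x - ψ x| < ε}

theorem wc_convex (B : Set (X →L[ℝ] ℝ)) : Convex ℝ (wc B) := by
  intro φ hφ χ hχ p q hp hq hpq F ε hε
  obtain ⟨ψ, h1, h2⟩ := hφ F (ε / 2) (half_pos hε)
  obtain ⟨ω, h3, h4⟩ := hχ F (ε / 2) (half_pos hε)
  refine ⟨_, convex_convexHull ℝ B h1 h3 hp hq hpq, fun x hx => ?_⟩
  have a1 := abs_lt.1 (h2 x hx)
  have a2 := abs_lt.1 (h4 x hx)
  simp only [_root_.add_apply, _root_.smul_apply, smul_eq_mul]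
  have b1 := mul_le_mul_of_nonneg_left a1.1.le hp
  have b2 := mul_le_mul_of_nonneg_left a1.2.le hp
  have b3 := mul_le_mul_of_nonneg_left a2.1.le hq
  have b4 := mul_le_mul_of_nonneg_left a2.2.le hq
  have : ε = (p + q) * ε := by rw [hpq, one_mul]
  rw [abs_lt]; constructor <;> linarith

theorem wc_closed (B : Set (X →L[ℝ] ℝ)) :
    IsClosed (WeakDual.toStrongDual ⁻¹' wc B : Set (WeakDual ℝ X)) := by
  refine isClosed_of_closure_subset fun φ hφ F ε hε => ?_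
  have h1 : ∀ᶠ χ : WeakDual ℝ X in 𝓝 φ, ∀ x ∈ F, |φ x - χ x| < ε / 2 := by
    refine (eventually_all_finset F).2 fun x _ => ?_
    have hc : Continuous fun χ : WeakDual ℝ X => |φ x - χ x| :=
      (continuous_const.sub (WeakDual.eval_continuous x)).abs
    exact hc.continuousAt.eventually_lt continuousAt_const (by simpa using hε)
  obtain ⟨χ, h2, h3⟩ := mem_closure_iff_nhds.1 hφ _ h1
  obtain ⟨ψ, h4, h5⟩ := h3 F (ε / 2) (half_pos hε)
  refine ⟨ψ, h4, fun x hx => ?_⟩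
  have a1 := abs_lt.1 (h2 x hx)
  have a2 : |χ x - ψ x| < ε / 2 := h5 x hx
  have a3 := abs_lt.1 a2
  show |φ x - ψ x| < ε
  rw [abs_lt]; constructor <;> linarith

theorem main [CompleteSpace X] [TopologicalSpace.SeparableSpace X] (B : ℕ → Set (X →L[ℝ] ℝ))
    (hB : Ex X ⊆ ⋃ n, B n) :
    Metric.closedBall (0 : X →L[ℝ] ℝ) 1 ⊆ closure (convexHull ℝ (⋃ n, wc (B n))) :=
  igen (fun n => WeakDual.toStrongDual ⁻¹' wc (B n)) (fun n => wc_closed _)
    (fun n => wc_convex _) (fun φ hφ => by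
      obtain ⟨n, hn⟩ := mem_iUnion.1 (hB hφ)
      exact ⟨n, fun F ε hε => ⟨φ, subset_convexHull ℝ _ hn, fun x _ => by simpa using hε⟩⟩)
    _ (convex_convexHull ℝ _) fun n φ hφ => subset_convexHull ℝ _ (mem_iUnion.2 ⟨n, hφ⟩)

end Pool.Agent.H87.GatD
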