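import Pool.Agent.H87.GatD
import Pool.Agent.H87.JamesSeq
import Pool.Agent.H87.L1R

/-! Fragmentability of second dual elements on the dual ball in the absence of `ℓ¹`, and the
norm-closed convex hull of the weak-star exposed points. -/

set_option autoImplicit false

namespace Pool.Agent.H87.GatE

open Filter Topology Set GatB GatD

theorem cover {W : Type} [AddCommGroup W] [Module ℝ W] [TopologicalSpace W]
    [IsTopologicalAddGroup W] [ContinuousSMul ℝ W] [LocallyConvexSpace ℝ W]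
    (K : Set W) (hK1 : IsClosed K) (hK2 : Convex ℝ K) (hK3 : SecondCountableTopology K)
    (Φ : W →ₗ[ℝ] ℝ) {α δ : ℝ}
    (hfrag : ∀ H ⊆ K, H.Nonempty → ∃ U, IsOpen U ∧ (U ∩ H).Nonempty ∧
      ∀ p ∈ U ∩ H, ∀ q ∈ U ∩ H, Φ p - Φ q < δ)
    (G : Set W) (hGK : G ⊆ K) (hG : ∀ η ∈ G, Φ η ≤ α) :
    ∃ D : ℕ → Set W, (∀ n, IsClosed (D n) ∧ Convex ℝ (D n) ∧ ∀ η ∈ D n, Φ η ≤ α + δ) ∧
      G ⊆ ⋃ n, D n := by
  let Good : Set W → Prop := fun S => ∃ 𝒟 : Set (Set W), 𝒟.Countable ∧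
    (∀ D ∈ 𝒟, IsClosed D ∧ Convex ℝ D ∧ ∀ η ∈ D, Φ η ≤ α + δ) ∧ S ⊆ ⋃₀ 𝒟
  let V : Set W := {y | ∃ U ∈ 𝓝 y, Good (U ∩ G)}
  have hV : Good (V ∩ G) := by
    choose! U hU1 𝒟 h1 h2 h3 using fun y (hy : y ∈ V) => hy
    obtain ⟨t, ht1, ht2, ht3⟩ := TopologicalSpace.countable_cover_nhdsWithin
      (s := (Subtype.val ⁻¹' V : Set K)) (f := fun y => Subtype.val ⁻¹' U y.1) fun y hy =>
        mem_nhdsWithin_of_mem_nhds (continuous_subtype_val.continuousAt (hU1 _ hy))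
    refine ⟨⋃ y ∈ t, 𝒟 y.1, ht2.biUnion fun y hy => h1 _ (ht1 hy), fun D hD => ?_,
      fun y hy => ?_⟩
    · obtain ⟨y, hy, hD⟩ := mem_iUnion₂.1 hD
      exact h2 _ (ht1 hy) D hD
    · obtain ⟨z, hz, hy'⟩ := mem_iUnion₂.1 (ht3 (show (⟨y, hGK hy.2⟩ : K) ∈ _ from hy.1))
      obtain ⟨D, hD, hyD⟩ := h3 _ (ht1 hz) (mem_inter hy' hy.2)
      exact ⟨D, mem_iUnion₂.2 ⟨z, hz, hD⟩, hyD⟩
  have hGV : G ⊆ V := by
    by_contra hn
    obtain ⟨y0, hy0, hy0'⟩ := not_subset.1 hn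
    let H := closure (convexHull ℝ (G \ V))
    have hH : Convex ℝ H := (convex_convexHull ℝ _).closure
    have hAH : G \ V ⊆ H := (subset_convexHull ℝ _).trans subset_closure
    have hHK : H ⊆ K := closure_minimal (convexHull_min (diff_subset.trans hGK) hK2) hK1
    let Y := {x | ∀ U ∈ 𝓝 x, ∃ p ∈ U ∩ H, ∃ q ∈ U ∩ H, δ ≤ Φ p - Φ q}
    have hY1 : IsClosed Y := isClosed_of_closure_subset fun x hx U hU => by
      obtain ⟨z, hz1, hz2⟩ := mem_closure_iff_nhds.1 hx _ (interior_mem_nhds.2 hU)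
      exact hz2 U (mem_interior_iff_mem_nhds.1 hz1)
    have hY2 : Convex ℝ Y := by
      intro x hx y hy a b ha hb hab U hU
      have hc : Continuous fun p : W × W => a • p.1 + b • p.2 := by fun_prop
      have h1 := hc.continuousAt (x := (x, y)) hU
      rw [mem_map, nhds_prod_eq, mem_prod_iff] at h1
      obtain ⟨U1, hU1, U2, hU2, h1⟩ := h1
      obtain ⟨p, hp, q, hq, h2⟩ := hx U1 hU1
      obtain ⟨p', hp', q', hq', h3⟩ := hy U2 hU2
      refine ⟨a • p + b • p', ⟨h1 (mk_mem_prod hp.1 hp'.1), hH hp.2 hp'.2 ha hb hab⟩,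
        a • q + b • q', ⟨h1 (mk_mem_prod hq.1 hq'.1), hH hq.2 hq'.2 ha hb hab⟩, ?_⟩
      simp only [map_add, map_smul, smul_eq_mul]
      have a1 := mul_le_mul_of_nonneg_left h2 ha
      have a2 := mul_le_mul_of_nonneg_left h3 hb
      have : δ = (a + b) * δ := by rw [hab, one_mul]
      linarith
    have hAY : ¬ G \ V ⊆ Y := fun h => by
      have h1 : H ⊆ Y := closure_minimal (convexHull_min h hY2) hY1
      obtain ⟨U, hU, ⟨x, hx⟩, h2⟩ := hfrag H hHK ⟨y0, hAH ⟨hy0, hy0'⟩⟩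
      obtain ⟨p, hp, q, hq, h3⟩ := h1 hx.2 U (hU.mem_nhds hx.1)
      linarith [h2 p hp q hq]
    obtain ⟨y, hy, hy'⟩ := not_subset.1 hAY
    simp only [Y, mem_setOf_eq] at hy'
    push Not at hy'
    obtain ⟨U, hU, h1⟩ := hy'
    obtain ⟨C, hC1, hC2, hC3⟩ := exists_mem_nhds_isClosed_subset hU
    obtain ⟨N, ⟨hN1, hN2⟩, hN3⟩ := (LocallyConvexSpace.convex_basis (𝕜 := ℝ) y).mem_iff.1 hC1
    have hN4 : closure N ⊆ U := (closure_minimal hN3 hC2).trans hC3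
    obtain ⟨𝒟, h2, h3, h4⟩ := hV
    refine hy.2 ⟨N, hN1, insert (closure N ∩ H) 𝒟, h2.insert _, ?_, fun z hz => ?_⟩
    · rintro D (rfl | hD)
      · refine ⟨isClosed_closure.inter isClosed_closure, hN2.closure.inter hH, fun η hη => ?_⟩
        have := h1 η ⟨hN4 hη.1, hη.2⟩ y ⟨mem_of_mem_nhds hU, hAH hy⟩
        linarith [hG y hy.1]
      · exact h3 D hD
    · by_cases hz' : z ∈ V
      · exact sUnion_subset_sUnion (subset_insert _ _) (h4 ⟨hz', hz.2⟩)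
      · exact ⟨_, mem_insert _ _, subset_closure hz.1, hAH ⟨hz.2, hz'⟩⟩
  obtain ⟨𝒟, h2, h3, h4⟩ := hV
  obtain ⟨D, hD⟩ := (h2.insert ∅).exists_eq_range (insert_nonempty _ _)
  refine ⟨D, fun n => ?_, fun z hz => ?_⟩
  · have : D n ∈ insert ∅ 𝒟 := hD ▸ mem_range_self n
    rcases this with h | h
    · rw [h]; exact ⟨isClosed_empty, convex_empty, fun _ h => h.elim⟩
    · exact h3 _ h
  · obtain ⟨E, hE, hzE⟩ := h4 ⟨hGV hz, hz⟩
    obtain ⟨n, rfl⟩ : E ∈ range D := hD ▸ mem_insert_of_mem _ hE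
    exact mem_iUnion.2 ⟨n, hzE⟩

variable {X : Type} [NormedAddCommGroup X] [NormedSpace ℝ X] [CompleteSpace X]

theorem ell1 (x : ℕ → X) (M : ℝ) (hx : ∀ n, ‖x n‖ ≤ M) {c : ℝ} (hc : 0 < c)
    (h : ∀ (n : ℕ) (a : ℕ → ℝ), c * ∑ i ∈ Finset.range n, ‖a i‖ ≤
      ‖∑ i ∈ Finset.range n, a i • x i‖) :
    ∃ T : (lp (fun _ : ℕ => ℝ) 1) →L[ℝ] X, ∃ c : ℝ, 0 < c ∧ ∀ a, c * ‖a‖ ≤ ‖T a‖ :=
  ⟨L1R.lift x M hx, c, hc, fun a => le_of_tendsto_of_tendsto'
    ((L1R.hasSum_norm a).tendsto_sum_nat.const_mul c)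
    (L1R.summ x M hx a).of_norm.hasSum.tendsto_sum_nat.norm fun n => h n _⟩

theorem rosenthal (F : StrongDual ℝ X →L[ℝ] ℝ) (H : Set (WeakDual ℝ X)) (hne : H.Nonempty)
    (hH : ∀ η ∈ H, ‖WeakDual.toStrongDual η‖ ≤ 1) {δ : ℝ} (hδ : 0 < δ)
    (h : ∀ U, IsOpen U → (U ∩ H).Nonempty → ∃ p ∈ U ∩ H, ∃ q ∈ U ∩ H,
      δ ≤ F (WeakDual.toStrongDual p) - F (WeakDual.toStrongDual q)) :
    ∃ T : (lp (fun _ : ℕ => ℝ) 1) →L[ℝ] X, ∃ c : ℝ, 0 < c ∧ ∀ a, c * ‖a‖ ≤ ‖T a‖ := by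
  classical
  let Φ : WeakDual ℝ X → ℝ := fun η => F (WeakDual.toStrongDual η)
  have hb : ∀ η ∈ H, |Φ η| ≤ ‖F‖ := fun η hη =>
    (F.le_opNorm _).trans (mul_le_of_le_one_right (ContinuousLinearMap.opNorm_nonneg F) (hH η hη))
  let s : Set (WeakDual ℝ X) → ℝ := fun U => sSup (Φ '' (U ∩ H))
  have hs : ∀ U, ∀ η ∈ U ∩ H, Φ η ≤ s U := fun U η hη =>
    le_csSup ⟨‖F‖, by rintro _ ⟨w, hw, rfl⟩; exact (abs_le.1 (hb w hw.2)).2⟩ ⟨η, hη, rfl⟩
  let 𝒱 := {U : Set (WeakDual ℝ X) | IsOpen U ∧ (U ∩ H).Nonempty}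
  have hbd : BddBelow (s '' 𝒱) := ⟨-‖F‖, by
    rintro _ ⟨U, ⟨-, η, hη⟩, rfl⟩
    exact (abs_le.1 (hb η hη.2)).1.trans (hs U η hη)⟩
  let m := sInf (s '' 𝒱)
  obtain ⟨_, ⟨U0, hU0, rfl⟩, hm⟩ := exists_lt_of_csInf_lt
    (⟨_, univ, ⟨isOpen_univ, by rwa [univ_inter]⟩, rfl⟩ : (s '' 𝒱).Nonempty)
    (show m < m + δ / 4 by linarith)
  have two : ∀ U, IsOpen U → (U0 ∩ U ∩ H).Nonempty →
      ∃ p ∈ U0 ∩ U ∩ H, ∃ q ∈ U0 ∩ U ∩ H, Φ p < m - 3 * δ / 4 ∧ m - δ / 4 < Φ q := by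
    intro U hU hne
    obtain ⟨p', hp', p, hp, h1⟩ := h _ (hU0.1.inter hU) hne
    obtain ⟨_, ⟨q, hq, rfl⟩, h2⟩ := exists_lt_of_lt_csSup (hne.image Φ)
      (show m - δ / 4 < s (U0 ∩ U) by
        linarith [csInf_le hbd ⟨_, ⟨hU0.1.inter hU, hne⟩, rfl⟩])
    refine ⟨p, hp, q, hq, ?_, h2⟩
    have := hs U0 p' ⟨hp'.1.1, hp'.2⟩
    have h3 : δ ≤ Φ p' - Φ p := h1
    linarith
  let O : ℕ → (ℕ → X) → Finset ℕ → Set (WeakDual ℝ X) := fun n x t =>
    {η | ∀ i ∈ Finset.range n, (i ∈ t → m - δ / 4 < η (x i)) ∧ (i ∉ t → η (x i) < m - 3 * δ / 4)}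
  have hO : ∀ n x t, IsOpen (O n x t) := fun n x t => by
    simp only [O, setOf_forall]
    refine isOpen_biInter_finset fun i _ => ?_
    by_cases hi : i ∈ t
    · simp only [hi, forall_true_left, not_true, IsEmpty.forall_iff, and_true]
      exact isOpen_lt continuous_const (WeakDual.eval_continuous _)
    · simp only [hi, IsEmpty.forall_iff, not_false_iff, forall_true_left, true_and]
      exact isOpen_lt (WeakDual.eval_continuous _) continuous_const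
  have hM : 0 ≤ 2 * (‖F‖ + 1) := by linarith [ContinuousLinearMap.opNorm_nonneg F]
  obtain ⟨f, -, hf⟩ := exists_rec
    (fun n (x : ℕ → X) => (∀ i, ‖x i‖ ≤ 2 * (‖F‖ + 1)) ∧ ∀ t, (U0 ∩ O n x t ∩ H).Nonempty)
    (fun n x x' => ∀ i < n, x' i = x i) 0
    ⟨fun _ => by simpa using hM, fun t => by
      obtain ⟨η, hη⟩ := hU0.2
      exact ⟨η, ⟨hη.1, fun i hi => by simp at hi⟩, hη.2⟩⟩
    (fun n x hx => by
      choose p hp q hq h1 h2 using fun t => two _ (hO n x t) (hx.2 t)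
      obtain ⟨y, hy1, hy2⟩ := JamesSeq.helly F
        (((Finset.range n).powerset.image fun t => WeakDual.toStrongDual (p t)) ∪
          (Finset.range n).powerset.image fun t => WeakDual.toStrongDual (q t))
      refine ⟨Function.update x n y, ⟨fun i => ?_, fun t => ?_⟩,
        fun i hi => Function.update_of_ne hi.ne _ _⟩
      · by_cases hi : i = n
        · rw [hi, Function.update_self]; exact hy1
        · rw [Function.update_of_ne hi]; exact hx.1 i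
      · have ht : t ∩ Finset.range n ∈ (Finset.range n).powerset :=
          Finset.mem_powerset.2 Finset.inter_subset_right
        have k : ∀ η ∈ O n x (t ∩ Finset.range n), (n ∈ t → m - δ / 4 < η y) →
            (n ∉ t → η y < m - 3 * δ / 4) → η ∈ O (n + 1) (Function.update x n y) t := by
          intro η hη a1 a2 i hi
          by_cases hin : i = n
          · rw [hin, Function.update_self]; exact ⟨a1, a2⟩
          · have hi' : i ∈ Finset.range n := by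
              rw [Finset.mem_range] at hi ⊢; omega
            rw [Function.update_of_ne hin]
            exact ⟨fun h => (hη i hi').1 (Finset.mem_inter.2 ⟨h, hi'⟩),
              fun h => (hη i hi').2 fun h' => h (Finset.mem_inter.1 h').1⟩
        by_cases hn : n ∈ t
        · refine ⟨q _, ⟨(hq _).1.1, k _ (hq _).1.2 (fun _ => ?_) fun h => absurd hn h⟩, (hq _).2⟩
          have := hy2 _ (Finset.mem_union_right _ (Finset.mem_image_of_mem _ ht))
          exact (h2 _).trans_eq this.symm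
        · refine ⟨p _, ⟨(hp _).1.1, k _ (hp _).1.2 (fun h => absurd h hn) fun _ => ?_⟩, (hp _).2⟩
          have := hy2 _ (Finset.mem_union_left _ (Finset.mem_image_of_mem _ ht))
          exact this.trans_lt (h1 _))
  have st : ∀ i k, f (i + 1 + k) i = f (i + 1) i := fun i k => by
    induction k with
    | zero => rfl
    | succ k ih => rw [← add_assoc, (hf _).2 i (by omega), ih]
  have st' : ∀ n, ∀ i ∈ Finset.range n, f n i = f (i + 1) i := fun n i hi => by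
    obtain ⟨k, rfl⟩ := Nat.exists_eq_add_of_le (Nat.succ_le_of_lt (Finset.mem_range.1 hi))
    exact st i k
  refine ell1 (fun i => f (i + 1) i) _ (fun i => (hf _).1.1 i) (c := δ / 4) (by positivity)
    fun n a => ?_
  obtain ⟨η, ⟨-, h1⟩, h2⟩ := (hf n).1.2 ((Finset.range n).filter fun i => 0 ≤ a i)
  obtain ⟨ζ, ⟨-, h3⟩, h4⟩ := (hf n).1.2 ((Finset.range n).filter fun i => ¬ 0 ≤ a i)
  have b : ∀ η ∈ H, ∀ v : X, |η v| ≤ ‖v‖ := fun η hη v =>
    ((WeakDual.toStrongDual η).le_opNorm v).trans (mul_le_of_le_one_left (norm_nonneg _) (hH η hη))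
  have b1 := (abs_le.1 (b η h2 (∑ i ∈ Finset.range n, a i • f (i + 1) i))).2
  have b2 := (abs_le.1 (b ζ h4 (∑ i ∈ Finset.range n, a i • f (i + 1) i))).1
  have b3 : δ / 2 * ∑ i ∈ Finset.range n, ‖a i‖ ≤
      η (∑ i ∈ Finset.range n, a i • f (i + 1) i) - ζ (∑ i ∈ Finset.range n, a i • f (i + 1) i) := by
    rw [map_sum, map_sum, ← Finset.sum_sub_distrib, Finset.mul_sum]
    refine Finset.sum_le_sum fun i hi => ?_
    have c1 := h1 i hi
    have c2 := h3 i hi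
    rw [st' n i hi] at c1 c2
    rw [map_smul, map_smul, smul_eq_mul, smul_eq_mul, Real.norm_eq_abs]
    simp only [Finset.mem_filter, hi, true_and, not_not] at c1 c2
    by_cases ha : 0 ≤ a i
    · have d1 := c1.1 ha
      have d2 := c2.2 ha
      rw [abs_of_nonneg ha]; nlinarith
    · have d1 := c1.2 ha
      have d2 := c2.1 ha
      rw [abs_of_neg (not_le.1 ha)]; nlinarith
  linarith

theorem main [TopologicalSpace.SeparableSpace X]
    (h : ¬ ∃ T : (lp (fun _ : ℕ => ℝ) 1) →L[ℝ] X, ∃ c : ℝ, 0 < c ∧ ∀ a, c * ‖a‖ ≤ ‖T a‖) :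
    Metric.closedBall (0 : X →L[ℝ] ℝ) 1 ⊆ closure (convexHull ℝ (Ex X)) := by
  intro ξ hξ
  by_contra hn
  obtain ⟨F, u, h1, h2⟩ := geometric_hahn_banach_closed_point
    (convex_convexHull ℝ (Ex X)).closure isClosed_closure hn
  let K : Set (WeakDual ℝ X) := WeakDual.toStrongDual ⁻¹' Metric.closedBall 0 1
  have hK : IsCompact K := WeakDual.isCompact_closedBall (𝕜 := ℝ) (E := X) 0 1
  have hK2 : Convex ℝ K := convex_closedBall (0 : StrongDual ℝ X) 1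
  have hK3 : SecondCountableTopology K := by
    have := WeakDual.metrizable_of_isCompact ℝ X K hK
    have := isCompact_iff_compactSpace.1 hK
    letI := TopologicalSpace.metrizableSpaceMetric K
    infer_instance
  let Φ : WeakDual ℝ X →ₗ[ℝ] ℝ :=
    { toFun := fun η => F (WeakDual.toStrongDual η)
      map_add' := fun a b => by rw [map_add, map_add]
      map_smul' := fun c a => by rw [map_smul, map_smul]; rfl }
  have hc := cover (W := WeakDual ℝ X) K hK.isClosed hK2 hK3 Φ (α := u) (δ := (F ξ - u) / 2)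
    (fun H hH hne => by
      by_contra hn
      push Not at hn
      exact h (rosenthal F H hne (fun η hη => mem_closedBall_zero_iff.1 (hH hη))
        (show 0 < (F ξ - u) / 2 by linarith) hn))
    (WeakDual.toStrongDual ⁻¹' Ex X) (fun η hη => mem_closedBall_zero_iff.2 hη.1)
    (fun η hη => (h1 _ (subset_closure (subset_convexHull ℝ _ hη))).le)
  obtain ⟨D, hD1, hD2⟩ := hc
  have hP : IsClosed {φ : X →L[ℝ] ℝ | F φ ≤ u + (F ξ - u) / 2} :=
    isClosed_le F.continuous continuous_const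
  have := igen D (fun n => (hD1 n).1) (fun n => (hD1 n).2.1)
    (fun φ hφ => mem_iUnion.1 (hD2 hφ)) {φ | F φ ≤ u + (F ξ - u) / 2}
    (convex_halfSpace_le (F : (X →L[ℝ] ℝ) →ₗ[ℝ] ℝ).isLinear _)
    (fun n φ hφ => (hD1 n).2.2 φ hφ) hξ
  rw [hP.closure_eq] at this
  have h3 : F ξ ≤ u + (F ξ - u) / 2 := this
  linarith

end Pool.Agent.H87.GatE
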