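import Mathlib

namespace Pool.Agent.H87.Groen

open TensorProduct MulOpposite

/-- The three-dimensional algebra with basis e, a, b and e e = e, e a = a, b e = b. -/
def A : Type := ℂ × ℂ × ℂ

noncomputable instance : NormedAddCommGroup A := inferInstanceAs (NormedAddCommGroup (ℂ × ℂ × ℂ))
noncomputable instance : NormedSpace ℂ A := inferInstanceAs (NormedSpace ℂ (ℂ × ℂ × ℂ))
instance : CompleteSpace A := inferInstanceAs (CompleteSpace (ℂ × ℂ × ℂ))
instance : FiniteDimensional ℂ A := inferInstanceAs (FiniteDimensional ℂ (ℂ × ℂ × ℂ))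

def mk (x y z : ℂ) : A := (x, y, z)
def c1 (x : A) : ℂ := Prod.fst x
def c2 (x : A) : ℂ := (Prod.snd x).1
def c3 (x : A) : ℂ := (Prod.snd x).2

noncomputable instance : Mul A := ⟨fun x y => mk (c1 x * c1 y) (c1 x * c2 y) (c3 x * c1 y)⟩

lemma ext' {x y : A} (h1 : c1 x = c1 y) (h2 : c2 x = c2 y) (h3 : c3 x = c3 y) : x = y :=
  Prod.ext h1 (Prod.ext h2 h3)

@[simp] lemma c1_mk (x y z : ℂ) : c1 (mk x y z) = x := rfl
@[simp] lemma c2_mk (x y z : ℂ) : c2 (mk x y z) = y := rfl
@[simp] lemma c3_mk (x y z : ℂ) : c3 (mk x y z) = z := rfl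
@[simp] lemma c1_mul (x y : A) : c1 (x * y) = c1 x * c1 y := rfl
@[simp] lemma c2_mul (x y : A) : c2 (x * y) = c1 x * c2 y := rfl
@[simp] lemma c3_mul (x y : A) : c3 (x * y) = c3 x * c1 y := rfl
@[simp] lemma c1_add (x y : A) : c1 (x + y) = c1 x + c1 y := rfl
@[simp] lemma c2_add (x y : A) : c2 (x + y) = c2 x + c2 y := rfl
@[simp] lemma c3_add (x y : A) : c3 (x + y) = c3 x + c3 y := rfl
@[simp] lemma c1_sub (x y : A) : c1 (x - y) = c1 x - c1 y := rfl
@[simp] lemma c2_sub (x y : A) : c2 (x - y) = c2 x - c2 y := rfl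
@[simp] lemma c3_sub (x y : A) : c3 (x - y) = c3 x - c3 y := rfl
@[simp] lemma c1_zero : c1 (0 : A) = 0 := rfl
@[simp] lemma c2_zero : c2 (0 : A) = 0 := rfl
@[simp] lemma c3_zero : c3 (0 : A) = 0 := rfl
@[simp] lemma c1_smul (t : ℂ) (y : A) : c1 (t • y) = t * c1 y := rfl
@[simp] lemma c2_smul (t : ℂ) (y : A) : c2 (t • y) = t * c2 y := rfl
@[simp] lemma c3_smul (t : ℂ) (y : A) : c3 (t • y) = t * c3 y := rfl

lemma norm_eq (x : A) : ‖x‖ = max ‖c1 x‖ (max ‖c2 x‖ ‖c3 x‖) := rfl
lemma c1_le (x : A) : ‖c1 x‖ ≤ ‖x‖ := by rw [norm_eq]; simp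
lemma c2_le (x : A) : ‖c2 x‖ ≤ ‖x‖ := by rw [norm_eq]; simp
lemma c3_le (x : A) : ‖c3 x‖ ≤ ‖x‖ := by rw [norm_eq]; simp

noncomputable instance : NonUnitalNormedRing A where
  left_distrib a b c := by apply ext' <;> simp [mul_add, add_mul]
  right_distrib a b c := by apply ext' <;> simp [mul_add, add_mul]
  zero_mul a := by apply ext' <;> simp
  mul_zero a := by apply ext' <;> simp
  mul_assoc a b c := by apply ext' <;> simp [mul_assoc]
  dist_eq := dist_eq_norm_neg_add
  norm_mul_le a b := by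
    rw [norm_eq (a * b)]
    simp only [c1_mul, c2_mul, c3_mul, norm_mul, max_le_iff]
    refine ⟨?_, ?_, ?_⟩
    · exact mul_le_mul (c1_le a) (c1_le b) (norm_nonneg _) (norm_nonneg _)
    · exact mul_le_mul (c1_le a) (c2_le b) (norm_nonneg _) (norm_nonneg _)
    · exact mul_le_mul (c3_le a) (c1_le b) (norm_nonneg _) (norm_nonneg _)

instance : IsScalarTower ℂ A A := ⟨fun t a b => by apply ext' <;> simp [mul_assoc]⟩
instance : SMulCommClass ℂ A A := ⟨fun t a b => by apply ext' <;> simp [mul_left_comm]⟩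

/-- The bilinear form giving the outer derivation. -/
noncomputable def D0 : A →ₗ[ℂ] A →ₗ[ℂ] ℂ :=
  LinearMap.mk₂ ℂ (fun x y => c2 x * c3 y - c3 x * c2 y)
    (fun a b c => by simp; ring) (fun t a b => by simp; ring)
    (fun a b c => by simp; ring) (fun t a b => by simp; ring)

noncomputable def D : A →L[ℂ] A →L[ℂ] ℂ :=
  LinearMap.toContinuousLinearMap
    ((LinearMap.toContinuousLinearMap : (A →ₗ[ℂ] ℂ) ≃ₗ[ℂ] (A →L[ℂ] ℂ)).toLinearMap ∘ₗ D0)

lemma D_apply (x y : A) : D x y = c2 x * c3 y - c3 x * c2 y := rfl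

lemma D_der (a b c : A) : D (a * b) c = D b (c * a) + D a (b * c) := by
  simp only [D_apply, c1_mul, c2_mul, c3_mul]; ring

lemma D_outer : ¬ ∃ f : A →L[ℂ] ℂ, ∀ a c, D a c = f (c * a) - f (a * c) := by
  rintro ⟨f, hf⟩
  have h := hf (mk 0 1 0) (mk 0 0 1)
  have h1 : mk 0 0 1 * mk 0 1 0 = (0 : A) := by apply ext' <;> simp
  have h2 : mk 0 1 0 * mk 0 0 1 = (0 : A) := by apply ext' <;> simp
  rw [h1, h2, D_apply] at h
  simp at h

section general
variable {B : Type} [Ring B] [Algebra ℂ B]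

/-- The multiplication map on the enveloping algebra. -/
noncomputable def piM (B : Type) [Ring B] [Algebra ℂ B] : B ⊗[ℂ] Bᵐᵒᵖ →ₗ[ℂ] B :=
  TensorProduct.lift ((LinearMap.mul ℂ B).compl₂ (opLinearEquiv ℂ).symm.toLinearMap)

lemma piM_tmul (a b : B) : piM B (a ⊗ₜ op b) = a * b := by simp [piM]

lemma piM_tmul_mul (a b : B) (x : B ⊗[ℂ] Bᵐᵒᵖ) :
    piM B ((a ⊗ₜ op b) * x) = a * piM B x * b := by
  induction x using TensorProduct.induction_on with
  | zero => simp
  | tmul c d =>
    rw [Algebra.TensorProduct.tmul_mul_tmul]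
    simp [piM, mul_assoc]
  | add x y hx hy => rw [mul_add, map_add, hx, hy, map_add, mul_add, add_mul]

lemma ker_mul (r x : B ⊗[ℂ] Bᵐᵒᵖ) (hx : piM B x = 0) : piM B (r * x) = 0 := by
  induction r using TensorProduct.induction_on with
  | zero => simp
  | tmul c d =>
    have := piM_tmul_mul c (unop d) x
    rw [op_unop] at this
    rw [this, hx]; simp
  | add x y hx hy => rw [add_mul, map_add, hx, hy, add_zero]

noncomputable def dd (b : B) : B ⊗[ℂ] Bᵐᵒᵖ := b ⊗ₜ 1 - 1 ⊗ₜ op b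

lemma dd_ker (b : B) : piM B (dd b) = 0 := by
  have h1 := piM_tmul b (1 : B)
  have h2 := piM_tmul (1 : B) b
  rw [op_one] at h1
  rw [dd, map_sub, h1, h2]; simp

/-- The span of the products. -/
noncomputable def J (B : Type) [Ring B] [Algebra ℂ B] : Submodule ℂ (B ⊗[ℂ] Bᵐᵒᵖ) :=
  Submodule.span ℂ {z | ∃ x y, piM B x = 0 ∧ piM B y = 0 ∧ z = x * y}

lemma J_mul (r x : B ⊗[ℂ] Bᵐᵒᵖ) (hx : x ∈ J B) : r * x ∈ J B := by
  induction hx using Submodule.span_induction with
  | mem z hz =>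
    obtain ⟨x, y, hx, hy, rfl⟩ := hz
    exact Submodule.subset_span ⟨r * x, y, ker_mul r x hx, hy, (mul_assoc _ _ _).symm⟩
  | zero => simp
  | add x y _ _ hx hy => rw [mul_add]; exact (J B).add_mem hx hy
  | smul t x _ hx => rw [mul_smul_comm]; exact (J B).smul_mem t hx

lemma dd_comm (a b : B) : dd (a * b - b * a) = dd a * dd b - dd b * dd a := by
  simp only [dd, sub_mul, mul_sub, Algebra.TensorProduct.tmul_mul_tmul, mul_one, one_mul,
    op_sub, op_mul, TensorProduct.sub_tmul, TensorProduct.tmul_sub]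
  abel

lemma dd_idem (a : B) (ha : a * a = a) : dd a = (dd a * dd a) * dd a := by
  have ha' : op a * op a = op a := by rw [← op_mul, ha]
  simp only [dd, sub_mul, mul_sub, Algebra.TensorProduct.tmul_mul_tmul, mul_one, one_mul, ha, ha']
  abel

lemma ker_le_J (h : ∀ b : B, dd b ∈ J B) (x : B ⊗[ℂ] Bᵐᵒᵖ) (hx : piM B x = 0) : x ∈ J B := by
  have key : ∀ x : B ⊗[ℂ] Bᵐᵒᵖ, piM B x ⊗ₜ 1 - x ∈ J B := by
    intro x
    induction x using TensorProduct.induction_on with
    | zero => simp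
    | tmul c d =>
      have h1 := piM_tmul c (unop d)
      rw [op_unop] at h1
      have h2 := J_mul (c ⊗ₜ 1) _ (h (unop d))
      rw [h1]
      simpa [dd, mul_sub, Algebra.TensorProduct.tmul_mul_tmul] using h2
    | add x y hx hy =>
      have := (J B).add_mem hx hy
      rw [map_add, TensorProduct.add_tmul]
      convert this using 1; abel
  have := key x
  rw [hx] at this
  simpa using this

lemma ker_eq_J (h : ∀ b : B, dd b ∈ J B) : LinearMap.ker (piM B) = J B := by
  apply le_antisymm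
  · intro x hx; exact ker_le_J h x hx
  · rw [J, Submodule.span_le]
    rintro _ ⟨x, y, _, hy, rfl⟩
    exact ker_mul x y hy

lemma dd_add (a b : B) : dd (a + b) = dd a + dd b := by
  simp only [dd, op_add, TensorProduct.add_tmul, TensorProduct.tmul_add]; abel

lemma dd_smul (t : ℂ) (a : B) : dd (t • a) = t • dd a := by
  simp only [dd, op_smul, TensorProduct.smul_tmul', TensorProduct.tmul_smul, smul_sub]

lemma dd_one : dd (1 : B) = 0 := by simp [dd]

lemma comm_mem (a b : B) : dd (a * b - b * a) ∈ J B := by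
  rw [dd_comm]
  exact (J B).sub_mem (Submodule.subset_span ⟨_, _, dd_ker a, dd_ker b, rfl⟩)
    (Submodule.subset_span ⟨_, _, dd_ker b, dd_ker a, rfl⟩)

lemma idem_mem (a : B) (ha : a * a = a) : dd a ∈ J B := by
  rw [dd_idem a ha]
  exact Submodule.subset_span ⟨_, _, ker_mul _ _ (dd_ker a), dd_ker a, rfl⟩

end general

lemma dd_all (b : Unitization ℂ A) : dd b ∈ J (Unitization ℂ A) := by
  have he : dd ((mk 1 0 0 : A) : Unitization ℂ A) ∈ J (Unitization ℂ A) := by
    apply idem_mem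
    rw [← Unitization.inr_mul]; congr 1; apply ext' <;> simp
  have ha : dd ((mk 0 1 0 : A) : Unitization ℂ A) ∈ J (Unitization ℂ A) := by
    have := comm_mem ((mk 1 0 0 : A) : Unitization ℂ A) ((mk 0 1 0 : A) : Unitization ℂ A)
    convert this
    rw [← Unitization.inr_mul, ← Unitization.inr_mul, ← Unitization.inr_sub]
    congr 1; apply ext' <;> simp
  have hb : dd ((mk 0 0 1 : A) : Unitization ℂ A) ∈ J (Unitization ℂ A) := by
    have := comm_mem ((mk 0 0 1 : A) : Unitization ℂ A) ((mk 1 0 0 : A) : Unitization ℂ A)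
    convert this
    rw [← Unitization.inr_mul, ← Unitization.inr_mul, ← Unitization.inr_sub]
    congr 1; apply ext' <;> simp
  have hdec : b = b.fst • (1 : Unitization ℂ A) + (c1 b.snd • ((mk 1 0 0 : A) : Unitization ℂ A)
      + (c2 b.snd • ((mk 0 1 0 : A) : Unitization ℂ A)
      + c3 b.snd • ((mk 0 0 1 : A) : Unitization ℂ A))) := by
    apply Unitization.ext
    · simp
    · apply ext' <;> simp
  rw [hdec, dd_add, dd_add, dd_add, dd_smul, dd_smul, dd_smul, dd_smul, dd_one]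
  refine (J _).add_mem (by simp) ((J _).add_mem ((J _).smul_mem _ he)
    ((J _).add_mem ((J _).smul_mem _ ha) ((J _).smul_mem _ hb)))

lemma not_unital : ¬ ∃ u : A, ∀ a, u * a = a := by
  rintro ⟨u, hu⟩
  have h := congrArg c3 (hu (mk 0 0 1))
  simp at h

abbrev P : Type := WithLp 1 (Unitization ℂ A)

lemma dd_all' (b : P) : dd b ∈ J P := by
  let E : P ≃ₐ[ℂ] Unitization ℂ A := WithLp.unitizationAlgEquiv ℂ
  have he : dd (E.symm ((mk 1 0 0 : A) : Unitization ℂ A)) ∈ J P := by
    apply idem_mem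
    rw [← map_mul, ← Unitization.inr_mul]; congr 2; apply ext' <;> simp
  have ha : dd (E.symm ((mk 0 1 0 : A) : Unitization ℂ A)) ∈ J P := by
    have := comm_mem (E.symm ((mk 1 0 0 : A) : Unitization ℂ A))
      (E.symm ((mk 0 1 0 : A) : Unitization ℂ A))
    convert this
    rw [← map_mul, ← map_mul, ← map_sub,
      ← Unitization.inr_mul, ← Unitization.inr_mul, ← Unitization.inr_sub]
    congr 2; apply ext' <;> simp
  have hb : dd (E.symm ((mk 0 0 1 : A) : Unitization ℂ A)) ∈ J P := by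
    have := comm_mem (E.symm ((mk 0 0 1 : A) : Unitization ℂ A))
      (E.symm ((mk 1 0 0 : A) : Unitization ℂ A))
    convert this
    rw [← map_mul, ← map_mul, ← map_sub,
      ← Unitization.inr_mul, ← Unitization.inr_mul, ← Unitization.inr_sub]
    congr 2; apply ext' <;> simp
  have hdec : b = (E b).fst • (1 : P) +
      (c1 (E b).snd • E.symm ((mk 1 0 0 : A) : Unitization ℂ A)
      + (c2 (E b).snd • E.symm ((mk 0 1 0 : A) : Unitization ℂ A)
      + c3 (E b).snd • E.symm ((mk 0 0 1 : A) : Unitization ℂ A))) := by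
    apply E.injective
    simp only [map_add, map_smul, map_one, AlgEquiv.apply_symm_apply]
    apply Unitization.ext
    · simp
    · apply ext' <;> simp
  rw [hdec, dd_add, dd_add, dd_add, dd_smul, dd_smul, dd_smul, dd_smul, dd_one]
  refine (J _).add_mem (by simp) ((J _).add_mem ((J _).smul_mem _ he)
    ((J _).add_mem ((J _).smul_mem _ ha) ((J _).smul_mem _ hb)))

instance : FiniteDimensional ℂ P :=
  ((WithLp.linearEquiv 1 ℂ (Unitization ℂ A)).trans
    (Unitization.linearEquiv ℂ ℂ A)).symm.finiteDimensional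

end Pool.Agent.H87.Groen
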