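import Mathlib

namespace Pool.Agent.H87.GroenDef

/-- A map of two variables that is linear in each. -/
def IsBilin {B E : Type} [AddCommGroup B] [Module ℂ B] [AddCommGroup E] [Module ℂ E]
    (t : B → B → E) : Prop :=
  (∀ a, IsLinearMap ℂ (t a)) ∧ ∀ b, IsLinearMap ℂ (fun a => t a b)

/-- The Banach space `E` with the map `t` is the completed projective tensor product of `B` with
itself: elementary tensors span a dense subspace and the dual of `E` is isometrically the space
of bounded bilinear forms. -/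
def IsProjTensor {B E : Type} [NormedAddCommGroup B] [NormedSpace ℂ B]
    [NormedAddCommGroup E] [NormedSpace ℂ E] (t : B → B → E) : Prop :=
  CompleteSpace E ∧ IsBilin t ∧ (∀ a b, ‖t a b‖ ≤ ‖a‖ * ‖b‖) ∧
    Dense (Submodule.span ℂ {z | ∃ a b, z = t a b} : Set E) ∧
    ∀ β : B → B → ℂ, IsBilin β → (∀ a b, ‖β a b‖ ≤ ‖a‖ * ‖b‖) →
      ∃ φ : E → ℂ, IsLinearMap ℂ φ ∧ (∀ x, ‖φ x‖ ≤ ‖x‖) ∧ ∀ a b, φ (t a b) = β a b

/-- For a unital Banach algebra `B`: in the completed enveloping algebra, with product `m` and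
multiplication map `π`, the kernel of `π` is the closed span of the products of its elements. -/
def DiagIdem (B : Type) [NormedRing B] [NormedSpace ℂ B] : Prop :=
  ∃ (E : Type) (_ : NormedAddCommGroup E) (_ : NormedSpace ℂ E) (t : B → B → E)
    (m : E → E → E) (π : E → B),
    IsProjTensor t ∧ IsBilin m ∧ Continuous (fun p : E × E => m p.1 p.2) ∧
    IsLinearMap ℂ π ∧ Continuous π ∧
    (∀ a b c d : B, m (t a b) (t c d) = t (a * c) (d * b)) ∧
    (∀ a b : B, π (t a b) = a * b) ∧
    {x | π x = 0} = closure (Submodule.span ℂ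
      {z | ∃ x y, π x = 0 ∧ π y = 0 ∧ z = m x y} : Set E)

/-- Every continuous derivation into the dual bimodule is inner. -/
def WeaklyAmenable (A : Type) [NonUnitalNormedRing A] [NormedSpace ℂ A] : Prop :=
  ∀ D : A →L[ℂ] StrongDual ℂ A, (∀ a b c, D (a * b) c = D b (c * a) + D a (b * c)) →
    ∃ f : StrongDual ℂ A, ∀ a c, D a c = f (c * a) - f (a * c)

end Pool.Agent.H87.GroenDef
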