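import Mathlib

namespace Pool.Agent.H87.ProjT

/-- Bounded bilinear forms on `B × B` with the operator norm. -/
def Bil (B : Type) [NormedAddCommGroup B] [NormedSpace ℂ B] : Type := B →L[ℂ] B →L[ℂ] ℂ

noncomputable instance (B : Type) [NormedAddCommGroup B] [NormedSpace ℂ B] :
    NormedAddCommGroup (Bil B) := inferInstanceAs (NormedAddCommGroup (B →L[ℂ] B →L[ℂ] ℂ))

noncomputable instance (B : Type) [NormedAddCommGroup B] [NormedSpace ℂ B] :
    NormedSpace ℂ (Bil B) := inferInstanceAs (NormedSpace ℂ (B →L[ℂ] B →L[ℂ] ℂ))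

/-- Evaluation of bounded bilinear forms at a pair of points. -/
noncomputable def ev {B : Type} [NormedAddCommGroup B] [NormedSpace ℂ B] (a b : B) :
    StrongDual ℂ (Bil B) :=
  (ContinuousLinearMap.apply ℂ ℂ b).comp (ContinuousLinearMap.apply ℂ (B →L[ℂ] ℂ) a)

/-- The closed linear span of the evaluations in the dual of the bounded bilinear forms. -/
noncomputable def PTs (B : Type) [NormedAddCommGroup B] [NormedSpace ℂ B] :
    Submodule ℂ (StrongDual ℂ (Bil B)) :=
  (Submodule.span ℂ {z | ∃ a b : B, z = ev a b}).topologicalClosure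

/-- The completed projective tensor product of `B` with itself. -/
def PT (B : Type) [NormedAddCommGroup B] [NormedSpace ℂ B] : Type := PTs B

noncomputable instance (B : Type) [NormedAddCommGroup B] [NormedSpace ℂ B] :
    NormedAddCommGroup (PT B) := inferInstanceAs (NormedAddCommGroup (PTs B))

noncomputable instance (B : Type) [NormedAddCommGroup B] [NormedSpace ℂ B] :
    NormedSpace ℂ (PT B) := inferInstanceAs (NormedSpace ℂ (PTs B))

/-- The elementary tensor. -/
noncomputable def tens {B : Type} [NormedAddCommGroup B] [NormedSpace ℂ B] (a b : B) : PT B :=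
  (⟨ev a b, Submodule.le_topologicalClosure _ (Submodule.subset_span ⟨a, b, rfl⟩)⟩ : PTs B)

end Pool.Agent.H87.ProjT
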