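import Mathlib
import Pool.Agent.H87.Groen
import Pool.Agent.H87.ProjT
import Pool.Agent.H87.GroenDef

namespace Pool.Agent.H87.Groen2

open TensorProduct MulOpposite Pool.Agent.H87.Groen Pool.Agent.H87.ProjT

lemma sm1 {B : Type} [Ring B] [Algebra ℂ B] (t : ℂ) (x y : B ⊗[ℂ] Bᵐᵒᵖ) :
    t • x * y = t • (x * y) := smul_mul_assoc t x y

lemma sm2 {B : Type} [Ring B] [Algebra ℂ B] (t : ℂ) (x y : B ⊗[ℂ] Bᵐᵒᵖ) :
    x * t • y = t • (x * y) := mul_smul_comm t x y

variable {B : Type} [NormedRing B] [NormedAlgebra ℂ B] [FiniteDimensional ℂ B]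

/-- The underlying form. -/
def un {B : Type} [NormedAddCommGroup B] [NormedSpace ℂ B] (β : Bil B) : B →L[ℂ] B →L[ℂ] ℂ := β

lemma ev_apply {B : Type} [NormedAddCommGroup B] [NormedSpace ℂ B] (a b : B) (β : Bil B) :
    ev a b β = un β a b := rfl

noncomputable def Phi (B : Type) [NormedRing B] [NormedAlgebra ℂ B] :
    B ⊗[ℂ] Bᵐᵒᵖ →ₗ[ℂ] StrongDual ℂ (Bil B) :=
  TensorProduct.lift (LinearMap.mk₂ ℂ (fun a b => ev a (unop b))
    (fun a b c => by ext β; rw [ContinuousLinearMap.add_apply]; simp only [ev_apply]; simp)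
    (fun t a b => by ext β; rw [ContinuousLinearMap.smul_apply]; simp only [ev_apply]; simp)
    (fun a b c => by ext β; rw [ContinuousLinearMap.add_apply]; simp only [ev_apply]; simp)
    (fun t a b => by ext β; rw [ContinuousLinearMap.smul_apply]; simp only [ev_apply]; simp))

omit [FiniteDimensional ℂ B] in
lemma Phi_tmul (a : B) (b : Bᵐᵒᵖ) : Phi B (a ⊗ₜ b) = ev a (unop b) := by simp [Phi]

lemma Phi_inj : Function.Injective (Phi B) := by
  rw [← LinearMap.ker_eq_bot, LinearMap.ker_eq_bot']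
  intro x hx
  rw [← Module.forall_dual_apply_eq_zero_iff ℂ]
  intro φ
  let β0 : B →ₗ[ℂ] B →ₗ[ℂ] ℂ :=
    LinearMap.mk₂ ℂ (fun a b => φ (a ⊗ₜ op b))
      (fun a b c => by simp [TensorProduct.add_tmul])
      (fun t a b => by rw [← TensorProduct.smul_tmul', map_smul])
      (fun a b c => by simp [TensorProduct.tmul_add])
      (fun t a b => by rw [op_smul, TensorProduct.tmul_smul, map_smul])
  let β : Bil B := LinearMap.toContinuousLinearMap
    ((LinearMap.toContinuousLinearMap : (B →ₗ[ℂ] ℂ) ≃ₗ[ℂ] (B →L[ℂ] ℂ)).toLinearMap ∘ₗ β0)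
  have key : ∀ y, φ y = Phi B y β := by
    intro y
    induction y using TensorProduct.induction_on with
    | zero => simp
    | tmul a b => rw [Phi_tmul]; rfl
    | add y z hy hz => simp [hy, hz]
  rw [key, hx]; rfl

lemma range_Phi : LinearMap.range (Phi B) = PTs B := by
  have h1 : LinearMap.range (Phi B) = Submodule.span ℂ {z | ∃ a b : B, z = ev a b} := by
    apply le_antisymm
    · rintro _ ⟨y, rfl⟩
      induction y using TensorProduct.induction_on with
      | zero => simp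
      | tmul a b => rw [Phi_tmul]; exact Submodule.subset_span ⟨_, _, rfl⟩
      | add y z hy hz => rw [map_add]; exact Submodule.add_mem _ hy hz
    · rw [Submodule.span_le]
      rintro _ ⟨a, b, rfl⟩
      exact ⟨a ⊗ₜ op b, Phi_tmul _ _⟩
  rw [PTs, ← h1]
  haveI : FiniteDimensional ℂ Bᵐᵒᵖ := (opLinearEquiv ℂ (M := B)).finiteDimensional
  exact ((Submodule.closed_of_finiteDimensional _).submodule_topologicalClosure_eq).symm

noncomputable def E (B : Type) [NormedRing B] [NormedAlgebra ℂ B] [FiniteDimensional ℂ B] :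
    B ⊗[ℂ] Bᵐᵒᵖ ≃ₗ[ℂ] PT B :=
  (LinearEquiv.ofInjective (Phi B) Phi_inj).trans (LinearEquiv.ofEq _ _ range_Phi)

lemma E_tmul (a b : B) : E B (a ⊗ₜ op b) = tens a b := by
  apply Subtype.ext
  exact Phi_tmul a (op b)

theorem main (h : ∀ b : B, dd b ∈ J B) :
    ∃ (m : PT B →L[ℂ] PT B →L[ℂ] PT B) (π : PT B →L[ℂ] B),
      (∀ a b c d : B, m (tens a b) (tens c d) = tens (a * c) (d * b)) ∧
      (∀ a b : B, π (tens a b) = a * b) ∧
      LinearMap.ker π.toLinearMap =
        (Submodule.span ℂ {z | ∃ x y, π x = 0 ∧ π y = 0 ∧ z = m x y}).topologicalClosure := by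
  haveI : FiniteDimensional ℂ Bᵐᵒᵖ := (opLinearEquiv ℂ (M := B)).finiteDimensional
  haveI : FiniteDimensional ℂ (PT B) := (E B).finiteDimensional
  let m0 : PT B →ₗ[ℂ] PT B →ₗ[ℂ] PT B :=
    LinearMap.mk₂ ℂ (fun x y => E B ((E B).symm x * (E B).symm y))
      (fun a b c => by simp [add_mul])
      (fun t a b => by
        rw [map_smul, ← map_smul (E B)]; exact congrArg (E B) (sm1 t _ _))
      (fun a b c => by simp [mul_add])
      (fun t a b => by
        rw [map_smul, ← map_smul (E B)]; exact congrArg (E B) (sm2 t _ _))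
  let m : PT B →L[ℂ] PT B →L[ℂ] PT B := LinearMap.toContinuousLinearMap
    ((LinearMap.toContinuousLinearMap :
      (PT B →ₗ[ℂ] PT B) ≃ₗ[ℂ] (PT B →L[ℂ] PT B)).toLinearMap ∘ₗ m0)
  let π : PT B →L[ℂ] B := LinearMap.toContinuousLinearMap (piM B ∘ₗ (E B).symm.toLinearMap)
  have hm : ∀ x y, m x y = E B ((E B).symm x * (E B).symm y) := fun _ _ => rfl
  have hπ : ∀ x, π x = piM B ((E B).symm x) := fun _ => rfl
  refine ⟨m, π, ?_, ?_, ?_⟩
  · intro a b c d
    rw [hm, ← E_tmul, ← E_tmul, ← E_tmul, LinearEquiv.symm_apply_apply,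
      LinearEquiv.symm_apply_apply, Algebra.TensorProduct.tmul_mul_tmul, op_mul]
  · intro a b
    rw [hπ, ← E_tmul, LinearEquiv.symm_apply_apply, piM_tmul]
  · rw [(Submodule.closed_of_finiteDimensional _).submodule_topologicalClosure_eq]
    apply le_antisymm
    · intro x hx
      have hx' : (E B).symm x ∈ J B := ker_le_J h _ hx
      have : ∀ y ∈ J B, E B y ∈
          Submodule.span ℂ {z | ∃ x y, π x = 0 ∧ π y = 0 ∧ z = m x y} := by
        intro y hy
        induction hy using Submodule.span_induction with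
        | mem z hz =>
          obtain ⟨u, v, hu, hv, rfl⟩ := hz
          refine Submodule.subset_span ⟨E B u, E B v, ?_, ?_, ?_⟩
          · rw [hπ, LinearEquiv.symm_apply_apply, hu]
          · rw [hπ, LinearEquiv.symm_apply_apply, hv]
          · rw [hm, LinearEquiv.symm_apply_apply, LinearEquiv.symm_apply_apply]
        | zero => simp
        | add x y _ _ hx hy => rw [map_add]; exact Submodule.add_mem _ hx hy
        | smul t x _ hx => rw [map_smul]; exact Submodule.smul_mem _ t hx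
      simpa using this _ hx'
    · rw [Submodule.span_le]
      rintro _ ⟨x, y, _, hy, rfl⟩
      change π (m x y) = 0
      rw [hπ, hm, LinearEquiv.symm_apply_apply]
      exact ker_mul _ _ hy

open GroenDef in
lemma isProj : IsProjTensor (tens : B → B → PT B) := by
  haveI : FiniteDimensional ℂ Bᵐᵒᵖ := (opLinearEquiv ℂ (M := B)).finiteDimensional
  haveI : FiniteDimensional ℂ (PT B) := (E B).finiteDimensional
  refine ⟨FiniteDimensional.complete ℂ _, ⟨fun a => ⟨?_, ?_⟩, fun b => ⟨?_, ?_⟩⟩, ?_, ?_, ?_⟩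
  · intro x y
    rw [← E_tmul, ← E_tmul, ← E_tmul, op_add, TensorProduct.tmul_add, map_add]
  · intro c x
    rw [← E_tmul, ← E_tmul, op_smul, TensorProduct.tmul_smul, map_smul]
  · intro x y
    rw [← E_tmul, ← E_tmul, ← E_tmul, TensorProduct.add_tmul, map_add]
  · intro c x
    rw [← E_tmul, ← E_tmul, ← TensorProduct.smul_tmul', map_smul]
  · intro a b
    change ‖ev a b‖ ≤ _
    refine ContinuousLinearMap.opNorm_le_bound _ (by positivity) fun β => ?_
    rw [ev_apply]
    have := (un β).le_opNorm₂ a b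
    calc ‖un β a b‖ ≤ ‖un β‖ * ‖a‖ * ‖b‖ := this
      _ = ‖a‖ * ‖b‖ * ‖β‖ := by change ‖β‖ * ‖a‖ * ‖b‖ = _; ring
  · have : Submodule.span ℂ {z : PT B | ∃ a b, z = tens a b} = ⊤ := by
      rw [eq_top_iff]
      intro x _
      obtain ⟨y, rfl⟩ := (E B).surjective x
      induction y using TensorProduct.induction_on with
      | zero => simp
      | tmul a b => exact Submodule.subset_span ⟨a, unop b, E_tmul a (unop b)⟩
      | add y z hy hz => rw [map_add]; exact Submodule.add_mem _ (hy trivial) (hz trivial)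
    rw [this]; exact dense_univ
  · intro β hβ hn
    let β0 : B →ₗ[ℂ] B →ₗ[ℂ] ℂ := LinearMap.mk₂ ℂ β
      (fun a b c => (hβ.2 c).1 a b) (fun t a b => (hβ.2 b).2 t a)
      (fun a b c => (hβ.1 a).1 b c) (fun t a b => (hβ.1 a).2 t b)
    let β1 : Bil B := β0.mkContinuous₂ 1 (fun a b => by simpa [β0] using hn a b)
    have h1 : ‖β1‖ ≤ 1 := LinearMap.mkContinuous₂_norm_le β0 zero_le_one _
    refine ⟨fun x => (x : PTs B).1 β1, ⟨fun x y => rfl, fun c x => rfl⟩, fun x => ?_,
      fun a b => rfl⟩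
    calc ‖(x : PTs B).1 β1‖ ≤ ‖(x : PTs B).1‖ * ‖β1‖ := (x : PTs B).1.le_opNorm β1
      _ ≤ ‖(x : PTs B).1‖ := mul_le_of_le_one_right (norm_nonneg _) h1

open GroenDef in
theorem diagIdem (h : ∀ b : B, dd b ∈ J B) : DiagIdem B := by
  obtain ⟨m, π, h1, h2, h3⟩ := main h
  refine ⟨PT B, inferInstance, inferInstance, tens, fun x y => m x y, π, isProj,
    ⟨fun a => ⟨fun x y => by simp, fun c x => by simp⟩,
      fun b => ⟨fun x y => by simp, fun c x => by simp⟩⟩,
    m.continuous₂, ⟨fun x y => by simp, fun c x => by simp⟩, π.continuous, h1, h2,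
    congrArg SetLike.coe h3⟩

end Pool.Agent.H87.Groen2
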