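import Mathlib
import Pool.Agent.H87.D2GDef

namespace Pool.Agent.H87.Gur

open Pool.Agent.H87.D2G

/-- The pseudonorms in `PInf` for which the basis vectors are linearly independent over the reals
in the coded Banach space. -/
def BInf : Set (V → ℝ) :=
  {μ | μ ∈ PInf ∧ ∃ (X : Type) (_ : NormedAddCommGroup X) (_ : NormedSpace ℝ X)
    (_ : CompleteSpace X) (T : V →+ X), DenseRange T ∧ (∀ v, ‖T v‖ = μ v) ∧
      LinearIndependent ℝ fun n : ℕ => T (Finsupp.single n 1)}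

/-- The defining property of the Gurarii space. -/
def IsGurarii (G : Type) [NormedAddCommGroup G] [NormedSpace ℝ G] : Prop :=
  TopologicalSpace.SeparableSpace G ∧ ∀ ε : ℝ, 0 < ε → ∀ (A : Submodule ℝ G) (B : Type)
    [NormedAddCommGroup B] [NormedSpace ℝ B] [FiniteDimensional ℝ B] (g : A →ₗᵢ[ℝ] B),
      ∃ f : B →L[ℝ] G, (∀ b, (1 + ε)⁻¹ * ‖b‖ ≤ ‖f b‖ ∧ ‖f b‖ ≤ (1 + ε) * ‖b‖) ∧
        ‖f.comp g.toContinuousLinearMap - A.subtypeL‖ ≤ ε

/-- The isomorphism class of `Z` inside a set `I` of pseudonorms. -/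
def isoClass (I : Set (V → ℝ)) (Z : Type) [NormedAddCommGroup Z] [NormedSpace ℝ Z] : Set I :=
  {μ | ∃ (X : Type) (_ : NormedAddCommGroup X) (_ : NormedSpace ℝ X) (_ : CompleteSpace X),
    Codes μ.1 X ∧ Nonempty (X ≃L[ℝ] Z)}

end Pool.Agent.H87.Gur
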