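import Mathlib
import Pool.Agent.H87.GurDef

namespace Pool.Agent.H87.Gur

open Filter Topology Set

def sg (b : Bool) : ℝ := if b then 1 else -1

lemma sg_sq (b : Bool) : sg b ^ 2 = 1 := by cases b <;> simp [sg]

lemma abs_sg (b : Bool) : |sg b| = 1 := by cases b <;> simp [sg]

lemma riesz {n : ℕ} (a : Fin n → ℝ) (i : Fin n) :
    ∑ s : Fin n → Bool, (sg (s i) : ℂ) * ∏ j, (1 + Complex.I * a j * sg (s j)) =
      2 ^ n * (Complex.I * a i) := by
  have h1 : ∀ s : Fin n → Bool, (sg (s i) : ℂ) * ∏ j, (1 + Complex.I * a j * sg (s j)) =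
      ∏ j, ((if j = i then (sg (s j) : ℂ) else 1) * (1 + Complex.I * a j * sg (s j))) := by
    intro s
    rw [Finset.prod_mul_distrib, Finset.prod_ite_eq']; simp
  have h2 := Finset.prod_univ_sum (fun _ : Fin n => (Finset.univ : Finset Bool))
    (fun j b => (if j = i then (sg b : ℂ) else 1) * (1 + Complex.I * a j * sg b))
  rw [Fintype.piFinset_univ] at h2
  simp_rw [h1]
  rw [← h2]
  have h3 : ∀ j, ∑ b : Bool, (if j = i then (sg b : ℂ) else 1) * (1 + Complex.I * a j * sg b) =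
      2 * if j = i then Complex.I * a j else 1 := by
    intro j
    split_ifs <;> simp [sg] <;> ring
  simp_rw [h3]
  rw [Finset.prod_mul_distrib, Finset.prod_ite_eq']; simp

lemma riesz_norm {n : ℕ} (a : Fin n → ℝ) (h : ∑ j, a j ^ 2 ≤ 1) (s : Fin n → Bool) :
    ‖∏ j, (1 + Complex.I * a j * sg (s j))‖ ≤ 2 := by
  refine le_of_sq_le_sq' ?_
  rw [norm_prod, ← Finset.prod_pow]
  have h1 : ∀ j, ‖1 + Complex.I * a j * sg (s j)‖ ^ 2 ≤ Real.exp (a j ^ 2) := by
    intro j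
    rw [Complex.sq_norm, Complex.normSq_apply]
    have := Real.add_one_le_exp (a j ^ 2)
    have h2 := sg_sq (s j)
    simp
    nlinarith
  refine (Finset.prod_le_prod (fun _ _ => sq_nonneg _) fun j _ => h1 j).trans ?_
  rw [← Real.exp_sum]
  linarith [Real.exp_le_exp.2 h, Real.exp_one_lt_d9]
where le_of_sq_le_sq' {x : ℝ} (h : x ^ 2 ≤ 4) : x ≤ 2 := by nlinarith

lemma khin {n : ℕ} (a b : Fin n → ℝ) (h : ∑ j, a j ^ 2 ≤ 1) :
    2 ^ n * ∑ i, b i * a i ≤ 2 * ∑ s : Fin n → Bool, |∑ i, b i * sg (s i)| := by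
  have h1 : ∑ s : Fin n → Bool, ((∑ i, b i * sg (s i) : ℝ) : ℂ) *
      ∏ j, (1 + Complex.I * a j * sg (s j)) = Complex.I * ((2 ^ n * ∑ i, b i * a i : ℝ) : ℂ) := by
    push_cast
    simp_rw [Finset.sum_mul, mul_assoc (b _ : ℂ)]
    rw [Finset.sum_comm]
    simp_rw [← Finset.mul_sum, riesz, Finset.mul_sum]
    exact Finset.sum_congr rfl fun i _ => by ring
  have h2 := congrArg norm h1
  rw [norm_mul, Complex.norm_I, one_mul, Complex.norm_real] at h2
  refine (le_abs_self _).trans (h2.symm.le.trans ((norm_sum_le _ _).trans ?_))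
  rw [Finset.mul_sum]
  refine Finset.sum_le_sum fun s _ => ?_
  rw [norm_mul, Complex.norm_real, mul_comm]
  exact mul_le_mul_of_nonneg_right (riesz_norm a h s) (abs_nonneg _)

lemma proj_lower {n : ℕ} {a C : ℝ} (ha : n * a ^ 2 ≤ 1)
    (φ : Fin n → ((Fin n → Bool) → ℝ) →ₗ[ℝ] ℝ) (h : ∀ b, ‖b‖ ≤ 1 → ∑ i, |φ i b| ≤ C) :
    a * ∑ i, φ i (fun t => sg (t i)) ≤ 2 * C := by
  set β : Fin n → (Fin n → Bool) → ℝ := fun i t => φ i fun s => if t = s then 1 else 0 with hβ
  have h1 : ∀ i b, φ i b = ∑ t, b t * β i t := fun i b => LinearMap.pi_apply_eq_sum_univ _ _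
  have h2 : ∀ s : Fin n → Bool, ∑ t, |∑ i, β i t * sg (s i)| ≤ C := by
    intro s
    let b : (Fin n → Bool) → ℝ := fun t => sg (decide (0 ≤ ∑ i, β i t * sg (s i)))
    have h3 : ∀ t, |∑ i, β i t * sg (s i)| = ∑ i, sg (s i) * (b t * β i t) := by
      intro t
      have : ∑ i, sg (s i) * (b t * β i t) = b t * ∑ i, β i t * sg (s i) := by
        rw [Finset.mul_sum]; exact Finset.sum_congr rfl fun i _ => by ring
      rw [this]
      by_cases h4 : 0 ≤ ∑ i, β i t * sg (s i)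
      · simp [b, h4, sg.eq_1 true, abs_of_nonneg h4]
      · simp [b, h4, sg.eq_1 false, abs_of_neg (not_le.1 h4)]
    simp_rw [h3]
    rw [Finset.sum_comm]
    simp_rw [← Finset.mul_sum, ← h1]
    refine le_trans (Finset.sum_le_sum fun i _ => (le_abs_self _).trans ?_)
      (h b ((pi_norm_le_iff_of_nonneg zero_le_one).2 fun t => (abs_sg _).le))
    rw [abs_mul, abs_sg, one_mul]
  have h3 : ∀ t : Fin n → Bool, 2 ^ n * ∑ i, β i t * (a * sg (t i)) ≤
      2 * ∑ s : Fin n → Bool, |∑ i, β i t * sg (s i)| := fun t =>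
    khin _ _ (by simp [mul_pow, sg_sq, ha])
  have h4 := Finset.sum_le_sum fun t (_ : t ∈ Finset.univ) => h3 t
  rw [← Finset.mul_sum, ← Finset.mul_sum, Finset.sum_comm,
    Finset.sum_comm (f := fun (t s : Fin n → Bool) => |∑ i, β i t * sg (s i)|)] at h4
  have h5 := Finset.sum_le_sum fun s (_ : s ∈ Finset.univ) => h2 s
  rw [Finset.sum_const, Finset.card_univ, Fintype.card_fun, Fintype.card_bool, Fintype.card_fin,
    nsmul_eq_mul] at h5
  push_cast at h5
  have h6 : a * ∑ i, φ i (fun t => sg (t i)) = ∑ i, ∑ t, β i t * (a * sg (t i)) := by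
    rw [Finset.mul_sum]
    refine Finset.sum_congr rfl fun i _ => ?_
    rw [h1, Finset.mul_sum]
    exact Finset.sum_congr rfl fun t _ => by ring
  rw [h6]
  refine le_of_mul_le_mul_left ?_ (show (0 : ℝ) < 2 ^ n by positivity)
  linarith

variable {G : Type} [NormedAddCommGroup G] [NormedSpace ℝ G]

lemma gur_ext (hG : IsGurarii G) {n : ℕ} (u : Fin n → G) {K : ℝ} (hK : 0 < K)
    (hu : ∀ i, ‖u i‖ ≤ K) {ε : ℝ} (hε : 0 < ε) :
    ∃ F : ((Fin n → Bool) → ℝ) →ₗ[ℝ] G, (∀ b, ‖F b‖ ≤ (1 + ε) * K * ‖b‖) ∧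
      ∀ i, ‖F (fun t => sg (t i)) - u i‖ ≤ ε * K := by
  let A : Submodule ℝ G := Submodule.span ℝ (range u)
  have : FiniteDimensional ℝ A := FiniteDimensional.span_of_finite ℝ (finite_range u)
  let u' : Fin n → A := fun i => ⟨u i, Submodule.subset_span ⟨i, rfl⟩⟩
  let M := WithLp 1 (A × ((Fin n → Bool) → ℝ))
  let w : Fin n → M := fun i => WithLp.toLp 1 (u' i, -(K • fun t => sg (t i)))
  let N : Submodule ℝ M := Submodule.span ℝ (range w)
  have : IsClosed (N : Set M) := N.closed_of_finiteDimensional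
  have hn : ∀ (a : A) (b : (Fin n → Bool) → ℝ), ‖(WithLp.toLp 1 (a, b) : M)‖ = ‖a‖ + ‖b‖ :=
    fun a b => by simp [M, WithLp.prod_norm_eq_of_L1]
  let L : (A × ((Fin n → Bool) → ℝ)) →ₗ[ℝ] M ⧸ N :=
    N.mkQ ∘ₗ (WithLp.linearEquiv 1 ℝ _).symm.toLinearMap
  have hL : ∀ p, L p = Submodule.Quotient.mk (WithLp.toLp 1 p) := fun p => rfl
  let g : A →ₗᵢ[ℝ] M ⧸ N :=
    { toLinearMap := L ∘ₗ LinearMap.inl ℝ _ _
      norm_map' := fun a => by
        refine le_antisymm ((Submodule.Quotient.norm_mk_le N _).trans (by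
          show ‖(WithLp.toLp 1 (a, 0) : M)‖ ≤ _
          rw [hn, norm_zero, add_zero])) (le_of_forall_pos_le_add fun δ hδ => ?_)
        obtain ⟨m, h1, h2⟩ := Submodule.Quotient.norm_mk_lt ((L ∘ₗ LinearMap.inl ℝ _ _) a) hδ
        obtain ⟨c, hc⟩ := (Submodule.mem_span_range_iff_exists_fun ℝ).1
          ((Submodule.Quotient.eq N).1 (show Submodule.Quotient.mk m =
            Submodule.Quotient.mk (WithLp.toLp 1 (a, 0)) from h1))
        have h3 : m = WithLp.toLp 1 (a + ∑ i, c i • u' i,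
            -(K • fun t => ∑ i, c i * sg (t i))) := by
          rw [← sub_add_cancel m (WithLp.toLp 1 (a, 0)), ← hc]
          apply (WithLp.linearEquiv 1 ℝ _).injective
          simp only [map_add, map_sum, map_smul]
          ext
          · simp [w, Prod.fst_sum, add_comm]
          · simp [w, Prod.snd_sum, Finset.mul_sum, mul_left_comm]
        have h4 : ‖∑ i, c i • u' i‖ ≤ K * ∑ i, |c i| := by
          rw [Finset.mul_sum]
          refine (norm_sum_le _ _).trans (Finset.sum_le_sum fun i _ => ?_)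
          rw [norm_smul, mul_comm]
          exact mul_le_mul_of_nonneg_right (hu i) (abs_nonneg _)
        have h5 : ∑ i, |c i| ≤ ‖fun t : Fin n → Bool => ∑ i, c i * sg (t i)‖ := by
          refine le_trans (le_trans (le_of_eq ?_) (le_abs_self _))
            (norm_le_pi_norm (fun t : Fin n → Bool => ∑ i, c i * sg (t i))
              fun i => decide (0 ≤ c i))
          refine Finset.sum_congr rfl fun i _ => ?_
          by_cases h4 : 0 ≤ c i
          · simp [h4, sg, abs_of_nonneg h4]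
          · simp [h4, sg, abs_of_neg (not_le.1 h4)]
        rw [h3, hn, norm_neg, norm_smul, Real.norm_of_nonneg hK.le] at h2
        have h6 := norm_sub_le (a + ∑ i, c i • u' i) (∑ i, c i • u' i)
        rw [add_sub_cancel_right] at h6
        nlinarith }
  obtain ⟨f, h1, h2⟩ := hG.2 ε hε A (M ⧸ N) g
  refine ⟨K • ((f : M ⧸ N →ₗ[ℝ] G) ∘ₗ L ∘ₗ LinearMap.inr ℝ _ _), fun b => ?_, fun i => ?_⟩
  · have h3 : ‖L (0, b)‖ ≤ ‖b‖ := (Submodule.Quotient.norm_mk_le N _).trans (by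
      show ‖(WithLp.toLp 1 (0, b) : M)‖ ≤ _
      rw [hn, norm_zero, zero_add])
    show ‖K • f (L (0, b))‖ ≤ _
    rw [norm_smul, Real.norm_of_nonneg hK.le]
    nlinarith [(h1 (L (0, b))).2, mul_le_mul_of_nonneg_left h3 (by positivity : 0 ≤ 1 + ε)]
  · have h3 : K • L (0, fun t => sg (t i)) = g (u' i) := by
      rw [← map_smul]
      show L _ = L (u' i, 0)
      rw [eq_comm, ← sub_eq_zero, ← map_sub, hL, Submodule.Quotient.mk_eq_zero]
      refine Submodule.subset_span ⟨i, ?_⟩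
      simp [w]
    show ‖K • f (L (0, fun t => sg (t i))) - u i‖ ≤ _
    rw [← map_smul, h3]
    exact ((f.comp g.toContinuousLinearMap - A.subtypeL).le_opNorm (u' i)).trans
      (mul_le_mul h2 (hu i) (norm_nonneg _) hε.le)

/-- The Gurarii space has no uniformly complemented finite dimensional `l1`. -/
theorem no_l1 (hG : IsGurarii G) {K : ℝ} (hK : 0 < K) : ∃ n : ℕ, ∀ (u : Fin n → G)
    (ψ : Fin n → G →L[ℝ] ℝ), (∀ i, ‖u i‖ ≤ K) → (∀ x, ∑ i, |ψ i x| ≤ K * ‖x‖) →
      ¬ ∀ i, ψ i (u i) = 1 := by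
  obtain ⟨m, hm⟩ := exists_nat_gt (4 * ((1 + 1 / (2 * K ^ 2)) * K ^ 2))
  have hm0 : (0 : ℝ) < m := lt_of_le_of_lt (by positivity) hm
  refine ⟨m ^ 2, fun u ψ hu hψ h1 => ?_⟩
  obtain ⟨F, h2, h3⟩ := gur_ext hG u hK hu (ε := 1 / (2 * K ^ 2)) (by positivity)
  have h4 := proj_lower (a := 1 / m) (C := (1 + 1 / (2 * K ^ 2)) * K ^ 2)
    (by push_cast; field_simp; rfl) (fun i => (ψ i : G →ₗ[ℝ] ℝ) ∘ₗ F) fun b hb => by
      refine (hψ (F b)).trans ?_
      have := (h2 b).trans (mul_le_of_le_one_right (by positivity) hb)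
      nlinarith
  have h5 : ∀ i, 1 / 2 ≤ ψ i (F fun t => sg (t i)) := by
    intro i
    have h6 := (Finset.single_le_sum (f := fun j => |ψ j ((F fun t => sg (t i)) - u i)|)
      (fun _ _ => abs_nonneg _) (Finset.mem_univ i)).trans (hψ _)
    rw [map_sub, h1] at h6
    have h7 : K * (1 / (2 * K ^ 2) * K) = 1 / 2 := by field_simp
    linarith [(abs_le.1 h6).1, mul_le_mul_of_nonneg_left (h3 i) hK.le]
  have h6 := Finset.sum_le_sum fun i (_ : i ∈ Finset.univ) => h5 i
  rw [Finset.sum_const, Finset.card_univ, Fintype.card_fin, nsmul_eq_mul] at h6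
  push_cast at h6
  have h7 := (mul_le_mul_of_nonneg_left h6 (show (0 : ℝ) ≤ 1 / m by positivity)).trans h4
  have h8 : 1 / (m : ℝ) * ((m : ℝ) ^ 2 * (1 / 2)) = m / 2 := by field_simp
  linarith

lemma not_fin (hG : IsGurarii G) : ¬ FiniteDimensional ℝ G := by
  intro h
  let g : (⊥ : Submodule ℝ G) →ₗᵢ[ℝ] (Fin (Module.finrank ℝ G + 1) → ℝ) :=
    { toLinearMap := 0
      norm_map' := fun a => by rw [Subsingleton.elim a 0]; simp }
  obtain ⟨f, h1, -⟩ := hG.2 1 one_pos ⊥ _ g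
  have h2 : Function.Injective f := (injective_iff_map_eq_zero f).2 fun b hb => by
    have := (h1 b).1
    rw [hb, norm_zero] at this
    exact norm_le_zero_iff.1 (by linarith)
  have := LinearMap.finrank_le_finrank_of_injective (f := f.toLinearMap) h2
  simp at this

end Pool.Agent.H87.Gur
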