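import Mathlib
import Pool.Agent.H87.GurDef
import Pool.Agent.H87.Gur1
import Pool.Agent.H87.D2G1
import Pool.Agent.H87.L1R

namespace Pool.Agent.H87.Gur

open Filter Topology Set Pool.Agent.H87.D2G Pool.Agent.H87.L1R

variable {G : Type} [NormedAddCommGroup G] [NormedSpace ℝ G]

lemma exists_seq [TopologicalSpace.SeparableSpace G] (h : ¬ FiniteDimensional ℝ G) :
    ∃ z : ℕ → G, LinearIndependent ℝ z ∧ Dense (Submodule.span ℝ (range z) : Set G) := by
  obtain ⟨s, hs1, hs2⟩ := TopologicalSpace.exists_countable_dense G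
  obtain ⟨b, h1, h2, h3⟩ := exists_linearIndependent ℝ s
  have hd : Dense (Submodule.span ℝ b : Set G) := by
    rw [h2]; exact hs2.mono Submodule.subset_span
  have : Countable b := (hs1.mono h1).to_subtype
  have : Infinite b := by
    refine infinite_coe_iff.2 fun hb => h ?_
    have := FiniteDimensional.span_of_finite ℝ hb
    have h4 : Submodule.span ℝ b = ⊤ := by
      rw [← Submodule.coe_eq_univ, ← (Submodule.span ℝ b).closed_of_finiteDimensional.closure_eq]
      exact hd.closure_eq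
    rw [h4] at this
    exact Module.Finite.equiv Submodule.topEquiv
  obtain ⟨e⟩ := nonempty_equiv_of_countable (α := ℕ) (β := b)
  refine ⟨(↑) ∘ e, h3.comp _ e.injective, ?_⟩
  rwa [e.surjective.range_comp, Subtype.range_coe]

noncomputable def gs (z : ℕ → G) (f : ℕ → G →L[ℝ] ℝ) (n : ℕ) : G :=
  z n - ∑ k : Finset.range n, f k (z n) • gs z f k
decreasing_by exact Finset.mem_range.1 k.2

lemma gs_eq (z : ℕ → G) (f : ℕ → G →L[ℝ] ℝ) (n : ℕ) :
    gs z f n = z n - ∑ k ∈ Finset.range n, f k (z n) • gs z f k := by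
  rw [gs, Finset.sum_coe_sort (Finset.range n) fun k => f k (z n) • gs z f k]

lemma exists_bior [TopologicalSpace.SeparableSpace G] (h : ¬ FiniteDimensional ℝ G) :
    ∃ (x : ℕ → G) (f : ℕ → G →L[ℝ] ℝ), (∀ n, ‖x n‖ ≤ 1) ∧
      (∀ m n, f m (x n) = if n = m then 1 else 0) ∧ Dense (Submodule.span ℝ (range x) : Set G) := by
  obtain ⟨z, hz, hd⟩ := exists_seq h
  have h1 : ∀ n, ∃ f : G →L[ℝ] ℝ, f (z n) = 1 ∧ ∀ k < n, f (z k) = 0 := by
    intro n
    let S := Submodule.span ℝ (z '' Iio n)
    have := FiniteDimensional.span_of_finite ℝ ((finite_Iio n).image z)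
    have : IsClosed (S : Set G) := S.closed_of_finiteDimensional
    have h2 : S.mkQ (z n) ≠ 0 := fun h2 =>
      hz.notMem_span_image (s := Iio n) (lt_irrefl n) ((Submodule.Quotient.mk_eq_zero S).1 h2)
    obtain ⟨g, hg⟩ := SeparatingDual.exists_eq_one (R := ℝ) h2
    refine ⟨g.comp (S.mkQ.mkContinuous 1 fun y => by
      simpa using Submodule.Quotient.norm_mk_le S y), hg, fun k hk => ?_⟩
    have : S.mkQ (z k) = 0 :=
      (Submodule.Quotient.mk_eq_zero S).2 (Submodule.subset_span ⟨k, hk, rfl⟩)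
    show g (S.mkQ (z k)) = 0
    rw [this, map_zero]
  choose f hf1 hf2 using h1
  have h2 : ∀ n m, f m (gs z f n) = if n = m then 1 else 0 := by
    intro n
    induction n using Nat.strong_induction_on with
    | _ n ih =>
      intro m
      rw [gs_eq, map_sub, map_sum, Finset.sum_congr rfl fun k hk => by
        rw [map_smul, ih k (Finset.mem_range.1 hk) m, smul_eq_mul, mul_ite, mul_one, mul_zero],
        Finset.sum_ite_eq']
      rcases lt_trichotomy n m with h3 | rfl | h3
      · simp [h3.ne, hf2 m n h3]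
      · simp [hf1]
      · simp [h3, h3.ne']
  have hp : ∀ n, 0 < ‖gs z f n‖ + 1 := fun n => by positivity
  refine ⟨fun n => (‖gs z f n‖ + 1)⁻¹ • gs z f n, fun n => (‖gs z f n‖ + 1) • f n, fun n => ?_,
    fun m n => ?_, hd.mono (Submodule.span_le.2 ?_)⟩
  · rw [norm_smul, Real.norm_of_nonneg (inv_pos.2 (hp n)).le, inv_mul_le_iff₀ (hp n)]; linarith
  · rw [_root_.smul_apply, map_smul, h2]
    split_ifs with h3
    · subst h3; simp [(hp n).ne']
    · simp
  · rintro _ ⟨n, rfl⟩
    have h3 : ∀ k, gs z f k ∈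
        Submodule.span ℝ (range fun n => (‖gs z f n‖ + 1)⁻¹ • gs z f n) := fun k => by
      have := Submodule.smul_mem _ (‖gs z f k‖ + 1) (Submodule.subset_span (R := ℝ)
        (mem_range_self (f := fun n => (‖gs z f n‖ + 1)⁻¹ • gs z f n) k))
      rwa [smul_inv_smul₀ (hp k).ne'] at this
    rw [← sub_add_cancel (z n) _, ← gs_eq]
    exact Submodule.add_mem _ (h3 n)
      (Submodule.sum_mem _ fun k _ => Submodule.smul_mem _ _ (h3 k))

section
variable {Y Z : Type} [NormedAddCommGroup Y] [NormedSpace ℝ Y] [NormedAddCommGroup Z]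
  [NormedSpace ℝ Z]

noncomputable def cd (w : ℕ → Y) : V →+ Y :=
  Finsupp.liftAddHom fun n => AddMonoidHom.mk' (fun q : ℚ => (q : ℝ) • w n)
    fun p q => by rw [Rat.cast_add, add_smul]

lemma cd_apply (w : ℕ → Y) (v : V) : cd w v = ∑ n ∈ v.support, (v n : ℝ) • w n := rfl

lemma cd_single (w : ℕ → Y) (n : ℕ) : cd w (Finsupp.single n 1) = w n := by simp [cd]

lemma map_cd (L : Y →L[ℝ] Z) (w : ℕ → Y) (v : V) : L (cd w v) = cd (fun n => L (w n)) v := by
  simp [cd_apply]

lemma hom_smul (T : V →+ Y) (q : ℚ) (v : V) : T (q • v) = (q : ℝ) • T v :=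
  map_ratCast_smul T ℚ ℝ q v

def cl (T : V →+ Y) : Submodule ℝ Y where
  carrier := closure (range T)
  add_mem' ha hb := map_mem_closure₂ continuous_add ha hb
    (by rintro _ ⟨u, rfl⟩ _ ⟨v, rfl⟩; exact ⟨u + v, map_add _ _ _⟩)
  zero_mem' := subset_closure ⟨0, map_zero _⟩
  smul_mem' r y hy := map_mem_closure₂ continuous_smul (Rat.denseRange_cast r) hy
    (by rintro _ ⟨q, rfl⟩ _ ⟨v, rfl⟩; exact ⟨q • v, hom_smul _ _ _⟩)

instance [CompleteSpace Y] (T : V →+ Y) : CompleteSpace (cl T) :=
  (isClosed_closure (s := range T)).completeSpace_coe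

noncomputable def res (T : V →+ Y) : V →+ cl T := T.codRestrict _ fun v => subset_closure (mem_range_self v)

lemma dense_res (T : V →+ Y) : DenseRange (res T) := fun y => by
  rw [closure_subtype, ← range_comp]; exact y.2

lemma dense_cd {w : ℕ → Y} (h : Dense (Submodule.span ℝ (range w) : Set Y)) :
    DenseRange (cd w) := by
  have : Submodule.span ℝ (range w) ≤ cl (cd w) := Submodule.span_le.2 (by
    rintro _ ⟨n, rfl⟩; exact subset_closure ⟨_, cd_single w n⟩)
  exact dense_closure.1 (h.mono this)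

lemma mem_BInf [CompleteSpace Y] {w : ℕ → Y} (h : LinearIndependent ℝ w) :
    (fun v => ‖cd w v‖) ∈ BInf := by
  have h1 : LinearIndependent ℝ fun n : ℕ => res (cd w) (Finsupp.single n 1) := by
    refine LinearIndependent.of_comp (cl (cd w)).subtype ?_
    convert h using 1
    exact funext fun n => cd_single w n
  refine ⟨⟨⟨fun _ => norm_nonneg _, fun u v => by simp only [map_add]; exact norm_add_le _ _,
    fun q v => by simp only [hom_smul, norm_smul]; rfl⟩, cl (cd w), inferInstance, inferInstance,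
    inferInstance, ⟨res _, dense_res _, fun _ => rfl⟩,
    fun _ => Module.Finite.not_linearIndependent_of_infinite _ h1⟩, cl (cd w), inferInstance,
    inferInstance, inferInstance, res _, dense_res _, fun _ => rfl, h1⟩

lemma iso_graph {x : ℕ → Y} (hx : DenseRange (cd x)) (J : Y →L[ℝ] Z) :
    Nonempty (cl (cd fun n => (x n, J (x n))) ≃L[ℝ] Y) := by
  have h1 : ∀ v, cd (fun n => (x n, J (x n))) v = (cd x v, J (cd x v)) := fun v =>
    (map_cd ((ContinuousLinearMap.id ℝ Y).prod J) x v).symm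
  refine ⟨ContinuousLinearEquiv.equivOfInverse
    ((ContinuousLinearMap.fst ℝ Y Z).comp (cl _).subtypeL)
    (((ContinuousLinearMap.id ℝ Y).prod J).codRestrict _ fun y => ?_) (fun y => ?_) fun _ => rfl⟩
  · exact map_mem_closure ((ContinuousLinearMap.id ℝ Y).prod J).continuous (hx y)
      (by rintro _ ⟨v, rfl⟩; exact ⟨v, h1 v⟩)
  · have h2 : IsClosed {p : Y × Z | (p.1, J p.1) = p} := isClosed_eq (by fun_prop) (by fun_prop)
    exact Subtype.ext (closure_minimal (by rintro _ ⟨v, rfl⟩; rw [h1]; rfl) h2 y.2)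

end

noncomputable def wa (x : ℕ → G) (a : ℕ → Bool) (n : ℕ) : G × L ℕ :=
  (x n, if a n then dl n else 0)

lemma coord (x : ℕ → G) (a : ℕ → Bool) {m : ℕ} (hm : a m = true) (v : V) :
    (cd (wa x a) v).2.ap m = v m := by
  have := map_cd ((apL m).comp (ContinuousLinearMap.snd ℝ G (L ℕ))) (wa x a) v
  refine this.trans ?_
  rw [cd_apply, Finset.sum_eq_single m]
  · simp [wa, hm, dl_ap]
  · intro n _ hn
    by_cases h : a n = true <;> simp [wa, h, dl_ap, hn.symm]
  · intro h; simp [Finsupp.notMem_support_iff.1 h]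

lemma not_iso (hG : IsGurarii G) {x : ℕ → G} (hx : ∀ n, ‖x n‖ ≤ 1) {a : ℕ → Bool}
    (ha : {n | a n = true}.Infinite) {X : Type} [NormedAddCommGroup X] [NormedSpace ℝ X]
    (hX : Codes (fun v => ‖cd (wa x a) v‖) X) (S : X ≃L[ℝ] G) : False := by
  obtain ⟨T, hT, hT2⟩ := hX
  obtain ⟨n, hn⟩ := no_l1 hG (K := ‖(S : X →L[ℝ] G)‖ + ‖(S.symm : G →L[ℝ] X)‖ + 1) (by positivity)
  let e : Fin n ↪ ℕ := Fin.valEmbedding.trans ((ha.natEmbedding _).trans (.subtype _))
  have he : ∀ i, a (e i) = true := fun i => (ha.natEmbedding _ i).2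
  have h1 : ∀ v : V, ∑ i, |(v (e i) : ℝ)| ≤ ‖T v‖ := fun v => by
    have := (sum_le (cd (wa x a) v).2 (Finset.univ.map e)).trans (norm_snd_le _)
    rw [Finset.sum_map] at this
    simpa only [hT2, coord x a (he _)] using this
  choose f hf using fun i => ext_fun T hT (fun v => (v (e i) : ℝ)) (fun u v => by simp)
    fun v => (Finset.single_le_sum (f := fun i => |(v (e i) : ℝ)|) (fun _ _ => abs_nonneg _)
      (Finset.mem_univ i)).trans (h1 v)
  have h2 : ∀ y, ∑ i, |f i y| ≤ ‖y‖ := fun y =>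
    hT.induction_on (p := fun y => ∑ i, |f i y| ≤ ‖y‖) y (isClosed_le (by fun_prop) (by fun_prop))
      fun v => by simpa only [hf] using h1 v
  refine hn (fun i => S (T (Finsupp.single (e i) 1))) (fun i => (f i).comp (S.symm : G →L[ℝ] X))
    (fun i => ?_) (fun y => (h2 _).trans ?_) fun i => by simp [hf]
  · have h3 : ‖T (Finsupp.single (e i) 1)‖ ≤ 1 := by
      rw [hT2]
      show ‖cd _ _‖ ≤ 1
      rw [cd_single, Prod.norm_def]
      exact max_le (hx _) (by simp [wa, he])
    have := (S : X →L[ℝ] G).le_of_opNorm_le_of_le le_rfl h3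
    exact this.trans (by linarith [norm_nonneg (S.symm : G →L[ℝ] X)])
  · exact ((S.symm : G →L[ℝ] X).le_opNorm y).trans (mul_le_mul_of_nonneg_right
      (by linarith [norm_nonneg (S : X →L[ℝ] G)]) (norm_nonneg _))

lemma not_gdelta : ¬ IsGδ {a : ℕ → Bool | {n | a n = true}.Finite} := by
  intro h
  have h1 : Dense {a : ℕ → Bool | {n | a n = true}.Finite} := fun a => by
    refine mem_closure_of_tendsto (f := fun N n => if n < N then a n else false) (b := atTop)
      (tendsto_pi_nhds.2 fun n => tendsto_const_nhds.congr' ?_) (.of_forall fun N => ?_)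
    · filter_upwards [eventually_gt_atTop n] with N hN using by simp [hN]
    · exact (finite_Iio N).subset fun n hn => by
        by_contra h2
        simp [show ¬ n < N from h2] at hn
  have h2 : ∀ N : ℕ, IsOpen {a : ℕ → Bool | ∃ n ≥ N, a n = true} := fun N => by
    simp only [ofPred_exists, ofPred_and]
    exact isOpen_iUnion fun n => isOpen_const.inter
      ((isOpen_discrete {true}).preimage (continuous_apply (A := fun _ : ℕ => Bool) n))
  have h3 : ∀ N : ℕ, Dense {a : ℕ → Bool | ∃ n ≥ N, a n = true} := fun N a => by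
    refine mem_closure_of_tendsto (f := fun M n => if n < M then a n else true) (b := atTop)
      (tendsto_pi_nhds.2 fun n => tendsto_const_nhds.congr' ?_) (.of_forall fun M => ?_)
    · filter_upwards [eventually_gt_atTop n] with N hN using by simp [hN]
    · exact ⟨max M N, le_max_right _ _, by simp⟩
  obtain ⟨a, h4, h5⟩ := (h1.inter_of_Gδ h (IsGδ.iInter_of_isOpen h2)
    (dense_iInter_of_isOpen h2 h3)).nonempty
  obtain ⟨N, hN⟩ := h4.bddAbove
  obtain ⟨n, h6, h7⟩ := mem_iInter.1 h5 (N + 1)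
  have := hN h7
  omega

theorem main [CompleteSpace G] (hG : IsGurarii G) (I : Set (V → ℝ)) (hI : BInf ⊆ I) :
    ¬ IsGδ (isoClass I G) := by
  have := hG.1
  obtain ⟨x, f, h1, h2, h3⟩ := exists_bior (not_fin hG)
  have hli : LinearIndependent ℝ x :=
    LinearIndependent.of_pairwise_dual_eq_zero_one x (fun n => (f n : G →ₗ[ℝ] ℝ))
      (fun m n h => by simp [h2, h.symm]) fun n => by simp [h2]
  let Φ : (ℕ → Bool) → I := fun a => ⟨fun v => ‖cd (wa x a) v‖,
    hI (mem_BInf (LinearIndependent.of_comp (LinearMap.fst ℝ G (L ℕ)) hli))⟩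
  have hΦ : Continuous Φ := by
    refine Continuous.subtype_mk (continuous_pi fun v => ?_) _
    simp only [cd_apply, wa]
    refine Continuous.norm (continuous_finsetSum _ fun n _ =>
      Continuous.fun_const_smul (continuous_const.prodMk ?_) _)
    exact (continuous_of_discreteTopology (f := fun b : Bool => if b then dl n else 0)).comp
      (continuous_apply n)
  refine fun h => not_gdelta ?_
  convert h.preimage hΦ using 1
  ext a
  constructor
  · intro ha
    have h4 : wa x a = fun n => (x n, (∑ m ∈ ha.toFinset, (f m).smulRight (dl m)) (x n)) := by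
      funext n
      simp [wa, h2]
    refine ⟨cl (cd (wa x a)), inferInstance, inferInstance, inferInstance,
      ⟨res _, dense_res _, fun _ => rfl⟩, ?_⟩
    rw [h4]
    exact iso_graph (dense_cd h3) _
  · rintro ⟨X, _, _, _, h4, ⟨S⟩⟩
    exact by_contra fun ha => not_iso hG h1 ha h4 S

end Pool.Agent.H87.Gur
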