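import Mathlib

namespace Pool.Agent.H87.LocFin

open Filter Topology

/-- Locally finite groups are amenable. -/
theorem amenable_of_locally_finite (G : Type) [Group G]
    (h : ∀ S : Finset G, ∃ K : Subgroup G, Finite K ∧ ∀ g ∈ S, g ∈ K) :
    ∃ μ : Set G → ℝ, (∀ A, 0 ≤ μ A) ∧ μ Set.univ = 1 ∧
      (∀ A B : Set G, Disjoint A B → μ (A ∪ B) = μ A + μ B) ∧
      (∀ (g : G) (A : Set G), μ ((fun x => g * x) '' A) = μ A) := by
  classical
  choose K hKf hK using h
  have hfin : ∀ S, (K S : Set G).Finite := fun S => Set.toFinite _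
  let a : Set G → Finset G → ℝ := fun A S => ((A ∩ K S).ncard : ℝ) / ((K S : Set G).ncard : ℝ)
  have hpos : ∀ S, (0 : ℝ) < ((K S : Set G).ncard : ℝ) := fun S => by
    have : 0 < (K S : Set G).ncard := (Set.ncard_pos (hfin S)).2 ⟨1, (K S).one_mem⟩
    exact_mod_cast this
  have ha : ∀ A S, a A S ∈ Set.Icc (0 : ℝ) 1 := fun A S => by
    refine ⟨by positivity, ?_⟩
    rw [div_le_one (hpos S)]
    exact_mod_cast Set.ncard_le_ncard Set.inter_subset_right (hfin S)
  let U : Ultrafilter (Finset G) := Ultrafilter.of atTop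
  have hU : (U : Filter (Finset G)) ≤ atTop := Ultrafilter.of_le _
  have hlim : ∀ A, ∃ r ∈ Set.Icc (0 : ℝ) 1, Tendsto (a A) U (𝓝 r) := fun A => by
    have := isCompact_Icc.ultrafilter_le_nhds (U.map (a A))
      (by rw [le_principal_iff]; exact mem_map.2 (Eventually.of_forall (ha A)))
    exact this
  choose μ hμ1 hμ2 using hlim
  refine ⟨μ, fun A => (hμ1 A).1, ?_, ?_, ?_⟩
  · refine tendsto_nhds_unique (hμ2 _) ?_
    have : a Set.univ = fun _ => 1 := by
      funext S; simp only [a, Set.univ_inter]; exact div_self (hpos S).ne'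
    rw [this]; exact tendsto_const_nhds
  · intro A B hAB
    refine tendsto_nhds_unique (hμ2 _) ?_
    have : a (A ∪ B) = fun S => a A S + a B S := by
      funext S
      simp only [a]
      rw [Set.union_inter_distrib_right, Set.ncard_union_eq
        (hAB.mono Set.inter_subset_left Set.inter_subset_left)
        ((hfin S).subset Set.inter_subset_right) ((hfin S).subset Set.inter_subset_right)]
      push_cast; ring
    rw [this]; exact (hμ2 A).add (hμ2 B)
  · intro g A
    refine tendsto_nhds_unique (hμ2 _) ((hμ2 A).congr' ?_)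
    refine hU (mem_atTop_sets.2 ⟨{g}, fun S hS => ?_⟩)
    have hg : g ∈ K S := hK S g (hS (Finset.mem_singleton_self g))
    have : (fun x => g * x) '' A ∩ K S = (fun x => g * x) '' (A ∩ K S) := by
      ext y; constructor
      · rintro ⟨⟨x, hx, rfl⟩, hy⟩
        exact ⟨x, ⟨hx, by simpa using (K S).mul_mem ((K S).inv_mem hg) hy⟩, rfl⟩
      · rintro ⟨x, ⟨hx, hx'⟩, rfl⟩
        exact ⟨⟨x, hx, rfl⟩, (K S).mul_mem hg hx'⟩
    simp only [Set.mem_ofPred_eq, a, this]
    rw [Set.ncard_image_of_injective _ (mul_right_injective g)]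

/-- Pairing of an absolutely summable function with a bounded function. -/
lemma summ {G : Type} (f : lp (fun _ : G => ℂ) 1) : Summable fun x => ‖f x‖ := by
  have := lp.memℓp f
  rw [memℓp_gen_iff (by simp)] at this
  simpa using this

lemma norm_tsum {G : Type} (f : lp (fun _ : G => ℂ) 1) : ‖f‖ = ∑' x, ‖f x‖ := by
  rw [lp.norm_eq_tsum_rpow (by simp)]; simp

lemma summ_mul {G : Type} (f : lp (fun _ : G => ℂ) 1) (u : G → ℂ) (hu : ∀ x, ‖u x‖ ≤ 1) :
    Summable fun x => ‖f x * u x‖ :=
  Summable.of_nonneg_of_le (fun _ => norm_nonneg _)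
    (fun x => by rw [norm_mul]; exact mul_le_of_le_one_right (norm_nonneg _) (hu x)) (summ f)

noncomputable def pair {G : Type} (u : G → ℂ) (hu : ∀ x, ‖u x‖ ≤ 1) :
    lp (fun _ : G => ℂ) 1 →L[ℂ] ℂ :=
  LinearMap.mkContinuous
    { toFun := fun f => ∑' x, f x * u x
      map_add' := fun f g => by
        rw [← (summ_mul f u hu).of_norm.tsum_add (summ_mul g u hu).of_norm]
        congr 1; funext x; simp [add_mul]
      map_smul' := fun t f => by
        simp only [RingHom.id_apply, smul_eq_mul]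
        rw [← tsum_mul_left]
        congr 1; funext x; simp [mul_assoc] } 1
    (fun f => by
      rw [one_mul, norm_tsum]
      refine (norm_tsum_le_tsum_norm (summ_mul f u hu)).trans ?_
      exact (summ_mul f u hu).tsum_le_tsum
        (fun x => by rw [norm_mul]; exact mul_le_of_le_one_right (norm_nonneg _) (hu x)) (summ f))

lemma pair_apply {G : Type} (u : G → ℂ) (hu : ∀ x, ‖u x‖ ≤ 1) (f : lp (fun _ : G => ℂ) 1) :
    pair u hu f = ∑' x, f x * u x := rfl

lemma pair_single {G : Type} [DecidableEq G] (u : G → ℂ) (hu : ∀ x, ‖u x‖ ≤ 1) (y : G) (t : ℂ) :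
    pair u hu (lp.single 1 y t) = t * u y := by
  rw [pair_apply, tsum_eq_single y]
  · simp
  · intro x hx; simp [lp.single_apply, Pi.single_eq_of_ne hx]

lemma pair_conv {G : Type} [Group G] (u : G → ℂ) (hu : ∀ x, ‖u x‖ ≤ 1)
    (hm : ∀ x y, u (x * y) = u x * u y) (f g h : lp (fun _ : G => ℂ) 1)
    (hh : ∀ x : G, h x = ∑' y : G, f y * g (y⁻¹ * x)) :
    pair u hu h = pair u hu f * pair u hu g := by
  simp only [pair_apply]
  rw [tsum_mul_tsum_of_summable_norm (summ_mul f u hu) (summ_mul g u hu)]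
  have hs := summable_mul_of_summable_norm (summ_mul f u hu) (summ_mul g u hu)
  let e : G × G ≃ G × G :=
    { toFun := fun p => (p.2, p.2⁻¹ * p.1)
      invFun := fun p => (p.1 * p.2, p.1)
      left_inv := fun p => by simp
      right_inv := fun p => by simp }
  rw [← e.tsum_eq]
  refine Eq.trans ?_ (Summable.tsum_prod (e.summable_iff.2 hs)).symm
  congr 1; funext x
  rw [hh, ← tsum_mul_right]
  congr 1; funext y
  have : u x = u y * u (y⁻¹ * x) := by rw [← hm]; simp
  simp only [e, Function.comp, Equiv.coe_fn_mk]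
  rw [this]; ring

end Pool.Agent.H87.LocFin
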