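import Mathlib
import Pool.Agent.H87.LocFin

namespace Pool.Agent.H87.Heis

open Pool.Agent.H87.LocFin

/-- A free two-step nilpotent type group over the field with two elements. -/
@[ext] structure G where
  v : ℕ → ZMod 2
  w : ℕ → ℕ → ZMod 2

def tp (a b : ℕ → ZMod 2) : ℕ → ℕ → ZMod 2 := fun i j => a i * b j

instance : Mul G := ⟨fun x y => ⟨x.v + y.v, x.w + y.w + tp x.v y.v⟩⟩
instance : One G := ⟨⟨0, 0⟩⟩
instance : Inv G := ⟨fun x => ⟨-x.v, -x.w + tp x.v x.v⟩⟩

@[simp] lemma mul_v (x y : G) : (x * y).v = x.v + y.v := rfl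
@[simp] lemma mul_w (x y : G) : (x * y).w = x.w + y.w + tp x.v y.v := rfl
@[simp] lemma one_v : (1 : G).v = 0 := rfl
@[simp] lemma one_w : (1 : G).w = 0 := rfl
@[simp] lemma inv_v (x : G) : (x⁻¹).v = -x.v := rfl
@[simp] lemma inv_w (x : G) : (x⁻¹).w = -x.w + tp x.v x.v := rfl

instance : Group G := Group.ofLeftAxioms
  (fun a b c => by
    ext i j
    · simp [add_assoc]
    · simp [tp]; ring)
  (fun a => by
    ext i j
    · simp
    · simp [tp])
  (fun a => by
    ext i j
    · simp only [mul_v, inv_v, one_v, neg_add_cancel]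
    · simp only [mul_w, inv_w, inv_v, one_w, tp, Pi.add_apply, Pi.neg_apply, Pi.zero_apply]
      ring)

lemma locfin (S : Finset G) : ∃ K : Subgroup G, Finite K ∧ ∀ g ∈ S, g ∈ K := by
  classical
  let V : Submodule (ZMod 2) (ℕ → ZMod 2) := Submodule.span (ZMod 2) (G.v '' (S : Set G))
  have hV : (V : Set (ℕ → ZMod 2)).Finite := by
    haveI : Module.Finite (ZMod 2) V :=
      Module.Finite.span_of_finite _ (S.finite_toSet.image _)
    exact (Module.finite_of_finite (ZMod 2) (M := V))
  let W : Submodule (ZMod 2) (ℕ → ℕ → ZMod 2) :=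
    Submodule.span (ZMod 2) (G.w '' (S : Set G) ∪ Set.image2 tp V V)
  have hW : (W : Set (ℕ → ℕ → ZMod 2)).Finite := by
    haveI : Module.Finite (ZMod 2) W :=
      Module.Finite.span_of_finite _ ((S.finite_toSet.image _).union (hV.image2 _ hV))
    exact (Module.finite_of_finite (ZMod 2) (M := W))
  have htp : ∀ a ∈ V, ∀ b ∈ V, tp a b ∈ W := fun a ha b hb =>
    Submodule.subset_span (Or.inr ⟨a, ha, b, hb, rfl⟩)
  let K : Subgroup G :=
    { carrier := {x | x.v ∈ V ∧ x.w ∈ W}
      mul_mem' := fun {a b} ha hb =>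
        ⟨V.add_mem ha.1 hb.1, W.add_mem (W.add_mem ha.2 hb.2) (htp _ ha.1 _ hb.1)⟩
      one_mem' := ⟨V.zero_mem, W.zero_mem⟩
      inv_mem' := fun {a} ha => ⟨V.neg_mem ha.1, W.add_mem (W.neg_mem ha.2) (htp _ ha.1 _ ha.1)⟩ }
  refine ⟨K, ?_, fun g hg => ⟨Submodule.subset_span ⟨g, hg, rfl⟩,
    Submodule.subset_span (Or.inl ⟨g, hg, rfl⟩)⟩⟩
  have : (K : Set G).Finite := by
    refine Set.Finite.of_finite_image (f := fun x : G => (x.v, x.w)) ((hV.prod hW).subset ?_) ?_
    · rintro _ ⟨x, hx, rfl⟩; exact hx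
    · intro x _ y _ hxy
      exact G.ext (congrArg Prod.fst hxy) (congrArg Prod.snd hxy)
  exact this

lemma comm_case {a b : G} (h : a * b = b * a) (ha : a.v ≠ 0) : b.v = 0 ∨ b.v = a.v := by
  obtain ⟨i, hi⟩ := Function.ne_iff.1 ha
  have hw := congrArg G.w h
  have key : ∀ j, a.v i * b.v j = b.v i * a.v j := fun j => by
    have := congrFun (congrFun hw i) j
    simp only [mul_w, Pi.add_apply, tp] at this
    linear_combination this
  have two : ∀ t : ZMod 2, t = 0 ∨ t = 1 := by decide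
  have hi1 : a.v i = 1 := (two _).resolve_left hi
  rcases two (b.v i) with hb | hb
  · left; funext j; simpa [hi1, hb] using key j
  · right; funext j; simpa [hi1, hb] using key j

noncomputable def chi (n : ℕ) (x : G) : ℂ := if x.v n = 0 then 1 else -1

lemma chi_le (n : ℕ) (x : G) : ‖chi n x‖ ≤ 1 := by
  unfold chi; split_ifs <;> simp

lemma chi_mul (n : ℕ) (x y : G) : chi n (x * y) = chi n x * chi n y := by
  have two : ∀ t : ZMod 2, t = 0 ∨ t = 1 := by decide
  have h2 : (1 + 1 : ZMod 2) = 0 := by decide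
  unfold chi
  rcases two (x.v n) with h | h <;> rcases two (y.v n) with h' | h' <;> simp [h, h', h2]

noncomputable def I : Submodule ℂ (lp (fun _ : G => ℂ) 1) :=
  ⨅ n, LinearMap.ker (pair (chi n) (chi_le n)).toLinearMap

lemma mem_I (f : lp (fun _ : G => ℂ) 1) : f ∈ I ↔ ∀ n, pair (chi n) (chi_le n) f = 0 := by
  simp [I]

lemma I_closed : IsClosed (I : Set (lp (fun _ : G => ℂ) 1)) := by
  have : (I : Set (lp (fun _ : G => ℂ) 1)) = ⋂ n, {f | pair (chi n) (chi_le n) f = 0} := by
    ext f; simp [mem_I]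
  rw [this]
  exact isClosed_iInter fun n => isClosed_eq (pair _ _).continuous continuous_const

lemma abel (H : Subgroup G) (hH : ∀ a ∈ H, ∀ b ∈ H, a * b = b * a) :
    ∃ s : Finset (lp (fun _ : G => ℂ) 1),
      (∀ v ∈ s, ∀ x : G, x ∉ H → v x = 0) ∧
      ∀ f : lp (fun _ : G => ℂ) 1, (∀ x : G, x ∉ H → f x = 0) →
        f ∈ I ⊔ Submodule.span ℂ (s : Set (lp (fun _ : G => ℂ) 1)) := by
  classical
  obtain ⟨h, hh, hv⟩ : ∃ h ∈ H, ∀ x ∈ H, x.v = 0 ∨ x.v = h.v := by
    by_cases hc : ∃ h ∈ H, h.v ≠ 0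
    · obtain ⟨h, hh, hv⟩ := hc
      exact ⟨h, hh, fun x hx => comm_case (hH h hh x hx) hv⟩
    · push Not at hc
      exact ⟨1, H.one_mem, fun x hx => Or.inl (hc x hx)⟩
  refine ⟨{lp.single 1 1 1, lp.single 1 h 1}, ?_, ?_⟩
  · intro v hv x hx
    simp only [Finset.mem_insert, Finset.mem_singleton] at hv
    rcases hv with rfl | rfl
    · have : x ≠ 1 := fun e => hx (e ▸ H.one_mem)
      simp [lp.single_apply, Pi.single_eq_of_ne this]
    · have : x ≠ h := fun e => hx (e ▸ hh)
      simp [lp.single_apply, Pi.single_eq_of_ne this]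
  · intro f hf
    let u0 : G → ℂ := fun x => if x.v = 0 then 1 else 0
    let u1 : G → ℂ := fun x => if x.v = 0 then 0 else 1
    have hu0 : ∀ x, ‖u0 x‖ ≤ 1 := fun x => by simp only [u0]; split_ifs <;> simp
    have hu1 : ∀ x, ‖u1 x‖ ≤ 1 := fun x => by simp only [u1]; split_ifs <;> simp
    let r : lp (fun _ : G => ℂ) 1 :=
      pair u0 hu0 f • lp.single 1 1 1 + pair u1 hu1 f • lp.single 1 h 1
    have hr : r ∈ Submodule.span ℂ
        (({lp.single 1 1 1, lp.single 1 h 1} : Finset (lp (fun _ : G => ℂ) 1)) :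
          Set (lp (fun _ : G => ℂ) 1)) :=
      Submodule.add_mem _ (Submodule.smul_mem _ _ (Submodule.subset_span (by simp)))
        (Submodule.smul_mem _ _ (Submodule.subset_span (by simp)))
    have hI : f - r ∈ I := by
      rw [mem_I]
      intro n
      simp only [r, map_sub, map_add, map_smul, pair_single, smul_eq_mul, one_mul]
      rw [sub_eq_zero, pair_apply, pair_apply, pair_apply, ← tsum_mul_right, ← tsum_mul_right,
        ← ((summ_mul f u0 hu0).of_norm.mul_right _).tsum_add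
          ((summ_mul f u1 hu1).of_norm.mul_right _)]
      congr 1; funext x
      by_cases hx : x ∈ H
      · by_cases h0 : x.v = 0
        · simp [u0, u1, h0, chi]
        · have := (hv x hx).resolve_left h0
          simp only [u0, u1, if_neg h0]
          simp [chi, this]
      · simp [hf x hx]
    have := Submodule.add_mem _ (Submodule.mem_sup_left hI) (Submodule.mem_sup_right hr)
    simpa using this

lemma not_fd : ¬ FiniteDimensional ℂ (lp (fun _ : G => ℂ) 1 ⧸ I) := by
  classical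
  intro hfd
  let g : ℕ → G := fun n => ⟨Pi.single n 1, 0⟩
  let e : ℕ → lp (fun _ : G => ℂ) 1 := fun n => lp.single 1 1 1 - lp.single 1 (g n) 1
  have he : ∀ m n, pair (chi m) (chi_le m) (e n) = if m = n then 2 else 0 := by
    intro m n
    simp only [e, map_sub, pair_single, one_mul, chi, g, one_v, Pi.zero_apply, if_true]
    by_cases hmn : m = n
    · subst hmn; simp; norm_num
    · simp [hmn, Pi.single_eq_of_ne hmn]
  have hli : LinearIndependent ℂ (fun n => I.mkQ (e n)) := by
    rw [linearIndependent_iff']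
    intro s c hc i hi
    have h1 : ∑ n ∈ s, c n • e n ∈ I := by
      rw [← Submodule.Quotient.mk_eq_zero, ← Submodule.mkQ_apply, map_sum]
      simpa using hc
    have h2 := (mem_I _).1 h1 i
    simp only [map_sum, map_smul, he, smul_eq_mul, mul_ite, mul_zero] at h2
    rw [Finset.sum_ite_eq] at h2
    simpa [hi] using h2
  exact Module.Finite.not_linearIndependent_of_infinite _ hli

end Pool.Agent.H87.Heis
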