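import Mathlib

namespace Pool.Agent.H87.Ienv

variable {K : Type} [RCLike K] {X : Type} [NormedAddCommGroup X] [NormedSpace K X]

/-- weak-star closure of a set of functionals -/
def wclosure (S : Set (StrongDual K X)) : Set (StrongDual K X) :=
  StrongDual.toWeakDual ⁻¹' closure (StrongDual.toWeakDual '' S)

/-- the (I)-envelope -/
def Ienv (A : Set (StrongDual K X)) : Set (StrongDual K X) :=
  ⋂ (An : ℕ → Set (StrongDual K X)) (_ : A = ⋃ n, An n),
    closure (convexHull ℝ (⋃ n, wclosure (convexHull ℝ (An n))))

end Pool.Agent.H87.Ienv
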