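import Mathlib

namespace Pool.Agent.H87.InjT

open Finset Filter Topology

/-- an enumeration of a well order with a top element -/
structure Tr (K : Type*) [LinearOrder K] where
  top : K
  le_top : ∀ t, t ≤ top
  e : K → ℕ
  inj : Function.Injective e
  e_top : e top = 0

namespace Tr
variable {K : Type*} [LinearOrder K] (T : Tr K)

def anc (s t : K) : Prop := s ≤ t ∧ ∀ r, s ≤ r → r < t → T.e t < T.e r

lemma anc_refl (s : K) : T.anc s s := ⟨le_rfl, fun _ h1 h2 => absurd h2 (not_lt.2 h1)⟩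

lemma anc_top (s : K) : T.anc s T.top := ⟨T.le_top s, fun r _ h2 => by
  rw [T.e_top]
  exact Nat.pos_of_ne_zero fun h => h2.ne (T.inj (h.trans T.e_top.symm))⟩

variable {T}

lemma anc.e_lt {s t : K} (h : T.anc s t) (hne : t ≠ s) : T.e t < T.e s :=
  h.2 s le_rfl (lt_of_le_of_ne h.1 hne.symm)

lemma anc.trans {s t u : K} (h1 : T.anc s t) (h2 : T.anc t u) : T.anc s u := by
  refine ⟨h1.1.trans h2.1, fun r hr hru => ?_⟩
  rcases lt_or_ge r t with h | h
  · by_cases htu : u = t
    · subst htu; exact h1.2 r hr h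
    · exact (h2.e_lt htu).trans (h1.2 r hr h)
  · exact h2.2 r h hru

lemma anc.of_le {s t u : K} (h1 : T.anc s t) (h2 : T.anc s u) (h : t ≤ u) : T.anc t u :=
  ⟨h, fun r hr hru => h2.2 r (h1.1.trans hr) hru⟩

lemma anc.top_eq {t : K} (h : T.anc T.top t) : t = T.top := le_antisymm (T.le_top t) h.1

lemma anc_fin (s : K) : {t | T.anc s t}.Finite := by
  refine (Set.Finite.preimage T.inj.injOn (Set.finite_Iic (T.e s))).subset fun t ht => ?_
  by_cases h : t = s
  · simp [h]
  · exact (anc.e_lt ht h).le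

variable [WellFoundedLT K]

lemma exists_par (T : Tr K) (s : K) : ∃ p, s ≠ T.top → T.anc s p ∧ p ≠ s ∧
    ∀ t, T.anc s t → t ≠ s → T.anc p t := by
  by_cases h : s = T.top
  · exact ⟨s, fun h' => absurd h h'⟩
  · have hne : {t | T.anc s t ∧ t ≠ s}.Nonempty := ⟨T.top, T.anc_top s, Ne.symm h⟩
    have h1 := wellFounded_lt.min_mem _ hne
    exact ⟨wellFounded_lt.min _ hne, fun _ => ⟨h1.1, h1.2, fun t ht hts =>
      h1.1.of_le ht (not_lt.1 (wellFounded_lt.not_lt_min {t | T.anc s t ∧ t ≠ s} ⟨ht, hts⟩))⟩⟩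

noncomputable def par (T : Tr K) (s : K) : K := (T.exists_par s).choose

lemma par_anc {s : K} (h : s ≠ T.top) : T.anc s (T.par s) := ((T.exists_par s).choose_spec h).1
lemma par_ne {s : K} (h : s ≠ T.top) : T.par s ≠ s := ((T.exists_par s).choose_spec h).2.1
lemma anc.par {s t : K} (h : T.anc s t) (hts : t ≠ s) : T.anc (T.par s) t :=
  ((T.exists_par s).choose_spec (by rintro rfl; exact hts h.top_eq)).2.2 t h hts

/-- `c` is a child of `r` -/
def ch (T : Tr K) (c r : K) : Prop := c ≠ T.top ∧ T.par c = r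

lemma ch.anc {c r : K} (h : T.ch c r) : T.anc c r := h.2 ▸ par_anc h.1
lemma ch.ne {c r : K} (h : T.ch c r) : r ≠ c := h.2 ▸ par_ne h.1
lemma ch.lt {c r : K} (h : T.ch c r) : c < r := lt_of_le_of_ne h.anc.1 h.ne.symm
lemma ch.up {c r t : K} (h : T.ch c r) (h2 : T.anc c t) (h3 : t ≠ c) : T.anc r t :=
  h.2 ▸ h2.par h3

lemma ch.uniq {c c' r t : K} (h : T.ch c r) (h' : T.ch c' r) (h1 : T.anc t c) (h2 : T.anc t c') :
    c = c' := by
  by_contra hne
  rcases le_total c c' with hl | hl
  · exact absurd (h.up (h1.of_le h2 hl) (Ne.symm hne)).1 (not_le.2 h'.lt)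
  · exact absurd (h'.up (h2.of_le h1 hl) hne).1 (not_le.2 h.lt)

lemma exists_ch {s : K} : ∀ (t : K), T.anc t s → t ≠ s → ∃ c, T.ch c s ∧ T.anc t c := by
  intro t
  induction' hn : T.e t using Nat.strong_induction_on with n ih generalizing t
  intro h1 h2
  have ht : t ≠ T.top := by rintro rfl; exact h2 h1.top_eq.symm
  by_cases h : T.par t = s
  · exact ⟨t, ⟨ht, h⟩, T.anc_refl t⟩
  · obtain ⟨c, hc1, hc2⟩ := ih _ (hn ▸ (par_anc ht).e_lt (par_ne ht)) (T.par t) rfl
      (h1.par (Ne.symm h2)) h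
    exact ⟨c, hc1, (par_anc ht).trans hc2⟩

/-- energy of the children of `r` is at most `k` -/
def Ch (T : Tr K) (w : K → ℝ) (r : K) (k : ℝ) : Prop :=
  ∀ F : Finset K, (∀ c ∈ F, T.ch c r) → ∑ c ∈ F, w c ^ 2 ≤ k

structure Adm (T : Tr K) (s : K) (k : ℝ) (w : K → ℝ) : Prop where
  nn : ∀ t, 0 ≤ w t
  supp : ∀ t, w t ≠ 0 → T.anc t s ∧ t ≠ s
  root : T.Ch w s k
  node : ∀ r, r ≠ s → T.Ch w r (w r ^ 2)

lemma Adm.k_nn {s : K} {k : ℝ} {w : K → ℝ} (h : T.Adm s k w) : 0 ≤ k := by
  simpa using h.root ∅ (by simp)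

lemma adm_zero (s : K) {k : ℝ} (hk : 0 ≤ k) : T.Adm s k 0 :=
  ⟨fun _ => le_rfl, fun _ h => absurd rfl h, fun _ _ => by simpa using hk, fun _ _ _ _ => by simp⟩

lemma Adm.sq_le {s : K} {k : ℝ} {w : K → ℝ} (h : T.Adm s k w) (t : K) : w t ^ 2 ≤ k := by
  induction' hn : T.e t using Nat.strong_induction_on with n ih generalizing t
  by_cases h0 : w t = 0
  · rw [h0]; simpa using h.k_nn
  obtain ⟨h1, h2⟩ := h.supp t h0
  have ht : t ≠ T.top := by rintro rfl; exact h2 h1.top_eq.symm
  by_cases hp : T.par t = s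
  · simpa using h.root {t} (by simpa using ⟨ht, hp⟩)
  · have := h.node _ hp {t} (by simpa using ⟨ht, rfl⟩)
    rw [sum_singleton] at this
    exact this.trans (ih _ (hn ▸ (par_anc ht).e_lt (par_ne ht)) (T.par t) rfl)

lemma Adm.smul {s : K} {k : ℝ} {w : K → ℝ} (h : T.Adm s k w) {x : ℝ} (hx : 0 ≤ x) :
    T.Adm s (x ^ 2 * k) (fun t => x * w t) :=
  ⟨fun t => mul_nonneg hx (h.nn t), fun t ht => h.supp t (right_ne_zero_of_mul ht),
    fun F hF => by
      simp only [mul_pow, ← mul_sum]; exact mul_le_mul_of_nonneg_left (h.root F hF) (sq_nonneg x),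
    fun r hr F hF => by
      simp only [mul_pow, ← mul_sum]
      exact mul_le_mul_of_nonneg_left (h.node r hr F hF) (sq_nonneg x)⟩

lemma Adm.add {s : K} {k k' : ℝ} {w w' : K → ℝ} (h : T.Adm s k w) (h' : T.Adm s k' w')
    (hd : ∀ t, w t * w' t = 0) : T.Adm s (k + k') (fun t => w t + w' t) := by
  have e : ∀ t, (w t + w' t) ^ 2 = w t ^ 2 + w' t ^ 2 := fun t => by linear_combination 2 * hd t
  refine ⟨fun t => add_nonneg (h.nn t) (h'.nn t), fun t ht => ?_, fun F hF => ?_,
    fun r hr F hF => ?_⟩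
  · by_cases h0 : w t = 0
    · exact h'.supp t (by simpa [h0] using ht)
    · exact h.supp t h0
  · simp only [e, sum_add_distrib]; exact add_le_add (h.root F hF) (h'.root F hF)
  · simp only [e, sum_add_distrib]; exact add_le_add (h.node r hr F hF) (h'.node r hr F hF)

lemma Adm.filter {s : K} {k : ℝ} {w : K → ℝ} (h : T.Adm s k w) (p : K → Prop) [DecidablePred p]
    (hp : ∀ c r, T.ch c r → r ≠ s → p c → p r) : T.Adm s k (fun t => if p t then w t else 0) := by
  have e : ∀ t, (if p t then w t else 0) ^ 2 ≤ w t ^ 2 := fun t => by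
    split_ifs
    · exact le_rfl
    · simpa using sq_nonneg _
  refine ⟨fun t => by split_ifs; exacts [h.nn t, le_rfl], fun t ht => h.supp t (by
    intro h0; simp [h0] at ht), fun F hF => (sum_le_sum fun t _ => e t).trans (h.root F hF),
    fun r hr F hF => ?_⟩
  by_cases hpr : p r
  · rw [if_pos hpr]; exact (sum_le_sum fun t _ => e t).trans (h.node r hr F hF)
  · rw [if_neg hpr, sum_eq_zero fun c hc => by
      rw [if_neg fun hc' => hpr (hp c r (hF c hc) hr hc')]; simp]
    simp

open Classical in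
lemma Adm.down {s c : K} {k : ℝ} {w : K → ℝ} (h : T.Adm s k w) (hc : T.ch c s) :
    T.Adm c (w c ^ 2) (fun t => if T.anc t c ∧ t ≠ c then w t else 0) := by
  have e : ∀ t, (if T.anc t c ∧ t ≠ c then w t else 0) ^ 2 ≤ w t ^ 2 := fun t => by
    split_ifs
    · exact le_rfl
    · simpa using sq_nonneg _
  refine ⟨fun t => by split_ifs; exacts [h.nn t, le_rfl], fun t ht => by
    by_contra h0; exact ht (if_neg h0),
    fun F hF => (sum_le_sum fun t _ => e t).trans (h.node c hc.ne.symm F hF), fun r hr F hF => ?_⟩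
  by_cases hpr : T.anc r c
  · rw [if_pos ⟨hpr, hr⟩]
    exact (sum_le_sum fun t _ => e t).trans (h.node r (hpr.1.trans_lt hc.lt).ne F hF)
  · rw [if_neg fun h => hpr h.1, sum_eq_zero fun d hd => by
      rw [if_neg fun hd' => hpr ((hF d hd).up hd'.1 hd'.2.symm)]; simp]
    simp

lemma Adm.up {s c : K} {w : K → ℝ} (h : T.Adm c 1 w) (hc : T.ch c s) :
    T.Adm s 1 (fun t => if t = c then 1 else w t) := by
  have z : ∀ d r, T.ch d r → ¬ T.anc r c → w d = 0 := fun d r hd hr => by
    by_contra h0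
    exact hr (hd.up (h.supp d h0).1 (h.supp d h0).2.symm)
  refine ⟨fun t => by split_ifs; exacts [zero_le_one, h.nn t], fun t ht => ?_, fun F hF => ?_,
    fun r hr F hF => ?_⟩
  · by_cases h0 : t = c
    · subst h0; exact ⟨hc.anc, hc.ne.symm⟩
    · rw [if_neg h0] at ht
      exact ⟨(h.supp t ht).1.trans hc.anc, ((h.supp t ht).1.1.trans_lt hc.lt).ne⟩
  · rw [sum_congr rfl (g := fun t => if t = c then 1 else 0) fun d hd => by
      split_ifs
      · simp
      · rw [z d s (hF d hd) fun h => absurd h.1 (not_le.2 hc.lt)]; simp]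
    rw [sum_ite_eq']
    split_ifs <;> simp
  · rw [sum_congr rfl (g := fun t => w t ^ 2) fun d hd => by
      rw [if_neg]; rintro rfl; exact hr ((hF d hd).2.symm.trans hc.2)]
    split_ifs with h0
    · subst h0; simpa using h.root F hF
    · exact h.node r h0 F hF

/-- pairing -/
noncomputable def pr (a : K →₀ ℝ) (w : K → ℝ) : ℝ := Finsupp.linearCombination ℝ w a

omit [LinearOrder K] [WellFoundedLT K] in
lemma pr_eq (a : K →₀ ℝ) (w : K → ℝ) : pr a w = ∑ t ∈ a.support, a t * w t := by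
  simp [pr, Finsupp.linearCombination_apply, Finsupp.sum]

omit [LinearOrder K] [WellFoundedLT K] in
lemma pr_add (a : K →₀ ℝ) (w w' : K → ℝ) : pr a (fun t => w t + w' t) = pr a w + pr a w' := by
  simp [pr_eq, mul_add, sum_add_distrib]

omit [LinearOrder K] [WellFoundedLT K] in
lemma pr_smul (a : K →₀ ℝ) (w : K → ℝ) (x : ℝ) : pr a (fun t => x * w t) = x * pr a w := by
  simp only [pr_eq, mul_sum]; exact sum_congr rfl fun _ _ => by ring

omit [WellFoundedLT K] in
lemma pr_one (a : K →₀ ℝ) (c : K) (x : ℝ) : pr a (fun t => if t = c then x else 0) = a c * x := by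
  simp only [pr_eq, mul_ite, mul_zero, sum_ite_eq']
  split_ifs with h
  · rfl
  · rw [Finsupp.notMem_support_iff.1 h, zero_mul]

omit [LinearOrder K] [WellFoundedLT K] in
lemma pr_zero (a : K →₀ ℝ) (w : K → ℝ) (h : ∀ t, a t ≠ 0 → w t = 0) : pr a w = 0 := by
  rw [pr_eq]; exact sum_eq_zero fun t ht => by rw [h t (Finsupp.mem_support_iff.1 ht), mul_zero]

def G (T : Tr K) (s : K) (a : K →₀ ℝ) (C : ℝ) : Prop := ∀ w, T.Adm s 1 w → |pr a w| ≤ C

lemma G.scale {s : K} {a : K →₀ ℝ} {C ρ : ℝ} (h : T.G s a C) (hρ : 0 < ρ) {k : ℝ} (hk : k ≤ ρ ^ 2)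
    {w : K → ℝ} (hw : T.Adm s k w) : |pr a w| ≤ ρ * C := by
  have h1 := hw.smul (inv_nonneg.2 hρ.le)
  have h2 : T.Adm s 1 fun t => ρ⁻¹ * w t := ⟨h1.nn, h1.supp, fun F hF => (h1.root F hF).trans (by
    rw [inv_pow, inv_mul_le_iff₀ (by positivity)]; simpa using hk), h1.node⟩
  have h3 := h _ h2
  rwa [pr_smul, abs_mul, abs_of_pos (inv_pos.2 hρ), inv_mul_le_iff₀ hρ] at h3

lemma G.child {s c : K} {a : K →₀ ℝ} {C : ℝ} (h : T.G s a C) (hc : T.ch c s) :
    |a c| ≤ C ∧ T.G c a (2 * C) := by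
  have h1 : |a c| ≤ C := by
    have := h _ ((adm_zero c zero_le_one).up hc)
    simp only [Pi.zero_apply] at this
    rwa [pr_one, mul_one] at this
  refine ⟨h1, fun w hw => ?_⟩
  have h2 := h _ (hw.up hc)
  have e : (fun t => if t = c then 1 else w t) = fun t => (if t = c then 1 else 0) + w t := by
    funext t
    split_ifs with h0
    · have : w t = 0 := by by_contra h3; exact (hw.supp t h3).2 h0
      rw [this, add_zero]
    · rw [zero_add]
  rw [e, pr_add, pr_one, mul_one] at h2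
  rw [abs_le] at h1 h2 ⊢
  constructor <;> linarith [h1.1, h1.2, h2.1, h2.2]

open Classical in
lemma small (s : K) (a : K →₀ ℝ) {η ρ k : ℝ} (hρ : 0 < ρ) (hk : k ≤ ρ ^ 2) (D : Finset K)
    (hD : ∀ c ∈ D, T.ch c s ∧ |a c| ≤ η ∧ T.G c a η) : ∀ w, T.Adm s k w →
    |pr a (fun t => if ∃ c ∈ D, T.anc t c then w t else 0)| ≤ D.card * (2 * ρ * η) := by
  induction D using Finset.induction_on with
  | empty => intro w _; rw [pr_zero _ _ (by simp)]; simp
  | insert c D hc ih =>
    intro w hw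
    obtain ⟨c1, c2, c3⟩ := hD c (mem_insert_self _ _)
    have h1 := ih (fun d hd => hD d (mem_insert_of_mem hd)) _
      (hw.filter (fun t => ¬ T.anc t c) fun d r hd _ h1 h2 => h1 (hd.anc.trans h2))
    have h2 := c3.scale hρ ((hw.sq_le c).trans hk) (hw.down c1)
    have h3 : |a c * w c| ≤ η * ρ := by
      rw [abs_mul]
      exact mul_le_mul c2 (abs_le_of_sq_le_sq' ((hw.sq_le c).trans hk) hρ.le |> abs_le.2)
        (abs_nonneg _) ((abs_nonneg _).trans c2)
    have e : (fun t => if ∃ d ∈ insert c D, T.anc t d then w t else 0) = fun t =>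
        ((if t = c then w c else 0) + (if T.anc t c ∧ t ≠ c then w t else 0)) +
        (if ∃ d ∈ D, T.anc t d then (if ¬ T.anc t c then w t else 0) else 0) := by
      funext t
      by_cases h4 : t = c
      · subst h4; simp [T.anc_refl t]
      · by_cases h5 : T.anc t c <;> simp [h4, h5]
    rw [e, pr_add, pr_add, pr_one, card_insert_of_notMem hc]
    push_cast
    rw [abs_le] at h1 h2 h3 ⊢
    constructor <;> linarith [h1.1, h1.2, h2.1, h2.2, h3.1, h3.2]

lemma summ_small (b : ℕ → ℝ) {C : ℝ}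
    (h : ∀ (F : Finset ℕ) (ε : ℕ → ℝ), (∀ i, |ε i| ≤ 1) → |∑ i ∈ F, ε i * b i| ≤ C) {η : ℝ}
    (hη : 0 < η) : ∀ᶠ i in atTop, |b i| ≤ η := by
  have : Summable fun i => |b i| := summable_of_sum_le (c := C) (fun _ => abs_nonneg _) fun F => by
    have := h F (fun i => SignType.sign (b i)) fun i => by
      rcases (SignType.sign (b i)) with _ | _ | _ <;> simp
    simp only [sign_mul_self] at this
    exact (le_abs_self _).trans this
  exact this.tendsto_atTop_zero.eventually (eventually_le_nhds hη)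

open Classical in
theorem noC0 (s : K) : ∀ (a : ℕ → K →₀ ℝ) (C : ℝ),
    (∀ (F : Finset ℕ) (ε : ℕ → ℝ), (∀ i, |ε i| ≤ 1) → T.G s (∑ i ∈ F, ε i • a i) C) →
    ∀ δ > 0, ∀ᶠ i in atTop, T.G s (a i) δ := by
  induction s using WellFoundedLT.induction with
  | ind s ih =>
  intro a C h δ hδ
  by_contra hc
  rw [not_eventually] at hc
  have ev : ∀ η > 0, ∀ c, T.ch c s → ∀ᶠ i in atTop, |a i c| ≤ η ∧ T.G c (a i) η := by
    intro η hη c hcs
    refine (summ_small (fun i => a i c) (C := C) (fun F ε hε => ?_) hη).and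
      (ih c hcs.lt a (2 * C) (fun F ε hε => ((h F ε hε).child hcs).2) η hη)
    have := ((h F ε hε).child hcs).1
    simpa [Finsupp.finsetSum_apply] using this
  have key : ∀ k : ℕ, ∃ (F : Finset ℕ) (ε : ℕ → ℝ) (v : K → ℝ) (D : Finset K),
      (∀ i, |ε i| ≤ 1) ∧ T.Adm s k v ∧ (∀ c ∈ D, T.ch c s) ∧
      (∀ t, v t ≠ 0 → ∃ c ∈ D, T.anc t c) ∧
      (∀ i ∈ F, ∀ t, a i t ≠ 0 → T.anc t s → t ≠ s → ∃ c ∈ D, T.anc t c) ∧
      k * (δ / 2) ≤ pr (∑ i ∈ F, ε i • a i) v := by
    intro k
    induction k with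
    | zero => exact ⟨∅, 0, 0, ∅, by simp, adm_zero s (by simp), by simp, by simp, by simp,
        by simp [pr]⟩
    | succ k ihk =>
      obtain ⟨F, ε, v, D, h1, h2, h3, h4, h5, h6⟩ := ihk
      set ρ : ℝ := k + 1 with hρ
      have k0 : (0 : ℝ) ≤ k := Nat.cast_nonneg k
      have ρ0 : 0 < ρ := by positivity
      set η := δ / (8 * ρ * (D.card + 1)) with hη
      have η0 : 0 < η := by positivity
      have η1 : D.card * (2 * ρ * η) ≤ δ / 4 := by
        have : (D.card + 1) * (2 * ρ * η) = δ / 4 := by rw [hη]; field_simp; norm_num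
        have : 0 ≤ 2 * ρ * η := by positivity
        linarith
      have e1 : ∀ᶠ i in atTop, ∀ c ∈ D, |a i c| ≤ η ∧ T.G c (a i) η :=
        (eventually_all_finset D).2 fun c hc => ev η η0 c (h3 c hc)
      have e2 : ∀ᶠ i in atTop, i ∉ F := by
        rw [← Nat.cofinite_eq_atTop]; exact F.finite_toSet.compl_mem_cofinite
      obtain ⟨i, hi1, hi2, hi3⟩ := (hc.and_eventually (e1.and e2)).exists
      obtain ⟨w, hw, hw2⟩ : ∃ w, T.Adm s 1 w ∧ δ < |pr (a i) w| := by
        by_contra h7
        push Not at h7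
        exact hi1 h7
      have : ∀ t, ∃ c, T.anc t s → t ≠ s → T.ch c s ∧ T.anc t c := fun t => by
        by_cases h7 : T.anc t s ∧ t ≠ s
        · obtain ⟨c, hc⟩ := exists_ch t h7.1 h7.2; exact ⟨c, fun _ _ => hc⟩
        · exact ⟨t, fun h8 h9 => absurd ⟨h8, h9⟩ h7⟩
      choose g hg using this
      set D' := D ∪ ((a i).support.filter fun t => T.anc t s ∧ t ≠ s).image g with hD'
      have d1 : ∀ c ∈ D', T.ch c s := fun c hc => by
        rcases mem_union.1 hc with h7 | h7
        · exact h3 c h7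
        · obtain ⟨t, ht, rfl⟩ := mem_image.1 h7
          exact (hg t (mem_filter.1 ht).2.1 (mem_filter.1 ht).2.2).1
      have d2 : ∀ t, a i t ≠ 0 → T.anc t s → t ≠ s → ∃ c ∈ D', T.anc t c := fun t h7 h8 h9 =>
        ⟨g t, mem_union_right _ (mem_image_of_mem _
          (mem_filter.2 ⟨Finsupp.mem_support_iff.2 h7, h8, h9⟩)), (hg t h8 h9).2⟩
      have d3 : ∀ t, (∃ c ∈ D, T.anc t c) → ∃ c ∈ D', T.anc t c :=
        fun t ⟨c, h7, h8⟩ => ⟨c, mem_union_left _ h7, h8⟩
      set w' : K → ℝ := fun t => if (∃ c ∈ D', T.anc t c) ∧ ¬ ∃ c ∈ D, T.anc t c then w t else 0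
        with hw'
      have w1 : T.Adm s 1 w' := hw.filter
        (fun t => (∃ c ∈ D', T.anc t c) ∧ ¬ ∃ c ∈ D, T.anc t c) fun d r hd hr ⟨⟨c, h7, h8⟩, h9⟩ =>
        ⟨⟨c, h7, hd.up h8 (by rintro rfl; exact hr (hd.2.symm.trans (d1 c h7).2))⟩,
          fun ⟨c', h10, h11⟩ => h9 ⟨c', h10, hd.anc.trans h11⟩⟩
      have w2 : ∀ t, (∃ c ∈ D, T.anc t c) → w' t = 0 := fun t ht => if_neg fun h => h.2 ht
      have w3 : pr (a i) w = pr (a i) (fun t => if ∃ c ∈ D, T.anc t c then w t else 0) +
          pr (a i) w' := by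
        rw [← pr_add, pr_eq, pr_eq]
        refine sum_congr rfl fun t ht => ?_
        congr 1
        by_cases h7 : ∃ c ∈ D, T.anc t c
        · rw [if_pos h7, w2 t h7, add_zero]
        · rw [if_neg h7, zero_add]
          by_cases h8 : w t = 0
          · simp [hw', h8]
          · exact (if_pos ⟨d2 t (Finsupp.mem_support_iff.1 ht) (hw.supp t h8).1 (hw.supp t h8).2,
              h7⟩).symm
      have hD : ∀ c ∈ D, T.ch c s ∧ |a i c| ≤ η ∧ T.G c (a i) η := fun c hc => ⟨h3 c hc, hi2 c hc⟩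
      have s1 := small s (a i) ρ0 (show (1 : ℝ) ≤ ρ ^ 2 by nlinarith) D hD w hw
      have s2 := small s (a i) ρ0 (show (k : ℝ) ≤ ρ ^ 2 by nlinarith) D hD v h2
      have e3 : (fun t => if ∃ c ∈ D, T.anc t c then v t else 0) = v := by
        funext t
        split_ifs with h7
        · rfl
        · by_contra h8; exact h7 (h4 t (Ne.symm h8))
      rw [e3] at s2
      set σ : ℝ := if 0 ≤ pr (a i) w' then 1 else -1 with hσ
      have σ1 : |σ| = 1 := by rw [hσ]; split_ifs <;> simp
      have σ2 : σ * pr (a i) w' = |pr (a i) w'| := by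
        rw [hσ]; split_ifs with h7
        · rw [one_mul, abs_of_nonneg h7]
        · rw [abs_of_neg (not_le.1 h7)]; ring
      refine ⟨insert i F, Function.update ε i σ, fun t => v t + w' t, D', fun j => ?_, ?_, d1,
        fun t ht => ?_, fun j hj t h7 h8 h9 => ?_, ?_⟩
      · by_cases hj : j = i
        · subst hj; simp [σ1]
        · simp [Function.update_of_ne hj, h1]
      · push_cast
        refine h2.add w1 fun t => ?_
        by_cases h7 : v t = 0
        · simp [h7]
        · rw [w2 t (h4 t h7), mul_zero]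
      · by_cases h7 : v t = 0
        · by_contra h8
          exact ht (by beta_reduce; rw [h7, zero_add]; exact if_neg fun h => h8 h.1)
        · exact d3 t (h4 t h7)
      · rcases mem_insert.1 hj with rfl | hj
        · exact d2 t h7 h8 h9
        · exact d3 t (h5 j hj t h7 h8 h9)
      · rw [sum_insert hi3, Function.update_self, sum_congr rfl (g := fun j => ε j • a j)
          (fun j hj => by rw [Function.update_of_ne (by rintro rfl; exact hi3 hj)]), pr_add]
        have z : pr (∑ j ∈ F, ε j • a j) w' = 0 := pr_zero _ _ fun t ht => by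
          by_contra h7
          obtain ⟨j, hj, h8⟩ : ∃ j ∈ F, a j t ≠ 0 := by
            by_contra h8
            push Not at h8
            refine ht ?_
            rw [Finsupp.finsetSum_apply]
            exact sum_eq_zero fun j hj => by simp [h8 j hj]
          exact h7 (w2 t (h5 j hj t h8 (w1.supp t h7).1 (w1.supp t h7).2))
        have lin : ∀ (b : K →₀ ℝ) u, pr (σ • a i + b) u = σ * pr (a i) u + pr b u := by
          intro b u; simp [pr]
        rw [lin, lin, z, σ2]
        have s3 : |σ * pr (a i) v| ≤ δ / 4 := by rw [abs_mul, σ1, one_mul]; linarith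
        have s4 := abs_add_le (pr (a i) (fun t => if ∃ c ∈ D, T.anc t c then w t else 0))
          (pr (a i) w')
        rw [← w3] at s4
        push_cast
        linarith [(abs_le.1 s3).1]
  obtain ⟨m, hm⟩ := exists_nat_gt (max 0 (C / (δ / 2)))
  have m0 : (0 : ℝ) < m := (le_max_left _ _).trans_lt hm
  have m1 : C < m * (δ / 2) := by
    rw [← div_lt_iff₀ (by positivity)]; exact (le_max_right _ _).trans_lt hm
  obtain ⟨F, ε, v, D, h1, h2, -, -, -, h6⟩ := key (m ^ 2)
  have := (le_abs_self _).trans ((h F ε h1).scale m0 (by push_cast; exact le_rfl) h2)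
  push_cast at h6
  nlinarith

/-- the full weight -/
noncomputable def hat (T : Tr K) (w : K → ℝ) (t : K) : ℝ := if t = T.top then 1 else w t

lemma Adm.hat_nn {w : K → ℝ} (h : T.Adm T.top 1 w) (t : K) : 0 ≤ T.hat w t := by
  unfold hat; split_ifs; exacts [zero_le_one, h.nn t]

lemma Adm.hat_le {w : K → ℝ} (h : T.Adm T.top 1 w) (t : K) : T.hat w t ≤ 1 := by
  unfold hat; split_ifs
  · exact le_rfl
  · nlinarith [h.sq_le t, h.nn t]

lemma Adm.hat_ch {w : K → ℝ} (h : T.Adm T.top 1 w) (r : K) :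
    T.Ch (T.hat w) r (T.hat w r ^ 2) := by
  intro F hF
  rw [sum_congr rfl (g := fun t => w t ^ 2) fun d hd => by rw [hat, if_neg (hF d hd).1]]
  unfold hat; split_ifs with h0
  · subst h0; simpa using h.root F hF
  · exact h.node r h0 F hF

lemma Adm.pr_hat {w : K → ℝ} (h : T.Adm T.top 1 w) (a : K →₀ ℝ) :
    pr a (T.hat w) = a T.top + pr a w := by
  have e : T.hat w = fun t => (if t = T.top then 1 else 0) + w t := by
    funext t
    unfold hat
    split_ifs with h0
    · have : w t = 0 := by by_contra h3; exact (h.supp t h3).2 h0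
      rw [this, add_zero]
    · rw [zero_add]
  rw [e, pr_add, pr_one, mul_one]

open Classical in
/-- indicator of the ancestors of `s` -/
noncomputable def ind (T : Tr K) (s t : K) : ℝ := if T.anc s t then 1 else 0

open Classical in
lemma adm_pt (s : K) : T.Adm T.top 1 (fun t => if t = T.top then 0 else T.ind s t) ∧
    T.hat (fun t => if t = T.top then 0 else T.ind s t) = T.ind s := by
  have key : ∀ r, T.Ch (fun t => if t = T.top then 0 else T.ind s t) r (T.ind s r) := by
    intro r F hF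
    rw [sum_congr rfl (g := fun t => if T.anc s t then 1 else 0) fun d hd => by
      beta_reduce
      rw [if_neg (hF d hd).1, ind]; split_ifs <;> simp, sum_boole]
    by_cases h : T.anc s r
    · rw [ind, if_pos h]
      exact_mod_cast card_le_one.2 fun c hc d hd => (hF c (mem_filter.1 hc).1).uniq
        (hF d (mem_filter.1 hd).1) (mem_filter.1 hc).2 (mem_filter.1 hd).2
    · rw [ind, if_neg h, filter_false_of_mem fun c hc h2 => h (h2.trans (hF c hc).anc)]
      simp
  refine ⟨⟨fun t => ?_, fun t ht => ⟨T.anc_top t, fun h => ht (if_pos h)⟩, ?_, fun r hr => ?_⟩, ?_⟩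
  · unfold ind; split_ifs <;> simp
  · have := key T.top
    rwa [ind, if_pos (T.anc_top s)] at this
  · have : (if r = T.top then 0 else T.ind s r) ^ 2 = T.ind s r := by
      rw [if_neg hr, ind]; split_ifs <;> simp
    rw [this]; exact key r
  · funext t
    unfold hat
    split_ifs with h
    · rw [h, ind, if_pos (T.anc_top s)]
    · exact if_neg h

open Classical in
lemma diag_le (a : K →₀ ℝ) {C : ℝ} (h : ∀ s, |pr a (T.ind s)| ≤ C) {w w' : K → ℝ}
    (hw : T.Adm T.top 1 w) (hw' : T.Adm T.top 1 w') :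
    |pr a (fun t => T.hat w t * T.hat w' t)| ≤ C := by
  set m : K → ℝ := fun t => T.hat w t * T.hat w' t with hm
  have m1 : ∀ r (F : Finset K), (∀ c ∈ F, T.ch c r) → ∑ c ∈ F, m c ≤ m r := fun r F hF => by
    have h1 := sum_mul_sq_le_sq_mul_sq F (T.hat w) (T.hat w')
    have h2 := mul_le_mul (hw.hat_ch r F hF) (hw'.hat_ch r F hF)
      (sum_nonneg fun _ _ => sq_nonneg _) (sq_nonneg _)
    rw [← mul_pow] at h2
    exact (abs_le_of_sq_le_sq' (h1.trans h2) (mul_nonneg (hw.hat_nn r) (hw'.hat_nn r))).2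
  set f : K → ℝ := fun s => pr a (T.ind s) with hf
  have f1 : f T.top = a T.top := by
    have : T.ind T.top = fun t => if t = T.top then 1 else 0 := by
      funext t; unfold ind
      exact if_congr ⟨fun h => h.top_eq, fun h => h ▸ T.anc_refl _⟩ rfl rfl
    simp only [hf]; rw [this, pr_one, mul_one]
  have f2 : ∀ s, s ≠ T.top → f s = a s + f (T.par s) := fun s hs => by
    have : T.ind s = fun t => (if t = s then 1 else 0) + T.ind (T.par s) t := by
      funext t; unfold ind
      by_cases h1 : t = s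
      · subst h1
        rw [if_pos (T.anc_refl t), if_pos rfl, if_neg fun h =>
          par_ne hs (le_antisymm h.1 (par_anc hs).1), add_zero]
      · rw [if_neg h1, zero_add]
        exact if_congr ⟨fun h => h.par h1, fun h => (par_anc hs).trans h⟩ rfl rfl
    simp only [hf]; rw [this, pr_add, pr_one, mul_one]
  set S := insert T.top (a.support.biUnion fun s => (anc_fin (T := T) s).toFinset) with hS
  have S1 : ∀ t ∈ S.erase T.top, T.par t ∈ S := fun t ht => by
    obtain ⟨h1, h2⟩ := mem_erase.1 ht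
    obtain ⟨s, h3, h4⟩ := mem_biUnion.1 ((mem_insert.1 h2).resolve_left h1)
    exact mem_insert_of_mem (mem_biUnion.2 ⟨s, h3, by
      simpa using anc.trans (by simpa using h4) (par_anc h1)⟩)
  have S2 : T.top ∈ S := mem_insert_self _ _
  set l : K → ℝ := fun r => m r - ∑ c ∈ (S.erase T.top).filter (fun c => T.par c = r), m c with hl
  have l0 : ∀ r, 0 ≤ l r := fun r => sub_nonneg.2 (m1 r _ fun c hc =>
    ⟨(mem_erase.1 (mem_filter.1 hc).1).1, (mem_filter.1 hc).2⟩)
  have l1 : ∀ g : K → ℝ, ∑ r ∈ S, g r * l r =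
      g T.top * m T.top + ∑ t ∈ S.erase T.top, (g t - g (T.par t)) * m t := fun g => by
    have h1 := sum_fiberwise_of_maps_to S1 (fun t => g (T.par t) * m t)
    have h2 := add_sum_erase S (fun t => g t * m t) S2
    have h3 : ∀ r ∈ S, g r * l r = g r * m r -
        ∑ c ∈ (S.erase T.top).filter (fun c => T.par c = r), g (T.par c) * m c := fun r _ => by
      rw [hl, mul_sub, mul_sum]
      congr 1
      exact sum_congr rfl fun c hc => by rw [(mem_filter.1 hc).2]
    rw [sum_congr rfl h3, sum_sub_distrib, h1, ← h2]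
    simp only [sub_mul, sum_sub_distrib]
    ring
  have l2 : ∑ r ∈ S, l r = 1 := by simpa [hm, hat] using l1 fun _ => 1
  have l3 : pr a m = ∑ r ∈ S, f r * l r := by
    rw [l1, f1, sum_congr rfl (g := fun t => a t * m t) fun t ht => by
      rw [f2 t (mem_erase.1 ht).1, add_sub_cancel_right], add_sum_erase S (fun t => a t * m t) S2,
      pr_eq]
    refine sum_subset (fun t ht => mem_insert_of_mem (mem_biUnion.2 ⟨t, ht, by
      simpa using T.anc_refl t⟩)) fun t _ ht => by rw [Finsupp.notMem_support_iff.1 ht, zero_mul]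
  rw [l3]
  refine (abs_sum_le_sum_abs _ _).trans ((sum_le_sum (g := fun r => C * l r) fun r _ => ?_).trans ?_)
  · rw [abs_mul, abs_of_nonneg (l0 r)]; exact mul_le_mul_of_nonneg_right (h r) (l0 r)
  · rw [← mul_sum, l2, mul_one]

end Tr

end Pool.Agent.H87.InjT
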