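import Mathlib

namespace Pool.Agent.H87.InjT

section
variable {X Y : Type*} [NormedAddCommGroup X] [NormedSpace ℝ X]
  [NormedAddCommGroup Y] [NormedSpace ℝ Y]

/-- the elementary tensor `x ⊗ y`, as the operator `f ↦ f x • y` from `X*` to `Y` -/
noncomputable def elemTensor (x : X) (y : Y) : StrongDual ℝ X →L[ℝ] Y :=
  (ContinuousLinearMap.apply ℝ ℝ x).smulRight y

/-- the injective tensor product: the closed linear span of the elementary tensors in the
space of bounded operators from `X*` to `Y` with the operator norm -/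
noncomputable def injTensor (X Y : Type*) [NormedAddCommGroup X] [NormedSpace ℝ X]
    [NormedAddCommGroup Y] [NormedSpace ℝ Y] :
    Submodule ℝ (StrongDual ℝ X →L[ℝ] Y) :=
  sInf {S | IsClosed (S : Set (StrongDual ℝ X →L[ℝ] Y)) ∧ ∀ (x : X) (y : Y), elemTensor x y ∈ S}

/-- the injective tensor product as a type, normed by the operator norm -/
def InjTensor (X Y : Type*) [NormedAddCommGroup X] [NormedSpace ℝ X]
    [NormedAddCommGroup Y] [NormedSpace ℝ Y] : Type _ := injTensor X Y

set_option maxSynthPendingDepth 3 in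
noncomputable instance : NormedAddCommGroup (InjTensor X Y) :=
  Submodule.normedAddCommGroup (injTensor X Y)

set_option maxSynthPendingDepth 3 in
noncomputable instance : NormedSpace ℝ (InjTensor X Y) :=
  Submodule.normedSpace (injTensor X Y)

/-- `X` is isomorphic to a subspace of `Y` -/
def Embeds (X Y : Type*) [NormedAddCommGroup X] [NormedSpace ℝ X]
    [NormedAddCommGroup Y] [NormedSpace ℝ Y] : Prop :=
  ∃ (J : X →L[ℝ] Y) (c : ℝ), 0 < c ∧ ∀ x, c * ‖x‖ ≤ ‖J x‖

/-- `X` is isomorphic to a complemented subspace of `Y` -/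
def EmbedsCompl (X Y : Type*) [NormedAddCommGroup X] [NormedSpace ℝ X]
    [NormedAddCommGroup Y] [NormedSpace ℝ Y] : Prop :=
  ∃ (J : X →L[ℝ] Y) (c : ℝ), 0 < c ∧ (∀ x, c * ‖x‖ ≤ ‖J x‖) ∧
    ∃ P : Y →L[ℝ] Y, (∀ y, ∃ x, P y = J x) ∧ ∀ x, P (J x) = J x

end

end Pool.Agent.H87.InjT
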