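import Mathlib
import Pool.Agent.H87.InjT1
import Pool.Agent.H87.InjTDef

namespace Pool.Agent.H87.InjT

open Finset Filter Topology

set_option maxSynthPendingDepth 3

section gen
variable {X : Type*} [NormedAddCommGroup X] [NormedSpace ℝ X]

@[simp] lemma elem_apply {Y : Type*} [NormedAddCommGroup Y] [NormedSpace ℝ Y] (x : X) (y : Y)
    (f : StrongDual ℝ X) : elemTensor x y f = f x • y := rfl

lemma inj_eq (X Y : Type*) [NormedAddCommGroup X] [NormedSpace ℝ X]
    [NormedAddCommGroup Y] [NormedSpace ℝ Y] : injTensor X Y =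
    (Submodule.span ℝ {u | ∃ (x : X) (y : Y), u = elemTensor x y}).topologicalClosure := by
  refine le_antisymm (sInf_le ⟨Submodule.isClosed_topologicalClosure _, fun x y =>
    Submodule.le_topologicalClosure _ (Submodule.subset_span ⟨x, y, rfl⟩)⟩) (le_sInf ?_)
  rintro S ⟨h1, h2⟩
  exact Submodule.topologicalClosure_minimal _
    (Submodule.span_le.2 (by rintro _ ⟨x, y, rfl⟩; exact h2 x y)) h1

lemma diag_norm {ι W : Type*} (ev : W → StrongDual ℝ X)
    (hev : ∀ (x : X) (C : ℝ), 0 ≤ C → (∀ w, |ev w x| ≤ C) → ‖x‖ ≤ C) (F : Finset ι) (a : ι → ℝ)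
    (e : ι → X) {C : ℝ} (hC : 0 ≤ C)
    (h : ∀ w w', |∑ t ∈ F, a t * (ev w (e t) * ev w' (e t))| ≤ C) :
    ‖∑ t ∈ F, a t • elemTensor (e t) (e t)‖ ≤ C := by
  have h1 : ∀ w', ‖∑ t ∈ F, (a t * ev w' (e t)) • e t‖ ≤ C := fun w' => hev _ _ hC fun w => by
    rw [map_sum, sum_congr rfl (g := fun t => a t * (ev w (e t) * ev w' (e t))) fun t _ => by
      rw [map_smul, smul_eq_mul]; ring]
    exact h w w'
  have h2 : ∀ φ : StrongDual ℝ X, ‖∑ t ∈ F, (a t * φ (e t)) • e t‖ ≤ C * ‖φ‖ := fun φ =>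
    hev _ _ (by positivity) fun w => by
      have e1 : ev w (∑ t ∈ F, (a t * φ (e t)) • e t) = φ (∑ t ∈ F, (a t * ev w (e t)) • e t) := by
        rw [map_sum, map_sum]
        exact sum_congr rfl fun t _ => by simp only [map_smul, smul_eq_mul]; ring
      rw [e1, mul_comm]
      exact (φ.le_opNorm _).trans (mul_le_mul_of_nonneg_left (h1 w) (norm_nonneg _))
  refine ContinuousLinearMap.opNorm_le_bound _ hC fun φ => ?_
  have e1 : (∑ t ∈ F, a t • elemTensor (e t) (e t)) φ = ∑ t ∈ F, (a t * φ (e t)) • e t := by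
    rw [_root_.sum_apply]
    exact sum_congr rfl fun t _ => by simp only [smul_apply, elem_apply, smul_smul]
  rw [e1]
  exact h2 φ

/-- no sequence equivalent to the unit vector basis of `c₀` -/
def NoC0 (X : Type*) [NormedAddCommGroup X] [NormedSpace ℝ X] : Prop :=
  ∀ (x : ℕ → X) (C : ℝ), (∀ (F : Finset ℕ) (ε : ℕ → ℝ), (∀ i, |ε i| ≤ 1) →
    ‖∑ i ∈ F, ε i • x i‖ ≤ C) → ∀ δ > 0, ∀ᶠ i in atTop, ‖x i‖ ≤ δ

lemma NoC0.not_embeds (h : NoC0 X) {E : Type*} [NormedAddCommGroup E] [NormedSpace ℝ E]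
    (g : ℕ → E) (h1 : ∀ i, 1 ≤ ‖g i‖) (h2 : ∀ (F : Finset ℕ) (ε : ℕ → ℝ), (∀ i, |ε i| ≤ 1) →
      ‖∑ i ∈ F, ε i • g i‖ ≤ 1) : ¬ Embeds E X := by
  rintro ⟨J, c, hc, hJ⟩
  obtain ⟨i, hi⟩ := (h (fun i => J (g i)) ‖J‖ (fun F ε hε => by
    have := J.le_opNorm (∑ i ∈ F, ε i • g i)
    simp only [map_sum, map_smul] at this
    exact this.trans (mul_le_of_le_one_right (norm_nonneg _) (h2 F ε hε))) (c / 2)
    (by positivity)).exists
  nlinarith [hJ (g i), h1 i]

lemma sum_disj (u : ℕ → ℝ) (h1 : ∀ i, |u i| ≤ 1) (h2 : ∀ i j, u i ≠ 0 → u j ≠ 0 → i = j)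
    (F : Finset ℕ) (ε : ℕ → ℝ) (hε : ∀ i, |ε i| ≤ 1) : |∑ i ∈ F, ε i * u i| ≤ 1 := by
  by_cases h : ∃ i ∈ F, u i ≠ 0
  · obtain ⟨i, hi, hu⟩ := h
    rw [sum_eq_single_of_mem i hi fun j _ hj => by
      rw [show u j = 0 by by_contra h3; exact hj (h2 j i h3 hu), mul_zero], abs_mul]
    exact mul_le_one₀ (hε i) (abs_nonneg _) (h1 i)
  · push Not at h
    rw [sum_eq_zero fun i hi => by rw [h i hi, mul_zero]]; simp

open ZeroAtInfty in
lemma NoC0.not_c0 (h : NoC0 X) : ¬ Embeds C₀(ℕ, ℝ) X := by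
  let g : ℕ → C₀(ℕ, ℝ) := fun i =>
    { toFun := fun n => if n = i then 1 else 0
      continuous_toFun := continuous_of_discreteTopology
      zero_at_infty' := by
        rw [cocompact_eq_cofinite]
        refine tendsto_const_nhds.congr' ?_
        exact (Set.finite_singleton i).eventually_cofinite_notMem.mono fun n hn =>
          (if_neg hn).symm }
  have hg : ∀ i n, g i n = if n = i then 1 else 0 := fun _ _ => rfl
  refine h.not_embeds g (fun i => ?_) fun F ε hε => ?_
  · have := (g i).toBCF.norm_coe_le_norm i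
    rw [ZeroAtInftyContinuousMap.norm_toBCF_eq_norm] at this
    simpa [hg] using this
  · rw [← ZeroAtInftyContinuousMap.norm_toBCF_eq_norm,
      BoundedContinuousFunction.norm_le zero_le_one]
    intro n
    have e : (∑ i ∈ F, ε i • g i) n = ∑ i ∈ F, ε i * g i n := by
      classical
      induction F using Finset.induction_on with
      | empty => simp
      | insert j F hj ih => simp [sum_insert hj, ih]
    show ‖(∑ i ∈ F, ε i • g i) n‖ ≤ 1
    rw [e]
    exact sum_disj (fun i => g i n) (fun i => by rw [hg]; split_ifs <;> simp)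
      (fun i j hi hj => by
        rw [hg] at hi hj
        have h1 : n = i := by by_contra h; exact hi (if_neg h)
        have h2 : n = j := by by_contra h; exact hj (if_neg h)
        exact h1.symm.trans h2) F ε hε

end gen

noncomputable def indC {K : Type*} [TopologicalSpace K] (U : Set K) (hU : IsClopen U) : C(K, ℝ) :=
  ⟨U.indicator 1, hU.continuous_indicator continuous_const⟩

lemma NoC0.not_CK {X : Type*} [NormedAddCommGroup X] [NormedSpace ℝ X] (h : NoC0 X)
    {K : Type*} [LinearOrder K] [TopologicalSpace K] [CompactSpace K]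
    (hK : ∀ t : K, IsClopen (Set.Iic t)) (u : ℕ → K) (hu : StrictMono u) :
    ¬ Embeds C(K, ℝ) X := by
  let g : ℕ → C(K, ℝ) := fun i => indC (Set.Iic (u (i + 1)) \ Set.Iic (u i)) ((hK _).diff (hK _))
  have hg : ∀ i s, g i s = (Set.Iic (u (i + 1)) \ Set.Iic (u i)).indicator 1 s := fun _ _ => rfl
  refine h.not_embeds g (fun i => ?_) fun F ε hε => ?_
  · have := (g i).norm_coe_le_norm (u (i + 1))
    rw [hg, Set.indicator_of_mem (by simpa using hu (Nat.lt_succ_self i))] at this
    simpa using this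
  · rw [ContinuousMap.norm_le _ zero_le_one]
    intro s
    rw [ContinuousMap.coe_sum, Finset.sum_apply]
    refine sum_disj (fun i => g i s) (fun i => ?_) (fun i j hi hj => ?_) F ε hε
    · rw [hg, Set.indicator]; split_ifs <;> simp
    · have h1 := Set.mem_of_indicator_ne_zero hi
      have h2 := Set.mem_of_indicator_ne_zero hj
      simp only [Set.mem_sdiff, Set.mem_Iic, not_le] at h1 h2
      have h3 := hu.lt_iff_lt.1 (h1.2.trans_le h2.1)
      have h4 := hu.lt_iff_lt.1 (h2.2.trans_le h1.1)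
      omega

namespace Tr
variable {K : Type*} [LinearOrder K] [WellFoundedLT K] (T : Tr K)

def W : Type _ := {w : K → ℝ // T.Adm T.top 1 w}
instance : TopologicalSpace T.W := ⊥
instance : DiscreteTopology T.W := ⟨rfl⟩

open BoundedContinuousFunction

noncomputable def eB (t : K) : T.W →ᵇ ℝ :=
  ofNormedAddCommGroupDiscrete (fun w => T.hat w.1 t) 1 fun w => by
    rw [Real.norm_eq_abs, abs_of_nonneg (w.2.hat_nn t)]; exact w.2.hat_le t

noncomputable def XS : Submodule ℝ (T.W →ᵇ ℝ) :=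
  (LinearMap.range (Finsupp.linearCombination ℝ T.eB)).topologicalClosure

def X : Type _ := T.XS
noncomputable instance : NormedAddCommGroup T.X := inferInstanceAs (NormedAddCommGroup T.XS)
noncomputable instance : NormedSpace ℝ T.X := inferInstanceAs (NormedSpace ℝ T.XS)
instance : CompleteSpace T.X :=
  (Submodule.isClosed_topologicalClosure _).completeSpace_coe

noncomputable def eX (t : K) : T.X := ⟨T.eB t, Submodule.le_topologicalClosure _
  ⟨Finsupp.single t 1, by simp⟩⟩

noncomputable def inc : T.X →L[ℝ] (T.W →ᵇ ℝ) := T.XS.subtypeL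
lemma norm_inc (x : T.X) : ‖T.inc x‖ = ‖x‖ := rfl

noncomputable def ev (w : T.W) : StrongDual ℝ T.X := (evalCLM ℝ w).comp T.inc

lemma ev_eX (w : T.W) (t : K) : T.ev w (T.eX t) = T.hat w.1 t := rfl

lemma ev_le (w : T.W) (x : T.X) : |T.ev w x| ≤ ‖x‖ := (T.inc x).norm_coe_le_norm w

lemma ev_norming (x : T.X) (C : ℝ) (hC : 0 ≤ C) (h : ∀ w, |T.ev w x| ≤ C) : ‖x‖ ≤ C :=
  (BoundedContinuousFunction.norm_le (f := T.inc x) hC).2 h

noncomputable def lc : (K →₀ ℝ) →ₗ[ℝ] T.X := Finsupp.linearCombination ℝ T.eX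

lemma ev_lc (w : T.W) (a : K →₀ ℝ) : T.ev w (T.lc a) = pr a (T.hat w.1) := by
  simp [lc, pr_eq, Finsupp.linearCombination_apply, Finsupp.sum, ev_eX]

lemma lc_dense (x : T.X) {η : ℝ} (hη : 0 < η) : ∃ a, ‖x - T.lc a‖ ≤ η := by
  obtain ⟨_, ⟨a, rfl⟩, h⟩ := Metric.mem_closure_iff.1 x.2 η hη
  refine ⟨a, ?_⟩
  have : T.inc (T.lc a) = Finsupp.linearCombination ℝ T.eB a := by
    simp only [lc, Finsupp.linearCombination_apply, Finsupp.sum, map_sum, map_smul]; rfl
  rw [← norm_inc, map_sub, this, ← dist_eq_norm]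
  exact h.le

theorem noC0_X : NoC0 T.X := by
  intro x C h δ hδ
  choose a ha using fun i : ℕ => T.lc_dense (x i) (η := (1 / 2) ^ i) (by positivity)
  have h1 : ∀ (F : Finset ℕ) (ε : ℕ → ℝ), (∀ i, |ε i| ≤ 1) →
      ‖T.lc (∑ i ∈ F, ε i • a i)‖ ≤ C + 2 := fun F ε hε => by
    have e : T.lc (∑ i ∈ F, ε i • a i) =
        ∑ i ∈ F, ε i • x i - ∑ i ∈ F, ε i • (x i - T.lc (a i)) := by
      rw [map_sum, ← sum_sub_distrib]
      exact sum_congr rfl fun i _ => by rw [map_smul, ← smul_sub, sub_sub_cancel]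
    rw [e]
    refine (norm_sub_le _ _).trans (add_le_add (h F ε hε) ((norm_sum_le _ _).trans ?_))
    refine le_trans (sum_le_sum (g := fun i => (1 / 2 : ℝ) ^ i) fun i _ => ?_)
      (sum_le_hasSum F (fun _ _ => by positivity) hasSum_geometric_two)
    rw [norm_smul]
    exact (mul_le_of_le_one_left (norm_nonneg _) (hε i)).trans (ha i)
  have h2 : ∀ b : K →₀ ℝ, |b T.top| ≤ ‖T.lc b‖ := fun b => by
    have := T.ev_le ⟨0, adm_zero _ zero_le_one⟩ (T.lc b)
    rwa [ev_lc, (adm_zero _ zero_le_one).pr_hat, pr_zero _ _ (by simp), add_zero] at this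
  have h3 : ∀ b : K →₀ ℝ, T.G T.top b (2 * ‖T.lc b‖) := fun b w hw => by
    have := T.ev_le ⟨w, hw⟩ (T.lc b)
    rw [ev_lc, hw.pr_hat] at this
    have h4 := h2 b
    rw [abs_le] at this h4 ⊢
    constructor <;> linarith [this.1, this.2, h4.1, h4.2]
  have e1 := noC0 T.top a (2 * (C + 2)) (fun F ε hε w hw =>
    (h3 _ w hw).trans (by linarith [h1 F ε hε])) (δ / 3) (by positivity)
  have e2 := summ_small (fun i => a i T.top) (C := C + 2) (fun F ε hε => by
    have := (h2 _).trans (h1 F ε hε)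
    simpa [Finsupp.finsetSum_apply] using this) (show 0 < δ / 3 by positivity)
  have e3 : ∀ᶠ i : ℕ in atTop, (1 / 2 : ℝ) ^ i ≤ δ / 3 :=
    (tendsto_pow_atTop_nhds_zero_of_lt_one (by norm_num) (by norm_num)).eventually
      (eventually_le_nhds (by positivity))
  filter_upwards [e1, e2, e3] with i h4 h5 h6
  have h7 : ‖T.lc (a i)‖ ≤ 2 * δ / 3 := T.ev_norming _ _ (by positivity) fun w => by
    rw [ev_lc, w.2.pr_hat]
    linarith [abs_add_le (a i T.top) (pr (a i) w.1), h4 w.1 w.2]
  linarith [norm_sub_norm_le (x i) (T.lc (a i)), ha i]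

variable [TopologicalSpace K] (hK : ∀ t : K, IsClopen (Set.Iic t))
include hK

omit [WellFoundedLT K] in
lemma clopen_U (t : K) : IsClopen {s | T.anc s t} := by
  have hf : {r | r < t ∧ T.e r ≤ T.e t}.Finite :=
    (Set.Finite.preimage T.inj.injOn (Set.finite_Iic (T.e t))).subset fun r hr => hr.2
  have : {s | T.anc s t} = Set.Iic t ∩ ⋂ r ∈ {r | r < t ∧ T.e r ≤ T.e t}, (Set.Iic r)ᶜ := by
    ext s
    simp only [anc, Set.mem_ofPred_eq, Set.mem_inter_iff, Set.mem_Iic, Set.mem_iInter,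
      Set.mem_compl_iff]
    exact and_congr_right fun _ => ⟨fun h r hr hs => not_lt.2 hr.2 (h r hs hr.1),
      fun h r h1 h2 => not_le.1 fun h3 => h r ⟨h2, h3⟩ h1⟩
  rw [this]
  exact (hK t).inter (hf.isClopen_biInter fun r _ => (hK r).compl)

noncomputable def chi (t : K) : C(K, ℝ) := indC _ (T.clopen_U hK t)

omit [WellFoundedLT K] in
lemma chi_apply (t s : K) : T.chi hK t s = T.ind s t := by
  show {s | T.anc s t}.indicator 1 s = _
  unfold ind
  by_cases h : T.anc s t
  · rw [if_pos h, Set.indicator_of_mem (show s ∈ {s | T.anc s t} from h)]; rfl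
  · rw [if_neg h, Set.indicator_of_notMem (show s ∉ {s | T.anc s t} from h)]

noncomputable def lcC : (K →₀ ℝ) →ₗ[ℝ] C(K, ℝ) := Finsupp.linearCombination ℝ (T.chi hK)

omit [WellFoundedLT K] in
lemma lcC_apply (a : K →₀ ℝ) (s : K) : T.lcC hK a s = pr a (T.ind s) := by
  simp [lcC, pr_eq, Finsupp.linearCombination_apply, Finsupp.sum, chi_apply]

omit [WellFoundedLT K] in
lemma lcC_dense [CompactSpace K] : DenseRange (T.lcC hK) := by
  let A : Subalgebra ℝ C(K, ℝ) := (Submodule.span ℝ (Set.range (T.chi hK))).toSubalgebra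
    (Submodule.subset_span ⟨T.top, by ext s; simp [chi_apply, ind, T.anc_top]⟩) (by
      intro x y hx hy
      have := Submodule.mul_mem_mul hx hy
      rw [Submodule.span_mul_span] at this
      refine Submodule.span_le.2 ?_ this
      rintro _ ⟨_, ⟨t, rfl⟩, _, ⟨u, rfl⟩, rfl⟩
      by_cases h : ∃ s, T.anc s t ∧ T.anc s u
      · obtain ⟨s, h1, h2⟩ := h
        rcases le_total t u with h3 | h3
        · refine Submodule.subset_span ⟨t, ?_⟩
          ext r
          simp only [ContinuousMap.mul_apply, chi_apply, ind]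
          by_cases h4 : T.anc r t
          · simp [h4, h4.trans (h1.of_le h2 h3)]
          · simp [h4]
        · refine Submodule.subset_span ⟨u, ?_⟩
          ext r
          simp only [ContinuousMap.mul_apply, chi_apply, ind]
          by_cases h4 : T.anc r u
          · simp [h4, h4.trans (h2.of_le h1 h3)]
          · simp [h4]
      · have : T.chi hK t * T.chi hK u = 0 := by
          ext r
          simp only [ContinuousMap.mul_apply, chi_apply, ind, ContinuousMap.zero_apply]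
          split_ifs with h4 h5
          · exact absurd ⟨r, h4, h5⟩ h
          all_goals simp
        show T.chi hK t * T.chi hK u ∈ _
        rw [this]; exact Submodule.zero_mem _)
  have hA := ContinuousMap.subalgebra_topologicalClosure_eq_top_of_separatesPoints A (by
    have key : ∀ s s' : K, s < s' → T.chi hK s s ≠ T.chi hK s s' := fun s s' h => by
      simp [chi_apply, ind, T.anc_refl, show ¬ T.anc s' s from fun h2 => not_le.2 h h2.1]
    intro s s' hne
    rcases lt_or_gt_of_ne hne with h | h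
    · exact ⟨_, ⟨T.chi hK s, Submodule.subset_span ⟨s, rfl⟩, rfl⟩, key s s' h⟩
    · exact ⟨_, ⟨T.chi hK s', Submodule.subset_span ⟨s', rfl⟩, rfl⟩, (key s' s h).symm⟩)
  intro f
  have : f ∈ A.topologicalClosure := hA ▸ Algebra.mem_top
  have h2 : Set.range (T.lcC hK) = (A : Set C(K, ℝ)) := by
    rw [← LinearMap.coe_range, lcC, Finsupp.range_linearCombination]; rfl
  rw [h2]; exact this

omit hK

noncomputable def pt (s : K) : StrongDual ℝ T.X := T.ev ⟨_, (adm_pt s).1⟩

omit [TopologicalSpace K] in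
lemma pt_eX (s t : K) : T.pt s (T.eX t) = T.ind s t := congrFun (adm_pt s).2 t

omit [LinearOrder K] [WellFoundedLT K] in
lemma cont_of_approx (f : K → ℝ) (h : ∀ η > 0, ∃ g : K → ℝ, Continuous g ∧ ∀ s, |f s - g s| ≤ η) :
    Continuous f :=
  continuous_of_uniform_approx_of_continuous fun u hu => by
    obtain ⟨η, hη, h1⟩ := Metric.mem_uniformity_dist.1 hu
    obtain ⟨g, hg, h2⟩ := h (η / 2) (by positivity)
    exact ⟨g, hg, fun s => h1 (by rw [Real.dist_eq]; linarith [h2 s])⟩

include hK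

lemma cont_pt (x : T.X) : Continuous fun s => T.pt s x := cont_of_approx _ fun η hη => by
  obtain ⟨a, ha⟩ := T.lc_dense x hη
  refine ⟨T.lcC hK a, (T.lcC hK a).continuous, fun s => ?_⟩
  have : T.lcC hK a s = T.pt s (T.lc a) := by rw [lcC_apply, pt, ev_lc]; congr 1; exact (adm_pt s).2.symm
  rw [this, ← map_sub]
  exact (T.ev_le _ _).trans ha

omit hK [TopologicalSpace K] in
lemma pt_pt_le (u : StrongDual ℝ T.X →L[ℝ] T.X) (s : K) :
    |T.pt s (u (T.pt s))| ≤ ‖u‖ := by
  have h : ‖T.pt s‖ ≤ 1 := ContinuousLinearMap.opNorm_le_bound _ zero_le_one fun x => by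
    rw [one_mul]; exact T.ev_le _ _
  exact (T.ev_le _ _).trans ((u.le_opNorm _).trans (mul_le_of_le_one_right (norm_nonneg _) h))

lemma cont_diag (u : injTensor T.X T.X) : Continuous fun s => T.pt s (u.1 (T.pt s)) :=
  cont_of_approx _ fun η hη => by
    obtain ⟨v, hv, h⟩ := Metric.mem_closure_iff.1 ((inj_eq _ _).le u.2) η hη
    refine ⟨fun s => T.pt s (v (T.pt s)), ?_, fun s => ?_⟩
    · clear h
      induction hv using Submodule.span_induction with
      | mem v hv =>
        obtain ⟨x, y, rfl⟩ := hv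
        simpa using (T.cont_pt hK x).fun_mul (T.cont_pt hK y)
      | zero => simpa using continuous_const
      | add v w _ _ h1 h2 => simpa using h1.fun_add h2
      | smul c v _ h1 => simpa using h1.const_mul c
    · rw [dist_eq_norm] at h
      have := (T.pt_pt_le (u.1 - v) s).trans h.le
      rwa [_root_.sub_apply, map_sub] at this

theorem compl [CompactSpace K] : EmbedsCompl C(K, ℝ) (injTensor T.X T.X) := by
  have : CompleteSpace (injTensor T.X T.X) := by
    have : IsClosed (injTensor T.X T.X : Set (StrongDual ℝ T.X →L[ℝ] T.X)) := by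
      rw [inj_eq]; exact Submodule.isClosed_topologicalClosure _
    exact this.completeSpace_coe
  let d : K → injTensor T.X T.X := fun t => ⟨elemTensor (T.eX t) (T.eX t),
    (inj_eq _ _).ge (Submodule.le_topologicalClosure _ (Submodule.subset_span ⟨_, _, rfl⟩))⟩
  let B : (K →₀ ℝ) →ₗ[ℝ] injTensor T.X T.X := Finsupp.linearCombination ℝ d
  have B1 : ∀ a, (B a).1 = ∑ t ∈ a.support, a t • elemTensor (T.eX t) (T.eX t) := fun a => by
    simp [B, d, Finsupp.linearCombination_apply, Finsupp.sum]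
  have B2 : ∀ a, ‖B a‖ ≤ 1 * ‖T.lcC hK a‖ := fun a => by
    rw [one_mul, Submodule.coe_norm, B1]
    refine diag_norm T.ev T.ev_norming _ _ _ (norm_nonneg _) fun w w' => ?_
    have := diag_le a (C := ‖T.lcC hK a‖) (fun s => by
      rw [← T.lcC_apply hK]; exact (T.lcC hK a).norm_coe_le_norm s) w.2 w'.2
    rwa [pr_eq] at this
  let J := B.extendOfNorm (T.lcC hK)
  have J1 : ∀ a, J (T.lcC hK a) = B a := LinearMap.extendOfNorm_eq (T.lcC_dense hK) ⟨1, B2⟩
  let Q : injTensor T.X T.X →L[ℝ] C(K, ℝ) := LinearMap.mkContinuous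
    { toFun := fun u => ⟨fun s => T.pt s (u.1 (T.pt s)), T.cont_diag hK u⟩
      map_add' := fun _ _ => by ext s; simp
      map_smul' := fun _ _ => by ext s; simp } 1 fun u => by
      rw [one_mul, ContinuousMap.norm_le _ (norm_nonneg _)]
      exact fun s => T.pt_pt_le u.1 s
  have Q0 : ∀ u, ‖Q u‖ ≤ ‖u‖ := fun u => by
    rw [ContinuousMap.norm_le _ (norm_nonneg _)]
    exact fun s => T.pt_pt_le u.1 s
  have Q1 : ∀ f, Q (J f) = f := fun f => by
    refine (T.lcC_dense hK).induction_on f (isClosed_eq (Q.continuous.comp J.continuous)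
      continuous_id) fun a => ?_
    ext s
    rw [J1, lcC_apply, pr_eq]
    show T.pt s ((B a).1 (T.pt s)) = _
    rw [B1, _root_.sum_apply, map_sum]
    refine sum_congr rfl fun t _ => ?_
    simp only [_root_.smul_apply, elem_apply, map_smul, pt_eX, smul_eq_mul, ind]
    split_ifs <;> simp
  refine ⟨J, 1, one_pos, fun f => ?_, J.comp Q, fun u => ⟨Q u, rfl⟩, fun f => ?_⟩
  · have := Q0 (J f)
    rwa [Q1, ← one_mul ‖f‖] at this
  · rw [ContinuousLinearMap.comp_apply, Q1]

theorem compl' [CompactSpace K] : EmbedsCompl C(K, ℝ) (InjTensor T.X T.X) := T.compl hK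

end Tr

lemma exists_tr (K : Type*) [LinearOrder K] [Countable K] (top : K) (h : ∀ t, t ≤ top) :
    Nonempty (Tr K) := by
  obtain ⟨e, he⟩ := exists_injective_nat K
  refine ⟨⟨top, h, fun t => if t = top then 0 else e t + 1, fun s t hst => ?_, if_pos rfl⟩⟩
  simp only at hst
  split_ifs at hst with h1 h2 h2
  · rw [h1, h2]
  · exact he (Nat.succ_injective hst)

end Pool.Agent.H87.InjT
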