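import Mathlib
import Pool.Agent.H87.DenF2
import Pool.Agent.H87.TalF4

/-! Transport flows on a compact planar set. -/

namespace Pool.Agent.H87.Irs

open Filter Topology Set Metric TopologicalSpace
open Pool.Agent.H87.TalF Pool.Agent.H87.DenF
open scoped NNReal

def Lip (g : ℂ → ℝ) : Prop := ∃ L, LipschitzWith L g

abbrev EE (D : Set ℂ) : Type := lp (fun _ : D × D => ℝ) 1

variable {D : Set ℂ} {g g' : ℂ → ℝ} {L : ℝ≥0}

noncomputable def sl (g : ℂ → ℝ) (i : D × D) : ℝ := (g i.1 - g i.2) / ‖(i.1 : ℂ) - i.2‖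

lemma sl_le (hg : LipschitzWith L g) (i : D × D) : |sl g i| ≤ L := by
  rw [sl, abs_div, abs_norm]
  exact div_le_of_le_mul₀ (norm_nonneg _) L.2 (by simpa [dist_eq_norm] using hg.dist_le_mul i.1 i.2)

lemma nsum (c : EE D) : HasSum (fun i => |c i|) ‖c‖ := by
  simpa using lp.hasSum_norm (by simp) c

lemma tm_le (hg : LipschitzWith L g) (c : EE D) (i : D × D) : ‖c i * sl g i‖ ≤ |c i| * L :=
  (abs_mul _ _).trans_le (mul_le_mul_of_nonneg_left (sl_le hg i) (abs_nonneg _))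

noncomputable def pr (g : ℂ → ℝ) (c : EE D) : ℝ := ∑' i, c i * sl g i

lemma pr_sum (hg : Lip g) (c : EE D) : HasSum (fun i => c i * sl g i) (pr g c) :=
  let ⟨_, h⟩ := hg
  (Summable.of_norm_bounded ((nsum c).summable.mul_right _) (tm_le h c)).hasSum

lemma pr_le (hg : LipschitzWith L g) (c : EE D) : ‖pr g c‖ ≤ L * ‖c‖ :=
  (tsum_of_norm_bounded ((nsum c).mul_right _) (tm_le hg c)).trans_eq (mul_comm _ _)

noncomputable def PR (hg : Lip g) : EE D →L[ℝ] ℝ := LinearMap.mkContinuousOfExistsBound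
  { toFun := pr g
    map_add' := fun c d => (pr_sum hg (c + d)).unique (by
      simpa only [lp.coeFn_add, Pi.add_apply, add_mul] using (pr_sum hg c).add (pr_sum hg d))
    map_smul' := fun a c => (pr_sum hg (a • c)).unique (by
      simpa only [lp.coeFn_smul, Pi.smul_apply, smul_eq_mul, mul_assoc, RingHom.id_apply] using
        (pr_sum hg c).mul_left a) } (let ⟨L, h⟩ := hg; ⟨L, pr_le h⟩)

lemma PR_ap (hg : Lip g) (c : EE D) : PR hg c = pr g c := rfl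

noncomputable def NN (D : Set ℂ) : Submodule ℝ (EE D) :=
  ⨅ g : {g // Lip g}, LinearMap.ker (PR g.2).toLinearMap

lemma mem_NN {c : EE D} : c ∈ NN D ↔ ∀ g, Lip g → pr g c = 0 :=
  (Submodule.mem_iInf _).trans ⟨fun h g hg => h ⟨g, hg⟩, fun h g => h g.1 g.2⟩

lemma pr_q (hg : LipschitzWith L g) (c : EE D) : |pr g c| ≤ L * q (NN D) c :=
  (le_q (μ := PR ⟨L, hg⟩) (fun _ hy => mem_NN.1 hy g ⟨L, hg⟩) c).trans (mul_le_mul_of_nonneg_right
    (ContinuousLinearMap.opNorm_le_bound _ L.2 (pr_le hg)) (apply_nonneg _ _))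

lemma pr_lin (hg : Lip g) (hg' : Lip g') (a b : ℝ) {k : ℂ → ℝ} (e : ℝ)
    (h : ∀ x ∈ D, k x = a * g x + b * g' x + e) (c : EE D) : pr k c = a * pr g c + b * pr g' c := by
  rw [← (((pr_sum hg c).mul_left a).add ((pr_sum hg' c).mul_left b)).tsum_eq]
  refine tsum_congr fun i => ?_
  simp only [sl, h _ i.1.2, h _ i.2.2]
  ring

lemma pr_cont {T : Type} [TopologicalSpace T] {k : T → ℂ → ℝ} (h1 : ∀ t, LipschitzWith L (k t))
    (h2 : ∀ x, Continuous fun t => k t x) (c : EE D) : Continuous fun t => pr (k t) c :=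
  continuous_tsum (fun _ => (((h2 _).sub (h2 _)).div_const _).const_mul _)
    ((nsum c).summable.mul_right _) fun i t => tm_le (h1 t) c i

lemma pr_single (g : ℂ → ℝ) (i : D × D) :
    pr g (lp.single 1 i ‖(i.1 : ℂ) - i.2‖ : EE D) = g i.1 - g i.2 := by
  classical
  rw [pr, tsum_eq_single i fun j h => by
    rw [lp.single_apply_ne (E := fun _ : D × D => ℝ) 1 i _ h, zero_mul],
    lp.single_apply_self (E := fun _ : D × D => ℝ), sl]
  rcases eq_or_ne (i.1 : ℂ) i.2 with h | h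
  · simp [h]
  · exact mul_div_cancel₀ _ (norm_ne_zero_iff.2 (sub_ne_zero.2 h))

def Kill (c : EE D) (A : Set ℂ) : Prop := ∀ g, Lip g → (∀ x ∈ D, x ∈ A → g x = 0) → pr g c = 0

lemma sep {K : Set ℂ} (hK : IsCompact K) {h : ℂ → ℝ} (h1 : Continuous h) (h2 : Continuous g)
    (h3 : ∀ x ∈ K, h x = 0 → g x = 0) {θ : ℝ} (hθ : 0 < θ) :
    ∃ η > 0, ∀ x ∈ K, |h x| < η → |g x| < θ := by
  rcases (K ∩ {x | θ ≤ |g x|}).eq_empty_or_nonempty with k | k
  · exact ⟨1, one_pos, fun x hx _ => not_le.1 fun a => eq_empty_iff_forall_notMem.1 k x ⟨hx, a⟩⟩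
  obtain ⟨z, z1, z2⟩ := (hK.inter_right (isClosed_le continuous_const h2.abs)).exists_isMinOn k
    h1.abs.continuousOn
  refine ⟨|h z|, abs_pos.2 fun a => ?_, fun x hx a => not_le.1 fun b => a.not_ge (z2 ⟨hx, b⟩)⟩
  have := z1.2
  rw [mem_ofPred_eq, h3 z z1.1 a, abs_zero] at this
  exact hθ.not_ge this

lemma thr {c : EE D} (hg : Lip g) (h : ∀ θ > 0, ∀ k, Lip k → (∀ x, |g x| < θ → k x = 0) →
    pr k c = 0) : pr g c = 0 := by
  obtain ⟨L, hL⟩ := hg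
  have h1 : ∀ θ : ℝ, LipschitzWith L fun x => max (min (g x) θ) (-θ) := fun θ =>
    (hL.min_const θ).max_const _
  have h2 := pr_cont h1 (fun x => by fun_prop) c
  have h3 : pr (fun x => max (min (g x) 0) (-0)) c = 0 := by
    simpa using pr_lin ⟨L, hL⟩ ⟨L, hL⟩ 0 0 0 (k := fun x => max (min (g x) 0) (-0)) (by simp) c
  refine tendsto_nhds_unique (l := 𝓝[>] 0) tendsto_const_nhds
    (((h2.tendsto' 0 0 h3).mono_left nhdsWithin_le_nhds).congr' ?_)
  filter_upwards [self_mem_nhdsWithin] with θ hθ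
  have h4 := h θ hθ _ ⟨_, hL.sub (h1 θ)⟩ fun x hx => by
    rw [min_eq_left (abs_lt.1 hx).2.le, max_eq_left (abs_lt.1 hx).1.le, sub_self]
  rw [pr_lin ⟨L, hL⟩ ⟨L, h1 θ⟩ 1 (-1) 0 (fun x _ => by ring)] at h4
  linarith

lemma Kill.inter (hD : IsCompact D) {c : EE D} {h : ℂ → ℝ} (hh : Lip h) {B : Set ℂ}
    (hB : IsClosed B) (k1 : Kill c B) (k2 : Kill c {x | h x = 0}) : Kill c (B ∩ {x | h x = 0}) := by
  refine fun g hg h1 => thr hg fun θ hθ k ⟨L, hk⟩ h2 => ?_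
  obtain ⟨L', hh⟩ := hh
  obtain ⟨η, η0, h3⟩ := sep (hD.inter_right hB) hh.continuous hg.choose_spec.continuous
    (fun x hx a => h1 x hx.1 ⟨hx.2, a⟩) hθ
  obtain ⟨M, hM⟩ := hD.exists_bound_of_continuousOn hk.continuous.continuousOn
  have h4 : LipschitzWith (‖|M| / η‖₊ * (1 * L')) fun x => |M| / η * |h x| :=
    (lipschitzWith_smul (|M| / η)).comp (lipschitzWith_one_norm.comp hh)
  have h5 := (hk.min h4).max h4.neg
  have h6 := k2 _ ⟨_, h5⟩ fun x _ hx => by simp [show h x = 0 from hx]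
  have h7 := k1 _ ⟨_, hk.sub h5⟩ fun x hx hb => by
    have a1 : |k x| ≤ |M| / η * |h x| := by
      rcases lt_or_ge |h x| η with a | a
      · rw [h2 x (h3 x ⟨hx, hb⟩ a), abs_zero]; positivity
      · exact ((hM x hx).trans (le_abs_self M)).trans ((div_mul_cancel₀ _ η0.ne').ge.trans
          (mul_le_mul_of_nonneg_left a (by positivity)))
    show k x - max (min (k x) _) (-(|M| / η * |h x|)) = 0
    rw [min_eq_left (abs_le.1 a1).2, max_eq_left (abs_le.1 a1).1, sub_self]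
  rw [pr_lin ⟨L, hk⟩ ⟨_, h5⟩ 1 (-1) 0 (fun x _ => by ring), h6] at h7
  linarith

def dt (u w : ℂ) : ℝ := u.re * w.im - u.im * w.re

def ip (u w : ℂ) : ℝ := u.re * w.re + u.im * w.im

lemma dt_ip (u w : ℂ) : dt u w ^ 2 + ip u w ^ 2 = (‖u‖ * ‖w‖) ^ 2 := by
  rw [mul_pow, Complex.sq_norm, Complex.sq_norm, Complex.normSq_apply, Complex.normSq_apply, dt, ip]
  ring

lemma ip_le (u w : ℂ) : |ip u w| ≤ ‖u‖ * ‖w‖ :=
  abs_le_of_sq_le_sq' (by nlinarith [dt_ip u w, sq_nonneg (dt u w)]) (by positivity) |> abs_le.2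

lemma dt_le (u w : ℂ) : |dt u w| ≤ ‖u‖ * ‖w‖ :=
  abs_le_of_sq_le_sq' (by nlinarith [dt_ip u w, sq_nonneg (ip u w)]) (by positivity) |> abs_le.2

lemma ip_self (u : ℂ) : ip u u = ‖u‖ ^ 2 := by rw [Complex.sq_norm, Complex.normSq_apply, ip]

lemma ip_lip (u : ℂ) : LipschitzWith ‖u‖₊ (ip u) := LipschitzWith.of_dist_le_mul fun x y => by
  have := ip_le u (x - y)
  rw [Real.dist_eq, dist_eq_norm]
  refine le_of_eq_of_le (congrArg _ ?_) this
  simp only [ip, Complex.sub_re, Complex.sub_im]; ring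

lemma dt_lip (u a : ℂ) : Lip fun x => dt u (x - a) :=
  ⟨‖u‖₊, LipschitzWith.of_dist_le_mul fun x y => by
    have := dt_le u (x - y)
    rw [Real.dist_eq, dist_eq_norm]
    refine le_of_eq_of_le (congrArg _ ?_) this
    simp only [dt, Complex.sub_re, Complex.sub_im]; ring⟩

lemma dt_sm {u w : ℂ} {t : ℝ} (t0 : 0 < t) (t1 : t ≤ 1)
    (h : (1 - t ^ 2 / 2) * (‖u‖ * ‖w‖) ≤ |ip u w|) : |dt u w| ≤ t * (‖u‖ * ‖w‖) := by
  have h1 := pow_le_pow_left₀ (mul_nonneg (by nlinarith) (by positivity)) h 2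
  rw [sq_abs] at h1
  refine abs_le.2 (abs_le_of_sq_le_sq' ?_ (by positivity))
  nlinarith [dt_ip u w, sq_nonneg (t ^ 2 * (‖u‖ * ‖w‖))]

lemma geo {u z z' a : ℂ} {t M : ℝ} (t0 : 0 < t) (t1 : t ≤ 1) (hu : ‖u‖ = 1) (h0 : z ≠ z')
    (h1 : (1 - t ^ 2 / 2) * ‖z - z'‖ ≤ |ip u (z - z')|)
    (h2 : (1 - t ^ 2 / 2) * ‖z - z'‖ ≤ ‖z - a‖ - ‖z' - a‖) (h3 : ‖z - a‖ ≤ M) (h4 : ‖z - z'‖ ≤ M) :
    |dt u (z - a)| ≤ 3 * M * t ∧ |dt u (z' - a)| ≤ 3 * M * t := by
  rw [show z' - a = (z - a) - (z - z') by ring] at h2 ⊢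
  have r0 := norm_pos_iff.2 (sub_ne_zero.2 h0)
  generalize z - a = n at *
  generalize z - z' = w at *
  have a1 := dt_sm (u := u) (w := w) t0 t1 (by rwa [hu, one_mul])
  have a2 : ip n (n - w) = ‖n‖ ^ 2 - ip n w := by
    rw [← ip_self]; simp only [ip, Complex.sub_re, Complex.sub_im]; ring
  have a3 := dt_sm (u := n) (w := w) t0 t1 (le_trans (by
    nlinarith [(le_abs_self _).trans (ip_le n (n - w)), norm_nonneg n]) (le_abs_self _))
  have a4 : ‖w‖ ^ 2 * dt u n = dt u w * ip n w - ip u w * dt n w := by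
    rw [← ip_self]; simp only [ip, dt]; ring
  have a5 : ‖w‖ ^ 2 * |dt u n| ≤ ‖w‖ ^ 2 * (2 * ‖n‖ * t) := by
    have b1 := mul_le_mul a1 (ip_le n w) (abs_nonneg _) (by positivity)
    have b2 := mul_le_mul (ip_le u w) a3 (abs_nonneg _) (by positivity)
    rw [← abs_of_nonneg (sq_nonneg ‖w‖), ← abs_mul, a4, abs_of_nonneg (sq_nonneg ‖w‖)]
    refine (abs_sub _ _).trans ?_
    rw [abs_mul, abs_mul]
    rw [hu] at b1 b2
    nlinarith
  have a6 := le_of_mul_le_mul_left a5 (by positivity)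
  have a7 : dt u (n - w) = dt u n - dt u w := by
    simp only [dt, Complex.sub_re, Complex.sub_im]; ring
  rw [hu] at a1
  rw [a7]
  constructor <;> nlinarith [abs_sub (dt u n) (dt u w), norm_nonneg n]

lemma d_lip (a : ℂ) : LipschitzWith 1 fun x => ‖x - a‖ := LipschitzWith.of_dist_le_mul fun x y => by
  simpa [dist_eq_norm] using abs_norm_sub_norm_le (x - a) (y - a)

theorem base (hD : IsCompact D) {c : EE D} {u a : ℂ} (ha : a ∈ D) (hu : ‖u‖ = 1)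
    (h1 : pr (ip u) c = q (NN D) c) (h2 : |pr (fun x => ‖x - a‖) c| = q (NN D) c) :
    Kill c {x | dt u (x - a) = 0} := by
  refine fun g hg h3 => thr hg fun θ hθ k ⟨L, hk⟩ h4 => ?_
  obtain ⟨η, η0, h5⟩ := sep hD (dt_lip u a).choose_spec.continuous hg.choose_spec.continuous h3 hθ
  obtain ⟨M, M0, hM⟩ : ∃ M > 0, ∀ x ∈ D, ∀ y ∈ D, ‖x - y‖ ≤ M := by
    obtain ⟨M, M0, h⟩ := hD.isBounded.exists_pos_norm_le
    exact ⟨M + M, by linarith, fun x hx y hy => (norm_sub_le _ _).trans (add_le_add (h x hx) (h y hy))⟩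
  obtain ⟨t, t0, t1, t2⟩ : ∃ t > 0, t ≤ 1 ∧ 3 * M * t < η :=
    ⟨min 1 (η / (4 * M)), by positivity, min_le_left _ _, by
      have := (le_div_iff₀ (by positivity)).1 (min_le_right 1 (η / (4 * M)))
      have : 0 < min 1 (η / (4 * M)) := by positivity
      nlinarith⟩
  obtain ⟨σ, σ1, σ2⟩ : ∃ σ : ℝ, |σ| = 1 ∧ σ * pr (fun x => ‖x - a‖) c = q (NN D) c := by
    rcases abs_cases (pr (fun x => ‖x - a‖) c) with h | h
    exacts [⟨1, abs_one, by linarith⟩, ⟨-1, by simp, by linarith⟩]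
  have hu' : LipschitzWith 1 (ip u) := by simpa [show ‖u‖₊ = 1 from NNReal.eq hu] using ip_lip u
  refine abs_nonpos_iff.1 (le_of_forall_pos_le_add fun ε hε => ?_)
  obtain ⟨y, y1, y2⟩ := (infDist_lt_iff ⟨0, (NN D).zero_mem⟩).1 ((q_eq (NN D) c).ge.trans_lt
    (lt_add_of_pos_right _ (show 0 < ε * (t ^ 2 / 2) / (2 * (L + 1)) by positivity)))
  have y3 : ∀ g, Lip g → pr g (c - y) = pr g c := fun g hg => by
    rw [← PR_ap hg, map_sub, PR_ap, PR_ap, mem_NN.1 y1 g hg, sub_zero]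
  rw [dist_eq_norm] at y2
  generalize c - y = e at y2 y3
  have s1 := hasSum_le (fun i => ?_) ((pr_sum ⟨L, hk⟩ e).summable.abs.hasSum.mul_left (t ^ 2 / 2))
    ((((nsum e).sub (pr_sum ⟨1, hu'⟩ e)).add ((nsum e).sub
      ((pr_sum ⟨1, d_lip a⟩ e).mul_left σ))).mul_left (L : ℝ))
  · have s2 : |pr k e| ≤ ∑' i, |e i * sl k i| :=
      norm_tsum_le_tsum_norm (f := fun i => e i * sl k i) (pr_sum ⟨L, hk⟩ e).summable.abs
    rw [y3 _ ⟨1, hu'⟩, y3 _ ⟨1, d_lip a⟩, h1, σ2] at s1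
    rw [y3 _ ⟨L, hk⟩] at s2
    rw [← sub_lt_iff_lt_add', lt_div_iff₀ (by positivity)] at y2
    have s3 : 0 ≤ ‖e‖ - q (NN D) c := by
      have := (le_abs_self _).trans (pr_le hu' e)
      rw [y3 _ ⟨1, hu'⟩, h1] at this
      simpa using this
    refine le_of_mul_le_mul_left ?_ (show 0 < t ^ 2 / 2 by positivity)
    nlinarith [mul_le_mul_of_nonneg_left s2 (show 0 ≤ t ^ 2 / 2 by positivity)]
  have b1 : e i * sl (ip u) i ≤ |e i| * |sl (ip u) i| := (le_abs_self _).trans_eq (abs_mul _ _)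
  have b2 : σ * (e i * sl (fun x => ‖x - a‖) i) ≤ |e i| * |sl (fun x => ‖x - a‖) i| :=
    (le_abs_self _).trans_eq (by rw [abs_mul, abs_mul, σ1, one_mul])
  have b3 := sl_le hu' i
  have b4 := sl_le (d_lip a) i
  have b5 := abs_nonneg (e i)
  rw [NNReal.coe_one] at b3 b4
  by_cases hs : 1 - t ^ 2 / 2 ≤ |sl (ip u) i| ∧ 1 - t ^ 2 / 2 ≤ |sl (fun x => ‖x - a‖) i|
  · have b6 : sl k i = 0 := by
      rcases eq_or_ne (i.1 : ℂ) i.2 with h | h
      · simp [sl, h]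
      obtain ⟨c1, c2⟩ := hs
      have r0 := norm_pos_iff.2 (sub_ne_zero.2 h)
      rw [sl, abs_div, abs_norm, le_div_iff₀ r0] at c1 c2
      have c3 : ∀ z w : ℂ, ip u z - ip u w = ip u (z - w) := fun z w => by
        simp only [ip, Complex.sub_re, Complex.sub_im]; ring
      have c4 : |dt u (i.1 - a)| ≤ 3 * M * t ∧ |dt u (i.2 - a)| ≤ 3 * M * t := by
        rcases le_abs.1 c2 with c5 | c5
        · exact geo t0 t1 hu h (c3 _ _ ▸ c1) c5 (hM _ i.1.2 _ ha) (hM _ i.1.2 _ i.2.2)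
        · rw [abs_sub_comm] at c1
          rw [norm_sub_rev (i.1 : ℂ) i.2] at c1 c5
          exact (geo t0 t1 hu h.symm (c3 _ _ ▸ c1) (by linarith) (hM _ i.2.2 _ ha)
            (hM _ i.2.2 _ i.1.2)).symm
      rw [sl, h4 _ (h5 _ i.1.2 (c4.1.trans_lt t2)), h4 _ (h5 _ i.2.2 (c4.2.trans_lt t2)), sub_self,
        zero_div]
    rw [b6, mul_zero, abs_zero, mul_zero]
    exact mul_nonneg L.2 (by nlinarith)
  · have b6 : t ^ 2 / 2 * |e i| ≤ |e i| - e i * sl (ip u) i +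
        (|e i| - σ * (e i * sl (fun x => ‖x - a‖) i)) := by
      rcases not_and_or.1 hs with h | h <;> nlinarith [not_le.1 h]
    have b7 : |e i * sl k i| ≤ |e i| * L := tm_le hk e i
    nlinarith [mul_le_mul_of_nonneg_left b6 L.2,
      mul_le_mul_of_nonneg_left b7 (show 0 ≤ t ^ 2 / 2 by positivity)]

end Pool.Agent.H87.Irs
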