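import Mathlib
import Pool.Agent.H87.IrsD1

/-! No compact subset of the Euclidean plane forces a linear isometric copy of the plane. -/

namespace Pool.Agent.H87.Irs

open Filter Topology Set Metric TopologicalSpace
open Pool.Agent.H87.TalF Pool.Agent.H87.DenF
open scoped NNReal

section gen

variable {E : Type} [NormedAddCommGroup E] [NormedSpace ℝ E]

lemma renorm [CompleteSpace E] (p : Seminorm ℝ E) (h1 : ∀ z, p z ≤ 1 * ‖z‖)
    (h2 : ∀ z, ∀ ε > 0, ∃ z', p (z - z') = 0 ∧ ‖z'‖ ≤ 2 * p z + ε) :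
    ∃ (Z : Type) (_ : NormedAddCommGroup Z) (_ : NormedSpace ℝ Z) (_ : CompleteSpace Z)
      (π : E →ₗ[ℝ] Z), LinearMap.range π = ⊤ ∧ ∀ z, ‖π z‖ = p z := by
  let I := {μ : E →L[ℝ] ℝ // ∀ z, |μ z| ≤ p z}
  let J0 : E →ₗ[ℝ] lp (fun _ : I => ℝ) ⊤ :=
    { toFun := fun z => ⟨fun μ => μ.1 z, memℓp_infty ⟨p z, by rintro _ ⟨μ, rfl⟩; exact μ.2 z⟩⟩
      map_add' := fun z w => lp.ext (funext fun μ => map_add μ.1 z w)
      map_smul' := fun c w => lp.ext (funext fun μ => map_smul μ.1 c w) }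
  have j1 : ∀ z, ‖J0 z‖ = p z := fun z => le_antisymm
    (lp.norm_le_of_forall_le (apply_nonneg _ _) fun μ => μ.2 z) (by
      obtain ⟨μ, a1, a2⟩ := hb p h1 z
      exact (a2.ge.trans (le_abs_self _)).trans
        (lp.norm_apply_le_norm ENNReal.top_ne_zero (J0 z) ⟨μ, a1⟩))
  let J : E →L[ℝ] LinearMap.range J0 :=
    J0.rangeRestrict.mkContinuous 1 fun z => (j1 z).trans_le (h1 z)
  have j2 : ∀ z, ‖J z‖ = p z := j1
  refine ⟨LinearMap.range J0, inferInstance, inferInstance,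
    NormedAddCommGroup.completeSpace_of_summable_imp_tendsto fun u hu => ?_, J0.rangeRestrict,
    J0.range_rangeRestrict, j1⟩
  have h3 : ∀ n : ℕ, ∃ z, J z = u n ∧ ‖z‖ ≤ 2 * ‖u n‖ + (1 / 2) ^ n := fun n => by
    obtain ⟨x, hx⟩ := J0.surjective_rangeRestrict (u n)
    replace hx : J x = u n := hx
    obtain ⟨z, a1, a2⟩ := h2 x ((1 / 2) ^ n) (by positivity)
    refine ⟨z, ?_, by rwa [← hx, j2]⟩
    rw [← hx, eq_comm, ← sub_eq_zero, ← map_sub, ← norm_eq_zero, j2, a1]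
  choose z z1 z2 using h3
  refine ⟨_, ((Summable.of_norm_bounded ((hu.mul_left 2).add summable_geometric_two) z2).hasSum.mapL
    J).tendsto_sum_nat.congr fun n => ?_⟩
  simp only [z1]

lemma avg (q : Seminorm ℝ E) (M : ℕ → Seminorm ℝ E) (h : ∀ n c, M n c ≤ q c) :
    ∃ P : Seminorm ℝ E, (∀ c, q c ≤ 2 * P c ∧ P c ≤ q c) ∧ (∀ c, (∀ n, q c ≤ M n c) → P c = q c) ∧
      ∀ n, ∃ w > 0, ∀ x y, w * (M n (x + y) + M n (x - y) - 2 * M n x) ≤
        P (x + y) + P (x - y) - 2 * P x := by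
  have w0 : ∀ n : ℕ, (0 : ℝ) < 1 / 2 / 2 ^ n := fun n => by positivity
  have h0 : ∀ c, HasSum (fun n : ℕ => 1 / 2 / 2 ^ n * q c) (1 * q c) := fun c =>
    (hasSum_geometric_two' 1).mul_right _
  have h1 : ∀ c, Summable fun n : ℕ => 1 / 2 / 2 ^ n * M n c := fun c =>
    .of_nonneg_of_le (fun n => by positivity)
      (fun n => mul_le_mul_of_nonneg_left (h n c) (w0 n).le) (h0 c).summable
  have h2 : ∀ (r : Seminorm ℝ E) x y, 0 ≤ r (x + y) + r (x - y) - 2 * r x := fun r x y => by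
    have := map_add_le_add r (x + y) (x - y)
    rw [show x + y + (x - y) = (2 : ℝ) • x by module, map_smul_eq_mul, Real.norm_two] at this
    linarith
  refine ⟨Seminorm.of (fun c => (q c + ∑' n : ℕ, 1 / 2 / 2 ^ n * M n c) / 2) (fun x y => ?_)
    fun a x => ?_, fun c => ⟨?_, ?_⟩, fun c hc => ?_, fun n => ⟨1 / 2 / 2 ^ n / 2, by positivity,
    fun x y => ?_⟩⟩
  · have := hasSum_le (fun n => (mul_le_mul_of_nonneg_left (map_add_le_add (M n) x y)
      (w0 n).le).trans_eq (mul_add _ _ _)) (h1 (x + y)).hasSum ((h1 x).hasSum.add (h1 y).hasSum)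
    linarith [map_add_le_add q x y]
  · simp only [map_smul_eq_mul, mul_left_comm _ ‖a‖, tsum_mul_left]
    ring
  · show _ ≤ 2 * ((q c + ∑' n : ℕ, 1 / 2 / 2 ^ n * M n c) / 2)
    linarith [show 0 ≤ ∑' n : ℕ, 1 / 2 / 2 ^ n * M n c from tsum_nonneg fun n => by positivity]
  · show (q c + ∑' n : ℕ, 1 / 2 / 2 ^ n * M n c) / 2 ≤ _
    linarith [hasSum_le (fun n => mul_le_mul_of_nonneg_left (h n c) (w0 n).le) (h1 c).hasSum (h0 c)]
  · show (q c + ∑' n : ℕ, 1 / 2 / 2 ^ n * M n c) / 2 = _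
    simp only [fun n => le_antisymm (h n c) (hc n), (h0 c).tsum_eq]
    ring
  · have := le_hasSum (((h1 (x + y)).hasSum.add (h1 (x - y)).hasSum).sub
      ((h1 x).hasSum.mul_left 2)) n fun i _ => by nlinarith [h2 (M i) x y, w0 i]
    show _ ≤ (q (x + y) + ∑' n : ℕ, 1 / 2 / 2 ^ n * M n (x + y)) / 2 +
      (q (x - y) + ∑' n : ℕ, 1 / 2 / 2 ^ n * M n (x - y)) / 2 -
      2 * ((q x + ∑' n : ℕ, 1 / 2 / 2 ^ n * M n x) / 2)
    linarith [h2 q x y]

lemma corner (r : Seminorm ℝ ℂ) (f : ℂ →ₗ[ℝ] ℝ) (hr : ∀ v, r v ≤ 2 * ‖v‖) {w : ℝ} (hw : 0 < w)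
    (h : ∀ x y, w * (max (r (x + y)) |f (x + y)| + max (r (x - y)) |f (x - y)| -
      2 * max (r x) |f x|) ≤ ‖x + y‖ + ‖x - y‖ - 2 * ‖x‖) (v : ℂ) : f v ≤ r v := by
  by_contra! k
  have h0 : v ≠ 0 := by rintro rfl; simp at k
  have rc : Continuous r := (LipschitzWith.of_dist_le_mul (K := 2) fun a b => by
    rw [dist_eq_norm, dist_eq_norm]
    exact (r.norm_sub_map_le_sub a b).trans (hr _)).continuous
  obtain ⟨x, x0, x1⟩ := (isConnected_compl_singleton_of_one_lt_rank (E := ℂ) (by simp) 0).2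
    |>.intermediate_value₂ (neg_ne_zero.2 h0) h0 f.continuous_of_finiteDimensional.continuousOn
    rc.continuousOn (by
      rw [map_neg, map_neg_eq_map]; linarith [apply_nonneg r v]) k.le
  have x2 := norm_pos_iff.2 x0
  have v0 := norm_pos_iff.2 h0
  obtain ⟨t, t0, t1⟩ : ∃ t > 0, t * ‖v‖ ^ 2 < w * (f v - r v) * ‖x‖ :=
    ⟨w * (f v - r v) * ‖x‖ / 2 / ‖v‖ ^ 2, by have := sub_pos.2 k; positivity, by
      have : 0 < w * (f v - r v) * ‖x‖ := by have := sub_pos.2 k; positivity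
      rw [div_mul_cancel₀ _ (by positivity)]; linarith⟩
  have a1 := h x (t • v)
  have a2 : f x + t * f v ≤ max (r (x + t • v)) |f (x + t • v)| :=
    le_max_of_le_right (by rw [map_add, map_smul]; exact le_abs_self _)
  have a3 : r x - t * r v ≤ max (r (x - t • v)) |f (x - t • v)| := le_max_of_le_left (by
    have := map_add_le_add r (x - t • v) (t • v)
    rw [sub_add_cancel, map_smul_eq_mul, Real.norm_of_nonneg t0.le] at this
    linarith)
  have a4 := parallelogram_law_with_norm ℝ x (t • v)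
  rw [norm_smul, Real.norm_of_nonneg t0.le] at a4
  rw [x1, abs_of_nonneg (apply_nonneg r x), max_self] at a1
  have a5 : (‖x + t • v‖ + ‖x - t • v‖ - 2 * ‖x‖) * ‖x‖ ≤ t * (t * ‖v‖ ^ 2) := by
    nlinarith [sq_nonneg (‖x + t • v‖ - ‖x‖), sq_nonneg (‖x - t • v‖ - ‖x‖)]
  have a6 : w * (t * (f v - r v)) ≤ ‖x + t • v‖ + ‖x - t • v‖ - 2 * ‖x‖ :=
    (mul_le_mul_of_nonneg_left (by linarith) hw.le).trans a1
  nlinarith [mul_le_mul_of_nonneg_right a6 x2.le, mul_lt_mul_of_pos_left t1 t0]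

end gen

variable {D : Set ℂ}

lemma re_lip : Lip Complex.re := ⟨_, Complex.reCLM.lipschitz⟩

lemma im_lip : Lip Complex.im := ⟨_, Complex.imCLM.lipschitz⟩

noncomputable def bb : EE D →L[ℝ] ℂ := (PR re_lip).smulRight 1 + (PR im_lip).smulRight Complex.I

lemma bb_re (c : EE D) : (bb c).re = pr Complex.re c := by simp [bb, PR_ap]

lemma bb_im (c : EE D) : (bb c).im = pr Complex.im c := by simp [bb, PR_ap]

lemma pr_ip (u : ℂ) (c : EE D) : pr (ip u) c = ip u (bb c) := by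
  rw [pr_lin re_lip im_lip u.re u.im 0 (k := ip u) fun x _ => (add_zero _).symm, ip, bb_re, bb_im]

lemma bb_le (c : EE D) : ‖bb c‖ ≤ q (NN D) c := by
  have := (le_abs_self _).trans (pr_q (ip_lip (bb c)) c)
  rw [pr_ip, ip_self, sq] at this
  rcases (norm_nonneg (bb c)).eq_or_lt with h | h
  · exact h.ge.trans (apply_nonneg _ _)
  · exact le_of_mul_le_mul_left this h

lemma sepQ (h0 : (0 : ℂ) ∈ D) : ∃ f : ℕ → EE D →L[ℝ] ℝ, (∀ n c, |f n c| ≤ q (NN D) c) ∧
    ∀ c s, (∀ n, f n c ≤ s) → q (NN D) c ≤ s := by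
  classical
  let φ : D → EE D ⧸ NN D := fun x => (NN D).mkQ (lp.single 1 (x, ⟨0, h0⟩) ‖(x : ℂ) - 0‖)
  have h1 : ∀ x y, φ x - φ y = ‖(x : ℂ) - y‖ • (NN D).mkQ (lp.single 1 (x, y) 1) := fun x y => by
    rw [← map_sub, ← map_smul, ← lp.single_smul, smul_eq_mul, mul_one]
    refine (Submodule.Quotient.eq _).2 (mem_NN.2 fun g hg => ?_)
    rw [← PR_ap hg, map_sub, map_sub, PR_ap, PR_ap, PR_ap, pr_single g (x, ⟨0, h0⟩),
      pr_single g (y, ⟨0, h0⟩), pr_single g (x, y)]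
    ring
  have h2 : Continuous φ := (LipschitzWith.of_dist_le_mul (K := 1) fun x y => by
    rw [dist_eq_norm, h1, norm_smul, norm_norm, NNReal.coe_one, one_mul, Subtype.dist_eq, dist_eq_norm]
    refine mul_le_of_le_one_right (norm_nonneg _) ((Submodule.Quotient.norm_mk_le _ _).trans ?_)
    rw [lp.norm_single (by norm_num), norm_one]).continuous
  have h3 : SeparableSpace (EE D ⧸ NN D) := isSeparable_univ_iff.1
    (((isSeparable_range h2).span (R := ℝ)).closure.mono fun w _ => by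
    obtain ⟨c, rfl⟩ := (NN D).mkQ_surjective w
    refine mem_closure_of_tendsto ((lp.hasSum_single ENNReal.one_ne_top c).mapL (NN D).mkQL)
      (Eventually.of_forall fun F => Submodule.sum_mem _ fun i _ => ?_)
    rcases eq_or_ne (i.1 : ℂ) i.2 with h | h
    · rw [show (NN D).mkQL (lp.single 1 i (c i)) = 0 from (Submodule.Quotient.mk_eq_zero _).2
        (mem_NN.2 fun g _ => (tsum_eq_single i fun j k => by
          rw [lp.single_apply_ne (E := fun _ : D × D => ℝ) 1 i _ k, zero_mul]).trans (by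
          simp [sl, h]))]
      exact zero_mem _
    · have : (NN D).mkQL (lp.single 1 i (c i)) = (c i / ‖(i.1 : ℂ) - i.2‖) • (φ i.1 - φ i.2) := by
        rw [h1, smul_smul, div_mul_cancel₀ _ (norm_ne_zero_iff.2 (sub_ne_zero.2 h)), ← map_smul,
          ← lp.single_smul, smul_eq_mul, mul_one]
        rfl
      rw [this]
      exact Submodule.smul_mem _ _ (Submodule.sub_mem _ (Submodule.subset_span ⟨_, rfl⟩)
        (Submodule.subset_span ⟨_, rfl⟩)))
  obtain ⟨w, hw⟩ := exists_dense_seq (EE D ⧸ NN D)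
  choose z hz using fun n => (NN D).mkQ_surjective (w n)
  choose f f1 f2 using fun n => q_hb (NN D) (z n)
  refine ⟨f, f1, fun c s h => le_of_forall_pos_le_add fun ε hε => ?_⟩
  obtain ⟨n, hn⟩ := hw.exists_dist_lt ((NN D).mkQ c) (half_pos hε)
  rw [dist_eq_norm, ← hz, ← map_sub] at hn
  replace hn : q (NN D) (c - z n) < ε / 2 := hn
  have a1 := map_add_le_add (q (NN D)) (c - z n) (z n)
  have a2 := (neg_le_abs _).trans (f1 n (c - z n))
  rw [sub_add_cancel] at a1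
  rw [map_sub] at a2
  linarith [h n, f2 n]

theorem nosub (hD : IsCompact D) (S : ℂ →ₗ[ℝ] EE D) (h1 : ∀ v ≠ 0, 0 < q (NN D) (S v))
    (h2 : ∀ v, ‖bb (S v)‖ = q (NN D) (S v))
    (h3 : ∀ v, ∃ a ∈ D, |pr (fun x => ‖x - a‖) (S v)| = q (NN D) (S v)) : False := by
  have k0 : ∀ v ≠ 0, ∃ a, Kill (S v) {x | dt (bb (S v)) (x - a) = 0} := fun v hv => by
    obtain ⟨a, a1, a2⟩ := h3 v
    have a3 := (h1 v hv).trans_eq (h2 v).symm
    refine ⟨a, fun g hg k => base hD (u := ‖bb (S v)‖⁻¹ • bb (S v)) a1 ?_ ?_ a2 g hg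
      fun x hx k' => k x hx ?_⟩
    · rw [norm_smul, norm_inv, norm_norm, inv_mul_cancel₀ a3.ne']
    · have := ip_self (bb (S v))
      rw [pr_ip, ← h2]
      simp only [ip, Complex.smul_re, Complex.smul_im, smul_eq_mul] at this ⊢
      field_simp
      linarith
    · simp only [dt, Complex.smul_re, Complex.smul_im, smul_eq_mul, mem_ofPred_eq] at k' ⊢
      field_simp at k'
      linarith
  obtain ⟨a1, k1⟩ := k0 1 one_ne_zero
  obtain ⟨a2, k2⟩ := k0 Complex.I Complex.I_ne_zero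
  obtain ⟨a3, k3⟩ := k0 (1 + Complex.I) fun h => by simpa using congrArg Complex.re h
  obtain ⟨a4, k4⟩ := k0 (1 - Complex.I) fun h => by simpa using congrArg Complex.re h
  rw [map_add, map_add] at k3
  rw [map_sub, map_sub] at k4
  have b0 := (h1 1 one_ne_zero).trans_eq (h2 1).symm
  have b1 : dt (bb (S 1)) (bb (S Complex.I)) ≠ 0 := fun h => by
    have c1 := ip_self (bb (S 1))
    refine ((h1 (ip (bb (S 1)) (bb (S Complex.I)) • (1 : ℂ) - ‖bb (S 1)‖ ^ 2 • Complex.I)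
      fun k => ?_).trans_eq (h2 _).symm).ne' ?_
    · have := congrArg Complex.im k
      simp only [Complex.sub_im, Complex.smul_im, smul_eq_mul, Complex.one_im, Complex.I_im,
        Complex.zero_im] at this
      nlinarith
    · rw [norm_eq_zero, map_sub, map_smul, map_smul, map_sub, map_smul, map_smul, ← c1]
      simp only [dt, ip] at h ⊢
      refine Complex.ext ?_ ?_ <;>
        simp only [Complex.sub_re, Complex.sub_im, Complex.smul_re, Complex.smul_im, smul_eq_mul,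
          Complex.zero_re, Complex.zero_im]
      · linear_combination (-(bb (S 1)).im) * -h
      · linear_combination (-(bb (S 1)).re) * h
  have un : ∀ {c d : EE D} {u w a b : ℂ} (s t : ℝ), Kill c {x | dt u (x - a) = 0} →
      Kill d {x | dt w (x - b) = 0} → S 1 = s • c + t • d → ∀ {B}, IsClosed B → Kill (S 1) B →
      IsClosed (B ∩ {x | min |dt u (x - a)| |dt w (x - b)| = 0}) ∧
        Kill (S 1) (B ∩ {x | min |dt u (x - a)| |dt w (x - b)| = 0}) := by
    intro c d u w a b s t c1 c2 c3 B c4 c5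
    have c6 : Lip fun x => min |dt u (x - a)| |dt w (x - b)| :=
      ⟨_, (lipschitzWith_one_norm.comp (dt_lip u a).choose_spec).min
        (lipschitzWith_one_norm.comp (dt_lip w b).choose_spec)⟩
    refine ⟨c4.inter (isClosed_eq c6.choose_spec.continuous continuous_const),
      Kill.inter hD c6 c4 c5 fun g hg k => ?_⟩
    rw [← PR_ap hg, c3, map_add, map_smul, map_smul, PR_ap, PR_ap,
      c1 g hg fun x hx e => k x hx (by simp [show dt u (x - a) = 0 from e]),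
      c2 g hg fun x hx e => k x hx (by simp [show dt w (x - b) = 0 from e])]
    simp
  obtain ⟨d1, d2⟩ := un (-1) 1 k2 k3 (by module)
    (isClosed_eq (dt_lip _ _).choose_spec.continuous continuous_const) k1
  obtain ⟨d3, d4⟩ := un 1 1 k2 k4 (by module) d1 d2
  obtain ⟨-, d5⟩ := un (1 / 2) (1 / 2) k3 k4 (by module) d3 d4
  have mz : ∀ s t : ℝ, min |s| |t| = 0 → s = 0 ∨ t = 0 := fun s t h =>
    (min_eq_iff.1 h).imp (fun k => abs_eq_zero.1 k.1) fun k => abs_eq_zero.1 k.1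
  have fin : ∀ p : ℂ, (∀ x ∈ D, x ∈ _ → ip (bb (S 1)) x - ip (bb (S 1)) p = 0) → False :=
    fun p hp => by
    have := d5 (fun x => ip (bb (S 1)) x - ip (bb (S 1)) p)
      ⟨_, (ip_lip _).sub (LipschitzWith.const _)⟩ hp
    rw [pr_lin ⟨_, ip_lip (bb (S 1))⟩ re_lip 1 0 (-ip (bb (S 1)) p) fun x _ => by ring, pr_ip,
      ip_self] at this
    nlinarith
  generalize bb (S 1) = b at *
  generalize bb (S Complex.I) = b' at *
  by_cases hp : ∃ p, p ∈ {x | dt b (x - a1) = 0} ∩ {x | min |dt b' (x - a2)| |dt (b + b') (x - a3)| = 0} ∩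
      {x | min |dt b' (x - a2)| |dt (b - b') (x - a4)| = 0} ∩
      {x | min |dt (b + b') (x - a3)| |dt (b - b') (x - a4)| = 0}
  swap
  · exact fin 0 fun x _ hx => absurd ⟨x, hx⟩ hp
  obtain ⟨p, ⟨⟨p1, p2⟩, p3⟩, p4⟩ := hp
  refine fin p fun x _ ⟨⟨⟨x1, x2⟩, x3⟩, x4⟩ => ?_
  have e1 : dt b (x - p) = 0 := by
    simp only [dt, mem_ofPred_eq, Complex.sub_re, Complex.sub_im] at p1 x1 ⊢
    linarith
  have e2 : dt b' (x - p) = 0 := by
    have f1 := mz _ _ p2
    have f2 := mz _ _ p3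
    have f3 := mz _ _ p4
    have f4 := mz _ _ x2
    have f5 := mz _ _ x3
    have f6 := mz _ _ x4
    simp only [dt, Complex.sub_re, Complex.sub_im, Complex.add_re, Complex.add_im] at e1 f1 f2 f3 f4 f5 f6 ⊢
    rcases f1 with f1 | f1 <;> rcases f2 with f2 | f2 <;> rcases f3 with f3 | f3 <;>
      rcases f4 with f4 | f4 <;> rcases f5 with f5 | f5 <;> rcases f6 with f6 | f6 <;> linarith
  refine mul_left_cancel₀ b1 ?_
  simp only [dt, ip, Complex.sub_re, Complex.sub_im] at e1 e2 ⊢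
  linear_combination (b.re * b'.re + b.im * b'.im) * e1 - (b.re * b.re + b.im * b.im) * e2

theorem main : ¬ (∀ (X : Type) [NormedAddCommGroup X] [NormedSpace ℝ X] [CompleteSpace X]
      [TopologicalSpace.SeparableSpace X],
      ∃ K : Set X, IsCompact K ∧
        ∀ (Z : Type) [NormedAddCommGroup Z] [NormedSpace ℝ Z] [CompleteSpace Z],
          (∃ f : K → Z, Isometry f) → Nonempty (X →ₗᵢ[ℝ] Z)) := by
  classical
  intro h
  obtain ⟨K, hK, h⟩ := h ℂ
  set D := insert 0 K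
  have hD : IsCompact D := hK.insert 0
  obtain ⟨f, f1, f2⟩ := sepQ (D := D) (mem_insert _ _)
  let m : D → Seminorm ℝ (EE D) := fun a =>
    (normSeminorm ℝ ℝ).comp (PR ⟨1, d_lip a⟩).toLinearMap
  have m1 : ∀ a c, m a c ≤ q (NN D) c := fun a c => (pr_q (d_lip a) c).trans_eq (one_mul _)
  let p := ((⨆ a, m a) + (normSeminorm ℝ ℂ).comp bb.toLinearMap).comp ((1 / 2 : ℝ) • LinearMap.id)
  have p0 : ∀ c, p c = ((⨆ a, m a) c + ‖bb c‖) / 2 := fun c =>
    (map_smul_eq_mul ((⨆ a, m a) + (normSeminorm ℝ ℂ).comp bb.toLinearMap) (1 / 2 : ℝ) c).trans (by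
      rw [Real.norm_of_nonneg (by norm_num), mul_comm, mul_one_div]; rfl)
  have p1 : ∀ c, (⨆ a, m a) c ≤ q (NN D) c := fun c => sup_le m c (apply_nonneg _ _) (m1 · c)
  have p2 : ∀ c, p c ≤ q (NN D) c := fun c => by linarith [p0 c, p1 c, bb_le c]
  obtain ⟨P, P1, P2, P3⟩ := avg (q (NN D))
    (fun n => p ⊔ (normSeminorm ℝ ℝ).comp (f n).toLinearMap) fun n c => max_le (p2 c) (f1 n c)
  have q1 : ∀ c, q (NN D) c ≤ ‖c‖ := fun c => by simpa using q_le c (NN D).zero_mem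
  obtain ⟨Z, _, _, _, π, π1, π2⟩ := renorm P (fun c => by linarith [(P1 c).2, q1 c]) fun c ε hε => by
    obtain ⟨y, y1, y2⟩ := (infDist_lt_iff ⟨0, (NN D).zero_mem⟩).1 ((q_eq (NN D) c).ge.trans_lt
      (lt_add_of_pos_right _ hε))
    rw [dist_eq_norm] at y2
    refine ⟨c - y, le_antisymm ((P1 _).2.trans ?_) (apply_nonneg _ _), by linarith [(P1 c).1]⟩
    simpa using q_le y y1
  let φ : K → EE D := fun x =>
    lp.single 1 (⟨x, mem_insert_of_mem _ x.2⟩, ⟨0, mem_insert _ _⟩) ‖(x : ℂ) - 0‖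
  obtain ⟨T⟩ := h Z ⟨fun x => π (φ x), Isometry.of_dist_eq fun x y => by
    have a1 : ∀ g, Lip g → pr g (φ x - φ y) = g x - g y := fun g hg => by
      rw [← PR_ap hg, map_sub, PR_ap, PR_ap,
        pr_single g (⟨x, mem_insert_of_mem _ x.2⟩, ⟨0, mem_insert _ _⟩),
        pr_single g (⟨y, mem_insert_of_mem _ y.2⟩, ⟨0, mem_insert _ _⟩)]
      ring
    have a2 : ‖bb (φ x - φ y)‖ = ‖(x : ℂ) - y‖ :=
      congrArg _ (Complex.ext (by rw [bb_re, a1 _ re_lip]; rfl) (by rw [bb_im, a1 _ im_lip]; rfl))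
    have a3 : q (NN D) (φ x - φ y) ≤ ‖(x : ℂ) - y‖ := by
      refine (q_le _ (y := φ x - φ y - lp.single 1
        (⟨x, mem_insert_of_mem _ x.2⟩, ⟨y, mem_insert_of_mem _ y.2⟩) ‖(x : ℂ) - y‖)
        (mem_NN.2 fun g hg => ?_)).trans ?_
      · rw [← PR_ap hg, map_sub, PR_ap, PR_ap, a1 g hg,
          pr_single g (⟨x, mem_insert_of_mem _ x.2⟩, ⟨y, mem_insert_of_mem _ y.2⟩), sub_self]
      · rw [sub_sub_cancel, lp.norm_single (by norm_num), norm_norm]
    have a4 := le_sup m _ m1 ⟨y, mem_insert_of_mem _ y.2⟩ (φ x - φ y)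
    replace a4 : |pr (fun z => ‖z - y‖) (φ x - φ y)| ≤ _ := a4
    rw [a1 _ ⟨1, d_lip y⟩, sub_self, norm_zero, sub_zero, abs_norm] at a4
    rw [dist_eq_norm, ← map_sub, π2, Subtype.dist_eq, dist_eq_norm, P2 _ fun n =>
      le_max_of_le_left (by linarith [p0 (φ x - φ y)])]
    linarith [bb_le (φ x - φ y)]⟩
  obtain ⟨g, hg⟩ := π.exists_rightInverse_of_surjective π1
  set S := g.comp T.toLinearMap
  have s1 : ∀ v, P (S v) = ‖v‖ := fun v => by
    rw [← π2, ← T.norm_map v]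
    exact congrArg _ (LinearMap.congr_fun hg _)
  have s2 : ∀ v, q (NN D) (S v) ≤ p (S v) := fun v => f2 _ _ fun n => by
    obtain ⟨w, w0, hw⟩ := P3 n
    refine corner (p.comp S) ((f n).toLinearMap.comp S) (fun v => ?_) w0 (fun x y => ?_) v
    · linarith [p2 (S v), (P1 (S v)).1, s1 v, show p.comp S v = p (S v) from rfl]
    · have := hw (S x) (S y)
      rw [← map_add S, ← map_sub S, s1, s1, s1] at this
      exact this
  refine nosub hD S (fun v hv => ?_) (fun v => ?_) fun v => ?_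
  · linarith [(P1 (S v)).2, s1 v, norm_pos_iff.2 hv]
  · linarith [s2 v, p0 (S v), p1 (S v), bb_le (S v)]
  · obtain ⟨a, a1, a2⟩ := hD.exists_isMaxOn (insert_nonempty _ _)
      (pr_cont d_lip (fun x => by fun_prop) (S v)).abs.continuousOn
    have a3 := sup_le m (S v) (abs_nonneg _) fun b => a2 b.2
    have a4 := m1 ⟨a, a1⟩ (S v)
    exact ⟨a, a1, le_antisymm a4 (by linarith [s2 v, p0 (S v), bb_le (S v)])⟩

end Pool.Agent.H87.Irs
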