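import Mathlib

/-! The James space over the rationals. -/

set_option autoImplicit false

namespace Pool.Agent.H87.JQ

open Filter Topology Set
open scoped ENNReal

abbrev T := LowerSet ℚ

/-- finite families of non-overlapping order intervals -/
def Adm (s : Finset (T × T)) : Prop :=
  (∀ p ∈ s, p.1 ≤ p.2) ∧ ∀ p ∈ s, ∀ r ∈ s, p ≠ r → p.2 ≤ r.1 ∨ r.2 ≤ p.1

open Classical in
noncomputable def ind (q : ℚ) (t : T) : ℝ := if q ∈ t then 1 else 0

lemma ind_of_mem {q : ℚ} {t : T} (h : q ∈ t) : ind q t = 1 := if_pos h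
lemma ind_of_not {q : ℚ} {t : T} (h : q ∉ t) : ind q t = 0 := if_neg h

lemma ind_sub {q : ℚ} {p : T × T} (hp : p.1 ≤ p.2) (h : ¬ (q ∈ p.2 ∧ q ∉ p.1)) :
    ind q p.2 - ind q p.1 = 0 := by
  by_cases h1 : q ∈ p.1
  · rw [ind_of_mem h1, ind_of_mem (hp h1), sub_self]
  · rw [ind_of_not h1, ind_of_not fun h2 => h ⟨h2, h1⟩, sub_self]

lemma Adm.uniq {s : Finset (T × T)} (h : Adm s) {q : ℚ} {p r : T × T} (hp : p ∈ s) (hr : r ∈ s)
    (h1 : q ∈ p.2 ∧ q ∉ p.1) (h2 : q ∈ r.2 ∧ q ∉ r.1) : p = r := by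
  by_contra hn
  rcases h.2 p hp r hr hn with h | h
  · exact h2.2 (h h1.1)
  · exact h1.2 (h h2.1)

open Classical in
lemma Adm.card_le {s : Finset (T × T)} (h : Adm s) (J : Finset ℚ) :
    (s.filter fun p => ∃ q ∈ J, q ∈ p.2 ∧ q ∉ p.1).card ≤ J.card := by
  refine Finset.card_le_card_of_forall_subsingleton (fun p q => q ∈ p.2 ∧ q ∉ p.1)
    (fun p hp => ?_) fun q _ p hp r hr => ?_
  · obtain ⟨q, h1, h2⟩ := (Finset.mem_filter.1 hp).2
    exact ⟨q, h1, h2⟩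
  · exact h.uniq (Finset.mem_filter.1 hp.1).1 (Finset.mem_filter.1 hr.1).1 hp.2 hr.2

open Classical in
lemma Adm.sum_le {s : Finset (T × T)} (h : Adm s) (J : Finset ℚ) (d : T × T → ℝ) {B : ℝ}
    (hB : 0 ≤ B) (h1 : ∀ p ∈ s, d p ≤ B) (h2 : ∀ p ∈ s, ¬ (∃ q ∈ J, q ∈ p.2 ∧ q ∉ p.1) → d p = 0) :
    ∑ p ∈ s, d p ≤ J.card * B := by
  rw [← Finset.sum_filter_add_sum_filter_not s (fun p => ∃ q ∈ J, q ∈ p.2 ∧ q ∉ p.1),
    Finset.sum_eq_zero (s := s.filter fun p => ¬ ∃ q ∈ J, q ∈ p.2 ∧ q ∉ p.1) fun p hp =>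
      h2 p (Finset.mem_filter.1 hp).1 (Finset.mem_filter.1 hp).2, add_zero]
  refine (Finset.sum_le_card_nsmul _ _ B fun p hp => h1 p (Finset.mem_filter.1 hp).1).trans ?_
  rw [nsmul_eq_mul]
  exact mul_le_mul_of_nonneg_right (by exact_mod_cast h.card_le J) hB

lemma adm_single {p : T × T} (h : p.1 ≤ p.2) : Adm {p} := ⟨by simpa using h, by simp⟩

/-- The structure of the James space over the rationals. -/
structure Sys (X : Type) [NormedAddCommGroup X] [NormedSpace ℝ X] where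
  e : ℚ → X
  δ : T → X →L[ℝ] ℝ
  dense : Dense (Submodule.span ℝ (range e) : Set X)
  val : ∀ t q, δ t (e q) = ind q t
  low : ∀ x s, Adm s → ∑ p ∈ s, (δ p.2 x - δ p.1 x) ^ 2 ≤ ‖x‖ ^ 2
  up : ∀ x (C : ℝ), 0 ≤ C → (∀ s, Adm s → ∑ p ∈ s, (δ p.2 x - δ p.1 x) ^ 2 ≤ C ^ 2) → ‖x‖ ≤ C

noncomputable abbrev E := lp (fun s : {s // Adm s} => EuclideanSpace ℝ s.1) ∞

lemma ind_sq (q : ℚ) (p : T × T) : (ind q p.2 - ind q p.1) ^ 2 ≤ 1 := by
  unfold ind; split_ifs <;> norm_num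

lemma sum_ind {s : Finset (T × T)} (h : Adm s) (q : ℚ) :
    ∑ p ∈ s, (ind q p.2 - ind q p.1) ^ 2 ≤ 1 := by
  have := h.sum_le {q} (fun p => (ind q p.2 - ind q p.1) ^ 2) zero_le_one (fun p _ => ind_sq q p)
    fun p hp hn => by rw [ind_sub (h.1 p hp) fun h' => hn ⟨q, Finset.mem_singleton_self q, h'⟩]; simp
  simpa using this

noncomputable def e0 (q : ℚ) : E :=
  ⟨fun s => WithLp.toLp 2 fun p => ind q p.1.2 - ind q p.1.1, memℓp_infty ⟨1, by
    rintro _ ⟨s, rfl⟩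
    show ‖_‖ ≤ 1
    rw [EuclideanSpace.norm_eq, Real.sqrt_le_one]
    simp only [Real.norm_eq_abs, sq_abs]
    rw [Finset.sum_coe_sort s.1 fun p => (ind q p.2 - ind q p.1) ^ 2]
    exact sum_ind s.2 q⟩⟩

noncomputable def co (s : {s // Adm s}) (p : s.1) : E →L[ℝ] ℝ :=
  LinearMap.mkContinuous
    { toFun := fun x => x s p, map_add' := fun _ _ => rfl, map_smul' := fun _ _ => rfl } 1
    fun x => by
      rw [one_mul]
      exact (PiLp.norm_apply_le (x s) p).trans (lp.norm_apply_le_norm ENNReal.top_ne_zero x s)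

noncomputable def ev (t : T) : E →L[ℝ] ℝ :=
  co ⟨{(⊥, t)}, adm_single bot_le⟩ ⟨(⊥, t), Finset.mem_singleton_self _⟩

lemma ev_e0 (t : T) (q : ℚ) : ev t (e0 q) = ind q t := by
  show ind q t - ind q ⊥ = _
  rw [ind_of_not (t := ⊥) (by simp), sub_zero]

noncomputable abbrev X0 : Submodule ℝ E := (Submodule.span ℝ (range e0)).topologicalClosure

lemma co_eq (x : X0) (s : {s // Adm s}) (p : s.1) : x.1 s p = ev p.1.2 x - ev p.1.1 x := by
  have h : X0 ≤ (co s p - (ev p.1.2 - ev p.1.1)).ker := by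
    refine Submodule.topologicalClosure_minimal _ (Submodule.span_le.2 ?_)
      (ContinuousLinearMap.isClosed_ker _)
    rintro _ ⟨q, rfl⟩
    show co s p (e0 q) - (ev p.1.2 (e0 q) - ev p.1.1 (e0 q)) = 0
    rw [ev_e0, ev_e0]
    exact sub_self _
  exact sub_eq_zero.1 (h x.2)

lemma norm_sq (x : X0) (s : {s // Adm s}) :
    ‖x.1 s‖ ^ 2 = ∑ p ∈ s.1, (ev p.2 x - ev p.1 x) ^ 2 := by
  rw [EuclideanSpace.norm_sq_eq, ← Finset.sum_coe_sort s.1]
  exact Finset.sum_congr rfl fun p _ => by rw [co_eq, Real.norm_eq_abs, sq_abs]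

noncomputable def sys : Sys X0 where
  e := fun q => ⟨e0 q, Submodule.le_topologicalClosure _ (Submodule.subset_span ⟨q, rfl⟩)⟩
  δ := fun t => (ev t).comp X0.subtypeL
  dense := by
    rw [Subtype.dense_iff]
    refine closure_mono ?_
    intro x hx
    have : Submodule.span ℝ (range e0) ≤ Submodule.map X0.subtype (Submodule.span ℝ (range
        fun q => (⟨e0 q, Submodule.le_topologicalClosure _
          (Submodule.subset_span ⟨q, rfl⟩)⟩ : X0))) :=
      Submodule.span_le.2 (by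
        rintro _ ⟨q, rfl⟩
        exact ⟨_, Submodule.subset_span ⟨q, rfl⟩, rfl⟩)
    exact this hx
  val := ev_e0
  low := fun x s h => by
    have := norm_sq x ⟨s, h⟩
    refine le_of_eq_of_le this.symm (pow_le_pow_left₀ (norm_nonneg _) ?_ 2)
    exact lp.norm_apply_le_norm ENNReal.top_ne_zero x.1 _
  up := fun x C hC h => lp.norm_le_of_forall_le hC fun s => by
    refine (pow_le_pow_iff_left₀ (norm_nonneg _) hC two_ne_zero).1 ?_
    exact (norm_sq x s).trans_le (h s.1 s.2)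

instance : CompleteSpace X0 := (Submodule.isClosed_topologicalClosure _).completeSpace_coe

variable {X : Type} [NormedAddCommGroup X] [NormedSpace ℝ X] (S : Sys X)

include S in
lemma Sys.sep : TopologicalSpace.SeparableSpace X :=
  TopologicalSpace.isSeparable_univ_iff.1
    ((countable_range S.e).isSeparable.span.closure.mono fun x _ => S.dense x)

lemma Sys.ext {f g : X →L[ℝ] ℝ} (h : ∀ q, f (S.e q) = g (S.e q)) : f = g :=
  ContinuousLinearMap.ext_on S.dense (by rintro _ ⟨q, rfl⟩; exact h q)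

lemma Sys.bot : S.δ ⊥ = 0 := S.ext fun q => by rw [S.val, ind_of_not (by simp)]; rfl

lemma Sys.sub_le (x : X) {s t : T} (h : s ≤ t) : |S.δ t x - S.δ s x| ≤ ‖x‖ := by
  have := S.low x {(s, t)} (adm_single h)
  rw [Finset.sum_singleton] at this
  exact abs_le_of_sq_le_sq this (norm_nonneg _)

lemma Sys.abs_le (x : X) (t : T) : |S.δ t x| ≤ ‖x‖ := by
  have := S.sub_le x (bot_le : ⊥ ≤ t)
  rwa [S.bot, _root_.zero_apply, sub_zero] at this

lemma Sys.norm_e (q : ℚ) : ‖S.e q‖ ≤ 1 :=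
  S.up _ 1 zero_le_one fun s h => by simpa [S.val] using sum_ind h q

end Pool.Agent.H87.JQ
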