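import Pool.Agent.H87.JQ1
import Pool.Agent.H87.GatD
import Pool.Agent.H87.L1R

/-! The James space over the rationals contains no copy of `ℓ¹`. -/

set_option autoImplicit false

namespace Pool.Agent.H87.JQ

open Filter Topology Set

variable {X : Type} [NormedAddCommGroup X] [NormedSpace ℝ X] (S : Sys X)

lemma ulim (U : Ultrafilter ℕ) (α : ℕ → X →L[ℝ] ℝ) (h : ∀ k w, |α k w| ≤ ‖w‖) :
    ∃ y : X →L[ℝ] ℝ, ‖y‖ ≤ 1 ∧ ∀ w, Tendsto (fun k => α k w) U (𝓝 (y w)) := by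
  obtain ⟨y, hy, h1⟩ := (WeakDual.isCompact_closedBall (𝕜 := ℝ) (E := X) 0 1).ultrafilter_le_nhds
    (U.map fun k => StrongDual.toWeakDual (α k)) (by
      rw [Ultrafilter.coe_map, le_principal_iff, mem_map]
      exact Eventually.of_forall fun k => mem_closedBall_zero_iff.2
        (ContinuousLinearMap.opNorm_le_bound _ zero_le_one fun w => by
          rw [one_mul]; exact h k w))
  exact ⟨WeakDual.toStrongDual y, mem_closedBall_zero_iff.1 hy,
    fun w => ((WeakDual.eval_continuous w).tendsto y).comp h1⟩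

lemma Sys.dlim (U : Ultrafilter ℕ) (t : ℕ → T) :
    ∃ L, ∀ w, Tendsto (fun k => S.δ (t k) w) U (𝓝 (S.δ L w)) := by
  obtain ⟨y, -, hy⟩ := ulim U (fun k => S.δ (t k)) fun k w => S.abs_le w _
  let L : T := ⟨{q | ∀ᶠ k in U, q ∈ t k}, fun a b hab ha => ha.mono fun k hk => (t k).lower hab hk⟩
  have : y = S.δ L := S.ext fun q => by
    refine tendsto_nhds_unique (hy _) ?_
    simp only [S.val]
    by_cases hq : q ∈ L
    · rw [ind_of_mem hq]
      exact tendsto_const_nhds.congr' (Eventually.mono hq fun k hk => (ind_of_mem hk).symm)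
    · rw [ind_of_not hq]
      exact tendsto_const_nhds.congr' ((Ultrafilter.eventually_not.2 hq).mono
        fun k hk => (ind_of_not hk).symm)
  exact ⟨L, this ▸ hy⟩

lemma Adm.sub {s r : Finset (T × T)} (h : Adm s) (hr : r ⊆ s) : Adm r :=
  ⟨fun p hp => h.1 p (hr hp), fun p hp q hq => h.2 p (hr hp) q (hr hq)⟩

lemma Sys.cs {s : Finset (T × T)} (h : Adm s) (u w : X) :
    |∑ p ∈ s, (S.δ p.2 u - S.δ p.1 u) * (S.δ p.2 w - S.δ p.1 w)| ≤ ‖u‖ * ‖w‖ := by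
  refine abs_le_of_sq_le_sq ((Finset.sum_mul_sq_le_sq_mul_sq s _ _).trans ?_) (by positivity)
  rw [mul_pow]
  exact mul_le_mul (S.low u s h) (S.low w s h) (Finset.sum_nonneg fun _ _ => sq_nonneg _)
    (sq_nonneg _)

lemma Sys.est (z : X) {ε : ℝ} (hε : 0 < ε) : ∃ J : Finset ℚ, ∀ s, Adm s → ∃ I : ℚ → T × T, ∀ w,
    |∑ p ∈ s, (S.δ p.2 z - S.δ p.1 z) * (S.δ p.2 w - S.δ p.1 w)| ≤
      ‖z‖ * ∑ q ∈ J, |S.δ (I q).2 w - S.δ (I q).1 w| + ε * ‖w‖ := by
  classical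
  obtain ⟨z', h1, h2⟩ := S.dense.exists_dist_lt z hε
  obtain ⟨c, rfl⟩ := Finsupp.mem_span_range_iff_exists_finsupp.1 h1
  refine ⟨c.support, fun s hs => ?_⟩
  have hI : ∀ q : ℚ, ∃ r : T × T, ∀ p ∈ s, q ∈ p.2 ∧ q ∉ p.1 → p = r := fun q => by
    by_cases h : ∃ p ∈ s, q ∈ p.2 ∧ q ∉ p.1
    · obtain ⟨r, hr, h⟩ := h
      exact ⟨r, fun p hp h' => hs.uniq hp hr h' h⟩
    · exact ⟨(⊥, ⊥), fun p hp h' => absurd ⟨p, hp, h'⟩ h⟩
  choose I hI using hI
  refine ⟨I, fun w => ?_⟩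
  rw [← Finset.sum_filter_add_sum_filter_not s (fun p => ∃ q ∈ c.support, q ∈ p.2 ∧ q ∉ p.1)]
  refine (abs_add_le _ _).trans (add_le_add ?_ ?_)
  · refine (Finset.abs_sum_le_sum_abs _ _).trans ?_
    calc _ ≤ ∑ p ∈ s.filter (fun p => ∃ q ∈ c.support, q ∈ p.2 ∧ q ∉ p.1),
          ‖z‖ * |S.δ p.2 w - S.δ p.1 w| := Finset.sum_le_sum fun p hp => by
            rw [abs_mul]
            exact mul_le_mul_of_nonneg_right (S.sub_le z (hs.1 p (Finset.mem_filter.1 hp).1))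
              (abs_nonneg _)
      _ ≤ ∑ p ∈ c.support.image I, ‖z‖ * |S.δ p.2 w - S.δ p.1 w| :=
          Finset.sum_le_sum_of_subset_of_nonneg (fun p hp => by
            obtain ⟨h3, q, h4, h5⟩ := Finset.mem_filter.1 hp
            exact Finset.mem_image.2 ⟨q, h4, (hI q p h3 h5).symm⟩) fun _ _ _ => by positivity
      _ ≤ _ := by
          rw [Finset.mul_sum]
          exact Finset.sum_image_le_of_nonneg fun _ _ => by positivity
  · have h3 := S.cs (hs.sub (Finset.filter_subset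
      (fun p => ¬ ∃ q ∈ c.support, q ∈ p.2 ∧ q ∉ p.1) s)) (z - c.sum fun i a => a • S.e i) w
    rw [dist_eq_norm] at h2
    refine le_trans (le_of_eq ?_) (h3.trans (mul_le_mul_of_nonneg_right h2.le (norm_nonneg _)))
    congr 1
    refine Finset.sum_congr rfl fun p hp => ?_
    obtain ⟨h4, h5⟩ := Finset.mem_filter.1 hp
    have : S.δ p.2 (c.sum fun i a => a • S.e i) - S.δ p.1 (c.sum fun i a => a • S.e i) = 0 := by
      simp only [Finsupp.sum, map_sum, map_smul, S.val, smul_eq_mul]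
      rw [← Finset.sum_sub_distrib]
      exact Finset.sum_eq_zero fun q hq => by
        rw [← mul_sub, ind_sub (hs.1 p h4) fun h => h5 ⟨q, hq, h⟩, mul_zero]
    rw [map_sub, map_sub]
    congr 1
    linarith

theorem Sys.support (z : X) : ∃ y : X →L[ℝ] ℝ, ‖y‖ ≤ 1 ∧ y z = ‖z‖ ∧
    ∀ w : ℕ → X, (∀ n, ‖w n‖ ≤ 1) → (∀ t, Tendsto (fun n => S.δ t (w n)) atTop (𝓝 0)) →
      ∀ ε > 0, ∀ᶠ n in atTop, y (w n) ≤ ε := by
  by_cases hz : z = 0
  · exact ⟨0, by simp, by simp [hz], fun w _ _ ε hε => Eventually.of_forall fun n => hε.le⟩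
  have hz0 : 0 < ‖z‖ := norm_pos_iff.2 hz
  have h1 : ∀ k : ℕ, ∃ s, Adm s ∧
      ((1 - 1 / ((k : ℝ) + 1)) * ‖z‖) ^ 2 < ∑ p ∈ s, (S.δ p.2 z - S.δ p.1 z) ^ 2 := fun k => by
    by_contra hn
    push Not at hn
    have a1 : 0 < 1 / ((k : ℝ) + 1) := Nat.one_div_pos_of_nat
    have a2 : 1 / ((k : ℝ) + 1) ≤ 1 := by
      rw [div_le_one (by positivity)]; linarith [Nat.cast_nonneg (α := ℝ) k]
    have := S.up z _ (mul_nonneg (by linarith) hz0.le) hn
    nlinarith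
  choose s hs1 hs2 using h1
  let α : ℕ → X →L[ℝ] ℝ := fun k =>
    ‖z‖⁻¹ • ∑ p ∈ s k, (S.δ p.2 z - S.δ p.1 z) • (S.δ p.2 - S.δ p.1)
  have hα : ∀ k w, α k w =
      ‖z‖⁻¹ * ∑ p ∈ s k, (S.δ p.2 z - S.δ p.1 z) * (S.δ p.2 w - S.δ p.1 w) := fun k w => by
    simp only [α, _root_.smul_apply, _root_.sum_apply, _root_.sub_apply, smul_eq_mul]
  obtain ⟨y, hy1, hy2⟩ := ulim (hyperfilter ℕ) α fun k w => by
    rw [hα, abs_mul, abs_inv, abs_norm, inv_mul_le_iff₀ hz0]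
    exact S.cs (hs1 k) z w
  refine ⟨y, hy1, le_antisymm ((le_abs_self _).trans ((y.le_opNorm z).trans
    (mul_le_of_le_one_left hz0.le hy1))) ?_, fun w hw hw0 ε hε => ?_⟩
  · have h2 : Tendsto (fun k : ℕ => ‖z‖⁻¹ * ((1 - 1 / ((k : ℝ) + 1)) * ‖z‖) ^ 2) (hyperfilter ℕ)
        (𝓝 (‖z‖⁻¹ * ((1 - 0) * ‖z‖) ^ 2)) :=
      ((((tendsto_one_div_add_atTop_nhds_zero_nat.const_sub 1).mul_const _).pow 2).const_mul
        _).mono_left Nat.hyperfilter_le_atTop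
    have h3 := le_of_tendsto_of_tendsto' h2 (hy2 z) fun k => by
      rw [hα]
      refine mul_le_mul_of_nonneg_left ((hs2 k).le.trans_eq ?_) (by positivity)
      simp only [sq]
    refine le_of_eq_of_le ?_ h3
    field_simp
    ring
  · obtain ⟨J, hJ⟩ := S.est z (ε := ε / 2 * ‖z‖) (by positivity)
    choose I hI using fun k => hJ (s k) (hs1 k)
    choose L1 hL1 using fun q => S.dlim (hyperfilter ℕ) fun k => (I k q).1
    choose L2 hL2 using fun q => S.dlim (hyperfilter ℕ) fun k => (I k q).2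
    have h2 : ∀ u, y u ≤ ∑ q ∈ J, |S.δ (L2 q) u - S.δ (L1 q) u| + ε / 2 * ‖u‖ := fun u =>
      le_of_tendsto_of_tendsto' (hy2 u)
        ((tendsto_finsetSum J fun q _ => ((hL2 q u).sub (hL1 q u)).abs).add_const _) fun k => by
          rw [hα, inv_mul_le_iff₀ hz0]
          have := (le_abs_self _).trans (hI k u)
          linarith
    have h3 := tendsto_finsetSum J fun q _ => ((hw0 (L2 q)).sub (hw0 (L1 q))).abs
    simp only [sub_self, abs_zero, Finset.sum_const_zero] at h3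
    filter_upwards [h3.eventually_le_const (half_pos hε)] with n hn
    have := mul_le_mul_of_nonneg_left (hw n) (half_pos hε).le
    linarith [h2 (w n)]

/-- variation up to `t` -/
noncomputable def Sys.var (x : X) (t : T) : ℝ :=
  sSup {c | ∃ s, Adm s ∧ (∀ p ∈ s, p.2 ≤ t) ∧ c = ∑ p ∈ s, (S.δ p.2 x - S.δ p.1 x) ^ 2}

lemma Sys.le_var (x : X) {t : T} {s : Finset (T × T)} (h : Adm s) (h' : ∀ p ∈ s, p.2 ≤ t) :
    ∑ p ∈ s, (S.δ p.2 x - S.δ p.1 x) ^ 2 ≤ S.var x t :=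
  le_csSup ⟨‖x‖ ^ 2, by rintro _ ⟨s, h1, -, rfl⟩; exact S.low x s h1⟩ ⟨s, h, h', rfl⟩

lemma Sys.var_le (x : X) {t : T} {C : ℝ} (h : ∀ s, Adm s → (∀ p ∈ s, p.2 ≤ t) →
    ∑ p ∈ s, (S.δ p.2 x - S.δ p.1 x) ^ 2 ≤ C) : S.var x t ≤ C :=
  csSup_le ⟨_, ∅, ⟨by simp, by simp⟩, by simp, rfl⟩ (by rintro _ ⟨s, h1, h2, rfl⟩; exact h s h1 h2)

lemma Sys.var_mem (x : X) (t : T) : S.var x t ∈ Icc 0 (‖x‖ ^ 2) :=
  ⟨by simpa using S.le_var x (t := t) (s := ∅) ⟨by simp, by simp⟩ (by simp),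
    S.var_le x fun s h _ => S.low x s h⟩

lemma Sys.var_add (x : X) {t u : T} (h : t ≤ u) :
    S.var x t + (S.δ u x - S.δ t x) ^ 2 ≤ S.var x u := by
  classical
  rw [← le_sub_iff_add_le]
  refine S.var_le x fun s h1 h2 => ?_
  by_cases hm : (t, u) ∈ s
  · have : u = t := le_antisymm (h2 _ hm) h
    have h3 := S.le_var x h1 h2
    rw [this]; simpa using h3
  · have := S.le_var x (t := u) (s := insert (t, u) s) ⟨?_, ?_⟩ ?_
    · rw [Finset.sum_insert hm] at this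
      linarith
    · intro p hp
      rcases Finset.mem_insert.1 hp with rfl | hp
      exacts [h, h1.1 p hp]
    · intro p hp r hr hne
      rcases Finset.mem_insert.1 hp with rfl | hp <;> rcases Finset.mem_insert.1 hr with rfl | hr
      exacts [absurd rfl hne, Or.inr (h2 r hr), Or.inl (h2 p hp), h1.2 p hp r hr hne]
    · intro p hp
      rcases Finset.mem_insert.1 hp with rfl | hp
      exacts [le_rfl, (h2 p hp).trans h]

lemma rlim (U : Ultrafilter ℕ) (f : ℕ → ℝ) (a b : ℝ) (h : ∀ n, f n ∈ Icc a b) :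
    ∃ l, Tendsto f U (𝓝 l) := by
  obtain ⟨l, -, hl⟩ := (isCompact_Icc (a := a) (b := b)).ultrafilter_le_nhds (U.map f) (by
    rw [Ultrafilter.coe_map, le_principal_iff, mem_map]; exact Eventually.of_forall h)
  exact ⟨l, hl⟩

theorem Sys.helly (x : ℕ → X) (M : ℝ) (hx : ∀ n, ‖x n‖ ≤ M) :
    ∃ φ : ℕ → ℕ, StrictMono φ ∧
      ∀ t, Tendsto (fun n => S.δ t (x (φ (2 * n))) - S.δ t (x (φ (2 * n + 1)))) atTop (𝓝 0) := by
  choose w hw using fun t => rlim (hyperfilter ℕ) (fun n => S.var (x n) t) 0 (M ^ 2) fun n =>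
    ⟨(S.var_mem _ t).1, (S.var_mem _ t).2.trans (pow_le_pow_left₀ (norm_nonneg _) (hx n) 2)⟩
  choose F hF using fun t => rlim (hyperfilter ℕ) (fun n => S.δ t (x n)) (-M) M fun n =>
    _root_.abs_le.1 ((S.abs_le _ t).trans (hx n))
  have wm : Monotone w := fun t u h => le_of_tendsto_of_tendsto' (hw t) (hw u) fun n => by
    linarith [S.var_add (x n) h, sq_nonneg (S.δ u (x n) - S.δ t (x n))]
  let D0 : Set T := insert ⊥ (insert ⊤ (range LowerSet.Iic))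
  have hD0 : D0.Countable := ((countable_range _).insert _).insert _
  let B : Set T := {t | ∃ ε > 0, ∀ d ∈ D0, ∀ d' ∈ D0, d ≤ t → t ≤ d' → ε ≤ w d' - w d}
  have hB : B.Countable := by
    choose! ε hε1 hε2 using fun t (ht : t ∈ B) => ht
    let lo : T → ℝ := fun t => sSup (w '' {d ∈ D0 | d ≤ t})
    have key : ∀ t ∈ B, ∀ u, t < u → lo t + ε t ≤ lo u := by
      intro t ht u htu
      obtain ⟨q, h1, h2⟩ := not_subset.1 (show ¬ (u : Set ℚ) ⊆ t from htu.not_ge)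
      have a1 : t ≤ LowerSet.Iic q := fun a ha => le_of_not_gt fun h => h2 (t.lower h.le ha)
      have a2 : LowerSet.Iic q ≤ u := fun a ha => u.lower ha h1
      have a3 : LowerSet.Iic q ∈ D0 := Or.inr (Or.inr ⟨q, rfl⟩)
      have a4 : w (LowerSet.Iic q) ≤ lo u :=
        le_csSup ⟨w u, by rintro _ ⟨d, hd, rfl⟩; exact wm hd.2⟩ ⟨_, ⟨a3, a2⟩, rfl⟩
      have a5 : lo t ≤ w (LowerSet.Iic q) - ε t :=
        csSup_le ⟨_, ⊥, ⟨Or.inl rfl, bot_le⟩, rfl⟩ (by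
          rintro _ ⟨d, hd, rfl⟩
          linarith [hε2 t ht d hd.1 _ a3 hd.2 a1])
      linarith
    refine Set.PairwiseDisjoint.countable_of_isOpen (s := fun t => Ioo (lo t) (lo t + ε t))
      (fun t ht u hu hne => ?_) (fun _ _ => isOpen_Ioo)
      fun t ht => nonempty_Ioo.2 (by linarith [hε1 t ht])
    rcases lt_or_gt_of_ne hne with h | h
    · exact Set.disjoint_left.2 fun a h1 h2 => by linarith [key t ht u h, h1.2, h2.1]
    · exact Set.disjoint_left.2 fun a h1 h2 => by linarith [key u hu t h, h1.1, h2.2]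
  have hD : Countable ↥(D0 ∪ B) := (hD0.union hB).to_subtype
  have hG : Tendsto (fun n (d : ↥(D0 ∪ B)) => (S.var (x n) d, S.δ d (x n))) (hyperfilter ℕ)
      (𝓝 fun d => (w d, F d)) := tendsto_pi_nhds.2 fun d => (hw d).prodMk_nhds (hF d)
  obtain ⟨φ, hφ, h⟩ := (hG.mapClusterPt.mono Nat.hyperfilter_le_atTop).tendsto_subseq
  have h1 : ∀ d ∈ D0 ∪ B, Tendsto (fun n => S.var (x (φ n)) d) atTop (𝓝 (w d)) := fun d hd =>
    (tendsto_pi_nhds.1 h ⟨d, hd⟩).fst_nhds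
  have h2 : ∀ d ∈ D0 ∪ B, Tendsto (fun n => S.δ d (x (φ n))) atTop (𝓝 (F d)) := fun d hd =>
    (tendsto_pi_nhds.1 h ⟨d, hd⟩).snd_nhds
  have e1 : Tendsto (fun n : ℕ => 2 * n) atTop atTop :=
    tendsto_atTop_mono (fun n => by simp only [id]; omega) tendsto_id
  have e2 : Tendsto (fun n : ℕ => 2 * n + 1) atTop atTop :=
    tendsto_atTop_mono (fun n => by simp only [id]; omega) tendsto_id
  have h3 : ∀ d ∈ D0 ∪ B, Tendsto
      (fun n => S.δ d (x (φ (2 * n))) - S.δ d (x (φ (2 * n + 1)))) atTop (𝓝 0) := fun d hd => by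
    have := ((h2 d hd).comp e1).sub ((h2 d hd).comp e2)
    rwa [sub_self] at this
  refine ⟨φ, hφ, fun t => ?_⟩
  by_cases ht : t ∈ B
  · exact h3 t (Or.inr ht)
  simp only [B, mem_ofPred_eq] at ht
  push Not at ht
  rw [Metric.tendsto_nhds]
  intro ε hε
  obtain ⟨d, hd, d', hd', a1, a2, a3⟩ := ht ((ε / 3) ^ 2) (by positivity)
  have a4 : ∀ᶠ n in atTop, |S.δ t (x (φ n)) - S.δ d (x (φ n))| < ε / 3 := by
    filter_upwards [((h1 d' (Or.inl hd')).sub (h1 d (Or.inl hd))).eventually_lt_const a3] with n hn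
    refine abs_lt_of_sq_lt_sq ?_ (by positivity)
    linarith [S.var_add (x (φ n)) a1, S.var_add (x (φ n)) a2,
      sq_nonneg (S.δ d' (x (φ n)) - S.δ t (x (φ n)))]
  filter_upwards [e1.eventually a4, e2.eventually a4,
    Metric.tendsto_nhds.1 (h3 d (Or.inl hd)) (ε / 3) (by positivity)] with n b1 b2 b3
  rw [Real.dist_eq, sub_zero, abs_lt] at b3 ⊢
  rw [abs_lt] at b1 b2
  constructor <;> linarith [b1.1, b1.2, b2.1, b2.2, b3.1, b3.2]

include S in
theorem Sys.noL1 [CompleteSpace X] : ¬ ∃ (A : lp (fun _ : ℕ => ℝ) (1 : ENNReal) →L[ℝ] X) (c : ℝ),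
    0 < c ∧ ∀ y, c * ‖y‖ ≤ ‖A y‖ := by
  classical
  rintro ⟨A, c, hc, hA⟩
  have := S.sep
  let A' : L1R.L ℕ →L[ℝ] X := A
  have hA' : ∀ y, c * ‖y‖ ≤ ‖A' y‖ := hA
  have hM : 0 < ‖A'‖ + 1 := by positivity
  have hx : ∀ n, ‖A' (L1R.dl n)‖ ≤ ‖A'‖ + 1 := fun n => by
    have := A'.le_opNorm (L1R.dl n)
    rw [L1R.norm_dl] at this
    linarith
  obtain ⟨φ, hφ, h⟩ := S.helly (fun n => A' (L1R.dl n)) _ hx
  let r : ℝ := (2 * (‖A'‖ + 1))⁻¹
  have hr : 0 < r := by positivity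
  let w : ℕ → X := fun n => r • (A' (L1R.dl (φ (2 * n))) - A' (L1R.dl (φ (2 * n + 1))))
  have hw : ∀ n, ‖w n‖ ≤ 1 := fun n => by
    rw [norm_smul, Real.norm_of_nonneg hr.le, inv_mul_le_iff₀ (by positivity)]
    linarith [norm_sub_le (A' (L1R.dl (φ (2 * n)))) (A' (L1R.dl (φ (2 * n + 1)))),
      hx (φ (2 * n)), hx (φ (2 * n + 1))]
  have hw0 : ∀ t, Tendsto (fun n => S.δ t (w n)) atTop (𝓝 0) := fun t => by
    have := (h t).const_mul r
    rw [mul_zero] at this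
    simpa only [w, map_smul, map_sub, smul_eq_mul] using this
  let g : L1R.L ℕ →L[ℝ] ℝ := L1R.lift (fun m => if ∃ n, φ (2 * n) = m then (1 : ℝ) else 0) 1
    fun m => by split_ifs <;> simp
  have hg : ∀ y, g y ≤ ‖y‖ := fun y => by
    have : ‖g y‖ ≤ 1 * ‖y‖ := L1R.lift_le _ _ _ y
    rw [one_mul] at this
    exact (le_abs_self _).trans this
  have hβ : ∀ u ∈ convexHull ℝ (w '' Ici 0), c * r ≤ ‖u‖ := by
    intro u hu
    have hc' : Convex ℝ (A' '' {y | g y = r}) :=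
      (convex_hyperplane (g : L1R.L ℕ →ₗ[ℝ] ℝ).isLinear r).linear_image (A' : L1R.L ℕ →ₗ[ℝ] X)
    obtain ⟨y, h1, rfl⟩ := convexHull_min (t := A' '' {y | g y = r}) (by
      rintro _ ⟨n, -, rfl⟩
      refine ⟨r • (L1R.dl (φ (2 * n)) - L1R.dl (φ (2 * n + 1))), ?_, by simp [w]⟩
      show g _ = r
      rw [map_smul, map_sub, L1R.lift_dl, L1R.lift_dl, if_pos ⟨n, rfl⟩, if_neg]
      · simp
      · rintro ⟨k, hk⟩
        have := hφ.injective hk
        omega) hc' hu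
    have h2 : g y = r := h1
    have := mul_le_mul_of_nonneg_left (hg y) hc.le
    rw [h2] at this
    exact this.trans (hA' y)
  have hcr : 0 < c * r := by positivity
  obtain ⟨z, -, hz⟩ := GatD.simons0 (fun n => convexHull ℝ (w '' Ici n))
    (fun n => convex_convexHull _ _) (fun n => ⟨w n, subset_convexHull _ _ ⟨n, mem_Ici.2 le_rfl, rfl⟩⟩)
    (fun n m h => convexHull_mono (image_mono (Ici_subset_Ici.2 h)))
    (fun u hu => mem_closedBall_zero_iff.1 (convexHull_min (t := Metric.closedBall 0 1)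
      (by rintro _ ⟨n, -, rfl⟩; exact mem_closedBall_zero_iff.2 (hw n)) (convex_closedBall _ _) hu))
    (δ := min (c * r / 2) 1) (lt_min (half_pos hcr) one_pos) (min_le_right _ _) hβ
  obtain ⟨y, h1, h2, h3⟩ := S.support z
  obtain ⟨N, hN⟩ := eventually_atTop.1 (h3 w hw hw0 _ (half_pos hcr))
  obtain ⟨u, hu, h4⟩ := hz y h1 h2 N
  have h5 : y u ≤ c * r / 2 := convexHull_min (t := {u | y u ≤ c * r / 2})
    (by rintro _ ⟨n, hn, rfl⟩; exact hN n hn)
    (convex_halfSpace_le (y : X →ₗ[ℝ] ℝ).isLinear _) hu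
  linarith [min_le_left (c * r / 2) 1]

end Pool.Agent.H87.JQ
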