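import Pool.Agent.H87.GatB

/-! A Borwein-Preiss type argument: no Gateaux smooth norm in presence of a split interval. -/

set_option autoImplicit false

namespace Pool.Agent.H87.JQ

open Filter Topology Set

/-- rationals tending to `t` from the left -/
def lft (t : ℝ) : Filter ℚ := comap (fun q : ℚ => (q : ℝ)) (𝓝[<] t)
/-- rationals tending to `t` from the right -/
def rgt (t : ℝ) : Filter ℚ := comap (fun q : ℚ => (q : ℝ)) (𝓝[>] t)

lemma ev_lft {t : ℝ} {P : ℚ → Prop} :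
    (∀ᶠ q in lft t, P q) ↔ ∃ a < t, ∀ q : ℚ, a < q → (q : ℝ) < t → P q := by
  rw [lft, ((nhdsLT_basis t).comap _).eventually_iff]
  exact ⟨fun ⟨a, h1, h2⟩ => ⟨a, h1, fun q h3 h4 => h2 ⟨h3, h4⟩⟩,
    fun ⟨a, h1, h2⟩ => ⟨a, h1, fun q hq => h2 q hq.1 hq.2⟩⟩

lemma ev_rgt {t : ℝ} {P : ℚ → Prop} :
    (∀ᶠ q in rgt t, P q) ↔ ∃ a > t, ∀ q : ℚ, t < q → (q : ℝ) < a → P q := by
  rw [rgt, ((nhdsGT_basis t).comap _).eventually_iff]
  exact ⟨fun ⟨a, h1, h2⟩ => ⟨a, h1, fun q h3 h4 => h2 ⟨h3, h4⟩⟩,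
    fun ⟨a, h1, h2⟩ => ⟨a, h1, fun q hq => h2 q hq.1 hq.2⟩⟩

instance (t : ℝ) : (lft t).NeBot := by
  refine ⟨fun h => ?_⟩
  obtain ⟨a, h1, h2⟩ := (ev_lft (t := t) (P := fun _ => False)).1 (by rw [h]; exact eventually_bot)
  obtain ⟨q, h3, h4⟩ := exists_rat_btwn h1
  exact h2 q h3 h4

instance (t : ℝ) : (rgt t).NeBot := by
  refine ⟨fun h => ?_⟩
  obtain ⟨a, h1, h2⟩ := (ev_rgt (t := t) (P := fun _ => False)).1 (by rw [h]; exact eventually_bot)
  obtain ⟨q, h3, h4⟩ := exists_rat_btwn h1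
  exact h2 q h3 h4

theorem bp {E : Type} [NormedAddCommGroup E] [NormedSpace ℝ E] [CompleteSpace E]
    (N : Seminorm ℝ E) (hN1 : Continuous N) {b : ℝ} (hb : 0 < b) (hN2 : ∀ h, ‖h‖ ≤ b * N h)
    (φ : ℚ → E →L[ℝ] ℝ) (hφ : ∀ q h, φ q h ≤ b * N h)
    (reg : ∀ t h, (∃ l, Tendsto (fun q => φ q h) (lft t) (𝓝 l)) ∧
      ∃ l, Tendsto (fun q => φ q h) (rgt t) (𝓝 l))
    (g : ℝ → E) (hg : ∀ t q, φ q (g t) = if (q : ℝ) < t then 1 else 0)
    (sm : ∀ h g : E, ∀ ε > 0, ∀ᶠ τ in 𝓝[>] (0 : ℝ),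
      N (h + τ • g) ^ 2 + N (h - τ • g) ^ 2 - 2 * N h ^ 2 ≤ ε * τ) : False := by
  let A : (E → ℝ) → ℝ → ℝ → Set ℝ := fun ψ a c => {v | ∃ (h : E) (a' c' m : ℝ), a ≤ a' ∧ a' < c' ∧
    c' ≤ c ∧ (∀ q : ℚ, a' < q → (q : ℝ) < c' → m ≤ φ q h) ∧ v = m - ψ h}
  have Abdd : ∀ ψ a c, (∀ h, N h ^ 2 ≤ ψ h) → BddAbove (A ψ a c) := fun ψ a c hψ =>
    ⟨b ^ 2 / 4, by
      rintro _ ⟨h, a', c', m, -, h1, -, h2, rfl⟩
      obtain ⟨q, h3, h4⟩ := exists_rat_btwn h1
      nlinarith [h2 q h3 h4, hφ q h, hψ h, sq_nonneg (N h - b / 2)]⟩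
  let η : ℕ → ℝ := fun n => (1 / 2) ^ n
  have η0 : ∀ n, 0 < η n := fun n => by positivity
  have ηs : ∀ n, η (n + 1) = η n / 2 := fun n => by simp only [η]; ring
  have ηt : Tendsto η atTop (𝓝 0) :=
    tendsto_pow_atTop_nhds_zero_of_lt_one (by norm_num) (by norm_num)
  obtain ⟨p, p0, hp⟩ := GatB.exists_rec
    (fun _ (p : (E → ℝ) × ℝ × ℝ) => p.2.1 < p.2.2 ∧ ∀ h, N h ^ 2 ≤ p.1 h)
    (fun n p r => ∃ f : E, p.2.1 < r.2.1 ∧ r.2.2 < p.2.2 ∧
      (∀ h, r.1 h = p.1 h + η n * N (h - f) ^ 2) ∧ ∀ q : ℚ, r.2.1 < q → (q : ℝ) < r.2.2 →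
        sSup (A p.1 p.2.1 p.2.2) - η n ^ 3 / 2 ≤ φ q f - p.1 f)
    (fun h => N h ^ 2, 0, 1) ⟨one_pos, fun _ => le_rfl⟩
    (fun n p hp => by
      obtain ⟨_, ⟨f, a', c', m, h1, h2, h3, h4, rfl⟩, h5⟩ := exists_lt_of_lt_csSup
        (s := A p.1 p.2.1 p.2.2) ⟨_, 0, _, _, 0, le_rfl, hp.1, le_rfl, fun q _ _ => by simp, rfl⟩
        (show sSup (A p.1 p.2.1 p.2.2) - η n ^ 3 / 2 < sSup (A p.1 p.2.1 p.2.2) by
          linarith [pow_pos (η0 n) 3])
      refine ⟨(fun h => p.1 h + η n * N (h - f) ^ 2, (2 * a' + c') / 3, (a' + 2 * c') / 3),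
        ⟨by show (2 * a' + c') / 3 < (a' + 2 * c') / 3; linarith, fun h => ?_⟩, f,
        by show _ < (2 * a' + c') / 3; linarith, by show (a' + 2 * c') / 3 < _; linarith,
        fun _ => rfl, fun q a1 a2 => ?_⟩
      · have := mul_nonneg (η0 n).le (sq_nonneg (N (h - f)))
        linarith [hp.2 h]
      · have a3 : (2 * a' + c') / 3 < q := a1
        have a4 : (q : ℝ) < (a' + 2 * c') / 3 := a2
        linarith [h4 q (by linarith) (by linarith)])
  choose f h1 h2 h3 h4 using fun n => (hp n).2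
  let S : ℕ → ℝ := fun n => sSup (A (p n).1 (p n).2.1 (p n).2.2)
  have hS : ∀ n h a' c' m, (p n).2.1 ≤ a' → a' < c' → c' ≤ (p n).2.2 →
      (∀ q : ℚ, a' < q → (q : ℝ) < c' → m ≤ φ q h) → m - (p n).1 h ≤ S n :=
    fun n h a' c' m a1 a2 a3 a4 => le_csSup (Abdd _ _ _ (hp n).1.2) ⟨h, a', c', m, a1, a2, a3, a4, rfl⟩
  have hd : ∀ n, N (f (n + 1) - f n) ≤ η n := fun n => by
    have a1 := hS (n + 1) (f n) _ _ (S n - η n ^ 3 / 2 + (p n).1 (f n)) le_rfl (hp (n + 1)).1.1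
      le_rfl fun q b1 b2 => by linarith [h4 n q b1 b2]
    have a2 := hS n (f (n + 1)) _ _ (S (n + 1) - η (n + 1) ^ 3 / 2 + (p (n + 1)).1 (f (n + 1)))
      ((h1 n).trans (h1 (n + 1))).le (hp (n + 2)).1.1 ((h2 (n + 1)).trans (h2 n)).le
      fun q b1 b2 => by linarith [h4 (n + 1) q b1 b2]
    rw [h3, sub_self, map_zero] at a1
    rw [h3, ηs] at a2
    have a3 : η n * N (f (n + 1) - f n) ^ 2 ≤ η n * η n ^ 2 := by nlinarith [pow_pos (η0 n) 3]
    exact (pow_le_pow_iff_left₀ (apply_nonneg _ _) (η0 n).le two_ne_zero).1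
      (le_of_mul_le_mul_left a3 (η0 n))
  have hd2 : ∀ i k, N (f (i + k) - f i) + 2 * η (i + k) ≤ 2 * η i := fun i k => by
    induction k with
    | zero => simp
    | succ k ih =>
      have := map_add_le_add N (f (i + k + 1) - f (i + k)) (f (i + k) - f i)
      rw [sub_add_sub_cancel] at this
      rw [← add_assoc, ηs]
      linarith [hd (i + k)]
  obtain ⟨F, hF⟩ := cauchySeq_tendsto_of_complete (cauchySeq_of_le_geometric_two (C := 2 * b)
    (f := f) fun n => by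
      rw [dist_comm, dist_eq_norm]
      refine (hN2 _).trans ((mul_le_mul_of_nonneg_left (hd n) hb.le).trans_eq ?_)
      simp only [η]; field_simp; simp)
  have m1 : StrictMono fun n => (p n).2.1 := strictMono_nat_of_lt_succ h1
  have m2 : StrictAnti fun n => (p n).2.2 := strictAnti_nat_of_succ_lt h2
  have m3 : ∀ n k, (p k).2.1 < (p n).2.2 := fun n k =>
    (m1.monotone (le_max_right n k)).trans_lt ((hp _).1.1.trans_le (m2.antitone (le_max_left n k)))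
  let t := ⨆ n, (p n).2.1
  have t1 : ∀ n, (p n).2.1 < t := fun n =>
    (h1 n).trans_le (le_ciSup (f := fun n => (p n).2.1) ⟨_, by rintro _ ⟨k, rfl⟩; exact (m3 0 k).le⟩ _)
  have t2 : ∀ n, t < (p n).2.2 := fun n => (ciSup_le fun k => (m3 (n + 1) k).le).trans_lt (h2 n)
  have key : ∀ n (τ : ℝ), τ ≤ (p n).1 (f n + τ • g t) + (p n).1 (f n - τ • g t) - 2 * (p n).1 (f n)
      + η n ^ 3 := by
    intro n τ
    obtain ⟨⟨l1, a1⟩, l2, a2⟩ := reg t (f n)
    have b1 : S n - η n ^ 3 / 2 + (p n).1 (f n) ≤ l1 := ge_of_tendsto a1 (ev_lft.2 ⟨_, t1 (n + 1),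
      fun q c1 c2 => by linarith [h4 n q c1 (c2.trans (t2 (n + 1)))]⟩)
    have b2 : S n - η n ^ 3 / 2 + (p n).1 (f n) ≤ l2 := ge_of_tendsto a2 (ev_rgt.2 ⟨_, t2 (n + 1),
      fun q c1 c2 => by linarith [h4 n q ((t1 (n + 1)).trans c1) c2]⟩)
    have b3 : l1 + τ - (p n).1 (f n + τ • g t) ≤ S n := le_of_forall_pos_le_add fun ε hε => by
      obtain ⟨a, c1, c2⟩ := ev_lft.1 (a1.eventually_const_le (show l1 - ε < l1 by linarith))
      have := hS n (f n + τ • g t) (max a (p n).2.1) t (l1 - ε + τ) (le_max_right _ _)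
        (max_lt c1 (t1 n)) (t2 n).le fun q c3 c4 => by
          rw [map_add, map_smul, hg, if_pos c4, smul_eq_mul, mul_one]
          linarith [c2 q ((le_max_left _ _).trans_lt c3) c4]
      linarith
    have b4 : l2 - (p n).1 (f n - τ • g t) ≤ S n := le_of_forall_pos_le_add fun ε hε => by
      obtain ⟨a, c1, c2⟩ := ev_rgt.1 (a2.eventually_const_le (show l2 - ε < l2 by linarith))
      have := hS n (f n - τ • g t) t (min a (p n).2.2) (l2 - ε) (t1 n).le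
        (lt_min c1 (t2 n)) (min_le_right _ _) fun q c3 c4 => by
          rw [map_sub, map_smul, hg, if_neg c3.le.not_gt, smul_zero, sub_zero]
          exact c2 q c3 (c4.trans_le (min_le_left _ _))
      linarith
    linarith
  let D : ℝ → E → ℝ := fun τ h => N (h + τ • g t) ^ 2 + N (h - τ • g t) ^ 2 - 2 * N h ^ 2
  have hψ : ∀ n τ h, (p n).1 (h + τ • g t) + (p n).1 (h - τ • g t) - 2 * (p n).1 h =
      D τ h + ∑ i ∈ Finset.range n, η i * D τ (h - f i) := fun n τ h => by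
    induction n with
    | zero => rw [p0]; simp [D]
    | succ n ih =>
      rw [h3, h3, h3, Finset.sum_range_succ]
      simp only [D] at ih ⊢
      rw [add_sub_right_comm h, sub_right_comm h]
      linarith
  have hG := apply_nonneg N (g t)
  have hD : ∀ τ h, 0 < τ → τ ≤ 1 → N h ≤ 2 → D τ h ≤ (8 * N (g t) + 2 * N (g t) ^ 2) * τ := by
    intro τ h a1 a2 a3
    have b1 := map_add_le_add N h (τ • g t)
    have b2 := map_sub_le_add N h (τ • g t)
    rw [map_smul_eq_mul, Real.norm_of_nonneg a1.le] at b1 b2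
    have b3 := pow_le_pow_left₀ (apply_nonneg _ _) b1 2
    have b4 := pow_le_pow_left₀ (apply_nonneg _ _) b2 2
    have b5 := mul_le_mul_of_nonneg_left a3 (mul_nonneg a1.le hG)
    have b6 : τ ^ 2 * N (g t) ^ 2 ≤ τ * N (g t) ^ 2 :=
      mul_le_mul_of_nonneg_right (by nlinarith) (sq_nonneg _)
    simp only [D]
    nlinarith
  obtain ⟨K, hK⟩ := ((ηt.const_mul (2 * (8 * N (g t) + 2 * N (g t) ^ 2))).eventually_le_const
    (u := 1 / 4) (by norm_num)).exists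
  obtain ⟨τ, ⟨τ1, τ2⟩, τ3, τ4⟩ := ((show ∀ᶠ τ in 𝓝[>] (0 : ℝ), τ ∈ Ioo (0 : ℝ) 1 from
    Ioo_mem_nhdsGT one_pos).and ((sm F (g t) (1 / 8) (by norm_num)).and
      ((eventually_all_finset (Finset.range K)).2 fun i _ =>
        sm (F - f i) (g t) (1 / 8) (by norm_num)))).exists
  have hsum : ∀ i k, ∑ j ∈ Finset.range k, η (i + j) + 2 * η (i + k) = 2 * η i := fun i k => by
    induction k with
    | zero => simp
    | succ k ih => rw [Finset.sum_range_succ, ← add_assoc, ηs]; linarith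
  have hc : Continuous (D τ) := by
    simp only [D]; fun_prop
  have k2 : ∀ k, τ ≤ D τ (f (K + k)) + ∑ i ∈ Finset.range K, η i * D τ (f (K + k) - f i)
      + τ / 4 + η (K + k) ^ 3 := fun k => by
    have a1 := key (K + k) τ
    rw [hψ, Finset.sum_range_add] at a1
    have a2 : ∑ j ∈ Finset.range k, η (K + j) * D τ (f (K + k) - f (K + j)) ≤
        ∑ j ∈ Finset.range k, η (K + j) * ((8 * N (g t) + 2 * N (g t) ^ 2) * τ) :=
      Finset.sum_le_sum fun j hj => mul_le_mul_of_nonneg_left (hD τ _ τ1 τ2.le (by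
        obtain ⟨l, rfl⟩ := Nat.exists_eq_add_of_le (Finset.mem_range.1 hj).le
        have b1 := hd2 (K + j) l
        have b2 : η (K + j) ≤ 1 := pow_le_one₀ (by norm_num) (by norm_num)
        rw [← add_assoc]
        linarith [η0 (K + j + l)])) (η0 _).le
    rw [← Finset.sum_mul] at a2
    have a3 : ∑ j ∈ Finset.range k, η (K + j) ≤ 2 * η K := by linarith [hsum K k, η0 (K + k)]
    have a4 := mul_le_mul_of_nonneg_right a3
      (show 0 ≤ (8 * N (g t) + 2 * N (g t) ^ 2) * τ by positivity)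
    have a5 := mul_le_mul_of_nonneg_right hK τ1.le
    linarith
  have hK' : Tendsto (fun k => K + k) atTop atTop := tendsto_atTop_mono (fun k => by simp) tendsto_id
  have hF' := hF.comp hK'
  have k3 := ge_of_tendsto' ((((hc.tendsto F).comp hF').add (tendsto_finsetSum (Finset.range K)
    fun i _ => ((hc.tendsto _).comp (hF'.sub_const (f i))).const_mul (η i))).add_const (τ / 4)
      |>.add ((ηt.comp hK').pow 3)) k2
  have k4 : ∑ i ∈ Finset.range K, η i * D τ (F - f i) ≤ ∑ i ∈ Finset.range K, η i * (1 / 8 * τ) :=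
    Finset.sum_le_sum fun i hi => mul_le_mul_of_nonneg_left (τ4 i hi) (η0 i).le
  rw [← Finset.sum_mul] at k4
  have k5 := hsum 0 K
  simp only [zero_add] at k5
  have k6 : η 0 = 1 := pow_zero _
  have k7 : D τ F ≤ 1 / 8 * τ := τ3
  have k8 := mul_le_mul_of_nonneg_right
    (show ∑ i ∈ Finset.range K, η i ≤ 2 by linarith [η0 K]) (show 0 ≤ 1 / 8 * τ by positivity)
  norm_num at k3
  linarith

end Pool.Agent.H87.JQ
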