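import Pool.Agent.H87.JQ2
import Pool.Agent.H87.JQ3

/-! The James space over the rationals has no equivalent weakly Cauchy rotund norm. -/

set_option autoImplicit false

namespace Pool.Agent.H87.JQ

open Filter Topology Set

variable {X : Type} [NormedAddCommGroup X] [NormedSpace ℝ X] (S : Sys X)

lemma Sys.pairs (f : X →L[ℝ] ℝ) {ε : ℝ} (hε : 0 < ε) (p : ℕ → ℚ × ℚ)
    (h1 : ∀ i j, i ≠ j → max (p i).1 (p i).2 < min (p j).1 (p j).2 ∨
      max (p j).1 (p j).2 < min (p i).1 (p i).2)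
    (h2 : ∀ i, ε ≤ |f (S.e (p i).1) - f (S.e (p i).2)|) : False := by
  classical
  have key : ∀ m : ℕ, m * ε ≤ ‖f‖ * √(8 * m) := by
    intro m
    let σ : ℕ → ℝ := fun i => if 0 ≤ f (S.e (p i).1) - f (S.e (p i).2) then 1 else -1
    have σ1 : ∀ i, |σ i| = 1 := fun i => by simp only [σ]; split_ifs <;> simp
    let u := ∑ i ∈ Finset.range m, σ i • (S.e (p i).1 - S.e (p i).2)
    have a1 : m * ε ≤ f u := by
      simp only [u, map_sum, map_smul, map_sub, smul_eq_mul]
      have := Finset.card_nsmul_le_sum (Finset.range m)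
        (fun i => σ i * (f (S.e (p i).1) - f (S.e (p i).2))) ε fun i _ => by
          have := h2 i
          simp only [σ]
          split_ifs with h
          · rwa [abs_of_nonneg h, ← one_mul (_ - _)] at this
          · rw [abs_of_neg (not_le.1 h)] at this; linarith
      simpa using this
    have hu : ∀ t, S.δ t u = ∑ i ∈ Finset.range m, σ i * (ind (p i).1 t - ind (p i).2 t) :=
      fun t => by simp only [u, map_sum, map_smul, map_sub, smul_eq_mul, S.val]
    have hne : ∀ t i, ind (p i).1 t - ind (p i).2 t ≠ 0 →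
        min (p i).1 (p i).2 ∈ t ∧ max (p i).1 (p i).2 ∉ t := fun t i h => by
      by_cases b1 : (p i).1 ∈ t <;> by_cases b2 : (p i).2 ∈ t
      · rw [ind_of_mem b1, ind_of_mem b2, sub_self] at h; exact absurd rfl h
      · exact ⟨t.lower (min_le_left _ _) b1, fun h => b2 (t.lower (le_max_right _ _) h)⟩
      · exact ⟨t.lower (min_le_right _ _) b2, fun h => b1 (t.lower (le_max_left _ _) h)⟩
      · rw [ind_of_not b1, ind_of_not b2, sub_self] at h; exact absurd rfl h
    have a2 : ∀ t, |S.δ t u| ≤ 1 := fun t => by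
      rw [hu]
      by_cases h : ∃ i, ind (p i).1 t - ind (p i).2 t ≠ 0
      · obtain ⟨i, hi⟩ := h
        rw [Finset.sum_eq_ite i fun j _ hj => by
          by_contra hn
          have b1 := hne t j (right_ne_zero_of_mul hn)
          have b2 := hne t i hi
          rcases h1 j i hj with h | h
          · exact b1.2 (t.lower h.le b2.1)
          · exact b2.2 (t.lower h.le b1.1)]
        split_ifs
        · rw [abs_mul, σ1, one_mul]
          exact abs_le_one_iff_mul_self_le_one.2 (by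
            have := ind_sq (p i).1 (⊥, ⊥)
            unfold ind; split_ifs <;> norm_num)
        · simp
      · push Not at h
        simp [h]
    have a3 : ‖u‖ ≤ √(8 * m) := S.up u _ (Real.sqrt_nonneg _) fun s hs => by
      rw [Real.sq_sqrt (by positivity)]
      let J : Finset ℚ := (Finset.range m).image (fun i => (p i).1) ∪
        (Finset.range m).image fun i => (p i).2
      have hJ : (J.card : ℝ) ≤ 2 * m := by
        have := (Finset.card_union_le _ _).trans (add_le_add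
          (Finset.card_image_le (s := Finset.range m) (f := fun i => (p i).1))
          (Finset.card_image_le (s := Finset.range m) (f := fun i => (p i).2)))
        rw [Finset.card_range] at this
        have h' : J.card ≤ 2 * m := by simp only [J]; omega
        exact_mod_cast h'
      have := hs.sum_le J (fun r => (S.δ r.2 u - S.δ r.1 u) ^ 2) (B := 4) (by norm_num)
        (fun r _ => by
          have b1 := _root_.abs_le.1 (a2 r.1)
          have b2 := _root_.abs_le.1 (a2 r.2)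
          nlinarith)
        fun r hr hn => by
          have : S.δ r.2 u - S.δ r.1 u = 0 := by
            rw [hu, hu, ← Finset.sum_sub_distrib]
            refine Finset.sum_eq_zero fun i hi => ?_
            have b1 := ind_sub (q := (p i).1) (hs.1 r hr) fun h =>
              hn ⟨_, Finset.mem_union_left _ (Finset.mem_image_of_mem _ hi), h⟩
            have b2 := ind_sub (q := (p i).2) (hs.1 r hr) fun h =>
              hn ⟨_, Finset.mem_union_right _ (Finset.mem_image_of_mem _ hi), h⟩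
            rw [← mul_sub, show ind (p i).1 r.2 - ind (p i).2 r.2 -
              (ind (p i).1 r.1 - ind (p i).2 r.1) = 0 by linarith, mul_zero]
          show (S.δ r.2 u - S.δ r.1 u) ^ 2 = 0
          rw [this]; norm_num
      linarith
    exact a1.trans ((le_abs_self _).trans ((f.le_opNorm u).trans
      (mul_le_mul_of_nonneg_left a3 (norm_nonneg _))))
  obtain ⟨m, hm⟩ := exists_nat_gt (8 * ‖f‖ ^ 2 / ε ^ 2)
  have a1 := pow_le_pow_left₀ (by positivity) (key m) 2
  rw [mul_pow, mul_pow, Real.sq_sqrt (by positivity)] at a1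
  rw [div_lt_iff₀ (by positivity)] at hm
  have a2 : (0 : ℝ) < m := by
    by_contra hn
    have : (m : ℝ) = 0 := le_antisymm (not_lt.1 hn) (Nat.cast_nonneg m)
    rw [this] at hm
    nlinarith [sq_nonneg ‖f‖]
  nlinarith

lemma Sys.reg (f : X →L[ℝ] ℝ) (F : Filter ℚ) [F.NeBot]
    (h : (∀ᶠ a in F, ∀ᶠ q in F, a < q) ∨ ∀ᶠ a in F, ∀ᶠ q in F, q < a) :
    ∃ l, Tendsto (fun q => f (S.e q)) F (𝓝 l) := by
  refine cauchy_map_iff_exists_tendsto.1 ?_
  rw [cauchy_map_iff', Metric.uniformity_basis_dist.tendsto_right_iff]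
  intro ε hε
  by_contra hn
  rw [not_eventually] at hn
  have hG := frequently_iff_neBot.1 hn
  let R : ℚ × ℚ → ℚ × ℚ → Prop := fun p r =>
    max p.1 p.2 < min r.1 r.2 ∨ max r.1 r.2 < min p.1 p.2
  have h1 : ∀ᶠ p in F ×ˢ F, ∀ᶠ r in F ×ˢ F, R p r := by
    rcases h with h | h
    · filter_upwards [h.prod_mk h] with p hp
      filter_upwards [(hp.1.and hp.2).prod_mk (hp.1.and hp.2)] with r hr
      exact Or.inl (max_lt (lt_min hr.1.1 hr.2.1) (lt_min hr.1.2 hr.2.2))
    · filter_upwards [h.prod_mk h] with p hp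
      filter_upwards [(hp.1.and hp.2).prod_mk (hp.1.and hp.2)] with r hr
      exact Or.inr (max_lt (lt_min hr.1.1 hr.1.2) (lt_min hr.2.1 hr.2.2))
  obtain ⟨p, h2, h3⟩ := exists_seq_of_forall_finset_exists
    (fun p : ℚ × ℚ => ε ≤ |f (S.e p.1) - f (S.e p.2)| ∧ ∀ᶠ r in F ×ˢ F, R p r) R fun s hs => by
      obtain ⟨r, a1, a2, a3⟩ := (hn.and_eventually
        (h1.and ((eventually_all_finset s).2 fun p hp => (hs p hp).2))).exists
      exact ⟨r, ⟨not_lt.1 a1, a2⟩, a3⟩
  refine S.pairs f hε p (fun i j hij => ?_) fun i => (h2 i).1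
  rcases lt_or_gt_of_ne hij with h | h
  · exact h3 i j h
  · exact (h3 j i h).symm

section
variable (p : Seminorm ℝ X) {a b : ℝ} (ha : 0 < a) (h : ∀ x : X, a * ‖x‖ ≤ p x ∧ p x ≤ b * ‖x‖)
  (x0 : X) (hx0 : x0 ≠ 0)

/-- dual norm -/
noncomputable def dn (f : X →L[ℝ] ℝ) : ℝ := sSup (f '' {x | p x = 1})

include ha h

lemma le_dn (f : X →L[ℝ] ℝ) {x : X} (hx : p x = 1) : f x ≤ dn p f :=
  le_csSup ⟨‖f‖ / a, by
    rintro _ ⟨y, hy, rfl⟩
    have h1 := (h y).1
    rw [show p y = 1 from hy] at h1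
    rw [le_div_iff₀ ha]
    have h2 := mul_le_mul_of_nonneg_right ((le_abs_self _).trans (f.le_opNorm y)) ha.le
    nlinarith [norm_nonneg f]⟩ ⟨x, hx, rfl⟩

lemma p_unit {x : X} (hx : x ≠ 0) : 0 < p x ∧ p ((p x)⁻¹ • x) = 1 := by
  have h1 : 0 < p x := (mul_pos ha (norm_pos_iff.2 hx)).trans_le (h x).1
  exact ⟨h1, by rw [map_smul_eq_mul, norm_inv, Real.norm_of_nonneg h1.le, inv_mul_cancel₀ h1.ne']⟩

lemma le_dn_mul (f : X →L[ℝ] ℝ) (x : X) : f x ≤ dn p f * p x := by
  by_cases hx : x = 0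
  · simp [hx]
  obtain ⟨h1, h2⟩ := p_unit p ha h hx
  have := le_dn p ha h f h2
  rwa [map_smul, smul_eq_mul, inv_mul_le_iff₀ h1, mul_comm] at this

include hx0

lemma dn_le (f : X →L[ℝ] ℝ) {C : ℝ} (hC : ∀ x, p x = 1 → f x ≤ C) : dn p f ≤ C :=
  csSup_le ⟨_, _, (p_unit p ha h hx0).2, rfl⟩ (by rintro _ ⟨x, hx, rfl⟩; exact hC x hx)

lemma near (f : X →L[ℝ] ℝ) {ε : ℝ} (hε : 0 < ε) : ∃ x, p x = 1 ∧ dn p f - ε < f x := by
  by_contra hn
  push Not at hn
  linarith [dn_le p ha h x0 hx0 f hn]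

lemma abs_le_dn (f : X →L[ℝ] ℝ) {x : X} (hx : p x = 1) : |f x| ≤ dn p f := by
  have h1 := le_dn p ha h f hx
  have h2 := le_dn p ha h f (x := -x) (by rwa [map_neg_eq_map])
  rw [map_neg] at h2
  exact _root_.abs_le.2 ⟨by linarith, h1⟩

/-- dual norm as a seminorm -/
noncomputable def dN : Seminorm ℝ (X →L[ℝ] ℝ) :=
  Seminorm.ofSMulLE (dn p)
    (le_antisymm (dn_le p ha h x0 hx0 _ fun _ _ => le_rfl)
      (le_dn p ha h 0 (p_unit p ha h hx0).2))
    (fun f g => dn_le p ha h x0 hx0 _ fun x hx =>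
      add_le_add (le_dn p ha h f hx) (le_dn p ha h g hx))
    fun c f => dn_le p ha h x0 hx0 _ fun x hx => by
      rw [_root_.smul_apply, smul_eq_mul]
      refine (le_abs_self _).trans ?_
      rw [abs_mul]
      exact mul_le_mul_of_nonneg_left (abs_le_dn p ha h x0 hx0 f hx) (abs_nonneg _)

theorem smooth1 (W : ∀ u : ℕ → X, (∀ n, p (u n) = 1) →
      Tendsto (fun k : ℕ × ℕ => p (u k.1 + u k.2)) atTop (𝓝 2) →
      ∀ f : X →L[ℝ] ℝ, CauchySeq (fun n => f (u n))) (f g : X →L[ℝ] ℝ) (hf : 0 < dn p f)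
    {ε : ℝ} (hε : 0 < ε) :
    ∀ᶠ τ in 𝓝[>] (0 : ℝ), dn p (f + τ • g) + dn p (f - τ • g) - 2 * dn p f ≤ ε * τ := by
  by_contra hn
  rw [not_eventually] at hn
  have h1 : ∀ n : ℕ, ∃ x y, p x = 1 ∧ p y = 1 ∧ dn p f - 1 / (n + 1) ≤ f x ∧
      dn p f - 1 / (n + 1) ≤ f y ∧ ε / 2 ≤ g x - g y := fun n => by
    have hG : 0 ≤ dn p g :=
      (abs_nonneg _).trans (abs_le_dn p ha h x0 hx0 g (p_unit p ha h hx0).2)
    obtain ⟨τ, a1, a2, a3⟩ := (hn.and_eventually (Ioo_mem_nhdsGT
      (show (0 : ℝ) < 1 / (n + 1) / (2 * dn p g + 1) by positivity))).exists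
    obtain ⟨x, b1, b2⟩ := near p ha h x0 hx0 (f + τ • g) (ε := ε * τ / 4) (by positivity)
    obtain ⟨y, b3, b4⟩ := near p ha h x0 hx0 (f - τ • g) (ε := ε * τ / 4) (by positivity)
    rw [_root_.add_apply, _root_.smul_apply, smul_eq_mul] at b2
    rw [_root_.sub_apply, _root_.smul_apply, smul_eq_mul] at b4
    have c1 := le_dn p ha h f b1
    have c2 := le_dn p ha h f b3
    have c3 := mul_le_mul_of_nonneg_left (_root_.abs_le.1 (abs_le_dn p ha h x0 hx0 g b1)).2 a2.le
    have c4 := mul_le_mul_of_nonneg_left (_root_.abs_le.1 (abs_le_dn p ha h x0 hx0 g b3)).1 a2.le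
    rw [lt_div_iff₀ (by positivity)] at a3
    have c5 := mul_pos hε a2
    rw [not_le] at a1
    refine ⟨x, y, b1, b3, by linarith, by linarith, le_of_mul_le_mul_left ?_ a2⟩
    linarith
  choose x y a1 a2 a3 a4 a5 using h1
  let u : ℕ → X := fun n => if n % 2 = 0 then x n else y (n - 1)
  have u1 : ∀ n, p (u n) = 1 := fun n => by simp only [u]; split_ifs; exacts [a1 n, a2 _]
  have u2 : Tendsto (fun n => f (u n)) atTop (𝓝 (dn p f)) := by
    have b1 : Tendsto (fun n : ℕ => dn p f - 1 / (((n - 1 : ℕ) : ℝ) + 1)) atTop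
        (𝓝 (dn p f - 0)) :=
      (tendsto_one_div_add_atTop_nhds_zero_nat.comp (tendsto_sub_atTop_nat 1)).const_sub _
    rw [sub_zero] at b1
    refine tendsto_of_tendsto_of_tendsto_of_le_of_le b1 tendsto_const_nhds (fun n => ?_)
      fun n => le_dn p ha h f (u1 n)
    simp only [u]
    split_ifs
    · linarith [a3 n, Nat.one_div_le_one_div (α := ℝ) (Nat.sub_le n 1)]
    · exact a4 _
  have u3 : Tendsto (fun k : ℕ × ℕ => p (u k.1 + u k.2)) atTop (𝓝 2) := by
    have b1 : Tendsto (fun k : ℕ × ℕ => (f (u k.1) + f (u k.2)) / dn p f) atTop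
        (𝓝 ((dn p f + dn p f) / dn p f)) := by
      rw [← prod_atTop_atTop_eq]
      exact ((u2.comp tendsto_fst).add (u2.comp tendsto_snd)).div_const _
    rw [show (dn p f + dn p f) / dn p f = 2 by field_simp; ring] at b1
    refine tendsto_of_tendsto_of_tendsto_of_le_of_le b1 tendsto_const_nhds (fun k => ?_)
      fun k => ?_
    · show _ / _ ≤ _
      rw [div_le_iff₀ hf, ← map_add, mul_comm]
      exact le_dn_mul p ha h f _
    · have := map_add_le_add p (u k.1) (u k.2)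
      rw [u1, u1] at this
      show p _ ≤ 2
      linarith
  obtain ⟨N, hN⟩ := Metric.cauchySeq_iff.1 (W u u1 u3 g) (ε / 2) (half_pos hε)
  have := hN (2 * N) (by omega) (2 * N + 1) (by omega)
  simp only [u] at this
  rw [if_pos (by omega), if_neg (by omega), Nat.add_sub_cancel, Real.dist_eq] at this
  linarith [a5 (2 * N), le_abs_self (g (x (2 * N)) - g (y (2 * N)))]

end

lemma sq_smooth {E : Type} [NormedAddCommGroup E] [NormedSpace ℝ E] (N : Seminorm ℝ E)
    (H : ∀ f g : E, 0 < N f → ∀ ε > 0,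
      ∀ᶠ τ in 𝓝[>] (0 : ℝ), N (f + τ • g) + N (f - τ • g) - 2 * N f ≤ ε * τ)
    (f g : E) (ε : ℝ) (hε : 0 < ε) : ∀ᶠ τ in 𝓝[>] (0 : ℝ),
      N (f + τ • g) ^ 2 + N (f - τ • g) ^ 2 - 2 * N f ^ 2 ≤ ε * τ := by
  have h0 := apply_nonneg N f
  have h1 : ∀ᶠ τ in 𝓝[>] (0 : ℝ),
      N f * (N (f + τ • g) + N (f - τ • g) - 2 * N f) ≤ ε / 4 * τ := by
    rcases h0.eq_or_lt with h | h
    · filter_upwards [self_mem_nhdsWithin] with τ hτ
      rw [← h, zero_mul]
      exact (mul_pos (by positivity) hτ).le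
    · filter_upwards [H f g h (ε / 4 / N f) (by positivity)] with τ hτ
      refine (mul_le_mul_of_nonneg_left hτ h0).trans_eq ?_
      field_simp
  filter_upwards [h1, Ioo_mem_nhdsGT (show (0 : ℝ) < ε / 4 / (N g ^ 2 + 1) by positivity)]
    with τ a1 a2
  have b1 := N.norm_sub_map_le_sub (f + τ • g) f
  have b2 := N.norm_sub_map_le_sub (f - τ • g) f
  rw [add_sub_cancel_left, map_smul_eq_mul, Real.norm_of_nonneg a2.1.le] at b1
  rw [sub_sub_cancel_left, map_neg_eq_map, map_smul_eq_mul, Real.norm_of_nonneg a2.1.le] at b2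
  have b3 := sq_le_sq' (_root_.abs_le.1 b1).1 (_root_.abs_le.1 b1).2
  have b4 := sq_le_sq' (_root_.abs_le.1 b2).1 (_root_.abs_le.1 b2).2
  have b5 := a2.2
  rw [lt_div_iff₀ (by positivity)] at b5
  have b6 := mul_le_mul_of_nonneg_left b5.le a2.1.le
  nlinarith [sq_nonneg τ]

include S in
theorem Sys.noWCR (p : Seminorm ℝ X) {a b : ℝ} (ha : 0 < a) (hb : 0 < b)
    (h : ∀ x : X, a * ‖x‖ ≤ p x ∧ p x ≤ b * ‖x‖) (W : ∀ u : ℕ → X, (∀ n, p (u n) = 1) →
      Tendsto (fun k : ℕ × ℕ => p (u k.1 + u k.2)) atTop (𝓝 2) →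
      ∀ f : X →L[ℝ] ℝ, CauchySeq (fun n => f (u n))) : False := by
  have hx0 : S.e 0 ≠ 0 := fun h0 => by
    have := S.val ⊤ 0
    rw [h0, map_zero, ind_of_mem (by simp)] at this
    exact zero_ne_one this
  let N := dN p ha h _ hx0
  have hN : ∀ f, N f = dn p f := fun _ => rfl
  have hN0 : ∀ f x, f x ≤ b * N f * ‖x‖ := fun f x => by
    have := mul_le_mul_of_nonneg_left (h x).2 (apply_nonneg N f)
    have h2 : f x ≤ N f * p x := le_dn_mul p ha h f x
    linarith
  let L : ℝ → T := fun t => ⟨{q | (q : ℝ) < t}, fun a b hab (h : (a : ℝ) < t) =>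
    lt_of_le_of_lt (by exact_mod_cast hab) h⟩
  refine bp N ?_ hb (fun f => ?_) (fun q => NormedSpace.inclusionInDoubleDual ℝ X (S.e q))
    (fun q f => ?_) (fun t f => ⟨S.reg f _ (Or.inl ?_), S.reg f _ (Or.inr ?_)⟩)
    (fun t => S.δ (L t)) (fun t q => ?_)
    (sq_smooth N fun f g hf ε hε => smooth1 p ha h _ hx0 W f g hf hε)
  · refine Seminorm.continuous_of_le (q := (a⁻¹).toNNReal • normSeminorm ℝ (X →L[ℝ] ℝ))
      (by
        show Continuous fun f : X →L[ℝ] ℝ => (a⁻¹).toNNReal • ‖f‖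
        fun_prop) fun f => ?_
    show dn p f ≤ (a⁻¹).toNNReal • ‖f‖
    refine dn_le p ha h _ hx0 f fun x hx => ?_
    rw [NNReal.smul_def, Real.coe_toNNReal _ (by positivity), smul_eq_mul, le_inv_mul_iff₀ ha]
    have h1 := (h x).1
    have h2 := mul_le_mul_of_nonneg_left ((le_abs_self _).trans (f.le_opNorm x)) ha.le
    nlinarith [norm_nonneg f]
  · refine ContinuousLinearMap.opNorm_le_bound _ (mul_nonneg hb.le (apply_nonneg _ _)) fun x => ?_
    have h1 := hN0 f (-x)
    rw [map_neg, norm_neg] at h1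
    exact _root_.abs_le.2 ⟨by linarith, hN0 f x⟩
  · exact (hN0 f _).trans (mul_le_of_le_one_right (mul_nonneg hb.le (apply_nonneg _ _)) (S.norm_e q))
  · exact ev_lft.2 ⟨t - 1, by linarith, fun q _ hq => ev_lft.2 ⟨q, hq, fun r h1 _ => by
      exact_mod_cast h1⟩⟩
  · exact ev_rgt.2 ⟨t + 1, by linarith, fun q hq _ => ev_rgt.2 ⟨q, hq, fun r _ h1 => by
      exact_mod_cast h1⟩⟩
  · exact S.val _ _

end Pool.Agent.H87.JQ
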