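import Pool.Agent.H87.SepBall

/-! James sequences with constants close to one. -/

set_option maxSynthPendingDepth 3

namespace Pool.Agent.H87.JamesSharp

open Filter Topology Set

variable {X : Type} [NormedAddCommGroup X] [NormedSpace ℝ X]

lemma far [CompleteSpace X] (h : ¬ Function.Surjective (NormedSpace.inclusionInDoubleDual ℝ X))
    {r : ℝ} (hr : r < 1) : ∃ φ : StrongDual ℝ X →L[ℝ] ℝ, 0 < ‖φ‖ ∧
      ∀ (x : X) (G : StrongDual ℝ X →L[ℝ] ℝ), (∀ f, φ f - G f = f x) → r * ‖φ‖ ≤ ‖G‖ := by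
  have hc : IsClosed (range (NormedSpace.inclusionInDoubleDualLi ℝ (E := X))) :=
    (NormedSpace.inclusionInDoubleDualLi ℝ (E := X)).isometry.isClosedEmbedding.isClosed_range
  let F : Submodule ℝ (StrongDual ℝ (StrongDual ℝ X)) :=
    (NormedSpace.inclusionInDoubleDualLi ℝ (E := X)).toLinearMap.range
  have hF : ∃ φ, φ ∉ F := by
    by_contra hn
    push Not at hn
    exact h fun φ => hn φ
  obtain ⟨φ, h1, h2⟩ := riesz_lemma (F := F) hc hF hr
  refine ⟨φ, norm_pos_iff.2 fun h0 => h1 (h0 ▸ F.zero_mem), fun x G hG => ?_⟩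
  have := h2 (NormedSpace.inclusionInDoubleDualLi ℝ (E := X) x) ⟨x, rfl⟩
  have e : φ - NormedSpace.inclusionInDoubleDualLi ℝ (E := X) x = G :=
    ContinuousLinearMap.ext fun f => by
      have h3 := hG f
      show φ f - f x = G f
      linarith
  rwa [e] at this

lemma annih (φ : StrongDual ℝ X →L[ℝ] ℝ) {d a : ℝ} (hd : 0 < d) (ha : 1 < a)
    (h : ∀ (x : X) (G : StrongDual ℝ X →L[ℝ] ℝ), (∀ f, φ f - G f = f x) → d ≤ ‖G‖)
    (E : Finset X) : ∃ f : StrongDual ℝ X, ‖f‖ ≤ a / d ∧ φ f = 1 ∧ ∀ x ∈ E, f x = 0 := by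
  by_contra hc
  push Not at hc
  have ha0 : 0 < a := by linarith
  let ev : E → StrongDual ℝ X →ₗ[ℝ] ℝ := fun x =>
    { toFun := fun f => f x, map_add' := fun _ _ => rfl, map_smul' := fun _ _ => rfl }
  let N : Submodule ℝ (StrongDual ℝ X) := ⨅ x, (ev x).ker
  have hN : ∀ f ∈ N, ∀ x ∈ E, f x = 0 := fun f hf x hx =>
    (Submodule.mem_iInf _).1 hf ⟨x, hx⟩
  obtain ⟨G, hG1, hG2⟩ := exists_extension_norm_eq N (φ.comp N.subtypeL)
  have h1 : ‖G‖ ≤ d / a := by
    rw [hG2]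
    refine ContinuousLinearMap.opNorm_le_bound _ (by positivity) fun f => ?_
    show ‖φ f.1‖ ≤ d / a * ‖f.1‖
    by_contra hlt
    push Not at hlt
    have h0 : 0 < ‖φ f.1‖ := lt_of_le_of_lt (by positivity) hlt
    obtain ⟨x, hx, hx'⟩ := hc ((φ f.1)⁻¹ • f.1) (by
      rw [norm_smul, norm_inv, ← div_eq_inv_mul, div_le_div_iff₀ h0 hd]
      rw [div_mul_eq_mul_div, div_lt_iff₀ ha0] at hlt
      linarith)
      (by rw [map_smul, smul_eq_mul, inv_mul_cancel₀ (norm_pos_iff.1 h0)])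
    exact hx' (by rw [_root_.smul_apply, hN _ f.2 x hx, smul_zero])
  have h2 := mem_span_of_iInf_ker_le_ker (L := ev) (K := φ.toLinearMap - G.toLinearMap)
    fun f hf => by
      have := hG1 ⟨f, hf⟩
      show φ f - G f = 0
      rw [sub_eq_zero]; exact this.symm
  obtain ⟨c, hc'⟩ := (Submodule.mem_span_range_iff_exists_fun ℝ).1 h2
  have := h (∑ x : E, c x • x.1) G fun f => by
    have := LinearMap.congr_fun hc' f
    simp only [LinearMap.coe_sum, Finset.sum_apply, LinearMap.smul_apply] at this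
    rw [map_sum]
    simp only [map_smul]
    exact this.symm
  have h3 : d / a < d := div_lt_self hd ha
  linarith

lemma helly [CompleteSpace X] (φ : StrongDual ℝ X →L[ℝ] ℝ) (hM : 0 < ‖φ‖) {ε : ℝ} (hε : 0 < ε)
    (G : Finset (StrongDual ℝ X)) :
    ∃ x : X, ‖x‖ ≤ (1 + ε) * ‖φ‖ ∧ ∀ f ∈ G, f x = φ f := by
  classical
  let T : X →L[ℝ] (G → ℝ) := ContinuousLinearMap.pi fun f => f.1
  let y : G → ℝ := fun f => φ f.1 / ‖φ‖
  have hy : y ∈ closure (T '' Metric.closedBall 0 1) := by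
    by_contra hn
    obtain ⟨Φ, hΦ⟩ := SepBall.sepBall T y hn
    have e1 : ∀ v : G → ℝ, Φ v = ∑ f, v f * Φ (Pi.single f 1) := fun v => by
      conv_lhs => rw [pi_eq_sum_univ' v, map_sum]
      simp
    have e2 : Φ.comp T = ∑ f : G, Φ (Pi.single f 1) • f.1 := by
      ext x
      rw [ContinuousLinearMap.comp_apply, e1, _root_.sum_apply]
      exact Finset.sum_congr rfl fun f _ => mul_comm _ _
    have e3 : Φ y = φ (Φ.comp T) / ‖φ‖ := by
      rw [e2, map_sum, e1, Finset.sum_div]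
      refine Finset.sum_congr rfl fun f _ => ?_
      rw [map_smul, smul_eq_mul]; simp only [y]; ring
    rw [e3, norm_div, Real.norm_of_nonneg hM.le, lt_div_iff₀ hM] at hΦ
    have := φ.le_opNorm (Φ.comp T)
    nlinarith [norm_nonneg (Φ.comp T)]
  have hcl : IsClosed (T.range : Set (G → ℝ)) := T.range.closed_of_finiteDimensional
  have := hcl.completeSpace_coe
  obtain ⟨C, hC, hC'⟩ := T.rangeRestrict.exists_preimage_norm_le (by
    rintro ⟨_, x, rfl⟩; exact ⟨x, rfl⟩)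
  have hyr : y ∈ T.range := closure_minimal (by rintro _ ⟨x, -, rfl⟩; exact ⟨x, rfl⟩) hcl hy
  obtain ⟨_, ⟨b, hb, rfl⟩, hb'⟩ := Metric.mem_closure_iff.1 hy (ε / C) (by positivity)
  obtain ⟨x, hx1, hx2⟩ := hC' ⟨y - T b, T.range.sub_mem hyr ⟨b, rfl⟩⟩
  have hx3 : T x = y - T b := congrArg Subtype.val hx1
  have hx4 : ‖x‖ ≤ ε := by
    rw [dist_eq_norm, lt_div_iff₀ hC] at hb'
    have : ‖(⟨y - T b, T.range.sub_mem hyr ⟨b, rfl⟩⟩ : T.range)‖ = ‖y - T b‖ := rfl
    rw [this] at hx2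
    linarith
  refine ⟨‖φ‖ • (x + b), ?_, fun f hf => ?_⟩
  · rw [norm_smul, Real.norm_of_nonneg hM.le, mul_comm]
    refine mul_le_mul_of_nonneg_right ((norm_add_le _ _).trans ?_) hM.le
    linarith [mem_closedBall_zero_iff.1 hb]
  · have : f x = φ f / ‖φ‖ - f b := congrFun hx3 ⟨f, hf⟩
    rw [map_smul, map_add, this, smul_eq_mul]
    field_simp
    ring

/-- James' sequences in a nonreflexive space, with almost sharp constants -/
theorem james [CompleteSpace X]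
    (h : ¬ Function.Surjective (NormedSpace.inclusionInDoubleDual ℝ X)) {K : ℝ} (hK : 1 < K) :
    ∃ (x : ℕ → X) (f : ℕ → StrongDual ℝ X), (∀ n, ‖x n‖ ≤ 1) ∧
      (∀ n, ‖f n‖ ≤ K) ∧ ∀ i j, f i (x j) = if i ≤ j then 1 else 0 := by
  classical
  obtain ⟨a, ha1, ha2⟩ : ∃ a : ℝ, 1 < a ∧ a * a * a ≤ K := by
    have hc : Continuous fun a : ℝ => a * a * a := by fun_prop
    have h1 : ∀ᶠ a in 𝓝 (1 : ℝ), a * a * a < K :=
      hc.continuousAt.eventually_lt continuousAt_const (by simpa using hK)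
    obtain ⟨a, h2, h3⟩ := ((h1.filter_mono nhdsWithin_le_nhds).and
      (self_mem_nhdsWithin (a := (1 : ℝ)) (s := Ioi 1))).exists
    exact ⟨a, h3, h2.le⟩
  have ha0 : 0 < a := by linarith
  obtain ⟨φ, hM, hd'⟩ := far h (r := a⁻¹) (inv_lt_one_of_one_lt₀ ha1)
  have hd : 0 < a⁻¹ * ‖φ‖ := by positivity
  choose F hF1 hF2 hF3 using annih φ hd ha1 hd'
  choose Y hY1 hY2 using helly φ hM (ε := a - 1) (by linarith)
  let s : ℕ → Finset X × Finset (StrongDual ℝ X) := fun n => Nat.rec (∅, ∅)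
    (fun _ p => (insert (Y (insert (F p.1) p.2)) p.1, insert (F p.1) p.2)) n
  have hs : ∀ n, s (n + 1) = (insert (Y (insert (F (s n).1) (s n).2)) (s n).1,
    insert (F (s n).1) (s n).2) := fun _ => rfl
  have m1 : Monotone fun n => (s n).1 := monotone_nat_of_le_succ fun n => by
    rw [hs]; exact Finset.subset_insert _ _
  have m2 : Monotone fun n => (s n).2 := monotone_nat_of_le_succ fun n => by
    rw [hs]; exact Finset.subset_insert _ _
  have hL : 0 < a * ‖φ‖ := by positivity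
  refine ⟨fun n => (a * ‖φ‖)⁻¹ • Y (s (n + 1)).2, fun n => (a * ‖φ‖) • F (s n).1,
    fun n => ?_, fun n => ?_, fun i j => ?_⟩
  · rw [norm_smul, norm_inv, Real.norm_of_nonneg hL.le, inv_mul_le_iff₀ hL]
    have := hY1 (s (n + 1)).2
    linarith
  · rw [norm_smul, Real.norm_of_nonneg hL.le]
    refine (mul_le_mul_of_nonneg_left (hF1 _) hL.le).trans (le_of_eq_of_le ?_ ha2)
    field_simp
  · rw [_root_.smul_apply, map_smul, smul_smul, mul_inv_cancel₀ hL.ne', one_smul]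
    split_ifs with hij
    · rw [hY2 _ _ (m2 (Nat.succ_le_succ hij) (Finset.mem_insert_self _ _)), hF2]
    · exact hF3 _ _ (m1 (show j + 1 ≤ i by omega) (Finset.mem_insert_self _ _))

end Pool.Agent.H87.JamesSharp
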