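import Mathlib

/-! Families of functions parametrized continuously by ordinal intervals. -/

namespace Pool.Agent.H87.L1AI

open Filter Topology Set Ordinal Classical

variable {Z : Type}

def Rep (L : Ordinal.{0}) (b : Z → ℝ) (S : Set (Z → ℝ)) : Prop :=
  ∃ Γ : Ordinal.{0} → Z → ℝ, (∀ o, Γ o ∈ S) ∧ (∀ g ∈ S, ∃ o ≤ L, Γ o = g) ∧ (∀ o, L ≤ o → Γ o = b) ∧
    ∀ z a, a ≠ 0 → ∀ ε > 0, ∃ l < a, ∀ o, l < o → o ≤ a → |Γ o z - Γ a z| < ε

lemma Rep.zero (b : Z → ℝ) : Rep 0 b {b} :=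
  ⟨fun _ => b, fun _ => rfl, fun _ h => ⟨0, le_rfl, h.symm⟩, fun _ _ => rfl,
    fun _ _ h _ hε => ⟨0, pos_iff_ne_zero.2 h, fun _ _ _ => by simpa using hε⟩⟩

lemma Rep.map {L : Ordinal.{0}} {b : Z → ℝ} {S : Set (Z → ℝ)} (h : Rep L b S) (φ : Z → ℝ → ℝ)
    (hφ : ∀ z s t, |φ z s - φ z t| ≤ |s - t|) :
    Rep L (fun z => φ z (b z)) ((fun g z => φ z (g z)) '' S) := by
  obtain ⟨Γ, h1, h2, h3, h4⟩ := h
  refine ⟨fun o z => φ z (Γ o z), fun o => ⟨_, h1 o, rfl⟩, ?_, fun o ho => by simp only [h3 o ho],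
    fun z a ha ε hε => (h4 z a ha ε hε).imp fun l hl => ⟨hl.1, fun o k1 k2 =>
      (hφ _ _ _).trans_lt (hl.2 o k1 k2)⟩⟩
  rintro _ ⟨g, hg, rfl⟩
  obtain ⟨o, k, rfl⟩ := h2 g hg
  exact ⟨o, k, rfl⟩

lemma Rep.step {ι : Type} [Countable ι] {L : Ordinal.{0}} {b : Z → ℝ} {c : ι → Z → ℝ}
    {S : ι → Set (Z → ℝ)} (h : ∀ k, Rep L (c k) (S k))
    (hc : ∀ z, ∀ ε > 0, ∀ᶠ k in cofinite, ∀ g ∈ S k, |g z - b z| < ε) :
    Rep ((L + 1) * ω) b (insert b (⋃ k, S k)) := by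
  obtain ⟨e, he⟩ := Countable.exists_injective_nat ι
  choose Γ h1 h2 _ h4 using h
  have L0 : L + 1 ≠ 0 := add_one_ne_zero L
  let G : Ordinal.{0} → Ordinal.{0} → Z → ℝ := fun j =>
    if h : ∃ k, (e k : Ordinal.{0}) = j then Γ h.choose else fun _ => b
  have g1 : ∀ k, G (e k) = Γ k := fun k => by
    have h : ∃ k', (e k' : Ordinal.{0}) = e k := ⟨k, rfl⟩
    simp only [G, dif_pos h, he (Nat.cast_injective h.choose_spec)]
  have g2 : ∀ j : Ordinal.{0}, (∃ k, j = e k) ∨ G j = fun _ => b := fun j => by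
    by_cases h : ∃ k, (e k : Ordinal.{0}) = j
    exacts [Or.inl (h.imp fun _ => Eq.symm), Or.inr (dif_neg h)]
  have g3 : ∀ o, (L + 1) * ω ≤ o → G (o / (L + 1)) (o % (L + 1)) = b := fun o ho => by
    rcases g2 (o / (L + 1)) with ⟨k, h⟩ | h
    · exact absurd ((le_div L0).2 ho) (h ▸ (natCast_lt_omega0 _).not_ge)
    · rw [h]
  have g4 : ∀ j r, r < L + 1 → G (((L + 1) * j + r) / (L + 1)) (((L + 1) * j + r) % (L + 1)) =
      G j r := fun j r h => by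
    rw [mul_add_div _ L0, div_eq_zero_of_lt h, add_zero, mul_add_mod_self, mod_eq_of_lt h]
  refine ⟨fun o => G (o / (L + 1)) (o % (L + 1)), fun o => ?_, ?_, g3, fun z a ha ε hε => ?_⟩
  · rcases g2 (o / (L + 1)) with ⟨k, h⟩ | h <;> simp only [h]
    · exact Or.inr (mem_iUnion.2 ⟨k, g1 k ▸ h1 k _⟩)
    · exact Or.inl rfl
  · rintro g (rfl | hg)
    · exact ⟨_, le_rfl, g3 _ le_rfl⟩
    obtain ⟨k, hk⟩ := mem_iUnion.1 hg
    obtain ⟨o, k1, rfl⟩ := h2 k g hk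
    have k2 := k1.trans_lt (lt_add_one L)
    refine ⟨(L + 1) * e k + o, ((div_lt L0).1 ?_).le, (g4 _ _ k2).trans (by rw [g1])⟩
    rw [mul_add_div _ L0, div_eq_zero_of_lt k2, add_zero]
    exact natCast_lt_omega0 _
  rcases lt_trichotomy a ((L + 1) * ω) with h | rfl | h
  · obtain ⟨j, hj⟩ := lt_omega0.1 ((div_lt L0).2 h)
    have a1 := div_add_mod a (L + 1)
    have a2 := mod_lt a L0
    rw [hj] at a1
    generalize a % (L + 1) = r at a1 a2
    subst a1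
    rcases eq_or_ne r 0 with rfl | hr
    · obtain _ | j := j
      · simp at ha
      refine ⟨(L + 1) * j + L, by
        rw [Nat.cast_succ, mul_add_one, add_zero]; exact add_lt_add_right (lt_add_one L) _,
        fun o k1 k2 => ?_⟩
      rw [le_antisymm k2 (by
        rw [Nat.cast_succ, mul_add_one, add_zero, ← add_assoc]; exact Order.add_one_le_of_lt k1)]
      simpa using hε
    obtain ⟨l, l1, l2⟩ : ∃ l < r, ∀ o, l < o → o ≤ r → |G j o z - G j r z| < ε := by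
      rcases g2 j with ⟨k, h⟩ | h
      · rw [h, g1]; exact h4 k z r hr ε hε
      · exact ⟨0, pos_iff_ne_zero.2 hr, fun _ _ _ => by simpa [h] using hε⟩
    refine ⟨(L + 1) * j + l, add_lt_add_right l1 _, fun o k1 k2 => ?_⟩
    obtain ⟨s, rfl⟩ := exists_add_of_le (le_self_add.trans k1.le)
    have k3 := (add_le_add_iff_left _).1 k2
    simp only [g4 _ _ a2, g4 _ _ (k3.trans_lt a2)]
    exact l2 s ((add_lt_add_iff_left _).1 k1) k3
  · obtain ⟨M, hM⟩ := ((hc z ε hε).image e).bddAbove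
    refine ⟨(L + 1) * (M + 1 : ℕ), (div_lt L0).1 (by
      rw [Ordinal.mul_div_cancel _ L0]; exact natCast_lt_omega0 _), fun o k1 _ => ?_⟩
    simp only [g3 _ le_rfl]
    rcases g2 (o / (L + 1)) with ⟨k, h⟩ | h <;> simp only [h]
    · have a1 := (le_div L0).2 k1.le
      rw [h, Nat.cast_le] at a1
      rw [g1]
      by_contra a2
      exact (hM ⟨k, fun a3 => a2 (a3 _ (h1 k _)), rfl⟩).not_gt a1
    · simpa using hε
  · exact ⟨_, h, fun o k1 _ => by simpa only [g3 _ k1.le, g3 _ h.le, _root_.sub_self, abs_zero] using hε⟩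

lemma cont {g : Ordinal.{0} → ℝ}
    (h : ∀ a, a ≠ 0 → ∀ ε > 0, ∃ l < a, ∀ o, l < o → o ≤ a → |g o - g a| < ε) : Continuous g := by
  refine continuous_iff_continuousAt.2 fun a => Metric.tendsto_nhds.2 fun ε hε => ?_
  have h1 := Iio_mem_nhds (lt_add_one a)
  rcases eq_or_ne a 0 with rfl | ha
  · filter_upwards [h1] with o ho
    rw [nonpos_iff_eq_zero.1 (Order.lt_add_one_iff.1 (mem_Iio.1 ho)), dist_self]
    exact hε
  · obtain ⟨l, h2, h3⟩ := h a ha ε hε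
    filter_upwards [h1, Ioi_mem_nhds h2] with o k1 k2
    exact h3 o k2 (Order.lt_add_one_iff.1 k1)

noncomputable def LL : ℕ → Ordinal.{0}
  | 0 => 0
  | i + 1 => (LL i + 1) * ω

lemma LL_lt (i : ℕ) : LL i < ω ^ ω := by
  have h := isPrincipal_mul_omega0_opow_opow (1 : Ordinal.{0})
  rw [opow_one] at h
  have h1 : (ω : Ordinal.{0}) < ω ^ ω := by
    simpa using (opow_lt_opow_iff_right one_lt_omega0).2 (one_lt_omega0 : (1 : Ordinal.{0}) < ω)
  induction i with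
  | zero => exact omega0_pos.trans h1
  | succ i ih => exact h (isPrincipal_add_omega0_opow ω ih (one_lt_omega0.trans h1)) h1

end Pool.Agent.H87.L1AI
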