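import Mathlib
import Pool.Agent.H87.L1AI1

/-! An almost isometric embedding of `ℓ₁` into `C[0, ω^ω]`. -/

namespace Pool.Agent.H87.L1AI

open Filter Topology Set Classical Finset

abbrev Z1 : Type := lp (fun _ : ℕ => ℝ) 1

lemma nsum (z : Z1) : HasSum (fun i => |z i|) ‖z‖ := by
  simpa using lp.hasSum_norm (by simp) z

noncomputable def P (n : ℕ) (z : Z1) : Z1 :=
  ⟨fun i => if i < n then z i else 0, (lp.memℓp z).mono' fun i => by split_ifs <;> simp⟩

lemma P_ap (n : ℕ) (z : Z1) (i : ℕ) : P n z i = if i < n then z i else 0 := rfl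

noncomputable def s (n : ℕ) (z : Z1) : ℝ := ∑ i ∈ range n, |z i|

lemma P_norm (n : ℕ) (z : Z1) : ‖P n z‖ = s n z := by
  have h : HasSum (fun i => |P n z i|) (∑ i ∈ range n, |P n z i|) :=
    hasSum_sum_of_ne_finset_zero fun i h => by rw [P_ap, if_neg (by simpa using h), abs_zero]
  exact ((nsum _).unique h).trans
    (sum_congr rfl fun i h => by rw [P_ap, if_pos (mem_range.1 h)])

lemma P_sub (n : ℕ) (z w : Z1) : P n (z - w) = P n z - P n w := lp.ext (funext fun i => by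
  show P n (z - w) i = P n z i - P n w i
  simp only [P_ap]
  split_ifs <;> simp)

lemma P_P {n k : ℕ} (h : n ≤ k) (z : Z1) : P n (P k z) = P n z := lp.ext (funext fun i => by
  show P n (P k z) i = P n z i
  simp only [P_ap]
  split_ifs <;> first | rfl | omega)

noncomputable def N (n : ℕ) (z : Z1) : ℝ := ‖z - P n z‖

lemma N_eq (n : ℕ) (z : Z1) : N n z = ‖z‖ - s n z := by
  have h := (nsum z).sub (nsum (P n z))
  rw [P_norm, show (fun i => |z i| - |P n z i|) = fun i => |(z - P n z) i| from funext fun i => by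
    show _ = |z i - P n z i|
    rw [P_ap]
    split_ifs <;> simp] at h
  exact (nsum _).unique h

lemma s_mono (z : Z1) : Monotone fun n => s n z := fun _ _ h =>
  sum_le_sum_of_subset_of_nonneg (range_mono h) fun _ _ _ => abs_nonneg _

lemma s_le (n : ℕ) (z : Z1) : s n z ≤ ‖z‖ := sum_le_hasSum _ (fun _ _ => abs_nonneg _) (nsum z)

lemma N_lim (z : Z1) : Tendsto (fun n => N n z) atTop (𝓝 0) := by
  simpa only [N_eq, s, sub_self] using (nsum z).tendsto_sum_nat.const_sub ‖z‖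

lemma N_P {n k : ℕ} (h : n ≤ k) (z : Z1) : N n (P k z) = s k z - s n z := by
  rw [N_eq, P_norm, ← P_norm n (P k z), P_P h, P_norm]

lemma N_sub (n : ℕ) (z w : Z1) : |N n z - N n w| ≤ ‖z - w‖ - ‖P n z - P n w‖ := by
  rw [← P_sub, P_norm, ← N_eq]
  refine (abs_norm_sub_norm_le _ _).trans_eq (congrArg _ ?_)
  rw [P_sub]; abel

def med (a b n : ℝ) : ℝ := max (min a (b + n)) (b - n)

lemma med_abs {a b n : ℝ} (h : 0 ≤ n) : |med a b n - b| ≤ n :=
  abs_le.2 ⟨by unfold med; linarith [le_max_right (min a (b + n)) (b - n)],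
    sub_le_iff_le_add'.2 (max_le (min_le_right _ _) (by linarith))⟩

lemma med_sub {a b n a' b' n' D : ℝ} (h1 : a - a' ≤ D) (h2 : b - b' + |n - n'| ≤ D) :
    med a b n - med a' b' n' ≤ D := by
  have := abs_le.1 (le_refl |n - n'|)
  unfold med
  simp only [max_def, min_def]
  split_ifs <;> linarith

def L1 (g : Z1 → ℝ) : Prop := ∀ z w, g z - g w ≤ ‖z - w‖

noncomputable def ell (n : ℕ) (T : Finset ℕ) (z : Z1) : ℝ :=
  ∑ i ∈ range n, (if i ∈ T then 1 else -1) * z i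

noncomputable def ch (b : Z1 → ℝ) (θ : ℕ) (T : Finset ℕ) (κ : ℝ) (z : Z1) : ℝ :=
  med (ell (θ + 1) T z - κ) (b (P θ z)) (N θ z)

lemma ch_L1 {b : Z1 → ℝ} (hb : L1 b) (θ : ℕ) (T : Finset ℕ) (κ : ℝ) : L1 (ch b θ T κ) :=
  fun z w => med_sub (by
    rw [sub_sub_sub_cancel_right, ell, ell, ← sum_sub_distrib]
    refine le_trans (sum_le_sum fun i _ => ?_) (s_le (θ + 1) (z - w))
    show _ ≤ |z i - w i|
    split_ifs <;> linarith [le_abs_self (z i - w i), neg_le_abs (z i - w i)])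
    (by linarith [N_sub θ z w, hb (P θ z) (P θ w)])

lemma ch_near {b : Z1 → ℝ} (hb : L1 b) (θ : ℕ) (T : Finset ℕ) (κ : ℝ) (z : Z1) :
    |ch b θ T κ z - b z| ≤ 2 * N θ z := by
  have h1 := abs_le.1 (med_abs (a := ell (θ + 1) T z - κ) (b := b (P θ z)) (norm_nonneg (z - P θ z)))
  have h2 := hb (P θ z) z
  rw [norm_sub_rev] at h2
  unfold ch N
  exact abs_le.2 ⟨by linarith [hb z (P θ z), h1.1], by linarith [h1.2]⟩

structure Dat (Κ : Finset ℝ) (x y : Z1) (A B : ℕ → ℝ) (η : ℝ) : Prop where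
  a1 : ∀ n k, n ≤ k → 0 ≤ A k - A n ∧ A k - A n ≤ s k x - s n x
  b1 : ∀ n k, n ≤ k → 0 ≤ B k - B n ∧ B k - B n ≤ s k y - s n y
  k1 : ∀ n, ∃ T ∈ (range n).powerset, ∃ κ ∈ Κ, ∀ k, n ≤ k →
    A n - η ≤ ell n T (P k x) - κ ∧ ell n T (P k y) - κ ≤ -B n + η

theorem tree (Κ : Finset ℝ) (i : ℕ) : ∀ (b : Z1 → ℝ) (n : ℕ), L1 b → ∃ S, Rep (LL i) b S ∧
    (∀ g ∈ S, L1 g ∧ ∀ z, |g z - b z| ≤ 2 * i * N n z) ∧
    ∀ x y A B η γ, Dat Κ x y A B η → 0 ≤ γ → (∀ k, A k + B k - (A n + B n) ≤ (i + 1) * γ) →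
      (∀ k, n ≤ k → A k + B k - (A n + B n) ≤ γ →
        A k - γ - η ≤ b (P k x) ∧ b (P k y) ≤ -B k + γ + η) →
      ∃ g ∈ S, ∀ k, A k - γ - η ≤ g x ∧ g y ≤ -B k + γ + η := by
  induction i with
  | zero =>
    refine fun b n hb => ⟨_, Rep.zero b, by rintro _ rfl; exact ⟨hb, by simp⟩,
      fun x y A B η γ hd _ h1 h2 => ⟨b, rfl, fun k => ⟨?_, ?_⟩⟩⟩
    · refine ge_of_tendsto (f := fun j => b x + N j x) (by simpa using (N_lim x).const_add (b x))
        (eventually_atTop.2 ⟨max k n, fun j hj => ?_⟩)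
      have := hb (P j x) x
      rw [norm_sub_rev] at this
      linarith [(h2 j (max_le_iff.1 hj).2 (by simpa using h1 j)).1, (hd.a1 k j (max_le_iff.1 hj).1).1,
        show N j x = ‖x - P j x‖ from rfl]
    · refine le_of_tendsto (f := fun j => b y - N j y) (by simpa using (N_lim y).const_sub (b y))
        (eventually_atTop.2 ⟨max k n, fun j hj => ?_⟩)
      linarith [(h2 j (max_le_iff.1 hj).2 (by simpa using h1 j)).2, (hd.b1 k j (max_le_iff.1 hj).1).1,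
        show N j y = ‖y - P j y‖ from rfl, hb y (P j y)]
  | succ i ih =>
    intro b n hb
    choose S s1 s2 s3 using fun k : (Σ t : ℕ, (range (n + t + 1)).powerset × Κ) =>
      ih (ch b (n + k.1) k.2.1 k.2.2) (n + k.1 + 1) (ch_L1 hb _ _ _)
    have h1 : ∀ k, ∀ g ∈ S k, ∀ z, |g z - b z| ≤ 2 * (i + 1 : ℕ) * N (n + k.1) z := fun k g hg z => by
      have a1 : N (n + k.1 + 1) z ≤ N (n + k.1) z := by
        rw [N_eq, N_eq]; linarith [s_mono z (Nat.le_succ (n + k.1))]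
      push_cast
      nlinarith [abs_sub_le (g z) (ch b (n + k.1) k.2.1 k.2.2 z) (b z), (s2 k g hg).2 z,
        ch_near hb (n + k.1) k.2.1 k.2.2 z, Nat.cast_nonneg (α := ℝ) i]
    refine ⟨_, Rep.step s1 fun z ε hε => ?_, ?_, fun x y A B η γ hd γ0 h2 h3 => ?_⟩
    · obtain ⟨M, hM⟩ := eventually_atTop.1 (((N_lim z).const_mul (2 * (i + 1 : ℕ) : ℝ)).eventually
        (gt_mem_nhds (by simpa using hε)))
      refine ((finite_Iio M).biUnion fun t _ => finite_range (Sigma.mk t)).subset fun k hk => ?_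
      refine Set.mem_biUnion (x := k.1) (Set.mem_Iio.2 (not_le.1 fun h => hk fun g hg => ?_))
        ⟨k.2, rfl⟩
      exact (h1 k g hg z).trans_lt (hM _ (h.trans (Nat.le_add_left _ _)))
    · rintro g (rfl | hg)
      · exact ⟨hb, fun z => by
          rw [sub_self, abs_zero]; exact mul_nonneg (by positivity) (norm_nonneg _)⟩
      obtain ⟨k, hk⟩ := mem_iUnion.1 hg
      refine ⟨(s2 k g hk).1, fun z => (h1 k g hk z).trans
        (mul_le_mul_of_nonneg_left ?_ (by positivity))⟩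
      rw [N_eq, N_eq]; linarith [s_mono z (Nat.le_add_right n k.1)]
    obtain ⟨t, t1, t2⟩ : ∃ t, A (n + t) + B (n + t) - (A n + B n) ≤ γ ∧
        ∀ k, A k + B k - (A (n + t + 1) + B (n + t + 1)) ≤ (i + 1) * γ := by
      by_cases h : ∃ t, γ < A (n + t + 1) + B (n + t + 1) - (A n + B n)
      · refine ⟨Nat.find h, ?_, fun k => ?_⟩
        · rcases h0 : Nat.find h with _ | t
          · simpa using γ0
          · exact not_lt.1 (Nat.find_min h (by omega : t < Nat.find h))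
        · have := h2 k
          push_cast at this
          linarith [Nat.find_spec h]
      · push Not at h
        refine ⟨0, by simpa using γ0, fun k => ?_⟩
        have a1 := mul_nonneg (Nat.cast_nonneg (α := ℝ) i) γ0
        rcases le_or_gt k n with hk | hk
        · linarith [(hd.a1 k (n + 0 + 1) (by omega)).1, (hd.b1 k (n + 0 + 1) (by omega)).1]
        · obtain ⟨t, rfl⟩ := Nat.exists_eq_add_of_lt hk
          linarith [h t, (hd.a1 n (n + 0 + 1) (by omega)).1, (hd.b1 n (n + 0 + 1) (by omega)).1]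
    obtain ⟨T, T1, κ, κ1, κ2⟩ := hd.k1 (n + t + 1)
    obtain ⟨g, g1, g2⟩ := s3 ⟨t, ⟨T, T1⟩, ⟨κ, κ1⟩⟩ x y A B η γ hd γ0 t2 fun k k1 k2 => by
      have a0 : n + t ≤ k := by dsimp only at k1; omega
      obtain ⟨a1, a2⟩ := h3 (n + t) (Nat.le_add_right _ _) t1
      obtain ⟨a3, a4⟩ := κ2 k k1
      have a5 := (hd.a1 _ k k1).1
      have a6 := (hd.b1 _ k k1).1
      dsimp only at k2 a5 a6 ⊢
      simp only [ch, med, P_P a0, N_P a0]
      exact ⟨le_max_of_le_left (le_min (by linarith) (by linarith [(hd.a1 _ k a0).2])),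
        max_le (min_le_of_left_le (by linarith)) (by linarith [(hd.b1 _ k a0).2])⟩
    exact ⟨g, Or.inr (mem_iUnion.2 ⟨_, g1⟩), g2⟩

lemma dat (x y : Z1) {η : ℝ} (hη : 0 < η) {J : ℕ} (hJ : min ‖x‖ ‖y‖ ≤ η * J) :
    ∃ A B : ℕ → ℝ, Dat ((Finset.Icc (-J : ℤ) J).image fun j : ℤ => η * j) x y A B η ∧
      A 0 = 0 ∧ B 0 = 0 ∧ ∀ k, A k + B k = s k (x - y) := by
  have h1 : ∀ a b : ℝ, ∃ c, |c| ≤ min |a| |b| ∧
      (0 ≤ (if b ≤ a then 1 else -1) * (a - c) ∧ (if b ≤ a then 1 else -1) * (a - c) ≤ |a|) ∧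
      (0 ≤ (if b ≤ a then 1 else -1) * (c - b) ∧ (if b ≤ a then 1 else -1) * (c - b) ≤ |b|) :=
    fun a b => ⟨max (min a b) (min 0 (max a b)), by
      rw [le_min_iff]
      simp only [max_def, min_def]
      split_ifs <;> refine ⟨⟨?_, ?_⟩, ⟨?_, ?_⟩, ?_, ?_⟩ <;>
        first
        | linarith [le_abs_self a, neg_le_abs a, le_abs_self b, neg_le_abs b, abs_nonneg a, abs_nonneg b]
        | (rw [abs_le]; constructor <;>
          linarith [le_abs_self a, neg_le_abs a, le_abs_self b, neg_le_abs b, abs_nonneg a,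
            abs_nonneg b])⟩
  choose c c1 c2 c3 using fun i => h1 (x i) (y i)
  have h2 : ∀ {u v : ℕ → ℝ}, (∀ i, 0 ≤ u i ∧ u i ≤ v i) → ∀ n k, n ≤ k →
      0 ≤ ∑ i ∈ range k, u i - ∑ i ∈ range n, u i ∧ ∑ i ∈ range k, u i - ∑ i ∈ range n, u i ≤
        ∑ i ∈ range k, v i - ∑ i ∈ range n, v i := fun h n k hk => by
    rw [← sum_Ico_eq_sub _ hk, ← sum_Ico_eq_sub _ hk]
    exact ⟨sum_nonneg fun i _ => (h i).1, sum_le_sum fun i _ => (h i).2⟩
  refine ⟨_, _, ⟨h2 c2, h2 c3, fun n => ⟨(range n).filter fun i => y i ≤ x i,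
    mem_powerset.2 (filter_subset _ _), ?_⟩⟩, rfl, rfl, fun k => ?_⟩
  swap
  · rw [← sum_add_distrib]
    refine sum_congr rfl fun i _ => ?_
    show _ = |x i - y i|
    split_ifs with h
    · rw [abs_of_nonneg (sub_nonneg.2 h)]; ring
    · rw [abs_of_neg (sub_neg.2 (not_le.1 h))]; ring
  set τ := ∑ i ∈ range n, (if y i ≤ x i then 1 else -1) * c i with hτ
  have h3 : |τ| ≤ η * J := by
    refine le_trans ((abs_sum_le_sum_abs _ _).trans ?_) hJ
    refine le_min (le_trans (sum_le_sum fun i _ => ?_) (s_le n x))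
      (le_trans (sum_le_sum fun i _ => ?_) (s_le n y)) <;> split_ifs <;>
      simpa using (c1 i).trans (by simp)
  have h4 : ∀ k, n ≤ k → ∀ z, ell n ((range n).filter fun i => y i ≤ x i) (P k z) =
      ∑ i ∈ range n, (if y i ≤ x i then 1 else -1) * z i := fun k hk z =>
    sum_congr rfl fun i hi => by
      rw [P_ap, if_pos ((mem_range.1 hi).trans_le hk)]
      simp only [mem_filter, hi, true_and]
  have h5 := Int.floor_le (τ / η)
  have h6 := Int.lt_floor_add_one (τ / η)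
  rw [le_div_iff₀' hη] at h5
  rw [div_lt_iff₀' hη] at h6
  refine ⟨η * ⌊τ / η⌋, mem_image.2 ⟨_, Finset.mem_Icc.2 ⟨Int.le_floor.2 ?_, ?_⟩, rfl⟩,
    fun k hk => ?_⟩
  · rw [le_div_iff₀' hη]; push_cast; linarith [(abs_le.1 h3).1]
  · exact Int.floor_le_iff.2 (by
      rw [div_lt_iff₀' hη]; push_cast; linarith [(abs_le.1 h3).2])
  · simp only [h4 k hk, mul_sub, sum_sub_distrib, ← hτ]
    constructor <;> linarith

theorem fam {e : ℝ} (he : 0 < e) : ∃ i S, Rep (LL i) (fun _ : Z1 => 0) S ∧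
    (∀ g ∈ S, L1 g ∧ ∀ z, |g z| ≤ ‖z‖) ∧
      ∀ x y, ∃ g ∈ S, (1 - 10 * e) * ‖x - y‖ ≤ g x - g y := by
  obtain ⟨r, hr⟩ := exists_nat_one_div_lt he
  choose S s1 s2 s3 using fun Κ => tree Κ r (fun _ => 0) 0 fun z w => by simp
  let Κ : ℤ × ℕ → Finset ℝ := fun p => (Finset.Icc (-(p.2 + 1 + ⌈1 / e⌉₊ : ℕ) : ℤ)
    (p.2 + 1 + ⌈1 / e⌉₊ : ℕ)).image fun j : ℤ => e * 2 ^ p.1 * j
  let h : ℤ × ℕ → Z1 → ℝ := fun p z => min (2 ^ p.1) (max (‖z‖ - (p.2 + 1) * (e * 2 ^ p.1)) 0)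
  have h0 : ∀ p z, 0 ≤ h p z := fun p z => le_min (by positivity) (le_max_right _ _)
  have h1 : ∀ p z a, |med a 0 (h p z)| ≤ h p z := fun p z a => by simpa using med_abs (b := 0) (h0 p z)
  have h2 := fun p => (s1 (Κ p)).map (fun z a => med a 0 (h p z)) fun z a b => abs_le.2
    ⟨neg_le.1 ((neg_sub _ _).trans_le (med_sub (by linarith [neg_le_abs (a - b)]) (by simp))),
      med_sub (le_abs_self _) (by simp)⟩
  refine ⟨r + 1, _, Rep.step h2 fun z ε hε => ?_, ?_, fun x y => ?_⟩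
  · obtain ⟨m0, k0, -⟩ := exists_mem_Ioc_zpow hε one_lt_two
    obtain ⟨m1, -, k1⟩ := exists_mem_Ioc_zpow (show 0 < (‖z‖ + 1) / e by positivity) one_lt_two
    obtain ⟨M, hM⟩ := exists_nat_gt (‖z‖ / (e * ε))
    refine ((Set.finite_Icc m0 (m1 + 1)).prod (finite_Iio M)).subset fun p hp => ?_
    have a1 : ε ≤ h p z := not_lt.1 fun k => hp (by
      rintro _ ⟨g, -, rfl⟩
      simpa using (h1 p z _).trans_lt k)
    obtain ⟨a2, a3⟩ := le_min_iff.1 a1
    have a4 := (le_max_iff.1 a3).resolve_right hε.not_ge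
    have a5 : (0 : ℝ) ≤ p.2 := Nat.cast_nonneg _
    have a6 : (0 : ℝ) < e * 2 ^ p.1 := by positivity
    refine ⟨⟨((zpow_lt_zpow_iff_right₀ one_lt_two).1 (k0.trans_le a2)).le,
      (zpow_le_zpow_iff_right₀ one_lt_two).1 (le_trans ?_ k1)⟩, Nat.cast_lt (α := ℝ).1
      (lt_of_le_of_lt ?_ hM)⟩
    · rw [le_div_iff₀' he]; nlinarith
    · rw [le_div_iff₀ (by positivity)]
      nlinarith [mul_le_mul_of_nonneg_left a2 he.le]
  · rintro g (rfl | hg)
    · exact ⟨fun z w => by simp, fun z => by simp⟩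
    obtain ⟨p, g', hg', rfl⟩ := mem_iUnion.1 hg
    refine ⟨fun z w => med_sub ((s2 _ g' hg').1 z w) ?_, fun z => (h1 p z _).trans
      (min_le_of_right_le (max_le (sub_le_self _ (by positivity)) (norm_nonneg _)))⟩
    rw [sub_self, zero_add]
    refine (abs_min_sub_min_le_max _ _ _ _).trans (max_le (by simp)
      ((abs_max_sub_max_le_abs _ _ _).trans ?_))
    rw [sub_sub_sub_cancel_right]
    exact abs_norm_sub_norm_le _ _
  rcases (norm_nonneg (x - y)).eq_or_lt with d0 | d0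
  · exact ⟨_, Or.inl rfl, by simp [← d0]⟩
  obtain ⟨m, m1, m2⟩ := exists_mem_Ioc_zpow d0 one_lt_two
  have m3 : (2 : ℝ) ^ (m + 1) ≤ 2 * ‖x - y‖ := by rw [zpow_add_one₀ two_ne_zero]; linarith
  generalize m + 1 = m at m2 m3
  have η0 : 0 < e * 2 ^ m := by positivity
  set ν := ⌊(min ‖x‖ ‖y‖ - ‖x - y‖) / (e * 2 ^ m)⌋₊ with hν
  have n1 := Nat.lt_floor_add_one ((min ‖x‖ ‖y‖ - ‖x - y‖) / (e * 2 ^ m))
  rw [div_lt_iff₀ η0, ← hν] at n1
  have n2 : ν * (e * 2 ^ m) ≤ max (min ‖x‖ ‖y‖ - ‖x - y‖) 0 := by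
    rcases le_total 0 (min ‖x‖ ‖y‖ - ‖x - y‖) with k | k
    · exact le_max_of_le_left ((le_div_iff₀ η0).1 (Nat.floor_le (div_nonneg k η0.le)))
    · rw [hν, Nat.floor_of_nonpos (div_nonpos_of_nonpos_of_nonneg k η0.le)]; simp
  obtain ⟨A, B, hd, A0, B0, hs⟩ := dat x y η0 (J := ν + 1 + ⌈1 / e⌉₊) (by
    have := (div_le_iff₀ he).1 (Nat.le_ceil (1 / e))
    push_cast
    nlinarith [mul_le_mul_of_nonneg_right this (show (0 : ℝ) ≤ 2 ^ m by positivity)])
  have γ0 : 0 ≤ ‖x - y‖ / (r + 1) := by positivity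
  obtain ⟨g, g1, g2⟩ := s3 (Κ (m, ν)) x y A B _ _ hd γ0 (fun k => by
    rw [mul_div_cancel₀ _ (by positivity), hs, A0, B0]
    linarith [s_le k (x - y)]) fun k _ hk => by
    constructor <;> linarith [(hd.a1 0 k k.zero_le).1, (hd.b1 0 k k.zero_le).1]
  refine ⟨_, Or.inr (mem_iUnion.2 ⟨(m, ν), g, g1, rfl⟩), ?_⟩
  have γ1 : ‖x - y‖ / (r + 1) ≤ e * ‖x - y‖ := by
    rw [div_eq_mul_one_div, mul_comm]; exact mul_le_mul_of_nonneg_right hr.le d0.le
  have η1 : e * 2 ^ m ≤ 2 * (e * ‖x - y‖) := by nlinarith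
  have a1 : ∀ (z : Z1) (a : ℝ), a ≤ ‖z‖ → a ≤ ‖x - y‖ → min ‖x‖ ‖y‖ ≤ ‖z‖ →
      a - e * 2 ^ m ≤ h (m, ν) z := fun z a b1 b2 b3 =>
    le_min (by linarith) (le_max_of_le_left (by
      rcases le_max_iff.1 n2 with k | k <;> nlinarith))
  refine le_of_tendsto (x := atTop) (f := fun k => s k (x - y) - 10 * e * ‖x - y‖)
    (by simpa only [sub_mul, one_mul, s] using (nsum (x - y)).tendsto_sum_nat.sub_const _)
    (Eventually.of_forall fun k => ?_)
  have b1 := hd.a1 0 k k.zero_le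
  have b2 := hd.b1 0 k k.zero_le
  have b3 : ∀ z, s 0 z = 0 := fun _ => rfl
  have b4 := a1 x (A k) (by linarith [s_le k x, b3 x]) (by linarith [hs k, s_le k (x - y)])
    (min_le_left _ _)
  have b5 := a1 y (B k) (by linarith [s_le k y, b3 y]) (by linarith [hs k, s_le k (x - y)])
    (min_le_right _ _)
  have b6 : A k - 3 * (e * ‖x - y‖) ≤ med (g x) 0 (h (m, ν) x) :=
    le_max_of_le_left (le_min (by linarith [(g2 k).1]) (by linarith))
  have b7 : med (g y) 0 (h (m, ν) y) ≤ -B k + 3 * (e * ‖x - y‖) :=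
    max_le (min_le_of_left_le (by linarith [(g2 k).2])) (by linarith)
  nlinarith [hs k]

theorem main : ∀ ε : ℝ, 0 < ε →
      ∃ f : lp (fun _ : ℕ => ℝ) 1 →
          BoundedContinuousFunction (Set.Iic (Ordinal.omega0 ^ Ordinal.omega0 : Ordinal.{0})) ℝ,
        ∃ r : ℝ, 0 < r ∧
          ∀ x y : lp (fun _ : ℕ => ℝ) 1,
            r * dist x y ≤ dist (f x) (f y) ∧
              dist (f x) (f y) ≤ (1 + ε) * r * dist x y := by
  intro ε hε
  obtain ⟨i, S, ⟨Γ, h1, h2, -, h3⟩, h4, h5⟩ := fam (e := ε / (1 + ε) / 10) (by positivity)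
  refine ⟨fun z => .ofNormedAddCommGroup (fun o => Γ o z)
    ((cont (h3 z)).comp continuous_subtype_val) ‖z‖ fun o => (h4 _ (h1 o)).2 z, 1 / (1 + ε),
    by positivity, fun x y => ⟨?_, ?_⟩⟩
  · obtain ⟨g, g1, g2⟩ := h5 x y
    obtain ⟨o, o1, rfl⟩ := h2 g g1
    refine le_trans ?_ (BoundedContinuousFunction.dist_coe_le_dist ⟨o, o1.trans (LL_lt i).le⟩)
    rw [dist_eq_norm, show 1 / (1 + ε) = 1 - 10 * (ε / (1 + ε) / 10) by field_simp; ring]
    exact g2.trans (le_abs_self _)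
  · rw [mul_one_div_cancel (by positivity), one_mul]
    refine (BoundedContinuousFunction.dist_le dist_nonneg).2 fun o => ?_
    have a1 := (h4 _ (h1 o)).1 y x
    rw [norm_sub_rev] at a1
    rw [dist_eq_norm x y]
    exact abs_sub_le_iff.2 ⟨(h4 _ (h1 o)).1 x y, a1⟩

end Pool.Agent.H87.L1AI
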