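import Mathlib

namespace Pool.Agent.H87.L1Alg

open Filter Topology

/-- absolutely summable complex functions on `M` -/
def L (M : Type) : Type := lp (fun _ : M => ℂ) 1

variable {M : Type}

noncomputable instance : NormedAddCommGroup (L M) :=
  inferInstanceAs (NormedAddCommGroup (lp (fun _ : M => ℂ) 1))
noncomputable instance : NormedSpace ℂ (L M) :=
  inferInstanceAs (NormedSpace ℂ (lp (fun _ : M => ℂ) 1))
instance : CompleteSpace (L M) := inferInstanceAs (CompleteSpace (lp (fun _ : M => ℂ) 1))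

def L.v (f : L M) : lp (fun _ : M => ℂ) 1 := f
def L.ap (f : L M) (m : M) : ℂ := f.v m

lemma L.ext' {f g : L M} (h : ∀ m, f.ap m = g.ap m) : f = g := lp.ext (funext h)

@[simp] lemma add_ap (f g : L M) (m : M) : (f + g).ap m = f.ap m + g.ap m := rfl
@[simp] lemma sub_ap (f g : L M) (m : M) : (f - g).ap m = f.ap m - g.ap m := rfl
@[simp] lemma smul_ap (t : ℂ) (g : L M) (m : M) : (t • g).ap m = t * g.ap m := rfl
@[simp] lemma zero_ap (m : M) : (0 : L M).ap m = 0 := rfl

open Classical in
noncomputable def dl (m : M) : L M := lp.single 1 m (1 : ℂ)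

open Classical in
lemma dl_ap (m n : M) : (dl m).ap n = if n = m then 1 else 0 := by
  simp [dl, L.ap, L.v, lp.single_apply, Pi.single_apply]

open Classical in
@[simp] lemma norm_dl (m : M) : ‖dl m‖ = 1 := by
  have : ‖(lp.single 1 m (1 : ℂ) : lp (fun _ : M => ℂ) 1)‖ = 1 := by
    rw [lp.norm_single (by simp)]; simp
  exact this

lemma hasSum_norm (f : L M) : HasSum (fun m => ‖f.ap m‖) ‖f‖ := by
  have := lp.hasSum_norm (p := 1) (by simp) f.v
  simp only [ENNReal.toReal_one, Real.rpow_one] at this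
  exact this

lemma ap_le (f : L M) (m : M) : ‖f.ap m‖ ≤ ‖f‖ :=
  le_hasSum (hasSum_norm f) m fun _ _ => norm_nonneg _

open Classical in
lemma hasSum_dl (f : L M) : HasSum (fun m => f.ap m • dl m) f := by
  have := lp.hasSum_single (p := 1) (by simp) f.v
  have h : (fun m => f.ap m • dl m) = fun m => (lp.single 1 m (f.v m) : lp (fun _ : M => ℂ) 1) := by
    funext m
    refine L.ext' fun n => ?_
    rw [smul_ap, dl_ap]
    simp only [L.ap, L.v, lp.single_apply, Pi.single_apply]
    split_ifs with h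
    · simp
    · simp
  rw [h]; exact this

section
variable {E : Type} [NormedAddCommGroup E] [NormedSpace ℂ E]

lemma clm_ext {S T : L M →L[ℂ] E} (h : ∀ m, S (dl m) = T (dl m)) : S = T := by
  ext f
  have h1 := (hasSum_dl f).mapL S
  have h2 := (hasSum_dl f).mapL T
  simp only [map_smul, h] at h1 h2
  exact h1.unique h2

variable [CompleteSpace E]

lemma summ (u : M → E) (C : ℝ) (hu : ∀ m, ‖u m‖ ≤ C) (f : L M) :
    Summable fun m => ‖f.ap m • u m‖ :=
  Summable.of_nonneg_of_le (fun _ => norm_nonneg _)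
    (fun m => by rw [norm_smul]; exact mul_le_mul_of_nonneg_left (hu m) (norm_nonneg _))
    ((hasSum_norm f).summable.mul_right C)

noncomputable def lift (u : M → E) (C : ℝ) (hu : ∀ m, ‖u m‖ ≤ C) : L M →L[ℂ] E :=
  LinearMap.mkContinuous
    { toFun := fun f => ∑' m, f.ap m • u m
      map_add' := fun f g => by
        rw [← (summ u C hu f).of_norm.tsum_add (summ u C hu g).of_norm]
        simp [add_smul]
      map_smul' := fun t f => by
        rw [RingHom.id_apply, ← (summ u C hu f).of_norm.tsum_const_smul t]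
        simp [smul_smul] } C
    (fun f => by
      refine (norm_tsum_le_tsum_norm (summ u C hu f)).trans ?_
      rw [mul_comm, ← ((hasSum_norm f).mul_right C).tsum_eq]
      exact (summ u C hu f).tsum_le_tsum
        (fun m => by rw [norm_smul]; exact mul_le_mul_of_nonneg_left (hu m) (norm_nonneg _))
        ((hasSum_norm f).summable.mul_right C))

@[simp] lemma lift_dl (u : M → E) (C : ℝ) (hu : ∀ m, ‖u m‖ ≤ C) (m : M) :
    lift u C hu (dl m) = u m := by
  show ∑' n, (dl m).ap n • u n = u m
  rw [tsum_eq_single m]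
  · simp [dl_ap]
  · intro n hn; simp [dl_ap, hn]

lemma norm_lift_le (u : M → E) (C : ℝ) (hC : 0 ≤ C) (hu : ∀ m, ‖u m‖ ≤ C) :
    ‖lift u C hu‖ ≤ C := LinearMap.mkContinuous_norm_le _ hC _

lemma lift_le (u : M → E) (C : ℝ) (hu : ∀ m, ‖u m‖ ≤ C) (f : L M) :
    ‖lift u C hu f‖ ≤ C * ‖f‖ := by
  refine (norm_tsum_le_tsum_norm (summ u C hu f)).trans ?_
  rw [mul_comm, ← ((hasSum_norm f).mul_right C).tsum_eq]
  exact (summ u C hu f).tsum_le_tsum
    (fun m => by rw [norm_smul]; exact mul_le_mul_of_nonneg_left (hu m) (norm_nonneg _))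
    ((hasSum_norm f).summable.mul_right C)
end

noncomputable def apL (m : M) : L M →L[ℂ] ℂ :=
  LinearMap.mkContinuous
    { toFun := fun f => f.ap m, map_add' := fun _ _ => rfl, map_smul' := fun _ _ => rfl } 1
    (fun f => by simpa using ap_le f m)

@[simp] lemma apL_apply (m : M) (f : L M) : apL m f = f.ap m := rfl

variable [Semigroup M]

noncomputable def mulL : L M →L[ℂ] L M →L[ℂ] L M :=
  lift (fun m => lift (fun n => dl (m * n)) 1 (fun _ => (norm_dl _).le)) 1
    (fun _ => norm_lift_le _ _ zero_le_one _)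

lemma mulL_dl (m n : M) : mulL (dl m) (dl n) = dl (m * n) := by simp [mulL]

lemma mulL_le (f g : L M) : ‖mulL f g‖ ≤ ‖f‖ * ‖g‖ := by
  have h : ‖(mulL : L M →L[ℂ] L M →L[ℂ] L M)‖ ≤ 1 := norm_lift_le _ _ zero_le_one _
  refine (mulL.le_opNorm₂ f g).trans ?_
  rw [mul_assoc]
  exact mul_le_of_le_one_left (by positivity) h

lemma ext₂ {E : Type} [NormedAddCommGroup E] [NormedSpace ℂ E] {S T : L M →L[ℂ] L M →L[ℂ] E}
    (h : ∀ m n, S (dl m) (dl n) = T (dl m) (dl n)) (f g : L M) : S f g = T f g := by
  have : S = T := clm_ext fun m => clm_ext fun n => h m n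
  rw [this]

lemma mulL_assoc (f g h : L M) : mulL (mulL f g) h = mulL f (mulL g h) := by
  have h1 : ∀ m n k : M, mulL (mulL (dl m) (dl n)) (dl k) = mulL (dl m) (mulL (dl n) (dl k)) := by
    intro m n k; simp [mulL_dl, mul_assoc]
  have h2 : ∀ (m n : M) (h : L M), mulL (mulL (dl m) (dl n)) h = mulL (dl m) (mulL (dl n) h) := by
    intro m n h
    have : mulL (mulL (dl m) (dl n)) = (mulL (dl m)).comp (mulL (dl n)) := clm_ext (h1 m n)
    rw [this]; rfl
  have h3 : ∀ (m : M) (g : L M), mulL (mulL (dl m) g) h = mulL (dl m) (mulL g h) := by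
    intro m g
    have : (mulL.flip h).comp (mulL (dl m)) = (mulL (dl m)).comp (mulL.flip h) :=
      clm_ext fun n => h2 m n h
    exact congrArg (fun T : L M →L[ℂ] L M => T g) this
  have : (mulL.flip h).comp (mulL.flip g) = mulL.flip (mulL g h) := clm_ext fun m => h3 m g
  exact congrArg (fun T : L M →L[ℂ] L M => T f) this

noncomputable instance : NonUnitalNormedRing (L M) :=
  { (inferInstance : NormedAddCommGroup (L M)) with
    mul := fun f g => mulL f g
    left_distrib := fun f g h => map_add _ _ _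
    right_distrib := fun f g h => by
      show mulL (f + g) h = mulL f h + mulL g h
      rw [map_add]; rfl
    zero_mul := fun f => by
      show mulL 0 f = 0
      rw [map_zero]; rfl
    mul_zero := fun f => map_zero _
    mul_assoc := mulL_assoc
    norm_mul_le := mulL_le }

lemma mul_def (f g : L M) : f * g = mulL f g := rfl

instance : IsScalarTower ℂ (L M) (L M) :=
  ⟨fun t f g => by
    show mulL (t • f) g = t • mulL f g
    rw [map_smul]; rfl⟩

instance : SMulCommClass ℂ (L M) (L M) :=
  ⟨fun t f g => by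
    show t • mulL f g = mulL f (t • g)
    rw [map_smul]⟩

lemma dl_mul (m n : M) : dl m * dl n = dl (m * n) := mulL_dl m n

end Pool.Agent.H87.L1Alg
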