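import Mathlib

/-!
Ideals in L-embedded spaces.  If `Q` is an L-projection and `R` a contractive projection on a
Banach space, iterating `R ∘ Q` shows that the `Q`-component of an `R`-fixed vector is, up to a
vector fixed by both projections, `ℓ¹`-orthogonal to the common fixed space.
-/

set_option autoImplicit false
set_option maxSynthPendingDepth 3

namespace Pool.Agent.H87.LIdeal

open Filter Topology

section A
variable {K : Type*} [RCLike K] {Z : Type*} [NormedAddCommGroup Z] [NormedSpace K Z]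

theorem step (Q R : Z →L[K] Z) (hQ : ∀ z, Q (Q z) = Q z)
    (hL : ∀ z, ‖z‖ = ‖Q z‖ + ‖z - Q z‖) (hRn : ∀ z, ‖R z‖ ≤ ‖z‖)
    (y : Z) (hy : R y = y) :
    (∀ w, R w = w → Q w = w →
      ‖Q y - w‖ = ‖Q (R (Q y)) - w‖ + ‖R (Q y) - Q (R (Q y))‖) ∧
    ‖Q y - Q (R (Q y))‖ ≤ ‖y - Q y‖ := by
  constructor
  · intro w hRw hQw
    have h1 := hL (y - w)
    rw [map_sub, hQw] at h1
    have e1 : y - w - (Q y - w) = y - Q y := by abel
    rw [e1] at h1
    have e2 : y - w = (R (Q y) - w) + R (y - Q y) := by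
      rw [map_sub, hy]; abel
    have h2 : ‖y - w‖ ≤ ‖R (Q y) - w‖ + ‖R (y - Q y)‖ := by
      conv_lhs => rw [e2]
      exact norm_add_le _ _
    have h3 := hRn (y - Q y)
    have h4 := hRn (Q y - w)
    rw [map_sub, hRw] at h4
    have h5 := hL (R (Q y) - w)
    rw [map_sub, hQw] at h5
    have e3 : R (Q y) - w - (Q (R (Q y)) - w) = R (Q y) - Q (R (Q y)) := by abel
    rw [e3] at h5
    linarith
  · have e : Q y - Q (R (Q y)) = Q (R (y - Q y)) := by
      rw [map_sub R, hy, map_sub]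
    rw [e]
    have h1 := hL (R (y - Q y))
    have h2 := hRn (y - Q y)
    have h3 := norm_nonneg (R (y - Q y) - Q (R (y - Q y)))
    linarith

theorem key [CompleteSpace Z] (Q R : Z →L[K] Z) (hQ : ∀ z, Q (Q z) = Q z)
    (hL : ∀ z, ‖z‖ = ‖Q z‖ + ‖z - Q z‖) (hR : ∀ z, R (R z) = R z) (hRn : ∀ z, ‖R z‖ ≤ ‖z‖)
    (y : Z) (hy : R y = y) :
    ∃ w0, R w0 = w0 ∧ Q w0 = w0 ∧ ∀ w, R w = w → Q w = w →
      ‖Q y - w0 - w‖ = ‖Q y - w0‖ + ‖w‖ := by
  let u : ℕ → Z := fun n => (fun z => R (Q z))^[n] y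
  have u0 : u 0 = y := rfl
  have us : ∀ n, u (n + 1) = R (Q (u n)) := fun n => Function.iterate_succ_apply' _ _ _
  have uR : ∀ n, R (u n) = u n := by
    intro n
    cases n with
    | zero => exact hy
    | succ n => rw [us, hR]
  have s1 : ∀ n w, R w = w → Q w = w →
      ‖Q (u n) - w‖ = ‖Q (u (n + 1)) - w‖ + ‖u (n + 1) - Q (u (n + 1))‖ := by
    intro n w h1 h2
    rw [us]
    exact (step Q R hQ hL hRn (u n) (uR n)).1 w h1 h2
  have s2 : ∀ n, ‖Q (u n) - Q (u (n + 1))‖ ≤ ‖u n - Q (u n)‖ := by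
    intro n
    rw [us]
    exact (step Q R hQ hL hRn (u n) (uR n)).2
  have s3 : ∀ w, R w = w → Q w = w → ∀ n,
      ‖Q y - w‖ = ‖Q (u n) - w‖ + ∑ k ∈ Finset.range n, ‖u (k + 1) - Q (u (k + 1))‖ := by
    intro w h1 h2 n
    induction n with
    | zero => simp [u0]
    | succ n ih => rw [Finset.sum_range_succ, ih, s1 n w h1 h2]; ring
  have hsum1 : Summable fun k => ‖u (k + 1) - Q (u (k + 1))‖ := by
    refine summable_of_sum_range_le (c := ‖Q y - 0‖) (fun _ => norm_nonneg _) fun n => ?_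
    have := s3 0 (map_zero _) (map_zero _) n
    have h2 := norm_nonneg (Q (u n) - 0)
    linarith
  have hsum : Summable fun k => ‖u k - Q (u k)‖ := (summable_nat_add_iff 1).1 hsum1
  have hC : CauchySeq fun n => Q (u n) :=
    cauchySeq_of_dist_le_of_summable _ (fun n => by rw [dist_eq_norm]; exact s2 n) hsum
  obtain ⟨x, hx⟩ := cauchySeq_tendsto_of_complete hC
  have hs0 : Tendsto (fun n => u n - Q (u n)) atTop (𝓝 0) :=
    tendsto_zero_iff_norm_tendsto_zero.2 hsum.tendsto_atTop_zero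
  have hu : Tendsto u atTop (𝓝 x) := by
    have := hs0.add hx
    simpa using this
  have hQx : Q x = x := tendsto_nhds_unique ((Q.continuous.tendsto x).comp hu) hx
  have hRx : R x = x := by
    have h1 := (R.continuous.tendsto x).comp hu
    have e : (R : Z → Z) ∘ u = u := funext uR
    rw [e] at h1
    exact tendsto_nhds_unique h1 hu
  have s4 : ∀ w, R w = w → Q w = w →
      ‖Q y - w‖ = ‖x - w‖ + ∑' k, ‖u (k + 1) - Q (u (k + 1))‖ := by
    intro w h1 h2
    have h3 := ((hx.sub_const w).norm).add hsum1.hasSum.tendsto_sum_nat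
    have h4 : (fun n => ‖Q (u n) - w‖ + ∑ k ∈ Finset.range n, ‖u (k + 1) - Q (u (k + 1))‖)
        = fun _ => ‖Q y - w‖ := funext fun n => (s3 w h1 h2 n).symm
    rw [h4] at h3
    exact tendsto_nhds_unique tendsto_const_nhds h3
  refine ⟨x, hRx, hQx, fun w h1 h2 => ?_⟩
  have a1 := s4 x hRx hQx
  have a2 := s4 (x + w) (by rw [map_add, hRx, h1]) (by rw [map_add, hQx, h2])
  have e1 : x - (x + w) = -w := by abel
  rw [e1, norm_neg] at a2
  rw [sub_self, norm_zero] at a1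
  rw [sub_sub, a2, a1]; ring

end A

section B
variable {K : Type*} [RCLike K] {X : Type*} [NormedAddCommGroup X] [NormedSpace K X]

theorem ext_l1 (W : Submodule K X) (x : X) (hx0 : x ≠ 0)
    (hx : ∀ w ∈ W, ‖x - w‖ = ‖x‖ + ‖w‖) (f0 : X →L[K] K) (hf0 : ‖f0‖ ≤ 1) (c : K)
    (hc : ‖c‖ ≤ ‖x‖) :
    ∃ f : X →L[K] K, ‖f‖ ≤ 1 ∧ (∀ w ∈ W, f w = f0 w) ∧ f x = c := by
  have hn : ∀ w ∈ W, ∀ t : K, ‖w + t • x‖ = ‖w‖ + ‖t‖ * ‖x‖ := by
    intro w hw t
    by_cases ht : t = 0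
    · simp [ht]
    · have h1 := hx (-(t⁻¹ • w)) (W.neg_mem (W.smul_mem _ hw))
      have e : w + t • x = t • (x - -(t⁻¹ • w)) := by
        rw [sub_neg_eq_add, smul_add, smul_inv_smul₀ ht, add_comm]
      rw [e, norm_smul, h1, norm_neg, norm_smul, norm_inv]
      have : ‖t‖ ≠ 0 := norm_ne_zero_iff.2 ht
      field_simp
      ring
  let T : (W × K) →ₗ[K] X :=
    W.subtype.coprod (LinearMap.toSpanSingleton K X x)
  have hT : ∀ p : W × K, T p = (p.1 : X) + p.2 • x := fun p => rfl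
  have hinj : Function.Injective T := by
    rw [injective_iff_map_eq_zero]
    intro p hp
    have h1 := hn p.1 p.1.2 p.2
    rw [← hT, hp, norm_zero] at h1
    have h2 : 0 < ‖x‖ := norm_pos_iff.2 hx0
    have h3 := norm_nonneg (p.1 : X)
    have h4 := mul_nonneg (norm_nonneg p.2) h2.le
    have h5 : ‖(p.1 : X)‖ = 0 := by linarith
    have h6 : ‖p.2‖ * ‖x‖ = 0 := by linarith
    have h7 : p.2 = 0 := by
      rcases mul_eq_zero.1 h6 with h | h
      · exact norm_eq_zero.1 h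
      · exact absurd h h2.ne'
    exact Prod.ext (Subtype.ext (norm_eq_zero.1 h5)) h7
  let h : (W × K) →ₗ[K] K :=
    ((f0 : X →ₗ[K] K).comp W.subtype).coprod (LinearMap.toSpanSingleton K K c)
  have hh : ∀ p : W × K, h p = f0 p.1 + p.2 * c := fun p => rfl
  let e := LinearEquiv.ofInjective T hinj
  let g : (LinearMap.range T) →ₗ[K] K := h.comp e.symm.toLinearMap
  have hg : ∀ p : W × K, g (e p) = h p := fun p => by simp [g]
  have he : ∀ p : W × K, ((e p : LinearMap.range T) : X) = T p := fun p => rfl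
  have hb : ∀ v : LinearMap.range T, ‖g v‖ ≤ 1 * ‖v‖ := by
    intro v
    obtain ⟨p, rfl⟩ := e.surjective v
    rw [hg, hh, one_mul]
    have e1 : ‖e p‖ = ‖T p‖ := rfl
    rw [e1, hT, hn p.1 p.1.2 p.2]
    refine (norm_add_le _ _).trans (add_le_add ?_ ?_)
    · exact (f0.le_opNorm _).trans (mul_le_of_le_one_left (norm_nonneg _) hf0)
    · rw [norm_mul]; exact mul_le_mul_of_nonneg_left hc (norm_nonneg _)
  obtain ⟨f, hf1, hf2⟩ := exists_extension_norm_eq (LinearMap.range T) (g.mkContinuous 1 hb)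
  refine ⟨f, ?_, fun w hw => ?_, ?_⟩
  · rw [hf2]; exact LinearMap.mkContinuous_norm_le _ zero_le_one _
  · have := hf1 (e (⟨w, hw⟩, 0))
    rw [he, hT, LinearMap.mkContinuous_apply, hg, hh] at this
    simpa using this
  · have := hf1 (e (0, 1))
    rw [he, hT, LinearMap.mkContinuous_apply, hg, hh] at this
    simpa using this

/-- `ℓ¹`-orthogonality to `W` passes to the biannihilator of `W`. -/
theorem bi_orth (W : Submodule K X) (x : X)
    (hx : ∀ w ∈ W, ‖x - w‖ = ‖x‖ + ‖w‖) (F G : (X →L[K] K) →L[K] K)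
    (hF : ∀ f : X →L[K] K, (∀ w ∈ W, f w = 0) → F f = 0)
    (hG : ∀ f : X →L[K] K, G f = F f - f x) : ‖x‖ ≤ ‖G‖ ∧ ‖F‖ ≤ ‖G‖ - ‖x‖ := by
  have main : ∀ f0 : X →L[K] K, ‖f0‖ ≤ 1 → ‖F f0‖ + ‖x‖ ≤ ‖G‖ := by
    intro f0 hf0
    by_cases hx0 : x = 0
    · have h1 := G.le_opNorm f0
      rw [hG, hx0, map_zero, sub_zero] at h1
      rw [hx0, norm_zero, add_zero]
      exact h1.trans (mul_le_of_le_one_right (norm_nonneg _) hf0)
    · obtain ⟨l, hl1, hl2⟩ : ∃ l : K, ‖l‖ = 1 ∧ F f0 = (‖F f0‖ : K) * l := by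
        by_cases h0 : F f0 = 0
        · exact ⟨1, norm_one, by simp [h0]⟩
        · have hn : (‖F f0‖ : K) ≠ 0 := by exact_mod_cast norm_ne_zero_iff.2 h0
          refine ⟨F f0 / (‖F f0‖ : K), ?_, ?_⟩
          · rw [norm_div, RCLike.norm_ofReal, abs_norm, div_self (norm_ne_zero_iff.2 h0)]
          · field_simp
      obtain ⟨f, hf1, hf2, hf3⟩ := ext_l1 W x hx0 hx f0 hf0 (-((‖x‖ : K) * l))
        (by rw [norm_neg, norm_mul, hl1, RCLike.norm_ofReal, abs_norm, mul_one])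
      have h1 : F f = F f0 := by
        have := hF (f - f0) (fun w hw => by rw [_root_.sub_apply, hf2 w hw, sub_self])
        rw [map_sub] at this
        exact sub_eq_zero.1 this
      have h2 := G.le_opNorm f
      rw [hG, h1, hf3, sub_neg_eq_add] at h2
      have h3 : F f0 + (‖x‖ : K) * l = ((‖F f0‖ + ‖x‖ : ℝ) : K) * l := by
        conv_lhs => rw [hl2]
        push_cast; ring
      rw [h3, norm_mul, hl1, mul_one, RCLike.norm_ofReal,
        abs_of_nonneg (add_nonneg (norm_nonneg _) (norm_nonneg _))] at h2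
      exact h2.trans (mul_le_of_le_one_right (norm_nonneg _) hf1)
  have h0 := main 0 (by simp)
  have h0' : ‖x‖ ≤ ‖G‖ := by
    have := norm_nonneg (F 0)
    linarith
  refine ⟨h0', ?_⟩
  refine ContinuousLinearMap.opNorm_le_of_unit_norm (by linarith) fun f hf => ?_
  have := main f hf.le
  linarith

end B

section C
variable {K : Type*} [RCLike K] {X : Type*} [NormedAddCommGroup X] [NormedSpace K X]

/-- restriction of functionals to `W` -/
noncomputable def res (W : Submodule K X) : (X →L[K] K) →L[K] (W →L[K] K) :=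
  LinearMap.mkContinuous
    { toFun := fun f => f.comp W.subtypeL
      map_add' := fun _ _ => rfl
      map_smul' := fun _ _ => rfl } 1 (fun f => by
      rw [one_mul]
      exact ContinuousLinearMap.opNorm_le_bound _ (norm_nonneg _) fun w => f.le_opNorm (w : X))

theorem res_apply (W : Submodule K X) (f : X →L[K] K) (w : W) : res W f w = f w := rfl

theorem res_norm (W : Submodule K X) (f : X →L[K] K) : ‖res W f‖ ≤ ‖f‖ :=
  ContinuousLinearMap.opNorm_le_bound _ (norm_nonneg _) fun w => f.le_opNorm (w : X)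

theorem res_surj (W : Submodule K X) (g : W →L[K] K) : ∃ f, res W f = g ∧ ‖f‖ = ‖g‖ := by
  obtain ⟨f, h1, h2⟩ := exists_extension_norm_eq W g
  exact ⟨f, ContinuousLinearMap.ext h1, h2⟩

theorem norm_comp_res (W : Submodule K X) (Ψ : (W →L[K] K) →L[K] K) :
    ‖Ψ.comp (res W)‖ = ‖Ψ‖ := by
  apply le_antisymm
  · refine ContinuousLinearMap.opNorm_le_bound _ (norm_nonneg _) fun f => ?_
    exact (Ψ.le_opNorm _).trans (mul_le_mul_of_nonneg_left (res_norm W f) (norm_nonneg _))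
  · refine ContinuousLinearMap.opNorm_le_bound _ (norm_nonneg _) fun g => ?_
    obtain ⟨f, h1, h2⟩ := res_surj W g
    have := (Ψ.comp (res W)).le_opNorm f
    rw [ContinuousLinearMap.comp_apply, h1, h2] at this
    exact this

theorem norm_eval (x : X) (E : (X →L[K] K) →L[K] K) (hE : ∀ f, E f = f x) : ‖E‖ = ‖x‖ := by
  have : E = NormedSpace.inclusionInDoubleDual K X x := ContinuousLinearMap.ext hE
  rw [this]
  exact (NormedSpace.inclusionInDoubleDualLi K (E := X)).norm_map x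

theorem mem_of_annih (W : Submodule K X) (hW : IsClosed (W : Set X)) (x : X)
    (hx : ∀ f : X →L[K] K, (∀ w ∈ W, f w = 0) → f x = 0) : x ∈ W := by
  haveI : IsClosed (W : Set X) := hW
  by_contra hn
  have h0 : W.mkQ x ≠ 0 := by
    rw [Submodule.mkQ_apply, Ne, Submodule.Quotient.mk_eq_zero]; exact hn
  obtain ⟨g, -, hg⟩ := exists_dual_vector K (W.mkQ x) (norm_ne_zero_iff.2 h0)
  let q : X →L[K] (X ⧸ W) := W.mkQ.mkContinuous 1 fun v => by
    rw [one_mul]; exact Submodule.Quotient.norm_mk_le W v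
  have := hx (g.comp q) fun w hw => by
    have : q w = 0 := (Submodule.Quotient.mk_eq_zero W).2 hw
    rw [ContinuousLinearMap.comp_apply, this, map_zero]
  have h2 : g (W.mkQ x) = 0 := this
  rw [hg] at h2
  exact h0 (norm_eq_zero.1 (by exact_mod_cast h2))

/-- adjoint action of `P` on the bidual -/
noncomputable def adj (P : X →L[K] X) : (X →L[K] K) →L[K] (X →L[K] K) :=
  LinearMap.mkContinuous
    { toFun := fun F : X →L[K] K => F.comp P
      map_add' := fun _ _ => rfl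
      map_smul' := fun _ _ => rfl } ‖P‖ (fun F => by
      have := F.opNorm_comp_le P
      rw [mul_comm] at this; exact this)

theorem adj_apply (P : X →L[K] X) (F : X →L[K] K) (f : X) : adj P F f = F (P f) := rfl

theorem adj_norm (P : X →L[K] X) (hP : ‖P‖ ≤ 1) (F : X →L[K] K) : ‖adj P F‖ ≤ ‖F‖ :=
  (F.opNorm_comp_le P).trans (mul_le_of_le_one_right (norm_nonneg _) hP)

theorem comp_mem (W : Submodule K X) (hW : IsClosed (W : Set X))
    (Q : ((X →L[K] K) →L[K] K) →L[K] ((X →L[K] K) →L[K] K))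
    (hQ : ∀ F, Q (Q F) = Q F)
    (hQr : ∀ Φ : (X →L[K] K) →L[K] K, (∃ x : X, ∀ f : X →L[K] K, Φ f = f x) ↔ Q Φ = Φ)
    (hL : ∀ Φ : (X →L[K] K) →L[K] K, ‖Φ‖ = ‖Q Φ‖ + ‖Φ - Q Φ‖)
    (P : (X →L[K] K) →L[K] (X →L[K] K)) (hP : ∀ f, P (P f) = P f) (hPn : ‖P‖ ≤ 1)
    (hPk : ∀ f : X →L[K] K, P f = 0 ↔ ∀ w ∈ W, f w = 0)
    (F : (X →L[K] K) →L[K] K) (hF : ∀ f : X →L[K] K, (∀ w ∈ W, f w = 0) → F f = 0) :
    ∃ w ∈ W, ∀ f, Q F f = f w := by
  have fix : ∀ G : (X →L[K] K) →L[K] K,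
      adj P G = G ↔ ∀ f : X →L[K] K, (∀ w ∈ W, f w = 0) → G f = 0 := by
    intro G
    constructor
    · intro h f hf
      rw [← h, adj_apply, (hPk f).2 hf, map_zero]
    · intro h
      refine ContinuousLinearMap.ext fun f => ?_
      have h1 : P (f - P f) = 0 := by rw [map_sub, hP, sub_self]
      have h2 := h _ ((hPk _).1 h1)
      rw [map_sub] at h2
      rw [adj_apply]
      exact (sub_eq_zero.1 h2).symm
  have hR : ∀ G, adj P (adj P G) = adj P G := fun G =>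
    ContinuousLinearMap.ext fun f => by rw [adj_apply, adj_apply, hP, adj_apply]
  obtain ⟨E0, h1, h2, h3⟩ := key Q (adj P) hQ hL hR (adj_norm P hPn) F ((fix F).2 hF)
  obtain ⟨w0, hw0⟩ := (hQr E0).2 h2
  obtain ⟨x, hx⟩ := (hQr (Q F)).2 (hQ F)
  have hw0W : w0 ∈ W := mem_of_annih W hW w0 fun f hf => by
    rw [← hw0]; exact (fix E0).1 h1 f hf
  have hn0 : ‖Q F - E0‖ = ‖x - w0‖ :=
    norm_eval _ _ fun f => by rw [_root_.sub_apply, hx, hw0, map_sub]
  have horth : ∀ w ∈ W, ‖x - w0 - w‖ = ‖x - w0‖ + ‖w‖ := by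
    intro w hw
    let E : (X →L[K] K) →L[K] K := NormedSpace.inclusionInDoubleDual K X w
    have hE : ∀ f, E f = f w := fun f => rfl
    have a := h3 E ((fix E).2 fun f hf => by rw [hE]; exact hf w hw) ((hQr E).1 ⟨w, hE⟩)
    rw [hn0, norm_eval w E hE, norm_eval (x - w0 - w) (Q F - E0 - E) fun f => by
      rw [_root_.sub_apply, _root_.sub_apply, hx, hw0, hE, map_sub, map_sub]] at a
    exact a
  have b := bi_orth W (x - w0) horth (F - E0) (F - Q F)
    (fun f hf => by rw [_root_.sub_apply, hF f hf, hw0, hf w0 hw0W, sub_self])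
    (fun f => by rw [_root_.sub_apply, _root_.sub_apply, hx, hw0, map_sub]; ring)
  have c := hL (F - E0)
  have c1 : Q (F - E0) = Q F - E0 := by rw [map_sub, h2]
  have c2 : F - E0 - Q (F - E0) = F - Q F := by
    rw [c1]
    exact ContinuousLinearMap.ext fun f => by
      simp only [_root_.sub_apply]; ring
  rw [c2, c1, hn0] at c
  have d : ‖x - w0‖ = 0 := by
    have := norm_nonneg (x - w0)
    linarith [b.2]
  have d2 : x = w0 := sub_eq_zero.1 (norm_eq_zero.1 d)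
  exact ⟨w0, hw0W, fun f => by rw [hx, d2]⟩

theorem main (W : Submodule K X) (hW : IsClosed (W : Set X))
    (Q : ((X →L[K] K) →L[K] K) →L[K] ((X →L[K] K) →L[K] K))
    (hQ : ∀ F, Q (Q F) = Q F)
    (hQr : ∀ Φ : (X →L[K] K) →L[K] K, (∃ x : X, ∀ f : X →L[K] K, Φ f = f x) ↔ Q Φ = Φ)
    (hL : ∀ Φ : (X →L[K] K) →L[K] K, ‖Φ‖ = ‖Q Φ‖ + ‖Φ - Q Φ‖)
    (P : (X →L[K] K) →L[K] (X →L[K] K)) (hP : ∀ f, P (P f) = P f) (hPn : ‖P‖ ≤ 1)
    (hPk : ∀ f : X →L[K] K, P f = 0 ↔ ∀ w ∈ W, f w = 0) :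
    ∃ Q' : ((W →L[K] K) →L[K] K) →L[K] ((W →L[K] K) →L[K] K),
          Q'.comp Q' = Q' ∧
          (∀ Φ : (W →L[K] K) →L[K] K, (∃ y : W, ∀ f : W →L[K] K, Φ f = f y) ↔ Q' Φ = Φ) ∧
          (∀ Φ : (W →L[K] K) →L[K] K, ‖Φ‖ = ‖Q' Φ‖ + ‖Φ - Q' Φ‖) := by
  have ex : ∀ Ψ : (W →L[K] K) →L[K] K, ∃ E : (W →L[K] K) →L[K] K,
      (∃ y : W, ∀ g, E g = g y) ∧ E.comp (res W) = Q (Ψ.comp (res W)) := by
    intro Ψ
    obtain ⟨w, hw, h⟩ := comp_mem W hW Q hQ hQr hL P hP hPn hPk (Ψ.comp (res W)) fun f hf => by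
      have : res W f = 0 := ContinuousLinearMap.ext fun w => hf w w.2
      rw [ContinuousLinearMap.comp_apply, this, map_zero]
    refine ⟨NormedSpace.inclusionInDoubleDual K W ⟨w, hw⟩, ⟨⟨w, hw⟩, fun _ => rfl⟩, ?_⟩
    exact ContinuousLinearMap.ext fun f => by rw [h]; rfl
  choose q hq1 hq2 using ex
  have inj : ∀ A B : (W →L[K] K) →L[K] K, A.comp (res W) = B.comp (res W) → A = B := by
    intro A B h
    refine ContinuousLinearMap.ext fun g => ?_
    obtain ⟨f, hf, -⟩ := res_surj W g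
    rw [← hf]
    exact congrArg (fun T : (X →L[K] K) →L[K] K => T f) h
  have hnorm : ∀ Ψ, ‖Ψ‖ = ‖q Ψ‖ + ‖Ψ - q Ψ‖ := by
    intro Ψ
    have h1 := hL (Ψ.comp (res W))
    rw [← hq2, norm_comp_res, norm_comp_res] at h1
    have e : Ψ.comp (res W) - (q Ψ).comp (res W) = (Ψ - q Ψ).comp (res W) := rfl
    rw [e, norm_comp_res] at h1
    exact h1
  let ql : ((W →L[K] K) →L[K] K) →ₗ[K] ((W →L[K] K) →L[K] K) :=
    { toFun := q
      map_add' := fun A B => inj _ _ (by
        have e1 : (q A + q B).comp (res W) = (q A).comp (res W) + (q B).comp (res W) := rfl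
        have e2 : (A + B).comp (res W) = A.comp (res W) + B.comp (res W) := rfl
        rw [e1, hq2, hq2, hq2, e2, map_add])
      map_smul' := fun c A => inj _ _ (by
        have e1 : (c • q A).comp (res W) = c • (q A).comp (res W) := rfl
        have e2 : (c • A).comp (res W) = c • A.comp (res W) := rfl
        rw [RingHom.id_apply, e1, hq2, hq2, e2, map_smul]) }
  have hb : ∀ Ψ, ‖ql Ψ‖ ≤ 1 * ‖Ψ‖ := fun Ψ => by
    have h1 := hnorm Ψ
    have h2 := norm_nonneg (Ψ - q Ψ)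
    change ‖q Ψ‖ ≤ _
    linarith
  have hfix : ∀ Φ : (W →L[K] K) →L[K] K, (∃ y : W, ∀ f : W →L[K] K, Φ f = f y) ↔ q Φ = Φ := by
    intro Φ
    constructor
    · rintro ⟨y, hy⟩
      refine inj _ _ ?_
      rw [hq2]
      exact (hQr _).1 ⟨y, fun f => hy _⟩
    · intro h
      obtain ⟨y, hy⟩ := hq1 Φ
      exact ⟨y, fun f => by rw [← hy, h]⟩
  refine ⟨ql.mkContinuous 1 hb, ?_, hfix, hnorm⟩
  refine ContinuousLinearMap.ext fun Φ => ?_
  exact (hfix (q Φ)).1 (hq1 Φ)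

end C

end Pool.Agent.H87.LIdeal
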