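import Mathlib

/-! Definitions: distortion, and the classes of spaces with nontrivial type, nontrivial cotype,
and superreflexive spaces. -/

namespace Pool.Agent.H87.LdC

open scoped ENNReal

/-- The distortion `Lip(f) * Lip(f⁻¹)` of an injection `f`. -/
noncomputable def distortion {M X : Type*} [MetricSpace M] [MetricSpace X] (f : M → X) : ℝ≥0∞ :=
  (⨆ (x : M) (y : M) (_ : x ≠ y), edist (f x) (f y) / edist x y) *
    ⨆ (x : M) (y : M) (_ : x ≠ y), edist x y / edist (f x) (f y)

/-- `c_X(M)`: the infimum of the distortions of injections from `M` to `X`. -/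
noncomputable def cSp (X M : Type*) [MetricSpace X] [MetricSpace M] : ℝ≥0∞ :=
  ⨅ (f : M → X) (_ : Function.Injective f), distortion f

/-- `c_X(C)`: the supremum of `c_X(M)` over all separable real Banach spaces `M` with property `P`. -/
noncomputable def cCl (X : Type*) [MetricSpace X]
    (P : ∀ (M : Type) [NormedAddCommGroup M] [NormedSpace ℝ M], Prop) : ℝ≥0∞ :=
  ⨆ (M : Type) (_ : NormedAddCommGroup M) (_ : NormedSpace ℝ M) (_ : CompleteSpace M)
    (_ : TopologicalSpace.SeparableSpace M) (_ : P M), cSp X M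

/-- The average over all choices of signs of the norm of the signed sum. -/
noncomputable def avg {M : Type} [NormedAddCommGroup M] [NormedSpace ℝ M] {n : ℕ} (x : Fin n → M) :
    ℝ :=
  (∑ θ : Fin n → Bool, ‖∑ i, (if θ i then (1 : ℝ) else -1) • x i‖) / 2 ^ n

/-- Rademacher type `p` for some `p > 1`. -/
def TYP (M : Type) [NormedAddCommGroup M] [NormedSpace ℝ M] : Prop :=
  ∃ p C : ℝ, 1 < p ∧ p ≤ 2 ∧ ∀ (n : ℕ) (x : Fin n → M), avg x ≤ C * (∑ i, ‖x i‖ ^ p) ^ (1 / p)

/-- Rademacher cotype `q` for some finite `q`. -/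
def COT (M : Type) [NormedAddCommGroup M] [NormedSpace ℝ M] : Prop :=
  ∃ q C : ℝ, 2 ≤ q ∧ ∀ (n : ℕ) (x : Fin n → M), (∑ i, ‖x i‖ ^ q) ^ (1 / q) ≤ C * avg x

/-- Superreflexive: the dual space is isomorphic to a uniformly convex space. -/
def SR (M : Type) [NormedAddCommGroup M] [NormedSpace ℝ M] : Prop :=
  ∃ (Y : Type) (_ : NormedAddCommGroup Y) (_ : NormedSpace ℝ Y),
    UniformConvexSpace Y ∧ Nonempty (StrongDual ℝ M ≃L[ℝ] Y)

end Pool.Agent.H87.LdC
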