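import Mathlib
import Pool.Agent.H87.L1AI1

/-! Low distortion embeddings into `C[0, γ]`: the tree of nested clamps. -/

namespace Pool.Agent.H87.LdC

open Filter Topology Set Classical Finset L1AI

variable {M : Type} [PseudoMetricSpace M] (a : ℕ → M)

def L1 (g : M → ℝ) : Prop := ∀ z w, g z - g w ≤ dist z w

noncomputable def up (θ : ℕ) (b : M → ℝ) (z : M) : ℝ :=
  (range (θ + 1)).inf' nonempty_range_add_one fun l => b (a l) + dist z (a l)

lemma up_le {θ l : ℕ} (h : l ≤ θ) (b : M → ℝ) (z : M) : up a θ b z ≤ b (a l) + dist z (a l) :=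
  inf'_le (fun l => b (a l) + dist z (a l)) (mem_range.2 (Nat.lt_succ_of_le h))

lemma up_ex (θ : ℕ) (b : M → ℝ) (z : M) : ∃ l ≤ θ, up a θ b z = b (a l) + dist z (a l) := by
  obtain ⟨l, h1, h2⟩ := exists_mem_eq_inf' (nonempty_range_add_one (n := θ))
    fun l => b (a l) + dist z (a l)
  exact ⟨l, Nat.le_of_lt_succ (mem_range.1 h1), h2⟩

lemma up_L1 (θ : ℕ) (b : M → ℝ) : L1 (up a θ b) := fun z w => by
  obtain ⟨l, h1, h2⟩ := up_ex a θ b w
  linarith [up_le a h1 b z, dist_triangle z w (a l)]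

lemma up_near {b : M → ℝ} (hb : L1 b) (θ : ℕ) (z : M) :
    b z ≤ up a θ b z ∧ up a θ b z ≤ b z + 2 * up a θ 0 z := by
  obtain ⟨l, -, h2⟩ := up_ex a θ b z
  obtain ⟨k, h3, h4⟩ := up_ex a θ 0 z
  rw [Pi.zero_apply] at h4
  exact ⟨by linarith [hb z (a l)], by linarith [up_le a h3 b z, hb (a k) z, dist_comm z (a k)]⟩

lemma up_anti {n k : ℕ} (h : n ≤ k) (z : M) : up a k 0 z ≤ up a n 0 z := by
  obtain ⟨l, h1, h2⟩ := up_ex a n 0 z
  exact h2 ▸ up_le a (h1.trans h) 0 z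

lemma up_nn (n : ℕ) (z : M) : 0 ≤ up a n 0 z := (up_near a (b := 0) (fun _ _ => by simp) n z).1

lemma up_lim (ha : DenseRange a) (z : M) {ε : ℝ} (hε : 0 < ε) : ∃ n, ∀ k, n ≤ k → up a k 0 z < ε := by
  obtain ⟨n, hn⟩ := ha.exists_dist_lt z hε
  exact ⟨n, fun k hk => (up_le a hk 0 z).trans_lt (by simpa using hn)⟩

noncomputable def ch (b : M → ℝ) (θ : ℕ) (h : M → ℝ) (z : M) : ℝ :=
  max (min (h z) (up a θ b z)) (-up a θ (-b) z)

lemma ch_L1 (b : M → ℝ) (θ : ℕ) {h : M → ℝ} (hh : L1 h) : L1 (ch a b θ h) := fun z w => by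
  have h1 := hh z w
  have h2 := up_L1 a θ b z w
  have h3 := up_L1 a θ (-b) w z
  rw [dist_comm] at h3
  simp only [ch, max_def, min_def]
  split_ifs <;> linarith

lemma ch_near {b : M → ℝ} (hb : L1 b) (θ : ℕ) (h : M → ℝ) (z : M) :
    |ch a b θ h z - b z| ≤ 2 * up a θ 0 z := by
  have h1 := up_near a hb θ z
  have h2 := up_near a (b := -b) (fun z w => by
    simp only [Pi.neg_apply]; linarith [hb w z, dist_comm z w]) θ z
  rw [Pi.neg_apply] at h2
  unfold ch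
  exact abs_le.2 ⟨by linarith [le_max_right (min (h z) (up a θ b z)) (-up a θ (-b) z), h2.2],
    sub_le_iff_le_add'.2 (max_le (min_le_of_right_le h1.2) (by linarith [h1.1, h1.2, h2.1]))⟩

def Good (x y : M) (A B : ℝ) (b : M → ℝ) (k : ℕ) : Prop :=
  ∀ l ≤ k, A ≤ b (a l) + dist x (a l) ∧ b (a l) - dist y (a l) ≤ -B

lemma ch_good {x y : M} {A B : ℝ} {b h : M → ℝ} {θ k : ℕ} (h1 : Good a x y A B b θ)
    (h2 : Good a x y A B h k) : Good a x y A B (ch a b θ h) k := fun l hl => by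
  obtain ⟨i, i1, i2⟩ := up_ex a θ b x
  obtain ⟨j, j1, j2⟩ := up_ex a θ (-b) y
  rw [Pi.neg_apply] at j2
  exact ⟨sub_le_iff_le_add.1 (le_max_of_le_left (le_min (by linarith [(h2 l hl).1])
    (by linarith [(h1 i i1).1, up_L1 a θ b x (a l)]))),
    sub_le_iff_le_add.2 (max_le (min_le_of_left_le (by linarith [(h2 l hl).2]))
    (by linarith [(h1 j j1).2, up_L1 a θ (-b) y (a l)]))⟩

lemma good_lim (ha : DenseRange a) {x y : M} {A B : ℝ} {b : M → ℝ} (hb : L1 b) {n : ℕ}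
    (h : ∀ k, n ≤ k → Good a x y A B b k) : A ≤ b x ∧ b y ≤ -B := by
  refine ⟨le_of_forall_pos_le_add fun ε hε => ?_, le_of_forall_pos_le_add fun ε hε => ?_⟩
  · obtain ⟨l, hl⟩ := ha.exists_dist_lt x (half_pos hε)
    linarith [(h _ (le_max_left n l) l (le_max_right _ _)).1, hb (a l) x, dist_comm x (a l)]
  · obtain ⟨l, hl⟩ := ha.exists_dist_lt y (half_pos hε)
    linarith [(h _ (le_max_left n l) l (le_max_right _ _)).2, hb y (a l)]

theorem tree (ha : DenseRange a) (H : ℕ → Set (M → ℝ)) (hH : ∀ θ, (H θ).Finite)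
    (hL : ∀ θ, ∀ h ∈ H θ, L1 h) (i : ℕ) : ∀ (b : M → ℝ) (n : ℕ), L1 b → ∃ S, Rep (LL i) b S ∧
    (∀ g ∈ S, L1 g ∧ ∀ z, |g z - b z| ≤ 2 * i * up a n 0 z) ∧
    ∀ x y A B (r : ℕ → ℕ), Antitone r →
      (∀ θ, r (θ + 1) < r θ → ∃ h ∈ H θ, ∀ k, r k = r (θ + 1) → Good a x y A B h k) → r n ≤ i →
      (∀ k, r k = r n → Good a x y A B b k) → ∃ g ∈ S, A ≤ g x ∧ g y ≤ -B := by
  induction i with
  | zero =>
    exact fun b n hb => ⟨_, Rep.zero b, by rintro _ rfl; exact ⟨hb, by simp⟩,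
      fun x y A B r r1 _ r3 r4 => ⟨b, rfl, good_lim a ha hb (n := n) fun k hk =>
        r4 k (by have := r1 hk; omega)⟩⟩
  | succ i ih =>
    intro b n hb
    have := fun θ => (hH θ).to_subtype
    choose S s1 s2 s3 using fun k : (Σ t : ℕ, H (n + t)) =>
      ih (ch a b (n + k.1) k.2) (n + k.1 + 1) (ch_L1 a _ _ (hL _ _ k.2.2))
    have h1 : ∀ k, ∀ g ∈ S k, ∀ z, |g z - b z| ≤ 2 * (i + 1 : ℕ) * up a (n + k.1) 0 z :=
      fun k g hg z => by
        push_cast
        nlinarith [abs_sub_le (g z) (ch a b (n + k.1) k.2 z) (b z), (s2 k g hg).2 z,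
          ch_near a hb (n + k.1) k.2 z, Nat.cast_nonneg (α := ℝ) i,
          up_anti a (Nat.le_succ (n + k.1)) z]
    refine ⟨_, Rep.step s1 fun z ε hε => ?_, ?_, fun x y A B r r1 r2 r3 r4 => ?_⟩
    · obtain ⟨m, hm⟩ := up_lim a ha z (show 0 < ε / (2 * (i + 1 : ℕ)) by positivity)
      refine ((finite_Iio m).biUnion fun t _ => finite_range (Sigma.mk t)).subset fun k hk => ?_
      refine Set.mem_biUnion (x := k.1) (Set.mem_Iio.2 (not_le.1 fun h => hk fun g hg => ?_))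
        ⟨k.2, rfl⟩
      exact (h1 k g hg z).trans_lt ((lt_div_iff₀' (by positivity)).1
        (hm _ (h.trans (Nat.le_add_left _ _))))
    · rintro g (rfl | hg)
      · exact ⟨hb, fun z => by
          rw [sub_self, abs_zero]; exact mul_nonneg (by positivity) (up_nn a n z)⟩
      obtain ⟨k, hk⟩ := mem_iUnion.1 hg
      exact ⟨(s2 k g hk).1, fun z => (h1 k g hk z).trans
        (mul_le_mul_of_nonneg_left (up_anti a (Nat.le_add_right _ _) z) (by positivity))⟩
    by_cases h : ∃ t, r (n + t + 1) < r n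
    · have t1 := Nat.find_spec h
      have t2 : r (n + Nat.find h) = r n := by
        refine le_antisymm (r1 (Nat.le_add_right _ _)) ?_
        rcases h0 : Nat.find h with _ | t
        · rfl
        · exact not_lt.1 (Nat.find_min h (by omega : t < Nat.find h))
      generalize Nat.find h = t at t1 t2
      obtain ⟨g, g1, g2⟩ := r2 _ (t1.trans_eq t2.symm)
      obtain ⟨g', g3, g4⟩ := s3 ⟨t, g, g1⟩ x y A B r r1 r2 (by dsimp only; omega) fun k hk =>
        ch_good a (r4 _ t2) (g2 k hk)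
      exact ⟨g', Or.inr (mem_iUnion.2 ⟨_, g3⟩), g4⟩
    · push Not at h
      refine ⟨b, Or.inl rfl, good_lim a ha hb (n := n + 1) fun k hk => r4 k ?_⟩
      obtain ⟨t, rfl⟩ := Nat.exists_eq_add_of_lt hk
      exact le_antisymm (r1 (by omega)) (h t)

theorem emb (ha : DenseRange a) (G : ℕ → Set (M → ℝ)) (hG : ∀ θ, (G θ).Finite)
    (hL : ∀ θ, ∀ h ∈ G θ, L1 h) (R : ℕ) {γ : Ordinal.{0}} (hγ : LL (R + 1) ≤ γ) {lam c e : ℝ}
    (l0 : 0 < lam) (l1 : lam < 1) (hc : c ≤ lam) (he : 0 < e)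
    (h : ∀ x y i j n, i ≤ n + 1 → j ≤ n + 1 → dist x (a i) + dist y (a j) < lam * dist x y →
      ∃ (α β : ℝ) (r : ℕ → ℕ), |α| ≤ dist x y ∧ c * dist x y ≤ α - β ∧ Antitone r ∧ (∀ k, r k ≤ R) ∧
        ∀ θ, n ≤ θ → ∃ g ∈ G θ, ∀ k, θ + 1 ≤ k → r k = r (θ + 1) → ∀ l ≤ k,
          α ≤ g (a l) - g (a i) + dist x (a l) ∧ g (a l) - g (a i) - dist y (a l) ≤ β) :
    ∃ f : M → BoundedContinuousFunction (Set.Iic γ) ℝ, ∀ x y,
      (c - 2 * e) * dist x y ≤ dist (f x) (f y) ∧ dist (f x) (f y) ≤ dist x y := by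
  obtain ⟨J, hJ⟩ := exists_nat_ge (2 / (e * (1 - lam)))
  rw [div_le_iff₀ (by have := sub_pos.2 l1; positivity)] at hJ
  obtain ⟨S, ⟨Γ, h1, h2, -, h3⟩, h4, h5⟩ := tree a ha (fun θ => (fun q : (M → ℝ) × ℕ × ℕ × ℤ =>
    fun z => q.1 z - q.1 (a q.2.1) + e * dist (a q.2.1) (a q.2.2.1) * q.2.2.2) ''
      G θ ×ˢ Set.Iic (θ + 1) ×ˢ Set.Iic (θ + 1) ×ˢ Set.Icc (-J : ℤ) J)
    (fun θ => ((hG θ).prod ((finite_Iic _).prod ((finite_Iic _).prod (Set.finite_Icc _ _)))).image _)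
    (by rintro θ _ ⟨q, hq, rfl⟩ z w; linarith [hL θ _ hq.1 z w]) (R + 1) 0 0 fun _ _ => by simp
  refine ⟨fun z => .ofNormedAddCommGroup (fun o => Γ o z)
    ((cont (h3 z)).comp continuous_subtype_val) _ fun o => by simpa using (h4 _ (h1 o)).2 z,
    fun x y => ⟨?_, (BoundedContinuousFunction.dist_le dist_nonneg).2 fun o =>
      abs_sub_le_iff.2 ⟨(h4 _ (h1 o)).1 x y, dist_comm x y ▸ (h4 _ (h1 o)).1 y x⟩⟩⟩
  rcases (dist_nonneg (x := x) (y := y)).eq_or_lt with d0 | d0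
  · rw [← d0, mul_zero]; exact dist_nonneg
  have e1 : ∃ n, up a (n + 1) 0 x + up a (n + 1) 0 y < lam * dist x y := by
    obtain ⟨m, hm⟩ := up_lim a ha x (half_pos (mul_pos l0 d0))
    obtain ⟨k, hk⟩ := up_lim a ha y (half_pos (mul_pos l0 d0))
    exact ⟨m + k, by linarith [hm (m + k + 1) (by omega), hk (m + k + 1) (by omega)]⟩
  have e2 := Nat.find_spec e1
  have e3 : lam * dist x y ≤ up a (Nat.find e1) 0 x + up a (Nat.find e1) 0 y := by
    rcases h0 : Nat.find e1 with _ | t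
    · obtain ⟨i, i1, i2⟩ := up_ex a 0 0 x
      obtain ⟨j, j1, j2⟩ := up_ex a 0 0 y
      rw [i2, j2, Nat.le_zero.1 i1, Nat.le_zero.1 j1, Pi.zero_apply]
      nlinarith [dist_triangle_right x y (a 0)]
    · exact not_lt.1 (Nat.find_min e1 (by omega : t < Nat.find e1))
  generalize Nat.find e1 = n at e2 e3
  obtain ⟨i, i1, i2⟩ := up_ex a (n + 1) 0 x
  obtain ⟨j, j1, j2⟩ := up_ex a (n + 1) 0 y
  rw [i2, j2, Pi.zero_apply, Pi.zero_apply, zero_add, zero_add] at e2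
  obtain ⟨α, β, r, a1, a2, a3, a4, a5⟩ := h x y i j n i1 j1 e2
  have e4 : (1 - lam) * dist x y ≤ dist (a i) (a j) := by
    linarith [dist_triangle4_right x y (a i) (a j)]
  have e5 : dist (a i) (a j) ≤ 2 * dist x y := by
    nlinarith [dist_triangle4_left x y (a i) (a j)]
  have e6 : 0 < e * dist (a i) (a j) := mul_pos he ((mul_pos (sub_pos.2 l1) d0).trans_le e4)
  set A := min (up a n 0 x) (lam * dist x y) with hA
  have e7 : 0 ≤ A := le_min (up_nn a n x) (by positivity)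
  have e8 : A ≤ dist x y := (min_le_right _ _).trans (by nlinarith)
  have e9 : 2 * dist x y ≤ e * dist (a i) (a j) * J := by
    nlinarith [mul_le_mul_of_nonneg_left e4 (show 0 ≤ e * J by positivity)]
  have f1 := Int.floor_le ((A - α) / (e * dist (a i) (a j)))
  have f2 := Int.lt_floor_add_one ((A - α) / (e * dist (a i) (a j)))
  rw [le_div_iff₀' e6] at f1
  rw [div_lt_iff₀' e6] at f2
  obtain ⟨g, g1, g2, g3⟩ := h5 x y (A - e * dist (a i) (a j)) (c * dist x y - A)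
    (fun k => if k ≤ n then R + 1 else r k) (fun k l hk => by
      have := a3 hk; have := a4 l; dsimp only; split_ifs <;> omega) (fun θ hθ => by
      have b1 : n ≤ θ := by by_contra; split_ifs at hθ <;> omega
      obtain ⟨g, g1, g2⟩ := a5 θ b1
      refine ⟨_, ⟨(g, i, j, ⌊(A - α) / (e * dist (a i) (a j))⌋), ⟨g1, i1.trans (by omega),
        j1.trans (by omega), Int.le_floor.2 ?_, Int.floor_le_iff.2 ?_⟩, rfl⟩, fun k hk l hl => ?_⟩
      · rw [le_div_iff₀' e6]; push_cast; linarith [(abs_le.1 a1).2]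
      · rw [div_lt_iff₀' e6]; push_cast; linarith [(abs_le.1 a1).1]
      have b2 : θ + 1 ≤ k ∧ r k = r (θ + 1) := by
        have := a4 (θ + 1)
        have := fun h : k ≤ θ => a3 h
        split_ifs at hk hθ <;> omega
      have := g2 k b2.1 b2.2 l hl
      exact ⟨by dsimp only; linarith [this.1], by dsimp only; linarith [this.2]⟩) (by simp)
    fun k hk l hl => by
      have b1 : k ≤ n := by
        have := a4 k
        by_contra b
        rw [if_neg b, if_pos n.zero_le] at hk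
        omega
      have b2 := up_le a (hl.trans b1) 0 x
      have b3 := up_le a (hl.trans b1) 0 y
      have b4 := up_nn a n y
      refine ⟨by linarith [min_le_left (up a n 0 x) (lam * dist x y)], ?_⟩
      rw [Pi.zero_apply] at *
      rcases min_choice (up a n 0 x) (lam * dist x y) with b | b <;> nlinarith
  obtain ⟨o, o1, rfl⟩ := h2 g g1
  refine le_trans ?_ (BoundedContinuousFunction.dist_coe_le_dist ⟨o, o1.trans hγ⟩)
  exact le_trans (by nlinarith) (le_abs_self (Γ o x - Γ o y))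

theorem emb2 (ha : DenseRange a) {γ : Ordinal.{0}} (hγ : Ordinal.omega0 ≤ γ) {e : ℝ} (he : 0 < e) :
    ∃ f : M → BoundedContinuousFunction (Set.Iic γ) ℝ, ∀ x y,
      (1 / 2 - 2 * e) * dist x y ≤ dist (f x) (f y) ∧ dist (f x) (f y) ≤ dist x y := by
  have h1 : ∀ u v : M, L1 fun z => (dist z u - dist z v) / 2 := fun u v z w => by
    linarith [dist_triangle z w u, dist_triangle_left w v z]
  refine emb a ha (fun θ => (fun q : ℕ × ℕ => fun z => (dist z (a q.2) - dist z (a q.1)) / 2) ''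
    Set.Iic (θ + 1) ×ˢ Set.Iic (θ + 1)) (fun θ => ((finite_Iic _).prod (finite_Iic _)).image _)
    (by rintro θ _ ⟨q, -, rfl⟩; exact h1 _ _) 0 (by simpa [LL] using hγ) (lam := 1 / 2) (by norm_num)
    (by norm_num) le_rfl he fun x y i j n hi hj h => ⟨_ - _, _ - _, fun _ => 0, ?_, ?_,
      antitone_const, fun _ => le_rfl, fun θ hθ => ⟨_, ⟨(i, j), ⟨hi.trans (by omega),
        hj.trans (by omega)⟩, rfl⟩, fun k _ _ l _ => ⟨sub_le_iff_le_add'.1
          ((sub_sub_sub_cancel_right _ _ _).trans_le (h1 _ _ x (a l))), sub_le_comm.1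
          ((sub_sub_sub_cancel_right _ _ _).trans_le (dist_comm (a l) y ▸ h1 _ _ (a l) y))⟩⟩⟩
  · refine (abs_sub_le_iff.2 ⟨h1 _ _ x _, dist_comm x (a i) ▸ h1 _ _ _ x⟩).trans ?_
    linarith [dist_nonneg (x := x) (y := y), dist_nonneg (x := y) (y := a j)]
  · linarith [dist_triangle_right x y (a j), dist_triangle_right x y (a i)]

end Pool.Agent.H87.LdC
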