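import Mathlib
import Pool.Agent.H87.LdC1

/-! Spaces with a uniformly convexifiable dual embed almost isometrically into `C[0, ω^ω]`. -/

namespace Pool.Agent.H87.LdC

open Filter Topology Set Classical L1AI

lemma uc (Y : Type) [NormedAddCommGroup Y] [NormedSpace ℝ Y] [UniformConvexSpace Y] {η : ℝ}
    (hη : 0 < η) {C : ℝ} (hC : 0 ≤ C) : ∃ γ > 0, ∀ ρ ≤ C, ∀ p q : Y, ‖p‖ ≤ ρ + 2 * γ →
      ‖q‖ ≤ ρ + 2 * γ → 2 * ρ ≤ ‖p + q‖ → ‖p - q‖ < η := by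
  obtain ⟨δ, δ0, h⟩ := exists_forall_closed_ball_dist_add_le_two_sub Y
    (show 0 < η / (C + 2) by positivity)
  refine ⟨min 1 (δ * η / 16), by positivity, fun ρ hρ p q hp hq hs => not_le.1 fun k => ?_⟩
  have h1 := min_le_left 1 (δ * η / 16)
  have h2 := min_le_right 1 (δ * η / 16)
  generalize min 1 (δ * η / 16) = γ at hp hq h1 h2
  have h3 : η ≤ 2 * (ρ + 2 * γ) := by linarith [norm_sub_le p q]
  have h4 : 0 < ρ + 2 * γ := by linarith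
  have h5 : ∀ v : Y, ‖(ρ + 2 * γ)⁻¹ • v‖ = ‖v‖ / (ρ + 2 * γ) := fun v => by
    rw [norm_smul, Real.norm_of_nonneg (inv_nonneg.2 h4.le), inv_mul_eq_div]
  have := h (x := (ρ + 2 * γ)⁻¹ • p) (by rwa [h5, div_le_one h4]) (y := (ρ + 2 * γ)⁻¹ • q)
    (by rwa [h5, div_le_one h4]) (by
      rw [← smul_sub, h5]; exact div_le_div₀ (norm_nonneg _) k h4 (by linarith))
  rw [← smul_add, h5, div_le_iff₀ h4] at this
  nlinarith [mul_le_mul_of_nonneg_left h3 δ0.le, mul_pos δ0 hη]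

variable {X : Type} [NormedAddCommGroup X] [NormedSpace ℝ X]

lemma track {Y : Type} [NormedAddCommGroup Y] [NormedSpace ℝ Y] [UniformConvexSpace Y]
    (T : StrongDual ℝ X ≃L[ℝ] Y) (v : ℕ → ℕ → X) (hv : ∀ l i, ‖v l i‖ ≤ 1) {δ : ℝ} (hδ : 0 < δ) :
    ∃ (R : ℕ) (D : ℕ → Set (StrongDual ℝ X)), (∀ k, (D k).Finite) ∧ (∀ k, ∀ p ∈ D k, ‖p‖ ≤ 1) ∧
      ∀ u : StrongDual ℝ X, ‖u‖ ≤ 1 → ∃ r : ℕ → ℕ, Antitone r ∧ (∀ k, r k ≤ R) ∧ ∀ n, ∃ p ∈ D n,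
        ∀ k, n ≤ k → r k = r n → ∀ l ≤ k, ∀ i ≤ k, |u (v l i) - p (v l i)| ≤ 2 * δ := by
  have c0 := (T.symm : Y →L[ℝ] StrongDual ℝ X).opNorm_nonneg
  have c1 := (T : StrongDual ℝ X →L[ℝ] Y).opNorm_nonneg
  set C := ‖(T : StrongDual ℝ X →L[ℝ] Y)‖
  set C' := ‖(T.symm : Y →L[ℝ] StrongDual ℝ X)‖
  obtain ⟨γ, γ0, hγ⟩ := uc Y (show 0 < δ / (C' + 1) by positivity) c1
  let code : ∀ k, StrongDual ℝ X → Fin (k + 1) × Fin (k + 1) → ℤ := fun k w q =>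
    ⌊w (v q.1 q.2) / δ⌋
  let cell : ∀ k, (Fin (k + 1) × Fin (k + 1) → ℤ) → Set Y := fun k c =>
    T '' {w | ‖w‖ ≤ 1 ∧ code k w = c}
  let ρ : Set Y → ℝ := fun W => sInf (norm '' W)
  have ρ1 : ∀ W : Set Y, ∀ w ∈ W, ρ W ≤ ‖w‖ := fun W w hw =>
    csInf_le ⟨0, by rintro _ ⟨z, -, rfl⟩; exact norm_nonneg z⟩ ⟨w, hw, rfl⟩
  choose! P P1 P2 using fun (W : Set Y) (hW : W.Nonempty) => show ∃ w ∈ W, ‖w‖ < ρ W + γ by
    obtain ⟨_, ⟨w, h1, rfl⟩, h2⟩ := Real.lt_sInf_add_pos (hW.image norm) γ0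
    exact ⟨w, h1, h2⟩
  have m1 : ∀ k u, ‖u‖ ≤ 1 → T u ∈ cell k (code k u) := fun k u hu => ⟨u, ⟨hu, rfl⟩, rfl⟩
  have b1 : ∀ u : StrongDual ℝ X, ‖u‖ ≤ 1 → ∀ l i, |u (v l i)| ≤ 1 := fun u hu l i =>
    (u.le_opNorm _).trans (mul_le_one₀ hu (norm_nonneg _) (hv l i))
  refine ⟨⌈C / γ⌉₊, fun k => (fun u => T.symm (P (cell k (code k u)))) '' {u | ‖u‖ ≤ 1},
    fun k => ((Set.Finite.pi (fun _ => finite_Icc ⌊-1 / δ⌋ ⌊1 / δ⌋)).image
      fun c => T.symm (P (cell k c))).subset ?_, ?_, fun u hu => ?_⟩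
  · rintro _ ⟨u, hu, rfl⟩
    exact ⟨_, fun q _ => ⟨Int.floor_mono (div_le_div_of_nonneg_right (abs_le.1 (b1 u hu _ _)).1 hδ.le),
      Int.floor_mono (div_le_div_of_nonneg_right (abs_le.1 (b1 u hu _ _)).2 hδ.le)⟩, rfl⟩
  · rintro k _ ⟨u, hu, rfl⟩
    obtain ⟨w, h1, h2⟩ := P1 _ ⟨_, m1 k u hu⟩
    simpa only [← h2, T.symm_apply_apply] using h1.1
  have n1 : ∀ n k, n ≤ k → ∀ w, code k w = code k u → code n w = code n u := fun n k hk w h =>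
    funext fun q => congrFun h (q.1.castLE (by omega), q.2.castLE (by omega))
  have n2 : ∀ k, ρ (cell k (code k u)) ≤ C := fun k => (ρ1 _ _ (m1 k u hu)).trans
    (((T : StrongDual ℝ X →L[ℝ] Y).le_opNorm u).trans (mul_le_of_le_one_right (norm_nonneg _) hu))
  have n3 : ∀ k, ⌊ρ (cell k (code k u)) / γ⌋₊ ≤ ⌈C / γ⌉₊ := fun k =>
    (Nat.floor_mono (div_le_div_of_nonneg_right (n2 k) γ0.le)).trans (Nat.floor_le_ceil _)
  refine ⟨fun k => ⌈C / γ⌉₊ - ⌊ρ (cell k (code k u)) / γ⌋₊, fun n k hk => Nat.sub_le_sub_left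
    (Nat.floor_mono (div_le_div_of_nonneg_right 
      (le_csInf (Set.Nonempty.image norm ⟨_, m1 k u hu⟩) ?_) γ0.le)) _,
    fun k => Nat.sub_le _ _, fun n => ⟨_, ⟨u, hu, rfl⟩, fun k hk hr l hl i hi => ?_⟩⟩
  · rintro _ ⟨_, ⟨w, h1, rfl⟩, rfl⟩
    exact ρ1 _ _ ⟨w, ⟨h1.1, n1 n k hk w h1.2⟩, rfl⟩
  obtain ⟨p, p1, p2⟩ := P1 _ ⟨_, m1 n u hu⟩
  obtain ⟨q, q1, q2⟩ := P1 _ ⟨_, m1 k u hu⟩
  have p3 := P2 _ ⟨_, m1 n u hu⟩
  have q3 := P2 _ ⟨_, m1 k u hu⟩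
  have e1 : ⌊ρ (cell k (code k u)) / γ⌋₊ = ⌊ρ (cell n (code n u)) / γ⌋₊ := by
    have := n3 k; have := n3 n; dsimp only at hr; omega
  have e2 := Nat.lt_floor_add_one (ρ (cell k (code k u)) / γ)
  have e3 : (⌊ρ (cell n (code n u)) / γ⌋₊ : ℝ) ≤ ρ (cell n (code n u)) / γ :=
    Nat.floor_le (div_nonneg (Real.sInf_nonneg (by rintro _ ⟨z, -, rfl⟩; exact norm_nonneg z)) γ0.le)
  rw [e1, div_lt_iff₀ γ0] at e2
  rw [le_div_iff₀ γ0] at e3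
  have e4 := ρ1 (cell n (code n u)) _ ⟨(2⁻¹ : ℝ) • (p + q), ⟨by
    rw [norm_smul, Real.norm_of_nonneg (by norm_num)]
    linarith [norm_add_le p q, p1.1, q1.1], funext fun s => by
      have a1 := Int.floor_eq_iff.1 (congrFun p1.2 s)
      have a2 := Int.floor_eq_iff.1 (congrFun (n1 n k hk q q1.2) s)
      refine Int.floor_eq_iff.2 ?_
      rw [ContinuousLinearMap.smul_apply, ContinuousLinearMap.add_apply, smul_eq_mul, mul_div_assoc,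
        add_div]
      constructor <;> linarith [a1.1, a1.2, a2.1, a2.2]⟩, rfl⟩
  rw [map_smul, map_add, norm_smul, Real.norm_of_nonneg (by norm_num)] at e4
  rw [← p2] at p3
  rw [← q2] at q3
  have e5 := hγ _ (n2 n) (T p) (T q) (by linarith) (by linarith) (by linarith)
  have e6 : ‖p - q‖ ≤ δ := by
    have := (T.symm : Y →L[ℝ] StrongDual ℝ X).le_opNorm (T p - T q)
    rw [lt_div_iff₀ (by positivity)] at e5
    simp only [ContinuousLinearEquiv.coe_coe, map_sub, T.symm_apply_apply] at this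
    nlinarith [norm_nonneg (T p - T q)]
  have e7 := abs_le.1 (((p - q).le_opNorm (v l i)).trans
    ((mul_le_of_le_one_right (norm_nonneg _) (hv l i)).trans e6))
  have e8 := Int.abs_sub_lt_one_of_floor_eq_floor
    (congrFun q1.2 (⟨l, by omega⟩, ⟨i, by omega⟩))
  rw [← sub_div, abs_div, abs_of_pos hδ, div_lt_one hδ, abs_lt] at e8
  rw [ContinuousLinearMap.sub_apply] at e7
  simp only [← p2, T.symm_apply_apply]
  exact abs_le.2 ⟨by linarith [e8.2, e7.2], by linarith [e8.1, e7.1]⟩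

theorem emb3 [TopologicalSpace.SeparableSpace X] {Y : Type} [NormedAddCommGroup Y] [NormedSpace ℝ Y]
    [UniformConvexSpace Y] (T : StrongDual ℝ X ≃L[ℝ] Y) {γ : Ordinal.{0}}
    (hγ : Ordinal.omega0 ^ Ordinal.omega0 ≤ γ) {δ : ℝ} (hδ : 0 < δ) (h1 : δ < 1) :
    ∃ f : X → BoundedContinuousFunction (Set.Iic γ) ℝ, ∀ x y,
      (1 - 4 * δ - 2 * δ) * dist x y ≤ dist (f x) (f y) ∧ dist (f x) (f y) ≤ dist x y := by
  obtain ⟨a, ha⟩ := TopologicalSpace.exists_dense_seq X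
  obtain ⟨R, D, D1, D2, D3⟩ := track T (fun l i => ‖a l - a i‖⁻¹ • (a l - a i)) (fun l i => by
    rw [norm_smul, norm_inv, norm_norm]; exact inv_mul_le_one) (half_pos hδ)
  refine emb a ha (fun θ => (fun (p : StrongDual ℝ X) z => (1 - δ) * p z) '' D (θ + 1))
    (fun θ => (D1 _).image _) ?_ R ((LL_lt _).le.trans hγ) (lam := 1 - δ) (by linarith)
    (by linarith) (by linarith) hδ fun x y i j n hi hj h => ?_
  · rintro θ _ ⟨p, hp, rfl⟩ z w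
    have := (le_abs_self _).trans (p.le_opNorm (z - w))
    rw [map_sub] at this
    rw [dist_eq_norm]
    nlinarith [mul_le_of_le_one_left (norm_nonneg (z - w)) (D2 _ p hp), norm_nonneg (z - w)]
  obtain ⟨u, u1, u2⟩ := exists_dual_vector'' ℝ (x - y)
  have u3 : ∀ z, |u z| ≤ ‖z‖ := fun z =>
    (u.le_opNorm z).trans (mul_le_of_le_one_left (norm_nonneg _) u1)
  obtain ⟨r, r1, r2, r3⟩ := D3 u u1
  simp only [dist_eq_norm] at h ⊢
  have d0 := norm_nonneg (x - y)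
  have d1 : ‖x - a i‖ ≤ ‖x - y‖ := by nlinarith [norm_nonneg (y - a j)]
  have d2 := abs_le.1 (u3 (x - a i))
  refine ⟨(1 - δ) * u (x - a i) - δ * ‖x - y‖, (1 - δ) * u (y - a i) + 2 * δ * ‖x - y‖, r,
    abs_le.2 ⟨by nlinarith, by nlinarith⟩, ?_, r1, r2, fun θ hθ => ?_⟩
  · simp only [map_sub, RCLike.ofReal_real_eq_id, id] at u2 ⊢
    exact le_of_eq (by linear_combination (δ - 1) * u2)
  obtain ⟨p, p1, p2⟩ := r3 (θ + 1)
  refine ⟨_, ⟨p, p1, rfl⟩, fun k k1 k2 l hl => ?_⟩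
  have e1 : |u (a l - a i) - p (a l - a i)| ≤ δ * ‖a l - a i‖ := by
    rcases (norm_nonneg (a l - a i)).eq_or_lt with e | e
    · simp [norm_eq_zero.1 e.symm]
    have := p2 k k1 k2 l hl i (by omega)
    rwa [map_smul, map_smul, smul_eq_mul, smul_eq_mul, ← mul_sub, abs_mul, abs_inv, abs_norm,
      inv_mul_le_iff₀ e, mul_div_cancel₀ _ two_ne_zero, mul_comm] at this
  have e2 := abs_le.1 (u3 (x - a l))
  have e3 := abs_le.1 (u3 (y - a l))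
  have e4 : ‖a l - a i‖ ≤ ‖x - a l‖ + ‖x - y‖ := by
    linarith [norm_sub_le_norm_sub_add_norm_sub (a l) x (a i), norm_sub_rev (a l) x]
  have e5 : ‖a l - a i‖ ≤ ‖y - a l‖ + 2 * ‖x - y‖ := by
    linarith [norm_sub_le_norm_sub_add_norm_sub x y (a l)]
  have e6 : (1 - δ) * (δ * ‖a l - a i‖) ≤ δ * ‖a l - a i‖ :=
    mul_le_of_le_one_left (by positivity) (by linarith)
  rw [abs_le] at e1
  simp only [map_sub] at e1 e2 e3 ⊢
  have h2 := sub_nonneg.2 h1.le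
  constructor
  · nlinarith [mul_le_mul_of_nonneg_left e1.2 h2, mul_le_mul_of_nonneg_left e2.2 h2,
      mul_le_mul_of_nonneg_left e4 hδ.le]
  · nlinarith [mul_le_mul_of_nonneg_left e1.1 h2, mul_le_mul_of_nonneg_left e3.1 h2,
      mul_le_mul_of_nonneg_left e5 hδ.le]

end Pool.Agent.H87.LdC
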