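import Mathlib

/-! Lower bounds for the distortion into `C[0, γ]`: the combinatorial part and renormings. -/

namespace Pool.Agent.H87.LdC

open Filter Topology Set Classical TopologicalSpace

def Low (Z : Type) [PseudoMetricSpace Z] (γ : Ordinal.{0}) : Prop :=
  ∀ (f : Z → BoundedContinuousFunction (Set.Iic γ) ℝ) (a b : ℝ), 0 < a →
    (∀ x y, a * dist x y ≤ dist (f x) (f y) ∧ dist (f x) (f y) ≤ b * dist x y) → 2 * a ≤ b

lemma cfg {Z K : Type*} [PseudoMetricSpace Z] [TopologicalSpace K]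
    {f : Z → BoundedContinuousFunction K ℝ} {a b : ℝ} (ha : 0 < a)
    (h : ∀ x y, a * dist x y ≤ dist (f x) (f y) ∧ dist (f x) (f y) ≤ b * dist x y) (hb : b < 2 * a)
    {x y : Z} (hxy : 4 ≤ dist x y) : ∃ (t : K) (σ : ℝ), (σ = 1 ∨ σ = -1) ∧
      ∀ p q, dist x p ≤ 1 → dist y q ≤ 1 → 2 * a - b ≤ σ * (f p t - f q t) := by
  have b0 : 0 ≤ b := by nlinarith [(h x y).1, (h x y).2]
  have h1 : ∀ t z p, dist z p ≤ 1 → |f z t - f p t| ≤ b := fun t z p hp =>
    (BoundedContinuousFunction.dist_coe_le_dist t).trans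
      ((h z p).2.trans (mul_le_of_le_one_right b0 hp))
  obtain ⟨t, ht⟩ := not_forall.1 fun k => ((BoundedContinuousFunction.dist_le (f := f x) (g := f y)
    (C := 2 * a + b) (by positivity)).2 k).not_gt (by nlinarith [(h x y).1])
  rcases lt_abs.1 (not_le.1 ht) with k | k
  · exact ⟨t, 1, Or.inl rfl, fun p q hp hq => by
      linarith [(abs_le.1 (h1 t x p hp)).2, (abs_le.1 (h1 t y q hq)).1]⟩
  · exact ⟨t, -1, Or.inr rfl, fun p q hp hq => by
      linarith [(abs_le.1 (h1 t x p hp)).1, (abs_le.1 (h1 t y q hq)).2]⟩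

def path (β : ℕ → Bool) : ℕ → List Bool
  | 0 => []
  | j + 1 => β j :: path β j

lemma tree_low {K : Type*} [TopologicalSpace K] [CompactSpace K] [Countable K]
    (g : List Bool → BoundedContinuousFunction K ℝ) {δ : ℝ} (hδ : 0 < δ)
    (h : ∀ β n, ∃ (t : K) (σ : ℝ), (σ = 1 ∨ σ = -1) ∧
      ∀ j < n, δ ≤ σ * (g (β j :: path β j) t - g ((!β j) :: path β j) t)) : False := by
  have h1 : ∀ β, (⋂ n, ({1, -1} : Set ℝ) ×ˢ (univ : Set K) ∩ ⋂ j < n, {q : ℝ × K |
      δ ≤ q.1 * (g (β j :: path β j) q.2 - g ((!β j) :: path β j) q.2)}).Nonempty := fun β => by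
    have c0 := (toFinite ({1, -1} : Set ℝ)).isCompact.prod (isCompact_univ (X := K))
    refine IsCompact.nonempty_iInter_of_sequence_nonempty_isCompact_isClosed _
      (fun n => inter_subset_inter_right _ (biInter_subset_biInter_left fun j hj =>
        Nat.lt_succ_of_lt hj)) (fun n => ?_) (by simpa using c0) fun n =>
      ((toFinite _).isClosed.prod isClosed_univ).inter (isClosed_biInter fun j _ =>
        isClosed_le continuous_const (by fun_prop))
    obtain ⟨t, σ, a1, a2⟩ := h β n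
    exact ⟨(σ, t), ⟨a1, trivial⟩, mem_iInter₂.2 a2⟩
  choose q hq using h1
  simp only [mem_iInter, mem_inter_iff] at hq
  have h2 : Function.Injective q := fun β β' e => by
    have a1 : ∀ j, path β j = path β' j := fun j => by
      induction j with
      | zero => rfl
      | succ j ih =>
        have b1 := (hq β (j + 1)).2 j j.lt_succ_self
        have b2 := (hq β' (j + 1)).2 j j.lt_succ_self
        rw [path, path, ← ih]
        rw [← ih, ← e] at b2
        simp only [mem_ofPred_eq] at b1 b2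
        revert b1 b2
        cases β j <;> cases β' j <;> simp only [Bool.not_true, Bool.not_false] <;> intro b1 b2 <;>
          first | rfl | trivial | (exfalso; linarith)
    exact funext fun j => (List.cons.inj (a1 (j + 1))).1
  have := ((toFinite ({1, -1} : Set ℝ)).countable.prod (countable_univ (α := K))).to_subtype
  have : Countable (ℕ → Bool) := Function.Injective.countable
    (f := fun β => (⟨q β, (hq β 0).1⟩ : ({1, -1} : Set ℝ) ×ˢ (univ : Set K)))
    fun _ _ e => h2 (congrArg Subtype.val e)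
  obtain ⟨s, hs⟩ := exists_surjective_nat (ℕ → Bool)
  obtain ⟨n, hn⟩ := hs fun n => !s n n
  simpa using congrFun hn n

instance cpt (γ : Ordinal.{0}) : CompactSpace (Set.Iic γ) :=
  isCompact_iff_compactSpace.1 (Icc_bot (a := γ) ▸ isCompact_Icc)

open Ordinal in
lemma cnt {α : Ordinal.{0}} (h : α < ω_ 1) : Countable (Set.Iic (ω ^ α)) := by
  have h1 : (ω ^ α + 1).card ≤ Cardinal.aleph0 := by
    rw [card_add, card_one]
    refine Cardinal.add_le_aleph0.2 ⟨(card_opow_le _ _).trans (max_le le_rfl (max_le (by simp) ?_)),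
      Cardinal.one_le_aleph0⟩
    rw [← Cardinal.ord_aleph, Cardinal.lt_ord, ← Cardinal.succ_aleph0] at h
    exact Order.lt_succ_iff.1 h
  rw [← Cardinal.mk_le_aleph0_iff, ← Order.Iio_succ, Cardinal.mk_Iio_ordinal]
  exact Cardinal.lift_le_aleph0.2 (by simpa using h1)

open Ordinal in
lemma fin_low (k : ℕ) (W : ℕ → Set (Set.Iic (ω ^ (k : Ordinal.{0})))) (hc : ∀ n, IsClosed (W n))
    (hf : ∀ t, {n | t ∈ W n}.Finite)
    (h : ∀ s : Finset ℕ, s.card ≤ k + 2 → ∃ t, ∀ n ∈ s, t ∈ W n) : False := by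
  have h1 : ∀ (j : ℕ) (s : Finset ℕ), s.card + j ≤ k + 2 →
      ∃ t : Set.Iic (ω ^ (k : Ordinal.{0})), ω ^ j ∣ t.1 ∧ ∀ n ∈ s, t ∈ W n := fun j => by
    induction j with
    | zero => exact fun s hs => (h s hs).imp fun t ht => ⟨by simp, ht⟩
    | succ j ih =>
      intro s hs
      have a1 : {t : Set.Iic (ω ^ (k : Ordinal.{0})) | ω ^ j ∣ t.1 ∧ ∀ n ∈ s, t ∈ W n}.Infinite :=
        fun a => infinite_univ ((a.biUnion fun t _ => hf t).subset fun n _ => by
          obtain ⟨t, t1, t2⟩ := ih (insert n s) (by have := Finset.card_insert_le n s; omega)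
          exact mem_biUnion ⟨t1, fun m hm => t2 m (Finset.mem_insert_of_mem hm)⟩
            (t2 n (Finset.mem_insert_self _ _)))
      obtain ⟨t, -, ht⟩ := a1.exists_accPt_of_subset_isCompact isCompact_univ (subset_univ _)
      refine ⟨t, by_contra fun a2 => ?_, fun n hn => (hc n).closure_subset
        (closure_mono (fun u hu => hu.2 n hn) ht.clusterPt.mem_closure)⟩
      have b0 : (ω : Ordinal.{0}) ^ (j + 1) ≠ 0 := pow_ne_zero _ omega0_ne_zero
      have b1 := div_add_mod t.1 (ω ^ (j + 1))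
      have b2 := mod_lt t.1 b0
      have b3 := pos_iff_ne_zero.2 fun e => a2 (dvd_iff_mod_eq_zero.2 e)
      generalize t.1 % ω ^ (j + 1) = r at b1 b2 b3
      generalize t.1 / ω ^ (j + 1) = q at b1
      rw [pow_succ] at b1 b2
      obtain ⟨c, c1, c2⟩ := (lt_mul_iff_of_isSuccLimit isSuccLimit_omega0).1 b2
      obtain ⟨n, rfl⟩ := lt_omega0.1 c1
      refine (Set.Infinite.of_accPt (ht.nhds_inter (continuous_subtype_val.continuousAt
        (Ioo_mem_nhds (a := ω ^ j * (ω * q)) (b := ω ^ j * (ω * q + n)) ?_ ?_))))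
        ((((finite_Iio n).image fun i : ℕ => ω ^ j * (ω * q + i)).preimage
          Subtype.val_injective.injOn).subset ?_)
      · rw [← b1, mul_assoc]; exact lt_add_of_pos_right _ b3
      · rw [← b1, mul_assoc, mul_add]; exact add_lt_add_right c2 _
      rintro u ⟨⟨u1, u2⟩, ⟨v, hv⟩, -⟩
      rw [hv] at u1 u2
      obtain ⟨w, rfl⟩ := exists_add_of_le (lt_of_mul_lt_mul_left' u1).le
      have u3 := (add_lt_add_iff_left _).1 (lt_of_mul_lt_mul_left' u2)
      obtain ⟨i, rfl⟩ := lt_omega0.1 (u3.trans c1)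
      exact ⟨i, Nat.cast_lt.1 u3, hv.symm⟩
  refine infinite_univ ((hf ⟨0, mem_Iic.2 zero_le⟩).subset fun n _ => ?_)
  obtain ⟨t, t1, t2⟩ := h1 (k + 1) {n} (by simp; omega)
  have : t = ⟨0, mem_Iic.2 zero_le⟩ := Subtype.ext (by_contra fun e => by
    have a1 := (le_of_dvd e t1).trans t.2
    rw [← opow_natCast, opow_le_opow_iff_right one_lt_omega0, Nat.cast_le] at a1
    omega)
  exact this ▸ t2 n (Finset.mem_singleton_self n)

lemma seq_low (k : ℕ) (g : ℕ → BoundedContinuousFunction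
    (Set.Iic (Ordinal.omega0 ^ (k : Ordinal.{0}))) ℝ) {R δ : ℝ} (hR : ∀ n, dist (g n) (g 0) ≤ R)
    (hδ : 0 < δ) (h : ∀ A B : Finset ℕ, A.card ≤ k + 2 → B.card ≤ k + 2 → Disjoint A B →
      ∃ (t : _) (σ : ℝ), (σ = 1 ∨ σ = -1) ∧ ∀ a ∈ A, ∀ b ∈ B, δ ≤ σ * (g a t - g b t)) : False := by
  have := cnt (α := k) ((Ordinal.natCast_lt_omega0 k).trans Ordinal.omega0_lt_omega_one)
  obtain ⟨l, -, φ, φ1, φ2⟩ := (isCompact_univ_pi fun t => isCompact_closedBall (g 0 t) R).tendsto_subseq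
    (x := fun n t => g n t) fun n t _ => (BoundedContinuousFunction.dist_coe_le_dist t).trans (hR n)
  refine fin_low k (fun n => {t | δ ≤ |g (φ (2 * n)) t - g (φ (2 * n + 1)) t|})
    (fun n => isClosed_le continuous_const (by fun_prop)) (fun t => ?_) fun s hs => ?_
  · have a1 := tendsto_pi_nhds.1 φ2 t
    have a2 := ((a1.comp (tendsto_atTop_mono (g := fun n => 2 * n) (fun n => by
      simp only [id]; omega) tendsto_id)).sub (a1.comp (tendsto_atTop_mono (g := fun n => 2 * n + 1)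
      (fun n => by simp only [id]; omega) tendsto_id))).abs
    rw [sub_self, abs_zero, ← Nat.cofinite_eq_atTop] at a2
    exact (eventually_cofinite.1 (a2.eventually (gt_mem_nhds hδ))).subset fun n hn k =>
      absurd hn (not_le.2 k)
  obtain ⟨t, σ, a1, a2⟩ := h (s.image fun n => φ (2 * n)) (s.image fun n => φ (2 * n + 1))
    (Finset.card_image_le.trans hs) (Finset.card_image_le.trans hs) (Finset.disjoint_left.2 (by
      simp only [Finset.mem_image]
      rintro _ ⟨n, -, rfl⟩ ⟨m, -, e⟩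
      have := φ1.injective e
      omega))
  refine ⟨t, fun n hn => (a2 _ (Finset.mem_image_of_mem _ hn) _
    (Finset.mem_image_of_mem _ hn)).trans ?_⟩
  rcases a1 with rfl | rfl
  · rw [one_mul]; exact le_abs_self _
  · rw [neg_one_mul]; exact neg_le_abs _

variable {E : Type} [NormedAddCommGroup E] [NormedSpace ℝ E]

lemma hb (p : Seminorm ℝ E) {K : ℝ} (hK : ∀ z, p z ≤ K * ‖z‖) (x : E) :
    ∃ μ : E →L[ℝ] ℝ, (∀ z, |μ z| ≤ p z) ∧ μ x = p x := by
  rcases eq_or_ne x 0 with rfl | hx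
  · exact ⟨0, fun z => by simp, by simp⟩
  obtain ⟨g, h1, h2⟩ := Module.Dual.exists_extension_of_le_seminorm_real (p := p) (ℝ ∙ x)
    (LinearPMap.mkSpanSingleton x (p x) hx).toFun (by
      rintro ⟨y, hy⟩
      obtain ⟨c, rfl⟩ := Submodule.mem_span_singleton.1 hy
      refine (LinearPMap.mkSpanSingleton'_apply x (p x) _ c hy).trans_le ?_
      rw [map_smul_eq_mul]
      exact mul_le_mul_of_nonneg_right (le_abs_self c) (apply_nonneg _ _))
  exact ⟨g.mkContinuous K fun z => (h2 z).trans (hK z), h2,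
    (h1 ⟨x, Submodule.mem_span_singleton_self x⟩).trans
      (LinearPMap.mkSpanSingleton_apply _ _ _ _)⟩

lemma mk [SeparableSpace E] (p : Seminorm ℝ E) {K : ℝ} (hK : ∀ z, p z ≤ K * ‖z‖) {I : Type}
    (φ : I → E →L[ℝ] ℝ) {D : ℝ} (hD : 1 ≤ D) (hφ : ∀ i z, |φ i z| ≤ D * p z) :
    ∃ (Z : Type) (_ : NormedAddCommGroup Z) (_ : NormedSpace ℝ Z) (_ : CompleteSpace Z)
      (_ : SeparableSpace Z) (π : E →L[ℝ] Z), DenseRange π ∧ ∀ z, p z ≤ ‖π z‖ ∧ ‖π z‖ ≤ D * p z ∧
        (∀ i, |φ i z| ≤ ‖π z‖) ∧ (p z ≤ 1 → (∀ i, |φ i z| ≤ 1) → ‖π z‖ ≤ 1) := by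
  let I' := {μ : E →L[ℝ] ℝ // (∀ z, |μ z| ≤ p z) ∨ μ ∈ range φ}
  have h1 : ∀ (μ : I') z, |μ.1 z| ≤ D * p z := by
    rintro ⟨μ, h | ⟨i, rfl⟩⟩ z
    exacts [(h z).trans (le_mul_of_one_le_left (apply_nonneg _ _) hD), hφ i z]
  let J0 : E →ₗ[ℝ] lp (fun _ : I' => ℝ) ⊤ :=
    { toFun := fun z => ⟨fun μ => μ.1 z, memℓp_infty ⟨D * p z, by rintro _ ⟨μ, rfl⟩; exact h1 μ z⟩⟩
      map_add' := fun z w => lp.ext (funext fun μ => map_add μ.1 z w)
      map_smul' := fun c w => lp.ext (funext fun μ => map_smul μ.1 c w) }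
  have j1 : ∀ z, ‖J0 z‖ ≤ D * p z := fun z =>
    lp.norm_le_of_forall_le (mul_nonneg (zero_le_one.trans hD) (apply_nonneg _ _)) fun μ => h1 μ z
  have j2 : ∀ (μ : I') z, |μ.1 z| ≤ ‖J0 z‖ := fun μ z =>
    lp.norm_apply_le_norm ENNReal.top_ne_zero (J0 z) μ
  let π : E →L[ℝ] (LinearMap.range J0).topologicalClosure :=
    (J0.codRestrict _ fun z => (LinearMap.range J0).le_topologicalClosure ⟨z, rfl⟩).mkContinuous (D * K)
      fun z => (j1 z).trans (by
        rw [mul_assoc]; exact mul_le_mul_of_nonneg_left (hK z) (zero_le_one.trans hD))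
  have j3 : DenseRange π := fun z => closure_subtype.2 (closure_mono (by
    rintro _ ⟨w, rfl⟩; exact ⟨_, ⟨w, rfl⟩, rfl⟩) z.2)
  refine ⟨_, inferInstance, inferInstance, inferInstance, j3.separableSpace π.continuous, π, j3,
    fun z => ⟨?_, j1 z, fun i => j2 ⟨_, Or.inr ⟨i, rfl⟩⟩ z, fun a1 a2 =>
      lp.norm_le_of_forall_le (f := J0 z) zero_le_one ?_⟩⟩
  · obtain ⟨μ, a1, a2⟩ := hb p hK z
    exact (a2.ge.trans (le_abs_self _)).trans (j2 ⟨μ, Or.inl a1⟩ z)
  · rintro ⟨μ, h | ⟨i, rfl⟩⟩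
    exacts [(h z).trans a1, a2 i]

lemma lp_sep {ι : Type} [Countable ι] (p : ENNReal) [Fact (1 ≤ p)] (hp : p ≠ ⊤) :
    SeparableSpace (lp (fun _ : ι => ℝ) p) := by
  have h : IsSeparable (Set.range fun n : ι => lp.single (E := fun _ : ι => ℝ) p n 1) :=
    (Set.countable_range _).isSeparable
  rw [← isSeparable_univ_iff]
  refine (h.span (R := ℝ)).closure.mono fun x _ => mem_closure_of_tendsto (lp.hasSum_single hp x)
    (Eventually.of_forall fun s => Submodule.sum_mem _ fun n _ => ?_)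
  rw [show lp.single (E := fun _ : ι => ℝ) p n (x n) = x n • lp.single p n 1 by
    rw [← lp.single_smul, smul_eq_mul, mul_one]]
  exact Submodule.smul_mem _ _ (Submodule.subset_span ⟨n, rfl⟩)

end Pool.Agent.H87.LdC
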