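import Mathlib
import Pool.Agent.H87.LdC3

/-! The two configurations: a renormed Hilbert space and renormed completions of `ℓ₁` of a tree. -/

namespace Pool.Agent.H87.LdC

open Filter Topology Set Classical TopologicalSpace
open scoped NNReal

section ev

variable {ι : Type} (p : ENNReal) [Fact (1 ≤ p)]

noncomputable def ev (i : ι) : lp (fun _ : ι => ℝ) p →L[ℝ] ℝ := lp.evalCLM ℝ (fun _ : ι => ℝ) p i

lemma ev_le (i : ι) (z : lp (fun _ : ι => ℝ) p) : |ev p i z| ≤ ‖z‖ :=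
  lp.norm_apply_le_norm (zero_lt_one.trans_le Fact.out).ne' z i

noncomputable def ee (i : ι) : lp (fun _ : ι => ℝ) p := lp.single p i 1

lemma ee_norm (i : ι) : ‖ee p i‖ = 1 := by
  rw [ee, lp.norm_single (zero_lt_one.trans_le Fact.out), norm_one]

lemma ev_ee (i j : ι) : ev p i (ee p j) = if i = j then 1 else 0 := Pi.single_apply j (1 : ℝ) i

end ev

theorem lowSR (k : ℕ) : ∃ (Z : Type) (_ : NormedAddCommGroup Z) (_ : NormedSpace ℝ Z)
    (_ : CompleteSpace Z) (_ : SeparableSpace Z) (H : Type) (_ : NormedAddCommGroup H)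
    (_ : InnerProductSpace ℝ H) (_ : CompleteSpace H),
      Nonempty (H ≃L[ℝ] Z) ∧ Low Z (Ordinal.omega0 ^ (k : Ordinal.{0})) := by
  let I := {q : Finset ℕ × Finset ℕ // q.1.card ≤ k + 2 ∧ q.2.card ≤ k + 2 ∧ Disjoint q.1 q.2}
  have := lp_sep (ι := ℕ ⊕ I × Bool) 2 (by simp)
  let φ : I → lp (fun _ : ℕ ⊕ I × Bool => ℝ) 2 →L[ℝ] ℝ := fun q =>
    ∑ a ∈ q.1.1, ev 2 (.inl a) - ∑ a ∈ q.1.2, ev 2 (.inl a) + (2 : ℝ) • ev 2 (.inr (q, true)) -
      (2 : ℝ) • ev 2 (.inr (q, false))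
  have φ0 : ∀ q z, φ q z = ∑ a ∈ q.1.1, ev 2 (.inl a) z - ∑ a ∈ q.1.2, ev 2 (.inl a) z +
      2 * ev 2 (.inr (q, true)) z - 2 * ev 2 (.inr (q, false)) z := fun q z => by simp [φ]
  have p0 : ∀ z : lp (fun _ : ℕ ⊕ I × Bool => ℝ) 2,
      ((2⁻¹ : ℝ≥0) • normSeminorm ℝ _) z = 2⁻¹ * ‖z‖ := fun z => by simp [NNReal.smul_def]
  obtain ⟨Z, _, _, _, _, π, π1, π2⟩ := mk ((2⁻¹ : ℝ≥0) • normSeminorm ℝ _) (fun z => (p0 z).le) φ
    (D := 4 * k + 16) (by linarith [Nat.cast_nonneg (α := ℝ) k]) fun q z => by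
      have h1 : ∀ s : Finset ℕ, s.card ≤ k + 2 → |∑ a ∈ s, ev 2 (.inl a) z| ≤ (k + 2) * ‖z‖ :=
        fun s hs => (Finset.abs_sum_le_sum_abs _ _).trans ((Finset.sum_le_card_nsmul _ _ _
          fun a _ => ev_le 2 _ z).trans (by
            rw [nsmul_eq_mul]; exact mul_le_mul_of_nonneg_right (by exact_mod_cast hs) (norm_nonneg _)))
      have h2 := abs_le.1 (h1 _ q.2.1)
      have h3 := abs_le.1 (h1 _ q.2.2.1)
      have h4 := abs_le.1 (ev_le 2 (.inr (q, true)) z)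
      have h5 := abs_le.1 (ev_le 2 (.inr (q, false)) z)
      rw [φ0, p0, abs_le]
      constructor <;> linarith
  have h1 : AntilipschitzWith 2 π := AddMonoidHomClass.antilipschitz_of_bound π fun z => by
    have := (π2 z).1
    rw [p0] at this
    push_cast
    linarith
  refine ⟨Z, _, _, ‹_›, ‹_›, _, _, inferInstance, inferInstance,
    ⟨.ofBijective π (LinearMap.ker_eq_bot.2 h1.injective) (LinearMap.range_eq_top.2 fun z =>
      (h1.isClosed_range π.uniformContinuous).closure_subset (π1 z))⟩,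
    fun f a b a0 h => not_lt.1 fun hb => ?_⟩
  have h2 : ∀ i j, (∀ q, |φ q (ee 2 i - ee 2 j)| ≤ 1) → dist (π (ee 2 i)) (π (ee 2 j)) ≤ 1 :=
    fun i j h => by
      rw [dist_eq_norm, ← map_sub]
      refine (π2 _).2.2.2 ?_ h
      rw [p0]
      linarith [norm_sub_le (ee 2 i) (ee 2 j), ee_norm 2 i, ee_norm 2 j]
  refine seq_low k (fun n => f (π (ee 2 (.inl n)))) (R := |b| * (‖π‖ * 2)) (fun n => (h _ _).2.trans
    (mul_le_mul (le_abs_self b) ?_ dist_nonneg (abs_nonneg _))) (sub_pos.2 hb) fun A B h3 h4 h5 => ?_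
  · rw [dist_eq_norm, ← map_sub]
    exact π.le_opNorm_of_le (by
      linarith [norm_sub_le (ee 2 (.inl n : ℕ ⊕ I × Bool)) (ee 2 (.inl 0)),
        ee_norm 2 (.inl n : ℕ ⊕ I × Bool), ee_norm 2 (.inl 0 : ℕ ⊕ I × Bool)])
  let q : I := ⟨(A, B), h3, h4, h5⟩
  obtain ⟨t, σ, a1, a2⟩ := cfg a0 h hb (x := π (ee 2 (.inr (q, true))))
    (y := π (ee 2 (.inr (q, false)))) (by
      rw [dist_eq_norm, ← map_sub]
      refine le_trans (le_of_eq ?_) ((π2 _).2.2.1 q)
      simp [φ0, ev_ee]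
      norm_num)
  refine ⟨t, σ, a1, fun i hi j hj => a2 _ _ (h2 _ _ fun r => ?_) (h2 _ _ fun r => ?_)⟩
  · by_cases e : r = q
    · simp [φ0, ev_ee, e, q, hi, Finset.disjoint_left.1 h5 hi]
      norm_num
    · simp only [map_sub, φ0, ev_ee]
      simp [e]
      split_ifs <;> norm_num
  · by_cases e : r = q
    · simp [φ0, ev_ee, e, q, hj, Finset.disjoint_right.1 h5 hj]
      norm_num
    · simp only [map_sub, φ0, ev_ee]
      simp [e]
      split_ifs <;> norm_num

abbrev Al : Type := Bool ⊕ Option (List Bool × Bool)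

abbrev E1 : Type := lp (fun _ : List Al => ℝ) 1

noncomputable def chi : List Al → E1 →L[ℝ] ℝ
  | [] => 0
  | b :: s => ev 1 (b :: s) + chi s

lemma chi_ee (a s : List Al) : chi s (ee 1 a) = if a ≠ [] ∧ a <:+ s then 1 else 0 := by
  induction s with
  | nil => simp [chi]
  | cons b s ih =>
    rw [chi, add_apply, ih, ev_ee]
    by_cases e : b :: s = a
    · subst e
      have : ¬ b :: s <:+ s := fun h => by simpa using h.length_le
      simp [this]
    · simp [e, List.suffix_cons_iff, Ne.symm e]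

lemma path_suf (β : ℕ → Bool) {j n : ℕ} (h : j ≤ n) : path β j <:+ path β n := by
  induction h with
  | refl => exact List.suffix_refl _
  | step _ ih => exact ih.trans (List.suffix_cons _ _)

theorem lowT (p : Seminorm ℝ E1) (hp : ∀ z, p z ≤ 3⁻¹ * ‖z‖) {D : ℝ} (hD : 1 ≤ D)
    (hχ : ∀ s z, |chi s z| ≤ D * p z) : ∃ (Z : Type) (_ : NormedAddCommGroup Z)
    (_ : NormedSpace ℝ Z) (_ : CompleteSpace Z) (_ : SeparableSpace Z) (π : E1 →L[ℝ] Z),
      DenseRange π ∧ (∀ z, p z ≤ ‖π z‖ ∧ ‖π z‖ ≤ 7 * D * p z) ∧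
        ∀ α < Ordinal.omega 1, Low Z (Ordinal.omega0 ^ α) := by
  have := lp_sep (ι := List Al) 1 (by simp)
  let φ : List Bool → E1 →L[ℝ] ℝ := fun s => (2 : ℝ) • chi (s.map .inl) + chi [.inr none] +
    (2 : ℝ) • chi [.inr (some (s, true))] - (2 : ℝ) • chi [.inr (some (s, false))]
  have φ0 : ∀ s z, φ s z = 2 * chi (s.map .inl) z + chi [.inr none] z +
      2 * chi [.inr (some (s, true))] z - 2 * chi [.inr (some (s, false))] z := fun q z => by
    simp [φ]
  obtain ⟨Z, _, _, _, _, π, π1, π2⟩ := mk p hp φ (D := 7 * D) (by linarith) fun s z => by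
    have h2 := abs_le.1 (hχ (s.map .inl) z)
    have h3 := abs_le.1 (hχ [.inr none] z)
    have h4 := abs_le.1 (hχ [.inr (some (s, true))] z)
    have h5 := abs_le.1 (hχ [.inr (some (s, false))] z)
    rw [φ0, abs_le]
    constructor <;> linarith
  refine ⟨Z, _, _, ‹_›, ‹_›, π, π1, fun z => ⟨(π2 z).1, (π2 z).2.1⟩,
    fun α hα f a b a0 h => not_lt.1 fun hb => ?_⟩
  have := cnt hα
  have e1 : ∀ (s : List Bool) o, ¬ [Sum.inr o] <:+ s.map (Sum.inl : Bool → Al) := fun s o h => by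
    simpa using h.subset
  have e2 : ∀ (b : Bool) (a : List Bool) o, ¬ (b :: a).map (Sum.inl : Bool → Al) <:+ [Sum.inr o] :=
    fun b a o h => by simpa using h.subset
  have φ1 : ∀ s b a, φ s (ee 1 ((b :: a).map .inl)) = if b :: a <:+ s then 2 else 0 :=
    fun s b a => by
      simp only [φ0, chi_ee, e2, List.suffix_map_iff_of_injective Sum.inl_injective]
      simp
  have φ2 : ∀ s s' (b : Bool), φ s (ee 1 [.inr none] + ee 1 [.inr (some (s', b))]) =
      if s' = s then if b then 3 else -1 else 1 := fun s s' b => by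
    simp only [φ0, map_add, chi_ee, e1]
    by_cases e : s' = s <;> cases b <;> simp [e, List.suffix_cons_iff] <;> norm_num
  have h2 : ∀ i j k, (∀ q, |φ q (ee 1 i + ee 1 j) - φ q (ee 1 k)| ≤ 1) →
      dist (π (ee 1 i + ee 1 j)) (π (ee 1 k)) ≤ 1 := fun i j k h => by
    rw [dist_eq_norm, ← map_sub]
    refine (π2 _).2.2.2 ((hp _).trans ?_) fun q => by rw [map_sub]; exact h q
    linarith [norm_sub_le (ee 1 i + ee 1 j) (ee 1 k), norm_add_le (ee 1 i) (ee 1 j), ee_norm 1 i,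
      ee_norm 1 j, ee_norm 1 k]
  refine tree_low (fun s => f (π (ee 1 (s.map .inl)))) (sub_pos.2 hb) fun β n => ?_
  obtain ⟨t, σ, a1, a2⟩ := cfg a0 h hb
    (x := π (ee 1 [.inr none] + ee 1 [.inr (some (path β n, true))]))
    (y := π (ee 1 [.inr none] + ee 1 [.inr (some (path β n, false))])) (by
      rw [dist_eq_norm, ← map_sub]
      refine le_trans (le_of_eq ?_) ((π2 _).2.2.1 (path β n))
      rw [map_sub, φ2, φ2]
      norm_num)
  refine ⟨t, σ, a1, fun j hj => a2 _ _ (h2 _ _ _ fun r => ?_) (h2 _ _ _ fun r => ?_)⟩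
  · rw [φ1, φ2]
    by_cases e : path β n = r
    · rw [if_pos e, if_pos rfl, if_pos (e ▸ path_suf β hj)]; norm_num
    · rw [if_neg e]; split_ifs <;> norm_num
  · rw [φ1, φ2]
    by_cases e : path β n = r
    · rw [if_pos e, if_neg (by simp), if_neg fun k => by
        exact Bool.not_ne_self _ (List.cons.inj ((List.suffix_of_suffix_length_le (e ▸ k) (path_suf β hj)
          (by simp [path])).eq_of_length (by simp [path]))).1]
      norm_num
    · rw [if_neg e]; split_ifs <;> norm_num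

end Pool.Agent.H87.LdC
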