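import Mathlib
import Pool.Agent.H87.LdC4

/-! Sign averages; a renorming of `ℓ₁` has cotype two; from dyadic estimates to a type. -/

namespace Pool.Agent.H87.LdC

open Filter Topology Set Classical TopologicalSpace Finset
open scoped NNReal

def sg (b : Bool) : ℝ := if b then 1 else -1

lemma sg_abs (b : Bool) : |sg b| = 1 := by cases b <;> simp [sg]

lemma mom (n : ℕ) (c : Fin n → ℝ) :
    ∑ θ : Fin n → Bool, (∑ i, sg (θ i) * c i) ^ 2 = 2 ^ n * ∑ i, c i ^ 2 ∧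
    ∑ θ : Fin n → Bool, (∑ i, sg (θ i) * c i) ^ 4 ≤ 3 * 2 ^ n * (∑ i, c i ^ 2) ^ 2 := by
  induction n with
  | zero => simp
  | succ n ih =>
    obtain ⟨h1, h2⟩ := ih fun i => c i.succ
    have h3 : ∀ g : ℝ → ℝ, ∑ θ : Fin (n + 1) → Bool, g (∑ i, sg (θ i) * c i) =
        ∑ θ : Fin n → Bool, (g (c 0 + ∑ i, sg (θ i) * c i.succ) +
          g (-c 0 + ∑ i, sg (θ i) * c i.succ)) := fun g => by
      rw [← (Fin.consEquiv fun _ => Bool).sum_comp, Fintype.sum_prod_type, sum_add_distrib]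
      simp [Fin.sum_univ_succ, Fin.consEquiv, sg]
    rw [h3 (· ^ 2), h3 (· ^ 4), Fin.sum_univ_succ]
    have h4 : ∀ a s : ℝ, (a + s) ^ 2 + (-a + s) ^ 2 = 2 * s ^ 2 + 2 * a ^ 2 := fun a s => by ring
    have h5 : ∀ a s : ℝ, (a + s) ^ 4 + (-a + s) ^ 4 = 2 * s ^ 4 + 12 * a ^ 2 * s ^ 2 + 2 * a ^ 4 :=
      fun a s => by ring
    simp only [h4, h5, sum_add_distrib, ← mul_sum, h1, sum_const, card_univ, Fintype.card_fun,
      Fintype.card_bool, Fintype.card_fin, nsmul_eq_mul, Nat.cast_pow, Nat.cast_ofNat]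
    refine ⟨by ring, ?_⟩
    rw [pow_succ (2 : ℝ) n]
    nlinarith [show (0 : ℝ) ≤ 2 ^ n * c 0 ^ 4 by positivity]

lemma mom2 {n : ℕ} (s : Finset (Fin n)) (c : Fin n → ℝ) :
    ∑ θ : Fin n → Bool, (∑ i ∈ s, sg (θ i) * c i) ^ 2 = 2 ^ n * ∑ i ∈ s, c i ^ 2 := by
  simpa [mul_ite] using (mom n fun i => if i ∈ s then c i else 0).1

lemma khin {n : ℕ} (c : Fin n → ℝ) :
    2 ^ n * √(∑ i, c i ^ 2) ≤ 4 * ∑ θ : Fin n → Bool, |∑ i, sg (θ i) * c i| := by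
  obtain ⟨h1, h2⟩ := mom n c
  have h3 := Real.sq_sqrt (show 0 ≤ ∑ i, c i ^ 2 by positivity)
  rcases (Real.sqrt_nonneg (∑ i, c i ^ 2)).eq_or_lt with h | h
  · rw [← h, mul_zero]; positivity
  generalize √(∑ i, c i ^ 2) = σ at h h3
  have h4 : ∀ s : ℝ, 4 * σ ^ 2 * s ^ 2 - s ^ 4 ≤ σ ^ 3 * (4 * |s|) := fun s => by
    rw [show s ^ 4 = (s ^ 2) ^ 2 by ring, ← sq_abs s]
    nlinarith [mul_nonneg (abs_nonneg s) (show 0 ≤ |s| ^ 3 - 4 * σ ^ 2 * |s| + 4 * σ ^ 3 by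
      nlinarith [mul_nonneg (sq_nonneg (|s| - σ)) (show 0 ≤ |s| + 2 * σ by positivity),
        mul_nonneg (sq_nonneg (|s| - 3 / 2 * σ)) (show 0 ≤ |s| + 3 * σ by positivity),
        pow_pos h 3, mul_nonneg (abs_nonneg s) (sq_nonneg σ)])]
  have h5 := sum_le_sum fun (θ : Fin n → Bool) (_ : θ ∈ Finset.univ) => h4 (∑ i, sg (θ i) * c i)
  rw [sum_sub_distrib, ← mul_sum, ← mul_sum, ← mul_sum, h1] at h5
  rw [← h3] at h2 h5
  exact le_of_mul_le_mul_left (by nlinarith) (pow_pos h 3)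

lemma nsum (z : E1) : HasSum (fun i => |z i|) ‖z‖ := by
  simpa using lp.hasSum_norm (by simp) z

lemma chi_le (s : List Al) (z : E1) : |chi s z| ≤ ‖z‖ := by
  obtain ⟨F, -, h⟩ : ∃ F : Finset (List Al), (∀ a ∈ F, a.length ≤ s.length) ∧
      |chi s z| ≤ ∑ a ∈ F, |z a| := by
    induction s with
    | nil => exact ⟨∅, by simp, by simp [chi]⟩
    | cons b s ih =>
      obtain ⟨F, h1, h2⟩ := ih
      refine ⟨insert (b :: s) F, fun a ha => ?_, ?_⟩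
      · rcases Finset.mem_insert.1 ha with rfl | h
        exacts [le_rfl, (h1 a h).trans (Nat.le_succ _)]
      · rw [sum_insert fun h => by simpa using h1 _ h]
        exact (abs_add_le _ _).trans (add_le_add_right h2 _)
  exact h.trans (sum_le_hasSum _ (fun _ _ => abs_nonneg _) (nsum z))

lemma cot1 {n : ℕ} (x : Fin n → E1) :
    2 ^ n * √(∑ i, ‖x i‖ ^ 2) ≤ 4 * ∑ θ : Fin n → Bool, ‖∑ i, sg (θ i) • x i‖ := by
  have h3 := Real.sq_sqrt (show 0 ≤ ∑ i, ‖x i‖ ^ 2 by positivity)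
  rcases (Real.sqrt_nonneg (∑ i, ‖x i‖ ^ 2)).eq_or_lt with h | h
  · rw [← h, mul_zero]; positivity
  have h1 := hasSum_le (fun t => show 2 ^ n * ∑ i, ‖x i‖ * |x i t| ≤ √(∑ i, ‖x i‖ ^ 2) *
      (4 * ∑ θ : Fin n → Bool, |(∑ i, sg (θ i) • x i : E1) t|) by
    have a1 := Real.sum_mul_le_sqrt_mul_sqrt univ (fun i => ‖x i‖) fun i => |x i t|
    simp only [sq_abs] at a1
    simp only [lp.coeFn_sum, Finset.sum_apply, lp.coeFn_smul, Pi.smul_apply, smul_eq_mul]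
    nlinarith [mul_le_mul_of_nonneg_left (khin fun i => x i t) h.le,
      mul_le_mul_of_nonneg_left a1 (show (0 : ℝ) ≤ 2 ^ n by positivity)])
    ((hasSum_sum fun i _ => (nsum (x i)).mul_left ‖x i‖).mul_left _)
    (((hasSum_sum fun θ _ => nsum _).mul_left _).mul_left _)
  simp only [← sq] at h1
  generalize √(∑ i, ‖x i‖ ^ 2) = σ at h h1 h3
  rw [← h3] at h1
  exact le_of_mul_le_mul_left (by linarith) h

theorem lowCOT : ∃ (Z : Type) (_ : NormedAddCommGroup Z) (_ : NormedSpace ℝ Z)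
    (_ : CompleteSpace Z) (_ : SeparableSpace Z), (∀ (n : ℕ) (x : Fin n → Z),
      √(∑ i, ‖x i‖ ^ 2) ≤ 84 * ((∑ θ : Fin n → Bool, ‖∑ i, sg (θ i) • x i‖) / 2 ^ n)) ∧
        ∀ α < Ordinal.omega 1, Low Z (Ordinal.omega0 ^ α) := by
  have p0 : ∀ z : E1, ((3⁻¹ : ℝ≥0) • normSeminorm ℝ _) z = 3⁻¹ * ‖z‖ := fun z => by
    simp [NNReal.smul_def]
  obtain ⟨Z, _, _, _, _, π, π1, π2, π3⟩ := lowT _ (fun z => (p0 z).le) (D := 3) (by norm_num)
    fun s z => by rw [p0]; linarith [chi_le s z]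
  refine ⟨Z, _, _, ‹_›, ‹_›, fun n x => (DenseRange.piMap fun _ => π1).induction_on x
    (isClosed_le (by fun_prop) (by fun_prop)) fun x => ?_, π3⟩
  simp only [p0] at π2
  have h1 : √(∑ i, ‖π (x i)‖ ^ 2) ≤ 7 * √(∑ i, ‖x i‖ ^ 2) := Real.sqrt_le_iff.2 ⟨by positivity, by
    rw [mul_pow, Real.sq_sqrt (by positivity), mul_sum]
    exact sum_le_sum fun i _ => by
      rw [← mul_pow]; exact pow_le_pow_left₀ (norm_nonneg _) (by linarith [(π2 (x i)).2]) 2⟩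
  have h2 : ∑ θ : Fin n → Bool, ‖∑ i, sg (θ i) • x i‖ ≤
      3 * ∑ θ : Fin n → Bool, ‖∑ i, sg (θ i) • π (x i)‖ := by
    rw [mul_sum]
    refine sum_le_sum fun θ _ => ?_
    have := (π2 (∑ i, sg (θ i) • x i)).1
    simp only [map_sum, map_smul] at this
    linarith
  simp only [Pi.map_apply]
  rw [← mul_div_assoc, le_div_iff₀' (by positivity)]
  nlinarith [cot1 x, mul_le_mul_of_nonneg_left h1 (show (0 : ℝ) ≤ 2 ^ n by positivity)]

lemma typ_of {X : Type} [NormedAddCommGroup X] [NormedSpace ℝ X] {C : ℝ} (C0 : 0 ≤ C)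
    (h : ∀ (n : ℕ) (s : Finset (Fin n)) (j : ℕ) (x : Fin n → X),
      ∑ θ : Fin n → Bool, ‖∑ i ∈ s, sg (θ i) • x i‖ ^ 2 ≤
        2 ^ n * (C ^ 2 * (s.card / 4 ^ j + 64 ^ j) * ∑ i ∈ s, ‖x i‖ ^ 2)) (n : ℕ) (x : Fin n → X) :
    (∑ θ : Fin n → Bool, ‖∑ i, sg (θ i) • x i‖) / 2 ^ n ≤
      C * 2 ^ 18 * (∑ i, ‖x i‖ ^ (16 / 15 : ℝ)) ^ (1 / (16 / 15) : ℝ) := by
  have h0 : 0 ≤ ∑ i, ‖x i‖ ^ (16 / 15 : ℝ) := by positivity
  set S := (∑ i, ‖x i‖ ^ (16 / 15 : ℝ)) ^ (1 / (16 / 15) : ℝ) with hS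
  have S0 : 0 ≤ S := by positivity
  have S1 : S ^ (16 / 15 : ℝ) = ∑ i, ‖x i‖ ^ (16 / 15 : ℝ) := by
    rw [hS, one_div, Real.rpow_inv_rpow h0 (by norm_num)]
  have S2 : ∀ i, ‖x i‖ ≤ S := fun i => (Real.rpow_le_rpow_iff (norm_nonneg _) S0 (by norm_num)).1
    (S1 ▸ single_le_sum (f := fun i => ‖x i‖ ^ (16 / 15 : ℝ)) (fun _ _ => by positivity) (mem_univ i))
  choose! r r1 r2 using fun i (hi : x i ≠ 0) => exists_nat_pow_near_of_lt_one
    (div_pos (norm_pos_iff.2 hi) ((norm_pos_iff.2 hi).trans_le (S2 i)))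
    (div_le_one_of_le₀ (S2 i) S0) (show (0 : ℝ) < (1 / 2) ^ 15 by positivity) (by norm_num)
  have h1 : ∀ k, ∑ θ : Fin n → Bool, ‖∑ i ∈ (univ.filter fun i => x i ≠ 0).filter fun i => r i = k,
      sg (θ i) • x i‖ ≤ 2 ^ n * (C * 2 ^ 17 * S * (1 / 2) ^ k) := fun k => by
    set s := (univ.filter fun i => x i ≠ 0).filter fun i => r i = k
    rcases s.eq_empty_or_nonempty with e | ⟨i0, e⟩
    · rw [e]; simp only [sum_empty, norm_zero, sum_const_zero]; positivity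
    have a0 : 0 < S := (norm_pos_iff.2 (mem_filter.1 (mem_filter.1 e).1).2).trans_le (S2 i0)
    set w : ℝ := (1 / 2) ^ k with hw
    have w0 : 0 < w := by positivity
    have a1 : ∀ i ∈ s, S * (w / 2) ^ 15 ≤ ‖x i‖ ∧ ‖x i‖ ≤ S * w ^ 15 := fun i hi => by
      have b1 := r1 i (mem_filter.1 (mem_filter.1 hi).1).2
      have b2 := r2 i (mem_filter.1 (mem_filter.1 hi).1).2
      rw [(mem_filter.1 hi).2, ← pow_mul, mul_comm, pow_mul] at b1 b2
      rw [lt_div_iff₀' a0, pow_succ _ k, mul_one_div] at b1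
      exact ⟨b1.le, (div_le_iff₀' a0).1 b2⟩
    have a2 : s.card * (w / 2) ^ 16 ≤ 1 := by
      have := (card_nsmul_le_sum s (fun i => ‖x i‖ ^ (16 / 15 : ℝ)) _ fun i hi =>
        Real.rpow_le_rpow (by positivity) (a1 i hi).1 (by norm_num)).trans
        (sum_le_sum_of_subset_of_nonneg (subset_univ _) fun _ _ _ => by positivity)
      rw [← S1, nsmul_eq_mul, Real.mul_rpow S0 (by positivity), ← Real.rpow_natCast,
        ← Real.rpow_mul (x := w / 2) (by positivity), show ((15 : ℕ) : ℝ) * (16 / 15) = (16 : ℕ) by norm_num,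
        Real.rpow_natCast] at this
      exact le_of_mul_le_mul_left (by linarith) (Real.rpow_pos_of_pos a0 (16 / 15))
    have a3 : ∑ i ∈ s, ‖x i‖ ^ 2 ≤ s.card * (S * w ^ 15) ^ 2 := by
      rw [← nsmul_eq_mul]
      exact sum_le_card_nsmul _ _ _ fun i hi => pow_le_pow_left₀ (norm_nonneg _) (a1 i hi).2 2
    have a4 : (s.card / 4 ^ (2 * k) + 64 ^ (2 * k)) * (s.card * (S * w ^ 15) ^ 2) ≤
        (2 ^ 17 * S * w) ^ 2 := by
      have b1 : (4 : ℝ) ^ (2 * k) = (w ^ 4)⁻¹ := by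
        rw [hw, ← pow_mul, mul_comm k, pow_mul, pow_mul, ← inv_pow]; norm_num
      have b2 : (64 : ℝ) ^ (2 * k) = (w ^ 12)⁻¹ := by
        rw [hw, ← pow_mul, mul_comm k, pow_mul, pow_mul, ← inv_pow]; norm_num
      have b3 : s.card * w ^ 16 ≤ 2 ^ 16 := by rw [div_pow] at a2; linarith
      have b4 : (0 : ℝ) ≤ s.card * w ^ 16 := by positivity
      rw [b1, b2, show ((s.card : ℝ) / (w ^ 4)⁻¹ + (w ^ 12)⁻¹) * (s.card * (S * w ^ 15) ^ 2) =
        ((s.card * w ^ 16) ^ 2 + s.card * w ^ 16) * (S * w) ^ 2 by field_simp, mul_assoc _ S, mul_pow _ (S * w)]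
      exact mul_le_mul_of_nonneg_right (by nlinarith) (sq_nonneg _)
    refine (abs_le_of_sq_le_sq' (sq_sum_le_card_mul_sum_sq.trans ?_) (by positivity)).2
    rw [card_univ, Fintype.card_fun, Fintype.card_bool, Fintype.card_fin, mul_pow, sq (2 ^ n : ℝ),
      mul_assoc, Nat.cast_pow, Nat.cast_ofNat]
    refine mul_le_mul_of_nonneg_left ((h n s (2 * k) x).trans (mul_le_mul_of_nonneg_left ?_
      (by positivity))) (by positivity)
    rw [mul_assoc, mul_assoc C, mul_assoc C, mul_pow C]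
    exact mul_le_mul_of_nonneg_left ((mul_le_mul_of_nonneg_left a3 (by positivity)).trans a4)
      (sq_nonneg _)
  rw [div_le_iff₀' (by positivity)]
  have h2 : ∀ θ : Fin n → Bool, ‖∑ i, sg (θ i) • x i‖ ≤ ∑ k ∈ range (univ.sup r + 1),
      ‖∑ i ∈ (univ.filter fun i => x i ≠ 0).filter fun i => r i = k, sg (θ i) • x i‖ := fun θ => by
    refine le_trans (le_of_eq (congrArg _ ?_)) (norm_sum_le _ _)
    rw [sum_fiberwise_of_maps_to fun i _ => mem_range.2 (Nat.lt_succ_of_le (le_sup (mem_univ i)))]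
    exact (sum_filter_of_ne (p := fun i => x i ≠ 0) fun i _ hi e => hi (by rw [e, smul_zero])).symm
  refine (sum_le_sum fun θ _ => h2 θ).trans (sum_comm.trans_le ((sum_le_sum fun k _ => h1 k).trans ?_))
  rw [← mul_sum, ← mul_sum]
  refine mul_le_mul_of_nonneg_left ((mul_le_mul_of_nonneg_left (sum_geometric_two_le _)
    (by positivity)).trans_eq (by ring)) (by positivity)

end Pool.Agent.H87.LdC
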