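import Mathlib
import Pool.Agent.H87.LdC5

/-! An interpolation norm on `ℓ₁` of a tree with nontrivial type and bounded branch sums. -/

namespace Pool.Agent.H87.LdC

open Filter Topology Set Classical TopologicalSpace Finset
open scoped NNReal

def Adm (z u : E1) (L : ℝ) : Prop := ∀ s, |chi s z - chi s u| ≤ L

noncomputable def KK (t : ℝ) (z : E1) : ℝ := sInf {c | ∃ u L, Adm z u L ∧ c = ‖u‖ + t * L}

lemma Adm.nn {z u : E1} {L : ℝ} (h : Adm z u L) : 0 ≤ L := (abs_nonneg _).trans (h [])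

lemma adm0 (z : E1) : Adm z z 0 := fun s => by simp

lemma K_le {t : ℝ} (ht : 0 ≤ t) {z u : E1} {L : ℝ} (h : Adm z u L) : KK t z ≤ ‖u‖ + t * L :=
  csInf_le ⟨0, by rintro _ ⟨u, L, h, rfl⟩; have := h.nn; positivity⟩ ⟨u, L, h, rfl⟩

lemma le_K {t c : ℝ} {z : E1} (h : ∀ u L, Adm z u L → c ≤ ‖u‖ + t * L) : c ≤ KK t z :=
  le_csInf ⟨_, z, 0, adm0 z, rfl⟩ (by rintro _ ⟨u, L, a, rfl⟩; exact h u L a)

lemma K_nn {t : ℝ} (ht : 0 ≤ t) (z : E1) : 0 ≤ KK t z := le_K fun u L h => by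
  have := h.nn; positivity

lemma K_add {t : ℝ} (ht : 0 ≤ t) (z w : E1) : KK t (z + w) ≤ KK t z + KK t w :=
  sub_le_iff_le_add.1 (le_K fun u L h => sub_le_comm.1 (le_K fun v M k => by
    have := K_le ht (z := z + w) (u := u + v) (L := L + M) fun s => by
      rw [map_add, map_add, add_sub_add_comm]; exact (abs_add_le _ _).trans (add_le_add (h s) (k s))
    linarith [norm_add_le u v]))

lemma K_smul {t : ℝ} (ht : 0 ≤ t) (c : ℝ) (z : E1) : KK t (c • z) ≤ |c| * KK t z := by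
  rcases (abs_nonneg c).eq_or_lt with e | e
  · simpa [abs_eq_zero.1 e.symm] using K_le ht (adm0 0)
  refine (div_le_iff₀' e).1 (le_K fun u L h => (div_le_iff₀' e).2 ?_)
  have := K_le ht (z := c • z) (u := c • u) (L := |c| * L) fun s => by
    rw [map_smul, map_smul, ← smul_sub, smul_eq_mul, abs_mul]
    exact mul_le_mul_of_nonneg_left (h s) e.le
  rw [norm_smul, Real.norm_eq_abs] at this
  linarith

lemma K_ge {t : ℝ} (ht : 0 ≤ t) (z : E1) (s : List Al) : min 1 t * |chi s z| ≤ KK t z :=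
  le_K fun u L h => by
    have h1 : |chi s z| ≤ ‖u‖ + L := by linarith [chi_le s u, h s, abs_sub_abs_le_abs_sub (chi s z) (chi s u)]
    nlinarith [mul_le_mul_of_nonneg_left h1 (le_min zero_le_one ht), h.nn, norm_nonneg u,
      min_le_left 1 t, min_le_right 1 t]

lemma K_near {t : ℝ} (ht : 0 < t) (z : E1) : ∃ u L, Adm z u L ∧ ‖u‖ + t * L ≤ 2 * KK t z := by
  rcases (K_nn ht.le z).eq_or_lt with e | e
  · refine ⟨0, 0, fun s => ?_, by simp [← e]⟩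
    have := K_ge ht.le z s
    rw [← e] at this
    simpa using nonpos_of_mul_nonpos_right this (lt_min one_pos ht)
  · obtain ⟨_, ⟨u, L, h, rfl⟩, k⟩ := exists_lt_of_csInf_lt (s := {c | ∃ u L, Adm z u L ∧
      c = ‖u‖ + t * L}) ⟨_, z, 0, adm0 z, rfl⟩ (show KK t z < 2 * KK t z by linarith)
    exact ⟨u, L, h, k.le⟩

lemma trunc (Y : E1) {L : ℝ} (hL : 0 ≤ L) : ∃ T : E1, Adm Y T L ∧ ∀ v, |T v| ≤ |Y v| ∧
    L ^ 2 * |T v| ≤ |Y v| * (chi v Y ^ 2 + chi v.tail Y ^ 2) := by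
  let ψ : ℝ → ℝ := fun r => r - max (-L) (min r L)
  have ψ1 : ∀ a b, |ψ a - ψ b| ≤ |a - b| := fun a b => by
    have := le_abs_self (a - b)
    have := neg_abs_le (a - b)
    simp only [ψ, max_def, min_def, abs_le]
    split_ifs <;> constructor <;> linarith
  have ψ2 : ∀ a, a ^ 2 ≤ L ^ 2 → ψ a = 0 := fun a h => by
    obtain ⟨h1, h2⟩ := abs_le_of_sq_le_sq' h hL
    simp only [ψ, min_eq_left h2, max_eq_right h1, sub_self]
  have h1 : ∀ v, |ψ (chi v Y) - ψ (chi v.tail Y)| ≤ |Y v| := fun v => (ψ1 _ _).trans (by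
    cases v with
    | nil => simp
    | cons b s => exact le_of_eq (congrArg _ (add_sub_cancel_right _ _)))
  let T : E1 := ⟨fun v => ψ (chi v Y) - ψ (chi v.tail Y), (lp.memℓp Y).mono' h1⟩
  have h2 : ∀ s, chi s T = ψ (chi s Y) := fun s => by
    induction s with
    | nil => exact (ψ2 0 (by simpa using sq_nonneg L)).symm
    | cons b s ih => exact (congrArg _ ih).trans (sub_add_cancel _ _)
  refine ⟨T, fun s => ?_, fun v => ⟨h1 v, ?_⟩⟩
  · rw [h2, sub_sub_cancel]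
    exact abs_le.2 ⟨le_max_left _ _, max_le (by linarith) (min_le_right _ _)⟩
  by_cases h : chi v Y ^ 2 + chi v.tail Y ^ 2 ≤ L ^ 2
  · rw [show T v = 0 from (congrArg₂ _ (ψ2 _ (by nlinarith)) (ψ2 _ (by nlinarith))).trans (sub_self _),
      abs_zero, mul_zero]
    positivity
  · rw [mul_comm]
    exact mul_le_mul (h1 v) (not_le.1 h).le (sq_nonneg _) (abs_nonneg _)

lemma tr2 {n : ℕ} (s : Finset (Fin n)) (z : Fin n → E1) (μ : Fin n → ℝ)
    (hμ : ∀ i v, |chi v (z i)| ≤ μ i) {L : ℝ} (hL : 0 ≤ L) : ∃ T : (Fin n → Bool) → E1,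
      (∀ θ, Adm (∑ i ∈ s, sg (θ i) • z i) (T θ) L ∧ ‖T θ‖ ≤ ∑ i ∈ s, ‖z i‖) ∧
      L ^ 2 * ∑ θ, ‖T θ‖ ≤ (∑ i ∈ s, ‖z i‖) * (2 * (2 ^ n * ∑ i ∈ s, μ i ^ 2)) := by
  choose T T1 T2 using fun θ : Fin n → Bool => trunc (∑ i ∈ s, sg (θ i) • z i) hL
  have h1 : ∀ (θ : Fin n → Bool) v, |(∑ i ∈ s, sg (θ i) • z i : E1) v| ≤ ∑ i ∈ s, |z i v| :=
    fun θ v => by
      simp only [lp.coeFn_sum, Finset.sum_apply, lp.coeFn_smul, Pi.smul_apply, smul_eq_mul]
      exact (abs_sum_le_sum_abs _ _).trans_eq (by simp only [abs_mul, sg_abs, one_mul])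
  have h2 : ∀ v, ∑ θ : Fin n → Bool, chi v (∑ i ∈ s, sg (θ i) • z i) ^ 2 ≤
      2 ^ n * ∑ i ∈ s, μ i ^ 2 := fun v => by
    simp only [map_sum, map_smul, smul_eq_mul, mom2]
    exact mul_le_mul_of_nonneg_left (sum_le_sum fun i _ => sq_le_sq' (abs_le.1 (hμ i v)).1
      (abs_le.1 (hμ i v)).2) (by positivity)
  have h3 := hasSum_sum (s := s) fun i _ => nsum (z i)
  refine ⟨T, fun θ => ⟨T1 θ, hasSum_le (fun v => (T2 θ v).1.trans (h1 θ v)) (nsum _) h3⟩,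
    hasSum_le (fun v => ?_) ((hasSum_sum fun θ _ => nsum _).mul_left _) (h3.mul_right _)⟩
  rw [mul_sum]
  refine (sum_le_sum fun θ _ => (T2 θ v).2.trans (mul_le_mul_of_nonneg_right (h1 θ v)
    (by positivity))).trans ?_
  rw [← mul_sum, sum_add_distrib]
  exact mul_le_mul_of_nonneg_left (by linarith [h2 v, h2 v.tail]) (by positivity)

lemma ari {w J u v L M A B : ℝ} (hw : 0 < w) (hJ : 1 ≤ J) (u0 : 0 ≤ u) (v0 : 0 ≤ v) (L0 : 0 ≤ L)
    (M0 : 0 ≤ M) (b0 : u + (w / J) ^ 2 * L ≤ 2 * (A * (w / J)))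
    (v2 : v + (w * J) ^ 2 * M ≤ 2 * (B * (w * J))) : J * (u + w ^ 2 * M) ≤ 2 * w * (A + B) ∧
      v + u ≤ 2 * w * J * (A + B) ∧ w * (L + M) ≤ 2 * J * (A + B) := by
  have J0 : 0 < J := one_pos.trans_le hJ
  have b1 : J * u ≤ 2 * w * A ∧ w * L ≤ 2 * J * A := by
    obtain ⟨r, rfl⟩ : ∃ r, w = r * J := ⟨w / J, (div_mul_cancel₀ _ J0.ne').symm⟩
    have r0 : 0 < r := pos_of_mul_pos_left hw J0.le
    rw [mul_div_cancel_right₀ _ J0.ne'] at b0
    have c1 : r * L ≤ 2 * A := le_of_mul_le_mul_left (by nlinarith) r0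
    exact ⟨by nlinarith [mul_nonneg (sq_nonneg r) L0], by nlinarith⟩
  have b2 : v ≤ 2 * w * J * B := by nlinarith [mul_nonneg (sq_nonneg (w * J)) M0]
  have b3 : w * J * M ≤ 2 * B := le_of_mul_le_mul_left (by nlinarith) (mul_pos hw J0)
  have b4 : 0 ≤ w * M := mul_nonneg hw.le M0
  have b5 : w * M ≤ 2 * B := by nlinarith
  have b6 : u ≤ 2 * w * A := by nlinarith [b1.1]
  exact ⟨by nlinarith [b1.1], by nlinarith, by nlinarith [b1.2]⟩

lemma step {n : ℕ} (s : Finset (Fin n)) (x : Fin n → E1) {w J : ℝ} (hw : 0 < w) (hJ : 1 ≤ J) :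
    ∑ θ : Fin n → Bool, (KK (w ^ 2) (∑ i ∈ s, sg (θ i) • x i) / w) ^ 2 ≤
      2 ^ n * (192 * (s.card / J ^ 2 + J ^ 6) * ∑ i ∈ s, ((KK ((w / J) ^ 2) (x i) / (w / J)) ^ 2 +
        (KK ((w * J) ^ 2) (x i) / (w * J)) ^ 2)) := by
  have J0 : 0 < J := one_pos.trans_le hJ
  choose u L u1 u2 using fun i => K_near (show 0 < (w / J) ^ 2 by positivity) (x i)
  choose v M v1 v2 using fun i => K_near (show 0 < (w * J) ^ 2 by positivity) (x i)
  obtain ⟨A, hA⟩ : ∃ A : Fin n → ℝ, ∀ i, KK ((w / J) ^ 2) (x i) = A i * (w / J) :=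
    ⟨fun i => KK ((w / J) ^ 2) (x i) / (w / J), fun i => by
      beta_reduce; rw [div_mul_cancel₀ _ (show w / J ≠ 0 by positivity)]⟩
  obtain ⟨B, hB⟩ : ∃ B : Fin n → ℝ, ∀ i, KK ((w * J) ^ 2) (x i) = B i * (w * J) :=
    ⟨fun i => KK ((w * J) ^ 2) (x i) / (w * J), fun i => by
      beta_reduce; rw [div_mul_cancel₀ _ (show w * J ≠ 0 by positivity)]⟩
  simp only [hA, hB, mul_div_cancel_right₀ _ (show w / J ≠ 0 by positivity),
    mul_div_cancel_right₀ _ (show w * J ≠ 0 by positivity)] at u2 v2 ⊢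
  have a1 : ∀ i, J * (‖u i‖ + w ^ 2 * M i) ≤ 2 * w * (A i + B i) ∧
      ‖v i - u i‖ ≤ 2 * w * J * (A i + B i) ∧ w * (L i + M i) ≤ 2 * J * (A i + B i) := fun i => by
    have := ari hw hJ (norm_nonneg _) (norm_nonneg _) (u1 i).nn (v1 i).nn (u2 i) (v2 i)
    exact ⟨this.1, (norm_sub_le _ _).trans this.2.1, this.2.2⟩
  set Q := ∑ i ∈ s, (A i + B i) ^ 2 with hQ
  set S := ∑ i ∈ s, (A i + B i) with hS
  have Q0 : 0 ≤ Q := by positivity
  have Q1 : S ^ 2 ≤ s.card * Q := sq_sum_le_card_mul_sum_sq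
  have Q2 : Q ≤ 2 * ∑ i ∈ s, (A i ^ 2 + B i ^ 2) := by
    rw [mul_sum]; exact sum_le_sum fun i _ => by nlinarith [sq_nonneg (A i - B i)]
  have Q3 := Real.sq_sqrt (show 0 ≤ s.card * Q by positivity)
  have Q4 := Real.sqrt_nonneg (s.card * Q)
  generalize √(s.card * Q) = R at Q3 Q4
  have Q5 : S ≤ R := (abs_le_of_sq_le_sq' (Q3 ▸ Q1) Q4).2
  obtain ⟨T, T1, T2⟩ := tr2 s (fun i => v i - u i) (fun i => 2 * J * (A i + B i) / w) (fun i r => by
    rw [le_div_iff₀' hw, map_sub]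
    exact (mul_le_mul_of_nonneg_left (by
      linarith [abs_sub_le (chi r (v i)) (chi r (x i)) (chi r (u i)), u1 i r, v1 i r,
        abs_sub_comm (chi r (v i)) (chi r (x i))]) hw.le).trans (a1 i).2.2)
    (show 0 ≤ R / (w * J) by positivity)
  have a2 : ∑ i ∈ s, ‖v i - u i‖ ≤ 2 * w * J * R := by
    refine (sum_le_sum fun i _ => (a1 i).2.1).trans ?_
    rw [← mul_sum]
    exact mul_le_mul_of_nonneg_left Q5 (by positivity)
  have a3 : ∀ θ : Fin n → Bool, KK (w ^ 2) (∑ i ∈ s, sg (θ i) • x i) / w ≤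
      3 * (R / J) + ‖T θ‖ / w := fun θ => by
    have b1 := K_le (sq_nonneg w) (z := ∑ i ∈ s, sg (θ i) • x i)
      (u := ∑ i ∈ s, sg (θ i) • u i + T θ) (L := R / (w * J) + ∑ i ∈ s, M i) fun r => by
        have c1 := (T1 θ).1 r
        have c2 : |∑ i ∈ s, sg (θ i) * (chi r (x i) - chi r (v i))| ≤ ∑ i ∈ s, M i :=
          (abs_sum_le_sum_abs _ _).trans (sum_le_sum fun i _ => by
            rw [abs_mul, sg_abs, one_mul]; exact v1 i r)
        simp only [map_add, map_sum, map_smul, map_sub, smul_eq_mul, mul_sub, sum_sub_distrib,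
          abs_le] at c1 c2 ⊢
        constructor <;> linarith [c1.1, c1.2, c2.1, c2.2]
    have b2 : ‖∑ i ∈ s, sg (θ i) • u i‖ ≤ ∑ i ∈ s, ‖u i‖ := (norm_sum_le _ _).trans_eq (by
      simp only [norm_smul, Real.norm_eq_abs, sg_abs, one_mul])
    have b3 := sum_le_sum (s := s) fun i _ => (a1 i).1
    rw [← mul_sum, ← mul_sum, sum_add_distrib, ← mul_sum, ← le_div_iff₀' J0] at b3
    have b4 : 2 * w * S / J ≤ 2 * w * (R / J) := by
      rw [mul_div_assoc]; gcongr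
    rw [div_le_iff₀ hw, add_mul, div_mul_cancel₀ _ hw.ne']
    rw [mul_add, show w ^ 2 * (R / (w * J)) = w * (R / J) by field_simp] at b1
    linarith [norm_add_le (∑ i ∈ s, sg (θ i) • u i) (T θ)]
  have a4 : ∑ θ : Fin n → Bool, (‖T θ‖ / w) ^ 2 ≤ 2 ^ n * (32 * J ^ 6 * Q) := by
    have b1 : ∑ θ : Fin n → Bool, (‖T θ‖ / w) ^ 2 ≤ 2 * J * R / w * ∑ θ : Fin n → Bool, ‖T θ‖ := by
      rw [mul_sum]
      refine sum_le_sum fun θ _ => ?_
      rw [sq, div_mul_div_comm, div_le_iff₀ (by positivity), show 2 * J * R / w * ‖T θ‖ * (w * w) =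
        2 * w * J * R * ‖T θ‖ by field_simp]
      exact mul_le_mul_of_nonneg_right ((T1 θ).2.trans a2) (norm_nonneg _)
    rcases Q4.eq_or_lt with e | e
    · rw [← e, mul_zero, zero_div, zero_mul] at b1
      exact b1.trans (by positivity)
    simp only [div_pow, mul_pow, ← sum_div, ← mul_sum] at T2
    refine b1.trans (le_of_mul_le_mul_left ?_ (show 0 < R / (2 * w * J ^ 3) by positivity))
    rw [← mul_assoc, show R / (2 * w * J ^ 3) * (2 * J * R / w) = R ^ 2 / (w ^ 2 * J ^ 2) by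
      field_simp]
    refine T2.trans ((mul_le_mul_of_nonneg_right a2 (by positivity)).trans_eq ?_)
    rw [← hQ]
    field_simp
    ring
  refine (sum_le_sum fun θ _ => show _ ≤ 18 * (R / J) ^ 2 + 2 * (‖T θ‖ / w) ^ 2 from
    (pow_le_pow_left₀ (div_nonneg (K_nn (sq_nonneg _) _) hw.le) (a3 θ) 2).trans
      (by nlinarith [sq_nonneg (3 * (R / J) - ‖T θ‖ / w)])).trans ?_
  rw [sum_add_distrib, ← mul_sum, ← mul_sum, sum_const, card_univ, Fintype.card_fun, Fintype.card_bool,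
    Fintype.card_fin, nsmul_eq_mul, Nat.cast_pow, Nat.cast_ofNat, div_pow, Q3, mul_comm _ Q,
    mul_div_assoc]
  have c1 : (0 : ℝ) ≤ 2 ^ n * (s.card / J ^ 2) := by positivity
  have c2 : (0 : ℝ) ≤ 2 ^ n * J ^ 6 := by positivity
  nlinarith [mul_le_mul_of_nonneg_left Q2 c1, mul_le_mul_of_nonneg_left Q2 c2, mul_nonneg c1 Q0,
    mul_nonneg c2 Q0]

noncomputable def GG : lp (fun _ : ℤ => ℝ) 2 := ⟨fun k => (1 / 2) ^ k.natAbs, memℓp_gen (by
  have h : Summable fun n : ℕ => ‖((1 / 2 : ℝ)) ^ n‖ ^ (2 : ENNReal).toReal := by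
    refine (summable_geometric_of_lt_one (r := 1 / 4) (by norm_num) (by norm_num)).congr fun n => ?_
    rw [ENNReal.toReal_ofNat, Real.rpow_two, Real.norm_eq_abs, sq_abs, ← pow_mul, mul_comm, pow_mul]
    norm_num
  exact Summable.of_nat_of_neg (by simpa only [Int.natAbs_natCast] using h)
    (by simpa only [Int.natAbs_neg, Int.natAbs_natCast] using h))⟩

lemma F_le (z : E1) (k : ℤ) : ‖KK ((2 ^ k) ^ 2) z / 2 ^ k‖ ≤ ‖(‖z‖ • GG) k‖ := by
  rw [Real.norm_of_nonneg (div_nonneg (K_nn (sq_nonneg _) _) (by positivity))]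
  refine le_trans ?_ (le_abs_self _)
  show _ ≤ ‖z‖ * (1 / 2) ^ k.natAbs
  rw [div_le_iff₀ (by positivity)]
  obtain ⟨n, rfl | rfl⟩ := k.eq_nat_or_neg
  · refine (K_le (sq_nonneg _) (adm0 z)).trans_eq ?_
    rw [Int.natAbs_natCast, zpow_natCast, mul_assoc, ← mul_pow]
    norm_num
  · refine (K_le (sq_nonneg _) (u := 0) fun s => by simpa using chi_le s z).trans_eq ?_
    rw [Int.natAbs_neg, Int.natAbs_natCast, zpow_neg, zpow_natCast, one_div, inv_pow, norm_zero, inv_pow]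
    ring

noncomputable def FF (z : E1) : lp (fun _ : ℤ => ℝ) 2 :=
  ⟨fun k => KK ((2 ^ k) ^ 2) z / 2 ^ k, (lp.memℓp _).mono' (F_le z)⟩

lemma F_ap (z : E1) (k : ℤ) : ‖FF z k‖ = KK ((2 ^ k) ^ 2) z / 2 ^ k :=
  Real.norm_of_nonneg (div_nonneg (K_nn (sq_nonneg _) _) (by positivity))

lemma F_sum (z : E1) : HasSum (fun k : ℤ => (KK ((2 ^ k) ^ 2) z / 2 ^ k) ^ 2) (‖FF z‖ ^ 2) := by
  simpa only [ENNReal.toReal_ofNat, Real.rpow_two, F_ap] using lp.hasSum_norm (by simp) (FF z)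

lemma key {n : ℕ} (s : Finset (Fin n)) (j : ℕ) (x : Fin n → E1) :
    ∑ θ : Fin n → Bool, ‖FF (∑ i ∈ s, sg (θ i) • x i)‖ ^ 2 ≤
      2 ^ n * (192 * (s.card / 4 ^ j + 64 ^ j) * ∑ i ∈ s, (‖FF (x i)‖ ^ 2 + ‖FF (x i)‖ ^ 2)) := by
  refine hasSum_le (fun k => ?_) (hasSum_sum fun θ _ => F_sum _) (((hasSum_sum fun i _ =>
    ((Equiv.subRight (j : ℤ)).hasSum_iff.2 (F_sum (x i))).add
      ((Equiv.addRight (j : ℤ)).hasSum_iff.2 (F_sum (x i)))).mul_left _).mul_left _)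
  have := step s x (w := 2 ^ k) (J := 2 ^ j) (by positivity) (one_le_pow₀ one_le_two)
  rw [← pow_mul, ← pow_mul, mul_comm j, mul_comm j, pow_mul, pow_mul] at this
  simp only [Function.comp, Equiv.subRight_apply, Equiv.coe_addRight, zpow_sub₀ (two_ne_zero' ℝ),
    zpow_add₀ (two_ne_zero' ℝ), zpow_natCast]
  rwa [show (2 : ℝ) ^ 2 = 4 by norm_num, show (2 : ℝ) ^ 6 = 64 by norm_num] at this

theorem lowTYP : ∃ (Z : Type) (_ : NormedAddCommGroup Z) (_ : NormedSpace ℝ Z)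
    (_ : CompleteSpace Z) (_ : SeparableSpace Z) (C : ℝ), (∀ (n : ℕ) (x : Fin n → Z),
      (∑ θ : Fin n → Bool, ‖∑ i, sg (θ i) • x i‖) / 2 ^ n ≤
        C * (∑ i, ‖x i‖ ^ (16 / 15 : ℝ)) ^ (1 / (16 / 15) : ℝ)) ∧
        ∀ α < Ordinal.omega 1, Low Z (Ordinal.omega0 ^ α) := by
  have f1 : ∀ z, ‖FF z‖ ≤ ‖z‖ * ‖GG‖ := fun z => (lp.norm_mono (by simp) (F_le z)).trans_eq (by
    rw [norm_smul, norm_norm])
  set D := 3 * ‖GG‖ + 1 with hD
  have D0 : 0 < D := by positivity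
  let p : Seminorm ℝ E1 := .ofSMulLE (fun z => ‖FF z‖ / D)
    (by rw [le_antisymm ((f1 0).trans_eq (by simp)) (norm_nonneg _), zero_div])
    (fun z w => by
      rw [← add_div]
      refine div_le_div_of_nonneg_right ((lp.norm_mono (y := FF z + FF w) (by simp)
        fun k => ?_).trans (norm_add_le (FF z) (FF w))) D0.le
      rw [F_ap]
      exact ((div_le_div_of_nonneg_right (K_add (sq_nonneg _) z w) (by positivity)).trans_eq
        (add_div _ _ _)).trans (le_abs_self _))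
    fun c z => by
      rw [← mul_div_assoc, ← norm_smul]
      refine div_le_div_of_nonneg_right (lp.norm_mono (by simp) fun k => ?_) D0.le
      rw [lp.coeFn_smul, Pi.smul_apply, norm_smul, F_ap, F_ap, ← mul_div_assoc]
      exact div_le_div_of_nonneg_right (K_smul (sq_nonneg _) c z) (by positivity)
  have p0 : ∀ z, p z = ‖FF z‖ / D := fun _ => rfl
  obtain ⟨Z, _, _, _, _, π, π1, π2, π3⟩ := lowT p (fun z => by
    rw [p0, div_le_iff₀ D0]; nlinarith [f1 z, norm_nonneg z]) (D := D)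
    (by linarith [norm_nonneg GG]) fun s z => by
      rw [p0, mul_div_cancel₀ _ D0.ne']
      simpa using (K_ge zero_le_one z s).trans
        (le_trans (by rw [F_ap]; simp) (lp.norm_apply_le_norm (by simp) (FF z) 0))
  simp only [p0, mul_assoc, mul_div_cancel₀ _ D0.ne', div_le_iff₀ D0] at π2
  refine ⟨Z, _, _, ‹_›, ‹_›, _, typ_of (C := 140 * D) (by positivity) fun n s j x =>
    (DenseRange.piMap fun _ => π1).induction_on x (isClosed_le (by fun_prop) (by fun_prop))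
      fun x => ?_, π3⟩
  have h1 : ∑ θ : Fin n → Bool, ‖∑ i ∈ s, sg (θ i) • π (x i)‖ ^ 2 ≤
      49 * ∑ θ : Fin n → Bool, ‖FF (∑ i ∈ s, sg (θ i) • x i)‖ ^ 2 := by
    rw [mul_sum]
    refine sum_le_sum fun θ _ => ?_
    have := pow_le_pow_left₀ (norm_nonneg _) (π2 (∑ i ∈ s, sg (θ i) • x i)).2 2
    simp only [map_sum, map_smul] at this
    linarith
  have h2 : ∑ i ∈ s, (‖FF (x i)‖ ^ 2 + ‖FF (x i)‖ ^ 2) ≤ 2 * D ^ 2 * ∑ i ∈ s, ‖π (x i)‖ ^ 2 := by
    rw [mul_sum]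
    exact sum_le_sum fun i _ => by nlinarith [pow_le_pow_left₀ (norm_nonneg _) (π2 (x i)).1 2]
  have h3 : (0 : ℝ) ≤ 2 ^ n * (s.card / 4 ^ j + 64 ^ j) := by positivity
  simp only [Pi.map_apply]
  nlinarith [key s j x, mul_le_mul_of_nonneg_left h2 h3,
    mul_nonneg h3 (show 0 ≤ D ^ 2 * ∑ i ∈ s, ‖π (x i)‖ ^ 2 by positivity)]

end Pool.Agent.H87.LdC
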