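import Mathlib
import Pool.Agent.H87.LdC0
import Pool.Agent.H87.LdC2
import Pool.Agent.H87.LdC6

/-! Distortion of maps and of classes of Banach spaces. -/

namespace Pool.Agent.H87.LdC

open Filter Topology Set TopologicalSpace
open scoped ENNReal

variable {M X : Type*} [MetricSpace M] [MetricSpace X]

lemma c_le {c : ℝ} (hc : 0 < c) (h : ∃ f : M → X, ∀ x y,
    c * dist x y ≤ dist (f x) (f y) ∧ dist (f x) (f y) ≤ dist x y) :
    cSp X M ≤ ENNReal.ofReal c⁻¹ := by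
  obtain ⟨f, h⟩ := h
  refine iInf₂_le_of_le f (fun x y e => ?_) ((mul_le_mul' (b := 1) (iSup₂_le fun x y =>
    iSup_le fun _ => ?_) (iSup₂_le fun x y => iSup_le fun _ => ?_)).trans_eq (one_mul _))
  · have := (h x y).1
    rw [e, dist_self] at this
    exact dist_le_zero.1 (nonpos_of_mul_nonpos_right this hc)
  · refine ENNReal.div_le_of_le_mul ?_
    rw [one_mul, edist_dist, edist_dist]
    exact ENNReal.ofReal_le_ofReal (h x y).2
  · refine ENNReal.div_le_of_le_mul ?_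
    rw [edist_dist, edist_dist, ← ENNReal.ofReal_mul (by positivity)]
    exact ENNReal.ofReal_le_ofReal ((le_inv_mul_iff₀ hc).2 (h x y).1)

lemma c_le' {d : ℝ} (hd : 0 < d) (h : ∀ c, 0 < c → c < d → ∃ f : M → X, ∀ x y,
    c * dist x y ≤ dist (f x) (f y) ∧ dist (f x) (f y) ≤ dist x y) :
    cSp X M ≤ ENNReal.ofReal d⁻¹ :=
  ge_of_tendsto (x := 𝓝[<] d) ((ENNReal.tendsto_ofReal (tendsto_inv₀ hd.ne')).mono_left
    nhdsWithin_le_nhds) (by
      filter_upwards [Ioo_mem_nhdsLT hd] with c hc using c_le hc.1 (h c hc.1 hc.2))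

lemma le_c [Nontrivial M] {d : ℝ} (h : ∀ (f : M → X) (a b : ℝ), 0 < a →
    (∀ x y, a * dist x y ≤ dist (f x) (f y) ∧ dist (f x) (f y) ≤ b * dist x y) → d * a ≤ b) :
    ENNReal.ofReal d ≤ cSp X M := by
  refine le_iInf₂ fun f hf => ?_
  obtain ⟨x0, y0, h0⟩ := exists_pair_ne M
  unfold distortion
  set U := ⨆ (x : M) (y : M) (_ : x ≠ y), edist (f x) (f y) / edist x y
  set V := ⨆ (x : M) (y : M) (_ : x ≠ y), edist x y / edist (f x) (f y)
  have h1 : ∀ x y, x ≠ y → edist (f x) (f y) / edist x y ≤ U := fun x y e =>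
    le_iSup₂_of_le x y (le_iSup (fun _ : x ≠ y => edist (f x) (f y) / edist x y) e)
  have h2 : ∀ x y, x ≠ y → edist x y / edist (f x) (f y) ≤ V := fun x y e =>
    le_iSup₂_of_le x y (le_iSup (fun _ : x ≠ y => edist x y / edist (f x) (f y)) e)
  have U0 : U ≠ 0 := ((ENNReal.div_pos (edist_pos.2 (hf.ne h0)).ne' (edist_ne_top _ _)).trans_le
    (h1 _ _ h0)).ne'
  have V0 : V ≠ 0 := ((ENNReal.div_pos (edist_pos.2 h0).ne' (edist_ne_top _ _)).trans_le
    (h2 _ _ h0)).ne'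
  rcases eq_or_ne U ⊤ with e | U1
  · rw [e, ENNReal.top_mul V0]; exact le_top
  rcases eq_or_ne V ⊤ with e | V1
  · rw [e, ENNReal.mul_top U0]; exact le_top
  have v0 := ENNReal.toReal_pos V0 V1
  rw [← ENNReal.ofReal_toReal (ENNReal.mul_ne_top U1 V1), ENNReal.toReal_mul]
  refine ENNReal.ofReal_le_ofReal ((mul_inv_le_iff₀ v0).1 (h f _ _ (inv_pos.2 v0) fun x y => ?_))
  rcases eq_or_ne x y with rfl | e
  · simp
  have a1 := ENNReal.toReal_mono U1 (h1 x y e)
  have a2 := ENNReal.toReal_mono V1 (h2 x y e)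
  rw [ENNReal.toReal_div, ← dist_edist, ← dist_edist] at a1 a2
  exact ⟨(inv_mul_le_iff₀ v0).2 ((div_le_iff₀ (dist_pos.2 (hf.ne e))).1 a2),
    (div_le_iff₀ (dist_pos.2 e)).1 a1⟩

lemma Low.nt {Z : Type} [MetricSpace Z] {γ : Ordinal.{0}} (h : Low Z γ) : Nontrivial Z :=
  not_subsingleton_iff_nontrivial.1 fun _ => by
    linarith [h 0 1 0 one_pos fun x y => by simp [Subsingleton.elim x y]]

lemma Low.two {Z : Type} [MetricSpace Z] {γ : Ordinal.{0}} (h : Low Z γ) :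
    2 ≤ cSp (BoundedContinuousFunction (Set.Iic γ) ℝ) Z := by
  have := h.nt
  simpa using le_c (d := 2) h

lemma one_le_c [Nontrivial M] : 1 ≤ cSp X M := by
  obtain ⟨x, y, e⟩ := exists_pair_ne M
  simpa using le_c (M := M) (X := X) (d := 1) fun f a b _ h => by
    simpa using le_of_mul_le_mul_right ((h x y).1.trans (h x y).2) (dist_pos.2 e)

lemma c_two (Z : Type) [MetricSpace Z] [SeparableSpace Z] [Nonempty Z] {γ : Ordinal.{0}}
    (hγ : Ordinal.omega0 ≤ γ) : cSp (BoundedContinuousFunction (Set.Iic γ) ℝ) Z ≤ 2 := by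
  obtain ⟨a, ha⟩ := exists_dense_seq Z
  simpa using c_le' (d := 1 / 2) (by norm_num) fun c _ hc => by
    simpa only [show 1 / 2 - 2 * ((1 / 2 - c) / 2) = c by ring] using
      emb2 a ha hγ (e := (1 / 2 - c) / 2) (by linarith)

lemma c_one (Z : Type) [NormedAddCommGroup Z] [NormedSpace ℝ Z] [SeparableSpace Z] {Y : Type}
    [NormedAddCommGroup Y] [NormedSpace ℝ Y] [UniformConvexSpace Y] (T : StrongDual ℝ Z ≃L[ℝ] Y)
    {γ : Ordinal.{0}} (hγ : Ordinal.omega0 ^ Ordinal.omega0 ≤ γ) :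
    cSp (BoundedContinuousFunction (Set.Iic γ) ℝ) Z ≤ 1 := by
  simpa using c_le' (d := 1) one_pos fun c c0 hc => by
    simpa only [show 1 - 4 * ((1 - c) / 6) - 2 * ((1 - c) / 6) = c by ring] using
      emb3 T hγ (δ := (1 - c) / 6) (by linarith) (by linarith)

end Pool.Agent.H87.LdC
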