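import Mathlib

namespace Pool.Agent.H87.LeftRes

open Filter Topology

section
variable {B : Type} [NormedRing B] [NormedAlgebra ℂ B] [CompleteSpace B]

theorem allan (z x : B) (hz : ∀ y, z * y = y * z)
    (h : ∀ l : ℂ, ∃ u v, u * x + v * (z - algebraMap ℂ B l) = 1) : ∃ g, g * x = 1 := by
  by_contra hcon
  have hne : Ideal.span {x} ≠ ⊤ := by
    intro ht
    have : (1 : B) ∈ Ideal.span {x} := ht ▸ Submodule.mem_top
    obtain ⟨g, hg⟩ := Submodule.mem_span_singleton.1 this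
    exact hcon ⟨g, hg⟩
  obtain ⟨M, hM, hxM⟩ := Ideal.exists_le_maximal _ hne
  have hx : x ∈ M := hxM (Ideal.subset_span rfl)
  let N : Submodule ℂ B := M.restrictScalars ℂ
  have hNc : IsClosed (N : Set B) := Ideal.IsMaximal.isClosed
  have h1 : (1 : B) ∉ M := fun h => hM.ne_top ((Ideal.eq_top_iff_one M).2 h)
  have : Nontrivial (B ⧸ N) :=
    Submodule.Quotient.nontrivial_iff.2 (fun ht => h1 (show (1 : B) ∈ N from ht ▸ Submodule.mem_top))
  let T₀ : B →L[ℂ] B := ContinuousLinearMap.mul ℂ B z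
  have hT : N ≤ N.comap (T₀ : B →ₗ[ℂ] B) := fun y hy => M.mul_mem_left z hy
  let T : (B ⧸ N) →L[ℂ] (B ⧸ N) :=
    ⟨N.mapQ N T₀ hT, by
      refine (N.isQuotientMap_mkQ.continuous_iff).2 ?_
      exact continuous_quot_mk.comp T₀.continuous⟩
  have hTa : ∀ y : B, T (Submodule.Quotient.mk y) = Submodule.Quotient.mk (z * y) := fun y => rfl
  obtain ⟨l, hl⟩ := spectrum.nonempty T
  apply hl
  obtain ⟨u, v, huv⟩ := h l
  have hw : ∀ y : B, (algebraMap ℂ _ l - T) (Submodule.Quotient.mk y) =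
      Submodule.Quotient.mk (-((z - algebraMap ℂ B l) * y)) := by
    intro y
    simp only [sub_apply, hTa, Algebra.algebraMap_eq_smul_one, smul_apply,
      one_apply_eq_self, ← Submodule.Quotient.mk_smul, ← Submodule.Quotient.mk_sub]
    congr 1
    rw [sub_mul, smul_mul_assoc, one_mul]; abel
  have hc : ∀ y, (z - algebraMap ℂ B l) * y = y * (z - algebraMap ℂ B l) := fun y => by
    rw [sub_mul, mul_sub, hz, Algebra.commutes]
  show IsUnit (algebraMap ℂ _ l - T)
  rw [ContinuousLinearMap.isUnit_iff_bijective]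
  constructor
  · refine (injective_iff_map_eq_zero _).2 fun q hq => ?_
    obtain ⟨y, rfl⟩ := Submodule.Quotient.mk_surjective N q
    rw [hw, Submodule.Quotient.mk_eq_zero, neg_mem_iff] at hq
    rw [Submodule.Quotient.mk_eq_zero]
    let M' : Ideal B :=
      { carrier := {y | (z - algebraMap ℂ B l) * y ∈ M}
        add_mem' := fun {a b} ha hb => by
          simp only [Set.mem_ofPred_eq, mul_add]; exact M.add_mem ha hb
        zero_mem' := by simp
        smul_mem' := fun c a ha => by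
          simp only [Set.mem_ofPred_eq, smul_eq_mul]
          rw [← mul_assoc, hc, mul_assoc]; exact M.mul_mem_left c ha }
    have hle : M ≤ M' := fun a ha => M.mul_mem_left _ ha
    have hne' : M' ≠ ⊤ := by
      intro ht
      have h2 : (1 : B) ∈ M' := ht ▸ Submodule.mem_top
      have h3 : z - algebraMap ℂ B l ∈ M := by simpa [M'] using h2
      exact h1 (huv ▸ M.add_mem (M.mul_mem_left u hx) (M.mul_mem_left v h3))
    have := hM.eq_of_le hne' hle
    show y ∈ M
    rw [this]; exact hq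
  · intro q
    obtain ⟨y, rfl⟩ := Submodule.Quotient.mk_surjective N q
    refine ⟨Submodule.Quotient.mk (-(y * v)), ?_⟩
    rw [hw, Submodule.Quotient.eq]
    have : -((z - algebraMap ℂ B l) * -(y * v)) - y = -(y * u * x) := by
      rw [mul_neg, neg_neg, hc]
      calc y * v * (z - algebraMap ℂ B l) - y
          = y * v * (z - algebraMap ℂ B l) - y * (u * x + v * (z - algebraMap ℂ B l)) := by
            rw [huv, mul_one]
        _ = -(y * u * x) := by noncomm_ring
    rw [this]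
    exact N.neg_mem (M.mul_mem_left _ hx)

omit [CompleteSpace B] in
theorem geom (z x : B) (l : ℂ) (hl0 : l ≠ 0) (hs : Summable fun n : ℕ => (l⁻¹ • z) ^ n) :
    ∃ u v, u * x + v * (z - algebraMap ℂ B l) = 1 := by
  refine ⟨0, -(l⁻¹ • ∑' n : ℕ, (l⁻¹ • z) ^ n), ?_⟩
  rw [zero_mul, zero_add, ← hs.tsum_pow_mul_one_sub, neg_mul, smul_mul_assoc, ← mul_smul_comm,
    ← mul_neg]
  congr 1
  rw [smul_sub, Algebra.algebraMap_eq_smul_one, smul_smul, inv_mul_cancel₀ hl0, one_smul]
  abel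

omit [CompleteSpace B] in
theorem path [HasSummableGeomSeries B] (a z : B)
    (h : ∀ t ∈ Set.Icc (0:ℝ) 1, ∃ g, g * (a - (t : ℂ) • z) = 1) :
    ∃ U : Bˣ, a - z = U * a := by
  have := isPreconnected_Icc.induction₂' (s := Set.Icc (0:ℝ) 1)
    (fun s t => ∃ U : Bˣ, a - (t : ℂ) • z = U * (a - (s : ℂ) • z)) ?_ ?_
    (x := 0) (y := 1) (by simp) (by simp)
  · simpa using this
  · intro s hs
    obtain ⟨g, hg⟩ := h s hs
    have hc : Continuous fun t : ℝ => 1 + ((s : ℂ) - t) • (z * g) := by fun_prop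
    have h1 : ∀ᶠ t : ℝ in 𝓝 s, IsUnit (1 + ((s : ℂ) - t) • (z * g)) :=
      hc.continuousAt.eventually (Units.isOpen.mem_nhds (by simp))
    filter_upwards [nhdsWithin_le_nhds h1] with t ht
    obtain ⟨U, hU⟩ := ht
    have h2 : a - (t : ℂ) • z = U * (a - (s : ℂ) • z) := by
      rw [hU, add_mul, one_mul, smul_mul_assoc, mul_assoc, hg, mul_one, sub_smul]; abel
    exact ⟨⟨U, h2⟩, U⁻¹, by rw [h2]; simp⟩
  · rintro x y w - - - ⟨U, hU⟩ ⟨V, hV⟩
    exact ⟨V * U, by rw [hV, hU]; simp [mul_assoc]⟩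
end

variable {A : Type} [NormedRing A] [NormedAlgebra ℂ A] [CompleteSpace A]

abbrev D (r : ℝ) := Metric.closedBall (0 : ℂ) r

noncomputable def Z (A : Type) [NormedRing A] [NormedAlgebra ℂ A] (r : ℝ) : C(D r, A) :=
  ⟨fun w => algebraMap ℂ A w, by fun_prop⟩

noncomputable def P (A : Type) [NormedRing A] [NormedAlgebra ℂ A] (r : ℝ) :
    Subalgebra ℂ C(D r, A) :=
  (Submodule.span ℂ {f | ∃ (k : ℕ) (c : A), f = Z A r ^ k * ContinuousMap.const _ c}).toSubalgebra
    (Submodule.subset_span ⟨0, 1, by ext; simp⟩)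
    (by
      intro x y hx hy
      induction hx, hy using Submodule.span_induction₂ with
      | mem_mem x y hx hy =>
        obtain ⟨k, c, rfl⟩ := hx
        obtain ⟨l, d, rfl⟩ := hy
        refine Submodule.subset_span ⟨k + l, c * d, ?_⟩
        ext w
        simp only [Z, ContinuousMap.mul_apply, ContinuousMap.pow_apply, ContinuousMap.coe_mk,
          ContinuousMap.const_apply, ← map_pow, ← Algebra.smul_def, smul_mul_assoc,
          mul_smul_comm, smul_smul, pow_add]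
        rw [mul_comm]
      | zero_left y hy => simp
      | zero_right x hx => simp
      | add_left x y z _ _ _ h1 h2 => rw [add_mul]; exact Submodule.add_mem _ h1 h2
      | add_right x y z _ _ _ h1 h2 => rw [mul_add]; exact Submodule.add_mem _ h1 h2
      | smul_left r x y _ _ h => rw [smul_mul_assoc]; exact Submodule.smul_mem _ _ h
      | smul_right r x y _ _ h => rw [mul_smul_comm]; exact Submodule.smul_mem _ _ h)

omit [CompleteSpace A] in
lemma P_mod (r : ℝ) (a : A) (f : C(D r, A)) (hf : f ∈ P A r) :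
    ∃ Φ : A, ∀ w : D r, ∃ h, Φ = f w + (a - algebraMap ℂ A w) * h := by
  have hf' : f ∈ Submodule.span ℂ
    {f : C(D r, A) | ∃ (k : ℕ) (c : A), f = Z A r ^ k * ContinuousMap.const _ c} := hf
  clear hf
  induction hf' using Submodule.span_induction with
  | mem x hx =>
    obtain ⟨k, c, rfl⟩ := hx
    refine ⟨a ^ k * c, fun w => ?_⟩
    have hc : Commute a (algebraMap ℂ A w) := (Algebra.commutes _ _).symm
    refine ⟨(∑ i ∈ Finset.range k, a ^ i * (algebraMap ℂ A w) ^ (k - 1 - i)) * c, ?_⟩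
    rw [← mul_assoc, hc.mul_geom_sum₂]
    simp [Z, sub_mul]
  | zero => exact ⟨0, fun w => ⟨0, by simp⟩⟩
  | add x y _ _ h1 h2 =>
    obtain ⟨Φ, h1⟩ := h1
    obtain ⟨Ψ, h2⟩ := h2
    refine ⟨Φ + Ψ, fun w => ?_⟩
    obtain ⟨h, h1⟩ := h1 w
    obtain ⟨k, h2⟩ := h2 w
    exact ⟨h + k, by rw [h1, h2, mul_add, ContinuousMap.add_apply]; abel⟩
  | smul t x _ h1 =>
    obtain ⟨Φ, h1⟩ := h1
    refine ⟨t • Φ, fun w => ?_⟩
    obtain ⟨h, h1⟩ := h1 w
    exact ⟨t • h, by rw [h1, smul_add, mul_smul_comm, ContinuousMap.smul_apply]⟩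

theorem key (a : A) (r : ℝ) (hr0 : 0 ≤ r)
    (h : ∀ z : ℂ, ‖z‖ ≤ r → ∃ b : A, b * (a - algebraMap ℂ A z) = 1) :
    ∃ b : A, b * a = 1 ∧ ∀ z : ℂ, ‖z‖ ≤ r → IsUnit (1 - z • b) := by
  let B := (P A r).topologicalClosure
  have : CompleteSpace B := (P A r).isClosed_topologicalClosure.completeSpace_coe
  have hconst : ∀ c : A, ContinuousMap.const (D r) c ∈ B := fun c =>
    (P A r).le_topologicalClosure (Submodule.subset_span ⟨0, c, by simp⟩)
  have hZ : Z A r ∈ B :=
    (P A r).le_topologicalClosure (Submodule.subset_span ⟨1, 1, by ext; simp⟩)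
  let z : B := ⟨_, hZ⟩
  let k : A → B := fun c => ⟨_, hconst c⟩
  have hz : ∀ y : B, z * y = y * z := fun y => by
    ext w; exact Algebra.commutes (w : ℂ) (y.1 w)
  have hleft : ∀ t ∈ Set.Icc (0:ℝ) 1, ∃ g, g * (k a - (t : ℂ) • z) = 1 := by
    intro t ht
    refine allan z _ hz fun l => ?_
    by_cases hl : ‖l‖ ≤ r
    · obtain ⟨c, hc⟩ := h (t * l) (by
        rw [norm_mul, Complex.norm_real, Real.norm_of_nonneg ht.1]
        nlinarith [ht.1, ht.2, norm_nonneg l])
      refine ⟨k c, (t : ℂ) • k c, ?_⟩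
      ext w
      show c * (a - (t : ℂ) • algebraMap ℂ A w) +
        ((t : ℂ) • c) * (algebraMap ℂ A w - algebraMap ℂ A l) = 1
      rw [← hc]
      simp only [Algebra.algebraMap_eq_smul_one, mul_sub, mul_smul_comm, smul_mul_assoc, mul_one,
        smul_smul]
      rw [mul_comm (w : ℂ), mul_comm l]; abel
    · push Not at hl
      have hl0 : l ≠ 0 := by
        intro h0; rw [h0, norm_zero] at hl; linarith
      have hs : Summable fun n : ℕ => (l⁻¹ • z) ^ n := by
        refine Summable.of_norm_bounded (g := fun n : ℕ => ‖(1 : A)‖ * (r / ‖l‖) ^ n)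
          ((summable_geometric_of_lt_one (by positivity)
            ((div_lt_one (by linarith)).2 hl)).mul_left _) fun n => ?_
        show ‖(((l⁻¹ • z) ^ n : B) : C(D r, A))‖ ≤ _
        refine (ContinuousMap.norm_le _ (by positivity)).2 fun w => ?_
        have : (((l⁻¹ • z) ^ n : B) : C(D r, A)) w = (l⁻¹ * w) ^ n • (1 : A) := by
          simp [z, Z, Algebra.algebraMap_eq_smul_one, smul_smul, smul_pow, mul_pow]
        rw [this, norm_smul, mul_comm, norm_pow, norm_mul, norm_inv, inv_mul_eq_div]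
        have hw : ‖(w : ℂ)‖ ≤ r := mem_closedBall_zero_iff.1 w.2
        gcongr
      exact geom z _ l hl0 hs
  obtain ⟨U, hU⟩ := path (k a) z hleft
  obtain ⟨b₀, hb₀⟩ := h 0 (by simpa using hr0)
  rw [map_zero, sub_zero] at hb₀
  set q := 1 - a * b₀ with hq
  have hqa : q * a = 0 := by rw [hq, sub_mul, mul_assoc, hb₀]; simp
  have hcont : Continuous fun f : C(D r, A) =>
      1 + (f - (U : B).1) * ContinuousMap.const _ q * ((U⁻¹ : Bˣ) : B).1 := by fun_prop
  have hopen := Units.isOpen.preimage hcont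
  obtain ⟨f, hf1, hf2⟩ := mem_closure_iff.1 (U : B).2 _ hopen (by simp)
  obtain ⟨Φ, hΦ⟩ := P_mod r a f hf2
  have hV : ∀ w : D r, IsUnit ((a - algebraMap ℂ A w) * b₀ + Φ * q) := by
    intro w
    obtain ⟨h, hh⟩ := hΦ w
    have hUa : (U : B).1 w * a = a - algebraMap ℂ A w :=
      (congrArg (fun y : B => y.1 w) hU).symm
    have hU1 : ((U⁻¹ : Bˣ) : B).1 w * (U : B).1 w = 1 :=
      congrArg (fun y : B => y.1 w) U.inv_mul
    have hU2 : (U : B).1 w * ((U⁻¹ : Bˣ) : B).1 w = 1 :=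
      congrArg (fun y : B => y.1 w) U.mul_inv
    have hUu : IsUnit ((U : B).1 w) := ⟨⟨_, _, hU2, hU1⟩, rfl⟩
    have h1 : IsUnit (1 + (f w - (U : B).1 w) * q * ((U⁻¹ : Bˣ) : B).1 w) :=
      IsUnit.map (Pi.evalRingHom (fun _ : D r => A) w |>.comp ContinuousMap.coeFnRingHom) hf1
    have h2 : IsUnit (1 + a * h * q) := by
      refine ⟨⟨1 + a * h * q, 1 - a * h * q, ?_, ?_⟩, rfl⟩
      · calc (1 + a * h * q) * (1 - a * h * q) = 1 - a * h * (q * a) * h * q := by noncomm_ring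
          _ = 1 := by rw [hqa]; simp
      · calc (1 - a * h * q) * (1 + a * h * q) = 1 - a * h * (q * a) * h * q := by noncomm_ring
          _ = 1 := by rw [hqa]; simp
    have h3 := (h1.mul hUu).mul h2
    convert h3 using 1
    set u := (U : B).1 w
    set v := ((U⁻¹ : Bˣ) : B).1 w
    have e1 : (1 + (f w - u) * q * v) * u = u + (f w - u) * q := by
      rw [add_mul, one_mul, mul_assoc _ v, hU1, mul_one]
    have e2 : (u + (f w - u) * q) * (1 + a * h * q) =
        u + (f w - u) * q + (u * a) * h * q + (f w - u) * (q * a) * h * q := by noncomm_ring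
    rw [e1, e2, hqa, hh, ← hUa, hq]
    noncomm_ring
  obtain ⟨V, hV0⟩ := hV ⟨0, by simpa using hr0⟩
  simp only [map_zero, sub_zero] at hV0
  have hVa : (V : A) * a = a := by
    rw [hV0, add_mul, mul_assoc, mul_assoc, hb₀, hqa]; simp
  refine ⟨b₀ * (V⁻¹ : Aˣ), ?_, fun w hw => ?_⟩
  · rw [mul_assoc, ← hb₀]; congr 1
    rw [Units.inv_mul_eq_iff_eq_mul, hVa]
  · have := (hV ⟨w, by simpa using hw⟩).mul (V⁻¹).isUnit
    convert this using 1
    have e : (a - algebraMap ℂ A w) * b₀ + Φ * q = V - w • b₀ := by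
      rw [hV0, sub_mul, ← Algebra.smul_def]; abel
    rw [e, sub_mul, Units.mul_inv, smul_mul_assoc]

theorem main (a : A) (h : ∀ z : ℂ, ‖z‖ < 1 → ∃ b : A, b * (a - algebraMap ℂ A z) = 1)
    (K : Set ℂ) (hK : IsCompact K) (hK1 : K ⊆ Metric.ball (0 : ℂ) 1) :
        ∃ U : Set ℂ, IsOpen U ∧ K ⊆ U ∧
          ∃ g : ℂ → A, DifferentiableOn ℂ g U ∧
            (∀ z ∈ K, g z * (a - algebraMap ℂ A z) = 1) ∧
            (∀ z ∈ K, ∀ w ∈ K, g z - g w = (z - w) • (g z * g w)) := by
  obtain ⟨r, hr0, hr1, hr⟩ : ∃ r : ℝ, 0 ≤ r ∧ r < 1 ∧ ∀ z ∈ K, ‖z‖ ≤ r := by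
    rcases K.eq_empty_or_nonempty with rfl | hne
    · exact ⟨0, le_rfl, one_pos, by simp⟩
    · obtain ⟨z, hz, hmax⟩ := hK.exists_isMaxOn hne continuous_norm.continuousOn
      exact ⟨‖z‖, norm_nonneg _, by simpa using hK1 hz, fun w hw => hmax hw⟩
  obtain ⟨b, hb, hu⟩ := key a r hr0 fun z hz => h z (hz.trans_lt hr1)
  have hc : Continuous fun z : ℂ => 1 - z • b := by fun_prop
  refine ⟨{z | IsUnit (1 - z • b)}, Units.isOpen.preimage hc, fun z hz => hu z (hr z hz),
    fun z => Ring.inverse (1 - z • b) * b, ?_, ?_, ?_⟩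
  · intro z hz
    refine DifferentiableAt.differentiableWithinAt ?_
    refine DifferentiableAt.mul_const ?_ b
    exact (differentiableAt_inverse hz).comp z (f := fun z : ℂ => 1 - z • b) (by fun_prop)
  · intro z hz
    rw [mul_assoc, mul_sub, hb, ← Algebra.commutes, ← Algebra.smul_def,
      Ring.inverse_mul_cancel _ (hu z (hr z hz))]
  · intro z hz w hw
    obtain ⟨u, hu'⟩ := hu z (hr z hz)
    obtain ⟨v, hv'⟩ := hu w (hr w hw)
    simp only [← hu', ← hv', Ring.inverse_unit]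
    have e : (v : A) - u = (z - w) • b := by rw [hu', hv', sub_smul]; abel
    calc (u⁻¹ : Aˣ) * b - (v⁻¹ : Aˣ) * b = (u⁻¹ : Aˣ) * ((v : A) - u) * (v⁻¹ : Aˣ) * b := by
          rw [mul_sub, sub_mul, sub_mul]; simp [mul_assoc]
      _ = _ := by rw [e]; simp [mul_assoc]

end Pool.Agent.H87.LeftRes
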