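import Mathlib

namespace Pool.Agent.H87.LipSC

open Filter Topology Set Classical
open scoped ENNReal

lemma sup_lip {ι : Type} [Nonempty ι] {a b : ι → ℝ} {d B : ℝ} (ha : ∀ i, a i ≤ B)
    (h : ∀ i, |a i - b i| ≤ d) : |(⨆ i, a i) - ⨆ i, b i| ≤ d := by
  have h1 : BddAbove (range a) := ⟨B, forall_mem_range.2 ha⟩
  have h2 : BddAbove (range b) :=
    ⟨B + d, forall_mem_range.2 fun i => by linarith [ha i, (abs_le.1 (h i)).1]⟩
  have h3 : ⨆ i, a i ≤ (⨆ i, b i) + d :=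
    ciSup_le fun i => by linarith [le_ciSup h2 i, (abs_le.1 (h i)).2]
  have h4 : ⨆ i, b i ≤ (⨆ i, a i) + d :=
    ciSup_le fun i => by linarith [le_ciSup h1 i, (abs_le.1 (h i)).1]
  exact abs_le.2 ⟨by linarith, by linarith⟩

lemma sup_one {ι : Type} (a : ι → ℝ) (i : ι) (h0 : 0 ≤ a i) (h : ∀ j ≠ i, a j = 0) :
    ⨆ j, a j = a i := by
  have : ∀ j, a j ≤ a i := fun j => by
    by_cases e : j = i
    exacts [e ▸ le_rfl, h j e ▸ h0]
  have _ : Nonempty ι := ⟨i⟩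
  exact le_antisymm (ciSup_le this) (le_ciSup ⟨_, forall_mem_range.2 this⟩ i)

theorem emb {X P I : Type} [NormedAddCommGroup X] [Countable I] [Nonempty I] [Nonempty P]
    (ι : P → ℝ) (hι : ι.Injective) (Ψ : I → X → P → ℝ) (h0 : ∀ i p, Ψ i 0 p = 0)
    (hL : ∀ i x y p, |Ψ i x p - Ψ i y p| ≤ 3 * ‖x - y‖) (D : Set X) (hD : Dense D)
    (hfin : ∀ x ∈ D, ∀ i, {p | Ψ i x p ≠ 0}.Finite)
    (hlow : ∀ x y d, (∀ i p, |Ψ i x p - Ψ i y p| ≤ d) → ‖x - y‖ ≤ 3 * d) :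
    ∃ f : X → lp (fun _ : ℕ => ℝ) ⊤, ∃ K₁ K₂ : NNReal,
      LipschitzWith K₁ f ∧ AntilipschitzWith K₂ f := by
  obtain ⟨g, hg⟩ := exists_surjective_nat (I × ℚ × ℚ × Bool)
  set a : I × ℚ × ℚ × Bool → X → P → ℝ := fun k x p =>
    if ι p ∈ Ioo (k.2.1 : ℝ) k.2.2.1 then max ((if k.2.2.2 then 1 else -1) * Ψ k.1 x p) 0 else 0
    with ha
  have h1 : ∀ k x y p, |a k x p - a k y p| ≤ 3 * ‖x - y‖ := fun k x y p => by
    simp only [ha]
    split_ifs
    · exact (abs_max_sub_max_le_abs _ _ _).trans (by simpa using hL _ _ _ _)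
    · refine (abs_max_sub_max_le_abs _ _ _).trans ?_
      rw [← mul_sub, abs_mul]; simpa using hL _ _ _ _
    all_goals simp
  have h2 : ∀ k p, a k 0 p = 0 := fun k p => by simp [ha, h0]
  have h3 : ∀ k x y, |(⨆ p, a k x p) - ⨆ p, a k y p| ≤ 3 * ‖x - y‖ := fun k x y =>
    sup_lip (B := 3 * ‖x‖) (fun p => by simpa [h2] using (abs_le.1 (h1 k x 0 p)).2) (h1 k x y)
  set f : X → lp (fun _ : ℕ => ℝ) ⊤ := fun x => ⟨fun n => ⨆ p, a (g n) x p, memℓp_infty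
    ⟨3 * ‖x‖, forall_mem_range.2 fun n => by simpa [h2] using h3 (g n) x 0⟩⟩ with hf
  have h4 : LipschitzWith 3 f := LipschitzWith.of_dist_le_mul fun x y => by
    rw [dist_eq_norm, dist_eq_norm]
    exact lp.norm_le_of_forall_le (by positivity) fun n => h3 (g n) x y
  refine ⟨f, 3, 6, h4, AntilipschitzWith.of_le_mul_dist fun x y => ?_⟩
  have hc := h4.continuous
  refine (hD.prod hD).induction (P := fun z : X × X => dist z.1 z.2 ≤ (6 : NNReal) * dist (f z.1)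
    (f z.2)) ?_ (isClosed_le (by fun_prop) (by fun_prop)) (x, y)
  rintro ⟨x, y⟩ ⟨hx, hy⟩
  rw [dist_eq_norm, dist_eq_norm]
  refine (hlow x y (2 * ‖f x - f y‖) fun i p => ?_).trans (le_of_eq (by push_cast; ring))
  obtain ⟨l, u, h5, h6⟩ := mem_nhds_iff_exists_Ioo_subset.1 ((((((hfin x hx i).union
    (hfin y hy i)).image ι).sdiff (t := {ι p})).isClosed.isOpen_compl).mem_nhds (x := ι p) (by simp))
  obtain ⟨q, hq1, hq2⟩ := exists_rat_btwn h5.1
  obtain ⟨r, hr1, hr2⟩ := exists_rat_btwn h5.2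
  have h7 : ∀ b : Bool, |max ((if b then 1 else -1) * Ψ i x p) 0 -
      max ((if b then 1 else -1) * Ψ i y p) 0| ≤ ‖f x - f y‖ := fun b => by
    obtain ⟨n, hn⟩ := hg (i, q, r, b)
    have h8 : ∀ z, (∀ p', Ψ i z p' ≠ 0 → Ψ i x p' ≠ 0 ∨ Ψ i y p' ≠ 0) →
        f z n = max ((if b then 1 else -1) * Ψ i z p) 0 := fun z hz => by
      have : a (i, q, r, b) z p = max ((if b then 1 else -1) * Ψ i z p) 0 := if_pos ⟨hq2, hr1⟩
      rw [← this]
      refine (congrArg (fun k => ⨆ p, a k z p) hn).trans (sup_one _ p (this ▸ le_max_right _ _)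
        fun j hj => ?_)
      by_cases h9 : ι j ∈ Ioo (q : ℝ) r
      · have : Ψ i z j = 0 := by_contra fun h => h6 ⟨hq1.trans h9.1, h9.2.trans hr2⟩
          ⟨⟨j, hz j h, rfl⟩, fun e => hj (hι e)⟩
        simp [ha, this]
      · exact if_neg h9
    rw [← h8 x fun _ => .inl, ← h8 y fun _ => .inr]
    exact lp.norm_apply_le_norm (by simp) (f x - f y) n
  have b1 := abs_le.1 (h7 true)
  have b2 := abs_le.1 (h7 false)
  simp only [if_true, one_mul, Bool.false_eq_true, if_false, neg_mul] at b1 b2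
  have b3 := max_zero_sub_max_neg_zero_eq_self (Ψ i x p)
  have b4 := max_zero_sub_max_neg_zero_eq_self (Ψ i y p)
  exact abs_le.2 ⟨by linarith [b1.1, b2.2], by linarith [b1.2, b2.1]⟩

abbrev Hs := ℕ → Option (Set ℕ × Bool)
def dm (h : Hs) : Set ℕ := {n | h n ≠ none}
noncomputable def res (h : Hs) (P : Set ℕ) : Hs := fun m => if m ∈ P then h m else none

structure Good (h : Hs) : Prop where
  sub : ∀ {n P b}, h n = some (P, b) → P ⊆ dm h
  irr : ∀ {n P b}, h n = some (P, b) → n ∉ P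
  tri : ∀ {n m P b Q c}, h n = some (P, b) → h m = some (Q, c) → n ≠ m → n ∈ Q ∨ m ∈ P

structure Ext (h k : Hs) : Prop where
  eq : ∀ {n}, n ∈ dm h → k n = h n
  new : ∀ {n P b}, n ∉ dm h → k n = some (P, b) → dm h ⊆ P

abbrev L := Hs × Bool × Option ℕ

def E (h : Hs) : Set L :=
  {l | ∃ n P, h n = some (P, l.2.1) ∧ l.1 = res h P ∧ (l.2.2 = none ∨ l.2.2 = some n)}

lemma mem_dm {h : Hs} {n : ℕ} {x : Set ℕ × Bool} (e : h n = some x) : n ∈ dm h := by simp [dm, e]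

lemma Ext.dm {h k : Hs} (e : Ext h k) : dm h ⊆ dm k := fun n hn => by
  have := e.eq hn
  simp only [LipSC.dm, mem_ofPred_eq] at hn ⊢
  rwa [this]

lemma Ext.rfl {h : Hs} : Ext h h := ⟨fun _ => Eq.refl _, fun hn e => absurd (mem_dm e) hn⟩

lemma Ext.trans {h k l : Hs} (a : Ext h k) (b : Ext k l) : Ext h l :=
  ⟨fun hn => (b.eq (a.dm hn)).trans (a.eq hn), fun {n P c} hn e => by
    by_cases h1 : n ∈ LipSC.dm k
    exacts [a.new hn ((b.eq h1).symm.trans e), a.dm.trans (b.new h1 e)]⟩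

lemma Ext.res {h k : Hs} (a : Ext h k) {P : Set ℕ} (hP : P ⊆ LipSC.dm h) : res k P = res h P :=
  funext fun m => by
    unfold LipSC.res
    split_ifs with hm
    exacts [a.eq (hP hm), Eq.refl _]

lemma dm_res {h : Hs} {P : Set ℕ} (hP : P ⊆ dm h) : dm (res h P) = P :=
  Set.ext fun m => by
    by_cases hm : m ∈ P
    · simpa [dm, res, hm] using hP hm
    · simp [dm, res, hm]

lemma E_mono {h k : Hs} (g : Good h) (a : Ext h k) : E h ⊆ E k := by
  rintro l ⟨n, P, h1, h2, h3⟩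
  exact ⟨n, P, (a.eq (mem_dm h1)).trans h1, h2.trans (a.res (g.sub h1)).symm, h3⟩

lemma E_new {h k : Hs} (g : Good h) (a : Ext h k) {l : L} (h1 : l ∈ E k) (h2 : l ∉ E h) :
    Ext h l.1 := by
  obtain ⟨n, P, h3, h4, h5⟩ := h1
  have hn : n ∉ dm h := fun hn => h2 ⟨n, P, (a.eq hn).symm.trans h3,
    h4.trans (a.res (g.sub ((a.eq hn).symm.trans h3))), h5⟩
  rw [h4]
  refine ⟨fun hm => (if_pos (a.new hn h3 hm)).trans (a.eq hm), fun {m Q c} hm e => a.new hm (b := c) ?_⟩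
  unfold res at e
  split_ifs at e
  exact e

noncomputable def ex (s : Hs) (n : ℕ) (i : Bool) : Hs := Function.update s n (some (dm s, i))

lemma dm_ex (s : Hs) (n : ℕ) (i : Bool) : dm (ex s n i) = insert n (dm s) :=
  Set.ext fun m => by
    by_cases h : m = n <;> simp [dm, ex, h]

lemma ex_cases {s : Hs} {n m : ℕ} {i b : Bool} {P : Set ℕ} (e : ex s n i m = some (P, b)) :
    (m = n ∧ P = dm s ∧ b = i) ∨ (m ≠ n ∧ s m = some (P, b)) := by
  by_cases h : m = n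
  · subst h
    simp only [ex, Function.update_self, Option.some.injEq, Prod.mk.injEq] at e
    exact .inl ⟨rfl, e.1.symm, e.2.symm⟩
  · exact .inr ⟨h, (Function.update_of_ne h _ _).symm.trans e⟩

lemma ext_ex {s : Hs} {n : ℕ} (hn : n ∉ dm s) (i : Bool) : Ext s (ex s n i) :=
  ⟨fun hm => Function.update_of_ne (ne_of_mem_of_not_mem hm hn) _ _, fun hm e => by
    rcases ex_cases e with ⟨-, h, -⟩ | ⟨-, h⟩
    exacts [h.ge, absurd (mem_dm h) hm]⟩

lemma good_ex {s : Hs} (g : Good s) {n : ℕ} (hn : n ∉ dm s) (i : Bool) : Good (ex s n i) := by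
  refine ⟨fun e => ?_, fun e => ?_, fun e e' hne => ?_⟩
  · rw [dm_ex]
    rcases ex_cases e with ⟨-, h, -⟩ | ⟨-, h⟩
    exacts [h ▸ subset_insert _ _, (g.sub h).trans (subset_insert _ _)]
  · rcases ex_cases e with ⟨rfl, rfl, -⟩ | ⟨-, h⟩
    exacts [hn, g.irr h]
  · rcases ex_cases e with ⟨rfl, rfl, -⟩ | ⟨-, h⟩ <;> rcases ex_cases e' with ⟨rfl, rfl, -⟩ | ⟨-, h'⟩
    exacts [absurd rfl hne, .inr (mem_dm h'), .inl (mem_dm h), g.tri h h' hne]

lemma E_ex {s : Hs} (g : Good s) {n : ℕ} (hn : n ∉ dm s) (i : Bool) {l : L}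
    (hl : l ≠ (s, i, some n)) : l ∈ E (ex s n i) ↔ l ∈ E s ∨ l = (s, i, none) := by
  have hr : res (ex s n i) (dm s) = s := ((ext_ex hn i).res subset_rfl).trans (funext fun m => by
    by_cases h : s m = none <;> simp [res, dm, h])
  constructor
  · rintro ⟨m, P, h1, h2, h3⟩
    rcases ex_cases h1 with ⟨rfl, rfl, h4⟩ | ⟨-, h4⟩
    · rcases h3 with h3 | h3
      exacts [.inr (Prod.ext (h2.trans hr) (Prod.ext h4 h3)),
        absurd (Prod.ext (h2.trans hr) (Prod.ext h4 h3)) hl]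
    · exact .inl ⟨m, P, h4, h2.trans ((ext_ex hn i).res (g.sub h4)), h3⟩
  · rintro (h | rfl)
    exacts [E_mono g (ext_ex hn i) h, ⟨n, dm s, Function.update_self _ _ _, hr.symm, .inl rfl⟩]

lemma ex_disj {s k : Hs} {n m : ℕ} (hn : n ∉ dm s) (hm : m ∉ dm s) {i : Bool}
    (a : Ext (ex s n i) k) (b : Ext (ex s m i) k) : n = m := by
  by_contra hne
  refine hn (a.new (n := m) (b := i) (by rw [dm_ex]; simp [hm, Ne.symm hne])
    ((b.eq (by simp [dm_ex])).trans (Function.update_self _ _ _)) (by simp [dm_ex]))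

lemma not_mem_E {s : Hs} (g : Good s) (i : Bool) (o : Option ℕ) : (s, i, o) ∉ E s := by
  rintro ⟨n, P, h1, h2, -⟩
  have := dm_res (g.sub h1)
  rw [← show s = res s P from h2] at this
  exact g.irr h1 (this ▸ mem_dm h1)

lemma chain (r : ℕ → Hs) (g : ∀ k, Good (r k)) (a : ∀ k, Ext (r k) (r (k + 1))) :
    ∃ s, Good s ∧ (∀ k, Ext (r k) s) ∧ ∀ n ∈ dm s, ∃ k, n ∈ dm (r k) := by
  have h1 : ∀ k l, k ≤ l → Ext (r k) (r l) := fun k l h => by
    induction h with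
    | refl => exact .rfl
    | step _ ih => exact ih.trans (a _)
  set s : Hs := fun n => if h : ∃ k, n ∈ dm (r k) then r h.choose n else none with hs
  have h2 : ∀ k n, n ∈ dm (r k) → s n = r k n := fun k n hn => by
    have h : ∃ k, n ∈ dm (r k) := ⟨k, hn⟩
    refine (dif_pos h).trans ?_
    rcases le_total k h.choose with e | e
    exacts [(h1 _ _ e).eq hn, ((h1 _ _ e).eq h.choose_spec).symm]
  have h3 : ∀ n ∈ dm s, ∃ k, n ∈ dm (r k) := fun n hn => by_contra fun h => hn (dif_neg h)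
  have h4 : ∀ {n x}, s n = some x → ∀ l, ∃ k ≥ l, ∀ j ≥ k, r j n = some x := fun {n x} e l => by
    obtain ⟨k, hk⟩ := h3 n (mem_dm e)
    exact ⟨max k l, le_max_right _ _, fun j hj =>
      (h2 _ _ ((h1 _ _ ((le_max_left _ _).trans hj)).dm hk)).symm.trans e⟩
  have h5 : ∀ k, Ext (r k) s := fun k => ⟨h2 k _, fun hn e => by
    obtain ⟨j, hj, e⟩ := h4 e k
    exact (h1 k j hj).new hn (e j le_rfl)⟩
  refine ⟨s, ⟨fun e => ?_, fun e => ?_, fun e e' hne => ?_⟩, h5, h3⟩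
  · obtain ⟨j, -, e⟩ := h4 e 0
    exact ((g j).sub (e j le_rfl)).trans (h5 j).dm
  · obtain ⟨j, -, e⟩ := h4 e 0
    exact (g j).irr (e j le_rfl)
  · obtain ⟨j, -, e⟩ := h4 e 0
    obtain ⟨k, hk, e'⟩ := h4 e' j
    exact (g k).tri (e k hk) (e' k le_rfl) hne

theorem kurepa (μ : Hs → ℝ) (B : ℝ) (hB : ∀ h, Good h → μ h ≤ B)
    (hm : ∀ h k, Good h → Good k → Ext h k → μ h ≤ μ k) :
    ∃ (s : Hs) (n : ℕ → ℕ), Good s ∧ n.Injective ∧ (∀ j, n j ∉ dm s) ∧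
      ∀ j i, μ (ex s (n j) i) ≤ μ s + 1 / (j + 1) := by
  let St := {p : Hs × Finset ℕ // Good p.1 ∧ (dm p.1)ᶜ.Infinite ∧ Disjoint (p.2 : Set ℕ) (dm p.1)}
  have step : ∀ (p : St) (j : ℕ), ∃ (q : St) (n : ℕ), Ext p.1.1 q.1.1 ∧ n ∉ p.1.2 ∧
      q.1.2 = insert n p.1.2 ∧ ∀ u, Good u → (dm u)ᶜ.Infinite → Disjoint (p.1.2 : Set ℕ) (dm u) →
        Ext p.1.1 u → μ u ≤ μ q.1.1 + 1 / (j + 1) := by
    rintro ⟨⟨r, F⟩, h1, h2, h3⟩ j
    set U := {u | Good u ∧ (dm u)ᶜ.Infinite ∧ Disjoint (F : Set ℕ) (dm u) ∧ Ext r u}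
    obtain ⟨_, ⟨v, ⟨h4, h5, h6, h7⟩, rfl⟩, h8⟩ := exists_lt_of_lt_csSup
      (show (μ '' U).Nonempty from ⟨_, r, ⟨h1, h2, h3, .rfl⟩, rfl⟩)
      (show sSup (μ '' U) - 1 / (j + 1) < _ from sub_lt_self _ (by positivity))
    obtain ⟨n, h9, h10⟩ := h5.exists_notMem_finset F
    refine ⟨⟨(v, insert n F), h4, h5, by simpa using ⟨h9, h6⟩⟩, n, h7, h10, rfl,
      fun u a b c d => ?_⟩
    have : μ u ≤ sSup (μ '' U) :=
      le_csSup ⟨B, by rintro _ ⟨w, hw, rfl⟩; exact hB w hw.1⟩ ⟨u, ⟨a, b, c, d⟩, rfl⟩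
    linarith
  choose nx nn h1 h2 h3 h4 using step
  let st : ℕ → St := fun k => Nat.rec ⟨(fun _ => none, ∅), ⟨by simp, by simp, by simp⟩,
    by simpa [dm] using infinite_univ, by simp⟩ (fun j p => nx p j) k
  obtain ⟨s, g, a, b⟩ := chain (fun k => (st k).1.1) (fun k => (st k).2.1) fun k => h1 (st k) k
  have hF : Monotone fun k => (st k).1.2 := monotone_nat_of_le_succ fun k =>
    (Finset.subset_insert _ _).trans (h3 (st k) k).ge
  have hE : Monotone fun k => dm (st k).1.1 := monotone_nat_of_le_succ fun k => (h1 (st k) k).dm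
  have h5 : ∀ k, nn (st k) k ∈ (st (k + 1)).1.2 := fun k =>
    (h3 (st k) k).ge (Finset.mem_insert_self _ _)
  have h6 : ∀ k, ∀ m ∈ (st k).1.2, m ∉ dm s := fun k m hm hs => by
    obtain ⟨l, hl⟩ := b m hs
    exact disjoint_left.1 (st (max k l)).2.2.2 (hF (le_max_left k l) hm) (hE (le_max_right k l) hl)
  have h7 : (fun k => nn (st k) k).Injective := Function.Injective.of_lt_imp_ne fun k l hkl e =>
    h2 (st l) l (e ▸ hF hkl (h5 k))
  have h8 : ∀ j, nn (st j) j ∉ dm s := fun j => h6 (j + 1) _ (h5 j)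
  refine ⟨s, _, g, h7, h8, fun j i => (h4 (st j) j _ (good_ex g (h8 j) i) ?_ ?_
    ((a j).trans (ext_ex (h8 j) i))).trans ?_⟩
  · refine ((infinite_range_of_injective h7).sdiff (finite_singleton (nn (st j) j))).mono ?_
    rintro _ ⟨⟨k, rfl⟩, hk⟩
    rw [dm_ex]
    rintro (h | h)
    exacts [hk h, h8 k h]
  · rw [dm_ex, disjoint_left]
    rintro m hm (rfl | h)
    exacts [h2 _ _ hm, h6 j m hm h]
  · have := hm _ _ (st (j + 1)).2.1 g (a (j + 1))
    exact add_le_add_left this _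

end Pool.Agent.H87.LipSC
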