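import Pool.Agent.H87.LipSC1

namespace Pool.Agent.H87.LipSC

open Filter Topology Set Classical
open scoped ENNReal

abbrev T := {h // Good h} × Bool

noncomputable def χ (t : T) (l : L) : ℝ := if l ∈ E t.1.1 ∨ l = (t.1.1, t.2, none) then 1 else 0

lemma χ_bd (t : T) (l : L) : |χ t l| ≤ 1 := by unfold χ; split_ifs <;> simp

abbrev Z := lp (fun _ : L => ℝ) ∞

noncomputable def ez (t : T) : Z :=
  ⟨χ t, memℓp_infty ⟨1, by rintro _ ⟨l, rfl⟩; exact χ_bd t l⟩⟩

def X : Type := (Submodule.span ℝ (Set.range ez)).topologicalClosure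

noncomputable instance : NormedAddCommGroup X :=
  inferInstanceAs (NormedAddCommGroup (Submodule.span ℝ (Set.range ez)).topologicalClosure)
noncomputable instance : NormedSpace ℝ X :=
  inferInstanceAs (NormedSpace ℝ (Submodule.span ℝ (Set.range ez)).topologicalClosure)
instance : CompleteSpace X := (Submodule.isClosed_topologicalClosure _).completeSpace_coe

noncomputable def e (t : T) : X :=
  ⟨ez t, Submodule.le_topologicalClosure _ (Submodule.subset_span ⟨t, rfl⟩)⟩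

noncomputable def ev (l : L) : X →L[ℝ] ℝ :=
  (lp.evalCLM ℝ (fun _ : L => ℝ) ∞ l).comp
    (Submodule.span ℝ (Set.range ez)).topologicalClosure.subtypeL

@[simp] lemma ev_e (l : L) (t : T) : ev l (e t) = χ t l := rfl

lemma ev_le (l : L) (x : X) : |ev l x| ≤ ‖x‖ := lp.norm_apply_le_norm (by simp) x.1 l

lemma norm_le {x : X} {M : ℝ} (h : ∀ l, |ev l x| ≤ M) : ‖x‖ ≤ M :=
  lp.norm_le_of_forall_le' (f := x.1) M h

lemma dense : DenseRange (Finsupp.linearCombination ℝ e) := by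
  intro x
  refine closure_subtype.2 (closure_mono ?_ x.2)
  intro y hy
  rw [← Finsupp.range_linearCombination] at hy
  obtain ⟨φ, rfl⟩ := hy
  exact ⟨_, ⟨φ, rfl⟩, Finsupp.apply_linearCombination ℝ (Submodule.subtype _) _ φ⟩

lemma ev_lc (l : L) (f : T →₀ ℝ) :
    ev l (Finsupp.linearCombination ℝ e f) = ∑ t ∈ f.support, f t * χ t l := by
  simp [Finsupp.linearCombination_apply, Finsupp.sum]

lemma mem_E_some {h : Hs} {p : Hs × Bool} {n : ℕ} :
    (p.1, p.2, some n) ∈ E h ↔ ∃ P, h n = some (P, p.2) ∧ p.1 = res h P :=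
  ⟨fun ⟨m, P, h1, h2, h3⟩ => by
    obtain rfl : n = m := by simpa using h3
    exact ⟨P, h1, h2⟩, fun ⟨P, h1, h2⟩ => ⟨n, P, h1, h2, .inr rfl⟩⟩

lemma mem_E_none {h : Hs} {p : Hs × Bool} :
    (p.1, p.2, none) ∈ E h ↔ ∃ n, (p.1, p.2, some n) ∈ E h :=
  ⟨fun ⟨m, P, h1, h2, _⟩ => ⟨m, m, P, h1, h2, .inr rfl⟩,
    fun ⟨_, m, P, h1, h2, _⟩ => ⟨m, P, h1, h2, .inl rfl⟩⟩

lemma edge_sub (h : Hs) (n : ℕ) : {p : Hs × Bool | (p.1, p.2, some n) ∈ E h}.Subsingleton := by
  intro p hp q hq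
  obtain ⟨P, h1, h2⟩ := mem_E_some.1 hp
  obtain ⟨Q, h3, h4⟩ := mem_E_some.1 hq
  have := Prod.ext_iff.1 (Option.some.inj (h1.symm.trans h3))
  exact Prod.ext (h2.trans (by rw [h4, show P = Q from this.1])) this.2

lemma split_sub {h k : Hs} (gh : Good h) (gk : Good k) : {p : Hs × Bool | ∃ n m, n ≠ m ∧
    (p.1, p.2, some n) ∈ E h ∧ (p.1, p.2, some m) ∈ E k}.Subsingleton := by
  have key : ∀ (p q : Hs × Bool) n m P Q P' Q', n ≠ m → h n = some (P, p.2) → p.1 = res h P →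
      k m = some (Q, p.2) → p.1 = res k Q → q.1 = res h P' → q.1 = res k Q' → P' ⊆ dm h →
      Q' ⊆ dm k → n ∉ P' := by
    intro p q n m P Q P' Q' hne a1 a2 a3 a4 a5 a6 a7 a8 hn
    have e1 : P = Q := by rw [← dm_res (gh.sub a1), ← a2, a4, dm_res (gk.sub a3)]
    have e2 : P' = Q' := by rw [← dm_res a7, ← a5, a6, dm_res a8]
    subst e1 e2
    have e3 := congrFun (a5.symm.trans a6) n
    simp only [res, hn, if_true, a1] at e3
    exact (gk.tri e3.symm a3 hne).elim (gk.irr e3.symm) (gk.irr a3)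
  rintro p ⟨n, m, hne, hp, hp'⟩ q ⟨n', m', hne', hq, hq'⟩
  by_cases e : n = n'
  · exact edge_sub h n hp (e ▸ hq)
  obtain ⟨P, a1, a2⟩ := mem_E_some.1 hp
  obtain ⟨Q, a3, a4⟩ := mem_E_some.1 hp'
  obtain ⟨P', b1, b2⟩ := mem_E_some.1 hq
  obtain ⟨Q', b3, b4⟩ := mem_E_some.1 hq'
  exact ((gh.tri a1 b1 e).elim (key p q n m P Q P' Q' hne a1 a2 a3 a4 b2 b4 (gh.sub b1) (gk.sub b3))
    (key q p n' m' P' Q' P Q hne' b1 b2 b3 b4 a2 a4 (gh.sub a1) (gk.sub a3))).elim

noncomputable def Sg (a : ℕ → ℝ) : ℝ := (⨆ n, max (a n) 0) - ⨆ n, max (-a n) 0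

lemma Sg_lip {a b : ℕ → ℝ} {d B : ℝ} (ha : ∀ n, |a n| ≤ B) (h : ∀ n, |a n - b n| ≤ d) :
    |Sg a - Sg b| ≤ 2 * d := by
  have hB : 0 ≤ B := (abs_nonneg _).trans (ha 0)
  have h1 := abs_le.1 (sup_lip (a := fun n => max (a n) 0) (b := fun n => max (b n) 0) (B := B)
    (fun n => max_le (abs_le.1 (ha n)).2 hB) fun n => (abs_max_sub_max_le_abs _ _ _).trans (h n))
  have h2 := abs_le.1 (sup_lip (a := fun n => max (-a n) 0) (b := fun n => max (-b n) 0) (B := B)
    (fun n => max_le (neg_le.1 (abs_le.1 (ha n)).1) hB) fun n =>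
      (abs_max_sub_max_le_abs _ _ _).trans (by rw [neg_sub_neg, abs_sub_comm]; exact h n))
  unfold Sg
  exact abs_le.2 ⟨by linarith [h1.1, h2.2], by linarith [h1.2, h2.1]⟩

noncomputable def Ψ (i : Option ℕ) (x : X) (p : Hs × Bool) : ℝ :=
  ev (p.1, p.2, i) x - if i = none then Sg fun n => ev (p.1, p.2, some n) x else 0

theorem embeds : ∃ f : X → lp (fun _ : ℕ => ℝ) ⊤, ∃ K₁ K₂ : NNReal,
    LipschitzWith K₁ f ∧ AntilipschitzWith K₂ f := by
  obtain ⟨ι⟩ : Nonempty (Hs × Bool ↪ ℝ) := by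
    rw [← Cardinal.le_def]
    simp [Cardinal.mk_real, Cardinal.add_one_eq Cardinal.aleph0_le_continuum]
  have hd : ∀ l x y, |ev l x - ev l y| ≤ ‖x - y‖ := fun l x y => by rw [← map_sub]; exact ev_le _ _
  refine emb ι ι.2 Ψ (fun i p => by simp [Ψ, Sg]) (fun i x y p => ?_) _ dense ?_ fun x y d h => ?_
  · have h1 := abs_le.1 (hd (p.1, p.2, i) x y)
    have h2 := abs_le.1 (Sg_lip (fun n => ev_le (p.1, p.2, some n) x)
      fun n => hd (p.1, p.2, some n) x y)
    unfold Ψ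
    split_ifs <;> refine abs_le.2 ⟨?_, ?_⟩ <;> linarith [h1.1, h1.2, h2.1, h2.2]
  · rintro _ ⟨φ, rfl⟩ (_ | n)
    · refine (((φ.support.finite_toSet.image fun t => (t.1.1, t.2))).union
        ((φ.support ×ˢ φ.support).finite_toSet.biUnion
          fun t _ => (split_sub t.1.1.2 t.2.1.2).finite)).subset fun p hp => by_contra fun h => hp ?_
      simp only [mem_union, mem_image, mem_iUnion, not_or, not_exists, not_and, mem_ofPred_eq,
        Finset.mem_coe, Finset.mem_product] at h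
      obtain ⟨n, hn⟩ : ∃ n, ∀ t ∈ φ.support, ∀ m ≠ n, (p.1, p.2, some m) ∉ E t.1.1 := by
        by_cases h1 : ∃ t ∈ φ.support, ∃ n, (p.1, p.2, some n) ∈ E t.1.1
        · obtain ⟨t, ht, n, h1⟩ := h1
          exact ⟨n, fun u hu m hm h2 => h.2 (u, t) ⟨hu, ht⟩ m n hm h2 h1⟩
        · exact ⟨0, fun t ht m _ h2 => h1 ⟨t, ht, m, h2⟩⟩
      have h1 : ∀ m ≠ n, ev (p.1, p.2, some m) (Finsupp.linearCombination ℝ e φ) = 0 := fun m hm =>
        (ev_lc _ _).trans (Finset.sum_eq_zero fun t ht => by simp [χ, hn t ht m hm])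
      have h2 : ev (p.1, p.2, none) (Finsupp.linearCombination ℝ e φ) =
          ev (p.1, p.2, some n) (Finsupp.linearCombination ℝ e φ) := by
        rw [ev_lc, ev_lc]
        refine Finset.sum_congr rfl fun t ht => congrArg _ (if_congr ⟨?_, ?_⟩ rfl rfl)
        · rintro (h3 | h3)
          · obtain ⟨m, h3⟩ := mem_E_none.1 h3
            exact .inl ((by_contra fun h4 => hn t ht m h4 h3 : m = n) ▸ h3)
          · simp only [Prod.mk.injEq] at h3
            exact absurd (Prod.ext h3.1.symm h3.2.1.symm) (h.1 t ht)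
        · rintro (h3 | h3)
          exacts [.inl (mem_E_none.2 ⟨n, h3⟩), by simp at h3]
      rw [Ψ, if_pos rfl, Sg, sup_one _ n (le_max_right _ _) fun m hm => by simp [h1 m hm],
        sup_one _ n (le_max_right _ _) fun m hm => by simp [h1 m hm],
        max_zero_sub_max_neg_zero_eq_self, h2, sub_self]
    · refine (φ.support.finite_toSet.biUnion fun t _ => (edge_sub t.1.1 n).finite).subset
        fun p hp => by_contra fun h => hp ?_
      simp only [mem_iUnion, not_exists, mem_ofPred_eq, Finset.mem_coe] at h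
      rw [Ψ, ev_lc, Finset.sum_eq_zero fun t ht => by simp [χ, h t ht]]
      simp
  · have h1 : ∀ (p : Hs × Bool) n, |ev (p.1, p.2, some n) x - ev (p.1, p.2, some n) y| ≤ d :=
      fun p n => by simpa [Ψ] using h (some n) p
    refine norm_le ?_
    rintro ⟨s, i, _ | n⟩ <;> rw [map_sub]
    · have h2 := abs_le.1 (h none (s, i))
      have h3 := abs_le.1 (Sg_lip (fun n => ev_le (s, i, some n) x) (h1 (s, i)))
      simp only [Ψ, if_true] at h2
      exact abs_le.2 ⟨by linarith [h2.1, h3.1], by linarith [h2.2, h3.2]⟩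
    · linarith [h1 (s, i) n, abs_nonneg (ev (s, i, some n) x - ev (s, i, some n) y)]

def S (h : Hs) : Set X :=
  {f | (∀ l, ¬ Ext h l.1 → ev l f = if l ∈ E h then 1 else 0) ∧ ∀ l, |ev l f| ≤ 1}

lemma e_mem (t : T) : e t ∈ S t.1.1 :=
  ⟨fun _ hl => if_congr (or_iff_left fun e => hl (e ▸ .rfl)) rfl rfl, χ_bd t⟩

theorem not_sc (N : X → ℝ) (c C : ℝ) (hc : 0 < c) (hC : 0 < C)
    (hN : ∀ x : X, c * ‖x‖ ≤ N x ∧ N x ≤ C * ‖x‖) (hadd : ∀ x y : X, N (x + y) ≤ N x + N y)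
    (hsm : ∀ (r : ℝ) (x : X), N (r • x) = |r| * N x) :
    ¬ ∀ x y : X, N x = 1 → N y = 1 → x ≠ y → N ((1 / 2 : ℝ) • (x + y)) < 1 := by
  intro hs
  have hb : ∀ h, BddBelow (N '' S h) := fun h =>
    ⟨0, by rintro _ ⟨f, -, rfl⟩; exact le_trans (by positivity) (hN f).1⟩
  have hle : ∀ h, ∀ f ∈ S h, sInf (N '' S h) ≤ N f := fun h f hf => csInf_le (hb h) ⟨f, hf, rfl⟩
  have hne : ∀ h, Good h → (N '' S h).Nonempty := fun h g => ⟨_, _, e_mem (⟨h, g⟩, true), rfl⟩
  obtain ⟨s, n, g, h1, h2, h3⟩ := kurepa (fun h => sInf (N '' S h)) C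
    (fun h g => (hle h _ (e_mem (⟨h, g⟩, true))).trans ((hN _).2.trans
      (mul_le_of_le_one_right hC.le (norm_le (χ_bd _)))))
    fun h k gh gk a => csInf_le_csInf (hb h) (hne k gk) (image_mono fun f hf => ⟨fun l hl => by
      rw [hf.1 l fun b => hl (a.trans b)]
      exact if_congr ⟨fun b => by_contra fun d => hl (E_new gh a b d), fun b => E_mono gh a b⟩
        rfl rfl, hf.2⟩)
  set m := sInf (N '' S s) with hm
  have h4 : ∀ i, N (e (⟨s, g⟩, i)) = m := fun i => by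
    refine le_antisymm ?_ (hle s _ (e_mem (⟨s, g⟩, i)))
    have h5 : ∀ j : ℕ, ∃ f ∈ S (ex s (n j) i), N f ≤ m + 2 / (j + 1) := fun j => by
      obtain ⟨_, ⟨f, hf, rfl⟩, h6⟩ := exists_lt_of_csInf_lt (hne _ (good_ex g (h2 j) i))
        (lt_add_of_pos_right _ (show (0 : ℝ) < 1 / (j + 1) by positivity))
      refine ⟨f, hf, (h6.le.trans (add_le_add_left (h3 j i) _)).trans (le_of_eq (by ring))⟩
    choose f hf h6 using h5
    have h7 : ∀ M K : ℕ, N (∑ j ∈ Finset.range K, f (M + j)) ≤ K * (m + 2 / (M + 1)) := by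
      intro M K
      induction K with
      | zero => simpa using (hN 0).2
      | succ K ih =>
        have : (2 : ℝ) / ((M + K : ℕ) + 1) ≤ 2 / (M + 1) := by gcongr; omega
        rw [Finset.sum_range_succ]
        push_cast at this ⊢
        linarith [hadd (∑ j ∈ Finset.range K, f (M + j)) (f (M + K)), h6 (M + K), this,
          show (2 : ℝ) / ((M + K : ℕ) + 1) = 2 / (M + K + 1) by push_cast; rfl]
    have h8 : ∀ M K : ℕ, ‖∑ j ∈ Finset.range K, (e (⟨s, g⟩, i) - f (M + j))‖ ≤ 2 := fun M K => by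
      refine norm_le fun l => ?_
      have h9 : ∀ j, ev l (e (⟨s, g⟩, i) - f j) ≠ 0 →
          Ext (ex s (n j) i) l.1 ∨ l = (s, i, some (n j)) := fun j h => by
        by_contra! h9
        refine h ?_
        rw [map_sub, (hf j).1 l h9.1, ev_e, χ, if_congr (E_ex g (h2 j) i h9.2) rfl rfl, sub_self]
      have h10 : ∀ j, ¬ Ext (ex s (n j) i) s := fun j a => h2 j (a.dm (by simp [dm_ex]))
      rw [map_sum]
      by_cases h : ∃ j ∈ Finset.range K, ev l (e (⟨s, g⟩, i) - f (M + j)) ≠ 0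
      · obtain ⟨j, hj, h⟩ := h
        have h11 : ∀ k, ev l (e (⟨s, g⟩, i) - f (M + k)) ≠ 0 → n (M + k) = n (M + j) := by
          intro k h'
          rcases h9 _ h with a | rfl <;> rcases h9 _ h' with b | b
          · exact ex_disj (h2 _) (h2 _) b a
          · exact absurd (b ▸ a) (h10 _)
          · exact absurd b (h10 _)
          · simpa using b.symm
        rw [Finset.sum_eq_single_of_mem j hj fun k _ hk => by_contra fun h' => hk
          (Nat.add_left_cancel (h1 (h11 k h'))), map_sub, ev_e]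
        exact (abs_sub _ _).trans (by linarith [χ_bd (⟨s, g⟩, i) l, (hf (M + j)).2 l])
      · push Not at h
        rw [Finset.sum_eq_zero h]; simp
    refine le_of_forall_pos_le_add fun ε hε => ?_
    obtain ⟨M, hM⟩ := exists_nat_gt ((2 + 2 * C) / ε)
    have h9 := hadd (∑ j ∈ Finset.range (M + 1), (e (⟨s, g⟩, i) - f (M + j)))
      (∑ j ∈ Finset.range (M + 1), f (M + j))
    have h10 := ((hN _).2.trans (mul_le_mul_of_nonneg_left (h8 M (M + 1)) hC.le))
    have h11 := h7 M (M + 1)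
    rw [← Finset.sum_add_distrib] at h9
    simp only [sub_add_cancel, Finset.sum_const, Finset.card_range, ← Nat.cast_smul_eq_nsmul ℝ,
      hsm, Nat.abs_cast] at h9
    rw [div_lt_iff₀ hε] at hM
    push_cast at h9 h11
    rw [mul_add, mul_div_cancel₀ _ (by positivity)] at h11
    refine le_of_mul_le_mul_left ?_ (show (0 : ℝ) < M + 1 by positivity)
    nlinarith
  have h5 : ∀ i j, χ (⟨s, g⟩, i) (s, j, none) = if j = i then 1 else 0 := fun i j => by
    simp [χ, not_mem_E g]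
  have h6 : 0 < m := by
    have := ev_le (s, true, none) (e (⟨s, g⟩, true))
    rw [ev_e, h5, if_pos rfl, abs_one] at this
    nlinarith [(hN (e (⟨s, g⟩, true))).1, h4 true]
  have h7 : ∀ i, N (m⁻¹ • e (⟨s, g⟩, i)) = 1 := fun i => by
    rw [hsm, h4, abs_of_pos (inv_pos.2 h6), inv_mul_cancel₀ h6.ne']
  have h8 := hs _ _ (h7 true) (h7 false) fun h => by
    simpa [h5, h6.ne'] using congrArg (ev (s, true, none)) h
  rw [← smul_add, smul_comm, hsm, abs_of_pos (inv_pos.2 h6), inv_mul_lt_iff₀ h6, mul_one] at h8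
  refine h8.not_ge (hle s _ ⟨fun l hl => ?_, fun l => ?_⟩) <;> rw [map_smul, map_add, smul_eq_mul]
  · rw [(e_mem (⟨s, g⟩, true)).1 l hl, (e_mem (⟨s, g⟩, false)).1 l hl]; ring
  · have a1 := abs_le.1 ((e_mem (⟨s, g⟩, true)).2 l)
    have a2 := abs_le.1 ((e_mem (⟨s, g⟩, false)).2 l)
    exact abs_le.2 ⟨by linarith [a1.1, a2.1], by linarith [a1.2, a2.2]⟩

end Pool.Agent.H87.LipSC
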