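import Mathlib

namespace Pool.Agent.H87.SepBall

open Filter Topology

variable {𝕜 : Type*} [RCLike 𝕜]

/-- separation of a point from the closed image of a unit ball -/
lemma sepBall {D F : Type*} [NormedAddCommGroup D] [NormedSpace 𝕜 D] [NormedAddCommGroup F]
    [NormedSpace 𝕜 F] (T : D →L[𝕜] F) (y : F) (hy : y ∉ closure (T '' Metric.closedBall 0 1)) :
    ∃ Φ : StrongDual 𝕜 F, ‖Φ.comp T‖ < ‖Φ y‖ := by
  let _ : NormedSpace ℝ F := NormedSpace.restrictScalars ℝ 𝕜 F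
  let _ : NormedSpace ℝ D := NormedSpace.restrictScalars ℝ 𝕜 D
  have : IsScalarTower ℝ 𝕜 F := ⟨fun a b c => by
    show (a • b) • c = (a : 𝕜) • b • c
    rw [smul_smul, RCLike.real_smul_eq_coe_mul]⟩
  have hc : Convex ℝ (T '' Metric.closedBall 0 1) := by
    rintro _ ⟨a, ha, rfl⟩ _ ⟨b, hb, rfl⟩ s t hs ht hst
    refine ⟨s • a + t • b, convex_closedBall 0 1 ha hb hs ht hst, ?_⟩
    show T ((s : 𝕜) • a + (t : 𝕜) • b) = (s : 𝕜) • T a + (t : 𝕜) • T b
    simp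
  obtain ⟨Φ, c, h1, h2⟩ := RCLike.geometric_hahn_banach_closed_point (𝕜 := 𝕜) hc.closure
    isClosed_closure hy
  have c0 : 0 < c := by simpa using h1 0 (subset_closure ⟨0, by simp, map_zero _⟩)
  refine ⟨Φ, lt_of_le_of_lt ?_ (h2.trans_le (RCLike.re_le_norm _))⟩
  refine ContinuousLinearMap.opNorm_le_of_unit_norm c0.le fun d hd => ?_
  by_cases h0 : Φ (T d) = 0
  · simp [h0, c0.le]
  · have h3 := h1 (T ((((‖Φ (T d)‖ : ℝ) : 𝕜) / Φ (T d)) • d)) (subset_closure ⟨_, by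
      rw [mem_closedBall_zero_iff, norm_smul, norm_div, hd, RCLike.norm_ofReal, abs_norm,
        div_self (norm_ne_zero_iff.2 h0), mul_one], rfl⟩)
    rw [map_smul, map_smul, smul_eq_mul, div_mul_cancel₀ _ h0, RCLike.ofReal_re] at h3
    exact h3.le

/-- the successive approximation argument -/
lemma iterate {D F : Type*} [NormedAddCommGroup D] [NormedSpace 𝕜 D] [CompleteSpace D]
    [NormedAddCommGroup F] [NormedSpace 𝕜 F] (T : D →L[𝕜] F) (S : Submodule 𝕜 F)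
    (hT : ∀ d, T d ∈ S)
    (h : ∀ y ∈ S, ‖y‖ ≤ 1 → y ∈ closure (T '' Metric.closedBall 0 1)) :
    ∀ y ∈ S, ‖y‖ ≤ 1 → ∃ d, ‖d‖ ≤ 2 ∧ T d = y := by
  have h1 : ∀ y : F, ∃ z : D, ‖z‖ ≤ 1 ∧ (y ∈ S → ‖y‖ ≤ 1 → ‖y - T z‖ ≤ 1 / 2) := fun y => by
    by_cases hy : y ∈ S ∧ ‖y‖ ≤ 1
    · obtain ⟨_, ⟨z, hz, rfl⟩, h2⟩ := Metric.mem_closure_iff.1 (h y hy.1 hy.2) (1 / 2) (by norm_num)
      exact ⟨z, by simpa using hz, fun _ _ => by rw [← dist_eq_norm]; exact h2.le⟩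
    · exact ⟨0, by simp, fun a b => absurd ⟨a, b⟩ hy⟩
  choose z hz1 hz2 using h1
  intro y hy hy1
  let r : ℕ → F := fun n => Nat.rec y (fun _ w => (2 : 𝕜) • (w - T (z w))) n
  have r1 : ∀ n, r (n + 1) = (2 : 𝕜) • (r n - T (z (r n))) := fun _ => rfl
  have r2 : ∀ n, r n ∈ S ∧ ‖r n‖ ≤ 1 := by
    intro n
    induction n with
    | zero => exact ⟨hy, hy1⟩
    | succ n ih =>
      refine ⟨S.smul_mem _ (S.sub_mem ih.1 (hT _)), ?_⟩
      rw [r1, norm_smul, RCLike.norm_two]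
      linarith [hz2 _ ih.1 ih.2]
  have b : ∀ n, ‖((1 / 2 : 𝕜) ^ n) • z (r n)‖ ≤ (1 / 2) ^ n := fun n => by
    rw [norm_smul, norm_pow, norm_div, norm_one, RCLike.norm_two]
    exact mul_le_of_le_one_right (by positivity) (hz1 _)
  have hs : Summable fun n => ((1 / 2 : 𝕜) ^ n) • z (r n) :=
    Summable.of_norm_bounded summable_geometric_two b
  refine ⟨_, tsum_of_norm_bounded hasSum_geometric_two b, ?_⟩
  have r3 : ∀ n, ∑ k ∈ Finset.range n, T (((1 / 2 : 𝕜) ^ k) • z (r k)) =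
      y - (1 / 2 : 𝕜) ^ n • r n := by
    intro n
    induction n with
    | zero => simp [r]
    | succ n ih =>
      rw [Finset.sum_range_succ, ih, r1, smul_smul, pow_succ, mul_assoc, map_smul,
        show (1 / 2 : 𝕜) * 2 = 1 by norm_num, mul_one, smul_sub]
      abel
  have t1 := (hs.hasSum.mapL T).tendsto_sum_nat
  have t2 : Tendsto (fun n => (1 / 2 : 𝕜) ^ n • r n) atTop (𝓝 0) :=
    squeeze_zero_norm (a := fun n => (1 / 2 : ℝ) ^ n) (fun n => by
      rw [norm_smul, norm_pow, norm_div, norm_one, RCLike.norm_two]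
      exact mul_le_of_le_one_right (by positivity) (r2 n).2)
      (tendsto_pow_atTop_nhds_zero_of_lt_one (by norm_num) (by norm_num))
  simp only [r3] at t1
  have t3 := t2.const_sub y
  rw [sub_zero] at t3
  exact tendsto_nhds_unique t1 t3

end Pool.Agent.H87.SepBall
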