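import Mathlib
import Pool.Agent.H87.SepBall

namespace Pool.Agent.H87.MBShr

open Filter Topology Pool.Agent.H87.SepBall

variable {𝕜 E V : Type*} [RCLike 𝕜] [NormedAddCommGroup E] [NormedSpace 𝕜 E] [CompleteSpace E]
  [NormedAddCommGroup V] [NormedSpace 𝕜 V]

theorem surj (j : V →L[𝕜] StrongDual 𝕜 E) (hj : ∀ v, ‖j v‖ = ‖v‖) (x : ℕ → E)
    (hx : Dense (Submodule.span 𝕜 (Set.range x) : Set E)) (htot : ∀ z, (∀ v, j v z = 0) → z = 0)
    (hbc : ∀ (y : ℕ → V) (α : ℕ → 𝕜), (∀ k, ‖y k‖ ≤ 1) →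
      (∀ n, Tendsto (fun k => j (y k) (x n)) atTop (𝓝 (α n))) → ∃ v, ∀ n, j v (x n) = α n)
    (g : StrongDual 𝕜 E) : ∃ v, j v = g := by
  set u : E →L[𝕜] StrongDual 𝕜 V := j.flip with hu
  have k1 : ∀ g : StrongDual 𝕜 E, (∀ z, ‖g z‖ ≤ ‖u z‖) → ∃ v, j v = g := by
    intro g hg
    have : ∀ m : ℕ, ∃ y : V, ‖y‖ ≤ 1 ∧ ∀ n < m, ‖j y (x n) - g (x n)‖ < 1 / ((m : ℝ) + 1) := by
      intro m
      let T : V →L[𝕜] (Fin m → 𝕜) := ContinuousLinearMap.pi fun n => u (x n)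
      have : (fun n : Fin m => g (x n)) ∈ closure (T '' Metric.closedBall 0 1) := by
        by_contra hc
        obtain ⟨Φ, h⟩ := sepBall T _ hc
        set z := ∑ n : Fin m, Φ (Pi.single n 1) • x n with hz
        have e : ∀ w : Fin m → 𝕜, Φ w = ∑ n, Φ (Pi.single n 1) * w n := fun w => by
          conv_lhs => rw [← Finset.univ_sum_single w, map_sum]
          refine Finset.sum_congr rfl fun n _ => ?_
          rw [mul_comm, ← smul_eq_mul, ← map_smul, ← Pi.single_smul, smul_eq_mul, mul_one]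
        have e1 : Φ.comp T = u z := by
          ext v; rw [ContinuousLinearMap.comp_apply, e]; simp [hz, T, map_sum]
        have e2 : Φ (fun n : Fin m => g (x n)) = g z := by rw [e]; simp [hz, map_sum]
        rw [e1, e2] at h
        exact absurd (hg z) (not_le.2 h)
      obtain ⟨_, ⟨y, hy, rfl⟩, h⟩ := Metric.mem_closure_iff.1 this (1 / ((m : ℝ) + 1))
        (by positivity)
      refine ⟨y, by simpa using hy, fun n hn => ?_⟩
      have := (dist_le_pi_dist _ _ ⟨n, hn⟩).trans_lt h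
      rwa [dist_comm, dist_eq_norm] at this
    choose y hy1 hy2 using this
    obtain ⟨v, hv⟩ := hbc y (fun n => g (x n)) hy1 fun n => by
      rw [tendsto_iff_norm_sub_tendsto_zero]
      refine squeeze_zero' (Eventually.of_forall fun _ => norm_nonneg _) ?_
        tendsto_one_div_add_atTop_nhds_zero_nat
      filter_upwards [eventually_gt_atTop n] with m hm using (hy2 m n hm).le
    exact ⟨v, ContinuousLinearMap.ext_on hx (by rintro _ ⟨n, rfl⟩; exact hv n)⟩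
  have k2 : ∀ (g : StrongDual 𝕜 E) (M : ℝ), 0 < M → (∀ z, ‖g z‖ ≤ M * ‖u z‖) → ∃ v, j v = g := by
    intro g M hM hg
    obtain ⟨v, hv⟩ := k1 (((M : 𝕜))⁻¹ • g) fun z => by
      rw [_root_.smul_apply, norm_smul, norm_inv, RCLike.norm_ofReal, abs_of_pos hM,
        inv_mul_le_iff₀ hM]
      exact hg z
    exact ⟨(M : 𝕜) • v, by rw [map_smul, hv, smul_inv_smul₀ (by exact_mod_cast hM.ne')]⟩
  have k3 := iterate u (LinearMap.range u.toLinearMap) (fun d => ⟨d, rfl⟩) (by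
    rintro _ ⟨z, rfl⟩ hz
    by_contra hc
    obtain ⟨Φ, h⟩ := sepBall u _ hc
    obtain ⟨v, hv⟩ := k2 (Φ.comp u) (‖Φ‖ + 1) (by positivity) fun w =>
      (Φ.le_opNorm (u w)).trans (by nlinarith [norm_nonneg (u w)])
    have h1 : Φ (u z) = u z v := by
      show (Φ.comp u) z = j v z
      rw [hv]
    have h2 := (u z).le_opNorm v
    rw [← hv, hj] at h
    have h3 : ‖u z‖ ≤ 1 := hz
    have h4 : ‖v‖ < ‖Φ (u z)‖ := h
    rw [h1] at h4
    nlinarith [norm_nonneg v])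
  have k4 : ∀ z, ‖z‖ ≤ 2 * ‖u z‖ := fun z => by
    by_cases h0 : u z = 0
    · rw [htot z fun v => by show u z v = 0; rw [h0]; rfl]; simp
    have h1 : 0 < ‖u z‖ := norm_pos_iff.2 h0
    have h2 : ‖((‖u z‖ : 𝕜))⁻¹‖ = ‖u z‖⁻¹ := by rw [norm_inv, RCLike.norm_ofReal, abs_norm]
    obtain ⟨d, h3, h4⟩ := k3 (u (((‖u z‖ : 𝕜))⁻¹ • z)) ⟨_, rfl⟩ (by
      rw [map_smul, norm_smul, h2, inv_mul_cancel₀ h1.ne'])
    have h5 : d = ((‖u z‖ : 𝕜))⁻¹ • z := sub_eq_zero.1 (htot _ fun v => by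
      show u (d - _) v = 0
      rw [map_sub, h4, sub_self]; rfl)
    rwa [h5, norm_smul, h2, inv_mul_le_iff₀ h1, mul_comm] at h3
  exact k2 g (2 * ‖g‖ + 1) (by positivity) fun z =>
    (g.le_opNorm z).trans (by nlinarith [k4 z, norm_nonneg g, norm_nonneg (u z)])

end Pool.Agent.H87.MBShr
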