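import Mathlib
import Pool.Agent.H87.LocFin

namespace Pool.Agent.H87.MBasis

open Filter Topology Pool.Agent.H87.LocFin

noncomputable abbrev L1 := lp (fun _ : ℕ × ℕ => ℂ) 1

noncomputable def X (q : ℕ × ℕ) : L1 :=
  if q.2 = 0 then lp.single 1 (q.1, 0) 1
  else lp.single 1 (q.1, 0) 1 + lp.single 1 q (1 / ((q.1 : ℂ) + 1))

noncomputable def U (q r : ℕ × ℕ) : ℂ :=
  if q.2 = 0 then (if r.1 = q.1 then (if r.2 = 0 then 1 / ((q.1 : ℂ) + 1) else -1) else 0)
  else (if r = q then 1 else 0)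

lemma norm_inv_le (k : ℕ) : ‖(1 : ℂ) / ((k : ℂ) + 1)‖ = 1 / ((k : ℝ) + 1) := by
  have : ((k : ℂ) + 1) = (((k : ℝ) + 1 : ℝ) : ℂ) := by push_cast; ring
  rw [norm_div, this, Complex.norm_real, Real.norm_of_nonneg (by positivity)]; simp

lemma U_le (q r : ℕ × ℕ) : ‖U q r‖ ≤ 1 := by
  unfold U
  split_ifs
  · rw [norm_inv_le, div_le_one (by positivity)]; linarith [(Nat.cast_nonneg q.1 : (0:ℝ) ≤ q.1)]
  all_goals simp

noncomputable def F (q : ℕ × ℕ) : L1 →L[ℂ] ℂ := ((q.1 : ℂ) + 1) • pair (U q) (U_le q)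

lemma kne (k : ℕ) : ((k : ℂ) + 1) ≠ 0 := by exact_mod_cast Nat.succ_ne_zero k

lemma F_X (q r : ℕ × ℕ) : F q (X r) = if q = r then 1 else 0 := by
  obtain ⟨k, n⟩ := q
  obtain ⟨l, m⟩ := r
  have hk := kne k
  have hl := kne l
  simp only [F, X, smul_apply, smul_eq_mul]
  by_cases hm : m = 0
  · subst hm
    simp only [if_true, pair_single, U]
    by_cases hn : n = 0
    · subst hn
      by_cases hkl : l = k
      · subst hkl; simp [hl]
      · simp [hkl, Ne.symm hkl]
    · simp [hn, Ne.symm hn]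
  · simp only [hm, if_false, map_add, pair_single, U]
    by_cases hn : n = 0
    · subst hn
      by_cases hkl : l = k
      · subst hkl; simp [Ne.symm hm]
      · simp [hkl, Ne.symm hm]
    · by_cases hkl : l = k
      · subst hkl
        by_cases hmn : m = n
        · subst hmn; simp [hn, Ne.symm hn, hl]
        · simp [hn, Ne.symm hn, hmn, Ne.symm hmn]
      · simp [hn, hkl, Ne.symm hkl]

lemma F_total (v : L1) (h : ∀ q, F q v = 0) : v = 0 := by
  have h1 : ∀ k n, n ≠ 0 → v (k, n) = 0 := by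
    intro k n hn
    have := h (k, n)
    simp only [F, smul_apply, smul_eq_mul, mul_eq_zero, kne, false_or,
      pair_apply] at this
    rw [tsum_eq_single (k, n)] at this
    · simpa [U, hn] using this
    · intro r hr; simp [U, hn, hr]
  have h2 : ∀ k, v (k, 0) = 0 := by
    intro k
    have := h (k, 0)
    simp only [F, smul_apply, smul_eq_mul, mul_eq_zero, kne, false_or,
      pair_apply] at this
    rw [tsum_eq_single (k, 0)] at this
    · simpa [U, kne] using this
    · rintro ⟨l, m⟩ hr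
      by_cases hm : m = 0
      · subst hm
        have : l ≠ k := fun e => hr (by rw [e])
        simp [U, this]
      · simp [h1 l m hm]
  ext ⟨k, n⟩
  by_cases hn : n = 0
  · subst hn; simpa using h2 k
  · simpa using h1 k n hn

lemma X_dense : Dense ((Submodule.span ℂ (Set.range X) : Submodule ℂ L1) : Set L1) := by
  classical
  have hs : ∀ (q : ℕ × ℕ) (t : ℂ), (lp.single 1 q t : L1) ∈ Submodule.span ℂ (Set.range X) := by
    rintro ⟨k, n⟩ t
    have h0 : (lp.single 1 (k, 0) 1 : L1) ∈ Submodule.span ℂ (Set.range X) :=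
      Submodule.subset_span ⟨(k, 0), by simp [X]⟩
    by_cases hn : n = 0
    · subst hn
      have : (lp.single 1 (k, 0) t : L1) = t • lp.single 1 (k, 0) 1 := by
        rw [← lp.single_smul]; simp
      rw [this]; exact Submodule.smul_mem _ _ h0
    · have h1 : X (k, n) ∈ Submodule.span ℂ (Set.range X) := Submodule.subset_span ⟨_, rfl⟩
      have : (lp.single 1 (k, n) t : L1) =
          (t * ((k : ℂ) + 1)) • (X (k, n) - lp.single 1 (k, 0) 1) := by
        simp only [X, hn, if_false, add_sub_cancel_left]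
        rw [← lp.single_smul]; congr 1
        have := kne k
        simp only [smul_eq_mul]; field_simp
      rw [this]; exact Submodule.smul_mem _ _ (Submodule.sub_mem _ h1 h0)
  intro v
  refine mem_closure_of_tendsto (lp.hasSum_single (by simp) v) (Eventually.of_forall fun s => ?_)
  exact Submodule.sum_mem _ fun q _ => hs q _

lemma norm_X_ge (q : ℕ × ℕ) : 1 ≤ ‖X q‖ := by
  have h := lp.norm_apply_le_norm (by simp) (X q) (q.1, 0)
  refine le_trans (le_of_eq ?_) h
  obtain ⟨k, n⟩ := q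
  by_cases hn : n = 0
  · simp [X, hn]
  · have : ((k, 0) : ℕ × ℕ) ≠ (k, n) := fun e => hn (Prod.mk.inj e).2.symm
    simp [X, hn, lp.single_apply, Pi.single_eq_of_ne this]

lemma norm_X_sub (k n m : ℕ) : ‖X (k, n) - X (k, m)‖ ≤ 2 / ((k : ℝ) + 1) := by
  have h1 : ∀ n, ‖X (k, n) - lp.single 1 (k, 0) 1‖ ≤ 1 / ((k : ℝ) + 1) := by
    intro n
    by_cases hn : n = 0
    · simp only [X, hn, if_true, sub_self, norm_zero]; positivity
    · simp only [X, hn, if_false, add_sub_cancel_left]
      rw [lp.norm_single (by simp), norm_inv_le]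
  calc ‖X (k, n) - X (k, m)‖
      = ‖(X (k, n) - lp.single 1 (k, 0) 1) - (X (k, m) - lp.single 1 (k, 0) 1)‖ := by
        congr 1; abel
    _ ≤ _ := norm_sub_le _ _
    _ ≤ 1 / ((k : ℝ) + 1) + 1 / ((k : ℝ) + 1) := add_le_add (h1 n) (h1 m)
    _ = _ := by ring

/-- uniform boundedness of parenthesised partial sums -/
lemma bound {E : Type} [NormedAddCommGroup E] [NormedSpace ℂ E] [CompleteSpace E]
    (y : ℕ → E) (g : ℕ → E →L[ℂ] ℂ) (hg : ∀ i j, g i (y j) = if i = j then 1 else 0)
    (p : ℕ → ℕ) (hp : StrictMono p)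
    (h : ∀ v ∈ (Submodule.span ℂ (Set.range y)).topologicalClosure, ∃ t : ℕ → ℂ,
      Tendsto (fun k => ∑ i ∈ Finset.range (p k), t i • y i) atTop (𝓝 v)) :
    ∃ C : ℝ, ∀ i : ℕ, ∃ N, ∀ j, N ≤ j → ‖y i‖ ≤ C * ‖y i - y j‖ := by
  let M := (Submodule.span ℂ (Set.range y)).topologicalClosure
  haveI : CompleteSpace M := (Submodule.isClosed_topologicalClosure _).completeSpace_coe
  let s : ℕ → M →L[ℂ] E := fun k =>
    (∑ i ∈ Finset.range (p k), (g i).smulRight (y i)) ∘L M.subtypeL
  have hs : ∀ k (v : M), s k v = ∑ i ∈ Finset.range (p k), g i v • y i := by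
    intro k v; simp [s, ContinuousLinearMap.sum_apply]
  have hb : ∀ v : M, ∃ C, ∀ k, ‖s k v‖ ≤ C := by
    intro v
    obtain ⟨t, ht⟩ := h v v.2
    have htg : ∀ i, t i = g i v := by
      intro i
      have h1 := ((g i).continuous.tendsto _).comp ht
      refine (tendsto_nhds_unique h1 ?_).symm
      refine tendsto_const_nhds.congr' (eventually_atTop.2 ⟨i + 1, fun k hk => ?_⟩)
      have hik : i < p k := lt_of_lt_of_le (show i < k by omega) (hp.le_apply)
      simp only [Function.comp, map_sum, map_smul, hg, smul_eq_mul]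
      rw [Finset.sum_eq_single i]
      · simp
      · intro j _ hj; simp [Ne.symm hj]
      · intro hi; exact absurd (Finset.mem_range.2 hik) hi
    obtain ⟨C, hC⟩ := (ht.norm.bddAbove_range)
    refine ⟨C, fun k => hC ⟨k, ?_⟩⟩
    simp only [hs, htg]
  obtain ⟨C, hC⟩ := banach_steinhaus hb
  refine ⟨C, fun i => ⟨p (i + 1), fun j hj => ?_⟩⟩
  have hik : i < p (i + 1) := lt_of_lt_of_le (show i < i + 1 by omega) (hp.le_apply)
  have hm : ∀ n, y n ∈ M := fun n =>
    Submodule.le_topologicalClosure _ (Submodule.subset_span ⟨n, rfl⟩)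
  let v : M := ⟨y i - y j, M.sub_mem (hm i) (hm j)⟩
  have hv : s (i + 1) v = y i := by
    rw [hs, Finset.sum_eq_single i]
    · have : i ≠ j := by omega
      simp [v, hg, this]
    · intro l hl hli
      have : l ≠ j := by have := Finset.mem_range.1 hl; omega
      simp [v, hg, this, hli]
    · intro hi; exact absurd (Finset.mem_range.2 hik) hi
  calc ‖y i‖ = ‖s (i + 1) v‖ := by rw [hv]
    _ ≤ ‖s (i + 1)‖ * ‖v‖ := (s _).le_opNorm v
    _ ≤ C * ‖y i - y j‖ := mul_le_mul_of_nonneg_right (hC _) (norm_nonneg _)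

noncomputable def x (n : ℕ) : L1 := X (Nat.unpair n)
noncomputable def f (n : ℕ) : L1 →L[ℂ] ℂ := F (Nat.unpair n)

lemma unpair_inj : Function.Injective Nat.unpair := Nat.pairEquiv.symm.injective

lemma f_x (i j : ℕ) : f i (x j) = if i = j then 1 else 0 := by
  simp only [f, x, F_X, unpair_inj.eq_iff]

lemma f_total (v : L1) (h : ∀ n, f n v = 0) : v = 0 :=
  F_total v fun q => by have := h (Nat.pair q.1 q.2); simpa [f] using this

lemma x_dense : Dense ((Submodule.span ℂ (Set.range x) : Submodule ℂ L1) : Set L1) := by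
  have : Set.range x = Set.range X := by
    ext v; constructor
    · rintro ⟨n, rfl⟩; exact ⟨_, rfl⟩
    · rintro ⟨q, rfl⟩; exact ⟨Nat.pair q.1 q.2, by simp [x]⟩
  rw [this]; exact X_dense

/-- a subsequence which is a basis with parentheses meets almost every row in a finite set -/
lemma fin_rows (c : ℕ → ℕ) (hc : StrictMono c) (p : ℕ → ℕ) (hp : StrictMono p)
    (h : ∀ v ∈ (Submodule.span ℂ (Set.range (fun i => x (c i)))).topologicalClosure, ∃ t : ℕ → ℂ,
      Tendsto (fun k => ∑ i ∈ Finset.range (p k), t i • x (c i)) atTop (𝓝 v)) :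
    ∃ K : ℕ, ∀ k, K ≤ k → {n | ∃ i, c i = Nat.pair k n}.Finite := by
  obtain ⟨C, hC⟩ := bound (fun i => x (c i)) (fun i => f (c i))
    (fun i j => by simp only [f_x, hc.injective.eq_iff]) p hp h
  obtain ⟨K, hK⟩ := exists_nat_gt (2 * C)
  refine ⟨K, fun k hk => ?_⟩
  by_contra hinf
  have hinf' : Set.Infinite {n | ∃ i, c i = Nat.pair k n} := hinf
  obtain ⟨n, i, hi⟩ := hinf'.nonempty
  obtain ⟨N, hN⟩ := hC i
  obtain ⟨m, ⟨j, hj⟩, hm⟩ := hinf'.exists_gt (c N)
  have hjN : N ≤ j := by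
    by_contra hlt
    have h1 : c j < c N := hc (by omega)
    have h2 : m ≤ Nat.pair k m := Nat.right_le_pair k m
    omega
  have h1 := hN j hjN
  simp only [x, hi, hj, Nat.unpair_pair] at h1
  have h2 := norm_X_ge (k, n)
  have h3 := norm_X_sub k n m
  have hk' : (K : ℝ) ≤ k := by exact_mod_cast hk
  have hpos : (0 : ℝ) < (k : ℝ) + 1 := by positivity
  have hC0 : 0 < C := by
    by_contra hle
    have : C * ‖X (k, n) - X (k, m)‖ ≤ 0 :=
      mul_nonpos_of_nonpos_of_nonneg (not_lt.1 hle) (norm_nonneg _)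
    linarith
  have h4 : C * ‖X (k, n) - X (k, m)‖ ≤ C * (2 / ((k : ℝ) + 1)) :=
    mul_le_mul_of_nonneg_left h3 hC0.le
  have h5 : C * (2 / ((k : ℝ) + 1)) < 1 := by
    rw [← mul_div_assoc, div_lt_one hpos]; linarith
  linarith

theorem main (a b : ℕ → ℕ) (ha : StrictMono a) (hb : StrictMono b)
    (hab : ∀ n : ℕ, (∃ k, a k = n) ↔ ¬ ∃ k, b k = n)
    (h : ∀ c : ℕ → ℕ, (c = a ∨ c = b) →
          ∃ p : ℕ → ℕ, StrictMono p ∧
            ∀ v ∈ (Submodule.span ℂ (Set.range (fun i => x (c i)))).topologicalClosure,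
              ∃! t : ℕ → ℂ,
                Filter.Tendsto
                  (fun k => ∑ i ∈ Finset.range (p k), t i • x (c i))
                  Filter.atTop (nhds v)) : False := by
  obtain ⟨p, hp, h1⟩ := h a (Or.inl rfl)
  obtain ⟨q, hq, h2⟩ := h b (Or.inr rfl)
  obtain ⟨K, hK⟩ := fin_rows a ha p hp fun v hv => (h1 v hv).exists
  obtain ⟨K', hK'⟩ := fin_rows b hb q hq fun v hv => (h2 v hv).exists
  have h3 := (hK (max K K') (le_max_left _ _)).union (hK' (max K K') (le_max_right _ _))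
  refine Set.infinite_univ (α := ℕ) (h3.subset fun n _ => ?_)
  by_cases hn : ∃ k, b k = Nat.pair (max K K') n
  · exact Or.inr hn
  · exact Or.inl ((hab _).2 hn)

end Pool.Agent.H87.MBasis
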