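import Mathlib

set_option autoImplicit false

namespace Pool.Agent.H87.MkS

variable {X : Type} [NormedAddCommGroup X] [NormedSpace ℝ X]

/-- The slice `S(A,f,ε)`. -/
def slice (A : Set X) (f : X →L[ℝ] ℝ) (ε : ℝ) : Set X := {x ∈ A | sSup (f '' A) - ε < f x}

/-- Some sequence of slices of `A` is determining for `A`. -/
def SCD (A : Set X) : Prop :=
  ∃ (f : ℕ → X →L[ℝ] ℝ) (ε : ℕ → ℝ), (∀ n, f n ≠ 0 ∧ 0 < ε n) ∧
    ∀ B : Set X, (∀ n, (B ∩ slice A (f n) (ε n)).Nonempty) → A ⊆ closure (convexHull ℝ B)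

/-- `U` is bounded and every subset of `U` is SCD. -/
def HSCD (U : Set X) : Prop := Bornology.IsBounded U ∧ ∀ A ⊆ U, SCD A

end Pool.Agent.H87.MkS
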