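import Pool.Agent.H87.BLp1
import Pool.Agent.H87.MkSDef

set_option autoImplicit false

open Filter Topology Set Sum
open scoped ENNReal

namespace Pool.Agent.H87.MkS

open BLp (Γ seg seg_len seg_eq)

abbrev Ω := Γ ⊕ ℕ

abbrev Y := lp (fun _ : Ω => ℝ) ∞

def mkY (a : Ω → ℝ) (h : ∀ w, |a w| ≤ 1) : Y :=
  ⟨a, memℓp_infty ⟨1, by rintro _ ⟨w, rfl⟩; exact h w⟩⟩

lemma mkY_apply (a : Ω → ℝ) (h : ∀ w, |a w| ≤ 1) (w : Ω) : mkY a h w = a w := rfl

lemma Y_le (y : Y) (w : Ω) : |y w| ≤ ‖y‖ := lp.norm_apply_le_norm (by simp) y w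

lemma Y_norm (y : Y) {C : ℝ} (h : ∀ w, |y w| ≤ C) : ‖y‖ ≤ C := lp.norm_le_of_forall_le' C h

noncomputable def evY (w : Ω) : Y →L[ℝ] ℝ :=
  LinearMap.mkContinuous ⟨⟨fun x => x w, fun _ _ => rfl⟩, fun _ _ => rfl⟩ 1
    fun x => by simpa using Y_le x w

lemma evY_apply (w : Ω) (y : Y) : evY w y = y w := rfl

lemma disj (d : ℕ → Y) (h1 : ∀ k w, |d k w| ≤ 3) (h2 : ∀ w k l, k < l → d k w = 0 ∨ d l w = 0)
    (h : Y →L[ℝ] ℝ) {η : ℝ} (hη : 0 < η) : ∃ k, h (d k) < η := by
  by_contra hc
  push Not at hc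
  obtain ⟨K, hK⟩ := exists_nat_gt (‖h‖ * 3 / η)
  have a1 : ‖∑ k ∈ Finset.range K, d k‖ ≤ 3 := by
    refine Y_norm _ fun w => ?_
    rw [← evY_apply, map_sum]
    simp only [evY_apply]
    by_cases hex : ∃ k ∈ Finset.range K, d k w ≠ 0
    · obtain ⟨k, hk, hk2⟩ := hex
      rw [Finset.sum_eq_single k]
      · exact h1 k w
      · intro l _ hl
        rcases lt_or_gt_of_ne hl with h3 | h3
        · exact (h2 w l k h3).resolve_right hk2
        · exact (h2 w k l h3).resolve_left hk2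
      · intro h3; exact absurd hk h3
    · push Not at hex
      rw [Finset.sum_eq_zero hex]; norm_num
  have a2 : K * η ≤ h (∑ k ∈ Finset.range K, d k) := by
    rw [map_sum]
    have := Finset.sum_le_sum (s := Finset.range K) fun k _ => hc k
    simpa using this
  have a3 := (le_abs_self _).trans (h.le_of_opNorm_le_of_le le_rfl a1)
  rw [div_lt_iff₀ hη] at hK
  linarith

abbrev J := Option (List Bool ⊕ ℕ)

def mem : J → Ω → Prop
  | none, _ => True
  | some (inl l), inl t => seg t l.length = l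
  | some (inr n), inr m => m = n
  | some (inl _), inr _ => False
  | some (inr _), inl _ => False

abbrev Lst := List (J × Bool)

open Classical in
noncomputable def pf : Lst → Ω → ℝ
  | [], _ => 1
  | p :: L, w => if mem p.1 w then (if p.2 then 1 else -1) else pf L w

lemma pf_abs (L : Lst) (w : Ω) : |pf L w| ≤ 1 := by
  induction L with
  | nil => simp [pf]
  | cons p L ih =>
    simp only [pf]
    split_ifs
    · simp
    · simp
    · exact ih

noncomputable def pat (L : Lst) : Y := mkY (pf L) (pf_abs L)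

lemma pat_apply (L : Lst) (w : Ω) : pat L w = pf L w := rfl

lemma pat_le (L : Lst) : ‖pat L‖ ≤ 1 := Y_norm _ (pf_abs L)

open Classical in
noncomputable def en (n : ℕ) : Y := mkY (fun w => if w = inr n then 1 else 0) fun w => by
  split_ifs <;> simp

open Classical in
lemma en_apply (n : ℕ) (w : Ω) : en n w = if w = inr n then 1 else 0 := rfl

lemma en_eq (n : ℕ) :
    (2 : ℝ) • en n = pat [] + pat [(some (inr n), true), (none, false)] := by
  ext w
  change 2 * en n w = pf [] w + pf _ w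
  rcases w with t | m
  · simp [en_apply, pf, mem]
  · by_cases h : m = n
    · simp [en_apply, pf, mem, h]; norm_num
    · simp [en_apply, pf, mem, h]

abbrev Idx := Lst × Lst × ℕ

def nn (i : Idx) : ℕ := Encodable.encode i

noncomputable def eps (i : Idx) : ℝ := 1 / (nn i + 2)

lemma eps_pos (i : Idx) : 0 < eps i := by unfold eps; positivity

lemma eps_le (i : Idx) : eps i ≤ 1 / 2 := by
  unfold eps
  exact one_div_le_one_div_of_le (by norm_num) (by linarith [Nat.cast_nonneg (α := ℝ) (nn i)])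

noncomputable def u1 (i : Idx) : Y := pat ((some (inr (nn i)), true) :: i.1) + eps i • en (nn i)

noncomputable def u2 (i : Idx) : Y := (1 - eps i) • pat i.2.1

lemma u1_apply (i : Idx) (w : Ω) :
    u1 i w = pf ((some (inr (nn i)), true) :: i.1) w + eps i * en (nn i) w := rfl

lemma u2_apply (i : Idx) (w : Ω) : u2 i w = (1 - eps i) * pf i.2.1 w := rfl

lemma u1_l (i : Idx) (t : Γ) : u1 i (inl t) = pf i.1 (inl t) := by
  simp [u1_apply, en_apply, pf, mem]

lemma u1_self (i : Idx) : u1 i (inr (nn i)) = 1 + eps i := by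
  simp [u1_apply, en_apply, pf, mem]

lemma u1_other (i : Idx) {w : Ω} (h : w ≠ inr (nn i)) : u1 i w = pf i.1 w := by
  rcases w with t | m
  · exact u1_l i t
  · have : m ≠ nn i := fun h2 => h (by rw [h2])
    simp [u1_apply, en_apply, pf, mem, this]

lemma u1_abs (i : Idx) (w : Ω) : |u1 i w| ≤ 2 := by
  by_cases h : w = inr (nn i)
  · rw [h, u1_self, abs_le]; constructor <;> linarith [eps_pos i, eps_le i]
  · rw [u1_other i h]; linarith [pf_abs i.1 w]

lemma u2_abs (i : Idx) (w : Ω) : |u2 i w| ≤ 1 := by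
  rw [u2_apply, abs_mul, abs_of_nonneg (by linarith [eps_le i])]
  nlinarith [pf_abs i.2.1 w, abs_nonneg (pf i.2.1 w), eps_pos i]

noncomputable def N (h : Y →L[ℝ] ℝ) : ℝ := ⨆ L, h (pat L)

lemma h_pat (h : Y →L[ℝ] ℝ) (L : Lst) : h (pat L) ≤ ‖h‖ := by
  simpa using (le_abs_self _).trans (h.le_of_opNorm_le_of_le le_rfl (pat_le L))

lemma le_N (h : Y →L[ℝ] ℝ) (L : Lst) : h (pat L) ≤ N h :=
  le_ciSup (f := fun L => h (pat L)) ⟨‖h‖, by rintro _ ⟨L, rfl⟩; exact h_pat h L⟩ L

lemma ex_N (h : Y →L[ℝ] ℝ) {η : ℝ} (hη : 0 < η) : ∃ L, N h - η < h (pat L) :=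
  exists_lt_of_lt_ciSup (by unfold N; linarith)

lemma up (h1 h2 : Y →L[ℝ] ℝ) (j : Idx) :
    h1 (u1 j) + h2 (u2 j) ≤ N h1 + N h2 + eps j * (N h1 - N h2) := by
  have a1 : 2 * h1 (en (nn j)) ≤ 2 * N h1 := by
    have := congrArg h1 (en_eq (nn j))
    rw [map_smul, map_add, smul_eq_mul] at this
    linarith [le_N h1 [], le_N h1 [(some (inr (nn j)), true), (none, false)]]
  simp only [u1, u2, map_add, map_smul, smul_eq_mul]
  have a2 := le_N h1 ((some (inr (nn j)), true) :: j.1)
  have a3 := mul_le_mul_of_nonneg_left (le_N h2 j.2.1) (show 0 ≤ 1 - eps j by linarith [eps_le j])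
  have a4 := mul_le_mul_of_nonneg_left a1 (eps_pos j).le
  nlinarith

def fl (A : Γ) (m : ℕ) : Γ := fun i => if i = m then !(A i) else A i

lemma half (h1 h2 : Y →L[ℝ] ℝ) (hN : N h1 ≤ N h2) {α : ℝ} (hα : 0 < α) (A : Γ) (n : ℕ) :
    ∃ m ≥ n, ∃ i, (∀ j, h1 (u1 j) + h2 (u2 j) - α < h1 (u1 i) + h2 (u2 i)) ∧
      ∀ t, (∀ k < m + 1, t k = fl A m k) → u1 i (inl t) = -1 := by
  obtain ⟨L, hL⟩ := ex_N h1 (show 0 < α / 5 by positivity)
  obtain ⟨M, hM⟩ := ex_N h2 (show 0 < α / 5 by positivity)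
  let Lk : ℕ → Lst := fun k => (some (inl (seg (fl A (n + k)) (n + k + 1))), false) :: L
  have e0 : ∀ k w, (pat L - pat (Lk k)) w = pf L w - pf (Lk k) w := fun _ _ => rfl
  obtain ⟨k, hk⟩ := disj (fun k => pat L - pat (Lk k)) (fun k w => by
      rw [e0]
      linarith [abs_sub (pf L w) (pf (Lk k) w), pf_abs L w, pf_abs (Lk k) w])
    (fun w k l hkl => by
      simp only [e0]
      rcases w with t | m
      · by_cases a1 : seg t (n + k + 1) = seg (fl A (n + k)) (n + k + 1)
        · right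
          have a2 : ¬ seg t (n + l + 1) = seg (fl A (n + l)) (n + l + 1) := fun a2 => by
            have b1 := seg_eq.1 a1 (n + k) (by omega)
            have b2 := seg_eq.1 a2 (n + k) (by omega)
            have b3 : n + k ≠ n + l := by omega
            rw [b1] at b2
            simp [fl, b3] at b2
            omega
          simp [Lk, pf, mem, seg_len, a2]
        · left; simp [Lk, pf, mem, seg_len, a1]
      · left; simp [Lk, pf, mem]) h1 (show 0 < α / 5 by positivity)
  have hinj : Function.Injective fun r : ℕ => nn (Lk k, M, r) := fun r r' h => by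
    have := Encodable.encode_injective h
    simpa using this
  have ht : Tendsto (fun r : ℕ => eps (Lk k, M, r) * ‖h2‖) atTop (𝓝 0) := by
    have b1 : Tendsto (fun r : ℕ => (nn (Lk k, M, r) : ℝ) + 2) atTop atTop :=
      tendsto_atTop_add_const_right _ _ (tendsto_natCast_atTop_atTop.comp hinj.nat_tendsto_atTop)
    simpa [eps] using b1.inv_tendsto_atTop.mul_const ‖h2‖
  obtain ⟨R, hR⟩ := eventually_atTop.1 (ht.eventually (gt_mem_nhds (show 0 < α / 5 by positivity)))
  have e1 : ∀ i w, (pat (Lk k) - u1 i) w = pf (Lk k) w - u1 i w := fun _ _ => rfl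
  obtain ⟨r, hr⟩ := disj (fun r => pat (Lk k) - u1 (Lk k, M, R + r)) (fun r w => by
      rw [e1]
      linarith [abs_sub (pf (Lk k) w) (u1 (Lk k, M, R + r) w), pf_abs (Lk k) w,
        u1_abs (Lk k, M, R + r) w])
    (fun w r s hrs => by
      simp only [e1]
      by_cases a1 : w = inr (nn (Lk k, M, R + r))
      · right
        rw [u1_other _ (fun a2 => ?_), sub_self]
        have := hinj (inr_injective (a1.symm.trans a2))
        omega
      · left; rw [u1_other _ a1, sub_self]) h1 (show 0 < α / 5 by positivity)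
  refine ⟨n + k, Nat.le_add_right _ _, (Lk k, M, R + r), fun j => ?_, fun t h => ?_⟩
  · have c1 := up h1 h2 j
    have c2 := mul_nonneg (eps_pos j).le (sub_nonneg.2 hN)
    have c3 := hR (R + r) (Nat.le_add_right _ _)
    have c4 := mul_le_mul_of_nonneg_left (h_pat h2 M) (eps_pos (Lk k, M, R + r)).le
    have c5 : h2 (u2 (Lk k, M, R + r)) = h2 (pat M) - eps (Lk k, M, R + r) * h2 (pat M) := by
      simp only [u2, map_smul, smul_eq_mul]; ring
    rw [map_sub] at hk hr
    linarith
  · rw [u1_l]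
    have := seg_eq.2 h
    simp [Lk, pf, mem, seg_len, this]

end Pool.Agent.H87.MkS
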