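import Pool.Agent.H87.MkS1

set_option autoImplicit false

open Filter Topology Set Sum
open scoped ENNReal Pointwise

namespace Pool.Agent.H87.MkS

open BLp (Γ seg seg_len seg_eq)

lemma hscd {X : Type} [NormedAddCommGroup X] [NormedSpace ℝ X] (p : Idx → X) {C : ℝ}
    (hC : ∀ i, ‖p i‖ ≤ C) (φ : Idx → X →L[ℝ] ℝ) (h1 : ∀ i, φ i (p i) = 1 + eps i)
    (h2 : ∀ i j, j ≠ i → φ i (p j) ≤ 1) : HSCD (range p) := by
  have hφ : ∀ i, φ i ≠ 0 := fun i h => by
    have := h1 i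
    rw [h] at this
    simp only [zero_apply] at this
    linarith [eps_pos i]
  refine ⟨(isBounded_iff_forall_norm_le).2 ⟨C, by rintro _ ⟨i, rfl⟩; exact hC i⟩, fun A hA => ?_⟩
  rcases A.eq_empty_or_nonempty with rfl | ⟨_, hne⟩
  · exact ⟨fun _ => φ ([], [], 0), fun _ => 1, fun _ => ⟨hφ _, one_pos⟩, fun B _ => empty_subset _⟩
  obtain ⟨i0, rfl⟩ := hA hne
  obtain ⟨c, hc⟩ := (Set.to_countable {i | p i ∈ A}).exists_eq_range ⟨i0, hne⟩
  refine ⟨fun n => φ (c n), fun n => eps (c n), fun n => ⟨hφ _, eps_pos _⟩, fun B hB x hx => ?_⟩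
  obtain ⟨i, rfl⟩ := hA hx
  have : i ∈ range c := by rw [← hc]; exact hx
  obtain ⟨n, rfl⟩ := this
  obtain ⟨y, hy, hy2, hy3⟩ := hB n
  obtain ⟨j, rfl⟩ := hA hy2
  have hb : BddAbove (φ (c n) '' A) := ⟨1 + eps (c n), by
    rintro _ ⟨z, hz, rfl⟩
    obtain ⟨k, rfl⟩ := hA hz
    by_cases h : k = c n
    · rw [h, h1]
    · linarith [h2 _ _ h, eps_pos (c n)]⟩
  have a1 := le_csSup hb ⟨_, hx, rfl⟩
  rw [h1] at a1
  have : j = c n := by
    by_contra h
    linarith [h2 _ _ h]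
  subst this
  exact subset_closure (subset_convexHull ℝ B hy)

noncomputable def pU (i : Idx) : Y × Y := (u1 i, u2 i)

noncomputable def pV (i : Idx) : Y × Y := (u2 i, u1 i)

lemma ex1 {i j : Idx} (h : j ≠ i) : u1 j (inr (nn i)) ≤ 1 := by
  rw [u1_other j (w := inr (nn i)) fun h2 => h (Encodable.encode_injective (inr_injective h2)).symm]
  exact (le_abs_self _).trans (pf_abs _ _)

lemma n1 (i : Idx) : ‖u1 i‖ ≤ 2 := Y_norm _ (u1_abs i)

lemma n2 (i : Idx) : ‖u2 i‖ ≤ 2 := Y_norm _ fun w => (u2_abs i w).trans one_le_two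

lemma hU : HSCD (range pU) :=
  hscd pU (C := 2) (fun i => max_le (n1 i) (n2 i))
    (fun i => (evY (inr (nn i))).comp (ContinuousLinearMap.fst ℝ Y Y)) (fun i => u1_self i)
    fun _ _ h => ex1 h

lemma hV : HSCD (range pV) :=
  hscd pV (C := 2) (fun i => max_le (n2 i) (n1 i))
    (fun i => (evY (inr (nn i))).comp (ContinuousLinearMap.snd ℝ Y Y)) (fun i => u1_self i)
    fun _ _ h => ex1 h

lemma near (h1 h2 : Y →L[ℝ] ℝ) {α : ℝ} (hα : 0 < α) :
    ∃ i, ∀ j, h1 (u1 j) + h2 (u2 j) - α < h1 (u1 i) + h2 (u2 i) := by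
  have hb : BddAbove (range fun j => h1 (u1 j) + h2 (u2 j)) := ⟨‖h1‖ * 2 + ‖h2‖ * 2, by
    rintro _ ⟨j, rfl⟩
    have a1 := (le_abs_self _).trans (h1.le_of_opNorm_le_of_le le_rfl (n1 j))
    have a2 := (le_abs_self _).trans (h2.le_of_opNorm_le_of_le le_rfl (n2 j))
    exact add_le_add a1 a2⟩
  obtain ⟨i, hi⟩ := exists_lt_of_lt_ciSup (f := fun j => h1 (u1 j) + h2 (u2 j))
    (show (⨆ j, (h1 (u1 j) + h2 (u2 j))) - α < _ by linarith)
  exact ⟨i, fun j => by linarith [le_ciSup hb j]⟩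

noncomputable def g (t : Γ) : Y × Y →L[ℝ] ℝ :=
  (evY (inl t)).comp (ContinuousLinearMap.fst ℝ Y Y) + (evY (inl t)).comp (ContinuousLinearMap.snd ℝ Y Y)

lemma g_apply (t : Γ) (i j : Idx) :
    g t (pU i + pV j) = u1 i (inl t) + u2 j (inl t) + (u2 i (inl t) + u1 j (inl t)) := rfl

lemma b1 (i : Idx) (t : Γ) : u1 i (inl t) ≤ 1 := by
  rw [u1_l]; exact (le_abs_self _).trans (pf_abs _ _)

lemma b2 (i : Idx) (t : Γ) : u2 i (inl t) ≤ 1 := (le_abs_self _).trans (u2_abs _ _)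

lemma step (f : Y × Y →L[ℝ] ℝ) {α : ℝ} (hα : 0 < α) (A : Γ) (n : ℕ) :
    ∃ m ≥ n, ∃ b ∈ slice (range pU + range pV) f α,
      ∀ t, (∀ k < m + 1, t k = fl A m k) → g t b ≤ 2 := by
  set h1 := f.comp (ContinuousLinearMap.inl ℝ Y Y)
  set h2 := f.comp (ContinuousLinearMap.inr ℝ Y Y)
  have e : ∀ x y : Y, f (x, y) = h1 x + h2 y := fun x y => by
    simp only [h1, h2, ContinuousLinearMap.comp_apply, ContinuousLinearMap.inl_apply,
      ContinuousLinearMap.inr_apply]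
    rw [← map_add]; simp
  have e2 : ∀ i j, f (pU i + pV j) = h1 (u1 i) + h2 (u2 i) + (h2 (u1 j) + h1 (u2 j)) := fun i j => by
    rw [map_add, pU, pV, e, e]; ring
  have k : ∀ i j, (∀ i', h1 (u1 i') + h2 (u2 i') - α / 3 < h1 (u1 i) + h2 (u2 i)) →
      (∀ j', h2 (u1 j') + h1 (u2 j') - α / 3 < h2 (u1 j) + h1 (u2 j)) →
      pU i + pV j ∈ slice (range pU + range pV) f α := fun i j a1 a2 => by
    have hm : pU i + pV j ∈ range pU + range pV := add_mem_add ⟨i, rfl⟩ ⟨j, rfl⟩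
    refine ⟨hm, ?_⟩
    have : sSup (f '' (range pU + range pV)) ≤ f (pU i + pV j) + 2 * α / 3 := by
      refine csSup_le ⟨_, _, hm, rfl⟩ ?_
      rintro _ ⟨_, ⟨_, ⟨i', rfl⟩, _, ⟨j', rfl⟩, rfl⟩, rfl⟩
      simp only [e2]
      linarith [a1 i', a2 j']
    linarith
  have h3 : 0 < α / 3 := by positivity
  rcases le_total (N h1) (N h2) with h | h
  · obtain ⟨m, hm, i, a1, a2⟩ := half h1 h2 h h3 A n
    obtain ⟨j, a3⟩ := near h2 h1 h3
    refine ⟨m, hm, _, k i j a1 a3, fun t ht => ?_⟩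
    rw [g_apply, a2 t ht]
    linarith [b1 j t, b2 j t, b2 i t]
  · obtain ⟨m, hm, j, a1, a2⟩ := half h2 h1 h h3 A n
    obtain ⟨i, a3⟩ := near h1 h2 h3
    refine ⟨m, hm, _, k i j a3 a1, fun t ht => ?_⟩
    rw [g_apply, a2 t ht]
    linarith [b1 i t, b2 j t, b2 i t]

theorem main : ¬ SCD (range pU + range pV) := by
  rintro ⟨f, ε, h0, hd⟩
  choose m hm b hb hg using fun (k : ℕ) (s : Γ × ℕ) => step (f k) (h0 k).2 s.1 s.2
  let s : ℕ → Γ × ℕ := fun k => Nat.rec (fun _ => true, 0)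
    (fun k s => (fl s.1 (m k s), m k s + 1)) k
  have s1 : ∀ k, s (k + 1) = (fl (s k).1 (m k (s k)), m k (s k) + 1) := fun _ => rfl
  have s2 : ∀ k, (s k).2 < (s (k + 1)).2 := fun k => by
    rw [s1]; exact Nat.lt_succ_of_le (hm k (s k))
  have s3 : StrictMono fun k => (s k).2 := strictMono_nat_of_lt_succ s2
  have s4 : ∀ k l, k ≤ l → ∀ i < (s k).2, (s l).1 i = (s k).1 i := by
    intro k l hkl i hi
    induction l, hkl using Nat.le_induction with
    | base => rfl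
    | succ l hkl ih =>
      rw [← ih, s1]
      have a1 : (s k).2 ≤ (s l).2 := s3.monotone hkl
      have a2 := hm l (s l)
      have a3 : i ≠ m l (s l) := by omega
      simp [fl, a3]
  let t : Γ := fun i => (s (i + 1)).1 i
  have s5 : ∀ k, ∀ i < (s k).2, t i = (s k).1 i := fun k i hi => by
    have a1 : i + 1 ≤ (s (i + 1)).2 := s3.le_apply
    rw [← s4 k (max k (i + 1)) (le_max_left _ _) i hi]
    exact (s4 (i + 1) _ (le_max_right _ _) i a1).symm
  have a1 := hd (range fun k => b k (s k)) fun k => ⟨b k (s k), ⟨k, rfl⟩, hb k (s k)⟩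
  have a2 : closure (convexHull ℝ (range fun k => b k (s k))) ⊆ {x | g t x ≤ 2} := by
    refine closure_minimal (convexHull_min ?_ (convex_halfSpace_le (g t).toLinearMap.isLinear 2))
      (isClosed_le (g t).continuous continuous_const)
    rintro _ ⟨k, rfl⟩
    exact hg k (s k) t (s5 (k + 1))
  have a3 := a2 (a1 (add_mem_add ⟨([], [], 0), rfl⟩ ⟨([], [], 0), rfl⟩))
  simp only [mem_ofPred_eq, g_apply, u1_l, u2_apply, pf] at a3
  linarith [eps_le ([], [], 0)]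

end Pool.Agent.H87.MkS
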