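import Pool.Agent.H87.MkS2

set_option autoImplicit false

open Filter Topology Set Sum
open scoped ENNReal Pointwise

namespace Pool.Agent.H87.MkS

open BLp (Γ seg seg_len seg_eq)

lemma chain (m : ℕ → Γ × ℕ → ℕ) (hm : ∀ k s, s.2 ≤ m k s) :
    ∃ (s : ℕ → Γ × ℕ) (t : Γ), ∀ k, ∀ i < m k (s k) + 1, t i = fl (s k).1 (m k (s k)) i := by
  let s : ℕ → Γ × ℕ := fun k => Nat.rec (fun _ => true, 0)
    (fun k s => (fl s.1 (m k s), m k s + 1)) k
  have s1 : ∀ k, s (k + 1) = (fl (s k).1 (m k (s k)), m k (s k) + 1) := fun _ => rfl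
  have s2 : ∀ k, (s k).2 < (s (k + 1)).2 := fun k => by
    rw [s1]; exact Nat.lt_succ_of_le (hm k (s k))
  have s3 : StrictMono fun k => (s k).2 := strictMono_nat_of_lt_succ s2
  have s4 : ∀ k l, k ≤ l → ∀ i < (s k).2, (s l).1 i = (s k).1 i := by
    intro k l hkl i hi
    induction l, hkl using Nat.le_induction with
    | base => rfl
    | succ l hkl ih =>
      rw [← ih, s1]
      have a1 : (s k).2 ≤ (s l).2 := s3.monotone hkl
      have a2 := hm l (s l)
      have a3 : i ≠ m l (s l) := by omega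
      simp [fl, a3]
  let t : Γ := fun i => (s (i + 1)).1 i
  have s5 : ∀ k, ∀ i < (s k).2, t i = (s k).1 i := fun k i hi => by
    have a1 : i + 1 ≤ (s (i + 1)).2 := s3.le_apply
    rw [← s4 k (max k (i + 1)) (le_max_left _ _) i hi]
    exact (s4 (i + 1) _ (le_max_right _ _) i a1).symm
  exact ⟨s, t, fun k => s5 (k + 1)⟩

lemma disj0 (d : ℕ → Y) (h1 : ∀ k w, |d k w| ≤ 3) (h2 : ∀ w k l, k < l → d k w = 0 ∨ d l w = 0)
    (h : Y →L[ℝ] ℝ) : Tendsto (fun k => h (d k)) atTop (𝓝 0) := by
  refine Metric.tendsto_nhds.2 fun η hη => ?_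
  by_contra H
  obtain ⟨φ, hφ, h3⟩ := extraction_of_frequently_atTop (not_eventually.1 H)
  let σ : ℕ → ℝ := fun k => if 0 ≤ h (d (φ k)) then 1 else -1
  have e : ∀ k w, (σ k • d (φ k)) w = σ k * d (φ k) w := fun _ _ => rfl
  obtain ⟨k, hk⟩ := disj (fun k => σ k • d (φ k)) (fun k w => by
      rw [e, abs_mul]
      have : |σ k| = 1 := by simp only [σ]; split_ifs <;> simp
      rw [this, one_mul]; exact h1 _ _)
    (fun w k l hkl => by
      simp only [e]
      rcases h2 w _ _ (hφ hkl) with a | a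
      · left; rw [a, mul_zero]
      · right; rw [a, mul_zero]) h hη
  have a := h3 k
  rw [Real.dist_eq, sub_zero, not_lt] at a
  rw [map_smul, smul_eq_mul] at hk
  simp only [σ] at hk
  split_ifs at hk with b
  · rw [abs_of_nonneg b] at a; linarith
  · rw [abs_of_neg (not_le.1 b)] at a; linarith

lemma low (h1 h2 : Y →L[ℝ] ℝ) {α : ℝ} (hα : 0 < α) :
    ∃ i, N h1 + N h2 - α < h1 (u1 i) + h2 (u2 i) := by
  obtain ⟨L, hL⟩ := ex_N h1 (show 0 < α / 5 by positivity)
  obtain ⟨M, hM⟩ := ex_N h2 (show 0 < α / 5 by positivity)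
  have hinj : Function.Injective fun r : ℕ => nn (L, M, r) := fun r r' h => by
    have := Encodable.encode_injective h
    simpa using this
  have ht : Tendsto (fun r : ℕ => eps (L, M, r) * ‖h2‖) atTop (𝓝 0) := by
    have b1 : Tendsto (fun r : ℕ => (nn (L, M, r) : ℝ) + 2) atTop atTop :=
      tendsto_atTop_add_const_right _ _ (tendsto_natCast_atTop_atTop.comp hinj.nat_tendsto_atTop)
    simpa [eps] using b1.inv_tendsto_atTop.mul_const ‖h2‖
  obtain ⟨R, hR⟩ := eventually_atTop.1 (ht.eventually (gt_mem_nhds (show 0 < α / 5 by positivity)))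
  have e1 : ∀ i w, (pat L - u1 i) w = pf L w - u1 i w := fun _ _ => rfl
  obtain ⟨r, hr⟩ := disj (fun r => pat L - u1 (L, M, R + r)) (fun r w => by
      rw [e1]
      linarith [abs_sub (pf L w) (u1 (L, M, R + r) w), pf_abs L w, u1_abs (L, M, R + r) w])
    (fun w r s hrs => by
      simp only [e1]
      by_cases a1 : w = inr (nn (L, M, R + r))
      · right
        rw [u1_other _ (fun a2 => ?_), sub_self]
        have := hinj (inr_injective (a1.symm.trans a2))
        omega
      · left; rw [u1_other _ a1, sub_self]) h1 (show 0 < α / 5 by positivity)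
  refine ⟨(L, M, R + r), ?_⟩
  have c3 := hR (R + r) (Nat.le_add_right _ _)
  have c4 := mul_le_mul_of_nonneg_left (h_pat h2 M) (eps_pos (L, M, R + r)).le
  have c5 : h2 (u2 (L, M, R + r)) = h2 (pat M) - eps (L, M, R + r) * h2 (pat M) := by
    simp only [u2, map_smul, smul_eq_mul]; ring
  rw [map_sub] at hr
  linarith

def K (y : Y) : Prop := ∀ h : Y →L[ℝ] ℝ, h y ≤ N h

lemma N_ev (w : Ω) : N (evY w) ≤ 1 := ciSup_le fun L => (le_abs_self _).trans (pf_abs L w)

lemma N_ev' (w : Ω) : N (-evY w) ≤ 1 := ciSup_le fun L => (neg_le_abs _).trans (pf_abs L w)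

lemma K_abs {y : Y} (h : K y) (w : Ω) : |y w| ≤ 1 := by
  have a1 := (h _).trans (N_ev w)
  have a2 := (h _).trans (N_ev' w)
  rw [neg_apply, evY_apply] at a2
  rw [evY_apply] at a1
  rw [abs_le]; constructor <;> linarith

open Classical in
noncomputable def Mf (j : J) (y : Y) : Y :=
  ⟨fun w => if mem j w then 0 else y w, memℓp_infty ⟨‖y‖, by
    rintro _ ⟨w, rfl⟩
    dsimp only
    split_ifs
    · simp
    · exact Y_le y w⟩⟩

open Classical in
lemma Mf_apply (j : J) (y : Y) (w : Ω) : Mf j y w = if mem j w then 0 else y w := rfl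

noncomputable def Mop (j : J) : Y →L[ℝ] Y :=
  LinearMap.mkContinuous ⟨⟨Mf j, fun x y => by
      ext w
      change Mf j (x + y) w = Mf j x w + Mf j y w
      simp only [Mf_apply]; split_ifs <;> simp⟩, fun c x => by
      ext w
      change Mf j (c • x) w = c * Mf j x w
      simp only [Mf_apply]; split_ifs <;> simp⟩ 1 fun y => by
    rw [one_mul]
    refine Y_norm _ fun w => ?_
    change |Mf j y w| ≤ _
    rw [Mf_apply]
    split_ifs
    · simp
    · exact Y_le y w

open Classical in
noncomputable def ind (j : J) : Y := mkY (fun w => if mem j w then 1 else 0) fun w => by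
  split_ifs <;> simp

noncomputable def Rj (j : J) (y : Y) : Y := Mop j y - ind j

open Classical in
lemma Rj_apply (j : J) (y : Y) (w : Ω) : Rj j y w = if mem j w then -1 else y w := by
  change Mf j y w - (if mem j w then 1 else 0) = _
  rw [Mf_apply]; split_ifs <;> simp

lemma Rj_K (j : J) {y : Y} (hy : K y) : K (Rj j y) := fun h => by
  have a1 := hy (h.comp (Mop j))
  have a2 : N (h.comp (Mop j)) ≤ N h + h (ind j) := ciSup_le fun L => by
    have e : Rj j (pat L) = pat ((j, false) :: L) := by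
      ext w; rw [Rj_apply]; simp [pat_apply, pf]
    have := le_N h ((j, false) :: L)
    rw [← e, Rj, map_sub] at this
    change h (Mop j (pat L)) ≤ _
    linarith
  rw [Rj, map_sub]
  change h (Mop j y) ≤ _ at a1
  linarith

lemma scd_hull {X ι : Type} [NormedAddCommGroup X] [NormedSpace ℝ X] [Countable ι] [Nonempty ι]
    (p : ι → X) (hC : ∀ i, ‖p i‖ ≤ 2) (e : ι → ℝ) (he : ∀ i, 0 < e i) (φ : ι → X →L[ℝ] ℝ)
    (h1 : ∀ i, φ i (p i) = 1 + e i) (h2 : ∀ i j, j ≠ i → φ i (p j) ≤ 1) :
    SCD (closure (convexHull ℝ (range p))) := by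
  have hφ : ∀ i, φ i ≠ 0 := fun i h => by
    have := h1 i
    rw [h] at this
    simp only [zero_apply] at this
    linarith [he i]
  have k : ∀ i, closure (convexHull ℝ (range p)) ⊆
      {x | e i * ‖x - p i‖ + 4 * φ i x ≤ 4 * (1 + e i)} := fun i => by
    refine closure_minimal (convexHull_min ?_ ?_) (isClosed_le (by fun_prop) continuous_const)
    · rintro _ ⟨j, rfl⟩
      by_cases h : j = i
      · simp [h, h1]
      · have a1 := norm_sub_le (p j) (p i)
        have a2 := mul_le_mul_of_nonneg_left (show ‖p j - p i‖ ≤ 4 by linarith [hC i, hC j]) (he i).le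
        simp only [mem_ofPred_eq]
        linarith [h2 i j h]
    · intro x hx y hy a b ha hb hab
      simp only [mem_ofPred_eq, map_add, map_smul, smul_eq_mul] at hx hy ⊢
      have e1 : a • x + b • y - p i = a • (x - p i) + b • (y - p i) := by
        rw [smul_sub, smul_sub, sub_add_sub_comm, ← add_smul, hab, one_smul]
      have e2 : ‖a • x + b • y - p i‖ ≤ a * ‖x - p i‖ + b * ‖y - p i‖ := by
        rw [e1]
        refine (norm_add_le _ _).trans (le_of_eq ?_)
        rw [norm_smul, norm_smul, Real.norm_of_nonneg ha, Real.norm_of_nonneg hb]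
      have e3 := mul_le_mul_of_nonneg_left e2 (he i).le
      have e4 := mul_le_mul_of_nonneg_left hx ha
      have e5 := mul_le_mul_of_nonneg_left hy hb
      have e6 : a * (4 * (1 + e i)) + b * (4 * (1 + e i)) = 4 * (1 + e i) := by
        rw [← add_mul, hab, one_mul]
      nlinarith
  obtain ⟨c, hc⟩ := exists_surjective_nat (ι × ℕ)
  refine ⟨fun n => φ (c n).1, fun n => e (c n).1 * (1 / ((c n).2 + 1)),
    fun n => ⟨hφ _, mul_pos (he _) (by positivity)⟩, fun B hB => ?_⟩
  refine closure_minimal (convexHull_min ?_ (convex_convexHull ℝ B).closure) isClosed_closure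
  rintro _ ⟨i, rfl⟩
  refine Metric.mem_closure_iff.2 fun η hη => ?_
  obtain ⟨r, hr⟩ := exists_nat_one_div_lt (show 0 < η / 4 by positivity)
  obtain ⟨n, hn⟩ := hc (i, r)
  obtain ⟨y, hy, hy2, hy3⟩ := hB n
  simp only [hn] at hy3
  have hb : BddAbove (φ i '' closure (convexHull ℝ (range p))) := ⟨1 + e i, by
    rintro _ ⟨z, hz, rfl⟩
    have a1 := k i hz
    have a2 := mul_nonneg (he i).le (norm_nonneg (z - p i))
    simp only [mem_ofPred_eq] at a1
    linarith⟩
  have a1 := le_csSup hb ⟨_, subset_closure (subset_convexHull ℝ _ ⟨i, rfl⟩), rfl⟩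
  rw [h1] at a1
  have a2 := k i hy2
  simp only [mem_ofPred_eq] at a2
  refine ⟨y, subset_convexHull ℝ B hy, ?_⟩
  rw [dist_comm, dist_eq_norm]
  have a3 := mul_lt_mul_of_pos_left hr (he i)
  refine lt_of_mul_lt_mul_left ?_ (he i).le
  linarith

end Pool.Agent.H87.MkS
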