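import Pool.Agent.H87.MkS3

set_option autoImplicit false

open Filter Topology Set Sum
open scoped ENNReal Pointwise

namespace Pool.Agent.H87.MkS

open BLp (Γ seg seg_len seg_eq)

abbrev Z := (Y × Y) × ℝ

noncomputable def P (i : Idx) : Z := (pU i, 1)

noncomputable def Q (i : Idx) : Z := (pV i, -1)

def U : Set Z := closure (convexHull ℝ (range (Sum.elim P Q)))

lemma U_cvx : Convex ℝ U := (convex_convexHull ℝ _).closure

lemma PQ_le (i : Idx ⊕ Idx) : ‖Sum.elim P Q i‖ ≤ 2 := by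
  rcases i with i | i
  · exact max_le (max_le (n1 i) (n2 i)) (by simp [P])
  · exact max_le (max_le (n2 i) (n1 i)) (by simp [Q])

lemma U_bdd : Bornology.IsBounded U :=
  (isBounded_convexHull.2 (isBounded_iff_forall_norm_le.2
    ⟨2, by rintro _ ⟨i, rfl⟩; exact PQ_le i⟩)).closure

noncomputable def c1 : Z →L[ℝ] Y := (ContinuousLinearMap.fst ℝ Y Y).comp (ContinuousLinearMap.fst ℝ _ ℝ)

noncomputable def c2 : Z →L[ℝ] Y := (ContinuousLinearMap.snd ℝ Y Y).comp (ContinuousLinearMap.fst ℝ _ ℝ)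

lemma U_scd : SCD U := by
  refine scd_hull _ PQ_le (Sum.elim eps eps) (by rintro (i | i) <;> exact eps_pos i)
    (Sum.elim (fun i => (evY (inr (nn i))).comp c1) fun i => (evY (inr (nn i))).comp c2)
    (by rintro (i | i) <;> exact u1_self i) ?_
  rintro (i | i) (j | j) h
  · exact ex1 fun a => h (by rw [a])
  · exact (le_abs_self _).trans (u2_abs j _)
  · exact (le_abs_self _).trans (u2_abs j _)
  · exact ex1 fun a => h (by rw [a])

lemma P_mem (i : Idx) : P i ∈ U := subset_closure (subset_convexHull ℝ _ ⟨inl i, rfl⟩)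

lemma Q_mem (i : Idx) : Q i ∈ U := subset_closure (subset_convexHull ℝ _ ⟨inr i, rfl⟩)

lemma K_mem {x y : Y} (hx : K x) (hy : K y) :
    ((x, y), (1 : ℝ)) ∈ U ∧ ((x, y), (-1 : ℝ)) ∈ U := by
  have k : ∀ f : Z →L[ℝ] ℝ, ∃ h1 h2 : Y →L[ℝ] ℝ, ∀ x y r,
      f ((x, y), r) = h1 x + h2 y + f (0, r) := fun f =>
    ⟨f.comp ((ContinuousLinearMap.inl ℝ _ ℝ).comp (ContinuousLinearMap.inl ℝ Y Y)),
      f.comp ((ContinuousLinearMap.inl ℝ _ ℝ).comp (ContinuousLinearMap.inr ℝ Y Y)), fun x y r => by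
      simp only [ContinuousLinearMap.comp_apply, ContinuousLinearMap.inl_apply,
        ContinuousLinearMap.inr_apply]
      rw [← map_add, ← map_add]; simp⟩
  constructor
  · by_contra H
    obtain ⟨f, u, a1, a2⟩ := geometric_hahn_banach_closed_point U_cvx isClosed_closure H
    obtain ⟨h1, h2, e⟩ := k f
    obtain ⟨i, hi⟩ := low h1 h2 (sub_pos.2 a2)
    have a3 := a1 _ (P_mem i)
    rw [P, pU, e] at a3
    rw [e] at hi
    linarith [hx h1, hy h2]
  · by_contra H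
    obtain ⟨f, u, a1, a2⟩ := geometric_hahn_banach_closed_point U_cvx isClosed_closure H
    obtain ⟨h1, h2, e⟩ := k f
    obtain ⟨i, hi⟩ := low h2 h1 (sub_pos.2 a2)
    have a3 := a1 _ (Q_mem i)
    rw [Q, pV, e] at a3
    rw [e] at hi
    linarith [hx h1, hy h2]

noncomputable def G (t : Γ) : Z →L[ℝ] ℝ := (g t).comp (ContinuousLinearMap.fst ℝ _ ℝ)

lemma G_apply (t : Γ) (x : Z) : G t x = x.1.1 (inl t) + x.1.2 (inl t) := rfl

lemma G_le (t : Γ) {x : Z} (hx : x ∈ U) : G t x ≤ 2 := by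
  have : U ⊆ {x | G t x ≤ 2} := by
    refine closure_minimal (convexHull_min ?_ (convex_halfSpace_le (G t).toLinearMap.isLinear 2))
      (isClosed_le (G t).continuous continuous_const)
    rintro _ ⟨i | i, rfl⟩
    · exact (add_le_add (b1 i t) (b2 i t)).trans (by norm_num)
    · exact (add_le_add (b2 i t) (b1 i t)).trans (by norm_num)
  exact this hx

lemma wk {x : ℕ → Z} {y : Z} (h : ∀ f : Z →L[ℝ] ℝ, Tendsto (fun k => f (x k)) atTop (𝓝 (f y)))
    {V : Set (WeakSpace ℝ Z)} (hV : IsOpen V) (hy : toWeakSpace ℝ Z y ∈ V) :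
    ∃ k, toWeakSpace ℝ Z (x k) ∈ V := by
  have hi : Topology.IsInducing
      (fun (x : WeakSpace ℝ Z) (h : Z →L[ℝ] ℝ) => (topDualPairing ℝ Z).flip x h) := ⟨rfl⟩
  have : Tendsto (fun k => toWeakSpace ℝ Z (x k)) atTop (𝓝 (toWeakSpace ℝ Z y)) := by
    rw [hi.tendsto_nhds_iff, tendsto_pi_nhds]
    exact h
  exact (this.eventually (hV.mem_nhds hy)).exists

lemma core {V : Set (WeakSpace ℝ Z)} (hV : IsOpen V) {a b r : ℝ} (ha : 0 ≤ a) (hb : 0 ≤ b)
    (hr : 0 ≤ r) (hs : a + b + r = 1) (hr2 : r ≤ 3 / 4) {x y : Y} (hx : K x) (hy : K y) {c : Z}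
    (hc : c ∈ U) (hm : toWeakSpace ℝ Z ((((a + b) • x, (a + b) • y), a - b) + r • c) ∈ V)
    (A : Γ) (n : ℕ) : ∃ m ≥ n, ∃ z ∈ U, toWeakSpace ℝ Z z ∈ V ∧
      ∀ t, (∀ k < m + 1, t k = fl A m k) → G t z ≤ 3 / 2 := by
  let j : ℕ → J := fun k => some (inl (seg (fl A (n + k)) (n + k + 1)))
  have e0 : ∀ k w, (Rj (j k) x - x) w = Rj (j k) x w - x w := fun _ _ => rfl
  have ht := fun h => disj0 (fun k => Rj (j k) x - x) (fun k w => by
      rw [e0]
      linarith [abs_sub (Rj (j k) x w) (x w), K_abs hx w, K_abs (Rj_K (j k) hx) w])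
    (fun w k l hkl => by
      simp only [e0, Rj_apply]
      rcases w with t | m
      · by_cases a1 : seg t (n + k + 1) = seg (fl A (n + k)) (n + k + 1)
        · right
          have a2 : ¬ seg t (n + l + 1) = seg (fl A (n + l)) (n + l + 1) := fun a2 => by
            have b1 := seg_eq.1 a1 (n + k) (by omega)
            have b2 := seg_eq.1 a2 (n + k) (by omega)
            rw [b1] at b2
            simp [fl] at b2
            omega
          simp [j, mem, seg_len, a2]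
        · left; simp [j, mem, seg_len, a1]
      · left; simp [j, mem]) h
  obtain ⟨k, hk⟩ := wk (x := fun k => (((a + b) • Rj (j k) x, (a + b) • y), a - b) + r • c)
    (fun f => by
      have a1 := ((ht (f.comp ((ContinuousLinearMap.inl ℝ _ ℝ).comp
        (ContinuousLinearMap.inl ℝ Y Y)))).const_mul (a + b)).const_add
        (f ((((a + b) • x, (a + b) • y), a - b) + r • c))
      rw [mul_zero, add_zero] at a1
      refine a1.congr fun k => ?_
      simp only [ContinuousLinearMap.comp_apply, ContinuousLinearMap.inl_apply]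
      rw [← smul_eq_mul, ← map_smul, ← map_add]
      congr 1
      refine Prod.ext (Prod.ext ?_ ?_) ?_
      · simp only [Prod.fst_add, Prod.smul_fst, smul_sub]; abel
      · simp
      · simp) hV hm
  refine ⟨n + k, Nat.le_add_right _ _, _, ?_, hk, fun t h => ?_⟩
  · obtain ⟨a1, a2⟩ := K_mem (Rj_K (j k) hx) hy
    have := U_cvx.sum_mem (t := Finset.univ) (w := ![a, b, r])
      (z := ![((Rj (j k) x, y), (1 : ℝ)), ((Rj (j k) x, y), (-1 : ℝ)), c])
      (fun i _ => by fin_cases i <;> simpa) (by simpa [Fin.sum_univ_three] using hs)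
      (fun i _ => by fin_cases i <;> simpa)
    convert this using 1
    simp only [Fin.sum_univ_three]
    refine Prod.ext (Prod.ext ?_ ?_) ?_
    · simp [add_smul]
    · simp [add_smul]
    · simp; ring
  · rw [map_add, map_smul, smul_eq_mul, G_apply]
    change (a + b) * Rj (j k) x (inl t) + (a + b) * y (inl t) + _ ≤ _
    have a1 : Rj (j k) x (inl t) = -1 := by
      have := seg_eq.2 h
      simp [Rj_apply, j, mem, seg_len, this]
    have a2 := mul_le_mul_of_nonneg_left ((le_abs_self _).trans (K_abs hy (inl t))) (add_nonneg ha hb)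
    have a3 := mul_le_mul_of_nonneg_left (G_le t hc) hr
    rw [a1]
    linarith

def D (x y : Y) (e : ℝ) : Prop := ∀ h : Y →L[ℝ] ℝ, h x ≤ (1 + e) * N h ∧ h y ≤ (1 - e) * N h

lemma D_u (i : Idx) : D (u1 i) (u2 i) (eps i) := fun h => by
  constructor
  · have := up h 0 i
    have a : N 0 = 0 := by simp [N]
    rw [a] at this
    simp only [zero_apply] at this
    linarith
  · simp only [u2, map_smul, smul_eq_mul]
    exact mul_le_mul_of_nonneg_left (le_N h _) (by linarith [eps_le i])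

lemma D_hull (p : Idx → Z) (T S : Z →L[ℝ] Y) (s : ℝ) (h1 : ∀ i, T (p i) = u1 i)
    (h2 : ∀ i, S (p i) = u2 i) (h3 : ∀ i, (p i).2 = s) {x : Z} (hx : x ∈ convexHull ℝ (range p)) :
    x.2 = s ∧ ∃ e, 0 ≤ e ∧ D (T x) (S x) e := by
  refine convexHull_min (t := {x : Z | x.2 = s ∧ ∃ e, 0 ≤ e ∧ D (T x) (S x) e}) ?_ ?_ hx
  · rintro _ ⟨i, rfl⟩
    exact ⟨h3 i, eps i, (eps_pos i).le, by rw [h1, h2]; exact D_u i⟩
  · rintro x ⟨x1, e, e0, he⟩ y ⟨y1, e', e0', he'⟩ a b ha hb hab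
    refine ⟨?_, a * e + b * e', by positivity, fun h => ?_⟩
    · simp only [Prod.snd_add, Prod.smul_snd, x1, y1, smul_eq_mul]
      rw [← add_mul, hab, one_mul]
    · simp only [map_add, map_smul, smul_eq_mul]
      have a1 := mul_le_mul_of_nonneg_left (he h).1 ha
      have a2 := mul_le_mul_of_nonneg_left (he h).2 ha
      have a3 := mul_le_mul_of_nonneg_left (he' h).1 hb
      have a4 := mul_le_mul_of_nonneg_left (he' h).2 hb
      have a5 : a * N h + b * N h = N h := by rw [← add_mul, hab, one_mul]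
      constructor <;> linarith

lemma dec {l l' e e' : ℝ} (hl : 0 ≤ l) (he : 0 ≤ e) (hl' : 0 ≤ l') (he' : 0 ≤ e')
    (h : l * e ≤ l' * e') : ∃ μ, 0 ≤ μ ∧ μ ≤ l' ∧ μ * e' = l * e := by
  rcases he'.eq_or_lt with rfl | h0
  · exact ⟨0, le_rfl, hl', by nlinarith [mul_nonneg hl he]⟩
  · exact ⟨l * e / e', by positivity, by rwa [div_le_iff₀ h0], by field_simp⟩

lemma K_mix {x y x' y' : Y} {e e' l μ : ℝ} (h1 : D x y e) (h2 : D x' y' e') (hl : 0 ≤ l)
    (hμ : 0 ≤ μ) (hp : 0 < l + μ) (h : μ * e' = l * e) :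
    K ((l + μ)⁻¹ • (l • x + μ • y')) ∧ K ((l + μ)⁻¹ • (l • y + μ • x')) := by
  constructor <;> intro f <;> simp only [map_add, map_smul, smul_eq_mul] <;>
    rw [inv_mul_le_iff₀ hp]
  · have a1 := mul_le_mul_of_nonneg_left (h1 f).1 hl
    have a2 := mul_le_mul_of_nonneg_left (h2 f).2 hμ
    have a3 : μ * e' * N f = l * e * N f := by rw [h]
    linarith
  · have a1 := mul_le_mul_of_nonneg_left (h1 f).2 hl
    have a2 := mul_le_mul_of_nonneg_left (h2 f).1 hμ
    have a3 : μ * e' * N f = l * e * N f := by rw [h]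
    linarith

lemma step2 {V : Set (WeakSpace ℝ Z)} (hV : IsOpen V) (hne : (V ∩ toWeakSpace ℝ Z '' U).Nonempty)
    (A : Γ) (n : ℕ) : ∃ m ≥ n, ∃ z ∈ U, toWeakSpace ℝ Z z ∈ V ∧
      ∀ t, (∀ k < m + 1, t k = fl A m k) → (1 / 2 ≤ |z.2| ∨ G t z ≤ 3 / 2) := by
  obtain ⟨_, h1, x0, h2, rfl⟩ := hne
  obtain ⟨x, h3, h4⟩ := mem_closure_iff.1 h2 _ (hV.preimage (toWeakSpaceCLM ℝ Z).continuous) h1
  by_cases h5 : 1 / 2 ≤ |x.2|
  · exact ⟨n, le_rfl, x, subset_closure h4, h3, fun _ _ => Or.inl h5⟩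
  have h6 := h4
  rw [Set.Sum.elim_range, convexHull_union (range_nonempty _) (range_nonempty _), mem_convexJoin] at h6
  obtain ⟨p, hp, q, hq, l, l', hl, hl', hll, rfl⟩ := h6
  have hpU : p ∈ U := convexHull_min (by rintro _ ⟨i, rfl⟩; exact P_mem i) U_cvx hp
  have hqU : q ∈ U := convexHull_min (by rintro _ ⟨i, rfl⟩; exact Q_mem i) U_cvx hq
  obtain ⟨p2, e, e0, he⟩ := D_hull P c1 c2 1 (fun _ => rfl) (fun _ => rfl) (fun _ => rfl) hp
  obtain ⟨q2, e', e0', he'⟩ := D_hull Q c2 c1 (-1) (fun _ => rfl) (fun _ => rfl) (fun _ => rfl) hq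
  simp only [Prod.snd_add, Prod.smul_snd, p2, q2, smul_eq_mul, not_le, abs_lt] at h5
  have fin : (∃ m ≥ n, ∃ z ∈ U, toWeakSpace ℝ Z z ∈ V ∧
      ∀ t, (∀ k < m + 1, t k = fl A m k) → G t z ≤ 3 / 2) := by
    rcases le_total (l * e) (l' * e') with h | h
    · obtain ⟨μ, m0, m1, m2⟩ := dec hl e0 hl' e0' h
      have hp : 0 < l + μ := by linarith
      obtain ⟨k1, k2⟩ := K_mix he he' hl m0 hp m2
      refine core hV hl m0 (sub_nonneg.2 m1) (by linarith) (by linarith) k1 k2 hqU ?_ A n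
      rw [smul_inv_smul₀ hp.ne', smul_inv_smul₀ hp.ne']
      refine (congrArg (fun z => toWeakSpace ℝ Z z ∈ V) ?_).mpr h3
      refine Prod.ext (Prod.ext ?_ ?_) ?_
      · simp [c1, sub_smul]
      · simp [c2, sub_smul]
      · simp [p2, q2]; ring
    · obtain ⟨μ, m0, m1, m2⟩ := dec hl' e0' hl e0 h
      have hp : 0 < l' + μ := by linarith
      obtain ⟨k1, k2⟩ := K_mix he' he hl' m0 hp m2
      rw [add_comm l' μ] at k1 k2 hp
      refine core hV m0 hl' (sub_nonneg.2 m1) (by linarith) (by linarith) k2 k1 hpU ?_ A n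
      rw [smul_inv_smul₀ hp.ne', smul_inv_smul₀ hp.ne']
      refine (congrArg (fun z => toWeakSpace ℝ Z z ∈ V) ?_).mpr h3
      refine Prod.ext (Prod.ext ?_ ?_) ?_
      · simp [c1, sub_smul]; abel
      · simp [c2, sub_smul]; abel
      · simp [p2, q2]; ring
  obtain ⟨m, a1, z, a2, a3, a4⟩ := fin
  exact ⟨m, a1, z, a2, a3, fun t ht => Or.inr (a4 t ht)⟩

theorem nopi : ¬ ∃ V : ℕ → Set (WeakSpace ℝ Z),
    (∀ n, IsOpen (V n) ∧ (V n ∩ toWeakSpace ℝ Z '' U).Nonempty) ∧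
    ∀ W : Set (WeakSpace ℝ Z), IsOpen W → (W ∩ toWeakSpace ℝ Z '' U).Nonempty →
      ∃ n, V n ∩ toWeakSpace ℝ Z '' U ⊆ W := by
  rintro ⟨V, h1, h2⟩
  choose m hm b hb hb2 hg using fun (k : ℕ) (s : Γ × ℕ) => step2 (h1 k).1 (h1 k).2 s.1 s.2
  obtain ⟨s, t, hs⟩ := chain m hm
  have hev : ∀ f : Z →L[ℝ] ℝ, Continuous fun x : WeakSpace ℝ Z => f ((toWeakSpace ℝ Z).symm x) :=
    fun f => WeakBilin.eval_continuous (topDualPairing ℝ Z).flip f
  obtain ⟨n, hn⟩ := h2 ({x | |ContinuousLinearMap.snd ℝ _ ℝ ((toWeakSpace ℝ Z).symm x)| < 1 / 2} ∩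
      {x | 3 / 2 < G t ((toWeakSpace ℝ Z).symm x)})
    ((isOpen_lt (hev _).abs continuous_const).inter (isOpen_lt continuous_const (hev _))) (by
      obtain ⟨a1, a2⟩ := K_mem (fun h => le_N h []) (fun h => le_N h [])
      have a3 := U_cvx a1 a2 (show (0 : ℝ) ≤ 1 / 2 by norm_num) (show (0 : ℝ) ≤ 1 / 2 by norm_num)
        (by norm_num)
      refine ⟨_, ⟨?_, ?_⟩, _, a3, rfl⟩
      · simp
      · simp only [mem_ofPred_eq, LinearEquiv.symm_apply_apply]
        have a4 : ∀ r : ℝ, G t ((pat [], pat []), r) = 1 + 1 := fun r => rfl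
        rw [map_add, map_smul, map_smul, a4, a4]
        norm_num)
  obtain ⟨a1, a2⟩ := hn ⟨hb2 n (s n), _, hb n (s n), rfl⟩
  simp only [mem_ofPred_eq, LinearEquiv.symm_apply_apply, ContinuousLinearMap.coe_snd'] at a1 a2
  rcases hg n (s n) t (hs n) with a3 | a3 <;> linarith

end Pool.Agent.H87.MkS
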