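import Pool.Agent.H87.GatD

namespace Pool.Agent.H87.Mlur

open Filter Topology Set TopologicalSpace

variable {X : Type} [NormedAddCommGroup X] [NormedSpace ℝ X]

lemma sepdual [CompleteSpace X] [SeparableSpace X] (B : Set (X →L[ℝ] ℝ)) (hB : B.Countable)
    (h : ∀ x, ∃ φ ∈ B, ‖φ‖ ≤ 1 ∧ φ x = ‖x‖) : SeparableSpace (X →L[ℝ] ℝ) := by
  obtain ⟨f, rfl⟩ := hB.exists_eq_range ((h 0).imp fun _ h => h.1)
  have h1 := GatD.igen (X := X) (fun n => {StrongDual.toWeakDual (f n)}) (fun _ => isClosed_singleton)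
    (fun _ => convex_singleton _) (fun φ ⟨h1, x, h2⟩ => by
      obtain ⟨_, ⟨n, rfl⟩, h3, h4⟩ := h x
      refine ⟨n, congrArg _ (by_contra fun e => (h2 _ h3 (Ne.symm e)).not_ge ?_)⟩
      exact ((le_abs_self _).trans (φ.le_of_opNorm_le h1 x)).trans (by rw [h4, one_mul]))
    (Submodule.span ℝ (range f)) (Submodule.convex _) (by
      rintro n _ rfl; exact Submodule.subset_span ⟨n, rfl⟩)
  rw [← isSeparable_univ_iff]
  refine (((countable_range f).isSeparable.span (R := ℝ)).closure.span (R := ℝ)).mono fun g _ => ?_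
  rcases eq_or_ne g 0 with rfl | hg
  · exact Submodule.zero_mem _
  · rw [← smul_inv_smul₀ (norm_ne_zero_iff.2 hg) g]
    exact Submodule.smul_mem _ _ (Submodule.subset_span (h1 (by
      simp [norm_smul, inv_mul_cancel₀ (norm_ne_zero_iff.2 hg)])))

lemma sepdual_sub (Y Z : Submodule ℝ X) (h : Y ≤ Z) [SeparableSpace (Z →L[ℝ] ℝ)] :
    SeparableSpace (Y →L[ℝ] ℝ) := by
  refine DenseRange.separableSpace (f := fun g : Z →L[ℝ] ℝ => g ∘L Y.subtypeL.codRestrict Z fun y => h y.2)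
    (Function.Surjective.denseRange fun g => ?_) (by fun_prop)
  obtain ⟨F, hF, -⟩ := exists_extension_norm_eq Y g
  exact ⟨F ∘L Z.subtypeL, ContinuousLinearMap.ext fun y => hF y⟩

lemma ulim {D : Type} (U : Ultrafilter D) (α : D → X →L[ℝ] ℝ) (h : ∀ k w, |α k w| ≤ ‖w‖) :
    ∃ y : X →L[ℝ] ℝ, ‖y‖ ≤ 1 ∧ ∀ w, Tendsto (fun k => α k w) U (𝓝 (y w)) := by
  obtain ⟨y, hy, h1⟩ := (WeakDual.isCompact_closedBall (𝕜 := ℝ) (E := X) 0 1).ultrafilter_le_nhds
    (U.map fun k => StrongDual.toWeakDual (α k)) (by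
      rw [Ultrafilter.coe_map, le_principal_iff, mem_map]
      exact Eventually.of_forall fun k => mem_closedBall_zero_iff.2
        (ContinuousLinearMap.opNorm_le_bound _ zero_le_one fun w => by
          rw [one_mul]; exact h k w))
  exact ⟨WeakDual.toStrongDual y, mem_closedBall_zero_iff.1 hy,
    fun w => ((WeakDual.eval_continuous w).tendsto y).comp h1⟩

lemma sconv (φ : ℕ → X →L[ℝ] ℝ) (h1 : ∀ n x, |φ n x| ≤ ‖x‖) (h2 : ∀ x, (∀ n, φ n x = 0) → x = 0) :
    ∃ p : Seminorm ℝ X, (∃ c C : ℝ, 0 < c ∧ 0 < C ∧ ∀ x : X, c * ‖x‖ ≤ p x ∧ p x ≤ C * ‖x‖) ∧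
      ∀ x y : X, p x = 1 → p y = 1 → x ≠ y → p (x + y) < 2 := by
  have h3 : ∀ x n, ‖(1 / 2 : ℝ) ^ n * φ n x‖ ^ (2 : ENNReal).toReal ≤ ‖x‖ ^ 2 * (1 / 2) ^ n := by
    intro x n
    have a1 : (1 / 2 : ℝ) ^ n ≤ 1 := pow_le_one₀ (by norm_num) (by norm_num)
    have a2 : (0 : ℝ) < (1 / 2) ^ n := by positivity
    have a3 := pow_le_pow_left₀ (abs_nonneg _) (h1 n x) 2
    rw [ENNReal.toReal_ofNat, Real.rpow_two, norm_mul, Real.norm_of_nonneg a2.le, Real.norm_eq_abs]
    nlinarith [mul_le_mul_of_nonneg_left a3 (mul_pos a2 a2).le,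
      mul_nonneg (mul_nonneg a2.le (sub_nonneg.2 a1)) (sq_nonneg ‖x‖)]
  have h4 := fun x : X => summable_geometric_two.mul_left (‖x‖ ^ 2)
  have h5 := fun x => (h4 x).of_nonneg_of_le (fun _ => by positivity) (h3 x)
  let T : X →ₗ[ℝ] lp (fun _ : ℕ => ℝ) 2 :=
    { toFun := fun x => ⟨fun n => (1 / 2) ^ n * φ n x, memℓp_gen (h5 x)⟩
      map_add' := fun x y => lp.ext (funext fun n => by simp [mul_add])
      map_smul' := fun c x => lp.ext (funext fun n => by simp [mul_left_comm]) }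
  have hT : ∀ x, T x = 0 → x = 0 := fun x h => h2 x fun n => by
    simpa [T] using congrArg (fun f : lp (fun _ : ℕ => ℝ) 2 => f n) h
  refine ⟨normSeminorm ℝ X + (normSeminorm ℝ _).comp T, ⟨1, 3, one_pos, three_pos, fun x => ?_⟩,
    fun x y hx hy hxy => lt_of_not_ge fun h => hxy ?_⟩
  · have : ‖T x‖ ≤ 2 * ‖x‖ := lp.norm_le_of_tsum_le (by simp) (by positivity)
      (((h5 x).tsum_le_tsum (h3 x) (h4 x)).trans (by
        rw [tsum_mul_left, tsum_geometric_two, ENNReal.toReal_ofNat, Real.rpow_two]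
        nlinarith [sq_nonneg ‖x‖]))
    simp only [add_apply, coe_normSeminorm, Seminorm.comp_apply]
    constructor <;> linarith [norm_nonneg (T x)]
  · simp only [add_apply, coe_normSeminorm, Seminorm.comp_apply, map_add] at hx hy h
    have a1 : SameRay ℝ (T x) (T y) := sameRay_iff_norm_add.2 (by
      linarith [norm_add_le x y, norm_add_le (T x) (T y)])
    obtain ⟨r, hr, a2⟩ := a1.exists_pos_left (fun e => by simp [hT x e] at hx)
      (fun e => by simp [hT y e] at hy)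
    have a3 : r • x = y := sub_eq_zero.1 (hT _ (by rw [map_sub, map_smul, a2, sub_self]))
    rw [← a3, map_smul, norm_smul, norm_smul, ← mul_add, hx, mul_one, Real.norm_of_nonneg hr.le] at hy
    rw [← a3, hy, one_smul]

lemma notM (q : Seminorm ℝ X) (c : ℝ) (hc : 0 < c) (x : X) (u : ℕ → X) (h1 : ∀ k, c ≤ q (u k))
    (h2 : ∀ k : ℕ, q (x + u k) ≤ q x + c / (k + 1)) (h3 : ∀ k : ℕ, q (x - u k) ≤ q x + c / (k + 1)) :
    ¬ ∀ x : X, q x = 1 → ∀ u : ℕ → X, (∀ n, q (u n) ≤ 1) →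
      Tendsto (fun n => q (x + u n)) atTop (𝓝 1) → Tendsto (fun n => q (x - u n)) atTop (𝓝 1) →
      Tendsto (fun n => q (u n)) atTop (𝓝 0) := by
  intro h
  have a1 : ∀ k : ℕ, q (u k) ≤ q x + c / (k + 1) := fun k => by
    have := map_sub_le_add q (x + u k) (x - u k)
    rw [show x + u k - (x - u k) = (2 : ℝ) • u k by module, map_smul_eq_mul] at this
    norm_num at this
    linarith [h2 k, h3 k]
  have a2 : 0 < q x := by
    have := (h1 1).trans (a1 1)
    norm_num at this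
    linarith
  have a0 : c ≤ q x := ge_of_tendsto' (by
    simpa using (tendsto_const_div_atTop_nhds_zero_nat c).comp (tendsto_add_atTop_nat 1) |>.const_add
      (q x)) fun k => (h1 k).trans (a1 k)
  set r := (q x)⁻¹ with hr
  have r0 : 0 < r := inv_pos.2 a2
  have r1 : r * q x = 1 := inv_mul_cancel₀ a2.ne'
  have a3 : ∀ (k : ℕ) w, q (x + w) ≤ q x + c / (k + 1) →
      q (r • x + (r / 2) • w) ≤ 1 + r * (c / (k + 1)) := fun k w hw => by
    have := map_add_le_add q ((r / 2) • x) ((r / 2) • (x + w))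
    rw [show (r / 2) • x + (r / 2) • (x + w) = r • x + (r / 2) • w by module, map_smul_eq_mul,
      map_smul_eq_mul, Real.norm_of_nonneg (half_pos r0).le] at this
    have a4 : 0 < r * (c / (k + 1)) := by positivity
    nlinarith
  have a4 : ∀ k : ℕ, q (r • x - (r / 2) • u k) ≤ 1 + r * (c / (k + 1)) := fun k => by
    simpa [sub_eq_add_neg] using a3 k (-u k) (by simpa [sub_eq_add_neg] using h3 k)
  have a5 : q (r • x) = 1 := by rw [map_smul_eq_mul, Real.norm_of_nonneg r0.le, r1]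
  have a6 : ∀ k, 2 ≤ q (r • x + (r / 2) • u k) + q (r • x - (r / 2) • u k) := fun k => by
    have := map_add_le_add q (r • x + (r / 2) • u k) (r • x - (r / 2) • u k)
    rwa [show r • x + (r / 2) • u k + (r • x - (r / 2) • u k) = (2 : ℝ) • r • x by module,
      map_smul_eq_mul, a5, mul_one, Real.norm_two] at this
  have t0 : Tendsto (fun k : ℕ => r * (c / (k + 1))) atTop (𝓝 0) := by
    simpa using ((tendsto_const_div_atTop_nhds_zero_nat c).comp (tendsto_add_atTop_nat 1)).const_mul r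
  have t1 := t0.const_add 1
  have t2 := t0.const_sub 1
  rw [add_zero] at t1
  rw [sub_zero] at t2
  have a7 : ∀ k, q ((r / 2) • u k) = r / 2 * q (u k) := fun k => by
    rw [map_smul_eq_mul, Real.norm_of_nonneg (half_pos r0).le]
  have := h (r • x) a5 (fun k => (r / 2) • u k) (fun k => by
      have : c / (k + 1) ≤ c := div_le_self hc.le (by simp)
      rw [a7]; nlinarith [a1 k])
    (tendsto_of_tendsto_of_tendsto_of_le_of_le t2 t1 (fun k => by linarith [a6 k, a4 k])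
      fun k => a3 k _ (h2 k))
    (tendsto_of_tendsto_of_tendsto_of_le_of_le t2 t1 (fun k => by linarith [a6 k, a3 k _ (h2 k)]) a4)
  exact (ge_of_tendsto' this fun k => (a7 k).ge.trans' (mul_le_mul_of_nonneg_left (h1 k)
    (half_pos r0).le)).not_gt (by positivity)

end Pool.Agent.H87.Mlur
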