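import Pool.Agent.H87.Mlur1

namespace Pool.Agent.H87.Mlur

open Filter Topology Set TopologicalSpace Classical Encodable
open scoped ENNReal

abbrev D := ℕ × (ℚ →₀ ℤ)

def tr (l : ℕ) (β : ℚ → ℤ) : ℚ → ℤ := fun c => if encode c < l then β c else 0

def cut (q : ℚ) (β : ℚ → ℤ) : ℚ → ℤ := fun c => if c < q then β c else 0

def Act (β : ℚ → ℤ) (d : D) (q : ℚ) : Prop :=
  β q ≠ 0 ∧ (β q).natAbs ≤ d.1 ∧ ⇑d.2 = tr d.1 (cut q β)

def F (β : ℚ → ℤ) (z : ℤ) (d : D) (P : ℤ → Prop) : Prop :=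
  (∃ q, Act β d q ∧ P (β q) ∧ ∀ q', Act β d q' → q ≤ q') ∨
    ((∀ q, ¬ Act β d q) ∧ ⇑d.2 = tr d.1 β ∧ z.natAbs ≤ d.1 ∧ P z)

noncomputable def v (β : ℚ → ℤ) (z : ℤ) (d : D) : ℤ :=
  (if F β z d (0 < ·) then 1 else 0) - if F β z d (· < 0) then 1 else 0

lemma v_mem (β : ℚ → ℤ) (z : ℤ) (d : D) : v β z d = 1 ∨ v β z d = 0 ∨ v β z d = -1 := by
  unfold v; split_ifs <;> simp

lemma act_cut {β : ℚ → ℤ} {d : D} {q c : ℚ} : Act (cut q β) d c ↔ c < q ∧ Act β d c := by
  by_cases h : c < q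
  · have : cut c (cut q β) = cut c β := funext fun a => by
      unfold cut; split_ifs with h1 h2; exacts [rfl, absurd (h1.trans h) h2, rfl]
    simp only [Act, this, show cut q β c = β c from if_pos h, h, true_and]
  · simp [Act, show cut q β c = 0 from if_neg h, h]

lemma v_cut {β : ℚ → ℤ} {z : ℤ} {d : D} {q : ℚ} (h0 : β q ≠ 0) (h1 : ∀ c, q < c → ¬ Act β d c)
    (h2 : ¬ (⇑d.2 = tr d.1 β ∧ z.natAbs ≤ d.1)) : v β z d = v (cut q β) (β q) d := by
  have : ∀ P, F β z d P ↔ F (cut q β) (β q) d P := fun P => by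
    constructor
    · rintro (⟨c, a1, a2, a3⟩ | ⟨-, a1, a2, -⟩)
      · rcases (not_lt.1 fun h => h1 c h a1).lt_or_eq with h | rfl
        · exact .inl ⟨c, act_cut.2 ⟨h, a1⟩, by rwa [show cut q β c = β c from if_pos h],
            fun c' h' => a3 c' (act_cut.1 h').2⟩
        · exact .inr ⟨fun c' h' => (act_cut.1 h').1.not_ge (a3 c' (act_cut.1 h').2), a1.2.2,
            a1.2.1, a2⟩
      · exact absurd ⟨a1, a2⟩ h2
    · rintro (⟨c, a1, a2, a3⟩ | ⟨a0, a1, a2, a3⟩)
      · have h := (act_cut.1 a1).1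
        exact .inl ⟨c, (act_cut.1 a1).2, by rwa [show cut q β c = β c from if_pos h] at a2,
          fun c' h' => (lt_or_ge c' q).elim (fun h'' => a3 c' (act_cut.2 ⟨h'', h'⟩)) h.le.trans⟩
      · exact .inl ⟨q, ⟨h0, a2, a1⟩, a3, fun c' h' => not_lt.1 fun h'' => a0 c' (act_cut.2 ⟨h'', h'⟩)⟩
  simp only [v, this]

lemma v_vis {β : ℚ → ℤ} {z : ℤ} {d : D} {q : ℚ} (h0 : β q ≠ 0) (h1 : encode q < d.1)
    (h2 : d.2 q = 0) : v β z d = v (cut q β) (β q) d :=
  v_cut h0 (fun c hc h => h0 (by simpa [h2, tr, cut, h1, hc, eq_comm] using congrFun h.2.2 q))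
    fun h => h0 (by simpa [h2, tr, h1, eq_comm] using congrFun h.1 q)

lemma v_nz {β : ℚ → ℤ} {z : ℤ} {d : D} (h : v β z d ≠ 0) : ∃ p : ℚ → Prop,
    (∀ a b, a ≤ b → p b → p a) ∧ ∀ c, d.2 c = if encode c < d.1 ∧ p c then β c else 0 := by
  obtain ⟨P, hP⟩ : ∃ P, F β z d P := by
    by_contra! h'
    simp [v, h'] at h
  rcases hP with ⟨q, a1, -⟩ | ⟨-, a1, -⟩
  · exact ⟨(· < q), fun a b => lt_of_le_of_lt, fun c => by
      by_cases h2 : c < q <;> simp [a1.2.2, tr, cut, h2]⟩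
  · exact ⟨fun _ => True, by simp, fun c => by simp [a1, tr]⟩

lemma v_zero {β : ℚ → ℤ} {z : ℤ} {d : D} {c : ℚ} (h1 : β c = 0) (h2 : d.2 c ≠ 0) : v β z d = 0 := by
  by_contra h
  obtain ⟨p, -, h⟩ := v_nz h
  simp [h c, h1] at h2

lemma v_sign {β : ℚ → ℤ} {z : ℤ} {d : D} (h : z.natAbs ≤ d.1) :
    v β z d = v β (SignType.sign z) d := by
  rcases lt_trichotomy z 0 with h1 | rfl | h1
  · simp [v, F, h, h1, h1.not_gt, show 1 ≤ d.1 by omega]
  · simp
  · simp [v, F, h, h1, h1.not_gt, show 1 ≤ d.1 by omega]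

lemma v_mid (β : ℚ → ℤ) (m : ℕ) (d : D) : v β (m + 1) d + v β (-(m + 1)) d = 2 * v β 0 d := by
  have h1 : (0 : ℤ) < m + 1 := by omega
  have h2 : ¬ (m : ℤ) + 1 < 0 := by omega
  by_cases h : ∀ q, ¬ Act β d q
  · simp only [v, F, h, false_and, exists_false, false_or, Int.natAbs_neg, h1, h2, neg_pos,
      neg_lt_zero, lt_self_iff_false, and_false, if_false]
    ring
  · simp only [v, F, h, false_and, or_false]
    ring

noncomputable def Fn (γ : ℚ → ℤ) (t : SignType → ℤ) (β : ℚ → ℤ) (z : ℤ) : ℤ :=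
  if β = γ then t (SignType.sign z) else
    if h : ∃ q, β q ≠ 0 ∧ cut q β = γ then t (SignType.sign (β h.choose)) else 0

lemma types (U : Ultrafilter D) (β₀ : ℚ → ℤ) (z₀ : ℤ) (hw : (Function.support β₀).IsWF)
    (h0 : ∀ᶠ d : D in U, v β₀ z₀ d ≠ 0) : (∃ d, U = pure d) ∨ ∃ γ t, (γ = β₀ ∨ ∃ q, γ = cut q β₀) ∧
      ∀ β z, (Function.support β).IsWF → ∀ᶠ d : D in U, v β z d = Fn γ t β z := by
  have h1 : ∀ c, ∃ g, ∀ᶠ d : D in U, d.2 c = g := fun c => by
    have : ∀ᶠ d : D in U, d.2 c = β₀ c ∨ d.2 c = 0 := h0.mono fun d h => by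
      obtain ⟨p, -, h⟩ := v_nz h
      rw [h c]; split_ifs <;> simp
    exact (Ultrafilter.eventually_or.1 this).elim (⟨_, ·⟩) (⟨_, ·⟩)
  choose γ hγ using h1
  by_cases hl : ∀ l, ∀ᶠ d : D in U, l < d.1
  swap
  · obtain ⟨l, hl⟩ := not_forall.1 hl
    refine .inl ((U.eq_pure_of_finite_mem (Finite.of_injOn (f := Prod.fst) (t := Iic l)
      (fun d h => not_lt.1 h.1.1) (fun d h d' h' e => ?_) (finite_Iic l))
      (((Ultrafilter.eventually_not.2 hl).and h0).and ((eventually_all_finite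
        ((finite_Iio l).preimage encode_injective.injOn)).2 fun c _ => hγ c))).imp fun _ h => h.2)
    refine Prod.ext e (Finsupp.ext fun c => ?_)
    by_cases hc : encode c < d.1
    · rw [h.2 c (hc.trans_le (not_lt.1 h.1.1)), h'.2 c (hc.trans_le (not_lt.1 h.1.1))]
    · obtain ⟨p, -, a1⟩ := v_nz h.1.2
      obtain ⟨p', -, a2⟩ := v_nz h'.1.2
      rw [a1, a2, if_neg fun h => hc h.1, if_neg fun h => hc (e ▸ h.1)]
  have h2 : ∀ β z, (Function.support β).IsWF → (∀ᶠ d : D in U, v β z d ≠ 0) →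
      β = γ ∨ ∃ q, β q ≠ 0 ∧ cut q β = γ := fun β z hw h => by
    have f2 : ∀ a c, a ≤ c → γ c ≠ 0 → γ a = β a := fun a c hac hc => by
      obtain ⟨d, a1, a2, a3, a4⟩ := (h.and ((hγ a).and ((hγ c).and (hl (encode a))))).exists
      obtain ⟨p, b1, b2⟩ := v_nz a1
      rw [← a2, b2, if_pos ⟨a4, b1 a c hac (by_contra fun h => hc (by simp [← a3, b2, h]))⟩]
    have f1 : {c | β c ≠ γ c} ⊆ Function.support β := fun c hc e =>
      hc (by_contra fun h => h (f2 c c le_rfl fun e' => h (e.trans e'.symm)).symm)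
    refine or_iff_not_imp_left.2 fun hne => ?_
    have hn : {c | β c ≠ γ c}.Nonempty := Function.ne_iff.1 hne
    have a1 := (hw.mono f1).min_mem hn
    refine ⟨_, f1 a1, funext fun c => ?_⟩
    unfold cut
    split_ifs with hc
    · exact by_contra fun h => (hw.mono f1).not_lt_min hn h hc
    · exact by_contra fun h => a1 (f2 _ c (not_lt.1 hc) (Ne.symm h)).symm
  have h3 : ∀ β z, ∃ s, ∀ᶠ d : D in U, v β z d = s := fun β z => by
    have := Eventually.of_forall (f := (U : Filter D)) (v_mem β z)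
    simp only [Ultrafilter.eventually_or] at this
    rcases this with h | h | h <;> exact ⟨_, h⟩
  choose s hs using h3
  have h4 : ∀ z, ∀ᶠ d : D in U, v γ z d = s γ (SignType.sign z) := fun z => by
    filter_upwards [hl z.natAbs, hs γ (SignType.sign z)] with d a1 a2 using (v_sign a1.le).trans a2
  refine .inr ⟨γ, fun t => s γ t, (h2 β₀ z₀ hw h0).imp Eq.symm fun ⟨q, h⟩ => ⟨q, h.2.symm⟩,
    fun β z hw => ?_⟩
  unfold Fn
  split_ifs with a1 a2
  · exact a1 ▸ h4 z
  · obtain ⟨b1, b2⟩ := a2.choose_spec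
    filter_upwards [h4 (β a2.choose), hγ a2.choose, hl (encode a2.choose)] with d c1 c2 c3
    rw [v_vis b1 c3 (c2.trans ((congrFun b2 _).symm.trans (if_neg (lt_irrefl _)))), b2, c1]
  · exact by_contra fun h => (h2 β z hw (Ultrafilter.eventually_not.2 h)).elim a1 a2

abbrev G := {p : (ℚ → ℤ) × ℤ // (Function.support p.1).IsWF}

abbrev Y := lp (fun _ : D => ℝ) ∞

lemma v_le (β : ℚ → ℤ) (z : ℤ) (d : D) : |(v β z d : ℝ)| ≤ 1 := by
  rcases v_mem β z d with h | h | h <;> simp [h]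

noncomputable def ey (g : G) : Y :=
  ⟨fun d => v g.1.1 g.1.2 d, memℓp_infty ⟨1, by rintro _ ⟨d, rfl⟩; exact v_le _ _ d⟩⟩

def X : Type := (Submodule.span ℝ (range ey)).topologicalClosure

noncomputable instance : NormedAddCommGroup X :=
  inferInstanceAs (NormedAddCommGroup (Submodule.span ℝ (range ey)).topologicalClosure)
noncomputable instance : NormedSpace ℝ X :=
  inferInstanceAs (NormedSpace ℝ (Submodule.span ℝ (range ey)).topologicalClosure)
instance : CompleteSpace X := (Submodule.isClosed_topologicalClosure _).completeSpace_coe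

noncomputable def e (g : G) : X :=
  ⟨ey g, Submodule.le_topologicalClosure _ (Submodule.subset_span ⟨g, rfl⟩)⟩

noncomputable def ev (d : D) : X →L[ℝ] ℝ :=
  (lp.evalCLM ℝ (fun _ : D => ℝ) ∞ d).comp (Submodule.span ℝ (range ey)).topologicalClosure.subtypeL

@[simp] lemma ev_e (d : D) (g : G) : ev d (e g) = v g.1.1 g.1.2 d := rfl

lemma ev_le (d : D) (x : X) : |ev d x| ≤ ‖x‖ := lp.norm_apply_le_norm (by simp) x.1 d

lemma norm_le {x : X} {M : ℝ} (hM : 0 ≤ M) (h : ∀ d, |ev d x| ≤ M) : ‖x‖ ≤ M :=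
  lp.norm_le_of_forall_le (f := x.1) hM h

lemma ext_ev {x y : X} (h : ∀ d, ev d x = ev d y) : x = y := Subtype.ext (lp.ext (funext h))

lemma dense_of {V : Type} [NormedAddCommGroup V] [NormedSpace ℝ V] {ι : Type} (f : ι → V) :
    Dense (X := (Submodule.span ℝ (range f)).topologicalClosure) (Submodule.span ℝ (range fun i =>
      (⟨f i, Submodule.le_topologicalClosure _ (Submodule.subset_span ⟨i, rfl⟩)⟩ :
        (Submodule.span ℝ (range f)).topologicalClosure))) := by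
  intro x
  refine closure_subtype.2 ?_
  have := Submodule.map_span (Submodule.span ℝ (range f)).topologicalClosure.subtype (range fun i =>
    ⟨f i, Submodule.le_topologicalClosure _ (Submodule.subset_span ⟨i, rfl⟩)⟩)
  rw [← range_comp] at this
  exact (congrArg (fun S : Submodule ℝ V => x.1 ∈ closure (S : Set V)) this).mpr x.2

lemma sep_ctble (T : Set G) (hT : T.Countable) :
    SeparableSpace ((Submodule.span ℝ (range fun g : T => e g)).topologicalClosure →L[ℝ] ℝ) := by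
  have _ := hT.to_subtype
  set Z := (Submodule.span ℝ (range fun g : T => e g)).topologicalClosure with hZ
  have hd := dense_of fun g : T => e g
  set e' : T → Z := fun i =>
    ⟨e i, Submodule.le_topologicalClosure _ (Submodule.subset_span ⟨i, rfl⟩)⟩ with he'
  have _ : CompleteSpace Z := (Submodule.isClosed_topologicalClosure _).completeSpace_coe
  have _ : SeparableSpace Z := by
    rw [← isSeparable_univ_iff, ← hd.closure_eq]
    exact ((countable_range e').isSeparable.span (R := ℝ)).closure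
  set B := {φ : Z →L[ℝ] ℝ | ∃ U : Ultrafilter D, ∀ w : Z, Tendsto (fun d => ev d w) U (𝓝 (φ w))}
  have hB : B.Countable := by
    refine MapsTo.countable_of_injOn (f := fun φ g => φ (e' g)) (t := {0} ∪
      (range fun (d : D) (g : T) => (v g.1.1.1 g.1.1.2 d : ℝ)) ∪ range fun
        (p : T × Option ℚ × (SignType → ℤ)) (g : T) => (Fn (p.2.1.elim p.1.1.1.1 fun q =>
          cut q p.1.1.1.1) p.2.2 g.1.1.1 g.1.1.2 : ℝ)) (fun φ ⟨U, hU⟩ => ?_)
      (fun φ _ ψ _ h => ContinuousLinearMap.ext_on hd (by rintro _ ⟨g, rfl⟩; exact congrFun h g))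
      (((countable_singleton _).union (countable_range _)).union (countable_range _))
    have h1 : ∀ (g : T) (s : ℤ), (∀ᶠ d : D in U, v g.1.1.1 g.1.1.2 d = s) → φ (e' g) = s :=
      fun g s h => tendsto_nhds_unique (hU _) (tendsto_const_nhds.congr' (h.mono fun d h => by
        rw [← h]; rfl))
    by_cases h : ∀ g : T, ∀ᶠ d : D in U, v g.1.1.1 g.1.1.2 d = 0
    · exact .inl (.inl (funext fun g => by simpa using h1 g 0 (h g)))
    obtain ⟨g, h⟩ := not_forall.1 h
    rcases types U _ _ g.1.2 (Ultrafilter.eventually_not.2 h) with ⟨d, rfl⟩ | ⟨γ, t, h2, h3⟩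
    · exact .inl (.inr ⟨d, funext fun g => (h1 g _ (by simp)).symm⟩)
    · rcases h2 with rfl | ⟨q, rfl⟩
      exacts [.inr ⟨(g, none, t), funext fun g => (h1 g _ (h3 _ _ g.1.2)).symm⟩,
        .inr ⟨(g, some q, t), funext fun g => (h1 g _ (h3 _ _ g.1.2)).symm⟩]
  refine sepdual (B ∪ Neg.neg '' B) (hB.union (hB.image _)) fun w => ?_
  have h1 : ∀ k : ℕ, ∃ d, ‖w‖ - 1 / (k + 1) ≤ |ev d w| := fun k => by
    by_contra! h
    have h0 : (0 : ℝ) < 1 / (k + 1) := by positivity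
    linarith [show ‖w‖ ≤ _ from norm_le ((abs_nonneg _).trans (h (0, 0)).le) fun d => (h d).le]
  choose d hd using h1
  obtain ⟨φ, h2, h3⟩ := ulim ((hyperfilter ℕ).map d) (fun d => ev d ∘L Z.subtypeL) fun d w => ev_le d w
  have h4 : |φ w| = ‖w‖ := tendsto_nhds_unique (h3 w).abs
    ((tendsto_of_tendsto_of_tendsto_of_le_of_le (by simpa using
      (tendsto_one_div_add_atTop_nhds_zero_nat (𝕜 := ℝ)).const_sub ‖w‖) tendsto_const_nhds hd
      fun k => ev_le _ _).mono_left Nat.hyperfilter_le_atTop)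
  rcases abs_cases (φ w) with h | h
  exacts [⟨φ, .inl ⟨_, h3⟩, h2, h.1.symm.trans h4⟩,
    ⟨-φ, .inr ⟨φ, ⟨_, h3⟩, rfl⟩, by simpa, h.1.symm.trans h4⟩]

lemma asplund (W : Submodule ℝ X) (h : SeparableSpace W) : SeparableSpace (W →L[ℝ] ℝ) := by
  have h1 : ∀ x : X, ∃ T : Set G, T.Countable ∧
      x ∈ closure (Submodule.span ℝ (e '' T) : Set X) := fun x => by
    obtain ⟨u, h1, h2⟩ := mem_closure_iff_seq_limit.1 (dense_of ey x)
    choose φ hφ using fun k => Finsupp.mem_span_range_iff_exists_finsupp.1 (h1 k)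
    refine ⟨⋃ k, (φ k).support, countable_iUnion fun k => Finset.countable_toSet _,
      mem_closure_of_tendsto h2 (.of_forall fun k => hφ k ▸ Submodule.sum_mem _ fun g hg =>
        Submodule.smul_mem _ _ (Submodule.subset_span ⟨g, mem_iUnion.2 ⟨k, hg⟩, rfl⟩))⟩
  choose T h1 h2 using h1
  obtain ⟨c, h3, h4⟩ := IsSeparable.of_subtype (W : Set X)
  have _ := sep_ctble (⋃ x ∈ c, T x) (h3.biUnion fun x _ => h1 x)
  refine sepdual_sub W (Submodule.span ℝ (range fun g : ⋃ x ∈ c, T x => e g)).topologicalClosure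
    (h4.trans (closure_minimal (fun x hx => closure_mono (Submodule.span_mono ?_) (h2 x))
      isClosed_closure))
  rintro _ ⟨g, hg, rfl⟩
  exact ⟨⟨g, mem_biUnion hx hg⟩, rfl⟩

end Pool.Agent.H87.Mlur
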