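import Pool.Agent.H87.Mlur2

namespace Pool.Agent.H87.Mlur

open Filter Topology Set Classical Encodable

structure Cd where
  β : ℚ → ℤ
  a : ℚ
  r : ℚ
  n : ℕ
  wf : (Function.support β).IsWF
  lt : a < r
  top : ∀ c, a < c → β c = 0

structure Le (p' p : Cd) : Prop where
  a : p.a ≤ p'.a
  r : p'.r ≤ p.r
  n : p.n ≤ p'.n
  eq : ∀ c ≤ p.a, p'.β c = p.β c
  new : ∀ c, p.a < c → p'.β c ≠ 0 → p.n < (p'.β c).natAbs

lemma Le.refl (p : Cd) : Le p p :=
  ⟨le_rfl, le_rfl, le_rfl, fun _ _ => rfl, fun c h h' => absurd (p.top c h) h'⟩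

lemma Le.trans {p q s : Cd} (h : Le p q) (h' : Le q s) : Le p s :=
  ⟨h'.a.trans h.a, h.r.trans h'.r, h'.n.trans h.n,
    fun c hc => (h.eq c (hc.trans h'.a)).trans (h'.eq c hc), fun c hc h0 =>
      (le_or_gt c q.a).elim (fun h1 => h.eq c h1 ▸ h'.new c hc (h.eq c h1 ▸ h0))
        fun h1 => h'.n.trans_lt (h.new c h1 h0)⟩

def Cd.ext (p : Cd) (z : ℤ) (q r : ℚ) (h : p.a < q) (h' : q < r) : Cd :=
  ⟨Function.update p.β q z, q, r, encode q + p.n + 1,
    (p.wf.insert q).mono fun c hc => by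
      by_cases e : c = q
      exacts [.inl e, .inr (by simpa [e] using hc)],
    h', fun c hc => by rw [Function.update_of_ne hc.ne', p.top c (h.trans hc)]⟩

lemma Cd.ext_le (p : Cd) {z : ℤ} {q r : ℚ} (h : p.a < q) (h' : q < r) (hr : r ≤ p.r)
    (hz : p.n < z.natAbs) : Le (p.ext z q r h h') p :=
  ⟨h.le, hr, by simp only [Cd.ext]; omega, fun c hc => Function.update_of_ne (hc.trans_lt h).ne _ _,
    fun c hc h0 => by
      by_cases e : c = q
      · simpa [Cd.ext, e] using hz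
      · simp [Cd.ext, e, p.top c hc] at h0⟩

def R (p : Cd) : Set X := {y | ∃ p' z, Le p' p ∧ p'.n < z.natAbs ∧ y = e ⟨(p'.β, z), p'.wf⟩}

noncomputable def μ (N : X → ℝ) (p : Cd) : ℝ := sInf (N '' convexHull ℝ (R p))

lemma R_ne (p : Cd) : (convexHull ℝ (R p)).Nonempty :=
  ⟨_, subset_convexHull _ _ ⟨p, p.n + 1, .refl p, by omega, rfl⟩⟩

lemma e_le (g : G) : ‖e g‖ ≤ 1 := norm_le zero_le_one fun d => v_le _ _ d

lemma μ_le (N : Seminorm ℝ X) {p : Cd} {y : X} (h : y ∈ convexHull ℝ (R p)) : μ N p ≤ N y :=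
  csInf_le ⟨0, by rintro _ ⟨x, -, rfl⟩; exact apply_nonneg _ _⟩ ⟨y, h, rfl⟩

lemma below (N : Seminorm ℝ X) (b : ℝ) (hb : ∀ x, N x ≤ b * ‖x‖) (p : Cd) (M : ℝ)
    (h : ∀ p', Le p' p → μ N p' ≤ M) : ∀ y ∈ R p, N y ≤ M := by
  rintro _ ⟨s, z, h1, h2, rfl⟩
  set y := e ⟨(s.β, z), s.wf⟩ with hy
  set q : ℕ → ℚ := fun j => s.r - (s.r - s.a) / (j + 2) with hq
  have q0 := sub_pos.2 s.lt
  have q1 : StrictMono q := fun i j h => sub_lt_sub_left (div_lt_div_of_pos_left q0 (by positivity)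
    (by simpa using h)) _
  have q2 : ∀ j, s.a < q j := fun j => by
    have : (s.r - s.a) / (j + 2) < s.r - s.a := div_lt_self q0 (by linarith [Nat.cast_nonneg (α := ℚ) j])
    simp only [hq]; linarith
  have q3 : ∀ j, q j ≤ s.r := fun j => sub_le_self _ (by positivity)
  set P := fun j => s.ext z (q j) (q (j + 1)) (q2 j) (q1 j.lt_succ_self) with hP
  have h3 : ∀ j, ∀ w ∈ convexHull ℝ (R (P j)), ‖w‖ ≤ 1 ∧
      ∀ d : D, (d.2 (q j) = 0 ∨ ∃ i ≠ j, d.2 (q i) ≠ 0) → ev d w = ev d y := fun j =>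
    convexHull_min (t := {w | ‖w‖ ≤ 1 ∧ ∀ d : D, _ → ev d w = ev d y}) (by
      rintro _ ⟨t, z', a1, a2, rfl⟩
      refine ⟨e_le _, fun d hd => ?_⟩
      simp only [hy, ev_e, Int.cast_inj]
      have b1 : t.β (q j) = z := (a1.eq _ le_rfl).trans (Function.update_self _ _ _)
      have b2 : cut (q j) t.β = s.β := funext fun c => by
        unfold cut
        split_ifs with hc
        exacts [(a1.eq c hc.le).trans (Function.update_of_ne hc.ne _ _),
          (s.top c ((q2 j).trans_le (not_lt.1 hc))).symm]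
      have b3 : t.β (q j) ≠ 0 := by rw [b1]; rintro rfl; simp at h2
      have b4 := a1.n
      simp only [hP, Cd.ext] at b4
      rcases hd with hd | ⟨i, hi, hd⟩
      · rw [← b1, ← b2]
        by_cases hl : encode (q j) < d.1
        · exact v_vis b3 hl hd
        · refine v_cut b3 (fun c hc h => ?_) fun h => by omega
          have := a1.new c hc h.1
          have := h.2.1
          simp only [hP, Cd.ext] at *
          omega
      · rw [v_zero (s.top _ (q2 i)) hd, v_zero _ hd]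
        rcases hi.lt_or_gt with h | h
        · rw [← s.top _ (q2 i), ← b2]; exact (if_pos (q1 h)).symm
        · exact t.top _ (t.lt.trans_le (a1.r.trans (q1.monotone h))))
      fun u hu w hw a b ha hb hab => ⟨mem_closedBall_zero_iff.1 (convex_closedBall (0 : X) 1
        (mem_closedBall_zero_iff.2 hu.1) (mem_closedBall_zero_iff.2 hw.1) ha hb hab), fun d hd => by
          rw [map_add, map_smul, map_smul, hu.2 d hd, hw.2 d hd, ← add_smul, hab, one_smul]⟩
  refine le_of_forall_pos_le_add fun ε hε => ?_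
  choose w hw h4 using fun j => exists_lt_of_csInf_lt ((R_ne (P j)).image N)
    ((h (P j) ((s.ext_le _ _ (q3 _) h2).trans h1)).trans_lt (lt_add_of_pos_right M (half_pos hε)))
  choose w hw e using hw
  have h5 : ∀ J : ℕ, ‖∑ j ∈ Finset.range J, (y - w j)‖ ≤ 2 := fun J => norm_le zero_le_two fun d => by
    rw [map_sum]
    by_cases hd : ∃ i, d.2 (q i) ≠ 0
    · obtain ⟨i, hi⟩ := hd
      rw [Finset.sum_eq_ite i fun j _ hj => by
        rw [map_sub, (h3 j _ (hw j)).2 d (.inr ⟨i, hj.symm, hi⟩), sub_self]]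
      split_ifs
      · exact (ev_le _ _).trans ((norm_sub_le _ _).trans (by
          linarith [(h3 i _ (hw i)).1, e_le ⟨(s.β, z), s.wf⟩]))
      · simp
    · push Not at hd
      rw [Finset.sum_eq_zero fun j _ => by rw [map_sub, (h3 j _ (hw j)).2 d (.inl (hd j)), sub_self]]
      simp
  obtain ⟨J, hJ⟩ := exists_nat_gt (4 * |b| / ε)
  have J0 : (0 : ℝ) < J := hJ.trans_le' (by positivity)
  have h6 : J * N y ≤ |b| * 2 + J * (M + ε / 2) := by
    have a1 := map_add_le_add N (∑ j ∈ Finset.range J, (y - w j)) (∑ j ∈ Finset.range J, w j)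
    rw [← Finset.sum_add_distrib, Finset.sum_congr rfl fun j _ => sub_add_cancel y (w j),
      Finset.sum_const, Finset.card_range, ← Nat.cast_smul_eq_nsmul ℝ, map_smul_eq_mul,
      Real.norm_natCast] at a1
    refine a1.trans (add_le_add ((hb _).trans (mul_le_mul (le_abs_self b) (h5 J) (norm_nonneg _)
      (abs_nonneg b))) ((Finset.le_sum_of_subadditive N (map_zero N).le (map_add_le_add N) _ _).trans ?_))
    simpa [mul_add] using Finset.sum_le_card_nsmul (Finset.range J) _ _ fun j _ => ((e j).trans_lt (h4 j)).le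
  rw [div_lt_iff₀ hε] at hJ
  exact le_of_mul_le_mul_left (by nlinarith) J0

lemma stab (N : Seminorm ℝ X) (b : ℝ) (hb : ∀ x, N x ≤ b * ‖x‖) (p : Cd) {ε : ℝ} (hε : 0 < ε) :
    ∃ s, Le s p ∧ ∀ y ∈ R s, ∀ x ∈ convexHull ℝ (R s), N y ≤ N x + ε := by
  have h1 : BddAbove (μ N '' {s | Le s p}) := ⟨|b|, by
    rintro _ ⟨s, -, rfl⟩
    exact (μ_le N (subset_convexHull _ _ ⟨s, s.n + 1, .refl s, by omega, rfl⟩)).trans ((hb _).trans
      ((mul_le_mul (le_abs_self b) (e_le _) (norm_nonneg _) (abs_nonneg b)).trans_eq (mul_one _)))⟩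
  obtain ⟨_, ⟨s, hs, rfl⟩, h2⟩ := exists_lt_of_lt_csSup (s := μ N '' {s | Le s p})
    ⟨_, p, .refl p, rfl⟩ (sub_lt_self _ hε)
  exact ⟨s, hs, fun y hy x hx => (below N b hb s _ (fun t ht => le_csSup h1 ⟨t, ht.trans hs, rfl⟩)
    y hy).trans (by linarith [μ_le N hx])⟩

theorem main (N : Seminorm ℝ X) (b c : ℝ) (hc : 0 < c) (hb : ∀ x, c * ‖x‖ ≤ N x ∧ N x ≤ b * ‖x‖) :
    ∃ (x : X) (u : ℕ → X), (∀ k, c ≤ N (u k)) ∧ (∀ k : ℕ, N (x + u k) ≤ N x + c / (k + 1)) ∧
      ∀ k : ℕ, N (x - u k) ≤ N x + c / (k + 1) := by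
  choose S h1 h2 using fun p (k : ℕ) => stab N b (fun x => (hb x).2) p
    (show 0 < c / (k + 1) by positivity)
  let E := fun p : Cd => p.ext (p.n + 1) ((p.a + p.r) / 2) (((p.a + p.r) / 2 + p.r) / 2)
    (by linarith [p.lt]) (by linarith [p.lt])
  have hE : ∀ p, Le (E p) p := fun p => p.ext_le _ _ (by linarith [p.lt]) (by omega)
  let p : ℕ → Cd := fun k => Nat.rec (S ⟨0, 0, 1, 0, by simp, one_pos, by simp⟩ 0)
    (fun k p => S (E p) (k + 1)) k
  have p1 : ∀ k, Le (p (k + 1)) (E (p k)) := fun k => h1 _ _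
  have p2 : ∀ j k, j ≤ k → Le (p k) (p j) := fun j k h => by
    induction h with
    | refl => exact .refl _
    | step _ ih => exact ((p1 _).trans (hE _)).trans ih
  have p3 : ∀ k, ∀ y ∈ R (p k), ∀ x ∈ convexHull ℝ (R (p k)), N y ≤ N x + c / (k + 1) := fun k => by
    cases k <;> exact h2 _ _
  let β : ℚ → ℤ := fun c => if h : ∃ k, c ≤ (p k).a then (p h.choose).β c else 0
  have b1 : ∀ k c, c ≤ (p k).a → β c = (p k).β c := fun k c h => by
    have h' : ∃ k, c ≤ (p k).a := ⟨k, h⟩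
    rw [show β c = _ from dif_pos h']
    exact (le_total h'.choose k).elim (fun e => ((p2 _ _ e).eq c h'.choose_spec).symm)
      fun e => (p2 _ _ e).eq c h
  have b2 : ∀ k c, β c ≠ 0 → ∃ j ≥ k, c ≤ (p j).a := fun k c h => by
    obtain ⟨j, hj⟩ : ∃ k, c ≤ (p k).a := by_contra fun h' => h (dif_neg h')
    exact ⟨max j k, le_max_right _ _, hj.trans (p2 _ _ (le_max_left _ _)).a⟩
  have b3 : (Function.support β).IsWF := isWF_iff_no_descending_seq.2 fun f hf h => by
    obtain ⟨j, -, hj⟩ := b2 0 _ (h 0)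
    exact isWF_iff_no_descending_seq.1 (p j).wf f hf fun n => by
      rw [Function.mem_support, ← b1 j _ ((hf.antitone n.zero_le).trans hj)]; exact h n
  let t : ℕ → Cd := fun k => ⟨β, (p (k + 1)).r, (p k).r, (p k).n, b3,
    (p1 k).r.trans_lt (by simp only [E, Cd.ext]; linarith [(p k).lt]), fun c hc => by_contra fun h => by
      obtain ⟨j, h1, h2⟩ := b2 (k + 1) c h
      exact (h2.trans_lt ((p j).lt.trans_le (p2 _ _ h1).r)).not_gt hc⟩
  have t1 : ∀ k, Le (t k) (p k) := fun k => ⟨((p2 _ _ k.le_succ).a.trans_lt (p (k + 1)).lt).le, le_rfl,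
    le_rfl, b1 k, fun c hc h => by
      obtain ⟨j, h1, h2⟩ := b2 k c h
      simp only [t, b1 j c h2] at h ⊢
      exact (p2 _ _ h1).new c hc h⟩
  have y1 : ∀ k, e ⟨(β, (p k).n + 1), b3⟩ ∈ R (p k) := fun k => ⟨t k, _, t1 k, by simp [t]; omega, rfl⟩
  have y2 : ∀ k, e ⟨(β, -((p k).n + 1)), b3⟩ ∈ R (p k) := fun k =>
    ⟨t k, _, t1 k, by simp only [t]; omega, rfl⟩
  have y3 : ∀ m : ℕ, e ⟨(β, m + 1), b3⟩ + e ⟨(β, -(m + 1)), b3⟩ = (2 : ℝ) • e ⟨(β, 0), b3⟩ :=
    fun m => ext_ev fun d => by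
      simp only [map_add, map_smul, ev_e, smul_eq_mul]
      exact_mod_cast v_mid β m d
  have y4 : ∀ k, e ⟨(β, 0), b3⟩ ∈ convexHull ℝ (R (p k)) := fun k => by
    convert convex_convexHull ℝ _ (subset_convexHull _ _ (y1 k)) (subset_convexHull _ _ (y2 k))
      (a := 1 / 2) (b := 1 / 2) (by norm_num) (by norm_num) (by norm_num) using 1
    rw [← smul_add, y3, smul_smul]; norm_num
  refine ⟨e ⟨(β, 0), b3⟩, fun k => e ⟨(β, (p k).n + 1), b3⟩ - e ⟨(β, 0), b3⟩, fun k => ?_,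
    fun k => by simpa using p3 k _ (y1 k) _ (y4 k), fun k => ?_⟩
  · have a1 := (t1 (k + 1)).trans (p1 k)
    set q := ((p k).a + (p k).r) / 2 with hq
    set l := encode q + (p k).n + 1 with hl
    let d : D := (l, Finsupp.ofSupportFinite (tr l β) (((finite_Iio l).preimage
      encode_injective.injOn).subset fun c hc => by_contra fun h => hc (if_neg h)))
    have a2 : β q = (p k).n + 1 := (a1.eq q le_rfl).trans (Function.update_self _ _ _)
    have a3 : ∀ c, ¬ Act β d c := fun c h => (lt_or_ge q c).elim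
      (fun h' => (a1.new c h' h.1).not_ge h.2.1) fun h' => by
        have : tr l β q = tr l (cut c β) q := congrFun h.2.2 q
        simp only [tr, cut, h'.not_gt, if_false, ite_self, a2, if_pos (show encode q < l by omega)] at this
        omega
    refine le_trans ?_ (hb _).1
    refine le_mul_of_one_le_right hc.le (le_trans (le_of_eq ?_) (ev_le d _))
    have a4 : ⇑d.2 = tr d.1 β := rfl
    have a5 : (((p k).n : ℤ) + 1).natAbs ≤ d.1 := by simp only [d]; omega
    have a6 : ¬ ((p k).n : ℤ) + 1 < 0 := by omega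
    simp [v, F, a3, a4, a5, a6]
  · convert p3 k _ (y2 k) _ (y4 k) using 2
    rw [← add_left_cancel_iff (a := e ⟨(β, (p k).n + 1), b3⟩), y3]
    module

end Pool.Agent.H87.Mlur
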