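import Pool.Agent.H87.C0I

namespace Pool.Agent.H87.MonoCone

open Filter Topology Set C0I

abbrev X : Type := (ℝ × ℝ) × c0 (ℕ × ℕ)
abbrev P : Type := X × (X →L[ℝ] ℝ)

noncomputable def cc (p : P) : ℝ := p.2 p.1
noncomputable def su (p : P) : ℝ := p.2 ((1, 0), 0)
noncomputable def sa (p : P) : ℝ := p.2 ((0, 1), 0)
noncomputable def xx (p : P) (i : ℕ × ℕ) : ℝ := p.1.2 i
noncomputable def yy (p : P) (i : ℕ × ℕ) : ℝ := p.2 (0, e i)
def a (j n : ℕ) : ℝ := if n = 0 then 1 else 4 ^ j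
noncomputable def uu (p : P) (j n : ℕ) : ℝ := a j n * xx p (j, n) + yy p (j, n) / a j n
noncomputable def ww (p : P) (j n : ℕ) : ℝ := a j n * xx p (j, n) - yy p (j, n) / a j n
def Rel1 (p : P) : Prop := ∀ j n, uu p j (n + 1) = ww p j (n + 2)

lemma a_pos (j n : ℕ) : 0 < a j n := by unfold a; split_ifs <;> positivity
@[simp] lemma a_zero (j : ℕ) : a j 0 = 1 := rfl
@[simp] lemma a_succ (j n : ℕ) : a j (n + 1) = 4 ^ j := rfl

@[simp] lemma su_sub (p q : P) : su (p - q) = su p - su q := rfl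
@[simp] lemma sa_sub (p q : P) : sa (p - q) = sa p - sa q := rfl
@[simp] lemma xx_sub (p q : P) (i) : xx (p - q) i = xx p i - xx q i := rfl
@[simp] lemma yy_sub (p q : P) (i) : yy (p - q) i = yy p i - yy q i := rfl
@[simp] lemma su_add (p q : P) : su (p + q) = su p + su q := rfl
@[simp] lemma sa_add (p q : P) : sa (p + q) = sa p + sa q := rfl
@[simp] lemma xx_add (p q : P) (i) : xx (p + q) i = xx p i + xx q i := rfl
@[simp] lemma yy_add (p q : P) (i) : yy (p + q) i = yy p i + yy q i := rfl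
@[simp] lemma su_smul (r : ℝ) (q : P) : su (r • q) = r * su q := rfl
@[simp] lemma sa_smul (r : ℝ) (q : P) : sa (r • q) = r * sa q := rfl
@[simp] lemma xx_smul (r : ℝ) (q : P) (i) : xx (r • q) i = r * xx q i := rfl
@[simp] lemma yy_smul (r : ℝ) (q : P) (i) : yy (r • q) i = r * yy q i := rfl
@[simp] lemma uu_sub (p q : P) (j n) : uu (p - q) j n = uu p j n - uu q j n := by
  simp only [uu, xx_sub, yy_sub]; ring
@[simp] lemma ww_sub (p q : P) (j n) : ww (p - q) j n = ww p j n - ww q j n := by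
  simp only [ww, xx_sub, yy_sub]; ring
@[simp] lemma uu_add (p q : P) (j n) : uu (p + q) j n = uu p j n + uu q j n := by
  simp only [uu, xx_add, yy_add]; ring
@[simp] lemma ww_add (p q : P) (j n) : ww (p + q) j n = ww p j n + ww q j n := by
  simp only [ww, xx_add, yy_add]; ring
@[simp] lemma uu_smul (r : ℝ) (q : P) (j n) : uu (r • q) j n = r * uu q j n := by
  simp only [uu, xx_smul, yy_smul]; ring
@[simp] lemma ww_smul (r : ℝ) (q : P) (j n) : ww (r • q) j n = r * ww q j n := by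
  simp only [ww, xx_smul, yy_smul]; ring

noncomputable def rest (f : X →L[ℝ] ℝ) : c0 (ℕ × ℕ) →L[ℝ] ℝ :=
  f.comp (ContinuousLinearMap.inr ℝ _ _)

lemma apply_eq (f : X →L[ℝ] ℝ) (z : X) :
    f z = z.1.1 * f ((1, 0), 0) + z.1.2 * f ((0, 1), 0) + rest f z.2 := by
  have : z = z.1.1 • (((1, 0), 0) : X) + z.1.2 • (((0, 1), 0) : X) + (0, z.2) := by
    ext <;> simp
  conv_lhs => rw [this, map_add, map_add, map_smul, map_smul]
  rfl

lemma inj_row (j : ℕ) : Function.Injective fun n : ℕ => (j, n) := fun _ _ h => by simpa using h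

lemma xx_row (p : P) (j : ℕ) : Tendsto (fun n => xx p (j, n)) atTop (𝓝 0) := by
  rw [← Nat.cofinite_eq_atTop]
  exact (tendsto_zero p.1.2).comp (inj_row j).tendsto_cofinite

lemma yy_row (p : P) (j : ℕ) : Tendsto (fun n => yy p (j, n)) atTop (𝓝 0) := by
  rw [← Nat.cofinite_eq_atTop]
  exact (summable_abs (rest p.2)).of_abs.tendsto_cofinite_zero.comp (inj_row j).tendsto_cofinite

lemma ww_row (p : P) (j : ℕ) : Tendsto (fun n => ww p j (n + 1)) atTop (𝓝 0) := by
  have := ((((xx_row p j).comp (tendsto_add_atTop_nat 1)).const_mul (4 ^ j)).sub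
    (((yy_row p j).comp (tendsto_add_atTop_nat 1)).div_const (4 ^ j)))
  simpa [ww] using this

lemma Rel1.hasSum {p : P} (hp : Rel1 p) :
    HasSum (fun j => xx p (j, 0) * yy p (j, 0) - ww p j 1 ^ 2 / 4)
      (cc p - p.1.1.1 * su p - p.1.1.2 * sa p) := by
  have h := hasSum_dual (rest p.2) p.1.2
  have h2 : ∀ j, HasSum (fun n => p.1.2 (j, n) * rest p.2 (e (j, n)))
      (xx p (j, 0) * yy p (j, 0) - ww p j 1 ^ 2 / 4) := by
    intro j
    have hs : Summable fun n => p.1.2 (j, n) * rest p.2 (e (j, n)) :=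
      h.summable.comp_injective (inj_row j)
    rw [hs.hasSum_iff_tendsto_nat, ← tendsto_add_atTop_iff_nat 1]
    have e1 : ∀ N, ∑ n ∈ Finset.range (N + 1), p.1.2 (j, n) * rest p.2 (e (j, n))
        = xx p (j, 0) * yy p (j, 0) + (ww p j (N + 1) ^ 2 - ww p j 1 ^ 2) / 4 := by
      intro N
      induction N with
      | zero => simp; rfl
      | succ N ih =>
        rw [Finset.sum_range_succ, ih, ← hp j N]
        show _ + xx p (j, N + 1) * yy p (j, N + 1) = _
        simp only [uu, ww, a_succ]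
        field_simp
        ring
    simp only [e1]
    have := ((((ww_row p j).pow 2).sub_const (ww p j 1 ^ 2)).div_const 4).const_add
      (xx p (j, 0) * yy p (j, 0))
    convert this using 2
    ring
  have h3 := h.prod_fiberwise h2
  have e : cc p - p.1.1.1 * su p - p.1.1.2 * sa p = rest p.2 p.1.2 := by
    rw [cc, apply_eq, su, sa]; ring
  rw [e]; exact h3

lemma Rel1.bound {p : P} (hp : Rel1 p) (j : ℕ) : 4 ^ j * |ww p j 1| ≤ 2 * ‖rest p.2‖ := by
  have ha : (0 : ℝ) < 4 ^ j := by positivity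
  have e1 : ∀ N, 4 ^ j * ww p j (N + 1)
      = 4 ^ j * ww p j 1 + 2 * ∑ n ∈ Finset.range N, yy p (j, n + 1) := by
    intro N
    induction N with
    | zero => simp
    | succ N ih =>
      rw [Finset.sum_range_succ, ← hp j N, mul_add 2, ← add_assoc, ← ih]
      simp only [uu, ww, a_succ]
      field_simp
      ring
  have e2 : ∀ N, |4 ^ j * ww p j (N + 1) - 4 ^ j * ww p j 1| ≤ 2 * ‖rest p.2‖ := by
    intro N
    rw [e1, add_sub_cancel_left, abs_mul, abs_two]
    refine mul_le_mul_of_nonneg_left ((Finset.abs_sum_le_sum_abs _ _).trans ?_) zero_le_two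
    have := sum_abs_le (rest p.2) ((Finset.range N).map
      ⟨fun n => (j, n + 1), fun _ _ h => by simpa using h⟩)
    rwa [Finset.sum_map] at this
  have := le_of_tendsto' ((((ww_row p j).const_mul (4 ^ j)).sub_const (4 ^ j * ww p j 1)).abs) e2
  rwa [mul_zero, zero_sub, abs_neg, abs_mul, abs_of_pos ha] at this

noncomputable def evX (i : ℕ × ℕ) : X →L[ℝ] ℝ := (ev i).comp (ContinuousLinearMap.snd ℝ _ _)
noncomputable def fu : X →L[ℝ] ℝ :=
  (ContinuousLinearMap.fst ℝ _ _).comp (ContinuousLinearMap.fst ℝ _ _)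
noncomputable def fa : X →L[ℝ] ℝ :=
  (ContinuousLinearMap.snd ℝ _ _).comp (ContinuousLinearMap.fst ℝ _ _)

@[simp] lemma evX_apply (i) (x : X) : evX i x = x.2 i := rfl
@[simp] lemma fu_apply (x : X) : fu x = x.1.1 := rfl
@[simp] lemma fa_apply (x : X) : fa x = x.1.2 := rfl

noncomputable def sig (j n : ℕ) : P :=
  ((0, (a j n)⁻¹ • e (j, n) + (a j (n + 1))⁻¹ • e (j, n + 1)),
    a j n • evX (j, n) - a j (n + 1) • evX (j, n + 1))

lemma xx_sig (j n : ℕ) (i) : xx (sig j n) i = (a j n)⁻¹ * (if i = (j, n) then 1 else 0)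
    + (a j (n + 1))⁻¹ * if i = (j, n + 1) then 1 else 0 := rfl
lemma yy_sig (j n : ℕ) (i) : yy (sig j n) i = a j n * (if (j, n) = i then 1 else 0)
    - a j (n + 1) * if (j, n + 1) = i then 1 else 0 := rfl

lemma uu_sig (j n j' n' : ℕ) : uu (sig j n) j' n' = if j' = j ∧ n' = n then 2 else 0 := by
  have := (a_pos j n).ne'
  have := (a_pos j (n + 1)).ne'
  simp only [uu, xx_sig, yy_sig, Prod.mk.injEq]
  by_cases h : j' = j
  · subst h
    by_cases h1 : n' = n
    · subst h1; simp; field_simp; ring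
    · by_cases h2 : n' = n + 1
      · subst h2; simp
      · simp [h1, h2, Ne.symm h1, Ne.symm h2]
  · simp [h, Ne.symm h]

lemma ww_sig (j n j' n' : ℕ) : ww (sig j n) j' n' = if j' = j ∧ n' = n + 1 then 2 else 0 := by
  have := (a_pos j n).ne'
  have := (a_pos j (n + 1)).ne'
  simp only [ww, xx_sig, yy_sig, Prod.mk.injEq]
  by_cases h : j' = j
  · subst h
    by_cases h1 : n' = n
    · subst h1; simp; field_simp; ring
    · by_cases h2 : n' = n + 1
      · subst h2; simp; field_simp; ring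
      · simp [h1, h2, Ne.symm h1, Ne.symm h2]
  · simp [h, Ne.symm h]

/-- the skew subspace -/
def SS : Submodule ℝ P where
  carrier := {w | (∀ j n, uu w j n = ww w j (n + 1)) ∧ (∀ j, ww w j 0 = 0) ∧ su w = 0 ∧ sa w = 0}
  add_mem' := fun hp hq => ⟨fun j n => by simp [hp.1, hq.1], fun j => by simp [hp.2.1, hq.2.1],
    by simp [hp.2.2.1, hq.2.2.1], by simp [hp.2.2.2, hq.2.2.2]⟩
  zero_mem' := ⟨fun j n => by simp [uu, ww, xx, yy], fun j => by simp [ww, xx, yy], rfl, rfl⟩
  smul_mem' := fun r _ hp => ⟨fun j n => by simp [hp.1], fun j => by simp [hp.2.1],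
    by simp [hp.2.2.1], by simp [hp.2.2.2]⟩

lemma sig_mem (j n : ℕ) : sig j n ∈ SS :=
  ⟨fun j' n' => by simp [uu_sig, ww_sig], fun j' => by simp [ww_sig], by simp [su, sig],
    by simp [sa, sig]⟩

lemma base_mem (s t : ℝ) : ((((s, t), 0), 0) : P) ∈ SS :=
  ⟨fun j n => by simp [uu, ww, xx, yy], fun j => by simp [ww, xx, yy], rfl, rfl⟩

lemma cc_SS {w : P} (hw : w ∈ SS) : cc w = 0 := by
  have h := Rel1.hasSum (p := w) fun j n => hw.1 j (n + 1)
  have e : ∀ j, xx w (j, 0) * yy w (j, 0) - ww w j 1 ^ 2 / 4 = 0 := by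
    intro j
    have h1 := hw.1 j 0
    have h2 := hw.2.1 j
    rw [zero_add] at h1
    rw [← h1]
    simp only [uu, ww, a_zero, one_mul, div_one] at h2 ⊢
    rw [sub_eq_zero.1 h2]; ring
  simp only [e, hw.2.2.1, hw.2.2.2] at h
  have := h.unique hasSum_zero
  linarith

noncomputable def bb (p q : P) : ℝ := p.2 q.1 + q.2 p.1

lemma cc_sub (p q : P) : cc (p - q) = cc p - bb p q + cc q := by
  simp only [cc, bb, Prod.fst_sub, Prod.snd_sub, map_sub, _root_.sub_apply]; ring

noncomputable def bbL (p : P) : P →ₗ[ℝ] ℝ where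
  toFun := fun w => bb p w
  map_add' := fun v w => by
    simp only [bb, Prod.fst_add, Prod.snd_add, map_add, _root_.add_apply]; ring
  map_smul' := fun r w => by
    simp only [bb, Prod.smul_fst, Prod.smul_snd, map_smul, _root_.smul_apply, smul_eq_mul,
      RingHom.id_apply]; ring

lemma bb_sig (p : P) (j n : ℕ) : bbL p (sig j n) = uu p j n - ww p j (n + 1) := by
  have h1 : p.2 (sig j n).1 = (a j n)⁻¹ * yy p (j, n) + (a j (n + 1))⁻¹ * yy p (j, n + 1) := by
    have : (sig j n).1 = (a j n)⁻¹ • ((0, e (j, n)) : X) + (a j (n + 1))⁻¹ • (0, e (j, n + 1)) := by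
      ext <;> simp [sig]
    rw [this, map_add, map_smul, map_smul]; rfl
  have h2 : (sig j n).2 p.1 = a j n * xx p (j, n) - a j (n + 1) * xx p (j, n + 1) := rfl
  show p.2 (sig j n).1 + (sig j n).2 p.1 = _
  rw [h1, h2]
  simp only [uu, ww]
  ring

lemma bb_base (p : P) (s t : ℝ) : bbL p (((s, t), 0), 0) = s * su p + t * sa p := by
  show p.2 ((s, t), 0) + (0 : X →L[ℝ] ℝ) p.1 = _
  rw [apply_eq]; simp [su, sa]

lemma exists_col (c : ℕ → ℝ) (hc : Summable fun j => |c j|) :
    ∃ L : X →L[ℝ] ℝ, ∀ z, HasSum (fun j => c j * z.2 (j, 0)) (L z) := by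
  have hb : ∀ (z : X) j, ‖c j * z.2 (j, 0)‖ ≤ |c j| * ‖z‖ := fun z j => by
    rw [Real.norm_eq_abs, abs_mul]
    exact mul_le_mul_of_nonneg_left ((apply_le z.2 _).trans (norm_snd_le z)) (abs_nonneg _)
  have hs : ∀ z : X, Summable fun j => c j * z.2 (j, 0) := fun z =>
    Summable.of_norm_bounded (hc.mul_right ‖z‖) (hb z)
  let L : X →ₗ[ℝ] ℝ :=
    { toFun := fun z => ∑' j, c j * z.2 (j, 0)
      map_add' := fun y z => by
        rw [← (hs y).tsum_add (hs z)]
        exact tsum_congr fun j => mul_add _ _ _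
      map_smul' := fun r z => by
        rw [RingHom.id_apply, smul_eq_mul, ← tsum_mul_left]
        exact tsum_congr fun j => mul_left_comm _ _ _ }
  refine ⟨L.mkContinuous (∑' j, |c j|) fun z => ?_, fun z => (hs z).hasSum⟩
  exact tsum_of_norm_bounded (hc.hasSum.mul_right ‖z‖) (hb z)

lemma col_e {c : ℕ → ℝ} {L : X →L[ℝ] ℝ} (h : ∀ z, HasSum (fun j => c j * z.2 (j, 0)) (L z))
    (j n : ℕ) : L (0, e (j, n)) = if n = 0 then c j else 0 := by
  refine (h _).unique ?_
  split_ifs with hn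
  · subst hn
    have := hasSum_single (f := fun i => c i * e (j, 0) (i, 0)) j
      (fun b hb => by simp [e_apply, hb])
    simpa [e_apply] using this
  · simp [e_apply, Ne.symm hn]

lemma col_base {c : ℕ → ℝ} {L : X →L[ℝ] ℝ} (h : ∀ z, HasSum (fun j => c j * z.2 (j, 0)) (L z))
    (v : ℝ × ℝ) : L (v, 0) = 0 := (h _).unique (by simp)

end Pool.Agent.H87.MonoCone
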