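import Pool.Agent.H87.MonoCone1

namespace Pool.Agent.H87.MonoCone

open Filter Topology Set C0I

noncomputable def ps (j : ℕ) : X →L[ℝ] ℝ :=
  evX (j, 0) + ((1 / 2 : ℝ) ^ j) • fa + ((1 / 3 : ℝ) ^ j) • fu

lemma ps_apply (j : ℕ) (z : X) :
    ps j z = z.2 (j, 0) + (1 / 2) ^ j * z.1.2 + (1 / 3) ^ j * z.1.1 := rfl

def CC : Set X := {z | 0 ≤ fa z ∧ ∀ j, 0 ≤ ps j z}

def AA (z : X) : Set (X →L[ℝ] ℝ) :=
  {f | z ∈ CC ∧ ∃ y, (z, y) ∈ SS ∧ ∀ c ∈ CC, (f - y) (c - z) ≤ 0}

lemma CC_comb {z w : X} (hz : z ∈ CC) (hw : w ∈ CC) {s t : ℝ} (hs : 0 ≤ s) (ht : 0 ≤ t) :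
    s • z + t • w ∈ CC := by
  refine ⟨?_, fun j => ?_⟩ <;> rw [map_add, map_smul, map_smul]
  · exact add_nonneg (mul_nonneg hs hz.1) (mul_nonneg ht hw.1)
  · exact add_nonneg (mul_nonneg hs (hz.2 j)) (mul_nonneg ht (hw.2 j))

lemma AA_mono (x y : X) (f) (hf : f ∈ AA x) (g) (hg : g ∈ AA y) : 0 ≤ (f - g) (x - y) := by
  obtain ⟨hx, f', hf1, hf2⟩ := hf
  obtain ⟨hy, g', hg1, hg2⟩ := hg
  have h1 := hf2 y hy
  have h2 := hg2 x hx
  have h3 := cc_SS (SS.add_mem hf1 (SS.smul_mem (-1) hg1))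
  simp only [cc, Prod.fst_add, Prod.snd_add, Prod.smul_fst, Prod.smul_snd, map_add, map_smul,
    _root_.add_apply, _root_.smul_apply, smul_eq_mul] at h3
  simp only [map_sub, _root_.sub_apply] at *
  linarith

lemma AA_of {w : P} (hw : w ∈ SS) (hc : w.1 ∈ CC) : w.2 ∈ AA w.1 :=
  ⟨hc, w.2, hw, fun c _ => by simp⟩

lemma AA_convex : Convex ℝ {x : X | (AA x).Nonempty} := by
  rintro x ⟨-, hx, f, hf, -⟩ y ⟨-, hy, g, hg, -⟩ s t hs ht -
  exact ⟨_, AA_of (SS.add_mem (SS.smul_mem s hf) (SS.smul_mem t hg)) (CC_comb hx hy hs ht)⟩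

lemma ray {c b : ℝ} (h : ∀ r : ℝ, 0 ≤ r → 0 ≤ c - r * b) : b ≤ 0 := by
  by_contra hb
  push Not at hb
  have h0 := h 0 le_rfl
  have := h ((c + 1) / b) (div_nonneg (by linarith) hb.le)
  rw [div_mul_cancel₀ _ hb.ne'] at this
  linarith

lemma eps {c b : ℝ} (h : ∀ ε : ℝ, 0 < ε → c + ε * b ≤ 0) : c ≤ 0 := by
  have ht : Tendsto (fun ε : ℝ => c + ε * b) (𝓝[>] 0) (𝓝 (c + 0 * b)) :=
    (by fun_prop : Continuous fun ε : ℝ => c + ε * b).continuousAt.tendsto.mono_left
      nhdsWithin_le_nhds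
  simpa using le_of_tendsto ht (eventually_nhdsWithin_of_forall h)

section
variable {p : P} (hp : ∀ y : X, ∀ g ∈ AA y, 0 ≤ (p.2 - g) (p.1 - y))
include hp

lemma mem_CC : p.1 ∈ CC := by
  have key : ∀ φ : X →L[ℝ] ℝ, (∀ c ∈ CC, 0 ≤ φ c) → 0 ≤ φ p.1 := by
    intro φ hφ
    have := ray (c := p.2 p.1) (b := - φ p.1) fun r hr => by
      have := hp 0 (-(r • φ)) ⟨⟨by simp, fun j => by simp⟩, 0, SS.zero_mem, fun c hc => by
        simpa using mul_nonneg hr (hφ c hc)⟩
      simpa using this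
    linarith
  exact ⟨key _ fun c hc => hc.1, fun j => key _ fun c hc => hc.2 j⟩

lemma cc_nonneg : 0 ≤ cc p := by
  simpa [cc] using hp _ _ (AA_of SS.zero_mem ⟨by simp, fun j => by simp⟩)

lemma bb_le {w : P} (hw : w ∈ SS) (hc : w.1 ∈ CC) : bbL p w ≤ 0 :=
  ray (c := cc p) fun r hr => by
    have h1 : 0 ≤ cc (p - r • w) := hp _ _ (AA_of (SS.smul_mem r hw)
      (by simpa using CC_comb hc hc hr le_rfl))
    rw [cc_sub, cc_SS (SS.smul_mem r hw)] at h1
    have h2 : bb p (r • w) = r * bbL p w := (bbL p).map_smul r w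
    linarith

lemma rel1 : Rel1 p := by
  intro j n
  have key : ∀ r : ℝ, r * (uu p j (n + 1) - ww p j (n + 2)) ≤ 0 := by
    intro r
    have := bb_le hp (SS.smul_mem r (sig_mem j (n + 1))) ⟨by simp [sig], fun i => by
      simp [ps_apply, sig, e_apply]⟩
    rwa [map_smul, bb_sig] at this
  linarith [key 1, key (-1)]

lemma test {c : X} (hc : c ∈ CC) {ε : ℝ} (hε : 0 < ε) : ∀ᶠ N in atTop,
    c.1.1 * su p + (c.1.2 + ε) * sa p
      - ∑ j ∈ Finset.range N, (ww p j 1 - uu p j 0) * c.2 (j, 0) ≤ 0 := by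
  obtain ⟨k, hk⟩ := exists_pow_lt_of_lt_one (show 0 < ε / (|c.1.1| + 1) by positivity)
    (show (2 / 3 : ℝ) < 1 by norm_num)
  filter_upwards [eventually_ge_atTop k] with N hN
  have hw : ((((c.1.1, c.1.2 + ε), 0), 0) : P) + ∑ j ∈ Finset.range N, c.2 (j, 0) • sig j 0 ∈ SS :=
    SS.add_mem (base_mem _ _) (SS.sum_mem fun j _ => SS.smul_mem _ (sig_mem j 0))
  have h1 : ∀ φ : X →L[ℝ] ℝ, φ (((((c.1.1, c.1.2 + ε), 0), 0) : P)
      + ∑ j ∈ Finset.range N, c.2 (j, 0) • sig j 0).1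
      = φ ((c.1.1, c.1.2 + ε), 0) + ∑ j ∈ Finset.range N, c.2 (j, 0) * φ (sig j 0).1 := by
    intro φ
    rw [Prod.fst_add, Prod.fst_sum, map_add, map_sum]
    simp
  have := bb_le hp hw ⟨by
    rw [h1]
    have : 0 ≤ c.1.2 := hc.1
    simp [sig]; linarith, fun i => by
    rw [h1]
    have h2 : ∀ j, ps i (sig j 0).1 = if i = j then 1 else 0 := fun j => by
      simp [ps_apply, sig, e_apply]
    have h3 := hc.2 i
    have h4 : 0 ≤ c.1.2 := hc.1
    have h5 : (0 : ℝ) < (1 / 2) ^ i := by positivity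
    simp only [h2, mul_ite, mul_one, mul_zero, Finset.sum_ite_eq, Finset.mem_range]
    rw [ps_apply] at h3 ⊢
    simp only [ZeroAtInftyContinuousMap.zero_apply]
    split_ifs with hi
    · nlinarith
    · have h6 : (2 / 3 : ℝ) ^ i ≤ (2 / 3) ^ k :=
        pow_le_pow_of_le_one (by norm_num) (by norm_num) (by omega)
      have h7 : (1 / 3 : ℝ) ^ i = (1 / 2) ^ i * (2 / 3) ^ i := by rw [← mul_pow]; norm_num
      have h8 : (2 / 3 : ℝ) ^ i * (|c.1.1| + 1) ≤ ε := by
        rw [← le_div_iff₀ (by positivity)]; linarith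
      have h9 : 0 ≤ c.1.2 + ε + (2 / 3) ^ i * c.1.1 := by
        have : (0 : ℝ) < (2 / 3) ^ i := by positivity
        nlinarith [neg_abs_le c.1.1]
      rw [h7]
      nlinarith⟩
  rw [map_add, map_sum, bb_base] at this
  simp only [map_smul, bb_sig, smul_eq_mul, zero_add] at this
  refine le_of_eq_of_le ?_ this
  rw [sub_eq_add_neg, ← Finset.sum_neg_distrib]
  exact congrArg _ (Finset.sum_congr rfl fun j _ => by ring)

lemma t_zero (i : ℕ) : ww p i 1 = 2 * xx p (i, 0) := by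
  have h1 := (rel1 hp).hasSum.tendsto_sum_nat
  have h2 : cc p + (xx p (i, 0) - ww p i 1 / 2) ^ 2 ≤ 0 := by
    refine eps (b := sa p) fun ε hε => ?_
    have : cc p - p.1.1.1 * su p - p.1.1.2 * sa p ≤
        -(xx p (i, 0) - ww p i 1 / 2) ^ 2 - p.1.1.1 * su p - (p.1.1.2 + ε) * sa p := by
      refine le_of_tendsto h1 ?_
      filter_upwards [test hp (mem_CC hp) hε, eventually_gt_atTop i] with N hN hi
      have e : ∑ j ∈ Finset.range N, (xx p (j, 0) * yy p (j, 0) - ww p j 1 ^ 2 / 4)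
          = - ∑ j ∈ Finset.range N, (xx p (j, 0) - ww p j 1 / 2) ^ 2
            - ∑ j ∈ Finset.range N, (ww p j 1 - uu p j 0) * p.1.2 (j, 0) := by
        rw [← Finset.sum_neg_distrib, ← Finset.sum_sub_distrib]
        refine Finset.sum_congr rfl fun j _ => ?_
        simp only [uu, a_zero, xx]; ring
      have := Finset.single_le_sum (f := fun j => (xx p (j, 0) - ww p j 1 / 2) ^ 2)
        (fun _ _ => sq_nonneg _) (Finset.mem_range.2 hi)
      rw [e]
      linarith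
    linarith
  have h3 := cc_nonneg hp
  have h4 : (xx p (i, 0) - ww p i 1 / 2) ^ 2 = 0 := le_antisymm (by linarith) (sq_nonneg _)
  rw [sq_eq_zero_iff] at h4
  linarith

lemma nu_summable : Summable fun j => |ww p j 1 - uu p j 0| := by
  have h1 : Summable fun j : ℕ => |yy p (j, 0)| :=
    (summable_abs (rest p.2)).comp_injective fun _ _ h => by simpa using h
  have h2 : Summable fun j : ℕ => ‖rest p.2‖ * (1 / 4 : ℝ) ^ j :=
    (summable_geometric_of_lt_one (by norm_num) (by norm_num)).mul_left _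
  refine Summable.of_nonneg_of_le (fun _ => abs_nonneg _) (fun j => ?_) (h2.add h1)
  have h3 := (rel1 hp).bound j
  have e : ww p j 1 - uu p j 0 = xx p (j, 0) - yy p (j, 0) := by
    rw [t_zero hp]; simp only [uu, a_zero]; ring
  rw [t_zero hp, abs_mul, abs_two] at h3
  rw [e]
  refine (abs_sub _ _).trans (add_le_add_left ?_ _)
  rw [one_div_pow, mul_one_div, le_div_iff₀ (by positivity)]
  linarith

theorem AA_max : p.2 ∈ AA p.1 := by
  obtain ⟨L, hL⟩ := exists_col _ (nu_summable hp)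
  have hy : ∀ j n, yy (p.1, p.2 + L - su p • fu - sa p • fa) (j, n)
      = yy p (j, n) + if n = 0 then ww p j 1 - uu p j 0 else 0 := by
    intro j n
    rw [← col_e hL]
    simp [yy]
  have hx : ∀ i, xx (p.1, p.2 + L - su p • fu - sa p • fa) i = xx p i := fun _ => rfl
  have hS : (p.1, p.2 + L - su p • fu - sa p • fa) ∈ SS := by
    refine ⟨fun j n => ?_, fun j => ?_, ?_, ?_⟩
    · cases n with
      | zero => simp only [uu, ww, hy, hx]; simp; ring
      | succ n => simpa [uu, ww, hy, hx] using rel1 hp j n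
    · have := t_zero hp j
      simp only [uu, ww, hy, hx] at this ⊢
      simp at this ⊢
      linarith
    · simp [su, col_base hL]
    · simp [sa, col_base hL]
  refine ⟨mem_CC hp, _, hS, fun c hc => ?_⟩
  have h1 : c.1.1 * su p + c.1.2 * sa p - L c ≤ 0 := by
    refine eps (b := sa p) fun ε hε => ?_
    have := le_of_tendsto (((hL c).tendsto_sum_nat).const_sub
      (c.1.1 * su p + (c.1.2 + ε) * sa p)) (test hp hc hε)
    linarith
  have h2 := cc_SS hS
  have h3 := cc_nonneg hp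
  simp only [cc, map_sub, _root_.sub_apply, _root_.add_apply, _root_.smul_apply, fu_apply,
    fa_apply, smul_eq_mul] at h2 h3 ⊢
  linarith
end

noncomputable def ka (j : ℕ) : ℝ := (1 / 2) ^ j + (1 / 3) ^ j

lemma ka_le (j : ℕ) : |ka j| ≤ 2 * (1 / 2) ^ j := by
  have : (1 / 3 : ℝ) ^ j ≤ (1 / 2) ^ j := pow_le_pow_left₀ (by norm_num) (by norm_num) j
  rw [abs_of_pos (by unfold ka; positivity), ka]; linarith

lemma ka_summable : Summable fun j => |ka j| :=
  Summable.of_nonneg_of_le (fun _ => abs_nonneg _) ka_le (summable_geometric_two.mul_left 2)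

noncomputable def xa : c0 (ℕ × ℕ) := mk (fun i => if i.2 = 0 then ka i.1 else 0) (by
  refine Summable.tendsto_cofinite_zero ?_
  refine (Function.Injective.summable_iff (g := fun j : ℕ => (j, 0)) (fun _ _ h => by simpa using h)
    fun i hi => if_neg fun h => hi ⟨i.1, by ext <;> simp [h]⟩).1 ?_
  simpa [Function.comp_def] using ka_summable.of_abs)

noncomputable def za : X := ((-1, -1), xa)

theorem fail : ∃ f : X →L[ℝ] ℝ, ∀ z, fu z < 0 → ∀ g ∈ AA z, 0 ≤ (f - g) (za - z) := by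
  obtain ⟨L, hL⟩ := exists_col _ ka_summable
  refine ⟨-((8 : ℝ) • fa) - L, fun z hz g ⟨hc, y, hy, hn⟩ => ?_⟩
  have hy1 : Rel1 (z, y) := fun j n => hy.1 j (n + 1)
  have h0 : ∀ j, yy (z, y) (j, 0) = xx (z, y) (j, 0) := fun j => by
    have := hy.2.1 j
    simp only [ww, a_zero] at this
    linarith
  have hw : ∀ j, ww (z, y) j 1 = 2 * xx (z, y) (j, 0) := fun j => by
    have := hy.1 j 0
    rw [zero_add] at this
    rw [← this, uu, h0, a_zero]; ring
  have hα : 0 < z.1.2 := by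
    refine lt_of_le_of_ne hc.1 fun h => ?_
    have hz' : 0 < -z.1.1 := neg_pos.2 hz
    obtain ⟨j, hj⟩ := pow_unbounded_of_one_lt (‖rest y‖ / -z.1.1) (show (1 : ℝ) < 4 / 3 by norm_num)
    have h1 := hy1.bound j
    have h2 := hc.2 j
    rw [hw, abs_mul, abs_two] at h1
    rw [ps_apply, ← h] at h2
    rw [div_lt_iff₀ hz', show (4 / 3 : ℝ) ^ j = 4 ^ j * (1 / 3) ^ j by rw [← mul_pow]; norm_num] at hj
    have h3 : (0 : ℝ) < 4 ^ j := by positivity
    have h4 : z.2 (j, 0) ≤ |xx (z, y) (j, 0)| := le_abs_self _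
    have h5 := mul_le_mul_of_nonneg_left h4 h3.le
    have h6 := mul_nonneg h3.le h2
    simp only at h1
    nlinarith
  have h1 : (g - y) (za - z) ≤ 0 := by
    have hθ : 0 < z.1.2 / (z.1.2 + 1) := by positivity
    have hθ1 : z.1.2 / (z.1.2 + 1) ≤ 1 := by rw [div_le_one (by positivity)]; linarith
    have := hn (z + (z.1.2 / (z.1.2 + 1)) • (za - z)) ⟨by
      rw [map_add, map_smul, map_sub]
      simp only [fa_apply, za, smul_eq_mul]
      refine le_of_eq ?_
      field_simp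
      ring, fun j => by
      rw [map_add, map_smul, map_sub]
      have : ps j za = 0 := by simp [ps_apply, za, xa, ka]
      rw [this, smul_eq_mul]
      nlinarith [hc.2 j]⟩
    rw [add_sub_cancel_left, map_smul, smul_eq_mul] at this
    exact nonpos_of_mul_nonpos_right (by linarith) hθ
  have hya : ∀ j n, yy (za, -((8 : ℝ) • fa) - L) (j, n) = if n = 0 then - ka j else 0 := by
    intro j n
    have := col_e hL j n
    simp only [yy, _root_.sub_apply, _root_.neg_apply, _root_.smul_apply, fa_apply, this]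
    split_ifs <;> simp
  have hxa : ∀ j n, xx (za, -((8 : ℝ) • fa) - L) (j, n) = if n = 0 then ka j else 0 :=
    fun _ _ => rfl
  have hr : Rel1 ((za, -((8 : ℝ) • fa) - L) - (z, y)) := fun j n => by
    rw [uu_sub, ww_sub, hy1 j n]
    simp [uu, ww, hya, hxa]
  have h2 := hr.hasSum
  have e : ∀ j, xx ((za, -((8 : ℝ) • fa) - L) - (z, y)) (j, 0)
      * yy ((za, -((8 : ℝ) • fa) - L) - (z, y)) (j, 0)
      - ww ((za, -((8 : ℝ) • fa) - L) - (z, y)) j 1 ^ 2 / 4 = - ka j ^ 2 := by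
    intro j
    rw [xx_sub, yy_sub, ww_sub, hw, h0]
    simp only [ww, hya, hxa]
    simp; ring
  simp only [e] at h2
  have h3 := hasSum_le (fun j => show -(4 * (1 / 2 : ℝ) ^ j) ≤ - ka j ^ 2 by
    have e1 := ka_le j
    have e2 : (1 / 2 : ℝ) ^ j ≤ 1 := pow_le_one₀ (by norm_num) (by norm_num)
    have e3 : (0 : ℝ) < (1 / 2) ^ j := by positivity
    rw [← sq_abs]
    nlinarith [abs_nonneg (ka j)]) (hasSum_geometric_two.mul_left 4).neg h2
  have h4 : su ((za, -((8 : ℝ) • fa) - L) - (z, y)) = 0 := by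
    rw [su_sub, hy.2.2.1]; simp [su, col_base hL]
  have h5 : sa ((za, -((8 : ℝ) • fa) - L) - (z, y)) = -8 := by
    rw [sa_sub, hy.2.2.2]; simp [sa, col_base hL]
  have h6 : ((za, -((8 : ℝ) • fa) - L) - (z, y) : P).1.1.2 = -1 - z.1.2 := rfl
  rw [h4, h5, h6] at h3
  have h7 : cc ((za, -((8 : ℝ) • fa) - L) - (z, y))
      = (-((8 : ℝ) • fa) - L - g) (za - z) + (g - y) (za - z) := by
    simp only [cc, Prod.fst_sub, Prod.snd_sub, _root_.sub_apply]; ring
  linarith

end Pool.Agent.H87.MonoCone
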