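import Pool.Agent.H87.MonoGap2

namespace Pool.Agent.H87.MonoGap

open Filter Topology Set C0I

noncomputable def FF (s : ℝ) (j : ℕ) : ℝ := max 0 ((1 / 3) ^ j - h j * |s|)

def AA : Set P := {p | Rel p ∧ s2 p = s1 p ∧ tt p = FF (s1 p)}

lemma sum_h_sq (F : Finset ℕ) : ∑ j ∈ F, h j ^ 2 ≤ 1 := by
  have := tail 0 F
  simp only [hk, Nat.not_lt_zero, if_false, sub_zero] at this
  refine this.trans ?_
  simp [h]; norm_num

lemma FF_lip (s r : ℝ) (j : ℕ) : |FF s j - FF r j| ≤ h j * |s - r| := by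
  unfold FF
  refine (abs_max_sub_max_le_max _ _ _ _).trans ?_
  rw [sub_self, abs_zero, max_le_iff]
  refine ⟨mul_nonneg (h_pos j).le (abs_nonneg _), ?_⟩
  rw [show (1 / 3 : ℝ) ^ j - h j * |s| - ((1 / 3) ^ j - h j * |r|) = h j * (|r| - |s|) by ring,
    abs_mul, abs_of_pos (h_pos j), abs_sub_comm s r]
  exact mul_le_mul_of_nonneg_left (abs_abs_sub_abs_le _ _) (h_pos j).le

lemma mono_AA : Mono AA := by
  rintro p ⟨hp, hp1, hp2⟩ q ⟨hq, hq1, hq2⟩
  refine (hp.sub hq).cc_nonneg fun F => ?_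
  simp only [tt_sub, s1_sub, s2_sub, hp1, hq1, hp2, hq2]
  calc _ ≤ ∑ j ∈ F, h j ^ 2 * (s1 p - s1 q) ^ 2 := Finset.sum_le_sum fun j _ => by
        rw [← mul_pow, sq_le_sq, abs_mul, abs_of_pos (h_pos j)]
        exact FF_lip _ _ j
    _ ≤ _ := by
        rw [← Finset.sum_mul, ← sq]
        exact mul_le_of_le_one_left (sq_nonneg _) (sum_h_sq F)

lemma AA_ne {p : P} (hp : p ∈ AA) : s1 p ≠ 0 := by
  intro h0
  obtain ⟨j, hj⟩ := pow_unbounded_of_one_lt ‖rest p‖ (show (1 : ℝ) < 4 / 3 by norm_num)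
  have := hp.1.bound j
  rw [hp.2.2, h0] at this
  simp only [FF, abs_zero, mul_zero, sub_zero, a] at this
  rw [max_eq_right (by positivity), abs_of_pos (by positivity), ← mul_pow] at this
  norm_num at this hj
  linarith

lemma exists_AA {s : ℝ} (hs : s ≠ 0) : ∃ q ∈ AA, s1 q = s := by
  obtain ⟨k, hk⟩ := exists_pow_lt_of_lt_one (show 0 < |s| / 4 by have := abs_pos.2 hs; positivity)
    (show (2 / 3 : ℝ) < 1 by norm_num)
  refine ⟨pt s s (FF s) k, ⟨rel_pt _ _ _ _, by rw [s1_pt, s2_pt], funext fun j => ?_⟩, rfl⟩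
  rw [tt_pt, s1_pt]
  split_ifs with hj
  · rfl
  · symm
    refine max_eq_left ?_
    have h1 : (2 / 3 : ℝ) ^ j ≤ (2 / 3) ^ k :=
      pow_le_pow_of_le_one (by norm_num) (by norm_num) (not_lt.1 hj)
    have h2 : (1 / 3 : ℝ) ^ j = (2 / 3) ^ j * (1 / 2) ^ j := by rw [← mul_pow]; norm_num
    have h3 : (0 : ℝ) < (1 / 2) ^ j := by positivity
    rw [h2, h]
    nlinarith

noncomputable def bb (p q : P) : ℝ := p.2 q.1 + q.2 p.1

lemma cc_sub (p q : P) : cc (p - q) = cc p - bb p q + cc q := by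
  simp only [cc, bb, Prod.fst_sub, Prod.snd_sub, map_sub, _root_.sub_apply]; ring

/-- the skew subspace -/
def SS : Submodule ℝ P where
  carrier := {w | Rel w ∧ s1 w = 0 ∧ s2 w = 0 ∧ ∀ j, tt w j = 0}
  add_mem' := fun hp hq => ⟨hp.1.add hq.1, by simp [hp.2.1, hq.2.1], by simp [hp.2.2.1, hq.2.2.1],
    fun j => by simp [hp.2.2.2, hq.2.2.2]⟩
  zero_mem' := ⟨fun j n => by simp [uu, ww, xx, yy], rfl, rfl, fun j => by simp [tt, ww, xx, yy]⟩
  smul_mem' := fun r _ hp => ⟨hp.1.smul r, by simp [hp.2.1], by simp [hp.2.2.1],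
    fun j => by simp [hp.2.2.2]⟩

lemma sig_mem (j n : ℕ) : sig j n ∈ SS := ⟨rel_sig j n, rfl, s2_sig j n, tt_sig j n⟩

lemma cc_SS {w : P} (hw : w ∈ SS) : cc w = 0 := by
  have h := hw.1.hasSum
  simp only [hw.2.2.2, hw.2.1] at h
  have h' : HasSum (fun _ : ℕ => (0 : ℝ) ^ 2) 0 := by simp
  have := h.unique h'
  linarith

lemma AA_add {q w : P} (hq : q ∈ AA) (hw : w ∈ SS) : q + w ∈ AA :=
  ⟨hq.1.add hw.1, by simp [hq.2.1, hw.2.1, hw.2.2.1],
    funext fun j => by simp [hq.2.2, hw.2.1, hw.2.2.2]⟩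

lemma dense_SS (y : c0 (ℕ × ℕ)) {η : ℝ} (hη : 0 < η) : ∃ w ∈ SS, ‖y - w.1.2‖ < η := by
  let T : Submodule ℝ (c0 (ℕ × ℕ)) :=
    SS.map ((LinearMap.snd ℝ ℝ (c0 (ℕ × ℕ))).comp (LinearMap.fst ℝ X (X →L[ℝ] ℝ)))
  have : y ∈ closure (T : Set (c0 (ℕ × ℕ))) := by
    by_contra hy
    obtain ⟨f, r, h1, h2⟩ := geometric_hahn_banach_closed_point T.convex.closure isClosed_closure hy
    have h3 : ∀ v ∈ T, f v = 0 := by
      intro v hv
      by_contra hne
      have := h1 _ (subset_closure (T.smul_mem (r / f v) hv))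
      rw [map_smul, smul_eq_mul, div_mul_cancel₀ _ hne] at this
      exact lt_irrefl _ this
    have h4 : ∀ j n, f (e (j, n + 1)) = - f (e (j, n)) := by
      intro j n
      have := h3 _ ⟨sig j n, sig_mem j n, rfl⟩
      have e1 : f ((a j)⁻¹ • (e (j, n) + e (j, n + 1))) = 0 := this
      rw [map_smul, map_add, smul_eq_mul, mul_eq_zero] at e1
      have := e1.resolve_left (inv_ne_zero (a_pos j).ne')
      linarith
    have h5 : ∀ j n, |f (e (j, n))| = |f (e (j, 0))| := by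
      intro j n
      induction n with
      | zero => rfl
      | succ n ih => rw [h4, abs_neg, ih]
    have h6 : ∀ i, f (e i) = 0 := by
      rintro ⟨j, n⟩
      have := (summable_abs f).tendsto_cofinite_zero.comp (inj_row j).tendsto_cofinite
      have e1 : ((fun i => |f (e i)|) ∘ fun n : ℕ => (j, n)) = fun _ => |f (e (j, 0))| :=
        funext fun n => h5 j n
      rw [e1] at this
      rw [← abs_eq_zero, h5]
      exact tendsto_nhds_unique tendsto_const_nhds this
    have h7 : f y = 0 := (hasSum_dual f y).unique (by simp [h6])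
    have := h1 0 (subset_closure T.zero_mem)
    rw [map_zero] at this
    linarith
  obtain ⟨_, ⟨w, hw, rfl⟩, h⟩ := Metric.mem_closure_iff.1 this η hη
  exact ⟨w, hw, by rwa [dist_eq_norm] at h⟩

lemma near_AA (z : X) {s η : ℝ} (hs : s ≠ 0) (hη : |z.1 - s| < η) :
    ∃ q ∈ AA, s1 q = s ∧ ‖z - q.1‖ < η := by
  obtain ⟨q, hq, hq1⟩ := exists_AA hs
  obtain ⟨w, hw, hw1⟩ := dense_SS (z.2 - q.1.2) ((abs_nonneg _).trans_lt hη)
  refine ⟨q + w, AA_add hq hw, by simp [hq1, hw.2.1], ?_⟩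
  rw [Prod.norm_def, max_lt_iff]
  constructor
  · have : (z - (q + w).1).1 = z.1 - (s1 q + s1 w) := rfl
    rw [this, hq1, hw.2.1, add_zero]; exact hη
  · have : (z - (q + w).1).2 = z.2 - (q.1.2 + w.1.2) := rfl
    rw [this, ← sub_sub]; exact hw1

lemma psub (p q w : P) : p - (q + w) = p - q - w :=
  Prod.ext (sub_sub _ _ _).symm (ContinuousLinearMap.ext fun _ => (sub_sub _ _ _).symm)

lemma bb_SS {q w : P} (hq : Rel q) (hw : w ∈ SS) : bb q w = 0 := by
  have h1 := hq.hasSum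
  have h2 := (hq.sub hw.1).hasSum
  simp only [tt_sub, s1_sub, s2_sub, hw.2.1, hw.2.2.1, hw.2.2.2, sub_zero] at h2
  have := h1.unique h2
  rw [cc_sub, cc_SS hw] at this
  linarith

lemma bb_sub (p q w : P) : bb (p - q) w = bb p w - bb q w := by
  simp only [bb, Prod.fst_sub, Prod.snd_sub, map_sub, _root_.sub_apply]; ring

lemma bb_smul (p w : P) (r : ℝ) : bb p (r • w) = r * bb p w := by
  simp only [bb, Prod.smul_fst, Prod.smul_snd, map_smul, _root_.smul_apply, smul_eq_mul]; ring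

lemma bb_sig (p : P) (j n : ℕ) : bb p (sig j n) = uu p j n - ww p j (n + 1) := by
  have h1 := cc_sub_sig p j n 1
  rw [one_smul, cc_sub, cc_sig] at h1
  linarith

lemma exists_near (b : ℝ) {η : ℝ} (hη : 0 < η) : ∃ s, s ≠ 0 ∧ b < s ∧ s < b + η := by
  by_cases h : b + η / 2 = 0
  · exact ⟨b + η / 4, fun h' => by linarith, by linarith, by linarith⟩
  · exact ⟨b + η / 2, h, by linarith, by linarith⟩

section
variable {p : P} {δ : ℝ} (hδ : 0 < δ) (hp : ∀ q ∈ AA, ‖p.1 - q.1‖ < δ → 0 ≤ cc (p - q))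
include hδ hp

lemma loc_le {q w : P} (hq : q ∈ AA) (hqp : ‖p.1 - q.1‖ < δ / 2) (hw : w ∈ SS)
    (hw1 : ‖w.1‖ ≤ δ / 2) : bb p w ≤ cc (p - q) := by
  have := hp (q + w) (AA_add hq hw) (by
    rw [Prod.fst_add, ← sub_sub]
    linarith [norm_sub_le (p.1 - q.1) w.1])
  rw [psub, cc_sub, cc_SS hw, bb_sub, bb_SS hq.1 hw] at this
  linarith

lemma loc_ext : ∃ g : X →L[ℝ] ℝ, ∀ w ∈ SS, bb p w = g w.1 := by
  obtain ⟨s, hs, hs1, hs2⟩ := exists_near p.1.1 (half_pos hδ)
  obtain ⟨q, hq, -, hqp⟩ := near_AA p.1 (η := δ / 2) hs (by rw [abs_lt]; constructor <;> linarith)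
  have hc : 0 ≤ cc (p - q) := hp q hq (by linarith)
  set C := cc (p - q) / (δ / 2) with hC
  have hC0 : 0 ≤ C := by positivity
  have hb : ∀ w ∈ SS, bb p w ≤ C * ‖w.1‖ := by
    intro w hw
    refine le_of_forall_pos_le_add fun ε hε => ?_
    have hpos : 0 < ‖w.1‖ + ε / (C + 1) := by positivity
    have h1 := loc_le hδ hp hq hqp (SS.smul_mem (δ / 2 / (‖w.1‖ + ε / (C + 1))) hw) (by
      rw [Prod.smul_fst, norm_smul, Real.norm_of_nonneg (by positivity), div_mul_eq_mul_div,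
        div_le_iff₀ hpos]
      have : 0 < ε / (C + 1) := by positivity
      nlinarith)
    rw [bb_smul, div_mul_eq_mul_div, div_le_iff₀ hpos] at h1
    have h2 : cc (p - q) = δ / 2 * C := by rw [hC]; field_simp
    rw [h2, mul_assoc] at h1
    have h3 := le_of_mul_le_mul_left h1 (half_pos hδ)
    have h4 : C * (ε / (C + 1)) ≤ ε := by
      rw [← mul_div_assoc, div_le_iff₀ (by positivity)]; nlinarith
    linarith
  let φ : P →ₗ[ℝ] ℝ :=
    { toFun := fun w => bb p w
      map_add' := fun v w => by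
        simp only [bb, Prod.fst_add, Prod.snd_add, map_add, _root_.add_apply]; ring
      map_smul' := fun r w => bb_smul p w r }
  obtain ⟨g, hg1, hg2⟩ := exists_extension_of_le_sublinear ⟨SS, φ.domRestrict SS⟩
    (fun w : P => C * ‖w.1‖)
    (fun c hc w => by rw [Prod.smul_fst, norm_smul, Real.norm_of_nonneg hc.le]; ring)
    (fun v w => by
      rw [← mul_add]; exact mul_le_mul_of_nonneg_left (norm_add_le _ _) hC0)
    (fun w => hb w.1 w.2)
  have habs : ∀ w : P, |g w| ≤ C * ‖w.1‖ := fun w => abs_le.2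
    ⟨by
      have := hg2 ((-1 : ℝ) • w)
      rw [g.map_smul, Prod.smul_fst, norm_smul] at this
      simp only [smul_eq_mul, norm_neg, norm_one] at this
      linarith, hg2 w⟩
  refine ⟨LinearMap.mkContinuous (g.comp (LinearMap.inl ℝ X (X →L[ℝ] ℝ))) C
    fun x => habs (x, 0), fun w hw => ?_⟩
  have h1 : g w = bb p w := hg1 ⟨w, hw⟩
  have h2 : g (0, w.2) = 0 := by simpa using habs (0, w.2)
  have h3 : w = (w.1, 0) + (0, w.2) := Prod.ext (by simp) (zero_add _).symm
  rw [← h1, h3, map_add, h2, add_zero]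
  simp

lemma loc_rel : Rel p := by
  obtain ⟨g, hg⟩ := loc_ext hδ hp
  have hrel : Rel (p - (0, g)) := by
    intro j n
    have := bb_sig (p - (0, g)) j n
    rw [bb_sub, hg _ (sig_mem j n)] at this
    simp only [bb, map_zero, add_zero, sub_self] at this
    linarith
  have key : ∀ w ∈ SS, ‖w.1‖ ≤ δ / 2 → bb p w ≤ 0 := by
    intro w hw hw1
    refine le_of_forall_pos_le_add fun ε hε => ?_
    set K := |s2 (p - (0, g)) - s1 p| + 1 + ‖g‖ with hK
    have hK0 : 0 < K := by positivity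
    set η := min (min (δ / 2) 1) (ε / K) with hη
    have hη0 : 0 < η := lt_min (lt_min (half_pos hδ) one_pos) (by positivity)
    have hη1 : η ≤ δ / 2 := (min_le_left _ _).trans (min_le_left _ _)
    have hη2 : η ≤ 1 := (min_le_left _ _).trans (min_le_right _ _)
    have hη3 : η * K ≤ ε := (le_div_iff₀ hK0).1 (min_le_right _ _)
    obtain ⟨s, hs, hs1, hs2⟩ := exists_near p.1.1 hη0
    obtain ⟨q, hq, hq1, hqp⟩ := near_AA p.1 (η := η) hs (by rw [abs_lt]; constructor <;> linarith)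
    refine (loc_le hδ hp hq (by linarith) hw hw1).trans ?_
    have e1 : cc (p - q) = cc (p - (0, g) - q) + g (p.1 - q.1) := by
      simp only [cc, Prod.fst_sub, Prod.snd_sub, map_sub, _root_.sub_apply, sub_zero]; ring
    have e2 : cc (p - (0, g) - q) ≤ s1 (p - (0, g) - q) * s2 (p - (0, g) - q) := by
      have := (hrel.sub hq.1).hasSum.nonneg fun _ => sq_nonneg _
      linarith
    have e3 : s1 (p - (0, g) - q) = p.1.1 - s := by
      rw [s1_sub, hq1]; simp [s1]
    rw [e3, s2_sub, hq.2.1, hq1] at e2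
    have e4 := (le_abs_self _).trans (g.le_opNorm (p.1 - q.1))
    have e5 := mul_le_mul_of_nonneg_left hqp.le (norm_nonneg g)
    have e6 : (p.1.1 - s) * (s2 (p - (0, g)) - s) ≤ η * (|s2 (p - (0, g)) - s1 p| + 1) := by
      refine (le_abs_self _).trans ?_
      rw [abs_mul]
      refine mul_le_mul (by rw [abs_le]; constructor <;> linarith) ?_ (abs_nonneg _) hη0.le
      have := abs_sub_le (s2 (p - (0, g))) (s1 p) s
      have h2 : |s1 p - s| ≤ 1 := by rw [abs_le]; constructor <;> simp only [s1] <;> linarith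
      linarith
    rw [hK] at hη3
    linarith
  intro j n
  have hpos : 0 < δ / 2 / (‖(sig j n).1‖ + 1) := by positivity
  have hn : ∀ r : ℝ, |r| = δ / 2 / (‖(sig j n).1‖ + 1) → r * bb p (sig j n) ≤ 0 := by
    intro r hr
    rw [← bb_smul]
    refine key _ (SS.smul_mem r (sig_mem j n)) ?_
    rw [Prod.smul_fst, norm_smul, Real.norm_eq_abs, hr, div_mul_eq_mul_div,
      div_le_iff₀ (by positivity)]
    nlinarith
  have h1 := hn _ (abs_of_pos hpos)
  have h2 := hn (-(δ / 2 / (‖(sig j n).1‖ + 1))) (by rw [abs_neg, abs_of_pos hpos])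
  have h3 : bb p (sig j n) = 0 := by
    refine le_antisymm (nonpos_of_mul_nonpos_right ?_ hpos) (nonneg_of_mul_nonneg_right ?_ hpos)
    · linarith
    · linarith
  rw [bb_sig] at h3
  linarith

lemma loc_mem : p ∈ AA := by
  have hrel := loc_rel hδ hp
  have key : ∀ s, s ≠ 0 → |s1 p - s| < δ → ∀ j,
      (tt p j - FF s j) ^ 2 ≤ (s1 p - s) * (s2 p - s) := by
    intro s hs hsp j
    obtain ⟨q, hq, hq1, hqp⟩ := near_AA p.1 hs hsp
    have := (hrel.sub hq.1).sum_le (hp q hq hqp) {j}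
    simpa [hq.2.1, hq.2.2, hq1] using this
  have hev : ∀ᶠ s in 𝓝[≠] (s1 p), ∀ j, (tt p j - FF s j) ^ 2 ≤ (s1 p - s) * (s2 p - s) := by
    have h1 : ∀ᶠ s in 𝓝[≠] (s1 p), s ≠ 0 := by
      by_cases h : s1 p = 0
      · rw [h]; exact self_mem_nhdsWithin
      · exact nhdsWithin_le_nhds (isOpen_ne.mem_nhds h)
    have h2 : ∀ᶠ s in 𝓝[≠] (s1 p), |s1 p - s| < δ := by
      refine nhdsWithin_le_nhds ?_
      filter_upwards [Metric.ball_mem_nhds (s1 p) hδ] with s hs
      rwa [Metric.mem_ball, dist_comm, Real.dist_eq] at hs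
    filter_upwards [h1, h2] with s a b using key s a b
  refine ⟨hrel, ?_, funext fun j => ?_⟩
  · have hc : Continuous fun s => s2 p - s := by fun_prop
    have h1 : s2 p - s1 p ≤ 0 := by
      refine le_of_tendsto (x := 𝓝[>] (s1 p)) (hc.continuousAt.tendsto.mono_left nhdsWithin_le_nhds) ?_
      filter_upwards [hev.filter_mono (nhdsWithin_mono _ fun s (hs : s1 p < s) => hs.ne'),
        self_mem_nhdsWithin] with s h1 (h2 : s1 p < s)
      have := (sq_nonneg _).trans (h1 0)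
      nlinarith
    have h2 : 0 ≤ s2 p - s1 p := by
      refine ge_of_tendsto (x := 𝓝[<] (s1 p)) (hc.continuousAt.tendsto.mono_left nhdsWithin_le_nhds) ?_
      filter_upwards [hev.filter_mono (nhdsWithin_mono _ fun s (hs : s < s1 p) => hs.ne),
        self_mem_nhdsWithin] with s h1 (h2 : s < s1 p)
      have := (sq_nonneg _).trans (h1 0)
      nlinarith
    linarith
  · have hc1 : Continuous fun s => (tt p j - FF s j) ^ 2 := by unfold FF; fun_prop
    have hc2 : Continuous fun s => (s1 p - s) * (s2 p - s) := by fun_prop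
    have := le_of_tendsto_of_tendsto (b := 𝓝[≠] (s1 p))
      (hc1.continuousAt.tendsto.mono_left nhdsWithin_le_nhds)
      (hc2.continuousAt.tendsto.mono_left nhdsWithin_le_nhds) (hev.mono fun s hs => hs j)
    simp only [sub_self, zero_mul] at this
    have := le_antisymm this (sq_nonneg _)
    rwa [sq_eq_zero_iff, sub_eq_zero] at this
end

lemma AA_related {q : P} (hq : q ∈ AA) (hs : s1 q < 0) : 0 ≤ cc (pt 1 2 h 0 - q) := by
  refine ((rel_pt _ _ _ _).sub hq.1).cc_nonneg fun F => ?_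
  simp only [tt_sub, tt_pt, s1_sub, s2_sub, s1_pt, s2_pt, Nat.not_lt_zero, if_false, hq.2.1, hq.2.2]
  have h1 : ∑ j ∈ F, (0 - FF (s1 q) j) ^ 2 ≤ ∑ j ∈ F, (1 / 2 : ℝ) ^ j := by
    refine Finset.sum_le_sum fun j _ => ?_
    have e1 : 0 ≤ FF (s1 q) j := le_max_left _ _
    have e2 : FF (s1 q) j ≤ (1 / 3) ^ j := max_le (by positivity)
      (by linarith [mul_nonneg (h_pos j).le (abs_nonneg (s1 q))])
    have e3 : (1 / 3 : ℝ) ^ j ≤ (1 / 2) ^ j := pow_le_pow_left₀ (by norm_num) (by norm_num) j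
    have e4 : (1 / 2 : ℝ) ^ j ≤ 1 := pow_le_one₀ (by norm_num) (by norm_num)
    nlinarith
  have h2 := sum_le_hasSum F (fun _ _ => by positivity) hasSum_geometric_two
  nlinarith

def NC (x : X) : Set (X →L[ℝ] ℝ) := {f | u x ≤ 0 ∧ ∀ c, u c ≤ 0 → f (c - x) ≤ 0}

lemma NC_mono (x y : X) (f g : X →L[ℝ] ℝ) (hf : f ∈ NC x) (hg : g ∈ NC y) :
    0 ≤ (f - g) (x - y) := by
  have h1 := hf.2 y hg.1
  have h2 := hg.2 x hf.1
  simp only [map_sub, _root_.sub_apply] at *
  linarith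

lemma NC_max (x : X) (f : X →L[ℝ] ℝ) (H : ∀ y g, g ∈ NC y → 0 ≤ (f - g) (x - y)) : f ∈ NC x := by
  refine ⟨?_, fun c hc => ?_⟩
  · by_contra hx
    push Not at hx
    have := H 0 (((|f x| + 1) / u x) • u) ⟨by simp, fun c hc => by
      rw [sub_zero, _root_.smul_apply, smul_eq_mul]
      exact mul_nonpos_of_nonneg_of_nonpos (by positivity) hc⟩
    rw [sub_zero, _root_.sub_apply, _root_.smul_apply, smul_eq_mul, div_mul_cancel₀ _ hx.ne'] at this
    linarith [le_abs_self (f x)]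
  · have := H c 0 ⟨hc, fun _ _ => le_rfl⟩
    simp only [map_sub, _root_.sub_apply, _root_.zero_apply] at this ⊢
    linarith

lemma NC_zero {x : X} (hx : u x < 0) {f : X →L[ℝ] ℝ} (hf : f ∈ NC x) (v : X) : f v = 0 := by
  have key : ∀ v, f v ≤ 0 := by
    intro v
    have hpos : 0 < -u x / (|u v| + 1) := div_pos (by linarith) (by positivity)
    have := hf.2 (x + (-u x / (|u v| + 1)) • v) (by
      rw [map_add, map_smul, smul_eq_mul]
      have : -u x / (|u v| + 1) * u v ≤ -u x := by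
        rw [div_mul_eq_mul_div, div_le_iff₀ (by positivity)]
        nlinarith [le_abs_self (u v)]
      linarith)
    rw [add_sub_cancel_left, map_smul, smul_eq_mul] at this
    exact nonpos_of_mul_nonpos_right (by linarith) hpos
  have := key (-v)
  rw [map_neg] at this
  linarith [key v]

end Pool.Agent.H87.MonoGap
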