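import Pool.Agent.H87.C0I

namespace Pool.Agent.H87.MonoGap

open Filter Topology Set C0I

abbrev X : Type := ℝ × c0 (ℕ × ℕ)
abbrev P : Type := X × (X →L[ℝ] ℝ)

noncomputable def cc (p : P) : ℝ := p.2 p.1
noncomputable def s1 (p : P) : ℝ := p.1.1
noncomputable def s2 (p : P) : ℝ := p.2 (1, 0)
noncomputable def xx (p : P) (i : ℕ × ℕ) : ℝ := p.1.2 i
noncomputable def yy (p : P) (i : ℕ × ℕ) : ℝ := p.2 (0, e i)
def a (j : ℕ) : ℝ := 4 ^ j
noncomputable def uu (p : P) (j n : ℕ) : ℝ := a j * xx p (j, n) + yy p (j, n) / a j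
noncomputable def ww (p : P) (j n : ℕ) : ℝ := a j * xx p (j, n) - yy p (j, n) / a j
def Rel (p : P) : Prop := ∀ j n, uu p j n = ww p j (n + 1)
noncomputable def tt (p : P) (j : ℕ) : ℝ := ww p j 0 / 2

lemma a_pos (j : ℕ) : 0 < a j := by unfold a; positivity

@[simp] lemma s1_sub (p q : P) : s1 (p - q) = s1 p - s1 q := rfl
@[simp] lemma s2_sub (p q : P) : s2 (p - q) = s2 p - s2 q := rfl
@[simp] lemma xx_sub (p q : P) (i) : xx (p - q) i = xx p i - xx q i := rfl
@[simp] lemma yy_sub (p q : P) (i) : yy (p - q) i = yy p i - yy q i := rfl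
@[simp] lemma s1_add (p q : P) : s1 (p + q) = s1 p + s1 q := rfl
@[simp] lemma s2_add (p q : P) : s2 (p + q) = s2 p + s2 q := rfl
@[simp] lemma xx_add (p q : P) (i) : xx (p + q) i = xx p i + xx q i := rfl
@[simp] lemma yy_add (p q : P) (i) : yy (p + q) i = yy p i + yy q i := rfl
@[simp] lemma s1_smul (r : ℝ) (q : P) : s1 (r • q) = r * s1 q := rfl
@[simp] lemma s2_smul (r : ℝ) (q : P) : s2 (r • q) = r * s2 q := rfl
@[simp] lemma xx_smul (r : ℝ) (q : P) (i) : xx (r • q) i = r * xx q i := rfl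
@[simp] lemma yy_smul (r : ℝ) (q : P) (i) : yy (r • q) i = r * yy q i := rfl
@[simp] lemma uu_sub (p q : P) (j n) : uu (p - q) j n = uu p j n - uu q j n := by
  simp only [uu, xx_sub, yy_sub]; ring
@[simp] lemma ww_sub (p q : P) (j n) : ww (p - q) j n = ww p j n - ww q j n := by
  simp only [ww, xx_sub, yy_sub]; ring
@[simp] lemma tt_sub (p q : P) (j) : tt (p - q) j = tt p j - tt q j := by
  simp only [tt, ww_sub]; ring
@[simp] lemma uu_add (p q : P) (j n) : uu (p + q) j n = uu p j n + uu q j n := by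
  simp only [uu, xx_add, yy_add]; ring
@[simp] lemma ww_add (p q : P) (j n) : ww (p + q) j n = ww p j n + ww q j n := by
  simp only [ww, xx_add, yy_add]; ring
@[simp] lemma tt_add (p q : P) (j) : tt (p + q) j = tt p j + tt q j := by
  simp only [tt, ww_add]; ring
@[simp] lemma uu_smul (r : ℝ) (q : P) (j n) : uu (r • q) j n = r * uu q j n := by
  simp only [uu, xx_smul, yy_smul]; ring
@[simp] lemma ww_smul (r : ℝ) (q : P) (j n) : ww (r • q) j n = r * ww q j n := by
  simp only [ww, xx_smul, yy_smul]; ring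
@[simp] lemma tt_smul (r : ℝ) (q : P) (j) : tt (r • q) j = r * tt q j := by
  simp only [tt, ww_smul]; ring

lemma Rel.sub {p q : P} (hp : Rel p) (hq : Rel q) : Rel (p - q) := fun j n => by
  rw [uu_sub, ww_sub, hp, hq]
lemma Rel.add {p q : P} (hp : Rel p) (hq : Rel q) : Rel (p + q) := fun j n => by
  rw [uu_add, ww_add, hp, hq]
lemma Rel.smul {q : P} (r : ℝ) (hq : Rel q) : Rel (r • q) := fun j n => by
  rw [uu_smul, ww_smul, hq]

noncomputable def rest (p : P) : c0 (ℕ × ℕ) →L[ℝ] ℝ := p.2.comp (ContinuousLinearMap.inr ℝ _ _)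

lemma rest_e (p : P) (i) : rest p (e i) = yy p i := rfl

lemma cc_eq (p : P) : cc p = s1 p * s2 p + rest p p.1.2 := by
  have : p.1 = p.1.1 • ((1, 0) : X) + (0, p.1.2) := by ext <;> simp
  unfold cc
  conv_lhs => rw [this, map_add, map_smul]
  rfl

lemma inj_row (j : ℕ) : Function.Injective fun n : ℕ => (j, n) := fun _ _ h => by simpa using h

lemma xx_row (p : P) (j : ℕ) : Tendsto (fun n => xx p (j, n)) atTop (𝓝 0) := by
  rw [← Nat.cofinite_eq_atTop]
  exact (tendsto_zero p.1.2).comp (inj_row j).tendsto_cofinite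

lemma yy_row (p : P) (j : ℕ) : Tendsto (fun n => yy p (j, n)) atTop (𝓝 0) := by
  rw [← Nat.cofinite_eq_atTop]
  exact (summable_abs (rest p)).of_abs.tendsto_cofinite_zero.comp (inj_row j).tendsto_cofinite

lemma ww_row (p : P) (j : ℕ) : Tendsto (fun n => ww p j n) atTop (𝓝 0) := by
  have := ((xx_row p j).const_mul (a j)).sub ((yy_row p j).div_const (a j))
  simpa [ww] using this

lemma Rel.hasSum {p : P} (hp : Rel p) : HasSum (fun j => tt p j ^ 2) (s1 p * s2 p - cc p) := by
  have h := hasSum_dual (rest p) p.1.2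
  have h2 : ∀ j, HasSum (fun n => p.1.2 (j, n) * rest p (e (j, n))) (- tt p j ^ 2) := by
    intro j
    have hs : Summable fun n => p.1.2 (j, n) * rest p (e (j, n)) :=
      h.summable.comp_injective (inj_row j)
    rw [hs.hasSum_iff_tendsto_nat]
    have e1 : ∀ N, ∑ n ∈ Finset.range N, p.1.2 (j, n) * rest p (e (j, n))
        = (ww p j N ^ 2 - ww p j 0 ^ 2) / 4 := by
      intro N
      induction N with
      | zero => simp
      | succ N ih =>
        rw [Finset.sum_range_succ, ih, ← hp j N]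
        have := (a_pos j).ne'
        show _ + xx p (j, N) * yy p (j, N) = _
        simp only [uu, ww]
        field_simp
        ring
    simp only [e1]
    have := (((ww_row p j).pow 2).sub_const (ww p j 0 ^ 2)).div_const 4
    convert this using 2
    simp only [tt]; ring
  have h3 := (h.prod_fiberwise h2).neg
  simp only [neg_neg] at h3
  have e : s1 p * s2 p - cc p = -(rest p) p.1.2 := by rw [cc_eq]; ring
  rw [e]; exact h3

lemma Rel.bound {p : P} (hp : Rel p) (j : ℕ) : a j * |tt p j| ≤ ‖rest p‖ := by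
  have ha := a_pos j
  have e1 : ∀ N, a j * ww p j N = a j * ww p j 0 + 2 * ∑ n ∈ Finset.range N, yy p (j, n) := by
    intro N
    induction N with
    | zero => simp
    | succ N ih =>
      rw [Finset.sum_range_succ, ← hp j N, mul_add 2, ← add_assoc, ← ih]
      simp only [uu, ww]
      field_simp
      ring
  have e2 : ∀ N, |a j * ww p j N - a j * ww p j 0| ≤ 2 * ‖rest p‖ := by
    intro N
    rw [e1, add_sub_cancel_left, abs_mul, abs_two]
    refine mul_le_mul_of_nonneg_left ((Finset.abs_sum_le_sum_abs _ _).trans ?_) zero_le_two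
    have := sum_abs_le (rest p) ((Finset.range N).map ⟨_, inj_row j⟩)
    rwa [Finset.sum_map] at this
  have := le_of_tendsto' ((((ww_row p j).const_mul (a j)).sub_const (a j * ww p j 0)).abs) e2
  rw [mul_zero, zero_sub, abs_neg, abs_mul, abs_of_pos ha] at this
  rw [tt, abs_div, abs_two]
  linarith

/-- coordinate functionals -/
noncomputable def evX (i : ℕ × ℕ) : X →L[ℝ] ℝ := (ev i).comp (ContinuousLinearMap.snd ℝ _ _)
noncomputable def u : X →L[ℝ] ℝ := ContinuousLinearMap.fst ℝ _ _

@[simp] lemma evX_apply (i) (x : X) : evX i x = x.2 i := rfl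
@[simp] lemma u_apply (x : X) : u x = x.1 := rfl

noncomputable def sig (j n : ℕ) : P :=
  ((0, (a j)⁻¹ • (e (j, n) + e (j, n + 1))), a j • (evX (j, n) - evX (j, n + 1)))

lemma xx_sig (j n : ℕ) (i) : xx (sig j n) i
    = (a j)⁻¹ * ((if i = (j, n) then 1 else 0) + if i = (j, n + 1) then 1 else 0) := rfl
lemma yy_sig (j n : ℕ) (i) : yy (sig j n) i
    = a j * ((if (j, n) = i then 1 else 0) - if (j, n + 1) = i then 1 else 0) := rfl

lemma uu_sig (j n j' n' : ℕ) : uu (sig j n) j' n' = if j' = j ∧ n' = n then 2 else 0 := by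
  have := (a_pos j).ne'
  simp only [uu, xx_sig, yy_sig, Prod.mk.injEq]
  by_cases h : j' = j
  · subst h
    by_cases h1 : n' = n
    · subst h1; simp; field_simp; ring
    · by_cases h2 : n' = n + 1
      · subst h2; simp; field_simp; ring
      · simp [h1, h2, Ne.symm h1, Ne.symm h2]
  · simp [h, Ne.symm h]

lemma ww_sig (j n j' n' : ℕ) : ww (sig j n) j' n' = if j' = j ∧ n' = n + 1 then 2 else 0 := by
  have := (a_pos j).ne'
  simp only [ww, xx_sig, yy_sig, Prod.mk.injEq]
  by_cases h : j' = j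
  · subst h
    by_cases h1 : n' = n
    · subst h1; simp; field_simp; ring
    · by_cases h2 : n' = n + 1
      · subst h2; simp; field_simp; ring
      · simp [h1, h2, Ne.symm h1, Ne.symm h2]
  · simp [h, Ne.symm h]

lemma rel_sig (j n : ℕ) : Rel (sig j n) := fun j' n' => by simp [uu_sig, ww_sig]
lemma tt_sig (j n j' : ℕ) : tt (sig j n) j' = 0 := by simp [tt, ww_sig]
lemma s1_sig (j n : ℕ) : s1 (sig j n) = 0 := rfl
lemma s2_sig (j n : ℕ) : s2 (sig j n) = 0 := by simp [s2, sig]
lemma cc_sig (j n : ℕ) : cc (sig j n) = 0 := by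
  have h := (rel_sig j n).hasSum
  simp only [tt_sig, s1_sig] at h
  have h' : HasSum (fun _ : ℕ => (0 : ℝ) ^ 2) 0 := by simpa using hasSum_zero
  have := h.unique h'
  linarith

lemma cc_sub_sig (p : P) (j n : ℕ) (r : ℝ) :
    cc (p - r • sig j n) = cc p - r * (uu p j n - ww p j (n + 1)) := by
  have h0 := cc_sig j n
  have h1 : p.2 (sig j n).1 = (a j)⁻¹ * (yy p (j, n) + yy p (j, n + 1)) := by
    have : (sig j n).1 = (a j)⁻¹ • (((0, e (j, n)) : X) + (0, e (j, n + 1))) := by
      ext <;> simp [sig]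
    rw [this, map_smul, map_add]; rfl
  have h2 : (sig j n).2 p.1 = a j * (xx p (j, n) - xx p (j, n + 1)) := rfl
  have h3 : cc (p - r • sig j n) = cc p - r * p.2 (sig j n).1 - r * (sig j n).2 p.1
      + r * r * cc (sig j n) := by
    simp only [cc, Prod.fst_sub, Prod.snd_sub, Prod.smul_fst, Prod.smul_snd, map_sub, map_smul,
      _root_.sub_apply, _root_.smul_apply, smul_eq_mul]
    ring
  rw [h3, h0, h1, h2]
  simp only [uu, ww]
  ring

/-- points with prescribed finitely supported `t` -/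
noncomputable def pt (α β : ℝ) (c : ℕ → ℝ) (k : ℕ) : P :=
  ((α, ∑ j ∈ Finset.range k, (c j / a j) • e (j, 0)),
    β • u - ∑ j ∈ Finset.range k, (c j * a j) • evX (j, 0))

lemma xx_pt (α β c k j n) : xx (pt α β c k) (j, n) = if j < k ∧ n = 0 then c j / a j else 0 := by
  show (∑ j ∈ Finset.range k, (c j / a j) • e (j, 0)) (j, n) = _
  rw [C0I.sum_apply]
  by_cases h : n = 0
  · subst h; simp [e_apply]
  · simp [e_apply, h]

lemma yy_pt (α β c k j n) : yy (pt α β c k) (j, n) = if j < k ∧ n = 0 then -(c j * a j) else 0 := by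
  simp only [yy, pt, _root_.sub_apply, _root_.smul_apply, _root_.sum_apply, u_apply, evX_apply,
    e_apply]
  by_cases h : n = 0
  · subst h; simp; split_ifs <;> simp
  · simp [Ne.symm h, h]

lemma rel_pt (α β c k) : Rel (pt α β c k) := fun j n => by
  have := (a_pos j).ne'
  simp only [uu, ww, xx_pt, yy_pt]
  split_ifs <;> simp_all
  field_simp; ring

lemma tt_pt (α β c k j) : tt (pt α β c k) j = if j < k then c j else 0 := by
  have := (a_pos j).ne'
  simp only [tt, ww, xx_pt, yy_pt]
  split_ifs <;> simp_all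
  field_simp; ring

lemma s1_pt (α β c k) : s1 (pt α β c k) = α := rfl
lemma s2_pt (α β c k) : s2 (pt α β c k) = β := by
  simp [s2, pt, _root_.sum_apply]

end Pool.Agent.H87.MonoGap
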