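import Pool.Agent.H87.MonoGap1

namespace Pool.Agent.H87.MonoGap

open Filter Topology Set C0I

noncomputable def h (j : ℕ) : ℝ := (1 / 4) * (1 / 2) ^ j
noncomputable def hk (k j : ℕ) : ℝ := if j < k then h j else 0

lemma h_pos (j : ℕ) : 0 < h j := by unfold h; positivity
lemma h_succ (j : ℕ) : h (j + 1) = h j / 2 := by unfold h; ring
lemma h_anti {k l : ℕ} (hkl : k ≤ l) : h l ≤ h k := by
  unfold h
  exact mul_le_mul_of_nonneg_left (pow_le_pow_of_le_one (by norm_num) (by norm_num) hkl)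
    (by norm_num)

lemma tail (k : ℕ) (F : Finset ℕ) : ∑ j ∈ F, (h j - hk k j) ^ 2 ≤ 2 * h k ^ 2 := by
  have e1 : ∀ N, ∑ j ∈ Finset.range N, (h j - hk k j) ^ 2 + 2 * h (max N k) ^ 2 ≤ 2 * h k ^ 2 := by
    intro N
    induction N with
    | zero => simp
    | succ N ih =>
      rw [Finset.sum_range_succ]
      by_cases hN : N < k
      · rw [max_eq_right (by omega)] at ih ⊢
        simpa [hk, hN] using ih
      · rw [max_eq_left (by omega)] at ih ⊢
        rw [h_succ]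
        simp only [hk, hN, if_false] at ih ⊢
        nlinarith [sq_nonneg (h N)]
  obtain ⟨N, hN⟩ := F.exists_nat_subset_range
  have := Finset.sum_le_sum_of_subset_of_nonneg hN
    (f := fun j => (h j - hk k j) ^ 2) fun _ _ _ => sq_nonneg _
  have := e1 N
  nlinarith [sq_nonneg (h (max N k))]

lemma diff_le (k l : ℕ) (F : Finset ℕ) :
    ∑ j ∈ F, (hk k j - hk l j) ^ 2 ≤ (4 * h k - 4 * h l) ^ 2 := by
  wlog hkl : k ≤ l generalizing k l
  · have := this l k (by omega)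
    calc _ = ∑ j ∈ F, (hk l j - hk k j) ^ 2 := Finset.sum_congr rfl fun _ _ => by ring
      _ ≤ _ := this
      _ = _ := by ring
  rcases hkl.eq_or_lt with rfl | hlt
  · simp
  have h1 : ∑ j ∈ F, (hk k j - hk l j) ^ 2 ≤ ∑ j ∈ F, (h j - hk k j) ^ 2 := by
    refine Finset.sum_le_sum fun j _ => ?_
    simp only [hk]
    split_ifs with h1 h2 h2
    · simp
    · omega
    · simp
    · simp; positivity
  have h2 := tail k F
  have h3 : h l ≤ h k / 2 := h_succ k ▸ h_anti hlt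
  have h4 := h_pos k
  have h5 := h_pos l
  nlinarith

def G0 : Set P := {p | Rel p ∧ ∃ k, tt p = hk k ∧
  ((s1 p = -(4 * h k) ∧ s2 p = -(4 * h k)) ∨ (s1 p = 1 + 4 * h k ∧ s2 p = 4 * h k))}

def Mono (G : Set P) : Prop := ∀ p ∈ G, ∀ q ∈ G, 0 ≤ cc (p - q)

lemma Rel.cc_nonneg {p : P} (hp : Rel p) (H : ∀ F : Finset ℕ, ∑ j ∈ F, tt p j ^ 2 ≤ s1 p * s2 p) :
    0 ≤ cc p := by
  have := hasSum_le_of_sum_le hp.hasSum H
  linarith

lemma Rel.sum_le {p : P} (hp : Rel p) (H : 0 ≤ cc p) (F : Finset ℕ) :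
    ∑ j ∈ F, tt p j ^ 2 ≤ s1 p * s2 p := by
  have := sum_le_hasSum F (fun _ _ => sq_nonneg _) hp.hasSum
  linarith

lemma mono_G0 : Mono G0 := by
  rintro p ⟨hp, k, hk1, hk2⟩ q ⟨hq, l, hl1, hl2⟩
  refine (hp.sub hq).cc_nonneg fun F => ?_
  simp only [tt_sub, s1_sub, s2_sub, hk1, hl1]
  refine (diff_le k l F).trans ?_
  have h4 := h_pos k
  have h5 := h_pos l
  rcases hk2 with ⟨e1, e2⟩ | ⟨e1, e2⟩ <;> rcases hl2 with ⟨e3, e4⟩ | ⟨e3, e4⟩ <;>
    rw [e1, e2, e3, e4] <;> nlinarith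

lemma ptL (k : ℕ) : pt (-(4 * h k)) (-(4 * h k)) h k ∈ G0 :=
  ⟨rel_pt _ _ _ _, k, funext fun j => tt_pt _ _ _ _ j, Or.inl ⟨s1_pt _ _ _ _, s2_pt _ _ _ _⟩⟩
lemma ptR (k : ℕ) : pt (1 + 4 * h k) (4 * h k) h k ∈ G0 :=
  ⟨rel_pt _ _ _ _, k, funext fun j => tt_pt _ _ _ _ j, Or.inr ⟨s1_pt _ _ _ _, s2_pt _ _ _ _⟩⟩

lemma cc_neg (p q : P) : cc (p - q) = cc (q - p) := by
  simp only [cc, Prod.fst_sub, Prod.snd_sub, map_sub, _root_.sub_apply]; ring

lemma exists_max : ∃ G, G0 ⊆ G ∧ Mono G ∧ ∀ p, (∀ q ∈ G, 0 ≤ cc (p - q)) → p ∈ G := by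
  obtain ⟨G, hG, hmax⟩ := zorn_subset_nonempty {G | Mono G} (fun c hc hch _ =>
    ⟨⋃₀ c, fun p ⟨s, hs, hp⟩ q ⟨t, ht, hq⟩ => by
      rcases hch.total hs ht with h | h
      · exact hc ht p (h hp) q hq
      · exact hc hs p hp q (h hq), fun s hs => subset_sUnion_of_mem hs⟩) G0 mono_G0
  refine ⟨G, hG, hmax.1, fun p hp => ?_⟩
  have : Mono (insert p G) := by
    rintro q (rfl | hq) r (rfl | hr)
    · simp [cc]
    · exact hp r hr
    · rw [cc_neg]; exact hp q hq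
    · exact hmax.1 q hq r hr
  exact hmax.2 this (subset_insert _ _) (mem_insert _ _)

section
variable {p : P} (hp : ∀ q ∈ G0, 0 ≤ cc (p - q))
include hp

lemma rel_of : Rel p := by
  intro j n
  obtain ⟨hq, k, hk1, hk2⟩ := ptL 0
  set q := pt (-(4 * h 0)) (-(4 * h 0)) h 0
  have H : ∀ r : ℝ, 0 ≤ cc (p - q) - r * (uu (p - q) j n - ww (p - q) j (n + 1)) := by
    intro r
    have e : p - q - r • sig j n = p - (q + r • sig j n) :=
      Prod.ext (sub_sub _ _ _) (ContinuousLinearMap.ext fun v => sub_sub _ _ _)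
    rw [← cc_sub_sig, e]
    refine hp _ ⟨hq.add ((rel_sig j n).smul r), k, ?_, ?_⟩
    · funext i; simp [tt_sig, hk1]
    · simpa [s1_sig, s2_sig] using hk2
  have : uu (p - q) j n - ww (p - q) j (n + 1) = 0 := by
    by_contra hne
    have := H ((cc (p - q) + 1) / (uu (p - q) j n - ww (p - q) j (n + 1)))
    rw [div_mul_cancel₀ _ hne] at this
    linarith
  rw [uu_sub, ww_sub, hq j n] at this
  linarith

lemma lim_le (F : Finset ℕ) : ∑ j ∈ F, (tt p j - h j) ^ 2 ≤ s1 p * s2 p ∧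
    ∑ j ∈ F, (tt p j - h j) ^ 2 ≤ (s1 p - 1) * s2 p := by
  have h0 : Tendsto h atTop (𝓝 0) := by
    have := (tendsto_pow_atTop_nhds_zero_of_lt_one (r := (1 / 2 : ℝ)) (by norm_num)
      (by norm_num)).const_mul (1 / 4)
    rw [mul_zero] at this
    exact this
  obtain ⟨N, hN⟩ := F.exists_nat_subset_range
  have e : ∀ α β k, N ≤ k → ∑ j ∈ F, tt (p - pt α β h k) j ^ 2 = ∑ j ∈ F, (tt p j - h j) ^ 2 := by
    intro α β k hk
    refine Finset.sum_congr rfl fun j hj => ?_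
    have := Finset.mem_range.1 (hN hj)
    rw [tt_sub, tt_pt, if_pos (by omega)]
  constructor
  · have ht := ((h0.const_mul 4).const_add (s1 p)).mul ((h0.const_mul 4).const_add (s2 p))
    simp only [mul_zero, add_zero] at ht
    refine ge_of_tendsto ht ?_
    filter_upwards [eventually_ge_atTop N] with k hk
    have := ((rel_of hp).sub (ptL k).1).sum_le (hp _ (ptL k)) F
    rw [e _ _ k hk] at this
    simpa [s1_pt, s2_pt] using this
  · have ht := ((h0.const_mul 4).const_sub (s1 p - 1)).mul ((h0.const_mul 4).const_sub (s2 p))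
    simp only [mul_zero, sub_zero] at ht
    refine ge_of_tendsto ht ?_
    filter_upwards [eventually_ge_atTop N] with k hk
    have := ((rel_of hp).sub (ptR k).1).sum_le (hp _ (ptR k)) F
    rw [e _ _ k hk, s1_sub, s2_sub, s1_pt, s2_pt] at this
    refine this.trans (le_of_eq ?_)
    ring

lemma gap : (s1 p < 0 ∧ s2 p < 0) ∨ (1 < s1 p ∧ 0 < s2 p) := by
  have : ∃ j, tt p j ≠ h j := by
    by_contra hc
    push Not at hc
    obtain ⟨j, hj⟩ := pow_unbounded_of_one_lt (4 * ‖rest p‖) (one_lt_two (α := ℝ))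
    have := (rel_of hp).bound j
    rw [hc, abs_of_pos (h_pos j)] at this
    have e : a j * h j = 2 ^ j / 4 := by
      simp only [a, h]
      rw [show (4 : ℝ) ^ j = 2 ^ j * 2 ^ j by rw [← mul_pow]; norm_num, one_div_pow]
      field_simp
    linarith
  obtain ⟨j, hj⟩ := this
  have h1 := lim_le hp {j}
  simp only [Finset.sum_singleton] at h1
  have h2 : 0 < (tt p j - h j) ^ 2 := by have := sub_ne_zero.2 hj; positivity
  have h3 : 0 < s1 p * s2 p := by linarith [h1.1]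
  have h4 : 0 < (s1 p - 1) * s2 p := by linarith [h1.2]
  rcases lt_trichotomy (s2 p) 0 with h5 | h5 | h5
  · left; exact ⟨by nlinarith, h5⟩
  · rw [h5] at h3; simp at h3
  · right; exact ⟨by nlinarith, h5⟩

omit hp in
lemma sq_bound {t : ℕ → ℝ} {α β : ℝ} (hα : 0 < α) (F : Finset ℕ)
    (H : ∑ j ∈ F, (t j - h j) ^ 2 ≤ α * β) :
    ∑ j ∈ F, (0 - t j) ^ 2 ≤ (1 / 2 + α) * (1 / 2 + β) := by
  have h1 : ∑ j ∈ F, h j ^ 2 ≤ 1 / 4 := by
    have := tail 0 F
    simp only [hk, Nat.not_lt_zero, if_false, sub_zero] at this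
    refine this.trans ?_
    simp [h]; norm_num
  have h2 : ∀ j, (2 * α) * (0 - t j) ^ 2
      ≤ (2 * α + 1) * (t j - h j) ^ 2 + (2 * α) * (1 + 2 * α) * h j ^ 2 := by
    intro j
    nlinarith [sq_nonneg ((t j - h j) - 2 * α * h j)]
  have h3 := Finset.sum_le_sum fun j (_ : j ∈ F) => h2 j
  rw [Finset.sum_add_distrib, ← Finset.mul_sum, ← Finset.mul_sum, ← Finset.mul_sum] at h3
  have h4 := mul_le_mul_of_nonneg_left H (show 0 ≤ 2 * α + 1 by positivity)
  have h5 := mul_le_mul_of_nonneg_left h1 (show 0 ≤ (2 * α) * (1 + 2 * α) by positivity)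
  refine le_of_mul_le_mul_left ?_ (show 0 < 2 * α by positivity)
  nlinarith

lemma related_left (hs : s1 p < 0) : 0 ≤ cc (pt (1 / 2) (1 / 2) h 0 - p) := by
  refine ((rel_pt _ _ _ _).sub (rel_of hp)).cc_nonneg fun F => ?_
  have := sq_bound (t := tt p) (α := - s1 p) (β := - s2 p) (by linarith) F
    (by simpa using (lim_le hp F).1)
  simpa [tt_pt, s1_pt, s2_pt, sub_eq_add_neg] using this

lemma related_sum : 0 ≤ cc (pt (1 / 2) (1 / 2) h 0 - (p + pt 0 (s1 p) h 0)) := by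
  refine ((rel_pt _ _ _ _).sub ((rel_of hp).add (rel_pt _ _ _ _))).cc_nonneg fun F => ?_
  simp only [tt_sub, tt_add, tt_pt, s1_sub, s1_add, s2_sub, s2_add, s1_pt, s2_pt,
    Nat.not_lt_zero, if_false, add_zero]
  rcases gap hp with ⟨h1, h2⟩ | ⟨h1, h2⟩
  · have := sq_bound (t := tt p) (α := - s1 p) (β := - s2 p) (by linarith) F
      (by simpa using (lim_le hp F).1)
    nlinarith
  · have := sq_bound (t := tt p) (α := s1 p - 1) (β := s2 p) (by linarith) F (lim_le hp F).2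
    nlinarith
end

theorem core : ∃ (G : Set (X × (X →L[ℝ] ℝ))) (z : X), u z = 1 / 2 ∧
    (∀ x y f g, (x, f) ∈ G → (y, g) ∈ G → 0 ≤ (f - g) (x - y)) ∧
    (∀ x f, (∀ y g, (y, g) ∈ G → 0 ≤ (f - g) (x - y)) → (x, f) ∈ G) ∧
    (∀ x f, (x, f) ∈ G → u x < 0 ∨ 1 < u x) ∧
    (∃ x f, (x, f) ∈ G ∧ u x = -1) ∧ (∃ x f, (x, f) ∈ G ∧ u x = 2) ∧
    (∀ x f, (x, f) ∈ G → u x < 0 → 0 ≤ ((1 / 2 : ℝ) • u - f) (z - x)) ∧
    (∀ x f, (x, f) ∈ G → 0 ≤ ((1 / 2 : ℝ) • u - (u x • u + f)) (z - x)) := by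
  obtain ⟨G, h0, h1, h2⟩ := exists_max
  have hr : ∀ p ∈ G, ∀ q ∈ G0, 0 ≤ cc (p - q) := fun p hp q hq => h1 p hp q (h0 hq)
  refine ⟨G, (1 / 2, 0), rfl, fun x y f g hx hy => h1 _ hx _ hy,
    fun x f H => h2 _ fun q hq => H q.1 q.2 hq, fun x f hx => ?_,
    ⟨_, _, h0 (ptL 0), by simp [pt, h]⟩, ⟨_, _, h0 (ptR 0), by simp [pt, h]; norm_num⟩,
    fun x f hx hs => ?_, fun x f hx => ?_⟩
  · exact (gap (hr _ hx)).imp And.left And.left
  · simpa [cc, pt] using related_left (hr _ hx) hs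
  · have := related_sum (hr _ hx)
    have e : pt (1 / 2) (1 / 2) h 0 - ((x, f) + pt 0 (s1 (x, f)) h 0)
        = (((1 / 2, 0) : X) - x, (1 / 2 : ℝ) • u - (u x • u + f)) := by
      refine Prod.ext ?_ ?_
      · simp [pt]
      · refine ContinuousLinearMap.ext fun v => ?_
        simp [pt, s1, add_comm]
    rw [e] at this
    exact this

lemma rank_one_max (x : X) (f : X →L[ℝ] ℝ) (H : ∀ y, 0 ≤ (f - u y • u) (x - y)) : f = u x • u := by
  have key : ∀ v, 0 ≤ (f - u x • u) v := by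
    intro v
    have h1 : ∀ t : ℝ, 0 < t → 0 ≤ (f - u x • u) v + t * u v ^ 2 := by
      intro t ht
      have := H (x - t • v)
      simp only [sub_sub_cancel, map_smul, map_sub, _root_.sub_apply, _root_.smul_apply,
        smul_eq_mul] at this ⊢
      refine nonneg_of_mul_nonneg_right (a := t) ?_ ht
      nlinarith
    by_contra hc
    push Not at hc
    have := h1 (-(f - u x • u) v / (u v ^ 2 + 1)) (div_pos (by linarith) (by positivity))
    have e : -(f - u x • u) v / (u v ^ 2 + 1) * u v ^ 2 < -(f - u x • u) v := by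
      rw [div_mul_eq_mul_div, div_lt_iff₀ (by positivity)]
      nlinarith
    linarith
  rw [← sub_eq_zero]
  refine ContinuousLinearMap.ext fun v => ?_
  have h1 := key v
  have h2 := key (-v)
  rw [map_neg] at h2
  show (f - u x • u) v = 0
  linarith

lemma rank_one_mono (x y : X) : 0 ≤ (u x • u - u y • u) (x - y) := by
  simp only [map_sub, _root_.sub_apply, _root_.smul_apply, smul_eq_mul]
  nlinarith [sq_nonneg (u x - u y)]

end Pool.Agent.H87.MonoGap
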