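import Mathlib

namespace Pool.Agent.H87.NSD

open Filter Topology TopologicalSpace

variable {E : Type} [NormedAddCommGroup E] [NormedSpace ℝ E]

def Big (W : Submodule ℝ E) : Prop := ¬ IsSeparable (W : Set E)

lemma Big.inf_ker {W : Submodule ℝ E} (h : Big W) (φ : StrongDual ℝ E) :
    Big (W ⊓ LinearMap.ker φ.toLinearMap) := by
  intro hs
  apply h
  by_cases h0 : ∃ w ∈ W, φ w ≠ 0
  · obtain ⟨w, hw, hφ⟩ := h0
    refine ((hs.union (Set.finite_singleton w).isSeparable).span (R := ℝ)).mono fun x hx => ?_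
    have : x = (x - (φ x / φ w) • w) + (φ x / φ w) • w := by abel
    rw [this]
    refine Submodule.add_mem _ (Submodule.subset_span (Or.inl ⟨W.sub_mem hx (W.smul_mem _ hw), ?_⟩))
      (Submodule.smul_mem _ _ (Submodule.subset_span (Or.inr rfl)))
    show φ _ = 0
    rw [map_sub, map_smul, smul_eq_mul, div_mul_cancel₀ _ hφ, sub_self]
  · push Not at h0
    exact hs.mono fun x hx => ⟨hx, h0 x hx⟩

lemma sep_of (W : Submodule ℝ E) {K : Type} [NormedAddCommGroup K] [NormedSpace ℝ K] (h : E →L[ℝ] K)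
    (D : Set E) (hD : D.Countable) (hd : ∀ x, ∃ d ∈ D, ‖x - d‖ ≤ ‖h x‖ + 1 / 2)
    (hW : ∀ w ∈ W, 6 * ‖h w‖ ≤ ‖w‖) : IsSeparable (W : Set E) := by
  have ch : ∀ d : E, ∃ c : E, c ∈ W ∧ ∀ x ∈ W, ‖h x‖ ≤ 1 → ‖x - d‖ ≤ 3 / 2 → ‖c - d‖ ≤ 3 / 2 := by
    intro d
    by_cases hc : ∃ x ∈ W, ‖x - d‖ ≤ 3 / 2
    · obtain ⟨x, h1, h2⟩ := hc; exact ⟨x, h1, fun _ _ _ _ => h2⟩
    · exact ⟨0, W.zero_mem, fun x h1 _ h2 => absurd ⟨x, h1, h2⟩ hc⟩
  choose c hc1 hc2 using ch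
  have k1 : ∀ x ∈ W, ‖h x‖ ≤ 1 → ∃ d ∈ D, ‖x - c d‖ ≤ 3 := fun x hx h1 => by
    obtain ⟨d, h2, h3⟩ := hd x
    refine ⟨d, h2, ?_⟩
    have := norm_sub_le_norm_sub_add_norm_sub x d (c d)
    rw [norm_sub_rev d] at this
    linarith [hc2 d x hx h1 (by linarith)]
  have k2 : ∀ k : ℕ, ∀ x ∈ W, ‖h x‖ ≤ 1 →
      ∃ v ∈ Submodule.span ℝ (c '' D), ‖x - v‖ ≤ 3 * (1 / 2) ^ k := by
    intro k
    induction k with
    | zero =>
      intro x hx h1
      obtain ⟨d, h2, h3⟩ := k1 x hx h1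
      exact ⟨c d, Submodule.subset_span ⟨d, h2, rfl⟩, by simpa using h3⟩
    | succ k ih =>
      intro x hx h1
      obtain ⟨d, h2, h3⟩ := k1 x hx h1
      have h4 := hW _ (W.sub_mem hx (hc1 d))
      obtain ⟨v, h5, h6⟩ := ih ((2 : ℝ) • (x - c d)) (W.smul_mem _ (W.sub_mem hx (hc1 d)))
        (by rw [map_smul, norm_smul, Real.norm_two]; linarith)
      refine ⟨c d + (1 / 2 : ℝ) • v, Submodule.add_mem _ (Submodule.subset_span ⟨d, h2, rfl⟩)
        (Submodule.smul_mem _ _ h5), ?_⟩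
      have : x - (c d + (1 / 2 : ℝ) • v) = (1 / 2 : ℝ) • ((2 : ℝ) • (x - c d) - v) := by module
      rw [this, norm_smul, Real.norm_eq_abs, abs_of_pos (by norm_num : (0 : ℝ) < 1 / 2), pow_succ]
      linarith
  refine ((hD.image c).isSeparable.span (R := ℝ)).closure.mono fun x hx => ?_
  have h0 : 0 < ‖h x‖ + 1 := by positivity
  have k3 : (‖h x‖ + 1)⁻¹ • x ∈ (Submodule.span ℝ (c '' D)).topologicalClosure := by
    refine Metric.mem_closure_iff.2 fun ε hε => ?_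
    obtain ⟨k, hk⟩ := exists_pow_lt_of_lt_one (show 0 < ε / 3 by positivity)
      (show (1 / 2 : ℝ) < 1 by norm_num)
    obtain ⟨v, h1, h2⟩ := k2 k _ (W.smul_mem (‖h x‖ + 1)⁻¹ hx) (by
      rw [map_smul, norm_smul, norm_inv, Real.norm_eq_abs, abs_of_pos h0, inv_mul_le_iff₀ h0]
      linarith)
    exact ⟨v, h1, by rw [dist_eq_norm]; linarith⟩
  have := Submodule.smul_mem _ (‖h x‖ + 1) k3
  rwa [smul_inv_smul₀ h0.ne'] at this

/-- the filter of finite-codimensional closed subspaces -/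
def cof (E : Type) [NormedAddCommGroup E] [NormedSpace ℝ E] : Filter E :=
  ⨅ φ : StrongDual ℝ E, 𝓟 {w | φ w = 0}

lemma cof_ker (φ : StrongDual ℝ E) : ∀ᶠ w in cof E, φ w = 0 :=
  mem_iInf_of_mem φ (mem_principal_self _)

section
variable {K : Type} [NormedAddCommGroup K] [InnerProductSpace ℝ K]

noncomputable def term (T : E →L[ℝ] K) (z y : E) : ℝ := inner ℝ (T y) (T z) / ‖T y‖

lemma cof_inner (T : E →L[ℝ] K) (z : E) : ∀ᶠ w in cof E, inner ℝ (T w) (T z) = 0 :=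
  (cof_ker ((innerSL ℝ (T z)).comp T)).mono fun w hw => by rw [real_inner_comm]; exact hw

lemma term_deriv (T : E →L[ℝ] K) (z y : E) (hy : T y ≠ 0) :
    HasDerivAt (fun s : ℝ => ‖T (y + s • z)‖) (term T z y) 0 := by
  have h1 : HasDerivAt (fun s : ℝ => T (y + s • z)) (T z) 0 := by
    simpa using ((hasDerivAt_id (0 : ℝ)).smul_const (T z)).const_add (T y)
  have h2 := h1.norm_sq.sqrt (by simpa using hy)
  simp only [Real.sqrt_sq (norm_nonneg _), zero_smul, add_zero] at h2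
  refine h2.congr_deriv ?_
  rw [term]; field_simp
end

variable {H₀ : Type} [NormedAddCommGroup H₀] [InnerProductSpace ℝ H₀] (a : E →L[ℝ] H₀)

section
variable {K : Type} [NormedAddCommGroup K] [InnerProductSpace ℝ K]

def Small (T : E →L[ℝ] K) (R : E → ℝ) : Prop :=
  ∀ y ≠ 0, ∀ ε > 0, ∀ᶠ w in cof E, 2 * ‖w‖ < ‖a w‖ → ‖T w‖ ≤ 2 * ‖T y‖ → |R (y + w) - R y| ≤ ε

variable {a}

lemma Small.zero (T : E →L[ℝ] K) : Small a T fun _ => 0 :=
  fun _ _ ε hε => Eventually.of_forall fun _ _ _ => by simpa using hε.le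

lemma Small.add {T : E →L[ℝ] K} {R R' : E → ℝ} (h : Small a T R) (h' : Small a T R') :
    Small a T fun x => R x + R' x := fun y hy ε hε => by
  filter_upwards [h y hy (ε / 2) (by positivity), h' y hy (ε / 2) (by positivity)] with w h1 h2 h3 h4
  have := abs_add_le (R (y + w) - R y) (R' (y + w) - R' y)
  rw [show R (y + w) + R' (y + w) - (R y + R' y) = R (y + w) - R y + (R' (y + w) - R' y) by ring]
  linarith [h1 h3 h4, h2 h3 h4]

lemma Small.term {K' : Type} [NormedAddCommGroup K'] [InnerProductSpace ℝ K'] {T : E →L[ℝ] K}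
    {S : E →L[ℝ] K'} (hS : ∀ y ≠ 0, S y ≠ 0)
    (h : ∀ η > 0, ∀ᶠ w in cof E, 2 * ‖w‖ < ‖a w‖ → ‖S w‖ ≤ η * ‖T w‖) (z : E) :
    Small a T (term S z) := fun y hy ε hε => by
  have hc : ContinuousAt (fun u : K' => inner ℝ (S y) (S z) / ‖u‖) (S y) :=
    continuousAt_const.div continuous_norm.continuousAt (norm_ne_zero_iff.2 (hS y hy))
  obtain ⟨δ, hδ, h1⟩ := Metric.continuousAt_iff.1 hc ε hε
  filter_upwards [h (δ / (2 * ‖T y‖ + 1)) (by positivity), cof_inner S z] with w h2 h3 h4 h5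
  have h6 : dist (S (y + w)) (S y) < δ := by
    rw [dist_eq_norm, map_add, add_sub_cancel_left]
    refine (h2 h4).trans_lt ?_
    rw [div_mul_eq_mul_div, div_lt_iff₀ (by positivity)]
    nlinarith
  have h7 := (h1 h6).le
  rw [Real.dist_eq] at h7
  unfold NSD.term
  rwa [map_add, inner_add_left, h3, add_zero, ← map_add]

lemma step (hU : ∀ W : Submodule ℝ E, Big W → ∃ w ∈ W, 2 * ‖w‖ < ‖a w‖) {Y : Submodule ℝ E}
    (hY : Big Y) (T : E →L[ℝ] K) (hT : ∀ w, ‖w‖ < ‖a w‖ → T w ≠ 0) (R : E → ℝ) (hR : Small a T R)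
    (z : E) (h : ∀ y ∈ Y, ‖y‖ < ‖a y‖ → term T z y + R y = 0) :
    ∀ y ∈ Y, inner ℝ (T y) (T z) = 0 := by
  have ex : ∀ r > 0, ∀ s ∈ cof E, ∀ W : Submodule ℝ E, Big W →
      ∃ w ∈ W, 2 * ‖w‖ < ‖a w‖ ∧ ‖T w‖ = r ∧ w ∈ s := by
    intro r hr s hs
    refine iInf_sets_induct hs (p := fun s => ∀ W : Submodule ℝ E, Big W →
      ∃ w ∈ W, 2 * ‖w‖ < ‖a w‖ ∧ ‖T w‖ = r ∧ w ∈ s) (fun W hW => ?_) ?_
    · obtain ⟨w, h1, h2⟩ := hU W hW
      have h3 : 0 < ‖T w‖ := norm_pos_iff.2 (hT w (by linarith [norm_nonneg w]))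
      have h4 : 0 < r / ‖T w‖ := by positivity
      refine ⟨(r / ‖T w‖) • w, W.smul_mem _ h1, ?_, ?_, trivial⟩
      · rw [map_smul, norm_smul, norm_smul, Real.norm_eq_abs, abs_of_pos h4]; nlinarith
      · rw [map_smul, norm_smul, Real.norm_eq_abs, abs_of_pos h4, div_mul_cancel₀ _ h3.ne']
    · intro φ s₁ s₂ h1 h2 W hW
      obtain ⟨w, h3, h4, h5, h6⟩ := h2 _ (hW.inf_ker φ)
      exact ⟨w, h3.1, h4, h5, h1 h3.2, h6⟩
  have k1 : ∀ y ∈ Y, 2 * ‖y‖ < ‖a y‖ → inner ℝ (T y) (T z) = 0 := by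
    intro y hy hy2
    have hy3 : ‖y‖ < ‖a y‖ := by linarith [norm_nonneg y]
    have y0 : y ≠ 0 := by rintro rfl; simp at hy2
    have h3 : 0 < ‖T y‖ := norm_pos_iff.2 (hT y hy3)
    have k2 : ∀ ε > 0, |term T z y| ≤ 3 * ε := by
      intro ε hε
      obtain ⟨w, w1, w2, w3, w4, w5, w6, w7⟩ := ex (4 / 3 * ‖T y‖) (by positivity) _
        ((hR y y0 ε hε).and ((cof_inner T z).and ((cof_inner T y).and (cof_inner a y)))) Y hY
      have e1 : ‖T (y + w)‖ = 5 / 3 * ‖T y‖ := by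
        refine (pow_left_inj₀ (norm_nonneg _) (by positivity) two_ne_zero).1 ?_
        rw [map_add, norm_add_sq_real, real_inner_comm, w6, w3]; ring
      have e2 : term T z (y + w) = 3 / 5 * term T z y := by
        unfold term
        rw [e1, map_add, inner_add_left, w5, add_zero]; field_simp
      have e3 : ‖y + w‖ < ‖a (y + w)‖ := by
        have h4 : ‖a (y + w)‖ ^ 2 = ‖a y‖ ^ 2 + ‖a w‖ ^ 2 := by
          rw [map_add, norm_add_sq_real, real_inner_comm, w7]; ring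
        have h5 : ‖a y‖ ≤ ‖a (y + w)‖ := abs_le_of_sq_le_sq' (by nlinarith) (norm_nonneg _) |>.2
        have h6 : ‖a w‖ ≤ ‖a (y + w)‖ := abs_le_of_sq_le_sq' (by nlinarith) (norm_nonneg _) |>.2
        linarith [norm_add_le y w]
      have e4 := h _ (Y.add_mem hy w1) e3
      have e5 := h y hy hy3
      have e6 := w4 w2 (by linarith)
      rw [abs_le] at e6 ⊢
      constructor <;> linarith [e6.1, e6.2]
    have k3 : term T z y = 0 := abs_nonpos_iff.1 (le_of_forall_pos_le_add fun ε hε => by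
      linarith [k2 (ε / 3) (by positivity)])
    exact (div_eq_zero_iff.1 k3).resolve_right h3.ne'
  obtain ⟨y₀, h1, h2⟩ := hU Y hY
  intro y hy
  have hc : ∀ᶠ t : ℝ in 𝓝 0, 2 * ‖y₀ + t • y‖ < ‖a (y₀ + t • y)‖ :=
    ContinuousAt.eventually_lt (by fun_prop) (by fun_prop) (by simpa using h2)
  obtain ⟨t, h3, h4⟩ := ((hc.filter_mono nhdsWithin_le_nhds).and
    (self_mem_nhdsWithin (s := {0}ᶜ) (a := (0 : ℝ)))).exists
  have := k1 _ (Y.add_mem h1 (Y.smul_mem t hy)) h3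
  rw [map_add, map_smul, inner_add_left, k1 _ h1 h2, zero_add, real_inner_smul_left] at this
  exact (mul_eq_zero.1 this).resolve_left h4

end

variable {H₁ : Type} [NormedAddCommGroup H₁] [InnerProductSpace ℝ H₁] (S₁ S₂ S₃ : E →L[ℝ] H₁)

noncomputable def N (x : E) : ℝ := max ‖x‖ ‖a x‖ + (‖S₁ x‖ + (‖S₂ x‖ + ‖S₃ x‖))

theorem core (hU : ∀ W : Submodule ℝ E, Big W → ∃ w ∈ W, 2 * ‖w‖ < ‖a w‖)
    (i₁ : ∀ y ≠ 0, S₁ y ≠ 0) (i₂ : ∀ y ≠ 0, S₂ y ≠ 0) (i₃ : ∀ y ≠ 0, S₃ y ≠ 0)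
    (d₁ : ∀ η > 0, ∀ᶠ w in cof E, ‖S₁ w‖ ≤ η * ‖w‖)
    (d₂ : ∀ η > 0, ∀ᶠ w in cof E, ‖S₂ w‖ ≤ η * ‖S₁ w‖)
    (d₃ : ∀ η > 0, ∀ᶠ w in cof E, ‖S₃ w‖ ≤ η * ‖S₂ w‖)
    (P : E →L[ℝ] E) (hP : ∀ x, P (P x) = P x) (hN : ∀ x, N a S₁ S₂ S₃ (P x) ≤ N a S₁ S₂ S₃ x)
    (hB : Big (LinearMap.range P.toLinearMap)) (x z : E) (hz : P z = 0) :
    inner ℝ (S₁ (P x)) (S₁ z) = 0 ∧ inner ℝ (S₂ (P x)) (S₂ z) = 0 ∧
      inner ℝ (S₃ (P x)) (S₃ z) = 0 := by
  set Y := LinearMap.range P.toLinearMap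
  have ne : ∀ w, ‖w‖ < ‖a w‖ → w ≠ 0 := by rintro w h rfl; simp at h
  have h0 : ∀ y ∈ Y, ‖y‖ < ‖a y‖ →
      term a z y + (term S₁ z y + (term S₂ z y + term S₃ z y)) = 0 := by
    rintro y ⟨u, hu⟩ hy
    have hPy : P y = y := by rw [← hu]; exact hP u
    have y0 := ne y hy
    have hd := (term_deriv a z y (by rintro h; rw [h, norm_zero] at hy; linarith [norm_nonneg y])).add
      ((term_deriv S₁ z y (i₁ y y0)).add
        ((term_deriv S₂ z y (i₂ y y0)).add (term_deriv S₃ z y (i₃ y y0))))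
    refine IsLocalMin.hasDerivAt_eq_zero ?_ hd
    have hc : ∀ᶠ t : ℝ in 𝓝 0, ‖y + t • z‖ < ‖a (y + t • z)‖ :=
      ContinuousAt.eventually_lt (by fun_prop) (by fun_prop) (by simpa using hy)
    filter_upwards [hc] with t ht
    have := hN (y + t • z)
    rw [map_add, map_smul, hz, smul_zero, add_zero, hPy, N, N, max_eq_right hy.le,
      max_eq_right ht.le] at this
    simpa using this
  have tr : ∀ {f g k : E → ℝ}, (∀ w, 0 ≤ k w) → (∀ η > 0, ∀ᶠ w in cof E, f w ≤ η * g w) →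
      (∀ η > 0, ∀ᶠ w in cof E, g w ≤ η * k w) → ∀ η > 0, ∀ᶠ w in cof E, f w ≤ η * k w := by
    intro f g k _ h1 h2 η hη
    filter_upwards [h1 1 one_pos, h2 η hη] with w h3 h4
    linarith
  have wk : ∀ {f g : E → ℝ}, (∀ η > 0, ∀ᶠ w in cof E, f w ≤ η * g w) →
      ∀ η > 0, ∀ᶠ w in cof E, 2 * ‖w‖ < ‖a w‖ → f w ≤ η * g w :=
    fun h η hη => (h η hη).mono fun _ h _ => h
  have wa : ∀ {f : E → ℝ}, (∀ η > 0, ∀ᶠ w in cof E, f w ≤ η * ‖w‖) →
      ∀ η > 0, ∀ᶠ w in cof E, 2 * ‖w‖ < ‖a w‖ → f w ≤ η * ‖a w‖ :=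
    fun h η hη => (h η hη).mono fun w h h2 => h.trans
      (mul_le_mul_of_nonneg_left (by linarith [norm_nonneg w]) hη.le)
  have d21 := tr (fun _ => norm_nonneg _) d₂ d₁
  have d32 := tr (fun _ => norm_nonneg _) d₃ d₂
  have d31 := tr (fun _ => norm_nonneg _) d32 d₁
  have s0 := step hU hB a (fun w hw h => by rw [h, norm_zero] at hw; linarith [norm_nonneg w]) _
    ((Small.term i₁ (wa d₁) z).add ((Small.term i₂ (wa d21) z).add (Small.term i₃ (wa d31) z))) z h0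
  have s1 := step hU hB S₁ (fun w hw => i₁ w (ne w hw)) _
    ((Small.term i₂ (wk d₂) z).add (Small.term i₃ (wk d32) z)) z fun y hy hy2 => by
      have := h0 y hy hy2
      rwa [term, s0 y hy, zero_div, zero_add] at this
  have s2 := step hU hB S₂ (fun w hw => i₂ w (ne w hw)) _ (Small.term i₃ (wk d₃) z) z
    fun y hy hy2 => by
      have := h0 y hy hy2
      rwa [term, s0 y hy, zero_div, zero_add, term, s1 y hy, zero_div, zero_add] at this
  have s3 := step hU hB S₃ (fun w hw => i₃ w (ne w hw)) _ (Small.zero S₃) z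
    fun y hy hy2 => by
      have := h0 y hy hy2
      rwa [term, s0 y hy, zero_div, zero_add, term, s1 y hy, zero_div, zero_add, term, s2 y hy,
        zero_div, zero_add, ← add_zero (term S₃ z y)] at this
  exact ⟨s1 _ ⟨x, rfl⟩, s2 _ ⟨x, rfl⟩, s3 _ ⟨x, rfl⟩⟩

end Pool.Agent.H87.NSD
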