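import Mathlib
import Pool.Agent.H87.NSD1

namespace Pool.Agent.H87.NSD

open Filter Topology TopologicalSpace

def L2 (I : Type) : Type := lp (fun _ : I => ℝ) 2
noncomputable instance (I : Type) : NormedAddCommGroup (L2 I) :=
  inferInstanceAs (NormedAddCommGroup (lp (fun _ : I => ℝ) 2))
noncomputable instance (I : Type) : InnerProductSpace ℝ (L2 I) :=
  inferInstanceAs (InnerProductSpace ℝ (lp (fun _ : I => ℝ) 2))
instance (I : Type) : CompleteSpace (L2 I) := inferInstanceAs (CompleteSpace (lp (fun _ : I => ℝ) 2))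

section
variable {I : Type}
def L2.v (x : L2 I) : lp (fun _ : I => ℝ) 2 := x
def L2.ap (x : L2 I) (i : I) : ℝ := x.v i
lemma L2.ext' {f g : L2 I} (h : ∀ m, f.ap m = g.ap m) : f = g := lp.ext (funext h)
@[simp] lemma L2.add_ap (f g : L2 I) (m : I) : (f + g).ap m = f.ap m + g.ap m := rfl
@[simp] lemma L2.smul_ap (t : ℝ) (g : L2 I) (m : I) : (t • g).ap m = t * g.ap m := rfl
@[simp] lemma L2.zero_ap (m : I) : (0 : L2 I).ap m = 0 := rfl
lemma L2.mono {f g : L2 I} (h : ∀ i, |f.ap i| ≤ |g.ap i|) : ‖f‖ ≤ ‖g‖ :=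
  lp.norm_mono (x := f.v) (y := g.v) (by simp) h
lemma L2.ap_le (f : L2 I) (i : I) : |f.ap i| ≤ ‖f‖ := lp.norm_apply_le_norm (by simp) f.v i
open Classical in
noncomputable def L2.sg (i : I) : L2 I := lp.single 2 i (1 : ℝ)
open Classical in
lemma L2.sg_ap (i j : I) : (L2.sg i).ap j = if j = i then 1 else 0 := by
  simp [L2.sg, L2.ap, L2.v, lp.single_apply, Pi.single_apply]
open Classical in
lemma L2.inner_sg (f : L2 I) (i : I) : inner ℝ f (L2.sg i) = f.ap i := by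
  have := lp.inner_single_right (𝕜 := ℝ) i (1 : ℝ) f.v
  refine this.trans ?_
  simp [L2.ap]
noncomputable def L2.apL (i : I) : StrongDual ℝ (L2 I) := innerSL ℝ (L2.sg i)
lemma L2.apL_apply (i : I) (f : L2 I) : L2.apL i f = f.ap i := by
  rw [← L2.inner_sg, real_inner_comm]; rfl
lemma L2.countable_supp (z : L2 I) : (Function.support z.ap).Countable := by
  have := (lp.memℓp z.v).summable (by simp)
  refine this.countable_support.mono fun i hi => ?_
  simpa [L2.ap] using hi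
end

noncomputable def geo : L2 ℕ := ⟨fun n => (1 / 2 : ℝ) ^ n, memℓp_gen (by
  have := summable_geometric_of_lt_one (r := 1 / 4) (by norm_num) (by norm_num)
  refine this.congr fun n => ?_
  simp only [ENNReal.toReal_ofNat, Real.rpow_ofNat, norm_pow]
  rw [← pow_mul, mul_comm n, pow_mul]
  norm_num)⟩

lemma geo_ap (n : ℕ) : geo.ap n = (1 / 2) ^ n := rfl

variable {E : Type} [NormedAddCommGroup E] [NormedSpace ℝ E]

lemma coef_le {c : ℝ} (h0 : 0 ≤ c) (h1 : c ≤ 1 / 2) {φ : ℕ → StrongDual ℝ E} {M : ℝ}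
    (hφ : ∀ n x, |φ n x| ≤ M * ‖x‖) (x : E) (n : ℕ) :
    |c ^ n * φ n x| ≤ |((M * ‖x‖) • geo).ap n| := by
  rw [L2.smul_ap, geo_ap, abs_mul, abs_mul (M * _), mul_comm]
  exact mul_le_mul ((hφ n x).trans (le_abs_self _)) (by
    rw [abs_of_nonneg (by positivity), abs_of_nonneg (by positivity)]
    exact pow_le_pow_left₀ h0 h1 n) (abs_nonneg _) (abs_nonneg _)

noncomputable def SS (c : ℝ) (h0 : 0 ≤ c) (h1 : c ≤ 1 / 2) (φ : ℕ → StrongDual ℝ E) (M : ℝ)
    (hφ : ∀ n x, |φ n x| ≤ M * ‖x‖) : E →L[ℝ] L2 ℕ :=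
  LinearMap.mkContinuous
    { toFun := fun x => ⟨fun n => c ^ n * φ n x,
        (lp.memℓp ((M * ‖x‖) • geo).v).mono' (coef_le h0 h1 hφ x)⟩
      map_add' := fun x y => L2.ext' fun n => by
        show c ^ n * φ n (x + y) = c ^ n * φ n x + c ^ n * φ n y
        rw [map_add, mul_add]
      map_smul' := fun t x => L2.ext' fun n => by
        show c ^ n * φ n (t • x) = t * (c ^ n * φ n x)
        rw [map_smul, smul_eq_mul]; ring } (|M| * ‖geo‖) fun x => by
      refine le_trans (L2.mono (g := (M * ‖x‖) • geo) fun i => coef_le h0 h1 hφ x i) (le_of_eq ?_)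
      rw [norm_smul, Real.norm_eq_abs, abs_mul, abs_norm]; ring

lemma SS_ap (c : ℝ) (h0 : 0 ≤ c) (h1 : c ≤ 1 / 2) (φ : ℕ → StrongDual ℝ E) (M : ℝ)
    (hφ : ∀ n x, |φ n x| ≤ M * ‖x‖) (x : E) (n : ℕ) : (SS c h0 h1 φ M hφ x).ap n = c ^ n * φ n x :=
  rfl

def sh (b : StrongDual ℝ E) (g : ℕ → StrongDual ℝ E) : ℕ → StrongDual ℝ E
  | 0 => b
  | n + 1 => g n

structure Bi (E : Type) [NormedAddCommGroup E] [NormedSpace ℝ E] where
  g : ℕ → StrongDual ℝ E
  e : ℕ → E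
  le : ∀ n x, |g n x| ≤ ‖x‖
  bi : ∀ i j, g i (e j) = if i = j then 1 else 0
  tot : ∀ x, (∀ n, g n x = 0) → x = 0

namespace Bi
variable (B : Bi E)

lemma sh_le (b : StrongDual ℝ E) : ∀ n x, |sh b B.g n x| ≤ (1 + ‖b‖) * ‖x‖
  | 0, x => (b.le_opNorm x).trans (by nlinarith [norm_nonneg x])
  | n + 1, x => (B.le n x).trans (by nlinarith [norm_nonneg x, norm_nonneg b])

noncomputable def S (c : ℝ) (h0 : 0 ≤ c) (h1 : c ≤ 1 / 2) (b : StrongDual ℝ E) : E →L[ℝ] L2 ℕ :=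
  SS c h0 h1 (sh b B.g) _ (B.sh_le b)

variable {c : ℝ} (h0 : 0 ≤ c) (h1 : c ≤ 1 / 2) (b : StrongDual ℝ E)

lemma S_zero (x : E) : (B.S c h0 h1 b x).ap 0 = b x := one_mul _
lemma S_succ (x : E) (n : ℕ) : (B.S c h0 h1 b x).ap (n + 1) = c ^ (n + 1) * B.g n x := rfl

lemma S_inj (hc : c ≠ 0) (y : E) (hy : y ≠ 0) : B.S c h0 h1 b y ≠ 0 := fun h => hy (B.tot y fun n => by
  have := B.S_succ h0 h1 b y n
  rw [h, L2.zero_ap] at this
  exact (mul_eq_zero.1 this.symm).resolve_left (pow_ne_zero _ hc))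

lemma S_inner (x : E) (j : ℕ) : inner ℝ (B.S c h0 h1 b x) (B.S c h0 h1 b (B.e j)) =
    b x * b (B.e j) + (c ^ (j + 1)) ^ 2 * B.g j x := by
  have : B.S c h0 h1 b (B.e j) = b (B.e j) • L2.sg 0 + c ^ (j + 1) • L2.sg (j + 1) :=
    L2.ext' fun n => by
      rcases n with _ | n
      · simp [S_zero, L2.sg_ap]
      · by_cases h : n = j <;> simp [S_succ, L2.sg_ap, B.bi, h]
  rw [this, inner_add_right, real_inner_smul_right, real_inner_smul_right, L2.inner_sg,
    L2.inner_sg, S_zero, S_succ]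
  ring

lemma ev_first (n₀ : ℕ) : ∀ᶠ w in cof E, b w = 0 ∧ ∀ n < n₀, B.g n w = 0 :=
  (cof_ker b).and (by
    have := (eventually_all_finset (Finset.range n₀)).2 fun n _ => cof_ker (B.g n)
    simpa using this)

lemma dom₁ (η : ℝ) (hη : 0 < η) :
    ∀ᶠ w in cof E, ‖B.S (1 / 4) (by norm_num) (by norm_num) 0 w‖ ≤ η * ‖w‖ := by
  obtain ⟨n₀, hn⟩ := exists_pow_lt_of_lt_one (show 0 < η / (‖geo‖ + 1) by positivity)
    (show (1 / 2 : ℝ) < 1 by norm_num)
  filter_upwards [B.ev_first 0 n₀] with w hw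
  refine (L2.mono (g := ((1 / 2) ^ n₀ * ‖w‖) • geo) fun n => ?_).trans ?_
  · rcases n with _ | n
    · rw [S_zero, zero_apply, abs_zero]; exact abs_nonneg _
    · rw [S_succ]
      by_cases h : n < n₀
      · rw [hw.2 n h, mul_zero, abs_zero]; exact abs_nonneg _
      · rw [L2.smul_ap, geo_ap, abs_mul, abs_of_nonneg (by positivity),
          abs_of_nonneg (a := _ * _) (by positivity),
          show (1 / 4 : ℝ) = 1 / 2 * (1 / 2) by norm_num, mul_pow]
        have h2 : (1 / 2 : ℝ) ^ (n + 1) ≤ (1 / 2) ^ n₀ :=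
          pow_le_pow_of_le_one (by norm_num) (by norm_num) (by omega)
        have h3 := mul_le_mul h2 (B.le n w) (abs_nonneg _) (by positivity)
        have h4 : (0 : ℝ) ≤ (1 / 2) ^ (n + 1) := by positivity
        nlinarith
  · rw [norm_smul, Real.norm_eq_abs, abs_of_nonneg (by positivity)]
    rw [lt_div_iff₀ (by positivity)] at hn
    have : (0 : ℝ) ≤ (1 / 2) ^ n₀ := by positivity
    nlinarith [norm_nonneg w, mul_nonneg this (norm_nonneg w)]

lemma dom₂ (h0' : 0 ≤ c / 2) (h1' : c / 2 ≤ 1 / 2) (η : ℝ) (hη : 0 < η) :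
    ∀ᶠ w in cof E, ‖B.S (c / 2) h0' h1' b w‖ ≤ η * ‖B.S c h0 h1 0 w‖ := by
  obtain ⟨n₀, hn⟩ := exists_pow_lt_of_lt_one hη (show (1 / 2 : ℝ) < 1 by norm_num)
  filter_upwards [B.ev_first b n₀] with w hw
  refine (L2.mono (g := η • B.S c h0 h1 0 w) fun n => ?_).trans ?_
  · rcases n with _ | n
    · simp [S_zero, hw.1]
    · rw [L2.smul_ap, S_succ, S_succ]
      by_cases h : n < n₀
      · simp [hw.2 n h]
      · rw [show c / 2 = 1 / 2 * c by ring, mul_pow, mul_assoc, abs_mul, abs_mul η]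
        refine mul_le_mul_of_nonneg_right ?_ (abs_nonneg _)
        rw [abs_of_nonneg (by positivity), abs_of_pos hη]
        exact (pow_le_pow_of_le_one (by norm_num) (by norm_num) (by omega)).trans hn.le
  · rw [norm_smul, Real.norm_eq_abs, abs_of_pos hη]

noncomputable def S₁ : E →L[ℝ] L2 ℕ := B.S (1 / 4) (by norm_num) (by norm_num) 0
noncomputable def S₂ : E →L[ℝ] L2 ℕ := B.S (1 / 4 / 2) (by norm_num) (by norm_num) 0
noncomputable def f : StrongDual ℝ E := (innerSL ℝ geo).comp B.S₁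
noncomputable def S₃ : E →L[ℝ] L2 ℕ := B.S (1 / 4 / 2 / 2) (by norm_num) (by norm_num) B.f

lemma f_ne (j : ℕ) : B.f (B.e j) ≠ 0 := by
  have : B.S₁ (B.e j) = (1 / 4 : ℝ) ^ (j + 1) • L2.sg (j + 1) :=
    L2.ext' fun n => by
      rcases n with _ | n
      · simp [S₁, S_zero, L2.sg_ap]
      · by_cases h : n = j <;> simp [S₁, S_succ, L2.sg_ap, B.bi, h]
  show inner ℝ geo (B.S₁ (B.e j)) ≠ 0
  rw [this, real_inner_smul_right, L2.inner_sg, geo_ap]
  positivity

theorem rigid {H₀ : Type} [NormedAddCommGroup H₀] [InnerProductSpace ℝ H₀] (a : E →L[ℝ] H₀)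
    (hU : ∀ W : Submodule ℝ E, Big W → ∃ w ∈ W, 2 * ‖w‖ < ‖a w‖)
    (P : E →L[ℝ] E) (hP : ∀ x, P (P x) = P x)
    (hN : ∀ x, N a B.S₁ B.S₂ B.S₃ (P x) ≤ N a B.S₁ B.S₂ B.S₃ x)
    (hB : Big (LinearMap.range P.toLinearMap)) (x : E) : P x = x := by
  have hc := core a B.S₁ B.S₂ B.S₃ hU (B.S_inj _ _ _ (by norm_num)) (B.S_inj _ _ _ (by norm_num))
    (B.S_inj _ _ _ (by norm_num)) B.dom₁ (B.dom₂ _ _ _ _ _) (B.dom₂ _ _ _ _ _) P hP hN hB
  have sa : ∀ S : E →L[ℝ] L2 ℕ, (∀ x z, P z = 0 → inner ℝ (S (P x)) (S z) = 0) →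
      ∀ x y, inner ℝ (S (P x)) (S y) = inner ℝ (S (P y)) (S x) := by
    intro S h x y
    have h1 := h x (y - P y) (by rw [map_sub, hP, sub_self])
    have h2 := h y (x - P x) (by rw [map_sub, hP, sub_self])
    rw [map_sub, inner_sub_right] at h1 h2
    linarith [real_inner_comm (S (P x)) (S (P y))]
  have s1 := sa B.S₁ fun x z h => (hc x z h).1
  have s2 := sa B.S₂ fun x z h => (hc x z h).2.1
  have s3 := sa B.S₃ fun x z h => (hc x z h).2.2
  have k1 : ∀ i j, i ≠ j → B.g i (P (B.e j)) = 0 := by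
    intro i j hij
    have h1 := s1 (B.e i) (B.e j)
    have h2 := s2 (B.e i) (B.e j)
    simp only [S₁, S₂, S_inner, zero_apply, zero_mul, zero_add] at h1 h2
    by_contra h3
    rw [show (1 / 4 / 2 : ℝ) = 1 / 2 * (1 / 4) by norm_num, mul_pow, mul_pow, mul_pow, mul_pow,
      mul_assoc, mul_assoc, h1] at h2
    have h4 := mul_right_cancel₀ (mul_ne_zero (by positivity) h3) h2
    have h5 := (pow_left_inj₀ (by positivity) (by positivity) two_ne_zero).1 h4
    have h6 := pow_right_injective₀ (by norm_num) (by norm_num) h5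
    omega
  have k2 : ∀ j, P (B.e j) = B.g j (P (B.e j)) • B.e j := fun j => by
    rw [← sub_eq_zero]
    refine B.tot _ fun n => ?_
    rw [map_sub, map_smul, B.bi]
    split_ifs with h
    · simp [h]
    · simp [k1 n j h]
  set p : ℕ → ℝ := fun j => B.g j (P (B.e j)) with hp
  have k3 : ∀ j, p j = p 0 := fun j => by
    by_cases hj : j = 0
    · rw [hj]
    have h1 := s3 (B.e j) (B.e 0)
    rw [k2 j, k2 0, map_smul, map_smul, real_inner_smul_left, real_inner_smul_left,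
      real_inner_comm (B.S₃ (B.e j))] at h1
    refine mul_right_cancel₀ ?_ h1
    simp only [S₃, S_inner, B.bi, if_neg (Ne.symm hj), mul_zero, add_zero]
    exact mul_ne_zero (B.f_ne _) (B.f_ne _)
  have k4 : ∀ x, P x = p 0 • x := fun x => by
    rw [← sub_eq_zero]
    refine B.tot _ fun n => ?_
    have h1 := s1 x (B.e n)
    rw [k2 n, map_smul, real_inner_smul_left, real_inner_comm (B.S₁ x)] at h1
    simp only [S₁, S_inner, zero_apply, zero_mul, zero_add] at h1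
    rw [map_sub, map_smul, smul_eq_mul, sub_eq_zero, ← k3 n]
    refine mul_left_cancel₀ (show (((1 / 4 : ℝ)) ^ (n + 1)) ^ 2 ≠ 0 by positivity) ?_
    rw [h1]; simp only [hp]; ring
  obtain ⟨_, ⟨u, rfl⟩, hu⟩ := hU _ hB
  have hu0 : P u ≠ 0 := by
    intro h
    have h2 : P.toLinearMap u = 0 := h
    simp [h2] at hu
  have h1 := hP u
  rw [k4 (P u)] at h1
  have h2 : p 0 = 1 := by
    by_contra h3
    have : (p 0 - 1) • P u = 0 := by rw [sub_smul, h1, one_smul, sub_self]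
    exact hu0 ((smul_eq_zero.1 this).resolve_left (sub_ne_zero.2 h3))
  rw [k4, h2, one_smul]

end Bi

end Pool.Agent.H87.NSD
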