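import Mathlib
import Pool.Agent.H87.NSD2

namespace Pool.Agent.H87.NSD

open Filter Topology TopologicalSpace BoundedContinuousFunction

noncomputable def ee : ℕ × ℤ ≃ ℕ := Denumerable.eqv _
noncomputable def pt (γ : ℝ) (k : ℕ) : ℕ := ee (k, ⌊γ * k⌋)

lemma pt_ev {γ γ' : ℝ} (h : γ ≠ γ') : ∀ᶠ k : ℕ in atTop, pt γ k ∉ Set.range (pt γ') := by
  have h0 : 0 < |γ - γ'| := abs_pos.2 (sub_ne_zero.2 h)
  filter_upwards [(tendsto_natCast_atTop_atTop (R := ℝ)).eventually_ge_atTop (1 / |γ - γ'|)]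
    with k hk
  rintro ⟨k', h1⟩
  have h2 := ee.injective h1
  rw [Prod.mk.injEq] at h2
  obtain ⟨rfl, h3⟩ := h2
  have h4 := Int.abs_sub_lt_one_of_floor_eq_floor h3.symm
  rw [← sub_mul, abs_mul, Nat.abs_cast] at h4
  rw [div_le_iff₀ h0] at hk
  linarith

noncomputable def ind (A : Set ℕ) : ℕ →ᵇ ℝ := indicator A (isClopen_discrete A)
open Classical in
lemma ind_apply (A : Set ℕ) (n : ℕ) : ind A n = if n ∈ A then 1 else 0 := by
  show A.indicator 1 n = _
  simp [Set.indicator]

noncomputable def gens : Set ((ℕ →ᵇ ℝ) × L2 ℝ) :=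
  Set.range (fun n : ℕ => (ind {n}, 0)) ∪ Set.range fun γ : ℝ => (ind (Set.range (pt γ)), L2.sg γ)

noncomputable def ES : Submodule ℝ ((ℕ →ᵇ ℝ) × L2 ℝ) := (Submodule.span ℝ gens).topologicalClosure

def JL : Type := ES
noncomputable instance : NormedAddCommGroup JL := inferInstanceAs (NormedAddCommGroup ES)
noncomputable instance : NormedSpace ℝ JL := inferInstanceAs (NormedSpace ℝ ES)
instance : CompleteSpace JL := (Submodule.isClosed_topologicalClosure _).completeSpace_coe

noncomputable def inc : JL →L[ℝ] (ℕ →ᵇ ℝ) × L2 ℝ := ES.subtypeL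
lemma norm_inc (x : JL) : ‖inc x‖ = ‖x‖ := rfl
noncomputable def e (n : ℕ) : JL :=
  ⟨(ind {n}, 0), Submodule.le_topologicalClosure _ (Submodule.subset_span (Or.inl ⟨n, rfl⟩))⟩
noncomputable def u (γ : ℝ) : JL := ⟨(ind (Set.range (pt γ)), L2.sg γ),
  Submodule.le_topologicalClosure _ (Submodule.subset_span (Or.inr ⟨γ, rfl⟩))⟩
noncomputable def g (n : ℕ) : StrongDual ℝ JL :=
  (evalCLM ℝ n).comp ((ContinuousLinearMap.fst ℝ _ _).comp inc)
noncomputable def hh : JL →L[ℝ] L2 ℝ := (ContinuousLinearMap.snd ℝ _ _).comp inc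

lemma g_e (i j : ℕ) : g i (e j) = if i = j then 1 else 0 := by
  show ind {j} i = _
  simp [ind_apply]
open Classical in
lemma g_u (i : ℕ) (γ : ℝ) : g i (u γ) = if i ∈ Set.range (pt γ) then 1 else 0 := ind_apply _ _
lemma hh_e (j : ℕ) : hh (e j) = 0 := rfl
lemma hh_u (γ : ℝ) : hh (u γ) = L2.sg γ := rfl
lemma g_le (n : ℕ) (x : JL) : |g n x| ≤ ‖x‖ :=
  ((inc x).1.norm_coe_le_norm n).trans (norm_fst_le (inc x))
lemma hh_le (x : JL) : ‖hh x‖ ≤ ‖x‖ := norm_snd_le (inc x)
lemma norm_le_of (x : JL) {C : ℝ} (h1 : ∀ n, |g n x| ≤ C) (h2 : ‖hh x‖ ≤ C) : ‖x‖ ≤ C :=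
  max_le ((BoundedContinuousFunction.norm_le (f := (inc x).1) ((norm_nonneg _).trans h2)).2 h1) h2

lemma dense_span : Dense (Submodule.span ℝ (Set.range e ∪ Set.range u) : Set JL) := by
  intro x
  refine Metric.mem_closure_iff.2 fun ε hε => ?_
  obtain ⟨y, hy, h⟩ := Metric.mem_closure_iff.1 x.2 ε hε
  have : Submodule.span ℝ gens =
      (Submodule.span ℝ (Set.range e ∪ Set.range u)).map inc.toLinearMap := by
    rw [Submodule.map_span, Set.image_union, ← Set.range_comp, ← Set.range_comp]; rfl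
  rw [this] at hy
  obtain ⟨z, hz, rfl⟩ := hy
  refine ⟨z, hz, ?_⟩
  rw [dist_eq_norm, ← norm_inc, map_sub, ← dist_eq_norm]
  exact h

lemma tend (γ : ℝ) (x : JL) : Tendsto (fun k => g (pt γ k) x) atTop (𝓝 ((hh x).ap γ)) := by
  have h1 : ∀ y ∈ Submodule.span ℝ (Set.range e ∪ Set.range u),
      ∀ᶠ k in atTop, g (pt γ k) y = (hh y).ap γ := by
    intro y hy
    induction hy using Submodule.span_induction with
    | mem y hy =>
      rcases hy with ⟨n, rfl⟩ | ⟨γ', rfl⟩
      · filter_upwards [eventually_gt_atTop (ee.symm n).1] with k hk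
        rw [g_e, if_neg, hh_e, L2.zero_ap]
        rintro rfl
        simp [pt] at hk
      · by_cases h : γ = γ'
        · subst h
          exact Eventually.of_forall fun k => by simp [g_u, hh_u, L2.sg_ap]
        · filter_upwards [pt_ev h] with k hk
          rw [g_u, if_neg hk, hh_u, L2.sg_ap, if_neg h]
    | zero => simp
    | add y z _ _ h1 h2 => filter_upwards [h1, h2] with k h3 h4; simp [h3, h4]
    | smul c y _ h1 => filter_upwards [h1] with k h3; simp [h3]
  rw [Metric.tendsto_nhds]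
  intro ε hε
  obtain ⟨y, hy, h⟩ := Metric.mem_closure_iff.1 (dense_span x) (ε / 2) (by positivity)
  rw [dist_eq_norm] at h
  filter_upwards [h1 y hy] with k hk
  have h2 := g_le (pt γ k) (x - y)
  have h3 := (L2.ap_le _ γ).trans (hh_le (x - y))
  rw [← L2.apL_apply, map_sub, map_sub, L2.apL_apply, L2.apL_apply] at h3
  rw [map_sub, hk] at h2
  rw [Real.dist_eq, abs_lt]
  rw [abs_le] at h2 h3
  constructor <;> linarith [h2.1, h2.2, h3.1, h3.2]

lemma tot (x : JL) (h : ∀ n, g n x = 0) : x = 0 := by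
  have h1 : hh x = 0 := L2.ext' fun γ => by
    have := tend γ x
    simp only [h] at this
    exact tendsto_nhds_unique this tendsto_const_nhds
  exact norm_le_zero_iff.1 (norm_le_of x (fun n => by simp [h]) (by simp [h1]))

lemma JL.ext' {x y : JL} (h : ∀ n, g n x = g n y) : x = y :=
  sub_eq_zero.1 (tot _ fun n => by rw [map_sub, h, sub_self])

noncomputable def BB : Bi JL := ⟨g, e, g_le, g_e, tot⟩

lemma lift_fin (c : ℝ →₀ ℝ) : ∃ d ∈ Submodule.span ℝ (Set.range e),
    ‖(c.sum fun γ a => a • u γ) - d‖ ≤ ‖hh (c.sum fun γ a => a • u γ)‖ := by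
  classical
  set x := c.sum fun γ a => a • u γ with hx
  obtain ⟨k₀, hk⟩ := eventually_atTop.1 ((eventually_all_finset c.support).2 fun γ _ =>
    (eventually_all_finset c.support).2 fun γ' _ =>
      show ∀ᶠ k in atTop, γ ≠ γ' → pt γ k ∉ Set.range (pt γ') by
        by_cases h : γ = γ'
        · simp [h]
        · exact (pt_ev h).mono fun _ h _ => h)
  set F := c.support.biUnion fun γ => (Finset.range k₀).image (pt γ) with hF
  refine ⟨∑ n ∈ F, g n x • e n, Submodule.sum_mem _ fun n _ =>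
    Submodule.smul_mem _ _ (Submodule.subset_span ⟨n, rfl⟩), norm_le_of _ (fun n => ?_) ?_⟩
  · rw [map_sub, map_sum]
    simp only [map_smul, g_e, smul_eq_mul, mul_ite, mul_one, mul_zero, Finset.sum_ite_eq]
    split_ifs with h
    · simp
    · rw [sub_zero]
      have e1 : g n x = ∑ γ ∈ c.support, if n ∈ Set.range (pt γ) then c γ else 0 := by
        simp [hx, Finsupp.sum, map_sum, g_u]
      by_cases h2 : ∃ γ ∈ c.support, n ∈ Set.range (pt γ)
      · obtain ⟨γ, h3, k, rfl⟩ := h2
        have h4 : k₀ ≤ k := by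
          by_contra h5
          exact h (Finset.mem_biUnion.2 ⟨γ, h3, Finset.mem_image_of_mem _
            (Finset.mem_range.2 (not_le.1 h5))⟩)
        rw [e1, Finset.sum_eq_single_of_mem γ h3 fun γ' h5 h6 => if_neg (hk k h4 γ h3 γ' h5 h6.symm),
          if_pos ⟨k, rfl⟩]
        have e2 : (hh x).ap γ = c γ := by
          rw [← L2.apL_apply]
          simp only [hx, Finsupp.sum, map_sum, map_smul, hh_u, L2.apL_apply, L2.sg_ap, smul_eq_mul,
            mul_ite, mul_one, mul_zero, Finset.sum_ite_eq, if_pos h3]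
        rw [← e2]; exact L2.ap_le _ _
      · push Not at h2
        rw [e1, Finset.sum_eq_zero fun γ hγ => if_neg (h2 γ hγ)]; simp
  · rw [map_sub, map_sum]
    simp [hh_e]

lemma exists_D : ∃ D : Set JL, D.Countable ∧ ∀ x, ∃ d ∈ D, ‖x - d‖ ≤ ‖hh x‖ + 1 / 2 := by
  obtain ⟨D, hD, h⟩ := (Set.countable_range e).isSeparable.span (R := ℝ)
  refine ⟨D, hD, fun x => ?_⟩
  obtain ⟨y, hy, h1⟩ := Metric.mem_closure_iff.1 (dense_span x) (1 / 8) (by positivity)
  rw [Submodule.span_union] at hy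
  obtain ⟨y₁, h2, y₂, h3, rfl⟩ := Submodule.mem_sup.1 hy
  obtain ⟨c, rfl⟩ := Finsupp.mem_span_range_iff_exists_finsupp.1 h3
  obtain ⟨d, h4, h5⟩ := lift_fin c
  obtain ⟨d', h6, h7⟩ := Metric.mem_closure_iff.1 (h (Submodule.add_mem _ h2 h4)) (1 / 8)
    (by positivity)
  refine ⟨d', h6, ?_⟩
  set y₂ := c.sum fun γ a => a • u γ
  have h8 : hh y₁ = 0 := by
    clear h1 h7 hy
    induction h2 using Submodule.span_induction with
    | mem y hy => obtain ⟨n, rfl⟩ := hy; rfl
    | zero => simp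
    | add y z _ _ h1 h2 => simp [h1, h2]
    | smul c y _ h1 => simp [h1]
  rw [dist_eq_norm] at h1 h7
  have h9 := hh_le (x - (y₁ + y₂))
  rw [map_sub, map_add, h8, zero_add, norm_sub_rev] at h9
  have h10 := norm_sub_norm_le (hh y₂) (hh x)
  have e1 : x - d' = (x - (y₁ + y₂)) + (y₂ - d) + (y₁ + d - d') := by abel
  rw [e1]
  linarith [norm_add₃_le (a := x - (y₁ + y₂)) (b := y₂ - d) (c := y₁ + d - d')]

noncomputable def aa : JL →L[ℝ] L2 ℝ := (12 : ℝ) • hh

lemma hU (W : Submodule ℝ JL) (hW : Big W) : ∃ w ∈ W, 2 * ‖w‖ < ‖aa w‖ := by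
  by_contra hc
  push Not at hc
  obtain ⟨D, h1, h2⟩ := exists_D
  refine hW (sep_of W hh D h1 h2 fun w hw => ?_)
  have := hc w hw
  rw [aa, _root_.smul_apply, norm_smul, Real.norm_eq_abs, abs_of_pos (by norm_num)] at this
  linarith

lemma not_sep : ¬ IsSeparable (Set.univ : Set JL) := by
  rintro ⟨D, hD, h⟩
  have h2 : (⋃ z ∈ D, Function.support (hh z).ap).Countable :=
    hD.biUnion fun z _ => L2.countable_supp _
  obtain ⟨γ, hγ⟩ : ∃ γ, γ ∉ ⋃ z ∈ D, Function.support (hh z).ap := by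
    by_contra hc
    push Not at hc
    exact Set.not_countable_univ (h2.mono fun x _ => hc x)
  have h3 : closure D ⊆ {z | L2.apL γ (hh z) = 0} :=
    closure_minimal (fun z hz => by
      by_contra hc
      exact hγ (Set.mem_biUnion hz (by rwa [Set.mem_ofPred_eq, L2.apL_apply] at hc)))
      (isClosed_eq (by fun_prop) continuous_const)
  have h4 := h3 (h (Set.mem_univ (u γ)))
  simp [hh_u, L2.apL_apply, L2.sg_ap] at h4

noncomputable def fp (j : ℕ) : ℕ := ee (0, (j : ℤ) + 1)
lemma fp_inj : Function.Injective fp := fun i j h => by simpa using ee.injective h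
lemma fp_free (j : ℕ) (γ : ℝ) : fp j ∉ Set.range (pt γ) := by
  rintro ⟨k, h⟩
  have h2 := ee.injective h
  rw [Prod.mk.injEq] at h2
  obtain ⟨rfl, h3⟩ := h2
  simp at h3
  omega

noncomputable def MB (A : Set ℕ) : JL →L[ℝ] (ℕ →ᵇ ℝ) × L2 ℝ :=
  ((ContinuousLinearMap.mul ℝ (ℕ →ᵇ ℝ) (ind (fp '' A))).comp
    ((ContinuousLinearMap.fst ℝ _ _).comp inc)).prod 0

lemma MB_mem (A : Set ℕ) (x : JL) : MB A x ∈ ES := by
  refine dense_span.induction (P := fun x => MB A x ∈ ES) (fun y hy => ?_)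
    ((Submodule.isClosed_topologicalClosure _).preimage (MB A).continuous) x
  induction hy using Submodule.span_induction with
  | mem y hy =>
    rcases hy with ⟨n, rfl⟩ | ⟨γ, rfl⟩
    · have : MB A (e n) = ind (fp '' A) n • inc (e n) := by
        refine Prod.ext ?_ (by show (0 : L2 ℝ) = _ • (0 : L2 ℝ); simp)
        ext m
        show ind (fp '' A) m * ind {n} m = ind (fp '' A) n * ind {n} m
        by_cases h : m = n
        · rw [h]
        · simp [ind_apply, h]
      rw [this]; exact ES.smul_mem _ (e n).2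
    · have : MB A (u γ) = 0 := by
        refine Prod.ext ?_ rfl
        ext m
        show ind (fp '' A) m * ind (Set.range (pt γ)) m = 0
        by_cases h : m ∈ fp '' A
        · obtain ⟨j, -, rfl⟩ := h
          rw [ind_apply (Set.range _), if_neg (fp_free j γ), mul_zero]
        · rw [ind_apply, if_neg h, zero_mul]
      rw [this]; exact ES.zero_mem
  | zero => simp
  | add y z _ _ h1 h2 => rw [map_add]; exact ES.add_mem h1 h2
  | smul c y _ h1 => rw [map_smul]; exact ES.smul_mem _ h1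

noncomputable def MM (A : Set ℕ) : JL →L[ℝ] JL := (MB A).codRestrict ES (MB_mem A)

open Classical in
lemma g_MM (A : Set ℕ) (n : ℕ) (x : JL) : g n (MM A x) = if n ∈ fp '' A then g n x else 0 := by
  show ind (fp '' A) n * g n x = _
  rw [ind_apply]; split_ifs <;> simp

lemma MM_le (A : Set ℕ) (x : JL) : ‖MM A x‖ ≤ ‖x‖ := norm_le_of _ (fun n => by
  rw [g_MM]; split_ifs
  · exact g_le _ _
  · simp) (by show ‖(0 : L2 ℝ)‖ ≤ _; simp)

noncomputable def vv : ℕ → JL →L[ℝ] JL
  | 0 => 1 - MM Set.univ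
  | n + 1 => MM {n}

lemma vv_ne (n : ℕ) : vv n ≠ 0 := by
  intro h
  rcases n with _ | n
  · have := congrArg (fun T : JL →L[ℝ] JL => g (pt 0 0) (T (e (pt 0 0)))) h
    have h2 : pt 0 0 ∉ Set.range fp := fun ⟨j, hj⟩ => fp_free j 0 ⟨0, hj.symm⟩
    simp [vv, g_MM, g_e, h2] at this
  · have := congrArg (fun T : JL →L[ℝ] JL => g (fp n) (T (e (fp n)))) h
    simp [vv, g_MM, g_e] at this

lemma vv_comp (n m : ℕ) : (vv n).comp (vv m) = if n = m then vv n else 0 := by
  refine ContinuousLinearMap.ext fun x => JL.ext' fun k => ?_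
  rcases n with _ | n <;> rcases m with _ | m
  · by_cases h : k ∈ Set.range fp <;> simp [vv, g_MM, h]
  · by_cases h : k = fp m <;> simp [vv, g_MM, h]
  · by_cases h : k = fp n <;> simp [vv, g_MM, h]
  · by_cases h2 : n = m
    · subst h2
      by_cases h : k = fp n
      · simp [vv, g_MM, h]
      · simp [vv, g_MM, h]
    · by_cases h : k = fp n <;> simp [vv, g_MM, h, h2, fp_inj.eq_iff]

lemma vv_tend (x : JL) : Tendsto (fun N => ∑ n ∈ Finset.range N, vv n x) atTop (𝓝 x) := by
  have h1 : ∀ N, ∑ n ∈ Finset.range (N + 1), vv n x = x - MM (Set.Ici N) x := by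
    intro N
    induction N with
    | zero => simp [vv]
    | succ N ih =>
      rw [Finset.sum_range_succ, ih]
      refine JL.ext' fun k => ?_
      simp only [vv, map_add, map_sub, g_MM]
      by_cases h : k ∈ Set.range fp
      · obtain ⟨j, rfl⟩ := h
        simp only [fp_inj.mem_set_image, Set.mem_Ici, Set.mem_singleton_iff]
        split_ifs <;> first | omega | simp
      · have : ∀ A, k ∉ fp '' A := fun A h2 => h (Set.image_subset_range _ _ h2)
        simp only [if_neg (this _), add_zero]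
  have h2 : ∀ y ∈ Submodule.span ℝ (Set.range e ∪ Set.range u),
      ∀ᶠ N in atTop, MM (Set.Ici N) y = 0 := by
    intro y hy
    induction hy using Submodule.span_induction with
    | mem y hy =>
      rcases hy with ⟨n, rfl⟩ | ⟨γ', rfl⟩
      · have : ∀ᶠ N in atTop, n ∉ fp '' Set.Ici N := by
          by_cases h : n ∈ Set.range fp
          · obtain ⟨j, rfl⟩ := h
            filter_upwards [eventually_gt_atTop j] with N hN
            simpa [fp_inj.mem_set_image] using hN
          · exact Eventually.of_forall fun N h2 => h (Set.image_subset_range _ _ h2)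
        filter_upwards [this] with N hN
        refine tot _ fun k => ?_
        rw [g_MM, g_e]
        split_ifs with h3 h4
        · exact absurd (h4 ▸ h3) hN
        all_goals rfl
      · refine Eventually.of_forall fun N => tot _ fun k => ?_
        rw [g_MM, g_u]
        split_ifs with h3 h4
        · obtain ⟨j, -, rfl⟩ := h3; exact absurd h4 (fp_free j _)
        all_goals rfl
    | zero => simp
    | add y z _ _ h1 h2 => filter_upwards [h1, h2] with k h3 h4; simp [h3, h4]
    | smul c y _ h1 => filter_upwards [h1] with k h3; simp [h3]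
  rw [← tendsto_add_atTop_iff_nat 1, Metric.tendsto_nhds]
  intro ε hε
  obtain ⟨y, hy, h⟩ := Metric.mem_closure_iff.1 (dense_span x) ε hε
  filter_upwards [h2 y hy] with N hN
  have := MM_le (Set.Ici N) (x - y)
  rw [map_sub, hN, sub_zero] at this
  rw [h1, dist_eq_norm, sub_sub_cancel_left, norm_neg]
  exact this.trans_lt (by rwa [← dist_eq_norm])

/-- the renormed space -/
def Z : Type := JL
noncomputable instance : AddCommGroup Z := inferInstanceAs (AddCommGroup JL)
noncomputable instance : Module ℝ Z := inferInstanceAs (Module ℝ JL)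
noncomputable def NN (x : JL) : ℝ := N aa BB.S₁ BB.S₂ BB.S₃ x

lemma le_NN (x : JL) : ‖x‖ ≤ NN x :=
  (le_max_left _ _).trans (le_add_of_nonneg_right (by positivity))

lemma NN_smul (c : ℝ) (x : JL) : NN (c • x) = ‖c‖ * NN x := by
  simp only [NN, N, map_smul, norm_smul, ← mul_max_of_nonneg _ _ (norm_nonneg c)]; ring

lemma NN_add (x y : JL) : NN (x + y) ≤ NN x + NN y := by
  simp only [NN, N, map_add]
  have h : max ‖x + y‖ ‖aa x + aa y‖ ≤ max ‖x‖ ‖aa x‖ + max ‖y‖ ‖aa y‖ :=
    max_le ((norm_add_le _ _).trans (add_le_add (le_max_left _ _) (le_max_left _ _)))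
      ((norm_add_le _ _).trans (add_le_add (le_max_right _ _) (le_max_right _ _)))
  linarith [norm_add_le (BB.S₁ x) (BB.S₁ y), norm_add_le (BB.S₂ x) (BB.S₂ y),
    norm_add_le (BB.S₃ x) (BB.S₃ y)]

lemma NN_le (x : JL) : NN x ≤ (1 + ‖aa‖ + ‖BB.S₁‖ + ‖BB.S₂‖ + ‖BB.S₃‖) * ‖x‖ := by
  have h : max ‖x‖ ‖aa x‖ ≤ ‖x‖ + ‖aa‖ * ‖x‖ :=
    max_le (le_add_of_nonneg_right (by positivity))
      ((aa.le_opNorm x).trans (le_add_of_nonneg_left (norm_nonneg _)))
  simp only [NN, N]
  linarith [BB.S₁.le_opNorm x, BB.S₂.le_opNorm x, BB.S₃.le_opNorm x]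

lemma NN_zero : NN 0 = 0 := by simpa using NN_smul 0 0
lemma NN_neg (x : JL) : NN (-x) = NN x := by simpa using NN_smul (-1) x

noncomputable instance : NormedAddCommGroup Z := AddGroupNorm.toNormedAddCommGroup
  { toFun := NN
    map_zero' := NN_zero
    add_le' := NN_add
    neg' := NN_neg
    eq_zero_of_map_eq_zero' := fun x h => norm_le_zero_iff.1 ((le_NN x).trans h.le) }

noncomputable instance : NormedSpace ℝ Z := ⟨fun c x => (NN_smul c x).le⟩

noncomputable def eL : Z ≃ₗ[ℝ] JL := LinearEquiv.refl ℝ JL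

noncomputable def eZ : Z ≃L[ℝ] JL := eL.toContinuousLinearEquivOfBounds
  1 _ (fun x => by rw [one_mul]; exact le_NN x) NN_le

instance : CompleteSpace Z :=
  (completeSpace_congr (e := eZ.toEquiv) eZ.isUniformEmbedding).2 inferInstance

lemma norm_Z (x : Z) : ‖x‖ = NN (eZ x) := rfl

theorem no_normal (w : ℕ → Z →L[ℝ] Z) (h0 : ∀ n, w n ≠ 0)
    (h1 : ∀ n m, (w n).comp (w m) = if n = m then w n else 0)
    (h2 : ∀ x, Tendsto (fun N => ∑ n ∈ Finset.range N, w n x) atTop (𝓝 x)) (h3 : ∀ n, ‖w n‖ = 1) :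
    False := by
  set P : ℕ → JL →L[ℝ] JL := fun n => (eZ : Z →L[ℝ] JL).comp ((w n).comp (eZ.symm : JL →L[ℝ] Z))
  have hP : ∀ n x, P n (eZ x) = eZ (w n x) := fun n x => by simp [P]
  obtain ⟨n, hn⟩ : ∃ n, Big (LinearMap.range (P n).toLinearMap) := by
    by_contra hc
    simp only [Big, not_exists, not_not] at hc
    refine not_sep (((IsSeparable.iUnion hc).span (R := ℝ)).closure.mono fun x _ => ?_)
    have := (eZ.continuous.tendsto _).comp (h2 (eZ.symm x))
    rw [eZ.apply_symm_apply] at this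
    refine mem_closure_of_tendsto this (Eventually.of_forall fun N => ?_)
    simp only [Function.comp, map_sum]
    exact Submodule.sum_mem _ fun n _ => Submodule.subset_span (Set.mem_iUnion.2 ⟨n, x, rfl⟩)
  have key := BB.rigid aa hU (P n) (fun x => by
    obtain ⟨y, rfl⟩ := eZ.surjective x
    rw [hP, hP, ← ContinuousLinearMap.comp_apply, h1, if_pos rfl]) (fun x => by
    obtain ⟨y, rfl⟩ := eZ.surjective x
    have := (w n).le_opNorm y
    rw [h3, one_mul, norm_Z, norm_Z] at this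
    rw [hP]; exact this) hn
  refine h0 (n + 1) (ContinuousLinearMap.ext fun x => ?_)
  have h4 := key (eZ (w (n + 1) x))
  rw [hP, ← ContinuousLinearMap.comp_apply, h1, if_neg (by omega)] at h4
  exact (eZ.injective h4).symm

end Pool.Agent.H87.NSD
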