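import Mathlib

/-! Non-dentable sets, and auxiliary seminorms. -/

namespace Pool.Agent.H87.NaR

open Filter Topology Set Metric Bornology

variable {𝕜 X : Type*} [RCLike 𝕜] [NormedAddCommGroup X] [NormedSpace 𝕜 X]

section nd

variable [NormedSpace ℝ X]

def ND (D : Set X) (ε : ℝ) : Prop := ∀ x ∈ D, x ∈ closure (convexHull ℝ (D \ ball x ε))

lemma ND.cnt {C : Set X} {ε : ℝ} (h : ND C ε) (hC : C.Nonempty) :
    ∃ d : ℕ → X, range d ⊆ C ∧ ND (range d) ε := by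
  have h1 : ∀ x ∈ C, ∃ A : Set X, A.Countable ∧ A ⊆ C \ ball x ε ∧ x ∈ closure (convexHull ℝ A) :=
    fun x hx => by
      obtain ⟨y, y1, y2⟩ := mem_closure_iff_seq_limit.1 (h x hx)
      simp only [convexHull_eq_union_convexHull_finite_subsets (C \ ball x ε), mem_iUnion] at y1
      choose t t1 t2 using y1
      exact ⟨⋃ n, t n, countable_iUnion fun n => (t n).countable_toSet, iUnion_subset t1,
        mem_closure_of_tendsto y2 (Eventually.of_forall fun n =>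
          convexHull_mono (subset_iUnion (fun n => (t n : Set X)) n) (t2 n))⟩
  choose! A A1 A2 A3 using h1
  obtain ⟨x0, h0⟩ := hC
  let D : ℕ → Set X := fun n => n.rec {x0} fun _ S => ⋃ x ∈ S, A x
  have h2 : ∀ n, D n ⊆ C ∧ (D n).Countable := fun n => by
    induction n with
    | zero => exact ⟨singleton_subset_iff.2 h0, countable_singleton _⟩
    | succ n ih => exact ⟨iUnion₂_subset fun x hx => (A2 x (ih.1 hx)).trans sdiff_subset,
        ih.2.biUnion fun x hx => A1 x (ih.1 hx)⟩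
  obtain ⟨d, hd⟩ := (countable_iUnion fun n => (h2 n).2).exists_eq_range
    ⟨x0, mem_iUnion.2 ⟨0, rfl⟩⟩
  refine ⟨d, hd ▸ iUnion_subset fun n => (h2 n).1, hd ▸ fun x hx => ?_⟩
  obtain ⟨n, hn⟩ := mem_iUnion.1 hx
  refine closure_mono (convexHull_mono fun y hy => ?_) (A3 x ((h2 n).1 hn))
  exact ⟨mem_iUnion.2 ⟨n + 1, mem_biUnion hn hy⟩, (A2 x ((h2 n).1 hn) hy).2⟩

lemma ND.hm {D : Set X} {ε : ℝ} (h : ND D ε) (hε : 0 < ε) (hD : IsBounded D) {s : Set X}
    (hs : s.Finite) : D ⊆ closure (convexHull ℝ (D \ ⋃ p ∈ s, ball p (ε / 5))) := by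
  induction s, hs using Set.Finite.induction_on with
  | empty => simpa using (subset_convexHull ℝ D).trans subset_closure
  | @insert p s _ _ ih =>
    refine fun x0 h0 => by_contra fun h1 => ?_
    obtain ⟨f, β, f1, f2⟩ := geometric_hahn_banach_closed_point (convex_convexHull ℝ _).closure
      isClosed_closure h1
    obtain ⟨R, R0, hR⟩ := hD.subset_ball_lt 0 p
    have b1 := (f.lipschitz.isBounded_image hD).bddAbove
    have b2 : ∀ y ∈ D, f y ≤ sSup (f '' D) := fun y hy => le_csSup b1 ⟨y, hy, rfl⟩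
    have b3 : 0 < sSup (f '' D) - β := by linarith [b2 x0 h0]
    obtain ⟨m, m0, hm⟩ : ∃ m > 0, m * (sSup (f '' D) - β) = R :=
      ⟨R / _, div_pos R0 b3, div_mul_cancel₀ _ b3.ne'⟩
    have b4 : D ⊆ {y | dist y p + m • f y ≤ ε / 5 + m * sSup (f '' D)} :=
      ih.trans (closure_minimal (convexHull_min (fun y hy => ?_) (by
        simpa using ((convexOn_univ_dist p).add ((f.toLinearMap.convexOn convex_univ).smul
          m0.le)).convex_le _)) (isClosed_le (by fun_prop) continuous_const))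
    · obtain ⟨_, ⟨x, x1, rfl⟩, x2⟩ := exists_lt_of_lt_csSup (s := f '' D) ⟨_, x0, h0, rfl⟩
        (sub_lt_self _ (show 0 < ε / 5 / m by positivity))
      refine x2.not_ge (closure_minimal (convexHull_min (t := {y | f y ≤ _}) (fun y hy => ?_)
        (convex_halfSpace_le f.toLinearMap.isLinear _)) (isClosed_le (by fun_prop)
          continuous_const) (h x x1))
      refine mem_ofPred_eq ▸ not_lt.1 fun k => hy.2 ?_
      have c1 := b4 hy.1
      have c2 := b4 x1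
      rw [sub_lt_comm, lt_div_iff₀' m0] at k x2
      rw [mem_ofPred_eq, smul_eq_mul] at c1 c2
      rw [mem_ball]
      linarith [dist_triangle_right y x p]
    · rw [mem_ofPred_eq, smul_eq_mul]
      by_cases k : y ∈ ball p (ε / 5)
      · linarith [mem_ball.1 k, mul_le_mul_of_nonneg_left (b2 y hy.1) m0.le]
      · have := f1 y (subset_closure (subset_convexHull ℝ _ ⟨hy.1, by
          rw [biUnion_insert]; exact fun e => e.elim k hy.2⟩))
        nlinarith [mem_ball.1 (hR hy.1)]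

lemma ND.esc {D : Set X} {ε : ℝ} (h : ND D ε) (hε : 0 < ε) (hD : IsBounded D) (F : Submodule 𝕜 X)
    [FiniteDimensional 𝕜 F] (f : X →L[ℝ] ℝ) {β : ℝ} {x : X} (hx : x ∈ D) (hβ : β < f x) :
    ∃ y ∈ D, β < f y ∧ ε / 10 ≤ ‖F.mkQ y‖ := by
  obtain ⟨R, hR⟩ := hD.exists_norm_le
  have := FiniteDimensional.proper_rclike 𝕜 F
  obtain ⟨t, -, t1, t2⟩ := finite_cover_balls_of_compact ((isCompact_closedBall (0 : F)
    (R + ε / 10)).image continuous_subtype_val) (show 0 < ε / 10 by positivity)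
  by_contra! k
  refine hβ.not_ge (closure_minimal (convexHull_min (t := {y | f y ≤ β}) (fun y hy => ?_)
    (convex_halfSpace_le f.toLinearMap.isLinear _)) (isClosed_le (by fun_prop)
      continuous_const) (h.hm hε hD t1 hx))
  refine mem_ofPred_eq ▸ not_lt.1 fun a => hy.2 ?_
  obtain ⟨m, m1, m2⟩ := Submodule.Quotient.norm_mk_lt (F.mkQ y) (sub_pos.2 (k y hy.1 a))
  rw [add_sub_cancel] at m2
  obtain ⟨p, p1, p2⟩ := mem_iUnion₂.1 (t2 ⟨⟨y - m, (Submodule.Quotient.eq F).1 m1.symm⟩,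
    mem_closedBall_zero_iff.2 ((norm_sub_le y m).trans (add_le_add (hR y hy.1) m2.le)), rfl⟩)
  refine mem_biUnion p1 ?_
  rw [mem_ball, dist_eq_norm] at p2 ⊢
  linarith [norm_add_le (y - m - p) m, show y - m - p + m = y - p by abel,
    show ‖y - m - p + m‖ = ‖y - p‖ by congr 1; abel]

end nd

lemma hb (p : Seminorm 𝕜 X) {K : ℝ} (hK : ∀ z, p z ≤ K * ‖z‖) (x : X) :
    ∃ μ : X →L[𝕜] 𝕜, (∀ z, ‖μ z‖ ≤ p z) ∧ μ x = p x := by
  rcases eq_or_ne x 0 with rfl | hx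
  · exact ⟨0, fun z => by simp, by simp⟩
  obtain ⟨g, h1, h2⟩ := Module.Dual.exists_extension_of_le_seminorm (p := p) (𝕜 ∙ x)
    (LinearPMap.mkSpanSingleton x (p x : 𝕜) hx).toFun (by
      rintro ⟨y, hy⟩
      obtain ⟨c, rfl⟩ := Submodule.mem_span_singleton.1 hy
      refine (congrArg norm (LinearPMap.mkSpanSingleton'_apply x (p x : 𝕜) _ c hy)).trans_le ?_
      rw [map_smul_eq_mul, norm_smul, RCLike.norm_ofReal, abs_of_nonneg (apply_nonneg _ _)]
      rfl)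
  exact ⟨g.mkContinuous K fun z => (h2 z).trans (hK z), h2,
    (h1 ⟨x, Submodule.mem_span_singleton_self x⟩).trans
      (LinearPMap.mkSpanSingleton_apply _ _ _ _)⟩

lemma supS (Φ : Set (X →L[𝕜] 𝕜)) (h0 : 0 ∈ Φ) {R : ℝ} (hb : ∀ φ ∈ Φ, ‖φ‖ ≤ R) :
    ∃ A : Seminorm 𝕜 X, ∀ z c, A z ≤ c ↔ ∀ φ ∈ Φ, ‖φ z‖ ≤ c := by
  have : Nonempty Φ := ⟨⟨0, h0⟩⟩
  have h1 : ∀ z c, ⨆ φ : Φ, ‖φ.1 z‖ ≤ c ↔ ∀ φ ∈ Φ, ‖φ z‖ ≤ c := fun z c =>
    (ciSup_le_iff ⟨R * ‖z‖, by
      rintro _ ⟨φ, rfl⟩; exact φ.1.le_of_opNorm_le (hb _ φ.2) z⟩).trans Subtype.forall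
  exact ⟨.ofSMulLE (fun z => ⨆ φ : Φ, ‖φ.1 z‖) (by simp)
    (fun z w => (h1 _ _).2 fun φ hφ => by
      rw [map_add]
      exact (norm_add_le _ _).trans (add_le_add ((h1 _ _).1 le_rfl φ hφ) ((h1 _ _).1 le_rfl φ hφ)))
    fun c z => (h1 _ _).2 fun φ hφ => by
      rw [map_smul, norm_smul]
      exact mul_le_mul_of_nonneg_left ((h1 _ _).1 le_rfl φ hφ) (norm_nonneg _), h1⟩

lemma l2sum (Q : ℕ → Seminorm 𝕜 X) (h : ∀ z, Summable fun n => Q n z ^ 2) :
    ∃ P : Seminorm 𝕜 X, (∀ z, HasSum (fun n => Q n z ^ 2) (P z ^ 2)) ∧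
      ∀ n x y, (Q n x - Q n y) ^ 2 ≤ 2 * P x ^ 2 + 2 * P y ^ 2 - P (x + y) ^ 2 := by
  let F : X → lp (fun _ : ℕ => ℝ) 2 := fun z => ⟨fun n => Q n z, memℓp_gen (by simpa using h z)⟩
  have h1 : ∀ z n, ‖F z n‖ = Q n z := fun z n => Real.norm_of_nonneg (apply_nonneg _ _)
  have h2 : ∀ z, HasSum (fun n => Q n z ^ 2) (‖F z‖ ^ 2) := fun z => by
    simpa only [ENNReal.toReal_ofNat, Real.rpow_two, h1] using lp.hasSum_norm (by simp) (F z)
  refine ⟨.ofSMulLE (fun z => ‖F z‖) (norm_eq_zero.2 (lp.ext (funext fun n => map_zero (Q n))))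
    (fun z w => (lp.norm_mono (y := F z + F w) (by simp) fun k => (h1 _ _).trans_le
      ((map_add_le_add _ _ _).trans (le_abs_self _))).trans (norm_add_le (F z) (F w)))
    fun c z => (lp.norm_mono (y := ‖c‖ • F z) (by simp) fun k => (h1 _ _).trans_le
      ((map_smul_eq_mul _ _ _).trans_le (le_abs_self _))).trans_eq (by rw [norm_smul, norm_norm]),
    h2, fun n x y => ?_⟩
  have h3 : ∀ n, (Q n x - Q n y) ^ 2 ≤ 2 * Q n x ^ 2 + 2 * Q n y ^ 2 - Q n (x + y) ^ 2 := fun n => by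
    nlinarith [pow_le_pow_left₀ (apply_nonneg _ _) (map_add_le_add (Q n) x y) 2]
  exact (h3 n).trans (le_hasSum ((((h2 x).mul_left 2).add ((h2 y).mul_left 2)).sub (h2 (x + y))) n
    fun j _ => (sq_nonneg _).trans (h3 j))

end Pool.Agent.H87.NaR
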