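import Mathlib
import Pool.Agent.H87.NaR1

/-! A space with a non-dentable set has a renorming without dense norm attaining operators. -/

namespace Pool.Agent.H87.NaR

open Filter Topology Set Metric Bornology
open scoped NNReal

variable {𝕜 X : Type*} [RCLike 𝕜] [NormedAddCommGroup X] [NormedSpace 𝕜 X]

noncomputable def qq (F : Submodule 𝕜 X) : Seminorm 𝕜 X := (normSeminorm 𝕜 (X ⧸ F)).comp F.mkQ

lemma qq_le (F : Submodule 𝕜 X) (z : X) : qq F z ≤ ‖z‖ := Submodule.Quotient.norm_mk_le F z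

lemma qq_mem {F : Submodule 𝕜 X} {z w : X} (h : z - w ∈ F) : qq F z = qq F w :=
  congrArg norm ((Submodule.Quotient.eq F).2 h)

lemma qq_lt {F : Submodule 𝕜 X} {z : X} {c : ℝ} (h : qq F z < c) : ∃ w, z - w ∈ F ∧ ‖w‖ < c := by
  obtain ⟨m, m1, m2⟩ := Submodule.Quotient.norm_mk_lt (F.mkQ z) (sub_pos.2 h)
  exact ⟨m, (Submodule.Quotient.eq F).1 m1.symm, m2.trans_eq (add_sub_cancel _ _)⟩

lemma qq_anti {F G : Submodule 𝕜 X} (h : F ≤ G) (z : X) : qq G z ≤ qq F z :=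
  le_of_forall_gt_imp_ge_of_dense fun _ hc => by
    obtain ⟨w, w1, w2⟩ := qq_lt hc
    exact (qq_mem (h w1)).trans_le ((qq_le G w).trans w2.le)

lemma kad (f : X →L[𝕜] 𝕜) (E : ℕ → Submodule 𝕜 X) {κ : ℝ} (hκ : 0 < κ) :
    ∃ B : Seminorm 𝕜 X, (∀ z, ‖f z‖ ≤ B z ∧ B z ≤ ‖f z‖ + 2 * κ * ‖z‖) ∧ ∀ n x y,
      (κ * (1 / 2) ^ n * (qq (E n) x - qq (E n) y)) ^ 2 ≤
        2 * B x ^ 2 + 2 * B y ^ 2 - B (x + y) ^ 2 := by
  let Q : ℕ → Seminorm 𝕜 X := fun n => n.casesOn ((normSeminorm 𝕜 𝕜).comp f.toLinearMap) fun n =>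
    NNReal.mk (κ * (1 / 2) ^ n) (by positivity) • qq (E n)
  have h0 : ∀ n z, Q (n + 1) z = κ * (1 / 2) ^ n * qq (E n) z := fun _ _ => rfl
  have h1 : ∀ z n, Q (n + 1) z ^ 2 ≤ (κ * ‖z‖) ^ 2 * (1 / 2) ^ n := fun z n => by
    have a1 : (1 / 2 : ℝ) ^ n ≤ 1 := pow_le_one₀ (by norm_num) (by norm_num)
    have a2 := pow_le_pow_left₀ (apply_nonneg _ _) (qq_le (E n) z) 2
    rw [h0, mul_pow, mul_pow, mul_pow, mul_assoc, mul_assoc, mul_comm (‖z‖ ^ 2)]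
    gcongr
    nlinarith [show (0 : ℝ) ≤ (1 / 2) ^ n by positivity]
  obtain ⟨B, B1, B2⟩ := l2sum Q fun z => (summable_nat_add_iff 1).1
    (.of_nonneg_of_le (fun _ => sq_nonneg _) (h1 z) (summable_geometric_two.mul_left _))
  refine ⟨B, fun z => ⟨(abs_le_of_sq_le_sq' (le_hasSum (B1 z) 0 fun _ _ => sq_nonneg _)
    (apply_nonneg _ _)).2, (abs_le_of_sq_le_sq' ?_ (by positivity)).2⟩, fun n x y => by
      simpa only [h0, mul_sub] using B2 (n + 1) x y⟩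
  have := hasSum_le (h1 z) ((hasSum_nat_add_iff' 1).2 (B1 z)) (hasSum_geometric_two.mul_left _)
  rw [Finset.sum_range_one, show Q 0 z = ‖f z‖ from rfl] at this
  nlinarith [show 0 ≤ ‖f z‖ * (κ * ‖z‖) by positivity, sq_nonneg (κ * ‖z‖)]

set_option maxHeartbeats 2000000 in
theorem main [NormedSpace ℝ X] [IsScalarTower ℝ 𝕜 X] {C : Set X} {ε : ℝ} (h : ND C ε) (hε : 0 < ε)
    (hC : C.Nonempty) (hb' : IsBounded C) : ∃ N : Seminorm 𝕜 X,
      (∃ a b : ℝ, ∀ x, ‖x‖ ≤ a * N x ∧ N x ≤ b * ‖x‖) ∧ ∃ (T₀ : X →L[𝕜] X) (δ : ℝ), 0 < δ ∧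
        ∀ T : X →L[𝕜] X, (∀ y, N (T y - T₀ y) ≤ δ * N y) → ∀ x, N x = 1 →
          ¬ ∀ y, N y ≤ 1 → N (T y) ≤ N (T x) := by
  obtain ⟨d, d1, hD⟩ := h.cnt hC
  have bD := hb'.subset d1
  obtain ⟨R, R0, hR⟩ := bD.exists_pos_norm_le
  have d2 : ∀ i j, ‖d i - d j‖ ≤ 2 * R := fun i j => by
    linarith [norm_sub_le (d i) (d j), hR _ ⟨i, rfl⟩, hR _ ⟨j, rfl⟩]
  obtain ⟨e, he⟩ : ∃ e : X, ‖e‖ = 1 := by
    obtain ⟨y, -, -, hy⟩ := hD.esc hε bD (⊥ : Submodule 𝕜 X) 0 (β := -1) ⟨0, rfl⟩ (by simp)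
    exact ⟨_, norm_smul_inv_norm (𝕜 := 𝕜) (x := y) fun k => by
      rw [k, map_zero, norm_zero] at hy; linarith⟩
  have hn := hb (normSeminorm 𝕜 X) (K := 1) (by simp)
  simp only [coe_normSeminorm] at hn
  obtain ⟨f, f1, f2⟩ := hn e
  rw [he, RCLike.ofReal_one] at f2
  obtain ⟨P, hP⟩ : ∃ P : X →L[𝕜] X, ∀ z, P z = z - f z • e := ⟨.id 𝕜 X - f.smulRight e, fun _ => rfl⟩
  have P1 : ∀ z, ‖P z‖ ≤ 2 * ‖z‖ := fun z => by
    rw [hP]; refine (norm_sub_le _ _).trans ?_; rw [norm_smul, he]; linarith [f1 z]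
  have P2 : P e = 0 := by simp [hP, f2]
  have P3 : ∀ z, f (P z) = 0 := fun z => by simp [hP, f2]
  have P4 : ∀ z, P (P z) = P z := fun z => by rw [hP (P z), P3, zero_smul, sub_zero]
  let E : ℕ → Submodule 𝕜 X := fun n => .span 𝕜 (insert e (d '' Iic n))
  have E0 : ∀ n, FiniteDimensional 𝕜 (E n) := fun n =>
    FiniteDimensional.span_of_finite 𝕜 (((finite_Iic n).image d).insert e)
  have E1 : ∀ n (c : 𝕜), c • e ∈ E n := fun n c =>
    Submodule.smul_mem _ _ (Submodule.subset_span (mem_insert _ _))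
  have E2 : ∀ n i, i ≤ n → d i ∈ E n := fun n i hi =>
    Submodule.subset_span (mem_insert_of_mem _ ⟨i, hi, rfl⟩)
  have E3 : Monotone E := fun n m hm =>
    Submodule.span_mono (insert_subset_insert (image_mono (Iic_subset_Iic.2 hm)))
  obtain ⟨_, ⟨i1, rfl⟩, -, u1⟩ := hD.esc hε bD (E 0) 0 (β := -1) ⟨0, rfl⟩ (by simp)
  have u2 : ε / 10 ≤ ‖P (d i1 - d 0)‖ := u1.trans ((qq_mem (by
    rw [hP, sub_sub, sub_sub_cancel]; exact add_mem (E2 0 0 le_rfl) (E1 _ _))).trans_le (qq_le _ _))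
  obtain ⟨ψ, ψ1, ψ2⟩ := hn (P (d i1 - d 0))
  obtain ⟨r, hr⟩ : ∃ r, r = ε / 100 := ⟨_, rfl⟩
  have r0 : 0 < r := by rw [hr]; positivity
  obtain ⟨A, hA⟩ := supS {φ : X →L[𝕜] 𝕜 | φ e = 0 ∧ ∀ i j, ‖φ (d i - d j)‖ + r * ‖φ‖ ≤ 1}
    (by simp) (R := r⁻¹) fun φ hφ => by
      rw [← one_div, le_div_iff₀' r0]; linarith [hφ.2 0 0, norm_nonneg (φ (d 0 - d 0))]
  have A1 : ∀ z, A z ≤ r⁻¹ * ‖z‖ := fun z => (hA _ _).2 fun φ hφ => φ.le_of_opNorm_le (by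
    rw [← one_div, le_div_iff₀' r0]; linarith [hφ.2 0 0, norm_nonneg (φ (d 0 - d 0))]) z
  have A2 : ∀ (θ : 𝕜) i j b, ‖θ‖ = 1 → ‖b‖ ≤ 1 → A (θ • (d i - d j) + (r : 𝕜) • b) ≤ 1 :=
    fun θ i j b h1 h2 => (hA _ _).2 fun φ hφ => by
      rw [map_add, map_smul, map_smul]
      refine (norm_add_le _ _).trans ?_
      rw [norm_smul, norm_smul, h1, RCLike.norm_ofReal, abs_of_pos r0]
      nlinarith [hφ.2 i j, φ.le_opNorm_of_le h2]
  have A3 : ∀ z (c : 𝕜), A (z + c • e) ≤ A z := fun z c => (hA _ _).2 fun φ hφ => by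
    rw [map_add, map_smul, hφ.1, smul_zero, add_zero]; exact (hA _ _).1 le_rfl φ hφ
  have A4 : ∀ (φ : X →L[𝕜] 𝕜) c, 0 < c → φ e = 0 → (∀ i j, ‖φ (d i - d j)‖ + r * ‖φ‖ ≤ c) →
      ∀ z, ‖φ z‖ ≤ c * A z := fun φ c c0 h1 h2 z => by
    have a1 : ‖((c⁻¹ : ℝ) : 𝕜)‖ = c⁻¹ := by rw [RCLike.norm_ofReal, abs_of_pos (inv_pos.2 c0)]
    have := (hA z _).1 le_rfl (((c⁻¹ : ℝ) : 𝕜) • φ) ⟨by simp [h1], fun i j => by
      rw [smul_apply, norm_smul, norm_smul, a1, mul_left_comm, ← mul_add, inv_mul_le_iff₀ c0,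
        mul_one]
      exact h2 i j⟩
    rwa [smul_apply, norm_smul, a1, inv_mul_le_iff₀ c0] at this
  obtain ⟨Λ, hΛ⟩ : ∃ Λ, Λ = 2 * (2 * R + r) := ⟨_, rfl⟩
  have Λ0 : 0 < Λ := by rw [hΛ]; positivity
  have A5 : ∀ z, ‖P z‖ ≤ Λ * A z := fun z => by
    obtain ⟨μ, μ1, μ2⟩ := hn (P z)
    have a1 : ∀ w, ‖μ.comp P w‖ ≤ 2 * ‖w‖ := fun w => (μ1 _).trans (P1 w)
    have := A4 (μ.comp P) Λ Λ0 (by simp [P2]) (fun i j => by
      nlinarith [a1 (d i - d j), d2 i j, (μ.comp P).opNorm_le_bound zero_le_two a1]) z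
    rwa [ContinuousLinearMap.comp_apply, μ2, RCLike.norm_ofReal, abs_norm] at this
  have A6 : ∀ z, A z ≤ 1 → ∃ n, qq (E n) z ≤ 2 * r := fun z hz => by
    obtain ⟨μ, μ1, μ2⟩ := hb (qq (⨆ n, E n)) (K := 1) (fun z => by simpa using qq_le _ z) z
    have a1 : ∀ w ∈ ⨆ n, E n, μ w = 0 := fun w hw => norm_le_zero_iff.1 ((μ1 w).trans_eq
      ((qq_mem (w := 0) (by rwa [sub_zero])).trans (map_zero _)))
    have := A4 μ r r0 (a1 _ (Submodule.mem_iSup_of_mem 0 (by simpa using E1 0 1))) (fun i j => by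
      rw [a1 _ (sub_mem (Submodule.mem_iSup_of_mem i (E2 i i le_rfl))
        (Submodule.mem_iSup_of_mem j (E2 j j le_rfl))), norm_zero, zero_add]
      exact mul_le_of_le_one_right r0.le (μ.opNorm_le_bound zero_le_one fun w => by
        simpa using (μ1 w).trans (qq_le _ w))) z
    rw [μ2, RCLike.norm_ofReal, abs_of_nonneg (apply_nonneg _ _)] at this
    obtain ⟨w, w1, w2⟩ := qq_lt (c := 2 * r) (this.trans_lt (by nlinarith))
    obtain ⟨n, hn⟩ := (Submodule.mem_iSup_of_directed _ E3.directed_le).1 w1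
    exact ⟨n, (qq_mem hn).trans_le ((qq_le _ w).trans w2.le)⟩
  obtain ⟨κ, κ0, hκ⟩ : ∃ κ > 0, 2 * κ * Λ = 1 := ⟨1 / (2 * Λ), by positivity, by field_simp⟩
  obtain ⟨B, B1, B2⟩ := kad f E κ0
  obtain ⟨M, M0, hM⟩ : ∃ M > 0, M * (ε / 10) = 4 := ⟨40 / ε, by positivity, by field_simp; norm_num⟩
  obtain ⟨l, l0, hl⟩ : ∃ l > 0, l * (M * Λ) = 1 := ⟨1 / (M * Λ), by positivity, by field_simp⟩
  obtain ⟨A', hA'⟩ : ∃ A' : Seminorm 𝕜 X, ∀ z, A' z = A z + l * ‖f z‖ :=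
    ⟨A + NNReal.mk l l0.le • (normSeminorm 𝕜 𝕜).comp f.toLinearMap, fun _ => rfl⟩
  obtain ⟨N, hN⟩ : ∃ N : Seminorm 𝕜 X, ∀ z, N z = max (A' z) (B z) := ⟨A' ⊔ B, fun _ => rfl⟩
  have N1 : ∀ z, A' z ≤ N z := fun z => (le_max_left _ _).trans_eq (hN z).symm
  have N2 : ∀ z, B z ≤ N z := fun z => (le_max_right _ _).trans_eq (hN z).symm
  have N3 : ∀ z, A z ≤ N z := fun z => le_trans (by rw [hA']; exact le_add_of_nonneg_right (by positivity)) (N1 z)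
  have N4 : ∀ z, ‖z‖ ≤ (Λ + 1) * N z := fun z => by
    have := norm_add_le (P z) (f z • e)
    rw [hP, sub_add_cancel, ← hP, norm_smul, he] at this
    nlinarith [A5 z, N3 z, N2 z, (B1 z).1]
  have N5 : ∀ z, A z ≤ 1 → N (P z) ≤ 1 := fun z hz => by
    rw [hN, hA']
    refine max_le ?_ ((B1 _).2.trans ?_) <;> rw [P3, norm_zero]
    · rw [hP, sub_eq_add_neg, ← neg_smul]; linarith [A3 z (-f z)]
    · nlinarith [mul_le_mul_of_nonneg_left ((A5 z).trans (mul_le_of_le_one_right Λ0.le hz)) κ0.le]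
  obtain ⟨T₀, hT₀⟩ : ∃ T₀ : X →L[𝕜] X, ∀ z, T₀ z = P z + ((M : 𝕜) * ψ (P z)) • e :=
    ⟨P + ((M : 𝕜) • ψ.comp P).smulRight e, fun _ => rfl⟩
  have T1 : ∀ z, ‖f (T₀ z)‖ = M * ‖ψ (P z)‖ := fun z => by
    rw [hT₀, map_add, P3, map_smul, f2, zero_add, smul_eq_mul, mul_one, norm_mul, RCLike.norm_ofReal,
      abs_of_pos M0]
  have T2 : ∀ z, ∃ c : 𝕜, T₀ z = z + c • e := fun z =>
    ⟨(M : 𝕜) * ψ (P z) - f z, by rw [hT₀, sub_smul]; nth_rw 1 [hP]; abel⟩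
  obtain ⟨δ, δ0, δ1, δ2, δ3⟩ : ∃ δ > 0, δ ≤ 1 / 2 ∧ (Λ + 1) * δ ≤ r ∧ δ * N e ≤ l := by
    refine ⟨min (1 / 2) (min (r / (Λ + 1)) (l / (N e + 1))), by positivity, min_le_left _ _,
      (le_div_iff₀' (by positivity)).1 (min_le_of_right_le (min_le_left _ _)),
      le_trans (mul_le_mul_of_nonneg_left (le_add_of_nonneg_right zero_le_one) (by positivity))
        ((le_div_iff₀ (by positivity)).1 (min_le_of_right_le (min_le_right _ _)))⟩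
  refine ⟨N, ⟨Λ + 1, r⁻¹ + l + 1 + 2 * κ, fun z => ⟨N4 z, ?_⟩⟩, T₀, δ, δ0, fun T hT x x1 hx => ?_⟩
  · have a1 := mul_le_mul_of_nonneg_left (f1 z) l0.le
    have a2 : 0 ≤ r⁻¹ * ‖z‖ := by positivity
    have a3 : 0 ≤ κ * ‖z‖ := by positivity
    have a4 : 0 ≤ l * ‖z‖ := by positivity
    rw [hN, hA']
    exact max_le (by linarith [A1 z, norm_nonneg z]) (by linarith [(B1 z).2, f1 z])
  have tri : ∀ (p : Seminorm 𝕜 X) y, p (T y) ≤ p (T₀ y) + p (T y - T₀ y) ∧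
      p (T₀ y) ≤ p (T y) + p (T y - T₀ y) := fun p y => by
    have := abs_le.1 (abs_sub_map_le_sub p (T y) (T₀ y))
    constructor <;> linarith [this.1, this.2]
  have hT' : ∀ y, N y ≤ 1 → N (T y - T₀ y) ≤ δ := fun y hy =>
    (hT y).trans (mul_le_of_le_one_right δ0.le hy)
  have x2 := (N3 x).trans x1.le
  have s1 : 3 ≤ N (T x) := by
    have a1 := N5 _ (by simpa using A2 1 i1 0 0 norm_one (by simp) : A (d i1 - d 0) ≤ 1)
    have a2 := T1 (P (d i1 - d 0))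
    rw [P4, ψ2, RCLike.norm_ofReal, abs_norm] at a2
    nlinarith [hx _ a1, (tri N (P (d i1 - d 0))).2, hT' _ a1, N2 (T₀ (P (d i1 - d 0))),
      (B1 (T₀ (P (d i1 - d 0)))).1]
  have s2 : B (T x) = N (T x) := by
    refine ((max_choice _ _).resolve_left fun k => ?_).symm.trans (hN _).symm
    obtain ⟨c, hc⟩ := T2 x
    have a1 : A' (T₀ x) ≤ 2 := by
      rw [hA', T1, hc]
      nlinarith [A3 x c, mul_le_mul_of_nonneg_left ((ψ1 _).trans ((A5 x).trans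
        (mul_le_of_le_one_right Λ0.le x2))) (mul_pos l0 M0).le]
    linarith [hN (T x), (tri A' x).1, N1 (T x - T₀ x), hT' x x1.le]
  obtain ⟨g, g1, g2⟩ := hb B (K := 1 + 2 * κ) (fun z => by linarith [(B1 z).2, f1 z]) (T x)
  rw [s2] at g2
  generalize N (T x) = s at hx s1 s2 g2
  obtain ⟨n, hn⟩ := A6 x x2
  obtain ⟨η, η0, η1, η2⟩ : ∃ η > 0, η ≤ 1 ∧ 8 * s * η ≤ (κ * (1 / 2) ^ n * r) ^ 2 :=
    ⟨min 1 (_ / (8 * s)), by positivity, min_le_left _ _,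
      (le_div_iff₀' (by positivity)).1 (min_le_right _ _)⟩
  set k := (g.comp T).comp P with hk
  have k1 : ∀ z, k z = g (T (P z)) := fun _ => rfl
  obtain ⟨i, j, k2⟩ : ∃ i j, s - η < ‖k (d i - d j)‖ + r * ‖k‖ := by
    by_contra! a
    have a1 := A4 k _ (by linarith) (by simp [k1, P2]) a x
    have a2 : ‖g (T e)‖ ≤ l := by
      have := hT e
      rw [hT₀, P2, map_zero, mul_zero, zero_smul, add_zero, sub_zero] at this
      linarith [g1 (T e), N2 (T e)]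
    have a3 := norm_add_le (k x) (f x • g (T e))
    rw [show k x + f x • g (T e) = s by
      rw [k1, hP, map_sub, map_sub, map_smul, map_smul, sub_add_cancel, g2], RCLike.norm_ofReal,
      norm_smul] at a3
    nlinarith [le_abs_self s, N1 x, hA' x, mul_le_mul_of_nonneg_left a2 (norm_nonneg (f x))]
  obtain ⟨θ, θ1, θ2⟩ := RCLike.exists_norm_eq_mul_self (k (d i - d j))
  obtain ⟨b, b1, b2⟩ := k.exists_lt_apply_of_lt_opNorm (sub_lt_self _ (div_pos η0 r0))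
  obtain ⟨τ, τ1, τ2⟩ := RCLike.exists_norm_eq_mul_self (k b)
  have k3 := congrArg RCLike.re θ2
  rw [RCLike.ofReal_re, map_sub, mul_sub, map_sub] at k3
  obtain ⟨_, ⟨m, rfl⟩, y1, y2⟩ := hD.esc hε bD (E (max n j))
    (RCLike.reCLM.comp ((θ • k).restrictScalars ℝ)) (β := RCLike.re (θ * k (d j)) + (s - η - r * ‖k‖))
    ⟨i, rfl⟩ (show _ < RCLike.re (θ * k (d i)) by rw [map_sub] at k2; linarith)
  replace y1 : _ < RCLike.re (θ * k (d m)) := y1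
  have v1 := A2 θ m j (τ • b) θ1 (by rw [norm_smul, τ1, one_mul]; exact b1.le)
  set v := θ • (d m - d j) + (r : 𝕜) • τ • b with hv
  have v2 := N5 v v1
  have v3 : 2 * s - 2 * η ≤ B (T (P v) + T x) := by
    refine le_trans ?_ ((RCLike.re_le_norm _).trans (g1 _))
    rw [sub_lt_comm, lt_div_iff₀' r0] at b2
    rw [map_add, g2, ← k1, hv]
    simp only [map_add, map_smul, map_sub, smul_eq_mul, ← τ2, mul_sub, ← RCLike.ofReal_mul,
      RCLike.ofReal_re]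
    linarith
  have v4 : qq (E n) (T (P v)) - qq (E n) (T x) ≤ r := by
    refine le_of_mul_le_mul_left (abs_le_of_sq_le_sq' ((B2 n _ _).trans (le_trans ?_ η2))
      (by positivity)).2 (by positivity)
    nlinarith [pow_le_pow_left₀ (by linarith) v3 2,
      pow_le_pow_left₀ (apply_nonneg _ _) ((N2 _).trans (hx _ v2)) 2]
  have v5 : ∀ y, N y ≤ 1 → qq (E n) (T y - T₀ y) ≤ r ∧ qq (E n) (T₀ y) = qq (E n) y := fun y hy => by
    obtain ⟨c, hc⟩ := T2 y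
    exact ⟨(qq_le _ _).trans ((N4 _).trans ((mul_le_mul_of_nonneg_left (hT' y hy)
      (by positivity)).trans δ2)), qq_mem (by rw [hc, add_sub_cancel_left]; exact E1 _ _)⟩
  have v6 : qq (E n) (P v) = qq (E n) v := qq_mem (by
    rw [hP, sub_sub_cancel_left, ← neg_smul]; exact E1 _ _)
  have v7 : qq (E (max n j)) (d m) ≤ qq (E (max n j)) v + r := by
    have a1 := map_sub_le_add (qq (E (max n j))) v ((r : 𝕜) • τ • b)
    have a2 := qq_le (E (max n j)) ((r : 𝕜) • τ • b)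
    rw [norm_smul, norm_smul, τ1, RCLike.norm_ofReal, abs_of_pos r0] at a2
    rw [hv, add_sub_cancel_right, map_smul_eq_mul, θ1, qq_mem (w := d m) (by
      rw [sub_sub_cancel_left]; exact neg_mem (E2 _ j (le_max_right _ _))), ← hv] at a1
    linarith [mul_le_of_le_one_right r0.le (show 1 * ‖b‖ ≤ 1 by linarith)]
  replace y2 : ε / 10 ≤ qq (E (max n j)) (d m) := y2
  linarith [qq_anti (E3 (le_max_left n j)) v, (tri (qq (E n)) x).1, (tri (qq (E n)) (P v)).2,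
    (v5 x x1.le).1, (v5 x x1.le).2, (v5 _ v2).1, (v5 _ v2).2]

end Pool.Agent.H87.NaR
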