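import Pool.Agent.H95.Ekeland

namespace Pool.Agent.H87.NoGat

open Filter Topology Set TopologicalSpace

variable {X : Type} [NormedAddCommGroup X] [NormedSpace ℝ X]

def B (N : Seminorm ℝ X) (V : Submodule ℝ X) (g : X →L[ℝ] ℝ) (x : X) (T : ℝ) : Prop :=
  ∃ z ∈ V, N (x + z) - g (x + z) < T

section
variable {N : Seminorm ℝ X} {c C : ℝ} (hc : 0 < c) (hN : ∀ x, c * ‖x‖ ≤ N x ∧ N x ≤ C * ‖x‖)
include hc hN

lemma coer {g : X →L[ℝ] ℝ} (hg : ‖g‖ ≤ c / 2) {x : X} {T : ℝ} (h : N x - g x < T) :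
    ‖x‖ ≤ 2 * T / c := by
  rw [le_div_iff₀ hc]
  linarith [(hN x).1, (le_abs_self _).trans (g.le_of_opNorm_le hg x)]

omit hc in
lemma lip {g : X →L[ℝ] ℝ} (hg : ‖g‖ ≤ c / 2) (x y : X) :
    N x - g x ≤ N y - g y + (C + c / 2) * ‖x - y‖ := by
  have := map_add_le_add N y (x - y)
  rw [add_sub_cancel] at this
  linarith [(hN (x - y)).2, (neg_le_abs _).trans (g.le_of_opNorm_le hg (x - y)), map_sub g x y]

lemma B.move {V : Submodule ℝ X} {g g' : X →L[ℝ] ℝ} (hg : ‖g‖ ≤ c / 2) (hg' : ‖g'‖ ≤ c / 2)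
    {x x' y : X} {T T' : ℝ} (h : B N V g (x + y) T)
    (hT : T + ‖g - g'‖ * (2 * T / c) + (C + c / 2) * ‖x - x'‖ ≤ T') : B N V g' (x' + y) T' := by
  obtain ⟨z, hz, h⟩ := h
  have h1 := lip hN hg' (x' + y + z) (x + y + z)
  have h2 := (le_abs_self _).trans ((g - g').le_of_opNorm_le_of_le le_rfl (coer hc hN hg h))
  rw [add_sub_add_right_eq_sub, add_sub_add_right_eq_sub, norm_sub_rev] at h1
  exact ⟨z, hz, by rw [sub_apply] at h2; linarith⟩

lemma approx {G : Set (X →L[ℝ] ℝ)} {S : Set X} {g : X →L[ℝ] ℝ} {x : X} (hG : g ∈ closure G)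
    (hS : x ∈ closure S) (hg : ‖g‖ < c / 2) {T₁ T₃ : ℝ} (h : T₁ < T₃) :
    ∃ g₀ ∈ G, ‖g₀‖ ≤ c / 2 ∧ ∃ x₀ ∈ S, ∃ T : ℚ, ∃ η > 0,
      (∀ V y, B N V g (x + y) T₁ → B N V g₀ (x₀ + y) T) ∧
      ∀ V y, B N V g₀ (x₀ + y) (T + η) → B N V g (x + y) T₃ := by
  obtain ⟨T, h1, h2⟩ := exists_rat_btwn h
  set η := (T₃ - T) / 2 with hη
  obtain ⟨⟨g₀, x₀⟩, ⟨a1, a2, a3⟩, a4, a5⟩ := mem_closure_iff.1
    (closure_prod_eq.ge (mk_mem_prod hG hS)) {p | ‖p.1‖ < c / 2 ∧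
      T₁ + ‖g - p.1‖ * (2 * T₁ / c) + (C + c / 2) * ‖x - p.2‖ < T ∧
      T + η + ‖p.1 - g‖ * (2 * (T + η) / c) + (C + c / 2) * ‖p.2 - x‖ < T₃}
    (by refine .and ?_ (.and ?_ ?_) <;> exact isOpen_lt (by fun_prop) (by fun_prop))
    ⟨hg, by simpa, by simp; linarith⟩
  exact ⟨g₀, a4, a1.le, x₀, a5, T, η, by linarith, fun V y h => h.move hc hN hg.le a1.le a2.le,
    fun V y h => h.move hc hN a1.le hg.le a3.le⟩

end

variable {T : Type} [Preorder T]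

def Z (Y : Submodule ℝ X) (a : T → X) (v w : T) : Submodule ℝ X :=
  Y ⊔ Submodule.span ℝ ((fun r => a r - a v) '' Ici w)

lemma Z.mem {Y : Submodule ℝ X} {a : T → X} {v w r : T} (h : w ≤ r) : a r - a v ∈ Z Y a v w :=
  Submodule.mem_sup_right (Submodule.subset_span ⟨r, h, rfl⟩)

lemma Z.le {Y : Submodule ℝ X} {a : T → X} {v w w' : T} (h : w' ≤ w) : Z Y a w w ≤ Z Y a v w' :=
  sup_le le_sup_left (Submodule.span_le.2 (by
    rintro _ ⟨r, hr, rfl⟩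
    simpa using Submodule.sub_mem _ (Z.mem (v := v) (h.trans hr)) (Z.mem h)))

lemma B.mono {N : Seminorm ℝ X} {Y : Submodule ℝ X} {a : T → X} {v w : T} (h : v ≤ w)
    {g : X →L[ℝ] ℝ} {x : X} {l t : ℝ} (h1 : B N (Z Y a w w) g (x + l • a w) t) :
    B N (Z Y a v v) g (x + l • a v) t := by
  obtain ⟨z, hz, h1⟩ := h1
  refine ⟨l • (a w - a v) + z, add_mem (Submodule.smul_mem _ _ (Z.mem h)) (Z.le h hz), ?_⟩
  rwa [show x + l • a v + (l • (a w - a v) + z) = x + l • a w + z by module]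

lemma generic (hσ : ∀ v : ℕ → T, Monotone v → ∃ t, ∀ k, v k ≤ t) {ι : Type} [Countable ι]
    (P : ι → T → Prop) (h1 : ∀ i v, ∃ w, v ≤ w ∧ ∀ r, w ≤ r → P i r) (v : T) :
    ∃ w, v ≤ w ∧ ∀ i, P i w := by
  rcases isEmpty_or_nonempty ι with h | h
  · exact ⟨v, le_rfl, h.elim⟩
  obtain ⟨f, hf⟩ := exists_surjective_nat ι
  choose g g1 g2 using h1
  let u : ℕ → T := fun k => Nat.rec v (fun k w => g (f k) w) k
  obtain ⟨t, ht⟩ := hσ u (monotone_nat_of_le_succ fun k => g1 _ _)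
  exact ⟨t, ht 0, fun i => by obtain ⟨k, rfl⟩ := hf i; exact g2 _ _ _ (ht (k + 1))⟩

lemma slope {N : X → ℝ} {d : ℝ} {x v : X} (h : HasLineDerivAt ℝ N d x v) :
    Tendsto (fun n : ℕ => ((n : ℝ) + 1) * (N (x + (1 / ((n : ℝ) + 1)) • v) - N x)) atTop (𝓝 d) := by
  simpa [Function.comp_def] using h.tendsto_slope_zero_right.comp (tendsto_nhdsWithin_iff.2
    ⟨tendsto_one_div_add_atTop_nhds_zero_nat (𝕜 := ℝ), .of_forall fun n => mem_Ioi.2 Nat.one_div_pos_of_nat⟩)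

lemma slope_ge {N : X → ℝ} {d m : ℝ} {x v : X} (h : HasLineDerivAt ℝ N d x v)
    (h1 : ∀ s > 0, s * m ≤ N (x + s • v) - N x) : m ≤ d :=
  ge_of_tendsto' (slope h) fun n => by
    have := h1 _ (Nat.one_div_pos_of_nat (n := n))
    rwa [one_div, inv_mul_le_iff₀ (by positivity), ← one_div] at this

theorem nogat [CompleteSpace X] [Nonempty T] (Y : Submodule ℝ X) (a : T → X) (ha : ∀ t, ‖a t‖ ≤ 1)
    (hσ : ∀ v : ℕ → T, Monotone v → ∃ t, (∀ k, v k ≤ t) ∧ ∀ u, t ≤ u → ∃ δ : X →L[ℝ] ℝ,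
      ‖δ‖ ≤ 1 ∧ δ (a u) = 1 ∧ (∀ y ∈ Y, δ y = 0) ∧ ∀ k s, s ≤ v k → δ (a s) = 0)
    (hY : IsSeparable (Y : Set X)) (hs : ∀ v, IsSeparable (a '' Iic v))
    (hav : ∀ v, ∃ w : ℕ → T, (∀ j, v ≤ w j) ∧ ∀ (φ : ℕ → X) (R : ℝ), (∀ j, φ j ∈ Z Y a v (w j)) →
      (∀ j, ‖φ j‖ ≤ R) → ∀ J : ℕ, ∃ y ∈ Y, ‖∑ j ∈ Finset.range J, φ j - y‖ ≤ R + 1)
    (G : Set (X →L[ℝ] ℝ)) (hG : G.Countable) (hg : ∀ (f : X →L[ℝ] ℝ) (ε : ℝ),
      (∀ y ∈ Y, |f y| ≤ ε * ‖y‖) → ∃ g ∈ closure G, ‖g‖ ≤ ε ∧ ∀ y ∈ Y, g y = f y)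
    (N : Seminorm ℝ X) (c C : ℝ) (hc : 0 < c) (hC : 0 < C)
    (hN : ∀ x, c * ‖x‖ ≤ N x ∧ N x ≤ C * ‖x‖) :
    ¬ ∀ x ≠ 0, ∃ L : X →L[ℝ] ℝ, ∀ v, HasLineDerivAt ℝ N (L v) x v := by
  intro hD
  have hσ' : ∀ v : ℕ → T, Monotone v → ∃ t, ∀ k, v k ≤ t := fun v h => (hσ v h).imp fun _ h => h.1
  have bad : ∀ (g : X →L[ℝ] ℝ), ‖g‖ ≤ c / 2 → ∀ x (l t : ℝ) v,
      (∀ w, v ≤ w → B N (Z Y a w w) g (x + l • a w) t) → ∀ η > 0, B N Y g (x + l • a v) (t + η) := by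
    intro g hg x l t v h η hη
    obtain ⟨w, h1, h2⟩ := hav v
    choose z h3 h4 using fun j => h (w j) (h1 j)
    set x' := x + l • a v with hx'
    set φ := fun j => l • (a (w j) - a v) + z j with hφ
    have h5 : ∀ j, x + l • a (w j) + z j = x' + φ j := fun j => by simp only [hx', hφ]; module
    simp only [h5] at h4
    set R := 2 * t / c + ‖x'‖ with hR
    obtain ⟨J, hJ⟩ := exists_nat_gt (|(C + c / 2) * (R + 1)| / η)
    have J0 : (0 : ℝ) < J := hJ.trans_le' (by positivity)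
    obtain ⟨y, hy, h6⟩ := h2 φ R (fun j => add_mem (Submodule.smul_mem _ _ (Z.mem le_rfl))
      (Z.le le_rfl (h3 j))) (fun j => by
        linarith [norm_sub_le (x' + φ j) x', coer hc hN hg (h4 j),
          congrArg norm (add_sub_cancel_left x' (φ j))]) J
    refine ⟨(J : ℝ)⁻¹ • y, Submodule.smul_mem _ _ hy, lt_of_mul_lt_mul_left ?_ J0.le⟩
    have a1 := lip hN hg ((J : ℝ) • x' + y) (∑ j ∈ Finset.range J, (x' + φ j))
    have a2 : N (∑ j ∈ Finset.range J, (x' + φ j)) - g (∑ j ∈ Finset.range J, (x' + φ j)) ≤ J * t := by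
      rw [map_sum g, sub_le_iff_le_add]
      refine (Finset.le_sum_of_subadditive N (map_zero N).le (map_add_le_add N) _ _).trans ?_
      rw [← sub_le_iff_le_add, ← Finset.sum_sub_distrib]
      simpa using Finset.sum_le_card_nsmul (Finset.range J) _ _ fun j _ => (h4 j).le
    have a3 : (J : ℝ) • x' + y = (J : ℝ) • (x' + (J : ℝ)⁻¹ • y) := by
      rw [smul_add _ x', smul_inv_smul₀ J0.ne']
    rw [Finset.sum_add_distrib, Finset.sum_const, Finset.card_range, ← Nat.cast_smul_eq_nsmul ℝ] at a1 a2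
    rw [add_sub_add_left_eq_sub, norm_sub_rev, a3, map_smul_eq_mul, map_smul, Real.norm_natCast,
      smul_eq_mul] at a1
    rw [div_lt_iff₀ hη] at hJ
    nlinarith [mul_le_mul_of_nonneg_left h6 (show 0 ≤ C + c / 2 by positivity),
      le_abs_self ((C + c / 2) * (R + 1))]
  let D1 := fun (g : X →L[ℝ] ℝ) (x : X) (l t : ℝ) (v : T) =>
    (∀ w, v ≤ w → B N (Z Y a w w) g (x + l • a w) t) ∨ ¬ B N (Z Y a v v) g (x + l • a v) t
  have d1 : ∀ g x l t v, ∃ w, v ≤ w ∧ ∀ r, w ≤ r → D1 g x l t r := fun g x l t v => by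
    by_cases h : ∀ w, v ≤ w → B N (Z Y a w w) g (x + l • a w) t
    · exact ⟨v, le_rfl, fun r hr => .inl fun w hw => h w (hr.trans hw)⟩
    · push Not at h
      exact h.imp fun w h => ⟨h.1, fun r hr => .inr fun h' => h.2 (h'.mono hr)⟩
  let Lo := fun (g : X →L[ℝ] ℝ) (x : X) (s t : ℝ) (r v : T) =>
    ∀ w, v ≤ w → B N (Z Y a w w) g (x - s • a r + (1 + s) • a w) t
  let D2 := fun (g : X →L[ℝ] ℝ) (x : X) (s t : ℝ) (v : T) =>
    (∃ r ≤ v, Lo g x s t r v) ∨ ∀ r v', v ≤ r → r ≤ v' → ¬ Lo g x s t r v'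
  have d2 : ∀ g x s t v, ∃ w, v ≤ w ∧ ∀ r, w ≤ r → D2 g x s t r := fun g x s t v => by
    by_cases h : ∀ r v', v ≤ r → r ≤ v' → ¬ Lo g x s t r v'
    · exact ⟨v, le_rfl, fun r hr => .inr fun r' v' h' => h r' v' (hr.trans h')⟩
    · push Not at h
      obtain ⟨r, v', h1, h2, h3⟩ := h
      exact ⟨v', h1.trans h2, fun q hq => .inl ⟨r, h2.trans hq, fun w hw => h3 w (hq.trans hw)⟩⟩
  let E := fun v => Y ⊔ Submodule.span ℝ (a '' Iic v)
  have hE : ∀ v, ∃ S ⊆ (E v : Set X), S.Countable ∧ (E v : Set X) ⊆ closure S := fun v => by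
    refine IsSeparable.exists_countable_dense_subset ?_
    simpa [E, Submodule.span_union] using (hY.union (hs v)).span (R := ℝ)
  choose S S1 S2 S3 using hE
  have _ := hG.to_subtype
  have st : ∀ v, ∃ w, v ≤ w ∧ ∀ i : G × S v × ℕ × ℚ, D1 i.1 i.2.1 1 i.2.2.2 w ∧
      D2 i.1 i.2.1 (1 / (i.2.2.1 + 1)) i.2.2.2 w := fun v => by
    have _ := (S2 v).to_subtype
    refine generic hσ' _ (fun i v => ?_) v
    obtain ⟨w, h1, h2⟩ := d1 i.1 i.2.1 1 i.2.2.2 v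
    obtain ⟨w', h3, h4⟩ := d2 i.1 i.2.1 (1 / (i.2.2.1 + 1)) i.2.2.2 w
    exact ⟨w', h1.trans h3, fun r hr => ⟨h2 r (h3.trans hr), h4 r hr⟩⟩
  choose nx n1 n2 using st
  let v : ℕ → T := fun k => nx^[k] (Classical.arbitrary T)
  have v1 : ∀ k, v (k + 1) = nx (v k) := fun k => Function.iterate_succ_apply' _ _ _
  have v2 : Monotone v := monotone_nat_of_le_succ fun k => v1 k ▸ n1 _
  obtain ⟨t, t1, t2⟩ := hσ v v2
  have _ := (countable_iUnion fun k => S2 (v k)).to_subtype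
  obtain ⟨u, u1, u2⟩ := generic hσ' (fun (i : G × (⋃ k, S (v k)) × ℕ × ℚ) => D1 i.1
    (i.2.1 - (1 / ((i.2.2.1 : ℝ) + 1)) • a t) (1 + 1 / (i.2.2.1 + 1)) i.2.2.2) (fun i => d1 _ _ _ _) t
  obtain ⟨δ, δ1, δ2, δ3, δ4⟩ := t2 u u1
  set W := (⨆ k, E (v k)).topologicalClosure with hW
  have W1 : ∀ k, E (v k) ≤ W := fun k => (le_iSup (fun k => E (v k)) k).trans
    (Submodule.le_topologicalClosure _)
  have W2 : (W : Set X) ⊆ closure (⋃ k, S (v k)) := closure_minimal (fun x hx => by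
    obtain ⟨k, hk⟩ := (Submodule.mem_iSup_of_directed _ (Monotone.directed_le fun i j h =>
      sup_le_sup_left (Submodule.span_mono (image_mono (Iic_subset_Iic.2 (v2 h)))) _)).1 hx
    exact closure_mono (subset_iUnion (fun k => S (v k)) k) (S3 _ hk)) isClosed_closure
  have W3 : W ≤ LinearMap.ker (δ : X →ₗ[ℝ] ℝ) := Submodule.topologicalClosure_minimal _
    (iSup_le fun k => sup_le δ3 (Submodule.span_le.2 (by rintro _ ⟨s, h, rfl⟩; exact δ4 k s h)))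
    δ.isClosed_ker
  have _ : CompleteSpace W := (Submodule.isClosed_topologicalClosure _).completeSpace_coe
  set ε := c ^ 2 / (2 * (4 * c + C)) with hε
  have ε0 : 0 < ε := by positivity
  have ε1 : ε * (2 * (4 * c + C)) = c ^ 2 := div_mul_cancel₀ _ (by positivity)
  have hcont : Continuous N := N.continuous_of_le ((normSeminorm ℝ X).uniformContinuous_of_continuousAt_zero
    continuous_norm.continuousAt |>.continuous.const_smul C.toNNReal) (q := C.toNNReal • normSeminorm ℝ X)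
    fun x => by simpa [NNReal.smul_def, hC.le] using (hN x).2
  obtain ⟨x, x1, x2⟩ := H95.Ekeland.ekeland (k := fun x : W => -N (x + a u)) (by fun_prop) (M := 0)
    (fun y => neg_nonpos.2 (apply_nonneg _ _)) ε0 0
  have x3 : 1 ≤ ‖x + a u‖ := by
    simpa [δ2, show δ x = 0 from W3 x.2] using δ.le_of_opNorm_le δ1 (x + a u)
  obtain ⟨f, hf⟩ := hD (x + a u) (by rintro h; norm_num [h] at x3)
  have f1 : ∀ y, f y ≤ N y := fun y => by
    simpa using slope_ge (hf (-y)) (m := -N y) fun s hs => by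
      have := map_add_le_add N (x + a u + s • -y) (s • y)
      rw [map_smul_eq_mul, Real.norm_of_nonneg hs.le, smul_neg, neg_add_cancel_right] at this
      rw [smul_neg]; linarith
  have f2 : N (x + a u) ≤ f (x + a u) := slope_ge (hf _) fun s hs => by
    rw [show (x + a u : X) + s • (x + a u) = (1 + s) • (x + a u) by module, map_smul_eq_mul,
      Real.norm_of_nonneg (by positivity)]
    linarith
  have f3 : ∀ y ∈ W, -(ε * ‖y‖) ≤ f y := fun y hy => slope_ge (hf y) fun s hs => by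
    have := x2 (x + s • ⟨y, hy⟩)
    rw [dist_self_add_right, norm_smul, Real.norm_of_nonneg hs.le] at this
    simp only [Submodule.coe_add, Submodule.coe_smul, Submodule.coe_norm] at this
    rw [add_right_comm]; linarith
  have f4 : ∀ y ∈ W, |f y| ≤ ε * ‖y‖ := fun y hy => abs_le.2 ⟨f3 y hy, by
    simpa using f3 (-y) (neg_mem hy)⟩
  obtain ⟨g, g1, g2, g3⟩ := hg f ε fun y hy => f4 y (W1 0 (Submodule.mem_sup_left hy))
  have g4 : ‖g‖ < c / 2 := g2.trans_lt (by nlinarith)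
  have low : ∀ y, ¬ B N Y g (x + a u + y) (N (x + a u) - g (x + a u) + (f y - g y)) := by
    rintro y ⟨z, hz, h⟩
    have := f1 (x + a u + y + z)
    rw [map_add f, map_add f] at this
    rw [map_add g, map_add g, g3 z hz] at h
    linarith
  have I : ∀ s > 0, s * -g (a u - a t) ≤ N (x + a u + s • -(a u - a t)) - N (x + a u) := by
    intro s hs
    by_contra! h
    obtain ⟨T₁, h1, h2⟩ := exists_between (show N (x + a u + s • -(a u - a t)) -
      g (x + a u + s • -(a u - a t)) < N (x + a u) - g (x + a u) by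
        rw [map_add g, map_smul, map_neg, smul_eq_mul]; linarith)
    obtain ⟨g₀, a1, a2, x₀, a3, T, η, a4, a5, a6⟩ := approx hc hN g1 (W2 x.2) g4 h2
    obtain ⟨k, hk⟩ := mem_iUnion.1 a3
    have a7 := a5 (Z Y a t t) ((1 : ℝ) • a t) ⟨(1 - s) • (a u - a t), Submodule.smul_mem _ _ (Z.mem u1),
      by convert h1 using 3 <;> module⟩
    have a8 := (n2 (v k) (⟨g₀, a1⟩, ⟨x₀, hk⟩, 0, T)).1.resolve_right
      (not_not.2 (a7.mono (v1 k ▸ t1 (k + 1))))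
    refine low 0 ?_
    simpa using a6 Y _ (bad g₀ a2 x₀ 1 T u (fun w hw => a8 w ((v1 k ▸ t1 (k + 1)).trans
      (u1.trans hw))) η a4)
  have II := slope_ge (hf _) I
  rw [map_neg, neg_le_neg_iff] at II
  obtain ⟨n, hn⟩ := ((slope (hf (a u - a t))).eventually
    (gt_mem_nhds (II.trans_lt (lt_add_of_pos_right _ (half_pos hc))))).exists
  set s : ℝ := 1 / (n + 1) with hs
  have s0 : 0 < s := by positivity
  obtain ⟨T₁, h1, h2⟩ := exists_between (show N (x + a u + s • (a u - a t)) -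
      g (x + a u + s • (a u - a t)) < N (x + a u) - g (x + a u) + s * (c / 2) by
    have := mul_lt_mul_of_pos_left hn s0
    rw [← mul_assoc, show s * (n + 1) = 1 from one_div_mul_cancel (by positivity)] at this
    rw [map_add g, map_smul, smul_eq_mul]; linarith)
  obtain ⟨g₀, a1, a2, x₀, a3, T, η, a4, a5, a6⟩ := approx hc hN g1 (W2 x.2) g4 h2
  obtain ⟨k, hk⟩ := mem_iUnion.1 a3
  have a7 := a5 (Z Y a u u) (-(s • a t) + (1 + s) • a u) ⟨0, zero_mem _, by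
    convert h1 using 3 <;> module⟩
  rw [← add_assoc, ← sub_eq_add_neg] at a7
  have a8 := (u2 (⟨g₀, a1⟩, ⟨x₀, a3⟩, n, T)).resolve_right (not_not.2 a7)
  obtain ⟨r, r1, r2⟩ := (n2 (v k) (⟨g₀, a1⟩, ⟨x₀, hk⟩, n, T)).2.resolve_right
    fun h => h t u (v1 k ▸ t1 (k + 1)) u1 a8
  have a9 := bad g₀ a2 _ _ T u (fun w hw => r2 w ((v1 k ▸ t1 (k + 1)).trans (u1.trans hw))) η a4
  rw [sub_eq_add_neg, add_assoc] at a9
  obtain ⟨z, hz, b1⟩ := a6 Y _ a9
  refine low (s • (a u - a r)) ⟨z, hz, ?_⟩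
  rw [show (x : X) + a u + s • (a u - a r) = x + (-(s • a r) + (1 + s) • a u) by module]
  refine b1.trans_le (add_le_add_right ?_ _)
  rw [map_smul, map_smul, smul_eq_mul, smul_eq_mul, ← mul_sub]
  refine mul_le_mul_of_nonneg_left ?_ s0.le
  have b2 := abs_le.1 ((f4 _ (W1 (k + 1) (Submodule.mem_sup_right (Submodule.subset_span
    ⟨r, v1 k ▸ r1, rfl⟩)))).trans (mul_le_of_le_one_right ε0.le (ha r)))
  have b3 := abs_le.1 (g.le_of_opNorm_le_of_le g2 ((norm_sub_le _ _).trans (add_le_add (ha u) (ha r))))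
  have b4 := (le_abs_self _).trans (f4 _ x.2)
  have b5 : N (x + a u) ≤ C := by
    simp only [ZeroMemClass.coe_zero, zero_add, neg_le_neg_iff] at x1
    exact x1.trans ((hN _).2.trans (mul_le_of_le_one_right hC.le (ha u)))
  have b6 : ‖(x : X)‖ ≤ ‖x + a u‖ + 1 := by
    simpa using (norm_sub_le (x + a u : X) (a u)).trans (add_le_add_right (ha u) _)
  have b7 := (hN (x + a u)).1
  rw [map_add f] at f2
  rw [map_sub f]
  refine le_of_mul_le_mul_left ?_ hc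
  nlinarith [mul_le_mul_of_nonneg_left b6 ε0.le, mul_le_mul_of_nonneg_left (b7.trans b5) ε0.le,
    mul_le_mul_of_nonneg_left x3 hc.le]

end Pool.Agent.H87.NoGat
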