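import Pool.Agent.H87.NoGat1
import Pool.Agent.H87.NoGat2
import Pool.Agent.H87.Mlur1

namespace Pool.Agent.H87.NoGat

open Filter Topology Set Classical TopologicalSpace

noncomputable def pt (d : D) : D ⊕ T → Bool := Sum.elim (fun d' => decide (d' = d)) fun t => decide (d ∈ A t)

def K : Type := closure (range pt)

instance : TopologicalSpace K := inferInstanceAs (TopologicalSpace (closure (range pt)))
instance : T2Space K := inferInstanceAs (T2Space (closure (range pt)))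
instance : CompactSpace K := isCompact_iff_compactSpace.1 isClosed_closure.isCompact

noncomputable def P (d : D) : K := ⟨pt d, subset_closure ⟨d, rfl⟩⟩

lemma cont (i : D ⊕ T) : Continuous fun x : K => x.1 i := (continuous_apply i).comp continuous_subtype_val

lemma P_dense : DenseRange P := fun x => closure_subtype.2 (closure_mono (by
  rintro _ ⟨d, rfl⟩; exact ⟨P d, ⟨d, rfl⟩, rfl⟩) x.2)

noncomputable def crd (i : D ⊕ T) : C(K, ℝ) := ⟨fun x => if x.1 i then 1 else 0,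
  (continuous_of_discreteTopology (f := fun b : Bool => if b then (1 : ℝ) else 0)).comp (cont i)⟩

@[simp] lemma crd_apply (i : D ⊕ T) (x : K) : crd i x = if x.1 i then 1 else 0 := rfl

lemma clop (i : D ⊕ T) (b : Bool) : IsClopen {x : K | x.1 i = b} :=
  (isClopen_discrete {b}).preimage (cont i)

lemma iso {x : K} {d : D} (h : x.1 (.inl d) = true) : x = P d := by
  refine (P_dense.induction_on (p := fun x => x.1 (.inl d) = false ∨ x = P d) x
    ((clop _ _).1.union isClosed_singleton) fun d' => ?_).resolve_left (by simp [h])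
  by_cases e : d = d' <;> simp [P, pt, e]

lemma rem {x : K} (hx : ∀ d, x.1 (.inl d) = false) {s t m : T}
    (h : {d | d ∈ A s ∧ ¬ (d ∈ A t → d ∈ A m)}.Finite) (hs : x.1 (.inr s) = true)
    (ht : x.1 (.inr t) = true) : x.1 (.inr m) = true := by
  have := P_dense.induction_on (p := fun x => x ∈ ({x : K | x.1 (.inr s) = false} ∪
    ({x | x.1 (.inr t) = false} ∪ {x | x.1 (.inr m) = true})) ∪ ⋃ d ∈ _, {x | x.1 (.inl d) = true}) x
    (((clop _ _).1.union ((clop _ _).1.union (clop _ _).1)).union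
      (h.isClosed_biUnion fun d _ => (clop _ _).1)) fun d => by
        simp only [mem_union, mem_iUnion, mem_ofPred_eq, P, pt, Sum.elim_inr, Sum.elim_inl,
          decide_eq_false_iff_not, decide_eq_true_eq, exists_prop, exists_eq_right]
        tauto
  simpa [hx, hs, ht] using this

lemma up {x : K} (hx : ∀ d, x.1 (.inl d) = false) {s t : T} (h : s ≤ t)
    (hs : x.1 (.inr s) = true) : x.1 (.inr t) = true :=
  rem hx ((A_up h).subset fun _ h => ⟨h.1, fun h' => h.2 fun _ => h'⟩) hs hs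

lemma scattered (S : Set K) (hS : S.Nonempty) : ∃ x ∈ S, ∃ U : Set K, IsOpen U ∧ U ∩ S = {x} := by
  by_cases h1 : ∃ x ∈ S, ∃ d, x.1 (.inl d) = true
  · obtain ⟨x, hx, d, h⟩ := h1
    exact ⟨x, hx, _, (clop (.inl d) true).2, eq_singleton_iff_unique_mem.2
      ⟨⟨h, hx⟩, fun y hy => (iso hy.1).trans (iso h).symm⟩⟩
  simp only [not_exists, not_and, Bool.not_eq_true] at h1
  by_cases h2 : ∃ s : T, ∃ x ∈ S, x.1 (.inr s) = true
  · obtain ⟨s, ⟨x, hx, h⟩, h3⟩ := (InvImage.wf T.h wellFounded_lt).has_min _ h2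
    have h4 : ∀ y ∈ S, y.1 (.inr s) = true → ∀ w, y.1 (.inr w) = true ↔ s ≤ w := fun y hy hs w =>
      ⟨fun hw => ⟨not_lt.1 (h3 w ⟨y, hy, hw⟩), fun a ha => by_contra fun e => h3 ⟨a, s.f⟩
        ⟨y, hy, rem (h1 y hy) (A_meet s w a ha.le e) hs hw⟩ ha⟩, fun h => up (h1 y hy) h hs⟩
    refine ⟨x, hx, _, (clop (.inr s) true).2, eq_singleton_iff_unique_mem.2
      ⟨⟨h, hx⟩, fun y hy => Subtype.ext (funext fun i => ?_)⟩⟩
    cases i
    · rw [h1 x hx, h1 y hy.2]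
    · rw [Bool.eq_iff_iff, h4 x hx h, h4 y hy.2 hy.1]
  simp only [not_exists, not_and, Bool.not_eq_true] at h2
  obtain ⟨x, hx⟩ := hS
  refine ⟨x, hx, univ, isOpen_univ, eq_singleton_iff_unique_mem.2
    ⟨⟨trivial, hx⟩, fun y hy => Subtype.ext (funext fun i => ?_)⟩⟩
  cases i
  exacts [(h1 y hy.2 _).trans (h1 x hx _).symm, (h2 _ y hy.2).trans (h2 _ x hx).symm]

noncomputable def Y : Submodule ℝ C(K, ℝ) := Submodule.span ℝ (range fun d => crd (.inl d))

noncomputable def ev (x : K) : C(K, ℝ) →L[ℝ] ℝ := ContinuousMap.evalCLM ℝ x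

@[simp] lemma ev_apply (x : K) (f : C(K, ℝ)) : ev x f = f x := rfl

lemma ev_le (x : K) : ‖ev x‖ ≤ 1 := ContinuousLinearMap.opNorm_le_bound _ zero_le_one fun f => by
  simpa using f.norm_coe_le_norm x

lemma Y_ker {x : K} (hx : ∀ d, x.1 (.inl d) = false) : Y ≤ LinearMap.ker (ev x : C(K, ℝ) →ₗ[ℝ] ℝ) :=
  Submodule.span_le.2 (by rintro _ ⟨d, rfl⟩; simp [hx])

lemma sum_P (s : Finset D) (c : D → ℝ) (d : D) :
    (∑ i ∈ s, c i • crd (.inl i)) (P d) = if d ∈ s then c d else 0 := by simp [P, pt]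

lemma sigma (v : ℕ → T) (hv : Monotone v) : ∃ t, (∀ k, v k ≤ t) ∧ ∀ u, t ≤ u →
    ∃ δ : C(K, ℝ) →L[ℝ] ℝ, ‖δ‖ ≤ 1 ∧ δ (crd (.inr u)) = 1 ∧ (∀ y ∈ Y, δ y = 0) ∧
      ∀ k s, s ≤ v k → δ (crd (.inr s)) = 0 := by
  obtain ⟨b, hb⟩ := bdd fun k => (v k).h
  let t : T := ⟨b, fun x => if h : ∃ k, x < (v k).h then (v h.choose).f x else 0⟩
  have ht : ∀ k, v k ≤ t := fun k => ⟨(hb k).le, fun x hx => by
    have h : ∃ k, x < (v k).h := ⟨k, hx⟩
    rw [show t.f x = _ from dif_pos h]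
    exact (le_total k h.choose).elim (fun e => (hv e).2 x hx) fun e => ((hv e).2 x h.choose_spec).symm⟩
  refine ⟨t, ht, fun u hu => ?_⟩
  obtain ⟨x, -, hx⟩ := isCompact_univ.ultrafilter_le_nhds ((hyperfilter ℕ).map fun n =>
    P (n, cd (F n u.h) u.f u.h)) (by simp)
  have h1 : ∀ i b, (∀ᶠ n in atTop, pt (n, cd (F n u.h) u.f u.h) i = b) → x.1 i = b := fun i b h =>
    (clop i b).1.mem_of_tendsto hx (h.filter_mono Nat.hyperfilter_le_atTop)
  refine ⟨ev x, ev_le x, by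
    simp [h1 (.inr u) true (.of_forall fun n => decide_eq_true ⟨_, F_self _ _, rfl⟩)],
    Y_ker fun d => h1 _ _ ((eventually_gt_atTop d.1).mono fun n hn => decide_eq_false
      fun e => hn.ne (congrArg Prod.fst e)), fun k s hs => ?_⟩
  simp [h1 (.inr s) false ((A_top ((hs.1.trans_lt (hb k)).trans_le hu.1)
    (hs.trans ((ht k).trans hu))).mono fun n => decide_eq_false)]

lemma sep (v : T) : IsSeparable ((fun t => crd (.inr t)) '' Iic v) := by
  refine ((cIic v.h).image fun b => crd (.inr ⟨b, v.f⟩)).isSeparable.mono ?_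
  rintro _ ⟨s, hs, rfl⟩
  refine ⟨s.h, hs.1, ContinuousMap.ext (congrFun (P_dense.equalizer (map_continuous _)
    (map_continuous _) (funext fun d => ?_)))⟩
  have : d ∈ A ⟨s.h, v.f⟩ ↔ d ∈ A s := exists_congr fun c => and_congr_right fun hc => by
    rw [cd_congr fun x hx => ⟨.rfl, hs.2 x (hx.trans_le (mem_F.1 hc).1)⟩]
  simp [P, pt, this]

lemma nearY (f : C(K, ℝ)) (R : ℝ) (hR : 0 ≤ R) (h : ∀ x : K, (∀ d, x.1 (.inl d) = false) → |f x| ≤ R) :
    ∃ y ∈ Y, ‖f - y‖ ≤ R + 1 := by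
  obtain ⟨s, hs⟩ := (isClosed_le (continuous_const (y := R + 1)) f.continuous.abs).isCompact.elim_finite_subcover
    (fun d => {x | x.1 (.inl d) = true}) (fun d => (clop _ _).2) fun x hx => by_contra fun h' => by
      simp only [mem_iUnion, mem_ofPred_eq, not_exists, Bool.not_eq_true] at h' hx
      linarith [h x h']
  refine ⟨∑ d ∈ s, f (P d) • crd (.inl d), Submodule.sum_mem _ fun d _ => Submodule.smul_mem _ _
    (Submodule.subset_span ⟨d, rfl⟩), (ContinuousMap.norm_le _ (by positivity)).2 fun x => ?_⟩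
  by_cases hx : ∃ d ∈ s, x.1 (.inl d) = true
  · obtain ⟨d, h1, h2⟩ := hx
    rw [iso h2, ContinuousMap.sub_apply, sum_P, if_pos h1, sub_self, norm_zero]
    positivity
  · have := mt (@hs x) (by simpa using hx)
    simp only [not_exists, not_and, Bool.not_eq_true] at hx
    rw [ContinuousMap.sub_apply, ContinuousMap.sum_apply, Finset.sum_eq_zero fun d hd => by
      simp [hx d hd], sub_zero]
    exact (not_le.1 this).le

lemma avg (v : T) : ∃ w : ℕ → T, (∀ j, v ≤ w j) ∧ ∀ (φ : ℕ → C(K, ℝ)) (R : ℝ),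
    (∀ j, φ j ∈ Z Y (fun t => crd (.inr t)) v (w j)) → (∀ j, ‖φ j‖ ≤ R) →
    ∀ J : ℕ, ∃ y ∈ Y, ‖∑ j ∈ Finset.range J, φ j - y‖ ≤ R + 1 := by
  obtain ⟨b, hb⟩ := bdd fun _ => v.h
  let w : ℕ → T := fun j => ⟨b, Function.update v.f v.h j⟩
  have hw : ∀ j, v ≤ w j := fun j => ⟨(hb 0).le, fun x hx => (Function.update_of_ne hx.ne _ _).symm⟩
  have R0 := fun (φ : ℕ → C(K, ℝ)) (R : ℝ) (h : ∀ j, ‖φ j‖ ≤ R) => (norm_nonneg _).trans (h 0)
  refine ⟨w, hw, fun φ R h1 h2 J => nearY _ R (R0 φ R h2) fun x hx => ?_⟩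
  have h3 : ∀ j, φ j x ≠ 0 → x.1 (.inr v) = false ∧ ∃ r, w j ≤ r ∧ x.1 (.inr r) = true := by
    intro j h
    by_contra h'
    refine h ((sup_le (Y_ker hx) (Submodule.span_le.2 ?_) : _ ≤ LinearMap.ker _) (h1 j))
    rintro _ ⟨r, hr, rfl⟩
    by_cases e : x.1 (.inr v) = true
    · simp [e, up hx ((hw j).trans hr) e]
    · simp [e, show ¬ x.1 (.inr r) = true from fun e' => h' ⟨by simpa using e, r, hr, e'⟩]
  rw [ContinuousMap.sum_apply]
  by_cases h : ∃ i, φ i x ≠ 0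
  · obtain ⟨i, hi⟩ := h
    rw [Finset.sum_eq_ite i fun j _ hj => by_contra fun e => ?_]
    · split_ifs
      exacts [((φ i).norm_coe_le_norm x).trans (h2 i), by simpa using R0 φ R h2]
    obtain ⟨a1, r, a2, a3⟩ := h3 i hi
    obtain ⟨-, r', a4, a5⟩ := h3 j e
    have a6 := rem hx (A_meet r r' v.h ((hw i).trans a2).1 (by
      rw [← a2.2 _ (hb 0), ← a4.2 _ (hb 0)]; simpa [w] using hj.symm)) a3 a5
    simp [up hx (s := ⟨v.h, r.f⟩) (t := v) ⟨le_rfl, fun y hy => (((hw i).trans a2).2 y hy).symm⟩ a6] at a1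
  · push Not at h
    simpa [h] using R0 φ R h2

lemma gsum {X : Type} [NormedAddCommGroup X] [NormedSpace ℝ X] (δ : D → X →L[ℝ] ℝ)
    (hδ : ∀ d, ‖δ d‖ ≤ 1) (c : D → ℝ) (ε : ℝ) (h3 : ∀ s : Finset D, ∑ d ∈ s, |c d| ≤ ε) :
    ∃ g ∈ closure (Submodule.span ℝ (range δ) : Set (X →L[ℝ] ℝ)), ‖g‖ ≤ ε ∧
      ∀ x, HasSum (fun d => c d * δ d x) (g x) := by
  have h4 : ∀ d, ‖c d • δ d‖ ≤ |c d| := fun d => by
    rw [norm_smul]; exact mul_le_of_le_one_right (abs_nonneg _) (hδ _)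
  have h5 := summable_of_sum_le (fun _ => abs_nonneg _) h3
  obtain ⟨g, hg⟩ := Summable.of_norm_bounded h5 h4
  exact ⟨g, mem_closure_of_tendsto hg (.of_forall fun s =>
    Submodule.sum_mem _ fun d _ => Submodule.smul_mem _ _ (Submodule.subset_span ⟨d, rfl⟩)),
    (hg.norm_le_of_bounded h5.hasSum h4).trans (h5.tsum_le_of_sum_le h3),
    fun x => hg.mapL (ContinuousLinearMap.apply ℝ ℝ x)⟩

lemma gpart : ∃ G : Set (C(K, ℝ) →L[ℝ] ℝ), G.Countable ∧ ∀ (f : C(K, ℝ) →L[ℝ] ℝ) (ε : ℝ),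
    (∀ y ∈ Y, |f y| ≤ ε * ‖y‖) → ∃ g ∈ closure G, ‖g‖ ≤ ε ∧ ∀ y ∈ Y, g y = f y := by
  obtain ⟨G, h1, h2⟩ := (countable_range fun d => ev (P d)).isSeparable.span (R := ℝ)
  refine ⟨G, h1, fun f ε h => ?_⟩
  have h3 : ∀ s : Finset D, ∑ d ∈ s, |f (crd (.inl d))| ≤ ε := fun s => by
    have a1 : ∀ c : D → ℝ, ∑ d ∈ s, c d • crd (.inl d) ∈ Y := fun c => Submodule.sum_mem _ fun d _ =>
      Submodule.smul_mem _ _ (Submodule.subset_span ⟨d, rfl⟩)
    have a0 : 0 ≤ ε := by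
      have := (abs_nonneg _).trans (h _ (Submodule.subset_span ⟨(0, ∅), rfl⟩))
      exact nonneg_of_mul_nonneg_left this (norm_pos_iff.2 fun e => by
        simpa [P, pt] using congrArg (fun f : C(K, ℝ) => f (P (0, ∅))) e)
    refine le_trans (le_of_eq ?_) ((le_abs_self _).trans ((h _ (a1 fun d => SignType.sign
      (f (crd (.inl d))))).trans (mul_le_of_le_one_right a0 ((ContinuousMap.norm_le _ zero_le_one).2
        fun x => P_dense.induction_on x (isClosed_le (by fun_prop) continuous_const) fun d => ?_))))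
    · simp
    · rw [sum_P]
      split_ifs
      · rcases SignType.trichotomy (SignType.sign (f (crd (.inl d)))) with h | h | h <;> simp [h]
      · simp
  obtain ⟨g, h4, h5, h6⟩ := gsum (fun d => ev (P d)) (fun d => ev_le _) _ ε h3
  refine ⟨g, closure_minimal h2 isClosed_closure h4, h5, fun y hy =>
      LinearMap.eqOn_span' (f := (g : C(K, ℝ) →ₗ[ℝ] ℝ)) (g := (f : C(K, ℝ) →ₗ[ℝ] ℝ)) ?_ hy⟩
  rintro _ ⟨d, rfl⟩
  refine (h6 _).unique ?_
  convert hasSum_single d fun d' h => ?_ using 1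
  · simp [P, pt]
  · simp [P, pt, h.symm]

theorem main (N : Seminorm ℝ C(K, ℝ)) (c C : ℝ) (hc : 0 < c) (hC : 0 < C)
    (hN : ∀ x, c * ‖x‖ ≤ N x ∧ N x ≤ C * ‖x‖) :
    ¬ ∀ x ≠ 0, ∃ L : C(K, ℝ) →L[ℝ] ℝ, ∀ v, HasLineDerivAt ℝ N (L v) x v := by
  obtain ⟨G, h1, h2⟩ := gpart
  have _ : Nonempty T := ⟨⟨Classical.arbitrary _, 0⟩⟩
  exact nogat Y (fun t => crd (.inr t)) (fun t => (ContinuousMap.norm_le _ zero_le_one).2 fun x => by
    rw [crd_apply]; split_ifs <;> simp) sigma ((countable_range _).isSeparable.span) sep avg G h1 h2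
    N c C hc hC hN

end Pool.Agent.H87.NoGat
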