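import Pool.Agent.H87.JamesSeq

namespace Pool.Agent.H87.NonBR

open Filter Topology Set

variable {X : Type} [NormedAddCommGroup X] [NormedSpace ℝ X]

noncomputable def cc (p : X × (X →L[ℝ] ℝ)) : ℝ := p.2 p.1
noncomputable def bb (p q : X × (X →L[ℝ] ℝ)) : ℝ := p.2 q.1 + q.2 p.1

lemma cc_sub (p q : X × (X →L[ℝ] ℝ)) : cc (p - q) = cc p - bb p q + cc q := by
  simp only [cc, bb, Prod.fst_sub, Prod.snd_sub, map_sub, _root_.sub_apply]; ring
lemma cc_smul (r : ℝ) (p : X × (X →L[ℝ] ℝ)) : cc (r • p) = r * r * cc p := by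
  simp only [cc, Prod.smul_fst, Prod.smul_snd, map_smul, _root_.smul_apply, smul_eq_mul]; ring
lemma bb_smul (r : ℝ) (p q : X × (X →L[ℝ] ℝ)) : bb p (r • q) = r * bb p q := by
  simp only [bb, Prod.smul_fst, Prod.smul_snd, map_smul, _root_.smul_apply, smul_eq_mul]; ring
lemma bb_sub (p q w : X × (X →L[ℝ] ℝ)) : bb (p - q) w = bb p w - bb q w := by
  simp only [bb, Prod.fst_sub, Prod.snd_sub, map_sub, _root_.sub_apply]; ring
lemma bb_comm (p q : X × (X →L[ℝ] ℝ)) : bb p q = bb q p := add_comm _ _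

lemma line {c b : ℝ} (h : ∀ r : ℝ, 0 ≤ c - r * b) : b = 0 := by
  by_contra hb
  have := h ((c + 1) / b)
  rw [div_mul_cancel₀ _ hb] at this
  linarith

theorem main (x : ℕ → X) (f : ℕ → StrongDual ℝ X) (L K : ℝ) (hL : 0 < L) (hx : ∀ n, ‖x n‖ ≤ L)
    (hf : ∀ n, ‖f n‖ ≤ K) (hfx : ∀ i j, f i (x j) = if i ≤ j then 1 else 0) :
    ∃ A : Set (X × (X →L[ℝ] ℝ)), (∀ p ∈ A, ∀ q ∈ A, 0 ≤ cc (p - q)) ∧
      (∀ z, (∀ p ∈ A, 0 ≤ cc (z - p)) → z ∈ A) ∧
      ∃ z : X × (X →L[ℝ] ℝ), (∀ p ∈ A, -1 ≤ cc (p - z)) ∧ ∀ p ∈ A, 1 / L ≤ ‖p.2 - z.2‖ := by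
  let e : ℕ → X := fun n => Nat.casesOn n (x 0) fun m => x (m + 1) - x m
  have hfe : ∀ i j, f i (e j) = if i = j then 1 else 0 := by
    intro i j
    cases j with
    | zero => simp [e, hfx]
    | succ j =>
      simp only [e, map_sub, hfx]
      split_ifs <;> first | omega | simp
  let Z : Submodule ℝ X :=
    { carrier := {v | Tendsto (fun n => f n v) atTop (𝓝 0)}
      add_mem' := fun ha hb => by simpa using Tendsto.add ha hb
      zero_mem' := by simp
      smul_mem' := fun r _ ha => by simpa using Tendsto.const_mul r ha }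
  have hZ : IsClosed (Z : Set X) := by
    have : Equicontinuous fun n (v : X) => f n v :=
      (LipschitzWith.uniformEquicontinuous (fun n (v : X) => f n v) K.toNNReal fun n =>
        (f n).lipschitz.weaken (by
          rw [← NNReal.coe_le_coe]; exact (hf n).trans (Real.le_coe_toNNReal K))).equicontinuous
    exact this.isClosed_setOf_tendsto (f := fun _ => 0) continuous_const
  have heZ : ∀ j, e j ∈ Z := fun j => tendsto_const_nhds.congr' (by
    filter_upwards [eventually_gt_atTop j] with n hn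
    rw [hfe, if_neg hn.ne'])
  let σ : ℕ → X × (X →L[ℝ] ℝ) := fun n => (e n + e (n + 1), f n - f (n + 1))
  let z : X × (X →L[ℝ] ℝ) := (e 0, -f 0)
  have hσσ : ∀ n m, bb (σ n) (σ m) = 0 := by
    intro n m
    simp only [bb, σ, map_add, _root_.sub_apply, hfe]
    split_ifs <;> first | omega | norm_num
  have hσ : ∀ n, cc (σ n) = 0 := fun n => by
    have := hσσ n n
    simp only [bb, cc] at this ⊢
    linarith
  have hzσ : ∀ n, bb z (σ n) = 0 := by
    intro n
    simp only [bb, σ, z, map_add, _root_.sub_apply, _root_.neg_apply, hfe]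
    cases n <;> simp
  have hz : cc z = -1 := by simp [cc, z, hfe]
  let W : Set (X × (X →L[ℝ] ℝ)) := {p | p.1 ∈ Z ∧ (∀ n, bb p (σ n) = 0) ∧ bb p z = 0}
  let S : Set (X × (X →L[ℝ] ℝ)) :=
    {p | (∃ n, ∃ r : ℝ, p = r • σ n) ∨ (p.1 = 0 ∧ ∀ v ∈ Z, p.2 v = 0)}
  have hSW : S ⊆ W := by
    rintro p (⟨n, r, rfl⟩ | ⟨h1, h2⟩)
    · refine ⟨Z.smul_mem r (Z.add_mem (heZ n) (heZ (n + 1))), fun m => ?_, ?_⟩
      · rw [bb_comm, bb_smul, hσσ, mul_zero]
      · rw [bb_comm, bb_smul, hzσ, mul_zero]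
    · refine ⟨h1 ▸ Z.zero_mem, fun m => ?_, ?_⟩
      · rw [bb, h1, map_zero, h2 (σ m).1 (Z.add_mem (heZ m) (heZ (m + 1))), add_zero]
      · rw [bb, h1, map_zero, h2 z.1 (heZ 0), add_zero]
  have hSc : ∀ p ∈ S, cc p = 0 := by
    rintro p (⟨n, r, rfl⟩ | ⟨h1, -⟩)
    · rw [cc_smul, hσ, mul_zero]
    · rw [cc, h1, map_zero]
  have hSb : ∀ p ∈ W, ∀ q ∈ S, bb p q = 0 := by
    rintro p hp q (⟨n, r, rfl⟩ | ⟨h1, h2⟩)
    · rw [bb_smul, hp.2.1, mul_zero]
    · rw [bb, h1, map_zero, h2 _ hp.1, add_zero]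
  obtain ⟨A, hSA, hmax⟩ := zorn_subset_nonempty
    {A | A ⊆ W ∧ ∀ p ∈ A, ∀ q ∈ A, 0 ≤ cc (p - q)} (fun c hc hch _ =>
    ⟨⋃₀ c, ⟨sUnion_subset fun s hs => (hc hs).1, fun p ⟨s, hs, hp⟩ q ⟨t, ht, hq⟩ => by
      rcases hch.total hs ht with h | h
      · exact (hc ht).2 p (h hp) q hq
      · exact (hc hs).2 p hp q (h hq)⟩, fun s hs => subset_sUnion_of_mem hs⟩) S
    ⟨hSW, fun p hp q hq => by rw [cc_sub, hSc p hp, hSc q hq, hSb p (hSW hp) q hq]; simp⟩
  have h0 : (0 : X × (X →L[ℝ] ℝ)) ∈ A := hSA (Or.inr ⟨rfl, fun _ _ => rfl⟩)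
  refine ⟨A, hmax.1.2, fun p hp => ?_, z, fun p hp => ?_, fun p hp => ?_⟩
  · have h1 : ∀ n, bb p (σ n) = 0 := fun n => line (c := cc p) fun r => by
      have := hp _ (hSA (Or.inl ⟨n, r, rfl⟩))
      rwa [cc_sub, cc_smul, hσ, bb_smul, mul_zero, add_zero] at this
    have h2 : p.1 ∈ Z := by
      by_contra hn
      obtain ⟨g, r, h3, h4⟩ := geometric_hahn_banach_closed_point Z.convex hZ hn
      have h5 : ∀ v ∈ Z, g v = 0 := fun v hv => by
        by_contra hne
        have := h3 _ (Z.smul_mem (r / g v) hv)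
        rw [map_smul, smul_eq_mul, div_mul_cancel₀ _ hne] at this
        exact lt_irrefl _ this
      have h6 : g p.1 = 0 := line (c := cc p) fun t => by
        have := hp (0, t • g) (hSA (Or.inr ⟨rfl, fun v hv => by simp [h5 v hv]⟩))
        simpa [cc] using this
      have := h3 0 Z.zero_mem
      rw [map_zero] at this
      linarith
    have hzz : bb z z = -2 := by
      have : bb z z = 2 * cc z := by simp only [bb, cc]; ring
      rw [this, hz]; norm_num
    have hW : p - (-(bb p z) / 2) • z ∈ W := ⟨Z.sub_mem h2 (Z.smul_mem _ (heZ 0)), fun n => by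
      rw [bb_sub, h1, bb_comm (_ • z), bb_smul, bb_comm (σ n), hzσ]; simp, by
      rw [bb_sub, bb_comm (_ • z), bb_smul, hzz]; ring⟩
    have hrel : ∀ q ∈ A, 0 ≤ cc (p - (-(bb p z) / 2) • z - q) := fun q hq => by
      have h3 := hp q hq
      have h4 := (hmax.1.1 hq).2.2
      rw [cc_sub] at h3
      rw [cc_sub, cc_sub, bb_sub, cc_smul, bb_smul, hz, bb_comm (_ • z), bb_smul, h4]
      nlinarith [sq_nonneg (bb p z)]
    have hA : p - (-(bb p z) / 2) • z ∈ A := by
      refine hmax.2 (y := insert _ A) ⟨insert_subset hW hmax.1.1, ?_⟩ (subset_insert _ _)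
        (mem_insert _ _)
      rintro q (rfl | hq) r (rfl | hr)
      · simp [cc]
      · exact hrel r hr
      · have := hrel q hq
        rw [cc_sub, bb_comm _ q] at this
        rw [cc_sub]; linarith
      · exact hmax.1.2 q hq r hr
    have h3 := hp _ hA
    rw [cc_sub, cc_sub, bb_comm p (_ - _), bb_sub, cc_smul, bb_smul, hz, bb_comm (_ • z), bb_smul]
      at h3
    have h4 : bb p p = 2 * cc p := by simp only [bb, cc]; ring
    have h5 : bb p z = 0 := by nlinarith [sq_nonneg (bb p z)]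
    have h6 : p - (-(bb p z) / 2) • z = p := by
      rw [h5]
      exact Prod.ext (by simp) (ContinuousLinearMap.ext fun v => by simp)
    rwa [h6] at hA
  · have := hmax.1.2 p hp 0 h0
    have e0 : cc (p - 0) = cc p := by simp [cc]
    rw [cc_sub, (hmax.1.1 hp).2.2, hz]
    linarith
  · obtain ⟨h1, h2, h3⟩ := hmax.1.1 hp
    have hf0 : ∀ N, f (N + 1) (x 0) = 0 := fun N => by simp [hfx]
    have h4 : ∀ N, f (N + 1) (p.1 - e 0) + 2 = (p.2 - z.2) (x N + x (N + 1)) := by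
      intro N
      induction N with
      | zero =>
        have := h2 0
        simp only [bb, σ, z, e, map_add, map_sub, _root_.sub_apply, _root_.neg_apply, hfx]
          at this h3 ⊢
        norm_num at this h3 ⊢
        linarith [hf0 0]
      | succ N ih =>
        have := h2 (N + 1)
        simp only [bb, σ, z, e, map_add, map_sub, _root_.sub_apply, _root_.neg_apply, hfx]
          at this ih ⊢
        norm_num at this ih ⊢
        linarith [hf0 N, hf0 (N + 1)]
    have h5 : Tendsto (fun N => f (N + 1) (p.1 - e 0) + 2) atTop (𝓝 (0 + 2)) :=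
      ((Z.sub_mem h1 (heZ 0) : Tendsto _ _ _).comp (tendsto_add_atTop_nat 1)).add_const 2
    have h6 := le_of_tendsto' h5 (b := ‖p.2 - z.2‖ * (2 * L)) fun N => by
      rw [h4]
      refine (le_abs_self _).trans (((p.2 - z.2).le_opNorm _).trans ?_)
      exact mul_le_mul_of_nonneg_left ((norm_add_le _ _).trans (by linarith [hx N, hx (N + 1)]))
        (norm_nonneg _)
    rw [div_le_iff₀ hL]
    linarith

end Pool.Agent.H87.NonBR
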