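import Mathlib

namespace Pool.Agent.H87

/-- numerical radius of an operator on a real normed space -/
noncomputable def numRadius {X : Type} [NormedAddCommGroup X] [NormedSpace ℝ X]
    (T : X →L[ℝ] X) : ℝ :=
  sSup {r : ℝ | ∃ (x : X) (f : StrongDual ℝ X), ‖x‖ = 1 ∧ ‖f‖ = 1 ∧ f x = 1 ∧ r = |f (T x)|}

/-- numerical index of a real normed space -/
noncomputable def numIndex (X : Type) [NormedAddCommGroup X] [NormedSpace ℝ X] : ℝ :=
  sInf {r : ℝ | ∃ T : X →L[ℝ] X, ‖T‖ = 1 ∧ r = numRadius T}

/-- `X` admits an equivalent norm of numerical index one: it is linearly homeomorphic to a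
normed space of numerical index one. -/
def RenormIndexOne (X : Type) [NormedAddCommGroup X] [NormedSpace ℝ X] : Prop :=
  ∃ (Z : Type) (_ : NormedAddCommGroup Z) (_ : NormedSpace ℝ Z),
    Nonempty (X ≃L[ℝ] Z) ∧ numIndex Z = 1

end Pool.Agent.H87
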