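import Mathlib
import Pool.Agent.H87.NumIdxDef
import Pool.Agent.H87.L1R

namespace Pool.Agent.H87.NI

open Filter Topology Pool.Agent.H87

section gen
variable {Z : Type} [NormedAddCommGroup Z] [NormedSpace ℝ Z]

lemma bdd (T : Z →L[ℝ] Z) : ∀ r ∈ {r : ℝ | ∃ (x : Z) (f : StrongDual ℝ Z),
    ‖x‖ = 1 ∧ ‖f‖ = 1 ∧ f x = 1 ∧ r = |f (T x)|}, r ≤ ‖T‖ := by
  rintro r ⟨x, f, hx, hf, -, rfl⟩
  have h1 := f.le_opNorm (T x)
  have h2 := T.le_opNorm x
  rw [hf, one_mul, Real.norm_eq_abs] at h1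
  rw [hx, mul_one] at h2
  linarith

lemma rad_nonneg (T : Z →L[ℝ] Z) : 0 ≤ numRadius T :=
  Real.sSup_nonneg (by rintro r ⟨x, f, -, -, -, rfl⟩; exact abs_nonneg _)

lemma rad_le (T : Z →L[ℝ] Z) : numRadius T ≤ ‖T‖ := Real.sSup_le (bdd T) (norm_nonneg _)

lemma exists_state (h : numIndex Z = 1) (T : Z →L[ℝ] Z) (hT : ‖T‖ = 1) {κ : ℝ} (hκ : 0 < κ)
    (hκ1 : κ < 1) : ∃ (x : Z) (f : StrongDual ℝ Z), ‖x‖ = 1 ∧ ‖f‖ = 1 ∧ f x = 1 ∧
      1 - κ < |f (T x)| := by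
  have h1 : numIndex Z ≤ numRadius T :=
    csInf_le ⟨0, by rintro r ⟨S, -, rfl⟩; exact rad_nonneg S⟩ ⟨T, hT, rfl⟩
  by_contra hc
  push Not at hc
  have : numRadius T ≤ 1 - κ := Real.sSup_le
    (by rintro r ⟨x, f, hx, hf, hfx, rfl⟩; exact hc x f hx hf hfx) (by linarith)
  linarith

/-- approximate spear -/
def Sp (ε : ℝ) (a : Z) : Prop :=
  ‖a‖ ≤ 1 ∧ ∀ y : Z, ∃ s : ℝ, |s| = 1 ∧ ‖y‖ + 1 - ε ≤ ‖y + s • a‖

lemma spear (h : numIndex Z = 1) (φ : StrongDual ℝ Z) (hφ : φ ≠ 0) (a : Z) (ha : ‖a‖ ≤ 1)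
    {η ε : ℝ} (hη : 0 < η) (hε : 0 < ε)
    (hs : ∀ x, ‖x‖ ≤ 1 → ‖φ‖ - η < φ x → ‖x - a‖ ≤ ε) : Sp (2 * ε) a := by
  have hφ0 : 0 < ‖φ‖ := norm_pos_iff.2 hφ
  have key : ∀ y : Z, y ≠ 0 → ∃ f : StrongDual ℝ Z, ‖f‖ = 1 ∧ 1 - ε ≤ f a ∧ ‖y‖ - ε ≤ |f y| := by
    intro y hy
    have hy0 : 0 < ‖y‖ := norm_pos_iff.2 hy
    set κ := min (1 / 2) (min (η / ‖φ‖) (ε / ‖y‖)) with hκ
    have hκ0 : 0 < κ := by positivity
    have hκ1 : κ ≤ 1 / 2 := min_le_left _ _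
    have hκ2 : κ * ‖φ‖ ≤ η := by
      rw [← le_div_iff₀ hφ0]; exact (min_le_right _ _).trans (min_le_left _ _)
    have hκ3 : κ * ‖y‖ ≤ ε := by
      rw [← le_div_iff₀ hy0]; exact (min_le_right _ _).trans (min_le_right _ _)
    obtain ⟨x, f, hx, hf, hfx, hlt⟩ := exists_state h
      ((‖φ‖ * ‖y‖)⁻¹ • φ.smulRight y)
      (by rw [norm_smul, ContinuousLinearMap.norm_smulRight_apply, norm_inv, Real.norm_eq_abs,
        abs_of_pos (by positivity), inv_mul_cancel₀ (by positivity)]) hκ0 (by linarith)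
    have e1 : |f (((‖φ‖ * ‖y‖)⁻¹ • φ.smulRight y) x)| = (‖φ‖ * ‖y‖)⁻¹ * (|φ x| * |f y|) := by
      simp [abs_mul, abs_of_pos hφ0, abs_of_pos hy0]
    rw [e1, lt_inv_mul_iff₀ (by positivity)] at hlt
    have b1 : |φ x| ≤ ‖φ‖ := by simpa [hx] using φ.le_opNorm x
    have b2 : |f y| ≤ ‖y‖ := by simpa [hf] using f.le_opNorm y
    have c1 : ‖φ‖ * (1 - κ) < |φ x| := by
      by_contra hc
      push Not at hc
      have := mul_le_mul hc b2 (abs_nonneg _) (by nlinarith)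
      nlinarith
    have c2 : ‖y‖ * (1 - κ) ≤ |f y| := by
      by_contra hc
      push Not at hc
      have := mul_le_mul b1 hc.le (abs_nonneg _) hφ0.le
      nlinarith
    have fin : ∀ (x : Z) (f : StrongDual ℝ Z), ‖x‖ = 1 → ‖f‖ = 1 → f x = 1 →
        ‖φ‖ * (1 - κ) < φ x → 1 - ε ≤ f a := by
      intro x f hx hf hfx hl
      have h1 := hs x hx.le (by nlinarith)
      have h2 := f.le_opNorm (x - a)
      rw [hf, one_mul, map_sub, hfx, Real.norm_eq_abs] at h2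
      have := le_abs_self (1 - f a)
      linarith
    rcases le_total 0 (φ x) with h0 | h0
    · rw [abs_of_nonneg h0] at c1
      exact ⟨f, hf, fin x f hx hf hfx c1, by nlinarith⟩
    · rw [abs_of_nonpos h0] at c1
      refine ⟨-f, by simpa using hf, fin (-x) (-f) (by simpa using hx) (by simpa using hf)
        (by simpa using hfx) (by simpa using c1), ?_⟩
      simp only [neg_apply, abs_neg]
      nlinarith
  refine ⟨ha, fun y => ?_⟩
  by_cases hy : y = 0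
  · obtain ⟨y0, hy0⟩ : ∃ y0, φ y0 ≠ 0 := by
      by_contra hc
      push Not at hc
      exact hφ (ContinuousLinearMap.ext hc)
    obtain ⟨f, hf, h1, -⟩ := key y0 (by rintro rfl; simp at hy0)
    refine ⟨1, abs_one, ?_⟩
    have h2 := f.le_opNorm a
    rw [hf, one_mul, Real.norm_eq_abs] at h2
    have := le_abs_self (f a)
    simp only [hy, norm_zero, one_smul, zero_add]
    linarith
  · obtain ⟨f, hf, h1, h2⟩ := key y hy
    rcases le_total 0 (f y) with h0 | h0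
    · refine ⟨1, abs_one, ?_⟩
      have h3 := f.le_opNorm (y + (1 : ℝ) • a)
      rw [hf, one_mul, Real.norm_eq_abs, map_add, map_smul, smul_eq_mul] at h3
      rw [abs_of_nonneg h0] at h2
      have := le_abs_self (f y + 1 * f a)
      linarith
    · refine ⟨-1, by simp, ?_⟩
      have h3 := f.le_opNorm (y + (-1 : ℝ) • a)
      rw [hf, one_mul, Real.norm_eq_abs, map_add, map_smul, smul_eq_mul] at h3
      rw [abs_of_nonpos h0] at h2
      have := neg_le_abs (f y + -1 * f a)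
      linarith

lemma simul {ι : Type} (t : Finset ι) (a : ι → Z) {ε : ℝ} (ha : ∀ i ∈ t, Sp ε (a i)) (y : Z) :
    ∃ f : StrongDual ℝ Z, ‖f‖ ≤ 1 ∧ ‖y‖ - t.card * ε ≤ f y ∧
      ∀ i ∈ t, 1 - t.card * ε ≤ |f (a i)| := by
  classical
  have h1 : ∃ s : ι → ℝ, (∀ i, |s i| = 1) ∧
      ‖y‖ + t.card * (1 - ε) ≤ ‖y + ∑ i ∈ t, s i • a i‖ := by
    induction t using Finset.induction_on with
    | empty => exact ⟨fun _ => 1, fun _ => abs_one, by simp⟩
    | insert j t hj ih =>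
      obtain ⟨s, hs, h⟩ := ih fun i hi => ha i (Finset.mem_insert_of_mem hi)
      obtain ⟨c, hc, h2⟩ := (ha j (Finset.mem_insert_self _ _)).2 (y + ∑ i ∈ t, s i • a i)
      refine ⟨Function.update s j c, fun i => ?_, ?_⟩
      · by_cases hi : i = j
        · subst hi; simpa using hc
        · simp [Function.update_of_ne hi, hs]
      · rw [Finset.sum_insert hj, Finset.card_insert_of_notMem hj, Function.update_self,
          Finset.sum_congr rfl (g := fun i => s i • a i)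
            (fun i hi => by rw [Function.update_of_ne (by rintro rfl; exact hj hi)])]
        have : y + (c • a j + ∑ i ∈ t, s i • a i) = y + ∑ i ∈ t, s i • a i + c • a j := by abel
        rw [this]
        push_cast
        linarith
  obtain ⟨s, hs, h⟩ := h1
  obtain ⟨f, hf, hfw⟩ := exists_dual_vector'' ℝ (y + ∑ i ∈ t, s i • a i)
  have hfw' : f y + ∑ i ∈ t, s i * f (a i) = ‖y + ∑ i ∈ t, s i • a i‖ := by
    simpa [map_sum] using hfw
  have b0 : ∀ z, |f z| ≤ ‖z‖ := fun z =>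
    (f.le_opNorm z).trans (mul_le_of_le_one_left (norm_nonneg _) hf)
  have b1 : ∀ i, s i * f (a i) ≤ |f (a i)| := fun i => by
    have := le_abs_self (s i * f (a i))
    rwa [abs_mul, hs, one_mul] at this
  have b2 : ∀ i ∈ t, s i * f (a i) ≤ 1 := fun i hi => (b1 i).trans ((b0 _).trans (ha i hi).1)
  have b3 := (le_abs_self _).trans (b0 y)
  refine ⟨f, hf, ?_, fun i hi => ?_⟩
  · have := Finset.sum_le_card_nsmul t _ 1 b2
    simp only [nsmul_eq_mul, mul_one] at this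
    linarith
  · have h4 := Finset.add_sum_erase t (fun i => s i * f (a i)) hi
    have h5 := Finset.sum_le_card_nsmul (t.erase i) _ 1
      (fun j hj => b2 j (Finset.mem_of_mem_erase hj))
    have h6 : ((t.erase i).card : ℝ) + 1 = t.card := by
      exact_mod_cast Finset.card_erase_add_one hi
    simp only [nsmul_eq_mul, mul_one] at h5
    have := b1 i
    linarith

/-- functionals some slice of which lies in `S` -/
def U (S : Set (Z × Z)) : Set (StrongDual ℝ Z) :=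
  {φ | ∃ η > 0, ∀ x y, ‖x‖ ≤ 1 → ‖y‖ ≤ 1 → ‖φ‖ - η < φ x → ‖φ‖ - η < φ y → (x, y) ∈ S}

lemma U_open (S : Set (Z × Z)) : IsOpen (U S) := by
  rw [Metric.isOpen_iff]
  rintro φ ⟨η, hη, h⟩
  refine ⟨η / 4, by positivity, fun ψ hψ => ⟨η / 2, by positivity, fun x y hx hy h1 h2 => ?_⟩⟩
  rw [mem_ball_iff_norm] at hψ
  have a1 := norm_sub_norm_le φ ψ
  rw [norm_sub_rev] at a1
  have a2 : ∀ z, ‖z‖ ≤ 1 → ψ z - φ z ≤ ‖ψ - φ‖ := fun z hz => by
    have := (ψ - φ).le_opNorm z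
    rw [Real.norm_eq_abs, sub_apply] at this
    exact (le_abs_self _).trans (this.trans (mul_le_of_le_one_right (norm_nonneg _) hz))
  have := a2 x hx
  have := a2 y hy
  exact h x y hx hy (by linarith) (by linarith)

lemma near_sup (F : Z → ℝ) {C : ℝ} (hF : ∀ x, ‖x‖ ≤ 1 → F x ≤ C) {η : ℝ} (hη : 0 < η) :
    ∃ x₀, ‖x₀‖ ≤ 1 ∧ ∀ x, ‖x‖ ≤ 1 → F x ≤ F x₀ + η := by
  have hb : BddAbove (F '' {x | ‖x‖ ≤ 1}) := ⟨C, by rintro _ ⟨x, hx, rfl⟩; exact hF x hx⟩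
  obtain ⟨_, ⟨x₀, hx₀, rfl⟩, h⟩ := exists_lt_of_lt_csSup
    (s := F '' {x | ‖x‖ ≤ 1}) ⟨F 0, 0, by simp, rfl⟩
    (show sSup (F '' {x | ‖x‖ ≤ 1}) - η < _ by linarith)
  exact ⟨x₀, hx₀, fun x hx => by have := le_csSup hb ⟨x, hx, rfl⟩; linarith⟩

lemma le_norm (φ : StrongDual ℝ Z) {x : Z} (hx : ‖x‖ ≤ 1) : φ x ≤ ‖φ‖ :=
  (le_abs_self _).trans ((φ.le_opNorm x).trans (mul_le_of_le_one_right (norm_nonneg _) hx))

lemma U_dense_hilb {K : Type} [NormedAddCommGroup K] [InnerProductSpace ℝ K] (R : Z →L[ℝ] K)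
    {τ : ℝ} (hτ : 0 < τ) : Dense (U {p : Z × Z | ‖R p.1 - R p.2‖ ≤ τ}) := by
  rw [Metric.dense_iff]
  intro φ r hr
  set δ := r / (2 * (‖R‖ ^ 2 + 1)) with hδ
  have hδ0 : 0 < δ := by positivity
  have hR : ∀ x, ‖x‖ ≤ 1 → ‖R x‖ ≤ ‖R‖ := fun x hx =>
    (R.le_opNorm x).trans (mul_le_of_le_one_right (norm_nonneg _) hx)
  obtain ⟨x₀, hx₀, h⟩ := near_sup (fun x => φ x + δ * ‖R x‖ ^ 2) (C := ‖φ‖ + δ * ‖R‖ ^ 2)
    (fun x hx => by
      have := le_norm φ hx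
      have h2 := hR x hx
      have : ‖R x‖ ^ 2 ≤ ‖R‖ ^ 2 := by gcongr
      nlinarith) (η := δ * τ ^ 2 / 8) (by positivity)
  refine ⟨φ + (2 * δ) • (innerSL ℝ (R x₀)).comp R, ?_, δ * τ ^ 2 / 8, by positivity, ?_⟩
  · rw [mem_ball_iff_norm, add_sub_cancel_left, norm_smul, Real.norm_eq_abs,
      abs_of_pos (by positivity)]
    have h1 := ContinuousLinearMap.opNorm_comp_le (innerSL ℝ (R x₀)) R
    rw [innerSL_apply_norm] at h1
    have h2 := hR x₀ hx₀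
    have h3 : ‖(innerSL ℝ (R x₀)).comp R‖ < ‖R‖ ^ 2 + 1 := by nlinarith [norm_nonneg R]
    have h4 : 2 * δ * (‖R‖ ^ 2 + 1) = r := by rw [hδ]; field_simp
    nlinarith
  · have key : ∀ x, ‖x‖ ≤ 1 →
        ‖φ + (2 * δ) • (innerSL ℝ (R x₀)).comp R‖ - δ * τ ^ 2 / 8 <
          (φ + (2 * δ) • (innerSL ℝ (R x₀)).comp R) x → ‖R x - R x₀‖ ≤ τ / 2 := by
      intro x hx h1
      have h2 := le_norm (φ + (2 * δ) • (innerSL ℝ (R x₀)).comp R) hx₀
      have h3 := h x hx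
      simp only [add_apply, smul_apply, ContinuousLinearMap.comp_apply,
        innerSL_apply_apply, smul_eq_mul, real_inner_self_eq_norm_sq] at h1 h2 h3
      have h4 := norm_sub_sq_real (R x) (R x₀)
      rw [real_inner_comm] at h4
      have h5 : δ * ‖R x - R x₀‖ ^ 2 ≤ δ * (τ / 2) ^ 2 := by rw [h4]; nlinarith
      exact (pow_le_pow_iff_left₀ (norm_nonneg _) (by positivity) two_ne_zero).1
        (le_of_mul_le_mul_left h5 hδ0)
    intro x y hx hy h1 h2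
    have := norm_sub_le_norm_sub_add_norm_sub (R x) (R x₀) (R y)
    rw [norm_sub_rev (R x₀)] at this
    have := key x hx h1
    have := key y hy h2
    show ‖R x - R y‖ ≤ τ
    linarith

open L1R in
lemma U_dense_l1 (P : Z →L[ℝ] L ℕ) {τ : ℝ} (hτ : 0 < τ) :
    Dense (⋃ s : Finset ℕ, U {p : Z × Z | ‖P p.1‖ - ∑ m ∈ s, |(P p.1).ap m| ≤ τ ∧
      ‖P p.2‖ - ∑ m ∈ s, |(P p.2).ap m| ≤ τ}) := by
  rw [Metric.dense_iff]
  intro φ r hr
  set δ := r / (‖P‖ + 1) with hδ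
  have hδ0 : 0 < δ := by positivity
  have hR : ∀ x, ‖x‖ ≤ 1 → ‖P x‖ ≤ ‖P‖ := fun x hx =>
    (P.le_opNorm x).trans (mul_le_of_le_one_right (norm_nonneg _) hx)
  obtain ⟨x₀, hx₀, h⟩ := near_sup (fun x => φ x + δ * ‖P x‖) (C := ‖φ‖ + δ * ‖P‖)
    (fun x hx => by
      have := le_norm φ hx
      have h2 := hR x hx
      nlinarith) (η := δ * τ / 3) (by positivity)
  obtain ⟨s, hs⟩ := exists_fin (P x₀) (η := τ / 3) (by positivity)
  set σ : StrongDual ℝ (L ℕ) := ∑ m ∈ s, (SignType.sign ((P x₀).ap m) : ℝ) • apL m with hσ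
  have σ1 : ∀ u, σ u = ∑ m ∈ s, (SignType.sign ((P x₀).ap m) : ℝ) * u.ap m := by
    intro u; simp [hσ]
  have σ2 : ∀ u, |σ u| ≤ ∑ m ∈ s, |u.ap m| := by
    intro u
    rw [σ1]
    refine (Finset.abs_sum_le_sum_abs _ _).trans (Finset.sum_le_sum fun m _ => ?_)
    rw [abs_mul]
    refine mul_le_of_le_one_left (abs_nonneg _) ?_
    rcases (SignType.sign ((P x₀).ap m)) with _ | _ | _ <;> simp
  have σ3 : σ (P x₀) = ∑ m ∈ s, |(P x₀).ap m| := by
    rw [σ1]; exact Finset.sum_congr rfl fun m _ => sign_mul_self _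
  have σ4 : ‖σ‖ ≤ 1 := ContinuousLinearMap.opNorm_le_bound _ zero_le_one fun u => by
    rw [one_mul]; exact (σ2 u).trans (sum_le u s)
  refine ⟨φ + δ • σ.comp P, ?_, Set.mem_iUnion.2 ⟨s, δ * τ / 3, by positivity, ?_⟩⟩
  · rw [mem_ball_iff_norm, add_sub_cancel_left, norm_smul, Real.norm_eq_abs,
      abs_of_pos hδ0]
    have h1 := ContinuousLinearMap.opNorm_comp_le σ P
    have h3 : ‖σ.comp P‖ < ‖P‖ + 1 := by nlinarith [norm_nonneg P]
    have h4 : δ * (‖P‖ + 1) = r := by rw [hδ]; field_simp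
    nlinarith
  · have key : ∀ x, ‖x‖ ≤ 1 → ‖φ + δ • σ.comp P‖ - δ * τ / 3 < (φ + δ • σ.comp P) x →
        ‖P x‖ - ∑ m ∈ s, |(P x).ap m| ≤ τ := by
      intro x hx h1
      have h2 := le_norm (φ + δ • σ.comp P) hx₀
      have h3 := h x hx
      simp only [add_apply, smul_apply, ContinuousLinearMap.comp_apply, smul_eq_mul] at h1 h2 h3
      have h4 := (le_abs_self _).trans (σ2 (P x))
      rw [σ3] at h2
      have h5 : δ * (‖P x‖ - ∑ m ∈ s, |(P x).ap m|) ≤ δ * τ := by nlinarith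
      exact le_of_mul_le_mul_left h5 hδ0
    intro x y hx hy h1 h2
    exact ⟨key x hx h1, key y hy h2⟩

end gen

end Pool.Agent.H87.NI
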