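import Mathlib
import Pool.Agent.H87.NumIdx1

namespace Pool.Agent.H87.NI

open Filter Topology Pool.Agent.H87 L1R

lemma l1_tri (u w : L ℕ) (s : Finset ℕ) : ‖u - w‖ ≤ ∑ m ∈ s, |u.ap m - w.ap m| +
    (‖u‖ - ∑ m ∈ s, |u.ap m|) + (‖w‖ - ∑ m ∈ s, |w.ap m|) := by
  refine norm_le_of _ fun t => ?_
  have h1 : ∑ m ∈ t, |(u - w).ap m| ≤ ∑ m ∈ s ∪ (t \ s), |u.ap m - w.ap m| :=
    Finset.sum_le_sum_of_subset_of_nonneg (by intro x; simp; tauto) fun _ _ _ => abs_nonneg _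
  have h2 := sum_le u (s ∪ (t \ s))
  have h3 := sum_le w (s ∪ (t \ s))
  rw [Finset.sum_union Finset.disjoint_sdiff] at h1 h2 h3
  have h4 : ∑ m ∈ t \ s, |u.ap m - w.ap m| ≤ ∑ m ∈ t \ s, |u.ap m| + ∑ m ∈ t \ s, |w.ap m| := by
    rw [← Finset.sum_add_distrib]
    exact Finset.sum_le_sum fun m _ => abs_sub _ _
  linarith

lemma near_orth {K : Type} [NormedAddCommGroup K] [InnerProductSpace ℝ K] (d : ℕ → K) (t : ℕ → ℝ)
    {δ : ℝ} (hδ : 0 ≤ δ) (ht : ∀ n, |t n| ≤ 2) (hd : ∀ i n, i < n → |inner ℝ (d i) (d n)| ≤ δ)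
    (M : ℕ) : |‖∑ n ∈ Finset.range M, t n • d n‖ ^ 2 -
      ∑ n ∈ Finset.range M, t n ^ 2 * ‖d n‖ ^ 2| ≤ 4 * M ^ 2 * δ := by
  induction M with
  | zero => simp
  | succ M ih =>
    rw [Finset.sum_range_succ, Finset.sum_range_succ, norm_add_sq_real, norm_smul, mul_pow,
      Real.norm_eq_abs, sq_abs]
    have h1 : |inner ℝ (∑ n ∈ Finset.range M, t n • d n) (t M • d M)| ≤ 4 * M * δ := by
      rw [sum_inner]
      refine (Finset.abs_sum_le_sum_abs _ _).trans ?_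
      have := Finset.sum_le_card_nsmul (Finset.range M)
        (fun n => |inner ℝ (t n • d n) (t M • d M)|) (4 * δ) fun n hn => by
          rw [real_inner_smul_left, real_inner_smul_right, abs_mul, abs_mul]
          have h1 := hd n M (Finset.mem_range.1 hn)
          have h2 := mul_le_mul (ht M) h1 (abs_nonneg _) zero_le_two
          have h3 := mul_le_mul (ht n) h2 (by positivity) zero_le_two
          linarith
      simp only [Finset.card_range, nsmul_eq_mul] at this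
      linarith
    rw [abs_le] at ih h1 ⊢
    push_cast
    have : (0 : ℝ) ≤ M := Nat.cast_nonneg _
    constructor <;> nlinarith [ih.1, ih.2, h1.1, h1.2]

section main
variable {Z : Type} [NormedAddCommGroup Z] [NormedSpace ℝ Z]
  {K : Type} [NormedAddCommGroup K] [InnerProductSpace ℝ K]
  (P : Z →L[ℝ] L ℕ) (R : Z →L[ℝ] K) {C : ℝ}

lemma dent (h : numIndex Z = 1) (hC : 0 < C) (hZ : ∀ z, ‖z‖ ≤ C * (‖P z‖ + ‖R z‖))
    (φ₀ : StrongDual ℝ Z) (hφ₀ : ‖φ₀‖ = 1) {ε : ℝ} (hε : 0 < ε) :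
    ∃ a, Sp ε a ∧ 1 / 2 ≤ φ₀ a := by
  set τ := ε / (8 * C) with hτ
  have hτ0 : 0 < τ := by positivity
  obtain ⟨φ₁, hb₁, hU₁⟩ := Metric.dense_iff.1 (U_dense_l1 P hτ0) φ₀ (1 / 8) (by norm_num)
  obtain ⟨s, hs⟩ := Set.mem_iUnion.1 hU₁
  set τ' := τ / (s.card + 1) with hτ'
  have hτ'0 : 0 < τ' := by positivity
  have hD : Dense ((⋂ m : ℕ, U {p : Z × Z |
      ‖((apL m).comp P) p.1 - ((apL m).comp P) p.2‖ ≤ τ'}) ∩
      U {p : Z × Z | ‖R p.1 - R p.2‖ ≤ τ}) :=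
    (dense_iInter_of_isOpen (fun _ => U_open _) fun m => U_dense_hilb _ hτ'0).inter_of_isOpen_right
      (U_dense_hilb R hτ0) (U_open _)
  obtain ⟨φ, ⟨hb, hU1⟩, hU2, hU3⟩ := hD.inter_open_nonempty _
    (Metric.isOpen_ball.inter (U_open _)) ⟨φ₁, hb₁, hs⟩
  rw [mem_ball_iff_norm] at hb
  choose η hη hU2' using Set.mem_iInter.1 hU2
  obtain ⟨η₁, hη₁, hU1⟩ := hU1
  obtain ⟨η₃, hη₃, hU3⟩ := hU3
  obtain ⟨θ, hθ, hθ1, hθ2, hθ3, hθ4⟩ : ∃ θ > 0, θ ≤ η₁ ∧ θ ≤ η₃ ∧ θ ≤ 1 / 8 ∧ ∀ m ∈ s, θ ≤ η m := by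
    have e1 : ∀ᶠ θ in 𝓝[>] (0 : ℝ), ∀ m ∈ s, θ ≤ η m :=
      (Finset.eventually_all s).2 fun m _ => nhdsWithin_le_nhds (eventually_le_nhds (hη m))
    have e2 : ∀ c > 0, ∀ᶠ θ in 𝓝[>] (0 : ℝ), θ ≤ c :=
      fun c hc => nhdsWithin_le_nhds (eventually_le_nhds hc)
    have e0 : ∀ᶠ θ in 𝓝[>] (0 : ℝ), 0 < θ := self_mem_nhdsWithin
    obtain ⟨θ, h0, h1⟩ := (e0.and ((e2 _ hη₁).and ((e2 _ hη₃).and
      ((e2 (1 / 8) (by norm_num)).and e1)))).exists
    exact ⟨θ, h0, h1⟩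
  have hn : 7 / 8 ≤ ‖φ‖ := by
    have := norm_sub_norm_le φ₀ φ
    rw [norm_sub_rev] at this
    linarith
  obtain ⟨a, ha, ha2⟩ : ∃ a, ‖a‖ ≤ 1 ∧ ‖φ‖ - θ < φ a := by
    obtain ⟨x, hx, h2⟩ := φ.exists_lt_apply_of_lt_opNorm (r := ‖φ‖ - θ) (by linarith)
    rcases le_total 0 (φ x) with h0 | h0
    · exact ⟨x, hx.le, by rwa [Real.norm_eq_abs, abs_of_nonneg h0] at h2⟩
    · refine ⟨-x, by simpa using hx.le, ?_⟩
      rwa [Real.norm_eq_abs, abs_of_nonpos h0, ← map_neg] at h2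
  refine ⟨a, ?_, ?_⟩
  · have := spear h φ (by rintro rfl; norm_num at hn) a ha hθ (ε := ε / 2) (by positivity)
      fun x hx hx2 => by
        have h1 := hU1 x a hx ha (by linarith) (by linarith)
        have h3 := hU3 x a hx ha (by linarith) (by linarith)
        have h2 := Finset.sum_le_card_nsmul s (fun m => |(P x).ap m - (P a).ap m|) τ'
          fun m hm => hU2' m x a hx ha (by linarith [hθ4 m hm]) (by linarith [hθ4 m hm])
        have h4 : (s.card : ℝ) * τ' ≤ τ := by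
          rw [hτ', mul_div_assoc', div_le_iff₀ (by positivity)]; nlinarith
        have h5 := l1_tri (P x) (P a) s
        have h6 := hZ (x - a)
        simp only [Set.mem_ofPred_eq, nsmul_eq_mul] at h1 h2 h3
        rw [map_sub, map_sub] at h6
        have h7 : C * (4 * τ) = ε / 2 := by rw [hτ]; field_simp; norm_num
        have h8 : ‖P x - P a‖ + ‖R x - R a‖ ≤ 4 * τ := by linarith [h1.1, h1.2]
        nlinarith
    rwa [show 2 * (ε / 2) = ε by ring] at this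
  · have := le_norm (φ - φ₀) ha
    rw [sub_apply] at this
    linarith

lemma pairs (h : numIndex Z = 1) (hC : 0 < C) (hZ : ∀ z, ‖z‖ ≤ C * (‖P z‖ + ‖R z‖))
    (hK : ∀ D : Set Z, D.Countable → ∃ φ : StrongDual ℝ Z, φ ≠ 0 ∧ ∀ z ∈ D, φ z = 0)
    {ε δ : ℝ} (hε : 0 < ε) (hδ : 0 < δ) (n : ℕ) (d : Fin n → K) :
    ∃ a b, Sp ε a ∧ Sp ε b ∧ 1 / 4 ≤ ‖a - b‖ ∧ ‖P a - P b‖ ≤ δ ∧
      ∀ i, |inner ℝ (d i) (R a - R b)| ≤ δ := by
  by_contra hc
  push Not at hc
  set π : Z → L ℕ × (Fin n → ℝ) := fun z => (P z, fun i => inner ℝ (d i) (R z)) with hπ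
  obtain ⟨Q, hQc, hQd⟩ := TopologicalSpace.exists_countable_dense (L ℕ × (Fin n → ℝ))
  have ch : ∀ q : L ℕ × (Fin n → ℝ), ∃ b : Z, ∀ a, Sp ε a → dist (π a) q < δ / 2 →
      Sp ε b ∧ dist (π b) q < δ / 2 := by
    intro q
    by_cases hq : ∃ a, Sp ε a ∧ dist (π a) q < δ / 2
    · obtain ⟨a, ha⟩ := hq; exact ⟨a, fun _ _ _ => ha⟩
    · exact ⟨0, fun a h1 h2 => absurd ⟨a, h1, h2⟩ hq⟩
  choose b hb using ch
  obtain ⟨φ, hφ, hφD⟩ := hK (b '' Q) (hQc.image _)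
  have hφ0 : 0 < ‖φ‖ := norm_pos_iff.2 hφ
  obtain ⟨a, ha, ha2⟩ := dent P R h hC hZ (‖φ‖⁻¹ • φ)
    (by rw [norm_smul, norm_inv, norm_norm, inv_mul_cancel₀ hφ0.ne']) hε
  obtain ⟨q, hq1, hq2⟩ := Metric.dense_iff.1 hQd (π a) (δ / 2) (by positivity)
  rw [Metric.mem_ball'] at hq1
  obtain ⟨hb1, hb2⟩ := hb q a ha hq1
  have h1 : dist (π a) (π (b q)) < δ := by
    have := dist_triangle_right (π a) (π (b q)) q
    linarith
  rw [Prod.dist_eq, max_lt_iff, dist_eq_norm, dist_pi_lt_iff hδ] at h1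
  have h2 : 1 / 4 ≤ ‖a - b q‖ := by
    have h3 := (‖φ‖⁻¹ • φ).le_opNorm (a - b q)
    rw [norm_smul, norm_inv, norm_norm, inv_mul_cancel₀ hφ0.ne', one_mul, map_sub,
      smul_apply _ _ (b q), hφD _ ⟨q, hq2, rfl⟩, smul_zero, sub_zero, Real.norm_eq_abs] at h3
    linarith [le_abs_self ((‖φ‖⁻¹ • φ) a)]
  obtain ⟨i, hi⟩ := hc a (b q) ha hb1 h2 h1.1.le
  have h4 := h1.2 i
  rw [Real.dist_eq] at h4
  rw [inner_sub_right] at hi
  exact absurd h4 (not_lt.2 hi.le)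

lemma seq (h : numIndex Z = 1) (hC : 0 < C) (hZ : ∀ z, ‖z‖ ≤ C * (‖P z‖ + ‖R z‖))
    (hK : ∀ D : Set Z, D.Countable → ∃ φ : StrongDual ℝ Z, φ ≠ 0 ∧ ∀ z ∈ D, φ z = 0)
    {ε δ : ℝ} (hε : 0 < ε) (hδ : 0 < δ) : ∃ a b : ℕ → Z, (∀ n, Sp ε (a n) ∧ Sp ε (b n) ∧
      1 / 4 ≤ ‖a n - b n‖ ∧ ‖P (a n) - P (b n)‖ ≤ δ) ∧
      ∀ i n, i < n → |inner ℝ (R (a i) - R (b i)) (R (a n) - R (b n))| ≤ δ := by
  choose A B hAB using pairs P R h hC hZ hK hε hδ
  let c : ℕ → Z × Z := fun n => Nat.strongRecOn n fun n ih =>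
    (A n fun i => R (ih i i.2).1 - R (ih i i.2).2, B n fun i => R (ih i i.2).1 - R (ih i i.2).2)
  have hc : ∀ n, c n = (A n fun i => R (c i).1 - R (c i).2,
      B n fun i => R (c i).1 - R (c i).2) := fun n => by
    simp only [c]; rw [Nat.strongRecOn_eq]
  refine ⟨fun n => (c n).1, fun n => (c n).2, fun n => ?_, fun i n hi => ?_⟩
  · have := hAB n fun i => R (c i).1 - R (c i).2
    beta_reduce
    rw [hc n]
    exact ⟨this.1, this.2.1, this.2.2.1, this.2.2.2.1⟩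
  · have := (hAB n fun i => R (c i).1 - R (c i).2).2.2.2.2 ⟨i, hi⟩
    beta_reduce
    rw [hc n]
    exact this

theorem index_ne_one (hC : 1 ≤ C) (hZ : ∀ z, ‖z‖ ≤ C * (‖P z‖ + ‖R z‖)) (hR : ∀ z, ‖R z‖ ≤ C * ‖z‖)
    (hK : ∀ D : Set Z, D.Countable → ∃ φ : StrongDual ℝ Z, φ ≠ 0 ∧ ∀ z ∈ D, φ z = 0) :
    numIndex Z ≠ 1 := by
  intro h
  have hC0 : 0 < C := by linarith
  set N : ℝ := 4 * C ^ 4 + 4 * C ^ 2 + 2 * C with hN
  obtain ⟨M, hM⟩ := exists_nat_gt (64 * C ^ 2 * (C ^ 2 * (N + 2) ^ 2 + 1))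
  have hM1 : (1 : ℝ) ≤ M := by
    have : 1 ≤ C ^ 2 := one_le_pow₀ hC
    have : 0 ≤ C ^ 2 * (N + 2) ^ 2 := by positivity
    nlinarith
  set κ : ℝ := 1 / (4 * M) with hκ
  set δ : ℝ := 1 / (8 * C * M ^ 2) with hδ
  have hκ0 : 0 < κ := by positivity
  have hδ0 : 0 < δ := by positivity
  have hκ1 : M * κ = 1 / 4 := by rw [hκ]; field_simp
  have hκ2 : κ ≤ 1 / 4 := by nlinarith
  have hδ1 : C * (M ^ 2 * δ) = 1 / 8 := by rw [hδ]; field_simp
  have hδ2 : M ^ 2 * δ ≤ 1 / 8 := by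
    have : 0 ≤ (M : ℝ) ^ 2 * δ := by positivity
    nlinarith
  have hδ3 : M * δ ≤ 1 / 8 := by
    have : 0 ≤ (M : ℝ) * δ := by positivity
    nlinarith
  have hδ4 : C * δ ≤ 1 / 8 := by
    have : 1 ≤ (M : ℝ) ^ 2 := one_le_pow₀ hM1
    have : 0 ≤ C * δ := by positivity
    nlinarith
  obtain ⟨a, b, hab, ho⟩ := seq P R h hC0 hZ hK (ε := κ / (2 * M)) (by positivity) hδ0
  set y := ∑ n ∈ Finset.range M, (a n - b n) with hy
  obtain ⟨f, hf, hf1, hf2⟩ := simul ((Finset.range M).disjSum (Finset.range M)) (Sum.elim a b)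
    (ε := κ / (2 * M)) (by rintro (i | i) _; exacts [(hab i).1, (hab i).2.1]) y
  have e : (((Finset.range M).disjSum (Finset.range M)).card : ℝ) * (κ / (2 * M)) = κ := by
    rw [Finset.card_disjSum, Finset.card_range]; push_cast; field_simp; norm_num
  rw [e] at hf1 hf2
  have b0 : ∀ z, |f z| ≤ ‖z‖ := fun z =>
    (f.le_opNorm z).trans (mul_le_of_le_one_left (norm_nonneg _) hf)
  set t : ℕ → ℝ := fun n => f (a n - b n) with ht
  have nab : ∀ n, ‖a n - b n‖ ≤ 2 := fun n => by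
    linarith [norm_sub_le (a n) (b n), (hab n).1.1, (hab n).2.1.1]
  have t2 : ∀ n, |t n| ≤ 2 := fun n => (b0 _).trans (nab n)
  have t3 : ∀ n ∈ Finset.range M, t n ≤ κ + t n ^ 2 := by
    intro n hn
    have h1 : 1 - κ ≤ |f (a n)| := hf2 (Sum.inl n) (by simpa using hn)
    have h2 : 1 - κ ≤ |f (b n)| := hf2 (Sum.inr n) (by simpa using hn)
    have h3 := (b0 _).trans (hab n).1.1
    have h4 := (b0 _).trans (hab n).2.1.1
    have h5 : t n = f (a n) - f (b n) := map_sub _ _ _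
    rcases abs_cases (f (a n)) with h6 | h6 <;> rcases abs_cases (f (b n)) with h7 | h7 <;>
      nlinarith [sq_nonneg (t n)]
  set d : ℕ → K := fun n => R (a n) - R (b n) with hd
  have d1 : ∀ n, ‖d n‖ ≤ 2 * C := fun n => by
    have := hR (a n - b n)
    rw [map_sub] at this
    nlinarith [nab n]
  have d2 : ∀ n, 1 / 8 ≤ C * ‖d n‖ := fun n => by
    have := hZ (a n - b n)
    rw [map_sub, map_sub] at this
    have h2 := mul_le_mul_of_nonneg_left (hab n).2.2.2 hC0.le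
    have h3 := (hab n).2.2.1
    simp only [hd]
    linarith
  set T := ∑ n ∈ Finset.range M, t n ^ 2 with hT
  have T0 : 0 ≤ T := Finset.sum_nonneg fun _ _ => sq_nonneg _
  have T1 : T ≤ N := by
    set w := ∑ n ∈ Finset.range M, t n • (a n - b n) with hw
    have h1 : f w = T := by simp only [hw, hT, map_sum, map_smul, smul_eq_mul, sq]; rfl
    have h2 : ‖P w‖ ≤ 1 := by
      rw [hw, map_sum]
      refine (norm_sum_le _ _).trans ?_
      have := Finset.sum_le_card_nsmul (Finset.range M) (fun n => ‖P (t n • (a n - b n))‖)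
        (2 * δ) fun n _ => by
          rw [map_smul, map_sub, norm_smul]
          exact mul_le_mul (t2 n) (hab n).2.2.2 (norm_nonneg _) zero_le_two
      simp only [Finset.card_range, nsmul_eq_mul] at this
      linarith
    have h3 : R w = ∑ n ∈ Finset.range M, t n • d n := by
      simp only [hw, hd, map_sum, map_smul, map_sub]
    have h4 := (abs_le.1 (near_orth d t hδ0.le t2 ho M)).2
    have h5 : ∑ n ∈ Finset.range M, t n ^ 2 * ‖d n‖ ^ 2 ≤ T * (2 * C) ^ 2 := by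
      rw [hT, Finset.sum_mul]
      exact Finset.sum_le_sum fun n _ => by have := d1 n; gcongr
    rw [← h3] at h4
    have h6 := hZ w
    have h7 := (le_abs_self _).trans (b0 w)
    set r := ‖R w‖
    have r0 : 0 ≤ r := norm_nonneg _
    have h8 : T ≤ C * (1 + r) := by nlinarith
    have h9 : r ^ 2 ≤ 4 * C ^ 2 * T + 1 := by nlinarith
    have h10 : r ≤ 4 * C ^ 3 + 4 * C + 1 := by
      by_contra hc
      push Not at hc
      have h11 : r ^ 2 ≤ 4 * C ^ 3 * (1 + r) + 1 := by nlinarith [sq_nonneg C]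
      have h12 : 0 ≤ C ^ 3 := by positivity
      nlinarith
    rw [hN]; nlinarith
  have y1 : ‖y‖ ≤ N + 2 := by
    have h1 : f y = ∑ n ∈ Finset.range M, t n := by rw [hy, map_sum]
    have h2 := Finset.sum_le_sum t3
    rw [Finset.sum_add_distrib, Finset.sum_const, Finset.card_range, nsmul_eq_mul] at h2
    linarith
  have y2 : R y = ∑ n ∈ Finset.range M, (1 : ℝ) • d n := by
    simp only [hy, hd, map_sum, map_sub, one_smul]
  have h4 := (abs_le.1 (near_orth d (fun _ => 1) hδ0.le (by simp) ho M)).1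
  rw [← y2] at h4
  have h5 := Finset.card_nsmul_le_sum (Finset.range M) (fun n => (1 : ℝ) ^ 2 * ‖d n‖ ^ 2)
    (1 / (64 * C ^ 2)) fun n _ => by
      rw [div_le_iff₀ (by positivity)]
      nlinarith [d2 n]
  rw [Finset.card_range, nsmul_eq_mul, mul_one_div, div_le_iff₀ (by positivity)] at h5
  have h6 : ‖R y‖ ≤ C * (N + 2) := (hR y).trans (by gcongr)
  have h7 : ‖R y‖ ^ 2 ≤ C ^ 2 * (N + 2) ^ 2 := by rw [← mul_pow]; gcongr
  have h8 : ∑ n ∈ Finset.range M, (1 : ℝ) ^ 2 * ‖d n‖ ^ 2 ≤ C ^ 2 * (N + 2) ^ 2 + 1 := by linarith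
  have h9 := mul_le_mul_of_nonneg_right h8 (show 0 ≤ 64 * C ^ 2 by positivity)
  linarith

end main

lemma index_l1 : numIndex (L ℕ) = 1 := by
  have key : ∀ T : L ℕ →L[ℝ] L ℕ, ‖T‖ = 1 → numRadius T = 1 := by
    intro T hT
    refine le_antisymm ((rad_le T).trans hT.le) ?_
    have h1 : ∀ n, ‖T (dl n)‖ ≤ numRadius T := by
      intro n
      set u := T (dl n)
      set sg : ℝ → ℝ := fun x => if 0 ≤ x then 1 else -1 with hsg
      have s1 : ∀ x, |sg x| = 1 := fun x => by simp only [hsg]; split_ifs <;> simp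
      have s2 : ∀ x, x * sg x = |x| := fun x => by
        simp only [hsg]; split_ifs with h
        · simp [abs_of_nonneg h]
        · simp [abs_of_neg (not_le.1 h)]
      have s3 : ∀ m, ‖sg (u.ap n) * sg (u.ap m)‖ ≤ 1 := fun m => by
        rw [Real.norm_eq_abs, abs_mul, s1, s1, one_mul]
      set f : StrongDual ℝ (L ℕ) := lift (fun m => sg (u.ap n) * sg (u.ap m)) 1 s3 with hf
      have f1 : f (dl n) = 1 := by
        rw [hf, lift_dl, ← sq, ← sq_abs, s1, one_pow]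
      have f2 : ‖f‖ = 1 := le_antisymm (norm_lift_le _ _ zero_le_one _) (by
        have := f.le_opNorm (dl n)
        rwa [f1, norm_dl, norm_one, mul_one] at this)
      have f3 : f u = sg (u.ap n) * ‖u‖ := by
        have h1 := (hasSum_dl u).mapL f
        have h2 := (hasSum_norm u).mul_left (sg (u.ap n))
        have h3 : (fun b => f (u.ap b • dl b)) = fun i => sg (u.ap n) * ‖u.ap i‖ := by
          funext m
          rw [map_smul, hf, lift_dl, smul_eq_mul, Real.norm_eq_abs, ← s2]; ring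
        rw [h3] at h1
        exact h1.unique h2
      refine le_csSup ⟨_, bdd T⟩ ⟨dl n, f, norm_dl n, f2, f1, ?_⟩
      rw [f3, abs_mul, s1, one_mul, abs_norm]
    have h2 : T = lift (fun n => T (dl n)) _ h1 := clm_ext fun m => by rw [lift_dl]
    rw [← hT]
    conv_lhs => rw [h2]
    exact norm_lift_le _ _ (rad_nonneg T) _
  have : {r : ℝ | ∃ T : L ℕ →L[ℝ] L ℕ, ‖T‖ = 1 ∧ r = numRadius T} = {1} := by
    ext r
    constructor
    · rintro ⟨T, hT, rfl⟩; exact key T hT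
    · rintro rfl
      have : Nontrivial (L ℕ) := ⟨dl 0, 0, by
        intro h; have := norm_dl (M := ℕ) 0; rw [h] at this; simp at this⟩
      exact ⟨ContinuousLinearMap.id ℝ _, ContinuousLinearMap.norm_id,
        (key _ ContinuousLinearMap.norm_id).symm⟩
  rw [numIndex, this, csInf_singleton]

/-- Hilbert space over an uncountable index set -/
def H : Type := lp (fun _ : ℝ => ℝ) 2
noncomputable instance : NormedAddCommGroup H :=
  inferInstanceAs (NormedAddCommGroup (lp (fun _ : ℝ => ℝ) 2))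
noncomputable instance : InnerProductSpace ℝ H :=
  inferInstanceAs (InnerProductSpace ℝ (lp (fun _ : ℝ => ℝ) 2))
instance : CompleteSpace H := inferInstanceAs (CompleteSpace (lp (fun _ : ℝ => ℝ) 2))

def H.v (z : H) : lp (fun _ : ℝ => ℝ) 2 := z

lemma H_orth (D : Set H) (hD : D.Countable) : ∃ v : H, v ≠ 0 ∧ ∀ z ∈ D, inner ℝ v z = 0 := by
  classical
  have h1 : ∀ z : lp (fun _ : ℝ => ℝ) 2, (Function.support fun i => z i).Countable := by
    intro z
    have := (lp.memℓp z).summable (by simp)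
    refine this.countable_support.mono fun i hi => ?_
    simpa using hi
  have h2 : (⋃ z ∈ D, Function.support fun i => z.v i).Countable :=
    hD.biUnion fun z _ => h1 z.v
  obtain ⟨γ, hγ⟩ : ∃ γ, γ ∉ ⋃ z ∈ D, Function.support
      fun i => z.v i := by
    by_contra hc
    push Not at hc
    exact Set.not_countable_univ (h2.mono fun x _ => hc x)
  refine ⟨(lp.single 2 γ (1 : ℝ) : lp (fun _ : ℝ => ℝ) 2), fun h => ?_, fun z hz => ?_⟩
  · have : ‖(lp.single 2 γ (1 : ℝ) : lp (fun _ : ℝ => ℝ) 2)‖ = 0 := norm_eq_zero.2 h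
    rw [lp.norm_single (by simp)] at this
    simp at this
  · have h3 := lp.inner_single_left (𝕜 := ℝ) γ (1 : ℝ) z.v
    have h4 : z.v γ = 0 := by
      by_contra hc
      exact hγ (Set.mem_biUnion hz hc)
    rw [h4, inner_zero_right] at h3
    exact h3

theorem not_renorm : ¬ RenormIndexOne (L ℕ × H) := by
  rintro ⟨Z, _, _, ⟨e⟩, h⟩
  set e' : Z →L[ℝ] L ℕ × H := (e.symm : Z →L[ℝ] L ℕ × H) with he'
  set e'' : L ℕ × H →L[ℝ] Z := (e : L ℕ × H →L[ℝ] Z) with he''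
  refine index_ne_one ((ContinuousLinearMap.fst ℝ _ _).comp e') ((ContinuousLinearMap.snd ℝ _ _).comp e')
    (C := 1 + ‖e'‖ + ‖e''‖) (by linarith [norm_nonneg e', norm_nonneg e'']) (fun z => ?_)
    (fun z => ?_) (fun D hD => ?_) h
  · have h1 := e''.le_opNorm (e' z)
    have h2 : e'' (e' z) = z := e.apply_symm_apply z
    have h3 : ‖e' z‖ ≤ ‖(e' z).1‖ + ‖(e' z).2‖ := by
      rw [Prod.norm_def]
      exact max_le (le_add_of_nonneg_right (norm_nonneg _)) (le_add_of_nonneg_left (norm_nonneg _))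
    rw [h2] at h1
    show ‖z‖ ≤ _ * (‖(e' z).1‖ + ‖(e' z).2‖)
    refine h1.trans (mul_le_mul (by linarith [norm_nonneg e']) h3 (norm_nonneg _) (by positivity))
  · show ‖(e' z).2‖ ≤ _
    exact (norm_snd_le _).trans ((e'.le_opNorm z).trans
      (mul_le_mul_of_nonneg_right (by linarith [norm_nonneg e'']) (norm_nonneg _)))
  · obtain ⟨v, hv, hv2⟩ := H_orth ((fun z => (e' z).2) '' D) (hD.image _)
    refine ⟨(innerSL ℝ v).comp ((ContinuousLinearMap.snd ℝ _ _).comp e'), fun h0 => ?_,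
      fun z hz => hv2 _ ⟨z, hz, rfl⟩⟩
    have h1 := congrArg (fun φ : StrongDual ℝ Z => φ (e (0, v))) h0
    simp [he'] at h1
    exact hv h1

end Pool.Agent.H87.NI
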