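import Mathlib

namespace Pool.Agent.H87.PiBase

open Filter Topology

variable {X : Type} [NormedAddCommGroup X] [NormedSpace ℝ X] {I : Type}

def Unc (e : I → X) : Prop :=
  ∀ (s : Finset I) (a ε : I → ℝ), (∀ n, ε n = 1 ∨ ε n = -1) →
    ‖∑ n ∈ s, (ε n * a n) • e n‖ ≤ ‖∑ n ∈ s, a n • e n‖

lemma glue [DecidableEq I] (e : I → X) {s t : Finset I} (h : Disjoint s t) (c b : I → ℝ) :
    ∑ n ∈ s ∪ t, (if n ∈ s then c n else b n) • e n =
      ∑ n ∈ s, c n • e n + ∑ n ∈ t, b n • e n := by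
  rw [Finset.sum_union h]
  congr 1
  · exact Finset.sum_congr rfl fun n hn => by simp [hn]
  · exact Finset.sum_congr rfl fun n hn => by simp [Finset.disjoint_right.1 h hn]

lemma sign_tail [DecidableEq I] {e : I → X} (hu : Unc e) {s t : Finset I} (h : Disjoint s t)
    (c b : I → ℝ) (σ : ℝ) (hσ : σ = 1 ∨ σ = -1) :
    ‖∑ n ∈ s, c n • e n + σ • ∑ n ∈ t, b n • e n‖ ≤
      ‖∑ n ∈ s, c n • e n + ∑ n ∈ t, b n • e n‖ := by
  have := hu (s ∪ t) (fun n => if n ∈ s then c n else b n) (fun n => if n ∈ s then 1 else σ)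
    (fun n => by by_cases hn : n ∈ s <;> simp [hn, hσ])
  rw [glue e h] at this
  refine le_trans (le_of_eq ?_) this
  congr 1
  rw [Finset.smul_sum]
  simp only [smul_smul]
  rw [← glue e h]
  exact Finset.sum_congr rfl fun n _ => by by_cases hn : n ∈ s <;> simp [hn]

lemma greedy [DecidableEq I] {e : I → X} (hu : Unc e) {J : Type} (F : Finset J)
    (f : J → X →L[ℝ] ℝ) (η : ℝ) (hη : 0 < η) (s₀ : Finset I) (c₀ : I → ℝ)
    (h₀ : ‖∑ n ∈ s₀, c₀ n • e n‖ < 1) :
    ∃ (s : Finset I) (c : I → ℝ), ‖∑ n ∈ s, c n • e n‖ < 1 ∧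
      (∀ i ∈ F, |f i (∑ n ∈ s, c n • e n - ∑ n ∈ s₀, c₀ n • e n)| ≤ η) ∧
      ∀ (t : Finset I) (b : I → ℝ), Disjoint s t →
        ‖∑ n ∈ s, c n • e n + ∑ n ∈ t, b n • e n‖ < 1 + (1 - ‖∑ n ∈ s, c n • e n‖) / 4 →
        ∀ i ∈ F, |f i (∑ n ∈ t, b n • e n)| ≤ η := by
  by_contra hcon
  push Not at hcon
  set y₀ := ∑ n ∈ s₀, c₀ n • e n with hy₀
  obtain ⟨C, hC1, hC⟩ : ∃ C : ℝ, 1 ≤ C ∧ ∀ i ∈ F, ‖f i‖ ≤ C := by
    refine ⟨1 + ∑ i ∈ F, ‖f i‖, ?_, fun i hi => ?_⟩
    · have : 0 ≤ ∑ i ∈ F, ‖f i‖ := Finset.sum_nonneg fun _ _ => norm_nonneg _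
      linarith
    · have := Finset.single_le_sum (f := fun i => ‖f i‖) (fun _ _ => norm_nonneg _) hi
      linarith
  have hfC : ∀ i ∈ F, ∀ x, |f i x| ≤ C * ‖x‖ := fun i hi x =>
    ((f i).le_opNorm x).trans (mul_le_mul_of_nonneg_right (hC i hi) (norm_nonneg _))
  set m : ℝ := (F.card : ℝ) with hm
  have hm0 : 0 ≤ m := by positivity
  obtain ⟨δ, hδ0, hδ1, hδ2⟩ : ∃ δ : ℝ, 0 < δ ∧ δ ≤ 1 / 2 ∧ 3 * C * δ * (2 * C * m) ≤ η ^ 2 := by
    refine ⟨min (1 / 2) (η ^ 2 / (6 * C * C * (m + 1))), by positivity, min_le_left _ _, ?_⟩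
    have h1 : min (1 / 2) (η ^ 2 / (6 * C * C * (m + 1))) ≤ η ^ 2 / (6 * C * C * (m + 1)) :=
      min_le_right _ _
    rw [le_div_iff₀ (by positivity)] at h1
    have h2 : 0 < min (1 / 2) (η ^ 2 / (6 * C * C * (m + 1))) := by positivity
    nlinarith [mul_pos h2 (mul_pos (show (0:ℝ) < C by linarith) (show (0:ℝ) < C by linarith))]
  have key : ∀ j : ℕ, ∃ (s : Finset I) (c : I → ℝ) (S : J → ℝ), ‖∑ n ∈ s, c n • e n‖ < 1 ∧
      ∑ i ∈ F, (f i (∑ n ∈ s, c n • e n - y₀)) ^ 2 ≤ 3 * C * δ * ∑ i ∈ F, S i ∧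
      j * δ * η ≤ ∑ i ∈ F, S i ∧ (∑ i ∈ F, S i ≤ 2 * C * m) ∧
      ∀ i ∈ F, ∃ ε : I → ℝ, (∀ n, ε n = 1 ∨ ε n = -1) ∧
        S i - C ≤ f i (∑ n ∈ s, (ε n * c n) • e n) := by
    have bd : ∀ (s : Finset I) (c : I → ℝ) (S : J → ℝ), ‖∑ n ∈ s, c n • e n‖ < 1 →
        (∀ i ∈ F, ∃ ε : I → ℝ, (∀ n, ε n = 1 ∨ ε n = -1) ∧
          S i - C ≤ f i (∑ n ∈ s, (ε n * c n) • e n)) → ∑ i ∈ F, S i ≤ 2 * C * m := by
      intro s c S h1 h2
      have : ∀ i ∈ F, S i ≤ 2 * C := by
        intro i hi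
        obtain ⟨ε, hε, h3⟩ := h2 i hi
        have h4 := hu s c ε hε
        have h5 := (le_abs_self _).trans (hfC i hi (∑ n ∈ s, (ε n * c n) • e n))
        nlinarith
      calc ∑ i ∈ F, S i ≤ ∑ i ∈ F, 2 * C := Finset.sum_le_sum this
        _ = 2 * C * m := by simp [hm]; ring
    intro j
    induction j with
    | zero =>
      have h5 : ∀ i ∈ F, ∃ ε : I → ℝ, (∀ n, ε n = 1 ∨ ε n = -1) ∧
          (fun _ => (0:ℝ)) i - C ≤ f i (∑ n ∈ s₀, (ε n * c₀ n) • e n) := by
        intro i hi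
        refine ⟨fun _ => 1, fun _ => Or.inl rfl, ?_⟩
        simp only [one_mul, ← hy₀]
        have h5 := (neg_le_abs _).trans (hfC i hi y₀)
        nlinarith
      exact ⟨s₀, c₀, fun _ => 0, h₀, by simp [← hy₀], by simp, bd _ _ _ h₀ h5, h5⟩
    | succ j ih =>
      obtain ⟨s, c, S, h1, h2, h3, h4, h5⟩ := ih
      set y := ∑ n ∈ s, c n • e n with hy
      have hdr : ∀ i ∈ F, |f i (y - y₀)| ≤ η := by
        intro i hi
        have h6 := Finset.single_le_sum (f := fun i => (f i (y - y₀)) ^ 2)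
          (fun _ _ => sq_nonneg _) hi
        have h7 : 3 * C * δ * ∑ i ∈ F, S i ≤ 3 * C * δ * (2 * C * m) :=
          mul_le_mul_of_nonneg_left h4 (by positivity)
        exact abs_le_of_sq_le_sq' (by linarith) hη.le |> fun h => abs_le.2 h
      obtain ⟨t, b, hst, hz, i₀, hi₀, hbig⟩ := hcon s c h1 hdr
      rw [← hy] at hz
      set z := ∑ n ∈ t, b n • e n with hzdef
      have hzn : ‖z‖ ≤ 3 := by
        have : ‖z‖ ≤ ‖y + z‖ + ‖y‖ := by
          calc ‖z‖ = ‖(y + z) - y‖ := by congr 1; abel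
            _ ≤ _ := norm_sub_le _ _
        have := norm_nonneg y
        linarith
      obtain ⟨σ, hσ, hσ2⟩ : ∃ σ : ℝ, (σ = 1 ∨ σ = -1) ∧
          σ * ∑ i ∈ F, f i (y - y₀) * f i z ≤ 0 := by
        by_cases h : ∑ i ∈ F, f i (y - y₀) * f i z ≤ 0
        · exact ⟨1, Or.inl rfl, by linarith⟩
        · exact ⟨-1, Or.inr rfl, by linarith⟩
      have hσσ : σ * σ = 1 := by rcases hσ with h | h <;> rw [h] <;> norm_num
      have hy' : ∑ n ∈ s ∪ t, (if n ∈ s then c n else σ * δ * b n) • e n = y + (σ * δ) • z := by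
        rw [glue e hst, hzdef, Finset.smul_sum]; simp only [smul_smul, hy]
      have hn' : ‖y + (σ * δ) • z‖ < 1 := by
        have h6 : ‖y + σ • z‖ ≤ ‖y + z‖ := sign_tail hu hst c b σ hσ
        have h7 : y + (σ * δ) • z = (1 - δ) • y + δ • (y + σ • z) := by
          rw [smul_add, smul_smul, sub_smul, one_smul, mul_comm δ σ]; abel
        have h8 : ‖y + (σ * δ) • z‖ ≤ (1 - δ) * ‖y‖ + δ * ‖y + σ • z‖ := by
          rw [h7]
          refine (norm_add_le _ _).trans (le_of_eq ?_)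
          rw [norm_smul, norm_smul, Real.norm_of_nonneg (by linarith), Real.norm_of_nonneg hδ0.le]
        have h9 : δ * ‖y + σ • z‖ ≤ δ * (1 + (1 - ‖y‖) / 4) :=
          mul_le_mul_of_nonneg_left (by linarith) hδ0.le
        nlinarith
      have h5' : ∀ i ∈ F, ∃ ε : I → ℝ, (∀ n, ε n = 1 ∨ ε n = -1) ∧
          (S i + δ * |f i z|) - C ≤
            f i (∑ n ∈ s ∪ t, (ε n * (if n ∈ s then c n else σ * δ * b n)) • e n) := by
        intro i hi
        obtain ⟨ε, hε, h6⟩ := h5 i hi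
        obtain ⟨τ, hτ, hτ2⟩ : ∃ τ : ℝ, (τ = 1 ∨ τ = -1) ∧ τ * σ * f i z = |f i z| := by
          by_cases h : 0 ≤ f i z
          · exact ⟨σ, hσ, by rw [hσσ, abs_of_nonneg h, one_mul]⟩
          · refine ⟨-σ, by rcases hσ with h | h <;> simp [h], ?_⟩
            rw [neg_mul, hσσ, abs_of_neg (not_le.1 h)]; ring
        refine ⟨fun n => if n ∈ s then ε n else τ, fun n => ?_, ?_⟩
        · by_cases hn : n ∈ s <;> simp [hn, hε n, hτ]
        · have : ∑ n ∈ s ∪ t, ((if n ∈ s then ε n else τ) *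
              (if n ∈ s then c n else σ * δ * b n)) • e n =
              ∑ n ∈ s, (ε n * c n) • e n + (τ * σ * δ) • z := by
            rw [hzdef, Finset.smul_sum]; simp only [smul_smul]
            rw [← glue e hst]
            refine Finset.sum_congr rfl fun n _ => ?_
            by_cases hn : n ∈ s
            · simp [hn]
            · simp only [hn, if_false]; congr 1; ring
          rw [this, map_add, map_smul, smul_eq_mul]
          have : τ * σ * δ * f i z = δ * |f i z| := by rw [← hτ2]; ring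
          linarith
      refine ⟨s ∪ t, fun n => if n ∈ s then c n else σ * δ * b n, fun i => S i + δ * |f i z|,
        by rw [hy']; exact hn', ?_, ?_, bd _ _ _ (by rw [hy']; exact hn') h5', h5'⟩
      · rw [hy']
        have h6 : ∀ i ∈ F, (f i (y + (σ * δ) • z - y₀)) ^ 2 ≤
            (f i (y - y₀)) ^ 2 + 2 * δ * (σ * (f i (y - y₀) * f i z)) +
              3 * C * δ * (δ * |f i z|) := by
          intro i hi
          have h7 : f i (y + (σ * δ) • z - y₀) = f i (y - y₀) + σ * δ * f i z := by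
            rw [show y + (σ * δ) • z - y₀ = (y - y₀) + (σ * δ) • z by abel, map_add, map_smul,
              smul_eq_mul]
          have h8 : |f i z| ≤ 3 * C := by
            have := hfC i hi z
            nlinarith
          have h9 : (f i z) ^ 2 ≤ 3 * C * |f i z| := by
            rw [← sq_abs, sq]; exact mul_le_mul_of_nonneg_right h8 (abs_nonneg _)
          have h10 : (f i (y - y₀) + σ * δ * f i z) ^ 2 = (f i (y - y₀)) ^ 2 +
              2 * δ * (σ * (f i (y - y₀) * f i z)) + (σ * σ) * (δ * δ * (f i z) ^ 2) := by ring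
          rw [h7, h10, hσσ]
          have := mul_le_mul_of_nonneg_left h9 (mul_pos hδ0 hδ0).le
          nlinarith
        refine (Finset.sum_le_sum h6).trans ?_
        simp only [Finset.sum_add_distrib, ← Finset.mul_sum]
        nlinarith
      · simp only [Finset.sum_add_distrib, ← Finset.mul_sum]
        have h6 := Finset.single_le_sum (f := fun i => |f i z|) (fun _ _ => abs_nonneg _) hi₀
        push_cast
        nlinarith
  obtain ⟨j, hj⟩ := exists_nat_gt (2 * C * m / (δ * η))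
  obtain ⟨s, c, S, -, -, h3, h4, -⟩ := key j
  rw [div_lt_iff₀ (by positivity)] at hj
  nlinarith

theorem main [Countable I] {e : I → X} (hu : Unc e) (φ : I → X →L[ℝ] ℝ)
    (hφ : ∀ x, HasSum (fun n => φ n x • e n) x)
    (hbi : ∀ (s : Finset I) (c : I → ℝ), ∀ n ∈ s, φ n (∑ k ∈ s, c k • e k) = c n) :
      ∃ U : ℕ → Set (WeakSpace ℝ X),
        (∀ n, IsOpen (U n) ∧
            (U n ∩ (toWeakSpace ℝ X) '' Metric.closedBall (0 : X) 1).Nonempty) ∧
        ∀ V : Set (WeakSpace ℝ X), IsOpen V →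
          (V ∩ (toWeakSpace ℝ X) '' Metric.closedBall (0 : X) 1).Nonempty →
            ∃ n, U n ∩ (toWeakSpace ℝ X) '' Metric.closedBall (0 : X) 1 ⊆ V := by
  classical
  have hsep : TopologicalSpace.SeparableSpace X := by
    have h1 : TopologicalSpace.IsSeparable (Submodule.span ℝ (Set.range e) : Set X) :=
      (Set.countable_range e).isSeparable.span
    have h2 : Dense (Submodule.span ℝ (Set.range e) : Set X) := fun v =>
      mem_closure_of_tendsto (hφ v) (Eventually.of_forall fun s =>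
        Submodule.sum_mem _ fun q _ => Submodule.smul_mem _ _ (Submodule.subset_span ⟨q, rfl⟩))
    exact h2.isSeparable_iff.1 h1
  let d := TopologicalSpace.denseSeq X
  let P : Finset I → WeakSpace ℝ X → X := fun s x =>
    ∑ n ∈ s, φ n ((toWeakSpace ℝ X).symm x) • e n
  have hev : ∀ g : X →L[ℝ] ℝ, Continuous fun x : WeakSpace ℝ X => g ((toWeakSpace ℝ X).symm x) :=
    fun g => WeakBilin.eval_continuous (topDualPairing ℝ X).flip g
  have hP : ∀ s, Continuous (P s) := fun s =>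
    continuous_finsetSum _ fun n _ => (hev (φ n)).smul continuous_const
  let W : Finset I × ℕ × ℕ → Set (WeakSpace ℝ X) := fun q =>
    {x | ‖P q.1 x - d q.2.1‖ < 1 / ((q.2.2 : ℝ) + 1)}
  have hW : ∀ q, IsOpen (W q) := fun q =>
    isOpen_lt ((hP _).sub continuous_const).norm continuous_const
  set B := (toWeakSpace ℝ X) '' Metric.closedBall (0 : X) 1 with hB
  obtain ⟨g, hg⟩ := exists_surjective_nat (Finset I × ℕ × ℕ)
  refine ⟨fun n => if (W (g n) ∩ B).Nonempty then W (g n) else Set.univ, fun n => ?_, ?_⟩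
  · by_cases h : (W (g n) ∩ B).Nonempty
    · simp only [h, if_true]; exact ⟨hW _, trivial⟩
    · simp only [h, if_false]
      exact ⟨isOpen_univ, toWeakSpace ℝ X 0, trivial, 0, by simp, rfl⟩
  rintro V hV ⟨_, hx₀V, x₀, hx₀, rfl⟩
  suffices h : ∃ q, (W q ∩ B).Nonempty ∧ W q ∩ B ⊆ V by
    obtain ⟨q, h1, h2⟩ := h
    obtain ⟨n, rfl⟩ := hg q
    exact ⟨n, by simp only [h1, if_true]; exact h2⟩
  obtain ⟨F, ε, hε, hF⟩ : ∃ (F : Finset (X →L[ℝ] ℝ)) (ε : ℝ), 0 < ε ∧
      ∀ x : X, (∀ i ∈ F, |i x - i x₀| < ε) → toWeakSpace ℝ X x ∈ V := by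
    obtain ⟨O, hO, rfl⟩ := isOpen_induced_iff.1 hV
    obtain ⟨F, u, hu1, hu2⟩ := isOpen_pi_iff.1 hO _ hx₀V
    have h1 : ∀ i ∈ F, ∀ᶠ r in 𝓝[>] (0:ℝ), Metric.ball (i x₀) r ⊆ u i := by
      intro i hi
      obtain ⟨r, hr, h⟩ := Metric.isOpen_iff.1 (hu1 i hi).1 _ (hu1 i hi).2
      filter_upwards [Ioo_mem_nhdsGT hr] with t ht
      exact (Metric.ball_subset_ball ht.2.le).trans h
    obtain ⟨r, hr1, hr2⟩ := (((eventually_all_finset F).2 h1).and self_mem_nhdsWithin).exists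
    refine ⟨F, r, hr2, fun x hx => hu2 fun i hi => hr1 i hi ?_⟩
    exact (by simpa [Real.dist_eq] using hx i hi : i x ∈ Metric.ball (i x₀) r)
  have hx1 : ‖x₀‖ ≤ 1 := by simpa using hx₀
  -- a finitely supported starting point in the open ball
  obtain ⟨s₀, c₀, h₀, h₀'⟩ : ∃ (s₀ : Finset I) (c₀ : I → ℝ), ‖∑ n ∈ s₀, c₀ n • e n‖ < 1 ∧
      ∀ i ∈ F, |i (∑ n ∈ s₀, c₀ n • e n) - i x₀| < ε / 4 := by
    have hO : IsOpen {y : X | ∀ i ∈ F, |i y - i x₀| < ε / 4} := by
      have : {y : X | ∀ i ∈ F, |i y - i x₀| < ε / 4} = ⋂ i ∈ F, {y | |i y - i x₀| < ε / 4} := by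
        ext y; simp
      rw [this]
      exact isOpen_biInter_finset fun i _ =>
        isOpen_lt (i.continuous.sub continuous_const).abs continuous_const
    have hcl : x₀ ∈ closure (Metric.ball (0 : X) 1) := by
      rw [closure_ball _ one_ne_zero]; exact hx₀
    obtain ⟨x₁, h1, h2⟩ := mem_closure_iff.1 hcl _ hO (fun i _ => by simpa using by linarith)
    obtain ⟨s, hs⟩ := ((hφ x₁).eventually ((hO.inter Metric.isOpen_ball).mem_nhds ⟨h1, h2⟩)).exists
    exact ⟨s, fun n => φ n x₁, by simpa using hs.2, hs.1⟩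
  obtain ⟨s, c, h1, h2, h3⟩ := greedy hu F (fun i => i) (ε / 4) (by linarith) s₀ c₀ h₀
  set y := ∑ n ∈ s, c n • e n with hy
  obtain ⟨ρ, hρ, hρ1, hρ2⟩ : ∃ ρ : ℝ, 0 < ρ ∧ ρ ≤ (1 - ‖y‖) / 4 ∧
      ∀ v : X, ‖v‖ < ρ → ∀ i ∈ F, |i v| < ε / 4 := by
    have hO : IsOpen {v : X | ∀ i ∈ F, |i v| < ε / 4} := by
      have : {v : X | ∀ i ∈ F, |i v| < ε / 4} = ⋂ i ∈ F, {v | |i v| < ε / 4} := by
        ext y; simp
      rw [this]
      exact isOpen_biInter_finset fun i _ => isOpen_lt i.continuous.abs continuous_const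
    obtain ⟨r, hr, h⟩ := Metric.isOpen_iff.1 hO 0 (fun i _ => by simpa using by linarith)
    refine ⟨min r ((1 - ‖y‖) / 4), lt_min hr (by linarith), min_le_right _ _, fun v hv => h ?_⟩
    simpa using hv.trans_le (min_le_left _ _)
  obtain ⟨r, hr⟩ := exists_nat_one_div_lt (half_pos hρ)
  obtain ⟨k, hk⟩ := (TopologicalSpace.denseRange_denseSeq X).exists_dist_lt y
    (show (0:ℝ) < 1 / ((r : ℝ) + 1) by positivity)
  rw [dist_eq_norm] at hk
  refine ⟨(s, k, r), ⟨toWeakSpace ℝ X y, ?_, y, by simpa using h1.le, rfl⟩, ?_⟩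
  · have : P s (toWeakSpace ℝ X y) = y := by
      refine Finset.sum_congr rfl fun n hn => ?_
      rw [LinearEquiv.symm_apply_apply, hy, hbi s c n hn]
    show ‖P s (toWeakSpace ℝ X y) - d k‖ < _
    rw [this]; exact hk
  rintro _ ⟨hxW, x, hx, rfl⟩
  have hx1 : ‖x‖ ≤ 1 := by simpa using hx
  set p := ∑ n ∈ s, φ n x • e n with hp
  have hpk : ‖p - d k‖ < 1 / ((r : ℝ) + 1) := hxW
  have hpy : ‖p - y‖ < ρ := by
    calc ‖p - y‖ = ‖(p - d k) - (y - d k)‖ := by congr 1; abel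
      _ ≤ _ := norm_sub_le _ _
      _ < ρ := by linarith
  have htail : ∀ i ∈ F, |i (x - p)| ≤ ε / 4 := by
    intro i hi
    have hlim : Tendsto (fun t : Finset I => ∑ n ∈ t \ s, φ n x • e n) atTop (𝓝 (x - p)) := by
      refine ((hφ x).sub_const p).congr' (eventually_atTop.2 ⟨s, fun t ht => ?_⟩)
      simp only [hp]
      rw [← Finset.sum_sdiff ht]; abel
    have hlt : ‖y + (x - p)‖ < 1 + (1 - ‖y‖) / 4 := by
      calc ‖y + (x - p)‖ = ‖x - (p - y)‖ := by congr 1; abel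
        _ ≤ _ := norm_sub_le _ _
        _ < _ := by linarith
    have h4 := ((hlim.const_add y).norm).eventually (gt_mem_nhds hlt)
    refine le_of_tendsto ((i.continuous.tendsto _).comp hlim).abs ?_
    filter_upwards [h4] with t ht
    exact h3 _ _ Finset.disjoint_sdiff ht i hi
  refine hF x fun i hi => ?_
  have e1 := abs_le.1 (htail i hi)
  have e2 := abs_lt.1 (hρ2 _ hpy i hi)
  have e3 := abs_le.1 (h2 i hi)
  have e4 := abs_lt.1 (h₀' i hi)
  simp only [map_sub] at e1 e2 e3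
  rw [abs_lt]; constructor <;> linarith [e1.1, e1.2, e2.1, e2.2, e3.1, e3.2, e4.1, e4.2]

lemma coord_bound [DecidableEq I] {e : I → X} (hu : Unc e) (s : Finset I) (a : I → ℝ) (n : I)
    (hn : n ∈ s) : ‖a n • e n‖ ≤ ‖∑ k ∈ s, a k • e k‖ := by
  have h1 := hu s a (fun k => if k = n then 1 else -1)
    (fun k => by by_cases h : k = n <;> simp [h])
  have h2 : ∑ k ∈ s, ((if k = n then 1 else -1) * a k) • e k + ∑ k ∈ s, a k • e k =
      (2 : ℝ) • (a n • e n) := by
    rw [← Finset.sum_add_distrib, Finset.sum_eq_single n]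
    · simp [two_smul]
    · intro k _ hk; simp [hk]
    · intro h; exact absurd hn h
  have h3 := norm_add_le (∑ k ∈ s, ((if k = n then 1 else -1) * a k) • e k) (∑ k ∈ s, a k • e k)
  rw [h2, norm_smul] at h3
  simp only [Real.norm_ofNat] at h3
  linarith

theorem main' [Countable I] {e : I → X} (hu : Unc e)
    (hb : ∀ x : X, ∃! a : I → ℝ, HasSum (fun n => a n • e n) x) :
      ∃ U : ℕ → Set (WeakSpace ℝ X),
        (∀ n, IsOpen (U n) ∧
            (U n ∩ (toWeakSpace ℝ X) '' Metric.closedBall (0 : X) 1).Nonempty) ∧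
        ∀ V : Set (WeakSpace ℝ X), IsOpen V →
          (V ∩ (toWeakSpace ℝ X) '' Metric.closedBall (0 : X) 1).Nonempty →
            ∃ n, U n ∩ (toWeakSpace ℝ X) '' Metric.closedBall (0 : X) 1 ⊆ V := by
  classical
  choose a ha hau using hb
  have hfin : ∀ (s : Finset I) (c : I → ℝ), ∀ n ∈ s, a (∑ k ∈ s, c k • e k) n = c n := by
    intro s c n hn
    have := hau (∑ k ∈ s, c k • e k) (fun k => if k ∈ s then c k else 0) (by
      have h1 : HasSum (fun k => (if k ∈ s then c k else 0) • e k)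
          (∑ k ∈ s, (if k ∈ s then c k else 0) • e k) :=
        hasSum_sum_of_ne_finset_zero fun k hk => by simp [hk]
      rwa [Finset.sum_congr rfl (fun k hk => by rw [if_pos hk])] at h1)
    rw [← this]; simp [hn]
  have hne : ∀ n, e n ≠ 0 := by
    intro n hn
    have h1 := hfin {n} (fun _ => 1) n (Finset.mem_singleton_self n)
    have h2 := hfin {n} (fun _ => 0) n (Finset.mem_singleton_self n)
    simp [hn] at h1 h2
    rw [h1] at h2; exact one_ne_zero h2
  let φ : I → X →L[ℝ] ℝ := fun n => LinearMap.mkContinuous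
    { toFun := fun x => a x n
      map_add' := fun x y => by
        have := hau (x + y) (fun k => a x k + a y k) (by
          simpa [add_smul] using (ha x).add (ha y))
        rw [← this]
      map_smul' := fun t x => by
        have := hau (t • x) (fun k => t * a x k) (by
          simpa [mul_smul] using (ha x).const_smul t)
        rw [← this]; simp } (‖e n‖⁻¹) (fun x => by
      have h1 : ‖a x n • e n‖ ≤ ‖x‖ := by
        refine ge_of_tendsto (ha x).norm (eventually_atTop.2 ⟨{n}, fun s hs => ?_⟩)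
        exact coord_bound hu s _ n (hs (Finset.mem_singleton_self n))
      have h2 : 0 < ‖e n‖ := norm_pos_iff.2 (hne n)
      rw [norm_smul] at h1
      simp only [LinearMap.coe_mk, AddHom.coe_mk]
      rw [inv_mul_eq_div, le_div_iff₀ h2]; exact h1)
  exact main hu φ ha hfin

end Pool.Agent.H87.PiBase
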