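import Mathlib
import Pool.Agent.H87.PiBase

namespace Pool.Agent.H87.PiBase

open Filter Topology

variable {X : Type} [NormedAddCommGroup X] [NormedSpace ℝ X] {I : Type}

lemma proj_bound [DecidableEq I] {e : I → X} (hu : Unc e) (s t : Finset I) (a : I → ℝ) :
    ‖∑ k ∈ s, (if k ∈ t then a k else 0) • e k‖ ≤ ‖∑ k ∈ s, a k • e k‖ := by
  have h1 := hu s a (fun k => if k ∈ t then 1 else -1)
    (fun k => by by_cases h : k ∈ t <;> simp [h])
  have h2 : ∑ k ∈ s, ((if k ∈ t then 1 else -1) * a k) • e k + ∑ k ∈ s, a k • e k =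
      (2 : ℝ) • ∑ k ∈ s, (if k ∈ t then a k else 0) • e k := by
    rw [← Finset.sum_add_distrib, Finset.smul_sum]
    refine Finset.sum_congr rfl fun k _ => ?_
    by_cases h : k ∈ t <;> simp [h, two_smul]
  have h3 := norm_add_le (∑ k ∈ s, ((if k ∈ t then 1 else -1) * a k) • e k) (∑ k ∈ s, a k • e k)
  rw [h2, norm_smul] at h3
  simp only [Real.norm_ofNat] at h3
  linarith

theorem main'' [Countable I] {e : I → X} (hu : Unc e) (hne : ∀ n, e n ≠ 0)
    (hd : Dense (Submodule.span ℝ (Set.range e) : Set X)) :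
      ∃ U : ℕ → Set (WeakSpace ℝ X),
        (∀ n, IsOpen (U n) ∧
            (U n ∩ (toWeakSpace ℝ X) '' Metric.closedBall (0 : X) 1).Nonempty) ∧
        ∀ V : Set (WeakSpace ℝ X), IsOpen V →
          (V ∩ (toWeakSpace ℝ X) '' Metric.closedBall (0 : X) 1).Nonempty →
            ∃ n, U n ∩ (toWeakSpace ℝ X) '' Metric.closedBall (0 : X) 1 ⊆ V := by
  classical
  let T : (I →₀ ℝ) →ₗ[ℝ] X := Finsupp.linearCombination ℝ e
  have hT : DenseRange T := by
    have : Set.range T = (Submodule.span ℝ (Set.range e) : Set X) := by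
      rw [← Finsupp.range_linearCombination]; rfl
    rw [DenseRange, this]; exact hd
  have hTa : ∀ a : I →₀ ℝ, T a = ∑ k ∈ a.support, a k • e k := fun a => by
    simp [T, Finsupp.linearCombination_apply, Finsupp.sum]
  have hb : ∀ n (a : I →₀ ℝ), ‖(Finsupp.lapply n : (I →₀ ℝ) →ₗ[ℝ] ℝ) a‖ ≤ ‖e n‖⁻¹ * ‖T a‖ := by
    intro n a
    have h2 : 0 < ‖e n‖ := norm_pos_iff.2 (hne n)
    rw [inv_mul_eq_div, le_div_iff₀ h2, Finsupp.lapply_apply, ← norm_smul]
    by_cases hn : n ∈ a.support
    · rw [hTa]; exact coord_bound hu _ _ n hn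
    · rw [Finsupp.notMem_support_iff.1 hn]; simp
  let φ : I → X →L[ℝ] ℝ := fun n => (Finsupp.lapply n : (I →₀ ℝ) →ₗ[ℝ] ℝ).extendOfNorm T
  have hφ : ∀ n a, φ n (T a) = a n := fun n a =>
    LinearMap.extendOfNorm_eq hT ⟨_, hb n⟩ a
  have hφe : ∀ n k, φ n (e k) = if k = n then 1 else 0 := by
    intro n k
    have := hφ n (Finsupp.single k 1)
    simpa [T, Finsupp.single_apply] using this
  have hP : ∀ (t : Finset I) (x : X), ‖∑ n ∈ t, φ n x • e n‖ ≤ ‖x‖ := by
    intro t x
    refine hT.induction_on x (isClosed_le (by fun_prop) continuous_norm) fun a => ?_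
    simp only [hφ]
    have := proj_bound hu (a.support ∪ t) t a
    rw [← Finset.sum_subset (Finset.subset_union_right (s₁ := a.support) (s₂ := t))
      (fun k _ hk => by simp [hk]),
      ← Finset.sum_subset (Finset.subset_union_left (s₁ := a.support) (s₂ := t))
      (fun k _ hk => by simp [Finsupp.notMem_support_iff.1 hk]), ← hTa,
      Finset.sum_congr rfl (fun k hk => by rw [if_pos hk])] at this
    exact this
  refine main hu φ (fun x => ?_) (fun s c n hn => ?_)
  · rw [HasSum, Metric.tendsto_nhds]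
    intro ε hε
    obtain ⟨a, ha⟩ := hT.exists_dist_lt x (half_pos hε)
    refine eventually_atTop.2 ⟨a.support, fun t ht => ?_⟩
    have h1 : ∑ n ∈ t, φ n (T a) • e n = T a := by
      simp only [hφ]
      rw [hTa, Finset.sum_subset ht (fun k _ hk => by simp [Finsupp.notMem_support_iff.1 hk])]
    have h2 := hP t (x - T a)
    simp only [map_sub, sub_smul, Finset.sum_sub_distrib, h1] at h2
    rw [dist_eq_norm] at ha ⊢
    calc ‖∑ n ∈ t, φ n x • e n - x‖ = ‖(∑ n ∈ t, φ n x • e n - T a) - (x - T a)‖ := by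
          congr 1; abel
      _ ≤ _ := norm_sub_le _ _
      _ < ε := by linarith
  · simp only [map_sum, map_smul, hφe, smul_eq_mul]
    rw [Finset.sum_eq_single n]
    · simp
    · intro k _ hk; simp [hk]
    · intro h; exact absurd hn h

end Pool.Agent.H87.PiBase
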