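import Mathlib

namespace Pool.Agent.H87.PropK

open Filter Topology Finset
open scoped ENNReal

/-- scalar Schur lemma -/
theorem schur {ι : Type} [DecidableEq ι] (a : ℕ → ι → ℝ) (hs : ∀ n, Summable (a n))
    (h0 : ∀ i, Tendsto (fun n => a n i) atTop (𝓝 0))
    (hc : ∀ θ : ι → Bool, CauchySeq fun n => ∑' i, if θ i then a n i else 0) :
    Tendsto (fun n => ∑' i, a n i) atTop (𝓝 0) := by
  set g : ℕ → (ι → Bool) → ℝ := fun n θ => ∑' i, if θ i then a n i else 0 with hg
  have hb : ∀ n (θ : ι → Bool) i, ‖if θ i then a n i else 0‖ ≤ ‖a n i‖ := fun n θ i => by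
    split_ifs <;> simp
  have hcont : ∀ n, Continuous (g n) := fun n => continuous_tsum (fun i =>
    (continuous_of_discreteTopology (f := fun b : Bool => if b then a n i else 0)).comp
      (continuous_apply i)) (hs n).norm fun i θ => hb n θ i
  rw [Metric.tendsto_nhds]
  intro ε hε
  obtain ⟨N, θ0, hθ⟩ := nonempty_interior_of_iUnion_of_closed
    (f := fun N : ℕ => ⋂ m ≥ N, {θ | |g m θ - g N θ| ≤ ε / 5})
    (fun N => isClosed_biInter fun m _ => isClosed_le (by fun_prop) continuous_const)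
    (Set.eq_univ_of_forall fun θ => by
      obtain ⟨N, hN⟩ := Metric.cauchySeq_iff'.1 (hc θ) (ε / 5) (by positivity)
      exact Set.mem_iUnion.2 ⟨N, Set.mem_iInter₂.2 fun m hm => (hN m hm).le⟩)
  obtain ⟨F, u, hu1, hu2⟩ := isOpen_pi_iff.1 isOpen_interior θ0 hθ
  have h1 : ∀ θ : ι → Bool, (∀ i ∈ F, θ i = θ0 i) → ∀ m ≥ N, |g m θ - g N θ| ≤ ε / 5 :=
    fun θ h m hm => Set.mem_iInter₂.1 (interior_subset (hu2 fun i hi => h i hi ▸ (hu1 i hi).2)) m hm
  obtain ⟨G, hG1, hG2⟩ := (((hs N).hasSum.eventually (Metric.ball_mem_nhds _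
    (show 0 < ε / 5 by positivity))).and (eventually_ge_atTop F)).exists
  have h2 : ∀ m, g m (fun i => if i ∈ G then decide (i ∈ F) && θ0 i else true) -
      g m (fun i => decide (i ∈ F) && θ0 i) = ∑' i, a m i - ∑ i ∈ G, a m i := by
    intro m
    rw [hg, ← Summable.tsum_sub (.of_norm_bounded (hs m).norm (hb m _))
      (.of_norm_bounded (hs m).norm (hb m _)), ← (hs m).sum_add_tsum_compl (s := G),
      add_sub_cancel_left, _root_.tsum_subtype]
    refine tsum_congr fun i => ?_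
    by_cases hi : i ∈ G
    · simp [hi]
    · simp [hi, show i ∉ F from fun h => hi (hG2 h)]
  have h3 : Tendsto (fun m => ∑ i ∈ G, a m i) atTop (𝓝 0) := by
    simpa using tendsto_finsetSum G fun i _ => h0 i
  filter_upwards [eventually_ge_atTop N, h3.eventually (Metric.ball_mem_nhds _
    (show 0 < ε / 5 by positivity))] with m hm h4
  have a1 := abs_le.1 (h1 (fun i => if i ∈ G then decide (i ∈ F) && θ0 i else true)
    (fun i hi => by simp [hi, hG2 hi]) m hm)
  have a2 := abs_le.1 (h1 (fun i => decide (i ∈ F) && θ0 i) (fun i hi => by simp [hi]) m hm)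
  have a3 := h2 m
  have a4 := h2 N
  rw [Real.dist_eq, abs_lt] at h4 hG1 ⊢
  constructor <;> linarith [h4.1, h4.2, hG1.1, hG1.2]

abbrev J := ℕ × ℕ

def Adm (w : J → ℝ) : Prop := ∃ (σ : J → ℕ) (t : ℕ → ℝ), (∀ j, j.1 ≤ σ j ∧ σ j ≤ j.1 + j.2) ∧
  (∀ s : Finset ℕ, ∑ n ∈ s, t n ^ 2 ≤ 1) ∧ ∀ j, |w j| ≤ t (σ j)

abbrev W := {w // Adm w}

lemma W.bd (w : W) (j : J) : |w.1 j| ≤ 1 := by
  obtain ⟨σ, t, -, h1, h2⟩ := w.2
  have := h1 {σ j}
  rw [sum_singleton] at this
  nlinarith [h2 j]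

def W.mul (θ : J → Bool) (w : W) : W := ⟨fun j => if θ j then w.1 j else 0, by
  obtain ⟨σ, t, h0, h1, h2⟩ := w.2
  refine ⟨σ, t, h0, h1, fun j => ?_⟩
  beta_reduce
  split_ifs
  exacts [h2 j, by simpa using (abs_nonneg _).trans (h2 j)]⟩

def W.comb (θ : J → Bool) (α β : ℝ) (h : α ^ 2 + β ^ 2 ≤ 1) (w v : W) : W :=
  ⟨fun j => if θ j then α * w.1 j else β * v.1 j, by
    obtain ⟨σ, t, h0, h1, h2⟩ := w.2
    obtain ⟨σ', t', h0', h1', h2'⟩ := v.2
    refine ⟨fun j => if θ j then σ j else σ' j, fun n => √(α ^ 2 * t n ^ 2 + β ^ 2 * t' n ^ 2),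
      fun j => by beta_reduce; split_ifs; exacts [h0 j, h0' j], fun s => ?_, fun j => ?_⟩
    · rw [sum_congr rfl fun n _ => Real.sq_sqrt (by positivity), sum_add_distrib, ← mul_sum,
        ← mul_sum]
      nlinarith [h1 s, h1' s, sq_nonneg α, sq_nonneg β]
    · beta_reduce
      split_ifs <;> refine Real.abs_le_sqrt ?_
      · have := mul_le_mul_of_nonneg_left (sq_le_sq' (abs_le.1 (h2 j)).1 (abs_le.1 (h2 j)).2)
          (sq_nonneg α)
        nlinarith [mul_nonneg (sq_nonneg β) (sq_nonneg (t' (σ j)))]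
      · have := mul_le_mul_of_nonneg_left (sq_le_sq' (abs_le.1 (h2' j)).1 (abs_le.1 (h2' j)).2)
          (sq_nonneg β)
        nlinarith [mul_nonneg (sq_nonneg α) (sq_nonneg (t (σ' j)))]⟩

def star (n : ℕ) : W := ⟨fun j => if j.1 ≤ n ∧ n ≤ j.1 + j.2 then 1 else 0,
  fun j => if j.1 ≤ n ∧ n ≤ j.1 + j.2 then n else j.1, Pi.single n 1,
  fun j => by beta_reduce; split_ifs with h; exacts [h, by omega], fun s => by
    simp only [Pi.single_apply, ite_pow, one_pow, ne_eq, OfNat.ofNat_ne_zero, not_false_eq_true,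
      zero_pow, sum_ite_eq']
    split_ifs <;> simp, fun j => by
    beta_reduce
    split_ifs
    · simp
    · rw [Pi.single_apply]; simp; positivity⟩

abbrev Y := lp (fun _ : W => ℝ) ∞

noncomputable def ey (j : J) : Y :=
  ⟨fun w => w.1 j, memℓp_infty ⟨1, by rintro _ ⟨w, rfl⟩; exact w.bd j⟩⟩

def X : Type := (Submodule.span ℝ (Set.range ey)).topologicalClosure

noncomputable instance : NormedAddCommGroup X :=
  inferInstanceAs (NormedAddCommGroup (Submodule.span ℝ (Set.range ey)).topologicalClosure)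
noncomputable instance : NormedSpace ℝ X :=
  inferInstanceAs (NormedSpace ℝ (Submodule.span ℝ (Set.range ey)).topologicalClosure)
instance : CompleteSpace X := (Submodule.isClosed_topologicalClosure _).completeSpace_coe

noncomputable def e (j : J) : X :=
  ⟨ey j, Submodule.le_topologicalClosure _ (Submodule.subset_span ⟨j, rfl⟩)⟩

noncomputable def ev (w : W) : X →L[ℝ] ℝ :=
  (lp.evalCLM ℝ (fun _ : W => ℝ) ∞ w).comp
    (Submodule.span ℝ (Set.range ey)).topologicalClosure.subtypeL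

@[simp] lemma ev_e (w : W) (j : J) : ev w (e j) = w.1 j := rfl

lemma ev_le (w : W) (x : X) : |ev w x| ≤ ‖x‖ := lp.norm_apply_le_norm (by simp) x.1 w

lemma norm_le {x : X} {M : ℝ} (hM : 0 ≤ M) (h : ∀ w, |ev w x| ≤ M) : ‖x‖ ≤ M :=
  lp.norm_le_of_forall_le (f := x.1) hM h

lemma dense : Dense ((Submodule.span ℝ (Set.range e) : Submodule ℝ X) : Set X) := by
  intro x
  refine closure_subtype.2 ?_
  have := Submodule.map_span (Submodule.span ℝ (Set.range ey)).topologicalClosure.subtype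
    (Set.range e)
  rw [← Set.range_comp] at this
  exact (congrArg (fun S : Submodule ℝ Y => x.1 ∈ closure (S : Set Y)) this).mpr x.2

noncomputable def co (j : J) : X →L[ℝ] ℝ := ev ((star j.1).mul fun i => i = j)

lemma co_e (j i : J) : co j (e i) = if i = j then 1 else 0 := by
  simp only [co, ev_e, W.mul, star]
  by_cases h : i = j <;> simp [h]

lemma norm_sub_le (c : J → ℝ) (F : Finset J) (θ : J → Bool) :
    ‖∑ j ∈ F, (if θ j then c j else 0) • e j‖ ≤ ‖∑ j ∈ F, c j • e j‖ :=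
  norm_le (norm_nonneg _) fun w => by
    convert ev_le (w.mul θ) (∑ j ∈ F, c j • e j) using 2
    simp only [map_sum, map_smul, ev_e, W.mul]
    exact sum_congr rfl fun j _ => by split_ifs <;> simp

lemma sq_add (c : J → ℝ) {F G : Finset J} (h : Disjoint F G) :
    ‖∑ j ∈ F, c j • e j‖ ^ 2 + ‖∑ j ∈ G, c j • e j‖ ^ 2 ≤ ‖∑ j ∈ F ∪ G, c j • e j‖ ^ 2 := by
  set x := ∑ j ∈ F, c j • e j with hx
  set y := ∑ j ∈ G, c j • e j with hy
  set N := ‖∑ j ∈ F ∪ G, c j • e j‖ with hN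
  have h1 : ∀ w v, ev w x ^ 2 + ev v y ^ 2 ≤ N ^ 2 := by
    intro w v
    set r := √(ev w x ^ 2 + ev v y ^ 2) with hr
    have h2 : r ^ 2 = ev w x ^ 2 + ev v y ^ 2 := Real.sq_sqrt (by positivity)
    rcases (Real.sqrt_nonneg (ev w x ^ 2 + ev v y ^ 2)).eq_or_lt with h3 | h3
    · rw [← h2, hr, ← h3]; simpa using sq_nonneg N
    have h4 := (le_abs_self _).trans (ev_le (W.comb (· ∈ F) (ev w x / r) (ev v y / r)
      (by rw [div_pow, div_pow, ← add_div, ← h2, div_self (by positivity)]) w v)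
      (∑ j ∈ F ∪ G, c j • e j))
    have h5 : ev (W.comb (· ∈ F) (ev w x / r) (ev v y / r)
        (by rw [div_pow, div_pow, ← add_div, ← h2, div_self (by positivity)]) w v)
        (∑ j ∈ F ∪ G, c j • e j) = ev w x / r * ev w x + ev v y / r * ev v y := by
      conv_rhs => enter [1, 2]; rw [hx]
      conv_rhs => enter [2, 2]; rw [hy]
      simp only [sum_union h, map_add, map_sum, map_smul, ev_e, W.comb, mul_sum]
      congr 1 <;> refine sum_congr rfl fun j hj => ?_
      · simp [hj]; ring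
      · simp [disjoint_right.1 h hj]; ring
    have h6 : ev w x / r * ev w x + ev v y / r * ev v y = r := by
      have h7 : r ≠ 0 := h3.ne'
      rw [div_mul_eq_mul_div, div_mul_eq_mul_div, ← add_div, div_eq_iff h7]; linarith
    rw [← h2]
    exact pow_le_pow_left₀ h3.le (by linarith) 2
  have h2 : ∀ v, ‖x‖ ^ 2 ≤ N ^ 2 - ev v y ^ 2 := fun v =>
    (Real.le_sqrt (norm_nonneg _) (by nlinarith [h1 v v])).1
      (norm_le (Real.sqrt_nonneg _) fun w => Real.abs_le_sqrt (by linarith [h1 w v]))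
  have h3 := (Real.le_sqrt (norm_nonneg y) (by nlinarith [h2 (star 0)])).1
    (norm_le (M := √(N ^ 2 - ‖x‖ ^ 2)) (Real.sqrt_nonneg _) fun v =>
      Real.abs_le_sqrt (by linarith [h2 v]))
  linarith

lemma summable {c : J → ℝ} {B : ℝ} (h : ∀ F : Finset J, ‖∑ j ∈ F, c j • e j‖ ≤ B) :
    Summable fun j => c j • e j := by
  refine summable_iff_vanishing_norm.2 fun ε hε => ?_
  have hb : BddAbove (Set.range fun F : Finset J => ‖∑ j ∈ F, c j • e j‖ ^ 2) :=
    ⟨B ^ 2, by rintro _ ⟨F, rfl⟩; exact pow_le_pow_left₀ (norm_nonneg _) (h F) 2⟩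
  obtain ⟨F, hF⟩ := exists_lt_of_lt_ciSup (f := fun F : Finset J => ‖∑ j ∈ F, c j • e j‖ ^ 2)
    (sub_lt_self _ (pow_pos hε 2))
  refine ⟨F, fun G hG => lt_of_pow_lt_pow_left₀ 2 hε.le ?_⟩
  linarith [sq_add c hG.symm, le_ciSup hb (F ∪ G)]

lemma proj_le (F : Finset J) (x : X) : ‖∑ j ∈ F, co j x • e j‖ ≤ ‖x‖ := by
  refine norm_le (norm_nonneg _) fun w => ?_
  have : ev w ∘L (∑ j ∈ F, (co j).smulRight (e j)) = ev (w.mul (· ∈ F)) :=
    ContinuousLinearMap.ext_on dense (by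
      rintro _ ⟨i, rfl⟩; by_cases h : i ∈ F <;> simp [co_e, W.mul, h])
  convert ev_le (w.mul (· ∈ F)) x using 2
  rw [← this]; simp

lemma hasSum (x : X) : HasSum (fun j => co j x • e j) x := by
  rw [HasSum, SummationFilter.unconditional_filter, Metric.tendsto_nhds]
  intro ε hε
  obtain ⟨y, hy, h1⟩ := Metric.dense_iff.1 dense x (ε / 2) (by positivity)
  obtain ⟨c, rfl⟩ := (Finsupp.mem_span_range_iff_exists_finsupp).1 h1
  filter_upwards [eventually_ge_atTop c.support] with F hF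
  have h2 : ∑ j ∈ F, co j (c.sum fun i a => a • e i) • e j = c.sum fun i a => a • e i := by
    rw [Finsupp.sum_of_support_subset c hF _ (by simp)]
    exact sum_congr rfl fun j hj => by simp [co_e, hj]
  have h3 := proj_le F (x - c.sum fun i a => a • e i)
  simp only [map_sub, sub_smul, sum_sub_distrib, h2] at h3
  rw [mem_ball_iff_norm'] at hy
  rw [dist_eq_norm]
  linarith [norm_sub_le_norm_sub_add_norm_sub (∑ j ∈ F, co j x • e j) (c.sum fun i a => a • e i) x,
    norm_sub_rev x (c.sum fun i a => a • e i)]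

end Pool.Agent.H87.PropK
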