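import Mathlib
import Pool.Agent.H87.PropK1

namespace Pool.Agent.H87.PropK

open Filter Topology Finset

instance : TopologicalSpace.SeparableSpace X := by
  have h := (TopologicalSpace.IsSeparable.span (R := ℝ)
    (Set.countable_range e).isSeparable).closure
  rw [dense.closure_eq] at h
  exact TopologicalSpace.isSeparable_univ_iff.1 h

lemma hs (f : X →L[ℝ] ℝ) (x : X) : HasSum (fun j => co j x * f (e j)) (f x) := by
  simpa using (hasSum x).mapL f

/-- the functional `f` restricted to a set of coordinates -/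
lemma exists_mul (f : X →L[ℝ] ℝ) (θ : J → Bool) : ∃ g : X →L[ℝ] ℝ,
    ∀ x, g x = ∑' j, if θ j then co j x * f (e j) else 0 := by
  have h1 : ∀ x, Summable fun j => if θ j then co j x * f (e j) else 0 := fun x =>
    .of_norm_bounded (hs f x).summable.norm fun j => by
      split_ifs
      exacts [le_rfl, norm_zero.trans_le (norm_nonneg _)]
  refine ⟨LinearMap.mkContinuous
    { toFun := fun x => ∑' j, if θ j then co j x * f (e j) else 0
      map_add' := fun x y => ?_
      map_smul' := fun r x => ?_ } ‖f‖ fun x => ?_, fun _ => rfl⟩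
  · rw [← (h1 x).tsum_add (h1 y)]
    exact tsum_congr fun j => by split_ifs <;> simp [add_mul]
  · rw [RingHom.id_apply, smul_eq_mul, ← tsum_mul_left]
    exact tsum_congr fun j => by split_ifs <;> simp [mul_assoc]
  · refine le_of_tendsto' (h1 x).hasSum.norm fun F => ?_
    have := (f.le_opNorm _).trans (mul_le_mul_of_nonneg_left
      ((norm_sub_le (fun j => co j x) F θ).trans (proj_le F x)) (norm_nonneg f))
    simpa [apply_ite f] using this

theorem wsc (x : ℕ → X) (h : ∀ f : X →L[ℝ] ℝ, CauchySeq fun n => f (x n)) :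
    ∃ y : X, ∀ f : X →L[ℝ] ℝ, Tendsto (fun n => f (x n)) atTop (𝓝 (f y)) := by
  obtain ⟨B, hB⟩ := banach_steinhaus (g := fun n => NormedSpace.inclusionInDoubleDual ℝ X (x n))
    fun f => by
      obtain ⟨C, hC⟩ := (h f).isBounded_range.exists_norm_le
      exact ⟨C, fun n => hC _ ⟨n, rfl⟩⟩
  have hB' : ∀ n, ‖x n‖ ≤ B := fun n =>
    ((NormedSpace.inclusionInDoubleDualLi ℝ).norm_map (x n)).symm.le.trans (hB n)
  choose c hc using fun j => cauchySeq_tendsto_of_complete (h (co j))
  have h1 : Summable fun j => c j • e j := summable (B := B) fun F =>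
    le_of_tendsto' (tendsto_finsetSum F fun j _ => (hc j).smul_const (e j)).norm
      fun n => (proj_le F (x n)).trans (hB' n)
  have h2 : ∀ j, co j (∑' j, c j • e j) = c j := fun j => by
    rw [(co j).map_tsum h1]
    simp [co_e]
  refine ⟨∑' j, c j • e j, fun f => ?_⟩
  set y := ∑' j, c j • e j
  have h3 := schur (fun n j => co j (x n - y) * f (e j)) (fun n => (hs f _).summable)
    (fun j => by simpa [h2] using ((hc j).sub_const (c j)).mul_const (f (e j))) fun θ => by
      obtain ⟨g, hg⟩ := exists_mul f θ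
      simp only [← hg, map_sub g]
      obtain ⟨l, hl⟩ := cauchySeq_tendsto_of_complete (h g)
      exact (hl.sub_const _).cauchySeq
  simp only [(hs f _).tsum_eq, map_sub f] at h3
  exact tendsto_sub_nhds_zero_iff.1 h3

lemma star_null (x : X) : Tendsto (fun n => ev (star n) x) atTop (𝓝 0) := by
  rw [Metric.tendsto_nhds]
  intro ε hε
  obtain ⟨F, hF⟩ := ((hasSum x).eventually (Metric.ball_mem_nhds _ hε)).exists
  filter_upwards [eventually_gt_atTop (F.sup fun j => j.1 + j.2)] with n hn
  have h1 : ev (star n) (∑ j ∈ F, co j x • e j) = 0 := by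
    rw [map_sum]
    refine sum_eq_zero fun j hj => ?_
    have := le_sup (f := fun j : J => j.1 + j.2) hj
    simp only [map_smul, ev_e, star]
    rw [if_neg (by omega), smul_zero]
  have h2 := ev_le (star n) (∑ j ∈ F, co j x • e j - x)
  rw [map_sub, h1, zero_sub, abs_neg, ← dist_eq_norm] at h2
  simpa using h2.trans_lt hF

lemma weak_null {p : ℕ → ℕ} (hp : StrictMono p) (f : X →L[ℝ] ℝ) :
    Tendsto (fun k => f (e (p k, p (k + 1) - p k - 1))) atTop (𝓝 0) := by
  set a := fun k => f (e (p k, p (k + 1) - p k - 1)) with ha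
  have h1 : ∀ s : Finset ℕ, ∑ k ∈ s, a k ^ 2 ≤ ‖f‖ ^ 2 := by
    intro s
    have h2 : ‖∑ k ∈ s, a k • e (p k, p (k + 1) - p k - 1)‖ ≤ √(∑ k ∈ s, a k ^ 2) := by
      refine norm_le (Real.sqrt_nonneg _) fun w => Real.abs_le_sqrt ?_
      obtain ⟨σ, t, h0, h1, h2⟩ := w.2
      have h3 : StrictMono fun k => σ (p k, p (k + 1) - p k - 1) :=
        strictMono_nat_of_lt_succ fun k => by
          have := h0 (p k, p (k + 1) - p k - 1)
          have := h0 (p (k + 1), p (k + 1 + 1) - p (k + 1) - 1)
          have := hp (Nat.lt_succ_self k)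
          simp only [Nat.succ_eq_add_one] at *
          omega
      have h4 := h1 (s.image fun k => σ (p k, p (k + 1) - p k - 1))
      rw [sum_image fun _ _ _ _ h => h3.injective h] at h4
      have h5 := (sum_le_sum fun k (_ : k ∈ s) => sq_le_sq'
        (abs_le.1 (h2 (p k, p (k + 1) - p k - 1))).1 (abs_le.1 (h2 _)).2).trans h4
      simp only [map_sum, map_smul, ev_e, smul_eq_mul]
      exact (sum_mul_sq_le_sq_mul_sq _ _ _).trans
        (mul_le_of_le_one_right (sum_nonneg fun _ _ => sq_nonneg _) h5)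
    have h3 := (le_abs_self _).trans ((f.le_opNorm _).trans
      (mul_le_mul_of_nonneg_left h2 (norm_nonneg f)))
    simp only [map_sum, map_smul, smul_eq_mul] at h3
    replace h3 : ∑ k ∈ s, a k ^ 2 ≤ ‖f‖ * √(∑ k ∈ s, a k ^ 2) := by simpa only [sq] using h3
    have h4 := Real.sq_sqrt (sum_nonneg fun k (_ : k ∈ s) => sq_nonneg (a k))
    nlinarith [sq_nonneg (‖f‖ - √(∑ k ∈ s, a k ^ 2))]
  have h2 := (summable_of_sum_le (fun k => sq_nonneg (a k)) h1).tendsto_atTop_zero
  rw [tendsto_zero_iff_abs_tendsto_zero]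
  simpa [Real.sqrt_sq_eq_abs, Function.comp_def] using h2.sqrt

theorem not_K (p : ℕ → ℕ) (c : ℕ → ℝ) (hp : StrictMono p)
    (hc : ∀ n, ∑ i ∈ Finset.Ico (p n) (p (n + 1)), c i = 1) :
    ∃ K : Set X, IsCompact (toWeakSpace ℝ X '' K) ∧
      ¬ TendstoUniformlyOn (fun n x => ∑ i ∈ Finset.Ico (p n) (p (n + 1)), c i * ev (star i) x)
        (fun _ => (0 : ℝ)) atTop K := by
  refine ⟨insert 0 (Set.range fun k => e (p k, p (k + 1) - p k - 1)), ?_, fun h => ?_⟩
  · rw [Set.image_insert_eq, ← Set.range_comp]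
    refine Tendsto.isCompact_insert_range ?_
    refine (tendsto_comap_iff.2 (tendsto_pi_nhds.2 fun f => ?_)).mono_right
      (nhds_induced (fun (x : WeakSpace ℝ X) f => (topDualPairing ℝ X).flip x f) _).ge
    have := weak_null hp f
    rw [← f.map_zero] at this
    exact this
  · obtain ⟨n, hn⟩ := (Metric.tendstoUniformlyOn_iff.1 h 1 one_pos).exists
    have h1 := hn _ (Set.mem_insert_of_mem _ ⟨n, rfl⟩)
    rw [sum_congr rfl fun i hi => show _ = c i by
      have := mem_Ico.1 hi
      simp only [ev_e, star]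
      rw [if_pos (by omega), mul_one], hc] at h1
    simp at h1

end Pool.Agent.H87.PropK
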