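import Mathlib

namespace Pool.Agent.H87

/-- Property (S): every element of the linear span of products is a finite sum of products
with projective cost at most a fixed multiple of its norm. -/
def PropS (A : Type) [NonUnitalNormedRing A] [NormedSpace ℂ A] : Prop :=
  ∃ C : ℝ, 0 < C ∧ ∀ x ∈ Submodule.span ℂ {z : A | ∃ a b : A, z = a * b},
    ∃ (n : ℕ) (a b : Fin n → A), x = ∑ i, a i * b i ∧ ∑ i, ‖a i‖ * ‖b i‖ ≤ C * ‖x‖

end Pool.Agent.H87
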