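import Mathlib

namespace Pool.Agent.H87.QAlg

open Filter Topology

/-- closed two-sided ideals of a non-unital normed algebra -/
structure CI (A : Type) [NonUnitalNormedRing A] [NormedSpace ℂ A] where
  I : Submodule ℂ A
  closed : IsClosed (I : Set A)
  left : ∀ a x, x ∈ I → a * x ∈ I
  right : ∀ a x, x ∈ I → x * a ∈ I

variable {A : Type} [NonUnitalNormedRing A] [NormedSpace ℂ A] [IsScalarTower ℂ A A]
  [SMulCommClass ℂ A A]

def Q (J : CI A) : Type := A ⧸ J.I

variable (J : CI A)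

noncomputable instance : NormedAddCommGroup (Q J) :=
  @Submodule.Quotient.normedAddCommGroup A _ ℂ _ _ J.I J.closed
noncomputable instance : NormedSpace ℂ (Q J) := inferInstanceAs (NormedSpace ℂ (A ⧸ J.I))
instance [CompleteSpace A] : CompleteSpace (Q J) := inferInstanceAs (CompleteSpace (A ⧸ J.I))

noncomputable def mk : A →ₗ[ℂ] Q J := J.I.mkQ

lemma mk_surj : Function.Surjective (mk J) := J.I.mkQ_surjective
lemma mk_eq_zero (a : A) : mk J a = 0 ↔ a ∈ J.I := Submodule.Quotient.mk_eq_zero J.I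
lemma mk_eq (a b : A) : mk J a = mk J b ↔ a - b ∈ J.I := Submodule.Quotient.eq J.I
lemma norm_mk_le (a : A) : ‖mk J a‖ ≤ ‖a‖ := Submodule.Quotient.norm_mk_le J.I a
lemma norm_mk_lt (x : Q J) {ε : ℝ} (hε : 0 < ε) : ∃ a, mk J a = x ∧ ‖a‖ < ‖x‖ + ε :=
  Submodule.Quotient.norm_mk_lt x hε
lemma norm_mk (a : A) : ‖mk J a‖ = Metric.infDist a (J.I : Set A) :=
  QuotientAddGroup.norm_mk (S := J.I.toAddSubgroup) a

noncomputable def mulQ : Q J →ₗ[ℂ] Q J →ₗ[ℂ] Q J :=
  LinearMap.liftQ₂ J.I J.I ((LinearMap.mul ℂ A).compr₂ (mk J))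
    (fun x hx => by
      ext a; simpa [mk_eq_zero] using J.right a x hx)
    (fun x hx => by
      ext a; simpa [mk_eq_zero] using J.left a x hx)

lemma mulQ_mk (a b : A) : mulQ J (mk J a) (mk J b) = mk J (a * b) := rfl

lemma mulQ_le (x y : Q J) : ‖mulQ J x y‖ ≤ ‖x‖ * ‖y‖ := by
  have hc : Continuous fun ε : ℝ => (‖x‖ + ε) * (‖y‖ + ε) := by fun_prop
  have := (hc.tendsto 0).mono_left (nhdsWithin_le_nhds (s := Set.Ioi 0))
  simp only [add_zero] at this
  refine ge_of_tendsto this (eventually_nhdsWithin_of_forall fun ε hε => ?_)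
  obtain ⟨a, rfl, ha⟩ := norm_mk_lt J x hε
  obtain ⟨b, rfl, hb⟩ := norm_mk_lt J y hε
  rw [mulQ_mk]
  refine (norm_mk_le J _).trans ((norm_mul_le _ _).trans ?_)
  have hε' : 0 < ε := hε
  gcongr

noncomputable instance : NonUnitalNormedRing (Q J) :=
  { (inferInstance : NormedAddCommGroup (Q J)) with
    mul := fun f g => mulQ J f g
    left_distrib := fun f g h => map_add _ _ _
    right_distrib := fun f g h => by
      show mulQ J (f + g) h = mulQ J f h + mulQ J g h
      rw [map_add]; rfl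
    zero_mul := fun f => by
      show mulQ J 0 f = 0
      rw [map_zero]; rfl
    mul_zero := fun f => map_zero _
    mul_assoc := fun x y z => by
      obtain ⟨a, rfl⟩ := mk_surj J x
      obtain ⟨b, rfl⟩ := mk_surj J y
      obtain ⟨c, rfl⟩ := mk_surj J z
      show mulQ J (mulQ J _ _) _ = mulQ J _ (mulQ J _ _)
      simp only [mulQ_mk, mul_assoc]
    norm_mul_le := mulQ_le J }

instance : IsScalarTower ℂ (Q J) (Q J) :=
  ⟨fun t f g => by
    show mulQ J (t • f) g = t • mulQ J f g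
    rw [map_smul]; rfl⟩

instance : SMulCommClass ℂ (Q J) (Q J) :=
  ⟨fun t f g => by
    show t • mulQ J f g = mulQ J f (t • g)
    rw [map_smul]⟩

lemma mk_mul (a b : A) : mk J (a * b) = mk J a * mk J b := rfl

noncomputable def mkH : A →ₙₐ[ℂ] Q J where
  toFun := mk J
  map_smul' := (mk J).map_smul
  map_zero' := (mk J).map_zero
  map_add' := (mk J).map_add
  map_mul' := mk_mul J

noncomputable def mkL : A →L[ℂ] Q J := (mk J).mkContinuous 1 (fun a => by simpa using norm_mk_le J a)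

/-- functionals vanishing on the ideal are bounded by the quotient norm -/
lemma le_norm_mk {E : Type} [NormedAddCommGroup E] [NormedSpace ℂ E] (φ : A →L[ℂ] E) (C : ℝ)
    (hC : 0 ≤ C) (hφ : ∀ a, ‖φ a‖ ≤ C * ‖a‖) (h0 : ∀ x ∈ J.I, φ x = 0) (a : A) :
    ‖φ a‖ ≤ C * ‖mk J a‖ := by
  have hc : Continuous fun ε : ℝ => C * (‖mk J a‖ + ε) := by fun_prop
  have := (hc.tendsto 0).mono_left (nhdsWithin_le_nhds (s := Set.Ioi 0))
  simp only [add_zero] at this
  refine ge_of_tendsto this (eventually_nhdsWithin_of_forall fun ε hε => ?_)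
  obtain ⟨b, hb, hb'⟩ := norm_mk_lt J (mk J a) hε
  have h1 := h0 _ ((mk_eq J _ _).1 hb)
  rw [map_sub, sub_eq_zero] at h1
  rw [← h1]
  exact (hφ b).trans (mul_le_mul_of_nonneg_left hb'.le hC)

/-- elements of the Jacobson radical are quasi-nilpotent -/
lemma jac_unit {R : Type} [Ring R] {x : R} (hx : x ∈ Ring.jacobson R) (y : R) :
    IsUnit (y * x + 1) := by
  rw [← Ideal.jacobson_bot, Ideal.mem_jacobson_iff] at hx
  obtain ⟨z, hz⟩ := hx y
  obtain ⟨w, hw⟩ := hx (-(z * y))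
  rw [Ideal.mem_bot] at hz hw
  have h1 : z * (y * x + 1) = 1 := by
    rw [mul_add, mul_one, ← mul_assoc]; exact sub_eq_zero.1 hz
  have h2 : w * z = 1 := by
    have h3 : z = -(z * y) * x + 1 := by
      rw [neg_mul, ← sub_eq_zero, ← hz]; abel
    conv_lhs => rw [h3]
    rw [mul_add, mul_one, ← mul_assoc]; exact sub_eq_zero.1 hw
  have h4 : w = y * x + 1 := by
    calc w = w * (z * (y * x + 1)) := by rw [h1, mul_one]
      _ = _ := by rw [← mul_assoc, h2, one_mul]
  exact ⟨⟨_, z, h4 ▸ h2, h1⟩, rfl⟩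

lemma quasi {C : Type} [NormedRing C] [NormedAlgebra ℂ C] [CompleteSpace C] (G : C)
    (h : ∀ k : ℂ, IsUnit (k • G + 1)) {c : ℝ} (hc : 0 < c) :
    ∃ n, ‖G ^ (n + 1)‖ < c ^ (n + 1) := by
  have h0 : spectralRadius ℂ G = 0 := by
    refine le_antisymm (iSup₂_le fun k hk => ?_) (zero_le)
    by_contra hne
    have hk0 : k ≠ 0 := by
      rintro rfl; simp at hne
    apply hk
    have := (h (-k⁻¹)).smul (Units.mk0 k hk0)
    show IsUnit _
    convert this using 1
    rw [Units.smul_def, Units.val_mk0, smul_add, smul_smul, Algebra.algebraMap_eq_smul_one]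
    simp [hk0]; abel
  have h1 := spectrum.pow_norm_pow_one_div_tendsto_nhds_spectralRadius G
  rw [h0] at h1
  have h2 := h1.eventually (gt_mem_nhds (show (0 : ENNReal) < ENNReal.ofReal c by simpa using hc))
  obtain ⟨N, hN⟩ := eventually_atTop.1 h2
  refine ⟨N, ?_⟩
  have h3 := hN (N + 1) (by omega)
  rw [ENNReal.ofReal_lt_ofReal_iff hc] at h3
  have h4 := pow_lt_pow_left₀ h3 (by positivity) (Nat.succ_ne_zero N)
  rwa [one_div, Real.rpow_inv_natCast_pow (norm_nonneg _) (Nat.succ_ne_zero N)] at h4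

lemma jac_quasi [CompleteSpace A] (g : A) (hg : (g : Unitization ℂ A) ∈ Ring.jacobson _)
    (p : ℕ → A) (h0 : p 0 = g) (hp : ∀ n, p (n + 1) = g * p n) {c : ℝ} (hc : 0 < c) :
    ∃ n, ‖p n‖ < c ^ (n + 1) := by
  obtain ⟨n, hn⟩ := quasi (WithLp.toLp 1 (g : Unitization ℂ A)) (fun k => by
    obtain ⟨u, hu⟩ := jac_unit hg (algebraMap ℂ _ k)
    rw [← Algebra.smul_def] at hu
    refine ⟨⟨_, WithLp.toLp 1 ((u⁻¹ : (Unitization ℂ A)ˣ) : Unitization ℂ A), ?_, ?_⟩, rfl⟩
    · apply WithLp.ofLp_injective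
      show (k • (g : Unitization ℂ A) + 1) * _ = 1
      rw [← hu]; exact u.mul_inv
    · apply WithLp.ofLp_injective
      show _ * (k • (g : Unitization ℂ A) + 1) = 1
      rw [← hu]; exact u.inv_mul) hc
  refine ⟨n, ?_⟩
  have : ∀ n, (WithLp.toLp 1 (g : Unitization ℂ A)) ^ (n + 1) =
      WithLp.toLp 1 (p n : Unitization ℂ A) := by
    intro n
    induction n with
    | zero => rw [h0, zero_add, pow_one]
    | succ n ih =>
      rw [pow_succ', ih, hp, Unitization.inr_mul]; rfl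
  rwa [this, WithLp.unitization_norm_inr] at hn

end Pool.Agent.H87.QAlg
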