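import Mathlib
import Pool.Agent.H87.L1Alg
import Pool.Agent.H87.QAlg
import Pool.Agent.H87.PropSDef

namespace Pool.Agent.H87.PS

open Filter Topology L1Alg QAlg

def W : Type := {l : List ℕ // l ≠ []}

instance : Semigroup W where
  mul u v := ⟨u.1 ++ v.1, fun h => u.2 (List.append_eq_nil_iff.1 h).1⟩
  mul_assoc u v w := Subtype.ext (List.append_assoc _ _ _)

@[simp] lemma mul_val (u v : W) : (u * v).1 = u.1 ++ v.1 := rfl

def wd (u v : List ℕ) (n : ℕ) : W := ⟨u ++ [n + 1, n + 1] ++ v, by simp⟩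

lemma summ_rel (u v : List ℕ) : Summable fun n : ℕ => (1 / 2 : ℂ) ^ n • dl (wd u v n) :=
  Summable.of_norm_bounded (g := fun n : ℕ => (1 / 2 : ℝ) ^ n) summable_geometric_two
    fun n => by simp [norm_smul]

noncomputable def rel (u v : List ℕ) : L W := ∑' n : ℕ, (1 / 2 : ℂ) ^ n • dl (wd u v n)

lemma hasSum_rel (u v : List ℕ) :
    HasSum (fun n : ℕ => (1 / 2 : ℂ) ^ n • dl (wd u v n)) (rel u v) := (summ_rel u v).hasSum

lemma dl_rel (w : W) (u v : List ℕ) : dl w * rel u v = rel (w.1 ++ u) v := by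
  refine ((hasSum_rel u v).mul_left (dl w)).unique ?_
  have h : (fun n : ℕ => dl w * ((1 / 2 : ℂ) ^ n • dl (wd u v n))) =
      fun n : ℕ => (1 / 2 : ℂ) ^ n • dl (wd (w.1 ++ u) v n) := by
    funext n
    rw [mul_smul_comm, dl_mul]
    congr 2
    exact Subtype.ext (by simp [wd])
  rw [h]; exact hasSum_rel _ _

lemma rel_dl (w : W) (u v : List ℕ) : rel u v * dl w = rel u (v ++ w.1) := by
  refine ((hasSum_rel u v).mul_right (dl w)).unique ?_
  have h : (fun n : ℕ => ((1 / 2 : ℂ) ^ n • dl (wd u v n)) * dl w) =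
      fun n : ℕ => (1 / 2 : ℂ) ^ n • dl (wd u (v ++ w.1) n) := by
    funext n
    rw [smul_mul_assoc, dl_mul]
    congr 2
    exact Subtype.ext (by simp [wd])
  rw [h]; exact hasSum_rel _ _

lemma mem_of_dl {M E : Type} [NormedAddCommGroup E] [NormedSpace ℂ E] (S : Submodule ℂ E)
    (hS : IsClosed (S : Set E)) (T : L M →L[ℂ] E) (h : ∀ m, T (dl m) ∈ S) (f : L M) :
    T f ∈ S := by
  refine hS.mem_of_tendsto ((hasSum_dl f).mapL T) (Eventually.of_forall fun s => ?_)
  exact S.sum_mem fun m _ => by rw [map_smul]; exact S.smul_mem _ (h m)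

lemma mem_of_gen {E F : Type} [NormedAddCommGroup E] [NormedSpace ℂ E] [NormedAddCommGroup F]
    [NormedSpace ℂ F] (S : Submodule ℂ F)
    (hS : IsClosed (S : Set F)) (T : E →L[ℂ] F) (G : Set E) (h : ∀ g ∈ G, T g ∈ S) (x : E)
    (hx : x ∈ (Submodule.span ℂ G).topologicalClosure) : T x ∈ S := by
  have : (Submodule.span ℂ G).topologicalClosure ≤ S.comap (T : E →ₗ[ℂ] F) :=
    Submodule.topologicalClosure_minimal _ (Submodule.span_le.2 h) (hS.preimage T.continuous)
  exact this hx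

def gens : Set (L W) := {x | ∃ u v, (u ≠ [] ∨ v ≠ []) ∧ x = rel u v}

noncomputable def Is : Submodule ℂ (L W) := (Submodule.span ℂ gens).topologicalClosure

lemma Is_closed : IsClosed (Is : Set (L W)) := Submodule.isClosed_topologicalClosure _

lemma gen_mem {x : L W} (h : x ∈ gens) : x ∈ Is :=
  Submodule.le_topologicalClosure _ (Submodule.subset_span h)

lemma mul_rel (a : L W) (u v : List ℕ) : a * rel u v ∈ Is :=
  mem_of_dl Is Is_closed (mulL.flip (rel u v)) (fun w => gen_mem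
    ⟨w.1 ++ u, v, Or.inl (fun h => w.2 (List.append_eq_nil_iff.1 h).1), dl_rel w u v⟩) a

lemma rel_mul (a : L W) (u v : List ℕ) : rel u v * a ∈ Is :=
  mem_of_dl Is Is_closed (mulL (rel u v)) (fun w => gen_mem
    ⟨u, v ++ w.1, Or.inr (fun h => w.2 (List.append_eq_nil_iff.1 h).2), rel_dl w u v⟩) a

noncomputable def I : CI (L W) where
  I := Is
  closed := Is_closed
  left a x hx := mem_of_gen Is Is_closed (mulL a) gens
    (by rintro _ ⟨u, v, -, rfl⟩; exact mul_rel a u v) x hx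
  right a x hx := mem_of_gen Is Is_closed (mulL.flip a) gens
    (by rintro _ ⟨u, v, -, rfl⟩; exact rel_mul a u v) x hx

abbrev A := Q I

noncomputable def rA : A := mk I (rel [] [])

lemma mul_rA (a : A) : a * rA = 0 := by
  obtain ⟨f, rfl⟩ := mk_surj I a
  rw [rA, ← mk_mul, mk_eq_zero]; exact mul_rel _ _ _

lemma rA_mul (a : A) : rA * a = 0 := by
  obtain ⟨f, rfl⟩ := mk_surj I a
  rw [rA, ← mk_mul, mk_eq_zero]; exact rel_mul _ _ _

noncomputable def R : CI A where
  I := Submodule.span ℂ {rA}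
  closed := Submodule.closed_of_finiteDimensional _
  left a x hx := by
    obtain ⟨c, rfl⟩ := Submodule.mem_span_singleton.1 hx
    rw [mul_smul_comm, mul_rA, smul_zero]; exact Submodule.zero_mem _
  right a x hx := by
    obtain ⟨c, rfl⟩ := Submodule.mem_span_singleton.1 hx
    rw [smul_mul_assoc, rA_mul, smul_zero]; exact Submodule.zero_mem _

abbrev B := Q R

noncomputable def q2 : L W →L[ℂ] B := (mkL R).comp (mkL I)

lemma q2_apply (f : L W) : q2 f = mk R (mk I f) := rfl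

lemma q2_rel (u v : List ℕ) : q2 (rel u v) = 0 := by
  rw [q2_apply, mk_eq_zero]
  by_cases h : u ≠ [] ∨ v ≠ []
  · rw [(mk_eq_zero I _).2 (gen_mem ⟨u, v, h, rfl⟩)]; exact Submodule.zero_mem _
  · push Not at h
    rw [h.1, h.2]; exact Submodule.subset_span rfl

/-- bounded functions on words killing the relations -/
def Good (φ : List ℕ → ℂ) : Prop :=
  (∀ w, ‖φ w‖ ≤ 1) ∧
    ∀ u v : List ℕ, HasSum (fun n : ℕ => (1 / 2 : ℂ) ^ n * φ (u ++ [n + 1, n + 1] ++ v)) 0

noncomputable def ev (φ : List ℕ → ℂ) (h : ∀ w, ‖φ w‖ ≤ 1) : L W →L[ℂ] ℂ :=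
  lift (fun w : W => φ w.1) 1 (fun w => h w.1)

@[simp] lemma ev_dl (φ : List ℕ → ℂ) (h : ∀ w, ‖φ w‖ ≤ 1) (w : W) : ev φ h (dl w) = φ w.1 :=
  lift_dl _ _ _ _

lemma ev_rel {φ : List ℕ → ℂ} (h : ∀ w, ‖φ w‖ ≤ 1) (u v : List ℕ) :
    HasSum (fun n : ℕ => (1 / 2 : ℂ) ^ n * φ (u ++ [n + 1, n + 1] ++ v)) (ev φ h (rel u v)) := by
  have := (hasSum_rel u v).mapL (ev φ h)
  simpa [wd] using this

lemma ev_le {φ : List ℕ → ℂ} (h : ∀ w, ‖φ w‖ ≤ 1)
    (h' : ∀ u v, (u ≠ [] ∨ v ≠ []) → ev φ h (rel u v) = 0) (f : L W) :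
    ‖ev φ h f‖ ≤ ‖mk I f‖ := by
  have := le_norm_mk I (ev φ h) 1 zero_le_one (lift_le _ _ _) (fun x hx => by
    have := mem_of_gen ⊥ (by simp) (ev φ h) gens
      (by rintro _ ⟨u, v, h1, rfl⟩; exact h' u v h1) x hx
    simpa using this) f
  simpa using this

lemma Good.le {φ : List ℕ → ℂ} (h : Good φ) (f : L W) : ‖ev φ h.1 f‖ ≤ ‖mk I f‖ :=
  ev_le h.1 (fun u v _ => (ev_rel h.1 u v).unique (h.2 u v)) f

lemma Good.le2 {φ : List ℕ → ℂ} (h : Good φ) (f : L W) : ‖ev φ h.1 f‖ ≤ ‖q2 f‖ := by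
  refine le_of_forall_pos_le_add fun ε hε => ?_
  obtain ⟨a, ha, ha'⟩ := norm_mk_lt R (q2 f) hε
  obtain ⟨c, hc⟩ := Submodule.mem_span_singleton.1 ((mk_eq R _ _).1 ha)
  have h1 : a = mk I (f + c • rel [] []) := by
    rw [map_add, map_smul]; exact (sub_eq_iff_eq_add'.1 hc.symm)
  have h2 := h.le (f + c • rel [] [])
  rw [map_add, map_smul, (ev_rel h.1 [] []).unique (h.2 [] []), smul_zero, add_zero, ← h1] at h2
  linarith

lemma exists_good {f : L W} (hf : q2 f ≠ 0) : ∃ (φ : List ℕ → ℂ) (h : Good φ), ev φ h.1 f ≠ 0 := by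
  classical
  obtain ⟨Φ, hΦ, hΦ'⟩ := exists_dual_vector ℂ (q2 f) (norm_ne_zero_iff.2 hf)
  let φ : List ℕ → ℂ := fun w => if h : w = [] then 0 else Φ (q2 (dl ⟨w, h⟩))
  have h1 : ∀ w, ‖φ w‖ ≤ 1 := fun w => by
    simp only [φ]
    split_ifs with h
    · simp
    · refine (Φ.le_opNorm _).trans ?_
      rw [hΦ, one_mul]
      exact (norm_mk_le R _).trans ((norm_mk_le I _).trans (norm_dl _).le)
  have h2 : ev φ h1 = Φ.comp q2 := clm_ext fun w => by simp [φ, w.2]
  refine ⟨φ, ⟨h1, fun u v => ?_⟩, ?_⟩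
  · have := ev_rel h1 u v
    rwa [h2, ContinuousLinearMap.comp_apply, q2_rel, map_zero] at this
  · rw [h2, ContinuousLinearMap.comp_apply, hΦ']
    exact RCLike.ofReal_ne_zero.2 (norm_ne_zero_iff.2 hf)

noncomputable def Qd (d : ℕ) : L W →L[ℂ] L W :=
  lift (fun w : W => if d ≤ w.1.length then dl w else 0) 1 (fun w => by split_ifs <;> simp)

lemma Qd_dl (d : ℕ) (w : W) : Qd d (dl w) = if d ≤ w.1.length then dl w else 0 := lift_dl _ _ _ _

lemma Qd_zero (f : L W) : Qd 0 f = f := by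
  have : Qd 0 = ContinuousLinearMap.id ℂ _ := clm_ext fun w => by simp [Qd_dl]
  rw [this]; rfl

lemma Qd_tendsto (f : L W) : Tendsto (fun d => Qd d f) atTop (𝓝 0) := by
  rw [Metric.tendsto_atTop]
  intro ε hε
  obtain ⟨s, hs⟩ := (Metric.tendsto_nhds.1 (hasSum_dl f) ε hε).exists
  refine ⟨s.sup (fun w => w.1.length) + 1, fun d hd => ?_⟩
  have h1 : Qd d (∑ w ∈ s, f.ap w • dl w) = 0 := by
    rw [map_sum]
    refine Finset.sum_eq_zero fun w hw => ?_
    have : w.1.length ≤ s.sup (fun w => w.1.length) := Finset.le_sup (f := fun w : W => w.1.length) hw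
    rw [map_smul, Qd_dl, if_neg (by omega), smul_zero]
  have h2 := lift_le (fun w : W => if d ≤ w.1.length then dl w else 0) 1
    (fun w => by split_ifs <;> simp) (∑ w ∈ s, f.ap w • dl w - f)
  change ‖Qd d _‖ ≤ _ at h2
  rw [map_sub, h1, zero_sub, norm_neg, one_mul, ← dist_eq_norm] at h2
  rw [dist_zero_right]; linarith

def Hom (d : ℕ) (φ : List ℕ → ℂ) : Prop := ∀ w, w.length ≠ d → φ w = 0

def star (d : ℕ) (φ ψ : List ℕ → ℂ) (w : List ℕ) : ℂ := φ (w.take d) * ψ (w.drop d)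

lemma star_le {φ ψ : List ℕ → ℂ} (h : ∀ w, ‖φ w‖ ≤ 1) (h' : ∀ w, ‖ψ w‖ ≤ 1) (d : ℕ) (w : List ℕ) :
    ‖star d φ ψ w‖ ≤ 1 := by
  rw [star, norm_mul]; exact mul_le_one₀ (h _) (norm_nonneg _) (h' _)

lemma star_good {φ ψ : List ℕ → ℂ} (h : Good φ) (h' : Good ψ) (d : ℕ)
    (hs : (∀ w n, ψ ((n + 1) :: w) = 0) ∨ (∀ w n, φ (w ++ [n + 1]) = 0)) :
    Good (star d φ ψ) := by
  refine ⟨star_le h.1 h'.1 d, fun u v => ?_⟩
  rcases le_or_gt d u.length with h1 | h1
  · have := (h'.2 (u.drop d) v).mul_left (φ (u.take d))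
    rw [mul_zero] at this
    have e : (fun n : ℕ => (1 / 2 : ℂ) ^ n * star d φ ψ (u ++ [n + 1, n + 1] ++ v)) =
        fun n : ℕ => φ (u.take d) * ((1 / 2 : ℂ) ^ n * ψ (u.drop d ++ [n + 1, n + 1] ++ v)) := by
      funext n
      rw [star, List.append_assoc, List.take_append_of_le_length h1,
        List.drop_append_of_le_length h1, List.append_assoc]
      ring
    rw [e]; exact this
  rcases eq_or_lt_of_le (Nat.succ_le_of_lt h1) with h2 | h2
  · have e : (fun n : ℕ => (1 / 2 : ℂ) ^ n * star d φ ψ (u ++ [n + 1, n + 1] ++ v)) =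
        fun _ => 0 := by
      funext n
      have e1 : u ++ [n + 1, n + 1] ++ v = (u ++ [n + 1]) ++ ((n + 1) :: v) := by simp
      have e2 : (u ++ [n + 1]).length = d := by simpa using h2
      rw [star, e1, List.take_left' e2, List.drop_left' e2]
      rcases hs with hs | hs <;> simp [hs]
    rw [e]; exact hasSum_zero
  · obtain ⟨k, rfl⟩ : ∃ k, d = u.length + 2 + k := ⟨d - (u.length + 2), by omega⟩
    have := (h.2 u (v.take k)).mul_right (ψ (v.drop k))
    rw [zero_mul] at this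
    have e : (fun n : ℕ => (1 / 2 : ℂ) ^ n *
        star (u.length + 2 + k) φ ψ (u ++ [n + 1, n + 1] ++ v)) =
        fun n : ℕ => (1 / 2 : ℂ) ^ n * φ (u ++ [n + 1, n + 1] ++ v.take k) * ψ (v.drop k) := by
      funext n
      have e2 : u.length + 2 + k = (u ++ [n + 1, n + 1]).length + k := by simp
      rw [star, e2, List.take_length_add_append, List.drop_length_add_append]
      ring
    rw [e]; exact this

lemma star_hom {φ ψ : List ℕ → ℂ} {d e : ℕ} (h : Hom d φ) (h' : Hom e ψ) :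
    Hom (d + e) (star d φ ψ) := by
  intro w hw
  by_cases h1 : (w.take d).length = d
  · rw [star, h' (w.drop d), mul_zero]
    simp only [List.length_take, List.length_drop] at h1 ⊢; omega
  · rw [star, h _ h1, zero_mul]

lemma star_mul {φ ψ : List ℕ → ℂ} {d e : ℕ} (h : Hom d φ) (h' : Hom e ψ)
    (h1 : ∀ w, ‖φ w‖ ≤ 1) (h2 : ∀ w, ‖ψ w‖ ≤ 1) (f g : L W) :
    ev _ (star_le h1 h2 d) (Qd d f * Qd e g) = ev φ h1 (Qd d f) * ev ψ h2 (Qd e g) := by
  have := ext₂ (S := ((ContinuousLinearMap.compL ℂ _ _ _ (ev _ (star_le h1 h2 d))).comp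
      mulL).bilinearComp (Qd d) (Qd e))
    (T := (ContinuousLinearMap.mul ℂ ℂ).bilinearComp ((ev φ h1).comp (Qd d))
      ((ev ψ h2).comp (Qd e))) (fun u v => by
      show ev _ (star_le h1 h2 d) (Qd d (dl u) * Qd e (dl v)) =
        ev φ h1 (Qd d (dl u)) * ev ψ h2 (Qd e (dl v))
      rw [Qd_dl, Qd_dl]
      split_ifs with a1 a2
      · rw [dl_mul, ev_dl, ev_dl, ev_dl, mul_val]
        by_cases a3 : u.1.length = d
        · rw [star, List.take_left' a3, List.drop_left' a3]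
        · rw [star_hom h h' _ (by rw [List.length_append]; omega), h _ a3, zero_mul]
      all_goals simp) f g
  exact this

lemma Qd_mul (d e : ℕ) (f g : L W) : Qd (d + e) (Qd d f * Qd e g) = Qd d f * Qd e g := by
  have := ext₂ (S := ((ContinuousLinearMap.compL ℂ _ _ _ (Qd (d + e))).comp
      mulL).bilinearComp (Qd d) (Qd e))
    (T := mulL.bilinearComp (Qd d) (Qd e)) (fun u v => by
      show Qd (d + e) (Qd d (dl u) * Qd e (dl v)) = Qd d (dl u) * Qd e (dl v)
      rw [Qd_dl, Qd_dl]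
      split_ifs with a1 a2
      · rw [dl_mul, Qd_dl, if_pos (by rw [mul_val, List.length_append]; omega)]
      all_goals simp) f g
  exact this

def zw : W := ⟨[0], by simp⟩

lemma exists_hom {f : L W} (hf : q2 f ≠ 0) : ∃ (d : ℕ) (φ : List ℕ → ℂ) (h : Good φ),
    Hom d φ ∧ q2 (f - Qd d f) = 0 ∧ ev φ h.1 (Qd d f) ≠ 0 := by
  classical
  have hex : ∃ d, q2 (f - Qd (d + 1) f) ≠ 0 := by
    by_contra hcon
    push Not at hcon
    have h1 : Tendsto (fun d => q2 (f - Qd (d + 1) f)) atTop (𝓝 (q2 (f - 0))) :=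
      (q2.continuous.tendsto _).comp
        (((Qd_tendsto f).comp (tendsto_add_atTop_nat 1)).const_sub f)
    simp only [hcon, sub_zero] at h1
    exact hf (tendsto_nhds_unique h1 tendsto_const_nhds)
  let d := Nat.find hex
  have h1 : q2 (f - Qd d f) = 0 := by
    rcases Nat.eq_zero_or_pos d with h0 | h0
    · rw [h0, Qd_zero, sub_self, map_zero]
    · have := Nat.find_min hex (m := d - 1) (by omega)
      rw [show d - 1 + 1 = d by omega] at this
      exact not_not.1 this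
  have h2 : q2 (Qd d f - Qd (d + 1) f) ≠ 0 := by
    intro h
    apply Nat.find_spec hex
    have : f - Qd (d + 1) f = (f - Qd d f) + (Qd d f - Qd (d + 1) f) := by abel
    show q2 (f - Qd (d + 1) f) = 0
    rw [this, map_add, h1, h, add_zero]
  obtain ⟨φ, hφ, h3⟩ := exists_good h2
  let ψ : List ℕ → ℂ := fun w => if w.length = d then φ w else 0
  have hψ : Good ψ := by
    refine ⟨fun w => by simp only [ψ]; split_ifs; exacts [hφ.1 w, by simp], fun u v => ?_⟩
    by_cases h : u.length + 2 + v.length = d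
    · have e : (fun n : ℕ => (1 / 2 : ℂ) ^ n * ψ (u ++ [n + 1, n + 1] ++ v)) =
          fun n : ℕ => (1 / 2 : ℂ) ^ n * φ (u ++ [n + 1, n + 1] ++ v) := by
        funext n; simp only [ψ]; rw [if_pos (by simp; omega)]
      rw [e]; exact hφ.2 u v
    · have e : (fun n : ℕ => (1 / 2 : ℂ) ^ n * ψ (u ++ [n + 1, n + 1] ++ v)) = fun _ => 0 := by
        funext n; simp only [ψ]; rw [if_neg (by simp; omega), mul_zero]
      rw [e]; exact hasSum_zero
  refine ⟨d, ψ, hψ, fun w hw => if_neg hw, h1, ?_⟩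
  have : (ev ψ hψ.1).comp (Qd d) = (ev φ hφ.1).comp (Qd d - Qd (d + 1)) := clm_ext fun w => by
    simp only [ContinuousLinearMap.comp_apply, sub_apply, Qd_dl]
    rcases lt_trichotomy w.1.length d with h | h | h
    · rw [if_neg (by omega), if_neg (by omega)]; simp
    · rw [if_pos (by omega), if_neg (by omega)]; simp [ψ, h]
    · rw [if_pos (by omega), if_pos (by omega)]; simp [ψ, h.ne']
  exact fun h => h3 ((congrArg (fun T : L W →L[ℂ] ℂ => T f) this).symm.trans h)

theorem radical (a : A) : a ∈ R.I ↔ (a : Unitization ℂ A) ∈ Ring.jacobson (Unitization ℂ A) := by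
  constructor
  · intro ha
    obtain ⟨c, rfl⟩ := Submodule.mem_span_singleton.1 ha
    rw [← Ideal.jacobson_bot, Ideal.mem_jacobson_iff]
    intro y
    have h1 : ∃ t : ℂ, y * ((c • rA : A) : Unitization ℂ A) = ((t • rA : A) : Unitization ℂ A) := by
      induction y using Unitization.ind with
      | inl_add_inr s b =>
        refine ⟨s * c, ?_⟩
        rw [add_mul, Unitization.inl_mul_inr, ← Unitization.inr_mul, mul_smul_comm, mul_rA,
          smul_zero, smul_smul]; simp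
    obtain ⟨t, ht⟩ := h1
    refine ⟨1 - ((t • rA : A) : Unitization ℂ A), ?_⟩
    rw [Ideal.mem_bot, mul_assoc, ht, sub_mul, one_mul, ← Unitization.inr_mul, mul_smul_comm,
      mul_rA, smul_zero]
    simp
  · intro ha
    obtain ⟨f, rfl⟩ := mk_surj I a
    by_contra hn
    have hf : q2 f ≠ 0 := fun h => hn ((mk_eq_zero R _).1 h)
    obtain ⟨d, φ, hφ, hd, h1, h2⟩ := exists_hom hf
    let ι : List ℕ → ℂ := fun w => if w = [0] then 1 else 0
    have hι : Good ι := by
      refine ⟨fun w => by simp only [ι]; split_ifs <;> simp, fun u v => ?_⟩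
      have e : (fun n : ℕ => (1 / 2 : ℂ) ^ n * ι (u ++ [n + 1, n + 1] ++ v)) = fun _ => 0 := by
        funext n; simp only [ι]
        rw [if_neg (fun h => by have := congrArg List.length h; simp at this; omega), mul_zero]
      rw [e]; exact hasSum_zero
    have hι1 : Hom 1 ι := fun w hw => if_neg (by rintro rfl; simp at hw)
    have hψ : Good (star 1 ι φ) := star_good hι hφ 1 (Or.inr fun w n => if_neg (fun h => by
      have := congrArg List.getLast? h; simp at this))
    have hψ1 := star_hom hι1 hd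
    set ψ := star 1 ι φ
    have hψ0 : ∀ w n, ψ ((n + 1) :: w) = 0 := fun w n => by simp [ψ, star, ι]
    have hz : Qd 1 (dl zw) = dl zw := by rw [Qd_dl, if_pos (by simp [zw])]
    set g := dl zw * Qd d f with hg
    have hg1 : Qd (1 + d) g = g := by rw [hg, ← hz]; exact Qd_mul 1 d _ _
    have hg2 : ev ψ hψ.1 g = ev φ hφ.1 (Qd d f) := by
      have := star_mul hι1 hd hι.1 hφ.1 (dl zw) f
      rw [hz, ev_dl, show ι zw.1 = 1 by simp [zw, ι], one_mul] at this
      exact this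
    let p : ℕ → L W := fun n => Nat.rec g (fun _ x => g * x) n
    have key : ∀ n, ∃ (e : ℕ) (χ : List ℕ → ℂ) (h : Good χ), Hom e χ ∧
        (∀ w k, χ ((k + 1) :: w) = 0) ∧ Qd e (p n) = p n ∧
        ev χ h.1 (p n) = ev ψ hψ.1 g ^ (n + 1) := by
      intro n
      induction n with
      | zero => exact ⟨1 + d, ψ, hψ, hψ1, hψ0, hg1, by simp [p]⟩
      | succ n ih =>
        obtain ⟨e, χ, h, a1, a2, a3, a4⟩ := ih
        refine ⟨1 + d + e, star (1 + d) ψ χ, star_good hψ h _ (Or.inl a2), star_hom hψ1 a1,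
          fun w k => ?_, ?_, ?_⟩
        · rw [star, add_comm 1 d, List.take_succ_cons, hψ0, zero_mul]
        · have := Qd_mul (1 + d) e g (p n)
          rwa [hg1, a3] at this
        · have := star_mul hψ1 a1 hψ.1 h.1 g (p n)
          rw [hg1, a3, a4] at this
          rw [pow_succ' _ (n + 1)]; exact this
    have hj : ((mk I g : A) : Unitization ℂ A) ∈ Ring.jacobson (Unitization ℂ A) := by
      have e1 : mk I g = mk I (dl zw) * mk I f := by
        obtain ⟨c, hc⟩ := Submodule.mem_span_singleton.1 ((mk_eq_zero R _).1 h1)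
        replace hc : c • rA = mk I f - mk I (Qd d f) := by rw [← map_sub]; exact hc
        rw [hg, mk_mul, ← sub_eq_zero, ← neg_eq_zero, neg_sub, ← mul_sub, ← hc, mul_smul_comm,
          mul_rA, smul_zero]
      rw [e1, Unitization.inr_mul]
      exact Ideal.mul_mem_left _ _ ha
    obtain ⟨n, hn⟩ := jac_quasi (mk I g) hj (fun n => mk I (p n)) rfl (fun n => rfl)
      (norm_pos_iff.2 h2)
    obtain ⟨e, χ, h, -, -, -, a4⟩ := key n
    have := h.le (p n)
    rw [a4, hg2, norm_pow] at this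
    linarith

end Pool.Agent.H87.PS
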