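import Mathlib
import Pool.Agent.H87.PropS1

namespace Pool.Agent.H87.PS

open Filter Topology L1Alg QAlg

section
variable {E : Type} [NonUnitalNormedRing E]

def Rep (x : E) (c : ℝ) : Prop :=
  ∃ (ι : Type) (_ : Fintype ι) (a b : ι → E), x = ∑ i, a i * b i ∧ ∑ i, ‖a i‖ * ‖b i‖ ≤ c

lemma Rep.add {x y : E} {c d : ℝ} (h : Rep x c) (h' : Rep y d) : Rep (x + y) (c + d) := by
  obtain ⟨ι, _, a, b, rfl, h1⟩ := h
  obtain ⟨κ, _, a', b', rfl, h2⟩ := h'
  exact ⟨ι ⊕ κ, inferInstance, Sum.elim a a', Sum.elim b b', by simp [Fintype.sum_sum_type],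
    by simpa [Fintype.sum_sum_type] using add_le_add h1 h2⟩

lemma Rep.mono {x : E} {c d : ℝ} (h : Rep x c) (h' : c ≤ d) : Rep x d := by
  obtain ⟨ι, _, a, b, rfl, h1⟩ := h
  exact ⟨ι, inferInstance, a, b, rfl, h1.trans h'⟩

lemma Rep.mul (a b : E) : Rep (a * b) (‖a‖ * ‖b‖) :=
  ⟨Unit, inferInstance, fun _ => a, fun _ => b, by simp, by simp⟩

lemma Rep.zero : Rep (0 : E) 0 := by simpa using Rep.mul (0 : E) 0

lemma Rep.norm_le {x : E} {c : ℝ} (h : Rep x c) : ‖x‖ ≤ c := by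
  obtain ⟨ι, _, a, b, rfl, h1⟩ := h
  exact (norm_sum_le _ _).trans ((Finset.sum_le_sum fun i _ => norm_mul_le _ _).trans h1)

lemma Rep.smul [NormedSpace ℂ E] [IsScalarTower ℂ E E] {x : E} {c : ℝ} (h : Rep x c) (t : ℂ) :
    Rep (t • x) (‖t‖ * c) := by
  obtain ⟨ι, _, a, b, rfl, h1⟩ := h
  refine ⟨ι, inferInstance, fun i => t • a i, b, by simp [Finset.smul_sum, smul_mul_assoc], ?_⟩
  simp only [norm_smul, mul_assoc, ← Finset.mul_sum]
  exact mul_le_mul_of_nonneg_left h1 (norm_nonneg _)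

lemma Rep.sum {I : Type} (s : Finset I) (x : I → E) (c : I → ℝ) (h : ∀ i ∈ s, Rep (x i) (c i)) :
    Rep (∑ i ∈ s, x i) (∑ i ∈ s, c i) := by
  classical
  induction s using Finset.induction_on with
  | empty => simpa using Rep.zero
  | insert i s hi ih =>
    rw [Finset.sum_insert hi, Finset.sum_insert hi]
    exact (h i (Finset.mem_insert_self _ _)).add (ih fun j hj => h j (Finset.mem_insert_of_mem hj))

lemma Rep.fin {x : E} {c : ℝ} (h : Rep x c) :
    ∃ (n : ℕ) (a b : Fin n → E), x = ∑ i, a i * b i ∧ ∑ i, ‖a i‖ * ‖b i‖ ≤ c := by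
  obtain ⟨ι, _, a, b, rfl, h1⟩ := h
  let e := (Fintype.equivFin ι).symm
  exact ⟨_, a ∘ e, b ∘ e, (e.sum_comp fun i => a i * b i).symm,
    (e.sum_comp fun i => ‖a i‖ * ‖b i‖).le.trans h1⟩
end

def Fin2 : Submodule ℂ (L W) where
  carrier := {f | ∃ s : Finset W, ∀ w, f.ap w ≠ 0 → w ∈ s ∧ 2 ≤ w.1.length}
  add_mem' := by
    classical
    rintro f g ⟨s, hs⟩ ⟨t, ht⟩
    refine ⟨s ∪ t, fun w hw => ?_⟩
    by_cases h : f.ap w = 0
    · have := ht w (fun h' => hw (by simp [h, h']))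
      exact ⟨Finset.mem_union_right _ this.1, this.2⟩
    · exact ⟨Finset.mem_union_left _ (hs w h).1, (hs w h).2⟩
  zero_mem' := ⟨∅, by simp⟩
  smul_mem' := by
    rintro c f ⟨s, hs⟩
    exact ⟨s, fun w hw => hs w fun h => hw (by simp [h])⟩

lemma dl_mul_mem (u v : W) : dl u * dl v ∈ Fin2 := by
  classical
  rw [dl_mul]
  refine ⟨{u * v}, fun w hw => ?_⟩
  rw [dl_ap] at hw
  have : w = u * v := by by_contra h; simp [h] at hw
  subst this
  have h1 := List.length_pos_iff.2 u.2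
  have h2 := List.length_pos_iff.2 v.2
  simp only [Finset.mem_singleton, mul_val, List.length_append, true_and]; omega

lemma Fin2.rep {f : L W} (hf : f ∈ Fin2) : Rep f ‖f‖ := by
  classical
  obtain ⟨s, hs⟩ := hf
  let s' := s.filter fun w => f.ap w ≠ 0
  have h1 : f = ∑ w ∈ s', f.ap w • dl w :=
    (hasSum_dl f).unique (hasSum_sum_of_ne_finset_zero fun w hw => by
      have : f.ap w = 0 := by
        by_contra h; exact hw (Finset.mem_filter.2 ⟨(hs w h).1, h⟩)
      rw [this, zero_smul])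
  have h2 := Rep.sum s' (fun w => f.ap w • dl w) (fun w => ‖f.ap w‖) (fun w hw => by
    have h3 := (hs w (Finset.mem_filter.1 hw).2).2
    obtain ⟨l, hl⟩ := w
    match l, hl, h3 with
    | x :: y :: l, hl, _ =>
      have := (Rep.mul (E := L W) (dl (M := W) ⟨[x], by simp⟩)
        (dl (M := W) ⟨y :: l, by simp⟩)).smul (f.ap ⟨x :: y :: l, hl⟩)
      rw [dl_mul, norm_dl, norm_dl, mul_one, mul_one] at this
      exact this)
  rw [← h1] at h2
  exact h2.mono (sum_le_hasSum _ (fun _ _ => norm_nonneg _) (hasSum_norm f))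

lemma approx (a : L W) {ε : ℝ} (hε : 0 < ε) :
    ∃ a₀ ∈ Submodule.span ℂ (Set.range (dl : W → L W)), ‖a - a₀‖ < ε := by
  obtain ⟨s, hs⟩ := (Metric.tendsto_nhds.1 (hasSum_dl a) ε hε).exists
  exact ⟨_, Submodule.sum_mem _ fun w _ => Submodule.smul_mem _ _
    (Submodule.subset_span ⟨w, rfl⟩), by rwa [dist_comm, dist_eq_norm] at hs⟩

lemma sq_approx {F : L W} (hF : F ∈ Submodule.span ℂ {z : L W | ∃ a b, z = a * b}) :
    ∀ ε > 0, ∃ F₀ ∈ Fin2, Rep (F - F₀) ε := by
  induction hF using Submodule.span_induction with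
  | mem x hx =>
    obtain ⟨a, b, rfl⟩ := hx
    intro ε hε
    obtain ⟨a₀, ha₀, ha⟩ := approx a (show 0 < ε / (2 * (‖b‖ + 1)) by positivity)
    obtain ⟨b₀, hb₀, hb⟩ := approx b (show 0 < ε / (2 * (‖a₀‖ + 1)) by positivity)
    refine ⟨a₀ * b₀, ?_, ?_⟩
    · clear ha hb
      induction ha₀, hb₀ using Submodule.span_induction₂ with
      | mem_mem x y hx hy =>
        obtain ⟨u, rfl⟩ := hx
        obtain ⟨v, rfl⟩ := hy
        exact dl_mul_mem u v
      | zero_left y hy => simp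
      | zero_right x hx => simp
      | add_left x y z _ _ _ h1 h2 => rw [add_mul]; exact Submodule.add_mem _ h1 h2
      | add_right x y z _ _ _ h1 h2 => rw [mul_add]; exact Submodule.add_mem _ h1 h2
      | smul_left r x y _ _ h => rw [smul_mul_assoc]; exact Submodule.smul_mem _ _ h
      | smul_right r x y _ _ h => rw [mul_smul_comm]; exact Submodule.smul_mem _ _ h
    · have : a * b - a₀ * b₀ = (a - a₀) * b + a₀ * (b - b₀) := by
        rw [sub_mul, mul_sub]; abel
      rw [this]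
      refine ((Rep.mul _ _).add (Rep.mul _ _)).mono ?_
      rw [lt_div_iff₀ (by positivity)] at ha hb
      nlinarith [norm_nonneg (a - a₀), norm_nonneg (b - b₀)]
  | zero => exact fun ε hε => ⟨0, Submodule.zero_mem _, by simpa using Rep.zero.mono hε.le⟩
  | add x y _ _ h1 h2 =>
    intro ε hε
    obtain ⟨F, hF, h1⟩ := h1 _ (half_pos hε)
    obtain ⟨G, hG, h2⟩ := h2 _ (half_pos hε)
    refine ⟨F + G, Submodule.add_mem _ hF hG, ?_⟩
    have := h1.add h2
    rwa [add_halves, show x - F + (y - G) = x + y - (F + G) by abel] at this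
  | smul t x _ h1 =>
    intro ε hε
    obtain ⟨F, hF, h1⟩ := h1 _ (show 0 < ε / (‖t‖ + 1) by positivity)
    refine ⟨t • F, Submodule.smul_mem _ _ hF, ?_⟩
    rw [← smul_sub]
    refine (h1.smul t).mono ?_
    rw [← mul_div_assoc, div_le_iff₀ (by positivity)]
    nlinarith

lemma sq_rep {F : L W} (hF : F ∈ Submodule.span ℂ {z : L W | ∃ a b, z = a * b}) {ε : ℝ}
    (hε : 0 < ε) : Rep F (‖F‖ + ε) := by
  obtain ⟨F₀, h1, h2⟩ := sq_approx hF _ (half_pos hε)
  have h3 := (Fin2.rep h1).add h2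
  rw [add_sub_cancel] at h3
  refine h3.mono ?_
  have h4 : ‖F₀‖ ≤ ‖F‖ + ‖F - F₀‖ := by
    calc ‖F₀‖ = ‖F - (F - F₀)‖ := by simp
      _ ≤ _ := norm_sub_le _ _
  linarith [h2.norm_le]

theorem propS_A : PropS A := by
  refine ⟨2, by norm_num, fun x hx => ?_⟩
  by_cases h0 : x = 0
  · exact ⟨0, Fin.elim0, Fin.elim0, by simp [h0], by simp [h0]⟩
  have hpos : 0 < ‖x‖ / 3 := by have := norm_pos_iff.2 h0; positivity
  obtain ⟨f, hf, rfl⟩ : ∃ f ∈ Submodule.span ℂ {z : L W | ∃ a b, z = a * b}, mk I f = x := by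
    have : Submodule.span ℂ {z : A | ∃ a b : A, z = a * b} ≤
        (Submodule.span ℂ {z : L W | ∃ a b, z = a * b}).map (mk I) := by
      refine Submodule.span_le.2 ?_
      rintro _ ⟨a, b, rfl⟩
      obtain ⟨a, rfl⟩ := mk_surj I a
      obtain ⟨b, rfl⟩ := mk_surj I b
      exact ⟨a * b, Submodule.subset_span ⟨a, b, rfl⟩, rfl⟩
    exact this hx
  obtain ⟨g, hg, hg'⟩ := norm_mk_lt I (mk I f) hpos
  obtain ⟨i, hi, hi'⟩ := Metric.mem_closure_iff.1 ((mk_eq I _ _).1 hg) _ hpos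
  have hi2 : i ∈ Submodule.span ℂ {z : L W | ∃ a b, z = a * b} := by
    refine Submodule.span_mono ?_ hi
    rintro _ ⟨u, v, h, rfl⟩
    rcases h with h | h
    · exact ⟨dl ⟨u, h⟩, rel [] v, by rw [dl_rel]; simp⟩
    · exact ⟨rel u [], dl ⟨v, h⟩, by rw [rel_dl]; simp⟩
  have h1 := sq_rep (Submodule.add_mem _ hf hi2) hpos
  have h2 : ‖f + i‖ ≤ ‖g‖ + ‖g - f - i‖ := by
    calc ‖f + i‖ = ‖g - (g - f - i)‖ := by congr 1; abel
      _ ≤ _ := norm_sub_le _ _
  rw [dist_eq_norm] at hi'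
  obtain ⟨n, a, b, h3, h4⟩ := h1.fin
  refine ⟨n, fun k => mk I (a k), fun k => mk I (b k), ?_, ?_⟩
  · have : mk I i = 0 := (mk_eq_zero I _).2 (Submodule.le_topologicalClosure _ hi)
    simp only [← mk_mul, ← map_sum, ← h3, map_add, this, add_zero]
  · refine le_trans (Finset.sum_le_sum fun k _ => mul_le_mul (norm_mk_le I _) (norm_mk_le I _)
      (norm_nonneg _) (norm_nonneg _)) (h4.trans ?_)
    linarith

noncomputable def ind (l : List ℕ) : List ℕ → ℂ := fun w => if w = l then 1 else 0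

lemma ind_le (l w : List ℕ) : ‖ind l w‖ ≤ 1 := by unfold ind; split_ifs <;> simp

lemma ind_good (s : ℕ) : Good (ind [s]) := by
  refine ⟨ind_le _, fun u v => ?_⟩
  have e : (fun n : ℕ => (1 / 2 : ℂ) ^ n * ind [s] (u ++ [n + 1, n + 1] ++ v)) = fun _ => 0 := by
    funext n; simp only [ind]
    rw [if_neg (fun h => by have := congrArg List.length h; simp at this; omega), mul_zero]
  rw [e]; exact hasSum_zero

lemma ind_mul (s t : ℕ) (g h : L W) :
    ev _ (ind_le [s, t]) (g * h) = ev _ (ind_le [s]) g * ev _ (ind_le [t]) h := by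
  have := ext₂ (S := ((ContinuousLinearMap.compL ℂ _ _ _ (ev _ (ind_le [s, t]))).comp mulL))
    (T := (ContinuousLinearMap.mul ℂ ℂ).bilinearComp (ev _ (ind_le [s])) (ev _ (ind_le [t])))
    (fun u v => by
      show ev _ (ind_le [s, t]) (dl u * dl v) = ev _ (ind_le [s]) (dl u) * ev _ (ind_le [t]) (dl v)
      rw [dl_mul, ev_dl, ev_dl, ev_dl, mul_val]
      obtain ⟨u, hu⟩ := u
      obtain ⟨v, hv⟩ := v
      match u, hu, v, hv with
      | [x], _, v, _ => by_cases h1 : x = s <;> by_cases h2 : v = [t] <;> simp [ind, h1, h2]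
      | x :: y :: u, _, z :: v, _ => simp [ind]) g h
  exact this

lemma ind_I (s t : ℕ) {f : L W} (hf : mk I f = 0) : ev _ (ind_le [s, t]) f = 0 := by
  have := ev_le (ind_le [s, t]) (fun u v h => (ev_rel (ind_le [s, t]) u v).unique (by
    have e : (fun n : ℕ => (1 / 2 : ℂ) ^ n * ind [s, t] (u ++ [n + 1, n + 1] ++ v)) =
        fun _ => 0 := by
      funext n; simp only [ind]
      rw [if_neg, mul_zero]
      intro h'
      have := congrArg List.length h'
      simp only [List.length_append, List.length_cons, List.length_nil] at this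
      rcases h with h | h <;> have := List.length_pos_iff.2 h <;> omega
    rw [e]; exact hasSum_zero)) f
  rw [hf, norm_zero] at this
  exact norm_le_zero_iff.1 this

lemma ind_wd (s t n : ℕ) : ev _ (ind_le [s + 1, t + 1]) ((1 / 2 : ℂ) ^ n • dl (wd [] [] n)) =
    if n = s ∧ n = t then (1 / 2 : ℂ) ^ n else 0 := by
  simp [wd, ind]

lemma ind_r (s t : ℕ) : ev _ (ind_le [s + 1, t + 1]) (rel [] []) =
    if s = t then (1 / 2 : ℂ) ^ s else 0 := by
  have := (hasSum_rel [] []).mapL (ev _ (ind_le [s + 1, t + 1]))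
  simp only [ind_wd] at this
  refine this.unique ?_
  have h := hasSum_single (f := fun n : ℕ => if n = s ∧ n = t then (1 / 2 : ℂ) ^ n else 0) s
    (fun n hn => by simp [hn])
  simpa using h

theorem not_propS_B : ¬ PropS B := by
  rintro ⟨C, hC, h⟩
  let x : ℕ → L W := fun N => ∑ n ∈ Finset.range N, (1 / 2 : ℂ) ^ n • dl (wd [] [] n)
  have h1 : Tendsto (fun N => C * ‖q2 (x N)‖) atTop (𝓝 (C * ‖q2 (rel [] [])‖)) :=
    ((q2.continuous.tendsto _).comp (hasSum_rel [] []).tendsto_sum_nat).norm.const_mul C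
  rw [q2_rel, norm_zero, mul_zero] at h1
  obtain ⟨N, hN1, hN⟩ := ((eventually_gt_atTop 0).and (h1.eventually (gt_mem_nhds one_pos))).exists
  have hmul : ∀ g h : L W, q2 (g * h) = q2 g * q2 h := fun g h => rfl
  obtain ⟨k, a, b, h2, h3⟩ := h (q2 (x N)) (by
    simp only [x, map_sum, map_smul]
    refine Submodule.sum_mem _ fun n _ => Submodule.smul_mem _ _ (Submodule.subset_span ?_)
    exact ⟨q2 (dl ⟨[n + 1], by simp⟩), q2 (dl ⟨[n + 1], by simp⟩), by
      rw [← hmul, dl_mul]; rfl⟩)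
  have hsurj : Function.Surjective q2 := (mk_surj R).comp (mk_surj I)
  choose g hg using fun i => hsurj (a i)
  choose g' hg' using fun i => hsurj (b i)
  have h4 : q2 (x N - ∑ i, g i * g' i) = 0 := by
    simp only [map_sub, map_sum q2 (fun i => g i * g' i), hmul, hg, hg', ← h2, sub_self]
  obtain ⟨μ, hμ⟩ := Submodule.mem_span_singleton.1 ((mk_eq_zero R _).1 h4)
  have h5 : mk I (x N - ∑ i, g i * g' i - μ • rel [] []) = 0 := by
    rw [map_sub, map_smul]; exact sub_eq_zero.2 hμ.symm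
  have h6 : ∀ s t, (if s = t ∧ s < N then (1 / 2 : ℂ) ^ s else 0) -
      ∑ i, ev _ (ind_le [s + 1]) (g i) * ev _ (ind_le [t + 1]) (g' i) -
      μ * (if s = t then (1 / 2 : ℂ) ^ s else 0) = 0 := by
    intro s t
    have := ind_I (s + 1) (t + 1) h5
    simp only [map_sub, x, map_sum, ind_wd, ind_mul, map_smul (ev _ _) μ, ind_r, smul_eq_mul] at this
    have e : (if s = t ∧ s < N then (1 / 2 : ℂ) ^ s else 0) =
        ∑ x ∈ Finset.range N, if x = s ∧ x = t then (1 / 2 : ℂ) ^ x else 0 := by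
      by_cases hst : s = t
      · subst hst; simp [Finset.sum_ite_eq']
      · rw [if_neg (fun h => hst h.1)]
        exact (Finset.sum_eq_zero fun n _ =>
          if_neg (fun h : n = s ∧ n = t => hst (h.1.symm.trans h.2))).symm
    rw [e]; exact this
  have hμ0 : μ = 0 := by
    let T : (Fin (k + 1) → ℂ) →ₗ[ℂ] (Fin k → ℂ) :=
      Matrix.mulVecLin (Matrix.of fun (i : Fin k) (j : Fin (k + 1)) => ev _ (ind_le [N + j + 1]) (g i))
    obtain ⟨c, hc, hc0⟩ := (Submodule.ne_bot_iff _).1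
      (LinearMap.ker_ne_bot_of_finrank_lt (f := T) (by simp))
    obtain ⟨m, hm⟩ := Function.ne_iff.1 hc0
    have h7 : ∀ i, ∑ j : Fin (k + 1), ev _ (ind_le [N + j + 1]) (g i) * c j = 0 := fun i =>
      congrFun (LinearMap.mem_ker.1 hc) i
    have h8 : ∑ j : Fin (k + 1), c j * (∑ i, ev _ (ind_le [N + j + 1]) (g i) *
        ev _ (ind_le [N + m + 1]) (g' i)) = 0 := by
      simp only [Finset.mul_sum]
      rw [Finset.sum_comm]
      refine Finset.sum_eq_zero fun i _ => ?_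
      have := congrArg (· * ev _ (ind_le [N + m + 1]) (g' i)) (h7 i)
      simp only [Finset.sum_mul, zero_mul] at this
      rw [← this]
      exact Finset.sum_congr rfl fun j _ => by ring
    rw [Finset.sum_eq_single m] at h8
    · have h9 := h6 (N + m) (N + m)
      rw [if_neg (by omega), (mul_eq_zero.1 h8).resolve_left hm] at h9
      simpa using h9
    · intro j _ hj
      have h9 := h6 (N + j) (N + m)
      have : N + j ≠ N + m := fun h => hj (Fin.ext (by omega))
      rw [if_neg (fun h => this h.1), if_neg this] at h9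
      simp only [zero_sub, mul_zero, sub_zero, neg_eq_zero] at h9
      rw [h9, mul_zero]
    · simp
  have h9 := h6 0 0
  rw [hμ0, if_pos ⟨rfl, hN1⟩, zero_mul, sub_zero, pow_zero, sub_eq_zero] at h9
  have h10 : ‖∑ i, ev _ (ind_le [0 + 1]) (g i) * ev _ (ind_le [0 + 1]) (g' i)‖ ≤
      ∑ i, ‖a i‖ * ‖b i‖ := by
    refine (norm_sum_le _ _).trans (Finset.sum_le_sum fun i _ => ?_)
    rw [norm_mul, ← hg, ← hg']
    exact mul_le_mul ((ind_good _).le2 _) ((ind_good _).le2 _) (norm_nonneg _) (norm_nonneg _)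
  rw [← h9, norm_one] at h10
  linarith

end Pool.Agent.H87.PS
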