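import Mathlib

namespace Pool.Agent.H87.QGL

open Finset

/-- no deep separated dyadic trees -/
def TP (X : Type*) [NormedAddCommGroup X] : Prop :=
  ∀ ε > (0 : ℝ), ∃ n₀ : ℕ, ∀ (R : ℝ) (y : ℕ → X), 0 < R → (∀ i, ‖y i‖ ≤ R) →
    (∀ a k, a + 2 * 2 ^ k ≤ 2 ^ n₀ → ε * R * 2 ^ k ≤
      ‖∑ i ∈ range (2 ^ k), y (a + i) - ∑ i ∈ range (2 ^ k), y (a + 2 ^ k + i)‖) → False

lemma tp_of_uc (Y : Type*) [NormedAddCommGroup Y] [NormedSpace ℝ Y] [UniformConvexSpace Y] :
    TP Y := by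
  intro ε hε
  obtain ⟨δ, hδ, h⟩ := exists_forall_closed_ball_dist_add_le_two_sub Y hε
  have sc : ∀ (ρ : ℝ) (u v : Y), 0 < ρ → ‖u‖ ≤ ρ → ‖v‖ ≤ ρ → ε * ρ ≤ ‖u - v‖ →
      ‖u + v‖ ≤ (2 - δ) * ρ := by
    intro ρ u v hρ hu hv huv
    have e : ∀ w : Y, ‖ρ⁻¹ • w‖ = ‖w‖ / ρ := fun w => by
      rw [norm_smul, norm_inv, Real.norm_eq_abs, abs_of_pos hρ]; ring
    have := h (x := ρ⁻¹ • u) (by rw [e, div_le_one hρ]; exact hu) (y := ρ⁻¹ • v)
      (by rw [e, div_le_one hρ]; exact hv) (by rw [← smul_sub, e, le_div_iff₀ hρ]; exact huv)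
    rwa [← smul_add, e, div_le_iff₀ hρ] at this
  set θ := max (1 / 2) (1 - δ / 2) with hθ
  have θ0 : 0 < θ := lt_of_lt_of_le (by norm_num) (le_max_left _ _)
  have θ1 : θ < 1 := max_lt (by norm_num) (by linarith)
  have θ2 : 2 - δ ≤ 2 * θ := by linarith [le_max_right (1 / 2) (1 - δ / 2)]
  obtain ⟨m, hm⟩ := exists_pow_lt_of_lt_one (half_pos hε) θ1
  refine ⟨m + 1, fun R y hR hy hs => ?_⟩
  have key : ∀ k a, a + 2 ^ k ≤ 2 ^ (m + 1) →
      ‖∑ i ∈ range (2 ^ k), y (a + i)‖ ≤ θ ^ k * R * 2 ^ k := by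
    intro k
    induction k with
    | zero => intro a _; simpa using hy a
    | succ k ih =>
      intro a ha
      have h2 : 2 ^ (k + 1) = 2 ^ k + 2 ^ k := by ring
      have h2' : 0 < 2 ^ k := by positivity
      have h3 := hs a k (by omega)
      have h4 : θ ^ k ≤ 1 := pow_le_one₀ θ0.le θ1.le
      have h5 : (0 : ℝ) < θ ^ k * R * 2 ^ k := by positivity
      have h6 := sc _ _ _ h5 (ih a (by omega)) (ih (a + 2 ^ k) (by omega))
        (le_trans (by
          have : 0 ≤ ε * R * 2 ^ k := by positivity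
          nlinarith) h3)
      rw [h2, sum_range_add]
      simp only [← add_assoc]
      refine h6.trans ?_
      rw [pow_succ θ, pow_succ (2 : ℝ)]
      nlinarith
  have h1 := hs 0 m (by rw [pow_succ]; omega)
  have h2 := key m 0 (by rw [pow_succ]; omega)
  have h3 := key m (0 + 2 ^ m) (by rw [pow_succ]; omega)
  have h4 := norm_sub_le (∑ i ∈ range (2 ^ m), y (0 + i)) (∑ i ∈ range (2 ^ m), y (0 + 2 ^ m + i))
  have h5 : (0 : ℝ) < R * 2 ^ m := by positivity
  nlinarith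

lemma tp_of_equiv {𝕜 X Y : Type*} [RCLike 𝕜] [NormedAddCommGroup X] [NormedSpace 𝕜 X]
    [NormedAddCommGroup Y] [NormedSpace 𝕜 Y] (e : X ≃L[𝕜] Y) (h : TP Y) : TP X := by
  intro ε hε
  set K := 1 + ‖(e : X →L[𝕜] Y)‖ + ‖(e.symm : Y →L[𝕜] X)‖ with hK
  have K0 : 0 < K := by positivity
  have k1 : ∀ x, ‖e x‖ ≤ K * ‖x‖ := fun x => ((e : X →L[𝕜] Y).le_opNorm x).trans
    (mul_le_mul_of_nonneg_right (by linarith [norm_nonneg (e.symm : Y →L[𝕜] X)]) (norm_nonneg _))
  have k2 : ∀ x, ‖x‖ ≤ K * ‖e x‖ := fun x => by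
    have := (e.symm : Y →L[𝕜] X).le_opNorm (e x)
    simp only [ContinuousLinearEquiv.coe_coe, ContinuousLinearEquiv.symm_apply_apply] at this
    exact this.trans
      (mul_le_mul_of_nonneg_right (by linarith [norm_nonneg (e : X →L[𝕜] Y)]) (norm_nonneg _))
  obtain ⟨n₀, h⟩ := h (ε / K ^ 2) (by positivity)
  refine ⟨n₀, fun R y hR hy hs => h (K * R) (fun i => e (y i)) (by positivity)
    (fun i => (k1 _).trans (mul_le_mul_of_nonneg_left (hy i) K0.le)) fun a k hk => ?_⟩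
  have h1 := (hs a k hk).trans (k2 _)
  rw [map_sub, map_sum, map_sum] at h1
  refine le_of_mul_le_mul_left (le_trans (le_of_eq ?_) h1) K0
  field_simp

section core
variable {X : Type*} [NormedAddCommGroup X] [NormedSpace ℝ X]

lemma abel (v : ℕ → X) {K : ℝ} (hK : 0 ≤ K) (A : Finset ℕ) : ∀ (c : ℕ → ℝ) (M : ℝ), 0 ≤ M →
    (∀ n ∈ A, 0 ≤ c n ∧ c n ≤ M) → (∀ t > 0, ‖∑ n ∈ A.filter (fun n => t ≤ c n), v n‖ ≤ K) →
    ‖∑ n ∈ A, c n • v n‖ ≤ M * K := by
  induction A using Finset.strongInduction with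
  | H A ih =>
    intro c M hM hc hv
    rcases A.eq_empty_or_nonempty with rfl | hA
    · simpa using mul_nonneg hM hK
    obtain ⟨n₀, hn₀, hmin⟩ := A.exists_min_image c hA
    set m := c n₀
    have e : ∑ n ∈ A, c n • v n = m • ∑ n ∈ A, v n + ∑ n ∈ A.erase n₀, (c n - m) • v n := by
      rw [sum_erase _ (by simp [m]), smul_sum, ← sum_add_distrib]
      exact sum_congr rfl fun n _ => by rw [← add_smul]; congr 1; ring
    have h1 := ih (A.erase n₀) (erase_ssubset hn₀) (fun n => c n - m) (M - m)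
      (by linarith [(hc n₀ hn₀).2])
      (fun n hn => ⟨by linarith [hmin n (mem_of_mem_erase hn)],
        by linarith [(hc n (mem_of_mem_erase hn)).2]⟩)
      fun t ht => by
        have := hv (t + m) (by linarith [(hc n₀ hn₀).1])
        have e2 : (A.erase n₀).filter (fun n => t ≤ c n - m) = A.filter fun n => t + m ≤ c n := by
          ext n
          simp only [mem_filter, mem_erase]
          constructor
          · rintro ⟨⟨_, h1⟩, h2⟩; exact ⟨h1, by linarith⟩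
          · rintro ⟨h1, h2⟩; exact ⟨⟨by rintro rfl; linarith, h1⟩, by linarith⟩
        rwa [e2]
    have h2 : ‖m • ∑ n ∈ A, v n‖ ≤ m * K := by
      rcases (hc n₀ hn₀).1.eq_or_lt with h0 | h0
      · have : m = 0 := h0.symm
        simp [this]
      · have := hv m h0
        rw [filter_true_of_mem hmin] at this
        rw [norm_smul, Real.norm_eq_abs, abs_of_pos h0]
        exact mul_le_mul_of_nonneg_left this h0.le
    rw [e]
    linarith [norm_add_le (m • ∑ n ∈ A, v n) (∑ n ∈ A.erase n₀, (c n - m) • v n)]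

/-- the quasi-greedy property in multiplier form -/
def QG (v : ℕ → X) (s : ℕ → ℝ) (C : ℝ) : Prop :=
  ∀ (A : Finset ℕ) (ψ : ℝ → ℝ), (∀ n ∈ A, 0 < s n) → Monotone ψ → (∀ n ∈ A, 0 ≤ ψ (s n)) → ∀ u,
    ‖∑ n ∈ A.filter (fun n => u < s n), (ψ (s n) / s n) • v n‖ ≤
      C * ‖∑ n ∈ A, (ψ (s n) / s n) • v n‖

variable {v : ℕ → X} {s : ℕ → ℝ} {C : ℝ}

lemma QG.plain (h : QG v s C) {A : Finset ℕ} (hA : ∀ n ∈ A, 0 < s n) (u : ℝ) :
    ‖∑ n ∈ A.filter (fun n => u < s n), v n‖ ≤ C * ‖∑ n ∈ A, v n‖ := by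
  have := h A id hA monotone_id (fun n hn => (hA n hn).le) u
  have e : ∀ n ∈ A, (id (s n) / s n) • v n = v n := fun n hn => by
    rw [id, div_self (hA n hn).ne', one_smul]
  rwa [sum_congr rfl e, sum_congr rfl fun n hn => e n (mem_of_mem_filter _ hn)] at this

lemma QG.trunc (h : QG v s C) (hC : 0 ≤ C) {A : Finset ℕ} (hA : ∀ n ∈ A, 0 < s n) {t : ℝ}
    (ht : 0 < t) : ‖∑ n ∈ A, (min (s n) t / s n) • v n‖ ≤ (1 + C) * ‖∑ n ∈ A, v n‖ := by
  have := abel v (K := (1 + C) * ‖∑ n ∈ A, v n‖) (by positivity) A (fun n => min (s n) t / s n) 1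
    zero_le_one (fun n hn => ⟨div_nonneg (le_min (hA n hn).le ht.le) (hA n hn).le,
      (div_le_one (hA n hn)).2 (min_le_left _ _)⟩) fun τ hτ => by
      by_cases h1 : τ ≤ 1
      · have e : A.filter (fun n => τ ≤ min (s n) t / s n) = A.filter fun n => ¬ t / τ < s n := by
          refine filter_congr fun n hn => ?_
          rw [le_div_iff₀ (hA n hn), le_min_iff, not_lt, le_div_iff₀ hτ, mul_comm (s n)]
          exact ⟨fun h => h.2, fun h => ⟨by nlinarith [hA n hn], h⟩⟩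
        have h2 := sum_filter_add_sum_filter_not A (fun n => t / τ < s n) v
        rw [e, eq_sub_of_add_eq' h2]
        linarith [norm_sub_le (∑ n ∈ A, v n) (∑ n ∈ A.filter (fun n => t / τ < s n), v n),
          h.plain hA (t / τ)]
      · rw [filter_false_of_mem fun n hn => not_le.2
          (lt_of_le_of_lt ((div_le_one (hA n hn)).2 (min_le_left _ _)) (not_le.1 h1))]
        simp only [sum_empty, norm_zero]
        positivity
  rwa [one_mul] at this

lemma QG.sign (h : QG v s C) (hC : 0 ≤ C) {A : Finset ℕ} {t : ℝ} (ht : 0 < t)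
    (hA : ∀ n ∈ A, t ≤ s n) : t * ‖∑ n ∈ A, (s n)⁻¹ • v n‖ ≤ (1 + C) * ‖∑ n ∈ A, v n‖ := by
  have := h.trunc hC (fun n hn => ht.trans_le (hA n hn)) ht
  rw [sum_congr rfl (g := fun n => t • (s n)⁻¹ • v n) (fun n hn => by
    rw [min_eq_right (hA n hn), smul_smul, div_eq_mul_inv]), ← smul_sum, norm_smul,
    Real.norm_eq_abs, abs_of_pos ht] at this
  exact this

omit [NormedSpace ℝ X] in
lemma band (w : ℕ → X) (A : Finset ℕ) {a b : ℝ} (hab : a ≤ b) :
    ∑ n ∈ A.filter (fun n => a < s n ∧ s n ≤ b), w n =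
      ∑ n ∈ A.filter (fun n => a < s n), w n - ∑ n ∈ A.filter (fun n => b < s n), w n := by
  rw [eq_sub_iff_add_eq, sum_filter, sum_filter, sum_filter, ← sum_add_distrib]
  refine sum_congr rfl fun n _ => ?_
  by_cases h1 : a < s n <;> by_cases h2 : b < s n
  · simp [h1, h2]
  · simp [h1, h2, not_lt.1 h2]
  · exact absurd (hab.trans_lt h2) h1
  · simp [h1, h2]

lemma tp_doubling (hX : TP X) (hC : 1 ≤ C) : ∃ N₀ : ℕ, 1 ≤ N₀ ∧
    ∀ (v : ℕ → X) (s : ℕ → ℝ), QG v s C → ∀ (A : Finset ℕ) (lam : ℕ → ℝ) (δ : ℝ), 0 < δ →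
      (∀ n ∈ A, 0 < s n) → (∀ i, 0 < lam i) → (∀ i, 2 * lam (i + 1) ≤ lam i) →
      (∀ i < N₀, δ ≤ ‖∑ n ∈ A.filter (fun n => lam (i + 1) < s n ∧ s n ≤ lam i), v n‖) →
      2 * δ ≤ ‖∑ n ∈ A, v n‖ := by
  obtain ⟨n₀, hn₀⟩ := hX (1 / (8 * C * (1 + C))) (by positivity)
  obtain ⟨L, hL⟩ := pow_unbounded_of_one_lt (2 * (1 + C)) (one_lt_two (α := ℝ))
  refine ⟨(L + 1) * 2 ^ n₀, Nat.succ_le_of_lt (by positivity),
    fun v s h A lam δ hδ hA hl hl2 hb => ?_⟩
  by_contra hc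
  push Not at hc
  have C0 : 0 ≤ C := by linarith
  have lanti : Antitone lam := antitone_nat_of_succ_le fun i => by linarith [hl2 i, hl (i + 1)]
  have lpow : ∀ j i, 2 ^ j * lam (i + j) ≤ lam i := by
    intro j i
    induction j with
    | zero => simp
    | succ j ih =>
      have := hl2 (i + j)
      have h2 : (0 : ℝ) < 2 ^ j := by positivity
      rw [pow_succ, ← add_assoc]; nlinarith
  set t : ℕ → ℝ := fun i => lam ((L + 1) * i) with ht
  have tanti : Antitone t := fun i j hij => lanti (Nat.mul_le_mul_left _ hij)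
  refine hn₀ (2 * (1 + C) * δ) (fun i => ∑ n ∈ A, (min (s n) (t i) / s n) • v n) (by positivity)
    (fun i => (h.trunc C0 hA (hl _)).trans (by nlinarith)) fun a k hk => ?_
  set H := 2 ^ k with hH
  have H1 : 1 ≤ H := Nat.one_le_two_pow
  set ψ : ℝ → ℝ := fun x => ∑ i ∈ range H, (min x (t (a + i)) - min x (t (a + H + i))) with hψ
  have tle : ∀ i, t (a + H + i) ≤ t (a + i) := fun i => tanti (by omega)
  have ψm : Monotone ψ := fun x y hxy => sum_le_sum fun i _ => by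
    have := tle i
    simp only [min_def]; split_ifs <;> linarith
  have ψ0 : ∀ x, 0 ≤ ψ x := fun x => sum_nonneg fun i _ => by
    linarith [min_le_min_left x (tle i)]
  have e1 : ∑ i ∈ range H, ∑ n ∈ A, (min (s n) (t (a + i)) / s n) • v n -
      ∑ i ∈ range H, ∑ n ∈ A, (min (s n) (t (a + H + i)) / s n) • v n =
      ∑ n ∈ A, (ψ (s n) / s n) • v n := by
    rw [sum_comm, sum_comm (s := range H), ← sum_sub_distrib]
    refine sum_congr rfl fun n _ => ?_
    rw [← sum_smul, ← sum_smul, ← sub_smul, hψ, ← sum_sub_distrib, sum_div]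
    congr 1
    exact sum_congr rfl fun i _ => by ring
  rw [e1]
  obtain ⟨b, hb'⟩ : ∃ b, b + 1 = a + H := ⟨a + H - 1, by omega⟩
  set β := (L + 1) * b with hβ
  set J := A.filter (fun n => lam (β + 1) < s n ∧ s n ≤ lam β) with hJ
  have h1 := hb β (Nat.mul_lt_mul_of_pos_left (by omega) (by omega))
  have h2 : ‖∑ n ∈ J, (ψ (s n) / s n) • v n‖ ≤ 2 * C * ‖∑ n ∈ A, (ψ (s n) / s n) • v n‖ := by
    rw [hJ, band _ _ (lanti (Nat.le_succ β))]
    refine (norm_sub_le _ _).trans ?_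
    linarith [h A ψ hA ψm (fun n _ => ψ0 _) (lam (β + 1)), h A ψ hA ψm (fun n _ => ψ0 _) (lam β)]
  set τ := ∑ i ∈ range H, t (a + H + i) with hτ
  have τ0 : 0 ≤ τ := sum_nonneg fun i _ => (hl _).le
  have t1 : 2 ^ L * t (a + H) ≤ lam (β + 1) := by
    have := lpow L (β + 1)
    rwa [show β + 1 + L = (L + 1) * (a + H) by rw [← hb', hβ]; ring] at this
  have t2 : t (a + H) ≤ lam (β + 1) := by
    have : (1 : ℝ) ≤ 2 ^ L := one_le_pow₀ one_le_two
    nlinarith [hl ((L + 1) * (a + H))]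
  have τ1 : τ ≤ H * t (a + H) := by
    have := sum_le_card_nsmul (range H) (fun i => t (a + H + i)) (t (a + H))
      fun i _ => tanti (by omega)
    simpa using this
  have e2 : ∑ n ∈ J, (ψ (s n) / s n) • v n =
      (H : ℝ) • ∑ n ∈ J, v n - τ • ∑ n ∈ J, (s n)⁻¹ • v n := by
    rw [smul_sum, smul_sum, ← sum_sub_distrib]
    refine sum_congr rfl fun n hn => ?_
    obtain ⟨hn1, hn2, hn3⟩ := mem_filter.1 hn
    have : ψ (s n) = H * s n - τ := by
      rw [hψ, hτ]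
      simp only
      rw [sum_congr rfl (g := fun i => s n - t (a + H + i)) fun i hi => by
        have := mem_range.1 hi
        rw [min_eq_left (hn3.trans (tanti (show a + i ≤ b by omega))),
          min_eq_right ((tanti (show a + H ≤ a + H + i by omega)).trans (t2.trans hn2.le))]]
      simp [sum_sub_distrib]
    rw [this, smul_smul, ← sub_smul]
    congr 1
    field_simp [(hA n hn1).ne']
  have h3 := h.sign C0 (A := J) (hl (β + 1)) fun n hn => (mem_filter.1 hn).2.1.le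
  have h4 := norm_sub_norm_le ((H : ℝ) • ∑ n ∈ J, v n) (τ • ∑ n ∈ J, (s n)⁻¹ • v n)
  rw [← e2, norm_smul, norm_smul, Real.norm_eq_abs, Real.norm_eq_abs, abs_of_nonneg τ0,
    abs_of_nonneg (Nat.cast_nonneg _)] at h4
  set p := ‖∑ n ∈ J, v n‖
  set q := ‖∑ n ∈ J, (s n)⁻¹ • v n‖
  have q0 : 0 ≤ q := norm_nonneg _
  have H0 : (0 : ℝ) < H := by exact_mod_cast H1
  have h5 : t (a + H) * q ≤ p / 2 := by
    have h6 : 2 * (1 + C) * t (a + H) ≤ lam (β + 1) :=
      (mul_le_mul_of_nonneg_right hL.le (hl _).le).trans t1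
    have h7 := (mul_le_mul_of_nonneg_right h6 q0).trans h3
    have h8 : (1 + C) * (2 * (t (a + H) * q)) ≤ (1 + C) * p := by linarith
    linarith [le_of_mul_le_mul_left h8 (by linarith)]
  have h6 : τ * q ≤ H * (p / 2) :=
    (mul_le_mul_of_nonneg_right τ1 q0).trans (by rw [mul_assoc]; gcongr)
  have h7 : (H : ℝ) * δ ≤ H * p := by gcongr
  have e3 : ((2 : ℝ) ^ k) = H := by rw [hH]; push_cast; rfl
  rw [e3]
  refine le_of_mul_le_mul_left ?_ (show 0 < 2 * C by positivity)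
  have e4 : 2 * C * (1 / (8 * C * (1 + C)) * (2 * (1 + C) * δ) * H) = H * δ / 2 := by
    field_simp; norm_num
  rw [e4]
  linarith

end core

end Pool.Agent.H87.QGL
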