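import Mathlib

namespace Pool.Agent.H87.QGL

variable {𝕜 X : Type*} [RCLike 𝕜] [NormedAddCommGroup X] [NormedSpace 𝕜 X]

/-- a (seminormalized Markushevich) basis `x` with biorthogonal functionals `xs` -/
structure IsBasis (x : ℕ → X) (xs : ℕ → StrongDual 𝕜 X) : Prop where
  dense : Dense (Submodule.span 𝕜 (Set.range x) : Set X)
  biorth : ∀ n k, xs n (x k) = if n = k then 1 else 0
  total : ∀ f : X, (∀ n, xs n f = 0) → f = 0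
  bounded : ∃ D : ℝ, ∀ n, ‖x n‖ ≤ D ∧ ‖xs n‖ ≤ D

/-- quasi-greedy: greedy sums are uniformly bounded -/
def IsQuasiGreedy (x : ℕ → X) (xs : ℕ → StrongDual 𝕜 X) : Prop :=
  ∃ C : ℝ, ∀ (f : X) (A : Finset ℕ), A.Nonempty → (∀ n ∈ A, ∀ k ∉ A, ‖xs k f‖ ≤ ‖xs n f‖) →
    ‖∑ n ∈ A, xs n f • x n‖ ≤ C * ‖f‖

/-- lower democracy function -/
noncomputable def phiL (𝕜 : Type*) {X : Type*} [RCLike 𝕜] [NormedAddCommGroup X] [NormedSpace 𝕜 X]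
    (x : ℕ → X) (m : ℕ) : ℝ :=
  sInf {t : ℝ | ∃ (A : Finset ℕ) (ε : ℕ → 𝕜), m ≤ A.card ∧ (∀ n ∈ A, ‖ε n‖ = 1) ∧
    t = ‖∑ n ∈ A, ε n • x n‖}

/-- `rearr a m` is the `(m+1)`-st term of the nonincreasing rearrangement of `(|a n|)` -/
noncomputable def rearr (a : ℕ → 𝕜) (m : ℕ) : ℝ :=
  sInf {t : ℝ | 0 ≤ t ∧ {n | t < ‖a n‖}.encard ≤ m}

/-- the `(m+1)`-st term of the series defining the `r`-th power of the Lorentz norm `d_{1,r}(w)`,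
where `s` is the primitive sequence of `w` -/
noncomputable def lorentzTerm (s : ℕ → ℝ) (r : ℝ) (a : ℕ → 𝕜) (m : ℕ) : ℝ :=
  rearr a m ^ r * s (m + 1) ^ (r - 1) * (s (m + 1) - s m)

end Pool.Agent.H87.QGL
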