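import Mathlib
import Pool.Agent.H87.QGL1
import Pool.Agent.H87.QGLDef

namespace Pool.Agent.H87.QGL

open Finset Filter Topology

lemma ivt (P : ℕ → Prop) [DecidablePred P] (j w : ℕ) (h1 : Nat.count P j ≤ w) :
    ∀ k, j ≤ k → w ≤ Nat.count P k → ∃ p, j ≤ p ∧ p ≤ k ∧ Nat.count P p = w := by
  intro k hk
  induction k, hk using Nat.le_induction with
  | base => exact fun h => ⟨j, le_rfl, le_rfl, le_antisymm h1 h⟩
  | succ k hk ih =>
    intro h
    by_cases h2 : w ≤ Nat.count P k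
    · obtain ⟨p, a, b, c⟩ := ih h2
      exact ⟨p, a, by omega, c⟩
    · refine ⟨k + 1, by omega, le_rfl, le_antisymm ?_ h⟩
      rw [Nat.count_succ]; split_ifs <;> omega

lemma weak_to_lr (β : ℕ → ℝ) (hβ : ∀ i, 0 ≤ β i) {G : ℝ} (hG : 0 < G) (N r k : ℕ) (hr : 1 ≤ r)
    (hN : 2 * N ≤ 2 ^ r)
    (h : ∀ m : ℕ, ((range k).filter fun i => G / 2 ^ m ≤ β i).card < N ^ m) :
    ∑ i ∈ range k, β i ^ r ≤ 2 * N * G ^ r := by
  have key : ∀ m : ℕ, ∑ i ∈ (range k).filter (fun i => G / 2 ^ m ≤ β i), β i ^ r ≤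
      2 * N * G ^ r * (1 - 1 / 2 ^ m) := by
    intro m
    induction m with
    | zero =>
      have := h 0
      rw [pow_zero N, Nat.lt_one_iff, card_eq_zero] at this
      rw [this]; simp
    | succ m ih =>
      have hle : G / 2 ^ (m + 1) ≤ G / 2 ^ m :=
        div_le_div_of_nonneg_left hG.le (by positivity) (pow_le_pow_right₀ one_le_two (by omega))
      rw [← sum_filter_add_sum_filter_not _ (fun i => G / 2 ^ m ≤ β i), filter_filter,
        filter_congr (q := fun i => G / 2 ^ m ≤ β i) fun i _ => ⟨fun h => h.2, fun h => ⟨hle.trans h, h⟩⟩]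
      have h1 := sum_le_card_nsmul (((range k).filter fun i => G / 2 ^ (m + 1) ≤ β i).filter
        fun i => ¬ G / 2 ^ m ≤ β i) (fun i => β i ^ r) ((G / 2 ^ m) ^ r) fun i hi =>
          pow_le_pow_left₀ (hβ i) (not_le.1 (mem_filter.1 hi).2).le _
      have h2 : (((((range k).filter fun i => G / 2 ^ (m + 1) ≤ β i).filter
          fun i => ¬ G / 2 ^ m ≤ β i).card : ℕ) : ℝ) ≤ N ^ (m + 1) := by
        have := (card_filter_le ((range k).filter fun i => G / 2 ^ (m + 1) ≤ β i)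
          fun i => ¬ G / 2 ^ m ≤ β i).trans (h (m + 1)).le
        rw [← Nat.cast_pow]
        exact Nat.cast_le.2 this
      rw [nsmul_eq_mul] at h1
      have h3 : ((2 : ℝ) * N) ^ m ≤ (2 ^ m) ^ r := by
        rw [← pow_mul, mul_comm m, pow_mul]
        exact pow_le_pow_left₀ (by positivity) (by exact_mod_cast hN) _
      have h4 : (N : ℝ) ^ (m + 1) * (G / 2 ^ m) ^ r ≤ N * G ^ r / 2 ^ m := by
        rw [div_pow, mul_div_assoc', div_le_div_iff₀ (by positivity) (by positivity)]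
        calc (N : ℝ) ^ (m + 1) * G ^ r * 2 ^ m = N * G ^ r * (2 * N) ^ m := by rw [mul_pow]; ring
          _ ≤ _ := by gcongr
      have h5 := mul_le_mul_of_nonneg_right h2 (show 0 ≤ (G / 2 ^ m) ^ r by positivity)
      have h6 : 2 * N * G ^ r * (1 - 1 / 2 ^ (m + 1)) =
          2 * N * G ^ r * (1 - 1 / 2 ^ m) + N * G ^ r / 2 ^ m := by field_simp; ring
      linarith
  have ht : Tendsto (fun m : ℕ => G / 2 ^ m) atTop (𝓝 0) :=
    tendsto_const_nhds.div_atTop (tendsto_pow_atTop_atTop_of_one_lt one_lt_two)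
  obtain ⟨m, hm⟩ : ∃ m : ℕ, ∀ i ∈ range k, β i ≠ 0 → G / 2 ^ m ≤ β i := by
    refine ((eventually_all_finset _).2 fun i _ => ?_).exists (f := atTop)
    by_cases h0 : β i = 0
    · simp [h0]
    · exact (ht.eventually (eventually_le_nhds ((hβ i).lt_of_ne' h0))).mono fun m hm _ => hm
  rw [← sum_filter_of_ne (p := fun i => G / 2 ^ m ≤ β i)
    fun i hi h0 => hm i hi (by rintro h1; rw [h1, zero_pow (by omega)] at h0; exact h0 rfl)]
  refine (key m).trans (mul_le_of_le_one_right (by positivity) ?_)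
  have : (0 : ℝ) ≤ 1 / 2 ^ m := by positivity
  linarith

section core
variable {X : Type*} [NormedAddCommGroup X] [NormedSpace ℝ X] {C : ℝ}

lemma bands_lr (hX : TP X) (hC : 1 ≤ C) : ∃ (r : ℕ) (B : ℝ), 1 ≤ r ∧ 0 ≤ B ∧
    ∀ (v : ℕ → X) (s : ℕ → ℝ), QG v s C → ∀ (A : Finset ℕ) (lam : ℕ → ℝ) (Γ : ℝ) (k : ℕ), 0 < Γ →
      (∀ i, 0 < lam i) → (∀ i, 2 * lam (i + 1) ≤ lam i) →
      ‖∑ n ∈ A.filter (fun n => lam k < s n ∧ s n ≤ lam 0), v n‖ ≤ Γ →
      ∑ i ∈ range k, ‖∑ n ∈ A.filter (fun n => lam (i + 1) < s n ∧ s n ≤ lam i), v n‖ ^ r ≤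
        B * Γ ^ r := by
  classical
  obtain ⟨N, hN, hd⟩ := tp_doubling hX hC
  refine ⟨N + 1, 2 * N * (4 * C) ^ (N + 1), by omega, by positivity,
    fun v s h A lam Γ k hΓ hl hl2 hk => ?_⟩
  have lanti : Antitone lam := antitone_nat_of_succ_le fun i => by linarith [hl2 i, hl (i + 1)]
  set S : ℕ → ℕ → Finset ℕ := fun j k => A.filter (fun n => lam k < s n ∧ s n ≤ lam j) with hS
  have Spos : ∀ j k, ∀ n ∈ S j k, 0 < s n := fun j k n hn => (hl k).trans (mem_filter.1 hn).2.1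
  have sub : ∀ j j' k' k, j ≤ j' → k' ≤ k →
      (S j k).filter (fun n => lam k' < s n ∧ s n ≤ lam j') = S j' k' := by
    intro j j' k' k h1 h2
    rw [hS, filter_filter]
    exact filter_congr fun n _ => ⟨fun h => h.2,
      fun h => ⟨⟨(lanti h2).trans_lt h.1, h.2.trans (lanti h1)⟩, h⟩⟩
  have cnt : ∀ δ > 0, ∀ m j k, Nat.count (fun i => δ ≤ ‖∑ n ∈ S i (i + 1), v n‖) j + N ^ m ≤
      Nat.count (fun i => δ ≤ ‖∑ n ∈ S i (i + 1), v n‖) k →
      2 ^ m * (δ / (2 * C)) ≤ ‖∑ n ∈ S j k, v n‖ := by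
    intro δ hδ m
    set P : ℕ → Prop := fun i => δ ≤ ‖∑ n ∈ S i (i + 1), v n‖ with hP
    induction m with
    | zero =>
      intro j k hjk
      replace hjk : Nat.count P j + 1 ≤ Nat.count P k := hjk
      obtain ⟨i, h1, h2, h3⟩ : ∃ i, j ≤ i ∧ i < k ∧ P i := by
        by_contra hc
        push Not at hc
        have : Nat.count P k ≤ Nat.count P j := by
          rw [Nat.count_eq_card_filter_range, Nat.count_eq_card_filter_range]
          refine card_le_card fun i hi => ?_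
          rw [mem_filter, mem_range] at hi ⊢
          exact ⟨by by_contra h; exact hc i (by omega) hi.1 hi.2, hi.2⟩
        omega
      have h4 : δ ≤ ‖∑ n ∈ S i (i + 1), v n‖ := h3
      rw [← sub j i (i + 1) k h1 h2, band _ _ (lanti (Nat.le_succ i))] at h4
      have h5 := h4.trans (norm_sub_le _ _)
      rw [pow_zero, one_mul, div_le_iff₀ (by positivity)]
      linarith [h.plain (Spos j k) (lam (i + 1)), h.plain (Spos j k) (lam i)]
    | succ m ih =>
      intro j k hjk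
      replace hjk : Nat.count P j + N ^ (m + 1) ≤ Nat.count P k := hjk
      have N0 : 0 < N ^ m := by positivity
      have hjk' : j ≤ k := by
        by_contra hc
        have := Nat.count_monotone P (not_le.1 hc).le
        have : 0 < N ^ (m + 1) := by positivity
        omega
      have : ∀ i, ∃ p, j ≤ p ∧ p ≤ k ∧ Nat.count P p = Nat.count P j + min i N * N ^ m :=
        fun i => ivt P j _ (by omega) k hjk' (le_trans (Nat.add_le_add_left
          (by rw [pow_succ']; exact Nat.mul_le_mul_right _ (min_le_right _ _)) _) hjk)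
      choose p p1 p2 p3 using this
      have p4 : ∀ i < N, Nat.count P (p i) + N ^ m ≤ Nat.count P (p (i + 1)) := fun i hi => by
        rw [p3, p3, min_eq_left hi.le, min_eq_left (show i + 1 ≤ N from hi)]
        apply le_of_eq; ring
      have p5 : ∀ i < N, p i < p (i + 1) := fun i hi => by
        by_contra hc
        have := Nat.count_monotone P (not_lt.1 hc)
        have := p4 i hi
        omega
      set q : ℕ → ℕ := fun i => p (min i N) + (i - N) with hq
      have q1 : ∀ i ≤ N, q i = p i := fun i hi => by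
        simp only [hq]; rw [min_eq_left hi, Nat.sub_eq_zero_of_le hi, add_zero]
      have q2 : ∀ i, q i + 1 ≤ q (i + 1) := fun i => by
        by_cases hi : i < N
        · rw [q1 i hi.le, q1 (i + 1) hi]; exact p5 i hi
        · simp only [hq]
          rw [min_eq_right (by omega), min_eq_right (by omega)]; omega
      have := hd v s h (S j k) (fun i => lam (q i)) (2 ^ m * (δ / (2 * C))) (by positivity)
        (Spos j k) (fun i => hl _) (fun i => by linarith [hl2 (q i), lanti (q2 i)])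
        fun i hi => by
          rw [q1 i hi.le, q1 (i + 1) hi, sub j _ _ k (p1 _) (p2 _)]
          exact ih _ _ (p4 i hi)
      rw [pow_succ]; linarith
  have := weak_to_lr (fun i => ‖∑ n ∈ S i (i + 1), v n‖) (fun _ => norm_nonneg _)
    (G := 4 * C * Γ) (by positivity) N (N + 1) k (by omega)
    (by rw [pow_succ]; have := Nat.lt_two_pow_self (n := N); omega) fun m => by
      by_contra hc
      have h1 := cnt (4 * C * Γ / 2 ^ m) (by positivity) m 0 k
        (by rw [Nat.count_zero, zero_add, Nat.count_eq_card_filter_range]; exact not_lt.1 hc)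
      have h2 : (2 : ℝ) ^ m * (4 * C * Γ / 2 ^ m / (2 * C)) = 2 * Γ := by field_simp; norm_num
      have h3 : ‖∑ n ∈ S 0 k, v n‖ ≤ Γ := hk
      linarith
  rw [mul_pow] at this
  linarith

lemma rec_lr (τ β : ℕ → ℝ) (hτ : ∀ i, 0 ≤ τ i) (hβ : ∀ i, 0 ≤ β i) (h0 : τ 0 = 0) (r : ℕ)
    (hr : 1 ≤ r) (h : ∀ k, 2 * τ (k + 1) ≤ τ k + β k) (K : ℕ) :
    ∑ k ∈ range K, τ (k + 1) ^ r ≤ ∑ k ∈ range K, β k ^ r := by
  have h1 : ∀ k, 2 * τ (k + 1) ^ r ≤ τ k ^ r + β k ^ r := fun k => by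
    have h2 := (convexOn_pow r).2 (Set.mem_Ici.2 (hτ k)) (Set.mem_Ici.2 (hβ k))
      (show (0 : ℝ) ≤ 1 / 2 by norm_num) (show (0 : ℝ) ≤ 1 / 2 by norm_num) (by norm_num)
    simp only [smul_eq_mul] at h2
    have h3 : τ (k + 1) ^ r ≤ (1 / 2 * τ k + 1 / 2 * β k) ^ r :=
      pow_le_pow_left₀ (hτ _) (by linarith [h k]) _
    linarith
  have h2 : ∑ k ∈ range K, τ (k + 1) ^ r + τ K ^ r ≤ ∑ k ∈ range K, β k ^ r := by
    induction K with
    | zero => simp [h0, zero_pow (show r ≠ 0 by omega)]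
    | succ K ih => rw [sum_range_succ, sum_range_succ]; linarith [h1 K]
  linarith [pow_nonneg (hτ K) r]

end core

section main
variable {𝕜 X : Type*} [RCLike 𝕜] [NormedAddCommGroup X] [NormedSpace 𝕜 X]

lemma phiL_bdd (x : ℕ → X) (m : ℕ) : BddBelow {t : ℝ | ∃ (A : Finset ℕ) (ε : ℕ → 𝕜),
    m ≤ A.card ∧ (∀ n ∈ A, ‖ε n‖ = 1) ∧ t = ‖∑ n ∈ A, ε n • x n‖} :=
  ⟨0, by rintro t ⟨A, ε, -, -, rfl⟩; exact norm_nonneg _⟩

lemma phiL_nonneg (x : ℕ → X) (m : ℕ) : 0 ≤ phiL 𝕜 x m :=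
  Real.sInf_nonneg (by rintro t ⟨A, ε, -, -, rfl⟩; exact norm_nonneg _)

lemma phiL_mono (x : ℕ → X) : Monotone (phiL 𝕜 x) := fun m m' h =>
  csInf_le_csInf (phiL_bdd x m) ⟨_, range m', fun _ => 1, by simp, by simp, rfl⟩
    (by rintro t ⟨A, ε, h1, h2, h3⟩; exact ⟨A, ε, h.trans h1, h2, h3⟩)

lemma rearr_nonneg (a : ℕ → 𝕜) (m : ℕ) : 0 ≤ rearr a m := Real.sInf_nonneg fun _ h => h.1

lemma rearr_le (a : ℕ → 𝕜) {m : ℕ} {t : ℝ} (ht : 0 ≤ t) (h : {n | t < ‖a n‖}.encard ≤ m) :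
    rearr a m ≤ t := csInf_le ⟨0, fun _ h => h.1⟩ ⟨ht, h⟩

lemma term_le (s : ℕ → ℝ) (hs : Monotone s) (hs0 : ∀ m, 0 ≤ s m) (r : ℕ) (hr : 1 ≤ r) (a : ℕ → 𝕜)
    (m : ℕ) : 0 ≤ lorentzTerm s r a m ∧
      lorentzTerm s r a m ≤ rearr a m ^ r * (s (m + 1) ^ r - s m ^ r) := by
  obtain ⟨r, rfl⟩ : ∃ r', r = r' + 1 := ⟨r - 1, by omega⟩
  have h1 := hs (Nat.le_succ m)
  have h2 := rearr_nonneg a m
  have h3 := hs0 m
  have h4 := hs0 (m + 1)
  rw [lorentzTerm, Real.rpow_natCast, show ((r + 1 : ℕ) : ℝ) - 1 = r by push_cast; ring,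
    Real.rpow_natCast]
  refine ⟨mul_nonneg (by positivity) (by linarith), ?_⟩
  rw [mul_assoc]
  refine mul_le_mul_of_nonneg_left ?_ (by positivity)
  have : s m ^ r ≤ s (m + 1) ^ r := pow_le_pow_left₀ h3 h1 _
  rw [pow_succ, pow_succ]; nlinarith

lemma fin_level {x : ℕ → X} {xs : ℕ → StrongDual 𝕜 X} (hb : IsBasis x xs) (f : X) {t : ℝ}
    (ht : 0 < t) : {n | t < ‖xs n f‖}.Finite := by
  obtain ⟨D, hD⟩ := hb.bounded
  have D0 : 0 ≤ D := (norm_nonneg _).trans (hD 0).1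
  obtain ⟨g, hg1, hg2⟩ := Metric.dense_iff.1 hb.dense f (t / (D + 1)) (by positivity)
  obtain ⟨c, rfl⟩ := (Finsupp.mem_span_range_iff_exists_finsupp).1 hg2
  refine c.support.finite_toSet.subset fun n hn => ?_
  by_contra hc
  have h1 : xs n (c.sum fun i a => a • x i) = 0 := by
    rw [Finsupp.sum, map_sum]
    refine sum_eq_zero fun i hi => ?_
    rw [map_smul, hb.biorth, if_neg (by rintro rfl; exact hc hi), smul_zero]
  have h2 := (xs n).le_opNorm ((c.sum fun i a => a • x i) - f)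
  rw [map_sub, h1, zero_sub, norm_neg] at h2
  rw [mem_ball_iff_norm, lt_div_iff₀ (by positivity)] at hg1
  have h3 := mul_le_mul_of_nonneg_right (hD n).2 (norm_nonneg ((c.sum fun i a => a • x i) - f))
  have h4 : t < ‖xs n f‖ := hn
  nlinarith [norm_nonneg ((c.sum fun i a => a • x i) - f)]

theorem main (hX : TP X) {x : ℕ → X} {xs : ℕ → StrongDual 𝕜 X} (hb : IsBasis x xs)
    (hq : IsQuasiGreedy x xs) : ∃ (r : ℕ) (B : ℝ), 1 ≤ r ∧ 0 ≤ B ∧ ∀ (f : X) (M : ℕ),
      ∑ m ∈ range M, lorentzTerm (phiL 𝕜 x) r (fun n => xs n f) m ≤ B * ‖f‖ ^ r := by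
  classical
  let _ : NormedSpace ℝ X := NormedSpace.restrictScalars ℝ 𝕜 X
  have rs : ∀ (c : ℝ) (y : X), c • y = (c : 𝕜) • y := fun c y => rfl
  obtain ⟨C₀, hC₀⟩ := hq
  set C := max C₀ 1 with hC
  have C1 : 1 ≤ C := le_max_right _ _
  have hq : ∀ (f : X) (A : Finset ℕ), (∀ n ∈ A, ∀ k ∉ A, ‖xs k f‖ ≤ ‖xs n f‖) →
      ‖∑ n ∈ A, xs n f • x n‖ ≤ C * ‖f‖ := by
    intro f A h
    rcases A.eq_empty_or_nonempty with rfl | hA
    · simp only [sum_empty, norm_zero]; positivity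
    · exact (hC₀ f A hA h).trans (mul_le_mul_of_nonneg_right (le_max_left _ _) (norm_nonneg _))
  have hQ : ∀ a : ℕ → 𝕜, QG (fun n => a n • x n) (fun n => ‖a n‖) C := by
    intro a A ψ hA hψ hψ0 u
    set b : ℕ → 𝕜 := fun n => ((ψ ‖a n‖ / ‖a n‖ : ℝ) : 𝕜) * a n with hb'
    have e : ∀ n, (ψ ‖a n‖ / ‖a n‖) • a n • x n = b n • x n := fun n => by rw [rs, smul_smul]
    simp only [e]
    have c : ∀ k, xs k (∑ n ∈ A, b n • x n) = if k ∈ A then b k else 0 := fun k => by
      simp [map_sum, hb.biorth]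
    have nb : ∀ n ∈ A, ‖b n‖ = ψ ‖a n‖ := fun n hn => by
      rw [hb']
      simp only
      rw [norm_mul, RCLike.norm_ofReal, abs_of_nonneg (div_nonneg (hψ0 n hn) (hA n hn).le),
        div_mul_cancel₀ _ (hA n hn).ne']
    have := hq (∑ n ∈ A, b n • x n) (A.filter fun n => u < ‖a n‖) fun n hn k hk => by
      obtain ⟨h1, h2⟩ := mem_filter.1 hn
      rw [c, c, if_pos h1]
      split_ifs with h3
      · rw [nb k h3, nb n h1]
        exact hψ ((not_lt.1 fun h => hk (mem_filter.2 ⟨h3, h⟩)).trans h2.le)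
      · simp
    rwa [sum_congr rfl fun n hn => by rw [c, if_pos (mem_of_mem_filter _ hn)]] at this
  obtain ⟨r, B, hr, hB, hlr⟩ := bands_lr hX C1
  obtain ⟨D, hD⟩ := hb.bounded
  have D0 : 0 ≤ D := (norm_nonneg _).trans (hD 0).1
  refine ⟨r, 2 ^ r * (2 * (1 + C)) ^ r * B * C ^ r, hr, by positivity, fun f M => ?_⟩
  set a : ℕ → 𝕜 := fun n => xs n f with ha
  set s := phiL 𝕜 x with hs
  have tl := term_le s (phiL_mono x) (phiL_nonneg x) r hr a
  by_cases hf : f = 0
  · refine le_trans (sum_nonpos fun m _ => (tl m).2.trans (le_of_eq ?_)) (by positivity)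
    have : rearr a m = 0 := le_antisymm (rearr_le a le_rfl (by simp [ha, hf])) (rearr_nonneg a m)
    rw [this, zero_pow (by omega), zero_mul]
  have f0 : 0 < ‖f‖ := norm_pos_iff.2 hf
  set lam : ℕ → ℝ := fun i => (D + 1) * ‖f‖ / 2 ^ i with hlam
  have hl : ∀ i, 0 < lam i := fun i => by positivity
  have hl2 : ∀ i, 2 * lam (i + 1) = lam i := fun i => by simp only [hlam]; field_simp; ring
  have lanti : Antitone lam := antitone_nat_of_succ_le fun i => by linarith [hl2 i, hl (i + 1)]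
  have a0 : ∀ n, ‖a n‖ ≤ lam 0 := fun n => by
    have := ((xs n).le_opNorm f).trans (mul_le_mul_of_nonneg_right (hD n).2 f0.le)
    simp only [hlam, pow_zero, div_one]
    nlinarith
  set E : ℕ → Finset ℕ := fun k => (fin_level hb f (hl k)).toFinset with hE
  have memE : ∀ k n, n ∈ E k ↔ lam k < ‖a n‖ := fun k n => by simp [hE, ha]
  have E0 : E 0 = ∅ := eq_empty_of_forall_notMem fun n hn => not_lt.2 (a0 n) ((memE _ _).1 hn)
  have Emono : ∀ k, E k ⊆ E (k + 1) := fun k n hn =>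
    (memE _ _).2 ((lanti (Nat.le_succ k)).trans_lt ((memE _ _).1 hn))
  set v : ℕ → X := fun n => a n • x n with hv
  set β : ℕ → ℝ := fun i => ‖∑ n ∈ E (i + 1) \ E i, v n‖ with hβ
  have b1 : ∀ K, ∑ i ∈ range K, β i ^ r ≤ B * (C * ‖f‖) ^ r := by
    intro K
    have := hlr v (fun n => ‖a n‖) (hQ a) (E K) lam (C * ‖f‖) K (by positivity) hl
      (fun i => (hl2 i).le) (by
        rw [filter_true_of_mem fun n hn => ⟨(memE _ _).1 hn, a0 n⟩]
        exact hq f (E K) fun n hn k hk =>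
          (not_lt.1 fun h => hk ((memE _ _).2 h)).trans ((memE _ _).1 hn).le)
    refine le_trans (le_of_eq (sum_congr rfl fun i hi => ?_)) this
    have : E (i + 1) \ E i = (E K).filter fun n => lam (i + 1) < ‖a n‖ ∧ ‖a n‖ ≤ lam i := by
      ext n
      rw [Finset.mem_sdiff, mem_filter, memE, memE, memE, not_lt]
      exact ⟨fun h => ⟨(lanti (mem_range.1 hi)).trans_lt h.1, h⟩, fun h => h.2⟩
    simp only [hβ, this]
  set τ : ℕ → ℝ := fun k => lam k * ‖∑ n ∈ E k, ‖a n‖⁻¹ • v n‖ with hτ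
  have b2 : ∀ K, ∑ k ∈ range K, τ (k + 1) ^ r ≤ ∑ k ∈ range K, (2 * (1 + C) * β k) ^ r :=
    rec_lr τ _ (fun i => mul_nonneg (hl i).le (norm_nonneg _)) (fun i => by positivity)
      (by simp [hτ, E0]) r hr fun k => by
        have h1 := (hQ a).sign (by linarith) (A := E (k + 1) \ E k) (hl (k + 1))
          fun n hn => ((memE _ _).1 (Finset.mem_sdiff.1 hn).1).le
        simp only [hτ]
        rw [← sum_sdiff (Emono k), ← hl2 k]
        have h2 := mul_le_mul_of_nonneg_left (norm_add_le (∑ n ∈ E (k + 1) \ E k, ‖a n‖⁻¹ • v n)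
          (∑ n ∈ E k, ‖a n‖⁻¹ • v n)) (hl (k + 1)).le
        simp only [hβ]
        linarith
  have b3 : ∀ k, lam k * s (E k).card ≤ τ k := fun k => by
    refine mul_le_mul_of_nonneg_left (csInf_le (phiL_bdd x _)
      ⟨E k, fun n => ((‖a n‖⁻¹ : ℝ) : 𝕜) * a n, le_rfl, fun n hn => ?_, ?_⟩) (hl k).le
    · have := (hl k).trans ((memE _ _).1 hn)
      rw [norm_mul, RCLike.norm_ofReal, abs_inv, abs_norm, inv_mul_cancel₀ this.ne']
    · congr 1
      exact sum_congr rfl fun n _ => by rw [rs, hv, smul_smul]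
  have smono : Monotone s := phiL_mono x
  have s0 : ∀ m, 0 ≤ s m := phiL_nonneg x
  have blk : ∀ k M, (E k).card ≤ M →
      ∑ m ∈ Ico (E k).card M, lorentzTerm s r a m ≤ lam k ^ r * s M ^ r := by
    intro k M hM
    have h1 : ∑ m ∈ Ico (E k).card M, lorentzTerm s r a m ≤
        ∑ m ∈ Ico (E k).card M, lam k ^ r * (s (m + 1) ^ r - s m ^ r) := by
      refine sum_le_sum fun m hm => (tl m).2.trans (mul_le_mul_of_nonneg_right
        (pow_le_pow_left₀ (rearr_nonneg a m) (rearr_le a (hl k).le ?_) _)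
        (sub_nonneg.2 (pow_le_pow_left₀ (s0 m) (smono (Nat.le_succ m)) _)))
      have : {n | lam k < ‖a n‖} = (E k : Set ℕ) := by ext n; simp [memE]
      rw [this, Set.encard_coe_eq_coe_finsetCard]
      exact_mod_cast (mem_Ico.1 hm).1
    rw [← mul_sum, sum_Ico_sub (fun m => s m ^ r) hM] at h1
    refine h1.trans (mul_le_mul_of_nonneg_left ?_ (pow_nonneg (hl k).le _))
    linarith [pow_nonneg (s0 (E k).card) r]
  have b4 : ∀ K, ∑ m ∈ range (E K).card, lorentzTerm s r a m ≤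
      2 ^ r * ∑ k ∈ range K, τ (k + 1) ^ r := by
    intro K
    induction K with
    | zero => simp [E0]
    | succ K ih =>
      have h1 := card_le_card (Emono K)
      rw [← sum_range_add_sum_Ico _ h1, sum_range_succ, mul_add]
      refine add_le_add ih ((blk K _ h1).trans ?_)
      rw [← mul_pow, ← mul_pow, ← hl2 K]
      refine pow_le_pow_left₀ (mul_nonneg (by linarith [hl (K + 1)]) (s0 _)) ?_ _
      linarith [b3 (K + 1)]
  have b5 : ∀ K, ∑ m ∈ range (E K).card, lorentzTerm s r a m ≤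
      2 ^ r * (2 * (1 + C)) ^ r * B * C ^ r * ‖f‖ ^ r := by
    intro K
    refine (b4 K).trans ?_
    have h1 := b2 K
    simp only [mul_pow (2 * (1 + C))] at h1
    rw [← mul_sum] at h1
    have h2 := mul_le_mul_of_nonneg_left (b1 K) (show 0 ≤ (2 * (1 + C)) ^ r by positivity)
    have h3 := mul_le_mul_of_nonneg_left (h1.trans h2) (show (0 : ℝ) ≤ 2 ^ r by positivity)
    rw [mul_pow C] at h3
    linarith
  have b6 : ∀ K, ∑ m ∈ range M, lorentzTerm s r a m ≤
      2 ^ r * (2 * (1 + C)) ^ r * B * C ^ r * ‖f‖ ^ r + lam K ^ r * s M ^ r := by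
    intro K
    rcases le_total M (E K).card with h | h
    · refine le_trans (sum_le_sum_of_subset_of_nonneg (range_subset_range.2 h)
        fun m _ _ => (tl m).1) ((b5 K).trans (le_add_of_nonneg_right ?_))
      exact mul_nonneg (pow_nonneg (hl K).le _) (pow_nonneg (s0 M) _)
    · rw [← sum_range_add_sum_Ico _ h]
      exact add_le_add (b5 K) (blk K M h)
  have ht : Tendsto lam atTop (𝓝 0) :=
    tendsto_const_nhds.div_atTop (tendsto_pow_atTop_atTop_of_one_lt one_lt_two)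
  have ht2 := ((ht.pow r).mul_const (s M ^ r)).const_add
    (2 ^ r * (2 * (1 + C)) ^ r * B * C ^ r * ‖f‖ ^ r)
  rw [zero_pow (by omega), zero_mul, add_zero] at ht2
  exact ge_of_tendsto' ht2 b6

end main

end Pool.Agent.H87.QGL
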