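import Pool.Agent.H87.L1R

namespace Pool.Agent.H87.L1R

open Filter Topology MeasureTheory Set

variable {M : Type}

open Classical in
noncomputable def mk (g : M → ℝ) : L M :=
  if h : Memℓp g 1 then (⟨g, h⟩ : lp (fun _ : M => ℝ) 1) else 0

lemma mk_ap (g : M → ℝ) (C : ℝ) (h : ∀ s : Finset M, ∑ m ∈ s, |g m| ≤ C) (m : M) :
    (mk g).ap m = g m := by
  have hm : Memℓp g 1 := by
    refine memℓp_gen' (C := C) fun s => ?_
    simpa using h s
  simp only [mk, dif_pos hm]
  rfl

theorem rnp [Countable M] (f : ℝ → L M) (K : NNReal) (hf : LipschitzWith K f) :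
    ∀ᵐ t ∂(volume : Measure ℝ), DifferentiableAt ℝ f t := by
  classical
  have hc : ∀ m, LipschitzWith K fun t => (f t).ap m := fun m =>
    LipschitzWith.of_dist_le_mul fun s t => by
      refine le_trans ?_ (hf.dist_le_mul s t)
      rw [dist_eq_norm, dist_eq_norm]
      exact ap_le (f s - f t) m
  set g : M → ℝ → ℝ := fun m => deriv fun t => (f t).ap m with hg
  have hd : ∀ᵐ t ∂(volume : Measure ℝ), ∀ m, DifferentiableAt ℝ (fun t => (f t).ap m) t :=
    ae_all_iff.2 fun m => (hc m).ae_differentiableAt_real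
  have hb : ∀ᵐ t ∂(volume : Measure ℝ), ∀ s : Finset M, ∑ m ∈ s, |g m t| ≤ K := by
    filter_upwards [hd] with t ht s
    have h1 : Tendsto (fun y => ∑ m ∈ s, |slope (fun t => (f t).ap m) t y|) (𝓝[≠] t)
        (𝓝 (∑ m ∈ s, |g m t|)) :=
      tendsto_finsetSum _ fun m _ => (hasDerivAt_iff_tendsto_slope.1 (ht m).hasDerivAt).abs
    refine le_of_tendsto h1 ?_
    filter_upwards [self_mem_nhdsWithin] with y hy
    have hy' : 0 < |y - t| := abs_pos.2 (sub_ne_zero.2 hy)
    have h2 : ∑ m ∈ s, |slope (fun t => (f t).ap m) t y| =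
        (∑ m ∈ s, |(f y - f t).ap m|) / |y - t| := by
      rw [Finset.sum_div]
      refine Finset.sum_congr rfl fun m _ => ?_
      rw [slope_def_field, abs_div, sub_ap]
    rw [h2, div_le_iff₀ hy']
    refine (sum_le _ s).trans ?_
    have := hf.dist_le_mul y t
    rwa [dist_eq_norm, Real.dist_eq] at this
  set G : ℝ → L M := fun t => mk fun m => g m t with hG
  have hGa : ∀ᵐ t ∂(volume : Measure ℝ), ∀ m, (G t).ap m = g m t :=
    hb.mono fun t ht m => mk_ap _ _ ht m
  have hGm : AEStronglyMeasurable G volume := by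
    refine aestronglyMeasurable_of_tendsto_ae (atTop : Filter (Finset M))
      (f := fun s t => ∑ m ∈ s, g m t • dl m) (fun s => ?_) ?_
    · refine Finset.aestronglyMeasurable_fun_sum _ fun m _ => ?_
      exact (measurable_deriv _).aestronglyMeasurable.smul_const _
    · filter_upwards [hGa] with t ht
      have := hasSum_dl (G t)
      simp only [ht] at this
      exact this
  have hGb : ∀ᵐ t ∂(volume : Measure ℝ), ‖G t‖ ≤ K := by
    filter_upwards [hGa, hb] with t h1 h2
    exact norm_le_of _ fun s => by simpa only [h1] using h2 s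
  have hGl : LocallyIntegrable G volume :=
    (locallyIntegrable_const (K : ℝ)).mono hGm (hGb.mono fun t ht => by simpa using ht)
  have hI : ∀ x y, IntervalIntegrable G volume x y := fun x y =>
    intervalIntegrable_iff.mpr <|
      (hGl.integrableOn_isCompact isCompact_uIcc).mono_set uIoc_subset_uIcc
  have key : f = fun x => f 0 + ∫ t in (0 : ℝ)..x, G t := by
    funext x
    refine L.ext' fun m => ?_
    have h1 := (apL m).intervalIntegral_comp_comm (hI 0 x)
    have h2 := ((hc m).lipschitzOnWith (s := uIcc 0 x)).absolutelyContinuousOnInterval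
      |>.integral_deriv_eq_sub
    have h3 : ∫ t in (0 : ℝ)..x, apL m (G t) = ∫ t in (0 : ℝ)..x, g m t :=
      intervalIntegral.integral_congr_ae (hGa.mono fun t ht _ => ht m)
    rw [add_ap, ← apL_apply m (∫ t in (0 : ℝ)..x, G t), ← h1, h3, h2]
    ring
  filter_upwards [LocallyIntegrable.ae_hasDerivAt_integral hGl] with t ht
  rw [key]
  exact ((ht 0).const_add _).differentiableAt

end Pool.Agent.H87.L1R
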