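import Pool.Agent.H87.Mlur1

namespace Pool.Agent.H87.Scat

open Filter Topology Set TopologicalSpace

variable {K : Type} [TopologicalSpace K] [CompactSpace K] [T2Space K]
  (hK : ∀ S : Set K, S.Nonempty → ∃ x ∈ S, ∃ U : Set K, IsOpen U ∧ U ∩ S = {x})
include hK

lemma range_countable {M : Type} [TopologicalSpace M] [MetrizableSpace M] (π : K → M)
    (hπ : Continuous π) : (range π).Countable := by
  let _ := metrizableSpaceMetric M
  have h1 : ∀ V : Set K, IsCompact V → (∀ x ∈ V, ∃ U ∈ 𝓝 x, (π '' U).Countable) →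
      (π '' V).Countable := fun V hV h => hV.induction_on (by simp)
    (fun s t h h' => h'.mono (image_mono h)) (fun s t h h' => image_union _ _ _ ▸ h.union h')
    fun x hx => (h x hx).imp fun U h => ⟨mem_nhdsWithin_of_mem_nhds h.1, h.2⟩
  rw [← image_univ]
  refine h1 _ isCompact_univ fun x₀ _ => by_contra fun h₀ => ?_
  obtain ⟨x, hx, U, hU, h2⟩ := hK {x | ¬ ∃ U ∈ 𝓝 x, (π '' U).Countable} ⟨x₀, h₀⟩
  obtain ⟨V, hV, h3, h4⟩ := local_compact_nhds (hU.mem_nhds (h2.ge rfl).1)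
  refine hx ⟨V, hV, ((countable_iUnion fun n : ℕ => h1 (V ∩ {y | 1 / (n + 1) ≤ dist (π y) (π x)})
    (h4.inter_right (isClosed_le continuous_const (by fun_prop))) fun y hy => by_contra fun h => ?_).insert
    (π x)).mono ?_⟩
  · obtain rfl : y = x := h2.le ⟨h3 hy.1, h⟩
    exact (Nat.one_div_pos_of_nat.trans_le hy.2).ne' (dist_self _)
  · rintro _ ⟨y, hy, rfl⟩
    refine or_iff_not_imp_left.2 fun h => ?_
    obtain ⟨n, hn⟩ := exists_nat_one_div_lt (dist_pos.2 h)
    exact mem_iUnion.2 ⟨n, y, ⟨hy, hn.le⟩, rfl⟩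

lemma asplund0 {X : Type} [NormedAddCommGroup X] [NormedSpace ℝ X] [CompleteSpace X]
    (φ : K → X →L[ℝ] ℝ) (c1 : ∀ w, Continuous fun x => φ x w) (c2 : ∀ x w, |φ x w| ≤ ‖w‖)
    (c3 : ∀ w, ∃ x, |φ x w| = ‖w‖) (Y : Submodule ℝ X) (h : SeparableSpace Y) :
    SeparableSpace (Y →L[ℝ] ℝ) := by
  set Z := Y.topologicalClosure with hZ
  have _ : CompleteSpace Z := (Submodule.isClosed_topologicalClosure _).completeSpace_coe
  have _ : SeparableSpace Z := (IsSeparable.of_subtype (Y : Set X)).closure.separableSpace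
  obtain ⟨f, hf⟩ := exists_dense_seq Z
  let ev : K → Z →L[ℝ] ℝ := fun x => φ x ∘L Z.subtypeL
  have h1 : (range ev).Countable := by
    refine MapsTo.countable_of_injOn (f := fun φ n => φ (f n)) (t := range fun x n => φ x (f n)) ?_
      (fun φ _ ψ _ h => DFunLike.ext' (hf.equalizer φ.continuous ψ.continuous h))
      (range_countable hK _ (continuous_pi fun n => c1 _))
    rintro _ ⟨x, rfl⟩; exact ⟨x, rfl⟩
  have h2 : ∀ x, ‖ev x‖ ≤ 1 := fun x => ContinuousLinearMap.opNorm_le_bound _ zero_le_one fun w =>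
    (c2 x w).trans_eq (one_mul _).symm
  have _ := Mlur.sepdual (range ev ∪ Neg.neg '' range ev) (h1.union (h1.image _)) fun w => by
    obtain ⟨x, h4⟩ := c3 w
    rcases abs_cases (ev x w) with h | h
    exacts [⟨ev x, .inl ⟨x, rfl⟩, h2 x, h.1.symm.trans h4⟩,
      ⟨-ev x, .inr ⟨_, ⟨x, rfl⟩, rfl⟩, by simpa using h2 x, h.1.symm.trans h4⟩]
  exact Mlur.sepdual_sub Y Z (Submodule.le_topologicalClosure _)

theorem asplund [Nonempty K] (Y : Submodule ℝ C(K, ℝ)) (h : SeparableSpace Y) :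
    SeparableSpace (Y →L[ℝ] ℝ) :=
  asplund0 hK (fun x => ContinuousMap.evalCLM ℝ x) (fun w => w.continuous)
    (fun x w => w.norm_coe_le_norm x) (fun w => by
      obtain ⟨x, -, hx⟩ := isCompact_univ.exists_isMaxOn univ_nonempty w.continuous.norm.continuousOn
      exact ⟨x, le_antisymm (w.norm_coe_le_norm x)
        ((ContinuousMap.norm_le _ (abs_nonneg _)).2 fun y => hx (mem_univ y))⟩) Y h

end Pool.Agent.H87.Scat
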