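import Pool.Agent.H87.JamesSharp

/-! A uniform lower bound for the symmetric Kottman constant of nonreflexive spaces. -/

namespace Pool.Agent.H87.SymKott

open Filter Topology Set

variable {X : Type} [NormedAddCommGroup X] [NormedSpace ℝ X]

lemma noSeq {D : ℝ} (hno : ¬ ∃ x : ℕ → X, (∀ n, ‖x n‖ ≤ 1) ∧
      ∀ n m : ℕ, n ≠ m → D ≤ ‖x n + x m‖ ∧ D ≤ ‖x n - x m‖)
    {α : Type} (F : Filter α) (hF : F.NeBot) (y : α → X) {r : ℝ} (hr : 0 < r)
    (h : ∀ᶠ a in F, ‖y a‖ ≤ r ∧ ∀ᶠ b in F, D * r ≤ ‖y a + y b‖ ∧ D * r ≤ ‖y a - y b‖) :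
    False := by
  obtain ⟨f, hf1, hf2⟩ := exists_seq_of_forall_finset_exists
    (fun a => ‖y a‖ ≤ r ∧ ∀ᶠ b in F, D * r ≤ ‖y a + y b‖ ∧ D * r ≤ ‖y a - y b‖)
    (fun a b => D * r ≤ ‖y a + y b‖ ∧ D * r ≤ ‖y a - y b‖)
    (fun s hs => (h.and ((eventually_all_finset s).2 fun a ha => (hs a ha).2)).exists)
  have key : ∀ v : X, D * r ≤ ‖v‖ → D ≤ ‖r⁻¹ • v‖ := fun v hv => by
    rw [norm_smul, norm_inv, Real.norm_of_nonneg hr.le, le_inv_mul_iff₀ hr]; linarith
  refine hno ⟨fun n => r⁻¹ • y (f n), fun n => ?_, fun n m hnm => ?_⟩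
  · rw [norm_smul, norm_inv, Real.norm_of_nonneg hr.le, inv_mul_le_iff₀ hr, mul_one]
    exact (hf1 n).1
  · rw [← smul_add, ← smul_sub]
    rcases lt_or_gt_of_ne hnm with h1 | h1
    · exact ⟨key _ (hf2 n m h1).1, key _ (hf2 n m h1).2⟩
    · refine ⟨key _ ?_, key _ ?_⟩
      · rw [add_comm]; exact (hf2 m n h1).1
      · rw [norm_sub_rev]; exact (hf2 m n h1).2

theorem main {D K : ℝ} (hD : 1 ≤ D) (hK : D * (D * (D * D)) * K ≤ 2)
    (x : ℕ → X) (f : ℕ → StrongDual ℝ X) (hx : ∀ n, ‖x n‖ ≤ 1) (hf : ∀ n, ‖f n‖ ≤ K)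
    (hfx : ∀ i j, f i (x j) = if i ≤ j then 1 else 0) :
    ∃ x : ℕ → X, (∀ n, ‖x n‖ ≤ 1) ∧
      ∀ n m : ℕ, n ≠ m → D ≤ ‖x n + x m‖ ∧ D ≤ ‖x n - x m‖ := by
  by_contra hno
  have hD0 : 0 < D := by linarith
  have h12 : D ≤ D * D := by nlinarith
  have h23 : D * D ≤ D * (D * D) := by nlinarith
  have h34 : D * (D * D) ≤ D * (D * (D * D)) := by nlinarith
  have big : ∀ (v : X) (i : ℕ), (f i v = 2 ∨ f i v = -2) → D * (D * (D * D)) ≤ ‖v‖ := by
    intro v i hv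
    have h1 : ‖f i v‖ = 2 := by rcases hv with h | h <;> simp [h]
    have h2 := (f i).le_opNorm v
    have h3 := mul_le_mul_of_nonneg_right (hf i) (norm_nonneg v)
    have hK0 : 0 < K := by
      by_contra hn
      push Not at hn
      nlinarith [norm_nonneg v]
    by_contra hn
    push Not at hn
    nlinarith
  have y1 : ∀ {i j : ℕ}, i ≤ j → f i (x j) = 1 := fun h => by rw [hfx, if_pos h]
  have y0 : ∀ {i j : ℕ}, j < i → f i (x j) = 0 := fun h => by rw [hfx, if_neg (not_le.2 h)]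
  let F2 : Filter (ℕ × ℕ) := atTop.curry atTop
  let F3 : Filter (ℕ × ℕ × ℕ) := atTop.curry F2
  have o2 : ∀ n, ∀ᶠ p in F2, n < p.1 ∧ p.1 < p.2 := fun n =>
    eventually_curry_iff.2 ((eventually_gt_atTop n).mono fun a ha =>
      (eventually_gt_atTop a).mono fun b hb => ⟨ha, hb⟩)
  have o3 : ∀ n, ∀ᶠ t in F3, n < t.1 ∧ t.1 < t.2.1 ∧ t.2.1 < t.2.2 := fun n =>
    eventually_curry_iff.2 ((eventually_gt_atTop n).mono fun a ha =>
      (o2 a).mono fun b hb => ⟨ha, hb⟩)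
  -- step 1
  have s1 : ∃ᶠ p in F2, ‖x p.1 - x p.2‖ ≤ D := by
    by_contra hn
    rw [not_frequently] at hn
    refine noSeq hno atTop inferInstance x one_pos ?_
    refine (eventually_curry_iff.1 hn).mono fun a ha => ⟨hx a, ha.mono fun b hb => ⟨?_, ?_⟩⟩
    · have := big (x a + x b) 0 (Or.inl (by
        rw [map_add, y1 (Nat.zero_le _), y1 (Nat.zero_le _)]; norm_num))
      linarith
    · rw [mul_one]; exact (not_le.1 hb).le
  -- step 2
  have s2 : ∀ a, ∀ᶠ t in F3, D * (D * D) ≤ ‖x a - x t.1 - (x t.2.1 - x t.2.2)‖ := by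
    intro a
    by_contra hn
    rw [not_eventually] at hn
    refine noSeq hno (F3 ⊓ 𝓟 _) (frequently_iff_neBot.1 hn)
      (fun t => x a - x t.1 - (x t.2.1 - x t.2.2)) (r := D * (D * D)) (by positivity) ?_
    rw [eventually_inf_principal]
    refine (o3 a).mono fun t ht hb => ⟨(not_le.1 hb).le, ?_⟩
    refine ((o3 t.2.2).filter_mono inf_le_left).mono fun u hu => ⟨?_, ?_⟩
    · refine big _ t.1 (Or.inr ?_)
      simp only [map_add, map_sub]
      rw [y0 ht.1, y1 le_rfl, y1 (by omega), y1 (by omega), y1 (by omega), y1 (by omega),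
        y1 (by omega)]
      norm_num
    · refine big _ t.2.2 (Or.inl ?_)
      simp only [map_sub]
      rw [y0 (j := a) (by omega), y0 (j := t.1) (by omega), y0 (j := t.2.1) (by omega),
        y1 le_rfl, y1 (by omega), y1 (by omega), y1 (by omega)]
      norm_num
  have s3 : ∀ᶠ p in F2, ∀ᶠ q in F2, D * (D * D) ≤ ‖x p.1 - x p.2 - (x q.1 - x q.2)‖ :=
    eventually_curry_iff.2 (Eventually.of_forall fun a => eventually_curry_iff.1 (s2 a))
  let G : Filter (ℕ × ℕ) := F2 ⊓ 𝓟 {p | ‖x p.1 - x p.2‖ ≤ D}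
  have hG : G.NeBot := frequently_iff_neBot.1 s1
  have g1 : ∀ᶠ p in G, ‖x p.1 - x p.2‖ ≤ D :=
    eventually_inf_principal.2 (Eventually.of_forall fun _ h => h)
  have s4 : ¬ ∀ᶠ p in G, ∀ᶠ q in F2, D * D ≤ ‖x p.1 - x p.2 + (x q.1 - x q.2)‖ := by
    intro hn
    refine noSeq hno G hG (fun p => x p.1 - x p.2) hD0 ?_
    filter_upwards [g1, hn, s3.filter_mono inf_le_left] with p h1 h2 h3
    refine ⟨h1, ?_⟩
    filter_upwards [h2.filter_mono inf_le_left, h3.filter_mono inf_le_left] with q h4 h5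
    exact ⟨h4, h23.trans h5⟩
  rw [not_eventually] at s4
  obtain ⟨p, hp1, hp2⟩ := (s4.and_eventually ((o2 0).filter_mono inf_le_left)).exists
  rw [not_eventually] at hp1
  refine noSeq hno (F2 ⊓ 𝓟 _) (frequently_iff_neBot.1 hp1)
    (fun q => x p.1 - x p.2 + (x q.1 - x q.2)) (r := D * D) (by positivity) ?_
  rw [eventually_inf_principal]
  filter_upwards [s3, o2 p.2] with q h1 h2 h3
  refine ⟨(not_le.1 h3).le, ?_⟩
  filter_upwards [h1.filter_mono inf_le_left, (o2 p.2).filter_mono inf_le_left] with u h4 h5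
  constructor
  · refine h34.trans (big _ p.2 (Or.inr ?_))
    simp only [map_add, map_sub]
    rw [y0 hp2.2, y1 le_rfl, y1 (by omega), y1 (by omega), y1 (by omega), y1 (by omega)]
    norm_num
  · rwa [add_sub_add_left_eq_sub]

end Pool.Agent.H87.SymKott
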