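import Pool.Agent.H87.NoGat1
import Pool.Agent.H87.NoGat2
import Pool.Agent.H87.ScatAsp

namespace Pool.Agent.H87.TrR

open Filter Topology Set Classical NoGat

def K : Type := {x : T → Bool // (∀ s t, s ≤ t → x s = true → x t = true) ∧
  ∀ (s t : T) ξ, ξ ≤ s.h → s.f ξ ≠ t.f ξ → x s = true → x t = true → x ⟨ξ, s.f⟩ = true}

instance : TopologicalSpace K := instTopologicalSpaceSubtype
instance : T2Space K := inferInstanceAs (T2Space (Subtype _))
instance : Nonempty K := ⟨⟨fun _ => false, by simp⟩⟩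

lemma clop0 (t : T) (b : Bool) : IsClopen {x : T → Bool | x t = b} :=
  (isClopen_discrete {b}).preimage (continuous_apply t)

instance : CompactSpace K := isCompact_iff_compactSpace.1 (IsClosed.isCompact (s := {x | _ ∧ _}) (by
  simp only [ofPred_and, ofPred_forall]
  exact (isClosed_iInter fun s => isClosed_iInter fun t => isClosed_iInter fun _ =>
    isClosed_imp (clop0 _ _).2 (clop0 _ _).1).inter (isClosed_iInter fun s => isClosed_iInter fun t =>
    isClosed_iInter fun _ => isClosed_iInter fun _ => isClosed_iInter fun _ =>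
    isClosed_imp (clop0 _ _).2 (isClosed_imp (clop0 _ _).2 (clop0 _ _).1))))

lemma scattered (S : Set K) (hS : S.Nonempty) : ∃ x ∈ S, ∃ U : Set K, IsOpen U ∧ U ∩ S = {x} := by
  by_cases h2 : ∃ s : T, ∃ x ∈ S, x.1 s = true
  · obtain ⟨s, ⟨x, hx, h⟩, h3⟩ := (InvImage.wf T.h wellFounded_lt).has_min _ h2
    have h4 : ∀ y ∈ S, y.1 s = true → ∀ w, y.1 w = true ↔ s ≤ w := fun y hy hs w =>
      ⟨fun hw => ⟨not_lt.1 (h3 w ⟨y, hy, hw⟩), fun a ha => by_contra fun e => h3 ⟨a, s.f⟩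
        ⟨y, hy, y.2.2 s w a ha.le e hs hw⟩ ha⟩, fun h => y.2.1 _ _ h hs⟩
    refine ⟨x, hx, _, (clop0 s true).2.preimage continuous_subtype_val, eq_singleton_iff_unique_mem.2
      ⟨⟨h, hx⟩, fun y hy => Subtype.ext (funext fun i => ?_)⟩⟩
    rw [Bool.eq_iff_iff, h4 x hx h, h4 y hy.2 hy.1]
  simp only [not_exists, not_and, Bool.not_eq_true] at h2
  obtain ⟨x, hx⟩ := hS
  exact ⟨x, hx, univ, isOpen_univ, eq_singleton_iff_unique_mem.2
    ⟨⟨trivial, hx⟩, fun y hy => Subtype.ext (funext fun i => (h2 _ y hy.2).trans (h2 _ x hx).symm)⟩⟩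

abbrev X := C(K, ℝ)

noncomputable def a (t : T) : X := ⟨fun x => if x.1 t then 1 else 0,
  (continuous_of_discreteTopology (f := fun b : Bool => if b then (1 : ℝ) else 0)).comp
    ((continuous_apply t).comp continuous_subtype_val)⟩

@[simp] lemma a_apply (t : T) (x : K) : a t x = if x.1 t then 1 else 0 := rfl

def Z (v w : T) (f : X) : Prop := ∀ x, f x ≠ 0 → x.1 v = false ∧ ∃ r, w ≤ r ∧ x.1 r = true

lemma Z.add {v w : T} {f g : X} (h : Z v w f) (h' : Z v w g) : Z v w (f + g) := fun x hx =>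
  by_contra fun e => hx (by
    rw [ContinuousMap.add_apply, not_not.1 (mt (h x) e), not_not.1 (mt (h' x) e), add_zero])

lemma Z.smul {v w : T} {f : X} (h : Z v w f) (c : ℝ) : Z v w (c • f) := fun x hx =>
  h x (right_ne_zero_of_mul hx)

lemma Z.mono {v w v' w' : T} {f : X} (h : Z v w f) (h1 : v' ≤ v) (h2 : w' ≤ w) : Z v' w' f :=
  fun x hx => ⟨Bool.eq_false_iff.2 fun e => by simpa [x.2.1 _ _ h1 e] using (h x hx).1,
    (h x hx).2.imp fun _ h => ⟨h2.trans h.1, h.2⟩⟩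

lemma Z_a {v w : T} (h : v ≤ w) : Z v w (a w - a v) := fun x hx => by
  by_cases e : x.1 v = true
  · simp [e, x.2.1 _ _ h e] at hx
  · exact ⟨by simpa using e, w, le_rfl, by simpa [e] using hx⟩

lemma sigma (v : ℕ → T) (hv : Monotone v) : ∃ t, ∀ k, v k ≤ t := by
  obtain ⟨b, hb⟩ := bdd fun k => (v k).h
  let t : T := ⟨b, fun x => if h : ∃ k, x < (v k).h then (v h.choose).f x else 0⟩
  refine ⟨t, fun k => ⟨(hb k).le, fun x hx => ?_⟩⟩
  have h : ∃ k, x < (v k).h := ⟨k, hx⟩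
  rw [show t.f x = _ from dif_pos h]
  exact (le_total k h.choose).elim (fun e => (hv e).2 x hx) fun e => ((hv e).2 x h.choose_spec).symm

lemma strict (t : T) : ∃ w, t ≤ w ∧ a w - a t ≠ 0 := by
  obtain ⟨b, hb⟩ := bdd fun _ => t.h
  refine ⟨⟨b, t.f⟩, ⟨(hb 0).le, fun _ _ => rfl⟩, fun h => ?_⟩
  have := DFunLike.congr_fun h ⟨fun w => decide (⟨b, t.f⟩ ≤ w), by
    simpa using fun s t h h' => h'.trans h, fun s r ξ h1 h2 h3 h4 => by
      simp only [decide_eq_true_eq] at *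
      exact ⟨not_lt.1 fun e => h2 ((h3.2 ξ e).symm.trans (h4.2 ξ e)), h3.2⟩⟩
  simp [show ¬ (⟨b, t.f⟩ : T) ≤ t from fun h => (hb 0).not_ge h.1] at this

lemma avg (v : T) : ∃ w : ℕ → T, (∀ j, v ≤ w j) ∧ ∀ (φ : ℕ → X) (R : ℝ),
    (∀ j, Z v (w j) (φ j)) → (∀ j, ‖φ j‖ ≤ R) → ∀ J : ℕ, ‖∑ j ∈ Finset.range J, φ j‖ ≤ R := by
  obtain ⟨b, hb⟩ := bdd fun _ => v.h
  let w : ℕ → T := fun j => ⟨b, Function.update v.f v.h j⟩
  have hw : ∀ j, v ≤ w j := fun j => ⟨(hb 0).le, fun x hx => (Function.update_of_ne hx.ne _ _).symm⟩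
  refine ⟨w, hw, fun φ R h3 h2 J => ?_⟩
  have R0 := (norm_nonneg _).trans (h2 0)
  refine (ContinuousMap.norm_le _ R0).2 fun x => ?_
  rw [ContinuousMap.sum_apply]
  by_cases h : ∃ i, φ i x ≠ 0
  · obtain ⟨i, hi⟩ := h
    rw [Finset.sum_eq_ite i fun j _ hj => by_contra fun e => ?_]
    · split_ifs
      exacts [((φ i).norm_coe_le_norm x).trans (h2 i), by simpa using R0]
    obtain ⟨a1, r, a2, a3⟩ := h3 i x hi
    obtain ⟨-, r', a4, a5⟩ := h3 j x e
    have a6 := x.2.2 r r' v.h ((hw i).trans a2).1 (by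
      rw [← a2.2 _ (hb 0), ← a4.2 _ (hb 0)]; simpa [w] using hj.symm) a3 a5
    simp [x.2.1 ⟨v.h, r.f⟩ v ⟨le_rfl, fun y hy => (((hw i).trans a2).2 y hy).symm⟩ a6] at a1
  · push Not at h
    simpa [h] using R0

structure St where
  y : X
  l : ℝ
  v : T
  supp : ∀ x, x.1 v = false → y x = 0
  bd : ‖y‖ ≤ l
  l1 : l ≤ 1

noncomputable def St.E (s : St) (w : T) : X := s.y + s.l • (a w - a s.v)

lemma glue {y : X} {v w : T} (h : v ≤ w) (hy : ∀ x, x.1 v = false → y x = 0) {l : ℝ} (hl : ‖y‖ ≤ l) :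
    ‖y + l • (a w - a v)‖ ≤ l := by
  have l0 := (norm_nonneg _).trans hl
  refine (ContinuousMap.norm_le _ l0).2 fun x => ?_
  by_cases e : x.1 v = true
  · simpa [e, x.2.1 _ _ h e] using (y.norm_coe_le_norm x).trans hl
  · by_cases e' : x.1 w = true <;> simp [e, e', hy x (by simpa using e), abs_of_nonneg l0, l0]

lemma St.E_supp (s : St) {w : T} (h : s.v ≤ w) (x : K) (hx : x.1 w = false) : s.E w x = 0 := by
  have : x.1 s.v = false := Bool.eq_false_iff.2 fun e => by simpa [hx] using x.2.1 _ _ h e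
  simp [St.E, hx, this, s.supp x this]

noncomputable def St.ext (s : St) (w : T) (h : s.v ≤ w) : St :=
  ⟨s.E w, s.l, w, s.E_supp h, glue h s.supp s.bd, s.l1⟩

lemma St.ext_E (s : St) (w : T) (h : s.v ≤ w) (r : T) : (s.ext w h).E r = s.E r := by
  simp only [St.E, St.ext]; module

structure Ext (s' s : St) : Prop where
  v : s.v ≤ s'.v
  z : Z s.v s.v (s'.y - s.y)
  n : ‖s'.y - s.E s'.v‖ ≤ s'.l - s.l

lemma Ext.E {s' s : St} (h : Ext s' s) {w : T} (hw : s'.v ≤ w) : ‖s'.E w - s.E w‖ ≤ s'.l - s.l := by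
  convert glue hw (fun x hx => by
    rw [ContinuousMap.sub_apply, s'.supp x hx, s.E_supp h.v x hx, sub_self]) h.n using 2
  simp only [St.E]; module

lemma Ext.trans {p q s : St} (h : Ext p q) (h' : Ext q s) : Ext p s :=
  ⟨h'.v.trans h.v, by simpa using (h.z.mono h'.v h'.v).add h'.z, by
    linarith [norm_sub_le_norm_sub_add_norm_sub p.y (q.E p.v) (s.E p.v), h.n, h'.E h.v]⟩

lemma Ext.refl (s : St) : Ext s s := ⟨le_rfl, by simp [Z], by simp [St.E]⟩

lemma St.ext_le (s : St) (w : T) (h : s.v ≤ w) : Ext (s.ext w h) s :=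
  ⟨h, by simpa [St.ext, St.E] using ((Z_a h).mono le_rfl h).smul s.l, by simp [St.ext]⟩

variable (N : Seminorm ℝ X)

noncomputable def μ (y : X) (v : T) : ℝ := sInf (N '' {f | Z v v (f - y) ∧ ‖f‖ ≤ 1})

noncomputable def S (s : St) : ℝ := sSup ((fun w => μ N (s.E w) w) '' Ici s.v)

variable {N}

lemma μ_le {y f : X} {v : T} (h1 : Z v v (f - y)) (h2 : ‖f‖ ≤ 1) : μ N y v ≤ N f :=
  csInf_le ⟨0, by rintro _ ⟨x, -, rfl⟩; exact apply_nonneg _ _⟩ ⟨f, ⟨h1, h2⟩, rfl⟩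

lemma μ_ne (s : St) {w : T} (h : s.v ≤ w) : (N '' {f | Z w w (f - s.E w) ∧ ‖f‖ ≤ 1}).Nonempty :=
  ⟨_, s.E w, ⟨by simp [Z], (glue h s.supp s.bd).trans s.l1⟩, rfl⟩

variable {b : ℝ} (b0 : 0 < b) (hb : ∀ x, N x ≤ b * ‖x‖)
include b0 hb

lemma le_S (s : St) {w : T} (h : s.v ≤ w) : μ N (s.E w) w ≤ S N s := le_csSup ⟨b, by
  rintro _ ⟨r, hr, rfl⟩
  have := (glue hr s.supp s.bd).trans s.l1
  exact (μ_le (f := s.E r) (by simp [Z]) this).trans ((hb _).trans (mul_le_of_le_one_right b0.le this))⟩ ⟨w, h, rfl⟩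

lemma bad (s : St) {t : T} (h : s.v ≤ t) : N (s.E t) ≤ S N s := by
  refine le_of_forall_pos_le_add fun η hη => ?_
  obtain ⟨w, h1, h2⟩ := avg t
  choose _ f h4 using fun j => exists_lt_of_csInf_lt (μ_ne s (h.trans (h1 j)))
    ((le_S b0 hb s (h.trans (h1 j))).trans_lt (lt_add_of_pos_right _ (half_pos hη)))
  choose f h3 e using f
  obtain ⟨J, hJ⟩ := exists_nat_gt (4 * b / η)
  have J0 : (0 : ℝ) < J := hJ.trans_le' (by positivity)
  have h5 := h2 (fun j => f j - s.E t) 2 (fun j => by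
    convert ((h3 j).1.mono (h1 j) le_rfl).add ((Z_a (h1 j)).smul s.l) using 1
    simp only [St.E]; module) (fun j => (norm_sub_le _ _).trans (by
      linarith [(h3 j).2, show ‖s.E t‖ ≤ _ from glue h s.supp s.bd, s.l1])) J
  have h6 := map_sub_le_add N (∑ j ∈ Finset.range J, f j) (∑ j ∈ Finset.range J, (f j - s.E t))
  rw [← Finset.sum_sub_distrib, Finset.sum_congr rfl fun j _ => sub_sub_cancel _ _, Finset.sum_const,
    Finset.card_range, ← Nat.cast_smul_eq_nsmul ℝ, map_smul_eq_mul, Real.norm_natCast] at h6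
  have h7 := (Finset.le_sum_of_subadditive N (map_zero N).le (map_add_le_add N) _ _).trans
    (Finset.sum_le_card_nsmul (Finset.range J) _ _ fun j _ => ((e j).trans_lt (h4 j)).le)
  rw [Finset.card_range, nsmul_eq_mul] at h7
  rw [div_lt_iff₀ hη] at hJ
  exact le_of_mul_le_mul_left (by
    nlinarith [(hb _).trans (mul_le_mul_of_nonneg_left h5 b0.le)]) J0

lemma lower (hN : ∀ x, N x = 0 → x = 0) :
    ∃ v, ∃ c > 0, ∀ s : St, v ≤ s.v → 1 / 4 ≤ s.l → c ≤ S N s := by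
  by_contra! h
  obtain ⟨t, -, ht⟩ := generic sigma (fun (n : ℕ) t => ∀ w, t ≤ w → N (a w - a t) ≤ 8 * (1 / (n + 1)))
    (fun n v => by
      obtain ⟨s, h1, h2, h3⟩ := h v (1 / (n + 1)) (by positivity)
      refine ⟨s.v, h1, fun t ht w hw => ?_⟩
      have := map_sub_le_add N (s.E w) (s.E t)
      rw [show s.E w - s.E t = s.l • (a w - a t) by simp only [St.E]; module, map_smul_eq_mul,
        Real.norm_of_nonneg (by linarith)] at this
      nlinarith [bad b0 hb s ht, bad b0 hb s (ht.trans hw), apply_nonneg N (a w - a t)])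
    ⟨Classical.arbitrary _, 0⟩
  obtain ⟨w, h1, h2⟩ := strict t
  exact h2 (hN _ (le_antisymm (ge_of_tendsto' (by simpa using
    (tendsto_one_div_add_atTop_nhds_zero_nat (𝕜 := ℝ)).const_mul 8) fun n => ht n w h1)
    (apply_nonneg _ _)))

lemma sel (c : ℝ) (c0 : 0 < c) (s : St) {η : ℝ} (hη : 0 < η) : ∃ p, Ext p s ∧
    S N p - η ≤ μ N p.y p.v ∧ ∀ q, Ext q s → c * q.l - S N q ≤ c * p.l - S N p + η := by
  have h1 : BddAbove ((fun q => c * q.l - S N q) '' {q | Ext q s}) := ⟨c, by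
    rintro _ ⟨q, -, rfl⟩
    nlinarith [q.l1, (apply_nonneg N _).trans (bad b0 hb q le_rfl)]⟩
  obtain ⟨_, ⟨p, hp, rfl⟩, h2⟩ := exists_lt_of_lt_csSup
    (s := (fun q => c * q.l - S N q) '' {q | Ext q s}) ⟨_, s, .refl s, rfl⟩ (sub_lt_self _ hη)
  obtain ⟨_, ⟨w, hw, rfl⟩, h3⟩ := exists_lt_of_lt_csSup
    (s := (fun w => μ N (p.E w) w) '' Ici p.v) ⟨_, p.v, le_refl p.v, rfl⟩ (sub_lt_self _ hη)
  have h4 : S N (p.ext w hw) ≤ S N p := csSup_le ⟨_, w, le_refl w, rfl⟩ (by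
    rintro _ ⟨r, hr, rfl⟩
    simpa only [St.ext_E] using le_S b0 hb p (hw.trans hr))
  refine ⟨p.ext w hw, (p.ext_le w hw).trans hp, (sub_le_sub_right h4 η).trans h3.le, fun q hq => ?_⟩
  rw [show (p.ext w hw).l = p.l from rfl]
  linarith [le_csSup h1 ⟨q, hq, rfl⟩]

lemma raise (s : St) {δ : ℝ} (hδ : 0 < δ) (h : s.l + δ ≤ 1) :
    ∃ p, Ext p s ∧ p.l = s.l + δ ∧ S N p ≤ S N s + b * δ := by
  let p : St := ⟨s.y, s.l + δ, s.v, s.supp, by linarith [s.bd], h⟩
  refine ⟨p, ⟨le_rfl, by simp [Z, p], by simp [St.E, p, hδ.le]⟩, rfl, csSup_le ⟨_, s.v, le_refl s.v, rfl⟩ ?_⟩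
  rintro _ ⟨w, hw, rfl⟩
  refine le_trans (sub_le_iff_le_add.1 (le_csInf (μ_ne s hw) ?_)) (add_le_add_left (le_S b0 hb s hw) _)
  rintro _ ⟨f, ⟨h1, h2⟩, rfl⟩
  have h3 : f + δ • (a w - a s.v) - p.E w = f - s.E w := by simp only [St.E, p]; module
  have h4 := μ_le (N := N) (h3 ▸ h1) ((ContinuousMap.norm_le _ zero_le_one).2 fun x => by
    by_cases e : x.1 w = true
    · have : (f - s.E w) x = 0 := by_contra fun h => by simpa [e] using (h1 x h).1
      rw [← h3, ContinuousMap.sub_apply, sub_eq_zero] at this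
      exact this ▸ ((p.E w).norm_coe_le_norm x).trans ((glue hw p.supp p.bd).trans h)
    · simpa [e, show ¬ x.1 s.v = true from fun e' => e (x.2.1 _ _ hw e')] using
        (f.norm_coe_le_norm x).trans h2)
  have h5 := glue (y := 0) hw (by simp) (l := δ) (by simpa using hδ.le)
  rw [zero_add] at h5
  linarith [map_add_le_add N f (δ • (a w - a s.v)), (hb _).trans (mul_le_mul_of_nonneg_left h5 b0.le)]

theorem rough (hN : ∀ x, N x = 0 → x = 0) : ∃ y ≠ 0, ∃ c > 0, ∀ ε > 0, ∃ h ≠ 0, ‖h‖ ≤ ε ∧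
    N (y + h) ≤ N y - c * ‖h‖ ∧ ∀ r : ℝ, ‖r • h‖ ≤ 1 / 2 → N y - ε ≤ N (y + r • h) := by
  obtain ⟨v₀, c, c0, h1⟩ := lower b0 hb hN
  set δ : ℕ → ℝ := fun n => c / (8 * (b + c)) * (1 / 2) ^ n with hδ
  have δ0 : ∀ n, 0 < δ n := fun n => by positivity
  have δ1 : ∀ n, δ (n + 1) = δ n / 2 := fun n => by simp only [hδ]; ring
  have δ2 : ∀ n, δ n * (8 * (b + c)) ≤ c := fun n => by
    rw [hδ, mul_right_comm, div_mul_cancel₀ _ (by positivity)]
    exact mul_le_of_le_one_right c0.le (pow_le_one₀ (by norm_num) (by norm_num))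
  have δt : Tendsto δ atTop (𝓝 0) := by
    simpa only [mul_zero] using (tendsto_pow_atTop_nhds_zero_of_lt_one (r := (1 / 2 : ℝ)) (by norm_num)
      (by norm_num)).const_mul (c / (8 * (b + c)))
  let I := fun n (p : St) => v₀ ≤ p.v ∧ 2 * (b + c) * δ n - c / 2 < c / 2 * p.l - S N p ∧
    S N p - c / 4 * δ n ≤ μ N p.y p.v ∧
      ∀ q, Ext q p → c / 2 * q.l - S N q ≤ c / 2 * p.l - S N p + c / 4 * δ n
  have I1 : ∀ n p, I n p → p.l ≤ 1 / 4 := fun n p h => not_lt.1 fun e => by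
    nlinarith [h1 p h.1 e.le, h.2.1, p.l1, mul_pos (add_pos b0 c0) (δ0 n)]
  have st : ∀ n p, I n p → ∃ q, I (n + 1) q ∧ Ext q p ∧ p.l + δ n ≤ q.l := fun n p h => by
    obtain ⟨q, h2, h3, h4⟩ := raise b0 hb p (δ0 n) (by nlinarith [I1 n p h, δ2 n, δ0 n])
    obtain ⟨r, h5, h6, h7⟩ := sel b0 hb (c / 2) (half_pos c0) q
      (show 0 < c / 4 * δ (n + 1) by have := δ0 (n + 1); positivity)
    refine ⟨r, ⟨h.1.trans (h5.trans h2).v, ?_, h6, fun q hq => h7 q (hq.trans h5)⟩, h5.trans h2,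
      by linarith [(norm_nonneg _).trans h5.n]⟩
    have := h7 q (.refl q)
    rw [δ1] at this ⊢
    nlinarith [h.2.1, mul_pos c0 (δ0 n)]
  obtain ⟨p₀, a1, a2, a3⟩ := sel b0 hb (c / 2) (half_pos c0) ⟨0, 0, v₀, by simp, by simp, by simp⟩
    (show 0 < c / 4 * δ 0 by have := δ0 0; positivity)
  have a4 : I 0 p₀ := ⟨a1.v, by
    have h2 := a3 _ (.refl _)
    have h3 : S N ⟨0, 0, v₀, by simp, by simp, by simp⟩ ≤ 0 := csSup_le ⟨_, v₀, le_refl v₀, rfl⟩ (by
      rintro _ ⟨w, -, rfl⟩; simpa using μ_le (N := N) (f := 0) (by simp [Z, St.E]) (by simp))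
    nlinarith [δ2 0, δ0 0, mul_pos b0 (δ0 0)], a2, fun q hq => a3 q (hq.trans a1)⟩
  choose nx n1 n2 n3 using st
  let P : (n : ℕ) → {p // I n p} := fun n => Nat.rec ⟨p₀, a4⟩ (fun n p => ⟨_, n1 n p.1 p.2⟩) n
  set p := fun n => (P n).1 with hp
  have p1 : ∀ n m, n ≤ m → Ext (p m) (p n) := fun n m h => by
    induction h with
    | refl => exact .refl _
    | step _ ih => exact (n2 _ _ (P _).2).trans ih
  obtain ⟨t, ht⟩ := sigma (fun n => (p n).v) fun n m h => (p1 n m h).v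
  have l1 : Monotone fun n => (p n).l := fun n m h => sub_nonneg.1 ((norm_nonneg _).trans (p1 n m h).n)
  have l2 : BddAbove (range fun n => (p n).l) := ⟨1 / 4, forall_mem_range.2 fun n => I1 n _ (P n).2⟩
  have l3 := tendsto_atTop_ciSup l1 l2
  set L := ⨆ n, (p n).l with hL
  have l4 : Tendsto (fun n => L - (p n).l) atTop (𝓝 0) := by simpa using l3.const_sub L
  obtain ⟨y, hy⟩ := cauchySeq_tendsto_of_complete (cauchySeq_of_le_tendsto_0' (s := fun n => (p n).E t)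
    _ (fun n m h => (dist_eq_norm' _ _).trans_le (((p1 n m h).E (ht m)).trans
      (sub_le_sub_right (le_ciSup l2 m) _))) l4)
  have y1 : ∀ n, ‖(p n).E t - y‖ ≤ L - (p n).l := fun n => le_of_tendsto (hy.const_sub _).norm
    ((eventually_ge_atTop n).mono fun m h => (norm_sub_rev _ _).trans_le (((p1 n m h).E (ht m)).trans
      (sub_le_sub_right (le_ciSup l2 m) _)))
  have y2 : ‖y‖ ≤ 1 / 4 := le_of_tendsto' hy.norm fun n =>
    (glue (ht n) (p n).supp (p n).bd).trans (I1 n _ (P n).2)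
  have y3 : ∀ n m, n ≤ m → Z (p n).v (p n).v ((p m).E t - (p n).y) := fun n m h => by
    convert (((Z_a (ht m)).mono (p1 n m h).v (ht n)).smul (p m).l).add (p1 n m h).z using 1
    simp only [St.E]; module
  have y4 : ∀ n, Z (p n).v (p n).v (y - (p n).y) := fun n x hx => by
    obtain ⟨m, h1, h2⟩ := (((((continuous_eval_const x).tendsto _).comp
      (hy.sub_const (p n).y)).eventually_ne hx).and (eventually_ge_atTop n)).exists
    exact y3 n m h2 x h1
  have y5 : ∀ n, N ((p n).E t) + c / 4 * (L - (p n).l) ≤ N y := fun n => by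
    have : S N (p n) + c / 2 * (L - (p n).l) - c / 4 * δ n - c / 4 * 0 ≤ N y :=
      le_of_tendsto ((((l3.sub_const _).const_mul _).const_add _).sub_const _ |>.sub
        (δt.const_mul _)) ((eventually_ge_atTop n).mono fun m h => by
          linarith [(P n).2.2.2.2 _ (p1 n m h), (P m).2.2.2.1,
            μ_le (N := N) (y4 m) (y2.trans (by norm_num))])
    nlinarith [bad b0 hb (p n) (ht n), (n3 n _ (P n).2).trans (le_ciSup l2 (n + 1))]
  have y6 : ∀ n, 0 < L - (p n).l := fun n => by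
    linarith [(n3 n _ (P n).2).trans (le_ciSup l2 (n + 1)), δ0 n]
  refine ⟨y, fun e => ?_, c / 4, by positivity, fun ε hε => ?_⟩
  · have := y5 0
    rw [e, map_zero] at this
    nlinarith [y6 0, apply_nonneg N ((p 0).E t)]
  obtain ⟨n, h2, h3⟩ := ((l4.eventually (gt_mem_nhds hε)).and (((l4.const_mul b).add
    (δt.const_mul (c / 4))).eventually (gt_mem_nhds (by simpa using hε)))).exists
  refine ⟨(p n).E t - y, fun e => ?_, (y1 n).trans h2.le, ?_, fun r hr => ?_⟩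
  · have := y5 n
    rw [sub_eq_zero.1 e] at this
    nlinarith [y6 n]
  · rw [add_sub_cancel]
    nlinarith [y5 n, y1 n]
  · have h4 := μ_le (N := N) (f := y + r • ((p n).E t - y)) (y := (p n).y) (v := (p n).v) (by
      convert ((y4 n).smul (1 - r)).add ((y3 n n le_rfl).smul r) using 1
      module) ((norm_add_le _ _).trans (by linarith))
    have h5 := map_sub_le_add N ((p n).E t) ((p n).E t - y)
    rw [sub_sub_cancel] at h5
    have h6 : μ N ((p n).E (p n).v) (p n).v ≤ _ := le_S b0 hb (p n) le_rfl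
    linarith [(P n).2.2.2.1, bad b0 hb (p n) (ht n), (hb _).trans (mul_le_mul_of_nonneg_left (y1 n) b0.le)]

end Pool.Agent.H87.TrR
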