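import Mathlib

namespace Pool.Agent.H87.Troy

open Set Classical ENNReal NNReal

variable {Γ : Type}

abbrev W (Γ : Type) := Γ → ℝ≥0∞

noncomputable def lin (y : Γ →₀ ℝ≥0) (u : W Γ) : ℝ≥0∞ := y.sum fun a r => (r : ℝ≥0∞) * u a

lemma lin_zero (u : W Γ) : lin 0 u = 0 := Finsupp.sum_zero_index

lemma lin_add (y z : Γ →₀ ℝ≥0) (u : W Γ) : lin (y + z) u = lin y u + lin z u :=
  Finsupp.sum_add_index' (by simp) (by simp [add_mul])

lemma lin_single (a : Γ) (r : ℝ≥0) (u : W Γ) : lin (Finsupp.single a r) u = r * u a :=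
  Finsupp.sum_single_index (by simp)

lemma lin_smul (r : ℝ≥0) (y : Γ →₀ ℝ≥0) (u : W Γ) : lin (r • y) u = r * lin y u := by
  unfold lin
  rw [Finsupp.sum_smul_index' (by simp), Finsupp.sum, Finsupp.sum, Finset.mul_sum]
  simp [mul_assoc]

lemma lin_filter (G : Set Γ) (y : Γ →₀ ℝ≥0) (u : W Γ) :
    lin (y.filter (· ∈ G)) u = lin y (G.indicator u) := by
  unfold lin
  rw [Finsupp.sum_of_support_subset _ (s := y.support)
    (by rw [Finsupp.support_filter]; exact Finset.filter_subset _ _) _ (by simp), Finsupp.sum]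
  refine Finset.sum_congr rfl fun a _ => ?_
  by_cases h : a ∈ G <;> simp [h]

lemma lin_sub (y : Γ →₀ ℝ≥0) (a : ℝ≥0∞) {w u v : W Γ} (h : ∀ b, a * w b ≤ u b + v b) :
    a * lin y w ≤ lin y u + lin y v := by
  unfold lin Finsupp.sum
  rw [Finset.mul_sum, ← Finset.sum_add_distrib]
  refine Finset.sum_le_sum fun b _ => ?_
  rw [mul_left_comm, ← mul_add]
  gcongr
  exact h b

def Good (Φ : W Γ → ℝ≥0∞) : Prop :=
  ∀ u, Φ u ≤ ⨆ y : {y : Γ →₀ ℝ≥0 // ∀ v, lin y v ≤ Φ v}, lin y.1 u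

instance (Φ : W Γ → ℝ≥0∞) : Nonempty {y : Γ →₀ ℝ≥0 // ∀ v, lin y v ≤ Φ v} :=
  ⟨⟨0, fun v => by simp [lin_zero]⟩⟩

variable {Φ Ψ : W Γ → ℝ≥0∞}

lemma Good.sub (h : Good Φ) (a : ℝ≥0∞) {w u v : W Γ} (hw : ∀ b, a * w b ≤ u b + v b) :
    a * Φ w ≤ Φ u + Φ v := by
  refine (mul_le_mul_right (h w) a).trans ?_
  rw [ENNReal.mul_iSup]
  exact iSup_le fun y => (lin_sub y.1 a hw).trans (add_le_add (y.2 u) (y.2 v))

lemma Good.zero (h : Good Φ) : Φ 0 = 0 :=
  le_antisymm ((h 0).trans (iSup_le fun y => by simp [lin, Finsupp.sum])) bot_le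

lemma Good.smul (h : Good Φ) (a : ℝ≥0∞) {w u : W Γ} (hw : ∀ b, a * w b ≤ u b) : a * Φ w ≤ Φ u := by
  simpa [h.zero] using h.sub a (w := w) (u := u) (v := 0) (by simpa using hw)

lemma Good.mono (h : Good Φ) {w u : W Γ} (hw : w ≤ u) : Φ w ≤ Φ u := by
  simpa using h.smul 1 (w := w) (u := u) (fun b => by simpa using hw b)

lemma Good.fin (h : Good Φ) (u : W Γ) : Φ u ≤ ⨆ G : Finset Γ, Φ ((G : Set Γ).indicator u) := by
  refine (h u).trans (iSup_le fun y => le_iSup_of_le y.1.support (le_trans (le_of_eq ?_) (y.2 _)))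
  refine Finset.sum_congr rfl fun a ha => ?_
  simp only [indicator_of_mem (Finset.mem_coe.2 ha)]

lemma good_lin (y : Γ →₀ ℝ≥0) : Good (lin y) := fun u => le_iSup_of_le ⟨y, fun _ => le_rfl⟩ le_rfl

lemma good_iSup {ι : Sort*} {Φ : ι → W Γ → ℝ≥0∞} (h : ∀ i, Good (Φ i)) : Good fun u => ⨆ i, Φ i u :=
  fun u => iSup_le fun i => (h i u).trans (iSup_le fun y =>
    le_iSup_of_le ⟨y.1, fun v => le_iSup_of_le i (y.2 v)⟩ le_rfl)

lemma Good.add (h : Good Φ) (h' : Good Ψ) : Good fun u => Φ u + Ψ u := fun u =>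
  (add_le_add (h u) (h' u)).trans (ENNReal.iSup_add_iSup_le fun y z =>
    le_iSup_of_le ⟨y.1 + z.1, fun v => by rw [lin_add]; exact add_le_add (y.2 v) (z.2 v)⟩
      (lin_add _ _ _).ge)

lemma Good.mul (h : Good Φ) (r : ℝ≥0) : Good fun u => r * Φ u := fun u => by
  refine (mul_le_mul_right (h u) _).trans ?_
  rw [ENNReal.mul_iSup]
  exact iSup_le fun y => le_iSup_of_le ⟨r • y.1, fun v => by
    rw [lin_smul]; exact mul_le_mul_right (y.2 v) _⟩ (lin_smul _ _ _).ge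

lemma good_ev (b : Γ) : Good fun u : W Γ => u b := by
  have := good_lin (Finsupp.single b (1 : ℝ≥0))
  convert this using 2
  simp [lin_single]

lemma Good.cut (h : Good Φ) (G : Set Γ) : Good fun u => Φ (G.indicator u) := fun u =>
  (h _).trans (iSup_le fun y => le_iSup_of_le ⟨y.1.filter (· ∈ G), fun v => by
    rw [lin_filter]; exact y.2 _⟩ (lin_filter _ _ _).ge)

lemma good_zero : Good fun _ : W Γ => 0 := fun _ => bot_le

lemma good_sum {ι : Type*} {Φ : ι → W Γ → ℝ≥0∞} (h : ∀ i, Good (Φ i)) (s : Finset ι) :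
    Good fun u => ∑ i ∈ s, Φ i u := by
  induction s using Finset.induction with
  | empty => simpa using good_zero
  | insert i s hi ih => simpa [Finset.sum_insert hi] using (h i).add ih

lemma good_tsum {ι : Type*} {Φ : ι → W Γ → ℝ≥0∞} (h : ∀ i, Good (Φ i)) :
    Good fun u => ∑' i, Φ i u := by
  simp only [ENNReal.tsum_eq_iSup_sum]
  exact good_iSup fun s => good_sum h s

lemma Good.sup (h : Good Φ) (h' : Good Ψ) : Good fun u => Φ u ⊔ Ψ u := by
  have := good_iSup (Φ := fun b : Bool => cond b Φ Ψ) (fun b => by cases b; exacts [h', h])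
  simpa [iSup_bool_eq] using this

lemma Good.ite (h : Good Φ) (p : Prop) : Good fun u => if p then 0 else Φ u := by
  by_cases hp : p
  · simpa [hp] using good_zero
  · simpa [hp] using h

structure Dat (Γ ι : Type) where
  P0 : W Γ → ℝ≥0∞
  Rb : Finset Γ → ι → W Γ → ℝ≥0∞
  q : ι → ℝ≥0
  s : ℕ → ℕ × ι
  hs : Function.Surjective s
  g0 : Good P0
  gR : ∀ F i, Good (Rb F i)
  bR : ∀ F i w, Rb F i w ≤ 2 * P0 w
  q1 : ∀ i, q i ≤ 1

noncomputable def ρ (M : ℕ) : ℝ≥0 := 1 / (M + 1)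
noncomputable def κ (M : ℕ) : ℝ≥0 := ρ M / 2 ^ M
noncomputable def cc (n : ℕ) : ℝ≥0 := 1 / 8 * (1 / 2) ^ n

namespace Dat

variable {ι : Type} (D : Dat Γ ι)

noncomputable def R (Φ : W Γ → ℝ≥0∞) (F : Finset Γ) (i : ι) (w : W Γ) : ℝ≥0∞ :=
  D.Rb F i w ⊔ D.q i * Φ w

noncomputable def val (Φ : W Γ → ℝ≥0∞) (M : ℕ) (i : ι) (G : Finset Γ) (w : W Γ) : ℝ≥0∞ :=
  Φ ((G : Set Γ).indicator w) + κ M * ∑ F ∈ G.powerset, D.R Φ F i w

noncomputable def Q (Φ : W Γ → ℝ≥0∞) (p : ℕ × ι) (w : W Γ) : ℝ≥0∞ :=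
  ⨆ G : {G : Finset Γ // G.card ≤ p.1}, D.val Φ p.1 p.2 G.1 w

noncomputable def T : (W Γ → ℝ≥0∞) →o (W Γ → ℝ≥0∞) where
  toFun Φ w := D.P0 w + ∑' n, cc n * D.Q Φ (D.s n) w
  monotone' Φ Ψ h w := by
    refine add_le_add le_rfl (ENNReal.tsum_le_tsum fun n => mul_le_mul_right (iSup_mono fun G => ?_) _)
    exact add_le_add (h _) (mul_le_mul_right (Finset.sum_le_sum fun F _ => sup_le_sup_left
        (mul_le_mul_right (h w) _) _) _)

noncomputable def P : W Γ → ℝ≥0∞ := D.T.lfp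

lemma gR' (h : Good Φ) (F : Finset Γ) (i : ι) : Good (D.R Φ F i) := (D.gR F i).sup (h.mul _)

lemma gQ (h : Good Φ) (p : ℕ × ι) : Good (D.Q Φ p) :=
  good_iSup fun G => (h.cut _).add ((good_sum (fun F => D.gR' h F p.2) _).mul _)

lemma gP : Good D.P := by
  refine OrderHom.lfp_induction D.T (p := Good) (fun Φ h _ =>
    D.g0.add (good_tsum fun n => (D.gQ h _).mul _)) fun s hs => ?_
  have := good_iSup (Φ := fun a : s => a.1) fun a => hs a.1 a.2
  convert this using 2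
  rw [sSup_apply]

lemma eqP (w : W Γ) : D.P w = D.P0 w + ∑' n, cc n * D.Q D.P (D.s n) w :=
  (congrFun D.T.map_lfp w).symm

lemma P0_le (w : W Γ) : D.P0 w ≤ D.P w := by rw [eqP]; exact le_self_add

lemma bonus (Φ : W Γ → ℝ≥0∞) (M : ℕ) (i : ι) (G : Finset Γ) (hG : G.card ≤ M) (w : W Γ) (B : ℝ≥0∞)
    (hB : ∀ F, D.R Φ F i w ≤ B) : κ M * ∑ F ∈ G.powerset, D.R Φ F i w ≤ ρ M * B := by
  have h1 := Finset.sum_le_card_nsmul G.powerset (fun F => D.R Φ F i w) B fun F _ => hB F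
  rw [Finset.card_powerset, nsmul_eq_mul] at h1
  refine (mul_le_mul_right h1 _).trans ?_
  rw [← mul_assoc]
  gcongr
  have : κ M * ((2 ^ G.card : ℕ) : ℝ≥0) ≤ ρ M := by
    unfold κ
    rw [div_mul_eq_mul_div, div_le_iff₀ (by positivity)]
    push_cast
    gcongr
    exact one_le_two
  exact_mod_cast this

lemma P_le (w : W Γ) : D.P w ≤ 3 * D.P0 w := by
  refine D.T.lfp_le (a := fun w => 3 * D.P0 w) (fun w => ?_) w
  have h1 : ∀ p, D.Q (fun w => 3 * D.P0 w) p w ≤ 6 * D.P0 w := fun p => iSup_le fun G => by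
    have h2 := D.bonus (fun w => 3 * D.P0 w) p.1 p.2 G.1 G.2 w (3 * D.P0 w) fun F =>
      sup_le ((D.bR _ _ _).trans (by gcongr; norm_num))
        (mul_le_of_le_one_left' (by exact_mod_cast D.q1 _))
    have h3 : (ρ p.1 : ℝ≥0∞) ≤ 1 := by
      have : ρ p.1 ≤ 1 := by unfold ρ; rw [div_le_one (by positivity)]; simp
      exact_mod_cast this
    refine (add_le_add (mul_le_mul_right (D.g0.mono (indicator_le_self _ _)) 3)
      (h2.trans (mul_le_of_le_one_left' h3))).trans (le_of_eq (by ring))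
  refine (add_le_add le_rfl (ENNReal.tsum_le_tsum fun n => mul_le_mul_right (h1 _) _)).trans ?_
  rw [ENNReal.tsum_mul_right]
  have h4 : ∑' n, (cc n : ℝ≥0∞) = 1 / 8 * 2 := by
    simp only [cc, ENNReal.coe_mul, ENNReal.coe_pow]
    rw [ENNReal.tsum_mul_left, ENNReal.tsum_geometric]
    simp
  rw [h4]
  have h5 : (1 / 8 * 2 * 6 : ℝ≥0∞) ≤ 2 := by
    rw [mul_assoc, one_div, ← ENNReal.div_eq_inv_mul, ENNReal.div_le_iff (by simp) (by simp)]
    norm_num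
  calc D.P0 w + 1 / 8 * 2 * (6 * D.P0 w) = D.P0 w + (1 / 8 * 2 * 6) * D.P0 w := by ring
    _ ≤ D.P0 w + 2 * D.P0 w := by gcongr
    _ = 3 * D.P0 w := by ring

lemma glue (M : ℕ) (i : ι) : ∃ k : ℝ≥0, 0 < k ∧ ∀ (F : Finset Γ) (w u v : W Γ) (η : ℝ≥0∞),
    D.P u ≠ ⊤ → D.P v ≠ ⊤ → (∀ b, 2 * w b ≤ u b + v b) → ∀ G0 : Finset Γ, G0.card ≤ M →
    (∀ j ∈ F, D.P (({j}ᶜ : Set Γ).indicator w) + ρ M * (2 * D.P w) <
      D.P ((G0 : Set Γ).indicator w)) →
    D.P u + D.P v ≤ 2 * D.P w + η →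
    k * (D.R D.P F i u + D.R D.P F i v) ≤ k * (2 * D.R D.P F i w) + η := by
  obtain ⟨n, hn⟩ := D.hs (M, i)
  have hc : 0 < cc n := by unfold cc; positivity
  refine ⟨cc n * κ M, by unfold κ ρ; positivity, fun F w u v η hu hv hw G0 hG0 hF hP => ?_⟩
  set Q := D.Q D.P (M, i) with hQ
  set R := D.R D.P F i
  -- outer
  let Z : W Γ → ℝ≥0∞ := fun w => D.P0 w + ∑' m, if m = n then 0 else cc m * D.Q D.P (D.s m) w
  have hZ : Good Z := D.g0.add (good_tsum fun m => by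
    convert ((D.gQ D.gP (D.s m)).mul (cc m)).ite (m = n))
  have e1 : ∀ w, D.P w = cc n * Q w + Z w := fun w => by
    rw [D.eqP, ENNReal.tsum_eq_add_tsum_ite n, hn, add_left_comm]
    congr 3
    ext m
    split_ifs <;> rfl
  have o1 : cc n * (Q u + Q v) ≤ cc n * (2 * Q w) + η := by
    have h1 := hZ.sub 2 hw
    have h2 : Z u + Z v ≠ ⊤ := ENNReal.add_ne_top.2
      ⟨ne_top_of_le_ne_top hu (by rw [e1]; exact le_add_self),
        ne_top_of_le_ne_top hv (by rw [e1]; exact le_add_self)⟩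
    rw [e1, e1, e1] at hP
    refine (ENNReal.add_le_add_iff_right h2).1 ?_
    calc _ = cc n * Q u + Z u + (cc n * Q v + Z v) := by ring
      _ ≤ _ := hP
      _ = cc n * (2 * Q w) + η + 2 * Z w := by ring
      _ ≤ _ := by gcongr
  have hno : ∀ G : Finset Γ, ∀ j, j ∉ G →
      D.P ((G : Set Γ).indicator w) ≤ D.P (({j}ᶜ : Set Γ).indicator w) := fun G j hj =>
    D.gP.mono (indicator_le_indicator_of_subset (fun a ha e => hj (e ▸ ha)) fun _ => zero_le)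
  have hF0 : F ⊆ G0 := fun j hj => by_contra fun h =>
    (hF j hj).not_ge ((hno G0 j h).trans le_self_add)
  have : Nonempty {G : Finset Γ // G.card ≤ M ∧ F ⊆ G} := ⟨⟨G0, hG0, hF0⟩⟩
  have i1 : Q w ≤ ⨆ G : {G : Finset Γ // G.card ≤ M ∧ F ⊆ G}, D.val D.P M i G.1 w := by
    refine iSup_le fun G => ?_
    by_cases h : F ⊆ G.1
    · exact le_iSup_of_le ⟨G.1, G.2, h⟩ le_rfl
    · obtain ⟨j, hj, hj'⟩ := Finset.not_subset.1 h
      refine le_iSup_of_le ⟨G0, hG0, hF0⟩ (le_trans ?_ ((hF j hj).le.trans le_self_add))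
      refine add_le_add (hno _ j hj') (D.bonus _ _ _ _ G.2 _ _ fun F' => sup_le
        ((D.bR _ _ _).trans (mul_le_mul_right (D.P0_le w) _)) ?_)
      rw [two_mul]
      exact (mul_le_of_le_one_left' (by exact_mod_cast D.q1 _)).trans le_self_add
  have i2 : 2 * Q w + κ M * (R u + R v) ≤ κ M * (2 * R w) + (Q u + Q v) := by
    refine (add_le_add (mul_le_mul_right i1 2) le_rfl).trans ?_
    rw [ENNReal.mul_iSup, ENNReal.iSup_add]
    refine iSup_le fun G => ?_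
    let Y : W Γ → ℝ≥0∞ := fun w => D.P ((G.1 : Set Γ).indicator w) +
      κ M * ∑ F' ∈ G.1.powerset.erase F, D.R D.P F' i w
    have hY : Good Y := (D.gP.cut _).add ((good_sum (fun F => D.gR' D.gP F i) _).mul _)
    have e2 : ∀ w, D.val D.P M i G.1 w = κ M * R w + Y w := fun w => by
      unfold val
      rw [← Finset.add_sum_erase _ _ (Finset.mem_powerset.2 G.2.2)]
      simp only [Y]
      ring
    have h1 := hY.sub 2 hw
    have h2 : ∀ w, κ M * R w + Y w ≤ Q w := fun w =>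
      (e2 w).ge.trans (le_iSup_of_le (f := fun G : {G : Finset Γ // G.card ≤ (M, i).1} =>
        D.val D.P M i G.1 w) ⟨G.1, G.2.1⟩ le_rfl)
    rw [e2]
    calc _ = κ M * (2 * R w) + 2 * Y w + κ M * (R u + R v) := by ring
      _ ≤ κ M * (2 * R w) + (Y u + Y v) + κ M * (R u + R v) := by gcongr
      _ = κ M * (2 * R w) + (κ M * R u + Y u + (κ M * R v + Y v)) := by ring
      _ ≤ _ := add_le_add le_rfl (add_le_add (h2 u) (h2 v))
  have h3 : cc n * (2 * Q w) ≠ ⊤ := by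
    have h4 : cc n * (2 * Q w) ≤ 2 * D.P w := by
      rw [e1 w, mul_left_comm]; exact mul_le_mul_right le_self_add _
    exact ne_top_of_le_ne_top (ENNReal.add_ne_top.2 ⟨hu, hv⟩) (h4.trans (D.gP.sub 2 hw))
  refine (ENNReal.add_le_add_iff_right h3).1 ?_
  push_cast
  calc _ = cc n * (2 * Q w + κ M * (R u + R v)) := by ring
    _ ≤ cc n * (κ M * (2 * R w) + (Q u + Q v)) := by gcongr
    _ = cc n * κ M * (2 * R w) + cc n * (Q u + Q v) := by ring
    _ ≤ cc n * κ M * (2 * R w) + (cc n * (2 * Q w) + η) := by gcongr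
    _ = _ := by ring

def Ess (w : W Γ) (j : Γ) : Prop := D.P (({j}ᶜ : Set Γ).indicator w) < D.P w

lemma exM {w : W Γ} (hw : D.P w ≠ ⊤) (F : Finset Γ) (hF : ∀ j ∈ F, D.Ess w j) :
    ∃ (M : ℕ) (G0 : Finset Γ) (r : ℝ≥0), G0.card ≤ M ∧ r < 1 ∧ ∀ w' : W Γ, w' ≤ w →
      (∀ b, r * w b ≤ w' b) → ∀ j ∈ F, D.P (({j}ᶜ : Set Γ).indicator w') + ρ M * (2 * D.P w') <
      D.P ((G0 : Set Γ).indicator w') := by
  rcases F.eq_empty_or_nonempty with rfl | hne
  · exact ⟨0, ∅, 0, by simp, by simp, by simp⟩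
  obtain ⟨j0, hj0, hm⟩ := F.exists_max_image (fun j => D.P (({j}ᶜ : Set Γ).indicator w)) hne
  obtain ⟨G0, h0⟩ := lt_iSup_iff.1 ((hF j0 hj0).trans_le (D.gP.fin w))
  have h1 : D.P ((G0 : Set Γ).indicator w) ≠ ⊤ :=
    ne_top_of_le_ne_top hw (D.gP.mono (indicator_le_self _ _))
  lift D.P ((G0 : Set Γ).indicator w) to ℝ≥0 using h1 with p0 hp0
  lift D.P (({j0}ᶜ : Set Γ).indicator w) to ℝ≥0 using h0.ne_top with b hb
  lift D.P w to ℝ≥0 using hw with p hp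
  have h2 : (b : ℝ) < p0 := by exact_mod_cast h0
  have h3 : (0 : ℝ) < p0 := b.2.trans_lt h2
  obtain ⟨M0, hM0⟩ := exists_nat_gt (4 * (p : ℝ) / (p0 - b))
  refine ⟨max M0 G0.card, G0, (b + p0) / (2 * p0), le_max_right _ _, ?_, fun w' h4 h5 j hj => ?_⟩
  · rw [← NNReal.coe_lt_coe]
    push_cast
    rw [div_lt_one (by positivity)]
    linarith
  have h6 : (b + ρ (max M0 G0.card) * (2 * p) : ℝ≥0) < (b + p0) / (2 * p0) * p0 := by
    rw [← NNReal.coe_lt_coe]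
    unfold ρ
    push_cast
    rw [div_lt_iff₀ (by linarith)] at hM0
    have h7 : (M0 : ℝ) ≤ max (M0 : ℝ) G0.card := le_max_left _ _
    have h8 : (0 : ℝ) ≤ M0 := M0.cast_nonneg
    have : 1 / (max (M0 : ℝ) G0.card + 1) * (2 * p) < (p0 - b) / 2 := by
      rw [div_mul_eq_mul_div, div_lt_iff₀ (by linarith)]
      nlinarith
    have h9 : ((b : ℝ) + p0) / (2 * p0) * p0 = (b + p0) / 2 := by field_simp
    linarith
  calc _ ≤ (b : ℝ≥0∞) + ρ (max M0 G0.card) * (2 * p) := by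
        refine add_le_add (le_trans (D.gP.mono (fun a => indicator_le_indicator (h4 a))) (hm j hj)) ?_
        rw [hp]
        exact mul_le_mul_right (mul_le_mul_right (D.gP.mono h4) _) _
    _ < ((b + p0) / (2 * p0) : ℝ≥0) * (p0 : ℝ≥0∞) := by exact_mod_cast h6
    _ ≤ _ := by
        rw [hp0]
        refine D.gP.smul _ fun a => ?_
        by_cases ha : a ∈ (G0 : Set Γ)
        · simpa only [indicator_of_mem ha] using h5 a
        · simp [indicator_of_notMem ha]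

lemma tight {w : W Γ} (hw : D.P w ≠ ⊤) (F : Finset Γ) (hF : ∀ j ∈ F, D.Ess w j) (i : ι) :
    ∃ k r : ℝ≥0, 0 < k ∧ r < 1 ∧ ∀ (w' u v : W Γ) (η : ℝ≥0∞), w' ≤ w → (∀ b, r * w b ≤ w' b) →
      D.P u ≠ ⊤ → D.P v ≠ ⊤ → (∀ b, 2 * w' b ≤ u b + v b) → D.P u + D.P v ≤ 2 * D.P w' + η →
      k * (D.R D.P F i u + D.R D.P F i v) ≤ k * (2 * D.R D.P F i w') + η := by
  obtain ⟨M, G0, r, h1, h2, h3⟩ := D.exM hw F hF
  obtain ⟨k, h4, h5⟩ := D.glue M i
  exact ⟨k, r, h4, h2, fun w' u v η h6 h7 hu hv h8 => h5 F w' u v η hu hv h8 G0 h1 (h3 w' h6 h7)⟩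

lemma mid {w u v : W Γ} (hu : D.P u ≠ ⊤) (hv : D.P v ≠ ⊤) (h : ∀ b, 2 * w b ≤ u b + v b)
    (h' : D.P u + D.P v ≤ 2 * D.P w) (F : Finset Γ) (hF : ∀ j ∈ F, D.Ess w j) (i : ι) :
    D.R D.P F i u + D.R D.P F i v ≤ 2 * D.R D.P F i w := by
  have hw : D.P w ≠ ⊤ := fun e => ENNReal.add_ne_top.2 ⟨hu, hv⟩ (top_unique (by
    simpa [e] using D.gP.sub 2 h))
  obtain ⟨k, r, h1, h2, h3⟩ := D.tight hw F hF i
  have := h3 w u v 0 le_rfl (fun b => mul_le_of_le_one_left' (by exact_mod_cast h2.le)) hu hv h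
    (by simpa using h')
  rw [add_zero] at this
  exact (ENNReal.mul_le_mul_iff_right (by exact_mod_cast h1.ne') ENNReal.coe_ne_top).1 this

lemma ess {w : W Γ} (hw : D.P w ≠ ⊤) (F : Finset Γ) (hF : ∀ j ∈ F, D.Ess w j) (i : ι) (a : Γ)
    (h : D.R D.P F i (({a}ᶜ : Set Γ).indicator w) < D.R D.P F i w) : D.Ess w a := by
  by_contra h1
  have h2 : D.P w ≤ _ := not_lt.1 h1
  have h3 := D.mid (w := ({a}ᶜ : Set Γ).indicator w) hw hw
    (fun b => by rw [two_mul]; exact add_le_add (indicator_le_self _ _ b) (indicator_le_self _ _ b))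
    (by rw [two_mul]; exact add_le_add h2 h2) F (fun j hj => lt_of_le_of_lt (D.gP.mono
      (fun b => indicator_le_indicator (indicator_le_self _ _ b))) ((hF j hj).trans_le h2)) i
  rw [← two_mul] at h3
  exact h.not_ge ((ENNReal.mul_le_mul_iff_right (by simp) (by simp)).1 h3)

end Dat

end Pool.Agent.H87.Troy
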