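import Pool.Agent.H87.Troy1

namespace Pool.Agent.H87.Troy

open Set Classical ENNReal NNReal

variable {Γ : Type} (c : Γ → Γ → ℕ)

def Ad (B : Set Γ) : Prop := (∀ a ∈ B, ∀ b ∈ B, a ≠ b → 0 < c a b ∨ 0 < c b a) ∧
  ∀ a ∈ B, ∀ b ∈ B, ∀ d ∈ B, 0 < c a b → 0 < c b d → c b d < c a d

lemma Ad.sub {c : Γ → Γ → ℕ} {A B : Set Γ} (h : Ad c B) (hA : A ⊆ B) : Ad c A :=
  ⟨fun a ha b hb => h.1 a (hA ha) b (hA hb), fun a ha b hb d hd => h.2 a (hA ha) b (hA hb) d (hA hd)⟩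

noncomputable def P0 (w : W Γ) : ℝ≥0∞ :=
  ⨆ y : {y : Γ →₀ ℝ≥0 // ∀ B : Finset Γ, Ad c B → ∑ b ∈ B, y b ≤ 1}, lin y.1 w

lemma ev_le (w : W Γ) (b : Γ) : w b ≤ P0 c w :=
  le_iSup_of_le ⟨Finsupp.single b 1, fun B _ => by
    simp only [Finsupp.single_apply, Finset.sum_ite_eq]; split_ifs <;> simp⟩ (by simp [lin_single])

lemma seq {w : W Γ} (hw : P0 c w ≠ ⊤) {δ : ℝ≥0∞} (hδ : δ ≠ 0) (β : ℕ → Γ) (hβ : ∀ n, δ ≤ w (β n))
    (p v : ℕ → ℕ) (h : ∀ i n, i < n → β n ≠ β i ∧ c (β i) (β n) = p i ∧ c (β n) (β i) = v i) :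
    False := by
  wlog hp : Monotone p generalizing β p v
  · obtain ⟨g, hg⟩ := (wellQuasiOrdered_le (α := ℕ)).exists_monotone_subseq p
    exact this (β ∘ g) (fun n => hβ _) (p ∘ g) (v ∘ g) (fun i n hi => h _ _ (g.strictMono hi))
      fun i n hi => hg i n hi
  have h3 : ∀ B : Set Γ, Ad c B → ∀ i j k, i < j → j < k → β i ∈ B → β j ∈ B → β k ∈ B → False := by
    intro B hB i j k hij hjk hi hj hk
    obtain ⟨a1, a2, a3⟩ := h i j hij
    obtain ⟨b1, b2, b3⟩ := h j k hjk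
    obtain ⟨c1, c2, c3⟩ := h i k (hij.trans hjk)
    have := hp hij.le
    have := hB.1 _ hi _ hj a1.symm
    have := hB.1 _ hj _ hk b1.symm
    have := hB.2 _ hi _ hj _ hk
    have := hB.2 _ hk _ hj _ hi
    have := hB.2 _ hj _ hk _ hi
    omega
  obtain ⟨n, hn⟩ := ENNReal.exists_nat_mul_gt (a := (1 / 2 : ℝ≥0) * δ) (b := P0 c w)
    (mul_ne_zero (by simp) hδ) hw
  refine hn.not_ge (le_iSup_of_le ⟨∑ i ∈ Finset.range n, Finsupp.single (β i) (1 / 2), fun B hB => ?_⟩ ?_)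
  · simp only [Finsupp.finsetSum_apply, Finsupp.single_apply]
    rw [Finset.sum_comm]
    simp only [Finset.sum_ite_eq]
    rw [← Finset.sum_filter, Finset.sum_const, nsmul_eq_mul]
    have : ((Finset.range n).filter fun i => β i ∈ B).card ≤ 2 := by
      by_contra h4
      obtain ⟨i, j, k, hi, hj, hk, h5, h6, h7⟩ := Finset.two_lt_card_iff.1 (not_le.1 h4)
      simp only [Finset.mem_filter] at hi hj hk
      have h8 := h3 B hB
      rcases (by omega : (i < j ∧ j < k) ∨ (i < k ∧ k < j) ∨ (j < i ∧ i < k) ∨ (j < k ∧ k < i) ∨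
        (k < i ∧ i < j) ∨ (k < j ∧ j < i)) with h | h | h | h | h | h <;>
        exact h8 _ _ _ h.1 h.2 (by simp [*]) (by simp [*]) (by simp [*])
    calc _ ≤ ((2 : ℕ) : ℝ≥0) * (1 / 2) := by gcongr
      _ = 1 := by simp
  · clear hn
    induction n with
    | zero => simp
    | succ n ih =>
      simp only [Finset.sum_range_succ, lin_add, lin_single] at ih ⊢
      push_cast at ih ⊢
      rw [add_mul, one_mul]
      exact add_le_add ih (mul_le_mul_right (hβ n) _)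

lemma large {w : W Γ} (hw : P0 c w ≠ ⊤) {δ : ℝ≥0∞} (hδ : δ ≠ 0) (L : Set Γ → Prop)
    (h1 : ∀ Y, L Y → Y.Nonempty) (h2 : ∀ Y, L Y → ∀ a ∈ Y, δ ≤ w a)
    (h3 : ∀ Y, L Y → ∀ a ∈ Y, ∃ p v, L {b ∈ Y | b ≠ a ∧ c a b = p ∧ c b a = v}) (Y : Set Γ) : ¬ L Y := by
  intro hY
  choose pk hpk using h1
  choose p v hpv using h3
  let Z : ℕ → {Y // L Y} := fun n => Nat.rec ⟨Y, hY⟩ (fun _ Y => ⟨_, hpv Y.1 Y.2 _ (hpk Y.1 Y.2)⟩) n
  have hZ : Antitone fun n => (Z n).1 := antitone_nat_of_succ_le fun n => sep_subset _ _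
  exact seq c hw hδ (fun n => pk _ (Z n).2) (fun n => h2 _ (Z n).2 _ (hpk _ _))
    (fun n => p _ (Z n).2 _ (hpk _ _)) (fun n => v _ (Z n).2 _ (hpk _ _))
    fun i n hi => (hZ (Nat.succ_le_of_lt hi) (hpk _ (Z n).2)).2

lemma countable {w : W Γ} (hw : P0 c w ≠ ⊤) : {a | w a ≠ 0}.Countable := by
  have h1 : ∀ δ : ℝ≥0∞, δ ≠ 0 → {a | δ ≤ w a}.Countable := fun δ hδ => by
    by_contra h
    refine large c hw hδ (fun Y => ¬ Y.Countable ∧ ∀ a ∈ Y, δ ≤ w a) (fun Y hY => ?_) (fun Y hY => hY.2)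
      (fun Y hY a _ => ?_) _ ⟨h, fun a ha => ha⟩
    · exact nonempty_iff_ne_empty.2 fun e => hY.1 (e ▸ countable_empty)
    · by_contra h2
      refine hY.1 (((countable_iUnion fun p : ℕ × ℕ => show
        {b ∈ Y | b ≠ a ∧ c a b = p.1 ∧ c b a = p.2}.Countable from by_contra fun h3 =>
          h2 ⟨p.1, p.2, h3, fun b hb => hY.2 b hb.1⟩).insert a).mono fun b hb => ?_)
      by_cases e : b = a
      · exact Or.inl e
      · exact Or.inr (mem_iUnion.2 ⟨(c a b, c b a), hb, e, rfl, rfl⟩)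
  refine (countable_iUnion fun n : ℕ => h1 (n : ℝ≥0∞)⁻¹ (by simp)).mono fun a ha => ?_
  obtain ⟨n, hn⟩ := ENNReal.exists_inv_nat_lt ha
  exact mem_iUnion.2 ⟨n, hn.le⟩

lemma unbdd {w : W Γ} (hw : P0 c w ≠ ⊤) {δ : ℝ≥0∞} (hδ : δ ≠ 0) {Y : Set Γ} (hY : Y.Infinite)
    (h : ∀ a ∈ Y, δ ≤ w a) (K : ℕ) : ∃ a ∈ Y, ∃ b ∈ Y, K < c a b := by
  by_contra h1
  push Not at h1
  refine large c hw hδ (fun Z => Z.Infinite ∧ Z ⊆ Y) (fun Z hZ => hZ.1.nonempty)
    (fun Z hZ a ha => h a (hZ.2 ha)) (fun Z hZ a ha => ?_) _ ⟨hY, subset_rfl⟩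
  by_contra h2
  refine hZ.1 (((finite_iUnion fun p : Fin (K + 1) × Fin (K + 1) => show
    {b ∈ Z | b ≠ a ∧ c a b = p.1 ∧ c b a = p.2}.Finite from by_contra fun h3 =>
      h2 ⟨p.1, p.2, h3, fun b hb => hZ.2 hb.1⟩).insert a).subset fun b hb => ?_)
  by_cases e : b = a
  · exact Or.inl e
  · exact Or.inr (mem_iUnion.2 ⟨(⟨c a b, Nat.lt_succ_of_le (h1 _ (hZ.2 ha) _ (hZ.2 hb))⟩,
      ⟨c b a, Nat.lt_succ_of_le (h1 _ (hZ.2 hb) _ (hZ.2 ha))⟩), hb, e, rfl, rfl⟩)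

lemma isol {w : W Γ} (hw : P0 c w ≠ ⊤) {δ : ℝ≥0∞} (hδ : δ ≠ 0) {E : Set Γ} (h : ∀ a ∈ E, δ ≤ w a)
    (g : Γ) : ∃ F : Finset Γ, (∀ a ∈ F, a ∈ E) ∧ ∀ b ∈ E, b ∉ F →
      ¬ ∀ a ∈ F, c a b = c a g ∧ c b a = c g a := by
  by_contra h1
  push Not at h1
  refine large c hw hδ (fun Z => ∃ F : Finset Γ, (∀ a ∈ F, a ∈ E) ∧
    Z = {b ∈ E | b ∉ F ∧ ∀ a ∈ F, c a b = c a g ∧ c b a = c g a}) ?_ ?_ ?_ _ ⟨∅, by simp, rfl⟩
  · rintro _ ⟨F, hF, rfl⟩
    exact h1 F hF
  · rintro _ ⟨F, -, rfl⟩ a ha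
    exact h a ha.1
  · rintro _ ⟨F, hF, rfl⟩ a ha
    refine ⟨c a g, c g a, insert a F, by simpa [ha.1] using hF, ?_⟩
    ext b
    simp only [mem_ofPred_eq, Finset.mem_insert, forall_eq_or_imp]
    tauto

abbrev I := ℚ ⊕ (List (ℕ × ℕ) × ℕ) ⊕ List (ℕ × ℕ)

def cls (F : Finset Γ) (l : List (ℕ × ℕ)) : Set Γ :=
  {b | b ∉ F ∧ F.toList.map (fun a => (c a b, c b a)) = l}

noncomputable def Rb (F : Finset Γ) : I → W Γ → ℝ≥0∞
  | .inl _, w => ⨆ j : F, w j
  | .inr (.inl (l, k)), w => ⨆ G : {G : Finset Γ // (G : Set Γ) ⊆ cls c F l ∧ G.card ≤ k},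
      ρ k * ∑ b ∈ G.1, w b
  | .inr (.inr l), w => ⨆ p : cls c F l × cls c F l, (1 - ρ (c p.1 p.2) : ℝ≥0) * (w p.1 + w p.2)

noncomputable def qq : I → ℝ≥0
  | .inl t => min 1 (Real.toNNReal t)
  | _ => 0

noncomputable def D : Dat Γ I where
  P0 := P0 c
  Rb := Rb c
  q := qq
  s := (exists_surjective_nat (ℕ × I)).choose
  hs := (exists_surjective_nat (ℕ × I)).choose_spec
  g0 := good_iSup fun _ => good_lin _
  gR F i := by
    rcases i with t | ⟨l, k⟩ | l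
    · exact good_iSup fun j : F => good_ev j.1
    · exact good_iSup fun G => (good_sum good_ev _).mul _
    · exact good_iSup fun p : cls c F l × cls c F l => ((good_ev p.1.1).add (good_ev p.2.1)).mul _
  bR F i w := by
    have h : P0 c w ≤ 2 * P0 c w := by rw [two_mul]; exact le_self_add
    rcases i with t | ⟨l, k⟩ | l
    · exact iSup_le fun j => (ev_le c w j).trans h
    · refine iSup_le fun G => le_trans ?_ h
      refine (mul_le_mul_right (Finset.sum_le_card_nsmul _ _ _ fun b _ => ev_le c w b) _).trans ?_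
      rw [nsmul_eq_mul, ← mul_assoc]
      refine mul_le_of_le_one_left' ?_
      have : ρ k * (G.1.card : ℝ≥0) ≤ 1 := by
        unfold ρ
        rw [div_mul_eq_mul_div, div_le_one (by positivity), one_mul]
        exact_mod_cast G.2.2.trans k.le_succ
      exact_mod_cast this
    · refine iSup_le fun p => (mul_le_of_le_one_left' (by exact_mod_cast tsub_le_self)).trans ?_
      rw [two_mul]
      exact add_le_add (ev_le c w _) (ev_le c w _)
  q1 i := by
    rcases i with t | i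
    · exact min_le_left _ _
    · exact zero_le_one

lemma uniq {w u v : W Γ} (hu : (D c).P u = 1) (hv : (D c).P v = 1) (hw : (D c).P w = 1)
    (h : ∀ b, 2 * w b ≤ u b + v b) {j : Γ} (hj : (D c).Ess w j) :
    u j = v j ∧ u j + v j ≤ 2 * w j := by
  have h1 : ∀ {u v : W Γ}, (D c).P u = 1 → (D c).P v = 1 → (∀ b, 2 * w b ≤ u b + v b) → ∀ t : ℚ,
      u j ⊔ qq (.inl t) + v j ⊔ qq (.inl t) ≤ 2 * (w j ⊔ qq (.inl t)) := fun {u v} hu hv h t => by
    have := (D c).mid (by simp [hu]) (by simp [hv]) h (by rw [hu, hv, hw, two_mul]) {j}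
      (by simpa using hj) (.inl t)
    simp only [Dat.R, hu, hv, hw, mul_one] at this
    simpa [D, Rb] using this
  have h2 : ∀ {u v : W Γ}, (D c).P u = 1 → (D c).P v = 1 → (∀ b, 2 * w b ≤ u b + v b) →
      v j ≤ u j := fun {u v} hu hv h => by
    by_contra h3
    obtain ⟨t, -, h4, h5⟩ := ENNReal.lt_iff_exists_rat_btwn.1 (not_le.1 h3)
    have h6 : v j ≤ 1 := hv ▸ (ev_le c v j).trans ((D c).P0_le v)
    have h7 : qq (.inl t) = Real.toNNReal t := min_eq_right (by exact_mod_cast h5.le.trans h6)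
    have h8 := h1 hu hv h t
    rw [h7, sup_of_le_right h4.le, sup_of_le_left h5.le] at h8
    refine h8.not_gt ?_
    have h9 := ne_top_of_le_ne_top one_ne_top h6
    rcases le_total (w j) (Real.toNNReal t) with e | e
    · rw [sup_of_le_right e, two_mul]
      exact ENNReal.add_lt_add_left coe_ne_top h5
    · rw [sup_of_le_left e]
      exact (h j).trans_lt (ENNReal.add_lt_add_right h9 h4)
  refine ⟨le_antisymm (h2 hv hu fun b => by rw [add_comm]; exact h b) (h2 hu hv h), ?_⟩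
  simpa [qq] using h1 hu hv h 0

lemma ρ_le (n : ℕ) : ρ n ≤ 1 := by unfold ρ; rw [div_le_one (by positivity)]; simp

lemma ρ_anti {m n : ℕ} (h : m ≤ n) : ρ n ≤ ρ m := by unfold ρ; gcongr

theorem essAll {w : W Γ} (hw : (D c).P w ≠ ⊤) (ht : ∀ ε : ℝ≥0, 0 < ε → ∃ G : Finset Γ, ∀ s t : ℝ≥0,
    t + s = 1 → (D c).P w ≤ (D c).P (fun b => if b ∈ G then w b else t * w b) + s * ε)
    (g : Γ) (hg : w g ≠ 0) : (D c).Ess w g := by
  by_contra hne
  obtain ⟨δ, h0, hδ⟩ := exists_between (pos_iff_ne_zero.2 hg)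
  have hw0 : P0 c w ≠ ⊤ := ne_top_of_le_ne_top hw ((D c).P0_le w)
  obtain ⟨F, hF, hF'⟩ := isol c hw0 h0.ne' (E := {a | (D c).Ess w a ∧ δ ≤ w a}) (fun a h => h.2) g
  set l := F.toList.map fun a => (c a g, c g a) with hl
  have hC : ∀ b ∈ cls c F l, δ ≤ w b → ¬ (D c).Ess w b := fun b hb h1 h2 =>
    hF' b ⟨h2, h1⟩ hb.1 fun a ha => by
      simpa using List.map_inj_left.1 hb.2 a (Finset.mem_toList.2 ha)
  have hL : ∀ b ∈ cls c F l, w b ≤ ⨆ b : cls c F l, w b := fun b hb => le_iSup_of_le ⟨b, hb⟩ le_rfl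
  have hL' : ∀ θ < ⨆ b : cls c F l, w b, ∃ b ∈ cls c F l, θ < w b := fun θ h => by
    simpa using lt_iSup_iff.1 h
  have hL0 := hδ.trans_le (hL g ⟨fun h => hne (hF g h).1, rfl⟩)
  have hLt : ⨆ b : cls c F l, w b ≠ ⊤ := ne_top_of_le_ne_top hw0 (iSup_le fun b => ev_le c w b)
  have hR : ∀ i w, (D c).R (D c).P F (.inr i) w = Rb c F (.inr i) w := fun i w => by
    simp [Dat.R, D, qq]
  lift ⨆ b : cls c F l, w b to ℝ≥0 using hLt with L
  by_cases h1 : ∃ θ, δ ≤ θ ∧ θ < L ∧ {b ∈ cls c F l | θ < w b}.Finite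
  · obtain ⟨θ, h1, h2, h3⟩ := h1
    obtain ⟨b0, h4, h5⟩ := hL' θ h2
    have hT : ∀ b, b ∈ h3.toFinset ↔ b ∈ cls c F l ∧ θ < w b := by simp
    generalize h3.toFinset = T at hT
    have h6 := (hT b0).2 ⟨h4, h5⟩
    refine hC b0 h4 (h1.trans h5.le) ((D c).ess hw F (fun j h => (hF j h).1)
      (.inr (.inl (l, T.card))) b0 ?_)
    rw [hR, hR]
    refine lt_of_lt_of_le ?_ (le_iSup_of_le ⟨T, fun b hb => ((hT b).1 hb).1, le_rfl⟩ le_rfl)
    refine lt_of_le_of_lt (b := ρ T.card * (θ + ∑ b ∈ T.erase b0, w b)) (iSup_le fun G =>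
      mul_le_mul_right ?_ _) ?_
    · calc _ ≤ ∑ b ∈ G.1, (θ + if b ∈ T.erase b0 then w b - θ else 0) := by
            refine Finset.sum_le_sum fun b hb => ?_
            by_cases e : b = b0
            · simp [e]
            · rw [indicator_of_mem (by simpa using e)]
              split_ifs with e'
              · exact le_add_tsub
              · rw [add_zero]
                exact not_lt.1 fun h => e' (Finset.mem_erase.2 ⟨e, (hT b).2 ⟨G.2.1 hb, h⟩⟩)
        _ ≤ T.card * θ + ∑ b ∈ T.erase b0, (w b - θ) := by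
            rw [Finset.sum_add_distrib, Finset.sum_const, nsmul_eq_mul, Finset.sum_ite_mem]
            exact add_le_add (mul_le_mul_left (by exact_mod_cast G.2.2) _)
              (Finset.sum_le_sum_of_subset Finset.inter_subset_right)
        _ = θ + ∑ b ∈ T.erase b0, (θ + (w b - θ)) := by
            rw [Finset.sum_add_distrib, Finset.sum_const, nsmul_eq_mul,
              ← Finset.card_erase_add_one h6]
            push_cast
            ring
        _ = _ := by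
            congr 1
            exact Finset.sum_congr rfl fun b hb =>
              add_tsub_cancel_of_le ((hT b).1 (Finset.mem_of_mem_erase hb)).2.le
    · refine ENNReal.mul_lt_mul_right (by unfold ρ; simp) coe_ne_top ?_
      rw [← Finset.add_sum_erase _ _ h6]
      exact ENNReal.add_lt_add_right (ENNReal.sum_ne_top.2 fun b hb => ne_top_of_le_ne_top coe_ne_top
        (hL b ((hT b).1 (Finset.mem_of_mem_erase hb)).1)) h5
  push Not at h1
  have hLp : 0 < L := by exact_mod_cast h0.trans hL0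
  obtain ⟨k, r, hk, hr, h2⟩ := (D c).tight hw F (fun j h => (hF j h).1) (.inr (.inr l))
  obtain ⟨G, hG⟩ := ht (k * L / 4) (by positivity)
  set K := (G ×ˢ G).sup fun p => c p.1 p.2
  set s := min (1 - r) (ρ K)
  have hs : 0 < s := lt_min (tsub_pos_of_lt hr) (by unfold ρ; positivity)
  have hs1 : s ≤ 1 := (min_le_right _ _).trans (ρ_le _)
  have hts : (1 - s) + s = 1 := tsub_add_cancel_of_le hs1
  have hrt : r ≤ 1 - s := le_tsub_of_add_le_right (by
    rw [add_comm]; exact add_le_of_le_tsub_right_of_le hr.le (min_le_left _ _))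
  have hKt : 1 - ρ K ≤ 1 - s := tsub_le_tsub_left (min_le_right _ _) _
  generalize 1 - s = t at hts hrt hKt
  have ht1 : (t : ℝ≥0∞) ≤ 1 := by exact_mod_cast hts ▸ le_self_add
  have h3 := hG s t hts
  set w' : W Γ := fun b => if b ∈ G then w b else t * w b
  have h4 : w' ≤ w := fun b => by
    simp only [w']
    split_ifs
    exacts [le_rfl, mul_le_of_le_one_left' ht1]
  have h5 := h2 w' w w (2 * (s * (k * L / 4 : ℝ≥0))) h4 (fun b => by
    simp only [w']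
    split_ifs
    · exact mul_le_of_le_one_left' (by exact_mod_cast hr.le)
    · exact mul_le_mul_left (by exact_mod_cast hrt) _) hw hw
    (fun b => by rw [two_mul]; exact add_le_add (h4 b) (h4 b))
    (by rw [← two_mul, ← mul_add]; exact mul_le_mul_right h3 _)
  rw [hR, hR] at h5
  have h6 : Rb c F (.inr (.inr l)) w' ≤ t * L + L := by
    refine iSup_le fun ⟨⟨a, ha⟩, ⟨b, hb⟩⟩ => ?_
    have h7 : ∀ a ∈ cls c F l, a ∉ G → w' a ≤ t * L := fun a ha h => by
      simp only [w', if_neg h]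
      exact mul_le_mul_right (hL a ha) _
    have h8 : ∀ a ∈ cls c F l, w' a ≤ L := fun a ha => (h4 a).trans (hL a ha)
    have h9 : ((1 - ρ (c a b) : ℝ≥0) : ℝ≥0∞) ≤ 1 := by exact_mod_cast tsub_le_self
    by_cases e : a ∈ G
    · by_cases e' : b ∈ G
      · have : c a b ≤ K := Finset.le_sup (f := fun p => c p.1 p.2) (b := (a, b)) (by simp [e, e'])
        have : ((1 - ρ (c a b) : ℝ≥0) : ℝ≥0∞) ≤ t := by
          exact_mod_cast (tsub_le_tsub_left (ρ_anti this) _).trans hKt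
        refine (mul_le_mul' this (add_le_add (h8 a ha) (h8 b hb))).trans ?_
        rw [mul_add]
        exact add_le_add le_rfl (mul_le_of_le_one_left' ht1)
      · refine (mul_le_of_le_one_left' h9).trans ?_
        rw [add_comm]
        exact add_le_add (h7 b hb e') (h8 a ha)
    · exact (mul_le_of_le_one_left' h9).trans (add_le_add (h7 a ha e) (h8 b hb))
  obtain ⟨n, hn⟩ := exists_nat_one_div_lt (K := ℝ) (ε := s / 8) (by positivity)
  have hθ : (t + 7 * s / 8) * L < L := by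
    refine mul_lt_of_lt_one_left hLp ?_
    rw [← hts, ← NNReal.coe_lt_coe]
    push_cast
    have : (0 : ℝ) < s := hs
    linarith
  obtain ⟨a, ha, b, hb, hab⟩ := unbdd c hw0 h0.ne' (h1 (max δ ((t + 7 * s / 8) * L : ℝ≥0)) (le_max_left _ _)
    (max_lt hL0 (by exact_mod_cast hθ))) (fun a ha => (le_max_left _ _).trans ha.2.le) n
  have h7 : ((1 - ρ n) * (2 * ((t + 7 * s / 8) * L)) : ℝ≥0) ≤ Rb c F (.inr (.inr l)) w := by
    refine le_iSup_of_le (⟨a, ha.1⟩, ⟨b, hb.1⟩) ?_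
    rw [ENNReal.coe_mul, ENNReal.coe_mul, ENNReal.coe_ofNat, two_mul]
    exact mul_le_mul' (by exact_mod_cast tsub_le_tsub_left (ρ_anti hab.le) _)
      (add_le_add ((le_max_right _ _).trans ha.2.le) ((le_max_right _ _).trans hb.2.le))
  have h8 := (mul_le_mul_right (add_le_add h7 h7) (k : ℝ≥0∞)).trans
    (h5.trans (add_le_add (mul_le_mul_right (mul_le_mul_right h6 2) _) le_rfl))
  norm_cast at h8
  rw [← NNReal.coe_le_coe] at h8
  push_cast [NNReal.coe_sub (ρ_le n)] at h8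
  have e1 : (ρ n : ℝ) < s / 8 := by simpa [ρ] using hn
  have e2 : (t : ℝ) = 1 - s := by rw [← NNReal.coe_one, ← hts]; push_cast; ring
  have e3 : (0 : ℝ) < k * L := by positivity
  have e4 : (0 : ℝ) < s := hs
  have e5 : (s : ℝ) ≤ 1 := hs1
  rw [e2] at h8
  have e6 : (1 - (ρ n : ℝ)) * (1 - s / 8) * 4 ≤ 4 - 3 * s / 2 := by
    refine le_of_mul_le_mul_left ?_ e3
    linarith
  nlinarith

end Pool.Agent.H87.Troy
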