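import Pool.Agent.H87.Troy2

namespace Pool.Agent.H87.Troy

open Set Classical ENNReal NNReal Filter Topology

lemma hb {V : Type*} [AddCommGroup V] [Module ℝ V] (p : V → ℝ)
    (hh : ∀ c : ℝ, 0 < c → ∀ x, p (c • x) = c * p x) (ha : ∀ x y, p (x + y) ≤ p x + p y)
    (p0 : p 0 = 0) {x0 : V} (hx : x0 ≠ 0) : ∃ ψ : V →ₗ[ℝ] ℝ, (∀ x, ψ x ≤ p x) ∧ ψ x0 = p x0 := by
  obtain ⟨g, h1, h2⟩ := exists_extension_of_le_sublinear
    (LinearPMap.mkSpanSingleton x0 (p x0) hx) p hh ha (by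
      rintro ⟨x, hx'⟩
      obtain ⟨c, rfl⟩ := Submodule.mem_span_singleton.1 hx'
      rw [LinearPMap.mkSpanSingleton'_apply]
      simp only [RingHom.id_apply, smul_eq_mul]
      rcases lt_trichotomy c 0 with h | h | h
      · have h3 := ha (c • x0) ((-c) • x0)
        rw [← add_smul, add_neg_cancel, zero_smul, p0, hh (-c) (by linarith)] at h3
        linarith
      · simp [h, p0]
      · exact (hh c h x0).ge)
  refine ⟨g, h2, ?_⟩
  rw [h1 ⟨x0, Submodule.mem_span_singleton_self x0⟩]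
  exact LinearPMap.mkSpanSingleton_apply _ _ _ _

lemma smooth {X : Type} [NormedAddCommGroup X] [NormedSpace ℝ X] (N : X → ℝ) (hC : ∀ x, N x ≤ ‖x‖)
    (ha : ∀ x y, N (x + y) ≤ N x + N y) (hs : ∀ (a : ℝ) x, N (a • x) = |a| * N x) {x : X} (hx : x ≠ 0)
    (hu : ∀ f g : X →L[ℝ] ℝ, (∀ y, f y ≤ N y) → (∀ y, g y ≤ N y) → f x = N x → g x = N x → f = g) :
    ∃ L : X →L[ℝ] ℝ, ∀ v, HasDerivAt (fun t : ℝ => N (x + t • v)) (L v) 0 := by
  have h0 : N 0 = 0 := by simpa using hs 0 0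
  have hn : ∀ y, N (-y) = N y := fun y => by simpa using hs (-1) y
  have hp : ∀ a : ℝ, 0 ≤ a → ∀ y, N (a • y) = a * N y := fun a h y => by rw [hs, abs_of_nonneg h]
  let p : X → ℝ := fun y => ⨅ l : Ici (0 : ℝ), (N (l.1 • x + y) - l * N x)
  have hb1 : ∀ y, BddBelow (range fun l : Ici (0 : ℝ) => N (l.1 • x + y) - l * N x) := fun y =>
    ⟨-N y, by
      rintro _ ⟨l, rfl⟩
      have := ha (l.1 • x + y) (-y)
      rw [add_neg_cancel_right, hp _ l.2, hn] at this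
      linarith⟩
  have hle : ∀ y (l : ℝ), 0 ≤ l → p y ≤ N (l • x + y) - l * N x := fun y l hl => ciInf_le (hb1 y) ⟨l, hl⟩
  have hsm : ∀ a : ℝ, 0 < a → ∀ y, a * p y ≤ p (a • y) := fun a h y => le_ciInf fun l => by
    have := mul_le_mul_of_nonneg_left (hle y (l / a) (div_nonneg l.2 h.le)) h.le
    rwa [mul_sub, ← hp a h.le, smul_add, smul_smul, ← mul_assoc, mul_div_cancel₀ _ h.ne'] at this
  have key : ∀ v, ∃ g : X →L[ℝ] ℝ, (∀ y, g y ≤ N y) ∧ g x = N x ∧ (v ≠ 0 → g v = p v) := fun v => by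
    obtain ⟨ψ, h1, h2⟩ := hb p (fun a h y => le_antisymm (by
      have := mul_le_mul_of_nonneg_left (hsm a⁻¹ (inv_pos.2 h) (a • y)) h.le
      rwa [mul_inv_cancel_left₀ h.ne', inv_smul_smul₀ h.ne'] at this) (hsm a h y)) (fun y z => by
        rw [← sub_le_iff_le_add]
        refine le_ciInf fun l => ?_
        rw [sub_le_comm]
        refine le_ciInf fun m => ?_
        have := hle (y + z) (l + m) (add_nonneg l.2 m.2)
        have h2 := ha (l.1 • x + y) (m.1 • x + z)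
        rw [add_add_add_comm, ← add_smul] at h2
        linarith) (le_antisymm (by simpa [h0] using hle 0 0 le_rfl) (le_ciInf fun l => by
          rw [add_zero, hp _ l.2, sub_self])) (x0 := if v = 0 then x else v) (by split_ifs <;> assumption)
    have h3 : ∀ y, ψ y ≤ N y := fun y => (h1 y).trans (by simpa using hle y 0 le_rfl)
    refine ⟨ψ.mkContinuous 1 fun y => ?_, h3, le_antisymm (h3 x) ?_, fun h => by simpa [h] using h2⟩
    · rw [one_mul, Real.norm_eq_abs, abs_le]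
      have := (h3 (-y)).trans (hC _)
      rw [map_neg, norm_neg] at this
      exact ⟨by linarith, (h3 y).trans (hC y)⟩
    · have := (h1 (-x)).trans (hle (-x) 1 zero_le_one)
      simpa [h0] using this
  obtain ⟨L, h1, h2, -⟩ := key 0
  have h3 : ∀ v, ∀ ε > 0, ∀ᶠ t in 𝓝[>] (0 : ℝ), N (x + t • v) - N x - t * L v ≤ ε * t := by
    intro v ε hε
    by_cases hv : v = 0
    · filter_upwards [self_mem_nhdsWithin] with t ht
      simpa [hv] using (mul_pos hε ht).le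
    obtain ⟨g, h4, h5, h6⟩ := key v
    obtain rfl := hu g L h4 h1 h5 h2
    obtain ⟨l, hl⟩ := exists_lt_of_ciInf_lt ((h6 hv).ge.trans_lt (lt_add_of_pos_right _ hε))
    filter_upwards [Ioo_mem_nhdsGT (show (0 : ℝ) < 1 / (l + 1) by have := l.2.out; positivity)] with t ht
    have h7 : t * (l + 1) < 1 := (lt_div_iff₀ (by have := l.2.out; positivity)).1 ht.2
    have h8 := ha ((1 - t * l) • x) (t • (l.1 • x + v))
    rw [hp _ (by linarith [ht.1]), hp _ ht.1.le, smul_add, smul_smul, ← add_assoc, ← add_smul,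
      sub_add_cancel, one_smul] at h8
    nlinarith [mul_le_mul_of_nonneg_left hl.le ht.1.le]
  refine ⟨L, fun v => hasDerivAt_iff_isLittleO.2 (Asymptotics.isLittleO_iff.2 fun ε hε => ?_)⟩
  have h4 : ∀ t : ℝ, 0 ≤ N (x + t • v) - N x - t * L v := fun t => by
    have := h1 (x + t • v)
    rw [map_add, map_smul, h2, smul_eq_mul] at this
    linarith
  simp only [zero_smul, add_zero, sub_zero, smul_eq_mul, Real.norm_eq_abs, abs_of_nonneg (h4 _)]
  rw [← nhdsLT_sup_nhdsGE, ← Ioi_insert, nhdsWithin_insert, eventually_sup, eventually_sup]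
  refine ⟨?_, by simp, (h3 v ε hε).mono fun t ht => ht.trans (by gcongr; exact le_abs_self t)⟩
  have h5 : Tendsto (fun t : ℝ => -t) (𝓝[<] 0) (𝓝[>] 0) := by
    simpa using tendsto_neg_nhdsLT_neg (a := (0 : ℝ))
  filter_upwards [h5.eventually (h3 (-v) ε hε)] with t ht
  simp only [smul_neg, neg_smul, neg_neg, map_neg, mul_neg, neg_mul] at ht
  nlinarith [neg_le_abs t]

noncomputable def sg (r : ℝ) : ℝ := if 0 ≤ r then 1 else -1

lemma abs_sg (r : ℝ) : |sg r| = 1 := by unfold sg; split_ifs <;> simp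

lemma sg_mul (r : ℝ) : sg r * r = |r| := by
  unfold sg
  split_ifs with h
  · simp [abs_of_nonneg h]
  · simp [abs_of_neg (not_le.1 h)]

variable {Γ : Type} (c : Γ → Γ → ℕ)

structure Sys (X : Type) [NormedAddCommGroup X] [NormedSpace ℝ X] where
  e : Γ → X
  co : Γ → X →L[ℝ] ℝ
  bi : ∀ a b, co a (e b) = if a = b then 1 else 0
  hs : ∀ x, HasSum (fun a => co a x • e a) x
  low : ∀ x (B : Finset Γ), Ad c B → ∑ b ∈ B, |co b x| ≤ ‖x‖
  up : ∀ x (C : ℝ), 0 ≤ C → (∀ B : Finset Γ, Ad c B → ∑ b ∈ B, |co b x| ≤ C) → ‖x‖ ≤ C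

def K : Type := {p : Finset Γ × (Γ → ℝ) // Ad c p.1 ∧ ∀ a, |p.2 a| ≤ 1}

noncomputable def e0 (a : Γ) : lp (fun _ : K c => ℝ) ∞ :=
  ⟨fun k => if a ∈ k.1.1 then k.1.2 a else 0, memℓp_infty ⟨1, by
    rintro _ ⟨k, rfl⟩
    dsimp only
    split_ifs
    exacts [k.2.2 a, by simp]⟩⟩

noncomputable abbrev X0 : Submodule ℝ (lp (fun _ : K c => ℝ) ∞) :=
  (Submodule.span ℝ (range (e0 c))).topologicalClosure

instance : CompleteSpace (X0 c) := (Submodule.isClosed_topologicalClosure _).completeSpace_coe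

lemma exSys (hc : ∀ a, c a a = 0) : Nonempty (Sys c (X0 c)) := by
  let co : Γ → lp (fun _ : K c => ℝ) ∞ →L[ℝ] ℝ := fun a =>
    lp.evalCLM ℝ (fun _ : K c => ℝ) ∞ ⟨({a}, fun _ => 1), by simp [Ad, hc], by simp⟩
  have bi : ∀ a b, co a (e0 c b) = if a = b then 1 else 0 := fun a b => by
    show (if b ∈ ({a} : Finset Γ) then (1 : ℝ) else 0) = _
    simp [eq_comm]
  have fm : ∀ (x : X0 c) (k : K c), x.1 k = ∑ b ∈ k.1.1, k.1.2 b * co b x := fun x k => by
    have h : X0 c ≤ (lp.evalCLM ℝ (fun _ : K c => ℝ) ∞ k - ∑ b ∈ k.1.1, k.1.2 b • co b).ker := by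
      refine Submodule.topologicalClosure_minimal _ (Submodule.span_le.2 ?_)
        (ContinuousLinearMap.isClosed_ker _)
      rintro _ ⟨a, rfl⟩
      show (if a ∈ k.1.1 then k.1.2 a else 0) - (∑ b ∈ k.1.1, k.1.2 b • co b) (e0 c a) = 0
      simp [bi]
    have := h x.2
    simp [sub_eq_zero] at this
    exact this
  have low : ∀ (x : X0 c) (B : Finset Γ), Ad c B → ∑ b ∈ B, |co b x| ≤ ‖x‖ := fun x B hB => by
    have := fm x ⟨(B, fun b => sg (co b x)), hB, fun a => (abs_sg _).le⟩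
    simp only [sg_mul] at this
    rw [← this]
    exact (le_abs_self _).trans (lp.norm_apply_le_norm ENNReal.top_ne_zero x.1 _)
  have up : ∀ (x : X0 c) (C : ℝ), 0 ≤ C → (∀ B : Finset Γ, Ad c B → ∑ b ∈ B, |co b x| ≤ C) →
      ‖x‖ ≤ C := fun x C hC h => lp.norm_le_of_forall_le hC fun k => by
    show |x.1 k| ≤ C
    rw [fm]
    refine (Finset.abs_sum_le_sum_abs _ _).trans (le_trans (Finset.sum_le_sum fun b _ => ?_) (h _ k.2.1))
    rw [abs_mul]
    exact mul_le_of_le_one_left (abs_nonneg _) (k.2.2 b)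
  refine ⟨⟨fun a => ⟨e0 c a, Submodule.le_topologicalClosure _ (Submodule.subset_span ⟨a, rfl⟩)⟩,
    fun a => (co a).comp (X0 c).subtypeL, bi, fun x => Metric.tendsto_nhds.2 fun ε hε => ?_, low, up⟩⟩
  obtain ⟨z, hz, h1⟩ := Metric.mem_closure_iff.1 x.2 ε hε
  obtain ⟨G0, h2⟩ : ∃ G0 : Finset Γ, ∀ b ∉ G0, co b z = 0 := by
    clear h1
    induction hz using Submodule.span_induction with
    | mem _ h => obtain ⟨a, rfl⟩ := h; exact ⟨{a}, by simp [bi]⟩
    | zero => exact ⟨∅, by simp⟩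
    | add _ _ _ _ h3 h4 =>
      obtain ⟨G, h3⟩ := h3
      obtain ⟨G', h4⟩ := h4
      exact ⟨G ∪ G', fun b hb => by
        rw [Finset.mem_union, not_or] at hb
        simp [h3 b hb.1, h4 b hb.2]⟩
    | smul _ _ _ h3 => exact h3.imp fun G h b hb => by simp [h b hb]
  filter_upwards [eventually_ge_atTop G0] with G hG
  rw [dist_comm, dist_eq_norm]
  refine lt_of_le_of_lt (up _ _ (norm_nonneg (x - ⟨z, Submodule.le_topologicalClosure _ hz⟩))
    fun B hB => le_trans (Finset.sum_le_sum fun b _ => ?_) (low _ B hB)) (by rwa [dist_eq_norm] at h1)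
  by_cases hb : b ∈ G
  · simp [bi, hb]
  · simp [bi, hb, h2 b fun h => hb (hG h)]

namespace Sys

variable {c} {X : Type} [NormedAddCommGroup X] [NormedSpace ℝ X] (S : Sys c X)

lemma sum (h : X →L[ℝ] ℝ) (x : X) : HasSum (fun a => S.co a x * h (S.e a)) (h x) := by
  simpa using (S.hs x).mapL h

lemma ext {f g : X →L[ℝ] ℝ} (h : ∀ a, f (S.e a) = g (S.e a)) : f = g := by
  ext x
  exact (S.sum f x).unique (by simpa [h] using S.sum g x)

noncomputable def A (h : X →L[ℝ] ℝ) : W Γ := fun a => ENNReal.ofReal |h (S.e a)|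

lemma linA (y : Γ →₀ ℝ≥0) (h : X →L[ℝ] ℝ) :
    lin y (S.A h) = ENNReal.ofReal (∑ a ∈ y.support, y a * |h (S.e a)|) := by
  rw [ENNReal.ofReal_sum_of_nonneg fun _ _ => by positivity]
  exact Finset.sum_congr rfl fun a _ => by simp [A, ENNReal.ofReal_mul]

noncomputable def vec (y : Γ →₀ ℝ≥0) (g : X →L[ℝ] ℝ) : X :=
  ∑ a ∈ y.support, (y a * sg (g (S.e a))) • S.e a

lemma vec_eq (y : Γ →₀ ℝ≥0) (g : X →L[ℝ] ℝ) : lin y (S.A g) = ENNReal.ofReal (g (S.vec y g)) := by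
  simp [linA, vec, mul_assoc, sg_mul]

lemma vec_le (y : Γ →₀ ℝ≥0) (g h : X →L[ℝ] ℝ) : ENNReal.ofReal (h (S.vec y g)) ≤ lin y (S.A h) := by
  rw [linA]
  refine ENNReal.ofReal_le_ofReal ?_
  simp only [vec, map_sum, map_smul, smul_eq_mul, mul_assoc]
  gcongr
  exact (le_abs_self _).trans (by rw [abs_mul, abs_sg, one_mul])

lemma P0_le (h : X →L[ℝ] ℝ) : P0 c (S.A h) ≤ ENNReal.ofReal ‖h‖ := iSup_le fun y => by
  rw [vec_eq]
  refine ENNReal.ofReal_le_ofReal ((le_abs_self _).trans ((h.le_opNorm _).trans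
    (mul_le_of_le_one_right (norm_nonneg _) (S.up _ _ zero_le_one fun B hB => ?_))))
  refine le_trans (le_of_eq ?_) (show ((∑ b ∈ B, y.1 b : ℝ≥0) : ℝ) ≤ 1 from y.2 B hB)
  push_cast
  refine Finset.sum_congr rfl fun b _ => ?_
  by_cases e : y.1 b = 0 <;> simp [vec, S.bi, e, abs_mul, abs_sg]

lemma le_norm {h : X →L[ℝ] ℝ} (hh : P0 c (S.A h) ≤ 1) (x : X) : h x ≤ ‖x‖ := by
  by_cases hx : x = 0
  · simp [hx]
  have h0 := norm_pos_iff.2 hx
  refine le_of_tendsto' (S.sum h x) fun G => ?_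
  let y : Γ →₀ ℝ≥0 := Finsupp.onFinset G (fun a => if a ∈ G then ‖S.co a x‖₊ / ‖x‖₊ else 0)
    fun a ha => by by_contra e; simp [e] at ha
  have h1 : lin y (S.A h) ≤ 1 := le_trans (le_iSup_of_le ⟨y, fun B hB => by
    refine le_trans (Finset.sum_le_sum (g := fun a => ‖S.co a x‖₊ / ‖x‖₊) fun a _ => ?_) ?_
    · simp only [y, Finsupp.onFinset_apply]
      split_ifs <;> simp
    · rw [← Finset.sum_div, div_le_one (by simpa using hx), ← NNReal.coe_le_coe]
      simpa using S.low x B hB⟩ le_rfl) hh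
  rw [linA, ENNReal.ofReal_le_one, Finset.sum_subset (Finsupp.support_onFinset_subset)
    (fun a _ ha => by rw [show y a = 0 from Finsupp.notMem_support_iff.1 ha]; simp)] at h1
  refine le_trans (Finset.sum_le_sum fun a ha => ?_)
    ((Finset.mul_sum _ _ _).ge.trans (mul_le_of_le_one_right h0.le h1))
  simp only [y, Finsupp.onFinset_apply, if_pos ha]
  refine (le_abs_self _).trans (le_of_eq ?_)
  simp only [abs_mul, NNReal.coe_div, coe_nnnorm, Real.norm_eq_abs]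
  field_simp

noncomputable def N (x : X) : ℝ := sSup ((fun h : X →L[ℝ] ℝ => h x) '' {h | (D c).P (S.A h) ≤ 1})

lemma le_N {h : X →L[ℝ] ℝ} (hh : (D c).P (S.A h) ≤ 1) (x : X) : h x ≤ S.N x :=
  le_csSup ⟨‖x‖, by rintro _ ⟨g, hg, rfl⟩; exact S.le_norm (((D c).P0_le _).trans hg) x⟩ ⟨h, hh, rfl⟩

lemma P_le (h : X →L[ℝ] ℝ) : (D c).P (S.A h) ≤ 3 * ENNReal.ofReal ‖h‖ :=
  ((D c).P_le _).trans (mul_le_mul_right (S.P0_le h) _)

lemma N_le {x : X} {C : ℝ} (h : ∀ h : X →L[ℝ] ℝ, (D c).P (S.A h) ≤ 1 → h x ≤ C) : S.N x ≤ C :=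
  csSup_le ⟨_, 0, (S.P_le 0).trans (by simp), rfl⟩ (by rintro _ ⟨g, hg, rfl⟩; exact h g hg)

lemma N_up (x : X) : S.N x ≤ ‖x‖ := S.N_le fun _ hg => S.le_norm (((D c).P0_le _).trans hg) x

lemma N_low (x : X) : 1 / 3 * ‖x‖ ≤ S.N x := by
  obtain ⟨g, h1, h2⟩ := exists_dual_vector'' ℝ x
  have := S.le_N (h := (1 / 3 : ℝ) • g) ((S.P_le _).trans (by
    rw [← ENNReal.ofReal_ofNat, ← ENNReal.ofReal_mul (by simp), ENNReal.ofReal_le_one, norm_smul]
    simpa using h1)) x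
  simpa [h2] using this

lemma N_add (x y : X) : S.N (x + y) ≤ S.N x + S.N y := S.N_le fun h hh => by
  rw [map_add]; exact add_le_add (S.le_N hh x) (S.le_N hh y)

lemma N_smul (a : ℝ) (x : X) : S.N (a • x) = |a| * S.N x := by
  have h1 : ∀ (a : ℝ) x, S.N (a • x) ≤ |a| * S.N x := fun a x => S.N_le fun h hh => by
    have := S.le_N (h := sg a • h) (by
      rwa [show S.A (sg a • h) = S.A h by ext b; simp [A, abs_mul, abs_sg]]) x
    have h2 := mul_le_mul_of_nonneg_left this (abs_nonneg a)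
    rw [_root_.smul_apply, smul_eq_mul, ← mul_assoc] at h2
    refine le_trans (le_of_eq ?_) h2
    rw [map_smul, smul_eq_mul, ← sg_mul, mul_right_comm (sg a), ← abs_mul_abs_self (sg a), abs_sg]
    ring
  refine le_antisymm (h1 a x) ?_
  by_cases ha : a = 0
  · simpa [ha] using S.N_low 0
  · have := mul_le_mul_of_nonneg_left (h1 a⁻¹ (a • x)) (abs_nonneg a)
    rwa [inv_smul_smul₀ ha, ← mul_assoc, ← abs_mul, mul_inv_cancel₀ ha, abs_one, one_mul] at this

lemma le_mul {h : X →L[ℝ] ℝ} {r : ℝ≥0} (hh : (D c).P (S.A h) ≤ r) (x : X) : h x ≤ r * S.N x := by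
  by_cases hr : r = 0
  · have : h = 0 := S.ext fun a => by
      have := (ev_le c _ a).trans (((D c).P0_le _).trans hh)
      simpa [hr, A] using this
    simp [this, hr]
  have h1 : (0 : ℝ) < r := NNReal.coe_pos.2 (pos_iff_ne_zero.2 hr)
  have := S.le_N (h := (r : ℝ)⁻¹ • h) (by
    refine (ENNReal.mul_le_mul_iff_right (a := r) (by simpa using hr) coe_ne_top).1
      (((D c).gP.smul _ fun b => le_of_eq ?_).trans (by simpa using hh))
    simp [A, abs_mul, ENNReal.ofReal_mul, ENNReal.ofReal_inv_of_pos h1,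
      ENNReal.mul_inv_cancel_left (a := r) (by simpa using hr) coe_ne_top]) x
  rwa [_root_.smul_apply, smul_eq_mul, inv_mul_le_iff₀ h1] at this

lemma P_one {g : X →L[ℝ] ℝ} {x : X} (hx : x ≠ 0) (h1 : ∀ y, g y ≤ S.N y) (h2 : g x = S.N x) :
    (D c).P (S.A g) = 1 := by
  refine le_antisymm (((D c).gP _).trans (iSup_le fun y => ?_)) (not_lt.1 fun h => ?_)
  · rw [vec_eq, ENNReal.ofReal_le_one]
    exact (h1 _).trans (S.N_le fun h hh => ENNReal.ofReal_le_one.1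
      ((S.vec_le _ _ _).trans ((y.2 _).trans hh)))
  · lift (D c).P (S.A g) to ℝ≥0 using h.ne_top with r hr
    have h3 := S.le_mul hr.ge x
    have h4 : (r : ℝ) < 1 := by exact_mod_cast h
    nlinarith [S.N_low x, norm_pos_iff.2 hx]

lemma ess {g : X →L[ℝ] ℝ} {x : X} (hx : x ≠ 0) (h1 : ∀ y, g y ≤ S.N y) (h2 : g x = S.N x) (a : Γ)
    (ha : g (S.e a) ≠ 0) : (D c).Ess (S.A g) a := by
  have h0 := S.P_one hx h1 h2
  have hN : 0 < S.N x := by linarith [S.N_low x, norm_pos_iff.2 hx]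
  refine essAll c (by simp [h0]) (fun ε hε => ?_) a (by simpa [A] using ha)
  obtain ⟨G, hG⟩ := (Metric.tendsto_nhds.1 (S.sum g x) (ε * S.N x) (by positivity)).exists
  refine ⟨G, fun s t hts => ?_⟩
  have ht : (t : ℝ) + s = 1 := by exact_mod_cast hts
  let g' : X →L[ℝ] ℝ := (t : ℝ) • g + (s : ℝ) • ∑ b ∈ G, g (S.e b) • S.co b
  have e1 : (fun b => if b ∈ G then S.A g b else t * S.A g b) = S.A g' := by
    ext b
    by_cases e : b ∈ G
    · simp [g', A, S.bi, e, ← add_mul, ht]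
    · simp [g', A, S.bi, e, abs_mul, ENNReal.ofReal_mul]
  rw [e1, h0]
  by_cases e : (D c).P (S.A g') = ⊤
  · simp [e]
  lift (D c).P (S.A g') to ℝ≥0 using e with r hr
  have h3 := S.le_mul hr.ge x
  simp only [g', _root_.add_apply, _root_.smul_apply, smul_eq_mul,
    _root_.sum_apply, mul_comm (g _)] at h3
  rw [Real.dist_eq, abs_lt, h2] at hG
  norm_cast
  rw [← NNReal.coe_le_coe]
  push_cast
  refine le_of_mul_le_mul_right ?_ hN
  have : (t : ℝ) = 1 - s := by linarith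
  rw [this] at h3
  nlinarith [mul_le_mul_of_nonneg_left hG.1.le s.2]

lemma uniq {x : X} (hx : x ≠ 0) (f g : X →L[ℝ] ℝ) (h1 : ∀ y, f y ≤ S.N y) (h2 : ∀ y, g y ≤ S.N y)
    (h3 : f x = S.N x) (h4 : g x = S.N x) : f = g := by
  have key : ∀ f g : X →L[ℝ] ℝ, (∀ y, f y ≤ S.N y) → (∀ y, g y ≤ S.N y) → f x = S.N x → g x = S.N x →
      (∀ y, ((1 / 2 : ℝ) • (f + g)) y ≤ S.N y) ∧ ((1 / 2 : ℝ) • (f + g)) x = S.N x ∧
      ∀ a, f (S.e a) + g (S.e a) ≠ 0 → f (S.e a) = g (S.e a) := fun f g h1 h2 h3 h4 => by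
    have h5 : ∀ y, ((1 / 2 : ℝ) • (f + g)) y ≤ S.N y := fun y => by
      simp only [_root_.add_apply, _root_.smul_apply, smul_eq_mul]
      linarith [h1 y, h2 y]
    have h6 : ((1 / 2 : ℝ) • (f + g)) x = S.N x := by
      simp only [_root_.add_apply, _root_.smul_apply, smul_eq_mul]
      linarith
    refine ⟨h5, h6, fun a ha => ?_⟩
    have h7 : ∀ b, 2 * S.A ((1 / 2 : ℝ) • (f + g)) b = ENNReal.ofReal |f (S.e b) + g (S.e b)| := fun b => by
      rw [A, ← ENNReal.ofReal_ofNat, ← ENNReal.ofReal_mul (by simp), _root_.smul_apply, smul_eq_mul,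
        abs_mul, _root_.add_apply, abs_of_pos (by simp : (0 : ℝ) < 1 / 2)]
      congr 1
      ring
    obtain ⟨h8, h9⟩ := Troy.uniq c (S.P_one hx h1 h3) (S.P_one hx h2 h4) (S.P_one hx h5 h6) (fun b => by
      rw [h7, A, A, ← ENNReal.ofReal_add (abs_nonneg _) (abs_nonneg _)]
      exact ENNReal.ofReal_le_ofReal (abs_add_le _ _)) (S.ess hx h5 h6 a (mul_ne_zero (by simp) ha))
    rw [A, A, ENNReal.ofReal_eq_ofReal_iff (abs_nonneg _) (abs_nonneg _), abs_eq_abs] at h8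
    exact h8.resolve_right fun e => ha (by simp [e])
  refine S.ext fun a => by_contra fun ha => ?_
  obtain ⟨h5, h6, h7⟩ := key f g h1 h2 h3 h4
  have h8 : f (S.e a) + g (S.e a) = 0 := by_contra fun e => ha (h7 a e)
  have h9 := (key f _ h1 h5 h3 h6).2.2 a
  simp only [_root_.add_apply, _root_.smul_apply, h8, smul_zero,
    add_zero, ne_eq, _root_.not_imp_self] at h9
  exact ha (by linarith)

theorem gat {x : X} (hx : x ≠ 0) :
    ∃ L : X →L[ℝ] ℝ, ∀ v, HasDerivAt (fun t : ℝ => S.N (x + t • v)) (L v) 0 :=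
  smooth S.N S.N_up S.N_add S.N_smul hx (S.uniq hx)

theorem wld (h : X →L[ℝ] ℝ) : (Function.support fun a => h (S.e a)).Countable := by
  simpa [A, Function.support] using countable c (ne_top_of_le_ne_top ofReal_ne_top (S.P0_le h))

end Sys

end Pool.Agent.H87.Troy
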