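import Pool.Agent.H87.Troy3

namespace Pool.Agent.H87.Troy

open Set Classical Filter Topology

inductive G : Type
  | nil : G
  | mk : (ℕ → G) → (ℕ → ℕ) → G

def G.lt (a : G) : G → Prop
  | .nil => False
  | .mk f _ => ∃ n, f n = a

noncomputable def cG (a : G) : G → ℕ
  | .nil => 0
  | .mk f v => if h : ∃ n, f n = a then v h.choose else 0

lemma G.wf : WellFounded G.lt := ⟨fun a => by
  induction a with
  | nil => exact ⟨_, fun _ h => h.elim⟩
  | mk f v ih => exact ⟨_, by rintro _ ⟨n, rfl⟩; exact ih n⟩⟩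

lemma cG_lt {a b : G} (h : 0 < cG a b) : a.lt b := by
  cases b with
  | nil => simp [cG] at h
  | mk f v => by_contra e; simp [cG, show ¬ ∃ n, f n = a from e] at h

lemma cG_asym (a b : G) (h : 0 < cG a b) : cG b a = 0 := by
  by_contra e
  exact G.wf.asymm.1 _ _ (cG_lt h) (cG_lt (Nat.pos_of_ne_zero e))

lemma cG_univ (D : Set G) (hD : D.Countable) (p : G → ℕ) : ∃ g, ∀ a ∈ D, cG a g = p a := by
  obtain ⟨f, hf⟩ := @countable_iff_exists_subset_range G ⟨.nil⟩ D |>.1 hD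
  refine ⟨.mk f (p ∘ f), fun a ha => ?_⟩
  have h : ∃ n, f n = a := hf ha
  simp [cG, h, h.choose_spec]

variable {Γ : Type} {c : Γ → Γ → ℕ}

def Rl (D : Set Γ) (r : Γ → Γ → Prop) : Prop :=
  D.Countable ∧ ∃ e : Γ → ℕ, ∀ a b, r a b → a ∈ D ∧ b ∈ D ∧ e b < e a

def Cone (c : Γ → Γ → ℕ) (D : Set Γ) (r : Γ → Γ → Prop) (B : Set Γ) : Prop :=
  Ad c B ∧ (∀ a ∈ D, ∀ b ∈ B, 0 < c a b) ∧ (∀ a a', r a a' → ∀ b ∈ B, c a' b < c a b) ∧
    ∀ a ∈ D, ∀ b ∈ B, ∀ b' ∈ B, 0 < c b b' → c b b' < c a b'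

lemma Cone.sub {D D' A B : Set Γ} {r r' : Γ → Γ → Prop} (h : Cone c D r B) (hA : A ⊆ B) (hD : D' ⊆ D)
    (hr : ∀ a b, r' a b → r a b) : Cone c D' r' A :=
  ⟨h.1.sub hA, fun a ha b hb => h.2.1 a (hD ha) b (hA hb), fun a a' e b hb => h.2.2.1 a a' (hr _ _ e) b (hA hb),
    fun a ha b hb b' hb' => h.2.2.2 a (hD ha) b (hA hb) b' (hA hb')⟩

variable (ha : ∀ a b, 0 < c a b → c b a = 0)
  (hu : ∀ D : Set Γ, D.Countable → ∀ p : Γ → ℕ, ∃ g, ∀ a ∈ D, c a g = p a)

include ha in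
lemma irr (a : Γ) : c a a = 0 := by_contra fun e => e (ha a a (Nat.pos_of_ne_zero e))

include ha hu

lemma step {D E0 E : Set Γ} {r : Γ → Γ → Prop} (h : Rl D r) (s : Finset Γ) (hs : Cone c D r s)
    (h1 : Disjoint D E0) (h2 : Disjoint (s : Set Γ) E0) (hE : E.Countable) (h3 : E0 ⊆ E) :
    ∃ D' r', Rl D' r' ∧ Disjoint D' E0 ∧ ∀ B, Cone c D' r' B → Cone c D r (s ∪ B) ∧ Disjoint B E := by
  obtain ⟨u, hu⟩ := hu E hE fun _ => 1
  obtain ⟨hD, e, he⟩ := h
  have h0 := irr ha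
  refine ⟨insert u (D ∪ s), fun a b => r a b ∨ (a ∈ D ∧ b ∈ s) ∨ (a ∈ s ∧ b ∈ s ∧ 0 < c a b),
    ⟨(hD.union s.countable_toSet).insert u, fun a => if a ∈ s then (s.filter (0 < c a ·)).card
      else e a + s.card + 1, ?_⟩, ?_, fun B hB => ⟨?_, ?_⟩⟩
  · have h4 : ∀ a ∈ D, a ∉ s := fun a h h' => (hs.2.1 a h a h').ne' (h0 a)
    rintro a b (h | h | h)
    · obtain ⟨h5, h6, h7⟩ := he a b h
      simp [*]
    · simpa [h.1, h.2, h4 a h.1] using Nat.lt_succ_of_le ((Finset.card_filter_le s _).trans le_add_self)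
    · simp only [h.1, h.2.1, if_true, mem_insert_iff, mem_union, Finset.mem_coe, or_true, true_and]
      refine Finset.card_lt_card ⟨fun d hd => ?_, fun h' => ?_⟩
      · rw [Finset.mem_filter] at hd ⊢
        exact ⟨hd.1, hd.2.trans (hs.1.2 a h.1 b h.2.1 d hd.1 h.2.2 hd.2)⟩
      · simpa [h0] using h' (Finset.mem_filter.2 h.2)
  · simp only [disjoint_insert_left, disjoint_union_left]
    exact ⟨fun h => by simpa [h0] using hu u (h3 h), h1, h2⟩
  · obtain ⟨⟨a1, a2⟩, a3, a4, a5⟩ := hs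
    obtain ⟨⟨b1, b2⟩, b3, b4, b5⟩ := hB
    simp only [mem_insert_iff, mem_union, Finset.mem_coe] at *
    have b6 : ∀ a ∈ s, ∀ b ∈ B, 0 < c a b ∧ c b a = 0 := fun a h b h' =>
      ⟨b3 a (by simp [h]) b h', ha _ _ (b3 a (by simp [h]) b h')⟩
    refine ⟨⟨?_, ?_⟩, ?_, ?_, ?_⟩
    · rintro a (h | h) b (h' | h') e
      exacts [a1 a h b h' e, Or.inl (b6 a h b h').1, Or.inr (b6 b h' a h).1, b1 a h b h' e]
    · rintro a (h | h) b (h' | h') d (h'' | h'') e e'
      · exact a2 a h b h' d h'' e e'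
      · exact b4 a b (Or.inr (Or.inr ⟨h, h', e⟩)) d h''
      · exact absurd (b6 d h'' b h').2 e'.ne'
      · exact b5 a (Or.inr (Or.inr h)) b h' d h'' e'
      · exact absurd (b6 b h' a h).2 e.ne'
      · exact absurd (b6 b h' a h).2 e.ne'
      · exact absurd (b6 d h'' b h').2 e'.ne'
      · exact b2 a h b h' d h'' e e'
    · rintro a h b (h' | h')
      exacts [a3 a h b h', b3 a (by simp [h]) b h']
    · rintro a a' h b (h' | h')
      exacts [a4 a a' h b h', b4 a a' (Or.inl h) b h']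
    · rintro a h b (h' | h') d (h'' | h'') e
      · exact a5 a h b h' d h'' e
      · exact b4 a b (Or.inr (Or.inl ⟨h, h'⟩)) d h''
      · exact absurd (b6 d h'' b h').2 e.ne'
      · exact b5 a (by simp [h]) b h' d h'' e
  · exact disjoint_left.2 fun b hb h => by simpa [hu b h] using ha _ _ (hB.2.1 u (by simp) b hb)

lemma stab (V : Finset Γ → ℝ → Prop) (hV : ∀ B q t, V B q → t < q → V B t) :
    ∃ D r E, Rl D r ∧ E.Countable ∧ Disjoint D E ∧ (∀ B, Cone c D r B → Disjoint B E) ∧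
    ∀ (B : Finset Γ) (q t : ℝ), Cone c D r B → V B q → t < q → ∀ D' r', Rl D' r' → Disjoint D' E →
      ∃ B' : Finset Γ, Cone c D' r' B' ∧ V B' t := by
  obtain ⟨q, hq⟩ := exists_surjective_nat ℚ
  let L : ℕ → Set Γ → Prop := fun n E => E.Countable ∧ ∀ D r, Rl D r → Disjoint D E →
    ∃ B : Finset Γ, Cone c D r B ∧ V B (q n)
  have h1 : ∀ n, ∃ E : Set Γ, E.Countable ∧ ((∃ E, L n E) → L n E) := fun n => by
    by_cases h : ∃ E, L n E
    · exact h.imp fun E h => ⟨h.1, fun _ => h⟩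
    · exact ⟨∅, countable_empty, fun h' => (h h').elim⟩
  choose E hE hE' using h1
  have h2 : ∀ n (F : {F : Set Γ // F.Countable}), ∃ D r, Rl D r ∧ Disjoint D F ∧
      ((¬ ∃ E, L n E) → ∀ B : Finset Γ, Cone c D r B → ¬ V B (q n)) := fun n F => by
    by_cases h : ∃ E, L n E
    · exact ⟨∅, fun _ _ => False, ⟨countable_empty, 0, by simp⟩, by simp, fun h' => (h' h).elim⟩
    · have := not_exists.1 h F
      simp only [L, F.2, true_and] at this
      push Not at this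
      obtain ⟨D, r, h3, h4, h5⟩ := this
      exact ⟨D, r, h3, h4, fun _ => h5⟩
  choose D r h3 h4 h5 using h2
  let F : ℕ → {F : Set Γ // F.Countable} := fun n => Nat.rec ⟨⋃ n, E n, countable_iUnion hE⟩
    (fun n F => ⟨F ∪ D n F, F.2.union (h3 n F).1⟩) n
  have hF : Monotone fun n => (F n).1 := monotone_nat_of_le_succ fun n => subset_union_left
  have hd : ∀ m n a, a ∈ D m (F m) → a ∈ D n (F n) → m = n := fun m n a hm hn => by
    by_contra h
    wlog e : m < n generalizing m n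
    · exact this n m hn hm (Ne.symm h) (by omega)
    exact disjoint_left.1 (h4 n _) hn (hF (Nat.succ_le_of_lt e) (Or.inr hm))
  choose e he using fun n => (h3 n (F n)).2
  obtain ⟨D', r', h6, h7, h8⟩ := step ha hu (D := ⋃ n, D n (F n)) (r := fun a b => ∃ n, r n (F n) a b)
    (E0 := ⋃ n, E n) ⟨countable_iUnion fun n => (h3 n _).1,
      fun a => if h : ∃ n, a ∈ D n (F n) then e h.choose a else 0, by
        rintro a b ⟨n, h⟩
        obtain ⟨a1, a2, a3⟩ := he n a b h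
        have b1 : ∃ n, a ∈ D n (F n) := ⟨n, a1⟩
        have b2 : ∃ n, b ∈ D n (F n) := ⟨n, a2⟩
        refine ⟨mem_iUnion.2 b1, mem_iUnion.2 b2, ?_⟩
        simp only [dif_pos b1, dif_pos b2]
        rwa [hd _ _ _ b1.choose_spec a1, hd _ _ _ b2.choose_spec a2]⟩ ∅ (by simp [Cone, Ad])
    (disjoint_iUnion_left.2 fun n => (h4 n _).mono_right (hF n.zero_le)) (by simp)
    (countable_iUnion hE) subset_rfl
  refine ⟨D', r', _, h6, countable_iUnion hE, h7, fun B hB => (h8 B hB).2,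
    fun B t' t hB h9 ht D2 r2 a1 a2 => ?_⟩
  obtain ⟨t1, b1, b2⟩ := exists_rat_btwn ht
  obtain ⟨n, rfl⟩ := hq t1
  have : ∃ E, L n E := by_contra fun h => h5 n (F n) h B ((h8 B hB).1.sub subset_union_right
    (subset_iUnion (fun n => D n (F n)) n) fun a b h => ⟨n, h⟩) (hV _ _ _ h9 b2)
  obtain ⟨B', b3, b4⟩ := (hE' n this).2 D2 r2 a1 (a2.mono_right (subset_iUnion E n))
  exact ⟨B', b3, hV _ _ _ b4 b1⟩

variable {X : Type} [NormedAddCommGroup X] [NormedSpace ℝ X] (S : Sys c X)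

omit ha hu in
lemma exF (η : Γ → ℝ) (h : ∀ (G : Finset Γ) x, ∑ b ∈ G, |η b * S.co b x| ≤ ‖x‖) :
    ∃ f : X →L[ℝ] ℝ, ∀ x, HasSum (fun b => η b * S.co b x) (f x) := by
  have h1 : ∀ x, Summable fun b => η b * S.co b x := fun x =>
    (summable_of_sum_le (fun _ => abs_nonneg _) fun G => h G x).of_abs
  refine ⟨LinearMap.mkContinuous ⟨⟨fun x => ∑' b, η b * S.co b x, fun x y => ?_⟩, fun a x => ?_⟩ 1
    fun x => ?_, fun x => (h1 x).hasSum⟩
  · simp only [map_add, mul_add]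
    exact (h1 x).tsum_add (h1 y)
  · simp only [map_smul, smul_eq_mul, mul_left_comm _ a, RingHom.id_apply]
    exact tsum_mul_left
  · rw [one_mul]
    exact le_of_tendsto' (h1 x).hasSum.norm fun G => (Finset.abs_sum_le_sum_abs _ _).trans (h G x)

include S in
theorem norot [CompleteSpace X] (M : X → ℝ) (hM : ∃ c C : ℝ, 0 < c ∧ 0 < C ∧ ∀ x, c * ‖x‖ ≤ M x ∧ M x ≤ C * ‖x‖)
    (hs : ∀ (a : ℝ) x, M (a • x) = |a| * M x) : ∃ f g : X →L[ℝ] ℝ, f ≠ g ∧ (∀ x, f x ≤ M x) ∧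
      (∀ x, g x ≤ M x) ∧ ∀ t < (2 : ℝ), ∃ y, M y ≤ 1 ∧ t < f y + g y := by
  obtain ⟨c0, C, h0, hC, hM⟩ := hM
  obtain ⟨D, r, E0, hD, hE0, hDE, hcE, hst⟩ := stab ha hu
    (fun B q => ∃ y, M y ≤ 1 ∧ q < ∑ b ∈ B, |S.co b y|) fun B q t ⟨y, h1, h2⟩ h => ⟨y, h1, h.trans h2⟩
  obtain ⟨a0, h1⟩ : ∃ a, Cone c D r {a} := by
    obtain ⟨e, he⟩ := hD.2
    obtain ⟨g, hg⟩ := hu D hD.1 fun a => e a + 1
    refine ⟨g, by simp [Ad, irr ha], by simp +contextual [hg], fun a a' h => ?_, by simp [irr ha]⟩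
    simp [hg, he a a' h]
  let V : Set ℝ := {t | ∃ (B : Finset Γ) (y : X), Cone c D r B ∧ M y ≤ 1 ∧ ∑ b ∈ B, |S.co b y| = t}
  have hV : BddAbove V := ⟨1 / c0, by
    rintro _ ⟨B, y, h2, h3, rfl⟩
    rw [le_div_iff₀' h0]
    exact (mul_le_mul_of_nonneg_left (S.low y B h2.1) h0.le).trans ((hM y).1.trans h3)⟩
  have hmem : 1 / C ∈ V := ⟨{a0}, (1 / C) • S.e a0, by simpa using h1, by
    have : ‖S.e a0‖ ≤ 1 := S.up _ _ zero_le_one fun B _ => by
      simp only [S.bi, apply_ite abs, abs_one, abs_zero, Finset.sum_ite_eq']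
      split_ifs <;> simp
    rw [hs, abs_of_pos (by positivity), one_div, inv_mul_le_iff₀ hC]
    exact (hM _).2.trans (by gcongr), by simp [S.bi, hC.le]⟩
  set ψ := sSup V
  have hψ : 0 < ψ := lt_of_lt_of_le (by positivity) (le_csSup hV hmem)
  let P : Finset Γ × (Γ → ℝ) × Set Γ → Prop := fun x => Cone c D r x.1 ∧ a0 ∈ x.1 ∧
    (∀ b, |x.2.1 b| ≤ 1) ∧ (∀ b ∉ x.1, x.2.1 b = 0) ∧ x.2.1 a0 = 0 ∧ x.2.2.Countable ∧ ↑x.1 ⊆ x.2.2
  have key : ∀ (n : ℕ) (x : {x // P x}), ∃ x' : {x // P x}, x.1.1 ⊆ x'.1.1 ∧ x.1.2.2 ⊆ x'.1.2.2 ∧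
      (∀ b ∈ x.1.2.2, x'.1.2.1 b = x.1.2.1 b) ∧ ∃ y, M y ≤ 1 ∧ (∀ b, S.co b y ≠ 0 → b ∈ x'.1.2.2) ∧
      ψ - 1 / (n + 1) < ∑ b ∈ x'.1.1, x'.1.2.1 b * S.co b y := by
    rintro n ⟨⟨s, ε, E⟩, a1, a2, a3, a4, a5, a6, a7⟩
    dsimp only at a1 a2 a3 a4 a5 a6 a7
    obtain ⟨D', r', b1, b2, b3⟩ := step ha hu hD s a1 hDE (hcE _ a1) (hE0.union a6) subset_union_left
    obtain ⟨_, ⟨B0, y0, b4, b5, rfl⟩, b6⟩ := exists_lt_of_lt_csSup ⟨_, hmem⟩
      (sub_lt_self ψ (Nat.one_div_pos_of_nat (n := n)))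
    obtain ⟨q, b7, b8⟩ := exists_between b6
    obtain ⟨B, b9, y, c1, c2⟩ := hst B0 q _ b4 ⟨y0, b5, b8⟩ b7 D' r' b1 b2
    obtain ⟨c3, c4⟩ := b3 B b9
    have c5 : ∀ b ∈ E, b ∉ B := fun b h h' => disjoint_left.1 c4 h' (Or.inr h)
    set σ := sg (∑ b ∈ s, ε b * S.co b y)
    have hσ : σ * σ = 1 := by rw [← abs_mul_abs_self, abs_sg, one_mul]
    refine ⟨⟨(s ∪ B, fun b => if b ∈ B then σ * sg (S.co b y) else ε b,
      E ∪ B ∪ Function.support fun b => S.co b y • S.e b), by simpa using c3, by simp [a2], fun b => ?_,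
      fun b hb => ?_, by simp [c5 a0 (a7 a2), a5], (a6.union B.countable_toSet).union
        (S.hs y).summable.countable_support, ?_⟩, Finset.subset_union_left,
      subset_union_left.trans subset_union_left, fun b hb => if_neg (c5 b hb), σ • y, ?_, fun b hb => ?_, ?_⟩
    · dsimp only
      split_ifs
      exacts [by simp [σ, abs_mul, abs_sg], a3 b]
    · rw [Finset.mem_union, not_or] at hb
      simp [hb.2, a4 b hb.1]
    · simpa using ⟨a7.trans (subset_union_left.trans subset_union_left),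
        subset_union_right.trans subset_union_left⟩
    · rwa [hs, abs_sg, one_mul]
    · refine Or.inr fun e => hb ?_
      have := congrArg (S.co b) e
      simp only [map_smul, S.bi, if_true, smul_eq_mul, mul_one, map_zero] at this
      simp [this]
    · dsimp only
      rw [Finset.sum_union (Finset.disjoint_left.2 fun b hb => c5 b (a7 hb))]
      have c6 : ∑ b ∈ s, (if b ∈ B then σ * sg (S.co b y) else ε b) * S.co b (σ • y) =
          |∑ b ∈ s, ε b * S.co b y| := by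
        rw [← sg_mul, Finset.mul_sum]
        exact Finset.sum_congr rfl fun b hb => by simp [c5 b (a7 hb), σ, mul_left_comm]
      have c7 : ∑ b ∈ B, (if b ∈ B then σ * sg (S.co b y) else ε b) * S.co b (σ • y) =
          ∑ b ∈ B, |S.co b y| := Finset.sum_congr rfl fun b hb => by
        rw [if_pos hb, map_smul, smul_eq_mul, mul_mul_mul_comm, hσ, one_mul, sg_mul]
      rw [c6, c7]
      exact c2.trans_le (le_add_of_nonneg_left (abs_nonneg _))
  choose f k1 k2 k3 y k4 k5 k6 using key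
  let x : ℕ → {x // P x} := fun n => Nat.rec ⟨({a0}, 0, {a0}), by simpa [P] using h1⟩ f n
  have m1 : Monotone fun n => (x n).1.1 := monotone_nat_of_le_succ fun n => k1 n _
  have m2 : Monotone fun n => (x n).1.2.2 := monotone_nat_of_le_succ fun n => k2 n _
  have m3 : ∀ n b, b ∈ (x n).1.2.2 → ∀ m, n ≤ m → (x m).1.2.1 b = (x n).1.2.1 b := fun n b hb m h => by
    induction h with
    | refl => rfl
    | step h ih => exact (k3 _ _ b (m2 h hb)).trans ih
  let ε : Γ → ℝ := fun b => if h : ∃ n, b ∈ (x n).1.2.2 then (x h.choose).1.2.1 b else 0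
  have e1 : ∀ n b, b ∈ (x n).1.2.2 → ε b = (x n).1.2.1 b := fun n b hb => by
    have h : ∃ n, b ∈ (x n).1.2.2 := ⟨n, hb⟩
    simp only [ε, dif_pos h]
    rw [← m3 _ b h.choose_spec _ (le_max_left _ n), m3 _ b hb _ (le_max_right _ _)]
  have e2 : ∀ τ : ℝ, |τ| ≤ 1 → ∃ g : X →L[ℝ] ℝ, (∀ z, g z ≤ ψ * M z) ∧ g (S.e a0) = τ ∧
      ∀ z, HasSum (fun b => Function.update ε a0 τ b * S.co b z) (g z) := fun τ hτ => by
    have e3 : ∀ (G : Finset Γ) z, ∃ B : Finset Γ, Cone c D r B ∧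
        ∑ b ∈ G, |Function.update ε a0 τ b * S.co b z| ≤ ∑ b ∈ B, |S.co b z| := fun G z => by
      have e4 : ∀ b, ∃ n, |Function.update ε a0 τ b| ≤ if b ∈ (x n).1.1 then 1 else 0 := fun b => by
        by_cases e : b = a0
        · exact ⟨0, by simpa [e, (x 0).2.2.1] using hτ⟩
        by_cases h : ∃ n, b ∈ (x n).1.2.2
        · refine h.imp fun n hn => ?_
          rw [Function.update_of_ne e, e1 n b hn]
          split_ifs with h'
          exacts [(x n).2.2.2.1 b, by simp [(x n).2.2.2.2.1 b h']]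
        · exact ⟨0, by rw [Function.update_of_ne e]; simp only [ε, dif_neg h]; split_ifs <;> simp⟩
      choose n hn using e4
      refine ⟨_, (x (G.sup n)).2.1, le_trans (Finset.sum_le_sum (g := fun b =>
        if b ∈ (x (G.sup n)).1.1 then |S.co b z| else 0) fun b hb => ?_) ?_⟩
      · rw [abs_mul]
        refine (mul_le_mul_of_nonneg_right (hn b) (abs_nonneg _)).trans ?_
        split_ifs with h h'
        exacts [by simp, (h' (m1 (Finset.le_sup hb) h)).elim, by simp, by simp]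
      · rw [Finset.sum_ite_mem]
        exact Finset.sum_le_sum_of_subset_of_nonneg Finset.inter_subset_right fun _ _ _ => abs_nonneg _
    obtain ⟨g, hg⟩ := exF S _ fun G z => by
      obtain ⟨B, h2, h3⟩ := e3 G z
      exact h3.trans (S.low z B h2.1)
    refine ⟨g, fun z => ?_, (hg _).unique ?_, hg⟩
    · by_cases hz : z = 0
      · simpa [hz] using mul_nonneg hψ.le (show 0 ≤ M 0 by simpa using (hM 0).1)
      have h2 : 0 < M z := (mul_pos h0 (norm_pos_iff.2 hz)).trans_le (hM z).1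
      have h3 : g ((M z)⁻¹ • z) ≤ ψ := le_of_tendsto' (hg _) fun G => by
        obtain ⟨B, h3, h4⟩ := e3 G ((M z)⁻¹ • z)
        exact (le_abs_self _).trans ((Finset.abs_sum_le_sum_abs _ _).trans (h4.trans (le_csSup hV
          ⟨B, _, h3, by rw [hs, abs_of_pos (inv_pos.2 h2), inv_mul_cancel₀ h2.ne'], rfl⟩)))
      rwa [map_smul, smul_eq_mul, inv_mul_le_iff₀' h2] at h3
    · convert hasSum_single a0 fun b hb => ?_ <;> simp [S.bi, *]
  obtain ⟨g1, a1, a2, a3⟩ := e2 1 (by simp)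
  obtain ⟨g2, b1, b2, b3⟩ := e2 (-1) (by simp)
  refine ⟨ψ⁻¹ • g1, ψ⁻¹ • g2, fun e => ?_, fun z => (inv_mul_le_iff₀ hψ).2 (a1 z),
    fun z => (inv_mul_le_iff₀ hψ).2 (b1 z), fun t ht => ?_⟩
  · have := congrArg (· (S.e a0)) e
    simp only [_root_.smul_apply, a2, b2, smul_eq_mul] at this
    linarith [inv_pos.2 hψ]
  obtain ⟨n, hn⟩ := exists_nat_one_div_lt (K := ℝ) (ε := (2 - t) * ψ / 2) (by
    have : 0 < 2 - t := by linarith
    positivity)
  refine ⟨y n (x n), k4 _ _, ?_⟩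
  have h2 : g1 (y n (x n)) + g2 (y n (x n)) =
      ∑ b ∈ (x (n + 1)).1.1, 2 * ((x (n + 1)).1.2.1 b * S.co b (y n (x n))) := by
    refine ((a3 _).add (b3 _)).unique ?_
    have h3 : ∀ b, Function.update ε a0 1 b * S.co b (y n (x n)) + Function.update ε a0 (-1) b *
        S.co b (y n (x n)) = 2 * ((x (n + 1)).1.2.1 b * S.co b (y n (x n))) := fun b => by
      by_cases e : b = a0
      · simp [e, (x (n + 1)).2.2.2.2.2.1]
      by_cases h : S.co b (y n (x n)) = 0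
      · simp [h]
      · rw [Function.update_of_ne e, Function.update_of_ne e, e1 (n + 1) b (k5 _ _ b h), two_mul]
    simp only [h3]
    exact hasSum_sum_of_ne_finset_zero fun b hb => by simp [(x (n + 1)).2.2.2.2.1 b hb]
  have h3 := k6 n (x n)
  simp only [_root_.smul_apply, smul_eq_mul]
  rw [← mul_add, h2, ← Finset.mul_sum, lt_inv_mul_iff₀ hψ]
  change _ < ∑ b ∈ (x (n + 1)).1.1, (x (n + 1)).1.2.1 b * _ at h3
  linarith

omit ha hu in
instance : Uncountable G := ⟨fun h => by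
  obtain ⟨g, hg⟩ := cG_univ univ countable_univ fun _ => 1
  simpa [irr cG_asym] using hg g trivial⟩

end Pool.Agent.H87.Troy
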