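import Mathlib

namespace Pool.Agent.H87.TwoR

open Filter Topology Finset Classical

universe u

inductive Br : Type u
  | zero : Br
  | succ : Br → Br
  | lim : (ℕ → Br) → Br

abbrev G : Type u := Finset Br.{u} × ℕ

def Fam : Br.{u} → Finset G.{u} → Prop
  | .zero, F => ∃ m, F ⊆ {m}
  | .succ ξ, F => ∃ A B, Fam ξ A ∧ Fam ξ B ∧ F ⊆ A ∪ B
  | .lim f, F => ∃ k, Fam (f k) F ∧ ∀ m ∈ F, k ≤ m.2

lemma Fam.sub {ξ : Br.{u}} {F E : Finset G.{u}} (h : Fam ξ F) (hE : E ⊆ F) : Fam ξ E := by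
  induction ξ with
  | zero => exact h.imp fun m => hE.trans
  | succ ξ _ => obtain ⟨A, B, h1, h2, h3⟩ := h; exact ⟨A, B, h1, h2, hE.trans h3⟩
  | lim f ih => obtain ⟨k, h1, h2⟩ := h; exact ⟨k, ih k h1, fun m hm => h2 m (hE hm)⟩

def Top (F : Finset G.{u}) : Prop := ∃ ξ, Fam ξ F ∧ ∀ m ∈ F, ξ ∈ insert .zero m.1

lemma Top.sub {F E : Finset G.{u}} (h : Top F) (hE : E ⊆ F) : Top E :=
  h.imp fun _ h => ⟨h.1.sub hE, fun m hm => h.2 m (hE hm)⟩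

def Cof (C : Set (G.{u} →₀ ℝ)) : Prop := ∀ S : Finset G.{u}, ∃ φ ∈ C, ∀ m ∈ S, φ m = 0

def Sm (H : Finset G.{u} → Prop) (δ : ℝ) : Set (G.{u} →₀ ℝ) :=
  {φ | ∀ F, H F → Top F → ∑ m ∈ F, |φ m| ≤ δ}

lemma val_add (F : Finset G.{u}) (φ ψ : G.{u} →₀ ℝ) :
    ∑ m ∈ F, |(φ + ψ) m| ≤ ∑ m ∈ F, |φ m| + ∑ m ∈ F, |ψ m| := by
  rw [← sum_add_distrib]; exact sum_le_sum fun m _ => abs_add_le _ _

lemma Sm.convex (H : Finset G.{u} → Prop) (δ : ℝ) : Convex ℝ (Sm H δ) := by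
  intro φ h1 ψ h2 a b ha hb hab F h3 h4
  refine (val_add F _ _).trans ?_
  simp only [Finsupp.smul_apply, smul_eq_mul, abs_mul, ← mul_sum, abs_of_nonneg ha, abs_of_nonneg hb]
  linarith [mul_le_mul_of_nonneg_left (h1 F h3 h4) ha, mul_le_mul_of_nonneg_left (h2 F h3 h4) hb,
    show a * δ + b * δ = δ by rw [← add_mul, hab, one_mul]]

def Good (H : Finset G.{u} → Prop) : Prop := ∀ C : Set (G.{u} →₀ ℝ), Convex ℝ C → Cof C →
  C ⊆ Sm (fun _ => True) 1 → ∀ δ > 0, Cof (C ∩ Sm H δ)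

lemma good_fin {ι : Type*} (H : ι → Finset G.{u} → Prop) (h : ∀ i, Good (H i)) (J : Finset ι) :
    Good fun F => ∃ i ∈ J, H i F := by
  induction J using Finset.induction with
  | empty => exact fun C _ h2 _ δ _ S => (h2 S).imp fun φ h => ⟨⟨h.1, by simp [Sm]⟩, h.2⟩
  | insert i J _ ih =>
    intro C h1 h2 h3 δ hδ S
    obtain ⟨φ, ⟨⟨h4, h5⟩, h6⟩, h7⟩ := h i _ (h1.inter (Sm.convex _ δ)) (ih C h1 h2 h3 δ hδ)
      (Set.inter_subset_left.trans h3) δ hδ S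
    refine ⟨φ, ⟨h4, fun F ⟨j, hj, hF⟩ => ?_⟩, h7⟩
    rcases mem_insert.1 hj with rfl | hj
    exacts [h6 F hF, h5 F ⟨j, hj, hF⟩]

lemma avg_mem {C : Set (G.{u} →₀ ℝ)} (h : Convex ℝ C) {ψ v : G.{u} →₀ ℝ} {N : ℕ}
    (h1 : ((N : ℝ) + 1)⁻¹ • ψ ∈ C) (h2 : v ∈ C) : (((N + 1 : ℕ) : ℝ) + 1)⁻¹ • (ψ + v) ∈ C := by
  convert h h1 h2 (a := (N + 1) / (N + 2)) (b := 1 / (N + 2)) (by positivity) (by positivity)
    (by field_simp; ring) using 1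
  rw [smul_add, smul_smul]
  push_cast
  congr 2 <;> field_simp <;> ring

lemma good_lim {ι : Type*} (H : ι → Finset G.{u} → Prop) (h : ∀ i, Good (H i)) (I : G.{u} → Finset ι)
    (K : Finset G.{u} → Prop) (hK : ∀ F, K F → ∃ i, H i F ∧ ∀ m ∈ F, i ∈ I m) : Good K := by
  intro C h1 h2 h3 δ hδ S
  have key : ∀ N : ℕ, ∃ ψ : G.{u} →₀ ℝ, ((N : ℝ) + 1)⁻¹ • ψ ∈ C ∧ (∀ m ∈ S, ψ m = 0) ∧
      ψ ∈ Sm K (1 + N * (δ / 2)) := by
    intro N
    induction N with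
    | zero =>
      obtain ⟨φ, h4, h5⟩ := h2 S
      exact ⟨φ, by simpa using h4, h5, fun F _ hF => by simpa using h3 h4 F trivial hF⟩
    | succ N ih =>
      obtain ⟨ψ, h4, h5, h6⟩ := ih
      obtain ⟨v, ⟨h7, h8⟩, h9⟩ := good_fin H h (ψ.support.biUnion I) C h1 h2 h3 (δ / 2)
        (by positivity) S
      refine ⟨ψ + v, avg_mem h1 h4 h7, fun m hm => by simp [h5 m hm, h9 m hm],
        fun F hF hT => (val_add F _ _).trans ?_⟩
      push_cast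
      by_cases h10 : ∃ m ∈ F, ψ m ≠ 0
      · obtain ⟨m, hm, h10⟩ := h10
        obtain ⟨i, hi, hi'⟩ := hK F hF
        linarith [h6 F hF hT, h8 F ⟨i, mem_biUnion.2 ⟨m, Finsupp.mem_support_iff.2 h10, hi' m hm⟩,
          hi⟩ hT]
      · push Not at h10
        rw [sum_eq_zero fun m hm => by rw [h10 m hm, abs_zero]]
        have : 0 ≤ ((N : ℝ) + 1) * (δ / 2) := by positivity
        linarith [h3 h7 F trivial hT]
  obtain ⟨N, hN⟩ := exists_nat_gt (2 / δ)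
  obtain ⟨ψ, h4, h5, h6⟩ := key N
  refine ⟨_, ⟨h4, fun F hF hT => ?_⟩, fun m hm => by simp [h5 m hm]⟩
  have h7 : (0 : ℝ) < N + 1 := by positivity
  simp only [Finsupp.smul_apply, smul_eq_mul, abs_mul, ← mul_sum, abs_of_pos (inv_pos.2 h7)]
  rw [inv_mul_le_iff₀ h7]
  rw [div_lt_iff₀ hδ] at hN
  nlinarith [h6 F hF hT]

lemma good_fam (ξ : Br.{u}) : Good (Fam ξ) := by
  induction ξ with
  | zero =>
    refine good_lim (fun m F => F ⊆ {m}) (fun m C _ h2 _ δ hδ S => ?_) (fun m => {m}) _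
      fun F ⟨m, hm⟩ => ⟨m, hm, fun k hk => by simp [mem_singleton.1 (hm hk)]⟩
    obtain ⟨φ, h4, h5⟩ := h2 (insert m S)
    refine ⟨φ, ⟨h4, fun F hF _ => ?_⟩, fun k hk => h5 k (mem_insert_of_mem hk)⟩
    rw [sum_eq_zero fun k hk => by rw [mem_singleton.1 (hF hk), h5 m (mem_insert_self _ _), abs_zero]]
    exact hδ.le
  | succ ξ ih =>
    intro C h1 h2 h3 δ hδ S
    obtain ⟨φ, ⟨h4, h5⟩, h6⟩ := ih C h1 h2 h3 (δ / 2) (by positivity) S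
    refine ⟨φ, ⟨h4, fun F ⟨A, B, hA, hB, hF⟩ hT => ?_⟩, h6⟩
    rw [← sum_inter_add_sum_sdiff F A]
    linarith [h5 _ (hA.sub (inter_subset_right (s₁ := F))) (hT.sub inter_subset_left),
      h5 _ (hB.sub (sdiff_le_iff.2 (show F ≤ A ⊔ B from hF))) (hT.sub sdiff_subset)]
  | lim f ih =>
    exact good_lim (fun k => Fam (f k)) ih (fun m => range (m.2 + 1)) _
      fun F ⟨k, h1, h2⟩ => ⟨k, h1, fun m hm => mem_range.2 (Nat.lt_succ_of_le (h2 m hm))⟩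

lemma good_top : Good Top.{u} :=
  good_lim Fam good_fam (fun m => insert Br.zero m.1) _ fun _ ⟨ξ, h⟩ => ⟨ξ, h⟩

lemma top_one (j : G.{u}) : Top {j} := ⟨.zero, ⟨j, subset_rfl⟩, fun _ _ => mem_insert_self _ _⟩

def Av : Br.{u} → (G.{u} →₀ ℝ) → Prop
  | .zero, x => ∃ m, x = .single m 1
  | .succ ξ, x => ∃ y z, Av ξ y ∧ Av ξ z ∧ x = (1 / 2 : ℝ) • (y + z)
  | .lim f, x => ∃ k, Av (f k) x ∧ ∀ m ∈ x.support, k ≤ m.2

lemma av_single (ξ : Br.{u}) (m : G.{u}) : Av ξ (.single m 1) := by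
  induction ξ with
  | zero => exact ⟨m, rfl⟩
  | succ ξ ih => exact ⟨_, _, ih, ih, by module⟩
  | lim f ih => exact ⟨0, ih 0, by simp⟩

lemma mid_supp (y z : G.{u} →₀ ℝ) : ((1 / 2 : ℝ) • (y + z)).support ⊆ y.support ∪ z.support :=
  Finsupp.support_smul.trans Finsupp.support_add

lemma Av.fam {ξ : Br.{u}} {x : G.{u} →₀ ℝ} (h : Av ξ x) :
    Fam ξ x.support ∧ x.sum (fun _ a => a) = 1 := by
  induction ξ generalizing x with
  | zero => obtain ⟨m, rfl⟩ := h; exact ⟨⟨m, Finsupp.support_single_subset⟩, by simp⟩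
  | succ ξ ih =>
    obtain ⟨y, z, h1, h2, rfl⟩ := h
    refine ⟨⟨_, _, (ih h1).1, (ih h2).1, mid_supp y z⟩, ?_⟩
    rw [Finsupp.sum_smul_index (by simp), ← Finsupp.mul_sum, Finsupp.sum_add_index' (by simp) (by simp),
      (ih h1).2, (ih h2).2]
    norm_num
  | lim f ih => obtain ⟨k, h1, h2⟩ := h; exact ⟨⟨k, (ih k h1).1, h2⟩, (ih k h1).2⟩

theorem stab (N : (G.{u} →₀ ℝ) → ℝ) (a b : ℝ)
    (h1 : ∀ x, Top x.support → x.sum (fun _ a => a) = 1 → a ≤ N x) (h0 : ∀ x, 0 ≤ N x)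
    (h2 : ∀ m, N (.single m 1) ≤ b) : ∃ L ≥ a, ∃ x : ℕ → G.{u} →₀ ℝ,
      (∀ k, Top (x k).support ∧ (x k).sum (fun _ a => a) = 1 ∧ N (x k) ≤ L + 1 / (k + 1) ∧
        Disjoint (x k).support (x (k + 1)).support) ∧
      ∀ j k, j ≤ k → L - 1 / (j + 1) ≤ N ((1 / 2 : ℝ) • (x j + x k)) := by
  set A : Br.{u} → G.{u} → Set (G.{u} →₀ ℝ) := fun ξ q => {x | Av ξ x ∧ ∀ m ∈ x.support, q ≤ m}
  have hA : ∀ ξ q, Finsupp.single q 1 ∈ A ξ q := fun ξ q =>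
    ⟨av_single ξ q, fun m hm => (mem_singleton.1 (Finsupp.support_single_subset hm)).ge⟩
  set f := fun ξ q => sInf (N '' A ξ q) with hf
  have hne : ∀ ξ q, (N '' A ξ q).Nonempty := fun ξ q => ⟨_, _, hA ξ q, rfl⟩
  have hle : ∀ ξ q, ∀ x ∈ A ξ q, f ξ q ≤ N x := fun ξ q x hx =>
    csInf_le ⟨0, by rintro _ ⟨x, -, rfl⟩; exact h0 x⟩ ⟨x, hx, rfl⟩
  have hφ : ∀ ξ q, f ξ q ≤ ⨆ q, f ξ q := fun ξ q =>
    le_ciSup ⟨b, Set.forall_mem_range.2 fun q => (hle _ _ _ (hA ξ q)).trans (h2 q)⟩ q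
  have hT : ∀ ξ q, ({ξ}, 0) ≤ q → ∀ x ∈ A ξ q, Top x.support := fun ξ q hq x hx =>
    ⟨ξ, hx.1.fam.1, fun m hm => mem_insert_of_mem ((hq.trans (hx.2 m hm)).1 (mem_singleton_self ξ))⟩
  have ha : ∀ ξ, a ≤ ⨆ q, f ξ q := fun ξ => (le_csInf (hne ξ ({ξ}, 0)) (by
    rintro _ ⟨x, hx, rfl⟩; exact h1 x (hT _ _ le_rfl x hx) hx.1.fam.2)).trans (hφ _ _)
  have _ : Nonempty Br.{u} := ⟨.zero⟩
  set L := ⨅ ξ, ⨆ q, f ξ q with hL
  have hp : ∀ k : ℕ, (0 : ℝ) < 1 / (k + 1) := fun k => by positivity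
  choose η hη using fun k : ℕ => exists_lt_of_ciInf_lt (lt_add_of_pos_right L (hp k))
  have h3 : ∀ q, f (.lim η) q ≤ L := fun q => ge_of_tendsto' (by
      simpa using (tendsto_one_div_add_atTop_nhds_zero_nat (𝕜 := ℝ)).const_add L) fun k =>
    (le_csInf (hne (η k) (q ⊔ (∅, k))) (by
      rintro _ ⟨x, hx, rfl⟩
      exact hle _ _ x ⟨⟨k, hx.1, fun m hm => (le_sup_right.trans (hx.2 m hm)).2⟩,
        fun m hm => le_sup_left.trans (hx.2 m hm)⟩)).trans ((hφ _ _).trans (hη k).le)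
  choose q hq using fun k : ℕ => exists_lt_of_lt_ciSup ((sub_lt_self L (hp k)).trans_le
    (ciInf_le ⟨a, Set.forall_mem_range.2 ha⟩ (.succ (.lim η))))
  have h4 : ∀ r (k : ℕ), ∃ x ∈ A (.lim η) r, N x < L + 1 / (k + 1) := fun r k => by
    obtain ⟨_, ⟨x, hx, rfl⟩, h⟩ := exists_lt_of_csInf_lt (hne (.lim η) r)
      ((h3 r).trans_lt (lt_add_of_pos_right L (hp k)))
    exact ⟨x, hx, h⟩
  choose y hy h5 using h4
  let r : ℕ → G.{u} := fun k => Nat.rec (q 0 ⊔ ({.lim η}, 0))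
    (fun k r => r ⊔ q (k + 1) ⊔ (∅, (y r k).support.sup Prod.snd + 1)) k
  have hr : Monotone r := monotone_nat_of_le_succ fun k => le_sup_left.trans le_sup_left
  have hqr : ∀ k, q k ≤ r k := fun k => by
    cases k
    exacts [le_sup_left, le_sup_right.trans le_sup_left]
  refine ⟨L, le_ciInf ha, fun k => y (r k) k, fun k => ⟨hT _ _ (le_sup_right.trans (hr k.zero_le))
    _ (hy _ _), (hy _ _).1.fam.2, (h5 _ _).le, disjoint_left.2 fun m hm hm' => ?_⟩,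
    fun j k hjk => (hq j).le.trans (hle _ _ _ ⟨⟨_, _, (hy _ _).1, (hy _ _).1, rfl⟩, fun m hm => ?_⟩)⟩
  · exact (Nat.lt_succ_of_le (le_sup (f := Prod.snd) hm)).not_ge
      (Nat.le_of_succ_le_succ (Nat.succ_le_succ (le_sup_right.trans ((hy _ _).2 m hm')).2))
  · rcases mem_union.1 (mid_supp _ _ hm) with h | h
    exacts [(hqr j).trans ((hy _ _).2 m h), ((hqr j).trans (hr hjk)).trans ((hy _ _).2 m h)]

instance : Uncountable G.{u} := by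
  have : Function.Injective fun (s : ℕ → Bool) =>
      (({Br.lim fun n => if s n then .zero else .succ .zero}, 0) : G.{u}) := by
    intro s t h
    simp only [Prod.mk.injEq, singleton_inj, Br.lim.injEq, and_true] at h
    funext n
    have := congrFun h n
    cases hs : s n <;> cases ht : t n <;> simp_all
  have _ : Uncountable (ℕ → Bool) := by
    rw [← Cardinal.aleph0_lt_mk_iff]; simp [Cardinal.aleph0_lt_continuum]
  exact this.uncountable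

end Pool.Agent.H87.TwoR
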