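import Pool.Agent.H87.TwoR1

namespace Pool.Agent.H87.TwoR

open Filter Topology Finset Classical
open scoped ENNReal

universe u

def Adm (r : ℝ) (w : G.{u} → ℝ) : Prop := ∃ (σ : G.{u} → ℕ) (t : ℕ → ℝ),
  (∀ s : Finset ℕ, ∑ i ∈ s, t i ^ 2 ≤ r ^ 2) ∧ (∀ m, |w m| ≤ t (σ m)) ∧
    ∀ i (F : Finset G.{u}), (∀ m ∈ F, w m ≠ 0 ∧ σ m = i) → Top F

abbrev W := {w : G.{u} → ℝ // Adm 1 w}

lemma W.bd (w : W.{u}) (j : G.{u}) : |w.1 j| ≤ 1 := by
  obtain ⟨σ, t, h1, h2, -⟩ := w.2
  have := h1 {σ j}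
  rw [sum_singleton] at this
  nlinarith [h2 j]

noncomputable def W.mul (θ : G.{u} → Prop) (w : W.{u}) : W.{u} := ⟨fun j => if θ j then w.1 j else 0, by
  obtain ⟨σ, t, h0, h1, h2⟩ := w.2
  refine ⟨σ, t, h0, fun j => ?_, fun i F h => h2 i F fun m hm => ⟨fun e => (h m hm).1
    (by simp [e]), (h m hm).2⟩⟩
  beta_reduce
  split_ifs
  exacts [h1 j, by simpa using (abs_nonneg _).trans (h1 j)]⟩

noncomputable def W.comb (θ : G.{u} → Prop) (α β : ℝ) (h : α ^ 2 + β ^ 2 ≤ 1) (w v : W.{u}) : W.{u} :=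
  ⟨fun j => if θ j then α * w.1 j else β * v.1 j, by
    obtain ⟨σ, t, h0, h1, h2⟩ := w.2
    obtain ⟨σ', t', h0', h1', h2'⟩ := v.2
    refine ⟨fun j => if θ j then 2 * σ j else 2 * σ' j + 1,
      fun n => if n % 2 = 0 then |α| * t (n / 2) else |β| * t' (n / 2), fun s => ?_, fun j => ?_,
      fun i F hm => ?_⟩
    · have a1 := h0 ((s.filter (· % 2 = 0)).image (· / 2))
      have a2 := h0' ((s.filter (¬ · % 2 = 0)).image (· / 2))
      rw [sum_image fun x hx y hy e => by simp at hx hy e; omega] at a1 a2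
      simp only [ite_pow, sum_ite, mul_pow, sq_abs, ← mul_sum]
      nlinarith [sq_nonneg α, sq_nonneg β]
    · beta_reduce
      by_cases hj : θ j
      · simp only [hj, if_true, Nat.mul_mod_right, abs_mul, Nat.mul_div_cancel_left _ two_pos]
        exact mul_le_mul_of_nonneg_left (h1 j) (abs_nonneg _)
      · simp only [hj, if_false, abs_mul]
        rw [if_neg (by omega), show (2 * σ' j + 1) / 2 = σ' j by omega]
        exact mul_le_mul_of_nonneg_left (h1' j) (abs_nonneg _)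
    · by_cases hi : i % 2 = 0
      · refine h2 (i / 2) F fun m hm' => ?_
        have := hm m hm'
        beta_reduce at this
        split_ifs at this
        exacts [⟨right_ne_zero_of_mul this.1, by omega⟩, by omega]
      · refine h2' (i / 2) F fun m hm' => ?_
        have := hm m hm'
        beta_reduce at this
        split_ifs at this
        exacts [by omega, ⟨right_ne_zero_of_mul this.1, by omega⟩]⟩

noncomputable def sg (F : Finset G.{u}) (hF : Top F) (ε : G.{u} → ℝ) (h : ∀ m, |ε m| ≤ 1) : W.{u} :=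
  ⟨fun m => if m ∈ F then ε m else 0, fun _ => 0, Pi.single 0 1, fun s => by
    simp only [Pi.single_apply, ite_pow, one_pow, ne_eq, OfNat.ofNat_ne_zero, not_false_eq_true,
      zero_pow, sum_ite_eq']
    split_ifs <;> simp, fun m => by
    beta_reduce
    split_ifs
    exacts [by simpa using h m, by simp], fun i E hE => hF.sub fun m hm =>
      by_contra fun h => (hE m hm).1 (if_neg h)⟩

abbrev Y := lp (fun _ : W.{u} => ℝ) ∞

noncomputable def ey (j : G.{u}) : Y.{u} :=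
  ⟨fun w => w.1 j, memℓp_infty ⟨1, by rintro _ ⟨w, rfl⟩; exact w.bd j⟩⟩

def X : Type u := (Submodule.span ℝ (Set.range ey.{u})).topologicalClosure

noncomputable instance : NormedAddCommGroup X.{u} :=
  inferInstanceAs (NormedAddCommGroup (Submodule.span ℝ (Set.range ey.{u})).topologicalClosure)
noncomputable instance : NormedSpace ℝ X.{u} :=
  inferInstanceAs (NormedSpace ℝ (Submodule.span ℝ (Set.range ey.{u})).topologicalClosure)
instance : CompleteSpace X.{u} := (Submodule.isClosed_topologicalClosure _).completeSpace_coe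

noncomputable def e (j : G.{u}) : X.{u} :=
  ⟨ey j, Submodule.le_topologicalClosure _ (Submodule.subset_span ⟨j, rfl⟩)⟩

noncomputable def ev (w : W.{u}) : X.{u} →L[ℝ] ℝ :=
  (lp.evalCLM ℝ (fun _ : W.{u} => ℝ) ∞ w).comp
    (Submodule.span ℝ (Set.range ey)).topologicalClosure.subtypeL

@[simp] lemma ev_e (w : W.{u}) (j : G.{u}) : ev w (e j) = w.1 j := rfl

lemma ev_le (w : W.{u}) (x : X.{u}) : |ev w x| ≤ ‖x‖ := lp.norm_apply_le_norm (by simp) x.1 w

lemma norm_le {x : X.{u}} {M : ℝ} (hM : 0 ≤ M) (h : ∀ w, |ev w x| ≤ M) : ‖x‖ ≤ M :=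
  lp.norm_le_of_forall_le (f := x.1) hM h

noncomputable abbrev L : (G.{u} →₀ ℝ) →ₗ[ℝ] X.{u} := Finsupp.linearCombination ℝ e

lemma dense : DenseRange L.{u} := by
  intro x
  refine closure_subtype.2 (closure_mono ?_ x.2)
  intro y hy
  rw [← Finsupp.range_linearCombination] at hy
  obtain ⟨φ, rfl⟩ := hy
  exact ⟨_, ⟨φ, rfl⟩, Finsupp.apply_linearCombination ℝ (Submodule.subtype _) _ φ⟩

lemma ev_L (w : W.{u}) (f : G.{u} →₀ ℝ) : ev w (L f) = ∑ t ∈ f.support, f t * w.1 t := by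
  simp [Finsupp.linearCombination_apply, Finsupp.sum]

lemma ext_e {V : Type*} [NormedAddCommGroup V] [NormedSpace ℝ V] {f g : X.{u} →L[ℝ] V}
    (h : ∀ j, f (e j) = g (e j)) : f = g :=
  ContinuousLinearMap.ext_on (s := Set.range e) (by
    rw [← Finsupp.range_linearCombination]; exact dense) (by rintro _ ⟨j, rfl⟩; exact h j)

noncomputable def co (j : G.{u}) : X.{u} →L[ℝ] ℝ := ev (sg {j} (top_one j) 1 (by simp))

lemma co_e (j i : G.{u}) : co j (e i) = if i = j then 1 else 0 := by simp [co, sg]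

lemma val_le (f : G.{u} →₀ ℝ) (F : Finset G.{u}) (hF : Top F) : ∑ m ∈ F, |f m| ≤ ‖L f‖ := by
  refine le_trans (le_of_eq ?_) ((le_abs_self _).trans (ev_le (sg F hF (fun m => SignType.sign (f m))
    fun m => by rcases SignType.trichotomy (SignType.sign (f m)) with h | h | h <;> simp [h]) _))
  simp only [ev_L, sg, mul_ite, mul_zero, self_mul_sign, sum_ite_mem]
  exact (sum_subset inter_subset_right fun m h1 h2 => by
    simpa [h1] using h2).symm

lemma adm_le {r : ℝ} (hr : 0 ≤ r) {w : G.{u} → ℝ} (h : Adm r w) (f : G.{u} →₀ ℝ) :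
    |∑ t ∈ f.support, f t * w t| ≤ r * ‖L f‖ := by
  obtain ⟨σ, t, h0, h1, h2⟩ := h
  rcases hr.eq_or_lt with rfl | hr
  · have : ∀ m, w m = 0 := fun m => by
      have := h0 {σ m}
      rw [sum_singleton] at this
      exact abs_nonpos_iff.1 (by nlinarith [h1 m])
    simp [this]
  have := ev_le ⟨fun m => w m / r, σ, fun i => t i / r, fun s => by
    simp only [div_pow, ← sum_div, one_pow]; exact div_le_one_of_le₀ (h0 s) (by positivity),
    fun m => by
      beta_reduce; rw [abs_div, abs_of_pos hr]; exact div_le_div_of_nonneg_right (h1 m) hr.le,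
    fun i F h => h2 i F fun m hm => ⟨fun e => (h m hm).1 (by simp [e]), (h m hm).2⟩⟩ (L f)
  simp only [ev_L, ← mul_div_assoc, ← sum_div, abs_div, abs_of_pos hr] at this
  rwa [div_le_iff₀' hr] at this

lemma step (ψ v : G.{u} →₀ ℝ) (N : ℕ) (η : ℝ) (hη : 0 ≤ η) (h1 : ‖L ψ‖ ≤ √N + N * η)
    (h2 : ‖L v‖ ≤ 1) (h3 : v ∈ Sm Top (η / (ψ.support.card + 1))) :
    ‖L (ψ + v)‖ ≤ √(N + 1 : ℕ) + (N + 1 : ℕ) * η := by
  refine norm_le (by positivity) fun w => ?_
  obtain ⟨σ, t, a0, a1, a2⟩ := w.2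
  set D := ψ.support.image σ with hD
  set τ := ∑ i ∈ D, t i ^ 2 with hτ
  have b0 : 0 ≤ τ := by positivity
  have b1 : τ ≤ 1 := by simpa using a0 D
  have hA : ∀ (p : ℕ → Prop) [DecidablePred p] (r : ℝ), (∀ s : Finset ℕ, ∑ i ∈ s with p i, t i ^ 2 ≤ r) →
      Adm √r fun m => if p (σ m) then w.1 m else 0 := fun p _ r h =>
    ⟨σ, fun i => if p i then t i else 0, fun s => by
      rw [Real.sq_sqrt (by simpa using h ∅)]; simpa [sum_filter] using h s,
      fun m => by beta_reduce; split_ifs; exacts [a1 m, by simp],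
      fun i F h => a2 i F fun m hm => ⟨fun e => (h m hm).1 (by simp [e]), (h m hm).2⟩⟩
  have c1 := adm_le (Real.sqrt_nonneg _) (hA (· ∈ D) τ fun s => sum_le_sum_of_subset_of_nonneg
    (fun i hi => (mem_filter.1 hi).2) fun _ _ _ => sq_nonneg _) ψ
  have c2 := adm_le (Real.sqrt_nonneg _) (hA (· ∉ D) (1 - τ) fun s => by
    have := a0 (D ∪ s.filter (· ∉ D))
    rw [sum_union (disjoint_right.2 fun i hi => (mem_filter.1 hi).2)] at this
    linarith) v
  rw [sum_congr rfl fun m hm => by rw [if_pos (mem_image_of_mem σ hm)], ← ev_L] at c1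
  have c3 : |∑ m ∈ v.support, v m * if σ m ∈ D then w.1 m else 0| ≤ η := by
    simp only [mul_ite, mul_zero]
    rw [← sum_filter, ← sum_filter_of_ne (p := fun m => w.1 m ≠ 0) fun m _ => right_ne_zero_of_mul,
      ← sum_fiberwise_of_maps_to (g := σ) (t := D) fun m hm => (mem_filter.1 (mem_filter.1 hm).1).2]
    refine (abs_sum_le_sum_abs _ _).trans ((sum_le_card_nsmul _ _ (η / (ψ.support.card + 1))
      fun i _ => (abs_sum_le_sum_abs _ _).trans ?_).trans ?_)
    · refine (sum_le_sum (g := fun m => |v m|) fun m _ => ?_).trans ?_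
      · rw [abs_mul]; exact mul_le_of_le_one_right (abs_nonneg _) (w.bd m)
      refine (fun h => h3 _ h h) (a2 i _ fun m hm => ?_)
      exact ⟨(mem_filter.1 (mem_filter.1 hm).1).2, (mem_filter.1 hm).2⟩
    · have : (D.card : ℝ) ≤ ψ.support.card + 1 := by
        exact_mod_cast card_image_le.trans (Nat.le_succ _)
      rw [nsmul_eq_mul, ← mul_div_assoc, div_le_iff₀ (by positivity)]
      nlinarith
  have c4 : ev w (L v) = (∑ m ∈ v.support, v m * if σ m ∈ D then w.1 m else 0) +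
      ∑ m ∈ v.support, v m * if σ m ∉ D then w.1 m else 0 := by
    rw [ev_L, ← sum_add_distrib]
    exact sum_congr rfl fun m _ => by split_ifs <;> simp
  have c5 : √τ * √N + √(1 - τ) ≤ √(N + 1 : ℕ) := Real.le_sqrt_of_sq_le (by
    push_cast
    nlinarith [Real.sq_sqrt b0, Real.sq_sqrt (sub_nonneg.2 b1), Real.sq_sqrt (Nat.cast_nonneg N),
      sq_nonneg (√τ - √(1 - τ) * √N)])
  have c6 : √τ ≤ 1 := Real.sqrt_le_one.2 b1
  rw [map_add, map_add, c4]
  refine (abs_add_le _ _).trans ((add_le_add le_rfl (abs_add_le _ _)).trans ?_)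
  have c7 := mul_le_mul_of_nonneg_left h1 (Real.sqrt_nonneg τ)
  have c8 := mul_le_mul_of_nonneg_left h2 (Real.sqrt_nonneg (1 - τ))
  have c9 : √τ * (N * η) ≤ N * η := mul_le_of_le_one_left (by positivity) c6
  push_cast at c5 ⊢
  linarith [mul_add √τ √N (N * η)]

noncomputable def P (S : Finset G.{u}) : X.{u} →L[ℝ] X.{u} := ∑ j ∈ S, (co j).smulRight (e j)

lemma P_e (S : Finset G.{u}) (i : G.{u}) : P S (e i) = if i ∈ S then e i else 0 := by
  simp [P, co_e]

lemma P_le (S : Finset G.{u}) (x : X.{u}) : ‖P S x‖ ≤ ‖x‖ ∧ ‖x - P S x‖ ≤ ‖x‖ := by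
  have h1 : ∀ w, ev w ∘L P S = ev (w.mul (· ∈ S)) := fun w => ext_e fun i => by
    by_cases h : i ∈ S <;> simp [P_e, W.mul, h]
  have h2 : ∀ w, ev w - ev w ∘L P S = ev (w.mul (· ∉ S)) := fun w => ext_e fun i => by
    by_cases h : i ∈ S <;> simp [P_e, W.mul, h]
  refine ⟨norm_le (norm_nonneg _) fun w => ?_, norm_le (norm_nonneg _) fun w => ?_⟩
  · simpa [← h1] using ev_le (w.mul (· ∈ S)) x
  · simpa [← h2] using ev_le (w.mul (· ∉ S)) x

lemma P_L (S : Finset G.{u}) (φ : G.{u} →₀ ℝ) : L φ - P S (L φ) = L (φ.filter (· ∉ S)) := by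
  induction φ using Finsupp.induction_linear with
  | zero => simp [Finsupp.filter_zero]
  | add φ ψ h1 h2 => rw [Finsupp.filter_add, map_add, map_add, map_add, ← h1, ← h2]; abel
  | single i a => by_cases h : i ∈ S <;> simp [P_e, h]

lemma shrink (g : X.{u} →L[ℝ] ℝ) : Tendsto (fun S => g ∘L P S) atTop (𝓝 g) := by
  refine Metric.tendsto_nhds.2 fun ε hε => ?_
  by_contra! hcon
  set C := {φ : G.{u} →₀ ℝ | ‖L φ‖ ≤ 1 ∧ ε / 2 < g (L φ)}
  have hC : Convex ℝ C := by
    convert ((convex_closedBall (0 : X.{u}) 1).inter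
      ((convex_Ioi (ε / 2)).linear_preimage g.toLinearMap)).linear_preimage L using 1
    ext; simp [C]
  have hCof : Cof C := fun S₀ => by
    obtain ⟨S, hS, h1⟩ := frequently_atTop.1 hcon S₀
    rw [dist_comm, dist_eq_norm] at h1
    obtain ⟨x, h2, h3⟩ := (g - g ∘L P S).exists_lt_apply_of_lt_opNorm ((half_lt_self hε).trans_le h1)
    have h4 : ∃ x : X.{u}, ‖x‖ < 1 ∧ ε / 2 < g (x - P S x) := by
      rcases lt_abs.1 h3 with h | h
      exacts [⟨x, h2, by simpa using h⟩, ⟨-x, by simpa, by simpa [neg_add_eq_sub] using h⟩]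
    obtain ⟨φ, h5, h6⟩ := dense.exists_mem_open (s := {x | ‖x‖ < 1 ∧ ε / 2 < g (x - P S x)})
      ((isOpen_lt continuous_norm continuous_const).inter (isOpen_lt continuous_const
        (g.continuous.comp (continuous_id.sub (P S).continuous)))) h4
    refine ⟨φ.filter (· ∉ S), ⟨?_, by rwa [← P_L]⟩, fun m hm => by simp [hS hm]⟩
    rw [← P_L]
    exact (P_le S _).2.trans (le_of_lt h5)
  have key : ∀ η > 0, ∀ N : ℕ, ∃ ψ : G.{u} →₀ ℝ, ((N : ℝ) + 1)⁻¹ • ψ ∈ C ∧
      ‖L ψ‖ ≤ √(N + 1 : ℕ) + (N + 1 : ℕ) * η := fun η hη N => by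
    induction N with
    | zero =>
      obtain ⟨φ, h, -⟩ := hCof ∅
      exact ⟨φ, by simpa using h, by simpa using h.1.trans (le_add_of_nonneg_right hη.le)⟩
    | succ N ih =>
      obtain ⟨ψ, h1, h2⟩ := ih
      obtain ⟨v, ⟨h3, h4⟩, -⟩ := good_top C hC hCof (fun φ h F _ hF => (val_le φ F hF).trans h.1)
        (η / (ψ.support.card + 1)) (by positivity) ∅
      exact ⟨ψ + v, avg_mem hC h1 h3, step ψ v (N + 1) η hη.le h2 h3.1 h4⟩
  obtain ⟨K, hK⟩ := exists_nat_gt (4 * ‖g‖ / ε)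
  obtain ⟨ψ, ⟨-, h1⟩, h2⟩ := key (1 / (K + 1)) (by positivity) (K ^ 2 + 2 * K)
  have h3 : ((K ^ 2 + 2 * K + 1 : ℕ) : ℝ) = (K + 1) ^ 2 := by push_cast; ring
  rw [h3, Real.sqrt_sq (by positivity), show ((K : ℝ) + 1) ^ 2 * (1 / (K + 1)) = K + 1 by
    field_simp] at h2
  rw [map_smul, map_smul, smul_eq_mul, lt_inv_mul_iff₀ (by positivity)] at h1
  rw [div_lt_iff₀ hε] at hK
  have h4 := (le_abs_self _).trans (g.le_of_opNorm_le_of_le le_rfl h2)
  push_cast at h1
  nlinarith [mul_pos hε (show (0 : ℝ) < K + 1 by positivity), norm_nonneg g, Nat.cast_nonneg (α := ℝ) K]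

lemma sq_add (c : G.{u} → ℝ) {F E : Finset G.{u}} (h : Disjoint F E) :
    ‖∑ j ∈ F, c j • e j‖ ^ 2 + ‖∑ j ∈ E, c j • e j‖ ^ 2 ≤ ‖∑ j ∈ F ∪ E, c j • e j‖ ^ 2 := by
  set x := ∑ j ∈ F, c j • e j with hx
  set y := ∑ j ∈ E, c j • e j with hy
  set N := ‖∑ j ∈ F ∪ E, c j • e j‖ with hN
  have h1 : ∀ w v, ev w x ^ 2 + ev v y ^ 2 ≤ N ^ 2 := by
    intro w v
    set r := √(ev w x ^ 2 + ev v y ^ 2) with hr
    have h2 : r ^ 2 = ev w x ^ 2 + ev v y ^ 2 := Real.sq_sqrt (by positivity)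
    rcases (Real.sqrt_nonneg (ev w x ^ 2 + ev v y ^ 2)).eq_or_lt with h3 | h3
    · rw [← h2, hr, ← h3]; simpa using sq_nonneg N
    have h4 := (le_abs_self _).trans (ev_le (W.comb (· ∈ F) (ev w x / r) (ev v y / r)
      (by rw [div_pow, div_pow, ← add_div, ← h2, div_self (by positivity)]) w v)
      (∑ j ∈ F ∪ E, c j • e j))
    have h5 : ev (W.comb (· ∈ F) (ev w x / r) (ev v y / r)
        (by rw [div_pow, div_pow, ← add_div, ← h2, div_self (by positivity)]) w v)
        (∑ j ∈ F ∪ E, c j • e j) = ev w x / r * ev w x + ev v y / r * ev v y := by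
      conv_rhs => enter [1, 2]; rw [hx]
      conv_rhs => enter [2, 2]; rw [hy]
      simp only [sum_union h, map_add, map_sum, map_smul, ev_e, W.comb, mul_sum]
      congr 1 <;> refine sum_congr rfl fun j hj => ?_
      · simp [hj]; ring
      · simp [disjoint_right.1 h hj]; ring
    have h6 : ev w x / r * ev w x + ev v y / r * ev v y = r := by
      have h7 : r ≠ 0 := h3.ne'
      rw [div_mul_eq_mul_div, div_mul_eq_mul_div, ← add_div, div_eq_iff h7]; linarith
    rw [← h2]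
    exact pow_le_pow_left₀ h3.le (by linarith) 2
  have w0 : W.{u} := sg _ (top_one (∅, 0)) 1 (by simp)
  have h2 : ∀ v, ‖x‖ ^ 2 ≤ N ^ 2 - ev v y ^ 2 := fun v =>
    (Real.le_sqrt (norm_nonneg _) (by nlinarith [h1 v v])).1
      (norm_le (Real.sqrt_nonneg _) fun w => Real.abs_le_sqrt (by linarith [h1 w v]))
  have h3 := (Real.le_sqrt (norm_nonneg y) (by nlinarith [h2 w0])).1
    (norm_le (M := √(N ^ 2 - ‖x‖ ^ 2)) (Real.sqrt_nonneg _) fun v =>
      Real.abs_le_sqrt (by linarith [h2 v]))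
  linarith

lemma summable {c : G.{u} → ℝ} {B : ℝ} (h : ∀ F : Finset G.{u}, ‖∑ j ∈ F, c j • e j‖ ≤ B) :
    Summable fun j => c j • e j := by
  refine summable_iff_vanishing_norm.2 fun ε hε => ?_
  have hb : BddAbove (Set.range fun F : Finset G.{u} => ‖∑ j ∈ F, c j • e j‖ ^ 2) :=
    ⟨B ^ 2, by rintro _ ⟨F, rfl⟩; exact pow_le_pow_left₀ (norm_nonneg _) (h F) 2⟩
  obtain ⟨F, hF⟩ := exists_lt_of_lt_ciSup (f := fun F : Finset G.{u} => ‖∑ j ∈ F, c j • e j‖ ^ 2)
    (sub_lt_self _ (pow_pos hε 2))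
  refine ⟨F, fun E hE => lt_of_pow_lt_pow_left₀ 2 hε.le ?_⟩
  linarith [sq_add c hE.symm, le_ciSup hb (F ∪ E)]

lemma refl : Function.Surjective (NormedSpace.inclusionInDoubleDual ℝ X.{u}) := fun Φ => by
  have h1 : ∀ (g : X.{u} →L[ℝ] ℝ) S, Φ (g ∘L P S) = g (∑ j ∈ S, Φ (co j) • e j) := fun g S => by
    rw [show g ∘L P S = ∑ j ∈ S, g (e j) • co j by ext; simp [P, mul_comm]]
    simp [mul_comm]
  obtain ⟨x, hx⟩ := summable (c := fun j => Φ (co j)) (B := ‖Φ‖) fun S =>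
    norm_le Φ.opNorm_nonneg fun w => by
      rw [← h1]
      simpa using Φ.le_of_opNorm_le_of_le le_rfl (ContinuousLinearMap.opNorm_le_bound (ev w ∘L P S)
        zero_le_one fun y => by simpa using (ev_le w _).trans (P_le S y).1)
  refine ⟨x, ContinuousLinearMap.ext fun g => tendsto_nhds_unique ((g.continuous.tendsto x).comp hx) ?_⟩
  exact ((Φ.continuous.tendsto g).comp (shrink g)).congr (h1 g)

lemma nonsep : ¬ TopologicalSpace.SeparableSpace X.{u} := fun _ =>
  not_countable (α := G.{u}) (Pairwise.countable_of_isOpen_disjoint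
    (s := fun m => Metric.ball (e m) (1 / 2)) (fun i j h => Metric.ball_disjoint_ball (by
      have := ev_le _ (e i - e j) |>.trans_eq' (congrArg abs (rfl : co i (e i - e j) = _)).symm
      simp only [map_sub, co_e, if_true, if_neg h.symm] at this
      rw [dist_eq_norm]
      norm_num at this ⊢
      exact this)) (fun _ => Metric.isOpen_ball) fun _ => by simp)

theorem main (N : X.{u} → ℝ) (h1 : ∀ x y, N (x + y) ≤ N x + N y)
    (h2 : ∀ (c : ℝ) x, N (c • x) = |c| * N x) (a b : ℝ) (ha : 0 < a) (hb : 0 < b)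
    (h3 : ∀ x, a * ‖x‖ ≤ N x ∧ N x ≤ b * ‖x‖) : ∃ s : ℕ → X.{u}, (∀ n, N (s n) = 1) ∧
      Tendsto (fun p : ℕ × ℕ => N (s p.1 + s p.2)) atTop (𝓝 2) ∧ ∀ x, ¬ Tendsto s atTop (𝓝 x) := by
  have h4 : ∀ (F : Finset G.{u}) (hF : Top F) (x : G.{u} →₀ ℝ),
      ev (sg F hF 1 (by simp)) (L x) = ∑ m ∈ x.support ∩ F, x m := fun F hF x => by
    simp [ev_L, sg]
  have h7 : ∀ x : G.{u} →₀ ℝ, Top x.support → x.sum (fun _ a => a) = 1 → a ≤ N (L x) := by
    intro x h h'
    have := (le_abs_self _).trans (ev_le (sg _ h 1 (by simp)) (L x))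
    rw [h4, inter_self] at this
    nlinarith [(h3 (L x)).1, show ∑ m ∈ x.support, x m = 1 from h']
  obtain ⟨M, hM, x, h5, h6⟩ := stab (fun x => N (L x)) a b h7
    (fun x => le_trans (by positivity) (h3 _).1) fun m => by
      have : ‖e m‖ ≤ 1 := norm_le zero_le_one fun w => w.bd m
      simpa using (h3 _).2.trans (mul_le_of_le_one_right hb.le this)
  have hM0 : 0 < M := ha.trans_le hM
  set n := fun k => N (L (x k)) with hn
  have n0 : ∀ k, 0 < n k := fun k => ha.trans_le (h7 _ (h5 k).1 (h5 k).2.1)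
  have n1 : ∀ k : ℕ, |n k - M| ≤ 1 / (k + 1) := fun k => abs_le.2 ⟨by
    have := h6 k k le_rfl
    rw [show (1 / 2 : ℝ) • (x k + x k) = x k by module] at this
    linarith, by linarith [(h5 k).2.2.1]⟩
  set s := fun k => (n k)⁻¹ • L (x k) with hs
  have s1 : ∀ k, N (s k) = 1 := fun k => by
    rw [hs, h2, abs_of_pos (inv_pos.2 (n0 k))]; exact inv_mul_cancel₀ (n0 k).ne'
  have s2 : ∀ k, L (x k) = n k • s k := fun k => (smul_inv_smul₀ (n0 k).ne' _).symm
  have hp : ∀ k : ℕ, (0 : ℝ) < 1 / (k + 1) := fun k => by positivity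
  refine ⟨s, s1, ?_, fun y hy => ?_⟩
  · have t0 := tendsto_one_div_add_atTop_nhds_zero_nat (𝕜 := ℝ)
    have t1 : Tendsto (fun p : ℕ × ℕ => 2 - 3 / M * (1 / ((p.1 : ℝ) + 1) + 1 / (p.2 + 1))) atTop
        (𝓝 2) := by
      rw [← prod_atTop_atTop_eq]
      simpa using (((t0.comp tendsto_fst).add (t0.comp tendsto_snd)).const_mul (3 / M)).const_sub 2
    refine tendsto_of_tendsto_of_tendsto_of_le_of_le t1 tendsto_const_nhds (fun ⟨j, k⟩ => ?_)
      fun p => by linarith [h1 (s p.1) (s p.2), s1 p.1, s1 p.2]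
    have a1 : M - 1 / (j + 1) - 1 / (k + 1) ≤ N (L ((1 / 2 : ℝ) • (x j + x k))) := by
      rcases le_total j k with h | h
      · linarith [h6 j k h, hp k]
      · rw [add_comm (x j)]; linarith [h6 k j h, hp j]
    rw [map_smul, map_add, h2, s2, s2, show n j • s j + n k • s k =
      M • (s j + s k) + ((n j - M) • s j + (n k - M) • s k) by module] at a1
    have a2 := h1 (M • (s j + s k)) ((n j - M) • s j + (n k - M) • s k)
    have a3 := h1 ((n j - M) • s j) ((n k - M) • s k)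
    simp only [h2, s1, abs_of_pos hM0] at a2 a3
    rw [abs_of_pos (by norm_num)] at a1
    refine le_of_mul_le_mul_left ?_ hM0
    simp only [mul_sub, ← mul_assoc, mul_div_cancel₀ _ hM0.ne']
    linarith [n1 j, n1 k]
  · obtain ⟨k, hk⟩ := ((((tendsto_add_atTop_iff_nat 1).2 hy).sub hy).norm.eventually
      (gt_mem_nhds (show ‖y - y‖ < (M + 1)⁻¹ by simp; positivity))).exists
    have a1 := ((le_abs_self _).trans (ev_le (sg _ (h5 (k + 1)).1 1 (by simp)) _)).trans_lt hk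
    simp only [hs, map_sub, map_smul, h4, inter_self, disjoint_iff_inter_eq_empty.1 (h5 k).2.2.2,
      show ∑ m ∈ (x (k + 1)).support, x (k + 1) m = 1 from (h5 _).2.1] at a1
    have a2 : 1 / (((k + 1 : ℕ) : ℝ) + 1) ≤ 1 := div_le_one_of_le₀ (by simp; positivity) (by positivity)
    refine a1.not_ge ?_
    simpa using inv_anti₀ (n0 (k + 1)) (by linarith [(abs_le.1 (n1 (k + 1))).2])

end Pool.Agent.H87.TwoR
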