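import Pool.Agent.H87.VOcDef

set_option autoImplicit false

open Set Filter Topology Pool.Agent.H56.RT

namespace Pool.Agent.H87.VOc

/-- the countable equilateral space -/
def Q : Type := ℕ

instance : DecidableEq Q := inferInstanceAs (DecidableEq ℕ)

noncomputable instance : MetricSpace Q where
  dist x y := if x = y then 0 else 1
  dist_self x := by simp
  dist_comm x y := by simp only [eq_comm]
  dist_triangle x y z := by
    by_cases h1 : x = y
    · subst h1; simp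
    · have : (0 : ℝ) ≤ if y = z then 0 else 1 := by split_ifs <;> norm_num
      have h2 : (if x = z then (0 : ℝ) else 1) ≤ 1 := by split_ifs <;> norm_num
      simp only [if_neg h1]; linarith
  eq_of_dist_eq_zero := by
    intro x y h
    by_contra h2
    simp [h2] at h

def q (n : ℕ) : Q := n

lemma dist_def (x y : Q) : dist x y = if x = y then 0 else 1 := rfl

lemma dist_le (x y : Q) : dist x y ≤ 1 := by
  rw [dist_def]; split_ifs <;> norm_num

abbrev o : Q := q 0

abbrev F := Free o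

noncomputable def vl : F →ₗᵢ[ℝ] StrongDual ℝ (Lip0 o) where
  toFun γ := (show freeSub o from γ).1
  map_add' _ _ := rfl
  map_smul' _ _ := rfl
  norm_map' _ := rfl

noncomputable abbrev δ (x : Q) : F := dF o x

theorem fn_le (g : Lip0 o) (x y : Q) : ‖fn g x - fn g y‖ ≤ ‖g‖ * dist x y := le_lipC g x y

theorem fn_o (g : Lip0 o) : fn g o = 0 := (show lipSub o from g).2.1

theorem vl_δ (x : Q) (g : Lip0 o) : vl (δ x) g = fn g x := rfl

theorem δ_o : δ o = 0 := by
  apply vl.injective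
  rw [map_zero]
  ext g
  exact fn_o g

theorem norm_mol (x y : Q) : ‖δ x - δ y‖ ≤ dist x y := by
  rw [← vl.norm_map, map_sub]
  refine ContinuousLinearMap.opNorm_le_bound _ dist_nonneg fun g => ?_
  rw [mul_comm]
  exact fn_le g x y

theorem vl_le (γ : F) (g : Lip0 o) : |vl γ g| ≤ ‖γ‖ * ‖g‖ := by
  have := (vl γ).le_opNorm g
  rwa [vl.norm_map] at this

theorem dense_span (γ : F) {ε : ℝ} (hε : 0 < ε) :
    ∃ μ ∈ Submodule.span ℝ (range δ), ‖γ - μ‖ < ε := by
  have h : vl γ ∈ closure (Submodule.span ℝ (range (dl o)) : Set _) := (show freeSub o from γ).2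
  obtain ⟨ν, hν, hd⟩ := Metric.mem_closure_iff.1 h ε hε
  have e : range (dl o) = vl.toLinearMap '' range δ := by
    rw [← range_comp]; rfl
  rw [e, Submodule.span_image] at hν
  obtain ⟨μ, hμ, rfl⟩ := hν
  refine ⟨μ, hμ, ?_⟩
  rw [← vl.norm_map, map_sub, ← dist_eq_norm]
  exact hd

lemma osc {f : Q → ℝ} {K : ℝ} (hK : ∀ x y, |f x - f y| ≤ K) (x y : Q) :
    ‖f x - f y‖ ≤ K * dist x y := by
  rw [dist_def]
  split_ifs with h
  · simp [h]
  · simpa using hK x y

def mkL (f : Q → ℝ) (h0 : f o = 0) (K : ℝ) (hK : ∀ x y, |f x - f y| ≤ K) : Lip0 o :=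
  (⟨f, h0, K, osc hK⟩ : lipSub o)

lemma fn_mkL (f : Q → ℝ) (h0 : f o = 0) (K : ℝ) (hK : ∀ x y, |f x - f y| ≤ K) :
    fn (mkL f h0 K hK) = f := rfl

lemma mkL_le (f : Q → ℝ) (h0 : f o = 0) (K : ℝ) (hK : ∀ x y, |f x - f y| ≤ K) :
    ‖mkL f h0 K hK‖ ≤ K :=
  lipC_le ((abs_nonneg _).trans (hK o o)) (osc hK)

lemma ext_le (L : F →L[ℝ] ℝ) {K : ℝ} (hK : ∀ x y, |L (δ x) - L (δ y)| ≤ K) (ν : F) :
    |L ν| ≤ K * ‖ν‖ := by
  set g := mkL (fun x => L (δ x)) (by simp [δ_o]) K hK with hg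
  have hd : Dense (Submodule.span ℝ (range δ) : Set F) := by
    refine Metric.dense_iff.2 fun γ r hr => ?_
    obtain ⟨μ, h1, h2⟩ := dense_span γ hr
    exact ⟨μ, by rw [Metric.mem_ball, dist_comm, dist_eq_norm]; exact h2, h1⟩
  have e : L = (ContinuousLinearMap.apply ℝ ℝ g).comp vl.toContinuousLinearMap := by
    refine ContinuousLinearMap.ext_on hd ?_
    rintro _ ⟨x, rfl⟩
    rfl
  have e2 : L ν = vl ν g := by rw [e]; rfl
  rw [e2, mul_comm]
  exact (vl_le ν g).trans (mul_le_mul_of_nonneg_left (mkL_le _ _ _ _) (norm_nonneg _))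

/-- supported in the first points -/
def Sup (n : ℕ) (μ : F) : Prop := ∀ h : Lip0 o, (∀ m ≤ n, fn h (q m) = 0) → vl μ h = 0

lemma sup_ev {μ : F} (h : μ ∈ Submodule.span ℝ (range δ)) : ∀ᶠ n in atTop, Sup n μ := by
  induction h using Submodule.span_induction with
  | mem x hx =>
    obtain ⟨x, rfl⟩ := hx
    filter_upwards [eventually_ge_atTop (show ℕ from x)] with n hn h hh
    exact hh _ hn
  | zero => exact Eventually.of_forall fun n h _ => by simp
  | add x y _ _ hx hy =>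
    filter_upwards [hx, hy] with n h1 h2 h hh
    simp [h1 h hh, h2 h hh]
  | smul c x _ hx =>
    filter_upwards [hx] with n h1 h hh
    simp [h1 h hh]

lemma key1 {n u v : ℕ} (hu : n < u) (hv : n < v) (huv : u ≠ v) {μ : F} (hμ : Sup n μ) {s : ℝ}
    (g : Lip0 o) (hg : ‖g‖ ≤ 1) : vl μ g + s ≤ ‖μ + s • (δ (q u) - δ (q v))‖ := by
  have h1 : ∀ x y, |fn g x - fn g y| ≤ 1 := fun x y =>
    (fn_le g x y).trans (by nlinarith [dist_le x y, norm_nonneg g, dist_nonneg (x := x) (y := y)])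
  have hb : BddBelow (range (fn g)) := ⟨fn g o - 1, by
    rintro _ ⟨x, rfl⟩
    linarith [(abs_le.1 (h1 o x)).2]⟩
  have : Nonempty Q := ⟨o⟩
  set m := ⨅ x, fn g x with hm
  have h2 : ∀ x, m ≤ fn g x := fun x => ciInf_le hb x
  have h3 : ∀ x, fn g x - 1 ≤ m := fun x => le_ciInf fun y => by
    linarith [(abs_le.1 (h1 x y)).2]
  set f : Q → ℝ := fun x => if x = q u then m + 1 else if x = q v then m else fn g x with hf
  have h4 : ∀ x, m ≤ f x ∧ f x ≤ m + 1 := fun x => by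
    simp only [hf]
    split_ifs
    · constructor <;> linarith
    · constructor <;> linarith
    · constructor <;> linarith [h2 x, h3 x]
  have h5 : ∀ k ≤ n, f (q k) = fn g (q k) := fun k hk => by
    have a1 : q k ≠ q u := fun h => by have : k = u := h; omega
    have a2 : q k ≠ q v := fun h => by have : k = v := h; omega
    simp [hf, a1, a2]
  have h6 : ∀ x y, |f x - f y| ≤ 1 := fun x y => by
    rw [abs_le]; constructor <;> linarith [h4 x, h4 y]
  set g' := mkL f ((h5 0 (Nat.zero_le _)).trans (fn_o g)) 1 h6 with hg'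
  have h7 : vl μ (g' - g) = 0 := hμ _ fun k hk => by
    change f (q k) - fn g (q k) = 0
    rw [h5 k hk, sub_self]
  have h8 : vl μ g' = vl μ g := by rw [map_sub] at h7; linarith
  have a3 : q v ≠ q u := fun h => huv (show v = u from h).symm
  have h9 : vl (μ + s • (δ (q u) - δ (q v))) g' = vl μ g + s := by
    simp only [map_add, map_smul, map_sub, add_apply, smul_apply, sub_apply, vl_δ, h8, smul_eq_mul]
    rw [hg', fn_mkL]
    simp [hf, a3]
  rw [← h9]
  refine (le_abs_self _).trans ((vl_le _ _).trans ?_)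
  exact mul_le_of_le_one_right (norm_nonneg _) (mkL_le _ _ _ _)

lemma key2 {n u v : ℕ} (hu : n < u) (hv : n < v) (huv : u ≠ v) {μ : F} (hμ : Sup n μ) (s : ℝ) :
    ‖μ‖ + s ≤ ‖μ + s • (δ (q u) - δ (q v))‖ := by
  by_contra h
  obtain ⟨g, h1, h2⟩ := (vl μ).exists_lt_apply_of_lt_opNorm
    (r := ‖μ + s • (δ (q u) - δ (q v))‖ - s) (by rw [vl.norm_map]; linarith [not_le.1 h])
  have h3 := key1 hu hv huv hμ (s := s) g h1.le
  have h4 := key1 hu hv huv hμ (s := s) (-g) (by rw [norm_neg]; exact h1.le)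
  rw [map_neg] at h4
  rw [Real.norm_eq_abs, lt_abs] at h2
  rcases h2 with h2 | h2 <;> linarith

lemma key3 {n : ℕ} {μ : F} (hμ : Sup n μ) (l : ℝ) :
    ‖μ‖ + |l| ≤ ‖μ + l • (δ (q (n + 1)) - δ (q (n + 2)))‖ := by
  rcases le_total 0 l with h | h
  · rw [abs_of_nonneg h]; exact key2 (by omega) (by omega) (by omega) hμ l
  · have := key2 (n := n) (u := n + 2) (v := n + 1) (by omega) (by omega) (by omega) hμ (-l)
    rw [abs_of_nonpos h]
    convert this using 3
    rw [neg_smul, ← smul_neg, neg_sub]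

theorem octa_F : Octa F := by
  intro Y hY ε hε
  have hK : IsCompact (Y.subtypeL '' Metric.closedBall 0 1) :=
    (isCompact_closedBall (0 : Y) 1).image Y.subtypeL.continuous
  obtain ⟨t, ht, hc⟩ := Metric.totallyBounded_iff.1 hK.totallyBounded (ε / 4) (by positivity)
  choose μ hμ1 hμ2 using fun γ : F => dense_span γ (show 0 < ε / 4 by positivity)
  obtain ⟨n, hn⟩ := ((eventually_all_finite ht).2 fun y _ => sup_ev (hμ1 y)).exists
  refine ⟨δ (q (n + 1)) - δ (q (n + 2)), le_antisymm ((norm_mol _ _).trans (dist_le _ _)) ?_, ?_⟩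
  · have := key3 (n := n) (μ := 0) (fun h _ => by simp) 1
    simpa using this
  intro y hy l
  obtain ⟨ν, h1, h2⟩ : ∃ ν, Sup n ν ∧ ‖y - ν‖ ≤ ε / 2 * ‖y‖ := by
    by_cases h0 : y = 0
    · exact ⟨0, fun h _ => by simp, by simp [h0]⟩
    have hp : 0 < ‖y‖ := norm_pos_iff.2 h0
    have : ‖y‖⁻¹ • y ∈ Y.subtypeL '' Metric.closedBall 0 1 := by
      refine ⟨⟨_, Y.smul_mem _ hy⟩, ?_, rfl⟩
      rw [mem_closedBall_zero_iff]
      change ‖‖y‖⁻¹ • y‖ ≤ 1
      rw [norm_smul, norm_inv, norm_norm, inv_mul_cancel₀ hp.ne']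
    obtain ⟨w, hw, h3⟩ := mem_iUnion₂.1 (hc this)
    refine ⟨‖y‖ • μ w, fun h hh => by simp [hn w hw h hh], ?_⟩
    have e : y - ‖y‖ • μ w = ‖y‖ • ((‖y‖⁻¹ • y - w) + (w - μ w)) := by
      rw [sub_add_sub_cancel, smul_sub, smul_smul, mul_inv_cancel₀ hp.ne', one_smul]
    rw [e, norm_smul, norm_norm, mul_comm]
    refine mul_le_mul_of_nonneg_right ((norm_add_le _ _).trans ?_) hp.le
    rw [Metric.mem_ball, dist_eq_norm] at h3
    linarith [hμ2 w]
  have h3 := key3 h1 l
  set z := δ (q (n + 1)) - δ (q (n + 2))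
  have h4 : ‖ν + l • z‖ ≤ ‖y + l • z‖ + ‖y - ν‖ := by
    have : ν + l • z = (y + l • z) - (y - ν) := by abel
    rw [this]; exact norm_sub_le _ _
  have h5 : ‖y‖ ≤ ‖ν‖ + ‖y - ν‖ := by
    have := norm_add_le ν (y - ν)
    rwa [add_sub_cancel] at this
  nlinarith [abs_nonneg l]

end Pool.Agent.H87.VOc
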