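import Pool.Agent.H87.VOc1

set_option autoImplicit false

open Set Filter Topology Pool.Agent.H56.RT

namespace Pool.Agent.H87.VOc

variable {X : Type} [NormedAddCommGroup X] [NormedSpace ℝ X]

noncomputable def wl : PT F X →ₗᵢ[ℝ] StrongDual ℝ (Bil F X) where
  toFun w := (show PTs F X from w).1
  map_add' _ _ := rfl
  map_smul' _ _ := rfl
  norm_map' _ := rfl

noncomputable def tens (a : F) (b : X) : PT F X :=
  (⟨ev a b, Submodule.le_topologicalClosure _ (Submodule.subset_span ⟨a, b, rfl⟩)⟩ : PTs F X)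

def bl (G : Bil F X) : F →L[ℝ] X →L[ℝ] ℝ := G

lemma wl_tens (a : F) (b : X) (G : Bil F X) : wl (tens a b) G = bl G a b := rfl

lemma bl_le (G : Bil F X) (a : F) (b : X) : |bl G a b| ≤ ‖G‖ * ‖a‖ * ‖b‖ := (bl G).le_opNorm₂ a b

lemma wl_le (w : PT F X) (G : Bil F X) : |wl w G| ≤ ‖w‖ * ‖G‖ := by
  have := (wl w).le_opNorm G
  rwa [wl.norm_map] at this

lemma norming (w : PT F X) {r : ℝ} (hr : r < ‖w‖) : ∃ G : Bil F X, ‖G‖ ≤ 1 ∧ r < wl w G := by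
  obtain ⟨G, h1, h2⟩ := (wl w).exists_lt_apply_of_lt_opNorm (r := r) (by rwa [wl.norm_map])
  rw [Real.norm_eq_abs, lt_abs] at h2
  rcases h2 with h2 | h2
  · exact ⟨G, h1.le, h2⟩
  · exact ⟨-G, by rw [norm_neg]; exact h1.le, by rwa [map_neg]⟩

noncomputable def yy (ξ : Fin 5 → X) : PT F X := ∑ i : Fin 5, tens (δ (q i)) (ξ i)

lemma yy_apply (ξ : Fin 5 → X) (G : Bil F X) : wl (yy ξ) G = ∑ i : Fin 5, bl G (δ (q i)) (ξ i) := by
  simp only [yy, map_sum, _root_.sum_apply, wl_tens]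

lemma step {ξ : Fin 5 → X} (h1 : ∀ i, ‖ξ i‖ ≤ 1) {G : Bil F X} (hG : ‖G‖ ≤ 1) (x u : Q) (i : Fin 5) :
    bl G (δ x) (ξ i) - bl G (δ u) (ξ i) ≤ dist x u := by
  have e : bl G (δ x) (ξ i) - bl G (δ u) (ξ i) = bl G (δ x - δ u) (ξ i) := by simp
  rw [e]
  refine (le_abs_self _).trans ((bl_le _ _ _).trans ?_)
  calc ‖G‖ * ‖δ x - δ u‖ * ‖ξ i‖ ≤ 1 * dist x u * 1 := by
        gcongr
        · exact norm_mol _ _
        · exact h1 i
    _ = _ := by ring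

lemma yy_le {ξ : Fin 5 → X} (h1 : ∀ i, ‖ξ i‖ ≤ 1) (h2 : ∑ i, ξ i = 0) {G : Bil F X} (hG : ‖G‖ ≤ 1) :
    wl (yy ξ) G ≤ 4 := by
  have e : ∑ i, bl G (δ (q 0)) (ξ i) = 0 := by rw [← map_sum, h2, map_zero]
  rw [yy_apply]
  have a := fun i : Fin 5 => step h1 hG (q i) (q 0) i
  have b := fun i : Fin 5 => (a i).trans (dist_le _ _)
  have a0 := a 0
  rw [show q ((0 : Fin 5) : ℕ) = q 0 from rfl, dist_self] at a0
  simp only [Fin.sum_univ_five] at e ⊢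
  rw [show q ((0 : Fin 5) : ℕ) = q 0 from rfl]
  linarith [b 1, b 2, b 3, b 4]

lemma forced {ξ : Fin 5 → X} (h1 : ∀ i, ‖ξ i‖ ≤ 1) (h2 : ∑ i, ξ i = 0) {G : Bil F X} (hG : ‖G‖ ≤ 1)
    {a : Fin 5 → ℝ} {c : ℝ} (a0 : ∀ i, 0 ≤ a i) (a1 : ∀ i, a i ≤ c) (ν : F) :
    |bl G ν (∑ i, a i • ξ i)| ≤ c * (5 - wl (yy ξ) G) * ‖ν‖ := by
  set lam : Q → Fin 5 → ℝ := fun u i => 1 - (bl G (δ (q i)) (ξ i) - bl G (δ u) (ξ i)) with hl
  have l0 : ∀ u i, 0 ≤ lam u i := fun u i => by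
    simp only [hl]; linarith [step h1 hG (q i) u i, dist_le (q i) u]
  have l1 : ∀ u, ∑ i, lam u i = 5 - wl (yy ξ) G := fun u => by
    have e : ∑ i, bl G (δ u) (ξ i) = 0 := by rw [← map_sum, h2, map_zero]
    simp only [hl, Finset.sum_sub_distrib, e, yy_apply]; simp
  have l2 : ∀ u v, bl G (δ u) (∑ i, a i • ξ i) - bl G (δ v) (∑ i, a i • ξ i) ≤
      c * (5 - wl (yy ξ) G) := fun u v => by
    rw [← l1 u, Finset.mul_sum, map_sum, map_sum, ← Finset.sum_sub_distrib]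
    refine Finset.sum_le_sum fun i _ => ?_
    have e : bl G (δ u) (a i • ξ i) - bl G (δ v) (a i • ξ i) = a i * lam u i - a i * lam v i := by
      simp only [hl, map_smul, smul_eq_mul]; ring
    rw [e]
    nlinarith [mul_nonneg (a0 i) (l0 v i), mul_le_mul_of_nonneg_right (a1 i) (l0 u i)]
  refine ext_le ((bl G).flip (∑ i, a i • ξ i)) (fun u v => ?_) ν
  rw [abs_le]
  constructor
  · have := l2 v u
    simp only [ContinuousLinearMap.flip_apply]; linarith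
  · exact l2 u v

lemma yy_ge {ξ : Fin 5 → X} (h2 : ∑ i, ξ i = 0) (v : Fin 5 → X →ₗ[ℝ] ℝ)
    (hv : ∀ i j x, |v i x - v j x| ≤ ‖x‖) (hs : ∑ i, v i (ξ i) = 4) : 4 ≤ ‖yy ξ‖ := by
  let r : Q → Fin 5 := fun m => ⟨(show ℕ from m) % 5, Nat.mod_lt _ (by norm_num)⟩
  have hr : ∀ i : Fin 5, r (q i) = i := fun i => Fin.ext (Nat.mod_eq_of_lt i.2)
  let T : X → Lip0 o := fun x => mkL (fun m => v (r m) x - v (r o) x) (sub_self _) ‖x‖
    fun a b => by rw [sub_sub_sub_cancel_right]; exact hv _ _ _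
  have T1 : ∀ x y, T (x + y) = T x + T y := fun x y => Subtype.ext (funext fun m => by
    change v (r m) (x + y) - v (r o) (x + y) = (v (r m) x - v (r o) x) + (v (r m) y - v (r o) y)
    simp only [map_add]; ring)
  have T2 : ∀ (c : ℝ) x, T (c • x) = c • T x := fun c x => Subtype.ext (funext fun m => by
    change v (r m) (c • x) - v (r o) (c • x) = c • (v (r m) x - v (r o) x)
    simp only [map_smul, smul_eq_mul]; ring)
  have T3 : ∀ x, ‖T x‖ ≤ ‖x‖ := fun x => mkL_le _ _ _ _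
  let G0 : F →ₗ[ℝ] X →ₗ[ℝ] ℝ := LinearMap.mk₂ ℝ (fun ν x => vl ν (T x)) (by simp) (by simp)
    (by simp [T1]) (by simp [T2])
  have hb : ∀ ν x, ‖G0 ν x‖ ≤ 1 * ‖ν‖ * ‖x‖ := fun ν x => by
    rw [one_mul]
    exact (vl_le ν (T x)).trans (mul_le_mul_of_nonneg_left (T3 x) (norm_nonneg _))
  let G : Bil F X := G0.mkContinuous₂ 1 hb
  have hG : ‖G‖ ≤ 1 := G0.mkContinuous₂_norm_le zero_le_one hb
  have e : wl (yy ξ) G = 4 := by
    rw [yy_apply]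
    have e1 : ∀ i : Fin 5, bl G (δ (q i)) (ξ i) = v i (ξ i) - v (r o) (ξ i) := fun i => by
      change v (r (q i)) (ξ i) - v (r o) (ξ i) = _
      rw [hr]
    simp only [e1, Finset.sum_sub_distrib, hs]
    rw [← map_sum, h2, map_zero, sub_zero]
  have := wl_le (yy ξ) G
  rw [e] at this
  have h3 := mul_le_of_le_one_right (norm_nonneg (yy ξ)) hG
  have h4 := le_abs_self (4 : ℝ)
  linarith

theorem not_octa {ξ ξ' : Fin 5 → X} (h1 : ∀ i, ‖ξ i‖ ≤ 1) (h2 : ∑ i, ξ i = 0)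
    (h1' : ∀ i, ‖ξ' i‖ ≤ 1) (h2' : ∑ i, ξ' i = 0) (hy : 4 ≤ ‖yy ξ‖) (hy' : 4 ≤ ‖yy ξ'‖)
    (c1 : ∀ j, ∃ a : Fin 5 → ℝ, (∀ i, 0 ≤ a i) ∧ (∀ i, a i ≤ 9 / 10) ∧ ξ' j = ∑ i, a i • ξ i)
    (c2 : ∀ j, ∃ a : Fin 5 → ℝ, (∀ i, 0 ≤ a i) ∧ (∀ i, a i ≤ 9 / 10) ∧ ξ j = ∑ i, a i • ξ' i)
    (hull : ∀ (g : X →ₗ[ℝ] ℝ) (c : ℝ), (∀ i, |g (ξ i)| ≤ c) → (∀ i, |g (ξ' i)| ≤ c) →
      ∀ x, |g x| ≤ c * ‖x‖) : ¬ Octa (PT F X) := by
  intro h
  obtain ⟨z, z1, hz⟩ := h (Submodule.span ℝ {yy ξ, yy ξ'})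
    (FiniteDimensional.span_of_finite ℝ (Set.toFinite _)) (1 / 200) (by norm_num)
  have a1 := hz (yy ξ) (Submodule.subset_span (by simp)) 1
  have a2 := hz (yy ξ') (Submodule.subset_span (by simp)) 1
  rw [one_smul, abs_one] at a1 a2
  obtain ⟨G, G1, G2⟩ := norming (yy ξ + z) (r := 5 - 6 / 200) (by linarith)
  obtain ⟨H, H1, H2⟩ := norming (yy ξ' + z) (r := 5 - 6 / 200) (by linarith)
  simp only [map_add, add_apply] at G2 H2
  have b1 := yy_le h1 h2 G1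
  have b2 := yy_le h1' h2' H1
  have b3 : ∀ G : Bil F X, ‖G‖ ≤ 1 → wl z G ≤ 1 := fun G hG => by
    have := wl_le z G
    rw [z1, one_mul] at this
    linarith [le_abs_self (wl z G)]
  have b4 := b3 G G1
  have b5 := b3 H H1
  have b6 : ∀ (G : Bil F X) ν (x : X), ‖G‖ ≤ 1 → ‖x‖ ≤ 1 → |bl G ν x| ≤ ‖ν‖ := fun G ν x h3 h4 => by
    refine (bl_le G ν x).trans ?_
    calc ‖G‖ * ‖ν‖ * ‖x‖ ≤ 1 * ‖ν‖ * 1 := by gcongr
      _ = _ := by ring
  have k : ‖G + H‖ ≤ 193 / 100 := by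
    refine ContinuousLinearMap.opNorm_le_bound₂ (bl (G + H)) (by norm_num) fun ν x => ?_
    refine hull (bl (G + H) ν : X →L[ℝ] ℝ).toLinearMap (193 / 100 * ‖ν‖) (fun j => ?_) (fun j => ?_) x
    · obtain ⟨a, a0, a1, e⟩ := c2 j
      have f := forced h1' h2' H1 a0 a1 ν
      rw [← e] at f
      have f2 := b6 G ν _ G1 (h1 j)
      change |bl G ν (ξ j) + bl H ν (ξ j)| ≤ _
      refine (abs_add_le _ _).trans ?_
      have f3 : 9 / 10 * (5 - wl (yy ξ') H) * ‖ν‖ ≤ 93 / 100 * ‖ν‖ :=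
        mul_le_mul_of_nonneg_right (by linarith) (norm_nonneg _)
      linarith
    · obtain ⟨a, a0, a1, e⟩ := c1 j
      have f := forced h1 h2 G1 a0 a1 ν
      rw [← e] at f
      have f2 := b6 H ν _ H1 (h1' j)
      change |bl G ν (ξ' j) + bl H ν (ξ' j)| ≤ _
      refine (abs_add_le _ _).trans ?_
      have f3 : 9 / 10 * (5 - wl (yy ξ) G) * ‖ν‖ ≤ 93 / 100 * ‖ν‖ :=
        mul_le_mul_of_nonneg_right (by linarith) (norm_nonneg _)
      linarith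
  have k2 := wl_le z (G + H)
  rw [z1, one_mul, map_add] at k2
  linarith [le_abs_self (wl z G + wl z H)]

end Pool.Agent.H87.VOc
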