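import Pool.Agent.H87.VOc2

set_option autoImplicit false

open Set Filter Topology Pool.Agent.H56.RT

namespace Pool.Agent.H87.VOc

def Cm : Fin 5 → Fin 5 → ℝ :=
  ![![0, 1, -1, -1, 1], ![1, 0, 1, -1, -1], ![-1, 1, 0, 1, -1], ![-1, -1, 1, 0, 1], ![1, -1, -1, 1, 0]]

abbrev I := Fin 5 ⊕ Fin 5

noncomputable def Vv : I → Fin 5 → ℝ
  | .inl i, k => (if i = k then 1 else 0) - 1 / 5
  | .inr j, k => 9 / 20 * Cm k j

abbrev L1 := PiLp 1 (fun _ : I => ℝ)

noncomputable def Lm : L1 →ₗ[ℝ] (Fin 5 → ℝ) where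
  toFun a k := ∑ p, a p * Vv p k
  map_add' a b := by
    ext k; simp [add_mul, Finset.sum_add_distrib]
  map_smul' c a := by
    ext k; simp [Finset.mul_sum, mul_assoc, mul_add]

instance : IsClosed (LinearMap.ker Lm : Set L1) := Submodule.closed_of_finiteDimensional _

abbrev XX := L1 ⧸ LinearMap.ker Lm

noncomputable def io : XX →ₗ[ℝ] (Fin 5 → ℝ) := (LinearMap.ker Lm).liftQ Lm le_rfl

lemma io_inj : Function.Injective io :=
  LinearMap.ker_eq_bot.1 (Submodule.ker_liftQ_eq_bot _ _ _ le_rfl)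

noncomputable def xi (p : I) : XX := Submodule.Quotient.mk (PiLp.single 1 p (1 : ℝ))

lemma io_xi (p : I) (k : Fin 5) : io (xi p) k = Vv p k := by
  change ∑ r, (PiLp.single 1 p (1 : ℝ) : L1) r * Vv r k = _
  rw [Finset.sum_eq_single p]
  · simp
  · intro r _ h; simp [h]
  · simp

lemma xi_le (p : I) : ‖xi p‖ ≤ 1 :=
  (Submodule.Quotient.norm_mk_le _ _).trans (by simp)

lemma mk_eq (a : L1) : (Submodule.Quotient.mk a : XX) = ∑ p, a p • xi p := by
  apply io_inj
  ext k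
  simp only [map_sum, map_smul, Finset.sum_apply, Pi.smul_apply, io_xi, smul_eq_mul]
  rfl

lemma hull0 (g : XX →ₗ[ℝ] ℝ) (c : ℝ) (h : ∀ p, |g (xi p)| ≤ c) (x : XX) : |g x| ≤ c * ‖x‖ := by
  have c0 : 0 ≤ c := (abs_nonneg _).trans (h (.inl 0))
  refine le_of_forall_pos_le_add fun ε hε => ?_
  obtain ⟨a, rfl, h2⟩ := Submodule.Quotient.norm_mk_lt x (show 0 < ε / (c + 1) by positivity)
  have h3 : |g (Submodule.Quotient.mk a)| ≤ c * ‖a‖ := by
    rw [mk_eq, map_sum, PiLp.norm_eq_of_L1, Finset.mul_sum]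
    refine (Finset.abs_sum_le_sum_abs _ _).trans (Finset.sum_le_sum fun p _ => ?_)
    rw [map_smul, smul_eq_mul, abs_mul, mul_comm]
    exact mul_le_mul_of_nonneg_right (h p) (abs_nonneg _)
  have h4 : c * (ε / (c + 1)) ≤ ε := by
    rw [← mul_div_assoc, div_le_iff₀ (by positivity)]; nlinarith
  have h5 := mul_le_mul_of_nonneg_left h2.le c0
  rw [mul_add] at h5
  linarith

noncomputable def v1 (k : Fin 5) : XX →ₗ[ℝ] ℝ := (LinearMap.proj k).comp io

noncomputable def v2 (k : Fin 5) : XX →ₗ[ℝ] ℝ := ∑ l, (4 / 9 * Cm k l) • v1 l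

lemma v1_xi (k : Fin 5) (p : I) : v1 k (xi p) = Vv p k := io_xi p k

lemma v2_l (k i : Fin 5) : v2 k (xi (.inl i)) = 4 / 9 * Cm k i := by
  simp only [v2, LinearMap.sum_apply, LinearMap.smul_apply, v1_xi, smul_eq_mul]
  simp only [Fin.sum_univ_five]
  fin_cases k <;> fin_cases i <;> simp [Vv, Cm] <;> norm_num

lemma v2_r (k i : Fin 5) : v2 k (xi (.inr i)) = (if i = k then 1 else 0) - 1 / 5 := by
  simp only [v2, LinearMap.sum_apply, LinearMap.smul_apply, v1_xi, smul_eq_mul]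
  simp only [Fin.sum_univ_five]
  fin_cases k <;> fin_cases i <;> simp [Vv, Cm] <;> norm_num

lemma Cm_le (k i : Fin 5) : -1 ≤ Cm k i ∧ Cm k i ≤ 1 := by
  fin_cases k <;> fin_cases i <;> simp [Cm]

lemma ite_le (i k : Fin 5) :
    0 ≤ (if i = k then (1 : ℝ) else 0) ∧ (if i = k then (1 : ℝ) else 0) ≤ 1 := by
  split_ifs <;> norm_num

lemma s1 : ∑ i, xi (.inl i) = 0 := by
  apply io_inj
  ext k
  simp only [map_sum, Finset.sum_apply, io_xi, map_zero]
  simp only [Fin.sum_univ_five]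
  fin_cases k <;> simp [Vv] <;> norm_num

lemma s2 : ∑ i, xi (.inr i) = 0 := by
  apply io_inj
  ext k
  simp only [map_sum, Finset.sum_apply, io_xi, map_zero]
  simp only [Fin.sum_univ_five]
  fin_cases k <;> simp [Vv, Cm]

lemma r1 (j : Fin 5) : xi (.inr j) = ∑ i, (9 / 20 * (Cm i j + 1)) • xi (.inl i) := by
  apply io_inj
  ext k
  simp only [map_sum, map_smul, Finset.sum_apply, Pi.smul_apply, io_xi, smul_eq_mul]
  simp only [Fin.sum_univ_five]
  fin_cases k <;> fin_cases j <;> simp [Vv, Cm] <;> norm_num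

lemma r2 (j : Fin 5) : xi (.inl j) = ∑ i, (4 / 9 * (Cm i j + 1)) • xi (.inr i) := by
  apply io_inj
  ext k
  simp only [map_sum, map_smul, Finset.sum_apply, Pi.smul_apply, io_xi, smul_eq_mul]
  simp only [Fin.sum_univ_five]
  fin_cases k <;> fin_cases j <;> simp [Vv, Cm] <;> norm_num

theorem main : ¬ Octa (PT F XX) := by
  refine not_octa (ξ := fun i => xi (.inl i)) (ξ' := fun i => xi (.inr i)) (fun _ => xi_le _) s1
    (fun _ => xi_le _) s2 (yy_ge s1 v1 (fun i j x => ?_) ?_) (yy_ge s2 v2 (fun i j x => ?_) ?_)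
    (fun j => ⟨_, fun i => ?_, fun i => ?_, r1 j⟩) (fun j => ⟨_, fun i => ?_, fun i => ?_, r2 j⟩)
    fun g c h1 h2 => hull0 g c ?_
  · have := hull0 (v1 i - v1 j) 1 ?_ x
    · simpa using this
    rintro (p | p) <;> simp only [LinearMap.sub_apply, v1_xi, Vv] <;> rw [abs_le]
    · constructor <;> linarith [ite_le p i, ite_le p j]
    · constructor <;> linarith [Cm_le i p, Cm_le j p]
  · simp [v1_xi, Vv]; norm_num
  · have := hull0 (v2 i - v2 j) 1 ?_ x
    · simpa using this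
    rintro (p | p) <;> simp only [LinearMap.sub_apply, v2_l, v2_r] <;> rw [abs_le]
    · constructor <;> linarith [Cm_le i p, Cm_le j p]
    · constructor <;> linarith [ite_le p i, ite_le p j]
  · simp [v2_r]; norm_num
  · linarith [Cm_le i j]
  · linarith [Cm_le i j]
  · linarith [Cm_le i j]
  · linarith [Cm_le i j]
  · rintro (p | p)
    · exact h1 p
    · exact h2 p

lemma nontriv : Nontrivial XX := ⟨xi (.inl 0), 0, fun h => by
  have := io_xi (.inl 0) 0
  rw [h] at this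
  simp [Vv] at this
  norm_num at this⟩

end Pool.Agent.H87.VOc
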