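import Pool.Agent.H87.VOc3

set_option autoImplicit false

open Set Filter Topology Pool.Agent.H56.RT

namespace Pool.Agent.H87.VOc

/-- A map of two variables that is linear in each. -/
def IsBilin {A B E : Type} [AddCommGroup A] [Module ℝ A] [AddCommGroup B] [Module ℝ B]
    [AddCommGroup E] [Module ℝ E] (t : A → B → E) : Prop :=
  (∀ a, IsLinearMap ℝ (t a)) ∧ ∀ b, IsLinearMap ℝ (fun a => t a b)

/-- The Banach space `E` with the map `t` is the completed projective tensor product of `A` and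
`B`: elementary tensors have norm at most `‖a‖‖b‖` and span a dense subspace, and every bilinear
form of norm at most one on `A × B` comes from a functional of norm at most one on `E`. -/
def IsProjTensor {A B E : Type} [NormedAddCommGroup A] [NormedSpace ℝ A] [NormedAddCommGroup B]
    [NormedSpace ℝ B] [NormedAddCommGroup E] [NormedSpace ℝ E] (t : A → B → E) : Prop :=
  CompleteSpace E ∧ IsBilin t ∧ (∀ a b, ‖t a b‖ ≤ ‖a‖ * ‖b‖) ∧
    Dense (Submodule.span ℝ {z | ∃ a b, z = t a b} : Set E) ∧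
    ∀ β : A → B → ℝ, IsBilin β → (∀ a b, ‖β a b‖ ≤ ‖a‖ * ‖b‖) →
      ∃ φ : E → ℝ, IsLinearMap ℝ φ ∧ (∀ x, ‖φ x‖ ≤ ‖x‖) ∧ ∀ a b, φ (t a b) = β a b

variable {X : Type} [NormedAddCommGroup X] [NormedSpace ℝ X]

lemma isProj : IsProjTensor (tens : F → X → PT F X) := by
  refine ⟨(Submodule.isClosed_topologicalClosure _).completeSpace_coe,
    ⟨fun a => ⟨?_, ?_⟩, fun b => ⟨?_, ?_⟩⟩, ?_, ?_, ?_⟩
  · intro x y
    apply wl.injective; ext G; simp [wl_tens]
  · intro c x
    apply wl.injective; ext G; simp [wl_tens]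
  · intro x y
    apply wl.injective; ext G; simp [wl_tens]
  · intro c x
    apply wl.injective; ext G; simp [wl_tens]
  · intro a b
    rw [← wl.norm_map]
    refine ContinuousLinearMap.opNorm_le_bound _ (by positivity) fun G => ?_
    rw [wl_tens]
    refine (bl_le G a b).trans (le_of_eq ?_)
    ring
  · refine Metric.dense_iff.2 fun γ r hr => ?_
    have h : wl γ ∈ closure (Submodule.span ℝ {z | ∃ (a : F) (b : X), z = ev a b} : Set _) :=
      (show PTs F X from γ).2
    obtain ⟨ν, hν, hd⟩ := Metric.mem_closure_iff.1 h r hr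
    have e : {z | ∃ (a : F) (b : X), z = ev a b} =
        wl.toLinearMap '' {z : PT F X | ∃ a b, z = tens a b} := by
      ext z
      constructor
      · rintro ⟨a, b, rfl⟩; exact ⟨_, ⟨a, b, rfl⟩, rfl⟩
      · rintro ⟨_, ⟨a, b, rfl⟩, rfl⟩; exact ⟨a, b, rfl⟩
    rw [e, Submodule.span_image] at hν
    obtain ⟨μ, hμ, rfl⟩ := hν
    refine ⟨μ, ?_, hμ⟩
    rw [Metric.mem_ball, dist_comm, ← wl.isometry.dist_eq]
    exact hd
  · intro β hβ hn
    let β0 : F →ₗ[ℝ] X →ₗ[ℝ] ℝ := LinearMap.mk₂ ℝ β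
      (fun a b c => (hβ.2 c).1 a b) (fun t a b => (hβ.2 b).2 t a)
      (fun a b c => (hβ.1 a).1 b c) (fun t a b => (hβ.1 a).2 t b)
    have hb : ∀ a b, ‖β0 a b‖ ≤ 1 * ‖a‖ * ‖b‖ := fun a b => by rw [one_mul]; exact hn a b
    let G : Bil F X := β0.mkContinuous₂ 1 hb
    have hG : ‖G‖ ≤ 1 := β0.mkContinuous₂_norm_le zero_le_one hb
    exact ⟨fun x => wl x G, ⟨fun x y => by simp, fun c x => by simp⟩,
      fun x => (wl_le x G).trans (mul_le_of_le_one_right (norm_nonneg _) hG), fun a b => rfl⟩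

end Pool.Agent.H87.VOc
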