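import Pool.Agent.H56.RTDef

set_option autoImplicit false

namespace Pool.Agent.H87.VOc

variable (A B : Type) [NormedAddCommGroup A] [NormedSpace ℝ A] [NormedAddCommGroup B]
  [NormedSpace ℝ B]

/-- Bounded bilinear forms on `A × B` with the operator norm. -/
def Bil : Type := A →L[ℝ] B →L[ℝ] ℝ

noncomputable instance : NormedAddCommGroup (Bil A B) :=
  inferInstanceAs (NormedAddCommGroup (A →L[ℝ] B →L[ℝ] ℝ))

noncomputable instance : NormedSpace ℝ (Bil A B) :=
  inferInstanceAs (NormedSpace ℝ (A →L[ℝ] B →L[ℝ] ℝ))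

variable {A B} in
/-- Evaluation of bounded bilinear forms at a pair of points. -/
noncomputable def ev (a : A) (b : B) : StrongDual ℝ (Bil A B) :=
  (ContinuousLinearMap.apply ℝ ℝ b).comp (ContinuousLinearMap.apply ℝ (B →L[ℝ] ℝ) a)

/-- The closed linear span of the evaluations in the dual of the bounded bilinear forms. -/
noncomputable def PTs : Submodule ℝ (StrongDual ℝ (Bil A B)) :=
  (Submodule.span ℝ {z | ∃ (a : A) (b : B), z = ev a b}).topologicalClosure

/-- The completed projective tensor product of `A` and `B`. -/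
def PT : Type := PTs A B

noncomputable instance : NormedAddCommGroup (PT A B) := (PTs A B).normedAddCommGroup

noncomputable instance : NormedSpace ℝ (PT A B) := (PTs A B).normedSpace

/-- The norm of `A` is octahedral. -/
def Octa : Prop :=
  ∀ Y : Submodule ℝ A, FiniteDimensional ℝ Y → ∀ ε > (0 : ℝ), ∃ z : A, ‖z‖ = 1 ∧
    ∀ y ∈ Y, ∀ l : ℝ, (1 - ε) * (‖y‖ + |l|) ≤ ‖y + l • z‖

end Pool.Agent.H87.VOc
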