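import Mathlib

namespace Pool.Agent.H87.WCR

open Filter Topology

abbrev I := Option (ℕ × ℕ)
abbrev V₀ := I →₀ ℝ

def Adm (N : ℕ) (A : Finset (ℕ × ℕ)) : Prop :=
  (∀ p ∈ A, N ≤ p.1 ∧ N ≤ p.2) ∧
    ∀ p ∈ A, ∀ q ∈ A, p ≠ q → max p.1 p.2 < min q.1 q.2 ∨ max q.1 q.2 < min p.1 p.2

lemma Adm.empty (N : ℕ) : Adm N ∅ := ⟨by simp, by simp⟩

lemma Adm.single {N : ℕ} {p : ℕ × ℕ} (h : N ≤ p.1 ∧ N ≤ p.2) : Adm N {p} :=
  ⟨by simpa using h, by simp⟩

lemma Adm.sub {N M : ℕ} {A B : Finset (ℕ × ℕ)} (h : Adm N A) (hB : B ⊆ A)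
    (hM : ∀ p ∈ B, M ≤ p.1 ∧ M ≤ p.2) : Adm M B :=
  ⟨hM, fun p hp q hq => h.2 p (hB hp) q (hB hq)⟩

instance (N : ℕ) : Nonempty {A // Adm N A} := ⟨⟨∅, Adm.empty N⟩⟩

noncomputable def S (A : Finset (ℕ × ℕ)) (x : V₀) : ℝ := ∑ p ∈ A, x (some p) ^ 2

lemma S_nonneg (A : Finset (ℕ × ℕ)) (x : V₀) : 0 ≤ S A x :=
  Finset.sum_nonneg fun _ _ => sq_nonneg _

lemma sqrt_S_add (A : Finset (ℕ × ℕ)) (x y : V₀) : √(S A (x + y)) ≤ √(S A x) + √(S A y) := by
  have h := norm_add_le (WithLp.toLp 2 fun p : A => x (some p)) (WithLp.toLp 2 fun p : A => y (some p))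
  simp only [EuclideanSpace.norm_eq, Real.norm_eq_abs, sq_abs, PiLp.add_apply] at h
  simp only [S, Finsupp.add_apply]
  rw [← Finset.sum_coe_sort A, ← Finset.sum_coe_sort A, ← Finset.sum_coe_sort A]
  exact h

lemma S_bdd (x : V₀) : ∃ C, ∀ A, S A x ≤ C := by
  classical
  refine ⟨∑ i ∈ x.support, x i ^ 2, fun A => ?_⟩
  have : S A x = ∑ i ∈ A.map ⟨some, Option.some_injective _⟩, x i ^ 2 := by simp [S]
  rw [this, ← Finset.sum_filter_add_sum_filter_not _ (fun i => i ∈ x.support)]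
  rw [Finset.sum_eq_zero (s := Finset.filter (fun i => ¬ i ∈ x.support) _) (fun i hi => by
    have := (Finset.mem_filter.1 hi).2
    rw [Finsupp.notMem_support_iff.1 this]; simp), add_zero]
  exact Finset.sum_le_sum_of_subset_of_nonneg (fun i hi => (Finset.mem_filter.1 hi).2)
    fun _ _ _ => sq_nonneg _

noncomputable def t (N : ℕ) (x : V₀) : ℝ := ⨆ A : {A // Adm N A}, √(S A x)

lemma le_t {N : ℕ} {A : Finset (ℕ × ℕ)} (h : Adm N A) (x : V₀) : √(S A x) ≤ t N x := by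
  obtain ⟨C, hC⟩ := S_bdd x
  exact le_ciSup (f := fun A : {A // Adm N A} => √(S A x))
    ⟨√C, by rintro _ ⟨A, rfl⟩; exact Real.sqrt_le_sqrt (hC A)⟩ ⟨A, h⟩

lemma t_nonneg (N : ℕ) (x : V₀) : 0 ≤ t N x := (Real.sqrt_nonneg _).trans (le_t (Adm.empty N) x)

lemma S_le {N : ℕ} {A : Finset (ℕ × ℕ)} (h : Adm N A) (x : V₀) : S A x ≤ t N x ^ 2 := by
  rw [← Real.sq_sqrt (S_nonneg A x)]
  exact pow_le_pow_left₀ (Real.sqrt_nonneg _) (le_t h x) 2

lemma t_le {N : ℕ} {x : V₀} {C : ℝ} (hC : 0 ≤ C) (h : ∀ A, Adm N A → S A x ≤ C ^ 2) :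
    t N x ≤ C := ciSup_le fun A => Real.sqrt_le_iff.2 ⟨hC, h A A.2⟩

lemma t_add (N : ℕ) (x y : V₀) : t N (x + y) ≤ t N x + t N y :=
  ciSup_le fun A => (sqrt_S_add A x y).trans (add_le_add (le_t A.2 x) (le_t A.2 y))

lemma t_mono {N : ℕ} {x y : V₀} {c : ℝ} (hc : 0 ≤ c) (h : ∀ i, |x i| ≤ c * |y i|) :
    t N x ≤ c * t N y := by
  refine t_le (mul_nonneg hc (t_nonneg _ _)) fun A hA => ?_
  rw [mul_pow]
  refine le_trans ?_ (mul_le_mul_of_nonneg_left (S_le hA y) (sq_nonneg c))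
  rw [S, S, Finset.mul_sum]
  refine Finset.sum_le_sum fun p _ => ?_
  have := pow_le_pow_left₀ (abs_nonneg _) (h (some p)) 2
  rwa [mul_pow, sq_abs, sq_abs] at this

lemma t_anti {N M : ℕ} (h : N ≤ M) (x : V₀) : t M x ≤ t N x :=
  t_le (t_nonneg _ _) fun A hA => S_le (hA.sub subset_rfl fun p hp =>
    ⟨h.trans (hA.1 p hp).1, h.trans (hA.1 p hp).2⟩) x

lemma coord_le_t {N : ℕ} {p : ℕ × ℕ} (h : N ≤ p.1 ∧ N ≤ p.2) (x : V₀) :
    |x (some p)| ≤ t N x := by
  have := le_t (Adm.single h) x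
  simpa [S, Real.sqrt_sq_eq_abs] using this

lemma exists_near (N : ℕ) (x : V₀) {ε : ℝ} (hε : 0 < ε) :
    ∃ A, Adm N A ∧ t N x ^ 2 - ε < S A x := by
  by_contra hcon
  push Not at hcon
  have h0 : 0 ≤ t N x ^ 2 - ε := by simpa [S] using hcon ∅ (Adm.empty N)
  have := t_le (Real.sqrt_nonneg (t N x ^ 2 - ε)) (N := N) (x := x)
    fun A hA => by rw [Real.sq_sqrt h0]; exact hcon A hA
  have h2 := pow_le_pow_left₀ (t_nonneg _ _) this 2
  rw [Real.sq_sqrt h0] at h2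
  linarith

noncomputable def g (k : ℕ) : I := (Denumerable.eqv I).symm (Nat.unpair k).1

lemma g_freq (i : I) (N : ℕ) : ∃ k, N ≤ k ∧ g k = i :=
  ⟨Nat.pair (Denumerable.eqv I i) N, Nat.right_le_pair _ _, by simp [g]⟩

noncomputable def a : ℕ → V₀ → ℝ
  | 0 => fun x => t 0 x
  | k + 1 => fun x => (1 / 2) ^ k * max (t k x) |x (g k)|

lemma a_nonneg (k : ℕ) (x : V₀) : 0 ≤ a k x := by
  cases k with
  | zero => exact t_nonneg _ _
  | succ k => exact mul_nonneg (by positivity) ((abs_nonneg _).trans (le_max_right _ _))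

lemma a_add (k : ℕ) (x y : V₀) : a k (x + y) ≤ a k x + a k y := by
  cases k with
  | zero => exact t_add _ _ _
  | succ k =>
    simp only [a, ← mul_add]
    refine mul_le_mul_of_nonneg_left (max_le ?_ ?_) (by positivity)
    · exact (t_add _ _ _).trans (add_le_add (le_max_left _ _) (le_max_left _ _))
    · exact (abs_add_le _ _).trans (add_le_add (le_max_right _ _) (le_max_right _ _))

lemma a_mono (k : ℕ) {x y : V₀} {c : ℝ} (hc : 0 ≤ c) (h : ∀ i, |x i| ≤ c * |y i|) :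
    a k x ≤ c * a k y := by
  cases k with
  | zero => exact t_mono hc h
  | succ k =>
    simp only [a]
    rw [mul_left_comm]
    refine mul_le_mul_of_nonneg_left (max_le ?_ ?_) (by positivity)
    · exact (t_mono hc h).trans (mul_le_mul_of_nonneg_left (le_max_left _ _) hc)
    · exact (h _).trans (mul_le_mul_of_nonneg_left (le_max_right _ _) hc)

noncomputable def w : ℕ → ℝ
  | 0 => 1
  | k + 1 => (1 / 2) ^ k

lemma w_pos (k : ℕ) : 0 < w k := by cases k <;> simp [w]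

lemma hasSum_w : HasSum (fun k => w k ^ 2) (7 / 3) := by
  rw [← hasSum_nat_add_iff' 1]
  have := hasSum_geometric_of_lt_one (r := 1 / 4) (by norm_num) (by norm_num)
  have h1 : (fun k => w (k + 1) ^ 2) = fun n => (1 / 4 : ℝ) ^ n := by
    funext k; simp only [w]; rw [← pow_mul, mul_comm, pow_mul]; norm_num
  have h2 : 7 / 3 - ∑ i ∈ Finset.range 1, w i ^ 2 = (1 - 1 / 4)⁻¹ := by simp [w]; norm_num
  rw [h1, h2]; exact this

lemma a_le (k : ℕ) {x : V₀} {C : ℝ} (h1 : t 0 x ≤ C) (h2 : |x none| ≤ C) : a k x ≤ w k * C := by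
  cases k with
  | zero => simpa [a, w] using h1
  | succ k =>
    refine mul_le_mul_of_nonneg_left (max_le ((t_anti (Nat.zero_le _) x).trans h1) ?_)
      (by positivity)
    cases g k with
    | none => exact h2
    | some p => exact (coord_le_t ⟨Nat.zero_le _, Nat.zero_le _⟩ x).trans h1

lemma summable_a (x : V₀) : Summable fun k => a k x ^ 2 := by
  refine Summable.of_nonneg_of_le (fun _ => sq_nonneg _) (fun k => ?_)
    (hasSum_w.summable.mul_right (max (t 0 x) |x none| ^ 2))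
  rw [← mul_pow]
  exact pow_le_pow_left₀ (a_nonneg _ _) (a_le k (le_max_left _ _) (le_max_right _ _)) 2

noncomputable def av (x : V₀) : lp (fun _ : ℕ => ℝ) 2 :=
  ⟨fun k => a k x, memℓp_gen (by simpa using summable_a x)⟩

lemma hasSum_sq (f : lp (fun _ : ℕ => ℝ) 2) : HasSum (fun k => f k ^ 2) (‖f‖ ^ 2) := by
  have := lp.hasSum_norm (p := 2) (by simp) f
  simpa using this

noncomputable def nm (x : V₀) : ℝ := ‖av x‖

lemma nm_nonneg (x : V₀) : 0 ≤ nm x := norm_nonneg _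

lemma hasSum_nm (x : V₀) : HasSum (fun k => a k x ^ 2) (nm x ^ 2) := hasSum_sq (av x)

lemma a_le_nm (k : ℕ) (x : V₀) : a k x ≤ nm x :=
  (le_abs_self _).trans (lp.norm_apply_le_norm (by simp) (av x) k)

lemma nm_add (x y : V₀) : nm (x + y) ≤ nm x + nm y := by
  refine le_trans ?_ (norm_add_le (av x) (av y))
  refine (abs_le_of_sq_le_sq' (hasSum_le (fun k => ?_) (hasSum_nm _) (hasSum_sq _))
    (norm_nonneg _)).2
  exact pow_le_pow_left₀ (a_nonneg _ _) (a_add k x y) 2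

lemma nm_mono {x y : V₀} {c : ℝ} (hc : 0 ≤ c) (h : ∀ i, |x i| ≤ c * |y i|) :
    nm x ≤ c * nm y := by
  refine (abs_le_of_sq_le_sq' ?_ (mul_nonneg hc (nm_nonneg _))).2
  rw [mul_pow]
  refine hasSum_le (fun k => ?_) (hasSum_nm _) ((hasSum_nm y).mul_left _)
  rw [← mul_pow]
  exact pow_le_pow_left₀ (a_nonneg _ _) (a_mono k hc h) 2

lemma nm_le {x : V₀} {C : ℝ} (h1 : t 0 x ≤ C) (h2 : |x none| ≤ C) : nm x ≤ √(7 / 3) * C := by
  have hC : 0 ≤ C := (abs_nonneg _).trans h2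
  refine (abs_le_of_sq_le_sq' ?_ (by positivity)).2
  rw [mul_pow, Real.sq_sqrt (by norm_num)]
  refine hasSum_le (fun k => ?_) (hasSum_nm _) (hasSum_w.mul_right _)
  rw [← mul_pow]
  exact pow_le_pow_left₀ (a_nonneg _ _) (a_le k h1 h2) 2

lemma coord_bound : ∃ C : ℝ, 0 < C ∧ ∀ (x : V₀) i, |x i| ≤ C * nm x := by
  obtain ⟨k, -, hk⟩ := g_freq none 0
  refine ⟨2 ^ k, by positivity, fun x i => ?_⟩
  cases i with
  | none =>
    have h1 := a_le_nm (k + 1) x
    simp only [a, hk] at h1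
    have h2 : (1 / 2 : ℝ) ^ k * |x none| ≤ nm x :=
      (mul_le_mul_of_nonneg_left (le_max_right _ _) (by positivity)).trans h1
    rw [one_div, inv_pow, inv_mul_le_iff₀ (by positivity)] at h2
    exact h2
  | some p =>
    have h1 := (coord_le_t (p := p) ⟨Nat.zero_le _, Nat.zero_le _⟩ x).trans (a_le_nm 0 x)
    have h2 : (1 : ℝ) ≤ 2 ^ k := one_le_pow₀ (by norm_num)
    nlinarith [nm_nonneg x]

lemma nm_zero : nm 0 = 0 :=
  le_antisymm (by simpa using nm_mono (x := 0) (y := 0) le_rfl (by simp)) (nm_nonneg _)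

lemma nm_neg (x : V₀) : nm (-x) = nm x := le_antisymm
  (by simpa using nm_mono (x := -x) (y := x) zero_le_one (by simp))
  (by simpa using nm_mono (y := -x) (x := x) zero_le_one (by simp))

lemma nm_smul (c : ℝ) (x : V₀) : nm (c • x) ≤ ‖c‖ * nm x :=
  nm_mono (norm_nonneg c) (fun i => by simp [abs_mul])

lemma nm_eq_zero (x : V₀) (h0 : nm x = 0) : x = 0 := by
  obtain ⟨C, -, hC⟩ := coord_bound
  refine Finsupp.ext fun i => ?_
  have := hC x i
  rw [h0, mul_zero] at this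
  exact abs_nonpos_iff.1 this

def V : Type := V₀

noncomputable instance : AddCommGroup V := inferInstanceAs (AddCommGroup V₀)
noncomputable instance : Module ℝ V := inferInstanceAs (Module ℝ V₀)

noncomputable def nrm : AddGroupNorm V where
  toFun x := nm x
  map_zero' := nm_zero
  add_le' := nm_add
  neg' := nm_neg
  eq_zero_of_map_eq_zero' := nm_eq_zero

noncomputable instance : NormedAddCommGroup V := nrm.toNormedAddCommGroup

noncomputable instance : NormedSpace ℝ V where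
  norm_smul_le := nm_smul

noncomputable def toV : V₀ ≃ₗ[ℝ] V := LinearEquiv.refl ℝ V₀

lemma norm_V (x : V₀) : ‖toV x‖ = nm x := rfl

end Pool.Agent.H87.WCR
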