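import Mathlib
import Pool.Agent.H87.WCR1

namespace Pool.Agent.H87.WCR

open Filter Topology

lemma conc {x y : V₀} {δ : ℝ} (hδ : 0 < δ) {N : ℕ}
    (hN : ∀ p : ℕ × ℕ, x (some p) ≠ 0 → max p.1 p.2 < N)
    (h : 2 * t 0 x ^ 2 + 2 * t 0 y ^ 2 - t 0 (x + y) ^ 2 ≤ δ) : t N y ≤ √(3 * δ) := by
  classical
  obtain ⟨A, hA, h1⟩ := exists_near 0 (x + y) hδ
  have h2 : S A (x + y) + S A (x - y) = 2 * S A x + 2 * S A y := by
    simp only [S, Finsupp.add_apply, Finsupp.sub_apply, Finset.mul_sum, ← Finset.sum_add_distrib]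
    exact Finset.sum_congr rfl fun p _ => by ring
  have h3 := S_le hA x
  have h4 := S_le hA y
  have h5 := S_nonneg A (x - y)
  let A' := A.filter fun p => max p.1 p.2 < N
  let A'' := A.filter fun p => ¬ max p.1 p.2 < N
  have h6 : S A' y + S A'' y = S A y := Finset.sum_filter_add_sum_filter_not _ _ _
  have h7 : S A'' y ≤ S A (x - y) := by
    have : S A'' y = S A'' (x - y) := Finset.sum_congr rfl fun p hp => by
      have h0 : x (some p) = 0 := by
        by_contra hne; exact (Finset.mem_filter.1 hp).2 (hN p hne)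
      simp [h0]
    rw [this]
    exact Finset.sum_le_sum_of_subset_of_nonneg (Finset.filter_subset _ _) fun _ _ _ => sq_nonneg _
  refine t_le (Real.sqrt_nonneg _) fun B hB => ?_
  rw [Real.sq_sqrt (by positivity)]
  have hlt : ∀ p ∈ A', ∀ q ∈ B, max p.1 p.2 < min q.1 q.2 := fun p hp q hq =>
    lt_of_lt_of_le (Finset.mem_filter.1 hp).2 (le_min (hB.1 q hq).1 (hB.1 q hq).2)
  have hdis : Disjoint A' B := Finset.disjoint_left.2 fun p hp hq => by
    have := hlt p hp p hq; omega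
  have hAB : Adm 0 (A' ∪ B) := by
    refine ⟨fun _ _ => ⟨Nat.zero_le _, Nat.zero_le _⟩, fun p hp q hq hne => ?_⟩
    rcases Finset.mem_union.1 hp with hp | hp <;> rcases Finset.mem_union.1 hq with hq | hq
    · exact hA.2 p (Finset.mem_filter.1 hp).1 q (Finset.mem_filter.1 hq).1 hne
    · exact Or.inl (hlt p hp q hq)
    · exact Or.inr (hlt q hq p hp)
    · exact hB.2 p hp q hq hne
  have h8 := S_le hAB y
  have h9 : S (A' ∪ B) y = S A' y + S B y := Finset.sum_union hdis
  linarith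

def Low (N : ℕ) : I → Prop
  | none => True
  | some p => ¬ (N ≤ p.1 ∧ N ≤ p.2)

lemma nm_low {N : ℕ} {y : V₀} {B : ℝ} (hB : ∀ i, |y i| ≤ B) (hy : ∀ i, ¬ Low N i → y i = 0) :
    nm y ≤ √(7 / 3) * ((N + 1) * B) := by
  classical
  have hB0 : 0 ≤ B := (abs_nonneg _).trans (hB none)
  refine nm_le (t_le (by positivity) fun A hA => ?_) ((hB none).trans (by
    have : 0 ≤ (N : ℝ) * B := by positivity
    linarith))
  have h1 : S A y = ∑ p ∈ A.filter (fun p => Low N (some p)), y (some p) ^ 2 := by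
    rw [S, Finset.sum_filter_of_ne]
    intro p _ hp
    by_contra h; exact hp (by rw [hy _ h]; simp)
  have h2 : (A.filter (fun p => Low N (some p))).card ≤ N := by
    refine le_trans (Finset.card_le_card_of_injOn (t := Finset.range N)
      (fun p => min p.1 p.2) (fun p hp => ?_) fun p hp q hq hpq => ?_) (by simp)
    · have := (Finset.mem_filter.1 hp).2
      simp only [Low] at this
      simp only [Finset.coe_range, Set.mem_Iio]; omega
    · by_contra hne
      have := hA.2 p (Finset.mem_filter.1 hp).1 q (Finset.mem_filter.1 hq).1 hne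
      simp only at hpq
      omega
  rw [h1]
  refine (Finset.sum_le_sum (g := fun _ => B ^ 2) fun p _ => ?_).trans ?_
  · rw [← sq_abs]; exact pow_le_pow_left₀ (abs_nonneg _) (hB _) 2
  · rw [Finset.sum_const, nsmul_eq_mul]
    have h3 : ((A.filter (fun p => Low N (some p))).card : ℝ) ≤ N := by exact_mod_cast h2
    have h4 : (0:ℝ) ≤ N := by positivity
    nlinarith [sq_nonneg B, mul_nonneg (mul_nonneg h4 h4) (sq_nonneg B)]

lemma nm_high {N : ℕ} {y x : V₀} (hxy : ∀ i, |y i| ≤ |x i|) (hy : ∀ i, Low N i → y i = 0) :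
    nm y ≤ √(7 / 3) * t N x := by
  classical
  refine nm_le (t_le (t_nonneg _ _) fun A hA => ?_) (by
    rw [hy none trivial, abs_zero]; exact t_nonneg _ _)
  have h1 : S A y = S (A.filter (fun p => N ≤ p.1 ∧ N ≤ p.2)) y := by
    rw [S, S, Finset.sum_filter_of_ne]
    intro p _ hp
    by_contra h; exact hp (by rw [hy (some p) h]; simp)
  rw [h1]
  refine le_trans ?_ (S_le (hA.sub (Finset.filter_subset (fun p => N ≤ p.1 ∧ N ≤ p.2) _)
    fun p hp => (Finset.mem_filter.1 hp).2) x)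
  refine Finset.sum_le_sum fun p _ => ?_
  exact sq_le_sq.2 (hxy _)

lemma f_eq (f : V₀ →ₗ[ℝ] ℝ) (y : V₀) : f y = ∑ i ∈ y.support, y i * f (Finsupp.single i 1) := by
  conv_lhs => rw [← Finsupp.sum_single y]
  rw [Finsupp.sum, map_sum]
  refine Finset.sum_congr rfl fun i _ => ?_
  rw [← smul_eq_mul, ← map_smul]; simp

lemma low_tail (f : V₀ →ₗ[ℝ] ℝ) (C : ℝ) (hC : 0 ≤ C) (hf : ∀ x, |f x| ≤ C * nm x) (N : ℕ)
    {ε : ℝ} (hε : 0 < ε) : ∃ s : Finset I, ∀ (y : V₀) (B : ℝ), (∀ i, |y i| ≤ B) →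
      (∀ i, ¬ Low N i → y i = 0) → (∀ i ∈ s, y i = 0) → |f y| ≤ B * ε := by
  classical
  let φ : I → ℝ := fun i => if Low N i then |f (Finsupp.single i 1)| else 0
  have hφ : ∀ i, 0 ≤ φ i := fun i => by simp only [φ]; split_ifs <;> simp
  have hs : Summable φ := by
    refine summable_of_sum_le (c := C * (√(7 / 3) * ((N + 1) * 1))) hφ fun s => ?_
    let c : I → ℝ := fun i =>
      if Low N i then (if 0 ≤ f (Finsupp.single i 1) then 1 else -1) else 0
    let y : V₀ := ∑ i ∈ s, Finsupp.single i (c i)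
    have hy : ∀ i, y i = if i ∈ s then c i else 0 := fun i => by
      simp [y, Finsupp.finset_sum_apply, Finsupp.single_apply]
    have h1 : f y = ∑ i ∈ s, φ i := by
      simp only [y, map_sum]
      refine Finset.sum_congr rfl fun i _ => ?_
      have : Finsupp.single i (c i) = c i • Finsupp.single i (1 : ℝ) := by simp
      rw [this, map_smul, smul_eq_mul]
      simp only [c, φ]
      split_ifs with h1 h2
      · rw [abs_of_nonneg h2, one_mul]
      · rw [abs_of_neg (not_le.1 h2)]; ring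
      · simp
    rw [← h1]
    refine (le_abs_self _).trans ((hf y).trans (mul_le_mul_of_nonneg_left
      (nm_low (fun i => ?_) (fun i hi => ?_)) hC))
    · rw [hy]; simp only [c]; split_ifs <;> simp
    · rw [hy]; simp [c, hi]
  obtain ⟨s, hs'⟩ := summable_iff_vanishing_norm.1 hs ε hε
  refine ⟨s, fun y B hB h1 h2 => ?_⟩
  have hB0 : 0 ≤ B := (abs_nonneg _).trans (hB none)
  have h3 := hs' y.support (Finset.disjoint_left.2 fun i hi his =>
    Finsupp.mem_support_iff.1 hi (h2 i his))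
  rw [f_eq]
  refine (Finset.abs_sum_le_sum_abs _ _).trans ?_
  refine (Finset.sum_le_sum (g := fun i => B * φ i) fun i hi => ?_).trans ?_
  · have : Low N i := by
      by_contra h; exact Finsupp.mem_support_iff.1 hi (h1 i h)
    simp only [φ, this, if_true, abs_mul]
    exact mul_le_mul_of_nonneg_right (hB i) (abs_nonneg _)
  · rw [← Finset.mul_sum]
    exact mul_le_mul_of_nonneg_left ((le_abs_self _).trans h3.le) hB0

theorem wcr (v : ℕ → V₀) (B : ℝ) (hB : ∀ n, nm (v n) ≤ B)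
    (hD : Tendsto (fun p : ℕ × ℕ =>
      2 * nm (v p.1) ^ 2 + 2 * nm (v p.2) ^ 2 - nm (v p.1 + v p.2) ^ 2) atTop (𝓝 0))
    (f : V₀ →ₗ[ℝ] ℝ) (C : ℝ) (hC : 0 ≤ C) (hf : ∀ x, |f x| ≤ C * nm x) :
    CauchySeq fun n => f (v n) := by
  classical
  have stepA : ∀ k ε, 0 < ε → ∃ n₀, ∀ n m, n₀ ≤ n → n₀ ≤ m →
      2 * a k (v n) ^ 2 + 2 * a k (v m) ^ 2 - a k (v n + v m) ^ 2 ≤ ε := by
    intro k ε hε
    obtain ⟨q, hq⟩ := eventually_atTop.1 (hD.eventually (gt_mem_nhds hε))
    refine ⟨max q.1 q.2, fun n m hn hm => ?_⟩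
    have h1 := hq (n, m) ⟨le_of_max_le_left hn, le_of_max_le_right hm⟩
    have hs := (((hasSum_nm (v n)).mul_left 2).add ((hasSum_nm (v m)).mul_left 2)).sub
      (hasSum_nm (v n + v m))
    refine (le_hasSum hs k fun j _ => ?_).trans h1.le
    have h2 := pow_le_pow_left₀ (a_nonneg _ _) (a_add j (v n) (v m)) 2
    nlinarith [sq_nonneg (a j (v n) - a j (v m))]
  have stepB : ∀ ε, 0 < ε → ∃ N n₀, ∀ m, n₀ ≤ m → t N (v m) ≤ ε := by
    intro ε hε
    obtain ⟨n₀, h⟩ := stepA 0 (ε ^ 2 / 3) (by positivity)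
    obtain ⟨N, hN⟩ : ∃ N, ∀ p : ℕ × ℕ, v n₀ (some p) ≠ 0 → max p.1 p.2 < N := by
      obtain ⟨N, hN⟩ := ((v n₀).support.image
        (fun i : I => i.elim 0 fun p => max p.1 p.2)).exists_le
      refine ⟨N + 1, fun p hp => Nat.lt_succ_of_le (hN _ ?_)⟩
      exact Finset.mem_image.2 ⟨some p, Finsupp.mem_support_iff.2 hp, rfl⟩
    refine ⟨N, n₀, fun m hm => (conc (by positivity) hN (h n₀ m le_rfl hm)).trans ?_⟩
    rw [show 3 * (ε ^ 2 / 3) = ε ^ 2 by ring, Real.sqrt_sq hε.le]
  have stepC : ∀ i ε, 0 < ε → ∃ n₀, ∀ n m, n₀ ≤ n → n₀ ≤ m → |v n i - v m i| ≤ ε := by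
    intro i ε hε
    obtain ⟨N, n₁, h1⟩ := stepB (ε / 4) (by positivity)
    obtain ⟨k, hk, hki⟩ := g_freq i N
    obtain ⟨n₂, h2⟩ := stepA (k + 1) (((1 / 2) ^ k) ^ 2 * (ε ^ 2 / 2)) (by positivity)
    refine ⟨max n₁ n₂, fun n m hn hm => ?_⟩
    have h3 := h2 n m (le_of_max_le_right hn) (le_of_max_le_right hm)
    have h4 := (t_anti hk _).trans (h1 n (le_of_max_le_left hn))
    have h5 := (t_anti hk _).trans (h1 m (le_of_max_le_left hm))
    have h6 := t_add k (v n) (v m)
    simp only [a, hki, mul_pow, Finsupp.add_apply] at h3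
    set p := v n i
    set q := v m i
    have h7 : 2 * (max (t k (v n)) |p|) ^ 2 + 2 * (max (t k (v m)) |q|) ^ 2 -
        (max (t k (v n + v m)) |p + q|) ^ 2 ≤ ε ^ 2 / 2 := by
      have hpos : (0:ℝ) < ((1 / 2) ^ k) ^ 2 := by positivity
      refine le_of_mul_le_mul_left ?_ hpos
      linarith
    have a1 : p ^ 2 ≤ (max (t k (v n)) |p|) ^ 2 := by
      rw [← sq_abs p]; exact pow_le_pow_left₀ (abs_nonneg _) (le_max_right _ _) 2
    have a2 : q ^ 2 ≤ (max (t k (v m)) |q|) ^ 2 := by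
      rw [← sq_abs q]; exact pow_le_pow_left₀ (abs_nonneg _) (le_max_right _ _) 2
    refine abs_le.2 (abs_le_of_sq_le_sq' ?_ hε.le)
    rcases le_total (t k (v n + v m)) |p + q| with h8 | h8
    · rw [max_eq_right h8, sq_abs] at h7; nlinarith
    · rw [max_eq_left h8] at h7
      have a3 : t k (v n + v m) ^ 2 ≤ (ε / 2) ^ 2 :=
        pow_le_pow_left₀ (t_nonneg _ _) (by linarith) 2
      nlinarith [sq_nonneg (p + q)]
  obtain ⟨K, hK, hK'⟩ := coord_bound
  have hB0 : 0 ≤ B := (nm_nonneg _).trans (hB 0)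
  rw [Metric.cauchySeq_iff]
  intro ε hε
  obtain ⟨N, n₁, h1⟩ := stepB (ε / (8 * (C * √(7 / 3) + 1))) (by positivity)
  obtain ⟨s, hs⟩ := low_tail f C hC hf N (show 0 < ε / (4 * (2 * K * B + 1)) by positivity)
  set M := ∑ i ∈ s, |f (Finsupp.single i 1)| with hM
  have hM0 : 0 ≤ M := Finset.sum_nonneg fun _ _ => abs_nonneg _
  choose n₂ h2 using fun i => stepC i (ε / (4 * (M + 1))) (by positivity)
  refine ⟨max n₁ (s.sup n₂), fun n hn m hm => ?_⟩
  set y := v n - v m with hy
  let y₁ := y.filter fun i => i ∈ s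
  let y₂ := y.filter fun i => i ∉ s ∧ Low N i
  let y₃ := y.filter fun i => i ∉ s ∧ ¬ Low N i
  have hsum : y = y₁ + y₂ + y₃ := by
    ext i
    simp only [y₁, y₂, y₃, Finsupp.add_apply, Finsupp.filter_apply]
    by_cases h1 : i ∈ s <;> by_cases h2 : Low N i <;> simp [h1, h2]
  have b1 : |f y₁| ≤ ε / 4 := by
    rw [f_eq]
    refine (Finset.abs_sum_le_sum_abs _ _).trans ?_
    have hsub : y₁.support ⊆ s := fun i hi => by
      by_contra h
      exact Finsupp.mem_support_iff.1 hi (by simp [y₁, Finsupp.filter_apply, h])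
    refine (Finset.sum_le_sum_of_subset_of_nonneg hsub fun _ _ _ => abs_nonneg _).trans ?_
    refine (Finset.sum_le_sum (g := fun i => ε / (4 * (M + 1)) * |f (Finsupp.single i 1)|)
      fun i hi => ?_).trans ?_
    · rw [abs_mul]
      refine mul_le_mul_of_nonneg_right ?_ (abs_nonneg _)
      have h3 : n₂ i ≤ s.sup n₂ := Finset.le_sup hi
      simpa [y₁, Finsupp.filter_apply, hi, hy] using
        h2 i n m (h3.trans (le_of_max_le_right hn)) (h3.trans (le_of_max_le_right hm))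
    · rw [← Finset.mul_sum, ← hM, div_mul_eq_mul_div, div_le_div_iff₀ (by positivity) (by positivity)]
      nlinarith
  have b2 : |f y₂| ≤ ε / 4 := by
    refine (hs y₂ (2 * K * B) (fun i => ?_) (fun i hi => ?_) (fun i hi => ?_)).trans ?_
    · have c1 := (hK' (v n) i).trans (mul_le_mul_of_nonneg_left (hB n) hK.le)
      have c2 := (hK' (v m) i).trans (mul_le_mul_of_nonneg_left (hB m) hK.le)
      have c3 := abs_sub (v n i) (v m i)
      simp only [y₂, Finsupp.filter_apply]
      split_ifs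
      · simp only [hy, Finsupp.sub_apply]; linarith
      · simp only [abs_zero]; positivity
    · simp [y₂, Finsupp.filter_apply, hi]
    · simp [y₂, Finsupp.filter_apply, hi]
    · rw [← mul_div_assoc, div_le_div_iff₀ (by positivity) (by positivity)]
      nlinarith
  have b3 : |f y₃| ≤ ε / 4 := by
    have c1 : nm y₃ ≤ √(7 / 3) * t N y := nm_high (fun i => by
      simp only [y₃, Finsupp.filter_apply]; split_ifs <;> simp) (fun i hi => by
      simp [y₃, Finsupp.filter_apply, hi])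
    have c2 : t N y ≤ t N (v n) + t N (v m) := by
      have c3 := t_add N (v n) (-v m)
      have c4 := t_mono (N := N) (x := -v m) (y := v m) zero_le_one (by simp)
      rw [hy, sub_eq_add_neg]; linarith
    have c5 := h1 n (le_of_max_le_left hn)
    have c6 := h1 m (le_of_max_le_left hm)
    have c7 : (0:ℝ) ≤ √(7 / 3) := Real.sqrt_nonneg _
    refine (hf y₃).trans ?_
    calc C * nm y₃ ≤ C * (√(7 / 3) * (2 * (ε / (8 * (C * √(7 / 3) + 1))))) := by
          gcongr; exact c1.trans (by gcongr; linarith)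
      _ = (C * √(7 / 3)) * ε / (4 * (C * √(7 / 3) + 1)) := by field_simp; ring
      _ ≤ ε / 4 := by
          rw [div_le_div_iff₀ (by positivity) (by positivity)]
          nlinarith
  rw [Real.dist_eq, ← map_sub, ← hy, hsum, map_add, map_add]
  have := abs_add_three (f y₁) (f y₂) (f y₃)
  linarith

end Pool.Agent.H87.WCR
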