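import Mathlib
import Pool.Agent.H87.WCR2

namespace Pool.Agent.H87.WCR

open Filter Topology UniformSpace

section
variable {E : Type} [NormedAddCommGroup E] [NormedSpace ℝ E]

lemma exists_bidual (y : ℕ → E) (c : ℝ) (hc : 0 ≤ c) (hy : ∀ n, ‖y n‖ ≤ c) :
    ∃ F : (E →L[ℝ] ℝ) →L[ℝ] ℝ, ‖F‖ ≤ c ∧
      ∀ (f : E →L[ℝ] ℝ) (r : ℝ), (∀ᶠ n in atTop, f (y n) = r) → F f = r := by
  let U : Ultrafilter ℕ := Ultrafilter.of atTop
  have hU : (U : Filter ℕ) ≤ atTop := Ultrafilter.of_le _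
  have hb : ∀ (f : E →L[ℝ] ℝ) n, ‖f (y n)‖ ≤ c * ‖f‖ := fun f n => by
    rw [mul_comm]
    exact (f.le_opNorm _).trans (mul_le_mul_of_nonneg_left (hy n) (norm_nonneg _))
  have hlim : ∀ f : E →L[ℝ] ℝ, ∃ r, Tendsto (fun n => f (y n)) U (𝓝 r) := fun f => by
    obtain ⟨r, -, hr⟩ := (isCompact_closedBall (0 : ℝ) (c * ‖f‖)).ultrafilter_le_nhds
      (U.map fun n => f (y n))
      (by rw [le_principal_iff]; exact mem_map.2 (Eventually.of_forall fun n => by
        simpa using hb f n))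
    exact ⟨r, hr⟩
  choose L hL using hlim
  let F₀ : (E →L[ℝ] ℝ) →ₗ[ℝ] ℝ :=
    { toFun := L
      map_add' := fun f g => tendsto_nhds_unique (hL (f + g)) ((hL f).add (hL g))
      map_smul' := fun t f => tendsto_nhds_unique (hL (t • f)) ((hL f).const_mul t) }
  have hF₀ : ∀ f, ‖F₀ f‖ ≤ c * ‖f‖ := fun f =>
    le_of_tendsto (hL f).norm (Eventually.of_forall (hb f))
  refine ⟨F₀.mkContinuous c hF₀, LinearMap.mkContinuous_norm_le _ hc _, fun f r h => ?_⟩
  exact tendsto_nhds_unique (hL f) (tendsto_const_nhds.congr' ((h.filter_mono hU).mono fun n hn => hn.symm))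

lemma norm_normalize (x : E) (h : 0 < ‖x‖) : ‖‖x‖⁻¹ • x‖ = 1 := by
  rw [norm_smul, norm_inv, norm_norm, inv_mul_cancel₀ h.ne']

lemma normalize (F : ℕ → E) (c : ℝ) (hc : 0 < c) (hF : ∀ n, ‖F n‖ ≤ c) (hF0 : ∀ n, 0 < ‖F n‖)
    (h : Tendsto (fun p : ℕ × ℕ => ‖F p.1 + F p.2‖) atTop (𝓝 (2 * c))) :
    Tendsto (fun p : ℕ × ℕ => ‖‖F p.1‖⁻¹ • F p.1 + ‖F p.2‖⁻¹ • F p.2‖) atTop (𝓝 2) := by
  have hn : ∀ n, ‖‖F n‖⁻¹ • F n‖ = 1 := fun n => by
    rw [norm_smul, norm_inv, norm_norm, inv_mul_cancel₀ (hF0 n).ne']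
  have hd : ∀ n, ‖c • (‖F n‖⁻¹ • F n) - F n‖ = c - ‖F n‖ := fun n => by
    have : c • (‖F n‖⁻¹ • F n) - F n = (c - ‖F n‖) • (‖F n‖⁻¹ • F n) := by
      rw [sub_smul, smul_smul ‖F n‖, mul_inv_cancel₀ (hF0 n).ne', one_smul]
    rw [this, norm_smul, hn, mul_one, Real.norm_of_nonneg (by linarith [hF n])]
  have h1 : Tendsto (fun p : ℕ × ℕ => (2 * ‖F p.1 + F p.2‖ - 2 * c) / c) atTop (𝓝 2) := by
    have := ((h.const_mul 2).sub_const (2 * c)).div_const c
    convert this using 2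
    field_simp; ring
  refine tendsto_of_tendsto_of_tendsto_of_le_of_le h1 tendsto_const_nhds (fun p => ?_)
    (fun p => ?_)
  · simp only
    rw [div_le_iff₀ hc]
    set G₁ := ‖F p.1‖⁻¹ • F p.1
    set G₂ := ‖F p.2‖⁻¹ • F p.2
    have e1 : F p.1 + F p.2 = c • (G₁ + G₂) - (c • G₁ - F p.1) - (c • G₂ - F p.2) := by
      rw [smul_add]; abel
    have e2 : ‖F p.1 + F p.2‖ ≤ c * ‖G₁ + G₂‖ + (c - ‖F p.1‖) + (c - ‖F p.2‖) := by
      rw [e1]
      refine (norm_sub_le _ _).trans (add_le_add ((norm_sub_le _ _).trans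
        (add_le_add ?_ (hd _).le)) (hd _).le)
      rw [norm_smul, Real.norm_of_nonneg hc.le]
    have e3 := norm_add_le (F p.1) (F p.2)
    linarith
  · exact (norm_add_le _ _).trans (by rw [hn, hn]; norm_num)
end

abbrev X := Completion V

noncomputable def j : V₀ →ₗ[ℝ] X :=
  (Completion.toComplL : V →L[ℝ] X).toLinearMap.comp toV.toLinearMap

lemma norm_j (x : V₀) : ‖j x‖ = nm x := Completion.norm_coe (toV x)

lemma dense_j : DenseRange j := Completion.denseRange_coe (α := V)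

theorem wcrX (x : ℕ → X) (hx : ∀ n, ‖x n‖ = 1)
    (h : Tendsto (fun p : ℕ × ℕ => ‖x p.1 + x p.2‖) atTop (𝓝 2)) (f : X →L[ℝ] ℝ) :
    CauchySeq fun n => f (x n) := by
  choose v hv using fun n : ℕ =>
    dense_j.exists_dist_lt (x n) (show (0:ℝ) < 1 / ((n : ℝ) + 1) by positivity)
  have h0 : Tendsto (fun n => x n - j (v n)) atTop (𝓝 0) := by
    refine squeeze_zero_norm (fun n => ?_) tendsto_one_div_add_atTop_nhds_zero_nat
    rw [← dist_eq_norm]; exact (hv n).le
  have h1 : Tendsto (fun n => nm (v n)) atTop (𝓝 1) := by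
    have : Tendsto (fun n => ‖j (v n)‖ - ‖x n‖) atTop (𝓝 0) := by
      refine squeeze_zero_norm (fun n => ?_) (tendsto_zero_iff_norm_tendsto_zero.1 h0)
      rw [norm_sub_rev (x n)]; exact abs_norm_sub_norm_le _ _
    simpa [hx, norm_j] using this.add_const 1
  have hf : Tendsto (Prod.fst : ℕ × ℕ → ℕ) atTop atTop := by
    rw [← prod_atTop_atTop_eq]; exact tendsto_fst
  have hs : Tendsto (Prod.snd : ℕ × ℕ → ℕ) atTop atTop := by
    rw [← prod_atTop_atTop_eq]; exact tendsto_snd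
  have h2 : Tendsto (fun p : ℕ × ℕ => nm (v p.1 + v p.2)) atTop (𝓝 2) := by
    have : Tendsto (fun p : ℕ × ℕ => ‖j (v p.1 + v p.2)‖ - ‖x p.1 + x p.2‖) atTop (𝓝 0) := by
      have h3 := tendsto_zero_iff_norm_tendsto_zero.1 ((h0.comp hf).add (h0.comp hs) |>.trans
        (by simp : 𝓝 ((0 : X) + 0) ≤ 𝓝 0))
      refine squeeze_zero_norm (fun p => ?_) h3
      refine (abs_norm_sub_norm_le _ _).trans (le_of_eq ?_)
      rw [norm_sub_rev, map_add]
      congr 1
      simp only [Function.comp]; abel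
    simpa only [norm_j, sub_add_cancel, zero_add] using this.add h
  obtain ⟨B, hB⟩ := h1.bddAbove_range
  have h3 := wcr v B (fun n => hB ⟨n, rfl⟩) (by
    have := ((((h1.comp hf).pow 2).const_mul 2).add (((h1.comp hs).pow 2).const_mul 2)).sub
      (h2.pow 2)
    norm_num at this
    exact this) (f.toLinearMap.comp j) ‖f‖ (norm_nonneg _) (fun y => by
      rw [← norm_j]; exact f.le_opNorm _)
  have h4 : CauchySeq fun n => f (x n - j (v n)) :=
    (((f.continuous.tendsto 0).comp h0)).cauchySeq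
  have := h3.add h4
  convert this using 1
  funext n; simp

/-- truncated stars -/
noncomputable def star (n M : ℕ) (s : ℝ) : V₀ :=
  Finsupp.onFinset (insert none ((Finset.range M ×ˢ Finset.range M).image some))
    (fun i => i.elim s fun p => if (p.1 = n ∨ p.2 = n) ∧ p.1 < M ∧ p.2 < M then 1 else 0)
    (fun i hi => by
      cases i with
      | none => simp
      | some p =>
        simp only [Option.elim, ne_eq, ite_eq_right_iff, one_ne_zero, imp_false, not_not] at hi
        simp [hi.2.1, hi.2.2])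

lemma star_none (n M : ℕ) (s : ℝ) : star n M s none = s := rfl
lemma star_some (n M : ℕ) (s : ℝ) (p : ℕ × ℕ) :
    star n M s (some p) = if (p.1 = n ∨ p.2 = n) ∧ p.1 < M ∧ p.2 < M then 1 else 0 := rfl

lemma nm_star (n M : ℕ) (s : ℝ) (hs : |s| ≤ 1) : nm (star n M s) ≤ √(7 / 3) := by
  classical
  have := nm_le (x := star n M s) (C := 1) (t_le zero_le_one fun A hA => ?_) hs
  · simpa using this
  have h1 : S A (star n M s) ≤ ∑ p ∈ A.filter (fun p => p.1 = n ∨ p.2 = n), (1 : ℝ) := by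
    rw [S, Finset.sum_filter]
    refine Finset.sum_le_sum fun p _ => ?_
    rw [star_some]
    by_cases h : p.1 = n ∨ p.2 = n
    · simp only [h, true_and, if_true]; split_ifs <;> simp
    · simp [h]
  refine h1.trans ?_
  have h2 : (A.filter (fun p => p.1 = n ∨ p.2 = n)).card ≤ 1 := by
    refine Finset.card_le_one.2 fun p hp q hq => ?_
    by_contra hne
    have := hA.2 p (Finset.mem_filter.1 hp).1 q (Finset.mem_filter.1 hq).1 hne
    have h3 := (Finset.mem_filter.1 hp).2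
    have h4 := (Finset.mem_filter.1 hq).2
    omega
  simpa using h2

lemma exists_coord (i : I) : ∃ f : X →L[ℝ] ℝ, ‖f‖ ≤ 1 ∧
    ∀ x, f (j x) = nm (Finsupp.single i 1) * x i := by
  let f₀ : V₀ →ₗ[ℝ] ℝ := nm (Finsupp.single i 1) • Finsupp.lapply i
  have hb : ∀ x, ‖f₀ x‖ ≤ 1 * ‖j x‖ := fun x => by
    rw [norm_j, one_mul]
    have h1 : ‖f₀ x‖ = ‖x i • j (Finsupp.single i 1)‖ := by
      rw [norm_smul, norm_j]
      simp [f₀, abs_of_nonneg (nm_nonneg _), mul_comm]
    rw [h1, ← map_smul, norm_j]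
    have := nm_mono (x := x i • Finsupp.single i 1) (y := x) zero_le_one (fun k => by
      classical
      by_cases h : i = k
      · subst h; simp
      · simp [Finsupp.single_apply, h])
    simpa using this
  exact ⟨f₀.extendOfNorm j, LinearMap.opNorm_extendOfNorm_le dense_j zero_le_one hb,
    fun x => LinearMap.extendOfNorm_eq dense_j ⟨1, hb⟩ x⟩

lemma nm_single_tendsto : Tendsto (fun p : ℕ × ℕ => nm (Finsupp.single (some p) 1)) atTop
    (𝓝 √(7 / 3)) := by
  have hle : ∀ p : ℕ × ℕ, nm (Finsupp.single (some p) 1) ≤ √(7 / 3) := fun p => by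
    refine le_trans ?_ (nm_star p.1 (max p.1 p.2 + 1) 0 (by simp))
    have := nm_mono (x := Finsupp.single (some p) 1) (y := star p.1 (max p.1 p.2 + 1) 0)
      zero_le_one (fun k => by
        by_cases h : some p = k
        · subst h
          have h1 : p.1 < max p.1 p.2 + 1 := by omega
          have h2 : p.2 < max p.1 p.2 + 1 := by omega
          simp only [star_some, h1, h2]; simp
        · simp [Finsupp.single_apply, h])
    simpa using this
  have hge : ∀ K, ∀ p : ℕ × ℕ, K ≤ p.1 → K ≤ p.2 →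
      √(∑ k ∈ Finset.range K, w k ^ 2) ≤ nm (Finsupp.single (some p) 1) := by
    intro K p h1 h2
    refine Real.sqrt_le_iff.2 ⟨nm_nonneg _, le_trans (Finset.sum_le_sum fun k hk => ?_)
      (sum_le_hasSum (Finset.range K) (fun _ _ => sq_nonneg _) (hasSum_nm _))⟩
    refine pow_le_pow_left₀ (w_pos k).le ?_ 2
    have hk' := Finset.mem_range.1 hk
    cases k with
    | zero =>
      simpa [a, w] using coord_le_t (p := p) ⟨Nat.zero_le _, Nat.zero_le _⟩
        (Finsupp.single (some p) 1)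
    | succ k =>
      have := coord_le_t (N := k) (p := p) ⟨by omega, by omega⟩ (Finsupp.single (some p) 1)
      simp only [Finsupp.single_eq_same, abs_one] at this
      simp only [a, w]
      exact le_mul_of_one_le_right (by positivity) (this.trans (le_max_left _ _))
  have h1 := hasSum_w.tendsto_sum_nat.sqrt
  rw [tendsto_order]
  refine ⟨fun r hr => ?_, fun r hr => Eventually.of_forall fun p => (hle p).trans_lt hr⟩
  obtain ⟨K, hK⟩ := (h1.eventually (lt_mem_nhds hr)).exists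
  exact eventually_atTop.2 ⟨(K, K), fun p hp => hK.trans_le (hge K p hp.1 hp.2)⟩

lemma nm_single_pos (i : I) : 0 < nm (Finsupp.single i 1) :=
  lt_of_le_of_ne (nm_nonneg _) fun h => by simpa using nm_eq_zero _ h.symm

theorem not_bidual : ∃ F : ℕ → ((X →L[ℝ] ℝ) →L[ℝ] ℝ), (∀ n, ‖F n‖ = 1) ∧
    Tendsto (fun p : ℕ × ℕ => ‖F p.1 + F p.2‖) atTop (𝓝 2) ∧
    ∃ f : X →L[ℝ] ℝ, ¬ CauchySeq (fun n => F n f) := by
  let s : ℕ → ℝ := fun n => if Even n then 1 else 0
  have hs : ∀ n, |s n| ≤ 1 := fun n => by simp only [s]; split_ifs <;> simp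
  have hc : (0:ℝ) < √(7 / 3) := Real.sqrt_pos.2 (by norm_num)
  choose F hF hF' using fun n => exists_bidual (fun M => j (star n M (s n))) √(7 / 3) hc.le
    (fun M => by rw [norm_j]; exact nm_star _ _ _ (hs n))
  have hlow : ∀ p : ℕ × ℕ, 2 * nm (Finsupp.single (some p) 1) ≤ ‖F p.1 + F p.2‖ := by
    intro p
    obtain ⟨f, hf, hf'⟩ := exists_coord (some p)
    have h1 : ∀ n, (p.1 = n ∨ p.2 = n) → F n f = nm (Finsupp.single (some p) 1) := fun n hn =>
      hF' n f _ (eventually_atTop.2 ⟨max p.1 p.2 + 1, fun M hM => by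
        have h1 : p.1 < M := by omega
        have h2 : p.2 < M := by omega
        rw [hf', star_some]; simp [hn, h1, h2]⟩)
    have h2 := (F p.1 + F p.2).le_opNorm f
    rw [add_apply, h1 _ (Or.inl rfl), h1 _ (Or.inr rfl)] at h2
    have h3 := mul_le_mul_of_nonneg_left hf (norm_nonneg (F p.1 + F p.2))
    have h4 := le_abs_self (nm (Finsupp.single (some p) 1) + nm (Finsupp.single (some p) 1))
    rw [Real.norm_eq_abs] at h2
    linarith
  have hpos : ∀ n, 0 < ‖F n‖ := fun n => by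
    have h1 := hlow (n, n)
    have h2 := norm_add_le (F n) (F n)
    have h3 := nm_single_pos (some (n, n))
    simp only at h1
    linarith
  have hlim : Tendsto (fun p : ℕ × ℕ => ‖F p.1 + F p.2‖) atTop (𝓝 (2 * √(7 / 3))) :=
    tendsto_of_tendsto_of_tendsto_of_le_of_le (nm_single_tendsto.const_mul 2) tendsto_const_nhds
      hlow (fun p => (norm_add_le (F p.1) (F p.2)).trans (by
        show ‖F p.1‖ + ‖F p.2‖ ≤ 2 * √(7 / 3)
        linarith [hF p.1, hF p.2]))
  refine ⟨fun n => ‖F n‖⁻¹ • F n, fun n => norm_normalize (F n) (hpos n),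
    normalize F _ hc hF hpos hlim, ?_⟩
  obtain ⟨f, -, hf⟩ := exists_coord none
  have h1 : ∀ n, F n f = nm (Finsupp.single none 1) * s n := fun n =>
    hF' n f _ (Eventually.of_forall fun M => by rw [hf, star_none])
  refine ⟨f, fun h => ?_⟩
  have h2 := nm_single_pos none
  obtain ⟨N, hN⟩ := Metric.cauchySeq_iff.1 h (nm (Finsupp.single none 1) / √(7 / 3))
    (by positivity)
  have h3 := hN (2 * N) (by omega) (2 * N + 1) (by omega)
  have e1 : s (2 * N) = 1 := by simp [s]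
  have e2 : s (2 * N + 1) = 0 := by simp [s]
  simp only [smul_apply, h1, e1, e2, smul_eq_mul, mul_zero, mul_one, dist_zero_right] at h3
  rw [Real.norm_of_nonneg (by have := hpos (2 * N); positivity), inv_mul_eq_div] at h3
  exact absurd h3 (not_lt.2 (div_le_div_of_nonneg_left h2.le (hpos _) (hF _)))

end Pool.Agent.H87.WCR
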