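import Mathlib

namespace Pool.Agent.H87.WUR3

open Filter Topology Finset

def HasWUR (E : Type) [SeminormedAddCommGroup E] [NormedSpace ℝ E] : Prop :=
  ∃ N : E → ℝ, (∀ a b, N (a + b) ≤ N a + N b) ∧ (∀ (r : ℝ) a, N (r • a) = |r| * N a) ∧
    (∃ c C : ℝ, 0 < c ∧ 0 < C ∧ ∀ a, c * ‖a‖ ≤ N a ∧ N a ≤ C * ‖a‖) ∧
    ∀ u v : ℕ → E, (∀ n, N (u n) ≤ 1) → (∀ n, N (v n) ≤ 1) →
      Tendsto (fun n => N (u n + v n)) atTop (𝓝 2) →
      ∀ f : E →L[ℝ] ℝ, Tendsto (fun n => f (u n - v n)) atTop (𝓝 0)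

theorem wur_of_T {E H : Type} [SeminormedAddCommGroup E] [NormedSpace ℝ E] [NormedAddCommGroup H]
    [InnerProductSpace ℝ H] (T : E →L[ℝ] H) (hT : ∀ z, ‖T z‖ ≤ ‖z‖)
    (h : ∀ z : ℕ → E, (∀ n, ‖z n‖ ≤ 2) → Tendsto (fun n => ‖T (z n)‖) atTop (𝓝 0) →
      ∀ f : E →L[ℝ] ℝ, Tendsto (fun n => f (z n)) atTop (𝓝 0)) : HasWUR E := by
  set N : E → ℝ := fun z => ‖WithLp.toLp 2 (z, T z)‖ with hN
  have hsq : ∀ z, N z ^ 2 = ‖z‖ ^ 2 + ‖T z‖ ^ 2 := fun z => WithLp.prod_norm_sq_eq_of_L2 _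
  have h0 : ∀ z, 0 ≤ N z := fun z => norm_nonneg _
  have hl : ∀ z, ‖z‖ ≤ N z := fun z =>
    abs_le_of_sq_le_sq' (by rw [hsq]; nlinarith [sq_nonneg ‖T z‖]) (h0 z) |>.2
  refine ⟨N, fun a b => ?_, fun r a => ?_, ⟨1, 2, one_pos, two_pos, fun a => ⟨by simpa using hl a, ?_⟩⟩,
    fun u v hu hv huv => h _ (fun n => ?_) ?_⟩
  · refine le_trans (le_of_eq ?_) (norm_add_le _ _)
    simp only [hN, map_add]; rfl
  · rw [← Real.norm_eq_abs, ← norm_smul]
    simp only [hN, map_smul]; rfl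
  · refine (abs_le_of_sq_le_sq' ?_ (by positivity)).2
    rw [hsq]; nlinarith [hT a, norm_nonneg a, norm_nonneg (T a)]
  · linarith [norm_sub_le (u n) (v n), hl (u n), hl (v n), hu n, hv n]
  · have h1 : Tendsto (fun n => √(4 - N (u n + v n) ^ 2)) atTop (𝓝 0) := by
      have := ((huv.pow 2).const_sub 4).sqrt
      norm_num at this
      exact this
    refine squeeze_zero (fun n => norm_nonneg _) (fun n => Real.le_sqrt_of_sq_le ?_) h1
    have a1 := parallelogram_law_with_norm ℝ (T (u n)) (T (v n))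
    have a2 := hsq (u n)
    have a3 := hsq (v n)
    have a4 := hsq (u n + v n)
    have a5 : N (u n) ^ 2 ≤ 1 := by nlinarith [hu n, h0 (u n)]
    have a6 : N (v n) ^ 2 ≤ 1 := by nlinarith [hv n, h0 (v n)]
    have a7 : ‖u n + v n‖ ^ 2 ≤ (‖u n‖ + ‖v n‖) ^ 2 := by gcongr; exact norm_add_le _ _
    rw [map_sub]
    rw [map_add] at a4
    nlinarith [sq_nonneg (‖u n‖ - ‖v n‖)]

lemma scale {V : Type} [AddCommGroup V] [Module ℝ V] (p q : V → ℝ) (c : ℝ) (hc : 0 < c)
    (hp : ∀ t : ℝ, 0 < t → ∀ x, p (t • x) = t * p x) (hq : ∀ t : ℝ, 0 < t → ∀ x, q (t • x) = t * q x)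
    (hq0 : ∀ x, 0 ≤ q x) (h : ∀ x, q x ≤ 1 → p x ≤ c) (x : V) : p x ≤ c * q x := by
  refine le_of_forall_pos_le_add fun ε hε => ?_
  have h1 : 0 < q x + ε / c := by have := hq0 x; positivity
  have := h ((q x + ε / c)⁻¹ • x) (by
    rw [hq _ (inv_pos.2 h1), inv_mul_le_iff₀ h1]; have : 0 < ε / c := by positivity
    linarith)
  rw [hp _ (inv_pos.2 h1), inv_mul_le_iff₀ h1] at this
  refine this.trans (le_of_eq ?_)
  field_simp

theorem wur_of {E I : Type} [SeminormedAddCommGroup E] [NormedSpace ℝ E] [DecidableEq I]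
    (e : I → E) (hd : DenseRange (Finsupp.linearCombination ℝ e)) (ρ : I → ℝ) (hρ : ∀ i, 0 < ρ i)
    (P : (I →₀ ℝ) → ℝ → Prop) (C : ℝ) (h0 : P 0 0)
    (ha : ∀ φ (S : Finset I), ‖Finsupp.linearCombination ℝ e φ‖ ≤ 1 → P (φ.filter (· ∉ S)) 1)
    (hb : ∀ φ ψ s t, Disjoint φ.support ψ.support → P φ s → P ψ t → P (φ + ψ) (s + t))
    (hc : ∀ φ (m : ℕ), 1 ≤ m → P φ (m ^ 4) → ‖Finsupp.linearCombination ℝ e φ‖ ≤ C * m ^ 3)
    (he : ∀ φ, P φ 1 → ∀ s : Finset I, ∑ i ∈ s, (ρ i * φ i) ^ 2 ≤ 1) : HasWUR E := by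
  set L := Finsupp.linearCombination ℝ e with hL
  set T0 : (I →₀ ℝ) →ₗ[ℝ] lp (fun _ : I => ℝ) 2 :=
    Finsupp.linearCombination ℝ fun i => lp.single 2 i (ρ i) with hT0
  have hco : ∀ φ i, T0 φ i = ρ i * φ i := by
    intro φ i
    induction φ using Finsupp.induction_linear with
    | zero => simp
    | add f g hf hg => simp [map_add, hf, hg, mul_add]
    | single j r =>
      rw [hT0, Finsupp.linearCombination_single]
      by_cases h : j = i
      · subst h; simp [mul_comm]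
      · simp [lp.single_apply, Ne.symm h]
  have hbd : ∀ φ, ‖T0 φ‖ ≤ 1 * ‖L φ‖ := by
    refine scale (fun φ => ‖T0 φ‖) (fun φ => ‖L φ‖) 1 one_pos
      (fun t ht x => by simp [norm_smul, abs_of_pos ht])
      (fun t ht x => by simp [norm_smul, abs_of_pos ht]) (fun _ => norm_nonneg _) fun φ hφ => ?_
    refine lp.norm_le_of_forall_sum_le (by simp) zero_le_one fun s => ?_
    have := he _ (ha φ ∅ hφ) s
    simpa [hco, mul_pow] using this
  set T := T0.extendOfNorm L with hT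
  have hTL : ∀ φ, T (L φ) = T0 φ := LinearMap.extendOfNorm_eq hd ⟨1, hbd⟩
  refine wur_of_T T (fun z => by simpa using LinearMap.norm_extendOfNorm_apply_le hd 1 hbd z)
    fun z hz hTz g => ?_
  have key : ∀ ε > 0, ∃ S : Finset I, ∀ φ : I →₀ ℝ, (∀ i ∈ S, φ i = 0) → P φ 1 → g (L φ) ≤ ε := by
    intro ε hε
    by_contra! hcon
    have h1 : ∀ k : ℕ, ∃ Φ, P Φ k ∧ k * ε ≤ g (L Φ) := by
      intro k
      induction k with
      | zero => exact ⟨0, by simpa using h0, by simp⟩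
      | succ k ih =>
        obtain ⟨Φ, h1, h2⟩ := ih
        obtain ⟨φ, h3, h4, h5⟩ := hcon Φ.support
        refine ⟨Φ + φ, by
          push_cast
          exact hb _ _ _ _ (disjoint_left.2 fun i hi hi' => Finsupp.mem_support_iff.1 hi' (h3 i hi))
            h1 h4, ?_⟩
        rw [map_add, map_add]; push_cast; linarith
    obtain ⟨m, hm⟩ := exists_nat_gt (‖g‖ * |C| / ε)
    obtain ⟨Φ, h2, h3⟩ := h1 ((m + 1) ^ 4)
    have h4 := hc Φ (m + 1) (by omega) (by exact_mod_cast h2)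
    have h5 := (le_abs_self _).trans (g.le_opNorm (L Φ))
    rw [div_lt_iff₀ hε] at hm
    push_cast at h3 h4
    have h6 : (0 : ℝ) < (m + 1) ^ 3 := by positivity
    have h7 : ‖g‖ * ‖L Φ‖ ≤ ‖g‖ * (|C| * (m + 1) ^ 3) := by
      gcongr; exact h4.trans (by gcongr; exact le_abs_self _)
    nlinarith [mul_lt_mul_of_pos_right hm h6, mul_pos hε h6]
  have key2 : ∀ ε > 0, ∃ S : Finset I, ∀ z, |g z - ∑ i ∈ S, T z i / ρ i * g (e i)| ≤ ε * ‖z‖ := by
    intro ε hε
    obtain ⟨S, hS⟩ := key ε hε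
    have h1 : ∀ z, g z - ∑ i ∈ S, T z i / ρ i * g (e i) ≤ ε * ‖z‖ := by
      intro z
      refine hd.induction_on z (isClosed_le ?_ (by fun_prop)) fun φ => ?_
      · refine g.continuous.sub (continuous_finsetSum _ fun i _ => ?_)
        exact (((lp.evalCLM ℝ (fun _ : I => ℝ) 2 i).continuous.comp T.continuous).div_const _).mul
          continuous_const
      · have h2 : g (L φ) - ∑ i ∈ S, T (L φ) i / ρ i * g (e i) = g (L (φ.filter (· ∉ S))) := by
          have h3 : L (φ.filter (· ∈ S)) = ∑ i ∈ S, φ i • e i := by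
            rw [hL, Finsupp.linearCombination_apply, Finsupp.sum_of_support_subset _ (s := S)
              (fun i hi => by simp at hi; exact hi.2) _ (by simp)]
            exact sum_congr rfl fun i hi => by simp [hi]
          have h4 := congrArg (fun x => g (L x)) (Finsupp.filter_add_filter_not φ (· ∈ S))
          simp only [map_add, h3, map_sum, map_smul, smul_eq_mul] at h4
          simp only [hTL, hco, fun i => mul_div_cancel_left₀ (φ i) (hρ i).ne']
          linarith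
        rw [h2]
        exact scale (fun φ => g (L (φ.filter (· ∉ S)))) (fun φ => ‖L φ‖) ε hε
          (fun t ht x => by simp [Finsupp.filter_smul])
          (fun t ht x => by simp [norm_smul, abs_of_pos ht]) (fun _ => norm_nonneg _)
          (fun φ hφ => hS _ (fun i hi => by simp [hi]) (ha φ S hφ)) φ
    refine ⟨S, fun z => abs_le.2 ⟨?_, h1 z⟩⟩
    have := h1 (-z)
    simp only [map_neg, lp.coeFn_neg, Pi.neg_apply, neg_div, neg_mul, sum_neg_distrib,
      norm_neg] at this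
    linarith
  rw [Metric.tendsto_nhds]
  intro ε hε
  obtain ⟨S, hS⟩ := key2 (ε / 4) (by positivity)
  have h1 : Tendsto (fun n => ∑ i ∈ S, T (z n) i / ρ i * g (e i)) atTop (𝓝 0) := by
    have : ∀ i, Tendsto (fun n => T (z n) i / ρ i * g (e i)) atTop (𝓝 0) := fun i => by
      have : Tendsto (fun n => T (z n) i) atTop (𝓝 0) :=
        squeeze_zero_norm (fun n => lp.norm_apply_le_norm (by simp) (T (z n)) i) hTz
      simpa using (this.div_const (ρ i)).mul_const (g (e i))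
    simpa using tendsto_finsetSum S fun i _ => this i
  filter_upwards [h1.eventually (Metric.ball_mem_nhds _ (show 0 < ε / 4 by positivity))] with n hn
  have a1 := abs_le.1 (hS (z n))
  have a2 := hz n
  rw [Real.dist_eq, sub_zero, abs_lt] at hn ⊢
  constructor <;> nlinarith [hn.1, hn.2, a1.1, a1.2]

def tr (n : ℕ) (x : ℕ → ℕ) : ℕ → ℕ := fun i => if i < n then x i else 0

lemma tr_eq {n : ℕ} {x y : ℕ → ℕ} : tr n x = tr n y ↔ ∀ i < n, x i = y i :=
  ⟨fun h i hi => by simpa [tr, hi] using congrFun h i,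
    fun h => funext fun i => by unfold tr; split_ifs with hi; exacts [h i hi, rfl]⟩

lemma tr_succ {n : ℕ} {x y : ℕ → ℕ} : tr (n + 1) x = tr (n + 1) y ↔ tr n x = tr n y ∧ x n = y n := by
  simp only [tr_eq]
  exact ⟨fun h => ⟨fun i hi => h i (by omega), h n (by omega)⟩, fun h i hi =>
    (Nat.lt_succ_iff_lt_or_eq.1 hi).elim (h.1 i) fun e => e ▸ h.2⟩

lemma tr_tr (n : ℕ) (x : ℕ → ℕ) : tr n (tr n x) = tr n x := tr_eq.2 fun i hi => by simp [tr, hi]

lemma baire (G : ℕ → Set (ℕ → ℕ)) (hG : ∀ x, ∃ k, x ∈ G k) :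
    ∃ k n u, ∀ c, ∃ y ∈ G k, tr n y = tr n u ∧ y n = c := by
  by_contra! h
  choose c hc using h
  let s : ℕ → ℕ → ℕ := fun n => Nat.rec (fun _ => 0) (fun k u => Function.update u k (c k k u)) n
  have hs : ∀ n i, i < n → s n i = s (i + 1) i := by
    intro n
    induction n with
    | zero => omega
    | succ n ih =>
      intro i hi
      rcases Nat.lt_succ_iff_lt_or_eq.1 hi with h | rfl
      · rw [← ih i h]; exact Function.update_of_ne h.ne _ _
      · rfl
  obtain ⟨k, hk⟩ := hG fun i => s (i + 1) i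
  exact hc k k (s k) _ hk (tr_eq.2 fun i hi => (hs k i hi).symm) (Function.update_self _ _ _)

theorem not_wur {E : Type} [SeminormedAddCommGroup E] [NormedSpace ℝ E]
    (h : (ℕ → ℕ) → E →L[ℝ] ℝ) (hh : ∀ x z, |h x z| ≤ ‖z‖) (u : ℕ → (ℕ → ℕ) → E)
    (hu : ∀ n x, h x (u n x) = 1)
    (hs : ∀ n (y : ℕ → ℕ → ℕ) (ε : ℕ → ℝ) (N : ℕ), (∀ c, tr n (y c) = tr n (y 0) ∧ y c n = c) →
      (∀ c, |ε c| ≤ 1) → ‖∑ c ∈ range N, ε c • u n (y c)‖ ≤ 1) : ¬ HasWUR E := by
  rintro ⟨N, hadd, hsm, ⟨c, C, hc, hC, hN⟩, hw⟩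
  have h1 : ∀ x, ∃ k : ℕ, ∀ p q, N p ≤ 1 → N q ≤ 1 → 2 / C ≤ h x (p - q) →
      N (p + q) ≤ 2 - 1 / (k + 1) := by
    intro x
    by_contra! hcon
    choose p q hp hq h2 h3 using hcon
    have h4 : Tendsto (fun n => N (p n + q n)) atTop (𝓝 2) := by
      refine tendsto_of_tendsto_of_tendsto_of_le_of_le (g := fun n : ℕ => 2 - 1 / ((n : ℝ) + 1))
        ?_ tendsto_const_nhds (fun n => (h3 n).le) fun n => by linarith [hadd (p n) (q n), hp n, hq n]
      simpa using (tendsto_one_div_add_atTop_nhds_zero_nat (𝕜 := ℝ)).const_sub 2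
    have := ge_of_tendsto' (hw p q hp hq h4 (h x)) h2
    have : 0 < 2 / C := by positivity
    linarith
  obtain ⟨k, n, u0, h2⟩ := baire _ h1
  choose y hy h3 h4 using h2
  have h5 : ∀ M : ℕ, ∃ ε : ℕ → ℝ, (∀ j, |ε j| ≤ 1) ∧
      M * (c / (2 * (k + 1))) ≤ N (∑ j ∈ range M, ε j • u n (y j)) := by
    intro M
    induction M with
    | zero => exact ⟨0, by simp, by simpa using (hN 0).1⟩
    | succ M ih =>
      obtain ⟨ε, hε, ih⟩ := ih
      set z := ∑ j ∈ range M, ε j • u n (y j) with hz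
      set w := u n (y M) with hw
      have hσ : ∀ σ : ℝ, ∑ j ∈ range (M + 1), Function.update ε M σ j • u n (y j) = z + σ • w := by
        intro σ
        rw [sum_range_succ, Function.update_self, hz]
        congr 1
        exact sum_congr rfl fun j hj => by rw [Function.update_of_ne (mem_range.1 hj).ne]
      have hσ' : ∀ σ : ℝ, |σ| ≤ 1 → ∀ j, |Function.update ε M σ j| ≤ 1 := fun σ h j => by
        rw [Function.update_apply]; split_ifs; exacts [h, hε j]
      have hb : ∀ σ : ℝ, |σ| ≤ 1 → N (z + σ • w) ≤ C := fun σ h => by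
        have := hs n y _ (M + 1) (fun c => ⟨(h3 c).trans (h3 0).symm, h4 c⟩) (hσ' σ h)
        rw [hσ] at this
        nlinarith [(hN (z + σ • w)).2]
      set R := max (N (z + (1 : ℝ) • w)) (N (z + (-1 : ℝ) • w)) with hR
      have hRC : R ≤ C := max_le (hb _ (by simp)) (hb _ (by simp))
      have hcR : c ≤ R := by
        have a1 := hadd (z + (1 : ℝ) • w) ((-1 : ℝ) • (z + (-1 : ℝ) • w))
        rw [show z + (1 : ℝ) • w + (-1 : ℝ) • (z + (-1 : ℝ) • w) = (2 : ℝ) • w by module,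
          hsm, hsm] at a1
        have a2 := hh (y M) w
        rw [hw, hu, ← hw] at a2
        have a3 := (hN w).1
        have a4 : N (z + (1 : ℝ) • w) ≤ R := le_max_left _ _
        have a5 : N (z + (-1 : ℝ) • w) ≤ R := le_max_right _ _
        rw [abs_two, abs_neg, abs_one] at a1
        rw [abs_one] at a2
        nlinarith
      have hR0 : 0 < R := hc.trans_le hcR
      have a1 := hy M (R⁻¹ • (z + (1 : ℝ) • w)) (R⁻¹ • (z + (-1 : ℝ) • w))
        (by rw [hsm, abs_of_pos (inv_pos.2 hR0), inv_mul_le_iff₀ hR0, mul_one]; exact le_max_left _ _)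
        (by rw [hsm, abs_of_pos (inv_pos.2 hR0), inv_mul_le_iff₀ hR0, mul_one]; exact le_max_right _ _)
        (by
          rw [show R⁻¹ • (z + (1 : ℝ) • w) - R⁻¹ • (z + (-1 : ℝ) • w) = (2 / R) • w by
            rw [div_eq_mul_inv]; module, map_smul, hw, hu, smul_eq_mul, mul_one]
          gcongr)
      rw [show R⁻¹ • (z + (1 : ℝ) • w) + R⁻¹ • (z + (-1 : ℝ) • w) = (2 / R) • z by
        rw [div_eq_mul_inv]; module, hsm, abs_of_pos (by positivity), div_mul_eq_mul_div,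
        div_le_iff₀ hR0] at a1
      have a2 : ((M + 1 : ℕ) : ℝ) * (c / (2 * (k + 1))) ≤ R := by
        have : c / (2 * (k + 1)) ≤ 1 / (k + 1) * R / 2 := by
          rw [show 1 / ((k : ℝ) + 1) * R / 2 = R / (2 * (k + 1)) by field_simp]; gcongr
        push_cast; nlinarith
      rcases le_max_iff.1 a2 with a3 | a3
      exacts [⟨_, hσ' 1 (by simp), by rwa [hσ]⟩, ⟨_, hσ' (-1) (by simp), by rwa [hσ]⟩]
  obtain ⟨M, hM⟩ := exists_nat_gt (C / (c / (2 * (k + 1))))
  obtain ⟨ε, hε, h6⟩ := h5 M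
  have := hs n y ε M (fun c => ⟨(h3 c).trans (h3 0).symm, h4 c⟩) hε
  rw [div_lt_iff₀ (by positivity)] at hM
  nlinarith [(hN (∑ j ∈ range M, ε j • u n (y j))).2]

end Pool.Agent.H87.WUR3
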