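import Pool.Agent.H87.WUR3a

namespace Pool.Agent.H87.WUR3

open Filter Topology Finset Classical

abbrev G := ℕ → ℕ
abbrev I := ℕ × G
def nd (j : I) : I := (j.1, tr j.1 j.2)
def lb (j : I) : ℕ := j.2 j.1

structure IsMass (m : ℕ → G → ℝ) : Prop where
  nn : ∀ n x, 0 ≤ m n x
  cg : ∀ n x y, tr n x = tr n y → m n x = m n y
  two : ∀ n x y, tr n x = tr n y → x n ≠ y n → m (n + 1) x + m (n + 1) y ≤ m n x

lemma IsMass.mono {m : ℕ → G → ℝ} (h : IsMass m) (n : ℕ) (x : G) : m (n + 1) x ≤ m n x := by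
  have := h.two n x (Function.update x n (x n + 1))
    (tr_eq.2 fun i hi => (Function.update_of_ne hi.ne _ _).symm) (by simp)
  linarith [h.nn (n + 1) (Function.update x n (x n + 1))]

def hv (m : ℕ → G → ℝ) (j : I) : Prop := m j.1 j.2 < 2 * m (j.1 + 1) j.2

lemma IsMass.uniq {m : ℕ → G → ℝ} (h : IsMass m) (i j : I) (e : nd i = nd j) (hi : hv m i)
    (hj : hv m j) : lb i = lb j := by
  obtain ⟨n, x⟩ := i
  obtain ⟨k, y⟩ := j
  obtain ⟨rfl, e⟩ : n = k ∧ tr n x = tr k y := Prod.ext_iff.1 e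
  by_contra hne
  have := h.two n x y e hne
  have := h.cg n x y e
  unfold hv at hi hj
  linarith

noncomputable def ms {κ : Type} (K : Finset κ) (c : κ → ℝ) (ok : κ → ℕ → Prop) (pt : κ → G)
    (n : ℕ) (x : G) : ℝ := ∑ k ∈ K, if ok k n ∧ tr n (pt k) = tr n x then c k else 0

lemma ms_mass {κ : Type} (K : Finset κ) (c : κ → ℝ) (ok : κ → ℕ → Prop) (pt : κ → G)
    (hc : ∀ k, 0 ≤ c k) (hok : ∀ k n, ok k (n + 1) → ok k n) : IsMass (ms K c ok pt) := by
  refine ⟨fun n x => sum_nonneg fun k _ => by split_ifs; exacts [hc k, le_rfl],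
    fun n x y h => by simp only [ms, h], fun n x y h hne => ?_⟩
  rw [ms, ms, ms, ← sum_add_distrib]
  refine sum_le_sum fun k _ => ?_
  have := hc k
  simp only [tr_succ]
  split_ifs with h1 h2 h3 h4 h5 h6 h7 <;> try linarith
  · exact absurd (h1.2.2.symm.trans h2.2.2) hne
  · exact absurd (h1.2.2.symm.trans h2.2.2) hne
  · exact absurd ⟨hok _ _ h1.1, h1.2.1⟩ h4
  · exact absurd ⟨hok _ _ h5.1, h5.2.1.trans h.symm⟩ h6

lemma ms_le {κ : Type} (K : Finset κ) (c : κ → ℝ) (ok : κ → ℕ → Prop) (pt : κ → G)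
    (hc : ∀ k, 0 ≤ c k) (n : ℕ) (x : G) : ms K c ok pt n x ≤ ∑ k ∈ K, c k :=
  sum_le_sum fun k _ => by split_ifs; exacts [le_rfl, hc k]

lemma le_ms {κ : Type} {K : Finset κ} {c : κ → ℝ} {ok : κ → ℕ → Prop} {pt : κ → G}
    (hc : ∀ k, 0 ≤ c k) {n : ℕ} {x : G} {k : κ} (hk : k ∈ K) (h1 : ok k n)
    (h2 : tr n (pt k) = tr n x) : c k ≤ ms K c ok pt n x := by
  refine le_trans (le_of_eq (if_pos ⟨h1, h2⟩).symm) (single_le_sum
    (f := fun k => if ok k n ∧ tr n (pt k) = tr n x then c k else 0) (fun k _ => ?_) hk)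
  split_ifs; exacts [hc k, le_rfl]

lemma IsMass.tele1 {m : ℕ → G → ℝ} (h : IsMass m) (x : G) (M : ℕ) :
    ∑ n ∈ range M, (if hv m (n, x) then 0 else m (n + 1) x) ≤ m 0 x - m M x := by
  induction M with
  | zero => simp
  | succ M ih =>
    rw [sum_range_succ]
    split_ifs with h1
    · linarith [h.mono M x]
    · simp only [hv, not_lt] at h1; linarith

lemma IsMass.tele2 {m : ℕ → G → ℝ} (h : IsMass m) (x : G) (M : ℕ) :
    ∑ n ∈ range M, (if hv m (n, x) then 0 else √(m n x)) ≤ 4 * (√(m 0 x) - √(m M x)) := by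
  induction M with
  | zero => simp
  | succ M ih =>
    rw [sum_range_succ]
    split_ifs with h1
    · linarith [Real.sqrt_le_sqrt (h.mono M x)]
    · simp only [hv, not_lt] at h1
      have : √(m (M + 1) x) ≤ 3 / 4 * √(m M x) := by
        refine Real.sqrt_le_iff.2 ⟨by positivity, ?_⟩
        rw [mul_pow, Real.sq_sqrt (h.nn _ _)]; linarith [h.nn M x]
      linarith

lemma sle {α : Type} (U V : Finset α) (h : α → ℝ) (h0 : ∀ x, 0 ≤ h x)
    (hz : ∀ x ∈ U, h x ≠ 0 → x ∈ V) : ∑ x ∈ U, h x ≤ ∑ x ∈ V, h x := by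
  rw [← sum_filter_of_ne (p := (· ∈ V)) hz]
  exact sum_le_sum_of_subset_of_nonneg (fun x hx => (mem_filter.1 hx).2) fun x _ _ => h0 x

lemma fiber (K : Finset I) (p : I → Prop) (hp : ∀ i j, nd i = nd j → p i → p j → lb i = lb j)
    (g w : I → ℝ) (hg0 : ∀ j, 0 ≤ g j)
    (hg : ∀ s c, ∑ j ∈ K with nd j = s ∧ lb j = c, g j ≤ w s) :
    ∑ j ∈ K, (if p j then g j else 0) ≤ ∑ s ∈ K.image nd, w s := by
  rw [← sum_fiberwise_of_maps_to (g := nd) fun j hj => mem_image_of_mem nd hj]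
  refine sum_le_sum fun s _ => ?_
  obtain ⟨c, hc⟩ : ∃ c, ∀ j, nd j = s → p j → lb j = c := by
    by_cases h : ∃ j, nd j = s ∧ p j
    · obtain ⟨j0, h1, h2⟩ := h
      exact ⟨lb j0, fun j h3 h4 => hp _ _ (h3.trans h1.symm) h4 h2⟩
    · exact ⟨0, fun j h3 h4 => absurd ⟨j, h3, h4⟩ h⟩
  refine le_trans ?_ (hg s c)
  rw [sum_filter, sum_filter]
  refine sum_le_sum fun j _ => ?_
  have := hg0 j
  split_ifs with h1 h2 h3 <;> try linarith
  exact absurd ⟨h1, hc j h1 h2⟩ h3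

lemma dbl (K : Finset I) (a : G →₀ ℝ) (ha : ∑ x ∈ a.support, a x ^ 2 ≤ 1) (g : I → ℝ)
    (hg0 : ∀ j, 0 ≤ g j) (B : ℝ) (hB0 : 0 ≤ B) (hB : ∀ x M, ∑ n ∈ range M, g (n, x) ≤ B) :
    ∑ j ∈ K, a j.2 ^ 2 * g j ≤ B := by
  refine (sle K (range (K.sup Prod.fst + 1) ×ˢ a.support) _
    (fun j => mul_nonneg (sq_nonneg _) (hg0 j)) fun j hj h => mem_product.2 ⟨mem_range.2
      (Nat.lt_succ_of_le (le_sup (f := Prod.fst) hj)), Finsupp.mem_support_iff.2 fun h0 => h
        (by simp [h0])⟩).trans ?_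
  rw [sum_product_right]
  refine (sum_le_sum (g := fun x => a x ^ 2 * B) fun x _ => ?_).trans ?_
  · rw [← mul_sum (a := a x ^ 2) (f := fun n => g (n, x))]
    exact mul_le_mul_of_nonneg_left (hB _ _) (sq_nonneg _)
  · rw [← sum_mul]; nlinarith

structure Dat (φ ν : I → ℝ) (t : ℝ) : Prop where
  nn : ∀ s, 0 ≤ ν s
  sm : ∀ F : Finset I, ∑ s ∈ F, ν s ^ 2 ≤ t
  bd : ∀ (K : Finset I) s c, ∑ j ∈ K with nd j = s ∧ lb j = c, φ j ^ 2 ≤ ν s ^ 3

lemma Dat.am {φ ν : I → ℝ} {t : ℝ} (h : Dat φ ν t) (j : I) (r : ℝ) :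
    |φ j * r| ≤ (r ^ 2 * ν (nd j) + φ j ^ 2 / ν (nd j)) / 2 := by
  have h1 := h.bd {j} (nd j) (lb j)
  rw [filter_singleton, if_pos ⟨rfl, rfl⟩, sum_singleton] at h1
  rcases (h.nn (nd j)).eq_or_lt with h0 | h0
  · rw [← h0] at h1 ⊢
    have : φ j = 0 := by nlinarith
    simp [this]
  · rw [le_div_iff₀ two_pos, ← mul_le_mul_iff_left₀ h0, add_mul, div_mul_cancel₀ _ h0.ne', abs_mul,
      ← sq_abs r, ← sq_abs (φ j)]
    nlinarith [sq_nonneg (|r| * ν (nd j) - |φ j|)]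

lemma Dat.s1 {φ ν : I → ℝ} (h : Dat φ ν 1) (K : Finset I) (p : I → Prop)
    (hp : ∀ i j, nd i = nd j → p i → p j → lb i = lb j) :
    ∑ j ∈ K, (if p j then φ j ^ 2 / ν (nd j) else 0) ≤ 1 := by
  refine (fiber K p hp _ (fun s => ν s ^ 2) (fun j => div_nonneg (sq_nonneg _) (h.nn _))
    fun s c => ?_).trans (h.sm _)
  rw [sum_congr rfl (g := fun j => φ j ^ 2 / ν s) fun j hj => by rw [(mem_filter.1 hj).2.1],
    ← sum_div]
  exact div_le_of_le_mul₀ (h.nn s) (sq_nonneg _) ((h.bd K s c).trans (le_of_eq (by ring)))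

noncomputable def mA (a : G →₀ ℝ) : ℕ → G → ℝ :=
  ms a.support (fun x => a x ^ 2) (fun _ _ => True) id

lemma mA_mass (a : G →₀ ℝ) : IsMass (mA a) := ms_mass _ _ _ _ (fun _ => sq_nonneg _) (by simp)

noncomputable def mF (K : Finset I) (ν : I → ℝ) : ℕ → G → ℝ :=
  ms (K.image nd) (fun s => ν s ^ 2) (fun s n => n ≤ s.1) Prod.snd

lemma mF_mass (K : Finset I) (ν : I → ℝ) : IsMass (mF K ν) :=
  ms_mass _ _ _ _ (fun _ => sq_nonneg _) fun _ _ h => by omega

lemma Dat.lift {φ ν : I → ℝ} (h : Dat φ ν 1) (K : Finset I) (a : G →₀ ℝ)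
    (ha : ∑ x ∈ a.support, a x ^ 2 ≤ 1) :
    |∑ j ∈ K, φ j * ((if hv (mA a) j then 0 else a j.2) - if hv (mF K ν) j then 0 else a j.2)|
      ≤ 4 := by
  have hA := mA_mass a
  have hF := mF_mass K ν
  have b1 := dbl K a ha (fun j => if hv (mF K ν) j then 0 else √(mF K ν j.1 j.2))
    (fun j => by positivity) 4 (by norm_num) fun x M => (hF.tele2 x M).trans (by
      have : √(mF K ν 0 x) ≤ 1 := Real.sqrt_le_one.2
        ((ms_le _ _ _ _ (fun _ => sq_nonneg _) _ _).trans (h.sm _))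
      linarith [Real.sqrt_nonneg (mF K ν M x)])
  have b2 := dbl K a ha (fun j => if hv (mA a) j then 0 else mA a (j.1 + 1) j.2)
    (fun j => by split_ifs; exacts [le_rfl, hA.nn _ _]) 1 (by norm_num) fun x M =>
      (hA.tele1 x M).trans (by
        have : mA a 0 x ≤ 1 := (ms_le _ _ _ _ (fun _ => sq_nonneg _) _ _).trans ha
        linarith [hA.nn M x])
  have b3 := h.s1 K _ hA.uniq
  have b4 := h.s1 K _ hF.uniq
  have b5 := (fiber K _ hF.uniq (fun j => a j.2 ^ 2 * ν (nd j) ^ 2 / mA a (j.1 + 1) j.2)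
    (fun s => ν s ^ 2) (fun j => div_nonneg (by positivity) (hA.nn _ _)) fun s c => by
      rcases (K.filter fun j => nd j = s ∧ lb j = c).eq_empty_or_nonempty with h0 | ⟨⟨n, x⟩, h0⟩
      · rw [h0, sum_empty]; positivity
      obtain ⟨-, rfl, rfl⟩ := mem_filter.1 h0
      have h1 : ∀ j ∈ K.filter fun j => nd j = nd (n, x) ∧ lb j = lb (n, x),
          j.1 = n ∧ tr (n + 1) j.2 = tr (n + 1) x := by
        rintro ⟨k, y⟩ hj
        obtain ⟨-, h2, h3⟩ := mem_filter.1 hj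
        obtain ⟨rfl, e⟩ : k = n ∧ tr k y = tr n x := Prod.ext_iff.1 h2
        exact ⟨rfl, tr_succ.2 ⟨e, h3⟩⟩
      rw [sum_congr rfl (g := fun j => a j.2 ^ 2 * (ν (nd (n, x)) ^ 2 / mA a (n + 1) x))
        fun j hj => by
          rw [(mem_filter.1 hj).2.1, (h1 j hj).1, hA.cg _ _ _ (h1 j hj).2, mul_div_assoc],
        ← sum_mul, ← mul_div_assoc]
      refine div_le_of_le_mul₀ (hA.nn _ _) (sq_nonneg _) ?_
      rw [mul_comm]
      refine mul_le_mul_of_nonneg_left ?_ (sq_nonneg _)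
      rw [← sum_image (g := Prod.snd) (f := fun x => a x ^ 2) fun i hi j hj e =>
        Prod.ext ((h1 i hi).1.trans (h1 j hj).1.symm) e]
      unfold mA ms
      refine le_trans (le_of_eq (sum_congr rfl fun y hy => ?_)) (sle _ a.support _
        (fun y => by positivity) fun y _ h2 => Finsupp.mem_support_iff.2 fun h3 => h2 (by simp [h3]))
      obtain ⟨j, hj, rfl⟩ := mem_image.1 hy
      rw [if_pos ⟨trivial, (h1 j hj).2⟩]).trans (h.sm _)
  refine (abs_sum_le_sum_abs _ _).trans ((sum_le_sum (g := fun j =>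
    (a j.2 ^ 2 * (if hv (mF K ν) j then 0 else √(mF K ν j.1 j.2)) +
      (a j.2 ^ 2 * (if hv (mA a) j then 0 else mA a (j.1 + 1) j.2)) / 2 +
      (if hv (mA a) j then φ j ^ 2 / ν (nd j) else 0) +
      (if hv (mF K ν) j then φ j ^ 2 / ν (nd j) else 0) +
      (if hv (mF K ν) j then a j.2 ^ 2 * ν (nd j) ^ 2 / mA a (j.1 + 1) j.2 else 0) / 2) / 2)
    fun j hj => ?_).trans ?_)
  · have c0 := h.nn (nd j)
    have c1 := hA.nn (j.1 + 1) j.2
    have c2 := h.am j (a j.2)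
    split_ifs with h1 h2 h2
    · simp only [sub_self, mul_zero, abs_zero]; positivity
    · have : ν (nd j) ≤ √(mF K ν j.1 j.2) := Real.le_sqrt_of_sq_le
        (le_ms (c := fun s => ν s ^ 2) (fun _ => sq_nonneg _) (mem_image_of_mem nd hj) le_rfl
          (tr_tr _ _))
      rw [zero_sub, mul_neg, abs_neg]
      nlinarith [mul_le_mul_of_nonneg_left this (sq_nonneg (a j.2))]
    · have : a j.2 ^ 2 * ν (nd j) ≤ (a j.2 ^ 2 * mA a (j.1 + 1) j.2 +
          a j.2 ^ 2 * ν (nd j) ^ 2 / mA a (j.1 + 1) j.2) / 2 := by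
        by_cases h0 : a j.2 = 0
        · simp [h0]
        have h3 : 0 < mA a (j.1 + 1) j.2 := lt_of_lt_of_le (by positivity)
          (le_ms (c := fun x => a x ^ 2) (fun _ => sq_nonneg _)
            (Finsupp.mem_support_iff.2 h0) trivial rfl)
        rw [le_div_iff₀ two_pos, ← mul_le_mul_iff_left₀ h3, add_mul, div_mul_cancel₀ _ h3.ne']
        nlinarith [mul_nonneg (sq_nonneg (a j.2)) (sq_nonneg (mA a (j.1 + 1) j.2 - ν (nd j)))]
      rw [sub_zero]
      linarith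
    · simp only [sub_self, mul_zero, abs_zero]; positivity
  · simp only [← sum_div, sum_add_distrib]
    linarith

def AdmB (b : I → ℝ) : Prop := ∃ (sel : I → ℕ) (μ : I → ℝ), (∀ F : Finset I, ∑ s ∈ F, μ s ^ 2 ≤ 1) ∧
  (∀ j, b j ≠ 0 → lb j = sel (nd j)) ∧ ∀ (K : Finset I) s, ∑ j ∈ K with nd j = s, b j ^ 2 ≤ μ s

lemma AdmB.bd {b : I → ℝ} (h : AdmB b) (j : I) : |b j| ≤ 1 := by
  obtain ⟨sel, μ, h1, -, h2⟩ := h
  have a1 := h1 {nd j}
  have a2 := h2 {j} (nd j)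
  rw [filter_singleton, if_pos rfl, sum_singleton] at a2
  rw [sum_singleton] at a1
  refine (sq_le_one_iff_abs_le_one _).1 ?_
  nlinarith [sq_nonneg (b j)]

lemma AdmB.res {b : I → ℝ} (h : AdmB b) (p : I → Prop) : AdmB fun j => if p j then b j else 0 := by
  obtain ⟨sel, μ, h1, h2, h3⟩ := h
  refine ⟨sel, μ, h1, fun j hj => h2 j fun h => hj (by simp [h]), fun K s =>
    (sum_le_sum fun j _ => ?_).trans (h3 K s)⟩
  beta_reduce
  split_ifs
  exacts [le_rfl, by simpa using sq_nonneg (b j)]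

lemma Dat.bB {φ ν b : I → ℝ} (h : Dat φ ν 1) (hb : AdmB b) (K : Finset I) :
    |∑ j ∈ K, φ j * b j| ≤ 1 := by
  obtain ⟨sel, μ, h1, h2, h3⟩ := hb
  have b1 : ∑ j ∈ K, (if b j ≠ 0 then φ j ^ 2 / ν (nd j) else 0) ≤ 1 := by
    convert h.s1 K (fun j => b j ≠ 0) fun i j e hi hj => by rw [h2 i hi, h2 j hj, e]
  have b2 : ∑ j ∈ K, b j ^ 2 * ν (nd j) ≤ 1 := by
    rw [← sum_fiberwise_of_maps_to (g := nd) fun j hj => mem_image_of_mem nd hj]
    refine (sum_le_sum (g := fun s => (μ s ^ 2 + ν s ^ 2) / 2) fun s _ => ?_).trans ?_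
    · rw [sum_congr rfl (g := fun j => b j ^ 2 * ν s) fun j hj => by rw [(mem_filter.1 hj).2],
        ← sum_mul]
      nlinarith [mul_le_mul_of_nonneg_right (h3 K s) (h.nn s), sq_nonneg (μ s - ν s)]
    · rw [← sum_div, sum_add_distrib]; linarith [h1 (K.image nd), h.sm (K.image nd)]
  refine (abs_sum_le_sum_abs _ _).trans ((sum_le_sum (g := fun j => (b j ^ 2 * ν (nd j) +
    if b j ≠ 0 then φ j ^ 2 / ν (nd j) else 0) / 2) fun j _ => ?_).trans ?_)
  · split_ifs with h0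
    · exact h.am j _
    · simp [not_not.1 h0]
  · rw [← sum_div, sum_add_distrib]; linarith

lemma exists_dat (φ : I →₀ ℝ) (h : ∀ b, AdmB b → ∑ j ∈ φ.support, φ j * b j ≤ 1) :
    ∃ ν, Dat φ ν 1 := by
  set B : I → ℕ → ℝ := fun s c => ∑ j ∈ φ.support with nd j = s ∧ lb j = c, φ j ^ 2 with hB
  have hB0 : ∀ s c, 0 ≤ B s c := fun s c => sum_nonneg fun _ _ => sq_nonneg _
  have hK : ∀ (K : Finset I) s c, ∑ j ∈ K with nd j = s ∧ lb j = c, φ j ^ 2 ≤ B s c :=
    fun K s c => sle _ _ _ (fun _ => sq_nonneg _) fun j hj h0 => mem_filter.2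
      ⟨Finsupp.mem_support_iff.2 fun h1 => h0 (by simp [h1]), (mem_filter.1 hj).2⟩
  have : ∀ s, ∃ c, ∀ d, B s d ≤ B s c := fun s => by
    obtain ⟨_, ⟨c, rfl⟩, hc⟩ := Set.exists_max_image (Set.range (B s)) id
      ((φ.support.powerset.image fun T => ∑ j ∈ T, φ j ^ 2).finite_toSet.subset (by
        rintro _ ⟨c, rfl⟩
        exact mem_coe.2 (mem_image.2 ⟨_, mem_powerset.2 (filter_subset _ _), rfl⟩)))
      (Set.range_nonempty _)
    exact ⟨c, fun d => hc _ ⟨d, rfl⟩⟩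
  choose sel hsel using this
  set ν : I → ℝ := fun s => B s (sel s) ^ ((3 : ℕ) : ℝ)⁻¹ with hν
  have hν0 : ∀ s, 0 ≤ ν s := fun s => Real.rpow_nonneg (hB0 _ _) _
  have hν3 : ∀ s, ν s ^ 3 = B s (sel s) := fun s => Real.rpow_inv_natCast_pow (hB0 _ _) (by norm_num)
  refine ⟨ν, hν0, fun F => ?_, fun K s c => (hK K s c).trans ((hsel s c).trans (hν3 s).ge)⟩
  by_contra! hQ
  set Q := ∑ s ∈ F, ν s ^ 2 with hQd
  set Z := √√Q with hZ
  have hZ2 : Z ^ 2 = √Q := Real.sq_sqrt (Real.sqrt_nonneg _)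
  have hZ4 : (Z ^ 2) ^ 2 = Q := by rw [hZ2, Real.sq_sqrt (by linarith)]
  have hZ1 : 1 < Z := Real.lt_sqrt_of_sq_lt (Real.lt_sqrt_of_sq_lt (by linarith))
  have hdiv : ∀ s, B s (sel s) / ν s = ν s ^ 2 := fun s => by
    rw [← hν3]; rcases (hν0 s).eq_or_lt with h0 | h0
    · simp [← h0]
    · field_simp
  have hdiv2 : ∀ s, B s (sel s) / ν s ^ 2 = ν s := fun s => by
    rw [← hν3]; rcases (hν0 s).eq_or_lt with h0 | h0
    · simp [← h0]
    · field_simp
  have h1 := h (fun j => if nd j ∈ F ∧ lb j = sel (nd j) then φ j / (ν (nd j) * Z) else 0)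
    ⟨sel, fun s => if s ∈ F then ν s / Z ^ 2 else 0, fun T => ?_, fun j hj => ?_, fun K s => ?_⟩
  · have h2 : ∑ j ∈ φ.support, φ j * (if nd j ∈ F ∧ lb j = sel (nd j) then φ j / (ν (nd j) * Z)
        else 0) = Q / Z := by
      rw [hQd, sum_div, ← sum_filter_of_ne (p := fun j => nd j ∈ F) fun j _ h0 => by
        by_contra h3; simp [h3] at h0, ← sum_fiberwise_of_maps_to (g := nd) (t := F)
        fun j hj => (mem_filter.1 hj).2]
      refine sum_congr rfl fun s hs => ?_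
      rw [← hdiv, hB, div_div, sum_div, filter_filter, sum_filter, sum_filter]
      refine sum_congr rfl fun j _ => ?_
      by_cases h3 : nd j = s
      · simp only [h3, hs, true_and, if_true]
        split_ifs
        exacts [by ring, by simp]
      · simp [h3]
    rw [h2, div_le_one (by linarith)] at h1
    nlinarith [mul_pos (sub_pos.2 hZ1) (sub_pos.2 hZ1), mul_pos (sub_pos.2 hZ1) (by positivity : 0 < Z ^ 2)]
  · refine (sle T F _ (fun _ => sq_nonneg _) fun s _ h0 => by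
      by_contra h3; simp [h3] at h0).trans (le_of_eq ?_)
    rw [sum_congr rfl (g := fun s => ν s ^ 2 / Q) fun s hs => by rw [if_pos hs, div_pow, hZ4],
      ← sum_div, div_self (by linarith)]
  · by_contra h3; simp [h3] at hj
  · beta_reduce
    split_ifs with hs
    · rw [← hdiv2, div_div]
      refine le_trans (le_of_eq ?_) (div_le_div_of_nonneg_right (hK K s (sel s)) (by positivity))
      rw [sum_div, sum_filter, sum_filter]
      refine sum_congr rfl fun j _ => ?_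
      by_cases h3 : nd j = s
      · simp only [h3, hs, true_and, if_true]
        split_ifs
        exacts [by rw [div_pow, mul_pow], by simp]
      · simp [h3]
    · exact le_of_eq (sum_eq_zero fun j hj => by simp [(mem_filter.1 hj).2, hs])

lemma Dat.add {φ ψ : I →₀ ℝ} {ν μ : I → ℝ} {s t : ℝ} (hd : Disjoint φ.support ψ.support)
    (h1 : Dat φ ν s) (h2 : Dat ψ μ t) : Dat (φ + ψ : I →₀ ℝ) (fun j => √(ν j ^ 2 + μ j ^ 2)) (s + t) := by
  refine ⟨fun _ => Real.sqrt_nonneg _, fun F => ?_, fun K u c => ?_⟩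
  · rw [sum_congr rfl fun j _ => Real.sq_sqrt (by positivity), sum_add_distrib]
    linarith [h1.sm F, h2.sm F]
  · rw [sum_congr rfl (g := fun j => φ j ^ 2 + ψ j ^ 2) fun j _ => by
      by_cases h : φ j = 0
      · simp [h]
      · simp [Finsupp.notMem_support_iff.1 (disjoint_left.1 hd (Finsupp.mem_support_iff.2 h))],
      sum_add_distrib, pow_succ (√_) 2, Real.sq_sqrt (by positivity)]
    have a1 : ν u ≤ √(ν u ^ 2 + μ u ^ 2) := Real.le_sqrt_of_sq_le (by nlinarith)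
    have a2 : μ u ≤ √(ν u ^ 2 + μ u ^ 2) := Real.le_sqrt_of_sq_le (by nlinarith)
    nlinarith [h1.bd K u c, h2.bd K u c, mul_le_mul_of_nonneg_left a1 (sq_nonneg (ν u)),
      mul_le_mul_of_nonneg_left a2 (sq_nonneg (μ u))]

lemma Dat.smul {φ ν : I → ℝ} {m : ℝ} (hm : 0 < m) (h : Dat φ ν (m ^ 4)) :
    Dat (fun j => (m ^ 3)⁻¹ * φ j) (fun j => ν j / m ^ 2) 1 := by
  refine ⟨fun j => div_nonneg (h.nn j) (sq_nonneg _), fun F => ?_, fun K u c => ?_⟩
  · simp only [div_pow, ← sum_div]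
    exact div_le_one_of_le₀ ((h.sm F).trans (le_of_eq (by ring))) (by positivity)
  · simp only [mul_pow, ← mul_sum]
    refine (mul_le_mul_of_nonneg_left (h.bd K u c) (sq_nonneg _)).trans (le_of_eq ?_)
    field_simp

lemma Dat.hil {φ ν : I → ℝ} (h : Dat φ ν 1) (K : Finset I) :
    ∑ j ∈ K, ((1 / 2) ^ (lb j + 1) * φ j) ^ 2 ≤ 1 := by
  rw [← sum_fiberwise_of_maps_to (g := fun j => (nd j, lb j)) (t := K.image nd ×ˢ K.image lb)
    fun j hj => mem_product.2 ⟨mem_image_of_mem _ hj, mem_image_of_mem _ hj⟩]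
  refine (sum_le_sum (g := fun p => ν p.1 ^ 2 * (1 / 2 / 2 ^ p.2)) fun p _ => ?_).trans ?_
  · rw [sum_congr rfl (g := fun j => ((1 / 2) ^ (p.2 + 1)) ^ 2 * φ j ^ 2) fun j hj => by
      rw [← (mem_filter.1 hj).2, mul_pow], ← mul_sum, mul_comm]
    have a1 := h.bd K p.1 p.2
    have a2 := h.sm {p.1}
    rw [sum_singleton] at a2
    have a3 : ν p.1 ≤ 1 := by nlinarith
    simp only [Prod.ext_iff (y := p)]
    refine mul_le_mul (a1.trans ?_) ?_ (by positivity) (by positivity)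
    · nlinarith [mul_le_mul_of_nonneg_left a3 (sq_nonneg (ν p.1))]
    · rw [show (1 : ℝ) / 2 / 2 ^ p.2 = (1 / 2) ^ (p.2 + 1) by rw [pow_succ, one_div_pow]; ring]
      exact pow_le_of_le_one (by positivity) (pow_le_one₀ (by norm_num) (by norm_num)) two_ne_zero
  · rw [sum_product]
    dsimp only
    rw [← sum_mul_sum]
    have := ((hasSum_geometric_two' 1).summable.sum_le_tsum (K.image lb)
      fun _ _ => by positivity).trans (tsum_geometric_two' 1).le
    exact mul_le_one₀ (h.sm _) (by positivity) this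

end Pool.Agent.H87.WUR3
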