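import Pool.Agent.H87.WUR3b

namespace Pool.Agent.H87.WUR3

open Filter Topology Finset Classical
open scoped ENNReal

abbrev J := G ⊕ I

noncomputable def wA (a : G →₀ ℝ) : J → ℝ := Sum.elim a fun j => if hv (mA a) j then 0 else a j.2
def wB (b : I → ℝ) : J → ℝ := Sum.elim (fun _ => 0) b

def Adm (w : J → ℝ) : Prop :=
  (∃ a : G →₀ ℝ, ∑ x ∈ a.support, a x ^ 2 ≤ 1 ∧ w = wA a) ∨ ∃ b, AdmB b ∧ w = wB b

abbrev W := {w // Adm w}

lemma a_bd {a : G →₀ ℝ} (ha : ∑ x ∈ a.support, a x ^ 2 ≤ 1) (x : G) : |a x| ≤ 1 := by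
  refine (sq_le_one_iff_abs_le_one _).1 (le_trans ?_ ha)
  simpa using sle {x} a.support (fun x => a x ^ 2) (fun _ => sq_nonneg _)
    fun y _ h => Finsupp.mem_support_iff.2 fun h1 => h (by simp [h1])

lemma W.bd (w : W) (j : J) : |w.1 j| ≤ 1 := by
  obtain ⟨_, ⟨a, ha, rfl⟩ | ⟨b, hb, rfl⟩⟩ := w <;> rcases j with x | j
  · exact a_bd ha x
  · simp only [wA, Sum.elim_inr]
    split_ifs
    exacts [by simp, a_bd ha _]
  · simp [wB]
  · exact hb.bd j

lemma dense_cl {V ι : Type} [NormedAddCommGroup V] [NormedSpace ℝ V] (v : ι → V) :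
    DenseRange (Finsupp.linearCombination ℝ fun i => (⟨v i, Submodule.le_topologicalClosure _
      (Submodule.subset_span ⟨i, rfl⟩)⟩ : (Submodule.span ℝ (Set.range v)).topologicalClosure)) := by
  intro x
  refine closure_subtype.2 (closure_mono ?_ x.2)
  intro y hy
  rw [← Finsupp.range_linearCombination] at hy
  obtain ⟨φ, rfl⟩ := hy
  exact ⟨_, ⟨φ, rfl⟩, Finsupp.apply_linearCombination ℝ (Submodule.subtype _) _ φ⟩

abbrev Z := lp (fun _ : W => ℝ) ∞

noncomputable def ez (j : J) : Z :=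
  ⟨fun w => w.1 j, memℓp_infty ⟨1, by rintro _ ⟨w, rfl⟩; exact w.bd j⟩⟩

def X : Type := (Submodule.span ℝ (Set.range ez)).topologicalClosure

noncomputable instance : NormedAddCommGroup X :=
  inferInstanceAs (NormedAddCommGroup (Submodule.span ℝ (Set.range ez)).topologicalClosure)
noncomputable instance : NormedSpace ℝ X :=
  inferInstanceAs (NormedSpace ℝ (Submodule.span ℝ (Set.range ez)).topologicalClosure)
instance : CompleteSpace X := (Submodule.isClosed_topologicalClosure _).completeSpace_coe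

noncomputable def e (j : J) : X :=
  ⟨ez j, Submodule.le_topologicalClosure _ (Submodule.subset_span ⟨j, rfl⟩)⟩

noncomputable def ev (w : W) : X →L[ℝ] ℝ :=
  (lp.evalCLM ℝ (fun _ : W => ℝ) ∞ w).comp
    (Submodule.span ℝ (Set.range ez)).topologicalClosure.subtypeL

@[simp] lemma ev_e (w : W) (j : J) : ev w (e j) = w.1 j := rfl

lemma ev_le (w : W) (x : X) : |ev w x| ≤ ‖x‖ := lp.norm_apply_le_norm (by simp) x.1 w

lemma norm_le {x : X} {M : ℝ} (hM : 0 ≤ M)
    (h1 : ∀ a ha, |ev ⟨wA a, .inl ⟨a, ha, rfl⟩⟩ x| ≤ M)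
    (h2 : ∀ b hb, |ev ⟨wB b, .inr ⟨b, hb, rfl⟩⟩ x| ≤ M) : ‖x‖ ≤ M :=
  lp.norm_le_of_forall_le (f := x.1) hM (by
    rintro ⟨_, ⟨a, ha, rfl⟩ | ⟨b, hb, rfl⟩⟩
    exacts [h1 a ha, h2 b hb])

lemma dense : DenseRange (Finsupp.linearCombination ℝ e) := dense_cl ez

lemma ev_lc {ι : Type} (w : W) (g : ι → J) (f : ι →₀ ℝ) :
    ev w (Finsupp.linearCombination ℝ (fun i => e (g i)) f) = ∑ i ∈ f.support, f i * w.1 (g i) := by
  simp [Finsupp.linearCombination_apply, Finsupp.sum]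

noncomputable def Y : Submodule ℝ X :=
  (Submodule.span ℝ (Set.range fun x => e (.inl x))).topologicalClosure

lemma e_mem (x : G) : e (.inl x) ∈ Y :=
  Submodule.le_topologicalClosure _ (Submodule.subset_span ⟨x, rfl⟩)

theorem wur_Y : HasWUR Y := by
  have hn : ∀ f : G →₀ ℝ, ‖Finsupp.linearCombination ℝ (fun x => (⟨e (.inl x), e_mem x⟩ : Y)) f‖ =
      ‖Finsupp.linearCombination ℝ (fun x => e (.inl x)) f‖ := fun f =>
    congrArg norm (Finsupp.apply_linearCombination ℝ Y.subtype _ f)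
  refine wur_of (fun x => ⟨e (.inl x), e_mem x⟩) (dense_cl _) (fun _ => 1) (fun _ => one_pos)
    (fun f t => ∀ K : Finset G, ∑ x ∈ K, f x ^ 2 ≤ t) 1 (by simp) (fun f S hf K => ?_)
    (fun f g s t hd h1 h2 K => ?_) (fun f m hm hf => ?_) fun f hf K => by simpa using hf K
  · have h0 : ∑ x ∈ K, f.filter (· ∉ S) x ^ 2 ≤ ∑ x ∈ K, f x ^ 2 := sum_le_sum fun x _ => by
      rw [Finsupp.filter_apply]; split_ifs
      exacts [by simpa using sq_nonneg (f x), le_rfl]
    refine h0.trans ((sle K f.support (fun x => f x ^ 2) (fun _ => sq_nonneg _)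
      fun y _ h => Finsupp.mem_support_iff.2 fun h1 => h (by simp [h1])).trans ?_)
    by_contra! hQ
    set Q := ∑ x ∈ f.support, f x ^ 2 with hQd
    have h1 : 1 < √Q := Real.lt_sqrt_of_sq_lt (by linarith)
    have h2 : √Q ^ 2 = Q := Real.sq_sqrt (by linarith)
    have h3 := (le_abs_self _).trans ((ev_le ⟨wA ((√Q)⁻¹ • f), .inl ⟨_, by
      rw [Finsupp.support_smul_eq (by positivity)]
      simp only [Finsupp.smul_apply, smul_eq_mul, mul_pow, ← mul_sum, ← hQd, inv_pow, h2]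
      exact (inv_mul_cancel₀ (by linarith)).le, rfl⟩⟩ _).trans ((hn f).ge.trans hf))
    rw [ev_lc, sum_congr rfl (g := fun x => (√Q)⁻¹ * f x ^ 2) fun x _ => by simp [wA]; ring,
      ← mul_sum, ← hQd, inv_mul_le_iff₀ (by linarith)] at h3
    nlinarith
  · rw [sum_congr rfl (g := fun j => f j ^ 2 + g j ^ 2) fun j _ => by
      by_cases h : f j = 0
      · simp [h]
      · simp [Finsupp.notMem_support_iff.1 (disjoint_left.1 hd (Finsupp.mem_support_iff.2 h))],
      sum_add_distrib]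
    linarith [h1 K, h2 K]
  · have hm' : (1 : ℝ) ≤ m := by exact_mod_cast hm
    rw [hn]
    refine norm_le (by positivity) (fun a ha => ?_) fun b hb => ?_ <;> rw [ev_lc]
    · have h1 := (sle f.support a.support (fun x => a x ^ 2) (fun _ => sq_nonneg _)
        fun y _ h => Finsupp.mem_support_iff.2 fun h1 => h (by simp [h1])).trans ha
      have h2 := sum_mul_sq_le_sq_mul_sq f.support f a
      refine abs_le_of_sq_le_sq (h2.trans ?_) (by positivity)
      have h3 := mul_le_mul (hf f.support) h1 (by positivity) (by positivity)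
      have h4 : (m : ℝ) ^ 4 ≤ m ^ 6 := pow_le_pow_right₀ hm' (by norm_num)
      nlinarith
    · simp [wB]

lemma ev_quot {b : I → ℝ} (hb : AdmB b) (x : X) :
    |ev ⟨wB b, .inr ⟨b, hb, rfl⟩⟩ x| ≤ ‖Y.mkQ x‖ := by
  refine QuotientAddGroup.le_norm_iff.2 fun m hm => ?_
  have h1 : m - x ∈ Y := (Submodule.Quotient.eq Y).1 hm
  have h2 : Y ≤ LinearMap.ker (ev ⟨wB b, .inr ⟨b, hb, rfl⟩⟩ : X →ₗ[ℝ] ℝ) :=
    Submodule.topologicalClosure_minimal _ (Submodule.span_le.2 (by rintro _ ⟨x, rfl⟩; rfl))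
      (ContinuousLinearMap.isClosed_ker _)
  have h3 : ev ⟨wB b, .inr ⟨b, hb, rfl⟩⟩ (m - x) = 0 := h2 h1
  rw [map_sub, sub_eq_zero] at h3
  rw [← h3]
  exact ev_le _ _

lemma quot_le {φ : I →₀ ℝ} {ν : I → ℝ} (h : Dat φ ν 1) :
    ‖Y.mkQ (Finsupp.linearCombination ℝ (fun j => e (.inr j)) φ)‖ ≤ 4 := by
  set y := ∑ j ∈ φ.support, (if hv (mF φ.support ν) j then 0 else φ j) • e (.inl j.2) with hy
  have h1 : y ∈ Y := Y.sum_mem fun j _ => Y.smul_mem _ (e_mem _)
  rw [← sub_zero (Y.mkQ _), ← (Submodule.Quotient.mk_eq_zero Y).2 h1, ← Submodule.mkQ_apply,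
    ← map_sub]
  refine (Submodule.Quotient.norm_mk_le Y _).trans (norm_le (by norm_num) (fun a ha => ?_)
    fun b hb => ?_) <;> rw [map_sub, ev_lc, hy, map_sum, ← sum_sub_distrib]
  · convert h.lift φ.support a ha using 3 with j
    simp only [wA, map_smul, ev_e, Sum.elim_inl, Sum.elim_inr, smul_eq_mul]
    split_ifs <;> ring
  · refine le_trans (le_of_eq ?_) ((h.bB hb φ.support).trans (by norm_num))
    simp only [wB, map_smul, ev_e, Sum.elim_inl, Sum.elim_inr, smul_zero, sub_zero]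

theorem wur_Q : HasWUR (X ⧸ Y) := by
  have hn : ∀ φ : I →₀ ℝ, Finsupp.linearCombination ℝ (fun j => Y.mkQ (e (.inr j))) φ =
      Y.mkQ (Finsupp.linearCombination ℝ (fun j => e (.inr j)) φ) := fun φ =>
    (Finsupp.apply_linearCombination ℝ Y.mkQ _ φ).symm
  refine wur_of (fun j => Y.mkQ (e (.inr j))) ?_ (fun j => (1 / 2) ^ (lb j + 1))
    (fun _ => by positivity) (fun φ t => ∃ ν, Dat φ ν t) 4 ⟨0, by simp, by simp, by simp⟩
    (fun φ S hφ => exists_dat _ fun b hb => ?_) (fun φ ψ s t hd ⟨_, h1⟩ ⟨_, h2⟩ => ⟨_, h1.add hd h2⟩)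
    (fun φ m hm ⟨ν, h⟩ => ?_) fun φ ⟨ν, h⟩ K => h.hil K
  · refine Dense.mono ?_ (Y.mkQ_surjective.denseRange.comp dense
      (AddMonoidHomClass.continuous_of_bound Y.mkQ 1 fun x => by
        simpa using Submodule.Quotient.norm_mk_le Y x))
    rintro _ ⟨ξ, rfl⟩
    induction ξ using Finsupp.induction_linear with
    | zero => exact ⟨0, by simp⟩
    | add f g hf hg =>
      obtain ⟨f', hf⟩ := hf
      obtain ⟨g', hg⟩ := hg
      exact ⟨f' + g', by simp only [map_add, hf, hg, Function.comp]⟩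
    | single j r =>
      rcases j with x | j
      · exact ⟨0, by simp [(Submodule.Quotient.mk_eq_zero Y).2 (e_mem x)]⟩
      · exact ⟨.single j r, by simp⟩
  · have h1 := (le_abs_self _).trans ((ev_quot (hb.res (· ∉ S)) _).trans ((congrArg norm
      (hn φ)).ge.trans hφ))
    rw [ev_lc] at h1
    refine le_trans (le_of_eq ?_) h1
    rw [Finsupp.support_filter, sum_filter]
    refine sum_congr rfl fun j _ => ?_
    by_cases h : j ∈ S <;> simp [wB, h]
  · have hm' : (0 : ℝ) < m := by exact_mod_cast hm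
    have h1 := quot_le (φ := ((m : ℝ) ^ 3)⁻¹ • φ) (h.smul hm')
    rw [map_smul, map_smul, norm_smul, Real.norm_of_nonneg (by positivity),
      inv_mul_le_iff₀ (by positivity)] at h1
    rw [hn]; linarith

lemma one_term (g : ℕ → ℝ) (h1 : ∀ c, |g c| ≤ 1) (h2 : ∀ c d, g c ≠ 0 → g d ≠ 0 → c = d) (N : ℕ) :
    |∑ c ∈ range N, g c| ≤ 1 := by
  by_cases h : ∃ c ∈ range N, g c ≠ 0
  · obtain ⟨c, hc, h⟩ := h
    rw [sum_eq_single_of_mem c hc fun d _ hd => by_contra fun h3 => hd (h2 d c h3 h)]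
    exact h1 c
  · push Not at h
    simp [sum_eq_zero h]

theorem not_wur_X : ¬ HasWUR X := by
  refine not_wur (fun x => ev ⟨wA (.single x 1), .inl ⟨_, by
    simp, rfl⟩⟩) (fun x z => ev_le _ _)
    (fun n x => e (.inl x) - e (.inr (n, x))) (fun n x => ?_) fun n y ε N hy hε => ?_
  · simp [wA, hv, mA, ms]
  · have hnd : ∀ c d, nd (n, y c) = nd (n, y d) := fun c d =>
      Prod.ext rfl ((hy c).1.trans (hy d).1.symm)
    refine norm_le zero_le_one (fun a ha => ?_) fun b hb => ?_ <;> rw [map_sum] <;>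
      refine one_term _ (fun c => ?_) (fun c d hc hd => ?_) N
    · simp only [wA, map_smul, map_sub, ev_e, Sum.elim_inl, Sum.elim_inr, smul_eq_mul, abs_mul]
      refine mul_le_one₀ (hε c) (abs_nonneg _) ?_
      split_ifs
      exacts [by simpa using a_bd ha _, by simp]
    · exact (hy c).2.symm.trans (((mA_mass a).uniq _ _ (hnd c d)
        (by_contra fun h => hc (by simp [wA, h])) (by_contra fun h => hd (by simp [wA, h]))).trans
          (hy d).2)
    · simp only [wB, map_smul, map_sub, ev_e, Sum.elim_inl, Sum.elim_inr, smul_eq_mul, abs_mul,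
        zero_sub, abs_neg]
      exact mul_le_one₀ (hε c) (abs_nonneg _) (hb.bd _)
    · obtain ⟨sel, μ, -, h2, -⟩ := id hb
      have h3 := h2 (n, y c) fun h => hc (by simp [wB, h])
      have h4 := h2 (n, y d) fun h => hd (by simp [wB, h])
      rw [hnd c d] at h3
      exact (hy c).2.symm.trans ((h3.trans h4.symm).trans (hy d).2)

end Pool.Agent.H87.WUR3
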